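import Pool.Agent.T6A.WorldMu

/-!
# The two halves of the mathematical side (MP_c6effb_co, T6-A): statements

`RuleStmt`: the random rule for arbitrary bounded rates `r`. `CertStmt Q`: the choice of the rates and
the inequality which they satisfy. `Lim Q` follows from both (`MathAsm.lean`).

For a vertex `v` with `g v = a` and a cluster `y`, `LB` is the expectation, given `g v = a`, of
`r v y 1{y ∈ L_v} (2 - X_v - ∑ u ∈ N(v), N_u / (1 + M_u))`: a lower bound of the probability that `v`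
is in `T` and goes to `y`.
-/

set_option autoImplicit false

open Finset

namespace Pool.Agent.T6A

noncomputable section

open Classical in
/-- The lower bound for the probability of `v ∈ T`, `b v = y`, given `g v = a`. -/
def LB {V ι : Type} [Fintype V] [Fintype ι] (F : SimpleGraph ι) (G : SimpleGraph V) (μ : ι → ℝ)
    (r : V → ι → ℝ) (v : V) (a y : ι) : ℝ :=
  EE (fun _ => μ) (fun h => (fun g : V → ι => r v y * (il F (nbh G v) y g *
    (2 - Xk F G r v g - ∑ u ∈ nbh G v, Nk F G r u y g / (1 + Mk F G r u y g))))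
      (Function.update h v a))

open Classical in
/-- What the rule delivers for the rates `r`: `δ` = error. -/
structure RuleOut {V ι Om : Type} [Fintype V] [Fintype ι] [Fintype Om] (X : World ι) (L : Low V ι)
    (Bd : ι → ι → Prop) (B : ℕ) (δ : ℝ) (μ : ι → ℝ) (r : V → ι → ℝ) (p : V → Om → ℝ)
    (g : (V → Om) → V → ι) (b : (V → Om) → V → Option ι) (Bn : V → Finset V) : Prop where
  law : IsLaw p
  loc : ∀ v, DepOn (fun ω => (g ω v, b ω v)) (Bn v)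
  ov : ∀ v, #{u | ¬ Disjoint (Bn v) (Bn u)} ≤ B
  mem : ∀ ω v y, b ω v = some y → y ∈ L.Bv v
  st : ∀ ω v y, b ω v = some y → ∀ u, L.G.Adj v u → ¬ X.F.Adj y (g ω u)
  tt : ∀ ω v y u y', b ω v = some y → b ω u = some y' → L.G.Adj v u → ¬ X.F.Adj y y'
  gm : ∀ v a, EE p (fun ω => if g ω v = a then 1 else 0) = μ a
  low : ∀ v a y, μ a * (LB X.F L.G μ r v a y - δ * r v y) ≤
    EE p (fun ω => if g ω v = a ∧ b ω v = some y then 1 else 0)
  bad : ∀ v a, EE p (fun ω => if g ω v = a ∧ ¬ zev L Bd g ω v ∧ badE L Bd g b ω v then 1 else 0)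
    ≤ μ a * δ
  zv : ∀ v, EE p (fun ω => if zev L Bd g ω v then 1 else 0) ≤ δ

/-- **RULE**: for all bounded rates there is a random rule. -/
def RuleStmt : Prop := ∀ (K : ℕ) (R δ : ℝ), 0 < δ → ∃ (B : ℕ) (ε : ℝ), 0 < ε ∧
  ∀ (V ι : Type) [Fintype V] [Fintype ι] (X : World ι) (L : Low V ι) (Bd : ι → ι → Prop)
    (μ : ι → ℝ) (r : V → ι → ℝ),
    (∀ v, L.d v ≤ K) → (∀ i i', Bd i i' → Bd i' i) → (∀ i, Bd i i) →
    (∀ i, ∀ S : Finset ι, (∀ i' ∈ S, Bd i i') → ∑ i' ∈ S, X.w i' ≤ ε) →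
    (∀ v, ∀ S : Finset ι, (∀ i ∈ S, i ∈ X.A ∧ i ∉ L.Av v) → ∑ i ∈ S, X.w i ≤ ε) →
    (∀ a, 0 ≤ μ a) → ∑ a, μ a = 1 → (∀ a, a ∉ X.A → μ a = 0) → (∀ a, μ a ≤ R * X.w a) →
    (∀ v y, 0 ≤ r v y) → (∀ v y, y ∉ L.Bv v → r v y = 0) → (∀ v y, r v y ≤ R * X.w y) →
    (∀ v, ∑ y, r v y ≤ R) →
    ∃ (Om : Type) (_ : Fintype Om) (p : V → Om → ℝ) (g : (V → Om) → V → ι)
      (b : (V → Om) → V → Option ι) (Bn : V → Finset V), RuleOut X L Bd B δ μ r p g b Bn

open Classical in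
/-- What the rates have to satisfy. -/
structure RateOK {V ι : Type} [Fintype V] [Fintype ι] (X : World ι) (L : Low V ι) (k e R η : ℝ)
    (r : V → ι → ℝ) : Prop where
  r0 : ∀ v y, 0 ≤ r v y
  rB : ∀ v y, y ∉ L.Bv v → r v y = 0
  rw : ∀ v y, r v y ≤ R * X.w y
  rs : ∀ v, ∑ y, r v y ≤ R
  rc : ∀ v y, 2 * (r v y * (1 - nb X.F X.mu y) ^ L.d v) ≤ (1 - e) * X.w y
  main : ∀ a ∈ X.A, (Fintype.card V : ℝ) - ∑ v, ∑ y, LB X.F L.G X.mu r v a y ≤
    ((1 - e) * X.sA - η) * k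

/-- **CERT**: there are rates with a sufficiently large value. -/
def CertStmt (Q : ℝ) : Prop := ∀ C : ℕ, ∃ e : ℝ, 0 < e ∧ e ≤ 1 / 8 ∧ ∀ K : ℕ,
  ∃ R η ε : ℝ, 0 < η ∧ 0 < ε ∧ ∀ (V ι : Type) [Fintype V] [Fintype ι] (X : World ι) (L : Low V ι)
    (Bd : ι → ι → Prop) (k : ℝ), WorldOK X L Bd k Q C K e ε → X.s < 1 + 3 * e →
    ∃ r : V → ι → ℝ, RateOK X L k e R η r

end

end Pool.Agent.T6A
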