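import Pool.Agent.T6A.NumStmt
import Pool.Agent.T6A.MathStmt

/-!
# `NumCert Q` implies `CertStmt Q` (MP_c6effb_co)
-/

set_option autoImplicit false
set_option linter.unusedSectionVars false

open Finset

namespace Pool.Agent.T6A

namespace CA

noncomputable section

open Classical

variable {ι : Type} [Fintype ι]

/-- the weights outside `A` -/
def wo (X : World ι) (b : ι) : ℝ := if b ∈ X.A then 0 else X.w b

theorem wo_nonneg (X : World ι) (b : ι) : 0 ≤ wo X b := by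
  unfold wo
  split_ifs
  · exact le_rfl
  · exact (X.pos b).le

theorem wo_le (X : World ι) (b : ι) : wo X b ≤ X.w b := by
  unfold wo
  split_ifs
  · exact (X.pos b).le
  · exact le_rfl

theorem mu_nonneg (X : World ι) (a : ι) : 0 ≤ X.mu a := by
  unfold World.mu
  split_ifs
  · exact div_nonneg (X.pos a).le (sum_nonneg fun i _ => (X.pos i).le)
  · exact le_rfl

theorem mu_sum (X : World ι) (h : 0 < X.sA) : ∑ a, X.mu a = 1 := by
  have e1 : ∑ a, X.mu a = ∑ a ∈ X.A, X.w a / X.sA := by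
    unfold World.mu
    rw [← sum_filter]
    refine sum_congr ?_ fun _ _ => rfl
    ext a; simp
  rw [e1, ← sum_div]
  exact div_self h.ne'

theorem mu_pos (X : World ι) (h : 0 < X.sA) {a : ι} (ha : a ∈ X.A) : 0 < X.mu a := by
  unfold World.mu
  rw [if_pos ha]
  exact div_pos (X.pos a) h

theorem sA_le (X : World ι) : X.sA ≤ X.s := X.max X.A X.ind

/-- The weight of a neighbourhood. -/
theorem row_le (X : World ι) (b : ι) : ∑ c, (if X.F.Adj b c then X.w c else 0) ≤ X.s := by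
  rw [← sum_filter]
  refine X.max _ fun c hc c' hc' hadj => ?_
  rw [mem_filter] at hc hc'
  refine X.tri {b, c, c'} ?_
  rw [SimpleGraph.is3Clique_triple_iff]
  exact ⟨hc.2, hc'.2, hadj⟩

theorem rowA (X : World ι) (b : ι) : ∑ c, (if X.F.Adj b c then wo X c else 0) ≤ X.s := by
  refine le_trans (sum_le_sum fun c _ => ?_) (row_le X b)
  split_ifs
  · exact wo_le X c
  · exact le_rfl

theorem rowB (X : World ι) (h : 0 < X.sA) (b : ι) :
    ∑ c, (if X.F.Adj b c then wo X c else 0) ≤ X.s - X.sA * nb X.F X.mu b := by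
  have h1 : X.sA * nb X.F X.mu b = ∑ c, (if X.F.Adj b c ∧ c ∈ X.A then X.w c else 0) := by
    unfold nb
    rw [mul_sum]
    refine sum_congr rfl fun c _ => ?_
    by_cases hb : X.F.Adj b c
    · rw [if_pos hb.symm]
      by_cases hc : c ∈ X.A
      · rw [if_pos ⟨hb, hc⟩, World.mu, if_pos hc, mul_div_cancel₀ _ h.ne']
      · rw [if_neg fun hh => hc hh.2, World.mu, if_neg hc, mul_zero]
    · rw [if_neg fun hh => hb hh.symm, if_neg fun hh => hb hh.1, mul_zero]
  rw [h1, le_sub_iff_add_le, ← sum_add_distrib]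
  refine le_trans (sum_le_sum fun c _ => ?_) (row_le X b)
  unfold wo
  by_cases hb : X.F.Adj b c <;> by_cases hc : c ∈ X.A <;> simp [hb, hc]

theorem sum_wo (X : World ι) : ∑ b, wo X b = X.tot - X.sA := by
  unfold wo World.tot World.sA
  rw [eq_sub_iff_add_eq, ← sum_filter_add_sum_filter_not univ (fun b => b ∈ X.A) X.w]
  rw [add_comm]
  congr 1
  · refine sum_congr ?_ fun _ _ => rfl
    ext b; simp
  · rw [← sum_filter_not_add_sum_filter univ (fun b => b ∈ X.A)]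
    rw [sum_congr (s₂ := univ.filter fun b => b ∈ X.A) rfl
      (g := fun _ => (0:ℝ)) fun b hb => if_pos (mem_filter.1 hb).2, sum_const_zero, add_zero]
    exact sum_congr rfl fun b hb => if_neg (mem_filter.1 hb).2

theorem sum_wo_B (X : World ι) {B : Finset ι} (hB : Disjoint B X.A) :
    ∑ b ∈ B, wo X b = ∑ b ∈ B, X.w b :=
  sum_congr rfl fun b hb => if_neg fun h => disjoint_left.1 hB hb h

theorem sum_wo_split (X : World ι) (B : Finset ι) :
    X.tot - X.sA = ∑ b ∈ B, wo X b + ∑ i ∈ univ.filter (fun i => i ∉ X.A ∧ i ∉ B), X.w i := by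
  rw [← sum_wo, ← sum_filter_add_sum_filter_not univ (fun b => b ∈ B)]
  congr 1
  · refine sum_congr ?_ fun _ _ => rfl
    ext b; simp
  · unfold wo
    rw [sum_filter, sum_filter]
    refine sum_congr rfl fun b _ => ?_
    by_cases h1 : b ∈ B <;> by_cases h2 : b ∈ X.A <;> simp [h1, h2]

end

end CA

/-- A vertex with rate `0`. -/
theorem vtx_zero {W sg ξ nuh : ℝ} (hξ : 0 < ξ) (d : ℕ) :
    VtxOK W sg 0 1 (1 / 2) 2 nuh ξ (4 * (ξ + 2 * ξ⁻¹) + 2 ^ d) d := by
  refine ⟨le_rfl, zero_le_one, by norm_num, fun _ => Or.inl le_rfl, ?_⟩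
  intro x hx0 hx1 hl
  have hx2 : 2 * x < 1 := by
    unfold lf at hl
    rcases lt_max_iff.1 hl with h | h
    · exact absurd h (lt_irrefl _)
    · linarith
  have hl1 : lf 2 x ≤ 1 := lf_le_one (by norm_num) hx0
  rcases Nat.eq_zero_or_pos d with hd | hd
  · subst hd
    simp
  · have hd1 : (1 : ℝ) ≤ d := by exact_mod_cast hd
    have hy : (1:ℝ) / 2 < 1 - x := by linarith
    have hyi : (1 - x)⁻¹ ≤ 2 := by
      rw [inv_le_comm₀ (by linarith) (by norm_num)]
      linarith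
    have hyi0 : 0 < (1 - x)⁻¹ := inv_pos.2 (by linarith)
    have hp : ((1 - x)⁻¹) ^ d ≤ 2 ^ d := pow_le_pow_left₀ hyi0.le hyi d
    have hξi : 0 < ξ⁻¹ := inv_pos.2 hξ
    have h1 : (1 + 1 / 2 * x) ^ 2 ≤ 2 := by nlinarith
    have h2 : ξ * (1 - x) + ξ⁻¹ * (1 ^ 2 / (1 - x)) ≤ ξ + 2 * ξ⁻¹ := by
      have e1 : ξ * (1 - x) ≤ ξ := by nlinarith
      have e2 : ξ⁻¹ * (1 ^ 2 / (1 - x)) ≤ 2 * ξ⁻¹ := by
        rw [one_pow, one_div, mul_comm]
        exact mul_le_mul_of_nonneg_right hyi hξi.le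
      linarith
    have h2' : 0 ≤ ξ * (1 - x) + ξ⁻¹ * (1 ^ 2 / (1 - x)) := by
      have : 0 < 1 - x := by linarith
      positivity
    have h3 : (1 + 1 / 2 * x) ^ 2 * (ξ * (1 - x) + ξ⁻¹ * (1 ^ 2 / (1 - x)))
        ≤ 2 * (ξ + 2 * ξ⁻¹) := mul_le_mul h1 h2 h2' (by norm_num)
    have h3' : 0 ≤ (1 + 1 / 2 * x) ^ 2 * (ξ * (1 - x) + ξ⁻¹ * (1 ^ 2 / (1 - x))) :=
      mul_nonneg (sq_nonneg _) h2'
    obtain ⟨T, hT⟩ : ∃ T, T = (1 + 1 / 2 * x) ^ 2 * (ξ * (1 - x) + ξ⁻¹ * (1 ^ 2 / (1 - x))) :=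
      ⟨_, rfl⟩
    rw [← hT] at h3 h3' ⊢
    have h4 : 1 ≤ ((1 - x)⁻¹) ^ d := by
      refine one_le_pow₀ ?_
      rw [one_le_inv₀ (by linarith)]
      linarith
    have h5 : (d : ℝ) * (T / 2) + (((1 - x)⁻¹) ^ d - 1)
        ≤ (d : ℝ) * (4 * (ξ + 2 * ξ⁻¹) + 2 ^ d) := by
      have e1 : (d : ℝ) * (T / 2) ≤ (d : ℝ) * (4 * (ξ + 2 * ξ⁻¹)) :=
        mul_le_mul_of_nonneg_left (by
          have : 0 < ξ + 2 * ξ⁻¹ := by positivity
          linarith) (by linarith)
      have e2 : ((1 - x)⁻¹) ^ d - 1 ≤ (d : ℝ) * 2 ^ d := by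
        have : (2:ℝ) ^ d ≤ (d : ℝ) * 2 ^ d := le_mul_of_one_le_left (by positivity) hd1
        linarith
      rw [mul_add]
      linarith
    have h6 : 0 ≤ (d : ℝ) * (T / 2) + (((1 - x)⁻¹) ^ d - 1) := by
      have : 0 ≤ (d : ℝ) * (T / 2) := by positivity
      linarith
    calc lf 2 x * ((d : ℝ) * (T / 2) + (((1 - x)⁻¹) ^ d - 1))
        ≤ 1 * ((d : ℝ) * (T / 2) + (((1 - x)⁻¹) ^ d - 1)) :=
          mul_le_mul_of_nonneg_right hl1 h6
      _ ≤ _ := by rw [one_mul]; exact h5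

open Classical in
/-- **CERT from the numbers.** -/
theorem cert_of_num {Q : ℝ} (hQ : 1 ≤ Q) (hN : NumCert Q) : CertStmt Q := by
  intro C
  obtain ⟨e1, η1, he1, hη1, hnum⟩ := hN C
  obtain ⟨e, he⟩ : ∃ e : ℝ, e = min (1 / 8) (min (e1 / 3) (η1 / (16 * C + 20))) := ⟨_, rfl⟩
  have hC : (0:ℝ) ≤ C := Nat.cast_nonneg C
  have he0 : 0 < e := by
    rw [he]
    refine lt_min (by norm_num) (lt_min (by positivity) (by positivity))
  have he8 : e ≤ 1 / 8 := by rw [he]; exact min_le_left _ _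
  have he3 : e ≤ e1 / 3 := by
    rw [he]; exact (min_le_right _ _).trans (min_le_left _ _)
  have heη : e * (16 * C + 20) ≤ η1 := by
    have : e ≤ η1 / (16 * C + 20) := by
      rw [he]; exact (min_le_right _ _).trans (min_le_right _ _)
    rwa [le_div_iff₀ (by positivity)] at this
  refine ⟨e, he0, he8, fun K => ?_⟩
  refine ⟨2 ^ K * (2 * C + 2), η1 / 4, 1, by positivity, one_pos, ?_⟩
  intro V ι _ _ X L Bd k H hs3
  -- basic facts
  have hsA : 0 < X.sA := by
    have h1 := H.s1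
    have h2 := H.s2
    linarith
  have hsAs := CA.sA_le X
  have hs0 : 0 < X.s := by linarith
  have hk := H.k0
  have hQ' := H.tot1
  have hμ0 := CA.mu_nonneg X
  have hμ1 := CA.mu_sum X hsA
  obtain ⟨ξ, sl, hξ, hsl0, hsl1, hdj⟩ := hnum X.tot X.s (by linarith) H.tot2
    (by have := H.s1; linarith) (by linarith)
  have hrow : ∀ a, 0 < X.mu a → (∑ c, if X.F.Adj a c then CA.wo X c else 0) ≤ X.s + e :=
    fun a _ => (CA.rowA X a).trans (by linarith)
  -- the choice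
  have hch : ∀ v, ∃ lam om inv nuh e0 : ℝ, 0 ≤ lam ∧ 2 * lam ≤ 1 - e ∧ 2 ≤ inv ∧
      VtxOK (∑ b ∈ L.Bv v, CA.wo X b) (X.s + e) lam om (1 / 2) inv nuh ξ e0 #(nbh L.G v) ∧
      ∀ J, 0 ≤ J → ∑ b ∈ L.Bv v, CA.wo X b - inv * (X.s + e) ≤ J →
        J ≤ ∑ b ∈ L.Bv v, CA.wo X b →
        (if v ∈ L.E then 0 else 1 - X.s + η1 - sl * ((L.d v : ℝ) + 2 * L.j v
          - 2 * (X.tot - 1)))
          ≤ 2 * (lam * J) - lam ^ 2 * (J * (J + (X.s + e) * ((#(nbh L.G v) : ℝ) * e0))) := by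
    intro v
    by_cases hv : v ∉ L.E ∧ 0 < 1 - X.s + η1 - sl * ((L.d v : ℝ) + 2 * L.j v
        - 2 * (X.tot - 1))
    · obtain ⟨hvE, hline⟩ := hv
      have hmind : X.tot - 1 - e1 ≤ ((L.d v : ℝ) + L.j v) * (X.s + e1) := by
        have h1 := H.mind v hvE
        have h2 : ((L.d v : ℝ) + L.j v) * (X.s + e) ≤ ((L.d v : ℝ) + L.j v) * (X.s + e1) :=
          mul_le_mul_of_nonneg_left (by linarith) (by positivity)
        linarith
      obtain ⟨lam, om, inv, nuh, e0, hNV⟩ := hdj (L.d v) (L.j v) hmind hline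
      have hW1 : X.tot - X.s - (if L.j v = 0 then 0 else X.s) - e1
          ≤ ∑ b ∈ L.Bv v, CA.wo X b := by
        have h1 := CA.sum_wo_split X (L.Bv v)
        have h2 := H.Bvw v hvE
        linarith
      have hW2 : ∑ b ∈ L.Bv v, CA.wo X b ≤ X.tot - X.s + e1 := by
        have h1 := CA.sum_wo_split X (L.Bv v)
        have h2 : 0 ≤ ∑ i ∈ univ.filter (fun i => i ∉ X.A ∧ i ∉ L.Bv v), X.w i :=
          sum_nonneg fun i _ => (X.pos i).le
        have h3 := H.s2
        linarith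
      refine ⟨lam, om, inv, nuh, e0, ?_, ?_, hNV.inv2, ?_, ?_⟩
      · exact (hNV.vtx _ (X.s + e) hW1 hW2 (by linarith) (by linarith)).lam0
      · have := hNV.lam1
        linarith
      · exact hNV.vtx _ (X.s + e) hW1 hW2 (by linarith) (by linarith)
      · intro J hJ0 hJ1 hJ2
        rw [if_neg hvE]
        exact hNV.line _ (X.s + e) J hW1 hW2 (by linarith) (by linarith) hJ1 hJ0 hJ2
    · refine ⟨0, 1, 2, 1, 4 * (ξ + 2 * ξ⁻¹) + 2 ^ #(nbh L.G v), le_rfl, by linarith, le_rfl,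
        vtx_zero hξ _, ?_⟩
      intro J _ _ _
      have e1' : 2 * ((0:ℝ) * J) - 0 ^ 2 * (J * (J + (X.s + e) * ((#(nbh L.G v) : ℝ)
          * (4 * (ξ + 2 * ξ⁻¹) + 2 ^ #(nbh L.G v))))) = 0 := by ring
      rw [e1']
      split_ifs with hvE
      · exact le_rfl
      · by_contra hcon
        push Not at hcon
        exact hv ⟨hvE, hcon⟩
  choose lam om inv nuh e0 hlam0 hlam1 hinv2 hvtx hline using hch
  -- properties of the profile
  have hlin0 : ∀ v b, 0 ≤ lin X.F X.mu (L.Bv v) (inv v) b := fun v b => lin_nonneg _ _ _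
  have hlin1 : ∀ v b, lin X.F X.mu (L.Bv v) (inv v) b ≤ 1 := fun v b =>
    lin_le_one hμ0 _ (by have := hinv2 v; linarith) b
  have hnlt : ∀ v b, 0 < lf (inv v) (nb X.F X.mu b) → nb X.F X.mu b < 1 / 2 := by
    intro v b h
    unfold lf at h
    rcases lt_max_iff.1 h with h | h
    · exact absurd h (lt_irrefl _)
    · have h2 := hinv2 v
      have h3 := nb_nonneg (F := X.F) hμ0 b
      nlinarith
  have hσb : ∀ b, 0 < CA.wo X b → (∃ v, b ∈ L.Bv v ∧ 0 < lf (inv v) (nb X.F X.mu b)) →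
      (∑ c, if X.F.Adj b c then CA.wo X c else 0) ≤ (X.s + e) * (1 - nb X.F X.mu b) := by
    rintro b _ ⟨v, _, hv⟩
    have h1 := hnlt v b hv
    have h2 := CA.rowB X hsA b
    have h3 := nb_nonneg (F := X.F) hμ0 b
    have h4 := H.s2
    nlinarith
  -- the rates
  refine ⟨rate X.F L.G X.mu (CA.wo X) fun v b => lam v * lin X.F X.mu (L.Bv v) (inv v) b, ?_⟩
  have hh0 : ∀ v b, 0 ≤ lam v * lin X.F X.mu (L.Bv v) (inv v) b := fun v b =>
    mul_nonneg (hlam0 v) (hlin0 v b)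
  have hpos : ∀ v b, 0 < lam v * lin X.F X.mu (L.Bv v) (inv v) b →
      nb X.F X.mu b < 1 / 2 := by
    intro v b h
    refine hnlt v b ?_
    have h2 : lin X.F X.mu (L.Bv v) (inv v) b ≠ 0 := by
      intro hc
      rw [hc, mul_zero] at h
      exact lt_irrefl _ h
    rw [lin_eq] at h2
    have h3 : lf (inv v) (nb X.F X.mu b) ≠ 0 := by
      intro hc
      rw [hc, ite_self] at h2
      exact h2 rfl
    exact lt_of_le_of_ne (lf_nonneg _ _) (Ne.symm h3)
  have hr0 : ∀ v b, 0 ≤ rate X.F L.G X.mu (CA.wo X)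
      (fun v b => lam v * lin X.F X.mu (L.Bv v) (inv v) b) v b := fun v b =>
    rate_nonneg hμ0 hμ1 (CA.wo_nonneg X) hh0 v b
  have hlamle : ∀ v, lam v ≤ 1 := fun v => by have := hlam1 v; linarith
  have hr1 : ∀ v b, rate X.F L.G X.mu (CA.wo X)
      (fun v b => lam v * lin X.F X.mu (L.Bv v) (inv v) b) v b ≤ 2 ^ K * CA.wo X b := by
    intro v b
    unfold rate
    rcases (hh0 v b).lt_or_eq with hpb | hz
    · have h1 := hpos v b hpb
      have h2 : (1:ℝ) / 2 ≤ 1 - nb X.F X.mu b := by linarith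
      have h3 : ((1:ℝ) / 2) ^ K ≤ (1 - nb X.F X.mu b) ^ #(nbh L.G v) := by
        have hd : #(nbh L.G v) ≤ K := H.dK v
        have h4 : 1 - nb X.F X.mu b ≤ 1 := by
          have := nb_nonneg (F := X.F) hμ0 b
          linarith
        calc ((1:ℝ) / 2) ^ K ≤ (1 / 2) ^ #(nbh L.G v) :=
              pow_le_pow_of_le_one (by norm_num) (by norm_num) hd
          _ ≤ _ := pow_le_pow_left₀ (by norm_num) h2 _
      have h5 : 0 < ((1:ℝ) / 2) ^ K := by positivity
      rw [div_le_iff₀ (h5.trans_le h3)]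
      have h6 : CA.wo X b * (lam v * lin X.F X.mu (L.Bv v) (inv v) b) ≤ CA.wo X b := by
        refine mul_le_of_le_one_right (CA.wo_nonneg X b) ?_
        exact mul_le_one₀ (hlamle v) (hlin0 v b) (hlin1 v b)
      have h7 : (2:ℝ) ^ K * ((1:ℝ) / 2) ^ K = 1 := by
        rw [← mul_pow]; norm_num
      calc _ ≤ CA.wo X b := h6
        _ = 2 ^ K * CA.wo X b * ((1:ℝ) / 2) ^ K := by
          rw [mul_right_comm, h7, one_mul]
        _ ≤ _ := mul_le_mul_of_nonneg_left h3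
          (mul_nonneg (by positivity) (CA.wo_nonneg X b))
    · have e2 : CA.wo X b * (lam v * lin X.F X.mu (L.Bv v) (inv v) b)
          / (1 - nb X.F X.mu b) ^ #(nbh L.G v) = 0 := by rw [← hz, mul_zero, zero_div]
      exact e2.le.trans (mul_nonneg (by positivity) (CA.wo_nonneg X b))
  have h2K : (1:ℝ) ≤ 2 ^ K := one_le_pow₀ (by norm_num)
  constructor
  · exact hr0
  · intro v y hy
    have e2 : lin X.F X.mu (L.Bv v) (inv v) y = 0 := by rw [lin_eq, if_neg hy]
    unfold rate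
    simp only [e2, mul_zero, zero_div]
  · intro v y
    refine (hr1 v y).trans ?_
    have h1 : (2:ℝ) ^ K * CA.wo X y ≤ 2 ^ K * X.w y :=
      mul_le_mul_of_nonneg_left (CA.wo_le X y) (by positivity)
    have h2 : (2:ℝ) ^ K * X.w y ≤ 2 ^ K * X.w y * (2 * C + 2) := by
      have := mul_nonneg (by positivity : (0:ℝ) ≤ 2 ^ K) (X.pos y).le
      nlinarith
    calc _ ≤ _ := h1
      _ ≤ _ := h2
      _ = _ := by ring
  · intro v
    calc _ ≤ ∑ y, 2 ^ K * CA.wo X y := sum_le_sum fun y _ => hr1 v y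
      _ = 2 ^ K * (X.tot - X.sA) := by rw [← mul_sum, CA.sum_wo]
      _ ≤ 2 ^ K * (2 * C + 2) := by
        refine mul_le_mul_of_nonneg_left ?_ (by positivity)
        have := H.tot2
        linarith
  · intro v y
    have h1 : rate X.F L.G X.mu (CA.wo X)
        (fun v b => lam v * lin X.F X.mu (L.Bv v) (inv v) b) v y
        * (1 - nb X.F X.mu y) ^ #(nbh L.G v)
        = CA.wo X y * (lam v * lin X.F X.mu (L.Bv v) (inv v) y) :=
      rate_mul hh0 (fun v b h => by have := hpos v b h; linarith) v y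
    have h2 : L.d v = #(nbh L.G v) := rfl
    rw [h2, h1]
    have h3 : lam v * lin X.F X.mu (L.Bv v) (inv v) y ≤ lam v :=
      mul_le_of_le_one_right (hlam0 v) (hlin1 v y)
    have h4 := mul_le_mul (CA.wo_le X y) h3 (hh0 v y) (X.pos y).le
    have h5 := mul_le_mul_of_nonneg_right (hlam1 v) (X.pos y).le
    nlinarith
  · intro a ha
    have hpa := CA.mu_pos X hsA ha
    have key := sum_pairT_ge_num (G := L.G) (c0 := 1 / 2) hμ0 hμ1 X.tri hξ (by norm_num)
      (CA.wo_nonneg X) (by linarith : 0 ≤ X.s + e) hrow L.Bv hσb hvtx hpa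
    have hcut0 := cut_nonneg (F := X.F) (μ := X.mu) hr0 nuh
    have hcut1 := cut_le (F := X.F) (μ := X.mu) hr0 nuh
    have hLB : ∑ v, pairT X.F L.G X.mu (rate X.F L.G X.mu (CA.wo X)
          fun v b => lam v * lin X.F X.mu (L.Bv v) (inv v) b)
        (cut X.F X.mu (rate X.F L.G X.mu (CA.wo X)
          fun v b => lam v * lin X.F X.mu (L.Bv v) (inv v) b) nuh) a v
        ≤ ∑ v, ∑ y, LB X.F L.G X.mu (rate X.F L.G X.mu (CA.wo X)
          fun v b => lam v * lin X.F X.mu (L.Bv v) (inv v) b) v a y :=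
      sum_le_sum fun v _ => pairT_le hμ0 hμ1 X.tri hr0 hcut0 hcut1 v a
    have hT : ∑ v, (if v ∈ L.E then 0 else 1 - X.s + η1 - sl * ((L.d v : ℝ) + 2 * L.j v
          - 2 * (X.tot - 1)))
        ≤ ∑ v, (2 * (lam v * ∑ b, CA.wo X b * lin X.F X.mu (L.Bv v) (inv v) b)
          - lam v ^ 2 * ((∑ b, CA.wo X b * lin X.F X.mu (L.Bv v) (inv v) b)
          * ((∑ b, CA.wo X b * lin X.F X.mu (L.Bv v) (inv v) b)
            + (X.s + e) * ((#(nbh L.G v) : ℝ) * e0 v)))) := by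
      refine sum_le_sum fun v _ => ?_
      have hi : 0 ≤ inv v := by have := hinv2 v; linarith
      exact hline v _ (sum_nonneg fun b _ => mul_nonneg (CA.wo_nonneg X b) (hlin0 v b))
        (J_ge hμ0 hμ1 (CA.wo_nonneg X) hrow (L.Bv v) hi) (J_le hμ0 (CA.wo_nonneg X) (L.Bv v) hi)
    have hall := hT.trans (key.trans hLB)
    -- the arithmetic
    obtain ⟨Nv, hNv⟩ : ∃ Nv : ℝ, Nv = (Fintype.card V : ℝ) := ⟨_, rfl⟩
    have hN1 : Nv ≤ k := hNv ▸ H.cV
    have hN2 : (1 - e) * k ≤ Nv := hNv ▸ H.cV'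
    obtain ⟨q, hq⟩ : ∃ q : ℝ, q = X.tot - 1 := ⟨_, rfl⟩
    have hq0 : 0 ≤ q := by rw [hq]; linarith
    have hq1 : q ≤ 2 * C + 1 := by rw [hq]; have := H.tot2; linarith
    have hE : ((#L.E : ℕ) : ℝ) ≤ e * k := H.Ec
    have hsum : Nv * (1 - X.s + η1 + 2 * sl * q) - sl * ∑ v, ((L.d v : ℝ) + 2 * L.j v)
        - ((#L.E : ℕ) : ℝ) * (1 - X.s + η1 + 2 * sl * q)
        ≤ ∑ v, (if v ∈ L.E then 0 else 1 - X.s + η1 - sl * ((L.d v : ℝ) + 2 * L.j v
          - 2 * (X.tot - 1))) := by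
      have h1 : ((#L.E : ℕ) : ℝ) * (1 - X.s + η1 + 2 * sl * q)
          = ∑ v, (if v ∈ L.E then (1 - X.s + η1 + 2 * sl * q) else 0) := by
        rw [← sum_filter, sum_const, nsmul_eq_mul]
        congr 3
        ext v; simp
      have h2 : Nv * (1 - X.s + η1 + 2 * sl * q) = ∑ _v : V, (1 - X.s + η1 + 2 * sl * q) := by
        rw [sum_const, nsmul_eq_mul, card_univ, hNv]
      rw [h1, h2, mul_sum, ← sum_sub_distrib, ← sum_sub_distrib]
      refine sum_le_sum fun v _ => ?_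
      have h3 : 0 ≤ sl * ((L.d v : ℝ) + 2 * L.j v) := by positivity
      split_ifs
      · linarith
      · rw [hq]
        have : sl * ((L.d v : ℝ) + 2 * L.j v - 2 * (X.tot - 1))
            = sl * ((L.d v : ℝ) + 2 * L.j v) - 2 * sl * (X.tot - 1) := by ring
        linarith
    have hdeg : ∑ v, ((L.d v : ℝ) + 2 * L.j v) ≤ 2 * (q + e) * k := by
      have := H.deg
      rw [hq]
      exact this
    have hdeg' := mul_le_mul_of_nonneg_left hdeg hsl0
    have hc0 : 0 ≤ 1 - X.s + η1 + 2 * sl * q := by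
      have : 0 ≤ sl * q := mul_nonneg hsl0 hq0
      nlinarith
    have hE' := mul_le_mul_of_nonneg_right hE hc0
    have hfin : Nv - (Nv * (1 - X.s + η1 + 2 * sl * q) - sl * (2 * (q + e) * k)
        - e * k * (1 - X.s + η1 + 2 * sl * q)) ≤ ((1 - e) * X.sA - η1 / 4) * k := by
      obtain ⟨M, hM⟩ : ∃ M : ℝ, M = k - Nv := ⟨_, rfl⟩
      have hM0 : 0 ≤ M := by linarith
      have hM1 : M ≤ e * k := by linarith
      have hslq : 0 ≤ sl * q := mul_nonneg hsl0 hq0
      have ha : M * (η1 + 2 * (sl * q)) ≤ e * k * (η1 + 2 * (sl * q)) :=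
        mul_le_mul_of_nonneg_right hM1 (by linarith)
      have hb : 0 ≤ M * X.s := mul_nonneg hM0 hs0.le
      have hek : 0 ≤ e * k := mul_nonneg he0.le hk.le
      have hc1 : e * k * (sl * q) ≤ e * k * (2 * C + 1) :=
        mul_le_mul_of_nonneg_left ((mul_le_of_le_one_left hq0 hsl1).trans hq1) hek
      have hd : e * k * sl ≤ e * k * 1 := mul_le_mul_of_nonneg_left hsl1 hek
      have he' : e * (16 * C + 20) * k ≤ η1 * k := mul_le_mul_of_nonneg_right heη hk.le
      have hf : e * (η1 * k) ≤ 1 / 8 * (η1 * k) :=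
        mul_le_mul_of_nonneg_right he8 (by positivity)
      have hg : (1 - e) * (X.s - e) * k ≤ (1 - e) * X.sA * k := by
        refine mul_le_mul_of_nonneg_right (mul_le_mul_of_nonneg_left ?_ (by linarith)) hk.le
        have := H.s2
        linarith
      have hee : 0 ≤ e * e * k := by positivity
      have hNM : Nv = k - M := by linarith
      rw [hNM]
      nlinarith [ha, hb, hc1, hd, he', hf, hg, hee, hek]
    have hres : (Fintype.card V : ℝ) - ∑ v, ∑ y, LB X.F L.G X.mu (rate X.F L.G X.mu (CA.wo X)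
          fun v b => lam v * lin X.F X.mu (L.Bv v) (inv v) b) v a y
        ≤ ((1 - e) * X.sA - η1 / 4) * k := by
      rw [← hNv]
      linarith
    exact hres

end Pool.Agent.T6A
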