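import Pool.Agent.T6A.NumStmt3
import Pool.Agent.T6A.CertAsm

/-!
# `NumCertR Q Q'` and `CertStmt Q'` imply `CertStmt Q` (MP_c6effb_co, CERT v3)
-/

set_option autoImplicit false
set_option linter.unusedSectionVars false

open Finset

namespace Pool.Agent.T6A

namespace CA3

theorem vtxG_zero {W A sg ξ : ℝ} (Al : ℝ → ℝ) (d : ℕ) :
    VtxG W A sg 0 1 1 0 0 (1 / 2) ξ Al (fun _ => 0) d where
  lam0 := le_rfl
  om0 := zero_le_one
  um0 := one_pos
  um1 := le_rfl
  C0 := le_rfl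
  f0 := fun _ => le_rfl
  f1 := fun _ h => absurd h (lt_irrefl _)
  X0 := fun _ => rfl
  kill := fun _ => Or.inl le_rfl
  prof := fun _ _ _ h => absurd h (lt_irrefl _)

/-- The condition `S1` of `MugOK` from a condition in one variable: `δ ≥ c s / (1 - s)`. -/
theorem S1_ofJ {f : ℝ → ℝ} {om k0 k1 k2 c s δ x : ℝ} {d : ℕ} (hf : 0 ≤ f x) (hc : 0 < c)
    (hx0 : 0 ≤ x) (hx1 : x < 1) (hs0 : 0 ≤ s) (hs1 : s < 1) (hδ : c * (s / (1 - s)) ≤ δ)
    (hone : f x / (1 - x) ^ d * (((d - 1 : ℕ) : ℝ) * (x * (1 - x) ^ (d - 1 - 1)) - c * om)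
      ≤ c * (k0 + k1 * f x + k2 * x)) :
    f x / (1 - x) ^ d * ((1 - x) ^ (d - 1) - (max 0 (1 - x / (1 - s))) ^ (d - 1)
        - δ * om) ≤ δ * (k0 + k1 * f x + k2 * x) := by
  have hy : 0 < 1 - x := by linarith
  have hs : 0 < 1 - s := by linarith
  have ho : 0 ≤ s / (1 - s) := div_nonneg hs0 hs.le
  have hδ0 : 0 ≤ δ := (mul_nonneg hc.le ho).trans hδ
  have h1 := pow_diff_le hx0 hx1 hs0 hs1 (d - 1)
  obtain ⟨q, hq⟩ : ∃ q, q = f x / (1 - x) ^ d := ⟨_, rfl⟩
  have hq0 : 0 ≤ q := by rw [hq]; positivity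
  obtain ⟨A, hA⟩ : ∃ A, A = ((d - 1 : ℕ) : ℝ) * (x * (1 - x) ^ (d - 1 - 1)) := ⟨_, rfl⟩
  have hA0 : 0 ≤ A := by rw [hA]; positivity
  rw [← hq, ← hA] at hone
  rw [← hA] at h1
  rw [← hq]
  have h2 : s / (1 - s) * A ≤ δ / c * A := by
    refine mul_le_mul_of_nonneg_right ?_ hA0
    rw [le_div_iff₀ hc, mul_comm]
    exact hδ
  have h3 : q * ((1 - x) ^ (d - 1) - (max 0 (1 - x / (1 - s))) ^ (d - 1) - δ * om)
      ≤ q * (δ / c * A - δ * om) := mul_le_mul_of_nonneg_left (by linarith) hq0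
  have h4 : q * (δ / c * A - δ * om) = δ / c * (q * (A - c * om)) := by
    field_simp
  have h5 : δ / c * (q * (A - c * om)) ≤ δ / c * (c * (k0 + k1 * f x + k2 * x)) :=
    mul_le_mul_of_nonneg_left hone (div_nonneg hδ0 hc.le)
  have h6 : δ / c * (c * (k0 + k1 * f x + k2 * x)) = δ * (k0 + k1 * f x + k2 * x) := by
    field_simp
  linarith

noncomputable section

open Classical

variable {V ι : Type} [Fintype V] [Fintype ι]

theorem worldOK_mono {X : World ι} {L : Low V ι} {Bd : ι → ι → Prop} {k Q Q' e e' ε ε' : ℝ}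
    {C K : ℕ} (H : WorldOK X L Bd k Q C K e ε) (he : e ≤ e') (hε : ε ≤ ε')
    (hQ : 1 + Q' - e' ≤ X.tot) : WorldOK X L Bd k Q' C K e' ε' := by
  have hk := H.k0
  constructor
  · exact H.k0
  · exact H.cV
  · refine le_trans ?_ H.cV'
    exact mul_le_mul_of_nonneg_right (by linarith) hk.le
  · exact hQ
  · exact H.tot2
  · refine H.deg.trans ?_
    exact mul_le_mul_of_nonneg_right (by linarith) hk.le
  · linarith [H.s1]
  · linarith [H.s2]
  · exact H.Ec.trans (mul_le_mul_of_nonneg_right he hk.le)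
  · intro v hv
    have h1 := H.mind v hv
    have h2 : ((L.d v : ℝ) + L.j v) * (X.s + e) ≤ ((L.d v : ℝ) + L.j v) * (X.s + e') :=
      mul_le_mul_of_nonneg_left (by linarith) (by positivity)
    linarith
  · exact H.dK
  · exact H.jK
  · exact H.bsymm
  · exact H.brefl
  · exact fun i => (H.bsmall i).trans hε
  · exact H.AvA
  · exact fun v => (H.Avw v).trans hε
  · exact H.BvA
  · exact H.BvE
  · exact fun v hv => (H.Bvw v hv).trans (by linarith)

theorem rateOK_mono {X : World ι} {L : Low V ι} {k e e' R R' η η' : ℝ} {r : V → ι → ℝ}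
    (H : RateOK X L k e' R' η' r) (he : e ≤ e') (hR : R' ≤ R) (hη : η ≤ η') (hk : 0 ≤ k) :
    RateOK X L k e R η r := by
  constructor
  · exact H.r0
  · exact H.rB
  · exact fun v y => (H.rw v y).trans (mul_le_mul_of_nonneg_right hR (X.pos y).le)
  · exact fun v => (H.rs v).trans hR
  · exact fun v y => (H.rc v y).trans
      (mul_le_mul_of_nonneg_right (by linarith) (X.pos y).le)
  · intro a ha
    refine (H.main a ha).trans (mul_le_mul_of_nonneg_right ?_ hk)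
    have : 0 ≤ X.sA := X.sA_nonneg
    have : (1 - e') * X.sA ≤ (1 - e) * X.sA := mul_le_mul_of_nonneg_right (by linarith) this
    linarith

/-- The choice for one vertex. -/
theorem choice {X : World ι} {B : Finset ι} {d j : ℕ} {e1 e η ξ sl : ℝ} {Al : ℝ → ℝ}
    (hsA : 0 < X.sA) (he0 : 0 ≤ e) (he : 25 * e ≤ e1) (hs2 : X.s - e ≤ X.sA)
    (hmiss : ∑ i ∈ univ.filter (fun i => i ∉ X.A ∧ i ∉ B), X.w i ≤ (if j = 0 then 0 else X.s) + e)
    (hf : ∃ f : ℝ → ℝ, NumVtx3 X.tot X.s e1 ξ sl η Al f d j) :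
    ∃ (f : ℝ → ℝ) (lam om um Xx C nuh : ℝ), (∀ x, 0 ≤ f x) ∧ (∀ x, f x ≤ 1) ∧
      (∀ x, 24 / 25 < x → f x = 0) ∧ 2 * lam ≤ 1 - e ∧
      VtxG (∑ b ∈ B, CA.wo X b) (∑ b, CA.wo X b * prg X.F X.mu B f b) (X.s + 25 * e)
        lam om um Xx C nuh ξ Al f d ∧
      1 - X.s + η - sl * (d + 2 * j - 2 * (X.tot - 1)) ≤
        2 * (lam * ∑ b, CA.wo X b * prg X.F X.mu B f b)
        - lam ^ 2 * ((∑ b, CA.wo X b * prg X.F X.mu B f b) ^ 2
          + (X.s + 25 * e) * C * (∑ b, CA.wo X b * prg X.F X.mu B f b)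
          + (X.s + 25 * e) ^ 2 * C ^ 2 * Xx ^ 2 / (4 * KZero.ss d um)) := by
  obtain ⟨f, hN⟩ := hf
  have hμ0 := CA.mu_nonneg X
  have hμ1 := CA.mu_sum X hsA
  have hsAs := CA.sA_le X
  obtain ⟨A, hA⟩ : ∃ A, A = ∑ b, CA.wo X b * prg X.F X.mu B f b := ⟨_, rfl⟩
  have hAB : A = ∑ b ∈ B, CA.wo X b * f (nb X.F X.mu b) := by rw [hA, sum_prg]
  have hA0 : 0 ≤ A := by
    rw [hAB]; exact sum_nonneg fun b _ => mul_nonneg (CA.wo_nonneg X b) (hN.f_nonneg _)
  have hAW : A ≤ ∑ b ∈ B, CA.wo X b := by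
    rw [hAB]; exact sum_le_sum fun b _ => mul_le_of_le_one_right (CA.wo_nonneg X b) (hN.f_le _)
  have hrow : ∀ a, 0 < X.mu a → (∑ c, if X.F.Adj a c then CA.wo X c else 0) ≤ X.s :=
    fun a _ => CA.rowA X a
  have hsn := sum_nb_le hμ0 hμ1 hrow
  have hline : ∀ α β : ℝ, 0 ≤ β → (∀ x, 0 ≤ x → x ≤ 1 → α - β * x ≤ f x) →
      α * (∑ b ∈ B, CA.wo X b) - β * (X.s + 25 * e) ≤ A := by
    intro α β hβ hl
    have h1 : ∑ b ∈ B, CA.wo X b * nb X.F X.mu b ≤ X.s :=
      (sum_le_sum_of_subset_of_nonneg (subset_univ _) fun b _ _ =>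
        mul_nonneg (CA.wo_nonneg X b) (nb_nonneg hμ0 b)).trans hsn
    have h2 : ∑ b ∈ B, CA.wo X b * (α - β * nb X.F X.mu b) ≤ A := by
      rw [hAB]
      exact sum_le_sum fun b _ => mul_le_mul_of_nonneg_left
        (hl _ (nb_nonneg hμ0 b) (nb_le_one hμ0 hμ1 b)) (CA.wo_nonneg X b)
    have h3 : ∑ b ∈ B, CA.wo X b * (α - β * nb X.F X.mu b)
        = α * (∑ b ∈ B, CA.wo X b) - β * ∑ b ∈ B, CA.wo X b * nb X.F X.mu b := by
      rw [mul_sum, mul_sum, ← sum_sub_distrib]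
      exact sum_congr rfl fun b _ => by ring
    rw [h3] at h2
    have h4 := mul_le_mul_of_nonneg_left h1 hβ
    nlinarith
  have hsplit := CA.sum_wo_split X B
  have hmiss0 : 0 ≤ ∑ i ∈ univ.filter (fun i => i ∉ X.A ∧ i ∉ B), X.w i :=
    sum_nonneg fun i _ => (X.pos i).le
  obtain ⟨lam, om, um, Xx, C, nuh, h1, h2, h3⟩ := hN.pt (∑ b ∈ B, CA.wo X b) (X.s + 25 * e) A
    (by linarith) (by linarith) (by linarith) (by linarith) hA0 hAW hline
  exact ⟨f, lam, om, um, Xx, C, nuh, hN.f_nonneg, hN.f_le, hN.f_cut, by linarith,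
    by rw [← hA]; exact h2, by rw [← hA]; exact h3⟩

/-- **CERT from the numbers of a range.** -/
theorem cert_of_numR {Q Q' : ℝ} (hQ : 1 ≤ Q) (hN : NumCertR Q Q') (hC : CertStmt Q') :
    CertStmt Q := by
  intro C
  obtain ⟨e1, η1, he1, hη1, hnum⟩ := hN
  obtain ⟨e', he'0, he'8, hcert⟩ := hC C
  obtain ⟨e, he⟩ : ∃ e : ℝ, e = min e' (min (e1 / 75) (η1 / (16 * C + 20))) := ⟨_, rfl⟩
  have hCC : (0:ℝ) ≤ C := Nat.cast_nonneg C
  have he0 : 0 < e := by
    rw [he]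
    refine lt_min he'0 (lt_min (by positivity) (by positivity))
  have hee' : e ≤ e' := by rw [he]; exact min_le_left _ _
  have he8 : e ≤ 1 / 8 := hee'.trans he'8
  have he3 : 75 * e ≤ e1 := by
    have : e ≤ e1 / 75 := by rw [he]; exact (min_le_right _ _).trans (min_le_left _ _)
    linarith
  have heη : e * (16 * C + 20) ≤ η1 := by
    have : e ≤ η1 / (16 * C + 20) := by
      rw [he]; exact (min_le_right _ _).trans (min_le_right _ _)
    rwa [le_div_iff₀ (by positivity)] at this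
  refine ⟨e, he0, he8, fun K => ?_⟩
  obtain ⟨R', η', ε', hη', hε', hcert'⟩ := hcert K
  refine ⟨max R' (25 ^ K * (2 * C + 2)), min η' (η1 / 4), ε', lt_min hη' (by positivity), hε', ?_⟩
  intro V ι _ _ X L Bd k H hs3
  have hk := H.k0
  by_cases hbig : 1 + Q' < X.tot
  · -- the other certificate
    have hW := worldOK_mono (Q' := Q') H hee' le_rfl (by linarith)
    obtain ⟨r, hr⟩ := hcert' V ι X L Bd k hW (by linarith)
    exact ⟨r, rateOK_mono hr hee' (le_max_left _ _) (min_le_left _ _) hk.le⟩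
  push Not at hbig
  -- basic facts
  have hsA : 0 < X.sA := by
    have h1 := H.s1
    have h2 := H.s2
    linarith
  have hsAs := CA.sA_le X
  have hs0 : 0 < X.s := by linarith
  have hQ' := H.tot1
  have hμ0 := CA.mu_nonneg X
  have hμ1 := CA.mu_sum X hsA
  obtain ⟨ξ, sl, Al, hξ, hsl0, hsl1, hAl, hdj⟩ := hnum X.tot X.s (by linarith) hbig
    (by have := H.s1; linarith) (by linarith)
  have hrow : ∀ a, 0 < X.mu a → (∑ c, if X.F.Adj a c then CA.wo X c else 0) ≤ X.s + 25 * e :=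
    fun a _ => (CA.rowA X a).trans (by linarith)
  -- the choice
  have hch : ∀ v, ∃ (f : ℝ → ℝ) (lam om um Xx C nuh : ℝ), (∀ x, 0 ≤ f x) ∧ (∀ x, f x ≤ 1) ∧
      (∀ x, 24 / 25 < x → f x = 0) ∧ 2 * lam ≤ 1 - e ∧
      VtxG (∑ b ∈ L.Bv v, CA.wo X b) (∑ b, CA.wo X b * prg X.F X.mu (L.Bv v) f b) (X.s + 25 * e)
        lam om um Xx C nuh ξ Al f #(nbh L.G v) ∧
      (if v ∈ L.E then 0 else 1 - X.s + η1 - sl * ((L.d v : ℝ) + 2 * L.j v
          - 2 * (X.tot - 1))) ≤
        2 * (lam * ∑ b, CA.wo X b * prg X.F X.mu (L.Bv v) f b)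
        - lam ^ 2 * ((∑ b, CA.wo X b * prg X.F X.mu (L.Bv v) f b) ^ 2
          + (X.s + 25 * e) * C * (∑ b, CA.wo X b * prg X.F X.mu (L.Bv v) f b)
          + (X.s + 25 * e) ^ 2 * C ^ 2 * Xx ^ 2 / (4 * KZero.ss #(nbh L.G v) um)) := by
    intro v
    by_cases hv : v ∉ L.E ∧ 0 < 1 - X.s + η1 - sl * ((L.d v : ℝ) + 2 * L.j v
        - 2 * (X.tot - 1))
    · obtain ⟨hvE, hline⟩ := hv
      have hmind : X.tot - 1 - e1 ≤ ((L.d v : ℝ) + L.j v) * (X.s + e1) := by
        have h1 := H.mind v hvE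
        have h2 : ((L.d v : ℝ) + L.j v) * (X.s + e) ≤ ((L.d v : ℝ) + L.j v) * (X.s + e1) :=
          mul_le_mul_of_nonneg_left (by linarith) (by positivity)
        linarith
      have hc := choice (X := X) (B := L.Bv v) hsA he0.le (by linarith) H.s2
        (H.Bvw v hvE) (hdj (L.d v) (L.j v) hmind hline)
      rw [if_neg hvE]
      exact hc
    · refine ⟨fun _ => 0, 0, 1, 1, 0, 0, 1 / 2, fun _ => le_rfl, fun _ => zero_le_one,
        fun _ _ => rfl, by linarith, vtxG_zero Al _, ?_⟩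
      have e2 : ∑ b, CA.wo X b * prg X.F X.mu (L.Bv v) (fun _ => (0:ℝ)) b = 0 :=
        sum_eq_zero fun b _ => by unfold prg; split_ifs <;> simp
      rw [e2]
      simp only [mul_zero, ne_eq, OfNat.ofNat_ne_zero, not_false_eq_true, zero_pow, zero_mul,
        sub_zero]
      split_ifs with hvE
      · exact le_rfl
      · by_contra hcon
        push Not at hcon
        exact hv ⟨hvE, hcon⟩
  choose f lam om um Xx Cc nuh hf0 hf1 hfc hlam1 hvtx hline using hch
  have hlam0 : ∀ v, 0 ≤ lam v := fun v => (hvtx v).lam0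
  -- properties of the profile
  have hp0 : ∀ v b, 0 ≤ prg X.F X.mu (L.Bv v) (f v) b := fun v b => prg_nonneg (hf0 v) b
  have hp1 : ∀ v b, prg X.F X.mu (L.Bv v) (f v) b ≤ 1 := fun v b => by
    unfold prg
    split_ifs
    · exact hf1 v _
    · exact zero_le_one
  have hnlt : ∀ v b, 0 < f v (nb X.F X.mu b) → nb X.F X.mu b ≤ 24 / 25 := by
    intro v b h
    by_contra hcon
    push Not at hcon
    rw [hfc v _ hcon] at h
    exact lt_irrefl _ h
  have hσb : ∀ b, 0 < CA.wo X b → (∃ v, b ∈ L.Bv v ∧ 0 < f v (nb X.F X.mu b)) →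
      (∑ c, if X.F.Adj b c then CA.wo X c else 0)
        ≤ (X.s + 25 * e) * (1 - nb X.F X.mu b) := by
    rintro b _ ⟨v, _, hv⟩
    obtain ⟨n, hn⟩ : ∃ n, n = nb X.F X.mu b := ⟨_, rfl⟩
    have h1 := hnlt v b hv
    have h2 := CA.rowB X hsA b
    have h3 := nb_nonneg (F := X.F) hμ0 b
    have h4 := H.s2
    rw [← hn] at h1 h2 h3 ⊢
    have h5 : (X.s - e) * n ≤ X.sA * n := mul_le_mul_of_nonneg_right h4 h3
    have h6 : 0 ≤ e * (25 - 26 * n) := mul_nonneg he0.le (by linarith)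
    nlinarith
  -- the rates
  refine ⟨rate X.F L.G X.mu (CA.wo X) fun v b => lam v * prg X.F X.mu (L.Bv v) (f v) b, ?_⟩
  have hh0 : ∀ v b, 0 ≤ lam v * prg X.F X.mu (L.Bv v) (f v) b := fun v b =>
    mul_nonneg (hlam0 v) (hp0 v b)
  have hpos : ∀ v b, 0 < lam v * prg X.F X.mu (L.Bv v) (f v) b →
      nb X.F X.mu b ≤ 24 / 25 := by
    intro v b h
    refine hnlt v b ?_
    have h2 : 0 < prg X.F X.mu (L.Bv v) (f v) b :=
      pos_of_mul_pos_right h (hlam0 v)
    exact (prg_pos h2).2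
  have hr0 : ∀ v b, 0 ≤ rate X.F L.G X.mu (CA.wo X)
      (fun v b => lam v * prg X.F X.mu (L.Bv v) (f v) b) v b := fun v b =>
    rate_nonneg hμ0 hμ1 (CA.wo_nonneg X) hh0 v b
  have hlamle : ∀ v, lam v ≤ 1 := fun v => by have := hlam1 v; linarith
  have hr1 : ∀ v b, rate X.F L.G X.mu (CA.wo X)
      (fun v b => lam v * prg X.F X.mu (L.Bv v) (f v) b) v b ≤ 25 ^ K * CA.wo X b := by
    intro v b
    unfold rate
    rcases (hh0 v b).lt_or_eq with hpb | hz
    · have h1 := hpos v b hpb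
      have h2 : (1:ℝ) / 25 ≤ 1 - nb X.F X.mu b := by linarith
      have h3 : ((1:ℝ) / 25) ^ K ≤ (1 - nb X.F X.mu b) ^ #(nbh L.G v) := by
        have hd : #(nbh L.G v) ≤ K := H.dK v
        calc ((1:ℝ) / 25) ^ K ≤ (1 / 25) ^ #(nbh L.G v) :=
              pow_le_pow_of_le_one (by norm_num) (by norm_num) hd
          _ ≤ _ := pow_le_pow_left₀ (by norm_num) h2 _
      have h5 : 0 < ((1:ℝ) / 25) ^ K := by positivity
      rw [div_le_iff₀ (h5.trans_le h3)]
      have h6 : CA.wo X b * (lam v * prg X.F X.mu (L.Bv v) (f v) b) ≤ CA.wo X b := by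
        refine mul_le_of_le_one_right (CA.wo_nonneg X b) ?_
        exact mul_le_one₀ (hlamle v) (hp0 v b) (hp1 v b)
      have h7 : (25:ℝ) ^ K * ((1:ℝ) / 25) ^ K = 1 := by
        rw [← mul_pow]; norm_num
      calc _ ≤ CA.wo X b := h6
        _ = 25 ^ K * CA.wo X b * ((1:ℝ) / 25) ^ K := by
          rw [mul_right_comm, h7, one_mul]
        _ ≤ _ := mul_le_mul_of_nonneg_left h3
          (mul_nonneg (by positivity) (CA.wo_nonneg X b))
    · have e2 : CA.wo X b * (lam v * prg X.F X.mu (L.Bv v) (f v) b)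
          / (1 - nb X.F X.mu b) ^ #(nbh L.G v) = 0 := by rw [← hz, mul_zero, zero_div]
      exact e2.le.trans (mul_nonneg (by positivity) (CA.wo_nonneg X b))
  have hRle : ∀ y, (25:ℝ) ^ K * (2 * C + 2) * X.w y ≤ max R' (25 ^ K * (2 * C + 2)) * X.w y :=
    fun y => mul_le_mul_of_nonneg_right (le_max_right _ _) (X.pos y).le
  constructor
  · exact hr0
  · intro v y hy
    have e2 : prg X.F X.mu (L.Bv v) (f v) y = 0 := by rw [prg, if_neg hy]
    unfold rate
    simp only [e2, mul_zero, zero_div]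
  · intro v y
    refine (hr1 v y).trans ?_
    have h1 : (25:ℝ) ^ K * CA.wo X y ≤ 25 ^ K * X.w y :=
      mul_le_mul_of_nonneg_left (CA.wo_le X y) (by positivity)
    have h2 : (25:ℝ) ^ K * X.w y ≤ 25 ^ K * X.w y * (2 * C + 2) := by
      have := mul_nonneg (by positivity : (0:ℝ) ≤ 25 ^ K) (X.pos y).le
      nlinarith
    calc _ ≤ _ := h1
      _ ≤ _ := h2
      _ = 25 ^ K * (2 * C + 2) * X.w y := by ring
      _ ≤ _ := hRle y
  · intro v
    calc _ ≤ ∑ y, 25 ^ K * CA.wo X y := sum_le_sum fun y _ => hr1 v y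
      _ = 25 ^ K * (X.tot - X.sA) := by rw [← mul_sum, CA.sum_wo]
      _ ≤ 25 ^ K * (2 * C + 2) := by
        refine mul_le_mul_of_nonneg_left ?_ (by positivity)
        have := H.tot2
        linarith
      _ ≤ _ := le_max_right _ _
  · intro v y
    have h1 : rate X.F L.G X.mu (CA.wo X)
        (fun v b => lam v * prg X.F X.mu (L.Bv v) (f v) b) v y
        * (1 - nb X.F X.mu y) ^ #(nbh L.G v)
        = CA.wo X y * (lam v * prg X.F X.mu (L.Bv v) (f v) y) :=
      rate_mul hh0 (fun v b h => by have := hpos v b h; linarith) v y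
    have h2 : L.d v = #(nbh L.G v) := rfl
    rw [h2, h1]
    have h3 : lam v * prg X.F X.mu (L.Bv v) (f v) y ≤ lam v :=
      mul_le_of_le_one_right (hlam0 v) (hp1 v y)
    have h4 := mul_le_mul (CA.wo_le X y) h3 (hh0 v y) (X.pos y).le
    have h5 := mul_le_mul_of_nonneg_right (hlam1 v) (X.pos y).le
    nlinarith
  · intro a ha
    have hpa := CA.mu_pos X hsA ha
    have key := sum_pairB_ge_num (G := L.G) hμ0 hμ1 X.tri hξ hAl
      (CA.wo_nonneg X) (by linarith : 0 ≤ X.s + 25 * e) hrow L.Bv hσb hvtx hpa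
    have hcut0 := cut_nonneg (F := X.F) (μ := X.mu) hr0 nuh
    have hcut1 := cut_le (F := X.F) (μ := X.mu) hr0 nuh
    have hrn : ∀ u c, 0 < rate X.F L.G X.mu (CA.wo X)
        (fun v b => lam v * prg X.F X.mu (L.Bv v) (f v) b) u c → nb X.F X.mu c < 1 := by
      intro u c h
      have h1 : 0 < lam u * prg X.F X.mu (L.Bv u) (f u) c := by
        rcases (hh0 u c).lt_or_eq with h2 | h2
        · exact h2
        · have h3 : lam u * prg X.F X.mu (L.Bv u) (f u) c = 0 := h2.symm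
          unfold rate at h
          simp only [h3, mul_zero, zero_div] at h
          exact absurd h (lt_irrefl _)
      have := hpos u c h1
      linarith
    have hLB : ∑ v, pairB X.F L.G X.mu (rate X.F L.G X.mu (CA.wo X)
          fun v b => lam v * prg X.F X.mu (L.Bv v) (f v) b)
        (brj X.F L.G X.mu (cut X.F X.mu (rate X.F L.G X.mu (CA.wo X)
          fun v b => lam v * prg X.F X.mu (L.Bv v) (f v) b) nuh) a) a v
        ≤ ∑ v, ∑ y, LB X.F L.G X.mu (rate X.F L.G X.mu (CA.wo X)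
          fun v b => lam v * prg X.F X.mu (L.Bv v) (f v) b) v a y :=
      sum_le_sum fun v _ => exp1B hμ0 hμ1 X.tri hr0 hrn hcut0 hcut1 v a
    have hT : ∑ v, (if v ∈ L.E then 0 else 1 - X.s + η1 - sl * ((L.d v : ℝ) + 2 * L.j v
          - 2 * (X.tot - 1)))
        ≤ ∑ v, (2 * (lam v * ∑ b, CA.wo X b * prg X.F X.mu (L.Bv v) (f v) b)
        - lam v ^ 2 * ((∑ b, CA.wo X b * prg X.F X.mu (L.Bv v) (f v) b) ^ 2
          + (X.s + 25 * e) * Cc v * (∑ b, CA.wo X b * prg X.F X.mu (L.Bv v) (f v) b)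
          + (X.s + 25 * e) ^ 2 * Cc v ^ 2 * Xx v ^ 2
            / (4 * KZero.ss #(nbh L.G v) (um v)))) :=
      sum_le_sum fun v _ => hline v
    have hall := hT.trans (key.trans hLB)
    -- the arithmetic
    obtain ⟨Nv, hNv⟩ : ∃ Nv : ℝ, Nv = (Fintype.card V : ℝ) := ⟨_, rfl⟩
    have hN1 : Nv ≤ k := hNv ▸ H.cV
    have hN2 : (1 - e) * k ≤ Nv := hNv ▸ H.cV'
    obtain ⟨q, hq⟩ : ∃ q : ℝ, q = X.tot - 1 := ⟨_, rfl⟩
    have hq0 : 0 ≤ q := by rw [hq]; linarith
    have hq1 : q ≤ 2 * C + 1 := by rw [hq]; have := H.tot2; linarith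
    have hE : ((#L.E : ℕ) : ℝ) ≤ e * k := H.Ec
    have hsum : Nv * (1 - X.s + η1 + 2 * sl * q) - sl * ∑ v, ((L.d v : ℝ) + 2 * L.j v)
        - ((#L.E : ℕ) : ℝ) * (1 - X.s + η1 + 2 * sl * q)
        ≤ ∑ v, (if v ∈ L.E then 0 else 1 - X.s + η1 - sl * ((L.d v : ℝ) + 2 * L.j v
          - 2 * (X.tot - 1))) := by
      have h1 : ((#L.E : ℕ) : ℝ) * (1 - X.s + η1 + 2 * sl * q)
          = ∑ v, (if v ∈ L.E then (1 - X.s + η1 + 2 * sl * q) else 0) := by
        rw [← sum_filter, sum_const, nsmul_eq_mul]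
        congr 3
        ext v; simp
      have h2 : Nv * (1 - X.s + η1 + 2 * sl * q) = ∑ _v : V, (1 - X.s + η1 + 2 * sl * q) := by
        rw [sum_const, nsmul_eq_mul, card_univ, hNv]
      rw [h1, h2, mul_sum, ← sum_sub_distrib, ← sum_sub_distrib]
      refine sum_le_sum fun v _ => ?_
      have h3 : 0 ≤ sl * ((L.d v : ℝ) + 2 * L.j v) := by positivity
      split_ifs
      · linarith
      · rw [hq]
        have : sl * ((L.d v : ℝ) + 2 * L.j v - 2 * (X.tot - 1))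
            = sl * ((L.d v : ℝ) + 2 * L.j v) - 2 * sl * (X.tot - 1) := by ring
        linarith
    have hdeg : ∑ v, ((L.d v : ℝ) + 2 * L.j v) ≤ 2 * (q + e) * k := by
      have := H.deg
      rw [hq]
      exact this
    have hdeg' := mul_le_mul_of_nonneg_left hdeg hsl0
    have hc0 : 0 ≤ 1 - X.s + η1 + 2 * sl * q := by
      have : 0 ≤ sl * q := mul_nonneg hsl0 hq0
      nlinarith
    have hE' := mul_le_mul_of_nonneg_right hE hc0
    have hfin : Nv - (Nv * (1 - X.s + η1 + 2 * sl * q) - sl * (2 * (q + e) * k)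
        - e * k * (1 - X.s + η1 + 2 * sl * q)) ≤ ((1 - e) * X.sA - η1 / 4) * k := by
      obtain ⟨M, hM⟩ : ∃ M : ℝ, M = k - Nv := ⟨_, rfl⟩
      have hM0 : 0 ≤ M := by linarith
      have hM1 : M ≤ e * k := by linarith
      have hslq : 0 ≤ sl * q := mul_nonneg hsl0 hq0
      have ha : M * (η1 + 2 * (sl * q)) ≤ e * k * (η1 + 2 * (sl * q)) :=
        mul_le_mul_of_nonneg_right hM1 (by linarith)
      have hb : 0 ≤ M * X.s := mul_nonneg hM0 hs0.le
      have hek : 0 ≤ e * k := mul_nonneg he0.le hk.le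
      have hc1 : e * k * (sl * q) ≤ e * k * (2 * C + 1) :=
        mul_le_mul_of_nonneg_left ((mul_le_of_le_one_left hq0 hsl1).trans hq1) hek
      have hd : e * k * sl ≤ e * k * 1 := mul_le_mul_of_nonneg_left hsl1 hek
      have he' : e * (16 * C + 20) * k ≤ η1 * k := mul_le_mul_of_nonneg_right heη hk.le
      have hf : e * (η1 * k) ≤ 1 / 8 * (η1 * k) :=
        mul_le_mul_of_nonneg_right he8 (by positivity)
      have hg : (1 - e) * (X.s - e) * k ≤ (1 - e) * X.sA * k := by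
        refine mul_le_mul_of_nonneg_right (mul_le_mul_of_nonneg_left ?_ (by linarith)) hk.le
        have := H.s2
        linarith
      have hee : 0 ≤ e * e * k := by positivity
      have hNM : Nv = k - M := by linarith
      rw [hNM]
      nlinarith [ha, hb, hc1, hd, he', hf, hg, hee, hek]
    have hres : (Fintype.card V : ℝ) - ∑ v, ∑ y, LB X.F L.G X.mu (rate X.F L.G X.mu (CA.wo X)
          fun v b => lam v * prg X.F X.mu (L.Bv v) (f v) b) v a y
        ≤ ((1 - e) * X.sA - η1 / 4) * k := by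
      rw [← hNv]
      linarith
    refine hres.trans (mul_le_mul_of_nonneg_right ?_ hk.le)
    have := min_le_right η' (η1 / 4)
    linarith

end

end CA3

end Pool.Agent.T6A
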