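import Pool.Agent.T6A.CertProf

/-!
# T6-A, CERT v2, pieces A0 and A0' (helper56)
-/

set_option autoImplicit false

namespace Pool.Agent.T6A.Cert

namespace A0L

/-- `(1 - N x) (1 + x/2) ≤ 1 - x` -/
theorem fac {N x : ℝ} (hN : 3 / 2 ≤ N) (hx : 0 ≤ x) : (1 - N * x) * (1 + x / 2) ≤ 1 - x := by
  nlinarith [mul_nonneg (sub_nonneg.2 hN) hx,
    mul_nonneg (mul_nonneg (by linarith : (0 : ℝ) ≤ N) hx) hx]

/-- the bound for small and large `x` with the last term -/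
theorem gen (d : ℕ) (hd : 2 ≤ d) {N x : ℝ} (hN : 3 / 2 ≤ N) (hx : 0 ≤ x) (hx1 : N * x ≤ 1) :
    2 * (1 - N * x) ^ 2 * (1 + x / 2) ^ 2 / (1 - x) ≤
      29 / 25 + 21 / 25 * (1 - N * x) / (1 - x) ^ d := by
  have hx2 : x ≤ 2 / 3 := by nlinarith
  have hy : 0 < 1 - x := by linarith
  obtain ⟨l, hl⟩ : ∃ l, l = 1 - N * x := ⟨_, rfl⟩
  have h1 := fac hN hx
  rw [← hl] at h1 ⊢
  have hl0 : 0 ≤ l := by rw [hl]; linarith
  have hl1 : l ≤ 1 := by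
    rw [hl]
    have := mul_nonneg (by linarith : (0 : ℝ) ≤ N) hx
    linarith
  have hd' : (2 : ℝ) ≤ d := by exact_mod_cast hd
  -- the left side is at most `2 l (1 + x / 2)`
  have h2 : 2 * l ^ 2 * (1 + x / 2) ^ 2 / (1 - x) ≤ 2 * l * (1 + x / 2) := by
    rw [div_le_iff₀ hy]
    have h3 : 0 ≤ 2 * l * (1 + x / 2) := by positivity
    calc 2 * l ^ 2 * (1 + x / 2) ^ 2
        = 2 * l * (1 + x / 2) * (l * (1 + x / 2)) := by ring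
      _ ≤ _ := mul_le_mul_of_nonneg_left h1 h3
  -- Bernoulli
  have h4 : 1 + (d : ℝ) * x ≤ 1 / (1 - x) ^ d := by
    rw [le_div_iff₀ (pow_pos hy d)]
    have h5 : (1 + (d : ℝ) * x) ≤ (1 + x) ^ d := one_add_mul_le_pow (by linarith) d
    calc (1 + (d : ℝ) * x) * (1 - x) ^ d ≤ (1 + x) ^ d * (1 - x) ^ d :=
          mul_le_mul_of_nonneg_right h5 (pow_nonneg hy.le d)
      _ = (1 - x ^ 2) ^ d := by rw [← mul_pow]; ring
      _ ≤ 1 := pow_le_one₀ (by nlinarith) (by nlinarith [sq_nonneg x])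
  have h6 : l * (1 + (d : ℝ) * x) ≤ l / (1 - x) ^ d := by
    calc l * (1 + (d : ℝ) * x) ≤ l * (1 / (1 - x) ^ d) :=
          mul_le_mul_of_nonneg_left h4 hl0
      _ = _ := by ring
  have h7 : 2 * l * (1 + x / 2) ≤ 29 / 25 + 21 / 25 * (l * (1 + (d : ℝ) * x)) := by
    have h8 : 0 ≤ l * x := mul_nonneg hl0 hx
    nlinarith [mul_nonneg h8 (by linarith : (0 : ℝ) ≤ (d : ℝ) - 2)]
  refine h2.trans (h7.trans ?_)
  have e : 21 / 25 * l / (1 - x) ^ d = 21 / 25 * (l / (1 - x) ^ d) := by ring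
  rw [e]
  linarith

/-- `(1 - N x)² (1 + x/2)² ≤ (1 - x) (1 - (N - 1) x)²` -/
theorem sq {N x : ℝ} (hN : 3 / 2 ≤ N) (hx : 0 ≤ x) (hx1 : N * x ≤ 1) :
    (1 - N * x) ^ 2 * (1 + x / 2) ^ 2 ≤ (1 - x) * (1 - (N - 1) * x) ^ 2 := by
  have hx2 : x ≤ 2 / 3 := by nlinarith
  have h1 : (1 - x / 2 - x ^ 2 / 2) ^ 2 ≤ 1 - x := by
    have h0 : (1 - x) - (1 - x / 2 - x ^ 2 / 2) ^ 2 = x ^ 2 * (1 - x) * (3 + x) / 4 := by ring
    have h2 : 0 ≤ x ^ 2 * (1 - x) * (3 + x) / 4 := by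
      have : 0 ≤ 1 - x := by linarith
      positivity
    linarith
  have h3 : (1 - N * x) * (1 + x / 2) ≤ (1 - x / 2 - x ^ 2 / 2) * (1 - (N - 1) * x) := by
    have h0 : (1 - x / 2 - x ^ 2 / 2) * (1 - (N - 1) * x) - (1 - N * x) * (1 + x / 2) =
        (N - 1) * x ^ 2 + (N - 1) * x ^ 3 / 2 := by ring
    have h2 : 0 ≤ (N - 1) * x ^ 2 + (N - 1) * x ^ 3 / 2 := by
      have : 0 ≤ N - 1 := by linarith
      positivity
    linarith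
  have h4 : 0 ≤ (1 - N * x) * (1 + x / 2) := mul_nonneg (by linarith) (by linarith)
  calc (1 - N * x) ^ 2 * (1 + x / 2) ^ 2 = ((1 - N * x) * (1 + x / 2)) ^ 2 := by ring
    _ ≤ ((1 - x / 2 - x ^ 2 / 2) * (1 - (N - 1) * x)) ^ 2 := pow_le_pow_left₀ h4 h3 2
    _ = (1 - x / 2 - x ^ 2 / 2) ^ 2 * (1 - (N - 1) * x) ^ 2 := by ring
    _ ≤ _ := mul_le_mul_of_nonneg_right h1 (sq_nonneg _)

/-- the second bound from `(N - 1) x ≥ 0.2385` -/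
theorem gen' {N x : ℝ} (hN : 3 / 2 ≤ N) (hx : 0 ≤ x) (hx1 : N * x ≤ 1)
    (h : 477 / 2000 ≤ (N - 1) * x) :
    2 * (1 - N * x) ^ 2 * (1 + x / 2) ^ 2 / (1 - x) ≤ 29 / 25 := by
  have hx2 : x ≤ 2 / 3 := by nlinarith
  rw [div_le_iff₀ (by linarith)]
  have h1 := sq hN hx hx1
  have h2 : (1 - (N - 1) * x) ^ 2 ≤ 29 / 50 := by
    have h3 : 0 ≤ 1 - (N - 1) * x := by nlinarith
    nlinarith
  have h4 : (1 - x) * (1 - (N - 1) * x) ^ 2 ≤ (1 - x) * (29 / 50) :=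
    mul_le_mul_of_nonneg_left h2 (by linarith)
  calc 2 * (1 - N * x) ^ 2 * (1 + x / 2) ^ 2
      = 2 * ((1 - N * x) ^ 2 * (1 + x / 2) ^ 2) := by ring
    _ ≤ 2 * ((1 - x) * (29 / 50)) := by linarith
    _ = _ := by ring

/-- facts about the menu: `0 < mu < 1`, `0 < B`, `(1 - mu) N_d ≤ B`, `0.2385 B ≤ (N_d - 1)(1 - mu)` -/
theorem facts (d : ℕ) (mu B : ℝ) (hd : 10 ≤ d)
    (h : (mu = 37 / 200 ∧ B = 967 / 2000 * d - 9 / 200) ∨ (mu = 4 / 25 ∧ B = 459 / 1000 * d - 1 / 50) ∨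
      (mu = 3 / 25 ∧ B = 831 / 2000 * d + 1 / 20)) :
    0 < mu ∧ mu < 1 ∧ 0 < B ∧ (1 - mu) * Nd d ≤ B ∧ 477 / 2000 * B ≤ (Nd d - 1) * (1 - mu) := by
  have hd' : (10 : ℝ) ≤ d := by exact_mod_cast hd
  have hN : Nd d = 31 / 20 + (d : ℝ) / 7 := max_eq_right (by linarith)
  rw [hN]
  rcases h with ⟨rfl, rfl⟩ | ⟨rfl, rfl⟩ | ⟨rfl, rfl⟩
  · refine ⟨by norm_num, by norm_num, ?_, ?_, ?_⟩ <;> linarith
  · refine ⟨by norm_num, by norm_num, ?_, ?_, ?_⟩ <;> linarith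
  · refine ⟨by norm_num, by norm_num, ?_, ?_, ?_⟩ <;> linarith

/-- the two parts for the menu -/
theorem menu1 (d : ℕ) (mu B n : ℝ) (hd : 10 ≤ d)
    (h : (mu = 37 / 200 ∧ B = 967 / 2000 * d - 9 / 200) ∨ (mu = 4 / 25 ∧ B = 459 / 1000 * d - 1 / 50) ∨
      (mu = 3 / 25 ∧ B = 831 / 2000 * d + 1 / 20)) (hn : 0 ≤ n) (hB : B * n ≤ 1 - mu) :
    2 * (1 - Nd d * n) ^ 2 * (1 + n / 2) ^ 2 / (1 - n) ≤
      29 / 25 + 21 / 25 * (1 - Nd d * n) / (1 - n) ^ d := by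
  obtain ⟨_, h1, _, h3, _⟩ := facts d mu B hd h
  have hN := Nd_ge d
  have h5 : (1 - mu) * (Nd d * n) ≤ (1 - mu) * 1 := by
    calc (1 - mu) * (Nd d * n) = (1 - mu) * Nd d * n := by ring
      _ ≤ B * n := mul_le_mul_of_nonneg_right h3 hn
      _ ≤ _ := by linarith
  exact gen d (by omega) (by linarith) hn (le_of_mul_le_mul_left h5 (by linarith))

theorem menu2 (d : ℕ) (mu B n : ℝ) (hd : 10 ≤ d)
    (h : (mu = 37 / 200 ∧ B = 967 / 2000 * d - 9 / 200) ∨ (mu = 4 / 25 ∧ B = 459 / 1000 * d - 1 / 50) ∨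
      (mu = 3 / 25 ∧ B = 831 / 2000 * d + 1 / 20)) (hB : 1 - mu ≤ B * n) (hn1 : Nd d * n ≤ 1) :
    2 * (1 - Nd d * n) ^ 2 * (1 + n / 2) ^ 2 / (1 - n) ≤ 29 / 25 := by
  obtain ⟨_, h1, h2, _, h4⟩ := facts d mu B hd h
  have hN := Nd_ge d
  have hn : 0 ≤ n := by
    by_contra hc
    have : B * n < 0 := mul_neg_of_pos_of_neg h2 (not_le.1 hc)
    linarith
  refine gen' (by linarith) hn hn1 ?_
  have h5 : B * (477 / 2000) ≤ B * ((Nd d - 1) * n) := by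
    calc B * (477 / 2000) ≤ (Nd d - 1) * (1 - mu) := by linarith
      _ ≤ (Nd d - 1) * (B * n) := mul_le_mul_of_nonneg_left hB (by linarith)
      _ = _ := by ring
  exact le_of_mul_le_mul_left h5 h2

end A0L

/-- (A0), exactly the statement `A0` of helper22's `CertStmts` (`Menu` unfolded) -/
theorem a0 : ∀ (d : ℕ) (mu B n : ℝ), (10 ≤ d ∧
    ((mu = 37 / 200 ∧ B = 967 / 2000 * d - 9 / 200) ∨ (mu = 4 / 25 ∧ B = 459 / 1000 * d - 1 / 50) ∨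
      (mu = 3 / 25 ∧ B = 831 / 2000 * d + 1 / 20))) → 0 ≤ n → B * n ≤ 1 - mu →
    2 * (1 - Nd d * n) ^ 2 * (1 + n / 2) ^ 2 / (1 - n) ≤
      29 / 25 + 21 / 25 * (1 - Nd d * n) / (1 - n) ^ d :=
  fun d mu B n h hn hB => A0L.menu1 d mu B n h.1 h.2 hn hB

/-- (A0'), exactly the statement `A0'` of helper22's `CertStmts` (`Menu` unfolded) -/
theorem a0' : ∀ (d : ℕ) (mu B n : ℝ), (10 ≤ d ∧
    ((mu = 37 / 200 ∧ B = 967 / 2000 * d - 9 / 200) ∨ (mu = 4 / 25 ∧ B = 459 / 1000 * d - 1 / 50) ∨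
      (mu = 3 / 25 ∧ B = 831 / 2000 * d + 1 / 20))) → 1 - mu ≤ B * n → Nd d * n ≤ 1 →
    2 * (1 - Nd d * n) ^ 2 * (1 + n / 2) ^ 2 / (1 - n) ≤ 29 / 25 :=
  fun d mu B n h hB hn => A0L.menu2 d mu B n h.1 h.2 hB hn

end Pool.Agent.T6A.Cert
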