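import Mathlib

/-!
# CERT, LINE for hub 0 (MP_c6effb_co, T6-A, helper37)

`ρ = 1/(2q)`, `u = σ d/(2q)`, `aa = (W - 31/20 σ)/(2q)`, `J₁/(2q) = aa - u/7`, `Z/(2q) = aa + k u` with
`k = e_d - 1/7`, rate `lam = 1/Z`. The inequality `0 ≤ gg k ρ σ u` is `L Z ≤ J₁`, multiplied by `σ/(2q)`.
All inequalities in two variables are proved by their Bernstein coefficients on one box. The second end of the
interval of `J` follows from the first one and `W' - J₁ ≤ σ d e_d`.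
-/

set_option autoImplicit false

namespace Pool.Agent.T6A.Line0

noncomputable section

/-- `(W - 31/20 σ)/(2q)` -/
def aa (ρ σ : ℝ) : ℝ := 1 / 2 + ρ * (1 - 51 / 20 * σ)

/-- the inequality of the line at the lower end -/
def gg (k ρ σ u : ℝ) : ℝ :=
  σ * (aa ρ σ - u / 7) - (σ * (1451 / 1000 - σ) - 9 / 20 * u) * (aa ρ σ + k * u)

/-- the derivative of `gg` in `u` -/
def dd (k ρ σ u : ℝ) : ℝ :=
  -(σ / 7) + 9 / 20 * (aa ρ σ + k * u) - (σ * (1451 / 1000 - σ) - 9 / 20 * u) * k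

theorem gg_eq (k ρ σ u v : ℝ) : gg k ρ σ u =
    gg k ρ σ v + (u - v) * dd k ρ σ v + 9 / 20 * k * (u - v) ^ 2 := by
  unfold gg dd aa
  ring

theorem dd_eq (k ρ σ u v : ℝ) : dd k ρ σ u = dd k ρ σ v + 9 / 10 * k * (u - v) := by
  unfold dd aa
  ring

theorem gg_mono {k ρ σ u v w : ℝ} (hk : 0 ≤ k) (hd : 0 ≤ dd k ρ σ w)
    (hwv : w ≤ v) (hv : 0 ≤ gg k ρ σ v) (hvu : v ≤ u) : 0 ≤ gg k ρ σ u := by
  have h2 : 0 ≤ dd k ρ σ v := by
    rw [dd_eq k ρ σ v w]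
    have := mul_nonneg hk (sub_nonneg.2 hwv)
    linarith
  rw [gg_eq k ρ σ u v]
  have h3 := mul_nonneg (sub_nonneg.2 hvu) h2
  have h4 := mul_nonneg hk (sq_nonneg (u - v))
  linarith

theorem g0_pos (x y p q : ℝ) (hx : 0 ≤ x) (hy : 0 ≤ y) (hp : 0 ≤ p) (hq : 0 ≤ q) :
    0 ≤ (85643431/7168000 : ℝ) * (y * q^3) +
      (6604435681/107520000 : ℝ) * (y * p * q^2) +
      (871495227/5120000 : ℝ) * (y * p^2 * q) +
      (12981615551/107520000 : ℝ) * (y * p^3) +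
      (24166631/7168000 : ℝ) * (x * q^3) +
      (1721986081/107520000 : ℝ) * (x * p * q^2) +
      (495357307/5120000 : ℝ) * (x * p^2 * q) +
      (8768840831/107520000 : ℝ) * (x * p^3) := by
  positivity

theorem g0 (ρ σ : ℝ) (h0 : 0 ≤ ρ) (h1 : ρ ≤ 10/199) (h2 : 1/2 ≤ σ) (h3 : σ ≤ 7/10) :
    0 ≤ gg (45193/67200) ρ σ (1 / 2) := by
  have h := g0_pos ρ (10/199 - ρ) (σ - 1/2) (7/10 - σ) (by linarith) (by linarith) (by linarith) (by linarith)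
  refine h.trans (le_of_eq ?_)
  simp only [gg, aa]
  ring

theorem g1_pos (x y p q : ℝ) (hx : 0 ≤ x) (hy : 0 ≤ y) (hp : 0 ≤ p) (hq : 0 ≤ q) :
    0 ≤ (45349820182347313801/213616402192515200 : ℝ) * (y^2 * q^3) +
      (1077414436915633063617/1068082010962576000 : ℝ) * (y^2 * p * q^2) +
      (3295968466984332679819/1068082010962576000 : ℝ) * (y^2 * p^2 * q) +
      (2445303130980436185207/1068082010962576000 : ℝ) * (y^2 * p^3) +
      (124973590075810167839/427232804385030400 : ℝ) * (x * y * q^3) +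
      (2259419344958350469613/2136164021925152000 : ℝ) * (x * y * p * q^2) +
      (9769642501709047930181/2136164021925152000 : ℝ) * (x * y * p^2 * q) +
      (7972421551732307831763/2136164021925152000 : ℝ) * (x * y * p^3) +
      (33720349333247940237/427232804385030400 : ℝ) * (x^2 * q^3) +
      (93586035620323142379/2136164021925152000 : ℝ) * (x^2 * p * q^2) +
      (3197681734003243770543/2136164021925152000 : ℝ) * (x^2 * p^2 * q) +
      (3110027889651719861349/2136164021925152000 : ℝ) * (x^2 * p^3) := by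
  positivity

theorem g1 (ρ σ : ℝ) (h0 : 0 ≤ ρ) (h1 : ρ ≤ 10/199) (h2 : 1/2 ≤ σ) (h3 : σ ≤ 7/10) :
    0 ≤ gg (122/175) ρ σ (((163/200) * (1 / 2 + ρ * (1 - 2 * σ)) - (37/200) * aa ρ σ - (-9/200) * (σ * ρ)) / (8170381/13440000)) := by
  have h := g1_pos ρ (10/199 - ρ) (σ - 1/2) (7/10 - σ) (by linarith) (by linarith) (by linarith) (by linarith)
  refine h.trans (le_of_eq ?_)
  simp only [gg, aa]
  ring

theorem g2_pos (x y p q : ℝ) (hx : 0 ≤ x) (hy : 0 ≤ y) (hp : 0 ≤ p) (hq : 0 ≤ q) :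
    0 ≤ (794061827124389/1276035075200 : ℝ) * (y^2 * q^3) +
      (34026636613386839/19140526128000 : ℝ) * (y^2 * p * q^2) +
      (22646664508189791/6380175376000 : ℝ) * (y^2 * p^2 * q) +
      (45824284318048369/19140526128000 : ℝ) * (y^2 * p^3) +
      (556913715537987/510414030080 : ℝ) * (x * y * q^3) +
      (92240590541491319/38281052256000 : ℝ) * (x * y * p * q^2) +
      (997581377054073083/191405261280000 : ℝ) * (x * y * p^2 * q) +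
      (243112971512942671/63801753760000 : ℝ) * (x * y * p^3) +
      (1193657681851157/2552070150400 : ℝ) * (x^2 * q^3) +
      (24085800525287641/38281052256000 : ℝ) * (x^2 * p * q^2) +
      (321733935439149353/191405261280000 : ℝ) * (x^2 * p^2 * q) +
      (274947105817014323/191405261280000 : ℝ) * (x^2 * p^3) := by
  positivity

theorem g2 (ρ σ : ℝ) (h0 : 0 ≤ ρ) (h1 : ρ ≤ 10/199) (h2 : 1/2 ≤ σ) (h3 : σ ≤ 7/10) :
    0 ≤ gg (31/42) ρ σ (((21/25) * (1 / 2 + ρ * (1 - 2 * σ)) - (4/25) * aa ρ σ - (-1/50) * (σ * ρ)) / (19969/35000)) := by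
  have h := g2_pos ρ (10/199 - ρ) (σ - 1/2) (7/10 - σ) (by linarith) (by linarith) (by linarith) (by linarith)
  refine h.trans (le_of_eq ?_)
  simp only [gg, aa]
  ring

theorem g3_pos (x y p q : ℝ) (hx : 0 ≤ x) (hy : 0 ≤ y) (hp : 0 ≤ p) (hq : 0 ≤ q) :
    0 ≤ (1514950788448197/796819984000 : ℝ) * (y^2 * q^3) +
      (52813856377905047/11952299760000 : ℝ) * (y^2 * p * q^2) +
      (21617383272594943/3984099920000 : ℝ) * (y^2 * p^2 * q) +
      (34762555266602737/11952299760000 : ℝ) * (y^2 * p^3) +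
      (5684077082281699/1593639968000 : ℝ) * (x * y * q^3) +
      (11312524891709093/1593639968000 : ℝ) * (x * y * p * q^2) +
      (965181094553051167/119522997600000 : ℝ) * (x * y * p^2 * q) +
      (530791233389578217/119522997600000 : ℝ) * (x * y * p^3) +
      (530760792593861/318727993600 : ℝ) * (x^2 * q^3) +
      (64230998063554301/23904599520000 : ℝ) * (x^2 * p * q^2) +
      (322586265049170877/119522997600000 : ℝ) * (x^2 * p^2 * q) +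
      (188210296497678847/119522997600000 : ℝ) * (x^2 * p^3) := by
  positivity

theorem g3 (ρ σ : ℝ) (h0 : 0 ≤ ρ) (h1 : ρ ≤ 10/199) (h2 : 1/2 ≤ σ) (h3 : σ ≤ 7/10) :
    0 ≤ gg (458/525) ρ σ (((22/25) * (1 / 2 + ρ * (1 - 2 * σ)) - (3/25) * aa ρ σ - (1/20) * (σ * ρ)) / (7057/14000)) := by
  have h := g3_pos ρ (10/199 - ρ) (σ - 1/2) (7/10 - σ) (by linarith) (by linarith) (by linarith) (by linarith)
  refine h.trans (le_of_eq ?_)
  simp only [gg, aa]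
  ring

theorem d0_pos (x y p q : ℝ) (hx : 0 ≤ x) (hy : 0 ≤ y) (hp : 0 ≤ p) (hq : 0 ≤ q) :
    0 ≤ (1216232081/17920000 : ℝ) * (y * q^2) +
      (6138527329/67200000 : ℝ) * (y * p * q) +
      (9907990901/268800000 : ℝ) * (y * p^2) +
      (1160792081/17920000 : ℝ) * (x * q^2) +
      (5337167329/67200000 : ℝ) * (x * p * q) +
      (7534150901/268800000 : ℝ) * (x * p^2) := by
  positivity

theorem d0 (ρ σ : ℝ) (h0 : 0 ≤ ρ) (h1 : ρ ≤ 10/199) (h2 : 1/2 ≤ σ) (h3 : σ ≤ 7/10) :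
    0 ≤ dd (45193/67200) ρ σ (1 / 2) := by
  have h := d0_pos ρ (10/199 - ρ) (σ - 1/2) (7/10 - σ) (by linarith) (by linarith) (by linarith) (by linarith)
  refine h.trans (le_of_eq ?_)
  simp only [dd, aa]
  ring

theorem d1_pos (x y p q : ℝ) (hx : 0 ≤ x) (hy : 0 ≤ y) (hp : 0 ≤ p) (hq : 0 ≤ q) :
    0 ≤ (1182259/17500 : ℝ) * (y * q^2) +
      (15682991/175000 : ℝ) * (y * p * q) +
      (6288201/175000 : ℝ) * (y * p^2) +
      (9024947/140000 : ℝ) * (x * q^2) +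
      (3399029/43750 : ℝ) * (x * p * q) +
      (18970929/700000 : ℝ) * (x * p^2) := by
  positivity

theorem d1 (ρ σ : ℝ) (h0 : 0 ≤ ρ) (h1 : ρ ≤ 10/199) (h2 : 1/2 ≤ σ) (h3 : σ ≤ 7/10) :
    0 ≤ dd (122/175) ρ σ (1 / 2) := by
  have h := d1_pos ρ (10/199 - ρ) (σ - 1/2) (7/10 - σ) (by linarith) (by linarith) (by linarith) (by linarith)
  refine h.trans (le_of_eq ?_)
  simp only [dd, aa]
  ring

theorem d2_pos (x y p q : ℝ) (hx : 0 ≤ x) (hy : 0 ≤ y) (hp : 0 ≤ p) (hq : 0 ≤ q) :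
    0 ≤ (107261/1600 : ℝ) * (y * q^2) +
      (3643093/42000 : ℝ) * (y * p * q) +
      (5777567/168000 : ℝ) * (y * p^2) +
      (102311/1600 : ℝ) * (x * q^2) +
      (3142243/42000 : ℝ) * (x * p * q) +
      (4293917/168000 : ℝ) * (x * p^2) := by
  positivity

theorem d2 (ρ σ : ℝ) (h0 : 0 ≤ ρ) (h1 : ρ ≤ 10/199) (h2 : 1/2 ≤ σ) (h3 : σ ≤ 7/10) :
    0 ≤ dd (31/42) ρ σ (1 / 2) := by
  have h := d2_pos ρ (10/199 - ρ) (σ - 1/2) (7/10 - σ) (by linarith) (by linarith) (by linarith) (by linarith)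
  refine h.trans (le_of_eq ?_)
  simp only [dd, aa]
  ring

theorem d3_pos (x y p q : ℝ) (hx : 0 ≤ x) (hy : 0 ≤ y) (hp : 0 ≤ p) (hq : 0 ≤ q) :
    0 ≤ (2286709/35000 : ℝ) * (y * q^2) +
      (40586249/525000 : ℝ) * (y * p * q) +
      (7699907/262500 : ℝ) * (y * p^2) +
      (8713711/140000 : ℝ) * (x * q^2) +
      (4290703/65625 : ℝ) * (x * p * q) +
      (43053631/2100000 : ℝ) * (x * p^2) := by
  positivity

theorem d3 (ρ σ : ℝ) (h0 : 0 ≤ ρ) (h1 : ρ ≤ 10/199) (h2 : 1/2 ≤ σ) (h3 : σ ≤ 7/10) :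
    0 ≤ dd (458/525) ρ σ (1 / 2) := by
  have h := d3_pos ρ (10/199 - ρ) (σ - 1/2) (7/10 - σ) (by linarith) (by linarith) (by linarith) (by linarith)
  refine h.trans (le_of_eq ?_)
  simp only [dd, aa]
  ring

theorem v0_pos (x y p q : ℝ) (hx : 0 ≤ x) (hy : 0 ≤ y) (hp : 0 ≤ p) (hq : 0 ≤ q) :
    0 ≤ (59066981/32681524 : ℝ) * (y * q) +
      (59066981/32681524 : ℝ) * (y * p) +
      (78790181/32681524 : ℝ) * (x * q) +
      (18941861/32681524 : ℝ) * (x * p) := by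
  positivity

theorem v0 (ρ σ : ℝ) (h0 : 0 ≤ ρ) (h1 : ρ ≤ 10/199) (h2 : 1/2 ≤ σ) (h3 : σ ≤ 7/10) :
    0 ≤ (((163/200) * (1 / 2 + ρ * (1 - 2 * σ)) - (37/200) * aa ρ σ - (-9/200) * (σ * ρ)) / (8170381/13440000)) - 1 / 2 := by
  have h := v0_pos ρ (10/199 - ρ) (σ - 1/2) (7/10 - σ) (by linarith) (by linarith) (by linarith) (by linarith)
  refine h.trans (le_of_eq ?_)
  simp only [aa]
  ring

theorem v1_pos (x y p q : ℝ) (hx : 0 ≤ x) (hy : 0 ≤ y) (hp : 0 ≤ p) (hq : 0 ≤ q) :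
    0 ≤ (762369/79876 : ℝ) * (y * q) +
      (762369/79876 : ℝ) * (y * p) +
      (800169/79876 : ℝ) * (x * q) +
      (624889/79876 : ℝ) * (x * p) := by
  positivity

theorem v1 (ρ σ : ℝ) (h0 : 0 ≤ ρ) (h1 : ρ ≤ 10/199) (h2 : 1/2 ≤ σ) (h3 : σ ≤ 7/10) :
    0 ≤ (((21/25) * (1 / 2 + ρ * (1 - 2 * σ)) - (4/25) * aa ρ σ - (-1/50) * (σ * ρ)) / (19969/35000)) - 1 / 2 := by
  have h := v1_pos ρ (10/199 - ρ) (σ - 1/2) (7/10 - σ) (by linarith) (by linarith) (by linarith) (by linarith)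
  refine h.trans (le_of_eq ?_)
  simp only [aa]
  ring

theorem v2_pos (x y p q : ℝ) (hx : 0 ≤ x) (hy : 0 ≤ y) (hp : 0 ≤ p) (hq : 0 ≤ q) :
    0 ≤ (713017/28228 : ℝ) * (y * q) +
      (713017/28228 : ℝ) * (y * p) +
      (715257/28228 : ℝ) * (x * q) +
      (631033/28228 : ℝ) * (x * p) := by
  positivity

theorem v2 (ρ σ : ℝ) (h0 : 0 ≤ ρ) (h1 : ρ ≤ 10/199) (h2 : 1/2 ≤ σ) (h3 : σ ≤ 7/10) :
    0 ≤ (((22/25) * (1 / 2 + ρ * (1 - 2 * σ)) - (3/25) * aa ρ σ - (1/20) * (σ * ρ)) / (7057/14000)) - 1 / 2 := by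
  have h := v2_pos ρ (10/199 - ρ) (σ - 1/2) (7/10 - σ) (by linarith) (by linarith) (by linarith) (by linarith)
  refine h.trans (le_of_eq ?_)
  simp only [aa]
  ring

theorem g4_pos (x y p q : ℝ) (hx : 0 ≤ x) (hy : 0 ≤ y) (hp : 0 ≤ p) (hq : 0 ≤ q) :
    0 ≤ (38629681/3128055 : ℝ) * (y * q^3) +
      (1208556651/10426850 : ℝ) * (y * p * q^2) +
      (3986164423/15640275 : ℝ) * (y * p^2 * q) +
      (225378843/1489550 : ℝ) * (y * p^3) +
      (11434757/6256110 : ℝ) * (x * q^3) +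
      (344064298/5213425 : ℝ) * (x * p * q^2) +
      (4410987289/25024440 : ℝ) * (x * p^2 * q) +
      (652715563/5958200 : ℝ) * (x * p^3) := by
  positivity

theorem g4 (ρ σ : ℝ) (h0 : 0 ≤ ρ) (h1 : ρ ≤ 10/199) (h2 : 7/10 ≤ σ) (h3 : σ ≤ 101/100) :
    0 ≤ gg (458/525) ρ σ (1 / 2) := by
  have h := g4_pos ρ (10/199 - ρ) (σ - 7/10) (101/100 - σ) (by linarith) (by linarith) (by linarith) (by linarith)
  refine h.trans (le_of_eq ?_)
  simp only [gg, aa]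
  ring

theorem d4_pos (x y p q : ℝ) (hx : 0 ≤ x) (hy : 0 ≤ y) (hp : 0 ≤ p) (hq : 0 ≤ q) :
    0 ≤ (30799628/2522625 : ℝ) * (y * q^2) +
      (44658187/3603750 : ℝ) * (y * p * q) +
      (147516113/8408750 : ℝ) * (y * p^2) +
      (43053631/5045250 : ℝ) * (x * q^2) +
      (9649499/7207500 : ℝ) * (x * p * q) +
      (170961601/16817500 : ℝ) * (x * p^2) := by
  positivity

theorem d4 (ρ σ : ℝ) (h0 : 0 ≤ ρ) (h1 : ρ ≤ 10/199) (h2 : 7/10 ≤ σ) (h3 : σ ≤ 101/100) :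
    0 ≤ dd (458/525) ρ σ (1 / 2) := by
  have h := d4_pos ρ (10/199 - ρ) (σ - 7/10) (101/100 - σ) (by linarith) (by linarith) (by linarith) (by linarith)
  refine h.trans (le_of_eq ?_)
  simp only [dd, aa]
  ring

/-- The line, hub 0, lower end, in two variables. -/
theorem line_two (ρ σ u : ℝ) (h0 : 0 ≤ ρ) (h1 : ρ ≤ 10 / 199) (h2 : 1 / 2 ≤ σ) (h3 : σ ≤ 101 / 100)
    (hu : 1 / 2 ≤ u) :
    0 ≤ gg (458/525) ρ σ u ∨ σ ≤ 7 / 10 ∧
    (((37/200) * (aa ρ σ + (45193/67200) * u) ≤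
    (163/200) * (1 / 2 + ρ * (1 - 2 * σ)) - (967/2000) * u - (-9/200) * (σ * ρ) ∧
      0 ≤ gg (45193/67200) ρ σ u) ∨
    ((4/25) * (aa ρ σ + (122/175) * u) ≤
    (21/25) * (1 / 2 + ρ * (1 - 2 * σ)) - (459/1000) * u - (-1/50) * (σ * ρ) ∧
      0 ≤ gg (122/175) ρ σ u) ∨
    ((3/25) * (aa ρ σ + (31/42) * u) ≤
    (22/25) * (1 / 2 + ρ * (1 - 2 * σ)) - (831/2000) * u - (1/20) * (σ * ρ) ∧
      0 ≤ gg (31/42) ρ σ u)) := by
  rcases le_or_gt (7 / 10) σ with h4 | h4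
  · exact Or.inl (gg_mono (by norm_num) (d4 ρ σ h0 h1 h4 h3) le_rfl (g4 ρ σ h0 h1 h4 h3) hu)
  have h3 := h4.le
  by_cases c0 : (37/200) * (aa ρ σ + (45193/67200) * u) ≤
    (163/200) * (1 / 2 + ρ * (1 - 2 * σ)) - (967/2000) * u - (-9/200) * (σ * ρ)
  · exact Or.inr ⟨h3, Or.inl ⟨c0, gg_mono (by norm_num) (d0 ρ σ h0 h1 h2 h3) le_rfl
      (g0 ρ σ h0 h1 h2 h3) hu⟩⟩
  by_cases c1 : (4/25) * (aa ρ σ + (122/175) * u) ≤
    (21/25) * (1 / 2 + ρ * (1 - 2 * σ)) - (459/1000) * u - (-1/50) * (σ * ρ)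
  · refine Or.inr ⟨h3, Or.inr (Or.inl ⟨c1, gg_mono (by norm_num) (d1 ρ σ h0 h1 h2 h3)
      (by linarith [v0 ρ σ h0 h1 h2 h3]) (g1 ρ σ h0 h1 h2 h3) ?_⟩)⟩
    rw [not_le] at c0
    rw [div_le_iff₀ (by norm_num)]
    linarith
  by_cases c2 : (3/25) * (aa ρ σ + (31/42) * u) ≤
    (22/25) * (1 / 2 + ρ * (1 - 2 * σ)) - (831/2000) * u - (1/20) * (σ * ρ)
  · refine Or.inr ⟨h3, Or.inr (Or.inr ⟨c2, gg_mono (by norm_num) (d2 ρ σ h0 h1 h2 h3)
      (by linarith [v1 ρ σ h0 h1 h2 h3]) (g2 ρ σ h0 h1 h2 h3) ?_⟩)⟩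
    rw [not_le] at c1
    rw [div_le_iff₀ (by norm_num)]
    linarith
  refine Or.inl (gg_mono (by norm_num) (d3 ρ σ h0 h1 h2 h3)
      (by linarith [v2 ρ σ h0 h1 h2 h3]) (g3 ρ σ h0 h1 h2 h3) ?_)
  rw [not_le] at c2
  rw [div_le_iff₀ (by norm_num)]
  linarith

/-- From the inequality at the lower end to the data of one vertex. -/
theorem finish {sg mu B L J A Z W W' : ℝ} {P Q : Prop} (hL : L * Z ≤ J) (hZ : Z = J + A)
    (h4 : 4 ≤ Z) (hJW : J ≤ W') (hA : W' - J ≤ A)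
    (hP : P ∨ Q ∧ mu * Z ≤ (1 - mu) * (W - sg) - B * sg ∧ 29 / 25 * W' + 42 / 25 * sg ≤ 21 / 25 * Z ∧
      3 / 10 * W' ≤ (1 - mu) / 2 * Z) :
    (P ∨ Q ∧ mu ≤ (1 / Z) * ((1 - mu) * (W - sg) - B * sg) ∧
      (1 / Z) * (29 / 25 * W' + 42 / 25 * sg) ≤ 21 / 25 ∧ (1 / Z) * (3 / 10) * W' ≤ (1 - mu) / 2) ∧
    0 ≤ 1 / Z ∧ 1 / Z ≤ 1 / 4 ∧ L ≤ (1 / Z) * J * (2 - (1 / Z) * (J + A)) ∧
    L ≤ (1 / Z) * W' * (2 - (1 / Z) * (W' + A)) := by
  have hZ0 : 0 < Z := by linarith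
  have e1 : (1 / Z) * Z = 1 := by field_simp
  refine ⟨?_, by positivity, ?_, ?_, ?_⟩
  · rcases hP with hP | ⟨z, a, b, c⟩
    · exact Or.inl hP
    · refine Or.inr ⟨z, ?_, ?_, ?_⟩
      · rw [one_div, inv_mul_eq_div, le_div_iff₀ hZ0]; exact a
      · rw [one_div, inv_mul_eq_div, div_le_iff₀ hZ0]; exact b
      · rw [mul_assoc, one_div, inv_mul_eq_div, div_le_iff₀ hZ0]; exact c
  · exact one_div_le_one_div_of_le (by norm_num) h4
  · rw [← hZ, e1]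
    have : (1 / Z) * J * (2 - 1) = J / Z := by ring
    rw [this, le_div_iff₀ hZ0]
    exact hL
  · have h1 : (1 / Z) * W' * (2 - (1 / Z) * (W' + A)) = (W' * (2 * Z - (W' + A))) / Z ^ 2 := by
      field_simp
    rw [h1, le_div_iff₀ (by positivity)]
    have h2 : L * Z * Z ≤ J * Z := mul_le_mul_of_nonneg_right hL hZ0.le
    have h3 : 0 ≤ (W' - J) * (A - (W' - J)) := mul_nonneg (by linarith) (by linarith)
    rw [hZ] at *
    nlinarith

/-- The inequality at the lower end in the original variables. -/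
theorem lower {q sg d e J A Z L : ℝ} (hq : 0 < q) (hs : 0 < sg)
    (hJ : J = q + 1 - sg - (31 / 20 + d / 7) * sg) (hA : A = sg * (d * e)) (hZ : Z = J + A)
    (hL : L = 1 - sg - 9 / 20 * (d / (2 * q) - 1) + 1 / 1000)
    (h : 0 ≤ gg (e - 1 / 7) (1 / (2 * q)) sg (sg * d / (2 * q))) : L * Z ≤ J := by
  have h1 : gg (e - 1 / 7) (1 / (2 * q)) sg (sg * d / (2 * q)) = sg / (2 * q) * (J - L * Z) := by
    rw [hL, hZ, hA, hJ]
    unfold gg aa
    field_simp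
    ring
  rw [h1] at h
  have h2 : 0 < sg / (2 * q) := by positivity
  have h3 : 0 ≤ J - L * Z := by
    by_contra h4
    have := mul_neg_of_pos_of_neg h2 (not_le.1 h4)
    linarith
  linarith

/-- (N1) in the original variables. -/
theorem n1 {q sg d e J A Z mu nu b1 b0 k : ℝ} (hq : 0 < q) (hk : k = e - 1 / 7)
    (hnu : nu = 1 - mu)
    (hJ : J = q + 1 - sg - (31 / 20 + d / 7) * sg) (hA : A = sg * (d * e)) (hZ : Z = J + A)
    (h : mu * (aa (1 / (2 * q)) sg + k * (sg * d / (2 * q))) ≤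
      nu * (1 / 2 + 1 / (2 * q) * (1 - 2 * sg)) - b1 * (sg * d / (2 * q)) -
        b0 * (sg * (1 / (2 * q)))) :
    mu * Z ≤ (1 - mu) * ((q + 1 - sg) - sg) - (b1 * d + b0) * sg := by
  subst hnu
  have h1 := mul_le_mul_of_nonneg_left h (by linarith : 0 ≤ 2 * q)
  have e1 : 2 * q * (mu * (aa (1 / (2 * q)) sg + k * (sg * d / (2 * q)))) = mu * Z := by
    rw [hZ, hA, hJ, hk]
    unfold aa
    field_simp
    ring
  have e2 : 2 * q * ((1 - mu) * (1 / 2 + 1 / (2 * q) * (1 - 2 * sg)) - b1 * (sg * d / (2 * q)) -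
        b0 * (sg * (1 / (2 * q)))) = (1 - mu) * ((q + 1 - sg) - sg) - (b1 * d + b0) * sg := by
    field_simp
    ring
  rw [e1, e2] at h1
  exact h1

/-- **LINE for hub 0**, with the definitions of `Nd`, `ed`, `Menu`, `Good` written out. -/
theorem line0 (q sg : ℝ) (d : ℕ) (hq : 199 / 20 ≤ q) (hs : 1 / 2 ≤ sg) (hs' : sg ≤ 101 / 100)
    (hd : q ≤ d * sg) :
    ∃ mu B lam : ℝ, (mu = 0 ∨
      (10 ≤ d ∧ ((mu = 37 / 200 ∧ B = 967 / 2000 * d - 9 / 200) ∨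
        (mu = 4 / 25 ∧ B = 459 / 1000 * d - 1 / 50) ∨ (mu = 3 / 25 ∧ B = 831 / 2000 * d + 1 / 20))) ∧
      mu ≤ lam * ((1 - mu) * ((q + 1 - sg) - sg) - B * sg) ∧
      lam * (29 / 25 * (q + 1 - sg + 1 / 1000) + 42 / 25 * sg) ≤ 21 / 25 ∧
      lam * (3 / 10) * (q + 1 - sg + 1 / 1000) ≤ (1 - mu) / 2) ∧
    0 ≤ lam ∧ lam ≤ 1 / 4 ∧
    1 - sg - 9 / 20 * (d / (2 * q) - 1) + 1 / 1000 ≤
      lam * ((q + 1 - sg) - max (57 / 20 : ℝ) (31 / 20 + (d : ℝ) / 7) * sg) *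
        (2 - lam * (((q + 1 - sg) - max (57 / 20 : ℝ) (31 / 20 + (d : ℝ) / 7) * sg) +
          sg * (d * ((21 / 25 + (1 - mu) ^ 2 / (21 / 25)) / 2)))) ∧
    1 - sg - 9 / 20 * (d / (2 * q) - 1) + 1 / 1000 ≤
      lam * (q + 1 - sg + 1 / 1000) * (2 - lam * ((q + 1 - sg + 1 / 1000) +
          sg * (d * ((21 / 25 + (1 - mu) ^ 2 / (21 / 25)) / 2)))) := by
  have hq0 : 0 < q := by linarith
  have hs0 : 0 < sg := by linarith
  have hd10 : 10 ≤ d := by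
    by_contra h
    have h1 : (d : ℝ) ≤ 9 := by
      have : d ≤ 9 := by omega
      exact_mod_cast this
    nlinarith
  have hd10' : (10 : ℝ) ≤ d := by exact_mod_cast hd10
  rw [max_eq_right (by linarith : (57 / 20 : ℝ) ≤ 31 / 20 + (d : ℝ) / 7)]
  have hr0 : 0 ≤ 1 / (2 * q) := by positivity
  have hr1 : 1 / (2 * q) ≤ 10 / 199 := by
    rw [div_le_div_iff₀ (by positivity) (by norm_num)]
    linarith
  have hu : 1 / 2 ≤ sg * d / (2 * q) := by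
    rw [div_le_div_iff₀ (by norm_num) (by positivity)]
    linarith
  have hsd : q ≤ sg * d := by linarith
  -- one row of the menu
  have key : ∀ mu B e : ℝ, e = (21 / 25 + (1 - mu) ^ 2 / (21 / 25)) / 2 → 67 / 100 ≤ e - 1 / 7 →
      0 ≤ gg (e - 1 / 7) (1 / (2 * q)) sg (sg * d / (2 * q)) →
      (mu = 0 ∨ (10 ≤ d ∧ ((mu = 37 / 200 ∧ B = 967 / 2000 * d - 9 / 200) ∨
        (mu = 4 / 25 ∧ B = 459 / 1000 * d - 1 / 50) ∨ (mu = 3 / 25 ∧ B = 831 / 2000 * d + 1 / 20))) ∧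
        mu * (q + 1 - sg - (31 / 20 + d / 7) * sg + sg * (d * e)) ≤
          (1 - mu) * ((q + 1 - sg) - sg) - B * sg ∧ sg ≤ 7 / 10 ∧ mu ≤ 37 / 200) →
      _ := fun mu B e he hk hg hm =>
    (⟨mu, B, 1 / (q + 1 - sg - (31 / 20 + d / 7) * sg + sg * (d * e)), by
      have hZ : q + 1 - sg - (31 / 20 + d / 7) * sg + sg * (d * e) =
          q + 1 - 51 / 20 * sg + (e - 1 / 7) * (sg * d) := by ring
      have hkd : 67 / 100 * q ≤ (e - 1 / 7) * (sg * d) :=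
        mul_le_mul hk hsd hq0.le (by linarith)
      have hkd' : 67 / 100 * (sg * d) ≤ (e - 1 / 7) * (sg * d) :=
        mul_le_mul_of_nonneg_right hk (by linarith)
      rw [← he]
      have F := finish (sg := sg) (mu := mu) (B := B)
        (L := 1 - sg - 9 / 20 * (d / (2 * q) - 1) + 1 / 1000)
        (J := q + 1 - sg - (31 / 20 + d / 7) * sg) (A := sg * (d * e))
        (Z := q + 1 - sg - (31 / 20 + d / 7) * sg + sg * (d * e)) (W := q + 1 - sg)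
        (W' := q + 1 - sg + 1 / 1000) (P := mu = 0)
        (Q := (10 ≤ d ∧ ((mu = 37 / 200 ∧ B = 967 / 2000 * d - 9 / 200) ∨
        (mu = 4 / 25 ∧ B = 459 / 1000 * d - 1 / 50) ∨ (mu = 3 / 25 ∧ B = 831 / 2000 * d + 1 / 20))))
        (lower hq0 hs0 rfl rfl rfl rfl hg) rfl (by rw [hZ]; linarith) (by nlinarith)
        (by nlinarith) ?_
      · exact F
      · rcases hm with h | ⟨a, b, c, f⟩
        · exact Or.inl h
        · refine Or.inr ⟨a, b, ?_, ?_⟩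
          · rw [hZ]; nlinarith
          · rw [hZ]; nlinarith⟩ : ∃ mu B lam : ℝ, (mu = 0 ∨
      (10 ≤ d ∧ ((mu = 37 / 200 ∧ B = 967 / 2000 * d - 9 / 200) ∨
        (mu = 4 / 25 ∧ B = 459 / 1000 * d - 1 / 50) ∨ (mu = 3 / 25 ∧ B = 831 / 2000 * d + 1 / 20))) ∧
      mu ≤ lam * ((1 - mu) * ((q + 1 - sg) - sg) - B * sg) ∧
      lam * (29 / 25 * (q + 1 - sg + 1 / 1000) + 42 / 25 * sg) ≤ 21 / 25 ∧
      lam * (3 / 10) * (q + 1 - sg + 1 / 1000) ≤ (1 - mu) / 2) ∧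
    0 ≤ lam ∧ lam ≤ 1 / 4 ∧
    1 - sg - 9 / 20 * (d / (2 * q) - 1) + 1 / 1000 ≤
      lam * ((q + 1 - sg) - (31 / 20 + d / 7) * sg) *
        (2 - lam * (((q + 1 - sg) - (31 / 20 + d / 7) * sg) +
          sg * (d * ((21 / 25 + (1 - mu) ^ 2 / (21 / 25)) / 2)))) ∧
    1 - sg - 9 / 20 * (d / (2 * q) - 1) + 1 / 1000 ≤
      lam * (q + 1 - sg + 1 / 1000) * (2 - lam * ((q + 1 - sg + 1 / 1000) +
          sg * (d * ((21 / 25 + (1 - mu) ^ 2 / (21 / 25)) / 2)))))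
  rcases line_two (1 / (2 * q)) sg (sg * d / (2 * q)) hr0 hr1 hs hs' hu with
    h | ⟨h7, ⟨hN, h⟩ | ⟨hN, h⟩ | ⟨hN, h⟩⟩
  · exact key 0 0 (533/525) (by norm_num) (by norm_num) (by norm_num at h ⊢; exact h) (Or.inl rfl)
  · refine key (37/200) (967 / 2000 * d - 9 / 200) (54793/67200) (by norm_num) (by norm_num) (by norm_num at h ⊢; exact h)
      (Or.inr ⟨⟨hd10, Or.inl ⟨rfl, rfl⟩⟩, ?_, h7, by norm_num⟩)
    have N := n1 (q := q) (sg := sg) (e := 54793/67200) (mu := 37/200) (d := d) hq0 (by norm_num)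
      (by norm_num) rfl rfl rfl hN
    linarith
  · refine key (4/25) (459 / 1000 * d - 1 / 50) (21/25) (by norm_num) (by norm_num) (by norm_num at h ⊢; exact h)
      (Or.inr ⟨⟨hd10, Or.inr (Or.inl ⟨rfl, rfl⟩)⟩, ?_, h7, by norm_num⟩)
    have N := n1 (q := q) (sg := sg) (e := 21/25) (mu := 4/25) (d := d) hq0 (by norm_num)
      (by norm_num) rfl rfl rfl hN
    linarith
  · refine key (3/25) (831 / 2000 * d + 1 / 20) (37/42) (by norm_num) (by norm_num) (by norm_num at h ⊢; exact h)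
      (Or.inr ⟨⟨hd10, Or.inr (Or.inr ⟨rfl, rfl⟩)⟩, ?_, h7, by norm_num⟩)
    have N := n1 (q := q) (sg := sg) (e := 37/42) (mu := 3/25) (d := d) hq0 (by norm_num)
      (by norm_num) rfl rfl rfl hN
    linarith

end

end Pool.Agent.T6A.Line0
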