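import Mathlib

/-!
# Project T6A, certificate: LINE for vertices with a giant neighbour (MP_c6effb_co)

Normalized variables: `r = 1 / (2 q)`, `s` = weight of the independent sets, `u = s d r`,
`y = s (d + 2 j) r`. The value of the line, multiplied by `s`, is `s (1451/1000 - s) - 9/20 y`, with
`y ≥ u + 2 s r` and `y ≥ 1 - u`. The lower end is `J = 1/2 + r - 71/20 s r - u/7` (in units of `2 q`),
`Z = J + e u`.
-/

set_option autoImplicit false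
set_option linter.unusedVariables false

namespace Pool.Agent.T6A.Cert

/-- corner, s ≥ 13/20, mu = 0 (kappa = 458/525) -/
theorem hub_g0 (r s : ℝ) (hr0 : 0 ≤ r) (hr1 : r ≤ 10 / 199) (hs0 : 13 / 20 ≤ s) (hs1 : s ≤ 101 / 100) :
    (s * (1451 / 1000 - s) - 9 / 40 - 9 / 20 * (s * r)) *
      (1 / 2 + r - 71 / 20 * (s * r) + 458 / 525 * (1 / 2 - s * r)) ≤
    s * (1 / 2 + r - 71 / 20 * (s * r) - (1 / 2 - s * r) / 7) := by
  have h1 := mul_nonneg hr0 (sub_nonneg.2 hr1)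
  have h2 := mul_nonneg (sub_nonneg.2 hs0) (sub_nonneg.2 hs1)
  nlinarith [mul_nonneg h1 (sub_nonneg.2 hs0), mul_nonneg h1 h2, mul_nonneg h2 hr0,
    mul_nonneg h2 (sub_nonneg.2 hr1), mul_nonneg hr0 (sub_nonneg.2 hs0), mul_nonneg hr0 (sub_nonneg.2 hs1),
    mul_nonneg (sub_nonneg.2 hr1) (sub_nonneg.2 hs0), mul_nonneg (sub_nonneg.2 hr1) (sub_nonneg.2 hs1),
    mul_nonneg (mul_nonneg h2 (sub_nonneg.2 hs0)) hr0, mul_nonneg (mul_nonneg h2 (sub_nonneg.2 hs1)) hr0]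

theorem hub_g2 (r s : ℝ) (hr0 : 0 ≤ r) (hr1 : r ≤ 10 / 199) (hs0 : 14 / 25 ≤ s) (hs1 : s ≤ 13 / 20) :
    (s * (1451 / 1000 - s) - 9 / 40 - 9 / 20 * (s * r)) *
      (1 / 2 + r - 71 / 20 * (s * r) + 31 / 42 * (1 / 2 - s * r)) ≤
    s * (1 / 2 + r - 71 / 20 * (s * r) - (1 / 2 - s * r) / 7) := by
  have h1 := mul_nonneg hr0 (sub_nonneg.2 hr1)
  have h2 := mul_nonneg (sub_nonneg.2 hs0) (sub_nonneg.2 hs1)
  nlinarith [mul_nonneg h1 (sub_nonneg.2 hs0), mul_nonneg h1 h2, mul_nonneg h2 hr0,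
    mul_nonneg h2 (sub_nonneg.2 hr1), mul_nonneg hr0 (sub_nonneg.2 hs0), mul_nonneg hr0 (sub_nonneg.2 hs1),
    mul_nonneg (sub_nonneg.2 hr1) (sub_nonneg.2 hs0), mul_nonneg (sub_nonneg.2 hr1) (sub_nonneg.2 hs1),
    mul_nonneg (mul_nonneg h2 (sub_nonneg.2 hs0)) hr0, mul_nonneg (mul_nonneg h2 (sub_nonneg.2 hs1)) hr0]

theorem hub_g1 (r s : ℝ) (hr0 : 0 ≤ r) (hr1 : r ≤ 10 / 199) (hs0 : 1 / 2 ≤ s) (hs1 : s ≤ 14 / 25) :
    (s * (1451 / 1000 - s) - 9 / 40 - 9 / 20 * (s * r)) *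
      (1 / 2 + r - 71 / 20 * (s * r) + 122 / 175 * (1 / 2 - s * r)) ≤
    s * (1 / 2 + r - 71 / 20 * (s * r) - (1 / 2 - s * r) / 7) := by
  have h1 := mul_nonneg hr0 (sub_nonneg.2 hr1)
  have h2 := mul_nonneg (sub_nonneg.2 hs0) (sub_nonneg.2 hs1)
  nlinarith [mul_nonneg h1 (sub_nonneg.2 hs0), mul_nonneg h1 h2, mul_nonneg h2 hr0,
    mul_nonneg h2 (sub_nonneg.2 hr1), mul_nonneg hr0 (sub_nonneg.2 hs0), mul_nonneg hr0 (sub_nonneg.2 hs1),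
    mul_nonneg (sub_nonneg.2 hr1) (sub_nonneg.2 hs0), mul_nonneg (sub_nonneg.2 hr1) (sub_nonneg.2 hs1),
    mul_nonneg (mul_nonneg h2 (sub_nonneg.2 hs0)) hr0, mul_nonneg (mul_nonneg h2 (sub_nonneg.2 hs1)) hr0]

/-- u = ell, mu = 0, region II -/
theorem hub_gl (r s : ℝ) (hr0 : 0 ≤ r) (hr1 : r ≤ 10 / 199) (hs0 : 1 / 2 ≤ s) (hs1 : s ≤ 13 / 20) :
    (s * (1451 / 1000 - s) - 9 / 20 + 9 / 20 * (333 / 1000 + 21 / 100 * s)) *
      (1 / 2 + r - 71 / 20 * (s * r) + 458 / 525 * (333 / 1000 + 21 / 100 * s)) ≤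
    s * (1 / 2 + r - 71 / 20 * (s * r) - (333 / 1000 + 21 / 100 * s) / 7) := by
  have h1 := mul_nonneg hr0 (sub_nonneg.2 hr1)
  have h2 := mul_nonneg (sub_nonneg.2 hs0) (sub_nonneg.2 hs1)
  nlinarith [mul_nonneg h1 (sub_nonneg.2 hs0), mul_nonneg h1 h2, mul_nonneg h2 hr0,
    mul_nonneg h2 (sub_nonneg.2 hr1), mul_nonneg hr0 (sub_nonneg.2 hs0), mul_nonneg hr0 (sub_nonneg.2 hs1),
    mul_nonneg (sub_nonneg.2 hr1) (sub_nonneg.2 hs0), mul_nonneg (sub_nonneg.2 hr1) (sub_nonneg.2 hs1),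
    mul_nonneg (mul_nonneg h2 (sub_nonneg.2 hs0)) hr0, mul_nonneg (mul_nonneg h2 (sub_nonneg.2 hs1)) hr0]

theorem hub_ga (r s : ℝ) (hr0 : 0 ≤ r) (hr1 : r ≤ 10 / 199) (hs0 : 1 / 2 ≤ s) (hs1 : s ≤ 14 / 25) :
    (s * (1451 / 1000 - s) - 9 / 40 - 9 / 20 * (s * r)) *
      (1 / 2 + r - 71 / 20 * (s * r) + 31 / 42 * (12 / 25)) ≤
    s * (1 / 2 + r - 71 / 20 * (s * r) - (12 / 25) / 7) := by
  have h1 := mul_nonneg hr0 (sub_nonneg.2 hr1)
  have h2 := mul_nonneg (sub_nonneg.2 hs0) (sub_nonneg.2 hs1)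
  nlinarith [mul_nonneg h1 (sub_nonneg.2 hs0), mul_nonneg h1 h2, mul_nonneg h2 hr0,
    mul_nonneg h2 (sub_nonneg.2 hr1), mul_nonneg hr0 (sub_nonneg.2 hs0), mul_nonneg hr0 (sub_nonneg.2 hs1),
    mul_nonneg (sub_nonneg.2 hr1) (sub_nonneg.2 hs0), mul_nonneg (sub_nonneg.2 hr1) (sub_nonneg.2 hs1),
    mul_nonneg (mul_nonneg h2 (sub_nonneg.2 hs0)) hr0, mul_nonneg (mul_nonneg h2 (sub_nonneg.2 hs1)) hr0]

theorem hub_gb (r s : ℝ) (hr0 : 0 ≤ r) (hr1 : r ≤ 10 / 199) (hs0 : 1 / 2 ≤ s) (hs1 : s ≤ 14 / 25) :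
    (s * (1451 / 1000 - s) - 9 / 20 * (11 / 20) - 9 / 10 * (s * r)) *
      (1 / 2 + r - 71 / 20 * (s * r) + 31 / 42 * (11 / 20)) ≤
    s * (1 / 2 + r - 71 / 20 * (s * r) - (11 / 20) / 7) := by
  have h1 := mul_nonneg hr0 (sub_nonneg.2 hr1)
  have h2 := mul_nonneg (sub_nonneg.2 hs0) (sub_nonneg.2 hs1)
  nlinarith [mul_nonneg h1 (sub_nonneg.2 hs0), mul_nonneg h1 h2, mul_nonneg h2 hr0,
    mul_nonneg h2 (sub_nonneg.2 hr1), mul_nonneg hr0 (sub_nonneg.2 hs0), mul_nonneg hr0 (sub_nonneg.2 hs1),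
    mul_nonneg (sub_nonneg.2 hr1) (sub_nonneg.2 hs0), mul_nonneg (sub_nonneg.2 hr1) (sub_nonneg.2 hs1),
    mul_nonneg (mul_nonneg h2 (sub_nonneg.2 hs0)) hr0, mul_nonneg (mul_nonneg h2 (sub_nonneg.2 hs1)) hr0]

theorem hub_gc (r s : ℝ) (hr0 : 0 ≤ r) (hr1 : r ≤ 10 / 199) (hs0 : 1 / 2 ≤ s) (hs1 : s ≤ 13 / 20) :
    (s * (1451 / 1000 - s) - 9 / 20 * (13 / 20) - 9 / 10 * (s * r)) *
      (1 / 2 + r - 71 / 20 * (s * r) + 458 / 525 * (13 / 20)) ≤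
    s * (1 / 2 + r - 71 / 20 * (s * r) - (13 / 20) / 7) := by
  have h1 := mul_nonneg hr0 (sub_nonneg.2 hr1)
  have h2 := mul_nonneg (sub_nonneg.2 hs0) (sub_nonneg.2 hs1)
  nlinarith [mul_nonneg h1 (sub_nonneg.2 hs0), mul_nonneg h1 h2, mul_nonneg h2 hr0,
    mul_nonneg h2 (sub_nonneg.2 hr1), mul_nonneg hr0 (sub_nonneg.2 hs0), mul_nonneg hr0 (sub_nonneg.2 hs1),
    mul_nonneg (sub_nonneg.2 hr1) (sub_nonneg.2 hs0), mul_nonneg (sub_nonneg.2 hr1) (sub_nonneg.2 hs1),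
    mul_nonneg (mul_nonneg h2 (sub_nonneg.2 hs0)) hr0, mul_nonneg (mul_nonneg h2 (sub_nonneg.2 hs1)) hr0]

/-- slopes -/
theorem hub_sl0 (r s : ℝ) (hr0 : 0 ≤ r) (hr1 : r ≤ 10 / 199) (hs0 : 1 / 2 ≤ s) (hs1 : s ≤ 101 / 100) :
    0 ≤ 9 / 10 * (458 / 525) * (1 / 2 - s * r) + 9 / 20 * (1 / 2 + r - 71 / 20 * (s * r)) -
      (s * (1451 / 1000 - s) - 9 / 10 * (s * r)) * (458 / 525) - s / 7 := by
  nlinarith [mul_nonneg hr0 (sub_nonneg.2 hr1), mul_nonneg hr0 (sub_nonneg.2 hs0),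
    mul_nonneg (sub_nonneg.2 hr1) (sub_nonneg.2 hs0), mul_nonneg (sub_nonneg.2 hr1) (sub_nonneg.2 hs1),
    sq_nonneg (s - 85425 / 100000)]

theorem hub_sl1 (r s : ℝ) (hr0 : 0 ≤ r) (hr1 : r ≤ 10 / 199) (hs0 : 1 / 2 ≤ s) (hs1 : s ≤ 13 / 20) :
    0 ≤ 9 / 10 * (122 / 175) * (1 / 2 - s * r) + 9 / 20 * (1 / 2 + r - 71 / 20 * (s * r)) -
      (s * (1451 / 1000 - s) - 9 / 10 * (s * r)) * (122 / 175) - s / 7 := by
  nlinarith [mul_nonneg hr0 (sub_nonneg.2 hr1), mul_nonneg hr0 (sub_nonneg.2 hs0),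
    mul_nonneg (sub_nonneg.2 hr1) (sub_nonneg.2 hs0), mul_nonneg (sub_nonneg.2 hr1) (sub_nonneg.2 hs1)]

theorem hub_sl2 (r s : ℝ) (hr0 : 0 ≤ r) (hr1 : r ≤ 10 / 199) (hs0 : 1 / 2 ≤ s) (hs1 : s ≤ 13 / 20) :
    0 ≤ 9 / 10 * (31 / 42) * (1 / 2 - s * r) + 9 / 20 * (1 / 2 + r - 71 / 20 * (s * r)) -
      (s * (1451 / 1000 - s) - 9 / 10 * (s * r)) * (31 / 42) - s / 7 := by
  nlinarith [mul_nonneg hr0 (sub_nonneg.2 hr1), mul_nonneg hr0 (sub_nonneg.2 hs0),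
    mul_nonneg (sub_nonneg.2 hr1) (sub_nonneg.2 hs0), mul_nonneg (sub_nonneg.2 hr1) (sub_nonneg.2 hs1)]

/-- menu conditions, entry 3/25 -/
theorem hub_n1b (r s u : ℝ) (hr0 : 0 ≤ r) (hr1 : r ≤ 10 / 199) (hs0 : 1 / 2 ≤ s) (hs1 : s ≤ 13 / 20)
    (hu : u ≤ 13 / 20) : 3 / 25 * (1 / 2 + r - 71 / 20 * (s * r) + 31 / 42 * u) ≤
      22 / 25 * (1 / 2 + r - 3 * (s * r)) - 831 / 2000 * u - 1 / 20 * (s * r) := by
  nlinarith [mul_nonneg hr0 (sub_nonneg.2 hr1), mul_nonneg hr0 (sub_nonneg.2 hs0), mul_nonneg hr0 (sub_nonneg.2 hs1)]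

theorem hub_n2b (r s u : ℝ) (hr0 : 0 ≤ r) (hr1 : r ≤ 10 / 199) (hs0 : 1 / 2 ≤ s) (hs1 : s ≤ 13 / 20)
    (hu : 333 / 1000 + 21 / 100 * s ≤ u) : 29 / 25 * (1 / 2 + r - s * r + r / 1000) + 42 / 25 * (s * r) ≤
      21 / 25 * (1 / 2 + r - 71 / 20 * (s * r) + 31 / 42 * u) := by
  nlinarith [mul_nonneg hr0 (sub_nonneg.2 hr1), mul_nonneg hr0 (sub_nonneg.2 hs0), mul_nonneg hr0 (sub_nonneg.2 hs1),
     mul_nonneg (sub_nonneg.2 hr1) (sub_nonneg.2 hs1), mul_nonneg (sub_nonneg.2 hr1) (sub_nonneg.2 hs0)]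

theorem hub_n3b (r s u : ℝ) (hr0 : 0 ≤ r) (hr1 : r ≤ 10 / 199) (hs0 : 1 / 2 ≤ s) (hs1 : s ≤ 13 / 20)
    (hu : 333 / 1000 + 21 / 100 * s ≤ u) : 3 / 10 * (1 / 2 + r - s * r + r / 1000) ≤
      11 / 25 * (1 / 2 + r - 71 / 20 * (s * r) + 31 / 42 * u) := by
  nlinarith [mul_nonneg hr0 (sub_nonneg.2 hr1), mul_nonneg hr0 (sub_nonneg.2 hs0), mul_nonneg hr0 (sub_nonneg.2 hs1)]

/-- menu conditions, entry 4/25 -/
theorem hub_n1a (r s u : ℝ) (hr0 : 0 ≤ r) (hr1 : r ≤ 10 / 199) (hs0 : 1 / 2 ≤ s) (hs1 : s ≤ 14 / 25)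
    (hu : u ≤ 11 / 20) : 4 / 25 * (1 / 2 + r - 71 / 20 * (s * r) + 122 / 175 * u) ≤
      21 / 25 * (1 / 2 + r - 3 * (s * r)) - 459 / 1000 * u + 1 / 50 * (s * r) := by
  nlinarith [mul_nonneg hr0 (sub_nonneg.2 hr1), mul_nonneg hr0 (sub_nonneg.2 hs0), mul_nonneg hr0 (sub_nonneg.2 hs1)]

theorem hub_n2a (r s u : ℝ) (hr0 : 0 ≤ r) (hr1 : r ≤ 10 / 199) (hs0 : 1 / 2 ≤ s) (hs1 : s ≤ 14 / 25)
    (hu : 12 / 25 ≤ u) : 29 / 25 * (1 / 2 + r - s * r + r / 1000) + 42 / 25 * (s * r) ≤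
      21 / 25 * (1 / 2 + r - 71 / 20 * (s * r) + 122 / 175 * u) := by
  nlinarith [mul_nonneg hr0 (sub_nonneg.2 hr1), mul_nonneg hr0 (sub_nonneg.2 hs0), mul_nonneg hr0 (sub_nonneg.2 hs1),
     mul_nonneg (sub_nonneg.2 hr1) (sub_nonneg.2 hs1)]

theorem hub_n3a (r s u : ℝ) (hr0 : 0 ≤ r) (hr1 : r ≤ 10 / 199) (hs0 : 1 / 2 ≤ s) (hs1 : s ≤ 14 / 25)
    (hu : 12 / 25 ≤ u) : 3 / 10 * (1 / 2 + r - s * r + r / 1000) ≤
      21 / 50 * (1 / 2 + r - 71 / 20 * (s * r) + 122 / 175 * u) := by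
  nlinarith [mul_nonneg hr0 (sub_nonneg.2 hr1), mul_nonneg hr0 (sub_nonneg.2 hs0), mul_nonneg hr0 (sub_nonneg.2 hs1)]

/-- small degrees -/
theorem hub_d9 (r s : ℝ) (hr0 : 0 ≤ r) (hr1 : r ≤ 10 / 199) (hs0 : 1 / 2 ≤ s) (hs1 : s ≤ 101 / 100) :
    (s * (1451 / 1000 - s) - 9 / 20 + 81 / 20 * (s * r)) *
      (1 / 2 + r - 97 / 20 * (s * r) + 533 / 525 * (9 * (s * r))) ≤
    s * (1 / 2 + r - 97 / 20 * (s * r)) := by
  have h1 := mul_nonneg hr0 (sub_nonneg.2 hr1)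
  have h2 := mul_nonneg (sub_nonneg.2 hs0) (sub_nonneg.2 hs1)
  nlinarith [mul_nonneg h1 (sub_nonneg.2 hs0), mul_nonneg h1 h2, mul_nonneg h2 hr0,
    mul_nonneg h2 (sub_nonneg.2 hr1), mul_nonneg hr0 (sub_nonneg.2 hs0), mul_nonneg hr0 (sub_nonneg.2 hs1),
    mul_nonneg (sub_nonneg.2 hr1) (sub_nonneg.2 hs0), mul_nonneg (sub_nonneg.2 hr1) (sub_nonneg.2 hs1),
    mul_nonneg (mul_nonneg h2 (sub_nonneg.2 hs0)) hr0, mul_nonneg (mul_nonneg h2 (sub_nonneg.2 hs1)) hr0]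

theorem hub_d3 (r s : ℝ) (hr0 : 0 ≤ r) (hr1 : r ≤ 10 / 199) (hs0 : 1 / 2 ≤ s) (hs1 : s ≤ 101 / 100) :
    (s * (1451 / 1000 - s) - 9 / 20 + 27 / 20 * (s * r)) *
      (1 / 2 + r - 97 / 20 * (s * r) + 533 / 525 * (3 * (s * r))) ≤
    s * ((1 / 2 + r - 97 / 20 * (s * r)) / 2) := by
  have h1 := mul_nonneg hr0 (sub_nonneg.2 hr1)
  have h2 := mul_nonneg (sub_nonneg.2 hs0) (sub_nonneg.2 hs1)
  nlinarith [mul_nonneg h1 (sub_nonneg.2 hs0), mul_nonneg h1 h2, mul_nonneg h2 hr0,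
    mul_nonneg h2 (sub_nonneg.2 hr1), mul_nonneg hr0 (sub_nonneg.2 hs0), mul_nonneg hr0 (sub_nonneg.2 hs1),
    mul_nonneg (sub_nonneg.2 hr1) (sub_nonneg.2 hs0), mul_nonneg (sub_nonneg.2 hr1) (sub_nonneg.2 hs1),
    mul_nonneg (mul_nonneg h2 (sub_nonneg.2 hs0)) hr0, mul_nonneg (mul_nonneg h2 (sub_nonneg.2 hs1)) hr0]

/-- increasing in `u` -/
theorem hub_mono {k u u0 s t J K : ℝ} (hk : 0 ≤ k) (hu : u0 ≤ u)
    (hs : 0 ≤ 9 / 10 * k * u0 + 9 / 20 * J - (K - 9 / 10 * t) * k - s / 7)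
    (h0 : (K - 9 / 20 * u0 - 9 / 10 * t) * (J + k * u0) ≤ s * (J - u0 / 7)) :
    (K - 9 / 20 * u - 9 / 10 * t) * (J + k * u) ≤ s * (J - u / 7) := by
  nlinarith [mul_nonneg (sub_nonneg.2 hu) hs, mul_nonneg hk (sq_nonneg (u - u0))]

/-- decreasing in `u` -/
theorem hub_anti {k u u0 s t J K : ℝ} (hk : 0 ≤ k) (hu : u ≤ u0) (hs : 0 ≤ s)
    (hP : 0 ≤ K - 9 / 40 - 9 / 20 * t)
    (h0 : (K - 9 / 40 - 9 / 20 * t) * (J + k * u0) ≤ s * (J - u0 / 7)) :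
    (K - 9 / 40 - 9 / 20 * t) * (J + k * u) ≤ s * (J - u / 7) := by
  nlinarith [mul_nonneg (mul_nonneg (sub_nonneg.2 hu) hP) hk, mul_nonneg (sub_nonneg.2 hu) hs]

/-- both sides of the corner -/
theorem hub_corner {k u s r y J K : ℝ} (hk : 0 ≤ k) (hu0 : 0 ≤ u) (hs : 0 ≤ s) (hJ : 0 ≤ J)
    (hy1 : u + 2 * (s * r) ≤ y) (hy2 : 1 - u ≤ y)
    (hP : 0 ≤ K - 9 / 40 - 9 / 20 * (s * r))
    (hsl : 0 ≤ 9 / 10 * k * (1 / 2 - s * r) + 9 / 20 * J - (K - 9 / 10 * (s * r)) * k - s / 7)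
    (h0 : (K - 9 / 40 - 9 / 20 * (s * r)) * (J + k * (1 / 2 - s * r)) ≤
      s * (J - (1 / 2 - s * r) / 7)) :
    (K - 9 / 20 * y) * (J + k * u) ≤ s * (J - u / 7) := by
  have hZ : 0 ≤ J + k * u := by positivity
  rcases le_total u (1 / 2 - s * r) with h | h
  · refine le_trans (mul_le_mul_of_nonneg_right ?_ hZ) (hub_anti hk h hs hP h0)
    linarith
  · refine le_trans (mul_le_mul_of_nonneg_right ?_ hZ) (hub_mono (t := s * r) hk h hsl ?_)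
    · linarith
    · refine le_trans (le_of_eq ?_) h0
      ring

/-- The choice, `d ≥ 10`. -/
theorem hub_sel (r s u y : ℝ) (hr0 : 0 ≤ r) (hr1 : r ≤ 10 / 199) (hs0 : 1 / 2 ≤ s)
    (hs1 : s ≤ 101 / 100) (hu0 : 0 ≤ u) (hy1 : u + 2 * (s * r) ≤ y) (hy2 : 1 - u ≤ y) :
    (s * (1451 / 1000 - s) - 9 / 20 * y) * (1 / 2 + r - 71 / 20 * (s * r) + 458 / 525 * u) ≤
      s * (1 / 2 + r - 71 / 20 * (s * r) - u / 7) ∨
    (4 / 25 * (1 / 2 + r - 71 / 20 * (s * r) + 122 / 175 * u) ≤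
        21 / 25 * (1 / 2 + r - 3 * (s * r)) - 459 / 1000 * u + 1 / 50 * (s * r) ∧
      29 / 25 * (1 / 2 + r - s * r + r / 1000) + 42 / 25 * (s * r) ≤
        21 / 25 * (1 / 2 + r - 71 / 20 * (s * r) + 122 / 175 * u) ∧
      3 / 10 * (1 / 2 + r - s * r + r / 1000) ≤
        21 / 50 * (1 / 2 + r - 71 / 20 * (s * r) + 122 / 175 * u) ∧
      (s * (1451 / 1000 - s) - 9 / 20 * y) * (1 / 2 + r - 71 / 20 * (s * r) + 122 / 175 * u) ≤
        s * (1 / 2 + r - 71 / 20 * (s * r) - u / 7)) ∨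
    (3 / 25 * (1 / 2 + r - 71 / 20 * (s * r) + 31 / 42 * u) ≤
        22 / 25 * (1 / 2 + r - 3 * (s * r)) - 831 / 2000 * u - 1 / 20 * (s * r) ∧
      29 / 25 * (1 / 2 + r - s * r + r / 1000) + 42 / 25 * (s * r) ≤
        21 / 25 * (1 / 2 + r - 71 / 20 * (s * r) + 31 / 42 * u) ∧
      3 / 10 * (1 / 2 + r - s * r + r / 1000) ≤
        11 / 25 * (1 / 2 + r - 71 / 20 * (s * r) + 31 / 42 * u) ∧
      (s * (1451 / 1000 - s) - 9 / 20 * y) * (1 / 2 + r - 71 / 20 * (s * r) + 31 / 42 * u) ≤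
        s * (1 / 2 + r - 71 / 20 * (s * r) - u / 7)) := by
  have hsr0 : 0 ≤ s * r := mul_nonneg (by linarith) hr0
  have hsr1 : s * r ≤ 101 / 100 * r := mul_le_mul_of_nonneg_right hs1 hr0
  have hJ : 0 ≤ 1 / 2 + r - 71 / 20 * (s * r) := by linarith
  have hP : 0 ≤ s * (1451 / 1000 - s) - 9 / 40 - 9 / 20 * (s * r) := by
    nlinarith [mul_nonneg (sub_nonneg.2 hs0) (sub_nonneg.2 hs1)]
  rcases le_total (13 / 20) s with hs | hs
  · -- mu = 0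
    left
    exact hub_corner (by norm_num) hu0 (by linarith) hJ hy1 hy2 hP (hub_sl0 r s hr0 hr1 hs0 hs1)
      (hub_g0 r s hr0 hr1 hs hs1)
  rcases le_total u (333 / 1000 + 21 / 100 * s) with hl | hl
  · left
    have hZ : 0 ≤ 1 / 2 + r - 71 / 20 * (s * r) + 458 / 525 * u := by positivity
    refine le_trans (mul_le_mul_of_nonneg_right
      (by linarith : _ ≤ s * (1451 / 1000 - s) - 9 / 20 + 9 / 20 * u) hZ) ?_
    have h1 := hub_gl r s hr0 hr1 hs0 hs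
    have h2 : (s * (1451 / 1000 - s) - 9 / 20 + 9 / 20 * 0) *
      (1 / 2 + r - 71 / 20 * (s * r) + 458 / 525 * 0) ≤
        s * (1 / 2 + r - 71 / 20 * (s * r) - 0 / 7) := by
      nlinarith [mul_nonneg (sub_nonneg.2 hs0) hJ, mul_nonneg (sub_nonneg.2 hs) hJ,
        mul_nonneg (mul_nonneg (sub_nonneg.2 hs0) (sub_nonneg.2 hs)) hJ]
    obtain ⟨l, hl'⟩ : ∃ l, l = 333 / 1000 + 21 / 100 * s := ⟨_, rfl⟩
    rw [← hl'] at h1 hl
    obtain ⟨J, hJ'⟩ : ∃ J, J = 1 / 2 + r - 71 / 20 * (s * r) := ⟨_, rfl⟩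
    rw [← hJ'] at h1 h2 ⊢
    obtain ⟨K, hK'⟩ : ∃ K, K = s * (1451 / 1000 - s) := ⟨_, rfl⟩
    rw [← hK'] at h1 h2 ⊢
    have hlpos : 0 < l := by rw [hl']; linarith
    -- concave: l * F(u) >= (l - u) F(0) + u F(l)
    have h3 := mul_le_mul_of_nonneg_left h1 hu0
    have h4 := mul_le_mul_of_nonneg_left h2 (sub_nonneg.2 hl)
    have h5 : 0 ≤ u * (l - u) * l := mul_nonneg (mul_nonneg hu0 (sub_nonneg.2 hl)) hlpos.le
    have h6 : l * ((K - 9 / 20 + 9 / 20 * u) * (J + 458 / 525 * u)) ≤ l * (s * (J - u / 7)) := by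
      nlinarith [h3, h4, h5]
    exact le_of_mul_le_mul_left h6 hlpos
  rcases le_total (13 / 20) u with h65 | h65
  · left
    have hZ : 0 ≤ 1 / 2 + r - 71 / 20 * (s * r) + 458 / 525 * u := by positivity
    refine le_trans (mul_le_mul_of_nonneg_right
      (by linarith : _ ≤ s * (1451 / 1000 - s) - 9 / 20 * u - 9 / 10 * (s * r)) hZ) ?_
    refine hub_mono (by norm_num) h65 ?_ (hub_gc r s hr0 hr1 hs0 hs)
    have := hub_sl0 r s hr0 hr1 hs0 hs1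
    linarith
  rcases le_total (14 / 25) s with hs' | hs'
  · right; right
    refine ⟨hub_n1b r s u hr0 hr1 hs0 hs h65, hub_n2b r s u hr0 hr1 hs0 hs hl,
      hub_n3b r s u hr0 hr1 hs0 hs hl, ?_⟩
    exact hub_corner (by norm_num) hu0 (by linarith) hJ hy1 hy2 hP (hub_sl2 r s hr0 hr1 hs0 hs)
      (hub_g2 r s hr0 hr1 hs' hs)
  rcases le_total u (12 / 25) with h48 | h48
  · right; right
    refine ⟨hub_n1b r s u hr0 hr1 hs0 hs h65, hub_n2b r s u hr0 hr1 hs0 hs hl,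
      hub_n3b r s u hr0 hr1 hs0 hs hl, ?_⟩
    have hZ : 0 ≤ 1 / 2 + r - 71 / 20 * (s * r) + 31 / 42 * u := by positivity
    refine le_trans (mul_le_mul_of_nonneg_right ?_ hZ)
      (hub_anti (by norm_num) h48 (by linarith) hP (hub_ga r s hr0 hr1 hs0 hs'))
    linarith
  rcases le_total u (11 / 20) with h55 | h55
  · right; left
    refine ⟨hub_n1a r s u hr0 hr1 hs0 hs' h55, hub_n2a r s u hr0 hr1 hs0 hs' h48,
      hub_n3a r s u hr0 hr1 hs0 hs' h48, ?_⟩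
    exact hub_corner (by norm_num) hu0 (by linarith) hJ hy1 hy2 hP (hub_sl1 r s hr0 hr1 hs0 hs)
      (hub_g1 r s hr0 hr1 hs0 hs')
  · right; right
    refine ⟨hub_n1b r s u hr0 hr1 hs0 hs h65, hub_n2b r s u hr0 hr1 hs0 hs hl,
      hub_n3b r s u hr0 hr1 hs0 hs hl, ?_⟩
    have hZ : 0 ≤ 1 / 2 + r - 71 / 20 * (s * r) + 31 / 42 * u := by positivity
    refine le_trans (mul_le_mul_of_nonneg_right
      (by linarith : _ ≤ s * (1451 / 1000 - s) - 9 / 20 * u - 9 / 10 * (s * r)) hZ) ?_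
    refine hub_mono (by norm_num) h55 ?_ (hub_gb r s hr0 hr1 hs0 hs')
    have := hub_sl2 r s hr0 hr1 hs0 hs
    linarith

/-- From the inequalities to the data of one vertex. -/
theorem hub_finish {sg mu B L J A Z W W' : ℝ} {P Q : Prop} (hL : L * Z ≤ J) (hZ : Z = J + A)
    (h4 : 4 ≤ Z) (h2 : L * Z ^ 2 ≤ W' * (2 * Z - (W' + A)))
    (hP : P ∨ Q ∧ mu * Z ≤ (1 - mu) * (W - sg) - B * sg ∧ 29 / 25 * W' + 42 / 25 * sg ≤ 21 / 25 * Z ∧
      3 / 10 * W' ≤ (1 - mu) / 2 * Z) :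
    (P ∨ Q ∧ mu ≤ (1 / Z) * ((1 - mu) * (W - sg) - B * sg) ∧
      (1 / Z) * (29 / 25 * W' + 42 / 25 * sg) ≤ 21 / 25 ∧ (1 / Z) * (3 / 10) * W' ≤ (1 - mu) / 2) ∧
    0 ≤ 1 / Z ∧ 1 / Z ≤ 1 / 4 ∧ L ≤ (1 / Z) * J * (2 - (1 / Z) * (J + A)) ∧
    L ≤ (1 / Z) * W' * (2 - (1 / Z) * (W' + A)) := by
  have hZ0 : 0 < Z := by linarith
  have e1 : (1 / Z) * Z = 1 := by field_simp
  refine ⟨?_, by positivity, ?_, ?_, ?_⟩
  · rcases hP with hP | ⟨z, a, b, c⟩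
    · exact Or.inl hP
    · refine Or.inr ⟨z, ?_, ?_, ?_⟩
      · rw [one_div, inv_mul_eq_div, le_div_iff₀ hZ0]; exact a
      · rw [one_div, inv_mul_eq_div, div_le_iff₀ hZ0]; exact b
      · rw [mul_assoc, one_div, inv_mul_eq_div, div_le_iff₀ hZ0]; exact c
  · exact one_div_le_one_div_of_le (by norm_num) h4
  · rw [← hZ, e1]
    have : (1 / Z) * J * (2 - 1) = J / Z := by ring
    rw [this, le_div_iff₀ hZ0]
    exact hL
  · have h1 : (1 / Z) * W' * (2 - (1 / Z) * (W' + A)) = (W' * (2 * Z - (W' + A))) / Z ^ 2 := by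
      field_simp
    rw [h1, le_div_iff₀ (by positivity)]
    exact h2

/-- the second end from the first one -/
theorem hub_second {L J A Z W' : ℝ} (hL : L * Z ≤ J) (hZ : Z = J + A) (h4 : 4 ≤ Z)
    (hJW : J ≤ W') (hA : W' - J ≤ A) : L * Z ^ 2 ≤ W' * (2 * Z - (W' + A)) := by
  have h2 : L * Z * Z ≤ J * Z := mul_le_mul_of_nonneg_right hL (by linarith)
  have h3 : 0 ≤ (W' - J) * (A - (W' - J)) := mul_nonneg (by linarith) (by linarith)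
  rw [hZ] at *
  nlinarith

/-- the second end for very small degrees -/
theorem hub_small {L X J A δ : ℝ} (hX : 0 < X) (hδ0 : 0 ≤ δ) (hA : 0 ≤ A) (h4 : 3 / 2 * δ ≤ J)
    (h3 : L * (X * (J + A)) ≤ X * (J / 2)) :
    L * (X * (J + A)) ^ 2 ≤ X * (J + δ) * (2 * (X * (J + A)) - (X * (J + δ) + X * A)) := by
  have hJ : 0 ≤ J := by linarith
  have h5 : L * (X * (J + A)) * (X * (J + A)) ≤ X * (J / 2) * (X * (J + A)) :=
    mul_le_mul_of_nonneg_right h3 (by positivity)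
  have h8 : δ * δ ≤ J * J / 2 := by
    have := mul_le_mul h4 h4 (by positivity) hJ
    nlinarith [mul_nonneg hδ0 hδ0]
  have h9 : J / 2 * (J + A) ≤ (J + δ) * (J + A - δ) := by
    nlinarith [mul_nonneg hJ hA, mul_nonneg hδ0 hA]
  have h10 := mul_le_mul_of_nonneg_left h9 (by positivity : 0 ≤ X ^ 2)
  calc L * (X * (J + A)) ^ 2 = L * (X * (J + A)) * (X * (J + A)) := by ring
    _ ≤ X * (J / 2) * (X * (J + A)) := h5
    _ = X ^ 2 * (J / 2 * (J + A)) := by ring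
    _ ≤ X ^ 2 * ((J + δ) * (J + A - δ)) := h10
    _ = _ := by ring

/-- back to the original variables -/
theorem hub_back {q sg L r Zn Jn Z J K y : ℝ} (hq : 0 < q) (hs : 0 < sg) (hr : 2 * q * r = 1)
    (hL : sg * L = K - 9 / 20 * y) (hZ : Z = 2 * q * Zn) (hJ : J = 2 * q * Jn)
    (h : (K - 9 / 20 * y) * Zn ≤ sg * Jn) : L * Z ≤ J := by
  rw [← hL, mul_assoc] at h
  have h1 := le_of_mul_le_mul_left h hs
  rw [hZ, hJ]
  have h2 := mul_le_mul_of_nonneg_left h1 (by linarith : 0 ≤ 2 * q)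
  linarith

/-- **LINE for vertices with a giant neighbour**, with the definitions of `Nd`, `ed`, `Menu`, `Good`
written out. -/
theorem line_hub (q sg : ℝ) (d j : ℕ) (hj : 1 ≤ j) (hq : 199 / 20 ≤ q) (hs : 1 / 2 ≤ sg)
    (hs' : sg ≤ 101 / 100) (hd : q ≤ (d + j) * sg) :
    ∃ mu B lam : ℝ, (mu = 0 ∨
      (10 ≤ d ∧ ((mu = 37 / 200 ∧ B = 967 / 2000 * d - 9 / 200) ∨
        (mu = 4 / 25 ∧ B = 459 / 1000 * d - 1 / 50) ∨ (mu = 3 / 25 ∧ B = 831 / 2000 * d + 1 / 20))) ∧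
      mu ≤ lam * ((1 - mu) * ((q + 1 - sg - 1 * sg) - sg) - B * sg) ∧
      lam * (29 / 25 * (q + 1 - sg + 1 / 1000) + 42 / 25 * sg) ≤ 21 / 25 ∧
      lam * (3 / 10) * (q + 1 - sg + 1 / 1000) ≤ (1 - mu) / 2) ∧
    0 ≤ lam ∧ lam ≤ 1 / 4 ∧
    1 - sg - 9 / 20 * ((d + 2 * j) / (2 * q) - 1) + 1 / 1000 ≤
      lam * ((q + 1 - sg - 1 * sg) - max (57 / 20 : ℝ) (31 / 20 + (d : ℝ) / 7) * sg) *
        (2 - lam * (((q + 1 - sg - 1 * sg) - max (57 / 20 : ℝ) (31 / 20 + (d : ℝ) / 7) * sg) +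
          sg * (d * ((21 / 25 + (1 - mu) ^ 2 / (21 / 25)) / 2)))) ∧
    1 - sg - 9 / 20 * ((d + 2 * j) / (2 * q) - 1) + 1 / 1000 ≤
      lam * (q + 1 - sg + 1 / 1000) * (2 - lam * ((q + 1 - sg + 1 / 1000) +
          sg * (d * ((21 / 25 + (1 - mu) ^ 2 / (21 / 25)) / 2)))) := by
  have hq0 : 0 < q := by linarith
  have hs0 : 0 < sg := by linarith
  obtain ⟨L, hL⟩ : ∃ L, L = 1 - sg - 9 / 20 * (((d : ℝ) + 2 * j) / (2 * q) - 1) + 1 / 1000 := ⟨_, rfl⟩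
  rw [← hL]
  rcases le_or_gt L 0 with hL0 | hL0
  · refine ⟨0, 0, 0, Or.inl rfl, le_rfl, by norm_num, ?_, ?_⟩ <;> simpa using hL0
  obtain ⟨r, hr⟩ : ∃ r, r = 1 / (2 * q) := ⟨_, rfl⟩
  have hqr : 2 * q * r = 1 := by rw [hr]; field_simp
  have hr0 : 0 < r := by rw [hr]; positivity
  have hr1 : r ≤ 10 / 199 := by
    rw [hr, div_le_div_iff₀ (by positivity) (by norm_num)]
    linarith
  have hd0 : (0 : ℝ) ≤ d := Nat.cast_nonneg d
  have hj1 : (1 : ℝ) ≤ j := by exact_mod_cast hj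
  obtain ⟨u, hu⟩ : ∃ u, u = sg * d * r := ⟨_, rfl⟩
  obtain ⟨y, hy⟩ : ∃ y, y = sg * (d + 2 * j) * r := ⟨_, rfl⟩
  have hu0 : 0 ≤ u := by rw [hu]; positivity
  have hsr0 : 0 ≤ sg * r := by positivity
  have hsr1 : sg * r ≤ 101 / 100 * r := mul_le_mul_of_nonneg_right hs' hr0.le
  have hsr2 : 1 / 2 * r ≤ sg * r := mul_le_mul_of_nonneg_right hs hr0.le
  have hy1 : u + 2 * (sg * r) ≤ y := by
    have : 0 ≤ sg * r * (j - 1) := mul_nonneg hsr0 (by linarith)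
    rw [hu, hy]; linarith
  have hy2 : 1 - u ≤ y := by
    have h1 := mul_le_mul_of_nonneg_right hd hr0.le
    rw [hu, hy]; linarith
  have hLs : sg * L = sg * (1451 / 1000 - sg) - 9 / 20 * y := by
    rw [hL, hy, hr]; field_simp; ring
  have hLp : 0 < sg * (1451 / 1000 - sg) - 9 / 20 * y := by rw [← hLs]; positivity
  rcases Nat.lt_or_ge d 10 with hd10 | hd10
  · -- small degree
    have hd9 : (d : ℝ) ≤ 9 := by exact_mod_cast Nat.lt_succ_iff.1 hd10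
    rw [max_eq_left (by linarith : (31 / 20 + (d : ℝ) / 7) ≤ 57 / 20)]
    have hu9 : u ≤ 9 * (sg * r) := by
      have := mul_le_mul_of_nonneg_left hd9 hsr0
      rw [hu]; linarith
    have eJ : (q + 1 - sg - 1 * sg) - 57 / 20 * sg = 2 * q * (1 / 2 + r - 97 / 20 * (sg * r)) := by
      rw [hr]; field_simp; ring
    have eA : sg * (d * ((21 / 25 + (1 - 0) ^ 2 / (21 / 25)) / 2)) = 2 * q * (533 / 525 * u) := by
      rw [hu, hr]; field_simp; ring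
    have eW : q + 1 - sg + 1 / 1000 = 2 * q * (1 / 2 + r - sg * r + r / 1000) := by
      linear_combination (-(1 - sg + 1 / 1000)) * hqr
    have key : (sg * (1451 / 1000 - sg) - 9 / 20 * y) *
        (1 / 2 + r - 97 / 20 * (sg * r) + 533 / 525 * u) ≤
        sg * (1 / 2 + r - 97 / 20 * (sg * r)) := by
      have hZ0 : 0 ≤ 1 / 2 + r - 97 / 20 * (sg * r) + 533 / 525 * u := by linarith
      have h1 : sg * (1451 / 1000 - sg) - 9 / 20 * y ≤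
          sg * (1451 / 1000 - sg) - 9 / 20 + 81 / 20 * (sg * r) := by linarith
      refine le_trans (mul_le_mul h1 (by linarith : _ ≤ 1 / 2 + r - 97 / 20 * (sg * r) +
        533 / 525 * (9 * (sg * r))) hZ0 (by linarith)) ?_
      exact hub_d9 r sg hr0.le hr1 hs hs'
    have hZ : 4 ≤ 2 * q * (1 / 2 + r - 97 / 20 * (sg * r) + 533 / 525 * u) := by
      have : 4 * r ≤ 1 / 2 + r - 97 / 20 * (sg * r) + 533 / 525 * u := by linarith
      have h1 := mul_le_mul_of_nonneg_left this (by linarith : 0 ≤ 2 * q)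
      linarith
    have hL' : L * (2 * q * (1 / 2 + r - 97 / 20 * (sg * r) + 533 / 525 * u)) ≤
        2 * q * (1 / 2 + r - 97 / 20 * (sg * r)) := hub_back hq0 hs0 hqr hLs rfl rfl key
    refine ⟨0, 0, _, hub_finish (Z := 2 * q * (1 / 2 + r - 97 / 20 * (sg * r) + 533 / 525 * u))
      (J := (q + 1 - sg - 1 * sg) - 57 / 20 * sg) (W := q + 1 - sg - 1 * sg) ?_ ?_ hZ ?_
      (Or.inl rfl)⟩
    · rw [eJ]; exact hL'
    · rw [eJ, eA]; ring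
    · rcases Nat.lt_or_ge d 4 with hd4 | hd4
      · -- d ≤ 3
        have hd3 : (d : ℝ) ≤ 3 := by exact_mod_cast Nat.lt_succ_iff.1 hd4
        have hu3 : u ≤ 3 * (sg * r) := by
          have := mul_le_mul_of_nonneg_left hd3 hsr0
          rw [hu]; linarith
        have hZ0 : 0 ≤ 1 / 2 + r - 97 / 20 * (sg * r) + 533 / 525 * u := by linarith
        have h1 : sg * (1451 / 1000 - sg) - 9 / 20 * y ≤
            sg * (1451 / 1000 - sg) - 9 / 20 + 27 / 20 * (sg * r) := by linarith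
        have h2 := le_trans (mul_le_mul h1 (by linarith : _ ≤ 1 / 2 + r - 97 / 20 * (sg * r) +
          533 / 525 * (3 * (sg * r))) hZ0 (by linarith)) (hub_d3 r sg hr0.le hr1 hs hs')
        have h3 := hub_back hq0 hs0 hqr hLs rfl rfl h2
        have h4 : 3 / 2 * (77 / 20 * (sg * r) + r / 1000) ≤ 1 / 2 + r - 97 / 20 * (sg * r) := by
          linarith
        have eδ : 1 / 2 + r - sg * r + r / 1000 =
            (1 / 2 + r - 97 / 20 * (sg * r)) + (77 / 20 * (sg * r) + r / 1000) := by ring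
        rw [eA, eW, eδ]
        exact hub_small (by linarith) (by positivity) (by positivity) h4 h3
      · have hd4' : (4 : ℝ) ≤ d := by exact_mod_cast hd4
        have hu4 : 4 * (sg * r) ≤ u := by
          have := mul_le_mul_of_nonneg_left hd4' hsr0
          rw [hu]; linarith
        refine hub_second (J := 2 * q * (1 / 2 + r - 97 / 20 * (sg * r))) hL' ?_ hZ ?_ ?_
        · rw [eA]; ring
        · rw [eW]; exact mul_le_mul_of_nonneg_left (by linarith) (by linarith)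
        · rw [eA, eW, ← mul_sub]; exact mul_le_mul_of_nonneg_left (by linarith) (by linarith)
  · -- large degree
    have hd10' : (10 : ℝ) ≤ d := by exact_mod_cast hd10
    rw [max_eq_right (by linarith : (57 / 20 : ℝ) ≤ 31 / 20 + (d : ℝ) / 7)]
    have hu10 : 10 * (sg * r) ≤ u := by
      have := mul_le_mul_of_nonneg_left hd10' hsr0
      rw [hu]; linarith
    have eJ : (q + 1 - sg - 1 * sg) - (31 / 20 + (d : ℝ) / 7) * sg =
        2 * q * (1 / 2 + r - 71 / 20 * (sg * r) - u / 7) := by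
      rw [hu, hr]; field_simp; ring
    have eW : q + 1 - sg + 1 / 1000 = 2 * q * (1 / 2 + r - sg * r + r / 1000) := by
      linear_combination (-(1 - sg + 1 / 1000)) * hqr
    have eV : (q + 1 - sg - 1 * sg) - sg = 2 * q * (1 / 2 + r - 3 * (sg * r)) := by
      rw [hr]; field_simp; ring
    have es : sg = 2 * q * (sg * r) := by rw [hr]; field_simp
    have eD : (d : ℝ) * sg = 2 * q * u := by rw [hu, hr]; field_simp
    have h2q : 0 < 2 * q := by linarith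
    -- one row
    have row : ∀ mu B e : ℝ, e = (21 / 25 + (1 - mu) ^ 2 / (21 / 25)) / 2 → 4 / 5 ≤ e →
        (sg * (1451 / 1000 - sg) - 9 / 20 * y) *
          (1 / 2 + r - 71 / 20 * (sg * r) + (e - 1 / 7) * u) ≤
          sg * (1 / 2 + r - 71 / 20 * (sg * r) - u / 7) →
        (mu = 0 ∨ (10 ≤ d ∧ ((mu = 37 / 200 ∧ B = 967 / 2000 * d - 9 / 200) ∨
          (mu = 4 / 25 ∧ B = 459 / 1000 * d - 1 / 50) ∨
          (mu = 3 / 25 ∧ B = 831 / 2000 * d + 1 / 20))) ∧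
          mu * (2 * q * (1 / 2 + r - 71 / 20 * (sg * r) + (e - 1 / 7) * u)) ≤
            (1 - mu) * ((q + 1 - sg - 1 * sg) - sg) - B * sg ∧
          29 / 25 * (q + 1 - sg + 1 / 1000) + 42 / 25 * sg ≤
            21 / 25 * (2 * q * (1 / 2 + r - 71 / 20 * (sg * r) + (e - 1 / 7) * u)) ∧
          3 / 10 * (q + 1 - sg + 1 / 1000) ≤
            (1 - mu) / 2 * (2 * q * (1 / 2 + r - 71 / 20 * (sg * r) + (e - 1 / 7) * u))) →
        ∃ mu B lam : ℝ, (mu = 0 ∨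
          (10 ≤ d ∧ ((mu = 37 / 200 ∧ B = 967 / 2000 * d - 9 / 200) ∨
            (mu = 4 / 25 ∧ B = 459 / 1000 * d - 1 / 50) ∨
            (mu = 3 / 25 ∧ B = 831 / 2000 * d + 1 / 20))) ∧
          mu ≤ lam * ((1 - mu) * ((q + 1 - sg - 1 * sg) - sg) - B * sg) ∧
          lam * (29 / 25 * (q + 1 - sg + 1 / 1000) + 42 / 25 * sg) ≤ 21 / 25 ∧
          lam * (3 / 10) * (q + 1 - sg + 1 / 1000) ≤ (1 - mu) / 2) ∧
        0 ≤ lam ∧ lam ≤ 1 / 4 ∧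
        L ≤ lam * ((q + 1 - sg - 1 * sg) - (31 / 20 + (d : ℝ) / 7) * sg) *
            (2 - lam * (((q + 1 - sg - 1 * sg) - (31 / 20 + (d : ℝ) / 7) * sg) +
              sg * (d * ((21 / 25 + (1 - mu) ^ 2 / (21 / 25)) / 2)))) ∧
        L ≤ lam * (q + 1 - sg + 1 / 1000) * (2 - lam * ((q + 1 - sg + 1 / 1000) +
              sg * (d * ((21 / 25 + (1 - mu) ^ 2 / (21 / 25)) / 2)))) := by
      intro mu B e he he1 hF hm
      have hke : 23 / 35 * u ≤ (e - 1 / 7) * u := mul_le_mul_of_nonneg_right (by linarith) hu0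
      have hZ : 4 ≤ 2 * q * (1 / 2 + r - 71 / 20 * (sg * r) + (e - 1 / 7) * u) := by
        have h1 : 4 * r ≤ 1 / 2 + r - 71 / 20 * (sg * r) + (e - 1 / 7) * u := by linarith
        have := mul_le_mul_of_nonneg_left h1 h2q.le
        linarith
      have hL' := hub_back hq0 hs0 hqr hLs rfl rfl hF
      have eA : sg * (d * ((21 / 25 + (1 - mu) ^ 2 / (21 / 25)) / 2)) = 2 * q * (e * u) := by
        rw [← he]
        linear_combination e * eD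
      have hZe : 2 * q * (1 / 2 + r - 71 / 20 * (sg * r) + (e - 1 / 7) * u) =
          ((q + 1 - sg - 1 * sg) - (31 / 20 + (d : ℝ) / 7) * sg) +
            sg * (d * ((21 / 25 + (1 - mu) ^ 2 / (21 / 25)) / 2)) := by
        rw [eJ, eA]; ring
      have hJ' : L * (2 * q * (1 / 2 + r - 71 / 20 * (sg * r) + (e - 1 / 7) * u)) ≤
          (q + 1 - sg - 1 * sg) - (31 / 20 + (d : ℝ) / 7) * sg := by rw [eJ]; exact hL'
      refine ⟨mu, B, _, hub_finish (W := q + 1 - sg - 1 * sg) hJ' hZe hZ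
        (hub_second hJ' hZe hZ ?_ ?_) hm⟩
      · have h1 : 0 ≤ (31 / 20 + (d : ℝ) / 7) * sg := by positivity
        linarith
      · rw [eA, eJ, eW]
        have h1 : 4 / 5 * u ≤ e * u := mul_le_mul_of_nonneg_right he1 hu0
        have h2 : (1 / 2 + r - sg * r + r / 1000) - (1 / 2 + r - 71 / 20 * (sg * r) - u / 7) ≤
            e * u := by linarith
        have := mul_le_mul_of_nonneg_left h2 h2q.le
        linarith
    have sc : ∀ a b : ℝ, a ≤ b → 2 * q * a ≤ 2 * q * b := fun a b h =>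
      mul_le_mul_of_nonneg_left h h2q.le
    rcases hub_sel r sg u y hr0.le hr1 hs hs' hu0 hy1 hy2 with h | ⟨a, b, c, h⟩ | ⟨a, b, c, h⟩
    · exact row 0 0 (533 / 525) (by norm_num) (by norm_num) (by norm_num at h ⊢; exact h) (Or.inl rfl)
    · refine row (4 / 25) (459 / 1000 * d - 1 / 50) (21 / 25) (by norm_num) (by norm_num)
        (by norm_num at h ⊢; exact h) (Or.inr ⟨⟨hd10, Or.inr (Or.inl ⟨rfl, rfl⟩)⟩, ?_, ?_, ?_⟩)
      · have := sc _ _ a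
        rw [eV]
        linear_combination this + (459 / 1000) * eD - (1 / 50) * es
      · have := sc _ _ b
        rw [eW]
        linear_combination this + (42 / 25) * es
      · have := sc _ _ c
        rw [eW]
        linear_combination this
    · refine row (3 / 25) (831 / 2000 * d + 1 / 20) (37 / 42) (by norm_num) (by norm_num)
        (by norm_num at h ⊢; exact h) (Or.inr ⟨⟨hd10, Or.inr (Or.inr ⟨rfl, rfl⟩)⟩, ?_, ?_, ?_⟩)
      · have := sc _ _ a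
        rw [eV]
        linear_combination this + (831 / 2000) * eD + (1 / 20) * es
      · have := sc _ _ b
        rw [eW]
        linear_combination this + (42 / 25) * es
      · have := sc _ _ c
        rw [eW]
        linear_combination this

end Pool.Agent.T6A.Cert
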