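import Pool.Agent.T6A.CertStmts
import Pool.Agent.T6A.CertLine0
import Pool.Agent.T6A.CertLineHub

/-!
# Project T6A, certificate: LINE (MP_c6effb_co)
-/

set_option autoImplicit false

namespace Pool.Agent.T6A.Cert

/-- **LINE** -/
theorem line : Line := by
  intro q sg d j hq hs hs' hd
  rcases Nat.eq_zero_or_pos j with rfl | hj
  · have h := Line0.line0 q sg d hq hs hs' (by simpa using hd)
    have e1 : q + 1 - sg - hub 0 * sg = q + 1 - sg := by simp [hub]
    have e2 : (1 - sg - 9 / 20 * (((d : ℝ) + 2 * ((0 : ℕ) : ℝ)) / (2 * q) - 1) + 1 / 1000) =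
        1 - sg - 9 / 20 * ((d : ℝ) / (2 * q) - 1) + 1 / 1000 := by simp
    rw [e1, e2]
    unfold Good Menu ed Nd
    exact h
  · have h := line_hub q sg d j hj hq hs hs' hd
    have e1 : hub j = 1 := by
      unfold hub
      rw [if_neg (by omega)]
    rw [e1]
    unfold Good Menu ed Nd
    exact h

end Pool.Agent.T6A.Cert
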