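import Pool.Agent.T6A.CertStmts

/-!
# T6-A, CERT v2, piece M1 (helper89)

For every natural `d ≥ 10`, `(mu, B)` in the menu, `c = 1 - mu` and `0 ≤ n`, `B n ≤ c`:
`c - B n ≤ (1 - N n) (1/(1-n) - mu/(1-n)^d) ≤ c`, `N = max (57/20) (31/20 + d/7)`.

Proof of the first part. Let `B n = (1 - κ) c`. At the end `n = c/B` one has `(1 - c/B)^(d-1) ≥ mu` (`endpt`). By Bernoulli's inequality
`(1-n)^(d-1) ≥ mu^(1-κ)`, so it suffices that `(1 - N n) (1 - mu^κ) ≥ κ c (1 - n)`. `mu^κ` is convex in `κ`: it is below its chords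
on `[0, 1/8]`, `[1/8, 1/2]`, `[1/2, 1]`; what is left is linear in `d` and quadratic in `κ`.
-/

set_option autoImplicit false

namespace Pool.Agent.T6A.Cert.M1aux

open Finset

/-! ### The end point -/

lemma log_lower {t : ℝ} (h0 : 0 ≤ t) (h1 : t < 1) :
    -(t + t ^ 2 / 2 + t ^ 3 / (3 * (1 - t))) ≤ Real.log (1 - t) := by
  have h2 : |t| < 1 := by rwa [abs_of_nonneg h0]
  have hs := Real.hasSum_pow_div_log_of_abs_lt_one h2
  have hg : HasSum (fun n : ℕ => t ^ n * (t / 3)) ((1 - t)⁻¹ * (t / 3)) :=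
    (hasSum_geometric_of_lt_one h0 h1).mul_right _
  have he : HasSum (fun n : ℕ => if n = 0 then 2 * t / 3 else 0) (2 * t / 3) :=
    hasSum_ite_eq 0 (2 * t / 3)
  have he' : HasSum (fun n : ℕ => if n = 1 then t ^ 2 / 6 else 0) (t ^ 2 / 6) :=
    hasSum_ite_eq 1 (t ^ 2 / 6)
  have hsum := (hg.add he).add he'
  have hle : -Real.log (1 - t) ≤ (1 - t)⁻¹ * (t / 3) + 2 * t / 3 + t ^ 2 / 6 := by
    refine hasSum_le (fun n => ?_) hs hsum
    rcases n with _ | _ | n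
    · norm_num
      linarith
    · norm_num
      nlinarith
    · have h3 : ((n + 1 + 1 : ℕ) : ℝ) + 1 ≥ 3 := by
        push_cast
        have : (0 : ℝ) ≤ n := Nat.cast_nonneg n
        linarith
      have h4 : 0 ≤ t ^ (n + 1 + 1 + 1) := pow_nonneg h0 _
      have h5 : t ^ (n + 1 + 1 + 1) / (((n + 1 + 1 : ℕ) : ℝ) + 1) ≤ t ^ (n + 1 + 1 + 1) / 3 :=
        div_le_div_of_nonneg_left h4 (by norm_num) h3
      simp only [Nat.add_eq_zero_iff, one_ne_zero, and_false, if_false, Nat.add_eq_right,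
        add_zero]
      refine h5.trans (le_of_eq ?_)
      ring
  have h6 : (1 - t)⁻¹ * (t / 3) + 2 * t / 3 + t ^ 2 / 6 =
      t + t ^ 2 / 2 + t ^ 3 / (3 * (1 - t)) := by
    have : 1 - t ≠ 0 := by linarith
    field_simp
    ring
  rw [h6] at hle
  linarith

lemma exp_le {x r : ℝ} (h0 : 0 ≤ x) (h1 : x ≤ 1)
    (h : (∑ m ∈ range 8, x ^ m / (m.factorial : ℝ)) + x ^ 8 * 9 / (40320 * 8) ≤ r) :
    Real.exp x ≤ r := by
  have h2 := Real.exp_bound' h0 h1 (n := 8) (by norm_num)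
  refine h2.trans (le_trans (le_of_eq ?_) h)
  norm_num [Nat.factorial]

lemma exp4 {K r s : ℝ} (h0 : 0 ≤ K) (h1 : K ≤ 4)
    (h : (∑ m ∈ range 8, (K / 4) ^ m / (m.factorial : ℝ)) + (K / 4) ^ 8 * 9 / (40320 * 8) ≤ r)
    (hs : r ^ 4 * s ≤ 1) (hs0 : 0 ≤ s) : s ≤ Real.exp (-K) := by
  have h2 := exp_le (x := K / 4) (by linarith) (by linarith) h
  have h3 : Real.exp K = Real.exp (K / 4) ^ 4 := by
    rw [← Real.exp_nat_mul]
    congr 1
    push_cast
    ring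
  have h4 : Real.exp K ≤ r ^ 4 := by
    rw [h3]
    exact pow_le_pow_left₀ (Real.exp_pos _).le h2 4
  rw [Real.exp_neg, ← one_div, le_div_iff₀ (Real.exp_pos K)]
  calc s * Real.exp K ≤ s * r ^ 4 := mul_le_mul_of_nonneg_left h4 hs0
    _ ≤ 1 := by rw [mul_comm]; exact hs

/-- the polynomial inequality behind the end point -/
lemma endpt_gen {c b1 b0 K mu : ℝ} {d : ℕ} (hd : 10 ≤ d) (hc : 0 < c) (hc1 : c < 1)
    (hu1 : 1 < b1 * d + b0) (hexp : mu ≤ Real.exp (-K))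
    (hpoly : ((d : ℝ) - 1) * (6 * c * (b1 * d + b0) * (b1 * d + b0 - c) +
      3 * c ^ 2 * (b1 * d + b0 - c) + 2 * c ^ 3) ≤
        6 * K * (b1 * d + b0) ^ 2 * (b1 * d + b0 - c)) :
    mu ≤ (1 - c / (b1 * d + b0)) ^ (d - 1) := by
  obtain ⟨u, hu⟩ : ∃ u, u = b1 * d + b0 := ⟨_, rfl⟩
  rw [← hu] at hu1 hpoly ⊢
  have hu0 : 0 < u := by linarith
  have huc : 0 < u - c := by linarith
  have ht0 : 0 ≤ c / u := by positivity
  have ht1 : c / u < 1 := by rw [div_lt_one hu0]; linarith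
  have h1 := log_lower ht0 ht1
  have h2 : (0 : ℝ) < 1 - c / u := by linarith
  have hd' : (10 : ℝ) ≤ d := by exact_mod_cast hd
  have h3 : ((d : ℝ) - 1) * (c / u + (c / u) ^ 2 / 2 + (c / u) ^ 3 / (3 * (1 - c / u))) ≤ K := by
    have e : ((d : ℝ) - 1) * (c / u + (c / u) ^ 2 / 2 + (c / u) ^ 3 / (3 * (1 - c / u))) =
        (((d : ℝ) - 1) * (6 * c * u * (u - c) + 3 * c ^ 2 * (u - c) + 2 * c ^ 3)) /
          (6 * u ^ 2 * (u - c)) := by
      have h4 : 1 - c / u = (u - c) / u := by field_simp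
      rw [h4]
      field_simp
      ring
    rw [e, div_le_iff₀ (by positivity)]
    refine hpoly.trans (le_of_eq ?_)
    ring
  have h4 : (1 - c / u) ^ (d - 1) = Real.exp (((d : ℝ) - 1) * Real.log (1 - c / u)) := by
    have h5 : ((d - 1 : ℕ) : ℝ) = (d : ℝ) - 1 := by
      rw [Nat.cast_sub (by omega)]
      simp
    rw [← h5, Real.exp_nat_mul, Real.exp_log h2]
  rw [h4]
  refine hexp.trans (Real.exp_le_exp.2 ?_)
  have h6 := mul_le_mul_of_nonneg_left h1 (by linarith : (0 : ℝ) ≤ (d : ℝ) - 1)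
  linarith

/-! ### The chords of `mu ^ κ` -/

lemma chord {mu k0 k1 r0 r1 κ : ℝ} (hmu : 0 < mu) (h0 : mu ^ k0 ≤ r0) (h1 : mu ^ k1 ≤ r1)
    (hk : k0 < k1) (hl : k0 ≤ κ) (hr : κ ≤ k1) :
    mu ^ κ ≤ r0 + (κ - k0) / (k1 - k0) * (r1 - r0) := by
  have hd : 0 < k1 - k0 := by linarith
  obtain ⟨θ, hθ⟩ : ∃ θ, θ = (κ - k0) / (k1 - k0) := ⟨_, rfl⟩
  have ht0 : 0 ≤ θ := by rw [hθ]; exact div_nonneg (by linarith) hd.le
  have ht1 : θ ≤ 1 := by rw [hθ, div_le_one hd]; linarith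
  have e : κ = (1 - θ) * k0 + θ * k1 := by
    rw [hθ]
    field_simp
    ring
  have h := (convexOn_rpow_left hmu).2 (Set.mem_univ k0) (Set.mem_univ k1)
    (by linarith : (0 : ℝ) ≤ 1 - θ) ht0 (by ring)
  simp only [smul_eq_mul] at h
  rw [← e] at h
  rw [← hθ]
  refine h.trans ?_
  have a1 := mul_le_mul_of_nonneg_left h0 (by linarith : (0 : ℝ) ≤ 1 - θ)
  have a2 := mul_le_mul_of_nonneg_left h1 ht0
  linarith

lemma rpow_eighth {mu r : ℝ} (hmu : 0 ≤ mu) (hr : 0 ≤ r) (h : mu ≤ r ^ 8) :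
    mu ^ (1 / 8 : ℝ) ≤ r := by
  have h1 : mu ^ (1 / 8 : ℝ) ≤ (r ^ 8) ^ (1 / 8 : ℝ) := Real.rpow_le_rpow hmu h (by norm_num)
  have h2 : (r ^ 8) ^ (1 / 8 : ℝ) = r := by
    rw [← Real.rpow_natCast, ← Real.rpow_mul hr]
    norm_num
  rwa [h2] at h1

lemma rpow_half {mu r : ℝ} (hmu : 0 ≤ mu) (hr : 0 ≤ r) (h : mu ≤ r ^ 2) :
    mu ^ (1 / 2 : ℝ) ≤ r := by
  have h1 : mu ^ (1 / 2 : ℝ) ≤ (r ^ 2) ^ (1 / 2 : ℝ) := Real.rpow_le_rpow hmu h (by norm_num)
  have h2 : (r ^ 2) ^ (1 / 2 : ℝ) = r := by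
    rw [← Real.rpow_natCast, ← Real.rpow_mul hr]
    norm_num
  rwa [h2] at h1

/-! ### The reduction -/

/-- from the end point and the inequality for `mu ^ κ` to the lower bound -/
lemma lower_gen {mu c B N n : ℝ} {d : ℕ} (hd : 1 ≤ d) (hmu : 0 < mu) (hc : c = 1 - mu)
    (hc0 : 0 < c) (hcB : c < B) (hn : 0 ≤ n) (hBn : B * n ≤ c)
    (hN : N * n ≤ 1) (hend : mu ≤ (1 - c / B) ^ (d - 1))
    (hk : ∀ κ : ℝ, 0 ≤ κ → κ ≤ 1 → n = (1 - κ) * (c / B) →
      κ * c * (1 - n) ≤ (1 - N * n) * (1 - mu ^ κ)) :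
    c - B * n ≤ (1 - N * n) * (1 / (1 - n) - mu / (1 - n) ^ d) := by
  have hB : 0 < B := hc0.trans hcB
  have hn1 : n < 1 := by
    by_contra h
    rw [not_lt] at h
    nlinarith
  obtain ⟨κ, hκ⟩ : ∃ κ, κ = 1 - B * n / c := ⟨_, rfl⟩
  have hk0 : 0 ≤ κ := by
    rw [hκ, sub_nonneg, div_le_one hc0]
    exact hBn
  have hk1 : κ ≤ 1 := by
    rw [hκ]
    have : 0 ≤ B * n / c := by positivity
    linarith
  have hnk : n = (1 - κ) * (c / B) := by
    rw [hκ]
    field_simp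
    ring
  have key := hk κ hk0 hk1 hnk
  have h1n : 0 < 1 - n := by linarith
  have hE : 0 < (1 - n) ^ (d - 1) := pow_pos h1n _
  -- Bernoulli
  have hcB1 : c / B < 1 := by rwa [div_lt_one hB]
  have hcB0 : 0 < c / B := by positivity
  have hb : (1 - c / B) ^ (1 - κ) ≤ 1 - n := by
    have := rpow_one_add_le_one_add_mul_self (s := -(c / B)) (by linarith)
      (p := 1 - κ) (by linarith) (by linarith)
    rw [← sub_eq_add_neg] at this
    refine this.trans (le_of_eq ?_)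
    rw [hnk]
    ring
  have hE1 : mu ^ (1 - κ) ≤ (1 - n) ^ (d - 1) := by
    have h1 : ((1 - c / B) ^ (1 - κ)) ^ (d - 1) ≤ (1 - n) ^ (d - 1) :=
      pow_le_pow_left₀ (Real.rpow_nonneg (by linarith) _) hb _
    have h2 : ((1 - c / B) ^ (1 - κ)) ^ (d - 1) = ((1 - c / B) ^ (d - 1)) ^ (1 - κ) := by
      rw [← Real.rpow_natCast, ← Real.rpow_natCast, ← Real.rpow_mul (by linarith),
        ← Real.rpow_mul (by linarith), mul_comm]
    rw [h2] at h1
    exact (Real.rpow_le_rpow hmu.le hend (by linarith)).trans h1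
  have hE2 : mu / (1 - n) ^ (d - 1) ≤ mu ^ κ := by
    rw [div_le_iff₀ hE]
    have h3 : mu = mu ^ κ * mu ^ (1 - κ) := by
      rw [← Real.rpow_add hmu]
      norm_num
    calc mu = mu ^ κ * mu ^ (1 - κ) := h3
      _ ≤ mu ^ κ * (1 - n) ^ (d - 1) :=
        mul_le_mul_of_nonneg_left hE1 (Real.rpow_nonneg hmu.le _)
  have e1 : 1 / (1 - n) - mu / (1 - n) ^ d = (1 - mu / (1 - n) ^ (d - 1)) / (1 - n) := by
    obtain ⟨m, rfl⟩ : ∃ m, d = m + 1 := ⟨d - 1, by omega⟩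
    rw [Nat.add_sub_cancel, pow_succ]
    field_simp
  have e2 : c - B * n = κ * c := by
    rw [hκ]
    field_simp
  rw [e1, e2, ← mul_div_assoc, le_div_iff₀ h1n]
  refine key.trans (mul_le_mul_of_nonneg_left ?_ (by linarith))
  linarith

/-- the upper bound -/
lemma upper_gen {mu N n : ℝ} {d : ℕ} (hd : 1 ≤ d) (hmu : 0 ≤ mu) (hmu1 : mu ≤ 1) (hn : 0 ≤ n)
    (hn1 : n < 1) (hN1 : 1 ≤ N) (hN : N * n ≤ 1) :
    (1 - N * n) * (1 / (1 - n) - mu / (1 - n) ^ d) ≤ 1 - mu := by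
  have h1n : 0 < 1 - n := by linarith
  have h1 : mu / (1 - n) ≤ mu / (1 - n) ^ d := by
    apply div_le_div_of_nonneg_left hmu (pow_pos h1n _)
    obtain ⟨m, rfl⟩ : ∃ m, d = m + 1 := ⟨d - 1, by omega⟩
    rw [pow_succ]
    have : (1 - n) ^ m ≤ 1 := pow_le_one₀ h1n.le (by linarith)
    nlinarith
  calc (1 - N * n) * (1 / (1 - n) - mu / (1 - n) ^ d)
      ≤ (1 - N * n) * (1 / (1 - n) - mu / (1 - n)) :=
        mul_le_mul_of_nonneg_left (by linarith) (by linarith)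
    _ = (1 - N * n) * (1 - mu) / (1 - n) := by
        field_simp
    _ ≤ 1 - mu := by
        rw [div_le_iff₀ h1n, mul_comm]
        refine mul_le_mul_of_nonneg_left ?_ (by linarith)
        nlinarith

/-- reduction to a chord -/
lemma red {mu c B N n κ L : ℝ} (hB : 0 < B) (hn : n = (1 - κ) * (c / B)) (hL : mu ^ κ ≤ L)
    (hN : 0 ≤ B - N * ((1 - κ) * c))
    (h : κ * c * (B - (1 - κ) * c) ≤ (B - N * ((1 - κ) * c)) * (1 - L)) :
    κ * c * (1 - n) ≤ (1 - N * n) * (1 - mu ^ κ) := by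
  have e1 : B * (1 - n) = B - (1 - κ) * c := by
    rw [hn]
    field_simp
  have e2 : B * (1 - N * n) = B - N * ((1 - κ) * c) := by
    rw [hn]
    field_simp
  have h1 : (B - N * ((1 - κ) * c)) * (1 - L) ≤ (B - N * ((1 - κ) * c)) * (1 - mu ^ κ) :=
    mul_le_mul_of_nonneg_left (by linarith) hN
  have h2 : B * (κ * c * (1 - n)) ≤ B * ((1 - N * n) * (1 - mu ^ κ)) := by
    calc B * (κ * c * (1 - n)) = κ * c * (B * (1 - n)) := by ring
      _ = κ * c * (B - (1 - κ) * c) := by rw [e1]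
      _ ≤ (B - N * ((1 - κ) * c)) * (1 - mu ^ κ) := h.trans h1
      _ = (B * (1 - N * n)) * (1 - mu ^ κ) := by rw [e2]
      _ = B * ((1 - N * n) * (1 - mu ^ κ)) := by ring
  exact le_of_mul_le_mul_left h2 hB

/-- the three chords, menu a -/
lemma kap_a {d n κ : ℝ} (hd : 10 ≤ d) (h0 : 0 ≤ κ) (h1 : κ ≤ 1)
    (hn : n = (1 - κ) * ((163/200) / (967/2000 * d + (-9/200)))) :
    κ * (163/200) * (1 - n) ≤ (1 - (31 / 20 + d / 7) * n) * (1 - (37/200 : ℝ) ^ κ) := by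
  have hB : (0 : ℝ) < 967/2000 * d + (-9/200) := by linarith
  have hN : (0 : ℝ) ≤ (967/2000 * d + (-9/200)) - (31 / 20 + d / 7) * ((1 - κ) * (163/200)) := by
    nlinarith [mul_nonneg h0 (by linarith : (0 : ℝ) ≤ d)]
  have h8 : (37/200 : ℝ) ^ (1 / 8 : ℝ) ≤ 81/100 := rpow_eighth (by norm_num) (by norm_num) (by norm_num)
  have h2 : (37/200 : ℝ) ^ (1 / 2 : ℝ) ≤ 4302/10000 := rpow_half (by norm_num) (by norm_num) (by norm_num)
  have hd0 : 0 ≤ d - 10 := by linarith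
  rcases le_total κ (1 / 8) with hk | hk
  · have hc := chord (mu := 37/200) (k0 := 0) (r0 := 1) (by norm_num)
      (by rw [Real.rpow_zero]) h8 (by norm_num) h0 hk
    refine red hB hn hc hN ?_
    have hb : (163/200 : ℝ) * ((967/2000 * d + (-9/200)) - (1 - κ) * (163/200)) ≤
        ((967/2000 * d + (-9/200)) - (31 / 20 + d / 7) * ((1 - κ) * (163/200))) * (8 * (1 - 81/100)) := by
      nlinarith [mul_nonneg h0 hd0, mul_nonneg (sub_nonneg.2 hk) hd0]
    have := mul_le_mul_of_nonneg_left hb h0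
    calc κ * (163/200) * ((967/2000 * d + (-9/200)) - (1 - κ) * (163/200))
        = κ * ((163/200) * ((967/2000 * d + (-9/200)) - (1 - κ) * (163/200))) := by ring
      _ ≤ _ := this
      _ = _ := by ring
  · rcases le_total κ (1 / 2) with hk' | hk'
    · have hc := chord (mu := 37/200) (by norm_num) h8 h2 (by norm_num) hk hk'
      refine red hB hn hc hN ?_
      have hP : 0 ≤ (1629063 / 70000000) + (-1043069 / 70000000) * κ + (103179 / 875000) * κ ^ 2 := by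
        nlinarith [sq_nonneg (κ - 1 / 16)]
      have hQ : 0 ≤ (20969233 / 140000000) + (-97022157 / 140000000) * κ + (62803411 / 35000000) * κ ^ 2 := by
        nlinarith [sq_nonneg (κ - 1 / 5)]
      refine le_of_sub_nonneg ((add_nonneg (mul_nonneg hd0 hP) hQ).trans (le_of_eq ?_))
      ring
    · have hc := chord (mu := 37/200) (r1 := 37/200) (by norm_num) h2
        (by rw [Real.rpow_one]) (by norm_num) hk' h1
      refine red hB hn hc hN ?_
      have h1' := sub_nonneg.2 h1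
      have hb : 0 ≤ -(31 / 20 + d / 7) * (163/200 : ℝ) ^ 2 - 2 * (4302/10000 - 37/200) * (967/2000 * d + (-9/200)) +
          2 * (31 / 20 + d / 7) * (163/200) * (1 - κ) * (4302/10000 - 37/200) + (163/200) ^ 2 +
          (163/200) * (967/2000 * d + (-9/200)) - (163/200) ^ 2 * (1 - κ) := by
        nlinarith [mul_nonneg h1' hd0, mul_nonneg (sub_nonneg.2 hk') hd0]
      have := mul_nonneg h1' hb
      refine le_of_sub_nonneg (this.trans (le_of_eq ?_))
      ring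

/-- the three chords, menu b -/
lemma kap_b {d n κ : ℝ} (hd : 10 ≤ d) (h0 : 0 ≤ κ) (h1 : κ ≤ 1)
    (hn : n = (1 - κ) * ((21/25) / (459/1000 * d + (-1/50)))) :
    κ * (21/25) * (1 - n) ≤ (1 - (31 / 20 + d / 7) * n) * (1 - (4/25 : ℝ) ^ κ) := by
  have hB : (0 : ℝ) < 459/1000 * d + (-1/50) := by linarith
  have hN : (0 : ℝ) ≤ (459/1000 * d + (-1/50)) - (31 / 20 + d / 7) * ((1 - κ) * (21/25)) := by
    nlinarith [mul_nonneg h0 (by linarith : (0 : ℝ) ≤ d)]
  have h8 : (4/25 : ℝ) ^ (1 / 8 : ℝ) ≤ 7953/10000 := rpow_eighth (by norm_num) (by norm_num) (by norm_num)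
  have h2 : (4/25 : ℝ) ^ (1 / 2 : ℝ) ≤ 4/10 := rpow_half (by norm_num) (by norm_num) (by norm_num)
  have hd0 : 0 ≤ d - 10 := by linarith
  rcases le_total κ (1 / 8) with hk | hk
  · have hc := chord (mu := 4/25) (k0 := 0) (r0 := 1) (by norm_num)
      (by rw [Real.rpow_zero]) h8 (by norm_num) h0 hk
    refine red hB hn hc hN ?_
    have hb : (21/25 : ℝ) * ((459/1000 * d + (-1/50)) - (1 - κ) * (21/25)) ≤
        ((459/1000 * d + (-1/50)) - (31 / 20 + d / 7) * ((1 - κ) * (21/25))) * (8 * (1 - 7953/10000)) := by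
      nlinarith [mul_nonneg h0 hd0, mul_nonneg (sub_nonneg.2 hk) hd0]
    have := mul_le_mul_of_nonneg_left hb h0
    calc κ * (21/25) * ((459/1000 * d + (-1/50)) - (1 - κ) * (21/25))
        = κ * ((21/25) * ((459/1000 * d + (-1/50)) - (1 - κ) * (21/25))) := by ring
      _ ≤ _ := this
      _ = _ := by ring
  · rcases le_total κ (1 / 2) with hk' | hk'
    · have hc := chord (mu := 4/25) (by norm_num) h8 h2 (by norm_num) hk hk'
      refine red hB hn hc hN ?_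
      have hP : 0 ≤ (61811 / 2500000) + (-24321 / 1250000) * κ + (3953 / 31250) * κ ^ 2 := by
        nlinarith [sq_nonneg (κ - 1 / 13)]
      have hQ : 0 ≤ (282799 / 1875000) + (-2890399 / 3750000) * κ + (1207401 / 625000) * κ ^ 2 := by
        nlinarith [sq_nonneg (κ - 1 / 5)]
      refine le_of_sub_nonneg ((add_nonneg (mul_nonneg hd0 hP) hQ).trans (le_of_eq ?_))
      ring
    · have hc := chord (mu := 4/25) (r1 := 4/25) (by norm_num) h2
        (by rw [Real.rpow_one]) (by norm_num) hk' h1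
      refine red hB hn hc hN ?_
      have h1' := sub_nonneg.2 h1
      have hb : 0 ≤ -(31 / 20 + d / 7) * (21/25 : ℝ) ^ 2 - 2 * (4/10 - 4/25) * (459/1000 * d + (-1/50)) +
          2 * (31 / 20 + d / 7) * (21/25) * (1 - κ) * (4/10 - 4/25) + (21/25) ^ 2 +
          (21/25) * (459/1000 * d + (-1/50)) - (21/25) ^ 2 * (1 - κ) := by
        nlinarith [mul_nonneg h1' hd0, mul_nonneg (sub_nonneg.2 hk') hd0]
      have := mul_nonneg h1' hb
      refine le_of_sub_nonneg (this.trans (le_of_eq ?_))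
      ring

/-- the three chords, menu c -/
lemma kap_c {d n κ : ℝ} (hd : 10 ≤ d) (h0 : 0 ≤ κ) (h1 : κ ≤ 1)
    (hn : n = (1 - κ) * ((22/25) / (831/2000 * d + (1/20)))) :
    κ * (22/25) * (1 - n) ≤ (1 - (31 / 20 + d / 7) * n) * (1 - (3/25 : ℝ) ^ κ) := by
  have hB : (0 : ℝ) < 831/2000 * d + (1/20) := by linarith
  have hN : (0 : ℝ) ≤ (831/2000 * d + (1/20)) - (31 / 20 + d / 7) * ((1 - κ) * (22/25)) := by
    nlinarith [mul_nonneg h0 (by linarith : (0 : ℝ) ≤ d)]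
  have h8 : (3/25 : ℝ) ^ (1 / 8 : ℝ) ≤ 7672/10000 := rpow_eighth (by norm_num) (by norm_num) (by norm_num)
  have h2 : (3/25 : ℝ) ^ (1 / 2 : ℝ) ≤ 3465/10000 := rpow_half (by norm_num) (by norm_num) (by norm_num)
  have hd0 : 0 ≤ d - 10 := by linarith
  rcases le_total κ (1 / 8) with hk | hk
  · have hc := chord (mu := 3/25) (k0 := 0) (r0 := 1) (by norm_num)
      (by rw [Real.rpow_zero]) h8 (by norm_num) h0 hk
    refine red hB hn hc hN ?_
    have hb : (22/25 : ℝ) * ((831/2000 * d + (1/20)) - (1 - κ) * (22/25)) ≤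
        ((831/2000 * d + (1/20)) - (31 / 20 + d / 7) * ((1 - κ) * (22/25))) * (8 * (1 - 7672/10000)) := by
      nlinarith [mul_nonneg h0 hd0, mul_nonneg (sub_nonneg.2 hk) hd0]
    have := mul_le_mul_of_nonneg_left hb h0
    calc κ * (22/25) * ((831/2000 * d + (1/20)) - (1 - κ) * (22/25))
        = κ * ((22/25) * ((831/2000 * d + (1/20)) - (1 - κ) * (22/25))) := by ring
      _ ≤ _ := this
      _ = _ := by ring
  · rcases le_total κ (1 / 2) with hk' | hk'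
    · have hc := chord (mu := 3/25) (by norm_num) h8 h2 (by norm_num) hk hk'
      refine red hB hn hc hN ?_
      have hP : 0 ≤ (11266289 / 420000000) + (-505787 / 17500000) * κ + (6611 / 46875) * κ ^ 2 := by
        nlinarith [sq_nonneg (κ - 1 / 10)]
      have hQ : 0 ≤ (30788599 / 210000000) + (-47590883 / 52500000) * κ + (676929 / 312500) * κ ^ 2 := by
        nlinarith [sq_nonneg (κ - 1 / 5)]
      refine le_of_sub_nonneg ((add_nonneg (mul_nonneg hd0 hP) hQ).trans (le_of_eq ?_))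
      ring
    · have hc := chord (mu := 3/25) (r1 := 3/25) (by norm_num) h2
        (by rw [Real.rpow_one]) (by norm_num) hk' h1
      refine red hB hn hc hN ?_
      have h1' := sub_nonneg.2 h1
      have hb : 0 ≤ -(31 / 20 + d / 7) * (22/25 : ℝ) ^ 2 - 2 * (3465/10000 - 3/25) * (831/2000 * d + (1/20)) +
          2 * (31 / 20 + d / 7) * (22/25) * (1 - κ) * (3465/10000 - 3/25) + (22/25) ^ 2 +
          (22/25) * (831/2000 * d + (1/20)) - (22/25) ^ 2 * (1 - κ) := by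
        nlinarith [mul_nonneg h1' hd0, mul_nonneg (sub_nonneg.2 hk') hd0]
      have := mul_nonneg h1' hb
      refine le_of_sub_nonneg (this.trans (le_of_eq ?_))
      ring

/-- the end point, the three cases -/
lemma end_a {d : ℕ} (hd : 10 ≤ d) :
    (37 / 200 : ℝ) ≤ (1 - (163 / 200) / (967 / 2000 * (d : ℝ) + (-9 / 200))) ^ (d - 1) := by
  have hd' : (10 : ℝ) ≤ d := by exact_mod_cast hd
  obtain ⟨w, hw⟩ : ∃ w : ℝ, w = d - 10 := ⟨_, rfl⟩
  have hw0 : 0 ≤ w := by rw [hw]; linarith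
  have e : (d : ℝ) = 10 + w := by rw [hw]; ring
  refine endpt_gen (K := 16873 / 10000) hd (by norm_num) (by norm_num) (by linarith) ?_ ?_
  · refine exp4 (r := 152476 / 100000) (by norm_num) (by norm_num) ?_ (by norm_num) (by norm_num)
    norm_num [Finset.sum_range_succ, Nat.factorial]
  · rw [e]
    nlinarith [pow_nonneg hw0 2, pow_nonneg hw0 3]

lemma end_b {d : ℕ} (hd : 10 ≤ d) :
    (4 / 25 : ℝ) ≤ (1 - (21 / 25) / (459 / 1000 * (d : ℝ) + (-1 / 50))) ^ (d - 1) := by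
  have hd' : (10 : ℝ) ≤ d := by exact_mod_cast hd
  obtain ⟨w, hw⟩ : ∃ w : ℝ, w = d - 10 := ⟨_, rfl⟩
  have hw0 : 0 ≤ w := by rw [hw]; linarith
  have e : (d : ℝ) = 10 + w := by rw [hw]; ring
  refine endpt_gen (K := 18325 / 10000) hd (by norm_num) (by norm_num) (by linarith) ?_ ?_
  · refine exp4 (r := 158112 / 100000) (by norm_num) (by norm_num) ?_ (by norm_num) (by norm_num)
    norm_num [Finset.sum_range_succ, Nat.factorial]
  · rw [e]
    nlinarith [pow_nonneg hw0 2, pow_nonneg hw0 3]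

lemma end_c {d : ℕ} (hd : 10 ≤ d) :
    (3 / 25 : ℝ) ≤ (1 - (22 / 25) / (831 / 2000 * (d : ℝ) + 1 / 20)) ^ (d - 1) := by
  have hd' : (10 : ℝ) ≤ d := by exact_mod_cast hd
  obtain ⟨w, hw⟩ : ∃ w : ℝ, w = d - 10 := ⟨_, rfl⟩
  have hw0 : 0 ≤ w := by rw [hw]; linarith
  have e : (d : ℝ) = 10 + w := by rw [hw]; ring
  refine endpt_gen (K := 21202 / 10000) hd (by norm_num) (by norm_num) (by linarith) ?_ ?_
  · refine exp4 (r := 169903 / 100000) (by norm_num) (by norm_num) ?_ (by norm_num) (by norm_num)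
    norm_num [Finset.sum_range_succ, Nat.factorial]
  · rw [e]
    nlinarith [pow_nonneg hw0 2, pow_nonneg hw0 3]

end Pool.Agent.T6A.Cert.M1aux

namespace Pool.Agent.T6A.Cert

open M1aux

/-- (M1), with the condition `B n ≤ 1 - mu` -/
theorem m1g {d : ℕ} (hd : 10 ≤ d) {mu B n : ℝ}
    (h : (mu = 37 / 200 ∧ B = 967 / 2000 * d - 9 / 200) ∨
      (mu = 4 / 25 ∧ B = 459 / 1000 * d - 1 / 50) ∨ (mu = 3 / 25 ∧ B = 831 / 2000 * d + 1 / 20))
    (hn : 0 ≤ n) (hBn : B * n ≤ 1 - mu) :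
    (1 - mu) - B * n ≤
        (1 - max (57 / 20) (31 / 20 + (d : ℝ) / 7) * n) * (1 / (1 - n) - mu / (1 - n) ^ d) ∧
      (1 - max (57 / 20) (31 / 20 + (d : ℝ) / 7) * n) * (1 / (1 - n) - mu / (1 - n) ^ d) ≤
        1 - mu := by
  have hd' : (10 : ℝ) ≤ d := by exact_mod_cast hd
  have hN : max (57 / 20 : ℝ) (31 / 20 + (d : ℝ) / 7) = 31 / 20 + (d : ℝ) / 7 :=
    max_eq_right (by linarith)
  rw [hN]
  have hmu0 : 0 < mu := by rcases h with ⟨rfl, -⟩ | ⟨rfl, -⟩ | ⟨rfl, -⟩ <;> norm_num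
  have hmu1 : mu < 1 := by rcases h with ⟨rfl, -⟩ | ⟨rfl, -⟩ | ⟨rfl, -⟩ <;> norm_num
  have hB1 : 1 < B := by
    rcases h with ⟨-, rfl⟩ | ⟨-, rfl⟩ | ⟨-, rfl⟩ <;> linarith
  have hNn : (31 / 20 + (d : ℝ) / 7) * n ≤ 1 := by
    have h1 : (31 / 20 + (d : ℝ) / 7) * (1 - mu) ≤ B := by
      rcases h with ⟨rfl, rfl⟩ | ⟨rfl, rfl⟩ | ⟨rfl, rfl⟩ <;> linarith
    have h2 : B * ((31 / 20 + (d : ℝ) / 7) * n) ≤ B * 1 := by
      calc B * ((31 / 20 + (d : ℝ) / 7) * n) = (31 / 20 + (d : ℝ) / 7) * (B * n) := by ring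
        _ ≤ (31 / 20 + (d : ℝ) / 7) * (1 - mu) :=
          mul_le_mul_of_nonneg_left hBn (by positivity)
        _ ≤ B * 1 := by rw [mul_one]; exact h1
    exact le_of_mul_le_mul_left h2 (by linarith)
  have hn1 : n < 1 := by
    by_contra hc
    rw [not_lt] at hc
    nlinarith
  have hd1 : 1 ≤ d := by omega
  refine ⟨?_, upper_gen hd1 hmu0.le hmu1.le hn hn1 (by linarith) hNn⟩
  refine lower_gen (c := 1 - mu) hd1 hmu0 rfl (by linarith) (by linarith) hn hBn hNn ?_ ?_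
  · rcases h with ⟨rfl, rfl⟩ | ⟨rfl, rfl⟩ | ⟨rfl, rfl⟩
    · convert end_a hd using 3
      norm_num
      ring_nf
    · convert end_b hd using 3
      norm_num
      ring_nf
    · convert end_c hd using 3
      norm_num
  · intro κ h0 h1 hk
    rcases h with ⟨rfl, rfl⟩ | ⟨rfl, rfl⟩ | ⟨rfl, rfl⟩
    · have := kap_a (n := n) hd' h0 h1 (by
        rw [hk, show 967 / 2000 * (d : ℝ) - 9 / 200 = 967 / 2000 * (d : ℝ) + (-9 / 200) by ring]
        norm_num)
      norm_num at this ⊢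
      exact this
    · have := kap_b (n := n) hd' h0 h1 (by
        rw [hk, show 459 / 1000 * (d : ℝ) - 1 / 50 = 459 / 1000 * (d : ℝ) + (-1 / 50) by ring]
        norm_num)
      norm_num at this ⊢
      exact this
    · have := kap_c (n := n) hd' h0 h1 (by rw [hk]; norm_num)
      norm_num at this ⊢
      exact this

/-- (M1) in the form of `CertStmts` -/
theorem m1 : M1 := fun _ _ _ _ h hn hBn => m1g h.1 h.2 hn hBn

end Pool.Agent.T6A.Cert
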