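import Pool.Agent.T6A.CertStmts

/-!
# T6-A, CERT v2, piece M3 (helper81)

For every natural `d ≥ 10`, `mu` in the menu `37/200, 4/25, 3/25` and `0 ≤ n < 1`
`(21/25) (1 - mu/(1-n)^(d-1)) ≤ (1 - mu) (1 - N_d n)`, `N_d = max (57/20) (31/20 + d/7)`.
The bound `n ≤ (1 - mu)/B` is not needed.
-/

set_option autoImplicit false

namespace Pool.Agent.T6A.Cert

/-- the first four terms of the binomial series of `(1-n)^(-k)` -/
lemma m3_series {n : ℝ} (_hn : 0 ≤ n) (hn1 : n < 1) (k : ℕ) :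
    (1 + k * n + k * (k + 1) / 2 * n ^ 2 + k * (k + 1) * (k + 2) / 6 * n ^ 3) * (1 - n) ^ k ≤ 1 := by
  have h1 : (0 : ℝ) ≤ 1 - n := by linarith
  induction k with
  | zero => simp
  | succ k ih =>
    refine le_trans ?_ ih
    rw [pow_succ' (1 - n) k, ← mul_assoc]
    refine mul_le_mul_of_nonneg_right ?_ (pow_nonneg h1 k)
    have hk : (0 : ℝ) ≤ k := Nat.cast_nonneg k
    have h2 : (0 : ℝ) ≤ (k + 1) * (k + 2) * (k + 3) / 6 * n ^ 4 := by positivity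
    push_cast
    nlinarith

lemma m3_real {mu n x d : ℝ} (hmu : mu = 37 / 200 ∨ mu = 4 / 25 ∨ mu = 3 / 25) (hd : 10 ≤ d)
    (hn : 0 ≤ n) (hx : x = d * n) :
    21 / 25 * (1 - mu * (1 + (d - 1) * n + (d - 1) * d / 2 * n ^ 2 +
      (d - 1) * d * (d + 1) / 6 * n ^ 3)) ≤ (1 - mu) * (1 - (31 / 20 + d / 7) * n) := by
  have hx0 : 0 ≤ x := by rw [hx]; positivity
  -- `10 n ≤ x`, `(9/10) x² ≤ (d-1) d n²`, `(99/100) x³ ≤ (d-1) d (d+1) n³`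
  have h1 : 10 * n ≤ x := by rw [hx]; nlinarith
  have h2 : 9 / 10 * x ^ 2 ≤ (d - 1) * d * n ^ 2 := by
    rw [hx]
    nlinarith [mul_nonneg (mul_nonneg (sq_nonneg n) (by linarith : (0 : ℝ) ≤ d))
      (by linarith : (0 : ℝ) ≤ d - 10)]
  have h3 : 99 / 100 * x ^ 3 ≤ (d - 1) * d * (d + 1) * n ^ 3 := by
    rw [hx]
    have h4 : 0 ≤ n ^ 3 * d * ((d - 10) * (d + 10)) :=
      mul_nonneg (mul_nonneg (by positivity) (by linarith)) (mul_nonneg (by linarith) (by linarith))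
    nlinarith
  rcases hmu with rfl | rfl | rfl
  · have key : 0 ≤ 4 / 25 * (1 - 37 / 200) - 103 / 1000 * x + 69 / 1000 * x ^ 2 := by
      nlinarith [sq_nonneg (x - 3 / 4)]
    have e : d * n = x := hx.symm
    nlinarith
  · have key : 0 ≤ 4 / 25 * (1 - 4 / 25) - 1293 / 10000 * x + 6 / 100 * x ^ 2 := by
      nlinarith [sq_nonneg (x - 1)]
    have e : d * n = x := hx.symm
    nlinarith
  · have key : 0 ≤ 4 / 25 * (1 - 3 / 25) - 1715 / 10000 * x + 45 / 1000 * x ^ 2 +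
        16 / 1000 * x ^ 3 := by
      nlinarith [mul_nonneg hx0 (sq_nonneg (x - 6 / 5)), sq_nonneg (x - 6 / 5)]
    have e : d * n = x := hx.symm
    nlinarith

/-- (M3), general form -/
theorem m3_gen (d : ℕ) (hd : 10 ≤ d) {mu n : ℝ} (hmu : mu = 37 / 200 ∨ mu = 4 / 25 ∨ mu = 3 / 25)
    (hn : 0 ≤ n) (hn1 : n < 1) :
    21 / 25 * (1 - mu / (1 - n) ^ (d - 1)) ≤
      (1 - mu) * (1 - max (57 / 20) (31 / 20 + (d : ℝ) / 7) * n) := by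
  have hd' : (10 : ℝ) ≤ d := by exact_mod_cast hd
  have hN : max (57 / 20 : ℝ) (31 / 20 + (d : ℝ) / 7) = 31 / 20 + (d : ℝ) / 7 :=
    max_eq_right (by linarith)
  rw [hN]
  have hmu0 : 0 ≤ mu := by rcases hmu with rfl | rfl | rfl <;> norm_num
  have h1 : (0 : ℝ) < (1 - n) ^ (d - 1) := pow_pos (by linarith) _
  have hs := m3_series hn hn1 (d - 1)
  have hc : ((d - 1 : ℕ) : ℝ) = (d : ℝ) - 1 := by
    rw [Nat.cast_sub (by omega)]
    simp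
  rw [hc] at hs
  have h2 : 1 + ((d : ℝ) - 1) * n + ((d : ℝ) - 1) * d / 2 * n ^ 2 +
      ((d : ℝ) - 1) * d * (d + 1) / 6 * n ^ 3 ≤ 1 / (1 - n) ^ (d - 1) := by
    rw [le_div_iff₀ h1]
    refine le_trans (le_of_eq ?_) hs
    ring
  have h3 : mu * (1 + ((d : ℝ) - 1) * n + ((d : ℝ) - 1) * d / 2 * n ^ 2 +
      ((d : ℝ) - 1) * d * (d + 1) / 6 * n ^ 3) ≤ mu / (1 - n) ^ (d - 1) := by
    have := mul_le_mul_of_nonneg_left h2 hmu0
    rwa [mul_one_div] at this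
  have h4 := m3_real hmu hd' hn (x := d * n) rfl
  linarith

/-- (M3) with `B n ≤ 1 - mu` (nothing else is used) -/
theorem m3_mul (d : ℕ) (mu B n : ℝ)
    (h : 10 ≤ d ∧ ((mu = 37 / 200 ∧ B = 967 / 2000 * d - 9 / 200) ∨
      (mu = 4 / 25 ∧ B = 459 / 1000 * d - 1 / 50) ∨ (mu = 3 / 25 ∧ B = 831 / 2000 * d + 1 / 20)))
    (hn : 0 ≤ n) (hB : B * n ≤ 1 - mu) :
    21 / 25 * (1 - mu / (1 - n) ^ (d - 1)) ≤
      (1 - mu) * (1 - max (57 / 20) (31 / 20 + (d : ℝ) / 7) * n) := by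
  obtain ⟨hd, h⟩ := h
  have hd' : (10 : ℝ) ≤ d := by exact_mod_cast hd
  have h2 : (mu = 37 / 200 ∨ mu = 4 / 25 ∨ mu = 3 / 25) ∧ 2 ≤ B := by
    rcases h with ⟨rfl, rfl⟩ | ⟨rfl, rfl⟩ | ⟨rfl, rfl⟩
    · exact ⟨Or.inl rfl, by linarith⟩
    · exact ⟨Or.inr (Or.inl rfl), by linarith⟩
    · exact ⟨Or.inr (Or.inr rfl), by linarith⟩
  have h3 : 0 ≤ mu := by rcases h2.1 with rfl | rfl | rfl <;> norm_num
  exact m3_gen d hd h2.1 hn (by nlinarith)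

/-- (M3) with `n ≤ (1 - mu) / B` -/
theorem m3_div (d : ℕ) (mu B n : ℝ)
    (h : 10 ≤ d ∧ ((mu = 37 / 200 ∧ B = 967 / 2000 * d - 9 / 200) ∨
      (mu = 4 / 25 ∧ B = 459 / 1000 * d - 1 / 50) ∨ (mu = 3 / 25 ∧ B = 831 / 2000 * d + 1 / 20)))
    (hn : 0 ≤ n) (hB : n ≤ (1 - mu) / B) :
    21 / 25 * (1 - mu / (1 - n) ^ (d - 1)) ≤
      (1 - mu) * (1 - max (57 / 20) (31 / 20 + (d : ℝ) / 7) * n) := by
  refine m3_mul d mu B n h hn ?_
  have hd' : (10 : ℝ) ≤ d := by exact_mod_cast h.1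
  have h2 : 0 < B := by
    rcases h.2 with ⟨-, rfl⟩ | ⟨-, rfl⟩ | ⟨-, rfl⟩ <;> linarith
  rw [le_div_iff₀ h2] at hB
  linarith

/-- **M3** -/
theorem m3 : M3 := fun d mu B n h h0 h1 => m3_mul d mu B n h h0 h1

end Pool.Agent.T6A.Cert
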