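import Pool.Agent.T6A.CertStmts

/-!
# T6-A, CERT v2, piece S1 (helper90)

For every natural `d ≥ 10`, `(mu, b1, b0)` in the menu, `0 ≤ n ≤ (1 - mu) / (b1 d + b0)`, `0 < s ≤ 1/2`:
`(1 - N_d n)/(1-n)^d * ((1-n)^(d-1) - (max 0 (1 - n/(1-s)))^(d-1) - s (1-mu)/2) ≤ s (3/10)`,
`N_d = max (57/20) (31/20 + d/7)`.
-/

set_option autoImplicit false

namespace Pool.Agent.T6A.Cert

lemma s1_nat (E : ℕ) : (0 : ℝ) ≤ E * (E - 1) * (E - 2) := by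
  rcases E with _ | _ | E
  · simp
  · simp
  · have h : (((E + 1 + 1 : ℕ) : ℝ)) * (((E + 1 + 1 : ℕ) : ℝ) - 1) * (((E + 1 + 1 : ℕ) : ℝ) - 2) =
        ((E : ℝ) + 2) * ((E : ℝ) + 1) * E := by
      push_cast
      ring
    rw [h]
    positivity

lemma s1_nat2 (E : ℕ) : (0 : ℝ) ≤ E * (E - 1) := by
  rcases E with _ | E
  · simp
  · have h : (((E + 1 : ℕ) : ℝ)) * (((E + 1 : ℕ) : ℝ) - 1) = ((E : ℝ) + 1) * E := by
      push_cast
      ring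
    rw [h]
    positivity

lemma s1_lower {q : ℝ} (h0 : 0 ≤ q) (h1 : q ≤ 1) (E : ℕ) :
    1 - E * q + E * (E - 1) / 2 * q ^ 2 - E * (E - 1) * (E - 2) / 6 * q ^ 3 ≤ (1 - q) ^ E := by
  induction E with
  | zero => simp
  | succ E ih =>
    have hC := mul_nonneg (s1_nat E) (pow_nonneg h0 4)
    rw [pow_succ]
    have h2 := mul_le_mul_of_nonneg_right ih (by linarith : 0 ≤ 1 - q)
    refine le_trans (le_of_sub_nonneg ?_) h2
    refine le_of_le_of_eq (div_nonneg hC (by norm_num : (0 : ℝ) ≤ 6)) ?_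
    push_cast
    ring

lemma s1_upper {q : ℝ} (h0 : 0 ≤ q) (E : ℕ) :
    1 + E * q + E * (E - 1) / 2 * q ^ 2 + E * (E - 1) * (E - 2) / 6 * q ^ 3 ≤ (1 + q) ^ E := by
  induction E with
  | zero => simp
  | succ E ih =>
    have hC := mul_nonneg (s1_nat E) (pow_nonneg h0 4)
    rw [pow_succ]
    have h2 := mul_le_mul_of_nonneg_right ih (by linarith : 0 ≤ 1 + q)
    refine le_trans (le_of_sub_nonneg ?_) h2
    refine le_of_le_of_eq (div_nonneg hC (by norm_num : (0 : ℝ) ≤ 6)) ?_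
    push_cast
    ring

lemma s1_one {w ρ : ℝ} (hw : 0 ≤ w) (hw2 : w ≤ 5 / 2) (hρ : 0 ≤ ρ) (hρ2 : 9 * ρ ≤ w) :
    2 * (w - w * (w - ρ) / 2 + w * (w - ρ) * (w - 2 * ρ) / 6) ≤
      163 / 400 * (1 + w + w * (w - ρ) / 2 + w * (w - ρ) * (w - 2 * ρ) / 6) +
        3 / 10 * (1 + w / 7) := by
  -- concave in `ρ`: the value at `ρ` is at least the chord between `0` and `w / 9`
  have e0 : 0 ≤ 7075 / 10000 - 15497 / 10000 * w + 1203 / 1000 * w ^ 2 - 2655 / 10000 * w ^ 3 := by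
    nlinarith [mul_nonneg hw (sq_nonneg (w - 1)), mul_nonneg (by linarith : 0 ≤ 5 / 2 - w) (sq_nonneg (w - 1)),
      mul_nonneg hw (mul_nonneg hw (by linarith : 0 ≤ 5 / 2 - w)), sq_nonneg (w - 1)]
  have e1 : 0 ≤ 7075 / 10000 - 15497 / 10000 * w + 1070 / 1000 * w ^ 2 - 1836 / 10000 * w ^ 3 := by
    nlinarith [mul_nonneg hw (sq_nonneg (w - 1)), mul_nonneg (by linarith : 0 ≤ 5 / 2 - w) (sq_nonneg (w - 1)),
      mul_nonneg hw (mul_nonneg hw (by linarith : 0 ≤ 5 / 2 - w)), sq_nonneg (w - 1)]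
  have h9 : 0 ≤ w - 9 * ρ := by linarith
  have key : 0 ≤ w * (163 / 400 * (1 + w + w * (w - ρ) / 2 + w * (w - ρ) * (w - 2 * ρ) / 6) +
        3 / 10 * (1 + w / 7) - 2 * (w - w * (w - ρ) / 2 + w * (w - ρ) * (w - 2 * ρ) / 6)) := by
    nlinarith [mul_nonneg h9 e0, mul_nonneg hρ e1, mul_nonneg (mul_nonneg hw hw) (mul_nonneg hρ h9),
      mul_nonneg hρ hw, mul_nonneg (mul_nonneg hρ hw) hw, mul_nonneg h9 hw,
      mul_nonneg (mul_nonneg h9 hw) hw, mul_nonneg (mul_nonneg (mul_nonneg h9 hw) hw) hw,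
      mul_nonneg (mul_nonneg (mul_nonneg hρ hw) hw) hw]
  rcases eq_or_lt_of_le hw with h | h
  · subst h
    norm_num
  · have := nonneg_of_mul_nonneg_right key h
    linarith

/-- the factor `1 + r` is largest at `r = 1` -/
lemma s1_rad {w ρ r : ℝ} (hw : 0 ≤ w) (hρ2 : 9 * ρ ≤ w)
    (hr0 : 0 ≤ r) (hr1 : r ≤ 1) :
    (1 + r) * (w - w * (w - ρ) / 2 * r + w * (w - ρ) * (w - 2 * ρ) / 6 * r ^ 2) ≤
      2 * (w - w * (w - ρ) / 2 + w * (w - ρ) * (w - 2 * ρ) / 6) := by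
  have hu : 0 ≤ w - ρ := by linarith
  have hv : 7 / 8 * (w - ρ) ≤ w - 2 * ρ := by linarith
  set u := w - ρ with hud
  have h1 : 0 ≤ 1 - u / 2 * (2 + r) + u * (w - 2 * ρ) / 6 * (2 + 2 * r + r ^ 2) := by
    have h2 : u * (7 / 8 * u) / 6 * (2 + 2 * r + r ^ 2) ≤
        u * (w - 2 * ρ) / 6 * (2 + 2 * r + r ^ 2) := by
      have h3 : 0 ≤ 2 + 2 * r + r ^ 2 := by positivity
      have h4 := mul_le_mul_of_nonneg_left hv hu
      have h5 := mul_le_mul_of_nonneg_right h4 h3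
      linarith
    have h6 : 0 ≤ 1 - u / 2 * (2 + r) + u * (7 / 8 * u) / 6 * (2 + 2 * r + r ^ 2) := by
      have h7 : 0 ≤ u ^ 2 * (2 + 2 * r + 4 * r ^ 2) := by positivity
      nlinarith [sq_nonneg (1 - u * (2 + r) / 4)]
    linarith
  have h8 : 0 ≤ (1 - r) * (w * (1 - u / 2 * (2 + r) + u * (w - 2 * ρ) / 6 * (2 + 2 * r + r ^ 2))) :=
    mul_nonneg (by linarith) (mul_nonneg hw h1)
  nlinarith [h8]

/-- The main estimate, `q = ρ r`. -/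
lemma s1_main {E : ℕ} {ρ r m : ℝ} (hE : 9 ≤ E) (hρ : 0 ≤ ρ) (hw2 : E * ρ ≤ 5 / 2)
    (hr0 : 0 ≤ r) (hr1 : r ≤ 1) (hm : 163 / 400 ≤ m) :
    (1 + r) * (1 - (1 - ρ * r) ^ E) ≤ r * (m * (1 + ρ) ^ E + 3 / 10 * (1 + E * ρ / 7)) := by
  have hE9 : (9 : ℝ) ≤ E := by exact_mod_cast hE
  have hρ2 : 9 * ρ ≤ E * ρ := mul_le_mul_of_nonneg_right hE9 hρ
  have hw : 0 ≤ (E : ℝ) * ρ := by positivity
  have hq0 : 0 ≤ ρ * r := mul_nonneg hρ hr0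
  have hq1 : ρ * r ≤ 1 := by nlinarith
  have h1 := s1_lower hq0 hq1 E
  have h2 := s1_upper hρ E
  have h3 := s1_rad hw hρ2 hr0 hr1
  have h4 := s1_one hw hw2 hρ hρ2
  set w := (E : ℝ) * ρ with hwd
  have e1 : (E : ℝ) * (E - 1) / 2 * (ρ * r) ^ 2 = w * (w - ρ) / 2 * r ^ 2 := by rw [hwd]; ring
  have e2 : (E : ℝ) * (E - 1) * (E - 2) / 6 * (ρ * r) ^ 3 =
      w * (w - ρ) * (w - 2 * ρ) / 6 * r ^ 3 := by rw [hwd]; ring
  have e3 : (E : ℝ) * (E - 1) / 2 * ρ ^ 2 = w * (w - ρ) / 2 := by rw [hwd]; ring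
  have e4 : (E : ℝ) * (E - 1) * (E - 2) / 6 * ρ ^ 3 = w * (w - ρ) * (w - 2 * ρ) / 6 := by
    rw [hwd]; ring
  have e5 : (E : ℝ) * (ρ * r) = w * r := by rw [hwd]; ring
  rw [e1, e2, e5] at h1
  rw [e3, e4] at h2
  have h5 : 1 - (1 - ρ * r) ^ E ≤
      r * (w - w * (w - ρ) / 2 * r + w * (w - ρ) * (w - 2 * ρ) / 6 * r ^ 2) := by
    linarith
  have h6 : 0 ≤ (1 + ρ) ^ E := by positivity
  have h7 : 163 / 400 * (1 + ρ) ^ E ≤ m * (1 + ρ) ^ E := mul_le_mul_of_nonneg_right hm h6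
  calc (1 + r) * (1 - (1 - ρ * r) ^ E)
      ≤ (1 + r) * (r * (w - w * (w - ρ) / 2 * r + w * (w - ρ) * (w - 2 * ρ) / 6 * r ^ 2)) :=
        mul_le_mul_of_nonneg_left h5 (by linarith)
    _ = r * ((1 + r) * (w - w * (w - ρ) / 2 * r + w * (w - ρ) * (w - 2 * ρ) / 6 * r ^ 2)) := by
        ring
    _ ≤ r * (m * (1 + ρ) ^ E + 3 / 10 * (1 + w / 7)) :=
        mul_le_mul_of_nonneg_left (by linarith) hr0

/-- The inequality for real parameters. -/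
lemma s1_gen {E : ℕ} {n s m N : ℝ} (hE : 9 ≤ E) (h0 : 0 ≤ n) (h1 : n < 1)
    (hw : E * n ≤ 5 / 2 * (1 - n)) (hs : 0 < s) (hs2 : s ≤ 1 / 2) (hm : 163 / 400 ≤ m)
    (hN : N = 31 / 20 + ((E : ℝ) + 1) / 7) (hNn : N * n ≤ 1) :
    (1 - N * n) / (1 - n) ^ (E + 1) *
      ((1 - n) ^ E - (max 0 (1 - n / (1 - s))) ^ E - s * m) ≤ s * (3 / 10) := by
  obtain ⟨y, hy⟩ : ∃ y, y = 1 - n := ⟨_, rfl⟩
  have hy0 : 0 < y := by linarith
  have hs1 : 0 < 1 - s := by linarith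
  obtain ⟨ρ, hρ⟩ : ∃ ρ, ρ = n / y := ⟨_, rfl⟩
  obtain ⟨r, hr⟩ : ∃ r, r = s / (1 - s) := ⟨_, rfl⟩
  have hρ0 : 0 ≤ ρ := by rw [hρ]; positivity
  have hr0 : 0 < r := by rw [hr]; positivity
  have hr1 : r ≤ 1 := by rw [hr, div_le_one hs1]; linarith
  have hny : n = ρ * y := by rw [hρ]; field_simp
  have hsr : s * (1 + r) = r := by rw [hr]; field_simp; ring
  have hwρ : (E : ℝ) * ρ ≤ 5 / 2 := by
    rw [hρ, ← mul_div_assoc, div_le_iff₀ hy0, hy]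
    exact hw
  have hmain := s1_main hE hρ0 hwρ hr0.le hr1 hm
  have hE9 : (9 : ℝ) ≤ E := by exact_mod_cast hE
  have hρr : ρ * r ≤ 1 := by nlinarith
  have e1 : max 0 (1 - n / (1 - s)) = y * (1 - ρ * r) := by
    have e2 : 1 - n / (1 - s) = y * (1 - ρ * r) := by
      have e3 : n / (1 - s) = n * (1 + r) := by rw [hr]; field_simp; ring
      rw [e3]
      linear_combination hy * (-1 : ℝ) - r * hny
    rw [e2, max_eq_right]
    exact mul_nonneg hy0.le (by linarith)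
  rw [e1, ← hy, mul_pow]
  have hinv : y ^ E * (1 + ρ) ^ E = 1 := by
    rw [← mul_pow]
    have : y * (1 + ρ) = 1 := by linear_combination hy - hny
    rw [this, one_pow]
  -- divide by `1 + r`
  have h2 : 1 - (1 - ρ * r) ^ E ≤ s * (m * (1 + ρ) ^ E + 3 / 10 * (1 + E * ρ / 7)) := by
    have h3 : (1 + r) * (1 - (1 - ρ * r) ^ E) ≤
        (1 + r) * (s * (m * (1 + ρ) ^ E + 3 / 10 * (1 + E * ρ / 7))) := by
      refine hmain.trans (le_of_eq ?_)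
      rw [← mul_assoc, mul_comm (1 + r) s, hsr]
    exact le_of_mul_le_mul_left h3 (by linarith)
  have hyE : 0 < y ^ E := pow_pos hy0 E
  have h3 : y ^ E - y ^ E * (1 - ρ * r) ^ E - s * m ≤
      s * (3 / 10 * (1 + E * ρ / 7)) * y ^ E := by
    have h4 := mul_le_mul_of_nonneg_left h2 hyE.le
    have h5 : y ^ E * (s * (m * (1 + ρ) ^ E + 3 / 10 * (1 + E * ρ / 7))) =
        s * m * (y ^ E * (1 + ρ) ^ E) + s * (3 / 10 * (1 + E * ρ / 7)) * y ^ E := by ring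
    rw [h5, hinv] at h4
    linarith
  have hNn' : 0 ≤ 1 - N * n := by linarith
  have h6 : (1 - N * n) * (1 + E * ρ / 7) ≤ y := by
    have h7 : (1 - N * n) * (7 * y + E * n) ≤ 7 * y ^ 2 := by
      have h8 : 0 ≤ n * (97 / 20) := by positivity
      have h9 : 0 ≤ n ^ 2 * (7 + N * (E - 7)) := by
        refine mul_nonneg (sq_nonneg n) ?_
        have : 0 ≤ N * ((E : ℝ) - 7) := mul_nonneg (by rw [hN]; positivity) (by linarith)
        linarith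
      rw [hy, hN] at *
      nlinarith
    have h8 : (1 - N * n) * (1 + E * ρ / 7) * (7 * y) = (1 - N * n) * (7 * y + E * n) := by
      rw [hny]; ring
    have h9 : (1 - N * n) * (1 + E * ρ / 7) * (7 * y) ≤ y * (7 * y) := by
      rw [h8]; linarith
    exact le_of_mul_le_mul_right h9 (by linarith)
  calc (1 - N * n) / y ^ (E + 1) * (y ^ E - y ^ E * (1 - ρ * r) ^ E - s * m)
      ≤ (1 - N * n) / y ^ (E + 1) * (s * (3 / 10 * (1 + E * ρ / 7)) * y ^ E) :=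
        mul_le_mul_of_nonneg_left h3 (by positivity)
    _ = s * (3 / 10) * ((1 - N * n) * (1 + E * ρ / 7) / y) := by
        rw [pow_succ]
        field_simp
    _ ≤ s * (3 / 10) * 1 := by
        refine mul_le_mul_of_nonneg_left ?_ (by positivity)
        rw [div_le_one hy0]
        exact h6
    _ = s * (3 / 10) := mul_one _

/-- **S1** with a quotient. -/
theorem s1_div {d : ℕ} (hd : 10 ≤ d) {mu b1 b0 n s : ℝ}
    (hmu : (mu = 37 / 200 ∧ b1 = 967 / 2000 ∧ b0 = -9 / 200) ∨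
      (mu = 4 / 25 ∧ b1 = 459 / 1000 ∧ b0 = -1 / 50) ∨
      (mu = 3 / 25 ∧ b1 = 831 / 2000 ∧ b0 = 1 / 20))
    (h0 : 0 ≤ n) (hn : n ≤ (1 - mu) / (b1 * d + b0)) (hs : 0 < s) (hs2 : s ≤ 1 / 2) :
    (1 - max (57 / 20) (31 / 20 + (d : ℝ) / 7) * n) / (1 - n) ^ d *
      ((1 - n) ^ (d - 1) - (max 0 (1 - n / (1 - s))) ^ (d - 1) - s * (1 - mu) / 2) ≤
        s * (3 / 10) := by
  obtain ⟨E, rfl⟩ : ∃ E, d = E + 1 := ⟨d - 1, by omega⟩
  have hE : 9 ≤ E := by omega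
  have hE9 : (9 : ℝ) ≤ E := by exact_mod_cast hE
  have hN : max (57 / 20) (31 / 20 + ((E + 1 : ℕ) : ℝ) / 7) = 31 / 20 + ((E : ℝ) + 1) / 7 := by
    push_cast
    rw [max_eq_right]
    linarith
  have hB : 0 < b1 * ((E + 1 : ℕ) : ℝ) + b0 := by
    push_cast
    rcases hmu with ⟨-, rfl, rfl⟩ | ⟨-, rfl, rfl⟩ | ⟨-, rfl, rfl⟩ <;> linarith
  have hn' : n * (b1 * ((E : ℝ) + 1) + b0) ≤ 1 - mu := by
    have := (le_div_iff₀ hB).1 hn
    push_cast at this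
    exact this
  have hnE : 0 ≤ n * ((E : ℝ) - 9) := mul_nonneg h0 (by linarith)
  have hn1 : n < 1 := by
    rcases hmu with ⟨rfl, rfl, rfl⟩ | ⟨rfl, rfl, rfl⟩ | ⟨rfl, rfl, rfl⟩ <;> nlinarith
  have hw : (E : ℝ) * n ≤ 5 / 2 * (1 - n) := by
    rcases hmu with ⟨rfl, rfl, rfl⟩ | ⟨rfl, rfl, rfl⟩ | ⟨rfl, rfl, rfl⟩ <;> nlinarith
  have hNn : (31 / 20 + ((E : ℝ) + 1) / 7) * n ≤ 1 := by
    rcases hmu with ⟨rfl, rfl, rfl⟩ | ⟨rfl, rfl, rfl⟩ | ⟨rfl, rfl, rfl⟩ <;> nlinarith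
  have hm : 163 / 400 ≤ (1 - mu) / 2 := by
    rcases hmu with ⟨rfl, -, -⟩ | ⟨rfl, -, -⟩ | ⟨rfl, -, -⟩ <;> norm_num
  rw [hN, Nat.add_sub_cancel, mul_div_assoc]
  exact s1_gen hE h0 hn1 hw hs hs2 hm rfl hNn

/-- **S1** in the form used by `mub` (`MuB.lean`), `c0 = 1/2`, `ka = 3/10`. -/
theorem s1_lf {d : ℕ} (hd : 10 ≤ d) {mu b1 b0 : ℝ}
    (hmu : (mu = 37 / 200 ∧ b1 = 967 / 2000 ∧ b0 = -9 / 200) ∨
      (mu = 4 / 25 ∧ b1 = 459 / 1000 ∧ b0 = -1 / 50) ∨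
      (mu = 3 / 25 ∧ b1 = 831 / 2000 ∧ b0 = 1 / 20)) :
    ∀ s x, 0 < s → s ≤ 1 / 2 → 0 ≤ x → x ≤ (1 - mu) / (b1 * d + b0) →
      max 0 (1 - max (57 / 20) (31 / 20 + (d : ℝ) / 7) * x) / (1 - x) ^ d *
        ((1 - x) ^ (d - 1) - (max 0 (1 - x / (1 - s))) ^ (d - 1) - s * (1 - mu) * (1 / 2)) ≤
          s * (3 / 10) := by
  intro s x hs hs2 h0 hn
  have h := s1_div hd hmu h0 hn hs hs2
  rw [mul_one_div]
  rcases le_total 0 (1 - max (57 / 20) (31 / 20 + (d : ℝ) / 7) * x) with h1 | h1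
  · rw [max_eq_right h1]
    exact h
  · rw [max_eq_left h1, zero_div, zero_mul]
    positivity

/-- **S1**, for the menu written out (`Menu d mu B` of helper22 and `Menu mu B d` of helper53 unfold to
the first hypotheses), with `B n ≤ 1 - mu`: `S1` of helper22 is
`fun d mu B n s hM h0 hn hs hs2 => s1_B hM.1 hM.2 h0 hn hs hs2`. -/
theorem s1_B {d : ℕ} {mu B n s : ℝ} (hd : 10 ≤ d)
    (hM : (mu = 37 / 200 ∧ B = 967 / 2000 * d - 9 / 200) ∨ (mu = 4 / 25 ∧ B = 459 / 1000 * d - 1 / 50) ∨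
      (mu = 3 / 25 ∧ B = 831 / 2000 * d + 1 / 20))
    (h0 : 0 ≤ n) (hn : B * n ≤ 1 - mu) (hs : 0 < s) (hs2 : s ≤ 1 / 2) :
    (1 - Nd d * n) / (1 - n) ^ d * ((1 - n) ^ (d - 1) -
      (max 0 (1 - n / (1 - s))) ^ (d - 1) - s * (1 - mu) * (1 / 2)) ≤ s * (3 / 10) := by
  have hd10 : (10 : ℝ) ≤ d := by exact_mod_cast hd
  have key : ∀ b1 b0 : ℝ, ((mu = 37 / 200 ∧ b1 = 967 / 2000 ∧ b0 = -9 / 200) ∨
      (mu = 4 / 25 ∧ b1 = 459 / 1000 ∧ b0 = -1 / 50) ∨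
      (mu = 3 / 25 ∧ b1 = 831 / 2000 ∧ b0 = 1 / 20)) → B = b1 * d + b0 → 0 < B →
      (1 - Nd d * n) / (1 - n) ^ d * ((1 - n) ^ (d - 1) -
        (max 0 (1 - n / (1 - s))) ^ (d - 1) - s * (1 - mu) * (1 / 2)) ≤ s * (3 / 10) := by
    intro b1 b0 h hB hB0
    have hn' : n ≤ (1 - mu) / (b1 * d + b0) := by
      rw [← hB, le_div_iff₀ hB0, mul_comm]
      exact hn
    have h2 := s1_div hd h h0 hn' hs hs2
    rw [mul_one_div]
    exact h2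
  rcases hM with ⟨hmu, hB⟩ | ⟨hmu, hB⟩ | ⟨hmu, hB⟩
  · exact key (967 / 2000) (-9 / 200) (Or.inl ⟨hmu, rfl, rfl⟩) (by rw [hB]; ring)
      (by rw [hB]; linarith)
  · exact key (459 / 1000) (-1 / 50) (Or.inr (Or.inl ⟨hmu, rfl, rfl⟩)) (by rw [hB]; ring)
      (by rw [hB]; linarith)
  · exact key (831 / 2000) (1 / 20) (Or.inr (Or.inr ⟨hmu, rfl, rfl⟩)) hB
      (by rw [hB]; linarith)

/-- **S1** with `n ≤ (1 - mu) / B`: `S1Stmt` of helper53 is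
`fun d mu B n s hM h0 hn hs hs2 => s1_Q hM.1 hM.2 h0 hn hs hs2`. -/
theorem s1_Q {d : ℕ} {mu B n s : ℝ} (hd : 10 ≤ d)
    (hM : (mu = 37 / 200 ∧ B = 967 / 2000 * d - 9 / 200) ∨ (mu = 4 / 25 ∧ B = 459 / 1000 * d - 1 / 50) ∨
      (mu = 3 / 25 ∧ B = 831 / 2000 * d + 1 / 20))
    (h0 : 0 ≤ n) (hn : n ≤ (1 - mu) / B) (hs : 0 < s) (hs2 : s ≤ 1 / 2) :
    (1 - Nd d * n) / (1 - n) ^ d * ((1 - n) ^ (d - 1) -
      (max 0 (1 - n / (1 - s))) ^ (d - 1) - s * (1 - mu) / 2) ≤ s * (3 / 10) := by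
  have hd10 : (10 : ℝ) ≤ d := by exact_mod_cast hd
  have hB : 0 < B := by
    rcases hM with ⟨-, hB⟩ | ⟨-, hB⟩ | ⟨-, hB⟩ <;> rw [hB] <;> linarith
  have hn' : B * n ≤ 1 - mu := by
    rw [mul_comm]
    exact (le_div_iff₀ hB).1 hn
  have h := s1_B hd hM h0 hn' hs hs2
  rwa [mul_one_div] at h

/-- **S1**, the statement of `CertStmts.lean`. -/
theorem s1 : S1 := by
  intro d mu B n s hM h0 hn hs hs2
  exact s1_B hM.1 hM.2 h0 hn hs hs2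

end Pool.Agent.T6A.Cert
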