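import Pool.Agent.T6A.CertMain
import Pool.Agent.T6A.CertM1
import Pool.Agent.T6A.CertM3
import Pool.Agent.T6A.CertS1
import Pool.Agent.T6A.CertA0
import Pool.Agent.T6A.CertLine

/-!
# Project T6A, certificate: CERT for `Q = 10`
-/

set_option autoImplicit false

namespace Pool.Agent.T6A.Cert

theorem certStmt_of (hline : LineG) : CertStmt 10 :=
  cert m1 m3 s1 a0 a0' hline

/-- **CERT** for `Q = 10`. -/
theorem certStmt : CertStmt 10 :=
  certStmt_of (lineG_of_line line)

end Pool.Agent.T6A.Cert
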