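import Pool.Agent.T6A.TabBS
import Pool.Agent.T6A.CertFin
import Pool.Agent.T6A.CertAsm3

/-!
# The certificate from `9/4` on (MP_c6effb_co, CERT v3, path B)
-/

set_option autoImplicit false

namespace Pool.Agent.T6A.Chk.TabB

/-- **CERT**, `Q = 9/4`. -/
theorem certStmt : CertStmt (9 / 4) :=
  CA3.cert_of_numR (by norm_num) numCertR Cert.certStmt

end Pool.Agent.T6A.Chk.TabB
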