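import Mathlib

/-!
# Project T6A: the removal of `N(a)` costs nothing (`a`-removal, `r = 1`)

`Phi B lam w l K y d mu = lam ∑_{c ∈ B} w_c l_c (K_c / y_c - mu y_c ^ (-d))⁺`.  The number `mu` is admissible
if `mu ≤ Phi B mu`.  If the points of `S` are removed, then `mu` has to be replaced by a smaller `mu'`, but
also the sum `P` loses the part over `S`, and this pays for it.
-/

set_option autoImplicit false

open Finset

namespace Pool.Agent.T6A

variable {β : Type*}

/-- The chord functional. -/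
noncomputable def Phi (B : Finset β) (lam : ℝ) (w l K y : β → ℝ) (d : ℕ) (mu : ℝ) : ℝ :=
  lam * ∑ c ∈ B, w c * l c * max (K c / y c - mu / y c ^ d) 0

/-- The weight of the points which count in `Phi`. -/
noncomputable def Mass (B : Finset β) (w l K y : β → ℝ) (d : ℕ) (mu : ℝ) : ℝ :=
  ∑ c ∈ B.filter (fun c => mu / y c ^ d < K c / y c), w c * l c / y c ^ d

theorem phi_shift (B : Finset β) (lam : ℝ) (w l K y : β → ℝ) (d : ℕ) (mu δ : ℝ)
    (hlam : 0 ≤ lam) (hw : ∀ c ∈ B, 0 ≤ w c) (hl : ∀ c ∈ B, 0 ≤ l c) (hy : ∀ c ∈ B, 0 < y c)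
    (_hδ : 0 ≤ δ) :
    Phi B lam w l K y d mu + δ * (lam * Mass B w l K y d mu) ≤ Phi B lam w l K y d (mu - δ) := by
  unfold Phi Mass
  rw [Finset.sum_filter, ← mul_assoc, mul_comm δ lam, mul_assoc, ← mul_add, Finset.mul_sum,
    ← Finset.sum_add_distrib]
  refine mul_le_mul_of_nonneg_left (Finset.sum_le_sum fun c hc => ?_) hlam
  have hy' : 0 < y c ^ d := pow_pos (hy c hc) d
  have hwl : 0 ≤ w c * l c := mul_nonneg (hw c hc) (hl c hc)
  split_ifs with h
  · have h1 : max (K c / y c - mu / y c ^ d) 0 = K c / y c - mu / y c ^ d :=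
      max_eq_left (by linarith)
    have h2 : K c / y c - (mu - δ) / y c ^ d ≤ max (K c / y c - (mu - δ) / y c ^ d) 0 :=
      le_max_left _ _
    calc w c * l c * max (K c / y c - mu / y c ^ d) 0 + δ * (w c * l c / y c ^ d)
        = w c * l c * (K c / y c - (mu - δ) / y c ^ d) := by rw [h1]; ring
      _ ≤ _ := mul_le_mul_of_nonneg_left h2 hwl
  · have h1 : max (K c / y c - mu / y c ^ d) 0 = 0 := max_eq_right (by linarith)
    rw [h1]
    have : 0 ≤ w c * l c * max (K c / y c - (mu - δ) / y c ^ d) 0 :=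
      mul_nonneg hwl (le_max_right _ _)
    linarith

/-- **The removal of `S`.** `U` is the set of all points, `B ⊆ U` the points which count in `Phi`. -/
theorem a_removal [DecidableEq β] (U B S : Finset β) (lam : ℝ) (w l K y pw : β → ℝ) (d : ℕ) (mu P : ℝ)
    (hBU : B ⊆ U) (hSU : S ⊆ U) (hlam : 0 ≤ lam) (hw : ∀ c ∈ U, 0 ≤ w c) (hl : ∀ c ∈ U, 0 ≤ l c)
    (hy : ∀ c ∈ U, 0 < y c) (hpw : ∀ c ∈ U, 0 ≤ pw c) (hmu1 : mu < 1)
    (hP : P = ∑ c ∈ U, w c * l c ^ 2 * pw c / y c)
    (hPhi : mu ≤ Phi B lam w l K y (d + 1) mu)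
    (hA : ∀ c ∈ S, 2 * lam * P * max (K c - mu / y c ^ d) 0 ≤
      (1 - mu) * (1 + lam * Mass (B \ S) w l K y (d + 1) mu) * (l c * pw c)) :
    ∃ mu' ≤ mu, mu' ≤ Phi (B \ S) lam w l K y (d + 1) mu' ∧
      (1 - mu') ^ 2 * (P - ∑ c ∈ S, w c * l c ^ 2 * pw c / y c) ≤ (1 - mu) ^ 2 * P := by
  set M := Mass (B \ S) w l K y (d + 1) mu with hM
  set PS := ∑ c ∈ S, w c * l c ^ 2 * pw c / y c with hPS
  have hterm : ∀ c ∈ U, 0 ≤ w c * l c ^ 2 * pw c / y c := fun c hc =>
    div_nonneg (mul_nonneg (mul_nonneg (hw c hc) (sq_nonneg _)) (hpw c hc)) (hy c hc).le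
  have hP0 : 0 ≤ P := by rw [hP]; exact Finset.sum_nonneg hterm
  have hPS0 : 0 ≤ PS := Finset.sum_nonneg fun c hc => hterm c (hSU hc)
  have hPSP : PS ≤ P := by
    rw [hP]
    exact Finset.sum_le_sum_of_subset_of_nonneg hSU fun c hc _ => hterm c hc
  have hM0 : 0 ≤ M := by
    rw [hM]; unfold Mass
    refine Finset.sum_nonneg fun c hc => ?_
    have hc' : c ∈ U := hBU (Finset.mem_sdiff.mp (Finset.mem_filter.mp hc).1).1
    exact div_nonneg (mul_nonneg (hw c hc') (hl c hc')) (pow_pos (hy c hc') _).le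
  have hden : 0 < 1 + lam * M := by positivity
  -- the part over S
  set X := Phi (B ∩ S) lam w l K y (d + 1) mu with hX
  have hX0 : 0 ≤ X := by
    rw [hX]; unfold Phi
    refine mul_nonneg hlam (Finset.sum_nonneg fun c hc => ?_)
    have hc' : c ∈ U := hBU (Finset.mem_inter.mp hc).1
    exact mul_nonneg (mul_nonneg (hw c hc') (hl c hc')) (le_max_right _ _)
  have hsplit : Phi B lam w l K y (d + 1) mu = Phi (B \ S) lam w l K y (d + 1) mu + X := by
    rw [hX]; unfold Phi
    rw [← mul_add, ← Finset.sum_union (Finset.disjoint_left.mpr fun c h1 h2 =>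
      (Finset.mem_sdiff.mp h1).2 (Finset.mem_inter.mp h2).2), Finset.sdiff_union_inter]
  have h2X : 2 * P * X ≤ (1 - mu) * (1 + lam * M) * PS := by
    have h1 : 2 * P * X = ∑ c ∈ B ∩ S, w c * l c / y c * (2 * lam * P *
        max (K c - mu / y c ^ d) 0) := by
      rw [hX]; unfold Phi
      rw [← mul_assoc, Finset.mul_sum]
      refine Finset.sum_congr rfl fun c hc => ?_
      have hyc : 0 < y c := hy c (hBU (Finset.mem_inter.mp hc).1)
      have : max (K c / y c - mu / y c ^ (d + 1)) 0 = max (K c - mu / y c ^ d) 0 / y c := by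
        have h0 : K c / y c - mu / y c ^ (d + 1) = (K c - mu / y c ^ d) / y c := by
          rw [pow_succ]; field_simp
        rw [h0, ← zero_div (y c), max_div_div_right hyc.le, zero_div]
      rw [this]; ring
    rw [h1]
    calc ∑ c ∈ B ∩ S, w c * l c / y c * (2 * lam * P * max (K c - mu / y c ^ d) 0)
        ≤ ∑ c ∈ B ∩ S, w c * l c / y c * ((1 - mu) * (1 + lam * M) * (l c * pw c)) := by
          refine Finset.sum_le_sum fun c hc => ?_
          have hcU : c ∈ U := hBU (Finset.mem_inter.mp hc).1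
          exact mul_le_mul_of_nonneg_left (hA c (Finset.mem_inter.mp hc).2)
            (div_nonneg (mul_nonneg (hw c hcU) (hl c hcU)) (hy c hcU).le)
      _ = (1 - mu) * (1 + lam * M) * ∑ c ∈ B ∩ S, w c * l c ^ 2 * pw c / y c := by
          rw [Finset.mul_sum]
          refine Finset.sum_congr rfl fun c _ => ?_
          ring
      _ ≤ (1 - mu) * (1 + lam * M) * PS := by
          refine mul_le_mul_of_nonneg_left ?_ (mul_nonneg (by linarith) hden.le)
          exact Finset.sum_le_sum_of_subset_of_nonneg Finset.inter_subset_right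
            fun c hc _ => hterm c (hSU hc)
  set δ := X / (1 + lam * M) with hδ
  have hδ0 : 0 ≤ δ := div_nonneg hX0 hden.le
  have hδX : δ * (1 + lam * M) = X := by rw [hδ]; field_simp
  have h2δ : 2 * P * δ ≤ (1 - mu) * PS := by
    have : 2 * P * δ * (1 + lam * M) ≤ (1 - mu) * PS * (1 + lam * M) := by
      calc 2 * P * δ * (1 + lam * M) = 2 * P * (δ * (1 + lam * M)) := by ring
        _ = 2 * P * X := by rw [hδX]
        _ ≤ (1 - mu) * (1 + lam * M) * PS := h2X
        _ = _ := by ring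
    exact le_of_mul_le_mul_right this hden
  refine ⟨mu - δ, by linarith, ?_, ?_⟩
  · have h := phi_shift (B \ S) lam w l K y (d + 1) mu δ hlam
      (fun c hc => hw c (hBU (Finset.mem_sdiff.mp hc).1))
      (fun c hc => hl c (hBU (Finset.mem_sdiff.mp hc).1))
      (fun c hc => hy c (hBU (Finset.mem_sdiff.mp hc).1)) hδ0
    rw [← hM] at h
    have : δ * (lam * M) = X - δ := by rw [← hδX]; ring
    linarith
  · have hm : 0 < 1 - mu := by linarith
    rcases hP0.eq_or_lt with h | h
    · rw [← h]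
      have : 0 ≤ (1 - (mu - δ)) ^ 2 * PS := mul_nonneg (sq_nonneg _) hPS0
      nlinarith
    · -- z = PS / P
      have hz : δ ≤ (1 - mu) * (PS / P) / 2 := by
        rw [mul_div_assoc', div_div, le_div_iff₀ (by positivity)]
        linarith
      set z := PS / P with hzdef
      have hz0 : 0 ≤ z := div_nonneg hPS0 h.le
      have hz1 : z ≤ 1 := (div_le_one h).mpr hPSP
      have hPSz : PS = z * P := by rw [hzdef]; field_simp
      have h1 : (1 - (mu - δ)) ^ 2 ≤ ((1 - mu) * (1 + z / 2)) ^ 2 := by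
        refine pow_le_pow_left₀ (by linarith) ?_ 2
        linarith
      have h2 : (1 + z / 2) ^ 2 * (1 - z) ≤ 1 := by nlinarith [pow_nonneg hz0 3, sq_nonneg z]
      calc (1 - (mu - δ)) ^ 2 * (P - PS) ≤ ((1 - mu) * (1 + z / 2)) ^ 2 * (P - PS) :=
            mul_le_mul_of_nonneg_right h1 (by linarith)
        _ = (1 - mu) ^ 2 * P * ((1 + z / 2) ^ 2 * (1 - z)) := by rw [hPSz]; ring
        _ ≤ (1 - mu) ^ 2 * P * 1 := mul_le_mul_of_nonneg_left h2 (by positivity)
        _ = _ := by ring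

end Pool.Agent.T6A
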