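import Mathlib

/-!
# The top level of the asymptotic theorem (MP_c6effb_co): reduction to the core

The triangle-free graph `H` with `N` vertices is fixed. `Emb G H` says that the complement of `H`
contains `G`. By induction on the number of vertices of `G` everything is reduced to graphs `G` all
of whose vertices have a large degree (the core); `H` is not changed.
-/

set_option autoImplicit false
set_option linter.unusedSectionVars false

open Finset

namespace Pool.Agent.T6A

/-- The complement of `H` contains `G`. -/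
def Emb {V W : Type*} (G : SimpleGraph V) (H : SimpleGraph W) : Prop :=
  ∃ f : V → W, Function.Injective f ∧ ∀ u v, G.Adj u v → ¬ H.Adj (f u) (f v)

/-- The core statement: embedding of `G` (with `k` vertices and `m` edges) in the complement of `H`
(with `N` vertices) if `k + m ≤ N`, `(1 + Q) k ≤ N`, `m ≤ C k`, every independent set of `H` has less
than `k` vertices and there is one, `I`, such that all degrees of `G` are at least
`(N + 1 - k) / |I|`. -/
def CoreEmb (Q : ℝ) : Prop := ∀ C : ℕ, ∃ N₀ : ℕ, ∀ (W V : Type) [Fintype W] [Fintype V]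
  (H : SimpleGraph W) (G : SimpleGraph V) (I : Finset W),
  N₀ ≤ Fintype.card W → H.CliqueFree 3 →
  Fintype.card V + G.edgeSet.ncard ≤ Fintype.card W →
  (1 + Q) * Fintype.card V ≤ Fintype.card W →
  G.edgeSet.ncard ≤ C * Fintype.card V →
  H.IsIndepSet (I : Set W) →
  (∀ J : Finset W, H.IsIndepSet (J : Set W) → #J ≤ #I) → #I < Fintype.card V →
  (∀ v : V, Fintype.card W + 1 ≤ (G.neighborSet v).ncard * #I + Fintype.card V) → Emb G H

section

variable {V W : Type} [Fintype V] [Fintype W]

omit [Fintype W] in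
theorem card_ne (v : V) (inst : Fintype {u | u ≠ v}) :
    @Fintype.card {u | u ≠ v} inst = Fintype.card V - 1 := by
  classical
  rw [← Set.card_ne_eq v]

/-- Neighbourhoods in a triangle-free graph are independent. -/
theorem ncard_neighborSet_le {H : SimpleGraph W} (hH : H.CliqueFree 3) {s : ℕ}
    (hs : ∀ J : Finset W, H.IsIndepSet (J : Set W) → #J ≤ s) (x : W) :
    (H.neighborSet x).ncard ≤ s := by
  classical
  rw [Set.ncard_eq_toFinset_card' (H.neighborSet x)]
  refine hs _ ?_
  intro a ha b hb hab hadj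
  simp only [Set.coe_toFinset, SimpleGraph.mem_neighborSet] at ha hb
  exact hH {x, a, b} (SimpleGraph.is3Clique_triple_iff.2 ⟨ha, hb, hadj⟩)

/-- Adding one vertex greedily. -/
theorem emb_extend {G : SimpleGraph V} {H : SimpleGraph W} (v : V) {s : ℕ}
    (hs : ∀ x : W, (H.neighborSet x).ncard ≤ s)
    (h : (G.neighborSet v).ncard * s + Fintype.card V ≤ Fintype.card W)
    (h' : Emb (G.induce {u | u ≠ v}) H) : Emb G H := by
  classical
  obtain ⟨f, hf, hadj⟩ := h'
  obtain ⟨used, hused⟩ : ∃ U : Finset W, U = univ.image f := ⟨_, rfl⟩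
  obtain ⟨nb, hnb⟩ : ∃ S : Finset {u | u ≠ v}, S = univ.filter (fun u => G.Adj v u.1) := ⟨_, rfl⟩
  obtain ⟨bl, hbl⟩ : ∃ B : Finset W,
    B = nb.biUnion (fun u => (H.neighborSet (f u)).toFinset) := ⟨_, rfl⟩
  have hc1 : used.card < Fintype.card V := by
    rw [hused]
    refine (card_image_le).trans_lt ?_
    rw [card_univ, card_ne v]
    have : 0 < Fintype.card V := Fintype.card_pos_iff.2 ⟨v⟩
    omega
  have hc2 : nb.card ≤ (G.neighborSet v).ncard := by
    rw [Set.ncard_eq_toFinset_card' (G.neighborSet v)]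
    refine card_le_card_of_injOn (fun u => u.1) ?_ ?_
    · intro u hu
      rw [hnb] at hu
      simpa using hu
    · intro a _ b _ hab
      exact Subtype.ext hab
  have hc3 : bl.card ≤ (G.neighborSet v).ncard * s := by
    rw [hbl]
    refine (card_biUnion_le_card_mul _ _ s fun u _ => ?_).trans (Nat.mul_le_mul_right s hc2)
    rw [← Set.ncard_eq_toFinset_card' (H.neighborSet (f u))]
    exact hs _
  have hc4 : (used ∪ bl).card < Fintype.card W := by
    refine (card_union_le _ _).trans_lt ?_
    omega
  obtain ⟨w, hw⟩ : ∃ w : W, w ∉ used ∪ bl := by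
    by_contra hcon
    push Not at hcon
    have : used ∪ bl = univ := eq_univ_iff_forall.2 hcon
    rw [this, card_univ] at hc4
    exact lt_irrefl _ hc4
  rw [mem_union, not_or] at hw
  obtain ⟨hw1, hw2⟩ := hw
  have hwf : ∀ u, f u ≠ w := by
    intro u hu
    refine hw1 ?_
    rw [hused]
    exact mem_image.2 ⟨u, mem_univ _, hu⟩
  have hwb : ∀ u : {u | u ≠ v}, G.Adj v u.1 → ¬ H.Adj (f u) w := by
    intro u hu hfw
    refine hw2 ?_
    rw [hbl]
    refine mem_biUnion.2 ⟨u, ?_, ?_⟩
    · rw [hnb]; simpa using hu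
    · simpa using hfw
  refine ⟨fun u => if h : u = v then w else f ⟨u, h⟩, ?_, ?_⟩
  · intro a b hab
    by_cases ha : a = v <;> by_cases hb : b = v
    · rw [ha, hb]
    · simp only [ha, hb, dif_pos, dif_neg, not_false_eq_true] at hab
      exact absurd hab.symm (hwf _)
    · simp only [ha, hb, dif_pos, dif_neg, not_false_eq_true] at hab
      exact absurd hab (hwf _)
    · simp only [ha, hb, dif_neg, not_false_eq_true] at hab
      exact congrArg Subtype.val (hf hab)
  · intro a b hab
    by_cases ha : a = v <;> by_cases hb : b = v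
    · exact absurd (ha.trans hb.symm) hab.ne
    · simp only [ha, hb, dif_pos, dif_neg, not_false_eq_true]
      rw [ha] at hab
      exact fun h => hwb ⟨b, hb⟩ hab h.symm
    · simp only [ha, hb, dif_pos, dif_neg, not_false_eq_true]
      rw [hb] at hab
      exact hwb ⟨a, ha⟩ hab.symm
    · simp only [ha, hb, dif_neg, not_false_eq_true]
      exact hadj ⟨a, ha⟩ ⟨b, hb⟩ hab

/-- A graph with at most as many vertices as an independent set of `H` embeds. -/
theorem emb_of_indep {G : SimpleGraph V} {H : SimpleGraph W} (I : Finset W)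
    (hI : H.IsIndepSet (I : Set W)) (h : Fintype.card V ≤ #I) : Emb G H := by
  classical
  obtain ⟨e⟩ : Nonempty (V ↪ I) := by
    rw [← Fintype.card_coe] at h
    exact Function.Embedding.nonempty_of_card_le h
  refine ⟨fun v => (e v : W), fun a b hab => e.injective (Subtype.ext hab), fun a b hab => ?_⟩
  exact hI (e a).2 (e b).2 fun heq => hab.ne (e.injective (Subtype.ext heq))

theorem ncard_edgeSet_induce_le (G : SimpleGraph V) (s : Set V) :
    (G.induce s).edgeSet.ncard ≤ G.edgeSet.ncard := by
  classical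
  have hinj : Function.Injective (Sym2.map ((↑) : s → V)) :=
    Sym2.map.injective Subtype.val_injective
  rw [← Set.ncard_image_of_injective _ hinj]
  refine Set.ncard_le_ncard ?_ (Set.toFinite _)
  rintro _ ⟨e, he, rfl⟩
  induction e using Sym2.ind with
  | _ a b => simpa using he

end

/-- The reduction to the core, for a fixed graph `H`. -/
theorem emb_of_core {C : ℕ} {Q : ℝ} (hQ : 0 ≤ Q) {W : Type} [Fintype W] (H : SimpleGraph W)
    (hH : H.CliqueFree 3)
    (hram : ∀ (V : Type) [Fintype V] (G : SimpleGraph V),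
      C * Fintype.card V ≤ G.edgeSet.ncard →
      Fintype.card V + G.edgeSet.ncard ≤ Fintype.card W → Emb G H)
    (hcore : ∀ (V : Type) [Fintype V] (G : SimpleGraph V) (I : Finset W),
      Fintype.card V + G.edgeSet.ncard ≤ Fintype.card W →
      (1 + Q) * Fintype.card V ≤ Fintype.card W →
      G.edgeSet.ncard ≤ C * Fintype.card V →
      H.IsIndepSet (I : Set W) →
      (∀ J : Finset W, H.IsIndepSet (J : Set W) → #J ≤ #I) → #I < Fintype.card V →
      (∀ v : V, Fintype.card W + 1 ≤ (G.neighborSet v).ncard * #I + Fintype.card V) → Emb G H) :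
    ∀ (n : ℕ) (V : Type) [Fintype V] (G : SimpleGraph V), Fintype.card V = n →
      n + G.edgeSet.ncard ≤ Fintype.card W → (1 + Q) * n ≤ Fintype.card W → Emb G H := by
  classical
  obtain ⟨I, hI⟩ := H.maximumIndepSet_exists
  have hmax : ∀ J : Finset W, H.IsIndepSet (J : Set W) → #J ≤ #I := fun J hJ => hI.maximum J hJ
  have hdeg : ∀ x : W, (H.neighborSet x).ncard ≤ #I := ncard_neighborSet_le hH hmax
  intro n
  induction n with
  | zero =>
    intro V _ G hV _ _
    exact emb_of_indep I hI.isIndepSet (by omega)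
  | succ n ih =>
    intro V _ G hV hm hk
    by_cases h1 : n + 1 ≤ #I
    · exact emb_of_indep I hI.isIndepSet (by omega)
    by_cases h2 : ∃ v : V, (G.neighborSet v).ncard * #I + Fintype.card V ≤ Fintype.card W
    · obtain ⟨v, hv⟩ := h2
      refine emb_extend v hdeg hv (ih _ _ ?_ ?_ ?_)
      · rw [card_ne v, hV]
        rfl
      · have := ncard_edgeSet_induce_le G {u | u ≠ v}
        omega
      · refine le_trans ?_ hk
        push_cast
        nlinarith
    push Not at h2
    by_cases h3 : C * Fintype.card V ≤ G.edgeSet.ncard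
    · exact hram V G h3 (by omega)
    push Not at h3
    exact hcore V G I (by omega) (by rw [hV]; exact hk) h3.le hI.isIndepSet hmax (by omega) fun v => by
      have := h2 v
      omega

/-- **The top level.** -/
theorem all_of_core {Q : ℝ} (hQ : 0 ≤ Q) (hcore : CoreEmb Q)
    (hram : ∃ C : ℝ, 0 < C ∧ ∀ (V W : Type) [Fintype V] [Fintype W] (H : SimpleGraph V)
      (G : SimpleGraph W), H.CliqueFree 3 → 1 * (G.edgeSet.ncard : ℝ) ≤ Fintype.card V →
      C * (Fintype.card W : ℝ) ≤ Fintype.card V →
      ∃ f : W → V, Function.Injective f ∧ ∀ u v, G.Adj u v → ¬ H.Adj (f u) (f v)) :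
    ∃ k₀ : ℕ, ∀ (V : Type) [Fintype V] (G : SimpleGraph V), k₀ ≤ Fintype.card V →
      Q * Fintype.card V ≤ G.edgeSet.ncard →
      ∀ H : SimpleGraph (Fin (Fintype.card V + G.edgeSet.ncard)),
        ¬ H.CliqueFree 3 ∨ ∃ f : G →g Hᶜ, Function.Injective f := by
  obtain ⟨C, _, hC⟩ := hram
  obtain ⟨N₀, hN⟩ := hcore ⌈C⌉₊
  refine ⟨N₀, fun V _ G hk hm H => ?_⟩
  by_cases hH : H.CliqueFree 3
  · right
    have hcard : Fintype.card (Fin (Fintype.card V + G.edgeSet.ncard))
        = Fintype.card V + G.edgeSet.ncard := Fintype.card_fin _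
    have key := emb_of_core (C := ⌈C⌉₊) hQ H hH (fun V' _ G' h1 h2 => ?_)
      (fun V' _ G' I h1 h2 h3 h4 h5 h6 h7 => hN _ V' H G' I (by rw [hcard]; omega) hH h1 h2 h3 h4
        h5 h6 h7) (Fintype.card V) V G rfl (by rw [hcard])
      (by rw [hcard]; push_cast; linarith)
    · obtain ⟨f, hf, hadj⟩ := key
      refine ⟨⟨f, ?_⟩, hf⟩
      intro a b hab
      rw [SimpleGraph.compl_adj]
      exact ⟨fun h => hab.ne (hf h), hadj a b hab⟩
    · refine hC _ V' H G' hH ?_ ?_
      · rw [one_mul]
        exact_mod_cast (by omega : G'.edgeSet.ncard ≤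
          Fintype.card (Fin (Fintype.card V + G.edgeSet.ncard)))
      · have e1 : C * (Fintype.card V' : ℝ) ≤ ((⌈C⌉₊ * Fintype.card V' : ℕ) : ℝ) := by
          push_cast
          exact mul_le_mul_of_nonneg_right (Nat.le_ceil C) (Nat.cast_nonneg _)
        refine e1.trans ?_
        exact_mod_cast (by omega : ⌈C⌉₊ * Fintype.card V' ≤
          Fintype.card (Fin (Fintype.card V + G.edgeSet.ncard)))
  · exact Or.inl hH

end Pool.Agent.T6A
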