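import Pool.Agent.T6A.Prob
import Pool.Agent.T6A.Top

/-!
# The weak threshold (MP_c6effb_co, T6-A, round 2, R2-A)

If linearly many vertices of `G` have the same degree `d` and `(1 + d) s < (1 - ε) N`, where all
degrees of `H` are at most `s`, then one can remove an independent set `S` of such vertices, embed the
rest outside a random set of `(1 + d) |S| - c` vertices and place the vertices of `S` in that set.
-/

set_option autoImplicit false
set_option linter.unusedSectionVars false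

open Finset

namespace Pool.Agent.T6A

namespace WT

/-- The law of a random subset. -/
def bl (p : ℝ) : Bool → ℝ := fun b => if b then p else 1 - p

theorem isLaw_bl {W : Type*} {p : ℝ} (h0 : 0 ≤ p) (h1 : p ≤ 1) :
    IsLaw (fun _ : W => bl p) where
  nonneg := fun _ b => by
    cases b
    · simp only [bl, Bool.false_eq_true, if_false]; linarith
    · simp only [bl, if_true]; exact h0
  sum_one := fun _ => by
    rw [Fintype.sum_bool]; simp [bl]

/-- Second moments of a random subset. -/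
theorem rand_set {W : Type*} [Fintype W] [DecidableEq W] (Nb : W → Finset W) {p : ℝ} (h0 : 0 ≤ p)
    (h1 : p ≤ 1) : ∃ Z : Finset W,
      (Fintype.card W : ℝ) * ((#Z : ℝ) - p * Fintype.card W) ^ 2 ≤ 2 * (Fintype.card W : ℝ) ^ 2 ∧
      ∑ x, ((#(Nb x ∩ Z) : ℝ) - p * #(Nb x)) ^ 2 ≤ 2 * (Fintype.card W : ℝ) ^ 2 := by
  have hl : IsLaw (fun _ : W => bl p) := isLaw_bl h0 h1
  have key : ∀ S : Finset W, EE (fun _ : W => bl p)
      (fun ω => ((#(S.filter fun w => ω w = true) : ℝ) - p * #S) ^ 2) ≤ Fintype.card W := by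
    intro S
    have hE : ∀ w, EE (fun _ : W => bl p)
        (fun ω => if w ∈ S ∧ ω w = true then (1 : ℝ) else 0) = if w ∈ S then p else 0 := by
      intro w
      rw [EE_single hl w (fun b => if w ∈ S ∧ b = true then (1 : ℝ) else 0), Fintype.sum_bool]
      by_cases hw : w ∈ S <;> simp [hw, bl]
    have h := variance_sum_le hl (fun w ω => if w ∈ S ∧ ω w = true then (1 : ℝ) else 0)
      (fun w => {w}) (fun w => (depOn_coord w).comp fun b => if w ∈ S ∧ b = true then (1 : ℝ) else 0)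
      (fun w ω => by split_ifs <;> norm_num) (fun w ω => by split_ifs <;> norm_num) 1
      (fun w => by
        refine card_le_one.2 fun a ha b hb => ?_
        rw [mem_filter, disjoint_singleton_left, mem_singleton, not_not] at ha hb
        exact ha.2.symm.trans hb.2)
    rw [Nat.cast_one, one_mul] at h
    refine le_trans (le_of_eq ?_) h
    refine congrArg _ (funext fun ω => ?_)
    congr 1
    rw [sum_sub_distrib]
    congr 1
    · rw [sum_boole]
      congr 2
      ext w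
      simp
    · rw [sum_congr rfl fun w _ => hE w, sum_ite, sum_const_zero, add_zero, sum_const, nsmul_eq_mul,
        mul_comm]
      congr 3
      ext w
      simp
  obtain ⟨ω, hω⟩ := exists_le_EE hl (fun ω =>
    (Fintype.card W : ℝ) * ((#(univ.filter fun w : W => ω w = true) : ℝ) - p * #(univ : Finset W)) ^ 2
      + ∑ x, ((#((Nb x).filter fun w => ω w = true) : ℝ) - p * #(Nb x)) ^ 2)
  have hF : EE (fun _ : W => bl p) (fun ω =>
    (Fintype.card W : ℝ) * ((#(univ.filter fun w : W => ω w = true) : ℝ) - p * #(univ : Finset W)) ^ 2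
      + ∑ x, ((#((Nb x).filter fun w => ω w = true) : ℝ) - p * #(Nb x)) ^ 2)
      ≤ 2 * (Fintype.card W : ℝ) ^ 2 := by
    rw [EE_add, EE_smul, EE_sum]
    have a1 := mul_le_mul_of_nonneg_left (key univ) (Nat.cast_nonneg (Fintype.card W) : (0 : ℝ) ≤ _)
    have a2 : ∑ x, EE (fun _ : W => bl p)
        (fun ω => ((#((Nb x).filter fun w => ω w = true) : ℝ) - p * #(Nb x)) ^ 2)
        ≤ Fintype.card W * Fintype.card W := by
      refine (sum_le_sum fun x _ => key (Nb x)).trans ?_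
      rw [sum_const, card_univ, nsmul_eq_mul]
    nlinarith
  have hω' := hω.trans hF
  have b1 : 0 ≤ ∑ x, ((#((Nb x).filter fun w => ω w = true) : ℝ) - p * #(Nb x)) ^ 2 :=
    sum_nonneg fun _ _ => sq_nonneg _
  have b2 : 0 ≤ (Fintype.card W : ℝ) *
      ((#(univ.filter fun w : W => ω w = true) : ℝ) - p * #(univ : Finset W)) ^ 2 :=
    mul_nonneg (Nat.cast_nonneg _) (sq_nonneg _)
  refine ⟨univ.filter fun w => ω w = true, ?_, ?_⟩
  · rw [card_univ] at hω' b2
    linarith
  · have e : ∀ x, Nb x ∩ (univ.filter fun w => ω w = true) = (Nb x).filter fun w => ω w = true := by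
      intro x
      ext w
      simp
    simp only [e]
    linarith

variable {V W : Type} [Fintype V] [Fintype W]

/-- A set of `n` pairwise nonadjacent vertices of degree `d`. -/
theorem indep_set (G : SimpleGraph V) (d : ℕ) (D : Finset V)
    (hD : ∀ v ∈ D, (G.neighborSet v).ncard = d) :
    ∀ n : ℕ, n * (d + 1) ≤ #D → ∃ S : Finset V, S ⊆ D ∧ #S = n ∧
      ∀ u ∈ S, ∀ v ∈ S, ¬ G.Adj u v := by
  classical
  intro n
  induction n with
  | zero => exact fun _ => ⟨∅, empty_subset _, rfl, fun u hu => absurd hu (notMem_empty u)⟩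
  | succ n ih =>
    intro hn
    obtain ⟨S, hS, hc, hind⟩ := ih (by nlinarith)
    have h1 : #(S.biUnion fun v => insert v (G.neighborSet v).toFinset) ≤ n * (d + 1) := by
      rw [← hc]
      refine card_biUnion_le_card_mul _ _ _ fun v hv => ?_
      refine (card_insert_le _ _).trans ?_
      rw [← Set.ncard_eq_toFinset_card', hD v (hS hv)]
    obtain ⟨v, hv, hv'⟩ : ∃ v ∈ D, v ∉ S.biUnion fun v => insert v (G.neighborSet v).toFinset := by
      by_contra hcon
      push Not at hcon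
      have h2 := card_le_card (fun v hv => hcon v hv : D ⊆ _)
      nlinarith
    rw [mem_biUnion] at hv'
    push Not at hv'
    have h3 : v ∉ S := fun h => hv' v h (mem_insert_self _ _)
    have h4 : ∀ u ∈ S, ¬ G.Adj u v := fun u hu hadj =>
      hv' u hu (mem_insert_of_mem (by simpa using hadj))
    refine ⟨insert v S, insert_subset hv hS, ?_, ?_⟩
    · rw [card_insert_of_notMem h3, hc]
    · intro a ha b hb
      rw [mem_insert] at ha hb
      rcases ha with rfl | ha <;> rcases hb with rfl | hb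
      · exact G.loopless.irrefl _
      · exact fun h => h4 b hb h.symm
      · exact h4 a ha
      · exact hind a ha b hb

/-- Removing an independent set of vertices of degree `d` removes `d` edges for each. -/
theorem edges_removed (G : SimpleGraph V) (d : ℕ) (S : Finset V)
    (hd : ∀ v ∈ S, (G.neighborSet v).ncard = d) (hind : ∀ u ∈ S, ∀ v ∈ S, ¬ G.Adj u v) :
    (G.induce {v | v ∉ S}).edgeSet.ncard + d * #S ≤ G.edgeSet.ncard := by
  classical
  have hinj : Function.Injective (Sym2.map ((↑) : {v | v ∉ S} → V)) :=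
    Sym2.map.injective Subtype.val_injective
  have h1 : (S.biUnion fun v => G.incidenceFinset v).card = d * #S := by
    rw [card_biUnion]
    · rw [sum_congr rfl fun v hv => ?_, sum_const, smul_eq_mul, mul_comm]
      rw [SimpleGraph.card_incidenceFinset_eq_degree, ← hd v hv, Set.ncard_eq_toFinset_card']
      rfl
    · intro u hu v hv huv
      change Disjoint (G.incidenceFinset u) (G.incidenceFinset v)
      rw [Finset.disjoint_left]
      intro x hx hx'
      rw [SimpleGraph.mem_incidenceFinset] at hx hx'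
      exact hind u hu v hv (G.adj_of_mem_incidenceSet huv hx hx')
  have h2 : (Sym2.map ((↑) : {v | v ∉ S} → V) '' (G.induce {v | v ∉ S}).edgeSet).ncard =
      (G.induce {v | v ∉ S}).edgeSet.ncard := Set.ncard_image_of_injective _ hinj
  have h3 : Disjoint (Sym2.map ((↑) : {v | v ∉ S} → V) '' (G.induce {v | v ∉ S}).edgeSet)
      (↑(S.biUnion fun v => G.incidenceFinset v) : Set (Sym2 V)) := by
    rw [Set.disjoint_left]
    rintro _ ⟨x, hx, rfl⟩ hx'
    induction x using Sym2.ind with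
    | _ a b =>
      rw [mem_coe, mem_biUnion] at hx'
      obtain ⟨v, hv, hx'⟩ := hx'
      rw [SimpleGraph.mem_incidenceFinset] at hx'
      have := hx'.2
      rw [Sym2.map_mk, Sym2.mem_iff] at this
      rcases this with rfl | rfl
      · exact a.2 hv
      · exact b.2 hv
  have h4 : (Sym2.map ((↑) : {v | v ∉ S} → V) '' (G.induce {v | v ∉ S}).edgeSet) ∪
      (↑(S.biUnion fun v => G.incidenceFinset v) : Set (Sym2 V)) ⊆ G.edgeSet := by
    rintro x (⟨y, hy, rfl⟩ | hx)
    · induction y using Sym2.ind with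
      | _ a b => simpa using hy
    · rw [mem_coe, mem_biUnion] at hx
      obtain ⟨v, _, hx⟩ := hx
      rw [SimpleGraph.mem_incidenceFinset] at hx
      exact hx.1
  have h5 := Set.ncard_le_ncard h4 (Set.toFinite _)
  rw [Set.ncard_union_eq h3 (Set.toFinite _) (Set.toFinite _), h2, Set.ncard_coe_finset, h1] at h5
  exact h5

open Classical in
/-- Placing the vertices of `S` in `Z₀`. -/
theorem place (G : SimpleGraph V) (H : SimpleGraph W) (S : Finset V) (Z₀ Z : Finset W)
    (hZ : Z₀ ⊆ Z) (hind : ∀ u ∈ S, ∀ v ∈ S, ¬ G.Adj u v) (d : ℕ)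
    (hd : ∀ v ∈ S, (G.neighborSet v).ncard = d) (M : ℕ)
    (hM : ∀ w, w ∉ Z → #(Z₀.filter fun z => H.Adj w z) ≤ M) (hroom : d * M + #S ≤ #Z₀)
    (h : Emb (G.induce {v | v ∉ S}) (H.induce {w | w ∉ Z})) : Emb G H := by
  obtain ⟨f, hf, hadj⟩ := h
  have hA : ∀ v : S, #S ≤ #(Z₀ \ (univ.filter fun u : {v | v ∉ S} => G.Adj v u).biUnion
      fun u => Z₀.filter fun z => H.Adj (f u) z) := by
    intro v
    have h1 : #((univ.filter fun u : {v | v ∉ S} => G.Adj v u).biUnion
        fun u => Z₀.filter fun z => H.Adj (f u) z) ≤ d * M := by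
      refine (card_biUnion_le_card_mul _ _ M fun u _ => hM _ (f u).2).trans ?_
      refine Nat.mul_le_mul_right M ?_
      rw [← hd v v.2, Set.ncard_eq_toFinset_card' (G.neighborSet v)]
      refine card_le_card_of_injOn (fun u => u.1) ?_ ?_
      · intro u hu
        simpa using hu
      · intro a _ b _ hab
        exact Subtype.ext hab
    have h2 := le_card_sdiff ((univ.filter fun u : {v | v ∉ S} => G.Adj v u).biUnion
      fun u => Z₀.filter fun z => H.Adj (f u) z) Z₀
    omega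
  obtain ⟨g, hg, hgA⟩ := (Finset.all_card_le_biUnion_card_iff_exists_injective
    (fun v : S => Z₀ \ (univ.filter fun u : {v | v ∉ S} => G.Adj v u).biUnion
      fun u => Z₀.filter fun z => H.Adj (f u) z)).1 (by
    intro T
    rcases T.eq_empty_or_nonempty with rfl | ⟨v, hv⟩
    · simp
    · refine le_trans ?_ ((hA v).trans (card_le_card (subset_biUnion_of_mem
        (fun v : S => Z₀ \ (univ.filter fun u : {v | v ∉ S} => G.Adj v u).biUnion
          fun u => Z₀.filter fun z => H.Adj (f u) z) hv)))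
      have := card_le_univ T
      rwa [Fintype.card_coe] at this)
  have hg1 : ∀ v, g v ∈ Z₀ := fun v => (mem_sdiff.1 (hgA v)).1
  have hg2 : ∀ (v : S) (u : {v | v ∉ S}), G.Adj v u → ¬ H.Adj (f u) (g v) := by
    intro v u hvu hfg
    refine (mem_sdiff.1 (hgA v)).2 (mem_biUnion.2 ⟨u, ?_, ?_⟩)
    · exact mem_filter.2 ⟨mem_univ _, hvu⟩
    · exact mem_filter.2 ⟨hg1 v, hfg⟩
  have hfZ : ∀ u, ((f u : {w | w ∉ Z}) : W) ∉ Z₀ := fun u hu => (f u).2 (hZ hu)
  refine ⟨fun v => if h : v ∈ S then g ⟨v, h⟩ else f ⟨v, h⟩, ?_, ?_⟩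
  · intro a b hab
    by_cases ha : a ∈ S <;> by_cases hb : b ∈ S
    · simp only [ha, hb, dif_pos] at hab
      exact congrArg Subtype.val (hg hab)
    · simp only [ha, hb, dif_pos, dif_neg, not_false_eq_true] at hab
      exact absurd (hab ▸ hg1 ⟨a, ha⟩) (hfZ ⟨b, hb⟩)
    · simp only [ha, hb, dif_pos, dif_neg, not_false_eq_true] at hab
      exact absurd (hab.symm ▸ hg1 ⟨b, hb⟩) (hfZ ⟨a, ha⟩)
    · simp only [ha, hb, dif_neg, not_false_eq_true] at hab
      exact congrArg Subtype.val (hf (Subtype.ext hab))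
  · intro a b hab
    by_cases ha : a ∈ S <;> by_cases hb : b ∈ S
    · exact absurd hab (hind a ha b hb)
    · simp only [ha, hb, dif_pos, dif_neg, not_false_eq_true]
      exact fun h => hg2 ⟨a, ha⟩ ⟨b, hb⟩ hab h.symm
    · simp only [ha, hb, dif_pos, dif_neg, not_false_eq_true]
      exact hg2 ⟨b, hb⟩ ⟨a, ha⟩ hab.symm
    · simp only [ha, hb, dif_neg, not_false_eq_true]
      exact hadj ⟨a, ha⟩ ⟨b, hb⟩ hab

end WT

/-- **The weak threshold.** -/
theorem weak_thr (c d : ℕ) (hd : 1 ≤ d) (ε : ℝ) (hε : 0 < ε) : ∃ N₀ : ℕ,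
    ∀ (W V : Type) [Fintype W] [Fintype V] (H : SimpleGraph W) (G : SimpleGraph V) (s : ℕ)
      (D : Finset V), N₀ ≤ Fintype.card W → (∀ w, (H.neighborSet w).ncard ≤ s) →
      (1 + d) * s < (1 - ε) * Fintype.card W → (∀ v ∈ D, (G.neighborSet v).ncard = d) →
      ε * Fintype.card W ≤ #D →
      (∀ (S : Finset V) (Z : Finset W), S.Nonempty →
        #Z + c + (G.induce {v | v ∉ S}).edgeSet.ncard ≤ #S + G.edgeSet.ncard →
        Emb (G.induce {v | v ∉ S}) (H.induce {w | w ∉ Z})) → Emb G H := by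
  classical
  by_cases hε1 : 1 ≤ ε
  · refine ⟨0, fun W V _ _ H G s D _ _ h1 _ _ _ => ?_⟩
    exfalso
    have h2 : (0 : ℝ) ≤ (1 + d) * s := by positivity
    have h3 : (0 : ℝ) ≤ Fintype.card W := Nat.cast_nonneg _
    nlinarith
  push Not at hε1
  have hd0 : (1 : ℝ) ≤ d := by exact_mod_cast hd
  have hq : (0 : ℝ) < 1 + d := by linarith
  obtain ⟨κ, hκ⟩ : ∃ κ : ℝ, κ = ε / (8 * (1 + d)) := ⟨_, rfl⟩
  have hκ0 : 0 < κ := by rw [hκ]; positivity
  have hκ1 : κ * (8 * (1 + d)) = ε := by rw [hκ]; field_simp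
  obtain ⟨θ, hθ⟩ : ∃ θ : ℝ, θ = ε / (2 * (1 + d)) := ⟨_, rfl⟩
  have hθ0 : 0 < θ := by rw [hθ]; positivity
  have hθ1 : (1 + d) * θ = ε / 2 := by rw [hθ]; field_simp
  have hκ2 : κ ≤ 1 / 16 := by nlinarith
  obtain ⟨p, hp⟩ : ∃ p : ℝ, p = ε / 2 * (1 - κ) := ⟨_, rfl⟩
  have hp0 : 0 < p := by rw [hp]; exact mul_pos (by linarith) (by linarith)
  have hp1 : p ≤ 1 := by rw [hp]; nlinarith
  obtain ⟨b, hb⟩ : ∃ b : ℕ, 2 / (κ * p) ^ 2 ≤ b := exists_nat_ge _
  obtain ⟨N₁, hN₁⟩ : ∃ N₁ : ℕ, 2 / (κ * p) ^ 2 ≤ N₁ := exists_nat_ge _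
  obtain ⟨N₂, hN₂⟩ : ∃ N₂ : ℕ, ((b : ℝ) + c + (1 + d)) / (ε / 2 * κ ^ 2) ≤ N₂ := exists_nat_ge _
  obtain ⟨N₃, hN₃⟩ : ∃ N₃ : ℕ, 1 / θ ≤ N₃ := exists_nat_ge _
  refine ⟨N₁ + N₂ + N₃ + 1, fun W V _ _ H G s D hN hs hthr hD hcD hyp => ?_⟩
  obtain ⟨N, hNdef⟩ : ∃ N : ℕ, N = Fintype.card W := ⟨_, rfl⟩
  rw [← hNdef] at hN hthr hcD
  have hNr : ((N₁ : ℝ) + N₂ + N₃ + 1) ≤ N := by exact_mod_cast hN
  have hN0 : (0 : ℝ) < N := by
    have h1 : (0 : ℝ) ≤ N₁ := Nat.cast_nonneg _
    have h2 : (0 : ℝ) ≤ N₂ := Nat.cast_nonneg _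
    have h3 : (0 : ℝ) ≤ N₃ := Nat.cast_nonneg _
    linarith
  have hN1 : 2 / (κ * p) ^ 2 ≤ (N : ℝ) := by
    have h2 : (0 : ℝ) ≤ N₂ := Nat.cast_nonneg _
    have h3 : (0 : ℝ) ≤ N₃ := Nat.cast_nonneg _
    linarith
  have hN2 : ((b : ℝ) + c + (1 + d)) / (ε / 2 * κ ^ 2) ≤ (N : ℝ) := by
    have h1 : (0 : ℝ) ≤ N₁ := Nat.cast_nonneg _
    have h3 : (0 : ℝ) ≤ N₃ := Nat.cast_nonneg _
    linarith
  have hN3 : 1 / θ ≤ (N : ℝ) := by
    have h1 : (0 : ℝ) ≤ N₁ := Nat.cast_nonneg _
    have h2 : (0 : ℝ) ≤ N₂ := Nat.cast_nonneg _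
    linarith
  have hκp : 0 < κ * p := mul_pos hκ0 hp0
  -- the independent set
  obtain ⟨t, ht⟩ : ∃ t : ℕ, t = ⌊θ * N⌋₊ := ⟨_, rfl⟩
  have hθN : 0 ≤ θ * N := by positivity
  have ht1 : (t : ℝ) ≤ θ * N := by rw [ht]; exact Nat.floor_le hθN
  have ht2 : θ * N < t + 1 := by rw [ht]; exact Nat.lt_floor_add_one _
  have ht3 : 1 ≤ t := by
    rw [ht]
    refine Nat.le_floor ?_
    rw [Nat.cast_one]
    rw [div_le_iff₀ hθ0] at hN3
    linarith
  obtain ⟨S, hSD, hSc, hind⟩ := WT.indep_set G d D hD t (by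
    have : ((t * (d + 1) : ℕ) : ℝ) ≤ (#D : ℝ) := by
      push_cast
      have h1 : (t : ℝ) * (d + 1) ≤ θ * N * (d + 1) := mul_le_mul_of_nonneg_right ht1 (by linarith)
      have h2 : θ * N * (d + 1) = ε / 2 * N := by rw [← hθ1]; ring
      have h3 : ε / 2 * N ≤ ε * N := by nlinarith
      linarith
    exact_mod_cast this)
  have hSd : ∀ v ∈ S, (G.neighborSet v).ncard = d := fun v hv => hD v (hSD hv)
  have hed := WT.edges_removed G d S hSd hind
  -- the random set
  obtain ⟨Z₀, hz1, hz2⟩ := WT.rand_set (fun x : W => univ.filter fun z => H.Adj x z) hp0.le hp1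
  rw [← hNdef] at hz1 hz2
  have hz3 : ((#Z₀ : ℝ) - p * N) ^ 2 ≤ 2 * N := by
    have : (N : ℝ) * ((#Z₀ : ℝ) - p * N) ^ 2 ≤ N * (2 * N) := by linarith
    exact le_of_mul_le_mul_left this hN0
  have hz4 : |(#Z₀ : ℝ) - p * N| ≤ κ * p * N := by
    refine abs_le_of_sq_le_sq (hz3.trans ?_) (by positivity)
    rw [div_le_iff₀ (by positivity)] at hN1
    have : (κ * p * N) ^ 2 = N * (κ * p) ^ 2 * N := by ring
    rw [this]
    exact mul_le_mul_of_nonneg_right hN1 hN0.le
  rw [abs_le] at hz4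
  -- the bad vertices
  obtain ⟨Bd, hBd⟩ : ∃ Bd : Finset W, Bd = univ.filter fun x =>
    p * s + κ * p * N < #(Z₀.filter fun z => H.Adj x z) := ⟨_, rfl⟩
  have hnb : ∀ x : W, (#(univ.filter fun z => H.Adj x z) : ℝ) ≤ s := by
    intro x
    have := hs x
    rw [Set.ncard_eq_toFinset_card'] at this
    have h2 : (H.neighborSet x).toFinset = univ.filter fun z => H.Adj x z := by
      ext z; simp
    rw [h2] at this
    exact_mod_cast this
  have hBc : #Bd ≤ b := by
    have h1 : ∑ x ∈ Bd, (κ * p * N) ^ 2 ≤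
        ∑ x, ((#((univ.filter fun z => H.Adj x z) ∩ Z₀) : ℝ) -
          p * #(univ.filter fun z => H.Adj x z)) ^ 2 := by
      refine (sum_le_sum fun x hx => ?_).trans
        (sum_le_univ_sum_of_nonneg fun x => sq_nonneg _)
      rw [hBd, mem_filter] at hx
      have e : (univ.filter fun z => H.Adj x z) ∩ Z₀ = Z₀.filter fun z => H.Adj x z := by
        ext z
        simp [and_comm]
      rw [e]
      have h2 := mul_le_mul_of_nonneg_left (hnb x) hp0.le
      have h3 : 0 ≤ κ * p * N := by positivity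
      exact pow_le_pow_left₀ h3 (by linarith [hx.2]) 2
    rw [sum_const, nsmul_eq_mul] at h1
    have h2 := h1.trans hz2
    have h3 : (#Bd : ℝ) ≤ 2 / (κ * p) ^ 2 := by
      rw [le_div_iff₀ (by positivity)]
      have h4 : (#Bd : ℝ) * (κ * p) ^ 2 * N ^ 2 ≤ 2 * N ^ 2 := by
        calc (#Bd : ℝ) * (κ * p) ^ 2 * N ^ 2 = #Bd * (κ * p * N) ^ 2 := by ring
          _ ≤ _ := h2
      exact le_of_mul_le_mul_right h4 (by positivity)
    exact_mod_cast h3.trans hb
  obtain ⟨M, hM⟩ : ∃ M : ℕ, M = ⌊p * s + κ * p * N⌋₊ := ⟨_, rfl⟩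
  have hMr : (M : ℝ) ≤ p * s + κ * p * N := by
    rw [hM]
    exact Nat.floor_le (by positivity)
  refine WT.place G H S Z₀ (Z₀ ∪ Bd) subset_union_left hind d hSd M ?_ ?_
    (hyp S (Z₀ ∪ Bd) ?_ ?_)
  · intro w hw
    rw [mem_union, not_or] at hw
    have h1 := hw.2
    rw [hBd, mem_filter] at h1
    have h2 : (#(Z₀.filter fun z => H.Adj w z) : ℝ) ≤ p * s + κ * p * N := by
      by_contra hcon
      push Not at hcon
      exact h1 ⟨mem_univ _, hcon⟩
    rw [hM]
    exact Nat.le_floor h2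
  · have : ((d * M + #S : ℕ) : ℝ) ≤ #Z₀ := by
      rw [hSc]
      push_cast
      have h1 : (d : ℝ) * M ≤ d * (p * s + κ * p * N) := mul_le_mul_of_nonneg_left hMr (by linarith)
      -- everything times `1 + d`
      have h2 : (1 + d) * (s : ℝ) ≤ (1 - ε) * N := hthr.le
      have h3 : (1 + d) * ((d : ℝ) * (p * s + κ * p * N)) ≤
          d * p * ((1 - ε) * N) + (1 + d) * (d * (κ * p * N)) := by
        have := mul_le_mul_of_nonneg_left h2 (by positivity : (0 : ℝ) ≤ d * p)
        nlinarith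
      have h4 : (1 + d) * (t : ℝ) ≤ ε / 2 * N := by
        have := mul_le_mul_of_nonneg_left ht1 hq.le
        have e : (1 + d) * (θ * N) = ε / 2 * N := by rw [← hθ1]; ring
        linarith
      have h5 : ε / 2 * N ≤ p * N * (1 + 2 * κ) := by
        rw [hp]
        have : ε / 2 * (1 - κ) * N * (1 + 2 * κ) - ε / 2 * N = ε / 2 * N * (κ * (1 - 2 * κ)) := by
          ring
        have h6 : 0 ≤ ε / 2 * N * (κ * (1 - 2 * κ)) := by
          refine mul_nonneg (by positivity) (mul_nonneg hκ0.le (by linarith))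
        linarith
      have h7 : (1 + d) * (p * N - κ * p * N) ≤ (1 + d) * (#Z₀ : ℝ) :=
        mul_le_mul_of_nonneg_left (by linarith [hz4.1]) hq.le
      have h8 : d * p * ((1 - ε) * N) + (1 + d) * (d * (κ * p * N)) + p * N * (1 + 2 * κ) ≤
          (1 + d) * (p * N - κ * p * N) := by
        have e : (1 + d) * (p * N - κ * p * N) - (d * p * ((1 - ε) * N) +
            (1 + d) * (d * (κ * p * N)) + p * N * (1 + 2 * κ)) =
            p * N * (d * ε - (κ * (1 + d)) * (1 + d) - 2 * κ) := by ring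
        have e2 : κ * (1 + d) = ε / 8 := by rw [← hκ1]; ring
        have h9 : 2 * κ ≤ ε / 8 := by nlinarith
        have h10 : 0 ≤ d * ε - (κ * (1 + d)) * (1 + d) - 2 * κ := by
          rw [e2]
          nlinarith
        have h11 : 0 ≤ p * N * (d * ε - (κ * (1 + d)) * (1 + d) - 2 * κ) :=
          mul_nonneg (by positivity) h10
        linarith
      have h12 : (1 + d) * ((d : ℝ) * M + t) ≤ (1 + d) * (#Z₀ : ℝ) := by
        have := mul_le_mul_of_nonneg_left h1 hq.le
        linarith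
      exact le_of_mul_le_mul_left h12 hq
    exact_mod_cast this
  · rw [← card_pos, hSc]
    exact ht3
  · have h1 : #(Z₀ ∪ Bd) + c ≤ (1 + d) * t := by
      have : ((#(Z₀ ∪ Bd) + c : ℕ) : ℝ) ≤ ((1 + d) * t : ℕ) := by
        push_cast
        have h2 : (#(Z₀ ∪ Bd) : ℝ) ≤ #Z₀ + #Bd := by exact_mod_cast card_union_le _ _
        have h3 : (#Bd : ℝ) ≤ b := by exact_mod_cast hBc
        have h4 : (#Z₀ : ℝ) ≤ p * N + κ * p * N := by linarith [hz4.2]
        have h5 : p * N + κ * p * N = ε / 2 * N - ε / 2 * κ ^ 2 * N := by rw [hp]; ring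
        have h6 : (b : ℝ) + c + (1 + d) ≤ ε / 2 * κ ^ 2 * N := by
          rw [div_le_iff₀ (by positivity)] at hN2
          linarith
        have h7 : ε / 2 * N ≤ (1 + d) * t + (1 + d) := by
          have := mul_le_mul_of_nonneg_left ht2.le hq.le
          have e : (1 + d) * (θ * N) = ε / 2 * N := by rw [← hθ1]; ring
          linarith
        linarith
      exact_mod_cast this
    have h2 : (1 + d) * t = t + d * t := by ring
    rw [hSc] at hed ⊢
    omega

end Pool.Agent.T6A
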