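import Pool.Agent.T6A.Core2
import Pool.Agent.T6A.WeakThr

/-!
# Round 2, part R2-A (MP_c6effb_co): `Core3` implies `Core2`
-/

set_option autoImplicit false
set_option linter.unusedSectionVars false

open Finset

namespace Pool.Agent.T6A

/-- The degree sum. -/
theorem c2b_sum_ncard {V : Type} [Fintype V] (G : SimpleGraph V) :
    ∑ v, (G.neighborSet v).ncard = 2 * G.edgeSet.ncard := by
  classical
  have h := G.sum_degrees_eq_twice_card_edges
  rw [← SimpleGraph.coe_edgeFinset, Set.ncard_coe_finset, ← h]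
  refine Finset.sum_congr rfl fun v _ => ?_
  rw [Set.ncard_eq_toFinset_card' (G.neighborSet v), ← SimpleGraph.card_neighborFinset_eq_degree]
  rfl

/-- **The reduction of `Core2` to `Core3`** (with `weak_thr`): only frequent degrees above the weak
threshold are left. -/
theorem core2_of_core3 (h3 : Core3) : Core2 := by
  classical
  intro C c
  obtain ⟨ε, hε, N₀, hN⟩ := h3 C
  obtain ⟨ε', hε'⟩ : ∃ ε' : ℝ, ε' = ε / (2 * C + 3) := ⟨_, rfl⟩
  have hC : (0 : ℝ) ≤ C := Nat.cast_nonneg C
  have hε'0 : 0 < ε' := by rw [hε']; positivity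
  have hε'1 : ε' * (2 * C + 3) = ε := by rw [hε']; field_simp
  have hle : ε' ≤ ε := by nlinarith
  obtain ⟨D, hD⟩ : ∃ D : ℕ, D = ⌈(2 * C : ℝ) / ε⌉₊ := ⟨_, rfl⟩
  have hex : ∀ d : ℕ, ∃ M : ℕ, 1 ≤ d → ∀ (W V : Type) [Fintype W] [Fintype V]
      (H : SimpleGraph W) (G : SimpleGraph V) (s : ℕ),
      M ≤ Fintype.card W → (∀ w, (H.neighborSet w).ncard ≤ s) →
      (1 + d : ℝ) * s < (1 - ε') * Fintype.card W →
      ε' * Fintype.card W ≤ #{v | (G.neighborSet v).ncard = d} → Hyp c G H → Emb G H := by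
    intro d
    by_cases hd : 1 ≤ d
    · obtain ⟨M, hM⟩ := weak_thr c d hd ε' hε'0
      exact ⟨M, fun _ W V _ _ H G s h1 h2 h4 h5 h6 =>
        hM W V H G s _ h1 h2 h4 (fun v hv => (mem_filter.1 hv).2) h5 h6⟩
    · exact ⟨0, fun h => absurd h hd⟩
  choose M hM using hex
  refine ⟨max N₀ ((Finset.range (D + 1)).sup M), ?_⟩
  intro W V _ _ H G I hcard hH hkm hmC h75 hI hmax hIV hdeg hyp
  by_cases hall : ∀ d : ℕ, ε * Fintype.card V ≤ #{v | (G.neighborSet v).ncard = d} →
      (1 - ε) * Fintype.card W ≤ (1 + d) * #I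
  · exact hN W V H G I (le_trans (le_max_left _ _) hcard) hH hkm hmC h75 hI hmax hIV hdeg hall
  push Not at hall
  obtain ⟨d, hd1, hd2⟩ := hall
  have hV : 0 < Fintype.card V := by omega
  have hV' : (0 : ℝ) < Fintype.card V := Nat.cast_pos.2 hV
  have hsum := c2b_sum_ncard G
  -- a vertex of degree `d`
  have hne : (univ.filter fun v => (G.neighborSet v).ncard = d).Nonempty := by
    rw [← Finset.card_pos]
    have : (0 : ℝ) < #{v | (G.neighborSet v).ncard = d} := lt_of_lt_of_le (by positivity) hd1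
    exact_mod_cast this
  obtain ⟨v₀, hv₀⟩ := hne
  rw [mem_filter] at hv₀
  have hd0 : 1 ≤ d := by
    by_contra hcon
    have : d = 0 := by omega
    have h := hdeg v₀
    rw [hv₀.2, this] at h
    omega
  -- `d ≤ D`
  have hdD : d ≤ D := by
    have h1 : d * #{v | (G.neighborSet v).ncard = d} ≤ 2 * G.edgeSet.ncard := by
      rw [← hsum, ← Finset.sum_filter_add_sum_filter_not univ
        (fun v => (G.neighborSet v).ncard = d)]
      refine le_trans ?_ (Nat.le_add_right _ _)
      rw [Finset.sum_congr rfl (g := fun _ => d) fun v hv => (mem_filter.1 hv).2,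
        Finset.sum_const, smul_eq_mul, mul_comm]
    have h2 : (d : ℝ) * (ε * Fintype.card V) ≤ 2 * C * Fintype.card V := by
      calc (d : ℝ) * (ε * Fintype.card V)
          ≤ d * (#{v | (G.neighborSet v).ncard = d} : ℝ) :=
            mul_le_mul_of_nonneg_left hd1 (Nat.cast_nonneg d)
        _ ≤ 2 * (G.edgeSet.ncard : ℝ) := by exact_mod_cast h1
        _ ≤ 2 * (C * Fintype.card V) := by
            have : (G.edgeSet.ncard : ℝ) ≤ C * Fintype.card V := by exact_mod_cast hmC
            linarith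
        _ = 2 * C * Fintype.card V := by ring
    have h3 : (d : ℝ) * ε ≤ 2 * C := by
      have : (d : ℝ) * ε * Fintype.card V ≤ 2 * C * Fintype.card V := by linarith
      exact le_of_mul_le_mul_right this hV'
    have h4 : (d : ℝ) ≤ 2 * C / ε := (le_div_iff₀ hε).2 h3
    rw [hD]
    exact_mod_cast h4.trans (Nat.le_ceil _)
  -- `|W| ≤ (2 C + 1) |V|`
  have hWV : (Fintype.card W : ℝ) ≤ (2 * C + 1) * Fintype.card V := by
    have h1 : Fintype.card V * (Fintype.card W + 1) ≤
        2 * G.edgeSet.ncard * #I + Fintype.card V * Fintype.card V := by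
      have h2 : ∑ _v : V, (Fintype.card W + 1) ≤
          ∑ v : V, ((G.neighborSet v).ncard * #I + Fintype.card V) :=
        Finset.sum_le_sum fun v _ => hdeg v
      rw [Finset.sum_const, Finset.sum_add_distrib, ← Finset.sum_mul, hsum, Finset.sum_const,
        card_univ, smul_eq_mul, smul_eq_mul] at h2
      exact h2
    have h2 : 2 * G.edgeSet.ncard * #I ≤ 2 * (C * Fintype.card V) * Fintype.card V :=
      Nat.mul_le_mul (Nat.mul_le_mul_left 2 hmC) hIV.le
    have h3 : Fintype.card V * Fintype.card W ≤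
        Fintype.card V * ((2 * C + 1) * Fintype.card V) := by nlinarith
    have h4 : Fintype.card W ≤ (2 * C + 1) * Fintype.card V := Nat.le_of_mul_le_mul_left h3 hV
    exact_mod_cast h4
  have hW0 : (0 : ℝ) ≤ Fintype.card W := Nat.cast_nonneg _
  refine hM d hd0 W V H G #I ?_ (ncard_neighborSet_le hH hmax) ?_ ?_ hyp
  · refine le_trans ?_ ((le_max_right _ _).trans hcard)
    exact Finset.le_sup (f := M) (mem_range.2 (by omega))
  · refine lt_of_lt_of_le hd2 ?_
    nlinarith
  · refine le_trans ?_ hd1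
    calc ε' * (Fintype.card W : ℝ) ≤ ε' * ((2 * C + 1) * Fintype.card V) :=
          mul_le_mul_of_nonneg_left hWV hε'0.le
      _ ≤ ε' * ((2 * C + 3) * Fintype.card V) := by
          refine mul_le_mul_of_nonneg_left ?_ hε'0.le
          nlinarith
      _ = ε * Fintype.card V := by rw [← hε'1]; ring

end Pool.Agent.T6A
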