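import Pool.Agent.T6A.Top

/-!
# The core statements of round 2 (MP_c6effb_co): all numbers of edges

`Hyp c G H`: the induction hypothesis with loss `c` for all pairs `(G - S, H - Z)`. `Core2`: the core
statement with this hypothesis, for more than `7 k / 5` edges. `Core3`: the same, where it is replaced
by a lower bound for all degrees which occur often.
-/

set_option autoImplicit false

open Finset

namespace Pool.Agent.T6A

/-- The induction hypothesis with loss `c`: `G - S` embeds in the complement of `H - Z` whenever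
`#Z + c` is at most `#S` plus the number of the edges at `S`. -/
def Hyp (c : ℕ) {V W : Type} [Fintype V] [Fintype W] (G : SimpleGraph V) (H : SimpleGraph W) :
    Prop :=
  ∀ (S : Finset V) (Z : Finset W), S.Nonempty →
    #Z + c + (G.induce {v | v ∉ S}).edgeSet.ncard ≤ #S + G.edgeSet.ncard →
    Emb (G.induce {v | v ∉ S}) (H.induce {w | w ∉ Z})

/-- The core statement with the induction hypothesis. -/
def Core2 : Prop := ∀ C c : ℕ, ∃ N₀ : ℕ, ∀ (W V : Type) [Fintype W] [Fintype V]
  (H : SimpleGraph W) (G : SimpleGraph V) (I : Finset W),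
  N₀ ≤ Fintype.card W → H.CliqueFree 3 →
  Fintype.card V + G.edgeSet.ncard ≤ Fintype.card W →
  G.edgeSet.ncard ≤ C * Fintype.card V →
  7 * Fintype.card V < 5 * G.edgeSet.ncard →
  H.IsIndepSet (I : Set W) →
  (∀ J : Finset W, H.IsIndepSet (J : Set W) → #J ≤ #I) → #I < Fintype.card V →
  (∀ v : V, Fintype.card W + 1 ≤ (G.neighborSet v).ncard * #I + Fintype.card V) →
  Hyp c G H → Emb G H

open Classical in
/-- The core statement with the bound for the frequent degrees. -/
def Core3 : Prop := ∀ C : ℕ, ∃ ε : ℝ, 0 < ε ∧ ∃ N₀ : ℕ, ∀ (W V : Type) [Fintype W] [Fintype V]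
  (H : SimpleGraph W) (G : SimpleGraph V) (I : Finset W),
  N₀ ≤ Fintype.card W → H.CliqueFree 3 →
  Fintype.card V + G.edgeSet.ncard ≤ Fintype.card W →
  G.edgeSet.ncard ≤ C * Fintype.card V →
  7 * Fintype.card V < 5 * G.edgeSet.ncard →
  H.IsIndepSet (I : Set W) →
  (∀ J : Finset W, H.IsIndepSet (J : Set W) → #J ≤ #I) → #I < Fintype.card V →
  (∀ v : V, Fintype.card W + 1 ≤ (G.neighborSet v).ncard * #I + Fintype.card V) →
  (∀ d : ℕ, ε * Fintype.card V ≤ #{v | (G.neighborSet v).ncard = d} →
    (1 - ε) * Fintype.card W ≤ (1 + d) * #I) → Emb G H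

end Pool.Agent.T6A
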