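import Pool.Agent.T6A.Thr3

/-!
# From LIM with threshold to the low problem with threshold (MP_c6effb_co, round 2)
-/

set_option autoImplicit false

open Finset

namespace Pool.Agent.T6A

open Classical

noncomputable section

/-- The threshold hypothesis of the low problem gives the one of its world. -/
theorem thrW_of_thrD {Q : ℝ} {C K M : ℕ} {δ₁ δ : ℝ} {V : Type} [Fintype V] {G : SimpleGraph V}
    (D : LowData Q C K M δ₁ δ G) {e : ℝ} (h : ThrD D e) :
    ThrW D.world D.low (Fintype.card V) e := by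
  intro d hd
  refine h d (hd.trans ?_)
  have h1 : (univ.filter fun v : D.Lv => v ∉ D.low.E ∧ D.low.d v + D.low.j v = d).card ≤
      (univ.filter fun v : V =>
        v ∉ D.Qh ∧ v ∉ D.Ex ∧ dLow G D.Qh v + jHub G D.Gi v = d).card := by
    rw [← card_map (Function.Embedding.subtype (fun v => v ∉ D.Qh))]
    apply card_le_card
    intro v hv
    rw [mem_map] at hv
    obtain ⟨u, hu, rfl⟩ := hv
    rw [mem_filter] at hu ⊢
    refine ⟨mem_univ _, u.2, fun h2 => hu.2.1 (mem_filter.2 ⟨mem_univ _, h2⟩), ?_⟩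
    have h3 := hu.2.2
    rw [D.low_d] at h3
    exact h3
  have h2 : ((univ.filter fun v : D.Lv => v ∉ D.low.E ∧ D.low.d v + D.low.j v = d).card : ℝ) ≤
      ((univ.filter fun v : V =>
        v ∉ D.Qh ∧ v ∉ D.Ex ∧ dLow G D.Qh v + jHub G D.Gi v = d).card : ℝ) := by
    exact_mod_cast h1
  convert h2 using 1 <;> congr

/-- The selection step and LIM solve the low problem, with the threshold hypothesis. -/
theorem low3_of_lim3 {Q : ℝ} (hsel : SelStmt) (hlim : Lim3 Q) : LowProb3 Q := by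
  intro C
  obtain ⟨e, he, he8, h1⟩ := hlim C
  refine ⟨e / 8, e, by linarith, by linarith, he, ⌈32 * (C : ℝ) / e⌉₊ + 1, fun K hK => ?_⟩
  obtain ⟨B, ε, hε, h2⟩ := h1 K (e / 16) (by linarith)
  refine ⟨min e ε, lt_min he hε, min_le_left _ _, fun M => ?_⟩
  obtain ⟨hK0, hK'⟩ := large_K he hK
  obtain ⟨k₀, _, h3⟩ := low_of_scheme hsel Q C K M B e ε he he8 hK0 hK'
  exact ⟨k₀, fun V _ G D hV hthr => h3 (e / 8) _ le_rfl (min_le_left _ _) (min_le_right _ _) V G D
    hV fun hok => h2 D.Lv D.ι D.world D.low D.Bd (Fintype.card V) hok (thrW_of_thrD D hthr)⟩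

end

end Pool.Agent.T6A
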