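import Pool.Agent.T6A.LowEx
import Pool.Agent.T6A.Low3
import Pool.Agent.T6A.Core2

/-!
# `Core3` from the low problem with threshold (MP_c6effb_co, round 2)
-/

set_option autoImplicit false

open Finset

namespace Pool.Agent.T6A

open Classical

noncomputable section

/-- **`Core3` follows from the low problem with threshold.** -/
theorem core3_of_low3 (h : LowProb3 (7 / 5)) : Core3 := by
  intro C
  obtain ⟨δ₁, e₃, hδ₁, hδ₁4, he₃, K₁, h1⟩ := h C
  have h2 : ∀ K, ∃ δ : ℝ, 0 < δ ∧ δ ≤ e₃ ∧ (K₁ ≤ K → ∀ M : ℕ, ∃ k₀ : ℕ, ∀ (V : Type) [Fintype V]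
      (G : SimpleGraph V) (D : LowData (7 / 5) C K M δ₁ δ G), k₀ ≤ Fintype.card V → ThrD D e₃ →
        LowSol D) := by
    intro K
    by_cases hK : K₁ ≤ K
    · obtain ⟨δ, hδ, hδe, h3⟩ := h1 K hK
      exact ⟨δ, hδ, hδe, fun _ => h3⟩
    · exact ⟨e₃, he₃, le_rfl, fun h => absurd h hK⟩
  choose δf hδf hδe h3 using h2
  obtain ⟨Mf, h4⟩ := low_exists (7 / 5) C hδ₁ hδ₁4 K₁ δf hδf
  have h5 : ∀ K, ∃ k₀ : ℕ, K₁ ≤ K → ∀ (V : Type) [Fintype V]
      (G : SimpleGraph V) (D : LowData (7 / 5) C K (Mf K) δ₁ (δf K) G), k₀ ≤ Fintype.card V →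
        ThrD D e₃ → LowSol D := by
    intro K
    by_cases hK : K₁ ≤ K
    · obtain ⟨k₀, h6⟩ := h3 K hK (Mf K)
      exact ⟨k₀, fun _ => h6⟩
    · exact ⟨0, fun h => absurd h hK⟩
  choose kf h6 using h5
  obtain ⟨N₀, h7⟩ := h4 fun K => kf K + 1
  refine ⟨min e₃ 1, lt_min he₃ one_pos, N₀, ?_⟩
  intro W V _ _ H G I hN hH hkm hmC hq hI _ hIk hdeg hthr
  have hk0 : 0 < Fintype.card V := lt_of_le_of_lt (Nat.zero_le _) hIk
  have hk0' : (0 : ℝ) < Fintype.card V := by exact_mod_cast hk0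
  have hQ : (1 + 7 / 5 : ℝ) * Fintype.card V ≤ Fintype.card W := by
    have h8 : ((Fintype.card V + G.edgeSet.ncard : ℕ) : ℝ) ≤ Fintype.card W := by exact_mod_cast hkm
    have h9 : ((7 * Fintype.card V : ℕ) : ℝ) < ((5 * G.edgeSet.ncard : ℕ) : ℝ) := by
      exact_mod_cast hq
    push_cast at h8 h9
    linarith
  obtain ⟨K, hK, D, hk, hW, hI', hd, hD⟩ := h7 W V H G I hN hH hkm hQ hmC hI hIk hdeg
  refine hD (h6 K hK V G D (by omega) ?_)
  intro d hd'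
  have h8 : (#{v | v ∉ D.Qh ∧ v ∉ D.Ex ∧ dLow G D.Qh v + jHub G D.Gi v = d} : ℝ) ≤
      (#{v | (G.neighborSet v).ncard = d} : ℝ) := by
    have h9 : #{v | v ∉ D.Qh ∧ v ∉ D.Ex ∧ dLow G D.Qh v + jHub G D.Gi v = d} ≤
        #{v | (G.neighborSet v).ncard = d} := by
      refine card_le_card fun v hv => ?_
      rw [mem_filter] at hv ⊢
      exact ⟨mem_univ _, (hd v hv.2.1 hv.2.2.1).symm.trans hv.2.2.2⟩
    exact_mod_cast h9
  have h10 : min e₃ 1 * (Fintype.card V : ℝ) ≤ (#{v | (G.neighborSet v).ncard = d} : ℝ) := by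
    refine le_trans ?_ (hd'.trans (le_trans ?_ h8))
    · exact mul_le_mul_of_nonneg_right (min_le_left _ _) hk0'.le
    · exact le_of_eq (by congr)
  have h11 := hthr d (by
    refine h10.trans (le_of_eq ?_)
    congr)
  change (1 - e₃) * (∑ i, D.w i) ≤ (1 + d) * ((∑ i ∈ D.A, D.w i) + e₃)
  have hwpos : (0 : ℝ) ≤ ∑ i, D.w i := sum_nonneg fun i _ => (D.wpos' i).le
  have h12 : (∑ i, D.w i) * (Fintype.card V : ℝ) ≤ Fintype.card W := hW
  have h13 : (1 - min e₃ 1) * ((∑ i, D.w i) * (Fintype.card V : ℝ)) ≤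
      (1 - min e₃ 1) * Fintype.card W :=
    mul_le_mul_of_nonneg_left h12 (by linarith [min_le_right e₃ (1 : ℝ)])
  have h14 : (1 + (d : ℝ)) * I.card ≤
      (1 + d) * (((∑ i ∈ D.A, D.w i) + e₃) * Fintype.card V) := by
    refine mul_le_mul_of_nonneg_left (hI'.trans ?_) (by positivity)
    refine mul_le_mul_of_nonneg_right ?_ hk0'.le
    linarith [hδe K]
  have h15 : (1 - min e₃ 1) * (∑ i, D.w i) * Fintype.card V ≤
      (1 + d) * ((∑ i ∈ D.A, D.w i) + e₃) * Fintype.card V := by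
    calc (1 - min e₃ 1) * (∑ i, D.w i) * Fintype.card V
        = (1 - min e₃ 1) * ((∑ i, D.w i) * (Fintype.card V : ℝ)) := by ring
      _ ≤ _ := h13.trans (h11.trans h14)
      _ = _ := by ring
  have h16 := le_of_mul_le_mul_right h15 hk0'
  refine le_trans ?_ h16
  exact mul_le_mul_of_nonneg_right (by linarith [min_le_left e₃ (1 : ℝ)]) hwpos

end

end Pool.Agent.T6A
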