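import Pool.Agent.T6A.Hub2

/-!
# Positions of the giants and of the mediums (MP_c6effb_co)

`U` is the union of the disjoint sets `P a`, `a ∈ A` (the typical vertices of the clusters of `A`).
The giants go to one set `P i₀`, the mediums anywhere in `U`. If `H` has a large independent set `I`
in `U`, then the giants go to `I ∩ P i₀`, the mediums of larger degree to the rest of `I` and the
others are placed greedily; otherwise the giants are placed by `hub_pos` and all mediums greedily.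
-/

set_option autoImplicit false

open Finset

namespace Pool.Agent.T6A

namespace POS

variable {V W : Type}

/-- An injective choice. -/
theorem exists_inj [Nonempty W] (s : Finset V) (X : Finset W) (h : #s ≤ #X) :
    ∃ f : V → W, (∀ v ∈ s, f v ∈ X) ∧ ∀ u ∈ s, ∀ v ∈ s, f u = f v → u = v := by
  classical
  obtain ⟨e⟩ : Nonempty (s ↪ X) := by
    rw [← Fintype.card_coe, ← Fintype.card_coe] at h
    exact Function.Embedding.nonempty_of_card_le h
  obtain ⟨w₀⟩ := ‹Nonempty W›
  have hf : ∀ v (hv : v ∈ s), (if h : v ∈ s then (e ⟨v, h⟩ : W) else w₀) = e ⟨v, hv⟩ :=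
    fun v hv => dif_pos hv
  refine ⟨fun v => if h : v ∈ s then (e ⟨v, h⟩ : W) else w₀, fun v hv => ?_, fun u hu v hv h => ?_⟩
  · simp only [hf v hv]
    exact (e ⟨v, hv⟩).2
  · simp only [hf u hu, hf v hv] at h
    exact congrArg Subtype.val (e.injective (Subtype.ext h))

open Classical in
/-- Greedy extension. -/
theorem greedy [Fintype V] (H : SimpleGraph W) (G : SimpleGraph V) (U : Finset W) (β N : ℕ)
    (hβ : ∀ x, #(U.filter fun y => H.Adj x y) ≤ β) (P₀ : Finset V) (f : V → W)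
    (hU : ∀ v ∈ P₀, f v ∈ U) (hinj : ∀ u ∈ P₀, ∀ v ∈ P₀, f u = f v → u = v)
    (hadj : ∀ u ∈ P₀, ∀ v ∈ P₀, G.Adj u v → ¬ H.Adj (f u) (f v)) (L : Finset V) :
    Disjoint P₀ L → #P₀ + #L ≤ N → (∀ v ∈ L, N + (G.neighborSet v).ncard * β ≤ #U) →
    ∃ g : V → W, (∀ v ∈ P₀, g v = f v) ∧ (∀ v ∈ P₀ ∪ L, g v ∈ U) ∧
      (∀ u ∈ P₀ ∪ L, ∀ v ∈ P₀ ∪ L, g u = g v → u = v) ∧
      ∀ u ∈ P₀ ∪ L, ∀ v ∈ P₀ ∪ L, G.Adj u v → ¬ H.Adj (g u) (g v) := by
  induction L using Finset.induction_on with
  | empty =>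
    intro _ _ _
    rw [union_empty]
    exact ⟨f, fun _ _ => rfl, hU, hinj, hadj⟩
  | insert v L hv ih =>
    intro hdisj hN hL
    have hvP : v ∉ P₀ := fun h => (disjoint_left.1 hdisj h) (mem_insert_self v L)
    have hcard : #(insert v L) = #L + 1 := card_insert_of_notMem hv
    obtain ⟨g, g1, g2, g3, g4⟩ := ih
      (disjoint_of_subset_right (subset_insert v L) hdisj) (by omega)
      (fun u hu => hL u (mem_insert_of_mem hu))
    have hvQ : v ∉ P₀ ∪ L := by
      rw [mem_union]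
      rintro (h | h)
      · exact hvP h
      · exact hv h
    set S := P₀ ∪ L with hS
    -- the forbidden positions
    set nbr := S.filter fun u => G.Adj v u with hnbr
    set forb := nbr.biUnion fun u => U.filter fun y => H.Adj (g u) y with hforb
    have c1 : #(S.image g) ≤ #P₀ + #L := card_image_le.trans (card_union_le _ _)
    have c2 : nbr.card ≤ (G.neighborSet v).ncard := by
      rw [Set.ncard_eq_toFinset_card' (G.neighborSet v)]
      refine card_le_card fun u hu => ?_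
      rw [Set.mem_toFinset]
      exact (mem_filter.1 hu).2
    have c3 : forb.card ≤ (G.neighborSet v).ncard * β :=
      (card_biUnion_le_card_mul _ _ β fun u _ => hβ (g u)).trans (Nat.mul_le_mul_right β c2)
    have c4 : #(S.image g ∪ forb) < #U := by
      have h1 := hL v (mem_insert_self v L)
      have h2 := card_union_le (S.image g) forb
      omega
    obtain ⟨x, hxU, hx⟩ : ∃ x ∈ U, x ∉ S.image g ∪ forb := by
      by_contra hcon
      push Not at hcon
      exact absurd (card_le_card (fun x hx => hcon x hx : U ⊆ S.image g ∪ forb)) (not_le.2 c4)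
    rw [mem_union, not_or] at hx
    obtain ⟨hx1, hx2⟩ := hx
    have hne : ∀ u ∈ S, u ≠ v := fun u hu e => hvQ (e ▸ hu)
    have hg : ∀ u ∈ S, Function.update g v x u = g u := fun u hu =>
      Function.update_of_ne (hne u hu) _ _
    have hgv : Function.update g v x v = x := Function.update_self _ _ _
    have hxg : ∀ u ∈ S, g u ≠ x := fun u hu e => hx1 (mem_image.2 ⟨u, hu, e⟩)
    have hxa : ∀ u ∈ S, G.Adj v u → ¬ H.Adj (g u) x := by
      intro u hu huv hadj'
      refine hx2 (mem_biUnion.2 ⟨u, mem_filter.2 ⟨hu, huv⟩, mem_filter.2 ⟨hxU, hadj'⟩⟩)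
    have hSS : ∀ u, u ∈ P₀ ∪ insert v L ↔ u = v ∨ u ∈ S := by
      intro u
      rw [hS, mem_union, mem_insert, mem_union]
      tauto
    refine ⟨Function.update g v x, ?_, ?_, ?_, ?_⟩
    · intro u hu
      rw [hg u (mem_union_left _ hu), g1 u hu]
    · intro u hu
      rcases (hSS u).1 hu with rfl | hu'
      · rw [hgv]; exact hxU
      · rw [hg u hu']; exact g2 u hu'
    · intro u hu w hw huw
      rcases (hSS u).1 hu with rfl | hu' <;> rcases (hSS w).1 hw with rfl | hw'
      · rfl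
      · rw [hgv, hg w hw'] at huw
        exact absurd huw.symm (hxg w hw')
      · rw [hgv, hg u hu'] at huw
        exact absurd huw (hxg u hu')
      · rw [hg u hu', hg w hw'] at huw
        exact g3 u hu' w hw' huw
    · intro u hu w hw huw
      rcases (hSS u).1 hu with rfl | hu' <;> rcases (hSS w).1 hw with rfl | hw'
      · exact absurd huw (G.loopless.irrefl _)
      · rw [hgv, hg w hw']
        exact fun h => hxa w hw' huw h.symm
      · rw [hgv, hg u hu']
        exact hxa u hu' huw.symm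
      · rw [hg u hu', hg w hw']
        exact g4 u hu' w hw' huw

/-- no edges inside -/
def NoEdge (H : SimpleGraph W) (I : Finset W) : Prop := ∀ x ∈ I, ∀ y ∈ I, ¬ H.Adj x y

open Classical in
/-- A maximum independent set inside `U`; the degrees into `U` are at most its size. -/
theorem exists_max (H : SimpleGraph W) (hH : H.CliqueFree 3) (U : Finset W) :
    ∃ I ⊆ U, (∀ x ∈ I, ∀ y ∈ I, ¬ H.Adj x y) ∧ ∀ x, #(U.filter fun y => H.Adj x y) ≤ #I := by
  obtain ⟨I, hI, hmax⟩ := exists_max_image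
    (U.powerset.filter fun I => NoEdge H I) (fun I => #I)
    ⟨∅, mem_filter.2 ⟨empty_mem_powerset U, fun x hx => absurd hx (notMem_empty x)⟩⟩
  rw [mem_filter, mem_powerset] at hI
  refine ⟨I, hI.1, hI.2, fun x => hmax _ (mem_filter.2 ⟨mem_powerset.2 (filter_subset _ _), ?_⟩)⟩
  intro y hy z hz hyz
  exact hH {x, y, z} (SimpleGraph.is3Clique_triple_iff.2
    ⟨(mem_filter.1 hy).2, (mem_filter.1 hz).2, hyz⟩)

end POS

open POS in
open Classical in
/-- **Positions of the giants and the mediums.** `C` depends on `ε` only. -/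
theorem POS.place (ε : ℝ) (hε : 0 < ε) : ∃ C : ℝ, 0 < C ∧
    ∀ (V W ι : Type) [Fintype V] [Fintype W] (G : SimpleGraph V) (H : SimpleGraph W)
      (A : Finset ι) (P : ι → Finset W) (M t : ℕ) (Gi Me : Finset V),
      H.CliqueFree 3 → A.Nonempty → (∀ i ∈ A, ∀ j ∈ A, i ≠ j → Disjoint (P i) (P j)) →
      2 ≤ M → #A ≤ M → 0 < #(A.biUnion P) → Disjoint Gi Me →
      (∀ v ∈ Me, (G.neighborSet v).ncard ≤ t) →
      20 * M * t * #Gi ≤ #(A.biUnion P) →
      80 * ∑ v ∈ Me, (G.neighborSet v).ncard ≤ #(A.biUnion P) →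
      20 * (#Gi + #Me) ≤ #(A.biUnion P) →
      (∀ a ∈ A, ε * (G.edgeSet.ncard : ℝ) ≤ #(P a)) → (∀ a ∈ A, C * (#Gi : ℝ) ≤ #(P a)) →
      ∃ (f : V → W) (i₀ : ι), i₀ ∈ A ∧ (∀ v ∈ Gi, f v ∈ P i₀) ∧
        (∀ v ∈ Gi ∪ Me, f v ∈ A.biUnion P) ∧
        (∀ u ∈ Gi ∪ Me, ∀ v ∈ Gi ∪ Me, f u = f v → u = v) ∧
        ∀ u ∈ Gi ∪ Me, ∀ v ∈ Gi ∪ Me, G.Adj u v → ¬ H.Adj (f u) (f v) := by
  obtain ⟨C, hC, hub⟩ := hub_pos ε hε
  refine ⟨C, hC, ?_⟩
  intro V W ι _ _ G H A P M t Gi Me hH hA hdisj hM hAM hu hGM ht h1 h2 h3 h4 h5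
  set U := A.biUnion P with hUdef
  set u := #U with hudef
  obtain ⟨x₀, hx₀⟩ := card_pos.1 hu
  have hne : Nonempty W := ⟨x₀⟩
  obtain ⟨I, hIU, hI, hβ⟩ := exists_max H hH U
  set β := #I with hβdef
  by_cases hcase : M * #Gi ≤ β
  · -- the giants in `I`
    obtain ⟨i₀, hi₀, hGi⟩ : ∃ i ∈ A, #Gi ≤ #(I ∩ P i) := by
      refine exists_le_of_sum_le hA ?_
      have e1 : #I = ∑ i ∈ A, #(I ∩ P i) := by
        rw [← card_biUnion, ← inter_biUnion]
        · rw [inter_eq_left.2 hIU]
        · intro i hi j hj hij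
          exact disjoint_of_subset_left inter_subset_right
            (disjoint_of_subset_right inter_subset_right (hdisj i hi j hj hij))
      rw [← e1, sum_const, smul_eq_mul]
      exact (Nat.mul_le_mul_right _ hAM).trans hcase
    obtain ⟨f1, hf1, hf1i⟩ := exists_inj Gi (I ∩ P i₀) hGi
    set Up := Me.filter fun v => u < 20 * (β * (G.neighborSet v).ncard) with hUp
    have hup : 4 * #Up ≤ β := by
      have a1 : #Up * u ≤ ∑ v ∈ Up, 20 * (β * (G.neighborSet v).ncard) := by
        rw [← smul_eq_mul, ← sum_const]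
        exact sum_le_sum fun v hv => (mem_filter.1 hv).2.le
      have a2 : ∑ v ∈ Up, 20 * (β * (G.neighborSet v).ncard)
          ≤ 20 * (β * ∑ v ∈ Me, (G.neighborSet v).ncard) := by
        rw [mul_sum, mul_sum]
        exact sum_le_sum_of_subset (filter_subset _ _)
      have a3 : β * (80 * ∑ v ∈ Me, (G.neighborSet v).ncard) ≤ β * u := Nat.mul_le_mul_left β h2
      have a4 : 4 * #Up * u ≤ β * u := by
        calc 4 * #Up * u = 4 * (#Up * u) := by ring
          _ ≤ 4 * (20 * (β * ∑ v ∈ Me, (G.neighborSet v).ncard)) :=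
            Nat.mul_le_mul_left 4 (a1.trans a2)
          _ = β * (80 * ∑ v ∈ Me, (G.neighborSet v).ncard) := by ring
          _ ≤ β * u := a3
      exact Nat.le_of_mul_le_mul_right a4 hu
    have hGi2 : 2 * #Gi ≤ β := (Nat.mul_le_mul_right _ hM).trans hcase
    have hc1 : #(Gi.image f1) = #Gi := card_image_of_injOn fun a ha b hb h => hf1i a ha b hb h
    have himg : Gi.image f1 ⊆ I := by
      intro x hx
      obtain ⟨v, hv, rfl⟩ := mem_image.1 hx
      exact (mem_inter.1 (hf1 v hv)).1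
    have hc2 : #Up ≤ #(I \ Gi.image f1) := by
      rw [card_sdiff_of_subset himg, hc1]
      omega
    obtain ⟨f2, hf2, hf2i⟩ := exists_inj Up (I \ Gi.image f1) hc2
    have hUpG : ∀ v ∈ Up, v ∉ Gi := fun v hv h =>
      (disjoint_left.1 hGM h) (mem_filter.1 hv).1
    set f : V → W := fun v => if v ∈ Gi then f1 v else f2 v with hf
    have hfG : ∀ v ∈ Gi, f v = f1 v := fun v hv => if_pos hv
    have hfU : ∀ v ∈ Up, f v = f2 v := fun v hv => if_neg (hUpG v hv)
    have hfI : ∀ v ∈ Gi ∪ Up, f v ∈ I := by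
      intro v hv
      rcases mem_union.1 hv with h | h
      · rw [hfG v h]; exact (mem_inter.1 (hf1 v h)).1
      · rw [hfU v h]; exact (mem_sdiff.1 (hf2 v h)).1
    have hfinj : ∀ a ∈ Gi ∪ Up, ∀ b ∈ Gi ∪ Up, f a = f b → a = b := by
      intro a ha b hb hab
      rcases mem_union.1 ha with ha' | ha' <;> rcases mem_union.1 hb with hb' | hb'
      · rw [hfG a ha', hfG b hb'] at hab
        exact hf1i a ha' b hb' hab
      · rw [hfG a ha', hfU b hb'] at hab
        exact absurd (mem_image.2 ⟨a, ha', hab⟩) (mem_sdiff.1 (hf2 b hb')).2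
      · rw [hfU a ha', hfG b hb'] at hab
        exact absurd (mem_image.2 ⟨b, hb', hab.symm⟩) (mem_sdiff.1 (hf2 a ha')).2
      · rw [hfU a ha', hfU b hb'] at hab
        exact hf2i a ha' b hb' hab
    have hL : ∀ v ∈ Me \ Up, (#Gi + #Me) + (G.neighborSet v).ncard * β ≤ u := by
      intro v hv
      have hv' : 20 * (β * (G.neighborSet v).ncard) ≤ u := by
        by_contra hcon
        exact (mem_sdiff.1 hv).2 (mem_filter.2 ⟨(mem_sdiff.1 hv).1, not_le.1 hcon⟩)
      rw [mul_comm β] at hv'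
      omega
    have hUpM : Up ⊆ Me := filter_subset _ _
    obtain ⟨g, g1, g2, g3, g4⟩ := greedy H G U β (#Gi + #Me) hβ (Gi ∪ Up) f
      (fun v hv => hIU (hfI v hv)) hfinj (fun a ha b hb _ => hI _ (hfI a ha) _ (hfI b hb))
      (Me \ Up) (by
        rw [disjoint_union_left]
        exact ⟨disjoint_of_subset_right sdiff_subset hGM, disjoint_sdiff⟩) (by
        have b1 := card_union_le Gi Up
        have b2 := card_sdiff_add_card_eq_card hUpM
        omega) hL
    have hall : (Gi ∪ Up) ∪ (Me \ Up) = Gi ∪ Me := by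
      rw [union_assoc, union_sdiff_of_subset hUpM]
    rw [hall] at g2 g3 g4
    refine ⟨g, i₀, hi₀, fun v hv => ?_, g2, g3, g4⟩
    rw [g1 v (mem_union_left _ hv), hfG v hv]
    exact (mem_inter.1 (hf1 v hv)).2
  · -- the independent sets are small
    push Not at hcase
    have hGne : Gi.Nonempty := by
      rw [nonempty_iff_ne_empty]
      rintro rfl
      simp at hcase
    obtain ⟨i₀, hi₀⟩ := hA
    obtain ⟨f, f1, f2, f3⟩ := hub V W G H Gi (P i₀) hH (h4 i₀ hi₀) (h5 i₀ hi₀) hGne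
    have hL : ∀ v ∈ Me, (#Gi + #Me) + (G.neighborSet v).ncard * β ≤ u := by
      intro v hv
      have a1 : (G.neighborSet v).ncard * β ≤ t * (M * #Gi) := Nat.mul_le_mul (ht v hv) hcase.le
      have a2 : 20 * (t * (M * #Gi)) ≤ u := by
        calc 20 * (t * (M * #Gi)) = 20 * M * t * #Gi := by ring
          _ ≤ u := h1
      omega
    obtain ⟨g, g1, g2, g3, g4⟩ := greedy H G U β (#Gi + #Me) hβ Gi f
      (fun v hv => mem_biUnion.2 ⟨i₀, hi₀, f1 v hv⟩) f2 f3 Me hGM le_rfl hL
    exact ⟨g, i₀, hi₀, fun v hv => by rw [g1 v hv]; exact f1 v hv, g2, g3, g4⟩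

end Pool.Agent.T6A
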