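import Mathlib

/-!
# The thresholds of the degrees (MP_c6effb_co)

For given functions `M`, `D` there is a bound `Kmax` such that every degree sequence with sum at most
`2 C k` has thresholds `K < t ≤ Kmax`, `D K ≤ t`: the degrees in `(K, t]` have a small sum, and there
are at most `k / (50 M(K) t)` degrees above `t`.
-/

set_option autoImplicit false

open Finset

namespace Pool.Agent.T6A

namespace THR

/-- The end of the window which begins at `K`. -/
def nxt (C : ℕ) (M D : ℕ → ℕ) (K : ℕ) : ℕ := (D K + K + 1) * 2 ^ (200 * C * M K + 1)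

/-- The windows. -/
def win (C : ℕ) (M D : ℕ → ℕ) (K0 : ℕ) : ℕ → ℕ
  | 0 => K0
  | i + 1 => nxt C M D (win C M D K0 i)

theorem lt_nxt (C : ℕ) (M D : ℕ → ℕ) (K : ℕ) : K < nxt C M D K := by
  have h1 : 0 < 2 ^ (200 * C * M K + 1) := Nat.pow_pos (by norm_num)
  have h2 : D K + K + 1 ≤ nxt C M D K := Nat.le_mul_of_pos_right _ h1
  omega

theorem win_mono (C : ℕ) (M D : ℕ → ℕ) (K0 : ℕ) : StrictMono (win C M D K0) :=
  strictMono_nat_of_lt_succ fun _ => lt_nxt C M D _

/-- The geometric sum. -/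
theorem geom (T : ℕ) (d J : ℕ) :
    ∑ j ∈ range J, (if T * 2 ^ j < d then ((T * 2 ^ j : ℕ) : ℝ) else 0) ≤ 2 * d := by
  induction J with
  | zero => simp
  | succ J ih =>
    rw [sum_range_succ]
    by_cases h : T * 2 ^ J < d
    · rw [if_pos h]
      have h1 : ∀ j ∈ range J, (if T * 2 ^ j < d then ((T * 2 ^ j : ℕ) : ℝ) else 0)
          ≤ T * 2 ^ j := by
        intro j _
        split_ifs
        · push_cast; exact le_rfl
        · positivity
      have h2 : ∑ j ∈ range J, ((T : ℝ) * 2 ^ j) = T * (2 ^ J - 1) := by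
        rw [← mul_sum, geom_sum_eq (by norm_num)]
        ring
      have h3 := (sum_le_sum h1).trans_eq h2
      have h4 : ((T * 2 ^ J : ℕ) : ℝ) ≤ d := by exact_mod_cast h.le
      have h5 : (0 : ℝ) ≤ T := Nat.cast_nonneg _
      have h6 : ((T * 2 ^ J : ℕ) : ℝ) = T * 2 ^ J := by push_cast; ring
      rw [h6] at h4 ⊢
      nlinarith
    · rw [if_neg h, add_zero]
      exact ih

end THR

open THR in
open Classical in
/-- **Thresholds**, for an arbitrary degree sequence. -/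
theorem thr_abs (C : ℕ) (θ : ℝ) (hθ : 0 < θ) (M D : ℕ → ℕ) (K0 : ℕ) :
    ∃ Kmax : ℕ, ∀ (V : Type) [Fintype V] (d : V → ℕ) (k : ℝ), 0 ≤ k →
      ∑ v, (d v : ℝ) ≤ 2 * C * k →
      ∃ K t : ℕ, K0 ≤ K ∧ K < t ∧ D K ≤ t ∧ t ≤ Kmax ∧
        ∑ v with K < d v ∧ d v ≤ t, (d v : ℝ) ≤ θ * k ∧
        50 * (M K : ℝ) * t * #{v | t < d v} ≤ k := by
  obtain ⟨r, hr⟩ := exists_nat_gt (2 * (C : ℝ) / θ)
  have hr0 : (0 : ℝ) < r := lt_of_le_of_lt (by positivity) hr
  have hrn : 0 < r := by exact_mod_cast hr0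
  rw [div_lt_iff₀ hθ] at hr
  refine ⟨win C M D K0 r, ?_⟩
  intro V _ d k hk hsum
  -- a window with a small sum
  obtain ⟨i, hi, hwin⟩ : ∃ i ∈ range r,
      ∑ v with win C M D K0 i < d v ∧ d v ≤ win C M D K0 (i + 1), (d v : ℝ) ≤ θ * k := by
    by_contra hcon
    push Not at hcon
    have h1 : (r : ℝ) * (θ * k) < ∑ i ∈ range r,
        ∑ v with win C M D K0 i < d v ∧ d v ≤ win C M D K0 (i + 1), (d v : ℝ) := by
      calc (r : ℝ) * (θ * k) = ∑ _i ∈ range r, θ * k := by
            rw [sum_const, card_range, nsmul_eq_mul]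
        _ < _ := sum_lt_sum_of_nonempty (nonempty_range_iff.2 hrn.ne') hcon
    have h2 : ∑ i ∈ range r, ∑ v with win C M D K0 i < d v ∧ d v ≤ win C M D K0 (i + 1), (d v : ℝ)
        ≤ ∑ v, (d v : ℝ) := by
      have hdisj : Set.PairwiseDisjoint (↑(range r) : Set ℕ)
          (fun i => univ.filter fun v => win C M D K0 i < d v ∧ d v ≤ win C M D K0 (i + 1)) := by
        intro a _ b _ hab
        rw [Function.onFun, disjoint_left]
        intro v hv hv'
        simp only [mem_filter, mem_univ, true_and] at hv hv'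
        rcases lt_or_gt_of_ne hab with h | h
        · have : win C M D K0 (a + 1) ≤ win C M D K0 b := (win_mono C M D K0).monotone h
          omega
        · have : win C M D K0 (b + 1) ≤ win C M D K0 a := (win_mono C M D K0).monotone h
          omega
      rw [← sum_biUnion hdisj]
      exact sum_le_sum_of_subset_of_nonneg (subset_univ _) fun _ _ _ => Nat.cast_nonneg _
    have h3 : (r : ℝ) * (θ * k) < 2 * C * k := h1.trans_le (h2.trans hsum)
    have h4 : 2 * (C : ℝ) * k ≤ r * θ * k := mul_le_mul_of_nonneg_right hr.le hk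
    linarith
  have hir : i + 1 ≤ r := mem_range.1 hi
  set K := win C M D K0 i with hK
  set T := D K + K + 1 with hT
  set J := 200 * C * M K + 1 with hJ
  have hend : win C M D K0 (i + 1) = T * 2 ^ J := rfl
  -- the level inside the window
  obtain ⟨j, hj, hlev⟩ : ∃ j ∈ range J,
      50 * (M K : ℝ) * (((T * 2 ^ j : ℕ) : ℝ) * #{v | T * 2 ^ j < d v}) ≤ k := by
    by_contra hcon
    push Not at hcon
    have h1 : (J : ℝ) * k < ∑ j ∈ range J,
        50 * (M K : ℝ) * (((T * 2 ^ j : ℕ) : ℝ) * #{v | T * 2 ^ j < d v}) := by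
      calc (J : ℝ) * k = ∑ _j ∈ range J, k := by rw [sum_const, card_range, nsmul_eq_mul]
        _ < _ := sum_lt_sum_of_nonempty (nonempty_range_iff.2 (by omega)) hcon
    have h2 : ∑ j ∈ range J, (((T * 2 ^ j : ℕ) : ℝ) * #{v | T * 2 ^ j < d v})
        = ∑ v, ∑ j ∈ range J, (if T * 2 ^ j < d v then ((T * 2 ^ j : ℕ) : ℝ) else 0) := by
      rw [sum_comm]
      refine sum_congr rfl fun j _ => ?_
      rw [← sum_filter, sum_const, nsmul_eq_mul, mul_comm]
    have h3 : ∑ j ∈ range J, (((T * 2 ^ j : ℕ) : ℝ) * #{v | T * 2 ^ j < d v}) ≤ 4 * C * k := by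
      rw [h2]
      calc ∑ v, ∑ j ∈ range J, (if T * 2 ^ j < d v then ((T * 2 ^ j : ℕ) : ℝ) else 0)
          ≤ ∑ v, 2 * (d v : ℝ) := sum_le_sum fun v _ => geom T (d v) J
        _ = 2 * ∑ v, (d v : ℝ) := by rw [mul_sum]
        _ ≤ 4 * C * k := by linarith
    rw [← mul_sum] at h1
    have h4 : 50 * (M K : ℝ) * ∑ j ∈ range J, (((T * 2 ^ j : ℕ) : ℝ) * #{v | T * 2 ^ j < d v})
        ≤ 50 * (M K : ℝ) * (4 * C * k) := mul_le_mul_of_nonneg_left h3 (by positivity)
    have h5 : (J : ℝ) = 200 * C * M K + 1 := by rw [hJ]; push_cast; ring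
    rw [h5] at h1
    nlinarith
  have hjJ : j < J := mem_range.1 hj
  have hT1 : T ≤ T * 2 ^ j := Nat.le_mul_of_pos_right _ (Nat.pow_pos (by norm_num))
  have hTJ : T * 2 ^ j ≤ T * 2 ^ J :=
    Nat.mul_le_mul_left T (Nat.pow_le_pow_right (by norm_num) hjJ.le)
  refine ⟨K, T * 2 ^ j, ?_, ?_, ?_, ?_, ?_, ?_⟩
  · exact (win_mono C M D K0).monotone (Nat.zero_le i)
  · omega
  · omega
  · exact (hTJ.trans_eq hend.symm).trans ((win_mono C M D K0).monotone hir)
  · refine le_trans (sum_le_sum_of_subset_of_nonneg ?_ fun _ _ _ => Nat.cast_nonneg _) hwin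
    intro v hv
    simp only [mem_filter, mem_univ, true_and] at hv ⊢
    rw [hend]
    exact ⟨hv.1, hv.2.trans hTJ⟩
  · calc 50 * (M K : ℝ) * ((T * 2 ^ j : ℕ) : ℝ) * #{v | T * 2 ^ j < d v}
        = 50 * (M K : ℝ) * (((T * 2 ^ j : ℕ) : ℝ) * #{v | T * 2 ^ j < d v}) := by ring
      _ ≤ k := hlev

open Classical in
theorem sum_ncard_neighborSet {V : Type} [Fintype V] (G : SimpleGraph V) :
    ∑ v, ((G.neighborSet v).ncard : ℝ) = 2 * G.edgeSet.ncard := by
  have h1 := G.sum_degrees_eq_twice_card_edges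
  have h2 : ∀ v, (G.neighborSet v).ncard = G.degree v := by
    intro v
    rw [Set.ncard_eq_toFinset_card' (G.neighborSet v)]
    rfl
  have h3 : G.edgeSet.ncard = #G.edgeFinset := by
    rw [← SimpleGraph.coe_edgeFinset, Set.ncard_coe_finset]
  rw [h3]
  simp only [h2]
  exact_mod_cast h1

open Classical in
/-- **Thresholds** for graphs with at most `C k` edges, `k` the number of vertices. -/
theorem thr (C : ℕ) (θ : ℝ) (hθ : 0 < θ) (M D : ℕ → ℕ) (K0 : ℕ) :
    ∃ Kmax : ℕ, ∀ (V : Type) [Fintype V] (G : SimpleGraph V),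
      G.edgeSet.ncard ≤ C * Fintype.card V →
      ∃ K t : ℕ, K0 ≤ K ∧ K < t ∧ D K ≤ t ∧ t ≤ Kmax ∧
        ∑ v with K < (G.neighborSet v).ncard ∧ (G.neighborSet v).ncard ≤ t,
          ((G.neighborSet v).ncard : ℝ) ≤ θ * Fintype.card V ∧
        50 * (M K : ℝ) * t * #{v | t < (G.neighborSet v).ncard} ≤ Fintype.card V := by
  obtain ⟨Kmax, h⟩ := thr_abs C θ hθ M D K0
  refine ⟨Kmax, fun V _ G hG => h V (fun v => (G.neighborSet v).ncard) (Fintype.card V)
    (Nat.cast_nonneg _) ?_⟩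
  rw [sum_ncard_neighborSet]
  have : (G.edgeSet.ncard : ℝ) ≤ C * Fintype.card V := by exact_mod_cast hG
  linarith

end Pool.Agent.T6A
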