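import Pool.Agent.T6A.Core2
import Pool.Agent.Sid84.Main
import Pool.Agent.SD95.Out

/-!
# The top level for all graphs (MP_c6effb_co, round 2): reduction to the core

From the core statement `Core2` (more than `7 k / 5` edges, all degrees large, induction hypothesis
with a constant loss for all smaller pairs) the inequality `R(3, G) ≤ k + m` follows for ALL graphs
`G` with `k ≥ k₀` vertices: first `R(3, G) ≤ k + m + C₀` for all graphs by induction over all pairs
`(G, H)`, then the inequality itself (with `H` fixed).
-/

set_option autoImplicit false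
set_option linter.unusedSectionVars false

open Finset

namespace Pool.Agent.T6A

section lemmas

variable {V W : Type} [Fintype V] [Fintype W]

/-- Connected graphs with at most `7 k / 5` edges. -/
theorem emb_seven {G : SimpleGraph V} (hG : G.Connected)
    (hm : 5 * G.edgeSet.ncard ≤ 7 * Fintype.card V) {H : SimpleGraph W} (hH : H.CliqueFree 3)
    (hn : Fintype.card V + G.edgeSet.ncard ≤ Fintype.card W) : Emb G H := by
  classical
  have := hG.nonempty
  have hpos : 0 < Fintype.card V := Fintype.card_pos
  have : Nonempty W := Fintype.card_pos_iff.1 (by omega)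
  have hb : Pool.Agent.SD95.Bnd G univ (Fintype.card W) := by
    refine ⟨by rw [Pool.Agent.SD95.E2_univ, card_univ]; omega, fun U _ => ?_⟩
    rw [Pool.Agent.SD95.E2_eq]
    rcases U.eq_empty_or_nonempty with rfl | hne
    · have h0 := Pool.Agent.SD95.E2_eq G (∅ : Finset V)
      have h1 : Pool.Agent.Sid86.E2 G (∅ : Finset V) = 0 := by simp [Pool.Agent.Sid86.E2]
      omega
    · have := Pool.Agent.SD95.conn_edges hG U hne
      omega
  obtain ⟨f, hf1, hf2⟩ := Pool.Agent.SD95.arr_of_bnd G _ univ rfl _ hb W H
    (fun a b c hab hbc hac => hH {a, b, c}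
      (SimpleGraph.is3Clique_iff.2 ⟨a, b, c, hab, hac, hbc, rfl⟩)) le_rfl
  exact ⟨f, fun x y hxy => hf1 (by simp) (by simp) hxy,
    fun u v huv => hf2 u (mem_univ _) v (mem_univ _) huv⟩

omit [Fintype V] [Fintype W] in
/-- Two parts without edges between them. -/
theorem emb_union {G : SimpleGraph V} {H : SimpleGraph W} (s : Finset V)
    (hs : ∀ x ∈ s, ∀ y, y ∉ s → ¬ G.Adj x y) (f : {v | v ∈ s} → W) (hf : Function.Injective f)
    (hfa : ∀ u v, (G.induce {v | v ∈ s}).Adj u v → ¬ H.Adj (f u) (f v)) (Z : Finset W)
    (hZ : ∀ v, f v ∈ Z)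
    (h2 : Emb (G.induce {v | v ∉ s}) (H.induce {w | w ∉ Z})) : Emb G H := by
  classical
  obtain ⟨g, hg, hga⟩ := h2
  have hne : ∀ a b, f a ≠ (g b : W) := fun a b h => (g b).2 (h ▸ hZ a)
  refine ⟨fun v => if h : v ∈ s then f ⟨v, h⟩ else (g ⟨v, h⟩ : W), ?_, ?_⟩
  · intro a b hab
    by_cases ha : a ∈ s <;> by_cases hb : b ∈ s
    · simp only [ha, hb, dif_pos] at hab
      exact congrArg Subtype.val (hf hab)
    · simp only [ha, hb, dif_pos, dif_neg, not_false_eq_true] at hab
      exact absurd hab (hne _ _)
    · simp only [ha, hb, dif_pos, dif_neg, not_false_eq_true] at hab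
      exact absurd hab.symm (hne _ _)
    · simp only [ha, hb, dif_neg, not_false_eq_true] at hab
      exact congrArg Subtype.val (hg (Subtype.ext hab))
  · intro a b hab
    by_cases ha : a ∈ s <;> by_cases hb : b ∈ s
    · simp only [ha, hb, dif_pos]
      exact hfa ⟨a, ha⟩ ⟨b, hb⟩ hab
    · exact absurd hab (hs a ha b hb)
    · exact absurd hab.symm (hs b hb a ha)
    · simp only [ha, hb, dif_neg, not_false_eq_true]
      exact hga ⟨a, ha⟩ ⟨b, hb⟩ hab

/-- The numbers of edges of the two parts. -/
theorem ncard_edges_split {G : SimpleGraph V} (s : Finset V)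
    (hs : ∀ x ∈ s, ∀ y, y ∉ s → ¬ G.Adj x y) :
    (G.induce {v | v ∈ s}).edgeSet.ncard + (G.induce {v | v ∉ s}).edgeSet.ncard
      = G.edgeSet.ncard := by
  classical
  have hinj1 : Function.Injective (Sym2.map ((↑) : {v | v ∈ s} → V)) :=
    Sym2.map.injective Subtype.val_injective
  have hinj2 : Function.Injective (Sym2.map ((↑) : {v | v ∉ s} → V)) :=
    Sym2.map.injective Subtype.val_injective
  rw [← Set.ncard_image_of_injective _ hinj1, ← Set.ncard_image_of_injective _ hinj2,
    ← Set.ncard_union_eq _ (Set.toFinite _) (Set.toFinite _)]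
  · congr 1
    ext e
    induction e using Sym2.ind with
    | _ a b =>
      simp only [Set.mem_union, Set.mem_image]
      constructor
      · rintro (⟨e, he, hea⟩ | ⟨e, he, hea⟩)
        · induction e using Sym2.ind with
          | _ c d =>
            rw [Sym2.map_mk] at hea
            rw [← hea]
            simpa using he
        · induction e using Sym2.ind with
          | _ c d =>
            rw [Sym2.map_mk] at hea
            rw [← hea]
            simpa using he
      · intro hab
        rw [SimpleGraph.mem_edgeSet] at hab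
        by_cases ha : a ∈ s
        · have hb : b ∈ s := by
            by_contra hb
            exact hs a ha b hb hab
          exact Or.inl ⟨s(⟨a, ha⟩, ⟨b, hb⟩), by simpa using hab, by simp⟩
        · have hb : b ∉ s := by
            intro hb
            exact hs b hb a ha hab.symm
          exact Or.inr ⟨s(⟨a, ha⟩, ⟨b, hb⟩), by simpa using hab, by simp⟩
  · rw [Set.disjoint_left]
    rintro _ ⟨e, _, rfl⟩ ⟨e', _, he'⟩
    induction e using Sym2.ind with
    | _ a b =>
      induction e' using Sym2.ind with
      | _ c d =>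
        rw [Sym2.map_mk, Sym2.map_mk, Sym2.eq_iff] at he'
        rcases he' with h | h
        · exact c.2 (h.1 ▸ a.2)
        · exact c.2 (h.1 ▸ b.2)

theorem card_notMem (s : Finset V) (inst : Fintype {v | v ∉ s}) :
    @Fintype.card {v | v ∉ s} inst + #s = Fintype.card V := by
  classical
  have h1 : @Fintype.card {v | v ∉ s} inst = #(univ \ s) := by
    rw [← Fintype.card_coe]
    exact Fintype.card_congr (Equiv.subtypeEquivRight fun v => by simp)
  rw [h1, card_univ_sdiff]
  have := card_le_univ s
  omega

omit [Fintype V] in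
theorem card_mem (s : Finset V) (inst : Fintype {v | v ∈ s}) :
    @Fintype.card {v | v ∈ s} inst = #s := by
  classical
  rw [← Fintype.card_coe]
  exact Fintype.card_congr (Equiv.subtypeEquivRight fun v => by simp)

omit [Fintype W] in
theorem cliqueFree_induce {H : SimpleGraph W} (hH : H.CliqueFree 3) (s : Set W) :
    (H.induce s).CliqueFree 3 :=
  hH.comap ⟨(SimpleGraph.Embedding.induce s).toCopy⟩

/-- A graph which is not connected has two parts without edges between them. -/
theorem exists_split {G : SimpleGraph V} [Nonempty V] (hG : ¬ G.Connected) :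
    ∃ s : Finset V, s.Nonempty ∧ (∃ y, y ∉ s) ∧ ∀ x ∈ s, ∀ y, y ∉ s → ¬ G.Adj x y := by
  classical
  have h1 : ¬ G.Preconnected := fun h => hG ⟨h⟩
  unfold SimpleGraph.Preconnected at h1
  push Not at h1
  obtain ⟨u, v, huv⟩ := h1
  refine ⟨univ.filter fun x => G.Reachable u x, ⟨u, by simp⟩, ⟨v, by simpa using huv⟩, ?_⟩
  intro x hx y hy hxy
  simp only [mem_filter, mem_univ, true_and] at hx hy
  exact hy (hx.trans hxy.reachable)

end lemmas

/-- **Step 1**: the inequality with a constant loss, for all graphs. -/
theorem step_one (hcore : Core2) :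
    ∃ C₀ : ℕ, ∀ (n : ℕ) (V : Type) [Fintype V] (G : SimpleGraph V), Fintype.card V = n →
      ∀ (W : Type) [Fintype W] (H : SimpleGraph W), H.CliqueFree 3 →
      n + G.edgeSet.ncard + C₀ ≤ Fintype.card W → Emb G H := by
  classical
  obtain ⟨C, _, hC⟩ := Pool.Agent.Sid84.ramsey_eps 1 one_pos
  obtain ⟨N₀, hN⟩ := hcore ⌈C⌉₊ 0
  refine ⟨N₀, fun n => ?_⟩
  induction n using Nat.strong_induction_on with
  | _ n ih =>
    intro V _ G hV W _ H hH hW
    obtain ⟨I, hI⟩ := H.maximumIndepSet_exists
    have hmax : ∀ J : Finset W, H.IsIndepSet (J : Set W) → #J ≤ #I := fun J hJ => hI.maximum J hJ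
    have hdeg : ∀ x : W, (H.neighborSet x).ncard ≤ #I := ncard_neighborSet_le hH hmax
    by_cases h1 : Fintype.card V ≤ #I
    · exact emb_of_indep I hI.isIndepSet h1
    push Not at h1
    by_cases h2 : ∃ v : V, (G.neighborSet v).ncard * #I + Fintype.card V ≤ Fintype.card W
    · obtain ⟨v, hv⟩ := h2
      have hpos : 0 < Fintype.card V := by omega
      refine emb_extend v hdeg hv (ih (n - 1) (by omega) _ _ ?_ W H hH ?_)
      · rw [card_ne v, hV]
      · have := ncard_edgeSet_induce_le G {u | u ≠ v}
        omega
    push Not at h2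
    by_cases h3 : ⌈C⌉₊ * Fintype.card V ≤ G.edgeSet.ncard
    · refine hC _ V H G hH ?_ ?_
      · rw [one_mul]
        exact_mod_cast (by omega : G.edgeSet.ncard ≤ Fintype.card W)
      · have e1 : C * (Fintype.card V : ℝ) ≤ ((⌈C⌉₊ * Fintype.card V : ℕ) : ℝ) := by
          push_cast
          exact mul_le_mul_of_nonneg_right (Nat.le_ceil C) (Nat.cast_nonneg _)
        refine e1.trans ?_
        exact_mod_cast (by omega : ⌈C⌉₊ * Fintype.card V ≤ Fintype.card W)
    push Not at h3
    have hne : Nonempty V := Fintype.card_pos_iff.1 (by omega)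
    by_cases h4 : G.Connected
    swap
    · -- two parts
      obtain ⟨s, hs0, ⟨y, hy⟩, hs⟩ := exists_split h4
      have hsplit := ncard_edges_split s hs
      have hc1 := card_mem s inferInstance
      have hc2 := card_notMem s inferInstance
      have hs1 : 0 < #s := card_pos.2 hs0
      have hs2 : #s < Fintype.card V := by
        rw [← card_univ]
        exact card_lt_card ⟨subset_univ _, fun h => hy (h (mem_univ y))⟩
      obtain ⟨f, hf, hfa⟩ := ih #s (by omega) _ (G.induce {v | v ∈ s}) hc1 W H hH (by omega)
      have hZc : #(univ.image f) = #s := by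
        rw [card_image_of_injective _ hf, card_univ, hc1]
      have hc3 := card_notMem (univ.image f) inferInstance
      refine emb_union s hs f hf hfa (univ.image f) (fun v => mem_image_of_mem f (mem_univ v)) ?_
      refine ih (n - #s) (by omega) _ _ (by omega) _ _ (cliqueFree_induce hH _) (by omega)
    by_cases h5 : 5 * G.edgeSet.ncard ≤ 7 * Fintype.card V
    · exact emb_seven h4 h5 hH (by omega)
    push Not at h5
    refine hN W V H G I (by omega) hH (by omega) h3.le h5 hI.isIndepSet hmax h1
      (fun v => by have := h2 v; omega) fun S Z hS hle => ?_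
    have hc2 := card_notMem S inferInstance
    have hc3 := card_notMem Z inferInstance
    have hS' : 0 < #S := card_pos.2 hS
    exact ih (n - #S) (by omega) _ _ (by omega) _ _ (cliqueFree_induce hH _) (by omega)

/-- **Step 2**: no loss, for large graphs `H`. -/
theorem step_two (hcore : Core2) :
    ∃ N₁ : ℕ, ∀ (W : Type) [Fintype W] (H : SimpleGraph W), H.CliqueFree 3 →
      N₁ ≤ Fintype.card W → ∀ (n : ℕ) (V : Type) [Fintype V] (G : SimpleGraph V),
      Fintype.card V = n → n + G.edgeSet.ncard ≤ Fintype.card W → Emb G H := by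
  classical
  obtain ⟨C₀, hstep⟩ := step_one hcore
  obtain ⟨C, _, hC⟩ := Pool.Agent.Sid84.ramsey_eps 1 one_pos
  obtain ⟨N₀, hN⟩ := hcore ⌈C⌉₊ C₀
  refine ⟨N₀ + (4 * C₀ + 4) * (4 * C₀ + 5), fun W _ H hH hW n => ?_⟩
  obtain ⟨I, hI⟩ := H.maximumIndepSet_exists
  have hmax : ∀ J : Finset W, H.IsIndepSet (J : Set W) → #J ≤ #I := fun J hJ => hI.maximum J hJ
  have hdeg : ∀ x : W, (H.neighborSet x).ncard ≤ #I := ncard_neighborSet_le hH hmax
  have hIbig : 4 * C₀ + 4 ≤ #I := by
    by_contra hcon
    push Not at hcon
    have h1 := Pool.Agent.Sid84.card_le_indep H I #I hI rfl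
      (fun z => Pool.Agent.Sid84.deg_le H hH I hI z)
    have h2 : #I * (#I + 1) ≤ (4 * C₀ + 3) * (4 * C₀ + 4) :=
      Nat.mul_le_mul (by omega) (by omega)
    nlinarith
  induction n using Nat.strong_induction_on with
  | _ n ih =>
    intro V _ G hV hn
    by_cases h1 : Fintype.card V ≤ #I
    · exact emb_of_indep I hI.isIndepSet h1
    push Not at h1
    by_cases h2 : ∃ v : V, (G.neighborSet v).ncard * #I + Fintype.card V ≤ Fintype.card W
    · obtain ⟨v, hv⟩ := h2
      have hpos : 0 < Fintype.card V := by omega
      refine emb_extend v hdeg hv (ih (n - 1) (by omega) _ _ ?_ ?_)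
      · rw [card_ne v, hV]
      · have := ncard_edgeSet_induce_le G {u | u ≠ v}
        omega
    push Not at h2
    by_cases h3 : ⌈C⌉₊ * Fintype.card V ≤ G.edgeSet.ncard
    · refine hC _ V H G hH ?_ ?_
      · rw [one_mul]
        exact_mod_cast (by omega : G.edgeSet.ncard ≤ Fintype.card W)
      · have e1 : C * (Fintype.card V : ℝ) ≤ ((⌈C⌉₊ * Fintype.card V : ℕ) : ℝ) := by
          push_cast
          exact mul_le_mul_of_nonneg_right (Nat.le_ceil C) (Nat.cast_nonneg _)
        refine e1.trans ?_
        exact_mod_cast (by omega : ⌈C⌉₊ * Fintype.card V ≤ Fintype.card W)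
    push Not at h3
    have hne : Nonempty V := Fintype.card_pos_iff.1 (by omega)
    -- many edges
    have hmany : Fintype.card V ≤ 2 * G.edgeSet.ncard := by
      have h4 := Pool.Agent.Sid84.sum_deg G
      rw [← h4]
      calc Fintype.card V = ∑ _v : V, 1 := by simp
        _ ≤ ∑ v : V, (univ.filter (G.Adj v)).card := by
            refine sum_le_sum fun v _ => ?_
            have h5 := h2 v
            have h6 : (G.neighborSet v).ncard = (univ.filter (G.Adj v)).card := by
              rw [Set.ncard_eq_toFinset_card' (G.neighborSet v)]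
              congr 1
              ext u
              simp
            rw [h6] at h5
            by_contra h7
            have h8 : (univ.filter (G.Adj v)).card = 0 := by omega
            rw [h8] at h5
            omega
    by_cases h4 : G.Connected
    swap
    · -- two parts
      obtain ⟨s, hs0, ⟨y, hy⟩, hs, hsbig⟩ : ∃ s : Finset V, s.Nonempty ∧ (∃ y, y ∉ s) ∧
          (∀ x ∈ s, ∀ y, y ∉ s → ¬ G.Adj x y) ∧ C₀ ≤ (G.induce {v | v ∈ s}).edgeSet.ncard := by
        obtain ⟨s, hs0, ⟨y, hy⟩, hs⟩ := exists_split h4
        have hsplit := ncard_edges_split s hs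
        by_cases h5 : C₀ ≤ (G.induce {v | v ∈ s}).edgeSet.ncard
        · exact ⟨s, hs0, ⟨y, hy⟩, hs, h5⟩
        · obtain ⟨x, hx⟩ := hs0
          refine ⟨univ \ s, ⟨y, by simpa using hy⟩, ⟨x, by simpa using hx⟩, ?_, ?_⟩
          · intro a ha b hb hab
            simp only [mem_sdiff, mem_univ, true_and, not_not] at ha hb
            exact hs b hb a ha hab.symm
          · have h6 : {v | v ∈ univ \ s} = {v | v ∉ s} := by
              ext v
              simp
            rw [h6]
            omega
      have hsplit := ncard_edges_split s hs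
      have hc1 := card_mem s inferInstance
      have hc2 := card_notMem s inferInstance
      have hs1 : 0 < #s := card_pos.2 hs0
      have hs2 : #s < Fintype.card V := by
        rw [← card_univ]
        exact card_lt_card ⟨subset_univ _, fun h => hy (h (mem_univ y))⟩
      obtain ⟨f, hf, hfa⟩ := ih #s (by omega) _ (G.induce {v | v ∈ s}) hc1 (by omega)
      have hZc : #(univ.image f) = #s := by
        rw [card_image_of_injective _ hf, card_univ, hc1]
      have hc3 := card_notMem (univ.image f) inferInstance
      refine emb_union s hs f hf hfa (univ.image f) (fun v => mem_image_of_mem f (mem_univ v)) ?_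
      exact hstep (n - #s) _ _ (by omega) _ _ (cliqueFree_induce hH _) (by omega)
    by_cases h5 : 5 * G.edgeSet.ncard ≤ 7 * Fintype.card V
    · exact emb_seven h4 h5 hH (by omega)
    push Not at h5
    refine hN W V H G I (by omega) hH (by omega) h3.le h5 hI.isIndepSet hmax h1
      (fun v => by have := h2 v; omega) fun S Z hS hle => ?_
    have hc2 := card_notMem S inferInstance
    have hc3 := card_notMem Z inferInstance
    have hS' : 0 < #S := card_pos.2 hS
    exact hstep (n - #S) _ _ (by omega) _ _ (cliqueFree_induce hH _) (by omega)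

/-- **The top level of round 2**: the core statement implies `R(3, G) ≤ k + m` for all graphs `G`
with `k ≥ k₀` vertices. -/
theorem all_of_core2 (hcore : Core2) :
    ∃ k₀ : ℕ, ∀ (V : Type) [Fintype V] (G : SimpleGraph V), k₀ ≤ Fintype.card V →
      ∀ H : SimpleGraph (Fin (Fintype.card V + G.edgeSet.ncard)),
        ¬ H.CliqueFree 3 ∨ ∃ f : G →g Hᶜ, Function.Injective f := by
  obtain ⟨N₁, hN⟩ := step_two hcore
  refine ⟨N₁, fun V _ G hk H => ?_⟩
  by_cases hH : H.CliqueFree 3
  · right
    obtain ⟨f, hf, hadj⟩ := hN _ H hH (by rw [Fintype.card_fin]; omega) _ V G rfl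
      (by rw [Fintype.card_fin])
    refine ⟨⟨f, ?_⟩, hf⟩
    intro a b hab
    rw [SimpleGraph.compl_adj]
    exact ⟨fun h => hab.ne (hf h), hadj a b hab⟩
  · exact Or.inl hH

end Pool.Agent.T6A
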