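import Pool.Agent.T6A.Chain
import Pool.Agent.T6A.LowEx
import Pool.Agent.T6A.CoreThr
import Pool.Agent.T6A.Core2b
import Pool.Agent.T6A.Top2

/-!
# The final theorems from the certificates (MP_c6effb_co)
-/

set_option autoImplicit false

namespace Pool.Agent.T6A

/-- `R(3, G) ≤ k + m` for all large graphs with `m ≥ Q k` edges, from the certificate for `Q`. -/
theorem main_of_cert {Q : ℝ} (hQ : 0 ≤ Q) (hC : CertStmt Q) :
    ∃ k₀ : ℕ, ∀ (V : Type) [Fintype V] (G : SimpleGraph V), k₀ ≤ Fintype.card V →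
      Q * Fintype.card V ≤ G.edgeSet.ncard →
      ∀ H : SimpleGraph (Fin (Fintype.card V + G.edgeSet.ncard)),
        ¬ H.CliqueFree 3 ∨ ∃ f : G →g Hᶜ, Function.Injective f :=
  main_of_core hQ (core_of_low (low_of_cert hC))

/-- `R(3, G) ≤ k + m` for ALL large graphs, from LIM with threshold. -/
theorem all_of_lim3 (hL : Lim3 (7 / 5)) :
    ∃ k₀ : ℕ, ∀ (V : Type) [Fintype V] (G : SimpleGraph V), k₀ ≤ Fintype.card V →
      ∀ H : SimpleGraph (Fin (Fintype.card V + G.edgeSet.ncard)),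
        ¬ H.CliqueFree 3 ∨ ∃ f : G →g Hᶜ, Function.Injective f :=
  all_of_core2 (core2_of_core3 (core3_of_low3 (low3_of_lim3 sel hL)))

/-- `R(3, G) ≤ k + m` for ALL large graphs, from the certificate with threshold. -/
theorem all_of_cert3 (hC : CertStmt3 (7 / 5)) :
    ∃ k₀ : ℕ, ∀ (V : Type) [Fintype V] (G : SimpleGraph V), k₀ ≤ Fintype.card V →
      ∀ H : SimpleGraph (Fin (Fintype.card V + G.edgeSet.ncard)),
        ¬ H.CliqueFree 3 ∨ ∃ f : G →g Hᶜ, Function.Injective f :=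
  all_of_lim3 (lim3_of ruleStmt hC)

end Pool.Agent.T6A
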