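import Pool.Agent.T6A.Thr4R
import Pool.Agent.T6A.ChainAll

/-!
# All large graphs from the ranges (MP_c6effb_co)
-/

set_option autoImplicit false

namespace Pool.Agent.T6A

/-- The core statement above `Q` from the certificate for `Q`. -/
theorem coreEmb_of_cert {Q : ℝ} (hC : CertStmt Q) : CoreEmb Q :=
  core_of_low (low_of_cert hC)

/-- `R(3, G) ≤ k + m` for ALL large graphs, from the low problem (version 4, with threshold) for total
weights below `1 + Q` and the certificate for `Q`. -/
theorem all_of_low43R {Q : ℝ} (h : LowProb43R (fun _ _ => True) (7 / 5) Q) (hC : CertStmt Q) :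
    ∃ k₀ : ℕ, ∀ (V : Type) [Fintype V] (G : SimpleGraph V), k₀ ≤ Fintype.card V →
      ∀ H : SimpleGraph (Fin (Fintype.card V + G.edgeSet.ncard)),
        ¬ H.CliqueFree 3 ∨ ∃ f : G →g Hᶜ, Function.Injective f :=
  all_of_ranges (core3R_of_low4 h) (coreEmb_of_cert hC)

/-- The same with two ranges. -/
theorem all_of_low43R_two {Q Q' : ℝ} (h1 : LowProb43R (fun _ _ => True) (7 / 5) Q)
    (h2 : LowProb43R (fun _ _ => True) Q Q') (hC : CertStmt Q') :
    ∃ k₀ : ℕ, ∀ (V : Type) [Fintype V] (G : SimpleGraph V), k₀ ≤ Fintype.card V →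
      ∀ H : SimpleGraph (Fin (Fintype.card V + G.edgeSet.ncard)),
        ¬ H.CliqueFree 3 ∨ ∃ f : G →g Hᶜ, Function.Injective f :=
  all_of_two_ranges (core3R_of_low4 h1) (core3R_of_low4 h2) (coreEmb_of_cert hC)

end Pool.Agent.T6A
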