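import Pool.Agent.T6A.Reg

/-!
# ALPHA: independent sets of `H` give `F`-independent sets of clusters (MP_c6effb_co)
-/

set_option autoImplicit false

namespace Pool.Agent.T6A

open Finset Classical

variable {W : Type} [Fintype W] {H : SimpleGraph W} {ε : ℝ} {M : ℕ}

/-- Sizes of pieces of disjoint sets. -/
theorem sum_card_inter_le {ι W : Type} [Fintype W] (C : ι → Finset W)
    (hd : ∀ i j, i ≠ j → Disjoint (C i) (C j)) (S : Finset ι) (U : Finset W) :
    ∑ i ∈ S, ((C i ∩ U).card : ℝ) ≤ U.card := by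
  have h1 : (S.biUnion fun i => C i ∩ U).card = ∑ i ∈ S, (C i ∩ U).card := by
    refine card_biUnion ?_
    intro i _ j _ hij
    exact (hd i j hij).mono inter_subset_left inter_subset_left
  have h2 : (S.biUnion fun i => C i ∩ U) ⊆ U := biUnion_subset.2 fun i _ => inter_subset_right
  have h3 := card_le_card h2
  rw [h1] at h3
  exact_mod_cast h3

/-- **ALPHA.** The clusters which contain many vertices of an independent set `I` of `H` form an
`F`-independent set `S`, and up to `2 ε |W|` vertices `I` lies in the union of `S`. `U` is an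
arbitrary set of used vertices. -/
theorem alpha (X : Clus H ε M) (hε : 0 ≤ ε) (I : Finset W) (hI : H.IsIndepSet (I : Set W))
    (U : Finset W) :
    ∃ S : Finset X.ι, (∀ a ∈ S, ∀ a' ∈ S, ¬ X.F.Adj a a') ∧
      (I.card : ℝ) ≤ ∑ i ∈ S, ((X.C i \ U).card : ℝ) + U.card + 2 * ε * Fintype.card W := by
  let _ := X.ft
  refine ⟨univ.filter fun i => ε * (X.C i).card ≤ ((X.C i ∩ I).card : ℝ), ?_, ?_⟩
  · intro a ha a' ha' hadj
    rw [mem_filter] at ha ha'
    obtain ⟨x, hx, y, hy, hxy⟩ := X.dense a a' hadj (X.C a ∩ I) inter_subset_left (X.C a' ∩ I)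
      inter_subset_left ha.2 ha'.2
    exact hI (mem_of_mem_inter_right hx) (mem_of_mem_inter_right hy) hxy.ne hxy
  · obtain ⟨S, hS⟩ : ∃ S : Finset X.ι,
      S = univ.filter fun i => ε * (X.C i).card ≤ ((X.C i ∩ I).card : ℝ) := ⟨_, rfl⟩
    rw [← hS]
    obtain ⟨T, hT⟩ : ∃ T : Finset W, T = univ.biUnion X.C := ⟨_, rfl⟩
    have hTc : (T.card : ℝ) = ∑ i, ((X.C i).card : ℝ) := by
      rw [hT, card_biUnion fun i _ j _ hij => X.disj i j hij]
      push_cast
      rfl
    have hTN : (T.card : ℝ) ≤ Fintype.card W := by exact_mod_cast card_le_univ T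
    have h1 : ((Tᶜ).card : ℝ) ≤ ε * Fintype.card W := by
      have h2 : T.card + (Tᶜ).card = Fintype.card W := card_add_card_compl T
      have h3 : (T.card : ℝ) + (Tᶜ).card = Fintype.card W := by exact_mod_cast h2
      have h4 := X.tot
      rw [← hTc] at h4
      linarith
    have h2 : I ⊆ Tᶜ ∪ univ.biUnion (fun i => X.C i ∩ I) := by
      intro x hx
      rw [mem_union, mem_compl, hT, mem_biUnion, mem_biUnion]
      by_cases h : ∃ i ∈ (univ : Finset X.ι), x ∈ X.C i
      · obtain ⟨i, hi, hxi⟩ := h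
        exact Or.inr ⟨i, hi, mem_inter.2 ⟨hxi, hx⟩⟩
      · exact Or.inl h
    have h3 : (I.card : ℝ) ≤ (Tᶜ).card + ∑ i, ((X.C i ∩ I).card : ℝ) := by
      have h4 := (card_le_card h2).trans ((card_union_le _ _).trans
        (Nat.add_le_add_left card_biUnion_le _))
      exact_mod_cast h4
    have h4 : ∑ i, ((X.C i ∩ I).card : ℝ) = ∑ i ∈ S, ((X.C i ∩ I).card : ℝ) +
        ∑ i ∈ univ.filter (fun i => ¬ ε * (X.C i).card ≤ ((X.C i ∩ I).card : ℝ)),
          ((X.C i ∩ I).card : ℝ) := by
      rw [hS]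
      exact (sum_filter_add_sum_filter_not _ _ _).symm
    have h5 : ∑ i ∈ univ.filter (fun i => ¬ ε * (X.C i).card ≤ ((X.C i ∩ I).card : ℝ)),
        ((X.C i ∩ I).card : ℝ) ≤ ε * Fintype.card W := by
      calc _ ≤ ∑ i ∈ univ.filter (fun i => ¬ ε * (X.C i).card ≤ ((X.C i ∩ I).card : ℝ)),
            ε * ((X.C i).card : ℝ) := by
            refine sum_le_sum fun i hi => ?_
            rw [mem_filter, not_le] at hi
            exact hi.2.le
        _ ≤ ∑ i, ε * ((X.C i).card : ℝ) :=
            sum_le_sum_of_subset_of_nonneg (filter_subset _ _) fun i _ _ => by positivity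
        _ = ε * T.card := by rw [← mul_sum, hTc]
        _ ≤ _ := by gcongr
    have h6 : ∑ i ∈ S, ((X.C i ∩ I).card : ℝ) ≤ ∑ i ∈ S, ((X.C i \ U).card : ℝ) + U.card := by
      have h7 : ∑ i ∈ S, ((X.C i ∩ I).card : ℝ) ≤
          ∑ i ∈ S, (((X.C i \ U).card : ℝ) + ((X.C i ∩ U).card : ℝ)) := by
        refine sum_le_sum fun i _ => ?_
        have h8 : (X.C i ∩ I).card ≤ (X.C i).card := card_le_card inter_subset_left
        have h9 : (X.C i \ U).card + (X.C i ∩ U).card = (X.C i).card :=
          card_sdiff_add_card_inter _ _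
        have : (X.C i ∩ I).card ≤ (X.C i \ U).card + (X.C i ∩ U).card := by omega
        exact_mod_cast this
      rw [sum_add_distrib] at h7
      have := sum_card_inter_le X.C X.disj S U
      linarith
    linarith

end Pool.Agent.T6A
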