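import Pool.Agent.T6A.Bern

/-!
# Polynomial inequalities under polynomial hypotheses (MP_c6effb_co)

`Tr` = certificates for `0 ≤ e` on a box under the hypotheses `0 ≤ h` (`h ∈ hs`): bisection of the
box, and at every leaf either `0 ≤ e - ∑ c_j h_j` (kernel-checked Bernstein coefficients) or a
hypothesis which fails on the leaf. `Tr.sound`.
-/

set_option autoImplicit false

namespace Pool.Agent.T6A.Bern

/-- `e - ∑ (a_j / b_j) h_j` -/
def comb (e : Ex) : List Ex → List (ℕ × ℕ) → Ex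
  | h :: hs, c :: cs => comb (Ex.sub e (Ex.mul (Ex.q (Int.ofNat c.1) c.2) h)) hs cs
  | _, _ => e

theorem comb_le : ∀ (hs : List Ex) (cs : List (ℕ × ℕ)) (e : Ex) (ρ : ℕ → ℝ),
    (∀ h ∈ hs, 0 ≤ h.ev ρ) → (comb e hs cs).ev ρ ≤ e.ev ρ
  | [], cs, e, ρ, _ => by simp [comb]
  | h :: hs, [], e, ρ, _ => by simp [comb]
  | h :: hs, c :: cs, e, ρ, H => by
    rw [comb]
    refine (comb_le hs cs _ ρ fun h' hh => H h' (List.mem_cons_of_mem _ hh)).trans ?_
    have h1 : 0 ≤ h.ev ρ := H h List.mem_cons_self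
    simp only [Ex.ev]
    have h2 : 0 ≤ ((Int.ofNat c.1 : ℤ) : ℝ) / (c.2 : ℝ) * h.ev ρ := by
      have : ((Int.ofNat c.1 : ℤ) : ℝ) = (c.1 : ℝ) := rfl
      rw [this]
      positivity
    linarith

/-- Certificate trees. -/
inductive Tr : Type
  | lf (c : List (ℕ × ℕ)) : Tr
  | dead (j : ℕ) : Tr
  | sp (i : ℕ) (l r : Tr) : Tr

/-- `- h - 10⁻⁹` -/
def neg1 (h : Ex) : Ex := Ex.sub (Ex.q (-1) 1000000000) h

/-- The check of a tree; `fuel` = depth of the automatic bisection at the leaves. -/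
def Tr.chk (fuel : ℕ) (hs : List Ex) (e : Ex) : Tr → List Iv → Bool
  | Tr.lf c, box => Bern.chk fuel (comb e hs c) box
  | Tr.dead j, box => match hs[j]? with
    | some h => Bern.chk fuel (neg1 h) box
    | none => false
  | Tr.sp i l r, box => okB box && (Tr.chk fuel hs e l (lft i box) && Tr.chk fuel hs e r (rgt i box))

theorem Tr.sound {fuel : ℕ} {hs : List Ex} {e : Ex} : ∀ (t : Tr) (box : List Iv),
    t.chk fuel hs e box = true → ∀ ρ : ℕ → ℝ, InB box ρ → (∀ h ∈ hs, 0 ≤ h.ev ρ) → 0 ≤ e.ev ρ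
  | Tr.lf c, box, h, ρ, hρ, H => (Bern.sound h hρ).trans (comb_le hs c e ρ H)
  | Tr.dead j, box, h, ρ, hρ, H => by
    rw [Tr.chk] at h
    cases hj : hs[j]? with
    | none => rw [hj] at h; exact absurd h (by simp)
    | some g =>
      rw [hj] at h
      have h1 := Bern.sound h hρ
      have h2 := H g (List.mem_of_getElem? hj)
      simp only [neg1, Ex.ev] at h1
      norm_num at h1
      exfalso
      linarith
  | Tr.sp i l r, box, h, ρ, hρ, H => by
    rw [Tr.chk, Bool.and_eq_true, Bool.and_eq_true] at h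
    rcases InB_split i box h.1 ρ hρ with h3 | h3
    · exact Tr.sound l _ h.2.1 ρ h3 H
    · exact Tr.sound r _ h.2.2 ρ h3 H

end Pool.Agent.T6A.Bern
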