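import Pool.Agent.T6A.World

/-!
# The union bound for the bad events (MP_c6effb_co)

The coordinate of a vertex is `x : Om`, `π x` is its cluster in `A` (law `μ`), `pr x y` means that
`y` is one of its proposals; `ρ v y` bounds the expected number of proposals `y` of `v`. `b ω v` is
any rule which chooses a proposal of `v`.
-/

set_option autoImplicit false
set_option linter.unusedSectionVars false

open Finset

namespace Pool.Agent.T6A

namespace BB

noncomputable section

/-- The indicator of `P`. -/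
def ind (P : Prop) : ℝ := @ite _ P (Classical.propDecidable P) 1 0

theorem ind_true {P : Prop} (h : P) : ind P = 1 := by unfold ind; exact if_pos h

theorem ind_false {P : Prop} (h : ¬ P) : ind P = 0 := by unfold ind; exact if_neg h

theorem ind_nonneg (P : Prop) : 0 ≤ ind P := by
  by_cases h : P
  · rw [ind_true h]; exact zero_le_one
  · rw [ind_false h]

theorem ind_le_one (P : Prop) : ind P ≤ 1 := by
  by_cases h : P
  · rw [ind_true h]
  · rw [ind_false h]; exact zero_le_one

variable {V ι Om : Type} [Fintype V] [DecidableEq V] [Fintype ι] [Fintype Om]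

/-- What is used of the law of one vertex. -/
structure Marg (p : V → Om → ℝ) (π : Om → ι) (pr : Om → ι → Prop) (μ : ι → ℝ) (ρ : V → ι → ℝ)
    (R : ℝ) : Prop where
  law : IsLaw p
  mu0 : ∀ i, 0 ≤ μ i
  mu1 : ∑ i, μ i = 1
  m1 : ∀ v i, ∑ x, p v x * ind (π x = i) = μ i
  m2 : ∀ v i y, ∑ x, p v x * ind (π x = i ∧ pr x y) ≤ μ i * ρ v y
  r0 : ∀ v y, 0 ≤ ρ v y
  r1 : ∀ v, ∑ y, ρ v y ≤ R

section main

variable {p : V → Om → ℝ} {π : Om → ι} {pr : Om → ι → Prop} {μ : ι → ℝ} {ρ : V → ι → ℝ} {R : ℝ}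

/-- the expectation of a function of the cluster of a vertex -/
theorem sum_pi (h : Marg p π pr μ ρ R) (v : V) (φ : ι → ℝ) :
    ∑ x, p v x * φ (π x) = ∑ i, μ i * φ i := by
  have e : ∀ x, p v x * φ (π x) = ∑ i, p v x * ind (π x = i) * φ i := by
    intro x
    rw [sum_eq_single (π x)]
    · rw [ind_true rfl, mul_one]
    · intro i _ hi
      rw [ind_false (fun h => hi h.symm), mul_zero, zero_mul]
    · intro h; exact absurd (mem_univ _) h
  rw [sum_congr rfl fun x _ => e x, sum_comm]
  refine sum_congr rfl fun i _ => ?_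
  rw [← sum_mul, h.m1]

/-- the marginal bound for a proposal -/
theorem sum_pr (h : Marg p π pr μ ρ R) (v : V) (y : ι) : ∑ x, p v x * ind (pr x y) ≤ ρ v y := by
  have e : ∀ x, p v x * ind (pr x y) = ∑ i, p v x * ind (π x = i ∧ pr x y) := by
    intro x
    rw [sum_eq_single (π x)]
    · by_cases hx : pr x y
      · rw [ind_true hx, ind_true ⟨rfl, hx⟩]
      · rw [ind_false hx, ind_false (fun h => hx h.2)]
    · intro i _ hi
      rw [ind_false (fun h => hi h.1.symm), mul_zero]
    · intro h; exact absurd (mem_univ _) h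
  rw [sum_congr rfl fun x _ => e x, sum_comm]
  calc ∑ i, ∑ x, p v x * ind (π x = i ∧ pr x y) ≤ ∑ i, μ i * ρ v y :=
        sum_le_sum fun i _ => h.m2 v i y
    _ = ρ v y := by rw [← sum_mul, h.mu1, one_mul]

/-- two independent vertices -/
theorem EE_two (h : Marg p π pr μ ρ R) {v u : V} (hvu : v ≠ u) (φ ψ : Om → ℝ) :
    EE p (fun ω => φ (ω v) * ψ (ω u)) = (∑ x, p v x * φ x) * ∑ x, p u x * ψ x := by
  rw [EE_mul h.law ((depOn_coord v).comp φ) ((depOn_coord u).comp ψ)
    (disjoint_singleton.2 hvu), EE_single h.law v φ, EE_single h.law u ψ]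

/-- three independent vertices -/
theorem EE_three (h : Marg p π pr μ ρ R) {v u w : V} (hvu : v ≠ u) (hvw : v ≠ w) (φ : Om → ℝ)
    (χ : Om → Om → ℝ) :
    EE p (fun ω => φ (ω v) * χ (ω u) (ω w)) =
      (∑ x, p v x * φ x) * EE p (fun ω => χ (ω u) (ω w)) := by
  have hd : DepOn (fun ω : V → Om => χ (ω u) (ω w)) ({u} ∪ {w}) :=
    (depOn_coord u).map₂ (depOn_coord w) χ
  rw [EE_mul h.law ((depOn_coord v).comp φ) hd, EE_single h.law v φ]
  rw [disjoint_singleton_left, mem_union, mem_singleton, mem_singleton]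
  rintro (h | h)
  · exact hvu h
  · exact hvw h

/-- the pair `(π u, π w)` is bad with small probability -/
theorem EE_bad (h : Marg p π pr μ ρ R) {Bd : ι → ι → Prop} {ε₁ : ℝ}
    (hBd : ∀ i, ∑ i', μ i' * ind (Bd i i') ≤ ε₁) {u w : V} (huw : u ≠ w) :
    EE p (fun ω => ind (Bd (π (ω u)) (π (ω w)))) ≤ ε₁ := by
  have e : ∀ ω : V → Om, ind (Bd (π (ω u)) (π (ω w))) =
      ∑ i, ind (π (ω u) = i) * ind (Bd i (π (ω w))) := by
    intro ω
    rw [sum_eq_single (π (ω u))]
    · rw [ind_true rfl, one_mul]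
    · intro i _ hi
      rw [ind_false (fun h => hi h.symm), zero_mul]
    · intro h; exact absurd (mem_univ _) h
  simp only [e]
  rw [EE_sum]
  calc ∑ i, EE p (fun ω => ind (π (ω u) = i) * ind (Bd i (π (ω w))))
      = ∑ i, μ i * ∑ i', μ i' * ind (Bd i i') := by
        refine sum_congr rfl fun i _ => ?_
        rw [EE_two h huw (fun x => ind (π x = i)) (fun x => ind (Bd i (π x))), h.m1,
          sum_pi h w (fun i' => ind (Bd i i'))]
    _ ≤ ∑ i, μ i * ε₁ := sum_le_sum fun i _ => mul_le_mul_of_nonneg_left (hBd i) (h.mu0 i)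
    _ = ε₁ := by rw [← sum_mul, h.mu1, one_mul]

open Classical in
/-- The neighbours of `v`. -/
def nbs (L : Low V ι) (v : V) : Finset V := univ.filter fun u => L.G.Adj v u

theorem mem_nbs {L : Low V ι} {v u : V} : u ∈ nbs L v ↔ L.G.Adj v u := by simp [nbs]

theorem card_nbs (L : Low V ι) (v : V) : #(nbs L v) = L.d v := rfl

/-- **The vertices which are placed at the very end.** -/
theorem zev_le (h : Marg p π pr μ ρ R) {L : Low V ι} {Bd : ι → ι → Prop} {K : ℕ} {ε₁ : ℝ}
    (hK : ∀ v, L.d v ≤ K) (hAv : ∀ u, ∑ i, μ i * ind (i ∉ L.Av u) ≤ ε₁)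
    (hBd : ∀ i, ∑ i', μ i' * ind (Bd i i') ≤ ε₁) (hε : 0 ≤ ε₁) (v : V)
    (f : (V → Om) → ℝ) (h1 : ∀ ω, f ω ≤ 1)
    (h0 : ∀ ω, ¬ zev L Bd (fun ω v => π (ω v)) ω v → f ω ≤ 0) :
    EE p f ≤ ε₁ + K * ε₁ := by
  have hle : ∀ ω, f ω ≤ ind (π (ω v) ∉ L.Av v) + ∑ u ∈ nbs L v, ind (Bd (π (ω v)) (π (ω u))) := by
    intro ω
    have hs : 0 ≤ ∑ u ∈ nbs L v, ind (Bd (π (ω v)) (π (ω u))) :=
      sum_nonneg fun u _ => ind_nonneg _
    by_cases hz : zev L Bd (fun ω v => π (ω v)) ω v
    · rcases hz with hz | ⟨u, hu, hz⟩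
      · have := h1 ω
        rw [ind_true hz]; linarith
      · have hm := single_le_sum (f := fun u => ind (Bd (π (ω v)) (π (ω u))))
          (fun u _ => ind_nonneg _) (mem_nbs.2 hu)
        rw [ind_true hz] at hm
        have := h1 ω
        have := ind_nonneg (π (ω v) ∉ L.Av v)
        linarith
    · have := h0 ω hz
      have := ind_nonneg (π (ω v) ∉ L.Av v)
      linarith
  refine (EE_mono h.law hle).trans ?_
  rw [EE_add, EE_sum]
  refine add_le_add ?_ ?_
  · rw [EE_single h.law v (fun x => ind (π x ∉ L.Av v)), sum_pi h v (fun i => ind (i ∉ L.Av v))]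
    exact hAv v
  · calc ∑ u ∈ nbs L v, EE p (fun ω => ind (Bd (π (ω v)) (π (ω u))))
        ≤ ∑ u ∈ nbs L v, ε₁ :=
          sum_le_sum fun u hu => EE_bad h hBd (L.G.ne_of_adj (mem_nbs.1 hu))
      _ = (L.d v : ℝ) * ε₁ := by rw [sum_const, nsmul_eq_mul, card_nbs]
      _ ≤ K * ε₁ := mul_le_mul_of_nonneg_right (by exact_mod_cast hK v) hε

/-- **The union bound.** -/
theorem bad_le (h : Marg p π pr μ ρ R) {L : Low V ι} {Bd : ι → ι → Prop} {K : ℕ} {ε₁ ε₂ : ℝ}
    (hbs : ∀ i i', Bd i i' → Bd i' i)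
    (hK : ∀ v, L.d v ≤ K) (hAv : ∀ u, ∑ i, μ i * ind (i ∉ L.Av u) ≤ ε₁)
    (hBd : ∀ i, ∑ i', μ i' * ind (Bd i i') ≤ ε₁)
    (hBr : ∀ v i, ∑ i', ρ v i' * ind (Bd i i') ≤ ε₂) (hε : 0 ≤ ε₁) (hε₂ : 0 ≤ ε₂) (hR : 0 ≤ R)
    (b : (V → Om) → V → Option ι) (hb : ∀ ω v y, b ω v = some y → pr (ω v) y) (v : V) (a : ι)
    (f : (V → Om) → ℝ) (h1 : ∀ ω, f ω ≤ 1)
    (h0 : ∀ ω, ¬ (π (ω v) = a ∧ ¬ zev L Bd (fun ω v => π (ω v)) ω v ∧
      badE L Bd (fun ω v => π (ω v)) b ω v) → f ω ≤ 0) :
    EE p f ≤ μ a * (K * (ε₁ + K * ε₁ + R * ε₁ + R * ε₂)) := by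
  classical
  set Fu : V → (V → Om) → ℝ := fun u ω =>
    (ind (π (ω v) = a) * ind (π (ω u) ∉ L.Av u) +
      ∑ w ∈ (nbs L u).erase v, ind (π (ω v) = a) * ind (Bd (π (ω u)) (π (ω w)))) +
    (∑ y, ind (π (ω v) = a ∧ pr (ω v) y) * ind (Bd y (π (ω u))) +
      ∑ y, ∑ y', ind (Bd y y') * (ind (π (ω v) = a ∧ pr (ω v) y) * ind (pr (ω u) y'))) with hFu
  have hFu0 : ∀ u ω, 0 ≤ Fu u ω := by
    intro u ω
    refine add_nonneg (add_nonneg (mul_nonneg (ind_nonneg _) (ind_nonneg _))
      (sum_nonneg fun _ _ => mul_nonneg (ind_nonneg _) (ind_nonneg _)))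
      (add_nonneg (sum_nonneg fun _ _ => mul_nonneg (ind_nonneg _) (ind_nonneg _))
      (sum_nonneg fun _ _ => sum_nonneg fun _ _ => mul_nonneg (ind_nonneg _)
        (mul_nonneg (ind_nonneg _) (ind_nonneg _))))
  have hle : ∀ ω, f ω ≤ ∑ u ∈ nbs L v, Fu u ω := by
    intro ω
    have hs : 0 ≤ ∑ u ∈ nbs L v, Fu u ω := sum_nonneg fun u _ => hFu0 u ω
    by_cases hz : π (ω v) = a ∧ ¬ zev L Bd (fun ω v => π (ω v)) ω v ∧
      badE L Bd (fun ω v => π (ω v)) b ω v
    · obtain ⟨hga, hnz, hbad⟩ := hz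
      have key : ∃ u ∈ nbs L v, 1 ≤ Fu u ω := by
        rcases hbad with hbad | ⟨u, hu, hzu⟩ | ⟨y, hy, u, hu, hbad⟩
        · exact absurd hbad hnz
        · refine ⟨u, mem_nbs.2 hu, ?_⟩
          rcases hzu with hzu | ⟨w, hw, hzu⟩
          · have e1 : ind (π (ω v) = a) * ind (π (ω u) ∉ L.Av u) = 1 := by
              rw [ind_true hga, ind_true hzu, one_mul]
            have e2 : 0 ≤ ∑ w ∈ (nbs L u).erase v, ind (π (ω v) = a) *
                ind (Bd (π (ω u)) (π (ω w))) :=
              sum_nonneg fun _ _ => mul_nonneg (ind_nonneg _) (ind_nonneg _)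
            have e3 : 0 ≤ ∑ y, ind (π (ω v) = a ∧ pr (ω v) y) * ind (Bd y (π (ω u))) +
                ∑ y, ∑ y', ind (Bd y y') * (ind (π (ω v) = a ∧ pr (ω v) y) * ind (pr (ω u) y')) :=
              add_nonneg (sum_nonneg fun _ _ => mul_nonneg (ind_nonneg _) (ind_nonneg _))
                (sum_nonneg fun _ _ => sum_nonneg fun _ _ => mul_nonneg (ind_nonneg _)
                  (mul_nonneg (ind_nonneg _) (ind_nonneg _)))
            simp only [hFu]
            linarith
          · have hwv : w ≠ v := by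
              rintro rfl
              exact hnz (Or.inr ⟨u, hu, hbs _ _ hzu⟩)
            have hm := single_le_sum (f := fun w => ind (π (ω v) = a) *
              ind (Bd (π (ω u)) (π (ω w)))) (fun w _ => mul_nonneg (ind_nonneg _) (ind_nonneg _))
              (mem_erase.2 ⟨hwv, mem_nbs.2 hw⟩)
            have hzu' : Bd (π (ω u)) (π (ω w)) := hzu
            rw [ind_true hga, ind_true hzu', one_mul] at hm
            have e1 : 0 ≤ ind (π (ω v) = a) * ind (π (ω u) ∉ L.Av u) :=
              mul_nonneg (ind_nonneg _) (ind_nonneg _)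
            have e3 : 0 ≤ ∑ y, ind (π (ω v) = a ∧ pr (ω v) y) * ind (Bd y (π (ω u))) +
                ∑ y, ∑ y', ind (Bd y y') * (ind (π (ω v) = a ∧ pr (ω v) y) * ind (pr (ω u) y')) :=
              add_nonneg (sum_nonneg fun _ _ => mul_nonneg (ind_nonneg _) (ind_nonneg _))
                (sum_nonneg fun _ _ => sum_nonneg fun _ _ => mul_nonneg (ind_nonneg _)
                  (mul_nonneg (ind_nonneg _) (ind_nonneg _)))
            simp only [hFu]
            rw [ind_true hga] at e1 ⊢
            linarith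
        · refine ⟨u, mem_nbs.2 hu, ?_⟩
          have hpy := hb ω v y hy
          have e1 : 0 ≤ ind (π (ω v) = a) * ind (π (ω u) ∉ L.Av u) +
              ∑ w ∈ (nbs L u).erase v, ind (π (ω v) = a) * ind (Bd (π (ω u)) (π (ω w))) :=
            add_nonneg (mul_nonneg (ind_nonneg _) (ind_nonneg _))
              (sum_nonneg fun _ _ => mul_nonneg (ind_nonneg _) (ind_nonneg _))
          have e4 : 0 ≤ ∑ y, ind (π (ω v) = a ∧ pr (ω v) y) * ind (Bd y (π (ω u))) :=
            sum_nonneg fun _ _ => mul_nonneg (ind_nonneg _) (ind_nonneg _)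
          have e5 : 0 ≤ ∑ y, ∑ y', ind (Bd y y') *
              (ind (π (ω v) = a ∧ pr (ω v) y) * ind (pr (ω u) y')) :=
            sum_nonneg fun _ _ => sum_nonneg fun _ _ => mul_nonneg (ind_nonneg _)
              (mul_nonneg (ind_nonneg _) (ind_nonneg _))
          rcases hbad with hbad | ⟨y', hy', hbad⟩
          · have hm := single_le_sum (f := fun y => ind (π (ω v) = a ∧ pr (ω v) y) *
              ind (Bd y (π (ω u)))) (fun y _ => mul_nonneg (ind_nonneg _) (ind_nonneg _))
              (mem_univ y)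
            have hbad' : Bd y (π (ω u)) := hbad
            rw [ind_true (⟨hga, hpy⟩ : π (ω v) = a ∧ pr (ω v) y), ind_true hbad', one_mul] at hm
            simp only [hFu]
            linarith
          · have hpy' := hb ω u y' hy'
            have hm := single_le_sum (f := fun y => ∑ y', ind (Bd y y') *
              (ind (π (ω v) = a ∧ pr (ω v) y) * ind (pr (ω u) y')))
              (fun y _ => sum_nonneg fun _ _ => mul_nonneg (ind_nonneg _)
                (mul_nonneg (ind_nonneg _) (ind_nonneg _))) (mem_univ y)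
            have hm' := single_le_sum (f := fun y' => ind (Bd y y') *
              (ind (π (ω v) = a ∧ pr (ω v) y) * ind (pr (ω u) y')))
              (fun y' _ => mul_nonneg (ind_nonneg _)
                (mul_nonneg (ind_nonneg _) (ind_nonneg _))) (mem_univ y')
            rw [ind_true hbad, ind_true (⟨hga, hpy⟩ : π (ω v) = a ∧ pr (ω v) y),
              ind_true hpy', one_mul, one_mul] at hm'
            rw [ind_true (⟨hga, hpy⟩ : π (ω v) = a ∧ pr (ω v) y)] at hm
            have : (1 : ℝ) ≤ ∑ y, ∑ y', ind (Bd y y') *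
                (ind (π (ω v) = a ∧ pr (ω v) y) * ind (pr (ω u) y')) := hm'.trans hm
            simp only [hFu]
            linarith
      obtain ⟨u, hu, hF⟩ := key
      have hm := single_le_sum (f := fun u => Fu u ω) (fun u _ => hFu0 u ω) hu
      exact (h1 ω).trans (hF.trans hm)
    · exact (h0 ω hz).trans hs
  refine (EE_mono h.law hle).trans ?_
  rw [EE_sum]
  have hμa : 0 ≤ μ a := h.mu0 a
  have hone : ∀ u ∈ nbs L v, EE p (Fu u) ≤ μ a * (ε₁ + K * ε₁ + R * ε₁ + R * ε₂) := by
    intro u hu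
    have hvu : v ≠ u := L.G.ne_of_adj (mem_nbs.1 hu)
    simp only [hFu]
    rw [EE_add, EE_add, EE_add, EE_sum, EE_sum, EE_sum]
    have t1 : EE p (fun ω => ind (π (ω v) = a) * ind (π (ω u) ∉ L.Av u)) ≤ μ a * ε₁ := by
      rw [EE_two h hvu (fun x => ind (π x = a)) (fun x => ind (π x ∉ L.Av u)), h.m1,
        sum_pi h u (fun i => ind (i ∉ L.Av u))]
      exact mul_le_mul_of_nonneg_left (hAv u) hμa
    have t2 : ∑ w ∈ (nbs L u).erase v, EE p (fun ω => ind (π (ω v) = a) *
        ind (Bd (π (ω u)) (π (ω w)))) ≤ μ a * (K * ε₁) := by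
      calc ∑ w ∈ (nbs L u).erase v, EE p (fun ω => ind (π (ω v) = a) *
            ind (Bd (π (ω u)) (π (ω w))))
          ≤ ∑ w ∈ (nbs L u).erase v, μ a * ε₁ := by
            refine sum_le_sum fun w hw => ?_
            rw [mem_erase] at hw
            have huw : u ≠ w := L.G.ne_of_adj (mem_nbs.1 hw.2)
            rw [EE_three h hvu hw.1.symm (fun x => ind (π x = a))
              (fun x y => ind (Bd (π x) (π y))), h.m1]
            exact mul_le_mul_of_nonneg_left (EE_bad h hBd huw) hμa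
        _ = (#((nbs L u).erase v) : ℝ) * (μ a * ε₁) := by rw [sum_const, nsmul_eq_mul]
        _ ≤ K * (μ a * ε₁) := by
            refine mul_le_mul_of_nonneg_right ?_ (mul_nonneg hμa hε)
            have := (card_erase_le (s := nbs L u) (a := v)).trans ((card_nbs L u).le.trans (hK u))
            exact_mod_cast this
        _ = μ a * (K * ε₁) := by ring
    have t3 : ∑ y, EE p (fun ω => ind (π (ω v) = a ∧ pr (ω v) y) * ind (Bd y (π (ω u)))) ≤
        μ a * (R * ε₁) := by
      calc ∑ y, EE p (fun ω => ind (π (ω v) = a ∧ pr (ω v) y) * ind (Bd y (π (ω u))))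
          ≤ ∑ y, μ a * ρ v y * ε₁ := by
            refine sum_le_sum fun y _ => ?_
            rw [EE_two h hvu (fun x => ind (π x = a ∧ pr x y)) (fun x => ind (Bd y (π x))),
              sum_pi h u (fun i => ind (Bd y i))]
            exact mul_le_mul (h.m2 v a y) (hBd y)
              (sum_nonneg fun i _ => mul_nonneg (h.mu0 i) (ind_nonneg _))
              (mul_nonneg hμa (h.r0 v y))
        _ = μ a * ((∑ y, ρ v y) * ε₁) := by
            rw [sum_mul, mul_sum]
            exact sum_congr rfl fun y _ => by ring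
        _ ≤ μ a * (R * ε₁) := mul_le_mul_of_nonneg_left
            (mul_le_mul_of_nonneg_right (h.r1 v) hε) hμa
    have t4 : ∑ y, EE p (fun ω => ∑ y', ind (Bd y y') *
        (ind (π (ω v) = a ∧ pr (ω v) y) * ind (pr (ω u) y'))) ≤ μ a * (R * ε₂) := by
      calc ∑ y, EE p (fun ω => ∑ y', ind (Bd y y') *
            (ind (π (ω v) = a ∧ pr (ω v) y) * ind (pr (ω u) y')))
          ≤ ∑ y, μ a * ρ v y * ε₂ := by
            refine sum_le_sum fun y _ => ?_
            rw [EE_sum]
            calc ∑ y', EE p (fun ω => ind (Bd y y') *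
                  (ind (π (ω v) = a ∧ pr (ω v) y) * ind (pr (ω u) y')))
                ≤ ∑ y', ind (Bd y y') * (μ a * ρ v y * ρ u y') := by
                  refine sum_le_sum fun y' _ => ?_
                  rw [EE_smul, EE_two h hvu (fun x => ind (π x = a ∧ pr x y))
                    (fun x => ind (pr x y'))]
                  refine mul_le_mul_of_nonneg_left ?_ (ind_nonneg _)
                  exact mul_le_mul (h.m2 v a y) (sum_pr h u y')
                    (sum_nonneg fun x _ => mul_nonneg (h.law.nonneg u x) (ind_nonneg _))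
                    (mul_nonneg hμa (h.r0 v y))
              _ = μ a * ρ v y * ∑ y', ρ u y' * ind (Bd y y') := by
                  rw [mul_sum]
                  exact sum_congr rfl fun y' _ => by ring
              _ ≤ μ a * ρ v y * ε₂ :=
                  mul_le_mul_of_nonneg_left (hBr u y) (mul_nonneg hμa (h.r0 v y))
        _ = μ a * ((∑ y, ρ v y) * ε₂) := by
            rw [sum_mul, mul_sum]
            exact sum_congr rfl fun y _ => by ring
        _ ≤ μ a * (R * ε₂) := mul_le_mul_of_nonneg_left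
            (mul_le_mul_of_nonneg_right (h.r1 v) hε₂) hμa
    calc _ ≤ (μ a * ε₁ + μ a * (K * ε₁)) + (μ a * (R * ε₁) + μ a * (R * ε₂)) :=
          add_le_add (add_le_add t1 t2) (add_le_add t3 t4)
      _ = _ := by ring
  calc ∑ u ∈ nbs L v, EE p (Fu u)
      ≤ ∑ u ∈ nbs L v, μ a * (ε₁ + K * ε₁ + R * ε₁ + R * ε₂) := sum_le_sum hone
    _ = (L.d v : ℝ) * (μ a * (ε₁ + K * ε₁ + R * ε₁ + R * ε₂)) := by
        rw [sum_const, nsmul_eq_mul, card_nbs]
    _ ≤ K * (μ a * (ε₁ + K * ε₁ + R * ε₁ + R * ε₂)) := by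
        refine mul_le_mul_of_nonneg_right (by exact_mod_cast hK v) ?_
        positivity
    _ = _ := by ring

end main

/-! ### The law of the rule -/

/-- `(x, f)` has probability `μ x * ∏ t, q v (f t)`. -/
def rlaw {R : ℕ} (μ : ι → ℝ) (q : V → Option ι → ℝ) : V → ι × (Fin R → Option ι) → ℝ :=
  fun v x => μ x.1 * ∏ t, q v (x.2 t)

theorem sum_prod_law {R : ℕ} {κ : Type} [Fintype κ] (q : Fin R → κ → ℝ) :
    ∑ f : Fin R → κ, ∏ t, q t (f t) = ∏ t, ∑ o, q t o := by
  classical
  have h := Finset.prod_univ_sum (fun _ : Fin R => (univ : Finset κ)) (fun t x => q t x)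
  rw [Fintype.piFinset_univ] at h
  exact h.symm

theorem marg_rule {R : ℕ} {μ : ι → ℝ} {q : V → Option ι → ℝ} (hμ0 : ∀ i, 0 ≤ μ i)
    (hμ1 : ∑ i, μ i = 1) (hq0 : ∀ v o, 0 ≤ q v o) (hq1 : ∀ v, ∑ o, q v o = 1) :
    Marg (rlaw (R := R) μ q) (fun x => x.1) (fun x y => ∃ t, x.2 t = some y) μ
      (fun v y => R * q v (some y)) R := by
  classical
  have hP : ∀ v, ∑ f : Fin R → Option ι, ∏ t, q v (f t) = 1 := by
    intro v
    rw [sum_prod_law (fun _ => q v)]
    simp [hq1]
  have hL : IsLaw (rlaw (R := R) μ q) := by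
    refine ⟨fun v x => mul_nonneg (hμ0 _) (prod_nonneg fun t _ => hq0 _ _), fun v => ?_⟩
    unfold rlaw
    rw [Fintype.sum_prod_type]
    simp only
    rw [sum_congr rfl fun i _ => (mul_sum _ _ _).symm, sum_congr rfl fun i _ => by rw [hP v, mul_one]]
    exact hμ1
  refine ⟨hL, hμ0, hμ1, fun v i => ?_, fun v i y => ?_, fun v y => ?_, fun v => ?_⟩
  · unfold rlaw
    rw [Fintype.sum_prod_type]
    simp only
    rw [sum_eq_single i]
    · rw [ind_true rfl]
      simp only [mul_one]
      rw [← mul_sum, hP v, mul_one]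
    · intro j _ hj
      refine sum_eq_zero fun f _ => ?_
      rw [ind_false hj, mul_zero]
    · intro h; exact absurd (mem_univ _) h
  · have hle : ∀ x : ι × (Fin R → Option ι), ind (x.1 = i ∧ ∃ t, x.2 t = some y) ≤
        ∑ t : Fin R, ind (x.1 = i) * ind (x.2 t = some y) := by
      intro x
      have hs : 0 ≤ ∑ t : Fin R, ind (x.1 = i) * ind (x.2 t = some y) :=
        sum_nonneg fun _ _ => mul_nonneg (ind_nonneg _) (ind_nonneg _)
      by_cases hx : x.1 = i ∧ ∃ t, x.2 t = some y
      · obtain ⟨h1, t, ht⟩ := hx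
        have hm := single_le_sum (f := fun t : Fin R => ind (x.1 = i) * ind (x.2 t = some y))
          (fun t _ => mul_nonneg (ind_nonneg _) (ind_nonneg _)) (mem_univ t)
        rw [ind_true h1, ind_true ht, one_mul] at hm
        rw [ind_true (⟨h1, t, ht⟩ : x.1 = i ∧ ∃ t, x.2 t = some y), ind_true h1]
        exact hm
      · rw [ind_false hx]; exact hs
    have hone : ∀ t : Fin R, ∑ x : ι × (Fin R → Option ι), rlaw μ q v x *
        (ind (x.1 = i) * ind (x.2 t = some y)) = μ i * q v (some y) := by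
      intro t
      unfold rlaw
      rw [Fintype.sum_prod_type]
      simp only
      rw [sum_eq_single i]
      · rw [ind_true rfl]
        have e : ∀ f : Fin R → Option ι, μ i * (∏ t, q v (f t)) * (1 * ind (f t = some y)) =
            μ i * ∏ s, q v (f s) * (if s = t then ind (f s = some y) else 1) := by
          intro f
          rw [prod_mul_distrib, prod_ite_eq' univ t, if_pos (mem_univ t)]
          ring
        rw [sum_congr rfl fun f _ => e f, ← mul_sum,
          sum_prod_law (fun s o => q v o * (if s = t then ind (o = some y) else 1))]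
        congr 1
        rw [prod_eq_single t]
        · simp only [if_true]
          rw [sum_eq_single (some y)]
          · rw [ind_true rfl, mul_one]
          · intro o _ ho
            rw [ind_false ho, mul_zero]
          · intro h; exact absurd (mem_univ _) h
        · intro s _ hs
          simp only [if_neg hs, mul_one]
          exact hq1 v
        · intro h; exact absurd (mem_univ _) h
      · intro j _ hj
        refine sum_eq_zero fun f _ => ?_
        rw [ind_false hj, zero_mul, mul_zero]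
      · intro h; exact absurd (mem_univ _) h
    calc ∑ x, rlaw μ q v x * ind (x.1 = i ∧ ∃ t, x.2 t = some y)
        ≤ ∑ x, rlaw μ q v x * ∑ t : Fin R, ind (x.1 = i) * ind (x.2 t = some y) :=
          sum_le_sum fun x _ => mul_le_mul_of_nonneg_left (hle x) (hL.nonneg v x)
      _ = ∑ t : Fin R, ∑ x, rlaw μ q v x * (ind (x.1 = i) * ind (x.2 t = some y)) := by
          rw [sum_comm]
          exact sum_congr rfl fun x _ => mul_sum _ _ _
      _ = μ i * (R * q v (some y)) := by
          rw [sum_congr rfl fun t _ => hone t, sum_const, card_univ, Fintype.card_fin,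
            nsmul_eq_mul]
          ring
  · exact mul_nonneg (Nat.cast_nonneg _) (hq0 _ _)
  · have h1 : ∑ y, q v (some y) ≤ 1 := by
      have := hq1 v
      rw [Fintype.sum_option] at this
      linarith [hq0 v none]
    calc ∑ y, (R : ℝ) * q v (some y) = R * ∑ y, q v (some y) := by rw [mul_sum]
      _ ≤ R * 1 := mul_le_mul_of_nonneg_left h1 (Nat.cast_nonneg _)
      _ = R := mul_one _

/-! ### The hypotheses from `WorldOK` -/

theorem hAv_of {X : World ι} {L : Low V ι} {Bd : ι → ι → Prop} {k Q : ℝ} {C K : ℕ} {e ε : ℝ}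
    (h : WorldOK X L Bd k Q C K e ε) {μ : ι → ℝ} {s : ℝ} (hs : 0 < s)
    (hμ : ∀ i, μ i ≤ X.w i / s) (hμA : ∀ i, i ∉ X.A → μ i = 0) (u : V) :
    ∑ i, μ i * ind (i ∉ L.Av u) ≤ ε / s := by
  classical
  have h1 := h.Avw u
  have h2 : ∑ i, μ i * ind (i ∉ L.Av u) ≤ ∑ i ∈ X.A \ L.Av u, X.w i / s := by
    have h3 : ∑ i ∈ X.A \ L.Av u, μ i * ind (i ∉ L.Av u) = ∑ i, μ i * ind (i ∉ L.Av u) := by
      refine sum_subset (subset_univ _) fun i _ hi => ?_
      rw [mem_sdiff, not_and_or, not_not] at hi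
      rcases hi with hi | hi
      · rw [hμA i hi, zero_mul]
      · rw [ind_false (not_not.2 hi), mul_zero]
    rw [← h3]
    refine sum_le_sum fun i hi => ?_
    rw [mem_sdiff] at hi
    rw [ind_true hi.2, mul_one]
    exact hμ i
  refine h2.trans ?_
  rw [← sum_div]
  refine div_le_div_of_nonneg_right ?_ hs.le
  convert h1 using 2

theorem hBd_of {X : World ι} {L : Low V ι} {Bd : ι → ι → Prop} {k Q : ℝ} {C K : ℕ} {e ε : ℝ}
    (h : WorldOK X L Bd k Q C K e ε) {r : ι → ℝ} {c : ℝ} (hc : 0 ≤ c)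
    (hr : ∀ i, r i ≤ c * X.w i) (i : ι) :
    ∑ i', r i' * ind (Bd i i') ≤ c * ε := by
  classical
  have h1 := h.bsmall i
  have h2 : ∑ i', r i' * ind (Bd i i') ≤ ∑ i' ∈ univ.filter (fun i' => Bd i i'), c * X.w i' := by
    have h3 : ∑ i' ∈ univ.filter (fun i' => Bd i i'), r i' * ind (Bd i i') =
        ∑ i', r i' * ind (Bd i i') := by
      refine sum_subset (subset_univ _) fun i' _ hi => ?_
      rw [mem_filter, not_and_or] at hi
      rcases hi with hi | hi
      · exact absurd (mem_univ _) hi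
      · rw [ind_false hi, mul_zero]
    rw [← h3]
    refine sum_le_sum fun i' hi => ?_
    rw [mem_filter] at hi
    rw [ind_true hi.2, mul_one]
    exact hr i'
  refine h2.trans ?_
  rw [← mul_sum]
  refine mul_le_mul_of_nonneg_left ?_ hc
  convert h1 using 2

end

end BB

end Pool.Agent.T6A
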