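import Mathlib

/-!
# A kernel checker for polynomial inequalities on boxes (MP_c6effb_co, helper21)

`Ex` = polynomial expressions with rational constants in the variables `x 0, x 1, ...`.
`Ex.ev e ρ` = the value. `chk fuel k e box = true` (checked by the kernel) implies `0 ≤ e.ev ρ` for
all `ρ` with `ρ i` in the `i`-th interval of the box (`sound`). The check computes Bernstein
coefficients with integers and bisects the box automatically.
-/

set_option autoImplicit false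

namespace Pool.Agent.T6A.Bern

/-! ### Expressions -/

/-- Polynomial expressions. -/
inductive Ex : Type
  | q (a : ℤ) (b : ℕ) : Ex
  | x (i : ℕ) : Ex
  | add (e f : Ex) : Ex
  | sub (e f : Ex) : Ex
  | mul (e f : Ex) : Ex
  | pow (e : Ex) (n : ℕ) : Ex

namespace Ex

/-- The value of an expression. -/
noncomputable def ev : Ex → (ℕ → ℝ) → ℝ
  | q a b, _ => (a : ℝ) / (b : ℝ)
  | x i, ρ => ρ i
  | add e f, ρ => ev e ρ + ev f ρ
  | sub e f, ρ => ev e ρ - ev f ρ
  | mul e f, ρ => ev e ρ * ev f ρ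
  | pow e n, ρ => ev e ρ ^ n

instance : Add Ex := ⟨Ex.add⟩
instance : Sub Ex := ⟨Ex.sub⟩
instance : Mul Ex := ⟨Ex.mul⟩
instance : HPow Ex ℕ Ex := ⟨Ex.pow⟩
instance (n : ℕ) : OfNat Ex n := ⟨Ex.q n 1⟩

/-- A natural number as an expression. -/
def nat (n : ℕ) : Ex := Ex.q n 1

@[simp] theorem ev_q (a : ℤ) (b : ℕ) (ρ : ℕ → ℝ) : (q a b).ev ρ = (a : ℝ) / (b : ℝ) := rfl
@[simp] theorem ev_x (i : ℕ) (ρ : ℕ → ℝ) : (x i).ev ρ = ρ i := rfl
@[simp] theorem ev_add (e f : Ex) (ρ : ℕ → ℝ) : (e + f).ev ρ = e.ev ρ + f.ev ρ := rfl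
@[simp] theorem ev_sub (e f : Ex) (ρ : ℕ → ℝ) : (e - f).ev ρ = e.ev ρ - f.ev ρ := rfl
@[simp] theorem ev_mul (e f : Ex) (ρ : ℕ → ℝ) : (e * f).ev ρ = e.ev ρ * f.ev ρ := rfl
@[simp] theorem ev_pow (e : Ex) (n : ℕ) (ρ : ℕ → ℝ) : (e ^ n).ev ρ = e.ev ρ ^ n := rfl
@[simp] theorem ev_nat (n : ℕ) (ρ : ℕ → ℝ) : (nat n).ev ρ = n := by
  simp [nat]
@[simp] theorem ev_ofNat (n : ℕ) [n.AtLeastTwo] (ρ : ℕ → ℝ) :
    (OfNat.ofNat n : Ex).ev ρ = (OfNat.ofNat n : ℝ) := by
  show (((n : ℕ) : ℤ) : ℝ) / ((1 : ℕ) : ℝ) = ((n : ℕ) : ℝ)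
  simp
@[simp] theorem ev_one (ρ : ℕ → ℝ) : (1 : Ex).ev ρ = 1 := by
  show ((1 : ℤ) : ℝ) / ((1 : ℕ) : ℝ) = _
  simp
@[simp] theorem ev_zero (ρ : ℕ → ℝ) : (0 : Ex).ev ρ = 0 := by
  show ((0 : ℤ) : ℝ) / ((1 : ℕ) : ℝ) = _
  simp

/-- Substitution. -/
def subst (s : ℕ → Ex) : Ex → Ex
  | q a b => q a b
  | x i => s i
  | add e f => add (subst s e) (subst s f)
  | sub e f => sub (subst s e) (subst s f)
  | mul e f => mul (subst s e) (subst s f)
  | pow e n => pow (subst s e) n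

theorem ev_subst (s : ℕ → Ex) (e : Ex) (ρ : ℕ → ℝ) :
    (e.subst s).ev ρ = e.ev fun i => (s i).ev ρ := by
  induction e with
  | q a b => rfl
  | x i => rfl
  | add e f he hf => simp only [subst, ev, he, hf]
  | sub e f he hf => simp only [subst, ev, he, hf]
  | mul e f he hf => simp only [subst, ev, he, hf]
  | pow e n he => simp only [subst, ev, he]

/-- All variables are `< k` and all denominators are positive. -/
def wf (k : ℕ) : Ex → Bool
  | q _ b => Nat.ble 1 b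
  | x i => Nat.ble (i + 1) k
  | add e f => wf k e && wf k f
  | sub e f => wf k e && wf k f
  | mul e f => wf k e && wf k f
  | pow e _ => wf k e

theorem ev_congr {k : ℕ} {ρ σ : ℕ → ℝ} (h : ∀ i, i < k → ρ i = σ i) :
    ∀ e : Ex, wf k e = true → ev e ρ = ev e σ
  | q a b, _ => rfl
  | x i, hw => h i (Nat.le_of_ble_eq_true hw)
  | add e f, hw => by
    rw [wf, Bool.and_eq_true] at hw
    rw [ev, ev, ev_congr h e hw.1, ev_congr h f hw.2]
  | sub e f, hw => by
    rw [wf, Bool.and_eq_true] at hw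
    rw [ev, ev, ev_congr h e hw.1, ev_congr h f hw.2]
  | mul e f, hw => by
    rw [wf, Bool.and_eq_true] at hw
    rw [ev, ev, ev_congr h e hw.1, ev_congr h f hw.2]
  | pow e n, hw => by
    rw [wf] at hw
    rw [ev, ev, ev_congr h e hw]

end Ex

/-! ### Integer polynomials in `k` variables (nested lists, the last variable outside) -/

/-- Polynomials in `k` variables. -/
def Pk : ℕ → Type
  | 0 => ℤ
  | k + 1 => List (Pk k)

/-- List addition. -/
def addL {α : Type} (f : α → α → α) : List α → List α → List α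
  | [], b => b
  | x :: a, [] => x :: a
  | x :: a, y :: b => f x y :: addL f a b

/-- Evaluation of a list polynomial. -/
noncomputable def evL {α : Type} (v : α → ℝ) (t : ℝ) : List α → ℝ
  | [] => 0
  | c :: p => v c + t * evL v t p

/-- Addition. -/
def add : (k : ℕ) → Pk k → Pk k → Pk k
  | 0 => fun a b => Int.add a b
  | k + 1 => fun a b => addL (add k) a b

/-- Integer multiples. -/
def smul (c : ℤ) : (k : ℕ) → Pk k → Pk k
  | 0 => fun a => Int.mul c a
  | k + 1 => fun a => List.map (smul c k) a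

/-- The constant. -/
def cst (c : ℤ) : (k : ℕ) → Pk k
  | 0 => c
  | k + 1 => [cst c k]

/-- List multiplication. -/
def mulL {α : Type} (z : α) (f g : α → α → α) : List α → List α → List α
  | [], _ => []
  | c :: p, r => addL f (List.map (g c) r) (z :: mulL z f g p r)

/-- Multiplication. -/
def mul : (k : ℕ) → Pk k → Pk k → Pk k
  | 0 => fun a b => Int.mul a b
  | k + 1 => fun a b => mulL (cst 0 k) (add k) (mul k) a b

/-- Powers. -/
def pw (k : ℕ) (a : Pk k) : ℕ → Pk k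
  | 0 => cst 1 k
  | n + 1 => mul k a (pw k a n)

/-- The variable `i`. -/
def vr (i : ℕ) : (k : ℕ) → Pk k
  | 0 => (0 : ℤ)
  | k + 1 => if i = k then [cst 0 k, cst 1 k] else [vr i k]

/-- Evaluation. -/
noncomputable def evP : (k : ℕ) → (ℕ → ℝ) → Pk k → ℝ
  | 0 => fun _ a => ((show ℤ from a : ℤ) : ℝ)
  | k + 1 => fun ρ a => evL (evP k ρ) (ρ k) a

theorem evL_addL {α : Type} (v : α → ℝ) (t : ℝ) (f : α → α → α)
    (hf : ∀ x y, v (f x y) = v x + v y) : ∀ a b : List α,
    evL v t (addL f a b) = evL v t a + evL v t b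
  | [], b => by simp [addL, evL]
  | x :: a, [] => by simp [addL, evL]
  | x :: a, y :: b => by
    simp only [addL, evL, hf, evL_addL v t f hf a b]
    ring

theorem evP_add : ∀ (k : ℕ) (ρ : ℕ → ℝ) (a b : Pk k), evP k ρ (add k a b) = evP k ρ a + evP k ρ b
  | 0, ρ, a, b => by
    show ((Int.add a b : ℤ) : ℝ) = ((show ℤ from a : ℤ) : ℝ) + ((show ℤ from b : ℤ) : ℝ)
    exact Int.cast_add _ _
  | k + 1, ρ, a, b => evL_addL _ _ _ (evP_add k ρ) a b

theorem evL_map {α : Type} (v : α → ℝ) (t : ℝ) (f : α → α) (c : ℝ)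
    (hf : ∀ x, v (f x) = c * v x) : ∀ a : List α, evL v t (List.map f a) = c * evL v t a
  | [] => by simp [evL]
  | x :: a => by
    simp only [List.map, evL, hf, evL_map v t f c hf a]
    ring

theorem evP_smul (c : ℤ) : ∀ (k : ℕ) (ρ : ℕ → ℝ) (a : Pk k),
    evP k ρ (smul c k a) = c * evP k ρ a
  | 0, ρ, a => by
    show ((Int.mul c a : ℤ) : ℝ) = (c : ℝ) * ((show ℤ from a : ℤ) : ℝ)
    exact Int.cast_mul _ _
  | k + 1, ρ, a => evL_map _ _ _ _ (evP_smul c k ρ) a

theorem evP_cst (c : ℤ) : ∀ (k : ℕ) (ρ : ℕ → ℝ), evP k ρ (cst c k) = c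
  | 0, ρ => rfl
  | k + 1, ρ => by
    show evL (evP k ρ) (ρ k) [cst c k] = c
    simp only [evL, evP_cst c k ρ]
    ring

theorem evL_mulL {α : Type} (v : α → ℝ) (t : ℝ) (z : α) (f g : α → α → α) (hz : v z = 0)
    (hf : ∀ x y, v (f x y) = v x + v y) (hg : ∀ x y, v (g x y) = v x * v y) :
    ∀ a b : List α, evL v t (mulL z f g a b) = evL v t a * evL v t b
  | [], b => by simp [mulL, evL]
  | c :: p, b => by
    simp only [mulL]
    rw [evL_addL v t f hf, evL_map v t (g c) (v c) (fun x => hg c x)]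
    simp only [evL, hz, evL_mulL v t z f g hz hf hg p b]
    ring

theorem evP_mul : ∀ (k : ℕ) (ρ : ℕ → ℝ) (a b : Pk k), evP k ρ (mul k a b) = evP k ρ a * evP k ρ b
  | 0, ρ, a, b => by
    show ((Int.mul a b : ℤ) : ℝ) = ((show ℤ from a : ℤ) : ℝ) * ((show ℤ from b : ℤ) : ℝ)
    exact Int.cast_mul _ _
  | k + 1, ρ, a, b => evL_mulL _ _ _ _ _ (by rw [evP_cst]; simp) (evP_add k ρ) (evP_mul k ρ) a b

theorem evP_pw (k : ℕ) (ρ : ℕ → ℝ) (a : Pk k) : ∀ n : ℕ, evP k ρ (pw k a n) = evP k ρ a ^ n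
  | 0 => by
    rw [pw, evP_cst]
    simp
  | n + 1 => by
    rw [pw, evP_mul, evP_pw k ρ a n]
    ring

theorem evP_vr (i : ℕ) : ∀ (k : ℕ) (ρ : ℕ → ℝ), i < k → evP k ρ (vr i k) = ρ i
  | 0, ρ, h => absurd h (Nat.not_lt_zero _)
  | k + 1, ρ, h => by
    show evL (evP k ρ) (ρ k) (if i = k then ([cst 0 k, cst 1 k] : List (Pk k))
      else ([vr i k] : List (Pk k))) = ρ i
    by_cases h1 : i = k
    · rw [if_pos h1]
      simp only [evL, evP_cst]
      rw [h1]
      simp
    · rw [if_neg h1]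
      simp only [evL, evP_vr i k ρ (by omega)]
      ring

/-! ### Bernstein coefficients -/

/-- Homogeneous evaluation. -/
noncomputable def hev {α : Type} (v : α → ℝ) (t u : ℝ) : List α → ℝ
  | [] => 0
  | c :: p => v c * u ^ p.length + t * hev v t u p

/-- `c + (1 + s) q` -/
def mul1 {α : Type} (f : α → α → α) : α → List α → List α
  | c, [] => [c]
  | c, x :: r => f c x :: mul1 f x r

/-- Taylor shift. -/
def shiftL {α : Type} (f : α → α → α) : List α → List α
  | [] => []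
  | c :: p => mul1 f c (shiftL f p)

theorem length_mul1 {α : Type} (f : α → α → α) : ∀ (q : List α) (c : α),
    (mul1 f c q).length = q.length + 1
  | [], c => rfl
  | x :: r, c => by simp [mul1, length_mul1 f r x]

theorem length_shiftL {α : Type} (f : α → α → α) : ∀ p : List α, (shiftL f p).length = p.length
  | [] => rfl
  | c :: p => by simp [shiftL, length_mul1, length_shiftL f p]

theorem hev_mul1 {α : Type} (v : α → ℝ) (t u : ℝ) (f : α → α → α)
    (hf : ∀ x y, v (f x y) = v x + v y) : ∀ (q : List α) (c : α),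
    hev v u t (mul1 f c q) = v c * t ^ q.length + (t + u) * hev v u t q
  | [], c => by simp [mul1, hev]
  | x :: r, c => by
    simp only [mul1, hev, hf, length_mul1, List.length_cons, hev_mul1 v t u f hf r x]
    ring

theorem hev_shiftL {α : Type} (v : α → ℝ) (t u : ℝ) (f : α → α → α)
    (hf : ∀ x y, v (f x y) = v x + v y) : ∀ p : List α,
    hev v u t (shiftL f p) = hev v (t + u) t p
  | [] => rfl
  | c :: p => by
    simp only [shiftL, hev_mul1 v t u f hf, hev, length_shiftL, hev_shiftL v t u f hf p]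

theorem hev_append {α : Type} (v : α → ℝ) (t u : ℝ) (c : α) : ∀ a : List α,
    hev v t u (a ++ [c]) = u * hev v t u a + v c * t ^ a.length
  | [] => by simp [hev]
  | x :: a => by
    simp only [List.cons_append, hev, hev_append v t u c a, List.length_append,
      List.length_cons, List.length_nil]
    ring

theorem hev_reverse {α : Type} (v : α → ℝ) (t : ℝ) : ∀ a : List α,
    hev v 1 t a.reverse = evL v t a
  | [] => rfl
  | x :: a => by
    simp only [List.reverse_cons, hev_append, hev_reverse v t a, evL, one_pow]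
    ring

theorem hev_nonneg {α : Type} (v : α → ℝ) {t u : ℝ} (ht : 0 ≤ t) (hu : 0 ≤ u) : ∀ a : List α,
    (∀ c ∈ a, 0 ≤ v c) → 0 ≤ hev v t u a
  | [], _ => le_rfl
  | x :: a, h => by
    have h1 := hev_nonneg v ht hu a fun c hc => h c (List.mem_cons_of_mem _ hc)
    have h2 := h x List.mem_cons_self
    exact add_nonneg (mul_nonneg h2 (pow_nonneg hu _)) (mul_nonneg ht h1)

/-- `0 ≤ a` -/
def nnI : ℤ → Bool
  | Int.ofNat _ => true
  | Int.negSucc _ => false

/-- All Bernstein coefficients are nonnegative. -/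
def nnP : (k : ℕ) → Pk k → Bool
  | 0 => fun a => nnI a
  | k + 1 => fun p => (shiftL (add k) (List.reverse p)).all (nnP k)

theorem nnP_sound : ∀ (k : ℕ) (p : Pk k), nnP k p = true → ∀ ρ : ℕ → ℝ,
    (∀ i, i < k → 0 ≤ ρ i ∧ ρ i ≤ 1) → 0 ≤ evP k ρ p
  | 0, a, h, ρ, _ => by
    show (0 : ℝ) ≤ ((show ℤ from a : ℤ) : ℝ)
    have h1 : (0 : ℤ) ≤ (show ℤ from a : ℤ) := by
      revert h
      show nnI a = true → (0 : ℤ) ≤ (show ℤ from a : ℤ)
      generalize (show ℤ from a : ℤ) = b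
      cases b with
      | ofNat n => intro _; exact Int.natCast_nonneg n
      | negSucc n => intro h; exact absurd h (by simp [nnI])
    exact_mod_cast h1
  | k + 1, p, h, ρ, hρ => by
    show 0 ≤ evL (evP k ρ) (ρ k) p
    have h1 : ∀ c ∈ shiftL (add k) (List.reverse p), nnP k c = true := by
      have : (shiftL (add k) (List.reverse p)).all (nnP k) = true := h
      exact List.all_eq_true.1 this
    have e : evL (evP k ρ) (ρ k) p
        = hev (evP k ρ) (1 - ρ k) (ρ k) (shiftL (add k) (List.reverse p)) := by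
      have e1 := hev_shiftL (evP k ρ) (ρ k) (1 - ρ k) (add k) (evP_add k ρ) (List.reverse p)
      have e2 := hev_reverse (evP k ρ) (ρ k) p
      have e3 : ρ k + (1 - ρ k) = 1 := by ring
      rw [e3] at e1
      exact e2.symm.trans e1.symm
    rw [e]
    have h2 := hρ k (Nat.lt_succ_self k)
    exact hev_nonneg _ (by linarith) h2.1 _ fun c hc =>
      nnP_sound k c (h1 c hc) ρ fun i hi => hρ i (Nat.lt_succ_of_lt hi)

/-! ### From expressions to polynomials -/

/-- Numerator and denominator. -/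
def toP (k : ℕ) : Ex → Pk k × ℕ
  | Ex.q a b => (cst a k, b)
  | Ex.x i => (vr i k, 1)
  | Ex.add e f =>
    match toP k e, toP k f with
    | (p, a), (r, b) => (add k (smul (Int.ofNat (Nat.lcm a b / a)) k p)
        (smul (Int.ofNat (Nat.lcm a b / b)) k r), Nat.lcm a b)
  | Ex.sub e f =>
    match toP k e, toP k f with
    | (p, a), (r, b) => (add k (smul (Int.ofNat (Nat.lcm a b / a)) k p)
        (smul (Int.neg (Int.ofNat (Nat.lcm a b / b))) k r), Nat.lcm a b)
  | Ex.mul e f =>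
    match toP k e, toP k f with
    | (p, a), (r, b) => (mul k p r, a * b)
  | Ex.pow e n =>
    match toP k e with
    | (p, a) => (pw k p n, a ^ n)

theorem lcm_div_aux {a b : ℕ} (ha : 0 < a) (hb : 0 < b) :
    ((Nat.lcm a b / a : ℕ) : ℝ) / (Nat.lcm a b : ℕ) = 1 / a := by
  obtain ⟨c, hc⟩ := Nat.dvd_lcm_left a b
  have hl : 0 < Nat.lcm a b := Nat.lcm_pos ha hb
  have hc0 : 0 < c := by
    rcases Nat.eq_zero_or_pos c with h | h
    · rw [h] at hc; omega
    · exact h
  rw [hc, Nat.mul_div_cancel_left c ha]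
  push_cast
  have h1 : (a : ℝ) ≠ 0 := by positivity
  have h2 : (c : ℝ) ≠ 0 := by positivity
  field_simp

theorem toP_sound (k : ℕ) (ρ : ℕ → ℝ) : ∀ e : Ex, Ex.wf k e = true →
    0 < (toP k e).2 ∧ e.ev ρ = evP k ρ (toP k e).1 / (toP k e).2
  | Ex.q a b, h => by
    have hb : 0 < b := Nat.le_of_ble_eq_true h
    exact ⟨hb, by rw [toP, evP_cst]; rfl⟩
  | Ex.x i, h => by
    have hi : i < k := Nat.le_of_ble_eq_true h
    refine ⟨Nat.one_pos, ?_⟩
    rw [toP, evP_vr i k ρ hi]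
    simp
  | Ex.add e f, h => by
    rw [Ex.wf, Bool.and_eq_true] at h
    obtain ⟨ha, h1⟩ := toP_sound k ρ e h.1
    obtain ⟨hb, h2⟩ := toP_sound k ρ f h.2
    rw [toP]
    generalize toP k e = pe at *
    generalize toP k f = pf at *
    obtain ⟨p, a⟩ := pe
    obtain ⟨r, b⟩ := pf
    refine ⟨Nat.lcm_pos ha hb, ?_⟩
    have e1 := lcm_div_aux ha hb
    have e2 := lcm_div_aux hb ha
    rw [Nat.lcm_comm b a] at e2
    simp only [evP_add, evP_smul] at *
    rw [Ex.ev, h1, h2, add_div, mul_comm, mul_div_assoc, mul_comm _ (evP k ρ r), mul_div_assoc]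
    have e3 : ((Int.ofNat (Nat.lcm a b / a) : ℤ) : ℝ) = ((Nat.lcm a b / a : ℕ) : ℝ) := rfl
    have e4 : ((Int.ofNat (Nat.lcm a b / b) : ℤ) : ℝ) = ((Nat.lcm a b / b : ℕ) : ℝ) := rfl
    rw [e3, e4, e1, e2]
    ring
  | Ex.sub e f, h => by
    rw [Ex.wf, Bool.and_eq_true] at h
    obtain ⟨ha, h1⟩ := toP_sound k ρ e h.1
    obtain ⟨hb, h2⟩ := toP_sound k ρ f h.2
    rw [toP]
    generalize toP k e = pe at *
    generalize toP k f = pf at *
    obtain ⟨p, a⟩ := pe
    obtain ⟨r, b⟩ := pf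
    refine ⟨Nat.lcm_pos ha hb, ?_⟩
    have e1 := lcm_div_aux ha hb
    have e2 := lcm_div_aux hb ha
    rw [Nat.lcm_comm b a] at e2
    simp only [evP_add, evP_smul] at *
    rw [Ex.ev, h1, h2, add_div, mul_comm, mul_div_assoc, mul_comm _ (evP k ρ r), mul_div_assoc]
    have e3 : ((Int.ofNat (Nat.lcm a b / a) : ℤ) : ℝ) = ((Nat.lcm a b / a : ℕ) : ℝ) := rfl
    have e4 : ((Int.neg (Int.ofNat (Nat.lcm a b / b)) : ℤ) : ℝ)
        = - ((Nat.lcm a b / b : ℕ) : ℝ) := by
      show ((- (Int.ofNat (Nat.lcm a b / b)) : ℤ) : ℝ) = _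
      rw [Int.cast_neg]
      rfl
    rw [e3, e4, e1, neg_div, e2]
    ring
  | Ex.mul e f, h => by
    rw [Ex.wf, Bool.and_eq_true] at h
    obtain ⟨ha, h1⟩ := toP_sound k ρ e h.1
    obtain ⟨hb, h2⟩ := toP_sound k ρ f h.2
    rw [toP]
    generalize toP k e = pe at *
    generalize toP k f = pf at *
    obtain ⟨p, a⟩ := pe
    obtain ⟨r, b⟩ := pf
    refine ⟨Nat.mul_pos ha hb, ?_⟩
    simp only [evP_mul] at *
    rw [Ex.ev, h1, h2]
    push_cast
    rw [div_mul_div_comm]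
  | Ex.pow e n, h => by
    rw [Ex.wf] at h
    obtain ⟨ha, h1⟩ := toP_sound k ρ e h
    rw [toP]
    generalize toP k e = pe at *
    obtain ⟨p, a⟩ := pe
    refine ⟨Nat.pow_pos ha, ?_⟩
    simp only [evP_pw] at *
    rw [Ex.ev, h1]
    push_cast
    rw [div_pow]

/-! ### Boxes -/

/-- An interval `[l / m, r / m]`. -/
structure Iv : Type where
  l : ℤ
  r : ℤ
  m : ℕ

/-- The substitution for the box. -/
def bsub (box : List Iv) (i : ℕ) : Ex :=
  match box[i]? with
  | some b => Ex.add (Ex.q b.l b.m) (Ex.mul (Ex.q (Int.sub b.r b.l) b.m) (Ex.x i))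
  | none => Ex.x i

/-- The test for one box. -/
def test (e : Ex) (box : List Iv) : Bool :=
  nnP box.length (toP box.length (e.subst (bsub box))).1

/-- The left half in direction `i`. -/
def lft : ℕ → List Iv → List Iv
  | _, [] => []
  | 0, b :: t => ⟨Int.mul 2 b.l, Int.add b.l b.r, 2 * b.m⟩ :: t
  | i + 1, b :: t => b :: lft i t

/-- The right half in direction `i`. -/
def rgt : ℕ → List Iv → List Iv
  | _, [] => []
  | 0, b :: t => ⟨Int.add b.l b.r, Int.mul 2 b.r, 2 * b.m⟩ :: t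
  | i + 1, b :: t => b :: rgt i t

/-- The box is well formed. -/
def okB : List Iv → Bool
  | [] => true
  | b :: t => Nat.ble 1 b.m && nnI (Int.sub b.r b.l) && okB t

/-- The automatic check: bisection in direction `i`, then `i + 1`, ... (mod the dimension). -/
def go (e : Ex) : ℕ → ℕ → List Iv → Bool
  | 0, _, box => test e box
  | f + 1, i, box => test e box ||
    (go e f ((i + 1) % box.length) (lft i box) && go e f ((i + 1) % box.length) (rgt i box))

/-- **The check.** -/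
def chk (fuel : ℕ) (e : Ex) (box : List Iv) : Bool :=
  Ex.wf box.length e && okB box && go e fuel 0 box

/-- A point is in the box. -/
def InB (box : List Iv) (ρ : ℕ → ℝ) : Prop :=
  ∀ (i : ℕ) (b : Iv), box[i]? = some b → (b.l : ℝ) / b.m ≤ ρ i ∧ ρ i ≤ (b.r : ℝ) / b.m

theorem nnI_iff (a : ℤ) : nnI a = true ↔ 0 ≤ a := by
  cases a with
  | ofNat n => simp [nnI]
  | negSucc n => simp [nnI]

theorem okB_get : ∀ (box : List Iv), okB box = true → ∀ (i : ℕ) (b : Iv), box[i]? = some b →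
    0 < b.m ∧ b.l ≤ b.r
  | [], _, i, b, h => by simp at h
  | c :: t, hk, 0, b, h => by
    rw [okB, Bool.and_eq_true, Bool.and_eq_true] at hk
    have : c = b := by simpa using h
    subst this
    refine ⟨Nat.le_of_ble_eq_true hk.1.1, ?_⟩
    have h2 := (nnI_iff _).1 hk.1.2
    have h3 : Int.sub c.r c.l = c.r - c.l := rfl
    rw [h3] at h2
    omega
  | c :: t, hk, i + 1, b, h => by
    rw [okB, Bool.and_eq_true] at hk
    exact okB_get t hk.2 i b (by simpa using h)

theorem wf_subst {box : List Iv} (hk : okB box = true) {k : ℕ} (hkk : box.length = k) :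
    ∀ e : Ex, Ex.wf k e = true → Ex.wf k (e.subst (bsub box)) = true
  | Ex.q a b, h => h
  | Ex.x i, h => by
    show Ex.wf k (bsub box i) = true
    have hi : i < k := Nat.le_of_ble_eq_true h
    have hb : box[i]? = some (box[i]'(by omega)) := List.getElem?_eq_getElem _
    have h2 := (okB_get box hk i _ hb).1
    rw [bsub, hb]
    simp only [Ex.wf, Bool.and_eq_true]
    exact ⟨Nat.ble_eq_true_of_le h2, Nat.ble_eq_true_of_le h2, h⟩
  | Ex.add e f, h => by
    rw [Ex.wf, Bool.and_eq_true] at h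
    rw [Ex.subst, Ex.wf, wf_subst hk hkk e h.1, wf_subst hk hkk f h.2]
    rfl
  | Ex.sub e f, h => by
    rw [Ex.wf, Bool.and_eq_true] at h
    rw [Ex.subst, Ex.wf, wf_subst hk hkk e h.1, wf_subst hk hkk f h.2]
    rfl
  | Ex.mul e f, h => by
    rw [Ex.wf, Bool.and_eq_true] at h
    rw [Ex.subst, Ex.wf, wf_subst hk hkk e h.1, wf_subst hk hkk f h.2]
    rfl
  | Ex.pow e n, h => by
    rw [Ex.wf] at h
    rw [Ex.subst, Ex.wf, wf_subst hk hkk e h]

theorem test_sound {e : Ex} {box : List Iv} (hw : Ex.wf box.length e = true)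
    (hk : okB box = true) (h : test e box = true) {ρ : ℕ → ℝ} (hρ : InB box ρ) :
    0 ≤ e.ev ρ := by
  classical
  set τ : ℕ → ℝ := fun i => match box[i]? with
    | some b => (ρ i - (b.l : ℝ) / b.m) / (((b.r : ℝ) - b.l) / b.m)
    | none => ρ i with hτ
  have key : e.ev ρ = (e.subst (bsub box)).ev τ := by
    rw [Ex.ev_subst]
    refine Ex.ev_congr (k := box.length) (fun i hi => ?_) e hw
    have hb : box[i]? = some (box[i]'hi) := List.getElem?_eq_getElem _
    have h1 := okB_get box hk i _ hb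
    have h2 := hρ i _ hb
    have hm : (0 : ℝ) < (box[i].m : ℝ) := by exact_mod_cast h1.1
    simp only [bsub, hb, Ex.ev, hτ]
    have e1 : ((Int.sub box[i].r box[i].l : ℤ) : ℝ) = (box[i].r : ℝ) - box[i].l := by
      show ((box[i].r - box[i].l : ℤ) : ℝ) = _
      push_cast
      rfl
    rw [e1]
    rcases h1.2.lt_or_eq with hlt | heq
    · have h3 : (0 : ℝ) < ((box[i].r : ℝ) - box[i].l) / box[i].m := by
        apply div_pos _ hm
        have : (box[i].l : ℝ) < box[i].r := by exact_mod_cast hlt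
        linarith
      rw [mul_div_cancel₀ _ h3.ne']
      ring
    · rw [heq] at h2 ⊢
      have : ρ i = (box[i].r : ℝ) / box[i].m := le_antisymm h2.2 h2.1
      rw [this]
      simp
  rw [key]
  obtain ⟨h1, h2⟩ := toP_sound box.length τ _ (wf_subst hk rfl e hw)
  rw [h2]
  refine div_nonneg (nnP_sound _ _ h τ fun i hi => ?_) (Nat.cast_nonneg _)
  have hb : box[i]? = some (box[i]'hi) := List.getElem?_eq_getElem _
  have h3 := okB_get box hk i _ hb
  have h4 := hρ i _ hb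
  have hm : (0 : ℝ) < (box[i].m : ℝ) := by exact_mod_cast h3.1
  simp only [hτ, hb]
  have h5 : (box[i].l : ℝ) ≤ box[i].r := by exact_mod_cast h3.2
  have h6 : 0 ≤ ((box[i].r : ℝ) - box[i].l) / box[i].m := div_nonneg (by linarith) hm.le
  have h7 : ((box[i].r : ℝ) - box[i].l) / box[i].m = (box[i].r : ℝ) / box[i].m
      - (box[i].l : ℝ) / box[i].m := sub_div _ _ _
  refine ⟨div_nonneg (by linarith [h4.1]) h6, div_le_one_of_le₀ (by linarith [h4.2]) h6⟩

theorem length_lft : ∀ (i : ℕ) (box : List Iv), (lft i box).length = box.length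
  | _, [] => by simp [lft]
  | 0, b :: t => by simp [lft]
  | i + 1, b :: t => by simp [lft, length_lft i t]

theorem length_rgt : ∀ (i : ℕ) (box : List Iv), (rgt i box).length = box.length
  | _, [] => by simp [rgt]
  | 0, b :: t => by simp [rgt]
  | i + 1, b :: t => by simp [rgt, length_rgt i t]

theorem okB_lft : ∀ (i : ℕ) (box : List Iv), okB box = true → okB (lft i box) = true
  | _, [], h => by simp [lft, okB]
  | 0, b :: t, h => by
    rw [okB, Bool.and_eq_true, Bool.and_eq_true] at h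
    have h1 : 1 ≤ b.m := Nat.le_of_ble_eq_true h.1.1
    have h2 := (nnI_iff _).1 h.1.2
    have h3 : Int.sub b.r b.l = b.r - b.l := rfl
    rw [h3] at h2
    rw [lft, okB, h.2]
    have h4 : Nat.ble 1 (2 * b.m) = true := Nat.ble_eq_true_of_le (by omega)
    have h5 : nnI (Int.sub (Int.add b.l b.r) (Int.mul 2 b.l)) = true := by
      rw [nnI_iff]
      show 0 ≤ (b.l + b.r) - (2 * b.l)
      omega
    simp only [h4, h5, Bool.and_self]
  | i + 1, b :: t, h => by
    rw [okB, Bool.and_eq_true] at h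
    rw [lft, okB, okB_lft i t h.2, h.1]
    rfl

theorem okB_rgt : ∀ (i : ℕ) (box : List Iv), okB box = true → okB (rgt i box) = true
  | _, [], h => by simp [rgt, okB]
  | 0, b :: t, h => by
    rw [okB, Bool.and_eq_true, Bool.and_eq_true] at h
    have h1 : 1 ≤ b.m := Nat.le_of_ble_eq_true h.1.1
    have h2 := (nnI_iff _).1 h.1.2
    have h3 : Int.sub b.r b.l = b.r - b.l := rfl
    rw [h3] at h2
    rw [rgt, okB, h.2]
    have h4 : Nat.ble 1 (2 * b.m) = true := Nat.ble_eq_true_of_le (by omega)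
    have h5 : nnI (Int.sub (Int.mul 2 b.r) (Int.add b.l b.r)) = true := by
      rw [nnI_iff]
      show 0 ≤ (2 * b.r) - (b.l + b.r)
      omega
    simp only [h4, h5, Bool.and_self]
  | i + 1, b :: t, h => by
    rw [okB, Bool.and_eq_true] at h
    rw [rgt, okB, okB_rgt i t h.2, h.1]
    rfl

theorem InB_cons {b : Iv} {t : List Iv} {ρ : ℕ → ℝ} : InB (b :: t) ρ ↔
    ((b.l : ℝ) / b.m ≤ ρ 0 ∧ ρ 0 ≤ (b.r : ℝ) / b.m) ∧ InB t fun i => ρ (i + 1) := by
  constructor
  · intro h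
    exact ⟨h 0 b rfl, fun i c hc => h (i + 1) c (by simpa using hc)⟩
  · rintro ⟨h1, h2⟩ i c hc
    cases i with
    | zero =>
      have : b = c := by simpa using hc
      subst this
      exact h1
    | succ i => exact h2 i c (by simpa using hc)

theorem InB_split : ∀ (i : ℕ) (box : List Iv), okB box = true → ∀ ρ : ℕ → ℝ, InB box ρ →
    InB (lft i box) ρ ∨ InB (rgt i box) ρ
  | _, [], _, ρ, h => Or.inl (by simpa [lft] using h)
  | 0, b :: t, hk, ρ, h => by
    rw [okB, Bool.and_eq_true, Bool.and_eq_true] at hk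
    have h1 : 0 < b.m := Nat.le_of_ble_eq_true hk.1.1
    have hm : (0 : ℝ) < (b.m : ℝ) := by exact_mod_cast h1
    obtain ⟨h2, h3⟩ := InB_cons.1 h
    have e1 : ((Int.mul 2 b.l : ℤ) : ℝ) / ((2 * b.m : ℕ) : ℝ) = (b.l : ℝ) / b.m := by
      have : ((Int.mul 2 b.l : ℤ) : ℝ) = 2 * (b.l : ℝ) := by
        show ((2 * b.l : ℤ) : ℝ) = _
        push_cast
        rfl
      rw [this]
      push_cast
      rw [mul_div_mul_left _ _ (by norm_num : (2 : ℝ) ≠ 0)]
    have e2 : ((Int.mul 2 b.r : ℤ) : ℝ) / ((2 * b.m : ℕ) : ℝ) = (b.r : ℝ) / b.m := by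
      have : ((Int.mul 2 b.r : ℤ) : ℝ) = 2 * (b.r : ℝ) := by
        show ((2 * b.r : ℤ) : ℝ) = _
        push_cast
        rfl
      rw [this]
      push_cast
      rw [mul_div_mul_left _ _ (by norm_num : (2 : ℝ) ≠ 0)]
    rcases le_total (ρ 0) (((Int.add b.l b.r : ℤ) : ℝ) / ((2 * b.m : ℕ) : ℝ)) with hle | hle
    · left
      rw [lft, InB_cons]
      exact ⟨⟨by rw [e1]; exact h2.1, hle⟩, h3⟩
    · right
      rw [rgt, InB_cons]
      exact ⟨⟨hle, by rw [e2]; exact h2.2⟩, h3⟩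
  | i + 1, b :: t, hk, ρ, h => by
    rw [okB, Bool.and_eq_true] at hk
    obtain ⟨h2, h3⟩ := InB_cons.1 h
    rcases InB_split i t hk.2 _ h3 with h4 | h4
    · exact Or.inl (by rw [lft, InB_cons]; exact ⟨h2, h4⟩)
    · exact Or.inr (by rw [rgt, InB_cons]; exact ⟨h2, h4⟩)

theorem go_sound {e : Ex} {k : ℕ} (hw : Ex.wf k e = true) : ∀ (f i : ℕ) (box : List Iv),
    box.length = k → okB box = true → go e f i box = true → ∀ ρ : ℕ → ℝ, InB box ρ → 0 ≤ e.ev ρ
  | 0, i, box, hl, hk, h, ρ, hρ => test_sound (by rw [hl]; exact hw) hk h hρ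
  | f + 1, i, box, hl, hk, h, ρ, hρ => by
    rw [go, Bool.or_eq_true, Bool.and_eq_true] at h
    rcases h with h | ⟨h1, h2⟩
    · exact test_sound (by rw [hl]; exact hw) hk h hρ
    · rcases InB_split i box hk ρ hρ with h3 | h3
      · exact go_sound hw f _ _ (by rw [length_lft, hl]) (okB_lft i box hk) h1 ρ h3
      · exact go_sound hw f _ _ (by rw [length_rgt, hl]) (okB_rgt i box hk) h2 ρ h3

/-- **Soundness of the check.** -/
theorem sound {fuel : ℕ} {e : Ex} {box : List Iv} (h : chk fuel e box = true) {ρ : ℕ → ℝ}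
    (hρ : InB box ρ) : 0 ≤ e.ev ρ := by
  rw [chk, Bool.and_eq_true, Bool.and_eq_true] at h
  exact go_sound h.1.1 fuel 0 box rfl h.1.2 h.2 ρ hρ

/-! ### Convenient forms -/

/-- One variable. -/
theorem sound1 {fuel : ℕ} {e : Ex} {l r : ℤ} {m : ℕ} (h : chk fuel e [⟨l, r, m⟩] = true) {a : ℝ}
    (h0 : (l : ℝ) / m ≤ a) (h1 : a ≤ (r : ℝ) / m) : 0 ≤ e.ev fun _ => a := by
  refine sound h ?_
  rw [InB_cons]
  exact ⟨⟨h0, h1⟩, fun i b hb => by simp at hb⟩

/-- Two values. -/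
def r2 (a b : ℝ) : ℕ → ℝ
  | 0 => a
  | _ + 1 => b

@[simp] theorem r2_0 (a b : ℝ) : r2 a b 0 = a := rfl
@[simp] theorem r2_1 (a b : ℝ) : r2 a b 1 = b := rfl

/-- Two variables. -/
theorem sound2 {fuel : ℕ} {e : Ex} {l r l' r' : ℤ} {m m' : ℕ}
    (h : chk fuel e [⟨l, r, m⟩, ⟨l', r', m'⟩] = true) {a b : ℝ}
    (h0 : (l : ℝ) / m ≤ a) (h1 : a ≤ (r : ℝ) / m) (h2 : (l' : ℝ) / m' ≤ b)
    (h3 : b ≤ (r' : ℝ) / m') : 0 ≤ e.ev (r2 a b) := by
  refine sound h ?_
  rw [InB_cons, InB_cons]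
  exact ⟨⟨h0, h1⟩, ⟨h2, h3⟩, fun i b hb => by simp at hb⟩

/-- Three values. -/
def r3 (a b c : ℝ) : ℕ → ℝ
  | 0 => a
  | 1 => b
  | _ + 2 => c

@[simp] theorem r3_0 (a b c : ℝ) : r3 a b c 0 = a := rfl
@[simp] theorem r3_1 (a b c : ℝ) : r3 a b c 1 = b := rfl
@[simp] theorem r3_2 (a b c : ℝ) : r3 a b c 2 = c := rfl

/-- Three variables. -/
theorem sound3 {fuel : ℕ} {e : Ex} {l r l' r' l'' r'' : ℤ} {m m' m'' : ℕ}
    (h : chk fuel e [⟨l, r, m⟩, ⟨l', r', m'⟩, ⟨l'', r'', m''⟩] = true) {a b c : ℝ}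
    (h0 : (l : ℝ) / m ≤ a) (h1 : a ≤ (r : ℝ) / m) (h2 : (l' : ℝ) / m' ≤ b)
    (h3 : b ≤ (r' : ℝ) / m') (h4 : (l'' : ℝ) / m'' ≤ c) (h5 : c ≤ (r'' : ℝ) / m'') :
    0 ≤ e.ev (r3 a b c) := by
  refine sound h ?_
  rw [InB_cons, InB_cons, InB_cons]
  exact ⟨⟨h0, h1⟩, ⟨h2, h3⟩, ⟨h4, h5⟩, fun i b hb => by simp at hb⟩

/-- A table: one check for all `a ≤ d < b`. -/
def tab (a b : ℕ) (f : ℕ → Bool) : Bool := (List.range b).all fun d => Nat.blt d a || f d

theorem tab_get {a b : ℕ} {f : ℕ → Bool} (h : tab a b f = true) {d : ℕ} (h0 : a ≤ d)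
    (h1 : d < b) : f d = true := by
  have h2 := List.all_eq_true.1 h d (List.mem_range.2 h1)
  rw [Bool.or_eq_true] at h2
  rcases h2 with h2 | h2
  · have h3 := Nat.le_of_ble_eq_true h2
    omega
  · exact h2

end Pool.Agent.T6A.Bern
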