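import Pool.Agent.T6A.Bern

/-!
# A faster checker for polynomials in one variable (MP_c6effb_co, helper22)

`x = l u + r t` with `u + t = 1`; a list `[c 0, ..., c n]` stands for `∑ c k t ^ k u ^ (n - k)`. Powers
of linear forms are computed by the binomial formula, sums of different degrees by elevation.
-/

set_option autoImplicit false

namespace Pool.Agent.T6A.BernH

open Bern

/-- value of a list -/
noncomputable def H (t u : ℝ) (l : List ℤ) : ℝ := hev (fun c : ℤ => (c : ℝ)) t u l

@[simp] theorem H_nil (t u : ℝ) : H t u [] = 0 := rfl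

theorem H_cons (t u : ℝ) (c : ℤ) (l : List ℤ) :
    H t u (c :: l) = c * u ^ l.length + t * H t u l := rfl

/-- sum of lists, the shorter one is read as multiplied by a power of `u` -/
def addI : List ℤ → List ℤ → List ℤ
  | [], b => b
  | x :: a, [] => x :: a
  | x :: a, y :: b => Int.add x y :: addI a b

theorem length_addI : ∀ a b : List ℤ, (addI a b).length = max a.length b.length
  | [], b => by simp [addI]
  | x :: a, [] => by simp [addI]
  | x :: a, y :: b => by simp [addI, length_addI a b]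

theorem H_addI (t u : ℝ) : ∀ a b : List ℤ, a.length ≤ b.length →
    H t u (addI a b) = u ^ (b.length - a.length) * H t u a + H t u b
  | [], b, _ => by simp [addI]
  | x :: a, [], h => by simp at h
  | x :: a, y :: b, h => by
    have h1 : a.length ≤ b.length := by simpa using h
    have h2 : (addI a b).length = b.length := by rw [length_addI]; omega
    rw [addI, H_cons, H_cons, H_cons, H_addI t u a b h1, h2]
    have h3 : (y :: b).length - (x :: a).length = b.length - a.length := by simp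
    have h4 : u ^ b.length = u ^ (b.length - a.length) * u ^ a.length := by
      rw [← pow_add]; congr 1; omega
    have h5 : ((Int.add x y : ℤ) : ℝ) = (x : ℝ) + (y : ℝ) := Int.cast_add _ _
    rw [h3, h5, add_mul, h4]
    ring

/-- multiples -/
def smI (c : ℤ) : List ℤ → List ℤ
  | [] => []
  | x :: a => Int.mul c x :: smI c a

theorem length_smI (c : ℤ) : ∀ a : List ℤ, (smI c a).length = a.length
  | [] => rfl
  | x :: a => by simp [smI, length_smI c a]

theorem H_smI (t u : ℝ) (c : ℤ) : ∀ a : List ℤ, H t u (smI c a) = c * H t u a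
  | [] => by simp [smI]
  | x :: a => by
    rw [smI, H_cons, H_cons, H_smI t u c a, length_smI]
    have h5 : ((Int.mul c x : ℤ) : ℝ) = (c : ℝ) * (x : ℝ) := Int.cast_mul _ _
    rw [h5]
    ring

/-- product -/
def mulI : List ℤ → List ℤ → List ℤ
  | [], _ => []
  | c :: p, r =>
    match p with
    | [] => smI c r
    | _ :: _ => addI (smI c r) (0 :: mulI p r)

theorem length_mulI : ∀ (a b : List ℤ), b ≠ [] → a ≠ [] →
    (mulI a b).length + 1 = a.length + b.length
  | [], b, _, ha => absurd rfl ha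
  | [c], b, _, _ => by simp [mulI, length_smI]; omega
  | c :: d :: p, b, hb, _ => by
    have h1 := length_mulI (d :: p) b hb (by simp)
    have h2 : 1 ≤ b.length := List.length_pos_iff.2 hb
    rw [mulI, length_addI, length_smI]
    simp only [List.length_cons] at h1 ⊢
    omega

theorem H_mulI (t u : ℝ) : ∀ (a b : List ℤ), b ≠ [] → H t u (mulI a b) = H t u a * H t u b
  | [], b, _ => by simp [mulI]
  | [c], b, _ => by
    rw [mulI, H_smI, H_cons, H_nil]
    simp
  | c :: d :: p, b, hb => by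
    have h1 := length_mulI (d :: p) b hb (by simp)
    have h2 : 1 ≤ b.length := List.length_pos_iff.2 hb
    have h3 : (smI c b).length ≤ (0 :: mulI (d :: p) b).length := by
      rw [length_smI]
      simp only [List.length_cons] at h1 ⊢
      omega
    rw [mulI, H_addI t u _ _ h3, H_smI, H_cons, H_mulI t u (d :: p) b hb, length_smI,
      H_cons t u c (d :: p)]
    have h4 : (0 :: mulI (d :: p) b).length - b.length = (d :: p).length := by
      simp only [List.length_cons] at h1 ⊢
      omega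
    rw [h4]
    push_cast
    ring

/-- `(a u + b t) ^ (m + k)` from the coefficient `k` on, `c` = the binomial coefficient -/
def bin (a b : ℤ) : ℕ → ℕ → ℕ → List ℤ
  | 0, k, c => [Int.mul (Int.ofNat c) (Int.pow b k)]
  | m + 1, k, c => Int.mul (Int.ofNat c) (Int.mul (Int.pow a (m + 1)) (Int.pow b k)) ::
      bin a b m (k + 1) (c * (m + 1) / (k + 1))

theorem length_bin (a b : ℤ) : ∀ m k c : ℕ, (bin a b m k c).length = m + 1
  | 0, k, c => rfl
  | m + 1, k, c => by simp [bin, length_bin a b m (k + 1)]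

theorem H_bin (t u : ℝ) (a b : ℤ) (n : ℕ) : ∀ m k : ℕ, m + k = n →
    t ^ k * H t u (bin a b m k (n.choose k)) =
      ∑ j ∈ Finset.Ico k (n + 1), (b * t) ^ j * (a * u) ^ (n - j) * (n.choose j : ℝ)
  | 0, k, h => by
    obtain rfl : k = n := by omega
    rw [bin, H_cons, H_nil, Nat.Ico_succ_singleton, Finset.sum_singleton]
    have h5 : ((Int.mul (Int.ofNat (k.choose k)) (Int.pow b k) : ℤ) : ℝ) =
        (k.choose k : ℝ) * (b : ℝ) ^ k := by
      have : Int.mul (Int.ofNat (k.choose k)) (Int.pow b k) = ((k.choose k : ℕ) : ℤ) * b ^ k := rfl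
      rw [this]; push_cast; ring
    rw [h5]
    simp [mul_pow]
    ring
  | m + 1, k, h => by
    have hk : k < n + 1 := by omega
    have hc : n.choose k * (m + 1) / (k + 1) = n.choose (k + 1) := by
      have h1 := Nat.choose_succ_right_eq n k
      have h2 : n - k = m + 1 := by omega
      rw [h2] at h1
      rw [← h1]
      exact Nat.mul_div_cancel _ (Nat.succ_pos k)
    have ih := H_bin t u a b n m (k + 1) (by omega)
    rw [bin, H_cons, length_bin, hc, Finset.sum_eq_sum_Ico_succ_bot hk, ← ih]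
    have h5 : ((Int.mul (Int.ofNat (n.choose k)) (Int.mul (Int.pow a (m + 1)) (Int.pow b k)) : ℤ)
        : ℝ) = (n.choose k : ℝ) * ((a : ℝ) ^ (m + 1) * (b : ℝ) ^ k) := by
      have : Int.mul (Int.ofNat (n.choose k)) (Int.mul (Int.pow a (m + 1)) (Int.pow b k)) =
        ((n.choose k : ℕ) : ℤ) * (a ^ (m + 1) * b ^ k) := rfl
      rw [this]; push_cast; ring
    have h6 : n - k = m + 1 := by omega
    rw [h5, h6, mul_pow, mul_pow]
    ring

theorem H_bin0 (t u : ℝ) (a b : ℤ) (n : ℕ) :
    H t u (bin a b n 0 1) = (b * t + a * u) ^ n := by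
  have h := H_bin t u a b n n 0 (by omega)
  rw [Nat.choose_zero_right, pow_zero, one_mul] at h
  rw [h, add_pow, Finset.range_eq_Ico]

/-- elevation by `m` -/
def elv (m : ℕ) (a : List ℤ) : List ℤ :=
  match m with
  | 0 => a
  | m + 1 => if Nat.ble (m + 2) a.length = true then mulI (bin 1 1 (m + 1) 0 1) a
    else mulI a (bin 1 1 (m + 1) 0 1)

theorem H_elv {t u : ℝ} (h : t + u = 1) (m : ℕ) {a : List ℤ} (ha : a ≠ []) :
    H t u (elv m a) = H t u a := by
  rcases m with _ | m
  · rfl
  · have hb : bin 1 1 (m + 1) 0 1 ≠ [] := by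
      intro h1
      have := length_bin 1 1 (m + 1) 0 1
      rw [h1] at this
      simp at this
    have h2 := H_bin0 t u 1 1 (m + 1)
    rw [elv]
    split_ifs
    · rw [H_mulI t u _ _ ha, h2]
      push_cast
      rw [one_mul, one_mul, h, one_pow, one_mul]
    · rw [H_mulI t u _ _ hb, h2]
      push_cast
      rw [one_mul, one_mul, h, one_pow, mul_one]

theorem length_elv (m : ℕ) {a : List ℤ} (ha : a ≠ []) : (elv m a).length = a.length + m := by
  rcases m with _ | m
  · rfl
  · have hb : bin 1 1 (m + 1) 0 1 ≠ [] := by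
      intro h1
      have := length_bin 1 1 (m + 1) 0 1
      rw [h1] at this
      simp at this
    have h3 := length_bin 1 1 (m + 1) 0 1
    rw [elv]
    split_ifs
    · have := length_mulI _ _ ha hb
      omega
    · have := length_mulI _ _ hb ha
      omega

/-- sum with elevation -/
def addE (a b : List ℤ) : List ℤ :=
  if Nat.ble a.length b.length = true then addI (elv (b.length - a.length) a) b
  else addI (elv (a.length - b.length) b) a

theorem H_addE {t u : ℝ} (h : t + u = 1) {a b : List ℤ} (ha : a ≠ []) (hb : b ≠ []) :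
    H t u (addE a b) = H t u a + H t u b := by
  unfold addE
  split_ifs with h1
  · have h1 := Nat.le_of_ble_eq_true h1
    have h2 := length_elv (b.length - a.length) ha
    rw [H_addI t u _ _ (by omega), H_elv h _ ha, h2]
    have : b.length - (a.length + (b.length - a.length)) = 0 := by omega
    rw [this, pow_zero, one_mul]
  · have h1 : b.length ≤ a.length := by
      by_contra h3
      exact h1 (Nat.ble_eq_true_of_le (by omega))
    have h2 := length_elv (a.length - b.length) hb
    rw [H_addI t u _ _ (by omega), H_elv h _ hb, h2]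
    have : a.length - (b.length + (a.length - b.length)) = 0 := by omega
    rw [this, pow_zero, one_mul]
    ring

theorem addE_ne {a b : List ℤ} (ha : a ≠ []) (hb : b ≠ []) : addE a b ≠ [] := by
  have h1 : 1 ≤ a.length := List.length_pos_iff.2 ha
  have h2 : 1 ≤ b.length := List.length_pos_iff.2 hb
  have : 1 ≤ (addE a b).length := by
    unfold addE
    split_ifs <;> rw [length_addI] <;> omega
  exact List.length_pos_iff.1 this

/-- product, the shorter factor first -/
def mulE (a b : List ℤ) : List ℤ :=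
  if Nat.ble a.length b.length = true then mulI a b else mulI b a

theorem H_mulE (t u : ℝ) {a b : List ℤ} (ha : a ≠ []) (hb : b ≠ []) :
    H t u (mulE a b) = H t u a * H t u b := by
  unfold mulE
  split_ifs
  · exact H_mulI t u a b hb
  · rw [H_mulI t u b a ha, mul_comm]

theorem mulE_ne {a b : List ℤ} (ha : a ≠ []) (hb : b ≠ []) : mulE a b ≠ [] := by
  have h1 : 1 ≤ a.length := List.length_pos_iff.2 ha
  have h2 : 1 ≤ b.length := List.length_pos_iff.2 hb
  have : 1 ≤ (mulE a b).length := by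
    unfold mulE
    split_ifs
    · have := length_mulI a b hb ha
      omega
    · have := length_mulI b a ha hb
      omega
  exact List.length_pos_iff.1 this

/-- power by multiplication -/
def pwI (a : List ℤ) : ℕ → List ℤ
  | 0 => [1]
  | n + 1 => mulE a (pwI a n)

theorem pwI_ne {a : List ℤ} (ha : a ≠ []) : ∀ n : ℕ, pwI a n ≠ []
  | 0 => by simp [pwI]
  | n + 1 => mulE_ne ha (pwI_ne ha n)

theorem H_pwI (t u : ℝ) {a : List ℤ} (ha : a ≠ []) : ∀ n : ℕ, H t u (pwI a n) = H t u a ^ n
  | 0 => by rw [pwI, H_cons]; simp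
  | n + 1 => by
    rw [pwI, H_mulE t u ha (pwI_ne ha n), H_pwI t u ha n, pow_succ, mul_comm]

/-- power -/
def pwE (a : List ℤ) (n : ℕ) : List ℤ :=
  match a with
  | [c] => [Int.pow c n]
  | [c, d] => bin c d n 0 1
  | a => pwI a n

theorem pwE_ne {a : List ℤ} (ha : a ≠ []) (n : ℕ) : pwE a n ≠ [] := by
  unfold pwE
  split
  · simp
  · rename_i c d
    intro h1
    have := length_bin c d n 0 1
    rw [h1] at this
    simp at this
  · exact pwI_ne ha n

theorem H_pwE (t u : ℝ) {a : List ℤ} (ha : a ≠ []) (n : ℕ) : H t u (pwE a n) = H t u a ^ n := by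
  unfold pwE
  split
  · rename_i c
    rw [H_cons, H_cons]
    have : ((Int.pow c n : ℤ) : ℝ) = (c : ℝ) ^ n := Int.cast_pow _ _
    simp
  · rename_i c d
    rw [H_bin0, H_cons, H_cons, H_nil]
    congr 1
    simp
    ring
  · exact H_pwI t u ha n

/-- From an expression to a list and a denominator, on `[l / m, r / m]`. -/
def toH (l r : ℤ) (m : ℕ) : Ex → List ℤ × ℕ
  | Ex.q a b => ([a], b)
  | Ex.x _ => ([l, r], m)
  | Ex.add e f =>
    match toH l r m e, toH l r m f with
    | (p, a), (s, b) => (addE (smI (Int.ofNat (Nat.lcm a b / a)) p)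
        (smI (Int.ofNat (Nat.lcm a b / b)) s), Nat.lcm a b)
  | Ex.sub e f =>
    match toH l r m e, toH l r m f with
    | (p, a), (s, b) => (addE (smI (Int.ofNat (Nat.lcm a b / a)) p)
        (smI (Int.neg (Int.ofNat (Nat.lcm a b / b))) s), Nat.lcm a b)
  | Ex.mul e f =>
    match toH l r m e, toH l r m f with
    | (p, a), (s, b) => (mulE p s, a * b)
  | Ex.pow e n =>
    match toH l r m e with
    | (p, a) => (pwE p n, a ^ n)

theorem smI_ne (c : ℤ) {a : List ℤ} (ha : a ≠ []) : smI c a ≠ [] := by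
  intro h
  have := length_smI c a
  rw [h] at this
  exact ha (List.length_eq_zero_iff.1 this.symm)

theorem toH_sound {t u : ℝ} (htu : t + u = 1) {l r : ℤ} {m : ℕ} (hm : 0 < m) : ∀ e : Ex,
    Ex.wf 1 e = true → (toH l r m e).1 ≠ [] ∧ 0 < (toH l r m e).2 ∧
      e.ev (fun _ => (l * u + r * t) / m) = H t u (toH l r m e).1 / (toH l r m e).2
  | Ex.q a b, h => by
    have hb : 0 < b := Nat.le_of_ble_eq_true h
    refine ⟨by simp [toH], hb, ?_⟩
    simp [toH, H_cons]
  | Ex.x i, h => by
    refine ⟨by simp [toH], hm, ?_⟩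
    simp [toH, H_cons]
    ring
  | Ex.add e f, h => by
    rw [Ex.wf, Bool.and_eq_true] at h
    obtain ⟨n1, a1, e1⟩ := toH_sound htu (l := l) (r := r) hm e h.1
    obtain ⟨n2, a2, e2⟩ := toH_sound htu (l := l) (r := r) hm f h.2
    rw [toH]
    rcases h1 : toH l r m e with ⟨p, a⟩
    rcases h2 : toH l r m f with ⟨s, b⟩
    rw [h1] at n1 a1 e1
    rw [h2] at n2 a2 e2
    simp only at *
    refine ⟨addE_ne (smI_ne _ n1) (smI_ne _ n2), Nat.lcm_pos a1 a2, ?_⟩
    rw [Ex.ev, e1, e2, H_addE htu (smI_ne _ n1) (smI_ne _ n2), H_smI, H_smI, add_div]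
    have h3 := lcm_div_aux a1 a2
    have h4 := lcm_div_aux a2 a1
    rw [Nat.lcm_comm] at h4
    have h5 : ∀ n : ℕ, ((Int.ofNat n : ℤ) : ℝ) = (n : ℝ) := fun n => by simp
    rw [h5, h5, mul_comm ((Nat.lcm a b / a : ℕ) : ℝ), mul_comm ((Nat.lcm a b / b : ℕ) : ℝ),
      mul_div_assoc, mul_div_assoc, h3, h4]
    ring
  | Ex.sub e f, h => by
    rw [Ex.wf, Bool.and_eq_true] at h
    obtain ⟨n1, a1, e1⟩ := toH_sound htu (l := l) (r := r) hm e h.1
    obtain ⟨n2, a2, e2⟩ := toH_sound htu (l := l) (r := r) hm f h.2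
    rw [toH]
    rcases h1 : toH l r m e with ⟨p, a⟩
    rcases h2 : toH l r m f with ⟨s, b⟩
    rw [h1] at n1 a1 e1
    rw [h2] at n2 a2 e2
    simp only at *
    refine ⟨addE_ne (smI_ne _ n1) (smI_ne _ n2), Nat.lcm_pos a1 a2, ?_⟩
    rw [Ex.ev, e1, e2, H_addE htu (smI_ne _ n1) (smI_ne _ n2), H_smI, H_smI, add_div]
    have h3 := lcm_div_aux a1 a2
    have h4 := lcm_div_aux a2 a1
    rw [Nat.lcm_comm] at h4
    have h5 : ∀ n : ℕ, ((Int.ofNat n : ℤ) : ℝ) = (n : ℝ) := fun n => by simp
    have h6 : ∀ n : ℕ, ((Int.neg (Int.ofNat n) : ℤ) : ℝ) = -(n : ℝ) := fun n => by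
      have : Int.neg (Int.ofNat n) = -(n : ℤ) := rfl
      rw [this]; simp
    rw [h5, h6, neg_mul, neg_div, mul_comm ((Nat.lcm a b / a : ℕ) : ℝ),
      mul_comm ((Nat.lcm a b / b : ℕ) : ℝ), mul_div_assoc, mul_div_assoc, h3, h4]
    ring
  | Ex.mul e f, h => by
    rw [Ex.wf, Bool.and_eq_true] at h
    obtain ⟨n1, a1, e1⟩ := toH_sound htu (l := l) (r := r) hm e h.1
    obtain ⟨n2, a2, e2⟩ := toH_sound htu (l := l) (r := r) hm f h.2
    rw [toH]
    rcases h1 : toH l r m e with ⟨p, a⟩
    rcases h2 : toH l r m f with ⟨s, b⟩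
    rw [h1] at n1 a1 e1
    rw [h2] at n2 a2 e2
    simp only at *
    refine ⟨mulE_ne n1 n2, Nat.mul_pos a1 a2, ?_⟩
    rw [Ex.ev, e1, e2, H_mulE t u n1 n2]
    push_cast
    rw [div_mul_div_comm]
  | Ex.pow e n, h => by
    rw [Ex.wf] at h
    obtain ⟨n1, a1, e1⟩ := toH_sound htu (l := l) (r := r) hm e h
    rw [toH]
    rcases h1 : toH l r m e with ⟨p, a⟩
    rw [h1] at n1 a1 e1
    simp only at *
    refine ⟨pwE_ne n1 n, Nat.pow_pos a1, ?_⟩
    rw [Ex.ev, e1, H_pwE t u n1]
    push_cast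
    rw [div_pow]

/-- all coefficients are nonnegative -/
def nnL : List ℤ → Bool
  | [] => true
  | x :: a => nnI x && nnL a

theorem H_nonneg {t u : ℝ} (ht : 0 ≤ t) (hu : 0 ≤ u) : ∀ a : List ℤ, nnL a = true → 0 ≤ H t u a
  | [], _ => le_rfl
  | x :: a, h => by
    rw [nnL, Bool.and_eq_true] at h
    have h1 := (nnI_iff _).1 h.1
    have h2 : (0 : ℝ) ≤ (x : ℝ) := by exact_mod_cast h1
    have h3 := H_nonneg ht hu a h.2
    rw [H_cons]
    positivity

/-- test of one interval -/
def testH (e : Ex) (l r : ℤ) (m : ℕ) : Bool := nnL (toH l r m e).1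

/-- bisection -/
def goH (e : Ex) : ℕ → ℤ → ℤ → ℕ → Bool
  | 0, l, r, m => testH e l r m
  | f + 1, l, r, m => testH e l r m ||
    (goH e f (Int.mul 2 l) (Int.add l r) (2 * m) && goH e f (Int.add l r) (Int.mul 2 r) (2 * m))

/-- **The check** on `[l / m, r / m]`. -/
def chkH (fuel : ℕ) (e : Ex) (b : Iv) : Bool :=
  Ex.wf 1 e && Nat.ble 1 b.m && goH e fuel b.l b.r b.m

theorem testH_sound {e : Ex} (hw : Ex.wf 1 e = true) {l r : ℤ} {m : ℕ} (hm : 0 < m)
    (h : testH e l r m = true) {x : ℝ} (h0 : (l : ℝ) / m ≤ x) (h1 : x ≤ (r : ℝ) / m) :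
    0 ≤ e.ev fun _ => x := by
  have hm' : (0 : ℝ) < m := by exact_mod_cast hm
  have h0' : (l : ℝ) ≤ x * m := (div_le_iff₀ hm').1 h0
  have h1' : x * m ≤ (r : ℝ) := (le_div_iff₀ hm').1 h1
  obtain ⟨t, ht, ht1, ex⟩ : ∃ t : ℝ, 0 ≤ t ∧ t ≤ 1 ∧ x = ((l : ℝ) * (1 - t) + r * t) / m := by
    rcases (h0'.trans h1').eq_or_lt with h2 | h2
    · refine ⟨0, le_rfl, zero_le_one, ?_⟩
      rw [eq_div_iff hm'.ne']
      linarith
    · have hd : 0 < (r : ℝ) - l := by linarith
      refine ⟨(x * m - l) / (r - l), div_nonneg (by linarith) hd.le, ?_, ?_⟩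
      · rw [div_le_one hd]; linarith
      · field_simp
        ring
  have hs := (toH_sound (t := t) (u := 1 - t) (by ring) (l := l) (r := r) hm e hw)
  rw [ex, hs.2.2]
  exact div_nonneg (H_nonneg ht (by linarith) _ h) (by positivity)

theorem goH_sound {e : Ex} (hw : Ex.wf 1 e = true) : ∀ (f : ℕ) (l r : ℤ) (m : ℕ), 0 < m →
    goH e f l r m = true → ∀ x : ℝ, (l : ℝ) / m ≤ x → x ≤ (r : ℝ) / m → 0 ≤ e.ev fun _ => x
  | 0, l, r, m, hm, h, x, h0, h1 => testH_sound hw hm h h0 h1
  | f + 1, l, r, m, hm, h, x, h0, h1 => by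
    rw [goH, Bool.or_eq_true, Bool.and_eq_true] at h
    rcases h with h | ⟨h2, h3⟩
    · exact testH_sound hw hm h h0 h1
    · have hm' : (0 : ℝ) < m := by exact_mod_cast hm
      have c1 : ((Int.mul 2 l : ℤ) : ℝ) / ((2 * m : ℕ) : ℝ) = (l : ℝ) / m := by
        have : Int.mul 2 l = 2 * l := rfl
        rw [this]; push_cast; field_simp
      have c2 : ((Int.mul 2 r : ℤ) : ℝ) / ((2 * m : ℕ) : ℝ) = (r : ℝ) / m := by
        have : Int.mul 2 r = 2 * r := rfl
        rw [this]; push_cast; field_simp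
      rcases le_total x (((Int.add l r : ℤ) : ℝ) / ((2 * m : ℕ) : ℝ)) with h4 | h4
      · exact goH_sound hw f _ _ _ (by omega) h2 x (by rw [c1]; exact h0) h4
      · exact goH_sound hw f _ _ _ (by omega) h3 x h4 (by rw [c2]; exact h1)

/-- **Soundness.** -/
theorem chkH_sound {fuel : ℕ} {e : Ex} {b : Iv} (h : chkH fuel e b = true) {x : ℝ}
    (h0 : (b.l : ℝ) / b.m ≤ x) (h1 : x ≤ (b.r : ℝ) / b.m) : 0 ≤ e.ev fun _ => x := by
  unfold chkH at h
  rw [Bool.and_eq_true, Bool.and_eq_true] at h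
  exact goH_sound h.1.1 fuel b.l b.r b.m (Nat.le_of_ble_eq_true h.1.2) h.2 x h0 h1

end Pool.Agent.T6A.BernH
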