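import Mathlib

/-!
# T6-A, CERT (C3) and side conditions for the constants of BLUEPRINT.md v1 (helper81)

`s = σ`, `Q ≥ 14.99`, `D ≥ 0` real, hub `h ∈ [0, 1]`, `ξ = s + 321/1000`,
`N = max (57/20) (31/20 + D/7)`, `B = max (39/10) (49 D/100)`, `W ≥ 1 + Q - s - h s - 1/1000`,
`m = ξ` for `D + 2 h ≤ 2 Q`, `m = min 1 (ξ + (27/100) t)` with `t = (D + 2 h - 2 Q)/(2 Q)` otherwise,
`e = (ξ + m²/ξ)/2`, `Z = W - s N + s D e`.
-/

set_option autoImplicit false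

namespace Pool.Agent.T6A.C3

/-- the value of `m` -/
noncomputable def mD (s Q D h : ℝ) : ℝ :=
  if D + 2 * h ≤ 2 * Q then s + 321 / 1000
  else min 1 (s + 321 / 1000 + 27 / 100 * ((D + 2 * h - 2 * Q) / (2 * Q)))

/-- `e = (ξ + m²/ξ)/2` -/
noncomputable def eD (s m : ℝ) : ℝ := (s + 321 / 1000 + m ^ 2 / (s + 321 / 1000)) / 2

lemma eD_self {s : ℝ} (hs : 0 ≤ s) : eD s (s + 321 / 1000) = s + 321 / 1000 := by
  unfold eD
  have : s + 321 / 1000 ≠ 0 := by positivity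
  field_simp
  ring

lemma eD_le {s t m : ℝ} (hs : 499 / 1000 ≤ s) (ht : 0 ≤ t) (hm : m = s + 321 / 1000 + 27 / 100 * t)
    (hm1 : m ≤ 1) : eD s m ≤ s + 321 / 1000 + 3 / 10 * t := by
  have h0 : 0 < s + 321 / 1000 := by linarith
  have h1 : m ^ 2 / (s + 321 / 1000) ≤ s + 321 / 1000 + 6 / 10 * t := by
    rw [div_le_iff₀ h0]
    subst hm
    nlinarith
  unfold eD
  linarith

lemma le_eD {s t m : ℝ} (hs : 499 / 1000 ≤ s) (hm : m = s + 321 / 1000 + 27 / 100 * t) :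
    s + 321 / 1000 + 27 / 100 * t ≤ eD s m := by
  have h0 : 0 < s + 321 / 1000 := by linarith
  have h1 : s + 321 / 1000 + 54 / 100 * t ≤ m ^ 2 / (s + 321 / 1000) := by
    rw [le_div_iff₀ h0]
    subst hm
    nlinarith [sq_nonneg t]
  unfold eD
  linarith

/-- the case `D + 2 h ≤ 2 Q`, `B = 49 D/100` -/
lemma c3a {s Q D h W : ℝ} (hs : 499 / 1000 ≤ s) (hs' : s ≤ 31 / 50) (hQ : 1499 / 100 ≤ Q)
    (hh : 0 ≤ h) (hD : D + 2 * h ≤ 2 * Q)
    (hW : 1 + Q - s - h * s - 1 / 1000 ≤ W) :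
    (1 - (s + 321 / 1000)) * (W - s * (31 / 20 + D / 7) + s * D * (s + 321 / 1000)) ≤
      (s + 321 / 1000) * (W - 2 * s) - 49 / 100 * D * s := by
  -- reduce to the least `W`
  have e1 : (s + 321 / 1000) * (W - 2 * s) - 49 / 100 * D * s -
      (1 - (s + 321 / 1000)) * (W - s * (31 / 20 + D / 7) + s * D * (s + 321 / 1000)) =
      (2 * (s + 321 / 1000) - 1) * (W - (1 + Q - s - h * s - 1 / 1000)) +
      ((s + 321 / 1000) * (1 + Q - s - h * s - 1 / 1000 - 2 * s) - 49 / 100 * D * s -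
      (1 - (s + 321 / 1000)) * (1 + Q - s - h * s - 1 / 1000 - s * (31 / 20 + D / 7) +
        s * D * (s + 321 / 1000))) := by ring
  have h1 : 0 ≤ (2 * (s + 321 / 1000) - 1) * (W - (1 + Q - s - h * s - 1 / 1000)) :=
    mul_nonneg (by linarith) (by linarith)
  -- the coefficient of `D`
  have h2 : 0 ≤ s * (49 / 100 + (1 - (s + 321 / 1000)) * (s + 321 / 1000 - 1 / 7)) *
      (2 * Q - 2 * h - D) :=
    mul_nonneg (mul_nonneg (by linarith) (by nlinarith)) (by linarith)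
  -- the coefficient of `Q`
  have h3 : 0 ≤ (2 * (s + 321 / 1000) - 1 -
      2 * s * (49 / 100 + (1 - (s + 321 / 1000)) * (s + 321 / 1000 - 1 / 7))) *
      (Q - 1499 / 100) := by
    refine mul_nonneg ?_ (by linarith)
    nlinarith [mul_nonneg (sub_nonneg.2 hs) (sub_nonneg.2 hs'),
      mul_nonneg (mul_nonneg (sub_nonneg.2 hs) (sub_nonneg.2 hs')) (sub_nonneg.2 hs)]
  have h4 : 0 ≤ (s + 321 / 1000) * (15989 / 1000 - 3 * s) - 98 / 100 * s * (1499 / 100) -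
      (1 - (s + 321 / 1000)) * (15989 / 1000 - s - 31 / 20 * s +
        2 * (1499 / 100) * s * (s + 321 / 1000 - 1 / 7)) := by
    nlinarith [mul_nonneg (sub_nonneg.2 hs) (sub_nonneg.2 hs'),
      mul_nonneg (mul_nonneg (sub_nonneg.2 hs) (sub_nonneg.2 hs')) (sub_nonneg.2 hs)]
  have h5 : 0 ≤ h * (s * (98 / 100 - (s + 321 / 1000) + (1 - (s + 321 / 1000)) *
      (1 + 2 * (s + 321 / 1000 - 1 / 7)))) := by
    refine mul_nonneg hh (mul_nonneg (by linarith) ?_)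
    nlinarith
  have h6 : (s + 321 / 1000) * (W - 2 * s) - 49 / 100 * D * s -
      (1 - (s + 321 / 1000)) * (W - s * (31 / 20 + D / 7) + s * D * (s + 321 / 1000)) =
      (2 * (s + 321 / 1000) - 1) * (W - (1 + Q - s - h * s - 1 / 1000)) +
      s * (49 / 100 + (1 - (s + 321 / 1000)) * (s + 321 / 1000 - 1 / 7)) *
      (2 * Q - 2 * h - D) +
      (2 * (s + 321 / 1000) - 1 -
      2 * s * (49 / 100 + (1 - (s + 321 / 1000)) * (s + 321 / 1000 - 1 / 7))) *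
      (Q - 1499 / 100) +
      ((s + 321 / 1000) * (15989 / 1000 - 3 * s) - 98 / 100 * s * (1499 / 100) -
      (1 - (s + 321 / 1000)) * (15989 / 1000 - s - 31 / 20 * s +
        2 * (1499 / 100) * s * (s + 321 / 1000 - 1 / 7))) +
      h * (s * (98 / 100 - (s + 321 / 1000) + (1 - (s + 321 / 1000)) *
      (1 + 2 * (s + 321 / 1000 - 1 / 7)))) := by
    ring
  linarith

/-- the case `D + 2 h ≥ 2 Q`: `D + 2 h = 2 Q (1 + t)`, with `u = s - 499/1000` -/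
lemma c3b {s Q D h W t m e : ℝ} (hs : 499 / 1000 ≤ s) (hs' : s ≤ 31 / 50) (hQ : 1499 / 100 ≤ Q)
    (hh : 0 ≤ h) (hh' : h ≤ 1) (ht : 0 ≤ t) (hD : D + 2 * h = 2 * Q * (1 + t))
    (hm : m = s + 321 / 1000 + 27 / 100 * t) (hm1 : m ≤ 1)
    (he : e ≤ s + 321 / 1000 + 3 / 10 * t) (hW : 1 + Q - s - h * s - 1 / 1000 ≤ W) :
    (1 - m) * (W - s * (31 / 20 + D / 7) + s * D * e) ≤ m * (W - 2 * s) - 49 / 100 * D * s := by
  have hD0 : 0 ≤ D := by nlinarith
  have hu : 0 ≤ s - 499 / 1000 := by linarith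
  have hw : 0 ≤ 1 - m := by linarith
  -- replace `e`
  have h0 : (1 - m) * (s * D * e) ≤ (1 - m) * (s * D * (s + 321 / 1000 + 3 / 10 * t)) :=
    mul_le_mul_of_nonneg_left (mul_le_mul_of_nonneg_left he (by positivity)) hw
  have h1 : 0 ≤ (2 * m - 1) * (W - (1 + Q - s - h * s - 1 / 1000)) :=
    mul_nonneg (by linarith) (by linarith)
  -- the coefficient of `Q`
  have h3 : 0 ≤ (2 * m - 1 - 98 / 100 * s * (1 + t) -
      2 * s * (1 + t) * (1 - m) * (s + 321 / 1000 + 3 / 10 * t - 1 / 7)) := by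
    rw [hm] at hw ⊢
    have ht1 : t ≤ 2 / 3 := by linarith
    nlinarith [mul_nonneg hu ht, mul_nonneg hw ht, mul_nonneg hw hu, mul_nonneg (mul_nonneg hw ht) hu,
      mul_nonneg ht (sub_nonneg.2 ht1), mul_nonneg (mul_nonneg ht ht) hw,
      mul_nonneg (mul_nonneg ht ht) hu, mul_nonneg hu (sub_nonneg.2 hs')]
  have h4 : 0 ≤ 1499 / 100 * (2 * m - 1 - 98 / 100 * s * (1 + t) -
      2 * s * (1 + t) * (1 - m) * (s + 321 / 1000 + 3 / 10 * t - 1 / 7)) + (m * (999 / 1000 - (3 + 0) * s) + 98 / 100 * 0 * s - (1 - m) *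
      (999 / 1000 - (1 + 0) * s - 31 / 20 * s -
        2 * 0 * s * (s + 321 / 1000 + 3 / 10 * t - 1 / 7))) := by
    rw [hm] at hw ⊢
    have ht1 : t ≤ 2 / 3 := by linarith
    nlinarith [mul_nonneg hu ht, mul_nonneg hw ht, mul_nonneg hw hu, mul_nonneg (mul_nonneg hw ht) hu,
      mul_nonneg ht (sub_nonneg.2 ht1), mul_nonneg (mul_nonneg ht ht) hw,
      mul_nonneg (mul_nonneg ht ht) hu, mul_nonneg hu (sub_nonneg.2 hs')]
  have h5 : 0 ≤ 1499 / 100 * (2 * m - 1 - 98 / 100 * s * (1 + t) -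
      2 * s * (1 + t) * (1 - m) * (s + 321 / 1000 + 3 / 10 * t - 1 / 7)) + (m * (999 / 1000 - (3 + 1) * s) + 98 / 100 * 1 * s - (1 - m) *
      (999 / 1000 - (1 + 1) * s - 31 / 20 * s -
        2 * 1 * s * (s + 321 / 1000 + 3 / 10 * t - 1 / 7))) := by
    rw [hm] at hw ⊢
    have ht1 : t ≤ 2 / 3 := by linarith
    nlinarith [mul_nonneg hu ht, mul_nonneg hw ht, mul_nonneg hw hu, mul_nonneg (mul_nonneg hw ht) hu,
      mul_nonneg ht (sub_nonneg.2 ht1), mul_nonneg (mul_nonneg ht ht) hw,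
      mul_nonneg (mul_nonneg ht ht) hu, mul_nonneg hu (sub_nonneg.2 hs')]
  have h6 := mul_nonneg h3 (by linarith : (0 : ℝ) ≤ Q - 1499 / 100)
  have h7 := mul_nonneg (by linarith : (0 : ℝ) ≤ 1 - h) h4
  have h8 := mul_nonneg hh h5
  have e1 : D = 2 * Q * (1 + t) - 2 * h := by linarith
  rw [e1] at h0 ⊢
  linarith

end Pool.Agent.T6A.C3
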