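import Pool.Agent.T6A.Line3
import Pool.Agent.T6A.Cert19Tab

/-!
# LINE for CERT v3, range `19/8 ≤ q ≤ 3`, box 1: the certificates (MP_c6effb_co)

`2.374 ≤ q ≤ 3.001`, `0.50 ≤ s ≤ 0.53`; found by computer, checked by the kernel.
-/

set_option autoImplicit false

namespace Pool.Agent.T6A.C19.B1

open Bern Line3

/-- The box. -/
def box : List Iv := mkBox 2374 3001 500 530 1000

/-- Certificate, degree 0, type 0. -/
def c0_0 : Cert :=
  Cert.void (Tr.dead 1)

/-- Certificate, degree 0, type 1. -/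
def c0_1 : Cert :=
  Cert.void (Tr.dead 1)

/-- Certificate, degree 0, type 2. -/
def c0_2 : Cert :=
  Cert.ch
    []
    (Tr.lf [],
      Tr.lf [])

/-- Degree 0. -/
def en0 : Entry := ⟨par1 0, rows1 0, c0_0, c0_1, c0_2⟩

theorem en0_ok : en0.chk g1 0 box = true := by decide +kernel

/-- Certificate, degree 1, type 0. -/
def c1_0 : Cert :=
  Cert.void (Tr.dead 1)

/-- Certificate, degree 1, type 1. -/
def c1_1 : Cert :=
  Cert.void (Tr.dead 1)

/-- Certificate, degree 1, type 2. -/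
def c1_2 : Cert :=
  Cert.ch
    []
    (Tr.lf [],
      Tr.lf [])

/-- Degree 1. -/
def en1 : Entry := ⟨par1 1, rows1 1, c1_0, c1_1, c1_2⟩

theorem en1_ok : en1.chk g1 0 box = true := by decide +kernel

/-- Certificate, degree 2, type 0. -/
def c2_0 : Cert :=
  Cert.void (Tr.dead 1)

/-- Certificate, degree 2, type 1. -/
def c2_1 : Cert :=
  Cert.void (Tr.dead 1)

/-- Certificate, degree 2, type 2. -/
def c2_2 : Cert :=
  Cert.ch
    []
    (Tr.lf [],
      Tr.lf [])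

/-- Degree 2. -/
def en2 : Entry := ⟨par1 2, rows1 2, c2_0, c2_1, c2_2⟩

theorem en2_ok : en2.chk g1 0 box = true := by decide +kernel

/-- Certificate, degree 3, type 0. -/
def c3_0 : Cert :=
  Cert.void (Tr.dead 1)

/-- Certificate, degree 3, type 1. -/
def c3_1 : Cert :=
  Cert.void (Tr.dead 1)

/-- Certificate, degree 3, type 2. -/
def c3_2 : Cert :=
  Cert.ch
    []
    (Tr.lf [],
      Tr.lf [])

/-- Degree 3. -/
def en3 : Entry := ⟨par1 3, rows1 3, c3_0, c3_1, c3_2⟩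

theorem en3_ok : en3.chk g1 0 box = true := by decide +kernel

/-- Certificate, degree 4, type 0. -/
def c4_0 : Cert :=
  Cert.void (Tr.dead 1)

/-- Certificate, degree 4, type 1. -/
def c4_1 : Cert :=
  Cert.ch
    []
    (Tr.lf [],
      Tr.lf [])

/-- Certificate, degree 4, type 2. -/
def c4_2 : Cert :=
  Cert.ch
    []
    (Tr.lf [(0, 1), (5, 1)],
      Tr.lf [])

/-- Degree 4. -/
def en4 : Entry := ⟨par1 4, rows1 4, c4_0, c4_1, c4_2⟩

theorem en4_ok : en4.chk g1 0 box = true := by decide +kernel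

/-- Certificate, degree 5, type 0. -/
def c5_0 : Cert :=
  Cert.ch
    [⟨rq 1900 23839 9849 2681 7470 20 63580 10068,
      Tr.sp 0 (Tr.sp 1 (Tr.sp 1 (Tr.lf [(0, 1), (11, 10)]) (Tr.lf [(0, 1), (13, 10)])) (Tr.dead 1)) (Tr.lf [(0, 1), (1, 1)]),
      Tr.lf [],
      Tr.lf [],
      Tr.lf [(0, 1), (0, 1), (9, 10)],
      Tr.lf [],
      Tr.lf []⟩,
    ⟨rq 1875 23760 9833 2581 7586 20 63340 10068,
      Tr.lf [(0, 1), (0, 1), (31, 50)],
      Tr.lf [],
      Tr.lf [],
      Tr.lf [(0, 1), (0, 1), (0, 1), (9, 10)],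
      Tr.lf [],
      Tr.lf []⟩,
    ⟨rq 1850 23681 9817 2483 7700 20 63120 10068,
      Tr.sp 1 (Tr.lf [(0, 1), (0, 1), (3, 5)]) (Tr.dead 1),
      Tr.lf [],
      Tr.lf [],
      Tr.lf [],
      Tr.lf [],
      Tr.lf []⟩,
    ⟨rq 1825 23601 9800 2385 7815 20 62880 10068,
      Tr.sp 1 (Tr.lf [(0, 1), (0, 1), (3, 5)]) (Tr.dead 1),
      Tr.lf [],
      Tr.lf [],
      Tr.lf [],
      Tr.lf [],
      Tr.lf []⟩,
    ⟨rq 1800 23520 9782 2287 7931 20 62660 10068,
      Tr.sp 1 (Tr.lf [(0, 1), (0, 1), (31, 50)]) (Tr.dead 1),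
      Tr.lf [],
      Tr.lf [],
      Tr.lf [],
      Tr.lf [],
      Tr.lf []⟩,
    ⟨rq 1775 23439 9763 2190 8047 20 62420 10068,
      Tr.lf [(0, 1), (0, 1), (93, 125)],
      Tr.lf [],
      Tr.lf [],
      Tr.lf [],
      Tr.lf [],
      Tr.lf []⟩,
    ⟨rq 1750 23357 9743 2093 8164 20 62200 10068,
      Tr.lf [(0, 1), (0, 1), (3, 4)],
      Tr.lf [],
      Tr.lf [],
      Tr.lf [],
      Tr.lf [],
      Tr.lf []⟩,
    ⟨rq 1725 23275 9722 1997 8281 20 61960 10068,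
      Tr.lf [(0, 1), (0, 1), (4, 5)],
      Tr.lf [],
      Tr.lf [],
      Tr.lf [],
      Tr.lf [],
      Tr.lf []⟩,
    ⟨rq 1700 23192 9700 1902 8398 20 61720 10068,
      Tr.lf [(0, 1), (0, 1), (4, 5)],
      Tr.lf [],
      Tr.lf [],
      Tr.lf [],
      Tr.lf [],
      Tr.lf []⟩,
    ⟨rq 1675 23109 9676 1806 8518 20 61500 10068,
      Tr.lf [(0, 1), (0, 1), (4, 5)],
      Tr.lf [],
      Tr.lf [],
      Tr.lf [],
      Tr.lf [],
      Tr.lf []⟩]
    (Tr.dead 2,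
      Tr.dead 2)

/-- Certificate, degree 5, type 1. -/
def c5_1 : Cert :=
  Cert.ch
    []
    (Tr.lf [],
      Tr.lf [])

/-- Certificate, degree 5, type 2. -/
def c5_2 : Cert :=
  Cert.ch
    []
    (Tr.lf [(0, 1), (7, 1)],
      Tr.lf [(0, 1), (5, 1)])

/-- Degree 5. -/
def en5 : Entry := ⟨par1 5, rows1 5, c5_0, c5_1, c5_2⟩

theorem en5_ok : en5.chk g1 0 box = true := by decide +kernel

/-- Certificate, degree 6, type 0. -/
def c6_0 : Cert :=
  Cert.ch
    [⟨rq 1900 28661 9937 3660 6403 20 75000 10000,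
      Tr.lf [],
      Tr.lf [],
      Tr.lf [],
      Tr.lf [(0, 1), (0, 1), (1, 1)],
      Tr.lf [],
      Tr.lf []⟩,
    ⟨rq 1825 28349 9906 3325 6769 20 74140 10000,
      Tr.lf [(0, 1), (0, 1), (4, 5)],
      Tr.lf [],
      Tr.lf [],
      Tr.lf [(0, 1), (0, 1), (0, 1), (1, 1)],
      Tr.lf [],
      Tr.lf []⟩,
    ⟨rq 1725 27924 9854 2885 7261 20 72980 10000,
      Tr.lf [(0, 1), (0, 1), (43, 50)],
      Tr.lf [],
      Tr.lf [],
      Tr.lf [],
      Tr.lf [],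
      Tr.lf []⟩,
    ⟨rq 1625 27486 9786 2449 7765 20 71820 10000,
      Tr.lf [(0, 1), (0, 1), (9, 10)],
      Tr.lf [],
      Tr.lf [],
      Tr.lf [],
      Tr.lf [],
      Tr.lf []⟩,
    ⟨rq 1500 26921 9677 1916 8407 20 70360 10000,
      Tr.lf [(0, 1), (0, 1), (1, 1)],
      Tr.lf [],
      Tr.lf [],
      Tr.lf [],
      Tr.lf [],
      Tr.lf []⟩,
    ⟨rq 1300 25967 9437 1096 9467 20 68040 10000,
      Tr.lf [(0, 1), (0, 1), (13, 10)],
      Tr.lf [],
      Tr.lf [],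
      Tr.lf [],
      Tr.lf [],
      Tr.lf []⟩]
    (Tr.dead 2,
      Tr.dead 2)

/-- Certificate, degree 6, type 1. -/
def c6_1 : Cert :=
  Cert.ch
    []
    (Tr.lf [],
      Tr.lf [])

/-- Certificate, degree 6, type 2. -/
def c6_2 : Cert :=
  Cert.void (Tr.dead 1)

/-- Degree 6. -/
def en6 : Entry := ⟨par1 6, rows1 6, c6_0, c6_1, c6_2⟩

theorem en6_ok : en6.chk g1 0 box = true := by decide +kernel

/-- Certificate, degree 7, type 0. -/
def c7_0 : Cert :=
  Cert.ch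
    [⟨rq 1425 30926 9715 2132 8153 2000 67320 10000,
      Tr.lf [],
      Tr.lf [],
      Tr.lf [],
      Tr.lf [],
      Tr.lf [],
      Tr.lf []⟩,
    ⟨rq 1075 28749 9241 596 10163 2000 62500 10000,
      Tr.lf [(0, 1), (0, 1), (2, 1)],
      Tr.lf [],
      Tr.lf [],
      Tr.lf [],
      Tr.lf [],
      Tr.lf []⟩]
    (Tr.lf [(0, 1), (0, 1), (3, 1)],
      Tr.lf [])

/-- Certificate, degree 7, type 1. -/
def c7_1 : Cert :=
  Cert.ch
    []
    (Tr.lf [],
      Tr.lf [])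

/-- Certificate, degree 7, type 2. -/
def c7_2 : Cert :=
  Cert.void (Tr.dead 1)

/-- Degree 7. -/
def en7 : Entry := ⟨par1 7, rows1 7, c7_0, c7_1, c7_2⟩

theorem en7_ok : en7.chk g1 0 box = true := by decide +kernel

/-- Certificate, degree 8, type 0. -/
def c8_0 : Cert :=
  Cert.ch
    [⟨rq 1100 32909 9418 1021 9561 2000 70360 10000,
      Tr.lf [],
      Tr.lf [],
      Tr.lf [],
      Tr.lf [],
      Tr.lf [],
      Tr.lf []⟩]
    (Tr.lf [(0, 1), (0, 1), (3, 1)],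
      Tr.lf [])

/-- Certificate, degree 8, type 1. -/
def c8_1 : Cert :=
  Cert.ch
    []
    (Tr.lf [],
      Tr.lf [])

/-- Certificate, degree 8, type 2. -/
def c8_2 : Cert :=
  Cert.void (Tr.dead 1)

/-- Degree 8. -/
def en8 : Entry := ⟨par1 8, rows1 8, c8_0, c8_1, c8_2⟩

theorem en8_ok : en8.chk g1 0 box = true := by decide +kernel

/-- Certificate, degree 9, type 0. -/
def c9_0 : Cert :=
  Cert.ch
    []
    (Tr.lf [],
      Tr.lf [])

/-- Certificate, degree 9, type 1. -/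
def c9_1 : Cert :=
  Cert.ch
    []
    (Tr.lf [],
      Tr.lf [])

/-- Certificate, degree 9, type 2. -/
def c9_2 : Cert :=
  Cert.void (Tr.dead 1)

/-- Degree 9. -/
def en9 : Entry := ⟨par1 9, rows1 9, c9_0, c9_1, c9_2⟩

theorem en9_ok : en9.chk g1 0 box = true := by decide +kernel

/-- Certificate, degree 10, type 0. -/
def c10_0 : Cert :=
  Cert.ch
    []
    (Tr.lf [],
      Tr.lf [])

/-- Certificate, degree 10, type 1. -/
def c10_1 : Cert :=
  Cert.ch
    []
    (Tr.lf [],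
      Tr.lf [])

/-- Certificate, degree 10, type 2. -/
def c10_2 : Cert :=
  Cert.void (Tr.dead 1)

/-- Degree 10. -/
def en10 : Entry := ⟨par1 10, rows1 10, c10_0, c10_1, c10_2⟩

theorem en10_ok : en10.chk g1 0 box = true := by decide +kernel

/-- Certificate, degree 11, type 0. -/
def c11_0 : Cert :=
  Cert.ch
    []
    (Tr.lf [],
      Tr.lf [])

/-- Certificate, degree 11, type 1. -/
def c11_1 : Cert :=
  Cert.ch
    []
    (Tr.lf [],
      Tr.lf [])

/-- Certificate, degree 11, type 2. -/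
def c11_2 : Cert :=
  Cert.void (Tr.dead 1)

/-- Degree 11. -/
def en11 : Entry := ⟨par1 11, rows1 11, c11_0, c11_1, c11_2⟩

theorem en11_ok : en11.chk g1 0 box = true := by decide +kernel

/-- Certificate, degree 12, type 0. -/
def c12_0 : Cert :=
  Cert.ch
    []
    (Tr.lf [],
      Tr.lf [])

/-- Certificate, degree 12, type 1. -/
def c12_1 : Cert :=
  Cert.void (Tr.dead 0)

/-- Certificate, degree 12, type 2. -/
def c12_2 : Cert :=
  Cert.void (Tr.dead 1)

/-- Degree 12. -/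
def en12 : Entry := ⟨par1 12, rows1 12, c12_0, c12_1, c12_2⟩

theorem en12_ok : en12.chk g1 0 box = true := by decide +kernel

/-- Certificate, degree 13, type 0. -/
def c13_0 : Cert :=
  Cert.ch
    []
    (Tr.lf [],
      Tr.lf [])

/-- Certificate, degree 13, type 1. -/
def c13_1 : Cert :=
  Cert.void (Tr.dead 0)

/-- Certificate, degree 13, type 2. -/
def c13_2 : Cert :=
  Cert.void (Tr.dead 1)

/-- Degree 13. -/
def en13 : Entry := ⟨par1 13, rows1 13, c13_0, c13_1, c13_2⟩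

theorem en13_ok : en13.chk g1 0 box = true := by decide +kernel

/-- All entries. -/
def ent : List Entry :=
  [en0, en1, en2, en3, en4, en5, en6, en7, en8, en9, en10, en11, en12, en13]

theorem ent_map : ent.map (fun e => (e.p, e.rows)) = tab1 := rfl

theorem ent_ok : ∀ e ∈ ent, e.chk g1 0 box = true := by
  intro e he
  simp only [ent, List.mem_cons, List.not_mem_nil, or_false] at he
  rcases he with rfl | rfl | rfl | rfl | rfl | rfl | rfl | rfl | rfl | rfl | rfl | rfl | rfl | rfl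
  · exact en0_ok
  · exact en1_ok
  · exact en2_ok
  · exact en3_ok
  · exact en4_ok
  · exact en5_ok
  · exact en6_ok
  · exact en7_ok
  · exact en8_ok
  · exact en9_ok
  · exact en10_ok
  · exact en11_ok
  · exact en12_ok
  · exact en13_ok

theorem ent_deg : ∀ d : ℕ, d < 14 → ∃ e ∈ ent, e.p.d = d := by
  intro d hd
  interval_cases d
  · exact ⟨en0, by simp [ent], rfl⟩
  · exact ⟨en1, by simp [ent], rfl⟩
  · exact ⟨en2, by simp [ent], rfl⟩
  · exact ⟨en3, by simp [ent], rfl⟩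
  · exact ⟨en4, by simp [ent], rfl⟩
  · exact ⟨en5, by simp [ent], rfl⟩
  · exact ⟨en6, by simp [ent], rfl⟩
  · exact ⟨en7, by simp [ent], rfl⟩
  · exact ⟨en8, by simp [ent], rfl⟩
  · exact ⟨en9, by simp [ent], rfl⟩
  · exact ⟨en10, by simp [ent], rfl⟩
  · exact ⟨en11, by simp [ent], rfl⟩
  · exact ⟨en12, by simp [ent], rfl⟩
  · exact ⟨en13, by simp [ent], rfl⟩

/-- **LINE, box 1.** -/
theorem line : LineS g1 tab1 (2374 / 1000) (3001 / 1000) (500 / 1000) (530 / 1000) := by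
  have h := lineS_of_chk (g := g1) (fuel := 0) (q0 := 2374) (q1 := 3001) (s0 := 500) (s1 := 530)
    (m := 1000) (D := 14) ent (by norm_num) (by norm_num) (by norm_num)
    (by norm_num [g1]) ent_ok ent_deg (by norm_num [g1])
  rw [ent_map] at h
  have e1 : ((2374 : ℤ) : ℚ) / ((1000 : ℕ) : ℚ) = 2374 / 1000 := by norm_num
  have e2 : ((3001 : ℤ) : ℚ) / ((1000 : ℕ) : ℚ) = 3001 / 1000 := by norm_num
  have e3 : ((500 : ℤ) : ℚ) / ((1000 : ℕ) : ℚ) = 500 / 1000 := by norm_num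
  have e4 : ((530 : ℤ) : ℚ) / ((1000 : ℕ) : ℚ) = 530 / 1000 := by norm_num
  rw [e1, e2, e3, e4] at h
  exact h

end Pool.Agent.T6A.C19.B1
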