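import Pool.Agent.T6A.Line3
import Pool.Agent.T6A.Cert19Tab

/-!
# LINE for CERT v3, range `19/8 ≤ q ≤ 3`, box 2: the certificates (MP_c6effb_co)

`2.374 ≤ q ≤ 3.001`, `0.53 ≤ s ≤ 0.60`; found by computer, checked by the kernel.
-/

set_option autoImplicit false

namespace Pool.Agent.T6A.C19.B2

open Bern Line3

/-- The box. -/
def box : List Iv := mkBox 2374 3001 530 600 1000

/-- Certificate, degree 0, type 0. -/
def c0_0 : Cert :=
  Cert.void (Tr.dead 1)

/-- Certificate, degree 0, type 1. -/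
def c0_1 : Cert :=
  Cert.void (Tr.dead 1)

/-- Certificate, degree 0, type 2. -/
def c0_2 : Cert :=
  Cert.ch
    []
    (Tr.lf [],
      Tr.lf [])

/-- Degree 0. -/
def en0 : Entry := ⟨par2 0, rows2 0, c0_0, c0_1, c0_2⟩

theorem en0_ok : en0.chk g2 0 box = true := by decide +kernel

/-- Certificate, degree 1, type 0. -/
def c1_0 : Cert :=
  Cert.void (Tr.dead 1)

/-- Certificate, degree 1, type 1. -/
def c1_1 : Cert :=
  Cert.void (Tr.dead 1)

/-- Certificate, degree 1, type 2. -/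
def c1_2 : Cert :=
  Cert.ch
    []
    (Tr.lf [],
      Tr.lf [])

/-- Degree 1. -/
def en1 : Entry := ⟨par2 1, rows2 1, c1_0, c1_1, c1_2⟩

theorem en1_ok : en1.chk g2 0 box = true := by decide +kernel

/-- Certificate, degree 2, type 0. -/
def c2_0 : Cert :=
  Cert.void (Tr.dead 1)

/-- Certificate, degree 2, type 1. -/
def c2_1 : Cert :=
  Cert.void (Tr.dead 1)

/-- Certificate, degree 2, type 2. -/
def c2_2 : Cert :=
  Cert.ch
    []
    (Tr.lf [],
      Tr.lf [])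

/-- Degree 2. -/
def en2 : Entry := ⟨par2 2, rows2 2, c2_0, c2_1, c2_2⟩

theorem en2_ok : en2.chk g2 0 box = true := by decide +kernel

/-- Certificate, degree 3, type 0. -/
def c3_0 : Cert :=
  Cert.void (Tr.dead 1)

/-- Certificate, degree 3, type 1. -/
def c3_1 : Cert :=
  Cert.ch
    []
    (Tr.lf [],
      Tr.lf [])

/-- Certificate, degree 3, type 2. -/
def c3_2 : Cert :=
  Cert.ch
    []
    (Tr.lf [],
      Tr.lf [])

/-- Degree 3. -/
def en3 : Entry := ⟨par2 3, rows2 3, c3_0, c3_1, c3_2⟩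

theorem en3_ok : en3.chk g2 0 box = true := by decide +kernel

/-- Certificate, degree 4, type 0. -/
def c4_0 : Cert :=
  Cert.ch
    [⟨rq 1725 18666 9451 1043 9506 20 51300 10368,
      Tr.lf [(0, 1), (1, 1)],
      Tr.lf [],
      Tr.lf [],
      Tr.lf [],
      Tr.lf [],
      Tr.lf []⟩]
    (Tr.dead 2,
      Tr.dead 2)

/-- Certificate, degree 4, type 1. -/
def c4_1 : Cert :=
  Cert.ch
    []
    (Tr.lf [],
      Tr.lf [])

/-- Certificate, degree 4, type 2. -/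
def c4_2 : Cert :=
  Cert.ch
    []
    (Tr.sp 1 (Tr.lf [(0, 1), (5, 1)]) (Tr.lf [(0, 1), (5, 1)]),
      Tr.lf [])

/-- Degree 4. -/
def en4 : Entry := ⟨par2 4, rows2 4, c4_0, c4_1, c4_2⟩

theorem en4_ok : en4.chk g2 0 box = true := by decide +kernel

/-- Certificate, degree 5, type 0. -/
def c5_0 : Cert :=
  Cert.ch
    [⟨rq 1800 23520 9802 2517 7681 20 63120 10087,
      Tr.lf [(0, 1), (1, 2)],
      Tr.lf [],
      Tr.lf [],
      Tr.lf [(0, 1), (0, 1), (1, 1)],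
      Tr.lf [],
      Tr.lf []⟩,
    ⟨rq 1750 23357 9765 2318 7917 20 62660 10087,
      Tr.lf [(0, 1), (0, 1), (1, 2)],
      Tr.lf [],
      Tr.lf [],
      Tr.lf [(0, 1), (0, 1), (0, 1), (1, 1)],
      Tr.lf [],
      Tr.lf []⟩,
    ⟨rq 1700 23192 9724 2121 8155 20 62200 10087,
      Tr.lf [(0, 1), (0, 1), (11, 20)],
      Tr.lf [],
      Tr.lf [],
      Tr.lf [(0, 1), (0, 1), (0, 1), (1, 1)],
      Tr.lf [],
      Tr.lf []⟩,
    ⟨rq 1675 23109 9702 2024 8274 20 61960 10087,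
      Tr.lf [(0, 1), (0, 1), (1, 2)],
      Tr.lf [],
      Tr.lf [],
      Tr.lf [(0, 1), (0, 1), (0, 1), (9, 10)],
      Tr.lf [],
      Tr.lf []⟩,
    ⟨rq 1650 23025 9678 1926 8396 20 61740 10087,
      Tr.lf [(0, 1), (0, 1), (3, 5)],
      Tr.lf [],
      Tr.lf [],
      Tr.lf [(0, 1), (0, 1), (0, 1), (9, 10)],
      Tr.lf [],
      Tr.lf []⟩,
    ⟨rq 1625 22940 9654 1829 8517 20 61500 10087,
      Tr.lf [(0, 1), (0, 1), (3, 5)],
      Tr.lf [],
      Tr.lf [],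
      Tr.lf [(0, 1), (0, 1), (0, 1), (9, 10)],
      Tr.lf [],
      Tr.lf []⟩,
    ⟨rq 1600 22855 9629 1734 8637 20 61260 10087,
      Tr.lf [(0, 1), (0, 1), (3, 5)],
      Tr.lf [],
      Tr.lf [],
      Tr.lf [],
      Tr.lf [],
      Tr.lf []⟩,
    ⟨rq 1575 22769 9602 1638 8760 20 61040 10087,
      Tr.lf [(0, 1), (0, 1), (3, 5)],
      Tr.lf [],
      Tr.lf [],
      Tr.lf [],
      Tr.lf [],
      Tr.lf []⟩,
    ⟨rq 1550 22682 9574 1544 8882 20 60800 10087,
      Tr.lf [(0, 1), (0, 1), (3, 5)],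
      Tr.lf [],
      Tr.lf [],
      Tr.lf [],
      Tr.lf [],
      Tr.lf []⟩,
    ⟨rq 1525 22595 9545 1450 9005 20 60580 10087,
      Tr.lf [(0, 1), (0, 1), (3, 5)],
      Tr.lf [],
      Tr.lf [],
      Tr.lf [],
      Tr.lf [],
      Tr.lf []⟩,
    ⟨rq 1500 22507 9514 1357 9129 20 60340 10087,
      Tr.lf [(0, 1), (0, 1), (3, 5)],
      Tr.lf [],
      Tr.lf [],
      Tr.lf [],
      Tr.lf [],
      Tr.lf []⟩,
    ⟨rq 1475 22418 9482 1264 9254 20 60100 10087,
      Tr.lf [(0, 1), (0, 1), (13, 20)],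
      Tr.lf [],
      Tr.lf [],
      Tr.lf [],
      Tr.lf [],
      Tr.lf []⟩,
    ⟨rq 1450 22329 9449 1173 9378 20 59880 10087,
      Tr.lf [(0, 1), (0, 1), (13, 20)],
      Tr.lf [],
      Tr.lf [],
      Tr.lf [],
      Tr.lf [],
      Tr.lf []⟩,
    ⟨rq 1425 22239 9414 1082 9504 20 59640 10087,
      Tr.lf [(0, 1), (0, 1), (7, 10)],
      Tr.lf [],
      Tr.lf [],
      Tr.lf [],
      Tr.lf [],
      Tr.lf []⟩,
    ⟨rq 1400 22148 9378 993 9629 20 59420 10087,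
      Tr.lf [(0, 1), (0, 1), (4, 5)],
      Tr.lf [],
      Tr.lf [],
      Tr.lf [],
      Tr.lf [],
      Tr.lf []⟩,
    ⟨rq 1375 22056 9340 904 9756 20 59180 10087,
      Tr.lf [(0, 1), (0, 1), (4, 5)],
      Tr.lf [],
      Tr.lf [],
      Tr.lf [],
      Tr.lf [],
      Tr.lf []⟩,
    ⟨rq 1350 21963 9300 816 9884 20 58940 10087,
      Tr.lf [(0, 1), (0, 1), (4, 5)],
      Tr.lf [],
      Tr.lf [],
      Tr.lf [],
      Tr.lf [],
      Tr.lf []⟩,
    ⟨rq 1325 21870 9258 730 10012 20 58720 10087,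
      Tr.lf [(0, 1), (0, 1), (4, 5)],
      Tr.lf [],
      Tr.lf [],
      Tr.lf [],
      Tr.lf [],
      Tr.lf []⟩,
    ⟨rq 1300 21776 9215 644 10141 20 58480 10087,
      Tr.lf [(0, 1), (0, 1), (4, 5)],
      Tr.lf [],
      Tr.lf [],
      Tr.lf [],
      Tr.lf [],
      Tr.lf []⟩]
    (Tr.dead 2,
      Tr.dead 2)

/-- Certificate, degree 5, type 1. -/
def c5_1 : Cert :=
  Cert.ch
    []
    (Tr.lf [],
      Tr.lf [])

/-- Certificate, degree 5, type 2. -/
def c5_2 : Cert :=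
  Cert.void (Tr.dead 1)

/-- Degree 5. -/
def en5 : Entry := ⟨par2 5, rows2 5, c5_0, c5_1, c5_2⟩

theorem en5_ok : en5.chk g2 0 box = true := by decide +kernel

/-- Certificate, degree 6, type 0. -/
def c6_0 : Cert :=
  Cert.ch
    [⟨rq 1650 27597 9818 2744 7438 100 72020 10004,
      Tr.lf [],
      Tr.lf [],
      Tr.lf [],
      Tr.lf [(0, 1), (0, 1), (1, 1)],
      Tr.lf [],
      Tr.lf []⟩,
    ⟨rq 1550 27150 9741 2306 7953 300 69780 10004,
      Tr.lf [(0, 1), (0, 1), (3, 5)],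
      Tr.lf [],
      Tr.lf [],
      Tr.lf [],
      Tr.lf [],
      Tr.lf []⟩,
    ⟨rq 1400 26452 9591 1664 8745 20 69540 10004,
      Tr.sp 1 (Tr.lf [(0, 1), (0, 1), (4, 5)]) (Tr.lf [(0, 1), (0, 1), (43, 50)]),
      Tr.lf [],
      Tr.lf [],
      Tr.lf [],
      Tr.lf [],
      Tr.lf []⟩,
    ⟨rq 1225 25591 9352 948 9700 20 67500 10004,
      Tr.sp 1 (Tr.lf [(0, 1), (0, 1), (9, 10)]) (Tr.lf [(0, 1), (0, 1), (1, 1)]),
      Tr.lf [],
      Tr.lf [],
      Tr.lf [],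
      Tr.lf [],
      Tr.lf []⟩,
    ⟨rq 975 24246 8842 20 11138 20 64600 10004,
      Tr.sp 1 (Tr.lf [(0, 1), (0, 1), (11, 10)]) (Tr.dead 2),
      Tr.lf [],
      Tr.lf [],
      Tr.lf [],
      Tr.lf [],
      Tr.lf []⟩]
    (Tr.dead 2,
      Tr.dead 2)

/-- Certificate, degree 6, type 1. -/
def c6_1 : Cert :=
  Cert.ch
    []
    (Tr.lf [],
      Tr.lf [])

/-- Certificate, degree 6, type 2. -/
def c6_2 : Cert :=
  Cert.void (Tr.dead 1)

/-- Degree 6. -/
def en6 : Entry := ⟨par2 6, rows2 6, c6_0, c6_1, c6_2⟩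

theorem en6_ok : en6.chk g2 0 box = true := by decide +kernel

/-- Certificate, degree 7, type 0. -/
def c7_0 : Cert :=
  Cert.ch
    [⟨rq 1250 29875 9540 1488 8972 2000 65260 10000,
      Tr.lf [],
      Tr.lf [],
      Tr.lf [],
      Tr.lf [],
      Tr.lf [],
      Tr.lf []⟩,
    ⟨rq 875 27345 8825 0 11175 2000 60080 10000,
      Tr.lf [(0, 1), (0, 1), (7, 5)],
      Tr.lf [],
      Tr.lf [],
      Tr.lf [],
      Tr.lf [],
      Tr.lf []⟩]
    (Tr.lf [(0, 1), (0, 1), (23, 10)],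
      Tr.lf [])

/-- Certificate, degree 7, type 1. -/
def c7_1 : Cert :=
  Cert.ch
    []
    (Tr.lf [],
      Tr.lf [])

/-- Certificate, degree 7, type 2. -/
def c7_2 : Cert :=
  Cert.void (Tr.dead 1)

/-- Degree 7. -/
def en7 : Entry := ⟨par2 7, rows2 7, c7_0, c7_1, c7_2⟩

theorem en7_ok : en7.chk g2 0 box = true := by decide +kernel

/-- Certificate, degree 8, type 0. -/
def c8_0 : Cert :=
  Cert.ch
    [⟨rq 975 31901 9221 568 10211 2000 68660 10000,
      Tr.lf [],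
      Tr.lf [],
      Tr.lf [],
      Tr.lf [],
      Tr.lf [],
      Tr.lf []⟩]
    (Tr.lf [(0, 1), (0, 1), (5, 2)],
      Tr.lf [])

/-- Certificate, degree 8, type 1. -/
def c8_1 : Cert :=
  Cert.ch
    []
    (Tr.lf [],
      Tr.lf [])

/-- Certificate, degree 8, type 2. -/
def c8_2 : Cert :=
  Cert.void (Tr.dead 1)

/-- Degree 8. -/
def en8 : Entry := ⟨par2 8, rows2 8, c8_0, c8_1, c8_2⟩

theorem en8_ok : en8.chk g2 0 box = true := by decide +kernel

/-- Certificate, degree 9, type 0. -/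
def c9_0 : Cert :=
  Cert.ch
    []
    (Tr.lf [],
      Tr.lf [])

/-- Certificate, degree 9, type 1. -/
def c9_1 : Cert :=
  Cert.ch
    []
    (Tr.lf [],
      Tr.lf [])

/-- Certificate, degree 9, type 2. -/
def c9_2 : Cert :=
  Cert.void (Tr.dead 1)

/-- Degree 9. -/
def en9 : Entry := ⟨par2 9, rows2 9, c9_0, c9_1, c9_2⟩

theorem en9_ok : en9.chk g2 0 box = true := by decide +kernel

/-- Certificate, degree 10, type 0. -/
def c10_0 : Cert :=
  Cert.ch
    []
    (Tr.lf [],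
      Tr.lf [])

/-- Certificate, degree 10, type 1. -/
def c10_1 : Cert :=
  Cert.ch
    []
    (Tr.lf [],
      Tr.lf [])

/-- Certificate, degree 10, type 2. -/
def c10_2 : Cert :=
  Cert.void (Tr.dead 1)

/-- Degree 10. -/
def en10 : Entry := ⟨par2 10, rows2 10, c10_0, c10_1, c10_2⟩

theorem en10_ok : en10.chk g2 0 box = true := by decide +kernel

/-- Certificate, degree 11, type 0. -/
def c11_0 : Cert :=
  Cert.ch
    []
    (Tr.lf [],
      Tr.lf [])

/-- Certificate, degree 11, type 1. -/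
def c11_1 : Cert :=
  Cert.ch
    []
    (Tr.lf [],
      Tr.lf [])

/-- Certificate, degree 11, type 2. -/
def c11_2 : Cert :=
  Cert.void (Tr.dead 1)

/-- Degree 11. -/
def en11 : Entry := ⟨par2 11, rows2 11, c11_0, c11_1, c11_2⟩

theorem en11_ok : en11.chk g2 0 box = true := by decide +kernel

/-- Certificate, degree 12, type 0. -/
def c12_0 : Cert :=
  Cert.ch
    []
    (Tr.lf [],
      Tr.lf [])

/-- Certificate, degree 12, type 1. -/
def c12_1 : Cert :=
  Cert.void (Tr.dead 0)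

/-- Certificate, degree 12, type 2. -/
def c12_2 : Cert :=
  Cert.void (Tr.dead 1)

/-- Degree 12. -/
def en12 : Entry := ⟨par2 12, rows2 12, c12_0, c12_1, c12_2⟩

theorem en12_ok : en12.chk g2 0 box = true := by decide +kernel

/-- Certificate, degree 13, type 0. -/
def c13_0 : Cert :=
  Cert.ch
    []
    (Tr.lf [],
      Tr.lf [])

/-- Certificate, degree 13, type 1. -/
def c13_1 : Cert :=
  Cert.void (Tr.dead 0)

/-- Certificate, degree 13, type 2. -/
def c13_2 : Cert :=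
  Cert.void (Tr.dead 1)

/-- Degree 13. -/
def en13 : Entry := ⟨par2 13, rows2 13, c13_0, c13_1, c13_2⟩

theorem en13_ok : en13.chk g2 0 box = true := by decide +kernel

/-- All entries. -/
def ent : List Entry :=
  [en0, en1, en2, en3, en4, en5, en6, en7, en8, en9, en10, en11, en12, en13]

theorem ent_map : ent.map (fun e => (e.p, e.rows)) = tab2 := rfl

theorem ent_ok : ∀ e ∈ ent, e.chk g2 0 box = true := by
  intro e he
  simp only [ent, List.mem_cons, List.not_mem_nil, or_false] at he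
  rcases he with rfl | rfl | rfl | rfl | rfl | rfl | rfl | rfl | rfl | rfl | rfl | rfl | rfl | rfl
  · exact en0_ok
  · exact en1_ok
  · exact en2_ok
  · exact en3_ok
  · exact en4_ok
  · exact en5_ok
  · exact en6_ok
  · exact en7_ok
  · exact en8_ok
  · exact en9_ok
  · exact en10_ok
  · exact en11_ok
  · exact en12_ok
  · exact en13_ok

theorem ent_deg : ∀ d : ℕ, d < 14 → ∃ e ∈ ent, e.p.d = d := by
  intro d hd
  interval_cases d
  · exact ⟨en0, by simp [ent], rfl⟩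
  · exact ⟨en1, by simp [ent], rfl⟩
  · exact ⟨en2, by simp [ent], rfl⟩
  · exact ⟨en3, by simp [ent], rfl⟩
  · exact ⟨en4, by simp [ent], rfl⟩
  · exact ⟨en5, by simp [ent], rfl⟩
  · exact ⟨en6, by simp [ent], rfl⟩
  · exact ⟨en7, by simp [ent], rfl⟩
  · exact ⟨en8, by simp [ent], rfl⟩
  · exact ⟨en9, by simp [ent], rfl⟩
  · exact ⟨en10, by simp [ent], rfl⟩
  · exact ⟨en11, by simp [ent], rfl⟩
  · exact ⟨en12, by simp [ent], rfl⟩
  · exact ⟨en13, by simp [ent], rfl⟩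

/-- **LINE, box 2.** -/
theorem line : LineS g2 tab2 (2374 / 1000) (3001 / 1000) (530 / 1000) (600 / 1000) := by
  have h := lineS_of_chk (g := g2) (fuel := 0) (q0 := 2374) (q1 := 3001) (s0 := 530) (s1 := 600)
    (m := 1000) (D := 14) ent (by norm_num) (by norm_num) (by norm_num)
    (by norm_num [g2]) ent_ok ent_deg (by norm_num [g2])
  rw [ent_map] at h
  have e1 : ((2374 : ℤ) : ℚ) / ((1000 : ℕ) : ℚ) = 2374 / 1000 := by norm_num
  have e2 : ((3001 : ℤ) : ℚ) / ((1000 : ℕ) : ℚ) = 3001 / 1000 := by norm_num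
  have e3 : ((530 : ℤ) : ℚ) / ((1000 : ℕ) : ℚ) = 530 / 1000 := by norm_num
  have e4 : ((600 : ℤ) : ℚ) / ((1000 : ℕ) : ℚ) = 600 / 1000 := by norm_num
  rw [e1, e2, e3, e4] at h
  exact h

end Pool.Agent.T6A.C19.B2
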