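import Pool.Agent.T6A.Line3
import Pool.Agent.T6A.Cert19Tab

/-!
# LINE for CERT v3, range `19/8 ≤ q ≤ 3`, box 3: the certificates (MP_c6effb_co)

`2.374 ≤ q ≤ 3.001`, `0.60 ≤ s ≤ 0.74`; found by computer, checked by the kernel.
-/

set_option autoImplicit false

namespace Pool.Agent.T6A.C19.B3

open Bern Line3

/-- The box. -/
def box : List Iv := mkBox 2374 3001 600 740 1000

/-- Certificate, degree 0, type 0. -/
def c0_0 : Cert :=
  Cert.void (Tr.dead 1)

/-- Certificate, degree 0, type 1. -/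
def c0_1 : Cert :=
  Cert.void (Tr.dead 1)

/-- Certificate, degree 0, type 2. -/
def c0_2 : Cert :=
  Cert.ch
    []
    (Tr.lf [],
      Tr.lf [])

/-- Degree 0. -/
def en0 : Entry := ⟨par3 0, rows3 0, c0_0, c0_1, c0_2⟩

theorem en0_ok : en0.chk g3 0 box = true := by decide +kernel

/-- Certificate, degree 1, type 0. -/
def c1_0 : Cert :=
  Cert.void (Tr.dead 1)

/-- Certificate, degree 1, type 1. -/
def c1_1 : Cert :=
  Cert.void (Tr.dead 1)

/-- Certificate, degree 1, type 2. -/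
def c1_2 : Cert :=
  Cert.ch
    []
    (Tr.lf [],
      Tr.lf [])

/-- Degree 1. -/
def en1 : Entry := ⟨par3 1, rows3 1, c1_0, c1_1, c1_2⟩

theorem en1_ok : en1.chk g3 0 box = true := by decide +kernel

/-- Certificate, degree 2, type 0. -/
def c2_0 : Cert :=
  Cert.void (Tr.dead 1)

/-- Certificate, degree 2, type 1. -/
def c2_1 : Cert :=
  Cert.void (Tr.dead 1)

/-- Certificate, degree 2, type 2. -/
def c2_2 : Cert :=
  Cert.ch
    []
    (Tr.lf [],
      Tr.lf [])

/-- Degree 2. -/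
def en2 : Entry := ⟨par3 2, rows3 2, c2_0, c2_1, c2_2⟩

theorem en2_ok : en2.chk g3 0 box = true := by decide +kernel

/-- Certificate, degree 3, type 0. -/
def c3_0 : Cert :=
  Cert.void (Tr.dead 1)

/-- Certificate, degree 3, type 1. -/
def c3_1 : Cert :=
  Cert.ch
    []
    (Tr.lf [],
      Tr.lf [])

/-- Certificate, degree 3, type 2. -/
def c3_2 : Cert :=
  Cert.ch
    []
    (Tr.lf [(0, 1), (4, 1)],
      Tr.lf [(0, 1), (4, 1)])

/-- Degree 3. -/
def en3 : Entry := ⟨par3 3, rows3 3, c3_0, c3_1, c3_2⟩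

theorem en3_ok : en3.chk g3 0 box = true := by decide +kernel

/-- Certificate, degree 4, type 0. -/
def c4_0 : Cert :=
  Cert.ch
    [⟨rq 1650 18494 9475 1418 9107 20 52400 10535,
      Tr.lf [],
      Tr.lf [],
      Tr.lf [],
      Tr.lf [(0, 1), (0, 1), (4, 5)],
      Tr.lf [],
      Tr.lf []⟩,
    ⟨rq 1575 18317 9375 1165 9460 20 51880 10535,
      Tr.lf [(0, 1), (0, 1), (7, 10)],
      Tr.lf [],
      Tr.lf [],
      Tr.lf [(0, 1), (0, 1), (0, 1), (4, 5)],
      Tr.lf [],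
      Tr.lf []⟩,
    ⟨rq 1450 18014 9180 762 10058 20 51000 10535,
      Tr.lf [(0, 1), (0, 1), (7, 10)],
      Tr.lf [],
      Tr.lf [],
      Tr.lf [],
      Tr.lf [],
      Tr.lf []⟩,
    ⟨rq 1275 17567 8833 248 10919 20 49780 10535,
      Tr.lf [(0, 1), (0, 1), (9, 10)],
      Tr.lf [],
      Tr.lf [],
      Tr.lf [],
      Tr.lf [],
      Tr.lf []⟩,
    ⟨rq 1000 16797 8027 0 11973 20 47840 10535,
      Tr.lf [(0, 1), (0, 1), (9, 10)],
      Tr.lf [],
      Tr.lf [(0, 1), (0, 1), (1, 1)],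
      Tr.lf [],
      Tr.lf [],
      Tr.lf []⟩]
    (Tr.dead 2,
      Tr.dead 2)

/-- Certificate, degree 4, type 1. -/
def c4_1 : Cert :=
  Cert.ch
    []
    (Tr.lf [],
      Tr.lf [])

/-- Certificate, degree 4, type 2. -/
def c4_2 : Cert :=
  Cert.ch
    []
    (Tr.lf [(0, 1), (7, 1)],
      Tr.lf [(0, 1), (5, 1)])

/-- Degree 4. -/
def en4 : Entry := ⟨par3 4, rows3 4, c4_0, c4_1, c4_2⟩

theorem en4_ok : en4.chk g3 0 box = true := by decide +kernel

/-- Certificate, degree 5, type 0. -/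
def c5_0 : Cert :=
  Cert.ch
    [⟨rq 1450 22329 9524 1618 8858 20 60860 10140,
      Tr.lf [],
      Tr.lf [],
      Tr.lf [],
      Tr.lf [(0, 1), (0, 1), (1, 1)],
      Tr.lf [],
      Tr.lf []⟩,
    ⟨rq 1350 21963 9389 1231 9380 20 59920 10140,
      Tr.lf [(0, 1), (0, 1), (3, 5)],
      Tr.lf [],
      Tr.lf [],
      Tr.lf [],
      Tr.lf [],
      Tr.lf []⟩,
    ⟨rq 1250 21584 9227 857 9916 20 58980 10140,
      Tr.lf [(0, 1), (0, 1), (3, 5)],
      Tr.lf [],
      Tr.lf [],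
      Tr.lf [],
      Tr.lf [],
      Tr.lf []⟩,
    ⟨rq 1150 21190 9035 502 10463 20 58040 10140,
      Tr.lf [(0, 1), (0, 1), (4, 5)],
      Tr.lf [],
      Tr.lf [],
      Tr.lf [],
      Tr.lf [],
      Tr.lf []⟩,
    ⟨rq 1000 20564 8674 15 11311 20 56640 10140,
      Tr.lf [(0, 1), (0, 1), (4, 5)],
      Tr.lf [],
      Tr.lf [],
      Tr.lf [],
      Tr.lf [],
      Tr.lf []⟩,
    ⟨rq 725 19279 7661 0 12339 50 53920 10140,
      Tr.lf [(0, 1), (0, 1), (13, 10)],
      Tr.lf [],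
      Tr.lf [],
      Tr.lf [],
      Tr.lf [],
      Tr.lf []⟩]
    (Tr.lf [(0, 1), (0, 1), (2, 1)],
      Tr.lf [])

/-- Certificate, degree 5, type 1. -/
def c5_1 : Cert :=
  Cert.ch
    []
    (Tr.lf [],
      Tr.lf [])

/-- Certificate, degree 5, type 2. -/
def c5_2 : Cert :=
  Cert.void (Tr.dead 1)

/-- Degree 5. -/
def en5 : Entry := ⟨par3 5, rows3 5, c5_0, c5_1, c5_2⟩

theorem en5_ok : en5.chk g3 0 box = true := by decide +kernel

/-- Certificate, degree 6, type 0. -/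
def c6_0 : Cert :=
  Cert.ch
    [⟨rq 1200 25463 9369 1133 9498 2000 57640 10008,
      Tr.lf [],
      Tr.lf [],
      Tr.lf [],
      Tr.lf [],
      Tr.lf [],
      Tr.lf []⟩,
    ⟨rq 800 23199 8422 0 11578 2000 53020 10008,
      Tr.lf [(0, 1), (0, 1), (121, 100)],
      Tr.lf [],
      Tr.lf [],
      Tr.lf [],
      Tr.lf [],
      Tr.lf []⟩]
    (Tr.lf [(0, 1), (0, 1), (2, 1)],
      Tr.lf [])

/-- Certificate, degree 6, type 1. -/
def c6_1 : Cert :=
  Cert.ch
    []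
    (Tr.lf [],
      Tr.lf [])

/-- Certificate, degree 6, type 2. -/
def c6_2 : Cert :=
  Cert.void (Tr.dead 1)

/-- Degree 6. -/
def en6 : Entry := ⟨par3 6, rows3 6, c6_0, c6_1, c6_2⟩

theorem en6_ok : en6.chk g3 0 box = true := by decide +kernel

/-- Certificate, degree 7, type 0. -/
def c7_0 : Cert :=
  Cert.ch
    [⟨rq 975 28065 9124 504 10372 2000 62000 10000,
      Tr.lf [],
      Tr.lf [],
      Tr.lf [],
      Tr.lf [],
      Tr.lf [],
      Tr.lf []⟩]
    (Tr.lf [(0, 1), (0, 1), (19, 10)],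
      Tr.lf [])

/-- Certificate, degree 7, type 1. -/
def c7_1 : Cert :=
  Cert.ch
    []
    (Tr.lf [],
      Tr.lf [])

/-- Certificate, degree 7, type 2. -/
def c7_2 : Cert :=
  Cert.void (Tr.dead 1)

/-- Degree 7. -/
def en7 : Entry := ⟨par3 7, rows3 7, c7_0, c7_1, c7_2⟩

theorem en7_ok : en7.chk g3 0 box = true := by decide +kernel

/-- Certificate, degree 8, type 0. -/
def c8_0 : Cert :=
  Cert.ch
    []
    (Tr.lf [],
      Tr.lf [])

/-- Certificate, degree 8, type 1. -/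
def c8_1 : Cert :=
  Cert.ch
    []
    (Tr.lf [],
      Tr.lf [])

/-- Certificate, degree 8, type 2. -/
def c8_2 : Cert :=
  Cert.void (Tr.dead 1)

/-- Degree 8. -/
def en8 : Entry := ⟨par3 8, rows3 8, c8_0, c8_1, c8_2⟩

theorem en8_ok : en8.chk g3 0 box = true := by decide +kernel

/-- Certificate, degree 9, type 0. -/
def c9_0 : Cert :=
  Cert.ch
    []
    (Tr.lf [],
      Tr.lf [])

/-- Certificate, degree 9, type 1. -/
def c9_1 : Cert :=
  Cert.ch
    []
    (Tr.lf [],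
      Tr.lf [])

/-- Certificate, degree 9, type 2. -/
def c9_2 : Cert :=
  Cert.void (Tr.dead 1)

/-- Degree 9. -/
def en9 : Entry := ⟨par3 9, rows3 9, c9_0, c9_1, c9_2⟩

theorem en9_ok : en9.chk g3 0 box = true := by decide +kernel

/-- Certificate, degree 10, type 0. -/
def c10_0 : Cert :=
  Cert.ch
    []
    (Tr.lf [],
      Tr.lf [])

/-- Certificate, degree 10, type 1. -/
def c10_1 : Cert :=
  Cert.ch
    []
    (Tr.lf [],
      Tr.lf [])

/-- Certificate, degree 10, type 2. -/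
def c10_2 : Cert :=
  Cert.void (Tr.dead 1)

/-- Degree 10. -/
def en10 : Entry := ⟨par3 10, rows3 10, c10_0, c10_1, c10_2⟩

theorem en10_ok : en10.chk g3 0 box = true := by decide +kernel

/-- Certificate, degree 11, type 0. -/
def c11_0 : Cert :=
  Cert.ch
    []
    (Tr.lf [],
      Tr.lf [])

/-- Certificate, degree 11, type 1. -/
def c11_1 : Cert :=
  Cert.void (Tr.dead 0)

/-- Certificate, degree 11, type 2. -/
def c11_2 : Cert :=
  Cert.void (Tr.dead 1)

/-- Degree 11. -/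
def en11 : Entry := ⟨par3 11, rows3 11, c11_0, c11_1, c11_2⟩

theorem en11_ok : en11.chk g3 0 box = true := by decide +kernel

/-- Certificate, degree 12, type 0. -/
def c12_0 : Cert :=
  Cert.ch
    []
    (Tr.lf [],
      Tr.lf [])

/-- Certificate, degree 12, type 1. -/
def c12_1 : Cert :=
  Cert.void (Tr.dead 0)

/-- Certificate, degree 12, type 2. -/
def c12_2 : Cert :=
  Cert.void (Tr.dead 1)

/-- Degree 12. -/
def en12 : Entry := ⟨par3 12, rows3 12, c12_0, c12_1, c12_2⟩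

theorem en12_ok : en12.chk g3 0 box = true := by decide +kernel

/-- All entries. -/
def ent : List Entry :=
  [en0, en1, en2, en3, en4, en5, en6, en7, en8, en9, en10, en11, en12]

theorem ent_map : ent.map (fun e => (e.p, e.rows)) = tab3 := rfl

theorem ent_ok : ∀ e ∈ ent, e.chk g3 0 box = true := by
  intro e he
  simp only [ent, List.mem_cons, List.not_mem_nil, or_false] at he
  rcases he with rfl | rfl | rfl | rfl | rfl | rfl | rfl | rfl | rfl | rfl | rfl | rfl | rfl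
  · exact en0_ok
  · exact en1_ok
  · exact en2_ok
  · exact en3_ok
  · exact en4_ok
  · exact en5_ok
  · exact en6_ok
  · exact en7_ok
  · exact en8_ok
  · exact en9_ok
  · exact en10_ok
  · exact en11_ok
  · exact en12_ok

theorem ent_deg : ∀ d : ℕ, d < 13 → ∃ e ∈ ent, e.p.d = d := by
  intro d hd
  interval_cases d
  · exact ⟨en0, by simp [ent], rfl⟩
  · exact ⟨en1, by simp [ent], rfl⟩
  · exact ⟨en2, by simp [ent], rfl⟩
  · exact ⟨en3, by simp [ent], rfl⟩
  · exact ⟨en4, by simp [ent], rfl⟩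
  · exact ⟨en5, by simp [ent], rfl⟩
  · exact ⟨en6, by simp [ent], rfl⟩
  · exact ⟨en7, by simp [ent], rfl⟩
  · exact ⟨en8, by simp [ent], rfl⟩
  · exact ⟨en9, by simp [ent], rfl⟩
  · exact ⟨en10, by simp [ent], rfl⟩
  · exact ⟨en11, by simp [ent], rfl⟩
  · exact ⟨en12, by simp [ent], rfl⟩

/-- **LINE, box 3.** -/
theorem line : LineS g3 tab3 (2374 / 1000) (3001 / 1000) (600 / 1000) (740 / 1000) := by
  have h := lineS_of_chk (g := g3) (fuel := 0) (q0 := 2374) (q1 := 3001) (s0 := 600) (s1 := 740)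
    (m := 1000) (D := 13) ent (by norm_num) (by norm_num) (by norm_num)
    (by norm_num [g3]) ent_ok ent_deg (by norm_num [g3])
  rw [ent_map] at h
  have e1 : ((2374 : ℤ) : ℚ) / ((1000 : ℕ) : ℚ) = 2374 / 1000 := by norm_num
  have e2 : ((3001 : ℤ) : ℚ) / ((1000 : ℕ) : ℚ) = 3001 / 1000 := by norm_num
  have e3 : ((600 : ℤ) : ℚ) / ((1000 : ℕ) : ℚ) = 600 / 1000 := by norm_num
  have e4 : ((740 : ℤ) : ℚ) / ((1000 : ℕ) : ℚ) = 740 / 1000 := by norm_num
  rw [e1, e2, e3, e4] at h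
  exact h

end Pool.Agent.T6A.C19.B3
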