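import Pool.Agent.T6A.Cert3Door
import Pool.Agent.T6A.Line19B3

/-!
# CERT v3, range `19/8 ≤ q ≤ 3`: box 3 (MP_c6effb_co)
-/

set_option autoImplicit false

namespace Pool.Agent.T6A.C19.B3

open Line3 Cert3

theorem glob_ok : GlobOK g3 ((7 / 25 : ℚ) : ℝ) := globQ_sound (by decide +kernel)

theorem pars : parsQ g3 (5 / 4) (7 / 25) (84 / 100) umn3 tab3 = true := by decide +kernel

theorem rows_ok : tabQ 8 (7 / 25) tab3 = true := by decide +kernel

/-- **The cells of box 3.** -/
theorem cell : CellBox (2374 / 1000) (3001 / 1000) (600 / 1000) (740 / 1000) :=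
  cellBox_of glob_ok (by norm_num) (by norm_num) line (parsQ_sound pars)
    (by
      have h := tabQ_sound glob_ok rows_ok
      have e : ((5 / 4 : ℚ) : ℝ) = 5 / 4 := by norm_num
      rw [e]
      exact h)

end Pool.Agent.T6A.C19.B3
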