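import Pool.Agent.T6A.Line3
import Pool.Agent.T6A.Cert19Tab

/-!
# LINE for CERT v3, range `19/8 ≤ q ≤ 3`, box 4: the certificates (MP_c6effb_co)

`2.374 ≤ q ≤ 3.001`, `0.74 ≤ s ≤ 1.01`; found by computer, checked by the kernel.
-/

set_option autoImplicit false

namespace Pool.Agent.T6A.C19.B4

open Bern Line3

/-- The box. -/
def box : List Iv := mkBox 2374 3001 740 1010 1000

/-- Certificate, degree 0, type 0. -/
def c0_0 : Cert :=
  Cert.void (Tr.dead 1)

/-- Certificate, degree 0, type 1. -/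
def c0_1 : Cert :=
  Cert.void (Tr.dead 1)

/-- Certificate, degree 0, type 2. -/
def c0_2 : Cert :=
  Cert.ch
    []
    (Tr.lf [],
      Tr.lf [])

/-- Degree 0. -/
def en0 : Entry := ⟨par4 0, rows4 0, c0_0, c0_1, c0_2⟩

theorem en0_ok : en0.chk g4 0 box = true := by decide +kernel

/-- Certificate, degree 1, type 0. -/
def c1_0 : Cert :=
  Cert.void (Tr.dead 1)

/-- Certificate, degree 1, type 1. -/
def c1_1 : Cert :=
  Cert.void (Tr.dead 1)

/-- Certificate, degree 1, type 2. -/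
def c1_2 : Cert :=
  Cert.ch
    []
    (Tr.lf [],
      Tr.lf [])

/-- Degree 1. -/
def en1 : Entry := ⟨par4 1, rows4 1, c1_0, c1_1, c1_2⟩

theorem en1_ok : en1.chk g4 0 box = true := by decide +kernel

/-- Certificate, degree 2, type 0. -/
def c2_0 : Cert :=
  Cert.void (Tr.dead 1)

/-- Certificate, degree 2, type 1. -/
def c2_1 : Cert :=
  Cert.ch
    []
    (Tr.lf [],
      Tr.lf [])

/-- Certificate, degree 2, type 2. -/
def c2_2 : Cert :=
  Cert.ch
    []
    (Tr.lf [(0, 1), (3, 1)],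
      Tr.lf [(0, 1), (2, 1)])

/-- Degree 2. -/
def en2 : Entry := ⟨par4 2, rows4 2, c2_0, c2_1, c2_2⟩

theorem en2_ok : en2.chk g4 0 box = true := by decide +kernel

/-- Certificate, degree 3, type 0. -/
def c3_0 : Cert :=
  Cert.ch
    []
    (Tr.lf [],
      Tr.lf [])

/-- Certificate, degree 3, type 1. -/
def c3_1 : Cert :=
  Cert.ch
    []
    (Tr.lf [],
      Tr.lf [])

/-- Certificate, degree 3, type 2. -/
def c3_2 : Cert :=
  Cert.ch
    []
    (Tr.lf [(0, 1), (8, 1)],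
      Tr.lf [(0, 1), (6, 1)])

/-- Degree 3. -/
def en3 : Entry := ⟨par4 3, rows4 3, c3_0, c3_1, c3_2⟩

theorem en3_ok : en3.chk g4 0 box = true := by decide +kernel

/-- Certificate, degree 4, type 0. -/
def c4_0 : Cert :=
  Cert.ch
    []
    (Tr.lf [],
      Tr.lf [])

/-- Certificate, degree 4, type 1. -/
def c4_1 : Cert :=
  Cert.ch
    []
    (Tr.lf [(13, 100)],
      Tr.lf [])

/-- Certificate, degree 4, type 2. -/
def c4_2 : Cert :=
  Cert.void (Tr.dead 1)

/-- Degree 4. -/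
def en4 : Entry := ⟨par4 4, rows4 4, c4_0, c4_1, c4_2⟩

theorem en4_ok : en4.chk g4 0 box = true := by decide +kernel

/-- Certificate, degree 5, type 0. -/
def c5_0 : Cert :=
  Cert.ch
    []
    (Tr.lf [],
      Tr.lf [])

/-- Certificate, degree 5, type 1. -/
def c5_1 : Cert :=
  Cert.ch
    []
    (Tr.sp 0 (Tr.lf []) (Tr.lf [(1, 1)]),
      Tr.lf [(1, 1)])

/-- Certificate, degree 5, type 2. -/
def c5_2 : Cert :=
  Cert.void (Tr.dead 1)

/-- Degree 5. -/
def en5 : Entry := ⟨par4 5, rows4 5, c5_0, c5_1, c5_2⟩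

theorem en5_ok : en5.chk g4 0 box = true := by decide +kernel

/-- Certificate, degree 6, type 0. -/
def c6_0 : Cert :=
  Cert.ch
    []
    (Tr.lf [],
      Tr.lf [])

/-- Certificate, degree 6, type 1. -/
def c6_1 : Cert :=
  Cert.ch
    []
    (Tr.sp 0 (Tr.lf []) (Tr.lf [(2, 1)]),
      Tr.lf [(1, 1)])

/-- Certificate, degree 6, type 2. -/
def c6_2 : Cert :=
  Cert.void (Tr.dead 1)

/-- Degree 6. -/
def en6 : Entry := ⟨par4 6, rows4 6, c6_0, c6_1, c6_2⟩

theorem en6_ok : en6.chk g4 0 box = true := by decide +kernel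

/-- Certificate, degree 7, type 0. -/
def c7_0 : Cert :=
  Cert.ch
    []
    (Tr.lf [],
      Tr.lf [])

/-- Certificate, degree 7, type 1. -/
def c7_1 : Cert :=
  Cert.ch
    []
    (Tr.sp 0 (Tr.lf [(1, 1)]) (Tr.dead 0),
      Tr.lf [(2, 1)])

/-- Certificate, degree 7, type 2. -/
def c7_2 : Cert :=
  Cert.void (Tr.dead 1)

/-- Degree 7. -/
def en7 : Entry := ⟨par4 7, rows4 7, c7_0, c7_1, c7_2⟩

theorem en7_ok : en7.chk g4 0 box = true := by decide +kernel

/-- Certificate, degree 8, type 0. -/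
def c8_0 : Cert :=
  Cert.ch
    []
    (Tr.lf [],
      Tr.lf [])

/-- Certificate, degree 8, type 1. -/
def c8_1 : Cert :=
  Cert.ch
    []
    (Tr.lf [(4, 1)],
      Tr.lf [(2, 1)])

/-- Certificate, degree 8, type 2. -/
def c8_2 : Cert :=
  Cert.void (Tr.dead 1)

/-- Degree 8. -/
def en8 : Entry := ⟨par4 8, rows4 8, c8_0, c8_1, c8_2⟩

theorem en8_ok : en8.chk g4 0 box = true := by decide +kernel

/-- Certificate, degree 9, type 0. -/
def c9_0 : Cert :=
  Cert.ch
    []
    (Tr.lf [],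
      Tr.lf [])

/-- Certificate, degree 9, type 1. -/
def c9_1 : Cert :=
  Cert.ch
    []
    (Tr.lf [(6, 1)],
      Tr.lf [(4, 1)])

/-- Certificate, degree 9, type 2. -/
def c9_2 : Cert :=
  Cert.void (Tr.dead 1)

/-- Degree 9. -/
def en9 : Entry := ⟨par4 9, rows4 9, c9_0, c9_1, c9_2⟩

theorem en9_ok : en9.chk g4 0 box = true := by decide +kernel

/-- Certificate, degree 10, type 0. -/
def c10_0 : Cert :=
  Cert.ch
    []
    (Tr.lf [(4, 1)],
      Tr.lf [])

/-- Certificate, degree 10, type 1. -/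
def c10_1 : Cert :=
  Cert.void (Tr.dead 0)

/-- Certificate, degree 10, type 2. -/
def c10_2 : Cert :=
  Cert.void (Tr.dead 1)

/-- Degree 10. -/
def en10 : Entry := ⟨par4 10, rows4 10, c10_0, c10_1, c10_2⟩

theorem en10_ok : en10.chk g4 0 box = true := by decide +kernel

/-- Certificate, degree 11, type 0. -/
def c11_0 : Cert :=
  Cert.ch
    []
    (Tr.lf [(6, 1)],
      Tr.lf [])

/-- Certificate, degree 11, type 1. -/
def c11_1 : Cert :=
  Cert.void (Tr.dead 0)

/-- Certificate, degree 11, type 2. -/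
def c11_2 : Cert :=
  Cert.void (Tr.dead 1)

/-- Degree 11. -/
def en11 : Entry := ⟨par4 11, rows4 11, c11_0, c11_1, c11_2⟩

theorem en11_ok : en11.chk g4 0 box = true := by decide +kernel

/-- All entries. -/
def ent : List Entry :=
  [en0, en1, en2, en3, en4, en5, en6, en7, en8, en9, en10, en11]

theorem ent_map : ent.map (fun e => (e.p, e.rows)) = tab4 := rfl

theorem ent_ok : ∀ e ∈ ent, e.chk g4 0 box = true := by
  intro e he
  simp only [ent, List.mem_cons, List.not_mem_nil, or_false] at he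
  rcases he with rfl | rfl | rfl | rfl | rfl | rfl | rfl | rfl | rfl | rfl | rfl | rfl
  · exact en0_ok
  · exact en1_ok
  · exact en2_ok
  · exact en3_ok
  · exact en4_ok
  · exact en5_ok
  · exact en6_ok
  · exact en7_ok
  · exact en8_ok
  · exact en9_ok
  · exact en10_ok
  · exact en11_ok

theorem ent_deg : ∀ d : ℕ, d < 12 → ∃ e ∈ ent, e.p.d = d := by
  intro d hd
  interval_cases d
  · exact ⟨en0, by simp [ent], rfl⟩
  · exact ⟨en1, by simp [ent], rfl⟩
  · exact ⟨en2, by simp [ent], rfl⟩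
  · exact ⟨en3, by simp [ent], rfl⟩
  · exact ⟨en4, by simp [ent], rfl⟩
  · exact ⟨en5, by simp [ent], rfl⟩
  · exact ⟨en6, by simp [ent], rfl⟩
  · exact ⟨en7, by simp [ent], rfl⟩
  · exact ⟨en8, by simp [ent], rfl⟩
  · exact ⟨en9, by simp [ent], rfl⟩
  · exact ⟨en10, by simp [ent], rfl⟩
  · exact ⟨en11, by simp [ent], rfl⟩

/-- **LINE, box 4.** -/
theorem line : LineS g4 tab4 (2374 / 1000) (3001 / 1000) (740 / 1000) (1010 / 1000) := by
  have h := lineS_of_chk (g := g4) (fuel := 0) (q0 := 2374) (q1 := 3001) (s0 := 740) (s1 := 1010)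
    (m := 1000) (D := 12) ent (by norm_num) (by norm_num) (by norm_num)
    (by norm_num [g4]) ent_ok ent_deg (by norm_num [g4])
  rw [ent_map] at h
  have e1 : ((2374 : ℤ) : ℚ) / ((1000 : ℕ) : ℚ) = 2374 / 1000 := by norm_num
  have e2 : ((3001 : ℤ) : ℚ) / ((1000 : ℕ) : ℚ) = 3001 / 1000 := by norm_num
  have e3 : ((740 : ℤ) : ℚ) / ((1000 : ℕ) : ℚ) = 740 / 1000 := by norm_num
  have e4 : ((1010 : ℤ) : ℚ) / ((1000 : ℕ) : ℚ) = 1010 / 1000 := by norm_num
  rw [e1, e2, e3, e4] at h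
  exact h

end Pool.Agent.T6A.C19.B4
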