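import Pool.Agent.T6A.Cert3Door
import Pool.Agent.T6A.Line19B4

/-!
# CERT v3, range `19/8 ≤ q ≤ 3`: box 4 (MP_c6effb_co)

Here `am = 1`, so `Al = 1` and `c` is irrelevant; the profiles are checked with `c = 10⁻⁴`.
-/

set_option autoImplicit false

namespace Pool.Agent.T6A.C19.B4

open Line3 Cert3

theorem glob_ok : GlobOK g4 ((7 / 25 : ℚ) : ℝ) := globQ_sound (by decide +kernel)

theorem AlC_am_one (c x : ℝ) : AlC 1 c x = 1 := max_eq_left (min_le_left _ _)

theorem prof_c {g : Glob} {c c' : ℝ} {p : Par} {um om : ℝ} (h : ProfOK g 1 c p um om) :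
    ProfOK g 1 c' p um om := by
  intro x h0 h1 hf
  have h2 := h x h0 h1 hf
  rw [AlC_am_one] at h2 ⊢
  exact h2

theorem par_c {g : Glob} {c c' : ℝ} {p : Par} {rs : List Row} (h : ParOK g 1 c p rs) :
    ParOK g 1 c' p rs := by
  obtain ⟨hN, hex⟩ := h
  refine ⟨hN, fun hd => ?_⟩
  obtain ⟨um, h1, h2, h3, h4, h5, h6⟩ := hex hd
  exact ⟨um, h1, h2, h3, h4, prof_c h5, fun r hr => prof_c (h6 r hr)⟩

theorem pars : parsQ g4 1 (1 / 10000) 1 umn4 tab4 = true := by decide +kernel

/-- **The cells of box 4.** -/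
theorem cell : CellBox (2374 / 1000) (3001 / 1000) (740 / 1000) (1010 / 1000) := by
  refine cellBox_of (am := 1) glob_ok (by norm_num) (by norm_num) line ?_ ?_
  · intro pr hpr
    have h := parsQ_sound pars pr hpr
    rw [Rat.cast_one] at h
    exact par_c h
  · intro pr hpr r hr
    obtain ⟨d, -, rfl⟩ := List.mem_map.1 hpr
    exact absurd hr (by simp [rows4])

end Pool.Agent.T6A.C19.B4
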