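import Pool.Agent.T6A.Cert19B1
import Pool.Agent.T6A.Cert19B2
import Pool.Agent.T6A.Cert19B3
import Pool.Agent.T6A.Cert19B4

/-!
# CERT v3: `NumCertR (19/8) 3` (MP_c6effb_co)
-/

set_option autoImplicit false

namespace Pool.Agent.T6A.C19

open Cert3

/-- **The certificate for `19/8 ≤ q ≤ 3`.** -/
theorem numCertR_19 : NumCertR (19 / 8) 3 := by
  refine ⟨1 / 100000, 1 / 10000, by norm_num, by norm_num, ?_⟩
  intro tot s ht0 ht1 hs0 hs1
  rcases le_total (s + 1 / 100000) (530 / 1000) with h | h
  · exact B1.cell tot s (by push_cast; linarith) (by push_cast; linarith) (by push_cast; linarith)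
      (by push_cast; linarith)
  rcases le_total (s + 1 / 100000) (600 / 1000) with h' | h'
  · exact B2.cell tot s (by push_cast; linarith) (by push_cast; linarith) (by push_cast; linarith)
      (by push_cast; linarith)
  rcases le_total (s + 1 / 100000) (740 / 1000) with h'' | h''
  · exact B3.cell tot s (by push_cast; linarith) (by push_cast; linarith) (by push_cast; linarith)
      (by push_cast; linarith)
  · exact B4.cell tot s (by push_cast; linarith) (by push_cast; linarith) (by push_cast; linarith)
      (by push_cast; linarith)

end Pool.Agent.T6A.C19
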