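import Pool.Agent.T6A.MuB

/-!
# T6-A, CERT v3: the conditions A0, A0', A2 of `MugOK` for the linear profile

Profile `f = lf N`, factor `Al x ≤ 1 + c x / (1 - x)`, `N ≥ 1 + 2 c`. With `u = x / (1 - x)`,
`(1 - N x) / (1 - x) = 1 - (N - 1) u`, so `f Al² / (1 - x) ≤ (1 - (N - 1) u) (1 + c u)²`, which is at
most `1` and decreasing. `A0` and `A2` (`kap = 1`) hold as soon as `g0 + g1 + th ≥ 2`, and `A0'`
follows from its value at `nuh`.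
-/

set_option autoImplicit false

namespace Pool.Agent.T6A.Cert3

open Pool.Agent.T6A

namespace A0G

/-- `x < 1` if the profile is positive -/
theorem lt_one {N x : ℝ} (hN : 1 < N) (hx : 0 < 1 - N * x) : x < 1 := by
  by_contra h
  have : 1 ≤ x := not_lt.1 h
  nlinarith

theorem phi_eq {N c x : ℝ} (hx : x < 1) :
    (1 - N * x) * (1 + c * (x / (1 - x))) ^ 2 / (1 - x) =
      (1 - (N - 1) * (x / (1 - x))) * (1 + c * (x / (1 - x))) ^ 2 := by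
  have hy : (1 - x) ≠ 0 := by
    have : 0 < 1 - x := by linarith
    exact this.ne'
  have h : (1 - N * x) / (1 - x) = 1 - (N - 1) * (x / (1 - x)) := by
    rw [div_eq_iff hy]
    field_simp
    ring
  rw [← h]
  ring

/-- the function `(1 - M u) (1 + c u)²` decreases -/
theorem mono {M c u v : ℝ} (hM : 2 * c ≤ M) (hc : 0 ≤ c) (hu : 0 ≤ u) (huv : u ≤ v)
    (hv : M * v ≤ 1) : (1 - M * v) * (1 + c * v) ^ 2 ≤ (1 - M * u) * (1 + c * u) ^ 2 := by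
  obtain ⟨h, hh⟩ : ∃ h, h = v - u := ⟨_, rfl⟩
  obtain ⟨p, hp⟩ : ∃ p, p = 1 - M * u := ⟨_, rfl⟩
  obtain ⟨q, hq⟩ : ∃ q, q = 1 + c * u := ⟨_, rfl⟩
  have hM0 : 0 ≤ M := by linarith
  have hh0 : 0 ≤ h := by rw [hh]; linarith
  have hp0 : 0 ≤ p := by rw [hp]; nlinarith [mul_nonneg hM0 (sub_nonneg.2 huv)]
  have hp1 : p ≤ 1 := by rw [hp]; nlinarith [mul_nonneg hM0 hu]
  have hq1 : 1 ≤ q := by rw [hq]; nlinarith [mul_nonneg hc hu]
  have e1 : 1 - M * v = p - M * h := by rw [hp, hh]; ring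
  have e2 : 1 + c * v = q + c * h := by rw [hq, hh]; ring
  rw [e1, e2, ← hp, ← hq]
  have e : p * q ^ 2 - (p - M * h) * (q + c * h) ^ 2 =
      h * (q * (M * q - 2 * c * p)) + c * h ^ 2 * (2 * (M * q) - c * p) + M * c ^ 2 * h ^ 3 := by
    ring
  have k1 : 2 * c * p ≤ M * q := by
    calc 2 * c * p ≤ M * p := mul_le_mul_of_nonneg_right hM hp0
      _ ≤ M * q := mul_le_mul_of_nonneg_left (hp1.trans hq1) hM0
  have hcp : 0 ≤ c * p := mul_nonneg hc hp0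
  have t1 : 0 ≤ h * (q * (M * q - 2 * c * p)) :=
    mul_nonneg hh0 (mul_nonneg (by linarith) (by linarith))
  have t2 : 0 ≤ c * h ^ 2 * (2 * (M * q) - c * p) :=
    mul_nonneg (mul_nonneg hc (sq_nonneg _)) (by linarith)
  have t3 : 0 ≤ M * c ^ 2 * h ^ 3 := by positivity
  linarith

theorem div_mono {x y : ℝ} (hxy : x ≤ y) (hy : y < 1) : x / (1 - x) ≤ y / (1 - y) := by
  rw [div_le_div_iff₀ (by linarith) (by linarith)]
  nlinarith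

theorem Mu_le {N x : ℝ} (hx1 : x < 1) (h : N * x ≤ 1) : (N - 1) * (x / (1 - x)) ≤ 1 := by
  have hy : 0 < 1 - x := by linarith
  rw [mul_div_assoc', div_le_one hy]
  linarith

/-- `f Al² / (1 - x)` at `x` is at most the majorant at `x0 ≤ x` -/
theorem phi_le {N c x0 x : ℝ} {Al : ℝ → ℝ} (hN : 1 + 2 * c ≤ N) (hc : 0 ≤ c) (hN1 : 1 < N)
    (hx0 : 0 ≤ x0) (hxx : x0 ≤ x) (hx1 : N * x < 1) (hAl0 : 0 ≤ Al x)
    (hAl : x < 1 → Al x ≤ 1 + c * (x / (1 - x))) :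
    (1 - N * x) * Al x ^ 2 / (1 - x) ≤
      (1 - N * x0) * (1 + c * (x0 / (1 - x0))) ^ 2 / (1 - x0) := by
  have hxl : x < 1 := lt_one hN1 (by linarith)
  have hy : 0 < 1 - x := by linarith
  have h1 : (1 - N * x) * Al x ^ 2 / (1 - x) ≤
      (1 - N * x) * (1 + c * (x / (1 - x))) ^ 2 / (1 - x) := by
    refine div_le_div_of_nonneg_right ?_ hy.le
    exact mul_le_mul_of_nonneg_left (pow_le_pow_left₀ hAl0 (hAl hxl) 2) (by linarith)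
  refine h1.trans ?_
  rw [phi_eq hxl, phi_eq (hxx.trans_lt hxl)]
  exact mono (by linarith) hc (div_nonneg hx0 (by linarith)) (div_mono hxx hxl)
    (Mu_le hxl hx1.le)

theorem phi_le_one {N c x : ℝ} {Al : ℝ → ℝ} (hN : 1 + 2 * c ≤ N) (hc : 0 ≤ c) (hN1 : 1 < N)
    (hx0 : 0 ≤ x) (hx1 : N * x < 1) (hAl0 : 0 ≤ Al x)
    (hAl : x < 1 → Al x ≤ 1 + c * (x / (1 - x))) :
    (1 - N * x) * Al x ^ 2 / (1 - x) ≤ 1 := by
  have := phi_le hN hc hN1 le_rfl hx0 hx1 hAl0 hAl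
  simpa using this

/-- `2 f² Al² / (1 - x) ≤ 2 f` -/
theorem two_le {N c x : ℝ} {Al : ℝ → ℝ} (hN : 1 + 2 * c ≤ N) (hc : 0 ≤ c) (hN1 : 1 < N)
    (hx0 : 0 ≤ x) (hAl0 : 0 ≤ Al x) (hAl : x < 1 → Al x ≤ 1 + c * (x / (1 - x))) :
    2 * (lf N x ^ 2 * Al x ^ 2 / (1 - x)) ≤ 2 * lf N x := by
  rcases le_or_gt (1 - N * x) 0 with h | h
  · have : lf N x = 0 := max_eq_left h
    rw [this]; norm_num
  have hl : lf N x = 1 - N * x := max_eq_right h.le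
  rw [hl]
  have h1 := phi_le_one hN hc hN1 hx0 (by linarith) hAl0 hAl
  have h2 : (1 - N * x) * ((1 - N * x) * Al x ^ 2 / (1 - x)) ≤ (1 - N * x) * 1 :=
    mul_le_mul_of_nonneg_left h1 h.le
  calc 2 * ((1 - N * x) ^ 2 * Al x ^ 2 / (1 - x))
      = 2 * ((1 - N * x) * ((1 - N * x) * Al x ^ 2 / (1 - x))) := by ring
    _ ≤ _ := by linarith

/-- (A2), `kap = 1` -/
theorem A2 {N c th g0 g1 : ℝ} {Al : ℝ → ℝ} (hN : 1 + 2 * c ≤ N) (hc : 0 ≤ c) (hN1 : 1 < N)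
    (hg : 0 ≤ g0) (hth : 0 ≤ th) (hs : 2 ≤ g0 + g1 + th)
    (hAl0 : ∀ x, 0 ≤ Al x) (hAl : ∀ x, 0 ≤ x → x < 1 → Al x ≤ 1 + c * (x / (1 - x))) :
    ∀ x, 0 ≤ x → x ≤ 1 →
      2 * (lf N x ^ 2 * Al x ^ 2 / (1 - x)) ≤ g0 + g1 * lf N x + th * 1 := by
  intro x hx _
  refine (two_le hN hc hN1 hx (hAl0 x) (hAl x hx)).trans ?_
  have h0 := lf_nonneg N x
  have h1 : lf N x ≤ 1 := lf_le_one (by linarith) hx
  nlinarith [mul_nonneg (sub_nonneg.2 hs) h0, mul_nonneg hg (sub_nonneg.2 h1),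
    mul_nonneg hth (sub_nonneg.2 h1)]

/-- (A0) -/
theorem A0 {N c th g0 g1 : ℝ} {Al : ℝ → ℝ} {d : ℕ} (hN : 1 + 2 * c ≤ N) (hc : 0 ≤ c) (hN1 : 1 < N)
    (hg : 0 ≤ g0) (hth : 0 ≤ th) (hs : 2 ≤ g0 + g1 + th) (hAl0 : ∀ x, 0 ≤ Al x)
    (hAl : ∀ x, 0 ≤ x → x < 1 → Al x ≤ 1 + c * (x / (1 - x))) :
    ∀ x, 0 ≤ x → 2 * (lf N x ^ 2 * Al x ^ 2 / (1 - x)) ≤
      g0 + g1 * lf N x + th * (lf N x / (1 - x) ^ d) := by
  intro x hx
  refine (two_le hN hc hN1 hx (hAl0 x) (hAl x hx)).trans ?_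
  have h0 := lf_nonneg N x
  have h1 : lf N x ≤ 1 := lf_le_one (by linarith) hx
  have h2 : lf N x ≤ lf N x / (1 - x) ^ d := by
    rcases le_or_gt (1 - N * x) 0 with h | h
    · have : lf N x = 0 := max_eq_left h
      rw [this]; norm_num
    have hx1 := lt_one hN1 h
    have hy : 0 < 1 - x := by linarith
    rw [le_div_iff₀ (pow_pos hy d)]
    have : (1 - x) ^ d ≤ 1 := pow_le_one₀ hy.le (by linarith)
    calc lf N x * (1 - x) ^ d ≤ lf N x * 1 := mul_le_mul_of_nonneg_left this h0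
      _ = _ := mul_one _
  nlinarith [mul_nonneg (sub_nonneg.2 hs) h0, mul_nonneg hg (sub_nonneg.2 h1),
    mul_nonneg hth (sub_nonneg.2 h2)]

/-- (A0') from the value at `nuh` -/
theorem A0' {N c nuh g0 g1 : ℝ} {Al : ℝ → ℝ} (hN : 1 + 2 * c ≤ N) (hc : 0 ≤ c) (hN1 : 1 < N)
    (hg : 0 ≤ g0) (hnu : 0 ≤ nuh) (hAl0 : ∀ x, 0 ≤ Al x)
    (hAl : ∀ x, 0 ≤ x → x < 1 → Al x ≤ 1 + c * (x / (1 - x)))
    (hv : N * nuh < 1 → (1 - N * nuh) *
      (2 * ((1 - N * nuh) * (1 + c * (nuh / (1 - nuh))) ^ 2 / (1 - nuh)) - g1) ≤ g0) :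
    ∀ x, nuh ≤ x → x ≤ 1 → 2 * (lf N x ^ 2 * Al x ^ 2 / (1 - x)) ≤ g0 + g1 * lf N x := by
  intro x hx _
  rcases le_or_gt (1 - N * x) 0 with h | h
  · have : lf N x = 0 := max_eq_left h
    rw [this]; norm_num; exact hg
  have hl : lf N x = 1 - N * x := max_eq_right h.le
  have hN0 : 0 < N := by linarith
  rw [hl]
  have h1 := phi_le hN hc hN1 hnu hx (by linarith) (hAl0 x) (hAl x (hnu.trans hx))
  have h2 : N * nuh ≤ N * x := mul_le_mul_of_nonneg_left hx hN0.le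
  have h3 := hv (by linarith)
  obtain ⟨P, hP⟩ : ∃ P, P = (1 - N * nuh) * (1 + c * (nuh / (1 - nuh))) ^ 2 / (1 - nuh) := ⟨_, rfl⟩
  rw [← hP] at h1 h3
  have h4 : (1 - N * x) ^ 2 * Al x ^ 2 / (1 - x) ≤ (1 - N * x) * P := by
    calc (1 - N * x) ^ 2 * Al x ^ 2 / (1 - x)
        = (1 - N * x) * ((1 - N * x) * Al x ^ 2 / (1 - x)) := by ring
      _ ≤ _ := mul_le_mul_of_nonneg_left h1 h.le
  -- `f (2 P - g1) ≤ g0`
  rcases le_or_gt (2 * P - g1) 0 with h5 | h5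
  · nlinarith [mul_nonneg h.le (neg_nonneg.2 h5)]
  · have h6 : (1 - N * x) * (2 * P - g1) ≤ (1 - N * nuh) * (2 * P - g1) :=
      mul_le_mul_of_nonneg_right (by linarith) h5.le
    linarith

end A0G

end Pool.Agent.T6A.Cert3
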