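import Pool.Agent.T6A.Cert3A0

/-!
# T6-A, CERT v3: the row A0, A0', A2 as a check of rational numbers

`okA c N nuh th g0 g1` is a `Bool` in rational arithmetic (no variable, no sampling); `okA_sound` gives
the fields `A0`, `A0'`, `A2` of `MugOK` for `f = lf N`, `kap = 1` and every degree `d`.
-/

set_option autoImplicit false

namespace Pool.Agent.T6A.Cert3

/-- the rational conditions of the row A0, A0', A2 -/
def okA (c N nuh th g0 g1 : ℚ) : Bool :=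
  decide (0 ≤ c) && decide (1 + 2 * c ≤ N) && decide (1 < N) && decide (0 ≤ g0) &&
  decide (0 ≤ th) && decide (2 ≤ g0 + g1 + th) && decide (0 ≤ nuh) && decide (nuh < 1) &&
  (decide (1 ≤ N * nuh) || decide ((1 - N * nuh) *
    (2 * ((1 - N * nuh) * (1 + c * (nuh / (1 - nuh))) ^ 2 / (1 - nuh)) - g1) ≤ g0))

theorem okA_sound {c N nuh th g0 g1 : ℚ} {Al : ℝ → ℝ} (h : okA c N nuh th g0 g1 = true)
    (hAl0 : ∀ x, 0 ≤ Al x) (hAl : ∀ x, 0 ≤ x → x < 1 → Al x ≤ 1 + (c : ℝ) * (x / (1 - x)))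
    (d : ℕ) :
    (∀ x, 0 ≤ x → x ≤ (nuh : ℝ) → 2 * (lf (N : ℝ) x ^ 2 * Al x ^ 2 / (1 - x)) ≤
      (g0 : ℝ) + (g1 : ℝ) * lf (N : ℝ) x + (th : ℝ) * (lf (N : ℝ) x / (1 - x) ^ d)) ∧
    (∀ x, (nuh : ℝ) < x → x ≤ 1 → 2 * (lf (N : ℝ) x ^ 2 * Al x ^ 2 / (1 - x)) ≤
      (g0 : ℝ) + (g1 : ℝ) * lf (N : ℝ) x) ∧
    (∀ x, 0 ≤ x → x ≤ 1 → 2 * (lf (N : ℝ) x ^ 2 * Al x ^ 2 / (1 - x)) ≤
      (g0 : ℝ) + (g1 : ℝ) * lf (N : ℝ) x + (th : ℝ) * 1) := by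
  simp only [okA, Bool.and_eq_true, Bool.or_eq_true, decide_eq_true_eq] at h
  obtain ⟨⟨⟨⟨⟨⟨⟨⟨hc, hN⟩, hN1⟩, hg⟩, hth⟩, hs⟩, hn0⟩, hn1⟩, hv⟩ := h
  have hc' : (0 : ℝ) ≤ c := by exact_mod_cast hc
  have hN' : 1 + 2 * (c : ℝ) ≤ N := by exact_mod_cast hN
  have hN1' : (1 : ℝ) < N := by exact_mod_cast hN1
  have hg' : (0 : ℝ) ≤ g0 := by exact_mod_cast hg
  have hth' : (0 : ℝ) ≤ th := by exact_mod_cast hth
  have hs' : (2 : ℝ) ≤ g0 + g1 + th := by exact_mod_cast hs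
  have hn0' : (0 : ℝ) ≤ nuh := by exact_mod_cast hn0
  refine ⟨fun x hx _ => A0G.A0 hN' hc' hN1' hg' hth' hs' hAl0 hAl x hx, fun x hx hx1 => ?_,
    A0G.A2 hN' hc' hN1' hg' hth' hs' hAl0 hAl⟩
  refine A0G.A0' hN' hc' hN1' hg' hn0' hAl0 hAl (fun h1 => ?_) x hx.le hx1
  rcases hv with hv | hv
  · have : (1 : ℝ) ≤ N * nuh := by exact_mod_cast hv
    linarith
  · exact_mod_cast hv

end Pool.Agent.T6A.Cert3
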