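import Pool.Agent.T6A.Cert3A0Chk
import Pool.Agent.T6A.Cert3Tab

/-!
# CERT v3, range (R2): the rows A0, A0', A2 over the table (helper56)

`rowAQ N r` checks the row `r : Line3.Row` of a degree with slope `N` of the profile; `nuh = (1 - mu) / B`,
`c = 29/100`, `kap = 1`. `rowAQ_sound` gives the fields `A0`, `A0'`, `A2` (and the signs of `g0`, `th`)
of `MugOK`, `rowsA` checks the whole table, `rowA` is the result for the table.
-/

set_option autoImplicit false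

namespace Pool.Agent.T6A.C3A0

open Pool.Agent.T6A.Line3

/-- The check for one row. -/
def rowAQ (N : ℚ) (r : Row) : Bool :=
  Cert3.okA (29 / 100) N ((1 - r.mu) / r.B) r.th r.g0 r.g1 && decide (0 < r.th)

/-- What the row delivers. -/
structure RowA (N : ℚ) (r : Row) (Al : ℝ → ℝ) (d : ℕ) (nuh : ℝ) : Prop where
  hg0 : (0 : ℝ) ≤ r.g0
  hth0 : (0 : ℝ) < r.th
  A0 : ∀ x, 0 ≤ x → x ≤ nuh → 2 * (lf N x ^ 2 * Al x ^ 2 / (1 - x)) ≤
    r.g0 + r.g1 * lf N x + r.th * (lf N x / (1 - x) ^ d)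
  A0' : ∀ x, nuh < x → x ≤ 1 → 2 * (lf N x ^ 2 * Al x ^ 2 / (1 - x)) ≤ r.g0 + r.g1 * lf N x
  A2 : ∀ x, 0 ≤ x → x ≤ 1 → 2 * (lf N x ^ 2 * Al x ^ 2 / (1 - x)) ≤
    r.g0 + r.g1 * lf N x + r.th * 1

theorem rowAQ_sound {N : ℚ} {r : Row} {Al : ℝ → ℝ} (h : rowAQ N r = true)
    (hAl0 : ∀ x, 0 ≤ Al x) (hAl : ∀ x, 0 ≤ x → x < 1 → Al x ≤ 1 + 29 / 100 * (x / (1 - x)))
    (d : ℕ) : RowA N r Al d ((1 - (r.mu : ℝ)) / r.B) := by
  rw [rowAQ, Bool.and_eq_true, decide_eq_true_eq] at h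
  obtain ⟨h, hth⟩ := h
  have hn : (((1 - r.mu) / r.B : ℚ) : ℝ) = (1 - (r.mu : ℝ)) / r.B := by
    push_cast
    rfl
  have hc : ((29 / 100 : ℚ) : ℝ) = 29 / 100 := by norm_num
  have hs := Cert3.okA_sound h hAl0 (by rw [hc]; exact hAl) d
  rw [hn] at hs
  refine ⟨?_, by exact_mod_cast hth, hs.1, hs.2.1, hs.2.2⟩
  simp only [Cert3.okA, Bool.and_eq_true, Bool.or_eq_true, decide_eq_true_eq] at h
  obtain ⟨⟨⟨⟨⟨⟨⟨⟨_, _⟩, _⟩, hg⟩, _⟩, _⟩, _⟩, _⟩, _⟩ := h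
  exact_mod_cast hg

/-- The check of the table for one degree. -/
def degA (d : ℕ) : Bool := (C3T.rows d).all fun r => rowAQ (C3T.Nn d / 1000) r

theorem degsA : (List.range 25).all degA = true := by decide +kernel

theorem rowsA {d : ℕ} {r : Row} (hr : r ∈ C3T.rows d) : rowAQ (C3T.Nn d / 1000) r = true := by
  rcases Nat.lt_or_ge d 25 with hd | hd
  · have h := List.all_eq_true.1 degsA d (List.mem_range.2 hd)
    exact List.all_eq_true.1 h r hr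
  · exfalso
    have : C3T.rows d = [] := by
      unfold C3T.rows
      split <;> first | rfl | omega
    rw [this] at hr
    exact absurd hr (by simp)

/-- The row A0, A0', A2 for the whole table. -/
theorem rowA {d : ℕ} {r : Row} (hr : r ∈ C3T.rows d) {Al : ℝ → ℝ} (hAl0 : ∀ x, 0 ≤ Al x)
    (hAl : ∀ x, 0 ≤ x → x < 1 → Al x ≤ 1 + 29 / 100 * (x / (1 - x))) (d' : ℕ) :
    RowA (C3T.Nn d / 1000) r Al d' ((1 - (r.mu : ℝ)) / r.B) :=
  rowAQ_sound (rowsA hr) hAl0 hAl d'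

end Pool.Agent.T6A.C3A0
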