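import Pool.Agent.T6A.Cert3A0Q

/-!
# CERT v3: the rows A0, A0', A2 for any `c` (helper56)

`rowAG c N r` is the check of one row with `Al x ≤ 1 + c x / (1 - x)`; `tabA c tab` the check of a table.
-/

set_option autoImplicit false

namespace Pool.Agent.T6A.C3A0

open Pool.Agent.T6A.Line3

/-- The check for one row. -/
def rowAG (c N : ℚ) (r : Row) : Bool :=
  Cert3.okA c N ((1 - r.mu) / r.B) r.th r.g0 r.g1 && decide (0 < r.th)

theorem rowAG_sound {c N : ℚ} {r : Row} {Al : ℝ → ℝ} (h : rowAG c N r = true)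
    (hAl0 : ∀ x, 0 ≤ Al x) (hAl : ∀ x, 0 ≤ x → x < 1 → Al x ≤ 1 + (c : ℝ) * (x / (1 - x)))
    (d : ℕ) : RowA N r Al d ((1 - (r.mu : ℝ)) / r.B) := by
  rw [rowAG, Bool.and_eq_true, decide_eq_true_eq] at h
  obtain ⟨h, hth⟩ := h
  have hn : (((1 - r.mu) / r.B : ℚ) : ℝ) = (1 - (r.mu : ℝ)) / r.B := by
    push_cast
    rfl
  have hs := Cert3.okA_sound h hAl0 hAl d
  rw [hn] at hs
  refine ⟨?_, by exact_mod_cast hth, hs.1, hs.2.1, hs.2.2⟩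
  simp only [Cert3.okA, Bool.and_eq_true, Bool.or_eq_true, decide_eq_true_eq] at h
  obtain ⟨⟨⟨⟨⟨⟨⟨⟨_, _⟩, _⟩, hg⟩, _⟩, _⟩, _⟩, _⟩, _⟩ := h
  exact_mod_cast hg

/-- The check of a table. -/
def tabA (c : ℚ) (tab : List (Par × List Row)) : Bool :=
  tab.all fun pr => pr.2.all fun r => rowAG c pr.1.N r

theorem tabA_sound {c : ℚ} {tab : List (Par × List Row)} (h : tabA c tab = true)
    {pr : Par × List Row} (hp : pr ∈ tab) {r : Row} (hr : r ∈ pr.2) {Al : ℝ → ℝ}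
    (hAl0 : ∀ x, 0 ≤ Al x) (hAl : ∀ x, 0 ≤ x → x < 1 → Al x ≤ 1 + (c : ℝ) * (x / (1 - x)))
    (d : ℕ) : RowA pr.1.N r Al d ((1 - (r.mu : ℝ)) / r.B) :=
  rowAG_sound (List.all_eq_true.1 (List.all_eq_true.1 h pr hp) r hr) hAl0 hAl d

end Pool.Agent.T6A.C3A0
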