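import Pool.Agent.T6A.BTree

/-!
# LINE for CERT v3: the checker (MP_c6effb_co)

For one degree `d` and one type (`0` = no giant neighbour, `1` = giant neighbours and `q ≤ (d + 1) s`,
`2` = giant neighbours and `(d + 1) s ≤ q`) the value `L = Ln / Ld` of the line is a quotient of
polynomials in `s = x 0`, `q = x 1`. All conditions have the form `L * U ≤ V` (`U`, `V` polynomials).
A chain of rows is checked: a row is used where its condition (N1) holds and the one of the previous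
row of the chain fails.
-/

set_option autoImplicit false

namespace Pool.Agent.T6A.Line3

open Bern

/-- A rational constant. -/
def cq (x : ℚ) : Ex := Ex.q x.num x.den

@[simp] theorem ev_cq (x : ℚ) (ρ : ℕ → ℝ) : (cq x).ev ρ = (x : ℝ) := by
  rw [cq, Ex.ev_q]
  exact (Rat.cast_def x).symm

/-- The row of a table: the data of the kill factor. -/
structure Row : Type where
  mu : ℚ
  B : ℚ
  th : ℚ
  g0 : ℚ
  g1 : ℚ
  ka : ℚ
  kb : ℚ
  F2 : ℚ

/-- The parameters of one degree: `N` = slope of the profile, `ss` = lower bound of `KZero.ss`. -/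
structure Par : Type where
  d : ℕ
  N : ℚ
  ss : ℚ

/-- sigma -/
def s' : Ex := Ex.x 0
/-- q -/
def q' : Ex := Ex.x 1

/-- Parameters of the certificate. -/
structure Glob : Type where
  xi : ℚ
  s0 : ℚ
  eta : ℚ
  X : ℚ
  x1 : ℚ

/-- the number of `sigma`s lost by the list -/
def hubN : ℕ → ℕ
  | 0 => 1
  | _ + 1 => 2

/-- `W` -/
def Wx (ty : ℕ) : Ex := (q' + 1) - Ex.nat (hubN ty) * s'
/-- `A` -/
def Ax (p : Par) (ty : ℕ) : Ex := Wx ty - cq p.N * s'

/-- numerator of the line -/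
def Ln (g : Glob) (p : Par) : ℕ → Ex
  | 0 => 2 * q' * (cq (1 + g.eta + g.s0) - s') - cq (g.s0 * p.d)
  | 1 => 2 * q' * (cq (1 + g.eta + g.s0) - s') - cq (g.s0 * (p.d + 2))
  | _ + 2 => 2 * q' * s' * (cq (1 + g.eta + g.s0) - s') - 2 * q' * cq g.s0 + cq (g.s0 * p.d) * s'
/-- denominator of the line -/
def Ld : ℕ → Ex
  | 0 => 2 * q'
  | 1 => 2 * q'
  | _ + 2 => 2 * q' * s'

/-- `L * U ≤ V` -/
def le (g : Glob) (p : Par) (ty : ℕ) (U V : Ex) : Ex := Ld ty * V - Ln g p ty * U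

/-- `e_0` -/
def e0 (g : Glob) (mu : ℚ) : ℚ := (g.xi + (1 - mu) ^ 2 / g.xi) / 2

/-- (LIN) -/
def linE (g : Glob) (p : Par) (ty : ℕ) (mu : ℚ) : Ex :=
  le g p ty (Ax p ty ^ 2 + cq (p.d * e0 g mu) * s' * Ax p ty
    + cq ((p.d * e0 g mu) ^ 2 * g.X ^ 2 / (4 * p.ss)) * s' ^ 2) (Ax p ty ^ 2)
/-- (LAM) -/
def lamE (g : Glob) (p : Par) (ty : ℕ) : Ex := le g p ty (cq (5 / 2)) (Ax p ty)
/-- (N1) -/
def n1E (g : Glob) (p : Par) (ty : ℕ) (r : Row) : Ex :=
  Ln g p ty * (cq (1 - r.mu) * (Wx ty - s') - cq r.B * s') - Ld ty * (cq r.mu * Ax p ty)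
/-- (N2) -/
def n2E (g : Glob) (p : Par) (ty : ℕ) (r : Row) : Ex :=
  le g p ty (cq r.g0 * Wx ty + cq r.g1 * Ax p ty + cq (2 * r.th) * s') (cq r.th * Ax p ty)
/-- (N3) -/
def n3E (g : Glob) (p : Par) (ty : ℕ) (r : Row) : Ex :=
  le g p ty (cq r.ka * Wx ty + cq r.kb * s') (cq (1 - r.mu) * Ax p ty)
/-- (N4) -/
def n4E (g : Glob) (p : Par) (ty : ℕ) (r : Row) : Ex :=
  le g p ty (cq (r.F2 * (2 - g.x1)) * s') (cq (1 - g.x1) * Ax p ty)
/-- (MN) -/
def mnE (g : Glob) (p : Par) (ty : ℕ) (r : Row) : Ex :=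
  Ln g p ty * cq r.B - Ld ty * cq (r.mu * p.N)

/-- the domain -/
def domE (p : Par) : ℕ → Ex
  | 0 => Ex.nat p.d * s' - q'
  | 1 => Ex.nat (p.d + 1) * s' - q'
  | _ + 2 => q' - Ex.nat (p.d + 1) * s'

/-- The real conditions for the value `L`, degree `d`, list weight `W`, without kill. -/
structure Base (g : Glob) (p : Par) (s W L : ℝ) (mu : ℚ) : Prop where
  lin : L * ((W - p.N * s) ^ 2 + ((p.d * e0 g mu : ℚ) : ℝ) * s * (W - p.N * s)
    + (((p.d * e0 g mu) ^ 2 * g.X ^ 2 / (4 * p.ss) : ℚ) : ℝ) * s ^ 2) ≤ (W - p.N * s) ^ 2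
  lam : L * (5 / 2) ≤ W - p.N * s

/-- The real conditions with kill. -/
structure Kill (g : Glob) (p : Par) (s W L : ℝ) (r : Row) : Prop where
  n1 : r.mu * (W - p.N * s) ≤ L * ((1 - r.mu) * (W - s) - r.B * s)
  n2 : L * (r.g0 * W + r.g1 * (W - p.N * s) + 2 * r.th * s) ≤ r.th * (W - p.N * s)
  n3 : L * (r.ka * W + r.kb * s) ≤ (1 - r.mu) * (W - p.N * s)
  n4 : L * (r.F2 * (2 - g.x1) * s) ≤ (1 - g.x1) * (W - p.N * s)
  mn : r.mu * p.N ≤ L * r.B

/-- One step of the chain: row and trees for (LIN), (LAM), (N2), (N3), (N4), (MN). -/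
structure Step : Type where
  r : Row
  lin : Tr
  lam : Tr
  n2 : Tr
  n3 : Tr
  n4 : Tr
  mn : Tr

/-- The check of a chain; `hs` = hypotheses so far, `last` = trees of (LIN), (LAM) for `mu = 0`. -/
def chain (g : Glob) (p : Par) (ty fuel : ℕ) (box : List Iv) (last : Tr × Tr) :
    List Ex → List Step → Bool
  | hs, [] => last.1.chk fuel hs (linE g p ty 0) box && last.2.chk fuel hs (lamE g p ty) box
  | hs, t :: ts =>
    let hn := hs ++ [n1E g p ty t.r]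
    (t.lin.chk fuel hn (linE g p ty t.r.mu) box && t.lam.chk fuel hn (lamE g p ty) box &&
      t.n2.chk fuel hn (n2E g p ty t.r) box && t.n3.chk fuel hn (n3E g p ty t.r) box &&
      t.n4.chk fuel hn (n4E g p ty t.r) box && t.mn.chk fuel hn (mnE g p ty t.r) box) &&
    chain g p ty fuel box last [Ln g p ty, domE p ty, 0 - n1E g p ty t.r] ts

/-- The value of the line. -/
noncomputable def Lv (g : Glob) (p : Par) (ty : ℕ) (ρ : ℕ → ℝ) : ℝ := (Ln g p ty).ev ρ / (Ld ty).ev ρ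

theorem le_iff {g : Glob} {p : Par} {ty : ℕ} {U V : Ex} {ρ : ℕ → ℝ} (h : 0 < (Ld ty).ev ρ) :
    0 ≤ (le g p ty U V).ev ρ ↔ Lv g p ty ρ * U.ev ρ ≤ V.ev ρ := by
  unfold Lv
  rw [div_mul_eq_mul_div, div_le_iff₀ h]
  simp only [le, Ex.ev_sub, Ex.ev_mul]
  constructor <;> intro h' <;> linarith

theorem chain_sound {g : Glob} {p : Par} {ty fuel : ℕ} {box : List Iv} {last : Tr × Tr}
    {ρ : ℕ → ℝ} (hρ : InB box ρ) (hd : 0 < (Ld ty).ev ρ) (hL : 0 ≤ (Ln g p ty).ev ρ)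
    (hdom : 0 ≤ (domE p ty).ev ρ) : ∀ (ts : List Step) (hs : List Ex),
    chain g p ty fuel box last hs ts = true → (∀ h ∈ hs, 0 ≤ h.ev ρ) →
    Base g p (ρ 0) ((Wx ty).ev ρ) (Lv g p ty ρ) 0 ∨
      ∃ t ∈ ts, Base g p (ρ 0) ((Wx ty).ev ρ) (Lv g p ty ρ) t.r.mu ∧
        Kill g p (ρ 0) ((Wx ty).ev ρ) (Lv g p ty ρ) t.r
  | [], hs, h, H => by
    rw [chain, Bool.and_eq_true] at h
    left
    have h1 := (le_iff hd).1 (Tr.sound _ _ h.1 ρ hρ H)
    have h2 := (le_iff hd).1 (Tr.sound _ _ h.2 ρ hρ H)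
    constructor
    · simpa [Ax, s'] using h1
    · simpa [Ax, s'] using h2
  | t :: ts, hs, h, H => by
    rw [chain] at h
    simp only [Bool.and_eq_true] at h
    obtain ⟨⟨⟨⟨⟨⟨h1, h2⟩, h3⟩, h4⟩, h5⟩, h6⟩, h7⟩ := h
    rcases le_total 0 ((n1E g p ty t.r).ev ρ) with hn | hn
    · right
      have H' : ∀ h ∈ hs ++ [n1E g p ty t.r], 0 ≤ h.ev ρ := by
        intro h hh
        rcases List.mem_append.1 hh with h' | h'
        · exact H h h'
        · rw [List.mem_singleton.1 h']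
          exact hn
      refine ⟨t, List.mem_cons_self, ⟨?_, ?_⟩, ⟨?_, ?_, ?_, ?_, ?_⟩⟩
      · simpa [Ax, s'] using (le_iff hd).1 (Tr.sound _ _ h1 ρ hρ H')
      · simpa [Ax, s'] using (le_iff hd).1 (Tr.sound _ _ h2 ρ hρ H')
      · have e : (n1E g p ty t.r).ev ρ = (Ln g p ty).ev ρ * ((1 - (t.r.mu : ℝ)) *
            ((Wx ty).ev ρ - ρ 0) - t.r.B * ρ 0) - (Ld ty).ev ρ * (t.r.mu *
            ((Wx ty).ev ρ - p.N * ρ 0)) := by
          simp [n1E, Ax, s']
        rw [e] at hn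
        unfold Lv
        rw [div_mul_eq_mul_div, le_div_iff₀ hd]
        linarith
      · simpa [Ax, s'] using (le_iff hd).1 (Tr.sound _ _ h3 ρ hρ H')
      · simpa [Ax, s'] using (le_iff hd).1 (Tr.sound _ _ h4 ρ hρ H')
      · simpa [Ax, s'] using (le_iff hd).1 (Tr.sound _ _ h5 ρ hρ H')
      · have h8 := Tr.sound _ _ h6 ρ hρ H'
        have e : (mnE g p ty t.r).ev ρ = (Ln g p ty).ev ρ * t.r.B - (Ld ty).ev ρ *
            (t.r.mu * p.N) := by
          simp [mnE]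
        rw [e] at h8
        unfold Lv
        rw [div_mul_eq_mul_div, le_div_iff₀ hd]
        linarith
    · have H' : ∀ h ∈ [Ln g p ty, domE p ty, 0 - n1E g p ty t.r], 0 ≤ h.ev ρ := by
        intro h hh
        simp only [List.mem_cons, List.not_mem_nil, or_false] at hh
        rcases hh with rfl | rfl | rfl
        · exact hL
        · exact hdom
        · rw [Ex.ev_sub, Ex.ev_zero]
          linarith
      rcases chain_sound hρ hd hL hdom ts _ h7 H' with h8 | ⟨t', ht', h8⟩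
      · exact Or.inl h8
      · exact Or.inr ⟨t', List.mem_cons_of_mem _ ht', h8⟩

end Pool.Agent.T6A.Line3
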