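import Pool.Agent.T6A.Cert3M1
import Pool.Agent.T6A.Line3Base

/-!
# CERT v3, range (R2): the rows M1, M1', M1x over the table (helper81)

`rowMQ fuel e N r` checks the row `r : Line3.Row` of the degree `d = e + 1` with slope `N` of the profile;
`nuh = (1 - mu) / B`, `rho = 0`, `a1 = m1 = om = 1 - mu`. `rowMQ_sound` gives the fields `M1`, `M1'`, `M1x`
(and `hB`, `hm1`, `hnuh0`, `hnuh1`) of `MugOK`.
-/

set_option autoImplicit false

namespace Pool.Agent.T6A.C3M1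

open Pool.Agent.T6A.Bern Pool.Agent.T6A.Line3

/-- the end `nuh = (1 - mu) / B` -/
def nuq (r : Row) : ℚ := (1 - r.mu) / r.B

/-- The check for one row. -/
def rowMQ (fuel : ℕ) (e : ℕ) (N : ℚ) (r : Row) : Bool :=
  decide (0 ≤ N) && (decide (0 < r.B) && (decide (r.mu < 1) && (decide (nuq r < 1) &&
  (decide (N * nuq r ≤ 1) &&
  (chk fuel (eM1 e (cq N) (cq r.mu) (1 - cq r.mu) (cq r.B)) [⟨0, (nuq r).num, (nuq r).den⟩] &&
  chk fuel (eM1' e (cq N) (cq r.mu) (1 - cq r.mu)) [⟨0, (nuq r).num, (nuq r).den⟩])))))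

theorem nuq_cast (r : Row) : ((nuq r : ℚ) : ℝ) = (1 - (r.mu : ℝ)) / r.B := by
  unfold nuq
  push_cast
  rfl

/-- What the row delivers. -/
structure RowM (e : ℕ) (N : ℚ) (r : Row) (nuh : ℝ) : Prop where
  hB : (0 : ℝ) < r.B
  hm1 : (0 : ℝ) < 1 - r.mu
  hnuh0 : 0 < nuh
  hnuh1 : nuh < 1
  M1 : ∀ x, 0 ≤ x → x ≤ nuh →
    0 * lf N x + (1 - (r.mu : ℝ)) - r.B * x ≤
      lf N x * (1 / (1 - x) - (1 - (1 - (r.mu : ℝ))) / (1 - x) ^ (e + 1))
  M1' : ∀ x, 0 ≤ x → x ≤ nuh →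
    lf N x * (1 / (1 - x) - (1 - (1 - (r.mu : ℝ))) / (1 - x) ^ (e + 1)) ≤ 1 - r.mu
  M1x : ∀ x, nuh < x → x ≤ 1 → 0 * lf N x + (1 - (r.mu : ℝ)) - r.B * x ≤ 0

theorem rowMQ_sound {fuel : ℕ} {e : ℕ} {N : ℚ} {r : Row}
    (h : rowMQ fuel e N r = true) : RowM e N r ((1 - (r.mu : ℝ)) / r.B) := by
  simp only [rowMQ, Bool.and_eq_true, decide_eq_true_eq] at h
  obtain ⟨hN, hB, hmu, h1, hNn, hM, hM'⟩ := h
  have hN' : (0 : ℝ) ≤ N := by exact_mod_cast hN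
  have hB' : (0 : ℝ) < r.B := by exact_mod_cast hB
  have hmu' : (r.mu : ℝ) < 1 := by exact_mod_cast hmu
  have h1' : ((nuq r : ℚ) : ℝ) < 1 := by exact_mod_cast h1
  have hNn' : (N : ℝ) * ((nuq r : ℚ) : ℝ) ≤ 1 := by exact_mod_cast hNn
  have hn : (((nuq r).num : ℤ) : ℝ) / ((nuq r).den : ℝ) = ((nuq r : ℚ) : ℝ) :=
    (Rat.cast_def (nuq r)).symm
  have e1 : (1 - (1 - (r.mu : ℝ))) = (r.mu : ℝ) := by ring
  have hx : ((nuq r : ℚ) : ℝ) * r.B = 1 - r.mu := by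
    rw [nuq_cast]
    field_simp
  rw [← nuq_cast]
  refine ⟨hB', by linarith, ?_, h1', ?_, ?_, ?_⟩
  · rw [nuq_cast]
    exact div_pos (by linarith) hB'
  · rw [e1]
    refine m1_of hN' hNn' h1' fun x hx0 hx1 => ?_
    have := sound1 hM (a := x) (by simpa using hx0) (by rw [hn]; exact hx1)
    simpa [eM1] using this
  · rw [e1]
    refine m1'_of hN' hNn' h1' fun x hx0 hx1 => ?_
    have := sound1 hM' (a := x) (by simpa using hx0) (by rw [hn]; exact hx1)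
    simpa [eM1'] using this
  · intro x hx0 _
    have h2 : ((nuq r : ℚ) : ℝ) * r.B < x * r.B := mul_lt_mul_of_pos_right hx0 hB'
    rw [hx] at h2
    linarith

end Pool.Agent.T6A.C3M1
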