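import Mathlib

/-!
# Project T6A: the bracket of the T-T term with the removal of `N(a)` and `N(b)` (lemma MUB of helper22)

`U` = the allowed clusters outside `A`, `w` their weights, `n c` the proportion of `A` which is blocked by `c`;
`lf inv x = (1 - inv x)⁺` is the profile, `rho c` the arrival intensity, `Nb`, `S` the removed sets.
-/

set_option autoImplicit false

open Finset

namespace Pool.Agent.T6A

/-- the linear profile -/
noncomputable def lf (inv x : ℝ) : ℝ := max 0 (1 - inv * x)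

theorem lf_nonneg (inv x : ℝ) : 0 ≤ lf inv x := le_max_left _ _

theorem lf_le_one {inv x : ℝ} (h : 0 ≤ inv) (hx : 0 ≤ x) : lf inv x ≤ 1 :=
  max_le zero_le_one (by nlinarith [mul_nonneg h hx])

/-- the intensity -/
noncomputable def rhoF {ι : Type*} [DecidableEq ι] (U Nb S : Finset ι) (w n : ι → ℝ)
    (lam inv nuh : ℝ) (d : ℕ) (c : ι) : ℝ :=
  if c ∈ U ∧ c ∉ Nb ∧ c ∉ S ∧ n c ≤ nuh then lam * w c * lf inv (n c) / (1 - n c) ^ d else 0

/-- the sum of the squares (per `lam ^ 2`) -/
noncomputable def PF {ι : Type*} (U : Finset ι) (w n : ι → ℝ) (c0 inv : ℝ) : ℝ :=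
  ∑ c ∈ U, w c * (lf inv (n c) ^ 2 * (1 + c0 * n c) ^ 2 / (1 - n c))

theorem mub {ι : Type*} [Fintype ι] [DecidableEq ι] (U Nb S : Finset ι) (w n : ι → ℝ)
    (sg lam mu B th ka c0 inv nuh : ℝ) (d : ℕ)
    (hw : ∀ c ∈ U, 0 ≤ w c) (hn0 : ∀ c ∈ U, 0 ≤ n c) (hn1 : ∀ c ∈ U, n c ≤ 1)
    (hwn : ∑ c ∈ U, w c * n c ≤ sg) (hNb : ∑ c ∈ U ∩ Nb, w c ≤ sg) (hS : ∑ c ∈ U ∩ S, w c ≤ sg)
    (hd : 1 ≤ d) (hc0 : 0 < c0) (hinv : 1 + c0 ≤ inv) (hnuh0 : 0 < nuh) (hnuh1 : nuh * inv ≤ 1)
    (hlam : 0 ≤ lam) (hth0 : 0 < th) (hth2 : th ≤ 2)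
    (M1 : ∀ x, 0 ≤ x → x ≤ nuh → (1 - mu) - B * x ≤ lf inv x * (1 / (1 - x) - mu / (1 - x) ^ d))
    (M1' : ∀ x, 0 ≤ x → x ≤ nuh → lf inv x * (1 / (1 - x) - mu / (1 - x) ^ d) ≤ 1 - mu)
    (M2 : 1 - mu ≤ B * nuh)
    (M3 : ∀ x, 0 ≤ x → x ≤ nuh → th * (1 - mu / (1 - x) ^ (d - 1)) ≤ (1 - mu) * lf inv x)
    (S1 : ∀ s x, 0 < s → s ≤ 1 / 2 → 0 ≤ x → x ≤ nuh →
      lf inv x / (1 - x) ^ d * ((1 - x) ^ (d - 1) - (max 0 (1 - x / (1 - s))) ^ (d - 1)
        - s * (1 - mu) * c0) ≤ s * ka)
    (A0 : ∀ x, 0 ≤ x → x ≤ nuh → 2 * lf inv x ^ 2 * (1 + c0 * x) ^ 2 / (1 - x) ≤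
      (2 - th) + th * lf inv x / (1 - x) ^ d)
    (A0' : ∀ x, nuh ≤ x → x * inv ≤ 1 → 2 * lf inv x ^ 2 * (1 + c0 * x) ^ 2 / (1 - x) ≤ 2 - th)
    (N0 : 1 ≤ (1 - mu) * (1 + c0 / 2))
    (N1 : mu ≤ lam * ((1 - mu) * (∑ c ∈ U, w c - sg) - B * sg))
    (N2 : lam * ((2 - th) * ∑ c ∈ U, w c + 2 * th * sg) ≤ th)
    (N3 : lam * ka * ∑ c ∈ U, w c ≤ (1 - mu) * c0) (s : ℝ) (hs0 : 0 ≤ s) (hs1 : s < 1) :
    1 + ∑ c, rhoF U Nb S w n lam inv nuh d c * (1 - (max 0 (1 - n c / (1 - s))) ^ (d - 1)) ≤
      (1 - mu) * (1 + PF (U ∩ S) w n c0 inv / PF U w n c0 inv / 2) * (1 + c0 * s) *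
        (1 + ∑ c, rhoF U Nb S w n lam inv nuh d c) := by
  obtain ⟨e, rfl⟩ : ∃ e, d = e + 1 := ⟨d - 1, by omega⟩
  simp only [Nat.add_sub_cancel] at M3 S1 ⊢
  have hinv0 : 0 < inv := by linarith
  have hmu : 0 < 1 - mu := by
    by_contra hcon
    push Not at hcon
    have : (1 - mu) * (1 + c0 / 2) ≤ 0 := mul_nonpos_of_nonpos_of_nonneg hcon (by positivity)
    linarith
  have hB : 0 < B := by
    by_contra hcon
    push Not at hcon
    have : B * nuh ≤ 0 := mul_nonpos_of_nonpos_of_nonneg hcon hnuh0.le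
    linarith
  have hnuh_lt : nuh < 1 := by
    by_contra hcon
    push Not at hcon
    nlinarith
  -- the active set
  set T : Finset ι := U.filter (fun c => c ∉ Nb ∧ c ∉ S ∧ n c ≤ nuh) with hT
  set rho := rhoF U Nb S w n lam inv nuh (e + 1) with hrho
  have hsumT : ∀ f : ι → ℝ, ∑ c, rho c * f c =
      ∑ c ∈ T, lam * w c * lf inv (n c) / (1 - n c) ^ (e + 1) * f c := by
    intro f
    rw [hT, Finset.sum_filter]
    have h1 : ∑ c, rho c * f c = ∑ c ∈ U, rho c * f c := by
      symm
      refine Finset.sum_subset (Finset.subset_univ U) fun c _ hc => ?_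
      rw [hrho]; unfold rhoF
      rw [if_neg (fun h => hc h.1), zero_mul]
    rw [h1]
    refine Finset.sum_congr rfl fun c hc => ?_
    rw [hrho]; unfold rhoF
    by_cases h : c ∉ Nb ∧ c ∉ S ∧ n c ≤ nuh
    · rw [if_pos ⟨hc, h⟩, if_pos h]
    · rw [if_neg (fun h' => h h'.2), if_neg h, zero_mul]
  have hMsum : ∑ c, rho c = ∑ c ∈ T, lam * w c * lf inv (n c) / (1 - n c) ^ (e + 1) := by
    have := hsumT (fun _ => 1)
    simpa using this
  have hTU : ∀ c ∈ T, c ∈ U ∧ c ∉ Nb ∧ c ∉ S ∧ n c ≤ nuh := fun c hc => by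
    rw [hT] at hc; simpa using Finset.mem_filter.mp hc
  have hy : ∀ c ∈ T, 0 < 1 - n c := fun c hc => by
    have := (hTU c hc).2.2.2; linarith
  have hterm0 : ∀ c ∈ T, 0 ≤ lam * w c * lf inv (n c) / (1 - n c) ^ (e + 1) := fun c hc =>
    div_nonneg (mul_nonneg (mul_nonneg hlam (hw c (hTU c hc).1)) (lf_nonneg _ _))
      (pow_pos (hy c hc) _).le
  set M := ∑ c, rho c with hM
  have hM0 : 0 ≤ M := by rw [hMsum]; exact Finset.sum_nonneg hterm0
  -- P, PS
  set P := PF U w n c0 inv with hP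
  set PS := PF (U ∩ S) w n c0 inv with hPS
  have hpt : ∀ c ∈ U, 0 ≤ w c * (lf inv (n c) ^ 2 * (1 + c0 * n c) ^ 2 / (1 - n c)) := fun c hc =>
    mul_nonneg (hw c hc) (div_nonneg (by positivity) (by linarith [hn1 c hc]))
  have hPS0 : 0 ≤ PS := by
    rw [hPS]; unfold PF
    exact Finset.sum_nonneg fun c hc => hpt c (Finset.mem_inter.mp hc).1
  have hPSP : PS ≤ P := by
    rw [hPS, hP]; unfold PF
    exact Finset.sum_le_sum_of_subset_of_nonneg Finset.inter_subset_left fun c hc _ => hpt c hc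
  set z := PS / P with hz
  have hz0 : 0 ≤ z := div_nonneg hPS0 (hPS0.trans hPSP)
  have hzP : z * P = PS := by
    rcases (hPS0.trans hPSP).eq_or_lt with h | h
    · have h' : P = 0 := h.symm
      have : PS = 0 := le_antisymm (by rw [h'] at hPSP; exact hPSP) hPS0
      rw [this, h', mul_zero]
    · rw [hz]; field_simp
  -- pi_s in [0, 1]
  have hpi0 : ∀ c, 0 ≤ (max 0 (1 - n c / (1 - s))) ^ e := fun c => pow_nonneg (le_max_left _ _) e
  -- left side
  have hL : 1 + ∑ c, rho c * (1 - (max 0 (1 - n c / (1 - s))) ^ e) =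
      1 + M - ∑ c, rho c * (max 0 (1 - n c / (1 - s))) ^ e := by
    simp only [mul_sub, mul_one, Finset.sum_sub_distrib]
    ring
  have hrp0 : 0 ≤ ∑ c, rho c * (max 0 (1 - n c / (1 - s))) ^ e := by
    rw [hsumT]
    exact Finset.sum_nonneg fun c hc => mul_nonneg (hterm0 c hc) (hpi0 c)
  rw [hL]
  by_cases hcase : 1 ≤ (1 - mu) * (1 + c0 * s)
  · have h1 : (1 + M) ≤ (1 - mu) * (1 + z / 2) * (1 + c0 * s) * (1 + M) := by
      have h2 : 1 ≤ (1 - mu) * (1 + z / 2) * (1 + c0 * s) := by
        calc (1 : ℝ) ≤ (1 - mu) * (1 + c0 * s) := hcase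
          _ ≤ (1 - mu) * (1 + c0 * s) * (1 + z / 2) :=
            le_mul_of_one_le_right (by linarith) (by linarith)
          _ = _ := by ring
      exact le_mul_of_one_le_left (by linarith) h2
    linarith
  push Not at hcase
  have hs2 : s ≤ 1 / 2 := by
    by_contra hcon
    push Not at hcon
    have h1 : (1 - mu) * (1 + c0 / 2) ≤ (1 - mu) * (1 + c0 * s) := by
      refine mul_le_mul_of_nonneg_left ?_ hmu.le
      nlinarith
    linarith
  -- the weight of the removed sets
  have hU0 : 0 ≤ ∑ c ∈ U, w c := Finset.sum_nonneg hw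
  -- (a): S1, N3
  have ha : ∑ c, rho c * ((1 - n c) ^ e - (max 0 (1 - n c / (1 - s))) ^ e - s * (1 - mu) * c0) ≤
      s * ((1 - mu) * c0) := by
    rw [hsumT]
    have h1 : ∀ c ∈ T, lam * w c * lf inv (n c) / (1 - n c) ^ (e + 1) *
        ((1 - n c) ^ e - (max 0 (1 - n c / (1 - s))) ^ e - s * (1 - mu) * c0) ≤
        lam * w c * (s * ka) := by
      intro c hc
      have hcT := hTU c hc
      have hlw : 0 ≤ lam * w c := mul_nonneg hlam (hw c hcT.1)
      have h2 : lf inv (n c) / (1 - n c) ^ (e + 1) *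
          ((1 - n c) ^ e - (max 0 (1 - n c / (1 - s))) ^ e - s * (1 - mu) * c0) ≤ s * ka := by
        rcases hs0.eq_or_lt with h0 | h0
        · rw [← h0]
          have : max 0 (1 - n c / (1 - 0)) = 1 - n c := by
            rw [sub_zero, div_one]; exact max_eq_right (hy c hc).le
          rw [this]; simp
        · exact S1 s (n c) h0 hs2 (hn0 c hcT.1) hcT.2.2.2
      calc _ = lam * w c * (lf inv (n c) / (1 - n c) ^ (e + 1) *
          ((1 - n c) ^ e - (max 0 (1 - n c / (1 - s))) ^ e - s * (1 - mu) * c0)) := by ring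
        _ ≤ _ := mul_le_mul_of_nonneg_left h2 hlw
    have hka : 0 ≤ s * ka ∨ s * ka < 0 := le_or_gt 0 (s * ka)
    -- the bound with U
    have h3 : ∑ c ∈ T, lam * w c * (s * ka) ≤ s * ((1 - mu) * c0) := by
      rcases hka with h | h
      · calc ∑ c ∈ T, lam * w c * (s * ka) ≤ ∑ c ∈ U, lam * w c * (s * ka) := by
              refine Finset.sum_le_sum_of_subset_of_nonneg (Finset.filter_subset _ _) fun c hc _ => ?_
              exact mul_nonneg (mul_nonneg hlam (hw c hc)) h
          _ = s * (lam * ka * ∑ c ∈ U, w c) := by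
              rw [Finset.mul_sum, Finset.mul_sum]
              refine Finset.sum_congr rfl fun c _ => ?_
              ring
          _ ≤ _ := mul_le_mul_of_nonneg_left N3 hs0
      · calc ∑ c ∈ T, lam * w c * (s * ka) ≤ 0 :=
              Finset.sum_nonpos fun c hc => mul_nonpos_of_nonneg_of_nonpos
                (mul_nonneg hlam (hw c (hTU c hc).1)) h.le
          _ ≤ _ := by positivity
    exact (Finset.sum_le_sum h1).trans h3
  -- (b): the main term at s = 0
  let φ : ℝ → ℝ := fun x => lf inv x * (1 / (1 - x) - mu / (1 - x) ^ (e + 1))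
  have hb1 : ∑ c, rho c * ((1 - n c) ^ e - mu) = lam * ∑ c ∈ T, w c * φ (n c) := by
    rw [hsumT, Finset.mul_sum]
    refine Finset.sum_congr rfl fun c hc => ?_
    have hyc := hy c hc
    simp only [φ]
    rw [pow_succ]
    field_simp
  set U' : Finset ι := U.filter (fun c => n c ≤ nuh) with hU'
  have hT' : T = U'.filter (fun c => c ∉ Nb ∧ c ∉ S) := by
    rw [hT, hU', Finset.filter_filter]
    refine Finset.filter_congr fun c _ => ?_
    tauto
  -- lower bound over U'
  have hb2 : (1 - mu) * ∑ c ∈ U, w c - B * sg ≤ ∑ c ∈ U', w c * φ (n c) := by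
    calc (1 - mu) * ∑ c ∈ U, w c - B * sg ≤ (1 - mu) * ∑ c ∈ U, w c - B * ∑ c ∈ U, w c * n c := by
          nlinarith
      _ = ∑ c ∈ U, w c * ((1 - mu) - B * n c) := by
          rw [Finset.mul_sum, Finset.mul_sum, ← Finset.sum_sub_distrib]
          refine Finset.sum_congr rfl fun c _ => ?_
          ring
      _ ≤ ∑ c ∈ U, if n c ≤ nuh then w c * φ (n c) else 0 := by
          refine Finset.sum_le_sum fun c hc => ?_
          split_ifs with h
          · exact mul_le_mul_of_nonneg_left (M1 (n c) (hn0 c hc) h) (hw c hc)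
          · push Not at h
            refine mul_nonpos_of_nonneg_of_nonpos (hw c hc) ?_
            have : B * nuh ≤ B * n c := mul_le_mul_of_nonneg_left h.le hB.le
            linarith
      _ = ∑ c ∈ U', w c * φ (n c) := by rw [hU', Finset.sum_filter]
  -- the removed part
  have hb3 : ∑ c ∈ U', w c * φ (n c) - ∑ c ∈ T, w c * φ (n c) ≤
      (1 - mu) * sg + (1 - mu) / th * PS := by
    have h1 : ∑ c ∈ U', w c * φ (n c) = ∑ c ∈ T, w c * φ (n c) +
        ∑ c ∈ U'.filter (fun c => ¬ (c ∉ Nb ∧ c ∉ S)), w c * φ (n c) := by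
      rw [hT', Finset.sum_filter_add_sum_filter_not]
    rw [h1, add_sub_cancel_left]
    -- pointwise
    have h2 : ∀ c ∈ U'.filter (fun c => ¬ (c ∉ Nb ∧ c ∉ S)), w c * φ (n c) ≤
        (if c ∈ Nb then (1 - mu) * w c else 0) + (if c ∈ S then (1 - mu) / th *
          (w c * (lf inv (n c) ^ 2 * (1 + c0 * n c) ^ 2 / (1 - n c))) else 0) := by
      intro c hc
      obtain ⟨hc1, hc2⟩ := Finset.mem_filter.mp hc
      rw [hU'] at hc1
      obtain ⟨hcU, hcn⟩ := Finset.mem_filter.mp hc1
      have hwc := hw c hcU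
      have hyc : 0 < 1 - n c := by linarith
      have hx0 := hn0 c hcU
      by_cases hNbc : c ∈ Nb
      · rw [if_pos hNbc]
        have h3 : w c * φ (n c) ≤ (1 - mu) * w c := by
          rw [mul_comm (1 - mu)]
          exact mul_le_mul_of_nonneg_left (M1' (n c) hx0 hcn) hwc
        have h4 : (0 : ℝ) ≤ if c ∈ S then (1 - mu) / th *
          (w c * (lf inv (n c) ^ 2 * (1 + c0 * n c) ^ 2 / (1 - n c))) else 0 := by
          split_ifs
          · exact mul_nonneg (div_nonneg hmu.le hth0.le) (hpt c hcU)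
          · exact le_rfl
        linarith
      · have hSc : c ∈ S := by
          by_contra h; exact hc2 ⟨hNbc, h⟩
        rw [if_neg hNbc, if_pos hSc, zero_add]
        have h3 := M3 (n c) hx0 hcn
        have h4 : th * φ (n c) ≤ (1 - mu) * (lf inv (n c) ^ 2 * (1 + c0 * n c) ^ 2 / (1 - n c)) := by
          have hl0 := lf_nonneg inv (n c)
          have h5 : th * φ (n c) = lf inv (n c) / (1 - n c) * (th * (1 - mu / (1 - n c) ^ e)) := by
            simp only [φ]
            rw [pow_succ]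
            field_simp
          have h6 : lf inv (n c) / (1 - n c) * (th * (1 - mu / (1 - n c) ^ e)) ≤
              lf inv (n c) / (1 - n c) * ((1 - mu) * lf inv (n c)) :=
            mul_le_mul_of_nonneg_left h3 (div_nonneg hl0 hyc.le)
          have h7 : (1 : ℝ) ≤ (1 + c0 * n c) ^ 2 := by
            have : (0 : ℝ) ≤ c0 * n c := mul_nonneg hc0.le hx0
            nlinarith
          calc th * φ (n c) ≤ lf inv (n c) / (1 - n c) * ((1 - mu) * lf inv (n c)) := by
                rw [h5]; exact h6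
            _ = (1 - mu) * (lf inv (n c) ^ 2 * 1 / (1 - n c)) := by ring
            _ ≤ _ := by
                refine mul_le_mul_of_nonneg_left ?_ hmu.le
                exact div_le_div_of_nonneg_right (mul_le_mul_of_nonneg_left h7 (sq_nonneg _)) hyc.le
        have h8 : φ (n c) ≤ (1 - mu) / th * (lf inv (n c) ^ 2 * (1 + c0 * n c) ^ 2 / (1 - n c)) := by
          rw [div_mul_eq_mul_div, le_div_iff₀ hth0, mul_comm (φ (n c))]
          exact h4
        calc w c * φ (n c) ≤ w c * ((1 - mu) / th *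
            (lf inv (n c) ^ 2 * (1 + c0 * n c) ^ 2 / (1 - n c))) :=
              mul_le_mul_of_nonneg_left h8 hwc
          _ = _ := by ring
    refine (Finset.sum_le_sum h2).trans ?_
    rw [Finset.sum_add_distrib]
    refine add_le_add ?_ ?_
    · calc _ ≤ ∑ c ∈ U, if c ∈ Nb then (1 - mu) * w c else 0 := by
            refine Finset.sum_le_sum_of_subset_of_nonneg
              ((Finset.filter_subset _ _).trans (Finset.filter_subset _ _)) fun c hc _ => ?_
            split_ifs
            · exact mul_nonneg hmu.le (hw c hc)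
            · exact le_rfl
        _ = (1 - mu) * ∑ c ∈ U ∩ Nb, w c := by
            rw [← Finset.sum_filter, Finset.mul_sum, Finset.filter_mem_eq_inter]
        _ ≤ (1 - mu) * sg := mul_le_mul_of_nonneg_left hNb hmu.le
    · calc _ ≤ ∑ c ∈ U, if c ∈ S then (1 - mu) / th *
            (w c * (lf inv (n c) ^ 2 * (1 + c0 * n c) ^ 2 / (1 - n c))) else 0 := by
            refine Finset.sum_le_sum_of_subset_of_nonneg
              ((Finset.filter_subset _ _).trans (Finset.filter_subset _ _)) fun c hc _ => ?_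
            split_ifs
            · exact mul_nonneg (div_nonneg hmu.le hth0.le) (hpt c hc)
            · exact le_rfl
        _ = (1 - mu) / th * PS := by
            rw [← Finset.sum_filter, Finset.filter_mem_eq_inter, hPS]
            unfold PF
            rw [Finset.mul_sum]
  -- (c): 2 lam P <= th (1 + M)
  have hc : 2 * lam * P ≤ th * (1 + M) := by
    have h1 : ∀ c ∈ U, 2 * (w c * (lf inv (n c) ^ 2 * (1 + c0 * n c) ^ 2 / (1 - n c))) ≤
        (2 - th) * w c + ((if c ∈ Nb then th * w c else 0) + (if c ∈ S then th * w c else 0)) +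
          (if c ∉ Nb ∧ c ∉ S ∧ n c ≤ nuh then th * (w c * lf inv (n c) / (1 - n c) ^ (e + 1))
            else 0) := by
      intro c hcU
      have hwc := hw c hcU
      have hx0 := hn0 c hcU
      have hx1 := hn1 c hcU
      have hl0 := lf_nonneg inv (n c)
      -- the bound by 2
      have hle2 : 2 * (lf inv (n c) ^ 2 * (1 + c0 * n c) ^ 2 / (1 - n c)) ≤ 2 := by
        rcases hx1.eq_or_lt with h | h
        · rw [h]; norm_num
        · have hyc : 0 < 1 - n c := by linarith
          have h2 : lf inv (n c) * (1 + c0 * n c) ≤ 1 - n c := by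
            unfold lf
            rcases le_total 0 (1 - inv * n c) with h3 | h3
            · rw [max_eq_right h3]
              have h4 : 1 - inv * n c ≤ 1 - (1 + c0) * n c := by nlinarith
              have h5 : (0 : ℝ) ≤ c0 * n c := mul_nonneg hc0.le hx0
              calc (1 - inv * n c) * (1 + c0 * n c) ≤ (1 - (1 + c0) * n c) * (1 + c0 * n c) :=
                    mul_le_mul_of_nonneg_right h4 (by linarith)
                _ ≤ 1 - n c := by nlinarith [mul_nonneg h5 hx0, mul_nonneg h5 h5]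
            · rw [max_eq_left h3, zero_mul]; exact hyc.le
          have h6 : 0 ≤ lf inv (n c) * (1 + c0 * n c) :=
            mul_nonneg hl0 (by nlinarith [mul_nonneg hc0.le hx0])
          have h7 : (lf inv (n c) * (1 + c0 * n c)) ^ 2 ≤ (1 - n c) * 1 := by nlinarith
          rw [← mul_pow]
          rw [mul_div_assoc', div_le_iff₀ hyc]
          nlinarith
      have hthw : 0 ≤ th * w c := mul_nonneg hth0.le hwc
      by_cases hN : c ∈ Nb ∨ c ∈ S
      · have h3 : th * w c ≤ (if c ∈ Nb then th * w c else 0) + (if c ∈ S then th * w c else 0) := by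
          rcases hN with h | h
          · rw [if_pos h]; split_ifs <;> linarith
          · rw [if_pos h]; split_ifs <;> linarith
        have h4 : (0 : ℝ) ≤ if c ∉ Nb ∧ c ∉ S ∧ n c ≤ nuh then
            th * (w c * lf inv (n c) / (1 - n c) ^ (e + 1)) else 0 := by
          rw [if_neg (by tauto)]
        have h5 : 2 * (w c * (lf inv (n c) ^ 2 * (1 + c0 * n c) ^ 2 / (1 - n c))) ≤ w c * 2 := by
          calc _ = w c * (2 * (lf inv (n c) ^ 2 * (1 + c0 * n c) ^ 2 / (1 - n c))) := by ring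
            _ ≤ _ := mul_le_mul_of_nonneg_left hle2 hwc
        linarith
      · push Not at hN
        rw [if_neg hN.1, if_neg hN.2, add_zero, add_zero]
        by_cases h : n c ≤ nuh
        · rw [if_pos ⟨hN.1, hN.2, h⟩]
          have h3 := A0 (n c) hx0 h
          calc _ = w c * (2 * lf inv (n c) ^ 2 * (1 + c0 * n c) ^ 2 / (1 - n c)) := by ring
            _ ≤ w c * ((2 - th) + th * lf inv (n c) / (1 - n c) ^ (e + 1)) :=
              mul_le_mul_of_nonneg_left h3 hwc
            _ = _ := by ring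
        · rw [if_neg (by tauto), add_zero]
          push Not at h
          by_cases h' : n c * inv ≤ 1
          · have h3 := A0' (n c) h.le h'
            calc _ = w c * (2 * lf inv (n c) ^ 2 * (1 + c0 * n c) ^ 2 / (1 - n c)) := by ring
              _ ≤ w c * (2 - th) := mul_le_mul_of_nonneg_left h3 hwc
              _ = _ := by ring
          · push Not at h'
            have h3 : lf inv (n c) = 0 := by
              unfold lf
              exact max_eq_left (by nlinarith)
            rw [h3]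
            have : 0 ≤ (2 - th) * w c := mul_nonneg (by linarith) hwc
            simpa using this
    have h2 : 2 * P ≤ (2 - th) * ∑ c ∈ U, w c + (th * sg + th * sg) +
        ∑ c ∈ T, th * (w c * lf inv (n c) / (1 - n c) ^ (e + 1)) := by
      have h3 : 2 * P = ∑ c ∈ U, 2 * (w c * (lf inv (n c) ^ 2 * (1 + c0 * n c) ^ 2 / (1 - n c))) := by
        rw [hP]; unfold PF; rw [Finset.mul_sum]
      rw [h3]
      refine (Finset.sum_le_sum h1).trans ?_
      rw [Finset.sum_add_distrib, Finset.sum_add_distrib, Finset.sum_add_distrib, ← Finset.mul_sum,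
        ← Finset.sum_filter, ← Finset.sum_filter, ← Finset.sum_filter, ← Finset.mul_sum,
        ← Finset.mul_sum, Finset.filter_mem_eq_inter, Finset.filter_mem_eq_inter]
      have h4 := mul_le_mul_of_nonneg_left hNb hth0.le
      have h5 := mul_le_mul_of_nonneg_left hS hth0.le
      linarith
    have h3 : lam * ∑ c ∈ T, th * (w c * lf inv (n c) / (1 - n c) ^ (e + 1)) = th * M := by
      rw [hMsum, Finset.mul_sum, Finset.mul_sum]
      refine Finset.sum_congr rfl fun c _ => ?_
      ring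
    have h4 := mul_le_mul_of_nonneg_left h2 hlam
    calc 2 * lam * P = lam * (2 * P) := by ring
      _ ≤ lam * ((2 - th) * ∑ c ∈ U, w c + (th * sg + th * sg) +
          ∑ c ∈ T, th * (w c * lf inv (n c) / (1 - n c) ^ (e + 1))) := h4
      _ = lam * ((2 - th) * ∑ c ∈ U, w c + 2 * th * sg) +
          lam * ∑ c ∈ T, th * (w c * lf inv (n c) / (1 - n c) ^ (e + 1)) := by ring
      _ ≤ th + th * M := by rw [h3]; linarith
      _ = th * (1 + M) := by ring
  -- the loss
  have hd' : lam * ((1 - mu) / th * PS) ≤ (1 - mu) * (z / 2) * (1 + M) := by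
    rw [← hzP]
    have h1 : (1 - mu) * z / (2 * th) * (2 * lam * P) ≤ (1 - mu) * z / (2 * th) * (th * (1 + M)) :=
      mul_le_mul_of_nonneg_left hc (by positivity)
    calc lam * ((1 - mu) / th * (z * P)) = (1 - mu) * z / (2 * th) * (2 * lam * P) := by
          field_simp
      _ ≤ (1 - mu) * z / (2 * th) * (th * (1 + M)) := h1
      _ = _ := by field_simp
  -- main term
  have hmain : mu - (1 - mu) * (z / 2) * (1 + M) ≤ ∑ c, rho c * ((1 - n c) ^ e - mu) := by
    rw [hb1]
    have h1 : (1 - mu) * (∑ c ∈ U, w c - sg) - B * sg - (1 - mu) / th * PS ≤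
        ∑ c ∈ T, w c * φ (n c) := by
      have : (1 - mu) * (∑ c ∈ U, w c - sg) = (1 - mu) * ∑ c ∈ U, w c - (1 - mu) * sg := by ring
      linarith
    have h2 := mul_le_mul_of_nonneg_left h1 hlam
    have h3 : lam * ((1 - mu) * (∑ c ∈ U, w c - sg) - B * sg - (1 - mu) / th * PS) =
      lam * ((1 - mu) * (∑ c ∈ U, w c - sg) - B * sg) - lam * ((1 - mu) / th * PS) := by ring
    linarith
  -- assembly
  have hexp : ∑ c, rho c * ((1 - n c) ^ e - (max 0 (1 - n c / (1 - s))) ^ e - s * (1 - mu) * c0) =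
      ∑ c, rho c * ((1 - n c) ^ e - mu) + mu * M -
        ∑ c, rho c * (max 0 (1 - n c / (1 - s))) ^ e - s * (1 - mu) * c0 * M := by
    rw [hM, Finset.mul_sum, Finset.mul_sum, ← Finset.sum_add_distrib, ← Finset.sum_sub_distrib,
      ← Finset.sum_sub_distrib]
    refine Finset.sum_congr rfl fun c _ => ?_
    ring
  rw [hexp] at ha
  -- (1 + M) (1 - (1 - mu)(1 + z/2)(1 + c0 s)) ≤ ∑ rho pi_s
  have hfin : 0 ≤ (1 - mu) * (z / 2) * (c0 * s) * (1 + M) := by positivity
  nlinarith
end Pool.Agent.T6A
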