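import Pool.Agent.T6A.Cert3S1Q
import Pool.Agent.T6A.MuB

/-!
# CERT v3, range (R2): the row M3 over the table (helper89)

`f = lf N`, `om = 1 - mu`, `Al x ≥ min (5 / 4) (1 + c x / (1 - x))`, `d = e + 1`. After division by `f / (1 - x)`
the inequality M3 is `th ((1 - x)^e - mu) ≤ om (1 - N x) Al² (1 - x)^e`: the kernel checks it for
`x ≤ 1 / (1 + 4 c)` and for `x ≥ 1 / (1 + 4 c)` with `Bern.chk`. It is affine in `mu`: `m3_itp`.
-/

set_option autoImplicit false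

namespace Pool.Agent.T6A.C3M3

open Pool.Agent.T6A.Bern Pool.Agent.T6A.Line3

/-- the polynomial of M3 for `x ≤ 1 / (1 + 4 c)` -/
def eP1 (e : ℕ) (c N mu th : Ex) : Ex :=
  (1 - mu) * (1 - N * Ex.x 0) * ((1 - Ex.x 0) + c * Ex.x 0) ^ 2 * (1 - Ex.x 0) ^ e
    - th * ((1 - Ex.x 0) ^ e - mu) * (1 - Ex.x 0) ^ 2

/-- the polynomial of M3 for `1 / (1 + 4 c) ≤ x` -/
def eP2 (e : ℕ) (N mu th : Ex) : Ex :=
  Ex.nat 25 * ((1 - mu) * (1 - N * Ex.x 0) * (1 - Ex.x 0) ^ e)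
    - Ex.nat 16 * (th * ((1 - Ex.x 0) ^ e - mu))

/-- An affine function which is nonnegative at both ends. -/
theorem affine_itp {A B m0 m1 m : ℝ} (h0 : 0 ≤ A + B * m0) (h1 : 0 ≤ A + B * m1) (h2 : m0 ≤ m)
    (h3 : m ≤ m1) : 0 ≤ A + B * m := by
  rcases le_total 0 B with hB | hB
  · have := mul_le_mul_of_nonneg_left h2 hB
    linarith
  · have := mul_le_mul_of_nonpos_left h3 hB
    linarith

/-- The two polynomial inequalities give M3 at `x`. -/
theorem m3_at {e : ℕ} {c N mu th x a : ℝ} (hc : 0 ≤ c) (hmu1 : mu ≤ 1)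
    (hx0 : 0 ≤ x) (hx : x < 1) (ha : min (5 / 4) (1 + c * (x / (1 - x))) ≤ a)
    (h1 : x * (1 + 4 * c) ≤ 1 → 0 ≤ (1 - mu) * (1 - N * x) * ((1 - x) + c * x) ^ 2 * (1 - x) ^ e
      - th * ((1 - x) ^ e - mu) * (1 - x) ^ 2)
    (h2 : 1 ≤ x * (1 + 4 * c) → 0 ≤ 25 * ((1 - mu) * (1 - N * x) * (1 - x) ^ e)
      - 16 * (th * ((1 - x) ^ e - mu))) :
    th * (lf N x * (1 / (1 - x) - (1 - (1 - mu)) / (1 - x) ^ (e + 1))) ≤
      (1 - mu) * (lf N x ^ 2 * a ^ 2 / (1 - x)) := by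
  have hy : 0 < 1 - x := by linarith
  have hye : 0 < (1 - x) ^ e := pow_pos hy e
  have hf0 : 0 ≤ lf N x := le_max_left _ _
  have hf : 1 - N * x ≤ lf N x := le_max_right _ _
  have hom : 0 ≤ 1 - mu := by linarith
  -- the reduced inequality
  have key : th * ((1 - x) ^ e - mu) ≤ (1 - mu) * lf N x * a ^ 2 * (1 - x) ^ e := by
    rcases le_total (x * (1 + 4 * c)) 1 with h | h
    · have h3 := h1 h
      have h4 : c * (x / (1 - x)) ≤ 1 / 4 := by
        rw [← mul_div_assoc, div_le_iff₀ hy]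
        linarith
      have h5 : 1 + c * (x / (1 - x)) ≤ a := by
        rw [min_eq_right (by linarith)] at ha
        exact ha
      have h6 : (1 - x) + c * x ≤ a * (1 - x) := by
        have h7 := mul_le_mul_of_nonneg_right h5 hy.le
        have h8 : (1 + c * (x / (1 - x))) * (1 - x) = (1 - x) + c * x := by
          field_simp
        linarith
      have h7 : 0 ≤ (1 - x) + c * x := by positivity
      have h8 : ((1 - x) + c * x) ^ 2 ≤ (a * (1 - x)) ^ 2 := pow_le_pow_left₀ h7 h6 2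
      have h9 : (1 - mu) * (1 - N * x) * ((1 - x) + c * x) ^ 2 * (1 - x) ^ e ≤
          (1 - mu) * lf N x * (a * (1 - x)) ^ 2 * (1 - x) ^ e := by
        refine mul_le_mul_of_nonneg_right ?_ hye.le
        calc (1 - mu) * (1 - N * x) * ((1 - x) + c * x) ^ 2
            ≤ (1 - mu) * lf N x * ((1 - x) + c * x) ^ 2 :=
              mul_le_mul_of_nonneg_right (mul_le_mul_of_nonneg_left hf hom) (sq_nonneg _)
          _ ≤ (1 - mu) * lf N x * (a * (1 - x)) ^ 2 :=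
              mul_le_mul_of_nonneg_left h8 (mul_nonneg hom hf0)
      have h10 : th * ((1 - x) ^ e - mu) * (1 - x) ^ 2 ≤
          (1 - mu) * lf N x * a ^ 2 * (1 - x) ^ e * (1 - x) ^ 2 := by
        have : (1 - mu) * lf N x * (a * (1 - x)) ^ 2 * (1 - x) ^ e =
          (1 - mu) * lf N x * a ^ 2 * (1 - x) ^ e * (1 - x) ^ 2 := by ring
        linarith
      exact le_of_mul_le_mul_right h10 (by positivity)
    · have h3 := h2 h
      have h4 : 1 / 4 ≤ c * (x / (1 - x)) := by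
        rw [← mul_div_assoc, le_div_iff₀ hy]
        linarith
      have h5 : 5 / 4 ≤ a := by
        rw [min_eq_left (by linarith)] at ha
        exact ha
      have h6 : (25 / 16 : ℝ) ≤ a ^ 2 := by nlinarith
      have h7 : (1 - mu) * (1 - N * x) * (1 - x) ^ e ≤ (1 - mu) * lf N x * (1 - x) ^ e :=
        mul_le_mul_of_nonneg_right (mul_le_mul_of_nonneg_left hf hom) hye.le
      have h8 : 0 ≤ (1 - mu) * lf N x * (1 - x) ^ e := by positivity
      have h9 := mul_le_mul_of_nonneg_left h6 h8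
      nlinarith
  -- multiply by `f / (1 - x)^(e+1)`
  have e1 : th * (lf N x * (1 / (1 - x) - (1 - (1 - mu)) / (1 - x) ^ (e + 1))) =
      th * ((1 - x) ^ e - mu) * (lf N x / (1 - x) ^ (e + 1)) := by
    rw [pow_succ]
    field_simp
    ring
  have e2 : (1 - mu) * (lf N x ^ 2 * a ^ 2 / (1 - x)) =
      (1 - mu) * lf N x * a ^ 2 * (1 - x) ^ e * (lf N x / (1 - x) ^ (e + 1)) := by
    rw [pow_succ]
    field_simp
    ring
  rw [e1, e2]
  exact mul_le_mul_of_nonneg_right key (div_nonneg hf0 (pow_nonneg hy.le _))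

/-- The end of the first range. -/
def xc (c : ℚ) : ℚ := 1 / (1 + 4 * c)

/-- The check for `x ∈ [0, R]`. -/
def chkM3 (fuel : ℕ) (c : ℚ) (e : ℕ) (N mu th R : ℚ) : Bool :=
  chk fuel (eP1 e (cq c) (cq N) (cq mu) (cq th)) [⟨0, (min R (xc c)).num, (min R (xc c)).den⟩] &&
  (decide (R ≤ xc c) || chk fuel (eP2 e (cq N) (cq mu) (cq th))
    [⟨(xc c).num * R.den, R.num * (xc c).den, (xc c).den * R.den⟩])

theorem chkM3_sound {fuel : ℕ} {c : ℚ} {e : ℕ} {N mu th R : ℚ} (hc : 0 < c)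
    (h : chkM3 fuel c e N mu th R = true) {x : ℝ} (hx0 : 0 ≤ x) (hx : x ≤ R) :
    (x * (1 + 4 * c) ≤ 1 → 0 ≤ (1 - mu) * (1 - N * x) * ((1 - x) + c * x) ^ 2 * (1 - x) ^ e
      - th * ((1 - x) ^ e - mu) * (1 - x) ^ 2) ∧
    (1 ≤ x * (1 + 4 * c) → 0 ≤ 25 * ((1 - mu) * (1 - N * x) * (1 - x) ^ e)
      - 16 * (th * ((1 - x) ^ e - mu))) := by
  simp only [chkM3, Bool.and_eq_true, Bool.or_eq_true, decide_eq_true_eq] at h
  obtain ⟨h1, h2⟩ := h
  have hc' : (0 : ℝ) < c := by exact_mod_cast hc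
  have hx1 : ((xc c : ℚ) : ℝ) = 1 / (1 + 4 * (c : ℝ)) := by
    unfold xc
    push_cast
    rfl
  have hpos : (0 : ℝ) < 1 + 4 * c := by linarith
  constructor
  · intro h3
    have h4 : x ≤ ((min R (xc c) : ℚ) : ℝ) := by
      rw [Rat.cast_min, hx1]
      refine le_min hx ?_
      rw [le_div_iff₀ hpos]
      exact h3
    rw [Rat.cast_def] at h4
    have h5 := sound1 h1 (a := x) (by simpa using hx0) h4
    simpa [eP1] using h5
  · intro h3
    have h4 : ((xc c : ℚ) : ℝ) ≤ x := by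
      rw [hx1, div_le_iff₀ hpos]
      exact h3
    rcases h2 with h2 | h2
    · -- then `x = xc c`
      have h5 : x * (1 + 4 * c) ≤ 1 := by
        have h6 : (R : ℝ) ≤ ((xc c : ℚ) : ℝ) := by exact_mod_cast h2
        have h7 : x ≤ 1 / (1 + 4 * (c : ℝ)) := hx1 ▸ hx.trans h6
        rwa [le_div_iff₀ hpos] at h7
      have h6 : x ≤ ((min R (xc c) : ℚ) : ℝ) := by
        rw [Rat.cast_min, hx1]
        refine le_min hx ?_
        rw [le_div_iff₀ hpos]
        exact h5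
      rw [Rat.cast_def] at h6
      have h7 := sound1 h1 (a := x) (by simpa using hx0) h6
      have h8 : 0 ≤ (1 - (mu : ℝ)) * (1 - N * x) * ((1 - x) + c * x) ^ 2 * (1 - x) ^ e
          - th * ((1 - x) ^ e - mu) * (1 - x) ^ 2 := by simpa [eP1] using h7
      have h9 : x * (1 + 4 * c) = 1 := le_antisymm h5 h3
      have h10 : (1 - x) + c * x = 5 / 4 * (1 - x) := by linarith
      rw [h10] at h8
      have h11 : 0 < 1 - x := by
        by_contra hcon
        rw [not_lt] at hcon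
        nlinarith
      have h12 : 0 ≤ (25 * ((1 - (mu : ℝ)) * (1 - N * x) * (1 - x) ^ e)
          - 16 * (th * ((1 - x) ^ e - mu))) * (1 - x) ^ 2 := by nlinarith
      exact nonneg_of_mul_nonneg_left h12 (by positivity)
    · have hd1 : (0 : ℝ) < ((xc c).den : ℝ) := by exact_mod_cast (xc c).den_pos
      have hd2 : (0 : ℝ) < (R.den : ℝ) := by exact_mod_cast R.den_pos
      have h5 := sound1 h2 (a := x) (by
        push_cast
        rw [Rat.cast_def] at h4
        rw [mul_div_mul_right _ _ hd2.ne']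
        exact h4) (by
        push_cast
        rw [Rat.cast_def] at hx
        rw [mul_comm ((xc c).den : ℝ), mul_div_mul_right _ _ hd1.ne']
        exact hx)
      simpa [eP2] using h5

/-- **M3 for a fixed `mu`.** The range may end at `R` if `nuh ≤ R` or if `f` vanishes from `R` on. -/
theorem m3_of {fuel : ℕ} {c : ℚ} {e : ℕ} {N mu th R : ℚ} (hc : 0 < c) (hmu1 : mu ≤ 1)
    (h : chkM3 fuel c e N mu th R = true) {nuh : ℝ} (hn1 : nuh < 1)
    (hR : nuh ≤ R ∨ 0 ≤ N ∧ 1 ≤ N * R) {Al : ℝ → ℝ}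
    (hAl : ∀ x, 0 ≤ x → x < 1 → min (5 / 4) (1 + (c : ℝ) * (x / (1 - x))) ≤ Al x) :
    ∀ x, 0 ≤ x → x ≤ nuh →
      th * (lf N x * (1 / (1 - x) - (1 - (1 - (mu : ℝ))) / (1 - x) ^ (e + 1))) ≤
        (1 - mu) * (lf N x ^ 2 * Al x ^ 2 / (1 - x)) := by
  intro x hx0 hx1
  by_cases hxR : x ≤ R
  · have h1 := chkM3_sound hc h hx0 hxR
    exact m3_at (by exact_mod_cast hc.le) (by exact_mod_cast hmu1) hx0 (by linarith)
      (hAl x hx0 (by linarith)) h1.1 h1.2
  · rw [not_le] at hxR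
    rcases hR with hR | ⟨hN, hR⟩
    · linarith
    · have hN' : (0 : ℝ) ≤ N := by exact_mod_cast hN
      have hR' : (1 : ℝ) ≤ N * R := by exact_mod_cast hR
      have h2 : lf (N : ℝ) x = 0 := by
        have h3 := mul_le_mul_of_nonneg_left hxR.le hN'
        exact max_eq_left (by linarith)
      rw [h2]
      simp

/-- **M3 for all `mu` in an interval** (the inequality is affine in `mu`). -/
theorem m3_itp {fuel : ℕ} {c : ℚ} {e : ℕ} {N mu0 mu1 th R : ℚ} (hc : 0 < c) (hmu1 : mu1 ≤ 1)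
    (h0 : chkM3 fuel c e N mu0 th R = true) (h1 : chkM3 fuel c e N mu1 th R = true)
    {nuh mu : ℝ} (hn1 : nuh < 1) (hm0 : mu0 ≤ mu) (hm1 : mu ≤ mu1)
    (hR : nuh ≤ R ∨ 0 ≤ N ∧ 1 ≤ N * R) {Al : ℝ → ℝ}
    (hAl : ∀ x, 0 ≤ x → x < 1 → min (5 / 4) (1 + (c : ℝ) * (x / (1 - x))) ≤ Al x) :
    ∀ x, 0 ≤ x → x ≤ nuh →
      th * (lf N x * (1 / (1 - x) - (1 - (1 - mu)) / (1 - x) ^ (e + 1))) ≤
        (1 - mu) * (lf N x ^ 2 * Al x ^ 2 / (1 - x)) := by
  intro x hx0 hx1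
  have hmu1' : (mu1 : ℝ) ≤ 1 := by exact_mod_cast hmu1
  by_cases hxR : x ≤ R
  · have h2 := chkM3_sound hc h0 hx0 hxR
    have h3 := chkM3_sound hc h1 hx0 hxR
    refine m3_at (by exact_mod_cast hc.le) (by linarith) hx0 (by linarith)
      (hAl x hx0 (by linarith)) (fun h => ?_) (fun h => ?_)
    · have h4 := h2.1 h
      have h5 := h3.1 h
      have h6 := affine_itp
        (A := (1 - N * x) * ((1 - x) + c * x) ^ 2 * (1 - x) ^ e - th * (1 - x) ^ e * (1 - x) ^ 2)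
        (B := th * (1 - x) ^ 2 - (1 - N * x) * ((1 - x) + c * x) ^ 2 * (1 - x) ^ e)
        (m0 := mu0) (m1 := mu1) (m := mu) (by linarith) (by linarith) hm0 hm1
      linarith
    · have h4 := h2.2 h
      have h5 := h3.2 h
      have h6 := affine_itp
        (A := 25 * ((1 - N * x) * (1 - x) ^ e) - 16 * (th * (1 - x) ^ e))
        (B := 16 * th - 25 * ((1 - N * x) * (1 - x) ^ e))
        (m0 := mu0) (m1 := mu1) (m := mu) (by linarith) (by linarith) hm0 hm1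
      linarith
  · rw [not_le] at hxR
    rcases hR with hR | ⟨hN, hR⟩
    · linarith
    · have hN' : (0 : ℝ) ≤ N := by exact_mod_cast hN
      have hR' : (1 : ℝ) ≤ N * R := by exact_mod_cast hR
      have h2 : lf (N : ℝ) x = 0 := by
        have h3 := mul_le_mul_of_nonneg_left hxR.le hN'
        exact max_eq_left (by linarith)
      rw [h2]
      simp

/-- The check for one row of the table; `nuh = (1 - mu) / B`. -/
def rowM3Q (fuel : ℕ) (c : ℚ) (e : ℕ) (N : ℚ) (r : Row) : Bool :=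
  decide (0 < c) && (decide (r.mu ≤ 1) && (decide (C3S1.nuq r < 1) &&
    chkM3 fuel c e N r.mu r.th (C3S1.nuq r)))

/-- **The row M3 of the table.** -/
theorem rowM3Q_sound {fuel : ℕ} {c : ℚ} {e : ℕ} {N : ℚ} {r : Row}
    (h : rowM3Q fuel c e N r = true) {Al : ℝ → ℝ}
    (hAl : ∀ x, 0 ≤ x → x < 1 → min (5 / 4) (1 + (c : ℝ) * (x / (1 - x))) ≤ Al x) :
    ∀ x, 0 ≤ x → x ≤ (1 - (r.mu : ℝ)) / r.B →
      r.th * (lf N x * (1 / (1 - x) - (1 - (1 - (r.mu : ℝ))) / (1 - x) ^ (e + 1))) ≤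
        (1 - r.mu) * (lf N x ^ 2 * Al x ^ 2 / (1 - x)) := by
  simp only [rowM3Q, Bool.and_eq_true, decide_eq_true_eq] at h
  obtain ⟨hc, hmu, hn, hchk⟩ := h
  have hn' : ((C3S1.nuq r : ℚ) : ℝ) < 1 := by exact_mod_cast hn
  rw [← C3S1.nuq_cast]
  exact m3_of hc hmu hchk hn' (Or.inl le_rfl) hAl

end Pool.Agent.T6A.C3M3
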