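import Pool.Agent.T6A.Expect4

/-!
# The bracket from the bound `MUB` (MP_c6effb_co)

`s u c` = the rate of `u` on the points with `n_c ≤ nuh u`. `brk_le`: the bound of the bracket in
product form from the bound `MUB` for all `s ∈ [0, 1)`.
-/

set_option autoImplicit false
set_option linter.unusedSectionVars false

open Finset

namespace Pool.Agent.T6A

variable {V ι : Type*} [Fintype V] [DecidableEq V] [Fintype ι] [DecidableEq ι]
variable {F : SimpleGraph ι} [DecidableRel F.Adj] {μ : ι → ℝ}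
variable {G : SimpleGraph V} [DecidableRel G.Adj]

/-- the part of the rate with `n_c ≤ nuh` -/
noncomputable def cut (F : SimpleGraph ι) [DecidableRel F.Adj] (μ : ι → ℝ) (r : V → ι → ℝ)
    (nuh : V → ℝ) (u : V) (c : ι) : ℝ := if nb F μ c ≤ nuh u then r u c else 0

theorem cut_nonneg {r : V → ι → ℝ} (hr : ∀ u c, 0 ≤ r u c) (nuh : V → ℝ) (u : V) (c : ι) :
    0 ≤ cut F μ r nuh u c := by
  unfold cut
  split_ifs
  · exact hr u c
  · exact le_rfl

theorem cut_le {r : V → ι → ℝ} (hr : ∀ u c, 0 ≤ r u c) (nuh : V → ℝ) (u : V) (c : ι) :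
    cut F μ r nuh u c ≤ r u c := by
  unfold cut
  split_ifs
  · exact le_rfl
  · exact hr u c

theorem kz_zero (n : ℝ) (E : ℕ) : kz 0 n E = 0 := by
  unfold kz
  rw [if_neg (lt_irrefl _)]

/-- The bracket in product form. -/
theorem brk_le (h0 : ∀ x, 0 ≤ μ x) (h1 : ∑ x, μ x = 1) (hF : F.CliqueFree 3) {s : V → ι → ℝ}
    (hs : ∀ u c, 0 ≤ s u c) {a : ι} {u : V} {om z c0 : ℝ} (hc0 : 0 ≤ c0) (hz : 0 ≤ z)
    (hom : 0 ≤ om) (hom1 : 1 ≤ om * (1 + c0 / 2)) {b b' : ι} (hbb : F.Adj b b')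
    (hmub : ∀ t : ℝ, 0 ≤ t → t < 1 →
      1 + ∑ c, sab F s u a b c * (1 - kz (1 - t) (nb F μ c) (#(nbh G u) - 1))
        ≤ om * (1 + z / 2) * (1 + c0 * t) * (1 + ∑ c, sab F s u a b c)) :
    1 - 1 / (1 + ∑ c, sab F s u a b c) * ∑ c, sab F s u a b c *
        kz (1 - nb F μ b - nb F μ b') (nb F μ c) (#(nbh G u) - 1)
      ≤ (1 + c0 * nb F μ b) * (om * (1 + z / 2) * (1 + c0 * nb F μ b')) := by
  have hcod := cod_eq_zero (μ := μ) hF hbb
  have hz0 : 0 ≤ 1 - nb F μ b - nb F μ b' := by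
    have := fr_pair_nonneg (F := F) h0 h1 b b'
    rw [hcod, add_zero] at this
    exact this
  have hnb := nb_nonneg (F := F) h0 b
  have hnb' := nb_nonneg (F := F) h0 b'
  have hS : 0 ≤ ∑ c, sab F s u a b c := sum_nonneg fun c _ => sab_nonneg hs u a b c
  have hoz : 0 ≤ om * (1 + z / 2) := mul_nonneg hom (by linarith)
  have hprod : om * (1 + z / 2) * (1 + c0 * (nb F μ b + nb F μ b'))
      ≤ (1 + c0 * nb F μ b) * (om * (1 + z / 2) * (1 + c0 * nb F μ b')) := by
    have h2 : 1 + c0 * (nb F μ b + nb F μ b') ≤ (1 + c0 * nb F μ b) * (1 + c0 * nb F μ b') := by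
      nlinarith [mul_nonneg (mul_nonneg hc0 hnb) (mul_nonneg hc0 hnb')]
    calc _ ≤ om * (1 + z / 2) * ((1 + c0 * nb F μ b) * (1 + c0 * nb F μ b')) :=
          mul_le_mul_of_nonneg_left h2 hoz
      _ = _ := by ring
  refine le_trans ?_ hprod
  rcases hz0.lt_or_eq with hpos | hzero
  · have hm := hmub (nb F μ b + nb F μ b') (by linarith) (by linarith)
    have e1 : 1 - (nb F μ b + nb F μ b') = 1 - nb F μ b - nb F μ b' := by ring
    rw [e1] at hm
    have e2 : ∑ c, sab F s u a b c * (1 - kz (1 - nb F μ b - nb F μ b') (nb F μ c)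
        (#(nbh G u) - 1)) = ∑ c, sab F s u a b c - ∑ c, sab F s u a b c *
        kz (1 - nb F μ b - nb F μ b') (nb F μ c) (#(nbh G u) - 1) := by
      rw [← sum_sub_distrib]
      exact sum_congr rfl fun c _ => by ring
    rw [e2] at hm
    have hS1 : 0 < 1 + ∑ c, sab F s u a b c := by linarith
    have e3 : 1 - 1 / (1 + ∑ c, sab F s u a b c) * ∑ c, sab F s u a b c *
        kz (1 - nb F μ b - nb F μ b') (nb F μ c) (#(nbh G u) - 1)
        = (1 + (∑ c, sab F s u a b c - ∑ c, sab F s u a b c *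
        kz (1 - nb F μ b - nb F μ b') (nb F μ c) (#(nbh G u) - 1)))
          / (1 + ∑ c, sab F s u a b c) := by
      field_simp
      ring
    rw [e3, div_le_iff₀ hS1]
    exact hm
  · rw [← hzero]
    simp only [kz_zero, mul_zero, sum_const_zero, sub_zero]
    have h3 : nb F μ b + nb F μ b' = 1 := by linarith
    rw [h3, mul_one]
    have h4 : om * (1 + c0 / 2) ≤ om * (1 + c0) := mul_le_mul_of_nonneg_left (by linarith) hom
    have h5 : om * (1 + c0) ≤ om * (1 + z / 2) * (1 + c0) := by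
      refine mul_le_mul_of_nonneg_right ?_ (by linarith)
      have := mul_nonneg hom hz
      linarith
    linarith

end Pool.Agent.T6A
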