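import Pool.Agent.T6A.MuG

/-!
# The bracket with conditions in terms of the mass of the profile (T6-A, MP_c6effb_co, CERT v3)

The same bounds as in `MuG.lean` (`mug_zero`, `mug_diff`), but the conditions may use
`A = ∑ w f(n)` as well as the weight of the list and `∑ w n ≤ σ`: for `lam = θ / A` (law-normalised
rates) the conditions then do not depend on the law.
-/

set_option autoImplicit false
set_option linter.unusedSectionVars false

open Finset

namespace Pool.Agent.T6A

/-- the mass of the profile -/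
noncomputable def SF {ι : Type*} (U : Finset ι) (w n : ι → ℝ) (f : ℝ → ℝ) : ℝ :=
  ∑ c ∈ U, w c * f (n c)

section

variable {ι : Type*} [Fintype ι] [DecidableEq ι] {U Nb S : Finset ι} {w n : ι → ℝ}
  {lam : ℝ} {f : ℝ → ℝ} {nuh : ℝ} {d : ℕ}

/-- **The bound at `s = 0`, in terms of `A = ∑ w f(n)`.** -/
theorem muj_zero {sg mu om B th rho a1 m1 g0 g1 kap : ℝ} {Al : ℝ → ℝ}
    (hw : ∀ c ∈ U, 0 ≤ w c) (hn0 : ∀ c ∈ U, 0 ≤ n c) (hn1 : ∀ c ∈ U, n c ≤ 1)
    (hwn : ∑ c ∈ U, w c * n c ≤ sg) (hNb : ∑ c ∈ U ∩ Nb, w c ≤ sg) (hS : ∑ c ∈ U ∩ S, w c ≤ sg)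
    (hd : 1 ≤ d) (hf : ∀ x, 0 ≤ f x) (hnuh1 : nuh < 1)
    (hlam : 0 ≤ lam) (hth0 : 0 < th) (hB : 0 ≤ B) (hom0 : 0 ≤ om) (hom : om = 1 - mu)
    (hm1 : 0 ≤ m1) (hkap : 0 ≤ kap)
    (M1 : ∀ x, 0 ≤ x → x ≤ nuh →
      rho * f x + a1 - B * x ≤ f x * (1 / (1 - x) - mu / (1 - x) ^ d))
    (M1x : ∀ x, nuh < x → x ≤ 1 → rho * f x + a1 - B * x ≤ 0)
    (M1' : ∀ x, 0 ≤ x → x ≤ nuh → f x * (1 / (1 - x) - mu / (1 - x) ^ d) ≤ m1)
    (M3 : ∀ x, 0 ≤ x → x ≤ nuh → th * (f x * (1 / (1 - x) - mu / (1 - x) ^ d))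
      ≤ om * (f x ^ 2 * Al x ^ 2 / (1 - x)))
    (A0 : ∀ x, 0 ≤ x → x ≤ nuh → 2 * (f x ^ 2 * Al x ^ 2 / (1 - x)) ≤
      g0 + g1 * f x + th * (f x / (1 - x) ^ d))
    (A0' : ∀ x, nuh < x → x ≤ 1 → 2 * (f x ^ 2 * Al x ^ 2 / (1 - x)) ≤ g0 + g1 * f x)
    (A2 : ∀ x, 0 ≤ x → x ≤ 1 → 2 * (f x ^ 2 * Al x ^ 2 / (1 - x)) ≤
      g0 + g1 * f x + th * kap)
    (N1 : mu ≤ lam * (rho * SF U w n f + (a1 * ∑ c ∈ U, w c - m1 * sg - B * sg)))
    (N2 : lam * (g0 * ∑ c ∈ U, w c + g1 * SF U w n f + 2 * th * kap * sg) ≤ th) :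
    1 + ∑ c, rhoG U Nb S w n lam f nuh d c * (1 - (1 - n c) ^ (d - 1)) ≤
      om * (1 + PG (U ∩ S) w n Al f / PG U w n Al f / 2) *
        (1 + ∑ c, rhoG U Nb S w n lam f nuh d c) := by
  obtain ⟨e, rfl⟩ : ∃ e, d = e + 1 := ⟨d - 1, by omega⟩
  simp only [Nat.add_sub_cancel]
  obtain ⟨T, hT⟩ : ∃ T, T = actG U Nb S n nuh := ⟨_, rfl⟩
  have hTU : ∀ c ∈ T, c ∈ U ∧ c ∉ Nb ∧ c ∉ S ∧ n c ≤ nuh := fun c hc => by
    rw [hT, actG] at hc; simpa using mem_filter.mp hc
  have hy : ∀ c ∈ T, 0 < 1 - n c := fun c hc => by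
    have := (hTU c hc).2.2.2; linarith
  have hterm0 : ∀ c ∈ T, 0 ≤ lam * w c * f (n c) / (1 - n c) ^ (e + 1) := fun c hc =>
    div_nonneg (mul_nonneg (mul_nonneg hlam (hw c (hTU c hc).1)) (hf _))
      (pow_pos (hy c hc) _).le
  obtain ⟨M, hM⟩ : ∃ M, M = ∑ c, rhoG U Nb S w n lam f nuh (e + 1) c := ⟨_, rfl⟩
  have hMsum : M = ∑ c ∈ T, lam * w c * f (n c) / (1 - n c) ^ (e + 1) := by
    rw [hM, sum_rhoG', ← hT]
  have hM0 : 0 ≤ M := by rw [hMsum]; exact sum_nonneg hterm0
  rw [← hM]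
  -- P, PS, A
  obtain ⟨P, hP⟩ : ∃ P, P = PG U w n Al f := ⟨_, rfl⟩
  obtain ⟨PS, hPS⟩ : ∃ PS, PS = PG (U ∩ S) w n Al f := ⟨_, rfl⟩
  obtain ⟨A, hA⟩ : ∃ A, A = SF U w n f := ⟨_, rfl⟩
  rw [← hA] at N1 N2
  rw [← hP, ← hPS]
  have hpt : ∀ c ∈ U, 0 ≤ w c * (f (n c) ^ 2 * Al (n c) ^ 2 / (1 - n c)) := fun c hc =>
    mul_nonneg (hw c hc) (div_nonneg (by positivity) (by linarith [hn1 c hc]))
  have hPS0 : 0 ≤ PS := by
    rw [hPS]; unfold PG
    exact sum_nonneg fun c hc => hpt c (mem_inter.mp hc).1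
  have hPSP : PS ≤ P := by
    rw [hPS, hP]; unfold PG
    exact sum_le_sum_of_subset_of_nonneg inter_subset_left fun c hc _ => hpt c hc
  obtain ⟨z, hz⟩ : ∃ z, z = PS / P := ⟨_, rfl⟩
  have hz0 : 0 ≤ z := by rw [hz]; exact div_nonneg hPS0 (hPS0.trans hPSP)
  have hzP : z * P = PS := by
    rcases (hPS0.trans hPSP).eq_or_lt with h | h
    · have h' : P = 0 := h.symm
      have : PS = 0 := le_antisymm (by rw [h'] at hPSP; exact hPSP) hPS0
      rw [this, h', mul_zero]
    · rw [hz]; field_simp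
  rw [← hz]
  -- left side
  have hL : 1 + ∑ c, rhoG U Nb S w n lam f nuh (e + 1) c * (1 - (1 - n c) ^ e) =
      1 + M - mu * M - ∑ c, rhoG U Nb S w n lam f nuh (e + 1) c * ((1 - n c) ^ e - mu) := by
    rw [hM, mul_sum]
    have : ∑ c, rhoG U Nb S w n lam f nuh (e + 1) c * (1 - (1 - n c) ^ e)
        = ∑ c, rhoG U Nb S w n lam f nuh (e + 1) c
          - ∑ c, mu * rhoG U Nb S w n lam f nuh (e + 1) c
          - ∑ c, rhoG U Nb S w n lam f nuh (e + 1) c * ((1 - n c) ^ e - mu) := by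
      rw [← sum_sub_distrib, ← sum_sub_distrib]
      exact sum_congr rfl fun c _ => by ring
    rw [this]; ring
  rw [hL]
  -- the main term
  obtain ⟨φ, hφ⟩ : ∃ φ : ℝ → ℝ, φ = fun x => f x * (1 / (1 - x) - mu / (1 - x) ^ (e + 1)) :=
    ⟨_, rfl⟩
  have hφx : ∀ x, φ x = f x * (1 / (1 - x) - mu / (1 - x) ^ (e + 1)) := fun x => by rw [hφ]
  have hb1 : ∑ c, rhoG U Nb S w n lam f nuh (e + 1) c * ((1 - n c) ^ e - mu)
      = lam * ∑ c ∈ T, w c * φ (n c) := by
    rw [sum_rhoG, ← hT, mul_sum]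
    refine sum_congr rfl fun c hc => ?_
    have hyc := hy c hc
    rw [hφx, pow_succ]
    field_simp
  obtain ⟨U', hU'⟩ : ∃ U' : Finset ι, U' = U.filter (fun c => n c ≤ nuh) := ⟨_, rfl⟩
  have hT' : T = U'.filter (fun c => c ∉ Nb ∧ c ∉ S) := by
    rw [hT, actG, hU', filter_filter]
    refine filter_congr fun c _ => ?_
    tauto
  have hb2 : rho * A + a1 * ∑ c ∈ U, w c - B * sg ≤ ∑ c ∈ U', w c * φ (n c) := by
    calc rho * A + a1 * ∑ c ∈ U, w c - B * sg
        ≤ rho * A + a1 * ∑ c ∈ U, w c - B * ∑ c ∈ U, w c * n c := by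
          have := mul_le_mul_of_nonneg_left hwn hB
          linarith
      _ = ∑ c ∈ U, w c * (rho * f (n c) + a1 - B * n c) := by
          rw [hA, SF, mul_sum, mul_sum, mul_sum, ← sum_add_distrib, ← sum_sub_distrib]
          refine sum_congr rfl fun c _ => ?_
          ring
      _ ≤ ∑ c ∈ U, if n c ≤ nuh then w c * φ (n c) else 0 := by
          refine sum_le_sum fun c hc => ?_
          split_ifs with h
          · rw [hφx]
            exact mul_le_mul_of_nonneg_left (M1 (n c) (hn0 c hc) h) (hw c hc)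
          · push Not at h
            exact mul_nonpos_of_nonneg_of_nonpos (hw c hc) (M1x (n c) h (hn1 c hc))
      _ = ∑ c ∈ U', w c * φ (n c) := by rw [hU', sum_filter]
  have hb3 : ∑ c ∈ U', w c * φ (n c) - ∑ c ∈ T, w c * φ (n c) ≤
      m1 * sg + om / th * PS := by
    have h1 : ∑ c ∈ U', w c * φ (n c) = ∑ c ∈ T, w c * φ (n c) +
        ∑ c ∈ U'.filter (fun c => ¬ (c ∉ Nb ∧ c ∉ S)), w c * φ (n c) := by
      rw [hT', sum_filter_add_sum_filter_not]
    rw [h1, add_sub_cancel_left]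
    have h2 : ∀ c ∈ U'.filter (fun c => ¬ (c ∉ Nb ∧ c ∉ S)), w c * φ (n c) ≤
        (if c ∈ Nb then m1 * w c else 0) + (if c ∈ S then om / th *
          (w c * (f (n c) ^ 2 * Al (n c) ^ 2 / (1 - n c))) else 0) := by
      intro c hc
      obtain ⟨hc1, hc2⟩ := mem_filter.mp hc
      rw [hU'] at hc1
      obtain ⟨hcU, hcn⟩ := mem_filter.mp hc1
      have hwc := hw c hcU
      have hx0 := hn0 c hcU
      by_cases hNbc : c ∈ Nb
      · rw [if_pos hNbc]
        have h3 : w c * φ (n c) ≤ m1 * w c := by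
          rw [mul_comm m1, hφx]
          exact mul_le_mul_of_nonneg_left (M1' (n c) hx0 hcn) hwc
        have h4 : (0 : ℝ) ≤ if c ∈ S then om / th *
          (w c * (f (n c) ^ 2 * Al (n c) ^ 2 / (1 - n c))) else 0 := by
          split_ifs
          · exact mul_nonneg (div_nonneg hom0 hth0.le) (hpt c hcU)
          · exact le_rfl
        linarith
      · have hSc : c ∈ S := by
          by_contra h; exact hc2 ⟨hNbc, h⟩
        rw [if_neg hNbc, if_pos hSc, zero_add]
        have h3 := M3 (n c) hx0 hcn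
        rw [← hφx] at h3
        have h8 : φ (n c) ≤ om / th * (f (n c) ^ 2 * Al (n c) ^ 2 / (1 - n c)) := by
          rw [div_mul_eq_mul_div, le_div_iff₀ hth0, mul_comm (φ (n c))]
          exact h3
        calc w c * φ (n c) ≤ w c * (om / th *
            (f (n c) ^ 2 * Al (n c) ^ 2 / (1 - n c))) :=
              mul_le_mul_of_nonneg_left h8 hwc
          _ = _ := by ring
    refine (sum_le_sum h2).trans ?_
    rw [sum_add_distrib]
    refine add_le_add ?_ ?_
    · calc _ ≤ ∑ c ∈ U, if c ∈ Nb then m1 * w c else 0 := by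
            rw [hU']
            refine sum_le_sum_of_subset_of_nonneg
              ((filter_subset _ _).trans (filter_subset _ _)) fun c hc _ => ?_
            split_ifs
            · exact mul_nonneg hm1 (hw c hc)
            · exact le_rfl
        _ = m1 * ∑ c ∈ U ∩ Nb, w c := by
            rw [← sum_filter, mul_sum, filter_mem_eq_inter]
        _ ≤ m1 * sg := mul_le_mul_of_nonneg_left hNb hm1
    · calc _ ≤ ∑ c ∈ U, if c ∈ S then om / th *
            (w c * (f (n c) ^ 2 * Al (n c) ^ 2 / (1 - n c))) else 0 := by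
            rw [hU']
            refine sum_le_sum_of_subset_of_nonneg
              ((filter_subset _ _).trans (filter_subset _ _)) fun c hc _ => ?_
            split_ifs
            · exact mul_nonneg (div_nonneg hom0 hth0.le) (hpt c hc)
            · exact le_rfl
        _ = om / th * PS := by
            rw [← sum_filter, filter_mem_eq_inter, hPS]
            unfold PG
            rw [mul_sum]
  have hc : 2 * lam * P ≤ th * (1 + M) := by
    have h1 : ∀ c ∈ U, 2 * (w c * (f (n c) ^ 2 * Al (n c) ^ 2 / (1 - n c))) ≤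
        w c * (g0 + g1 * f (n c)) + ((if c ∈ Nb then th * kap * w c else 0) +
          (if c ∈ S then th * kap * w c else 0)) +
          (if c ∉ Nb ∧ c ∉ S ∧ n c ≤ nuh then th * (w c * (f (n c) / (1 - n c) ^ (e + 1)))
            else 0) := by
      intro c hcU
      have hwc := hw c hcU
      have hx0 := hn0 c hcU
      have hx1 := hn1 c hcU
      have hk0 : 0 ≤ th * kap * w c := mul_nonneg (mul_nonneg hth0.le hkap) hwc
      by_cases hact : c ∉ Nb ∧ c ∉ S ∧ n c ≤ nuh
      · rw [if_neg hact.1, if_neg hact.2.1, if_pos hact, add_zero, add_zero]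
        have h2 := mul_le_mul_of_nonneg_left (A0 (n c) hx0 hact.2.2) hwc
        calc _ = w c * (2 * (f (n c) ^ 2 * Al (n c) ^ 2 / (1 - n c))) := by ring
          _ ≤ _ := h2
          _ = _ := by ring
      · rw [if_neg hact, add_zero]
        by_cases hrem : c ∈ Nb ∨ c ∈ S
        · have h2 := mul_le_mul_of_nonneg_left (A2 (n c) hx0 hx1) hwc
          have h3 : th * kap * w c ≤ (if c ∈ Nb then th * kap * w c else 0) +
              (if c ∈ S then th * kap * w c else 0) := by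
            rcases hrem with h | h
            · rw [if_pos h]
              split_ifs <;> linarith
            · rw [if_pos h]
              split_ifs <;> linarith
          calc _ = w c * (2 * (f (n c) ^ 2 * Al (n c) ^ 2 / (1 - n c))) := by ring
            _ ≤ w c * (g0 + g1 * f (n c) + th * kap) := h2
            _ = w c * (g0 + g1 * f (n c)) + th * kap * w c := by ring
            _ ≤ _ := by linarith
        · push Not at hrem
          rw [if_neg hrem.1, if_neg hrem.2, add_zero, add_zero]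
          have hgt : nuh < n c := by
            by_contra hcon
            push Not at hcon
            exact hact ⟨hrem.1, hrem.2, hcon⟩
          have h2 := mul_le_mul_of_nonneg_left (A0' (n c) hgt hx1) hwc
          calc _ = w c * (2 * (f (n c) ^ 2 * Al (n c) ^ 2 / (1 - n c))) := by ring
            _ ≤ _ := h2
            _ = _ := by ring
    have h2 : 2 * P ≤ g0 * ∑ c ∈ U, w c + g1 * A + 2 * th * kap * sg
        + th * ∑ c ∈ T, w c * (f (n c) / (1 - n c) ^ (e + 1)) := by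
      calc 2 * P = ∑ c ∈ U, 2 * (w c * (f (n c) ^ 2 * Al (n c) ^ 2 / (1 - n c))) := by
            rw [hP]; unfold PG; rw [mul_sum]
        _ ≤ _ := sum_le_sum h1
        _ = (g0 * ∑ c ∈ U, w c + g1 * A)
            + (th * kap * ∑ c ∈ U ∩ Nb, w c + th * kap * ∑ c ∈ U ∩ S, w c)
            + th * ∑ c ∈ T, w c * (f (n c) / (1 - n c) ^ (e + 1)) := by
          rw [sum_add_distrib, sum_add_distrib, sum_add_distrib]
          congr 1
          · congr 1
            · rw [hA, SF, mul_sum, mul_sum, ← sum_add_distrib]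
              exact sum_congr rfl fun c _ => by ring
            · congr 1
              · rw [← sum_filter, mul_sum, filter_mem_eq_inter]
              · rw [← sum_filter, mul_sum, filter_mem_eq_inter]
          · rw [hT, actG, sum_filter, mul_sum]
            refine sum_congr rfl fun c _ => ?_
            split_ifs <;> simp
        _ ≤ _ := by
          have h3 : 0 ≤ th * kap := mul_nonneg hth0.le hkap
          have h4 := mul_le_mul_of_nonneg_left hNb h3
          have h5 := mul_le_mul_of_nonneg_left hS h3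
          linarith
    have h3 := mul_le_mul_of_nonneg_left h2 hlam
    have h4 : lam * (th * ∑ c ∈ T, w c * (f (n c) / (1 - n c) ^ (e + 1))) = th * M := by
      rw [hMsum, mul_sum, mul_sum, mul_sum]
      exact sum_congr rfl fun c _ => by ring
    nlinarith
  -- conclusion
  rw [hb1]
  have h1 : rho * A + (a1 * ∑ c ∈ U, w c - m1 * sg - B * sg) - om / th * PS
      ≤ ∑ c ∈ T, w c * φ (n c) := by
    linarith
  have h2 := mul_le_mul_of_nonneg_left h1 hlam
  have h3 : lam * (om / th * PS) ≤ om * (z / 2) * (1 + M) := by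
    rw [← hzP]
    have h4 : lam * (om / th * (z * P)) = om * z / (2 * th) * (2 * lam * P) := by
      field_simp
    have h5 : om * z / (2 * th) * (2 * lam * P) ≤ om * z / (2 * th) * (th * (1 + M)) :=
      mul_le_mul_of_nonneg_left hc (by positivity)
    have h6 : om * z / (2 * th) * (th * (1 + M)) = om * (z / 2) * (1 + M) := by
      field_simp
    rw [h4]
    exact h5.trans h6.le
  have h7 : lam * (rho * A + (a1 * ∑ c ∈ U, w c - m1 * sg - B * sg) - om / th * PS)
      = lam * (rho * A + (a1 * ∑ c ∈ U, w c - m1 * sg - B * sg)) - lam * (om / th * PS) := by ring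
  rw [h7] at h2
  have h8 : om * (1 + z / 2) * (1 + M) = (1 + M - mu * M - mu) + om * (z / 2) * (1 + M) := by
    rw [hom]; ring
  rw [h8]
  linarith

/-- **The change with `s`, with a majorant `k0 + k1 f + k2 x`** (which may be negative, at least
`- k3`, on the removed sets). -/
theorem muj_diff {sg om k0 k1 k2 k3 s δ : ℝ} (hw : ∀ c ∈ U, 0 ≤ w c) (hn0 : ∀ c ∈ U, 0 ≤ n c)
    (hn1 : ∀ c ∈ U, n c ≤ 1)
    (hwn : ∑ c ∈ U, w c * n c ≤ sg) (hNb : ∑ c ∈ U ∩ Nb, w c ≤ sg) (hS : ∑ c ∈ U ∩ S, w c ≤ sg)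
    (hd : 1 ≤ d) (hlam : 0 ≤ lam) (hδ : 0 ≤ δ) (hk2 : 0 ≤ k2) (hk3 : 0 ≤ k3)
    (K0 : ∀ x, 0 ≤ x → x ≤ 1 → - k3 ≤ k0 + k1 * f x + k2 * x)
    (K1 : ∀ x, nuh < x → x ≤ 1 → 0 ≤ k0 + k1 * f x + k2 * x)
    (S1 : ∀ x, 0 ≤ x → x ≤ nuh →
      f x / (1 - x) ^ d * ((1 - x) ^ (d - 1) - (max 0 (1 - x / (1 - s))) ^ (d - 1)
        - δ * om) ≤ δ * (k0 + k1 * f x + k2 * x))
    (N3 : lam * (k0 * ∑ c ∈ U, w c + k1 * SF U w n f + k2 * sg + 2 * k3 * sg) ≤ om) :
    ∑ c, rhoG U Nb S w n lam f nuh d c *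
        ((1 - n c) ^ (d - 1) - (max 0 (1 - n c / (1 - s))) ^ (d - 1))
      ≤ δ * om * (1 + ∑ c, rhoG U Nb S w n lam f nuh d c) := by
  obtain ⟨e, rfl⟩ : ∃ e, d = e + 1 := ⟨d - 1, by omega⟩
  simp only [Nat.add_sub_cancel] at S1 ⊢
  have h1 : ∑ c, rhoG U Nb S w n lam f nuh (e + 1) c *
      ((1 - n c) ^ e - (max 0 (1 - n c / (1 - s))) ^ e - δ * om) ≤ δ * om := by
    rw [sum_rhoG]
    have hTU : ∀ c ∈ actG U Nb S n nuh, c ∈ U ∧ c ∉ Nb ∧ c ∉ S ∧ n c ≤ nuh := fun c hc => by
      rw [actG] at hc; simpa using mem_filter.mp hc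
    have hmaj : ∑ c ∈ actG U Nb S n nuh, w c * (k0 + k1 * f (n c) + k2 * n c)
        ≤ k0 * ∑ c ∈ U, w c + k1 * SF U w n f + k2 * sg + 2 * k3 * sg := by
      have hpt : ∀ c ∈ U, (if c ∉ Nb ∧ c ∉ S ∧ n c ≤ nuh then
          w c * (k0 + k1 * f (n c) + k2 * n c) else 0) ≤ w c * (k0 + k1 * f (n c) + k2 * n c)
          + ((if c ∈ Nb then k3 * w c else 0) + (if c ∈ S then k3 * w c else 0)) := by
        intro c hcU
        have hwc := hw c hcU
        have hk0' : 0 ≤ k3 * w c := mul_nonneg hk3 hwc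
        have ha : (0:ℝ) ≤ if c ∈ Nb then k3 * w c else 0 := by split_ifs <;> linarith
        have hb : (0:ℝ) ≤ if c ∈ S then k3 * w c else 0 := by split_ifs <;> linarith
        by_cases h : c ∉ Nb ∧ c ∉ S ∧ n c ≤ nuh
        · rw [if_pos h]
          linarith
        · rw [if_neg h]
          by_cases hrem : c ∈ Nb ∨ c ∈ S
          · have h2 := mul_le_mul_of_nonneg_left (K0 (n c) (hn0 c hcU) (hn1 c hcU)) hwc
            have h3 : k3 * w c ≤ (if c ∈ Nb then k3 * w c else 0) +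
                (if c ∈ S then k3 * w c else 0) := by
              rcases hrem with h | h
              · rw [if_pos h]; linarith
              · rw [if_pos h]; linarith
            have e1 : w c * (-k3) = - (k3 * w c) := by ring
            rw [e1] at h2
            linarith
          · push Not at hrem
            have hgt : nuh < n c := by
              by_contra hcon
              push Not at hcon
              exact h ⟨hrem.1, hrem.2, hcon⟩
            have h2 := mul_nonneg hwc (K1 (n c) hgt (hn1 c hcU))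
            linarith
      calc _ = ∑ c ∈ U, (if c ∉ Nb ∧ c ∉ S ∧ n c ≤ nuh then
            w c * (k0 + k1 * f (n c) + k2 * n c) else 0) := by rw [actG, sum_filter]
        _ ≤ _ := sum_le_sum hpt
        _ = k0 * ∑ c ∈ U, w c + k1 * SF U w n f + k2 * ∑ c ∈ U, w c * n c
            + (k3 * ∑ c ∈ U ∩ Nb, w c + k3 * ∑ c ∈ U ∩ S, w c) := by
          rw [sum_add_distrib, sum_add_distrib]
          congr 1
          · rw [SF, mul_sum, mul_sum, mul_sum, ← sum_add_distrib, ← sum_add_distrib]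
            exact sum_congr rfl fun c _ => by ring
          · congr 1
            · rw [← sum_filter, mul_sum, filter_mem_eq_inter]
            · rw [← sum_filter, mul_sum, filter_mem_eq_inter]
        _ ≤ _ := by
          have h4 := mul_le_mul_of_nonneg_left hNb hk3
          have h5 := mul_le_mul_of_nonneg_left hS hk3
          have h6 := mul_le_mul_of_nonneg_left hwn hk2
          linarith
    calc _ ≤ ∑ c ∈ actG U Nb S n nuh, lam * δ * (w c * (k0 + k1 * f (n c) + k2 * n c)) := by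
          refine sum_le_sum fun c hc => ?_
          have hcT := hTU c hc
          calc _ = lam * w c * (f (n c) / (1 - n c) ^ (e + 1) *
              ((1 - n c) ^ e - (max 0 (1 - n c / (1 - s))) ^ e - δ * om)) := by ring
            _ ≤ lam * w c * (δ * (k0 + k1 * f (n c) + k2 * n c)) :=
              mul_le_mul_of_nonneg_left (S1 (n c) (hn0 c hcT.1) hcT.2.2.2)
              (mul_nonneg hlam (hw c hcT.1))
            _ = _ := by ring
      _ = δ * (lam * ∑ c ∈ actG U Nb S n nuh, w c * (k0 + k1 * f (n c) + k2 * n c)) := by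
          rw [mul_sum, mul_sum]
          exact sum_congr rfl fun c _ => by ring
      _ ≤ δ * (lam * (k0 * ∑ c ∈ U, w c + k1 * SF U w n f + k2 * sg + 2 * k3 * sg)) :=
          mul_le_mul_of_nonneg_left (mul_le_mul_of_nonneg_left hmaj hlam) hδ
      _ ≤ δ * om := mul_le_mul_of_nonneg_left N3 hδ
  have h2 : ∑ c, rhoG U Nb S w n lam f nuh (e + 1) c *
      ((1 - n c) ^ e - (max 0 (1 - n c / (1 - s))) ^ e - δ * om)
      = ∑ c, rhoG U Nb S w n lam f nuh (e + 1) c *
        ((1 - n c) ^ e - (max 0 (1 - n c / (1 - s))) ^ e)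
        - δ * om * ∑ c, rhoG U Nb S w n lam f nuh (e + 1) c := by
    rw [mul_sum, ← sum_sub_distrib]
    exact sum_congr rfl fun c _ => by ring
  rw [h2] at h1
  linarith

end

end Pool.Agent.T6A
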