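import Mathlib

/-!
# The additive triangle lemma (MP_c6effb_co)

For an edge `v u` with `j` common neighbours: `n`, `n'` are the blocked masses of the positions of
`v` and `u`, `x c` the blocked mass of a third position `c` of `u`, `κ c ≥ 0` weights, `E` = number
of the other neighbours of `u`. Then
`θ ^ j * F_j (n, n') ≤ 1 - M n - M n' + M 0` for all `j ≤ E`.
-/

set_option autoImplicit false

open Finset

namespace Pool.Agent.T6A

namespace Tri

/-- truncated `1 - x / (1 - s)` -/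
noncomputable def tr (x s : ℝ) : ℝ := max 0 (1 - x / (1 - s))

theorem tr_nonneg (x s : ℝ) : 0 ≤ tr x s := le_max_left _ _

theorem tr_le {x s t : ℝ} (hx : 0 ≤ x) (hst : s ≤ t) (ht : t < 1) : tr x t ≤ tr x s := by
  refine max_le_max le_rfl ?_
  have h : x / (1 - s) ≤ x / (1 - t) :=
    div_le_div_of_nonneg_left hx (by linarith) (by linarith)
  linarith

theorem tr_zero_le_one {x s : ℝ} (hx : 0 ≤ x) (hs : s < 1) : tr x s ≤ 1 := by
  refine max_le zero_le_one ?_
  have : 0 ≤ x / (1 - s) := div_nonneg hx (by linarith)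
  linarith

theorem tr_zero {x : ℝ} (hx : x ≤ 1) : tr x 0 = 1 - x := by
  unfold tr
  rw [sub_zero, div_one, max_eq_right (by linarith)]

/-- The difference of the truncated values. -/
theorem br_le {x n n' : ℝ} (hx : 0 ≤ x) (hx1 : x ≤ 1) (hn : 0 ≤ n) (hn' : 0 ≤ n')
    (h : n + n' < 1) :
    tr x n' - tr x (n + n') ≤ (1 - n) / ((1 - n - n') * (1 - n')) * (tr x 0 - tr x n) := by
  have h1 : (0 : ℝ) < 1 - n := by linarith
  have h2 : (0 : ℝ) < 1 - n' := by linarith
  have h3 : (0 : ℝ) < 1 - n - n' := by linarith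
  have h3' : (1 : ℝ) - (n + n') = 1 - n - n' := by ring
  have hK : 0 < (1 - n - n') * (1 - n') := mul_pos h3 h2
  have hd : 0 ≤ tr x 0 - tr x n := sub_nonneg.2 (tr_le hx hn (by linarith))
  rw [div_mul_eq_mul_div, le_div_iff₀ hK]
  rcases le_or_gt (1 - n') x with hp | hp
  · have e1 : tr x n' = 0 := by
      unfold tr
      rw [max_eq_left]
      rw [sub_nonpos, le_div_iff₀ h2]; linarith
    have e2 := tr_nonneg x (n + n')
    rw [e1]
    have := mul_nonneg h1.le hd
    nlinarith [mul_nonneg e2 hK.le]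
  · have e1 : tr x n' = 1 - x / (1 - n') := by
      unfold tr
      rw [max_eq_right]
      rw [sub_nonneg, div_le_iff₀ h2]; linarith
    have e0 : tr x 0 = 1 - x := tr_zero hx1
    have k1 : (1 - x / (1 - n')) * (1 - n') = 1 - n' - x := by
      rw [sub_mul, one_mul, div_mul_cancel₀ _ h2.ne']
    rcases le_or_gt (1 - n - n') x with hq | hq
    · have e2 : tr x (n + n') = 0 := by
        unfold tr
        rw [max_eq_left]
        rw [sub_nonpos, h3', le_div_iff₀ h3]; linarith
      rw [e1, e2, e0, sub_zero]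
      have k2 : (1 - x / (1 - n')) * ((1 - n - n') * (1 - n')) = (1 - n' - x) * (1 - n - n') := by
        rw [← k1]; ring
      rw [k2]
      rcases le_or_gt (1 - n) x with hr | hr
      · have e3 : tr x n = 0 := by
          unfold tr
          rw [max_eq_left]
          rw [sub_nonpos, le_div_iff₀ h1]; linarith
        rw [e3, sub_zero]
        nlinarith [mul_nonneg hn' h3.le, mul_nonneg (sub_nonneg.2 hx1) hn']
      · have e3 : tr x n = 1 - x / (1 - n) := by
          unfold tr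
          rw [max_eq_right]
          rw [sub_nonneg, div_le_iff₀ h1]; linarith
        have k3 : (1 - n) * (1 - x - (1 - x / (1 - n))) = x * n := by
          have : (1 - n) * (x / (1 - n)) = x := mul_div_cancel₀ _ h1.ne'
          linear_combination this
        rw [e3, k3]
        nlinarith [mul_nonneg h2.le (sub_nonneg.2 hq)]
    · have e2 : tr x (n + n') = 1 - x / (1 - n - n') := by
        unfold tr
        rw [h3', max_eq_right]
        rw [sub_nonneg, div_le_iff₀ h3]; linarith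
      have e3 : tr x n = 1 - x / (1 - n) := by
        unfold tr
        rw [max_eq_right]
        rw [sub_nonneg, div_le_iff₀ h1]; linarith
      have k3 : (1 - n) * (1 - x - (1 - x / (1 - n))) = x * n := by
        have : (1 - n) * (x / (1 - n)) = x := mul_div_cancel₀ _ h1.ne'
        linear_combination this
      have k4 : (1 - x / (1 - n') - (1 - x / (1 - n - n'))) * ((1 - n - n') * (1 - n')) = x * n := by
        have a1 : x / (1 - n - n') * (1 - n - n') = x := div_mul_cancel₀ _ h3.ne'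
        have a2 : x / (1 - n') * (1 - n') = x := div_mul_cancel₀ _ h2.ne'
        linear_combination (1 - n') * a1 - (1 - n - n') * a2
      rw [e1, e2, e3, e0, k3, k4]

/-- the same at `n' = 0` -/
theorem br0_le {x n : ℝ} (hx1 : x ≤ 1) (hn : 0 ≤ n) (hn1 : n < 1) (hx : 0 ≤ x) :
    tr x 0 - tr x n ≤ n / (1 - n) * x := by
  have h1 : (0 : ℝ) < 1 - n := by linarith
  rw [tr_zero hx1, div_mul_eq_mul_div, le_div_iff₀ h1]
  rcases le_or_gt (1 - n) x with hr | hr
  · have e3 : tr x n = 0 := by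
      unfold tr
      rw [max_eq_left]
      rw [sub_nonpos, le_div_iff₀ h1]; linarith
    rw [e3]; nlinarith
  · have e3 : tr x n = 1 - x / (1 - n) := by
      unfold tr
      rw [max_eq_right]
      rw [sub_nonneg, div_le_iff₀ h1]; linarith
    have k3 : (1 - x - (1 - x / (1 - n))) * (1 - n) = n * x := by
      have : x / (1 - n) * (1 - n) = x := div_mul_cancel₀ _ h1.ne'
      linear_combination this
    rw [e3, k3]

section main

variable {ι : Type*} (S : Finset ι) (κ x : ι → ℝ) (E : ℕ)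

/-- `M s` -/
noncomputable def M (s : ℝ) : ℝ := ∑ c ∈ S, κ c * tr (x c) s ^ E

/-- `F_j (n, n')` -/
noncomputable def F (n n' : ℝ) (j : ℕ) : ℝ :=
  1 - ∑ c ∈ S, κ c * (tr (x c) (n + n') ^ j * tr (x c) n' ^ (E - j))

/-- `θ (n, n')` -/
noncomputable def th (n n' : ℝ) : ℝ := (1 - n - n') / ((1 - n) * (1 - n'))

/-- `Δ_(i+1) (n, n') = F_(i+1) - F_i` -/
noncomputable def De (n n' : ℝ) (i : ℕ) : ℝ :=
  ∑ c ∈ S, κ c * ((tr (x c) n' - tr (x c) (n + n')) *
    (tr (x c) (n + n') ^ i * tr (x c) n' ^ (E - (i + 1))))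

theorem F_succ {n n' : ℝ} {i : ℕ} (hi : i < E) :
    F S κ x E n n' (i + 1) - F S κ x E n n' i = De S κ x E n n' i := by
  unfold F De
  rw [sub_sub_sub_cancel_left, ← sum_sub_distrib]
  refine sum_congr rfl fun c _ => ?_
  have e : E - i = (E - (i + 1)) + 1 := by omega
  rw [e]
  ring

theorem F_zero {n n' : ℝ} : F S κ x E n n' 0 = 1 - M S κ x E n' := by
  unfold F M
  simp

theorem F_last {n : ℝ} : F S κ x E n 0 E = 1 - M S κ x E n := by
  unfold F M
  simp

variable {S κ x E}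

theorem F_ge {n n' : ℝ} (hκ : ∀ c ∈ S, 0 ≤ κ c) (hx : ∀ c ∈ S, 0 ≤ x c)
    (hn : 0 ≤ n) (hn' : 0 ≤ n') (h : n + n' < 1) {i : ℕ} (hi : i ≤ E) :
    1 - M S κ x E 0 ≤ F S κ x E n n' i := by
  unfold F M
  refine sub_le_sub_left (sum_le_sum fun c hc => mul_le_mul_of_nonneg_left ?_ (hκ c hc)) _
  have e : E = i + (E - i) := by omega
  calc tr (x c) (n + n') ^ i * tr (x c) n' ^ (E - i)
      ≤ tr (x c) 0 ^ i * tr (x c) 0 ^ (E - i) :=
        mul_le_mul (pow_le_pow_left₀ (tr_nonneg _ _) (tr_le (hx c hc) (by linarith) h) _)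
          (pow_le_pow_left₀ (tr_nonneg _ _) (tr_le (hx c hc) hn' (by linarith)) _)
          (pow_nonneg (tr_nonneg _ _) _) (pow_nonneg (tr_nonneg _ _) _)
    _ = tr (x c) 0 ^ E := by rw [← pow_add, ← e]

theorem De_nonneg {n n' : ℝ} (hκ : ∀ c ∈ S, 0 ≤ κ c) (hx : ∀ c ∈ S, 0 ≤ x c)
    (hn : 0 ≤ n) (h : n + n' < 1) (i : ℕ) : 0 ≤ De S κ x E n n' i := by
  refine sum_nonneg fun c hc => mul_nonneg (hκ c hc) (mul_nonneg ?_ ?_)
  · exact sub_nonneg.2 (tr_le (hx c hc) (by linarith) h)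
  · exact mul_nonneg (pow_nonneg (tr_nonneg _ _) _) (pow_nonneg (tr_nonneg _ _) _)

theorem De_le {n n' : ℝ} (hκ : ∀ c ∈ S, 0 ≤ κ c) (hx : ∀ c ∈ S, 0 ≤ x c) (hx1 : ∀ c ∈ S, x c ≤ 1)
    (hn : 0 ≤ n) (hn' : 0 ≤ n') (h : n + n' < 1) (i : ℕ) :
    De S κ x E n n' i ≤ (1 - n) / ((1 - n - n') * (1 - n')) * De S κ x E n 0 i := by
  unfold De
  rw [mul_sum]
  refine sum_le_sum fun c hc => ?_
  have hK : 0 ≤ (1 - n) / ((1 - n - n') * (1 - n')) :=
    div_nonneg (by linarith) (mul_nonneg (by linarith) (by linarith))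
  have h1 := br_le (hx c hc) (hx1 c hc) hn hn' h
  have h0 : 0 ≤ tr (x c) 0 - tr (x c) n := sub_nonneg.2 (tr_le (hx c hc) hn (by linarith))
  have h2 : tr (x c) (n + n') ^ i * tr (x c) n' ^ (E - (i + 1)) ≤
      tr (x c) n ^ i * tr (x c) 0 ^ (E - (i + 1)) :=
    mul_le_mul (pow_le_pow_left₀ (tr_nonneg _ _) (tr_le (hx c hc) (by linarith) h) _)
      (pow_le_pow_left₀ (tr_nonneg _ _) (tr_le (hx c hc) hn' (by linarith)) _)
      (pow_nonneg (tr_nonneg _ _) _) (pow_nonneg (tr_nonneg _ _) _)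
  calc κ c * ((tr (x c) n' - tr (x c) (n + n')) *
        (tr (x c) (n + n') ^ i * tr (x c) n' ^ (E - (i + 1))))
      ≤ κ c * ((1 - n) / ((1 - n - n') * (1 - n')) * (tr (x c) 0 - tr (x c) n) *
        (tr (x c) n ^ i * tr (x c) 0 ^ (E - (i + 1)))) := by
        refine mul_le_mul_of_nonneg_left ?_ (hκ c hc)
        exact mul_le_mul h1 h2 (mul_nonneg (pow_nonneg (tr_nonneg _ _) _)
          (pow_nonneg (tr_nonneg _ _) _)) (mul_nonneg hK h0)
    _ = _ := by rw [add_zero]; ring

theorem De0_le {n : ℝ} (hκ : ∀ c ∈ S, 0 ≤ κ c) (hx : ∀ c ∈ S, 0 ≤ x c) (hx1 : ∀ c ∈ S, x c ≤ 1)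
    (hn : 0 ≤ n) (h : n < 1) {i : ℕ} (hi : i < E) :
    De S κ x E n 0 i ≤ n / (1 - n) * ∑ c ∈ S, κ c * (x c * (1 - x c) ^ (E - 1)) := by
  unfold De
  rw [mul_sum]
  refine sum_le_sum fun c hc => ?_
  have h1 := br0_le (hx1 c hc) hn h (hx c hc)
  have h0 : 0 ≤ n / (1 - n) * x c := mul_nonneg (div_nonneg hn (by linarith)) (hx c hc)
  have h2 : tr (x c) (n + 0) ^ i * tr (x c) 0 ^ (E - (i + 1)) ≤ (1 - x c) ^ (E - 1) := by
    have e : E - 1 = i + (E - (i + 1)) := by omega
    rw [e, pow_add, ← tr_zero (hx1 c hc)]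
    refine mul_le_mul_of_nonneg_right ?_ (pow_nonneg (tr_nonneg _ _) _)
    exact pow_le_pow_left₀ (tr_nonneg _ _) (tr_le (hx c hc) (by linarith) (by linarith)) _
  calc κ c * ((tr (x c) 0 - tr (x c) (n + 0)) *
        (tr (x c) (n + 0) ^ i * tr (x c) 0 ^ (E - (i + 1))))
      ≤ κ c * (n / (1 - n) * x c * (1 - x c) ^ (E - 1)) := by
        refine mul_le_mul_of_nonneg_left ?_ (hκ c hc)
        refine mul_le_mul ?_ h2 (mul_nonneg (pow_nonneg (tr_nonneg _ _) _)
          (pow_nonneg (tr_nonneg _ _) _)) h0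
        rw [add_zero]; exact h1
    _ = _ := by ring

/-- **The additive triangle lemma.** -/
theorem main {n n' : ℝ} (hκ : ∀ c ∈ S, 0 ≤ κ c) (hx : ∀ c ∈ S, 0 ≤ x c) (hx1 : ∀ c ∈ S, x c ≤ 1)
    (hn : 0 ≤ n) (hn' : 0 ≤ n') (h : n + n' < 1)
    (ha : (∑ c ∈ S, κ c * (x c * (1 - x c) ^ (E - 1))) * (2 - n') ≤
      (1 - M S κ x E 0) * (1 - n')) {j : ℕ} (hj : j ≤ E) :
    th n n' ^ j * F S κ x E n n' j ≤ 1 - M S κ x E n - M S κ x E n' + M S κ x E 0 := by
  have h1 : (0 : ℝ) < 1 - n := by linarith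
  have h2 : (0 : ℝ) < 1 - n' := by linarith
  have h3 : (0 : ℝ) < 1 - n - n' := by linarith
  set a := ∑ c ∈ S, κ c * (x c * (1 - x c) ^ (E - 1)) with haD
  have ha0 : 0 ≤ a := sum_nonneg fun c hc => mul_nonneg (hκ c hc)
    (mul_nonneg (hx c hc) (pow_nonneg (by linarith [hx1 c hc]) _))
  have hM0 : 0 ≤ 1 - M S κ x E 0 := by
    have : 0 ≤ (1 - M S κ x E 0) * (1 - n') := le_trans (mul_nonneg ha0 (by linarith)) ha
    exact nonneg_of_mul_nonneg_left this h2
  have hth0 : 0 ≤ th n n' := div_nonneg h3.le (mul_nonneg h1.le h2.le)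
  have hth1 : 1 - th n n' = n * n' / ((1 - n) * (1 - n')) := by
    unfold th
    field_simp
    ring
  have hth2 : th n n' ≤ 1 := by
    have : 0 ≤ 1 - th n n' := by
      rw [hth1]; exact div_nonneg (mul_nonneg hn hn') (mul_nonneg h1.le h2.le)
    linarith
  have step : ∀ i < E, th n n' ^ (i + 1) * F S κ x E n n' (i + 1) -
      th n n' ^ i * F S κ x E n n' i ≤ De S κ x E n 0 i := by
    intro i hi
    have hD0 : 0 ≤ De S κ x E n 0 i := De_nonneg hκ hx hn (by linarith) i
    have hF := F_ge (E := E) (n := n) (n' := n') hκ hx hn hn' h hi.le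
    have e1 : th n n' ^ (i + 1) * F S κ x E n n' (i + 1) - th n n' ^ i * F S κ x E n n' i =
        th n n' ^ i * (th n n' * De S κ x E n n' i - (1 - th n n') * F S κ x E n n' i) := by
      have := F_succ S κ x E (n := n) (n' := n') hi
      rw [← this, pow_succ]; ring
    have e2 : th n n' * De S κ x E n n' i ≤ De S κ x E n 0 i / (1 - n') ^ 2 := by
      have h4 := mul_le_mul_of_nonneg_left (De_le (E := E) hκ hx hx1 hn hn' h i) hth0
      refine h4.trans (le_of_eq ?_)
      unfold th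
      field_simp
    have e3 : De S κ x E n 0 i / (1 - n') ^ 2 - (1 - th n n') * F S κ x E n n' i ≤
        De S κ x E n 0 i := by
      have h5 : De S κ x E n 0 i ≤ n / (1 - n) * a := De0_le hκ hx hx1 hn (by linarith) hi
      have h6 : (1 - th n n') * (1 - M S κ x E 0) ≤ (1 - th n n') * F S κ x E n n' i :=
        mul_le_mul_of_nonneg_left hF (by linarith)
      have h7 : De S κ x E n 0 i / (1 - n') ^ 2 - De S κ x E n 0 i =
          De S κ x E n 0 i * (n' * (2 - n') / (1 - n') ^ 2) := by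
        field_simp
        ring
      have h8 : De S κ x E n 0 i * (n' * (2 - n') / (1 - n') ^ 2) ≤
          n / (1 - n) * a * (n' * (2 - n') / (1 - n') ^ 2) :=
        mul_le_mul_of_nonneg_right h5 (div_nonneg (mul_nonneg hn' (by linarith)) (sq_nonneg _))
      have h9 : n / (1 - n) * a * (n' * (2 - n') / (1 - n') ^ 2) =
          n * n' / ((1 - n) * (1 - n') ^ 2) * (a * (2 - n')) := by
        field_simp
      have h10 : n * n' / ((1 - n) * (1 - n') ^ 2) * (a * (2 - n')) ≤
          n * n' / ((1 - n) * (1 - n') ^ 2) * ((1 - M S κ x E 0) * (1 - n')) :=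
        mul_le_mul_of_nonneg_left ha (div_nonneg (mul_nonneg hn hn') (mul_nonneg h1.le (sq_nonneg _)))
      have h11 : n * n' / ((1 - n) * (1 - n') ^ 2) * ((1 - M S κ x E 0) * (1 - n')) =
          (1 - th n n') * (1 - M S κ x E 0) := by
        rw [hth1]; field_simp
      linarith
    rw [e1]
    rcases le_total (th n n' * De S κ x E n n' i - (1 - th n n') * F S κ x E n n' i) 0 with hs | hs
    · exact le_trans (mul_nonpos_of_nonneg_of_nonpos (pow_nonneg hth0 _) hs) hD0
    · refine le_trans (mul_le_of_le_one_left hs (pow_le_one₀ hth0 hth2)) ?_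
      linarith
  have tele : ∀ j ≤ E, th n n' ^ j * F S κ x E n n' j ≤
      1 - M S κ x E n' + ∑ i ∈ range j, De S κ x E n 0 i := by
    intro j
    induction j with
    | zero => intro _; simp [F_zero]
    | succ j ih =>
      intro hj
      have := step j (by omega)
      rw [sum_range_succ]
      linarith [ih (by omega)]
  have hall : ∑ i ∈ range j, De S κ x E n 0 i ≤ ∑ i ∈ range E, De S κ x E n 0 i :=
    sum_le_sum_of_subset_of_nonneg (range_mono hj) fun i _ _ => De_nonneg hκ hx hn (by linarith) i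
  have hsum : ∑ i ∈ range E, De S κ x E n 0 i = M S κ x E 0 - M S κ x E n := by
    have h4 : ∑ i ∈ range E, De S κ x E n 0 i =
        ∑ i ∈ range E, (F S κ x E n 0 (i + 1) - F S κ x E n 0 i) :=
      sum_congr rfl fun i hi => (F_succ S κ x E (mem_range.1 hi)).symm
    rw [h4, sum_range_sub, F_last, F_zero]
    ring
  have := tele j hj
  linarith

end main

end Tri

end Pool.Agent.T6A
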