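import Pool.Agent.T6A.Expect8
import Pool.Agent.T6A.Expect5
import Pool.Agent.T6A.MuJ
import Pool.Agent.T6A.Tri

/-!
# Arbitrary profiles, exact common neighbours: the numeric conditions (MP_c6effb_co, CERT v3)

`MugOK` collects the numeric hypotheses for the kill factor of one vertex `u`, `VtxG` all numeric
conditions of one vertex. `sum_pairB_ge_num`: the lower bound
`∑ v, (2 lam A - lam² (A² + σ C A + σ² C² X² / (4 ss)))`.
-/

set_option autoImplicit false
set_option linter.unusedSectionVars false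

open Finset

namespace Pool.Agent.T6A

/-- The numeric hypotheses of the kill factor: `W` = weight of the list, `A` = `∑ w f` over the
list, `om = 1 - mu`. -/
structure MugOK (W A sg lam om B th rho a1 m1 g0 g1 kap k0 k1 k2 k3 F2 x1 nuh : ℝ)
    (Al f : ℝ → ℝ) (d : ℕ) :
    Prop where
  hd : 1 ≤ d
  hnuh0 : 0 < nuh
  hnuh1 : nuh < 1
  hlam : 0 ≤ lam
  hth0 : 0 < th
  hB : 0 ≤ B
  hm1 : 0 ≤ m1
  hkap : 0 ≤ kap
  hk2 : 0 ≤ k2
  hk3 : 0 ≤ k3
  hF0 : 0 ≤ F2
  hx1 : 2 * x1 < 1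
  M1 : ∀ x, 0 ≤ x → x ≤ nuh →
    rho * f x + a1 - B * x ≤ f x * (1 / (1 - x) - (1 - om) / (1 - x) ^ d)
  M1' : ∀ x, 0 ≤ x → x ≤ nuh → f x * (1 / (1 - x) - (1 - om) / (1 - x) ^ d) ≤ m1
  M1x : ∀ x, nuh < x → x ≤ 1 → rho * f x + a1 - B * x ≤ 0
  M3 : ∀ x, 0 ≤ x → x ≤ nuh → th * (f x * (1 / (1 - x) - (1 - om) / (1 - x) ^ d))
      ≤ om * (f x ^ 2 * Al x ^ 2 / (1 - x))
  A0 : ∀ x, 0 ≤ x → x ≤ nuh → 2 * (f x ^ 2 * Al x ^ 2 / (1 - x)) ≤
      g0 + g1 * f x + th * (f x / (1 - x) ^ d)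
  A0' : ∀ x, nuh < x → x ≤ 1 → 2 * (f x ^ 2 * Al x ^ 2 / (1 - x)) ≤ g0 + g1 * f x
  A2 : ∀ x, 0 ≤ x → x ≤ 1 → 2 * (f x ^ 2 * Al x ^ 2 / (1 - x)) ≤ g0 + g1 * f x + th * kap
  S1 : ∀ s x, 0 ≤ s → s ≤ x1 → 0 ≤ x → x ≤ nuh →
      f x / (1 - x) ^ d * ((1 - x) ^ (d - 1) - (max 0 (1 - x / (1 - s))) ^ (d - 1)
        - (Al s - 1) * om) ≤ (Al s - 1) * (k0 + k1 * f x + k2 * x)
  K0 : ∀ x, 0 ≤ x → x ≤ 1 → - k3 ≤ k0 + k1 * f x + k2 * x
  K1 : ∀ x, nuh < x → x ≤ 1 → 0 ≤ k0 + k1 * f x + k2 * x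
  F2b : ∀ x, 0 ≤ x → x ≤ nuh → f x / (1 - x) ^ 2 ≤ F2
  AL : ∀ x, x1 < x → x < 1 → 1 ≤ om * Al x
  N1 : 1 - om ≤ lam * (rho * A + (a1 * W - m1 * sg - B * sg))
  N2 : lam * (g0 * W + g1 * A + 2 * th * kap * sg) ≤ th
  N3 : lam * (k0 * W + k1 * A + k2 * sg + 2 * k3 * sg) ≤ om
  N4 : lam * F2 * sg * (2 - x1) ≤ 1 - x1

/-- All numeric conditions of one vertex: degree `d`, list of weight `W` with `∑ w f = A`. -/
structure VtxG (W A sg lam om um X C nuh ξ : ℝ) (Al f : ℝ → ℝ) (d : ℕ) : Prop where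
  lam0 : 0 ≤ lam
  om0 : 0 ≤ om
  um0 : 0 < um
  um1 : um ≤ 1
  C0 : 0 ≤ C
  f0 : ∀ x, 0 ≤ f x
  f1 : ∀ x, 0 < f x → x < 1
  X0 : KZero.ss d um = 0 → X = 0
  kill : 1 ≤ d → 1 ≤ om ∨ ∃ B th rho a1 m1 g0 g1 kap k0 k1 k2 k3 F2 x1,
    MugOK W A sg lam om B th rho a1 m1 g0 g1 kap k0 k1 k2 k3 F2 x1 nuh Al f d
  prof : ∀ x, 0 ≤ x → x < 1 → 0 < f x →
    f x * ((d : ℝ) * ((ξ * (Al x ^ 2 * (1 - x)) + ξ⁻¹ * ((om * Al x) ^ 2 / (1 - x))) / 2)
      + (((1 - x)⁻¹) ^ d - 1 + KZero.ss d um * KZero.ut um x ^ 2))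
      ≤ C * (1 + X * KZero.ut um x)

variable {V ι : Type*} [Fintype V] [DecidableEq V] [Fintype ι] [DecidableEq ι]

section one

variable (F : SimpleGraph ι) [DecidableRel F.Adj] (μ : ι → ℝ)

/-- the profile `f` on the list `B` -/
noncomputable def prg (B : Finset ι) (f : ℝ → ℝ) (b : ι) : ℝ :=
  if b ∈ B then f (nb F μ b) else 0

variable {F μ}

theorem prg_nonneg {B : Finset ι} {f : ℝ → ℝ} (hf : ∀ x, 0 ≤ f x) (b : ι) :
    0 ≤ prg F μ B f b := by
  unfold prg
  split_ifs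
  · exact hf _
  · exact le_rfl

theorem prg_pos {B : Finset ι} {f : ℝ → ℝ} {b : ι} (h : 0 < prg F μ B f b) :
    b ∈ B ∧ 0 < f (nb F μ b) := by
  unfold prg at h
  split_ifs at h with hb
  · exact ⟨hb, h⟩
  · exact absurd h (lt_irrefl _)

end one

variable {F : SimpleGraph ι} [DecidableRel F.Adj] {G : SimpleGraph V} [DecidableRel G.Adj]
  {μ : ι → ℝ}

theorem kz_eq_tr {z n s : ℝ} (hz : 0 < z) (hs : z = 1 - s) (E : ℕ) :
    kz z n E = Tri.tr n s ^ E := by
  rw [kz_of_pos hz, Tri.tr, hs]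

/-- The exact edge factor for rates `ρ`. -/
theorem brj_le (h0 : ∀ x, 0 ≤ μ x) (h1 : ∑ x, μ x = 1) {s : V → ι → ℝ}
    (hs : ∀ u c, 0 ≤ s u c) {a : ι} {v u : V} {om z x1 P : ℝ} {Al : ℝ → ℝ} {b b' : ι}
    (huv : G.Adj v u) (hAl : ∀ x, 1 ≤ Al x) (hz : 0 ≤ z) (hom : 0 ≤ om) (hx1 : 2 * x1 < 1)
    (hnb1 : nb F μ b < 1) (hnb1' : nb F μ b' < 1) (hbb : F.Adj b b') (hF : F.CliqueFree 3)
    (hAL : ∀ x, x1 < x → x < 1 → 1 ≤ om * Al x)
    (hzero : 1 + ∑ c, sab F s u a b c * (1 - (1 - nb F μ c) ^ (#(nbh G u) - 1))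
      ≤ om * (1 + z / 2) * (1 + ∑ c, sab F s u a b c))
    (hdiff : ∀ t : ℝ, 0 ≤ t → t ≤ x1 → ∑ c, sab F s u a b c
      * ((1 - nb F μ c) ^ (#(nbh G u) - 1) - (max 0 (1 - nb F μ c / (1 - t))) ^ (#(nbh G u) - 1))
      ≤ (Al t - 1) * om * (1 + ∑ c, sab F s u a b c))
    (hP : ∑ c, sab F s u a b c * (nb F μ c * (1 - nb F μ c) ^ (#(nbh G u) - 1 - 1)) ≤ P)
    (hP2 : P * (2 - x1) ≤ 1 - x1) :
    brj F G μ s a v u b b' ≤ Al (nb F μ b) * (om * (1 + z / 2) * Al (nb F μ b')) := by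
  have hcod := cod_eq_zero (μ := μ) hF hbb
  have hz0 : 0 ≤ 1 - nb F μ b - nb F μ b' := by
    have := fr_pair_nonneg (F := F) h0 h1 b b'
    rw [hcod, add_zero] at this
    exact this
  have hnb := nb_nonneg (F := F) h0 b
  have hnb' := nb_nonneg (F := F) h0 b'
  have hsab : ∀ c, 0 ≤ sab F s u a b c := fun c => sab_nonneg hs u a b c
  obtain ⟨Sg, hSg⟩ : ∃ Sg, Sg = ∑ c, sab F s u a b c := ⟨_, rfl⟩
  have hS : 0 ≤ Sg := by rw [hSg]; exact sum_nonneg fun c _ => hsab c
  have hv : v ∉ nbh G v := by simp [nbh]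
  have huv' : v ∈ nbh G u := mem_nbh.2 huv.symm
  obtain ⟨j, hj⟩ : ∃ j, j = #(nbh G v ∩ nbh G u) := ⟨_, rfl⟩
  obtain ⟨i, hi⟩ : ∃ i, i = #(nbh G u \ nbh G v) - 1 := ⟨_, rfl⟩
  have hij : #(nbh G u) - 1 = i + j := by
    have e1 := card_sdiff_add_card_inter (nbh G u) (nbh G v)
    have e2 : 0 < #(nbh G u \ nbh G v) := card_pos.2 ⟨v, mem_sdiff.2 ⟨huv', hv⟩⟩
    rw [hi, hj, inter_comm (nbh G v) (nbh G u)]
    omega
  have hth0 : 0 ≤ (1 - nb F μ b - nb F μ b') / ((1 - nb F μ b) * (1 - nb F μ b')) :=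
    div_nonneg hz0 (mul_nonneg (by linarith) (by linarith))
  have hth1 : (1 - nb F μ b - nb F μ b') / ((1 - nb F μ b) * (1 - nb F μ b')) ≤ 1 := by
    have : 0 < (1 - nb F μ b) * (1 - nb F μ b') := mul_pos (by linarith) (by linarith)
    rw [div_le_one this]
    nlinarith [mul_nonneg hnb hnb']
  have hbr : brj F G μ s a v u b b'
      = ((1 - nb F μ b - nb F μ b') / ((1 - nb F μ b) * (1 - nb F μ b'))) ^ j
        * (1 - 1 / (1 + Sg) * ∑ c, sab F s u a b c *
          (kz (1 - nb F μ b') (nb F μ c) i * kz (1 - nb F μ b - nb F μ b') (nb F μ c) j)) := by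
    unfold brj
    rw [← hi, ← hj, ← hSg]
  have hoz : 0 ≤ om * (1 + z / 2) := mul_nonneg hom (by linarith)
  by_cases hbig : x1 < nb F μ b ∨ x1 < nb F μ b'
  · -- the trivial bound
    have h2 : brj F G μ s a v u b b' ≤ 1 := by
      rw [hbr]
      have h3 : 0 ≤ 1 / (1 + Sg) * ∑ c, sab F s u a b c *
          (kz (1 - nb F μ b') (nb F μ c) i * kz (1 - nb F μ b - nb F μ b') (nb F μ c) j) :=
        mul_nonneg (one_div_nonneg.2 (by linarith)) (sum_nonneg fun c _ =>
          mul_nonneg (hsab c) (mul_nonneg (kz_nonneg _ _ _) (kz_nonneg _ _ _)))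
      have h4 := pow_le_one₀ (n := j) hth0 hth1
      have h5 := pow_nonneg hth0 j
      calc _ ≤ ((1 - nb F μ b - nb F μ b') / ((1 - nb F μ b) * (1 - nb F μ b'))) ^ j * 1 :=
            mul_le_mul_of_nonneg_left (by linarith) h5
        _ ≤ 1 := by linarith
    have h6 := hAl (nb F μ b)
    have h7 := hAl (nb F μ b')
    have h8 : 1 ≤ om * Al (nb F μ b) * Al (nb F μ b') := by
      rcases hbig with h | h
      · have := hAL _ h hnb1
        nlinarith
      · have := hAL _ h hnb1'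
        have h9 : om * Al (nb F μ b') ≤ om * Al (nb F μ b') * Al (nb F μ b) :=
          le_mul_of_one_le_right (by linarith) h6
        nlinarith
    have h9 : om * Al (nb F μ b) * Al (nb F μ b')
        ≤ Al (nb F μ b) * (om * (1 + z / 2) * Al (nb F μ b')) := by
      have h10 : 0 ≤ om * Al (nb F μ b) * Al (nb F μ b') :=
        mul_nonneg (mul_nonneg hom (by linarith)) (by linarith)
      have h11 : om * Al (nb F μ b) * Al (nb F μ b') * 1
          ≤ om * Al (nb F μ b) * Al (nb F μ b') * (1 + z / 2) :=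
        mul_le_mul_of_nonneg_left (by linarith) h10
      calc _ = om * Al (nb F μ b) * Al (nb F μ b') * 1 := by ring
        _ ≤ _ := h11
        _ = _ := by ring
    linarith
  · push Not at hbig
    obtain ⟨hb1, hb2⟩ := hbig
    have hsum : nb F μ b + nb F μ b' < 1 := by linarith
    have hzpos : 0 < 1 - nb F μ b - nb F μ b' := by linarith
    have hypos' : 0 < 1 - nb F μ b' := by linarith
    have hS1 : 0 < 1 + Sg := by linarith
    obtain ⟨κ, hκ⟩ : ∃ κ : ι → ℝ, κ = fun c => sab F s u a b c / (1 + Sg) := ⟨_, rfl⟩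
    obtain ⟨E, hE⟩ : ∃ E, E = #(nbh G u) - 1 := ⟨_, rfl⟩
    rw [← hE] at hzero hdiff hP hij
    have hκ0 : ∀ c ∈ (univ : Finset ι), 0 ≤ κ c := fun c _ => by
      rw [hκ]; exact div_nonneg (hsab c) hS1.le
    have hM : ∀ t, Tri.M univ κ (fun c => nb F μ c) E t
        = (∑ c, sab F s u a b c * Tri.tr (nb F μ c) t ^ E) / (1 + Sg) := by
      intro t
      unfold Tri.M
      rw [hκ, sum_div]
      exact sum_congr rfl fun c _ => by ring
    have hM0 : (1 + Sg) * (1 - Tri.M univ κ (fun c => nb F μ c) E 0)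
        = 1 + ∑ c, sab F s u a b c * (1 - (1 - nb F μ c) ^ E) := by
      rw [hM 0, mul_sub, mul_one, mul_div_cancel₀ _ hS1.ne']
      have : ∀ c, Tri.tr (nb F μ c) 0 ^ E = (1 - nb F μ c) ^ E := fun c => by
        rw [Tri.tr_zero (nb_le_one h0 h1 c)]
      simp only [this]
      rw [hSg, add_sub_assoc, ← sum_sub_distrib]
      congr 1
      exact sum_congr rfl fun c _ => by ring
    have hpi1 : ∀ c, (1 - nb F μ c) ^ E ≤ 1 := fun c =>
      pow_le_one₀ (by linarith [nb_le_one (F := F) h0 h1 c])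
        (by linarith [nb_nonneg (F := F) h0 c])
    have hM0' : 1 ≤ (1 + Sg) * (1 - Tri.M univ κ (fun c => nb F μ c) E 0) := by
      rw [hM0]
      have : 0 ≤ ∑ c, sab F s u a b c * (1 - (1 - nb F μ c) ^ E) :=
        sum_nonneg fun c _ => mul_nonneg (hsab c) (by linarith [hpi1 c])
      linarith
    have ha : (∑ c ∈ (univ : Finset ι), κ c * (nb F μ c * (1 - nb F μ c) ^ (E - 1)))
        * (2 - nb F μ b') ≤ (1 - Tri.M univ κ (fun c => nb F μ c) E 0) * (1 - nb F μ b') := by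
      have e1 : (∑ c ∈ (univ : Finset ι), κ c * (nb F μ c * (1 - nb F μ c) ^ (E - 1)))
          = (∑ c, sab F s u a b c * (nb F μ c * (1 - nb F μ c) ^ (E - 1))) / (1 + Sg) := by
        rw [hκ, sum_div]
        exact sum_congr rfl fun c _ => by ring
      rw [e1, div_mul_eq_mul_div, div_le_iff₀ hS1]
      have hR : 1 - nb F μ b' ≤ (1 - Tri.M univ κ (fun c => nb F μ c) E 0)
          * (1 - nb F μ b') * (1 + Sg) := by
        calc 1 - nb F μ b' = 1 * (1 - nb F μ b') := (one_mul _).symm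
          _ ≤ (1 + Sg) * (1 - Tri.M univ κ (fun c => nb F μ c) E 0) * (1 - nb F μ b') :=
            mul_le_mul_of_nonneg_right hM0' hypos'.le
          _ = _ := by ring
      refine le_trans ?_ hR
      have hP0 : 0 ≤ ∑ c, sab F s u a b c * (nb F μ c * (1 - nb F μ c) ^ (E - 1)) :=
        sum_nonneg fun c _ => mul_nonneg (hsab c) (mul_nonneg (nb_nonneg h0 c)
          (pow_nonneg (by linarith [nb_le_one (F := F) h0 h1 c]) _))
      have h3 : (∑ c, sab F s u a b c * (nb F μ c * (1 - nb F μ c) ^ (E - 1)))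
          * (2 - nb F μ b') ≤ P * (2 - nb F μ b') :=
        mul_le_mul_of_nonneg_right hP (by linarith)
      refine h3.trans ?_
      have hP0' : 0 ≤ P := hP0.trans hP
      -- `P (2 - n') ≤ 1 - n'` from the case `n' = x1`
      have h4 : P ≤ 1 - P := by
        by_contra hcon
        push Not at hcon
        nlinarith
      nlinarith
    have key := Tri.main (S := (univ : Finset ι)) (κ := κ) (x := fun c => nb F μ c) (E := E)
      (n := nb F μ b) (n' := nb F μ b') hκ0 (fun c _ => nb_nonneg h0 c)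
      (fun c _ => nb_le_one h0 h1 c) hnb hnb' hsum ha (j := j) (by omega)
    have hFeq : Tri.F univ κ (fun c => nb F μ c) E (nb F μ b) (nb F μ b') j
        = 1 - 1 / (1 + Sg) * ∑ c, sab F s u a b c *
          (kz (1 - nb F μ b') (nb F μ c) i * kz (1 - nb F μ b - nb F μ b') (nb F μ c) j) := by
      unfold Tri.F
      rw [hκ, mul_sum]
      congr 1
      refine sum_congr rfl fun c _ => ?_
      rw [kz_eq_tr hypos' rfl, kz_eq_tr hzpos (s := nb F μ b + nb F μ b') (by ring)]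
      have : E - j = i := by omega
      rw [this]
      ring
    have hbr2 : brj F G μ s a v u b b' = Tri.th (nb F μ b) (nb F μ b') ^ j
        * Tri.F univ κ (fun c => nb F μ c) E (nb F μ b) (nb F μ b') j := by
      rw [hbr, hFeq]
      rfl
    rw [hbr2]
    refine key.trans ?_
    have hd1 := hdiff (nb F μ b) hnb hb1
    have hd2 := hdiff (nb F μ b') hnb' hb2
    have hdM : ∀ t, (1 + Sg) * (Tri.M univ κ (fun c => nb F μ c) E 0
        - Tri.M univ κ (fun c => nb F μ c) E t)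
        = ∑ c, sab F s u a b c * ((1 - nb F μ c) ^ E - (max 0 (1 - nb F μ c / (1 - t))) ^ E) := by
      intro t
      rw [hM 0, hM t, ← sub_div, mul_div_cancel₀ _ hS1.ne', ← sum_sub_distrib]
      refine sum_congr rfl fun c _ => ?_
      rw [Tri.tr_zero (nb_le_one h0 h1 c), Tri.tr]
      ring
    rw [← hdM, ← hSg] at hd1 hd2
    rw [← hM0, ← hSg] at hzero
    have hc1 : Tri.M univ κ (fun c => nb F μ c) E 0 - Tri.M univ κ (fun c => nb F μ c) E (nb F μ b)
        ≤ (Al (nb F μ b) - 1) * om := by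
      have : (1 + Sg) * (Tri.M univ κ (fun c => nb F μ c) E 0
        - Tri.M univ κ (fun c => nb F μ c) E (nb F μ b))
        ≤ (1 + Sg) * ((Al (nb F μ b) - 1) * om) := by linarith
      exact le_of_mul_le_mul_left this hS1
    have hc2 : Tri.M univ κ (fun c => nb F μ c) E 0 - Tri.M univ κ (fun c => nb F μ c) E (nb F μ b')
        ≤ (Al (nb F μ b') - 1) * om := by
      have : (1 + Sg) * (Tri.M univ κ (fun c => nb F μ c) E 0
        - Tri.M univ κ (fun c => nb F μ c) E (nb F μ b'))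
        ≤ (1 + Sg) * ((Al (nb F μ b') - 1) * om) := by linarith
      exact le_of_mul_le_mul_left this hS1
    have hc3 : 1 - Tri.M univ κ (fun c => nb F μ c) E 0 ≤ om * (1 + z / 2) := by
      have : (1 + Sg) * (1 - Tri.M univ κ (fun c => nb F μ c) E 0)
        ≤ (1 + Sg) * (om * (1 + z / 2)) := by linarith
      exact le_of_mul_le_mul_left this hS1
    obtain ⟨p, hp⟩ : ∃ p, p = Al (nb F μ b) - 1 := ⟨_, rfl⟩
    obtain ⟨q, hq⟩ : ∃ q, q = Al (nb F μ b') - 1 := ⟨_, rfl⟩
    have hp0 : 0 ≤ p := by rw [hp]; linarith [hAl (nb F μ b)]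
    have hq0 : 0 ≤ q := by rw [hq]; linarith [hAl (nb F μ b')]
    have hA1 : Al (nb F μ b) = 1 + p := by rw [hp]; ring
    have hA2 : Al (nb F μ b') = 1 + q := by rw [hq]; ring
    rw [← hp] at hc1
    rw [← hq] at hc2
    rw [hA1, hA2]
    have hom2 : om ≤ om * (1 + z / 2) := le_mul_of_one_le_right hom (by linarith)
    have h5 : p * om ≤ p * (om * (1 + z / 2)) := mul_le_mul_of_nonneg_left hom2 hp0
    have h6 : q * om ≤ q * (om * (1 + z / 2)) := mul_le_mul_of_nonneg_left hom2 hq0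
    have h7 : 0 ≤ p * q * (om * (1 + z / 2)) := mul_nonneg (mul_nonneg hp0 hq0) hoz
    have h8 : (1 + p) * (om * (1 + z / 2) * (1 + q))
        = om * (1 + z / 2) + p * (om * (1 + z / 2)) + q * (om * (1 + z / 2))
          + p * q * (om * (1 + z / 2)) := by ring
    rw [h8]
    linarith

theorem sab_cut_eqG (B : V → Finset ι) (w : ι → ℝ) (lam nuh : V → ℝ) (f : V → ℝ → ℝ)
    (u : V) (a b c : ι) :
    sab F (cut F μ (rate F G μ w fun v b => lam v * prg F μ (B v) (f v) b) nuh) u a b c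
      = rhoG (B u) (univ.filter (F.Adj b)) (univ.filter (F.Adj a)) w (fun b => nb F μ b)
        (lam u) (f u) (nuh u) #(nbh G u) c := by
  unfold sab cut rhoG rate
  by_cases h1 : F.Adj b c
  · rw [if_pos (Or.inl h1), if_neg]
    rintro ⟨_, h, _⟩
    exact h (by simp [h1])
  by_cases h2 : F.Adj a c
  · rw [if_pos (Or.inr h2), if_neg]
    rintro ⟨_, _, h, _⟩
    exact h (by simp [h2])
  rw [if_neg (by tauto)]
  by_cases h3 : c ∈ B u
  · by_cases h4 : nb F μ c ≤ nuh u
    · rw [if_pos h4, if_pos ⟨h3, by simp [h1], by simp [h2], h4⟩]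
      have e : prg F μ (B u) (f u) c = f u (nb F μ c) := by rw [prg, if_pos h3]
      simp only [e]
      ring
    · rw [if_neg h4, if_neg fun h => h4 h.2.2.2]
  · have e : prg F μ (B u) (f u) c = 0 := by rw [prg, if_neg h3]
    have e2 : ¬ (c ∈ B u ∧ c ∉ univ.filter (F.Adj b) ∧ c ∉ univ.filter (F.Adj a)
      ∧ (fun b => nb F μ b) c ≤ nuh u) := fun h => h3 h.1
    rw [if_neg e2]
    simp only [e, mul_zero, zero_div, ite_self]

/-- `∑ w f` over the list. -/
theorem sum_prg (B : Finset ι) (w : ι → ℝ) (f : ℝ → ℝ) :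
    ∑ c ∈ B, w c * f (nb F μ c) = ∑ b, w b * prg F μ B f b := by
  rw [← sum_subset (subset_univ B) (f := fun b => w b * prg F μ B f b) fun b _ hb => by
      rw [prg, if_neg hb, mul_zero]]
  exact sum_congr rfl fun b hb => by rw [prg, if_pos hb]

/-- `P` over the list. -/
theorem PG_eq (B : Finset ι) (w : ι → ℝ) (Al f : ℝ → ℝ) :
    PG B w (fun b => nb F μ b) Al f
      = ∑ b, w b * (prg F μ B f b ^ 2 * (Al (nb F μ b) ^ 2 / (1 - nb F μ b))) := by
  unfold PG
  rw [← sum_subset (subset_univ B) (f := fun b => w b * (prg F μ B f b ^ 2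
    * (Al (nb F μ b) ^ 2 / (1 - nb F μ b)))) fun b _ hb => by
      rw [prg, if_neg hb]; simp]
  refine sum_congr rfl fun b hb => ?_
  rw [prg, if_pos hb]
  ring

/-- `P` over the neighbours of `a`. -/
theorem PGS_eq (B : Finset ι) (w : ι → ℝ) (Al f : ℝ → ℝ) (a : ι) :
    PG (B ∩ univ.filter (F.Adj a)) w (fun b => nb F μ b) Al f
      = ∑ b, if F.Adj a b then
        w b * (prg F μ B f b ^ 2 * (Al (nb F μ b) ^ 2 / (1 - nb F μ b))) else 0 := by
  unfold PG
  rw [← sum_subset (subset_univ (B ∩ univ.filter (F.Adj a)))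
    (f := fun b => if F.Adj a b then
      w b * (prg F μ B f b ^ 2 * (Al (nb F μ b) ^ 2 / (1 - nb F μ b))) else 0) fun b _ hb => by
      by_cases hab : F.Adj a b
      · have hbB : b ∉ B := fun h => hb (mem_inter.2 ⟨h, by simp [hab]⟩)
        rw [if_pos hab, prg, if_neg hbB]; simp
      · rw [if_neg hab]]
  refine sum_congr rfl fun b hb => ?_
  have h1 := (mem_inter.1 hb).1
  have h2 : F.Adj a b := by simpa using (mem_inter.1 hb).2
  rw [if_pos h2, prg, if_pos h1]
  ring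

/-- `(1 + z/2)² (P - P_S) ≤ P`. -/
theorem rem_leG {P PS : ℝ} (h0 : 0 ≤ PS) (h1 : PS ≤ P) :
    (1 + PS / P / 2) ^ 2 * (P - PS) ≤ P := by
  have hP : 0 ≤ P := h0.trans h1
  rcases hP.lt_or_eq with hpos | hz
  · obtain ⟨z, hz⟩ : ∃ z, z = PS / P := ⟨_, rfl⟩
    have h3 : PS = z * P := by rw [hz, div_mul_cancel₀ _ hpos.ne']
    have h4 : 0 ≤ z := by rw [hz]; exact div_nonneg h0 hP
    rw [← hz, h3]
    have h5 : (1 + z / 2) ^ 2 * (1 - z) ≤ 1 := by
      nlinarith [mul_nonneg h4 h4, mul_nonneg (mul_nonneg h4 h4) h4]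
    calc _ = ((1 + z / 2) ^ 2 * (1 - z)) * P := by ring
      _ ≤ 1 * P := mul_le_mul_of_nonneg_right h5 hP
      _ = _ := one_mul _
  · rw [← hz] at h1 ⊢
    have : PS = 0 := le_antisymm h1 h0
    rw [this]; simp

/-- **The lower bound with numeric conditions, arbitrary profiles.** -/
theorem sum_pairB_ge_num (h0 : ∀ x, 0 ≤ μ x) (h1 : ∑ x, μ x = 1) (hF : F.CliqueFree 3)
    {w : ι → ℝ} {σ ξ : ℝ} {Al : ℝ → ℝ} (hξ : 0 < ξ) (hAl : ∀ x, 1 ≤ Al x)
    (hw : ∀ b, 0 ≤ w b) (hσ0 : 0 ≤ σ)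
    (hσa : ∀ a, 0 < μ a → (∑ c, if F.Adj a c then w c else 0) ≤ σ)
    (B : V → Finset ι) {lam om um X C nuh : V → ℝ} {f : V → ℝ → ℝ}
    (hσb : ∀ b, 0 < w b → (∃ v, b ∈ B v ∧ 0 < f v (nb F μ b)) →
      (∑ c, if F.Adj b c then w c else 0) ≤ σ * (1 - nb F μ b))
    (hV : ∀ v, VtxG (∑ b ∈ B v, w b) (∑ b, w b * prg F μ (B v) (f v) b) σ (lam v) (om v) (um v) (X v) (C v) (nuh v) ξ Al (f v)
      #(nbh G v))
    {a : ι} (ha : 0 < μ a) :
    ∑ v, (2 * (lam v * ∑ b, w b * prg F μ (B v) (f v) b)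
      - lam v ^ 2 * ((∑ b, w b * prg F μ (B v) (f v) b) ^ 2
      + σ * C v * (∑ b, w b * prg F μ (B v) (f v) b)
      + σ ^ 2 * C v ^ 2 * X v ^ 2 / (4 * KZero.ss #(nbh G v) (um v))))
      ≤ ∑ v, pairB F G μ (rate F G μ w fun v b => lam v * prg F μ (B v) (f v) b)
        (brj F G μ (cut F μ (rate F G μ w fun v b => lam v * prg F μ (B v) (f v) b) nuh) a)
        a v := by
  have hl : ∀ v b, 0 ≤ prg F μ (B v) (f v) b := fun v b => prg_nonneg (hV v).f0 b
  have hn : ∀ v b, 0 < prg F μ (B v) (f v) b → nb F μ b < 1 := fun v b h =>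
    (hV v).f1 _ (prg_pos h).2
  have hr : ∀ u c, 0 ≤ rate F G μ w (fun v b => lam v * prg F μ (B v) (f v) b) u c :=
    fun u c => rate_nonneg h0 h1 hw (fun v b => mul_nonneg (hV v).lam0 (hl v b)) u c
  have hs := cut_nonneg (F := F) (μ := μ) hr nuh
  obtain ⟨z, hz⟩ : ∃ z : V → ℝ, z = fun u => PG (B u ∩ univ.filter (F.Adj a)) w
      (fun b => nb F μ b) Al (f u) / PG (B u) w (fun b => nb F μ b) Al (f u) := ⟨_, rfl⟩
  have hterm : ∀ v b, 0 ≤ w b * (prg F μ (B v) (f v) b ^ 2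
      * (Al (nb F μ b) ^ 2 / (1 - nb F μ b))) := by
    intro v b
    rcases (hl v b).lt_or_eq with hpos | hz'
    · have : 0 < 1 - nb F μ b := by linarith [hn v b hpos]
      exact mul_nonneg (hw b) (by positivity)
    · rw [← hz']; simp
  have hPS0 : ∀ u, 0 ≤ PG (B u ∩ univ.filter (F.Adj a)) w (fun b => nb F μ b) Al (f u) := by
    intro u
    rw [PGS_eq]
    exact sum_nonneg fun b _ => by
      split_ifs
      · exact hterm u b
      · exact le_rfl
  have hPSP : ∀ u, PG (B u ∩ univ.filter (F.Adj a)) w (fun b => nb F μ b) Al (f u)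
      ≤ PG (B u) w (fun b => nb F μ b) Al (f u) := by
    intro u
    rw [PGS_eq, PG_eq]
    exact sum_le_sum fun b _ => by
      split_ifs
      · exact le_rfl
      · exact hterm u b
  have hz0 : ∀ u, 0 ≤ z u := fun u => by
    rw [hz]; exact div_nonneg (hPS0 u) ((hPS0 u).trans (hPSP u))
  refine sum_pairB_ge_profile (al := fun _ b => Al (nb F μ b))
    (be := fun u b => if F.Adj a b then 0 else om u * (1 + z u / 2) * Al (nb F μ b))
    (om := fun u b => om u * Al (nb F μ b)) (Al := fun b => Al (nb F μ b))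
    h0 h1 hξ (fun v => (hV v).um0) (fun v => (hV v).um1) hw (fun v => (hV v).lam0) hl hn hσ0 hσa
    (fun b hb hv => hσb b hb (by
      obtain ⟨v, hv⟩ := hv
      exact ⟨v, prg_pos hv⟩))
    (fun _ b => by linarith [hAl (nb F μ b)]) ?_ (fun _ _ => le_rfl) ?_ ?_
    (fun v => (hV v).X0) ?_
  · intro u b
    split_ifs
    · exact le_rfl
    · exact mul_nonneg (mul_nonneg (hV u).om0 (by linarith [hz0 u]))
        (by linarith [hAl (nb F μ b)])
  · intro v u b b' hG hF' hab hb hb' hlv hlu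
    rw [if_neg hab]
    have hd : 1 ≤ #(nbh G u) := card_pos.2 ⟨v, mem_nbh.2 hG.symm⟩
    have hnb1 := hn v b hlv
    have hnb1' := hn u b' hlu
    have hnb := nb_nonneg (F := F) h0 b
    have hnb' := nb_nonneg (F := F) h0 b'
    have hsab : ∀ c, 0 ≤ sab F (cut F μ (rate F G μ w
      fun v b => lam v * prg F μ (B v) (f v) b) nuh) u a b c := fun c => sab_nonneg hs u a b c
    rcases (hV u).kill hd with hom |
      ⟨B', th, rho, a1, m1, g0, g1, kap, k0, k1, k2, k3, F2, x1, hM⟩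
    · -- the trivial bound
      have hcod := cod_eq_zero (μ := μ) hF hF'
      have hzz : 0 ≤ 1 - nb F μ b - nb F μ b' := by
        have := fr_pair_nonneg (F := F) h0 h1 b b'
        rw [hcod, add_zero] at this
        exact this
      have hth0 : 0 ≤ (1 - nb F μ b - nb F μ b') / ((1 - nb F μ b) * (1 - nb F μ b')) :=
        div_nonneg hzz (mul_nonneg (by linarith) (by linarith))
      have hth1 : (1 - nb F μ b - nb F μ b') / ((1 - nb F μ b) * (1 - nb F μ b')) ≤ 1 := by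
        have : 0 < (1 - nb F μ b) * (1 - nb F μ b') := mul_pos (by linarith) (by linarith)
        rw [div_le_one this]
        nlinarith [mul_nonneg hnb hnb']
      have h2 : brj F G μ (cut F μ (rate F G μ w
          fun v b => lam v * prg F μ (B v) (f v) b) nuh) a v u b b' ≤ 1 := by
        unfold brj
        have hS : 0 ≤ ∑ c, sab F (cut F μ (rate F G μ w
            fun v b => lam v * prg F μ (B v) (f v) b) nuh) u a b c :=
          sum_nonneg fun c _ => hsab c
        have h3 : 0 ≤ 1 / (1 + ∑ c, sab F (cut F μ (rate F G μ w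
            fun v b => lam v * prg F μ (B v) (f v) b) nuh) u a b c) * ∑ c,
            sab F (cut F μ (rate F G μ w fun v b => lam v * prg F μ (B v) (f v) b) nuh) u a b c *
            (kz (1 - nb F μ b') (nb F μ c) (#(nbh G u \ nbh G v) - 1)
              * kz (1 - nb F μ b - nb F μ b') (nb F μ c) #(nbh G v ∩ nbh G u)) :=
          mul_nonneg (one_div_nonneg.2 (by linarith)) (sum_nonneg fun c _ =>
            mul_nonneg (hsab c) (mul_nonneg (kz_nonneg _ _ _) (kz_nonneg _ _ _)))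
        have h4 := pow_le_one₀ (n := #(nbh G v ∩ nbh G u)) hth0 hth1
        have h5 := pow_nonneg hth0 #(nbh G v ∩ nbh G u)
        calc _ ≤ ((1 - nb F μ b - nb F μ b') / ((1 - nb F μ b) * (1 - nb F μ b')))
              ^ #(nbh G v ∩ nbh G u) * 1 := mul_le_mul_of_nonneg_left (by linarith) h5
          _ ≤ 1 := by linarith
      have h6 := hAl (nb F μ b)
      have h7 := hAl (nb F μ b')
      have h8 : 1 ≤ om u * (1 + z u / 2) := by
        have := mul_le_mul hom (by linarith [hz0 u] : (1:ℝ) ≤ 1 + z u / 2) zero_le_one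
          (by linarith)
        linarith
      have h9 : 1 ≤ om u * (1 + z u / 2) * Al (nb F μ b') := by
        have := mul_le_mul h8 h7 zero_le_one (by linarith)
        linarith
      have h10 := mul_le_mul h6 h9 zero_le_one (by linarith)
      linarith
    · have e1 : ∀ c, sab F (cut F μ (rate F G μ w
          fun v b => lam v * prg F μ (B v) (f v) b) nuh) u a b c
          = rhoG (B u) (univ.filter (F.Adj b)) (univ.filter (F.Adj a)) w
            (fun b => nb F μ b) (lam u) (f u) (nuh u) #(nbh G u) c :=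
        fun c => sab_cut_eqG B w lam nuh f u a b c
      have hwn : ∑ c ∈ B u, w c * nb F μ c ≤ σ := by
        calc ∑ c ∈ B u, w c * nb F μ c ≤ ∑ c, w c * nb F μ c :=
              sum_le_sum_of_subset_of_nonneg (subset_univ _) fun c _ _ =>
                mul_nonneg (hw c) (nb_nonneg h0 c)
          _ ≤ σ := sum_nb_le h0 h1 hσa
      have hNb : ∑ c ∈ B u ∩ univ.filter (F.Adj b), w c ≤ σ := by
        calc ∑ c ∈ B u ∩ univ.filter (F.Adj b), w c ≤ ∑ c ∈ univ.filter (F.Adj b), w c :=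
              sum_le_sum_of_subset_of_nonneg inter_subset_right fun c _ _ => hw c
          _ = ∑ c, (if F.Adj b c then w c else 0) := by rw [sum_filter]
          _ ≤ σ * (1 - nb F μ b) := hσb b hb ⟨v, prg_pos hlv⟩
          _ ≤ σ := mul_le_of_le_one_right hσ0 (by linarith)
      have hNa : ∑ c ∈ B u ∩ univ.filter (F.Adj a), w c ≤ σ := by
        calc ∑ c ∈ B u ∩ univ.filter (F.Adj a), w c ≤ ∑ c ∈ univ.filter (F.Adj a), w c :=
              sum_le_sum_of_subset_of_nonneg inter_subset_right fun c _ _ => hw c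
          _ = ∑ c, (if F.Adj a c then w c else 0) := by rw [sum_filter]
          _ ≤ σ := hσa a ha
      refine brj_le (x1 := x1) (P := lam u * F2 * σ) h0 h1 hs hG hAl (hz0 u) (hV u).om0 hM.hx1
        hnb1 hnb1' hF' hF hM.AL ?_ ?_ ?_ hM.N4
      · simp only [e1]
        have key := muj_zero (U := B u) (Nb := univ.filter (F.Adj b))
          (S := univ.filter (F.Adj a)) (w := w) (n := fun b => nb F μ b) (lam := lam u)
          (f := f u) (nuh := nuh u) (d := #(nbh G u)) (sg := σ) (mu := 1 - om u) (om := om u)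
          (B := B') (th := th) (rho := rho) (a1 := a1) (m1 := m1) (g0 := g0) (g1 := g1)
          (kap := kap) (Al := Al)
          (fun c _ => hw c) (fun c _ => nb_nonneg h0 c) (fun c _ => nb_le_one h0 h1 c)
          hwn hNb hNa hM.hd (hV u).f0 hM.hnuh1 hM.hlam hM.hth0 hM.hB (hV u).om0
          (by ring) hM.hm1 hM.hkap hM.M1 hM.M1x hM.M1' hM.M3 hM.A0 hM.A0' hM.A2
          (by rw [SF, sum_prg]; exact hM.N1) (by rw [SF, sum_prg]; exact hM.N2)
        rw [hz]
        exact key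
      · intro t ht0 ht1
        simp only [e1]
        exact muj_diff (U := B u) (Nb := univ.filter (F.Adj b))
          (S := univ.filter (F.Adj a)) (w := w) (n := fun b => nb F μ b) (lam := lam u)
          (f := f u) (nuh := nuh u) (d := #(nbh G u)) (om := om u) (k0 := k0) (k1 := k1)
          (k2 := k2) (k3 := k3) (s := t)
          (δ := Al t - 1) (fun c _ => hw c) (fun c _ => nb_nonneg h0 c)
          (fun c _ => nb_le_one h0 h1 c) hwn hNb hNa hM.hd hM.hlam
          (by linarith [hAl t]) hM.hk2 hM.hk3 hM.K0 hM.K1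
          (fun x hx0 hx1 => hM.S1 t x ht0 ht1 hx0 hx1) (by rw [SF, sum_prg]; exact hM.N3)
      · simp only [e1]
        rw [sum_rhoG]
        calc _ ≤ ∑ c ∈ actG (B u) (univ.filter (F.Adj b)) (univ.filter (F.Adj a))
              (fun b => nb F μ b) (nuh u), lam u * w c * (F2 * nb F μ c) := by
              refine sum_le_sum fun c hc => ?_
              have hcT : c ∈ B u ∧ c ∉ univ.filter (F.Adj b) ∧ c ∉ univ.filter (F.Adj a)
                  ∧ nb F μ c ≤ nuh u := by
                rw [actG] at hc; exact ⟨(mem_filter.1 hc).1, (mem_filter.1 hc).2⟩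
              have hy : 0 < 1 - nb F μ c := by have := hM.hnuh1; linarith [hcT.2.2.2]
              have hy1 : 1 - nb F μ c ≤ 1 := by linarith [nb_nonneg (F := F) h0 c]
              have hn0 := nb_nonneg (F := F) h0 c
              have hF2 := hM.F2b (nb F μ c) hn0 hcT.2.2.2
              have hfc := (hV u).f0 (nb F μ c)
              have h3 : f u (nb F μ c) / (1 - nb F μ c) ^ #(nbh G u)
                  * (1 - nb F μ c) ^ (#(nbh G u) - 1 - 1) ≤ F2 := by
                refine le_trans ?_ hF2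
                rw [div_mul_eq_mul_div, div_le_div_iff₀ (by positivity) (by positivity)]
                have h4 : (1 - nb F μ c) ^ (#(nbh G u) - 1 - 1) * (1 - nb F μ c) ^ 2
                    ≤ (1 - nb F μ c) ^ #(nbh G u) := by
                  rw [← pow_add]
                  exact pow_le_pow_of_le_one hy.le hy1 (by omega)
                calc _ = f u (nb F μ c) * ((1 - nb F μ c) ^ (#(nbh G u) - 1 - 1)
                      * (1 - nb F μ c) ^ 2) := by ring
                  _ ≤ _ := mul_le_mul_of_nonneg_left h4 hfc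
              calc _ = lam u * w c * (nb F μ c * (f u (nb F μ c)
                    / (1 - nb F μ c) ^ #(nbh G u)
                    * (1 - nb F μ c) ^ (#(nbh G u) - 1 - 1))) := by ring
                _ ≤ lam u * w c * (nb F μ c * F2) :=
                  mul_le_mul_of_nonneg_left (mul_le_mul_of_nonneg_left h3 hn0)
                    (mul_nonneg (hV u).lam0 (hw c))
                _ = _ := by ring
          _ ≤ ∑ c ∈ B u, lam u * w c * (F2 * nb F μ c) := by
              refine sum_le_sum_of_subset_of_nonneg (filter_subset _ _) fun c _ _ => ?_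
              exact mul_nonneg (mul_nonneg (hV u).lam0 (hw c))
                (mul_nonneg hM.hF0 (nb_nonneg h0 c))
          _ = lam u * F2 * ∑ c ∈ B u, w c * nb F μ c := by
              rw [mul_sum]; exact sum_congr rfl fun c _ => by ring
          _ ≤ lam u * F2 * σ :=
              mul_le_mul_of_nonneg_left hwn (mul_nonneg (hV u).lam0 hM.hF0)
  · intro v
    have e1 : ∑ b, w b * (prg F μ (B v) (f v) b ^ 2 * ((if F.Adj a b then 0 else
        om v * (1 + z v / 2) * Al (nb F μ b)) ^ 2 / (1 - nb F μ b)))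
        = om v ^ 2 * ((1 + z v / 2) ^ 2
          * (PG (B v) w (fun b => nb F μ b) Al (f v)
            - PG (B v ∩ univ.filter (F.Adj a)) w (fun b => nb F μ b) Al (f v))) := by
      rw [PG_eq, PGS_eq, ← sum_sub_distrib, mul_sum, mul_sum]
      refine sum_congr rfl fun b _ => ?_
      by_cases hab : F.Adj a b
      · rw [if_pos hab, if_pos hab]; simp
      · rw [if_neg hab, if_neg hab]; ring
    have e2 : ∑ b, w b * (prg F μ (B v) (f v) b ^ 2 * ((om v * Al (nb F μ b)) ^ 2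
        / (1 - nb F μ b))) = om v ^ 2 * PG (B v) w (fun b => nb F μ b) Al (f v) := by
      rw [PG_eq, mul_sum]
      exact sum_congr rfl fun b _ => by ring
    rw [e1, e2, hz]
    exact mul_le_mul_of_nonneg_left (rem_leG (hPS0 v) (hPSP v)) (sq_nonneg _)
  · intro v b hb hlb
    obtain ⟨hbB, hfb⟩ := prg_pos hlb
    have := (hV v).prof (nb F μ b) (nb_nonneg h0 b) (hn v b hlb) hfb
    rw [prg, if_pos hbB]
    exact this

end Pool.Agent.T6A
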