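import Pool.Agent.T6A.Bern
import Pool.Agent.T6A.Expect9
import Pool.Agent.T6A.MuB

/-!
# Project T6A, CERT v3: the profile inequality (MP_c6effb_co)

`prof_of`: the field `VtxG.prof` for a linear profile `lf N`, from two inequalities P1, P2 in the
variable `o = x / (1 - x)`. `row` is the machine check of P1 and P2 for one degree and `row_prof` the
theorem for the table. Parameters: `Al x = min am (1 + c x / (1 - x))`, `X`, reference `E0 ≤ ξ`,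
`E0 ≤ (ξ + om ^ 2 / ξ) / 2`.
-/

set_option autoImplicit false

namespace Pool.Agent.T6A.Cert3

namespace ProfG

open Bern

noncomputable section

/-- the edge factor in the variable `o = x / (1 - x)` -/
def Alo (am c o : ℝ) : ℝ := min am (1 + c * o)

/-- the edge factor -/
def AlR (am c x : ℝ) : ℝ := min am (1 + c * (x / (1 - x)))

/-- (P1) in the variable `o` -/
def P1o (d : ℕ) (N um am c X E0 : ℝ) : Prop := ∀ o : ℝ, 0 ≤ o → (N - 1) * o ≤ 1 →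
  (1 + o - N * o) * (2 * ((1 + o) ^ d - 1 + KZero.ss d um * (min o um) ^ 2) * (1 + o) +
    d * E0 * Alo am c o ^ 2 * (1 + (1 + o) ^ 2)) ≤ 2 * d * E0 * (1 + X * min o um) * (1 + o) ^ 2

/-- (P2) in the variable `o` -/
def P2o (N um am c X : ℝ) : Prop := ∀ o : ℝ, 0 ≤ o → (N - 1) * o ≤ 1 →
  (1 + o - N * o) * Alo am c o ^ 2 ≤ 1 + X * min o um

theorem Alo_pos {am c o : ℝ} (ham : 1 ≤ am) (hc : 0 ≤ c) (ho : 0 ≤ o) : 0 < Alo am c o :=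
  lt_min (by linarith) (by have := mul_nonneg hc ho; linarith)

/-- **The profile inequality** from P1 and P2. -/
theorem prof_of {d : ℕ} {N um am c X E0 ξ om : ℝ} (hum : 0 < um) (hum1 : um ≤ 1)
    (ham : 1 ≤ am) (hc : 0 ≤ c) (hX : 0 ≤ X) (hE0 : 0 < E0)
    (h1 : P1o d N um am c X E0) (h2 : P2o N um am c X) (hξ : E0 ≤ ξ)
    (hE : E0 ≤ (ξ + om ^ 2 / ξ) / 2) :
    ∀ x, 0 ≤ x → x < 1 → 0 < lf N x →
    lf N x * ((d : ℝ) * ((ξ * (AlR am c x ^ 2 * (1 - x)) +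
        ξ⁻¹ * ((om * AlR am c x) ^ 2 / (1 - x))) / 2)
      + (((1 - x)⁻¹) ^ d - 1 + KZero.ss d um * KZero.ut um x ^ 2))
      ≤ (d * ((ξ + om ^ 2 / ξ) / 2)) * (1 + X * KZero.ut um x) := by
  intro x hx0 hx1 hf
  have hy : 0 < 1 - x := by linarith
  have hξ0 : 0 < ξ := by linarith
  have hd0 : (0 : ℝ) ≤ d := Nat.cast_nonneg d
  have hlf : lf N x = 1 - N * x := by
    unfold lf at hf ⊢
    rcases le_total 0 (1 - N * x) with h | h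
    · exact max_eq_right h
    · rw [max_eq_left h] at hf
      exact absurd hf (lt_irrefl _)
  rw [hlf] at hf ⊢
  obtain ⟨o, ho⟩ : ∃ o, o = x / (1 - x) := ⟨_, rfl⟩
  have ho0 : 0 ≤ o := by rw [ho]; exact div_nonneg hx0 hy.le
  have ho1 : 0 < 1 + o := by linarith
  have hinv : (1 - x)⁻¹ = 1 + o := by rw [ho]; field_simp; ring
  have hy1 : 1 - x = (1 + o)⁻¹ := by rw [← hinv, inv_inv]
  have hxo : x = o / (1 + o) := by
    have : x = 1 - (1 + o)⁻¹ := by rw [← hy1]; ring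
    rw [this]; field_simp; ring
  have hNx : 1 - N * x = (1 + o - N * o) / (1 + o) := by
    rw [hxo]; field_simp
  have hNo : 0 < 1 + o - N * o := by
    rw [hNx] at hf
    exact (div_pos_iff_of_pos_right ho1).1 hf
  have hNo' : (N - 1) * o ≤ 1 := by linarith
  have hAl : AlR am c x = Alo am c o := by unfold AlR Alo; rw [ho]
  have hut : KZero.ut um x = min o um := by unfold KZero.ut; rw [ho]
  obtain ⟨u, hu⟩ : ∃ u, u = min o um := ⟨_, rfl⟩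
  have hu0 : 0 ≤ u := by rw [hu]; exact le_min ho0 hum.le
  have hP1 := h1 o ho0 hNo'
  have hP2 := h2 o ho0 hNo'
  rw [← hu] at hP1 hP2
  rw [hAl, hut, ← hu, hinv, hNx, hy1]
  obtain ⟨a, ha⟩ : ∃ a, a = Alo am c o ^ 2 := ⟨_, rfl⟩
  have ha0 : 0 < a := by rw [ha]; exact pow_pos (Alo_pos ham hc ho0) 2
  rw [← ha] at hP1 hP2
  have hss : 0 ≤ KZero.ss d um := by
    unfold KZero.ss
    have h3 : (1 - um ^ 2) ^ d ≤ 1 := by
      apply pow_le_one₀ <;> nlinarith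
    exact div_nonneg (by linarith) (by positivity)
  obtain ⟨S, hS⟩ : ∃ S, S = (1 + o) ^ d - 1 + KZero.ss d um * u ^ 2 := ⟨_, rfl⟩
  have hS0 : 0 ≤ S := by
    have h3 : 1 ≤ (1 + o) ^ d := one_le_pow₀ (by linarith)
    have h4 : 0 ≤ KZero.ss d um * u ^ 2 := mul_nonneg hss (by positivity)
    rw [hS]; linarith
  rw [← hS] at hP1 ⊢
  obtain ⟨q, hq⟩ : ∃ q, q = om ^ 2 / ξ := ⟨_, rfl⟩
  rw [← hq] at hE ⊢
  have hq0 : 0 ≤ q := by rw [hq]; positivity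
  have e1 : ξ⁻¹ * ((om * Alo am c o) ^ 2 / (1 + o)⁻¹) = q * a * (1 + o) := by
    rw [hq, ha]; field_simp
  rw [e1, ← ha]
  obtain ⟨p, hp⟩ : ∃ p, p = 1 + o - N * o := ⟨_, rfl⟩
  rw [← hp] at hNo hP1 hP2 ⊢
  have e2 : p / (1 + o) * ((d : ℝ) * ((ξ * (a * (1 + o)⁻¹) + q * a * (1 + o)) / 2) + S) =
      p * (d * a * (ξ + q * (1 + o) ^ 2) + 2 * S * (1 + o)) / (2 * (1 + o) ^ 2) := by
    field_simp
  rw [e2, div_le_iff₀ (by positivity)]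
  have hR0 : 0 ≤ 1 + X * u := by have := mul_nonneg hX hu0; linarith
  rcases le_total q ξ with hqx | hqx
  · -- `q ≤ ξ`
    have h3 : ξ + q * (1 + o) ^ 2 ≤ (ξ + q) / 2 * (1 + (1 + o) ^ 2) := by
      have : 0 ≤ (ξ - q) * ((1 + o) ^ 2 - 1) := mul_nonneg (by linarith) (by nlinarith)
      nlinarith
    have h4 : E0 * (2 * S * (1 + o)) ≤ (ξ + q) / 2 * (2 * S * (1 + o)) :=
      mul_le_mul_of_nonneg_right hE (by positivity)
    have h5 : E0 * (d * a * (ξ + q * (1 + o) ^ 2) + 2 * S * (1 + o)) ≤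
        (ξ + q) / 2 * (2 * S * (1 + o) + d * E0 * a * (1 + (1 + o) ^ 2)) := by
      have : E0 * d * a * (ξ + q * (1 + o) ^ 2) ≤
          E0 * d * a * ((ξ + q) / 2 * (1 + (1 + o) ^ 2)) :=
        mul_le_mul_of_nonneg_left h3 (by positivity)
      nlinarith
    have h6 : E0 * (p * (d * a * (ξ + q * (1 + o) ^ 2) + 2 * S * (1 + o))) ≤
        E0 * (d * ((ξ + q) / 2) * (1 + X * u) * (2 * (1 + o) ^ 2)) := by
      calc E0 * (p * (d * a * (ξ + q * (1 + o) ^ 2) + 2 * S * (1 + o)))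
          = p * (E0 * (d * a * (ξ + q * (1 + o) ^ 2) + 2 * S * (1 + o))) := by ring
        _ ≤ p * ((ξ + q) / 2 * (2 * S * (1 + o) + d * E0 * a * (1 + (1 + o) ^ 2))) :=
          mul_le_mul_of_nonneg_left h5 hNo.le
        _ = (ξ + q) / 2 * (p * (2 * S * (1 + o) + d * E0 * a * (1 + (1 + o) ^ 2))) := by ring
        _ ≤ (ξ + q) / 2 * (2 * d * E0 * (1 + X * u) * (1 + o) ^ 2) :=
          mul_le_mul_of_nonneg_left hP1 (by positivity)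
        _ = _ := by ring
    exact le_of_mul_le_mul_left h6 hE0
  · -- `ξ ≤ q`
    have h3 : E0 * (p * (d * a * (ξ * (1 + (1 + o) ^ 2)) + 2 * S * (1 + o))) ≤
        E0 * (d * ξ * (1 + X * u) * (2 * (1 + o) ^ 2)) := by
      have h4 : E0 * (2 * S * (1 + o)) ≤ ξ * (2 * S * (1 + o)) :=
        mul_le_mul_of_nonneg_right hξ (by positivity)
      calc E0 * (p * (d * a * (ξ * (1 + (1 + o) ^ 2)) + 2 * S * (1 + o)))
          = p * (E0 * (d * a * (ξ * (1 + (1 + o) ^ 2))) + E0 * (2 * S * (1 + o))) := by ring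
        _ ≤ p * (E0 * (d * a * (ξ * (1 + (1 + o) ^ 2))) + ξ * (2 * S * (1 + o))) :=
            mul_le_mul_of_nonneg_left (by linarith) hNo.le
        _ = ξ * (p * (2 * S * (1 + o) + d * E0 * a * (1 + (1 + o) ^ 2))) := by ring
        _ ≤ ξ * (2 * d * E0 * (1 + X * u) * (1 + o) ^ 2) :=
            mul_le_mul_of_nonneg_left hP1 hξ0.le
        _ = _ := by ring
    have h3' := le_of_mul_le_mul_left h3 hE0
    have h6 : (q - ξ) * (1 + o) ^ 2 * d * (p * a) ≤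
        (q - ξ) * (1 + o) ^ 2 * d * (1 + X * u) := by
      apply mul_le_mul_of_nonneg_left hP2
      have : 0 ≤ q - ξ := by linarith
      positivity
    nlinarith

end

/-! ### The machine -/

/-- `ss d (U1 / U2)` -/
def ssx (d U1 U2 : ℕ) : Ex := Ex.q (Int.ofNat (Nat.mul (Nat.mul U2 U2)
  (Nat.sub (Nat.pow (Nat.mul U2 U2) d) (Nat.pow (Nat.sub (Nat.mul U2 U2) (Nat.mul U1 U1)) d))))
  (Nat.mul (Nat.mul U1 U1) (Nat.pow (Nat.mul U2 U2) d))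

/-- `ss d um * um ^ 2 = 1 - (1 - um ^ 2) ^ d` -/
def ssu (d U1 U2 : ℕ) : Ex := 1 - Ex.q (Int.ofNat (Nat.pow (Nat.sub (Nat.mul U2 U2)
  (Nat.mul U1 U1)) d)) (Nat.pow (Nat.mul U2 U2) d)

/-- P1 for given `N`, `E0`, `ss * ut ^ 2`, `Al ^ 2`, `1 + X ut` -/
def eP1 (d : ℕ) (N E0 s a r : Ex) : Ex :=
  Ex.nat (Nat.mul 2 d) * E0 * r * (1 + Ex.x 0) ^ 2 -
    (1 + Ex.x 0 - N * Ex.x 0) *
      (Ex.nat 2 * ((1 + Ex.x 0) ^ d - 1 + s) * (1 + Ex.x 0) +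
        Ex.nat d * E0 * a * (1 + (1 + Ex.x 0) ^ 2))

/-- P2 -/
def eP2 (N a r : Ex) : Ex := r - (1 + Ex.x 0 - N * Ex.x 0) * a

/-- one piece -/
def piece (d : ℕ) (N E0 s a r : Ex) (l rr m : ℕ) : Bool :=
  chk 6 (eP1 d N E0 s a r) [⟨Int.ofNat l, Int.ofNat rr, m⟩] &&
    chk 6 (eP2 N a r) [⟨Int.ofNat l, Int.ofNat rr, m⟩]

/-- The check for one degree: `N = N1 / N2`, `um = U1 / U2`, `c = c1 / c2`, `am = a1 / a2`,
`X = X1 / X2`, `E0 = E1 / E2`. -/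
def row (d N1 N2 U1 U2 c1 c2 a1 a2 X1 X2 E1 E2 : ℕ) : Bool :=
  Nat.ble 1 d && Nat.ble 1 N2 && Nat.ble (Nat.mul 6 N2) (Nat.mul 5 N1) && Nat.ble 1 U1 &&
  Nat.ble U1 U2 && Nat.ble 1 c1 && Nat.ble 1 c2 && Nat.ble 1 a2 && Nat.ble a2 a1 &&
  Nat.ble 1 X2 && Nat.ble 1 E1 && Nat.ble 1 E2 &&
  piece d (Ex.q N1 N2) (Ex.q E1 E2) (ssx d U1 U2 * Ex.x 0 ^ 2) ((1 + Ex.q c1 c2 * Ex.x 0) ^ 2)
    (1 + Ex.q X1 X2 * Ex.x 0) 0 U1 U2 &&
  piece d (Ex.q N1 N2) (Ex.q E1 E2) (ssu d U1 U2) ((1 + Ex.q c1 c2 * Ex.x 0) ^ 2)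
    (1 + Ex.q X1 X2 * Ex.q U1 U2) (Nat.mul (Nat.mul U1 a2) c1)
    (max (Nat.mul (Nat.mul U1 a2) c1) (Nat.mul (Nat.mul U2 (Nat.sub a1 a2)) c2))
    (Nat.mul (Nat.mul U2 a2) c1) &&
  piece d (Ex.q N1 N2) (Ex.q E1 E2) (ssu d U1 U2) (Ex.q a1 a2 ^ 2)
    (1 + Ex.q X1 X2 * Ex.q U1 U2)
    (max (Nat.mul (Nat.mul U1 a2) c1) (Nat.mul (Nat.mul U2 (Nat.sub a1 a2)) c2))
    (Nat.add (max (Nat.mul (Nat.mul U1 a2) c1) (Nat.mul (Nat.mul U2 (Nat.sub a1 a2)) c2))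
      (Nat.mul 5 (Nat.mul (Nat.mul U2 a2) c1)))
    (Nat.mul (Nat.mul U2 a2) c1)

/-! ### Soundness -/

theorem piece_sound {d : ℕ} {N E0 s a r : Ex} {l rr m : ℕ} (h : piece d N E0 s a r l rr m = true)
    {o : ℝ} (h0 : (l : ℝ) / m ≤ o) (h1 : o ≤ (rr : ℝ) / m) :
    (1 + o - N.ev (fun _ => o) * o) * (2 * ((1 + o) ^ d - 1 + s.ev (fun _ => o)) * (1 + o) +
      d * E0.ev (fun _ => o) * a.ev (fun _ => o) * (1 + (1 + o) ^ 2)) ≤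
      2 * d * E0.ev (fun _ => o) * r.ev (fun _ => o) * (1 + o) ^ 2 ∧
    (1 + o - N.ev (fun _ => o) * o) * a.ev (fun _ => o) ≤ r.ev (fun _ => o) := by
  rw [piece, Bool.and_eq_true] at h
  have h0' : ((Int.ofNat l : ℤ) : ℝ) / m ≤ o := by
    have : ((Int.ofNat l : ℤ) : ℝ) = (l : ℝ) := rfl
    rw [this]; exact h0
  have h1' : o ≤ ((Int.ofNat rr : ℤ) : ℝ) / m := by
    have : ((Int.ofNat rr : ℤ) : ℝ) = (rr : ℝ) := rfl
    rw [this]; exact h1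
  have k1 := sound1 h.1 h0' h1'
  have k2 := sound1 h.2 h0' h1'
  have e2 : ((Nat.mul 2 d : ℕ) : ℝ) = 2 * d := by
    show ((2 * d : ℕ) : ℝ) = _
    push_cast
    rfl
  simp only [eP1, Ex.ev_sub, Ex.ev_mul, Ex.ev_add, Ex.ev_pow, Ex.ev_x, Ex.ev_one, Ex.ev_nat,
    e2, Nat.cast_ofNat] at k1
  simp only [eP2, Ex.ev_sub, Ex.ev_mul, Ex.ev_add, Ex.ev_x, Ex.ev_one] at k2
  exact ⟨by linarith, by linarith⟩

theorem ev_qn (a b : ℕ) (ρ : ℕ → ℝ) : (Ex.q (a : ℤ) b).ev ρ = (a : ℝ) / b := by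
  simp

theorem ssx_ev {d U1 U2 : ℕ} (h1 : 1 ≤ U1) (h2 : U1 ≤ U2) (ρ : ℕ → ℝ) :
    (ssx d U1 U2).ev ρ = KZero.ss d ((U1 : ℝ) / U2) := by
  have hU1 : (0 : ℝ) < U1 := by exact_mod_cast h1
  have hU2 : (0 : ℝ) < U2 := by exact_mod_cast h1.trans h2
  have h3 : U1 * U1 ≤ U2 * U2 := Nat.mul_le_mul h2 h2
  have h4 : (U2 * U2 - U1 * U1) ^ d ≤ (U2 * U2) ^ d := Nat.pow_le_pow_left (Nat.sub_le _ _) d
  show (((U2 * U2) * ((U2 * U2) ^ d - (U2 * U2 - U1 * U1) ^ d) : ℕ) : ℝ) /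
    (((U1 * U1) * (U2 * U2) ^ d : ℕ) : ℝ) = _
  rw [Nat.cast_mul, Nat.cast_sub h4]
  push_cast [Nat.cast_sub h3]
  unfold KZero.ss
  have e : (1 : ℝ) - ((U1 : ℝ) / U2) ^ 2 = ((U2 : ℝ) * U2 - U1 * U1) / (U2 * U2) := by
    field_simp
  rw [e, div_pow]
  have h5 : ((U2 : ℝ) * U2) ^ d ≠ 0 := by positivity
  field_simp

theorem ssu_ev {d U1 U2 : ℕ} (h1 : 1 ≤ U1) (h2 : U1 ≤ U2) (ρ : ℕ → ℝ) :
    (ssu d U1 U2).ev ρ = KZero.ss d ((U1 : ℝ) / U2) * ((U1 : ℝ) / U2) ^ 2 := by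
  have hU1 : (0 : ℝ) < U1 := by exact_mod_cast h1
  have hU2 : (0 : ℝ) < U2 := by exact_mod_cast h1.trans h2
  have h3 : U1 * U1 ≤ U2 * U2 := Nat.mul_le_mul h2 h2
  have e1 : (ssu d U1 U2).ev ρ = 1 - (((U2 * U2 - U1 * U1) ^ d : ℕ) : ℝ) /
      (((U2 * U2) ^ d : ℕ) : ℝ) := by
    unfold ssu
    rw [Ex.ev_sub, Ex.ev_one]
    rfl
  rw [e1]
  push_cast [Nat.cast_sub h3]
  unfold KZero.ss
  have e : (1 : ℝ) - ((U1 : ℝ) / U2) ^ 2 = ((U2 : ℝ) * U2 - U1 * U1) / (U2 * U2) := by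
    field_simp
  have h6 : ((U1 : ℝ) / U2) ^ 2 ≠ 0 := by positivity
  rw [div_mul_cancel₀ _ h6, e, div_pow]

/-- **Soundness of the check.** -/
theorem row_sound {d N1 N2 U1 U2 c1 c2 a1 a2 X1 X2 E1 E2 : ℕ}
    (h : row d N1 N2 U1 U2 c1 c2 a1 a2 X1 X2 E1 E2 = true) :
    P1o d ((N1 : ℝ) / N2) ((U1 : ℝ) / U2) ((a1 : ℝ) / a2) ((c1 : ℝ) / c2) ((X1 : ℝ) / X2)
      ((E1 : ℝ) / E2) ∧
    P2o ((N1 : ℝ) / N2) ((U1 : ℝ) / U2) ((a1 : ℝ) / a2) ((c1 : ℝ) / c2) ((X1 : ℝ) / X2) ∧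
    (0 < (U1 : ℝ) / U2 ∧ (U1 : ℝ) / U2 ≤ 1) ∧ 1 ≤ (a1 : ℝ) / a2 ∧ 0 ≤ (c1 : ℝ) / c2 ∧
    0 ≤ (X1 : ℝ) / X2 ∧ 0 < (E1 : ℝ) / E2 := by
  simp only [row, Bool.and_eq_true] at h
  obtain ⟨⟨⟨⟨⟨⟨⟨⟨⟨⟨⟨⟨⟨⟨hd, hN2⟩, hN⟩, hU1⟩, hU⟩, hc1⟩, hc2⟩, ha2⟩, ha⟩, hX2⟩, hE1⟩, hE2⟩, p1⟩,
    p2⟩, p3⟩ := h
  have hd := Nat.le_of_ble_eq_true hd
  have hN2 := Nat.le_of_ble_eq_true hN2
  have hN := Nat.le_of_ble_eq_true hN
  have hU1 := Nat.le_of_ble_eq_true hU1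
  have hU := Nat.le_of_ble_eq_true hU
  have hc1 := Nat.le_of_ble_eq_true hc1
  have hc2 := Nat.le_of_ble_eq_true hc2
  have ha2 := Nat.le_of_ble_eq_true ha2
  have ha := Nat.le_of_ble_eq_true ha
  have hX2 := Nat.le_of_ble_eq_true hX2
  have hE1 := Nat.le_of_ble_eq_true hE1
  have hE2 := Nat.le_of_ble_eq_true hE2
  have rN2 : (0 : ℝ) < N2 := by exact_mod_cast hN2
  have rU1 : (0 : ℝ) < U1 := by exact_mod_cast hU1
  have rU2 : (0 : ℝ) < U2 := by exact_mod_cast hU1.trans hU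
  have rc1 : (0 : ℝ) < c1 := by exact_mod_cast hc1
  have rc2 : (0 : ℝ) < c2 := by exact_mod_cast hc2
  have ra2 : (0 : ℝ) < a2 := by exact_mod_cast ha2
  have ra : (a2 : ℝ) ≤ a1 := by exact_mod_cast ha
  have rX2 : (0 : ℝ) < X2 := by exact_mod_cast hX2
  have rE1 : (0 : ℝ) < E1 := by exact_mod_cast hE1
  have rE2 : (0 : ℝ) < E2 := by exact_mod_cast hE2
  have rN : 6 / 5 ≤ (N1 : ℝ) / N2 := by
    rw [div_le_div_iff₀ (by norm_num) rN2]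
    have : ((Nat.mul 6 N2 : ℕ) : ℝ) ≤ ((Nat.mul 5 N1 : ℕ) : ℝ) := by exact_mod_cast hN
    have e1 : ((Nat.mul 6 N2 : ℕ) : ℝ) = 6 * N2 := by
      show ((6 * N2 : ℕ) : ℝ) = _
      push_cast; rfl
    have e2 : ((Nat.mul 5 N1 : ℕ) : ℝ) = 5 * N1 := by
      show ((5 * N1 : ℕ) : ℝ) = _
      push_cast; rfl
    rw [e1, e2] at this
    linarith
  obtain ⟨N, hNN⟩ : ∃ N, N = (N1 : ℝ) / N2 := ⟨_, rfl⟩
  obtain ⟨um, hum⟩ : ∃ um, um = (U1 : ℝ) / U2 := ⟨_, rfl⟩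
  obtain ⟨c, hc⟩ : ∃ c, c = (c1 : ℝ) / c2 := ⟨_, rfl⟩
  obtain ⟨am, ham⟩ : ∃ am, am = (a1 : ℝ) / a2 := ⟨_, rfl⟩
  obtain ⟨X, hXX⟩ : ∃ X, X = (X1 : ℝ) / X2 := ⟨_, rfl⟩
  obtain ⟨E0, hE0⟩ : ∃ E0, E0 = (E1 : ℝ) / E2 := ⟨_, rfl⟩
  have hum0 : 0 < um := by rw [hum]; positivity
  have hum1 : um ≤ 1 := by
    rw [hum]; exact div_le_one_of_le₀ (by exact_mod_cast hU) rU2.le
  have hc0 : 0 < c := by rw [hc]; positivity
  have ham1 : 1 ≤ am := by rw [ham, le_div_iff₀ ra2]; linarith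
  have hX0 : 0 ≤ X := by rw [hXX]; positivity
  have hE00 : 0 < E0 := by rw [hE0]; positivity
  rw [← hNN] at rN
  rw [← hNN, ← hum, ← hc, ← ham, ← hXX, ← hE0]
  -- the middle point
  obtain ⟨t, ht⟩ : ∃ t, t = max (Nat.mul (Nat.mul U1 a2) c1)
    (Nat.mul (Nat.mul U2 (Nat.sub a1 a2)) c2) := ⟨_, rfl⟩
  obtain ⟨m, hm⟩ : ∃ m, m = Nat.mul (Nat.mul U2 a2) c1 := ⟨_, rfl⟩
  obtain ⟨l, hl⟩ : ∃ l, l = Nat.mul (Nat.mul U1 a2) c1 := ⟨_, rfl⟩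
  obtain ⟨b, hb⟩ : ∃ b, b = Nat.mul (Nat.mul U2 (Nat.sub a1 a2)) c2 := ⟨_, rfl⟩
  rw [← hl, ← hb] at ht
  have em : (m : ℝ) = U2 * a2 * c1 := by
    rw [hm]
    show ((U2 * a2 * c1 : ℕ) : ℝ) = _
    push_cast; rfl
  have el : (l : ℝ) = U1 * a2 * c1 := by
    rw [hl]
    show ((U1 * a2 * c1 : ℕ) : ℝ) = _
    push_cast; rfl
  have eb : (b : ℝ) = U2 * ((a1 : ℝ) - a2) * c2 := by
    rw [hb]
    show ((U2 * (a1 - a2) * c2 : ℕ) : ℝ) = _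
    push_cast [Nat.cast_sub ha]; rfl
  have hm0 : (0 : ℝ) < m := by rw [em]; positivity
  have elm : (l : ℝ) / m = um := by
    rw [el, em, hum]; field_simp
  have ebm : (b : ℝ) / m = (am - 1) / c := by
    rw [eb, em, ham, hc]; field_simp
  have etm : um ≤ (t : ℝ) / m := by
    rw [← elm]
    apply div_le_div_of_nonneg_right _ hm0.le
    rw [ht]; exact_mod_cast le_max_left _ _
  have etb : (am - 1) / c ≤ (t : ℝ) / m := by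
    rw [← ebm]
    apply div_le_div_of_nonneg_right _ hm0.le
    rw [ht]; exact_mod_cast le_max_right _ _
  rw [← hl, ← hb, ← ht, ← hm] at p2 p3
  -- all cases
  have key : ∀ o : ℝ, 0 ≤ o → (N - 1) * o ≤ 1 →
      (1 + o - N * o) * (2 * ((1 + o) ^ d - 1 + KZero.ss d um * (min o um) ^ 2) * (1 + o) +
        d * E0 * Alo am c o ^ 2 * (1 + (1 + o) ^ 2)) ≤
          2 * d * E0 * (1 + X * min o um) * (1 + o) ^ 2 ∧
      (1 + o - N * o) * Alo am c o ^ 2 ≤ 1 + X * min o um := by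
    intro o ho hNo
    have hp : 0 ≤ 1 + o - N * o := by linarith
    have hA0 : 0 ≤ Alo am c o := (Alo_pos ham1 hc0.le ho).le
    have up : ∀ a : ℝ, Alo am c o ^ 2 ≤ a →
        (1 + o - N * o) * (2 * ((1 + o) ^ d - 1 + KZero.ss d um * (min o um) ^ 2) * (1 + o) +
          d * E0 * a * (1 + (1 + o) ^ 2)) ≤ 2 * d * E0 * (1 + X * min o um) * (1 + o) ^ 2 ∧
        (1 + o - N * o) * a ≤ 1 + X * min o um →
        (1 + o - N * o) * (2 * ((1 + o) ^ d - 1 + KZero.ss d um * (min o um) ^ 2) * (1 + o) +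
          d * E0 * Alo am c o ^ 2 * (1 + (1 + o) ^ 2)) ≤
            2 * d * E0 * (1 + X * min o um) * (1 + o) ^ 2 ∧
        (1 + o - N * o) * Alo am c o ^ 2 ≤ 1 + X * min o um := by
      intro a haa hk
      refine ⟨le_trans (mul_le_mul_of_nonneg_left ?_ hp) hk.1,
        le_trans (mul_le_mul_of_nonneg_left haa hp) hk.2⟩
      have : d * E0 * Alo am c o ^ 2 * (1 + (1 + o) ^ 2) ≤ d * E0 * a * (1 + (1 + o) ^ 2) := by
        apply mul_le_mul_of_nonneg_right _ (by positivity)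
        exact mul_le_mul_of_nonneg_left haa (by positivity)
      linarith
    have hA1 : Alo am c o ^ 2 ≤ (1 + c * o) ^ 2 := pow_le_pow_left₀ hA0 (min_le_right _ _) 2
    have hA2 : Alo am c o ^ 2 ≤ am ^ 2 := pow_le_pow_left₀ hA0 (min_le_left _ _) 2
    have eN : ∀ ρ : ℕ → ℝ, (Ex.q (N1 : ℤ) N2).ev ρ = N := fun ρ => by rw [ev_qn, hNN]
    have eE : ∀ ρ : ℕ → ℝ, (Ex.q (E1 : ℤ) E2).ev ρ = E0 := fun ρ => by rw [ev_qn, hE0]
    have eX : ∀ ρ : ℕ → ℝ, (Ex.q (X1 : ℤ) X2).ev ρ = X := fun ρ => by rw [ev_qn, hXX]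
    have eU : ∀ ρ : ℕ → ℝ, (Ex.q (U1 : ℤ) U2).ev ρ = um := fun ρ => by rw [ev_qn, hum]
    have ec : ∀ ρ : ℕ → ℝ, (Ex.q (c1 : ℤ) c2).ev ρ = c := fun ρ => by rw [ev_qn, hc]
    have ea : ∀ ρ : ℕ → ℝ, (Ex.q (a1 : ℤ) a2).ev ρ = am := fun ρ => by rw [ev_qn, ham]
    rcases le_total o um with h1 | h1
    · apply up _ hA1
      have k := piece_sound p1 (o := o) (by simpa using ho) (by rw [← hum]; exact h1)
      simp only [Ex.ev_mul, Ex.ev_add, Ex.ev_pow, Ex.ev_x, Ex.ev_one, eN, eE, eX, ec,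
        ssx_ev hU1 hU, ← hum] at k
      rw [min_eq_left h1]
      exact k
    · rw [min_eq_right h1] at up ⊢
      rcases le_total o ((t : ℝ) / m) with h2 | h2
      · apply up _ hA1
        have k := piece_sound p2 (o := o) (by rw [elm]; exact h1) h2
        simp only [Ex.ev_mul, Ex.ev_add, Ex.ev_pow, Ex.ev_x, Ex.ev_one, eN, eE, eX, ec, eU,
          ssu_ev hU1 hU, ← hum] at k
        exact k
      · apply up _ hA2
        have h5 : o ≤ ((Nat.add t (Nat.mul 5 m) : ℕ) : ℝ) / m := by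
          have e5 : ((Nat.add t (Nat.mul 5 m) : ℕ) : ℝ) = t + 5 * m := by
            show ((t + 5 * m : ℕ) : ℝ) = _
            push_cast; rfl
          rw [e5, add_div, mul_div_assoc, div_self hm0.ne']
          have h6 : o ≤ 5 := by nlinarith
          have h7 : (0 : ℝ) ≤ (t : ℝ) / m := by positivity
          linarith
        have k := piece_sound p3 (o := o) h2 h5
        simp only [Ex.ev_mul, Ex.ev_add, Ex.ev_pow, Ex.ev_one, eN, eE, eX, ea, eU,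
          ssu_ev hU1 hU, ← hum] at k
        exact k
  exact ⟨fun o h0 h1 => (key o h0 h1).1, fun o h0 h1 => (key o h0 h1).2, ⟨hum0, hum1⟩, ham1, hc0.le,
    hX0, hE00⟩

/-- **The profile inequality from the check.** -/
theorem row_prof {d N1 N2 U1 U2 c1 c2 a1 a2 X1 X2 E1 E2 : ℕ} {ξ om : ℝ}
    (h : row d N1 N2 U1 U2 c1 c2 a1 a2 X1 X2 E1 E2 = true) (hξ : (E1 : ℝ) / E2 ≤ ξ)
    (hE : (E1 : ℝ) / E2 ≤ (ξ + om ^ 2 / ξ) / 2) :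
    ∀ x, 0 ≤ x → x < 1 → 0 < lf ((N1 : ℝ) / N2) x →
    lf ((N1 : ℝ) / N2) x * ((d : ℝ) *
        ((ξ * (AlR ((a1 : ℝ) / a2) ((c1 : ℝ) / c2) x ^ 2 * (1 - x)) +
        ξ⁻¹ * ((om * AlR ((a1 : ℝ) / a2) ((c1 : ℝ) / c2) x) ^ 2 / (1 - x))) / 2)
      + (((1 - x)⁻¹) ^ d - 1 + KZero.ss d ((U1 : ℝ) / U2) * KZero.ut ((U1 : ℝ) / U2) x ^ 2))
      ≤ (d * ((ξ + om ^ 2 / ξ) / 2)) * (1 + ((X1 : ℝ) / X2) * KZero.ut ((U1 : ℝ) / U2) x) := by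
  obtain ⟨h1, h2, h3, h4, h5, h6, h7⟩ := row_sound h
  exact prof_of h3.1 h3.2 h4 h5 h6 h7 h1 h2 hξ hE

end ProfG

end Pool.Agent.T6A.Cert3
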