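import Pool.Agent.T6A.Cert3S1
import Pool.Agent.T6A.Line3Base

/-!
# CERT v3, range (R2): the rows S1 and F2b over the table (helper90)

`rowSQ fuel c e N r` checks the row `r : Line3.Row` of the degree `d = e + 1` with slope `N` of the profile;
`nuh = (1 - mu) / B`. `rowSQ_sound` gives the fields `S1`, `F2b` (and `hka`, `hkb`, `hF0`, `hnuh0`, `hnuh1`) of `MugOK`.
-/

set_option autoImplicit false

namespace Pool.Agent.T6A.C3S1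

open Pool.Agent.T6A.Bern Pool.Agent.T6A.Line3

/-- the end `nuh = (1 - mu) / B` -/
def nuq (r : Row) : ℚ := (1 - r.mu) / r.B

/-- The check for one row. -/
def rowSQ (fuel : ℕ) (c : ℚ) (e : ℕ) (N : ℚ) (r : Row) : Bool :=
  decide (0 < c) && (decide (0 ≤ r.ka) && (decide (0 ≤ r.kb) && (decide (0 ≤ r.F2) &&
  (decide (0 < nuq r) && (decide (nuq r < 1) &&
  (chk fuel (eS1 e (cq c) (cq N) (cq r.mu) (cq r.ka) (cq r.kb)) [⟨0, (nuq r).num, (nuq r).den⟩] &&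
  chk fuel (eF2 (cq N) (cq r.F2)) [⟨0, (nuq r).num, (nuq r).den⟩]))))))

theorem nuq_cast (r : Row) : ((nuq r : ℚ) : ℝ) = (1 - (r.mu : ℝ)) / r.B := by
  unfold nuq
  push_cast
  rfl

/-- What the row delivers: `Al` arbitrary with `Al s - 1 ≥ c s / (1 - s)` up to `x1`. -/
structure RowS (c : ℚ) (e : ℕ) (N : ℚ) (r : Row) (nuh : ℝ) : Prop where
  hka : (0 : ℝ) ≤ r.ka
  hkb : (0 : ℝ) ≤ r.kb
  hF0 : (0 : ℝ) ≤ r.F2
  hnuh0 : 0 < nuh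
  hnuh1 : nuh < 1
  F2b : ∀ x, 0 ≤ x → x ≤ nuh → lf N x / (1 - x) ^ 2 ≤ r.F2
  S1 : ∀ (Al : ℝ → ℝ) (x1 : ℝ), x1 < 1 → (∀ s, 0 ≤ s → s ≤ x1 → (c : ℝ) * (s / (1 - s)) ≤ Al s - 1) →
    ∀ s x, 0 ≤ s → s ≤ x1 → 0 ≤ x → x ≤ nuh →
      lf N x / (1 - x) ^ (e + 1) * ((1 - x) ^ (e + 1 - 1)
        - (max 0 (1 - x / (1 - s))) ^ (e + 1 - 1) - (Al s - 1) * (1 - (r.mu : ℝ)))
        ≤ (Al s - 1) * (r.ka + r.kb * x)

theorem rowSQ_sound {fuel : ℕ} {c : ℚ} {e : ℕ} {N : ℚ} {r : Row}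
    (h : rowSQ fuel c e N r = true) : RowS c e N r ((1 - (r.mu : ℝ)) / r.B) := by
  simp only [rowSQ, Bool.and_eq_true, decide_eq_true_eq] at h
  obtain ⟨hc, hka, hkb, hF, h0, h1, hS, h2⟩ := h
  have hc' : (0 : ℝ) < c := by exact_mod_cast hc
  have hka' : (0 : ℝ) ≤ r.ka := by exact_mod_cast hka
  have hkb' : (0 : ℝ) ≤ r.kb := by exact_mod_cast hkb
  have hF' : (0 : ℝ) ≤ r.F2 := by exact_mod_cast hF
  have h0' : (0 : ℝ) < ((nuq r : ℚ) : ℝ) := by exact_mod_cast h0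
  have h1' : ((nuq r : ℚ) : ℝ) < 1 := by exact_mod_cast h1
  have hn : (((nuq r).num : ℤ) : ℝ) / ((nuq r).den : ℝ) = ((nuq r : ℚ) : ℝ) :=
    (Rat.cast_def (nuq r)).symm
  rw [← nuq_cast]
  have hF2 : ∀ x, 0 ≤ x → x ≤ ((nuq r : ℚ) : ℝ) → lf N x / (1 - x) ^ 2 ≤ r.F2 := by
    refine f2_of hF' h1' fun x hx0 hx1 => ?_
    have := sound1 h2 (a := x) (by simpa using hx0) (by rw [hn]; exact hx1)
    simpa [eF2] using this
  have hS1 : ∀ x, 0 ≤ x → x ≤ ((nuq r : ℚ) : ℝ) → lf N x / (1 - x) ^ (e + 1) *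
      (((e + 1 - 1 : ℕ) : ℝ) * (x * (1 - x) ^ (e + 1 - 1 - 1)) - (c : ℝ) * (1 - (r.mu : ℝ)))
      ≤ (c : ℝ) * (r.ka + r.kb * x) := by
    refine s1_of hc'.le hka' hkb' h1' fun x hx0 hx1 => ?_
    have := sound1 hS (a := x) (by simpa using hx0) (by rw [hn]; exact hx1)
    simpa [eS1] using this
  exact ⟨hka', hkb', hF', h0', h1', hF2, fun Al x1 hx1 hAl =>
    S1_full (fun _ => lf_nonneg _ _) hc' hx1 h1' hAl hS1⟩

end Pool.Agent.T6A.C3S1
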