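import Pool.Agent.T6A.Cert3Gen
import Pool.Agent.T6A.Cert3M1Q
import Pool.Agent.T6A.Cert3A0R
import Pool.Agent.T6A.Cert3S1Q
import Pool.Agent.T6A.Cert3M3
import Pool.Agent.T6A.Cert3Prof

/-!
# CERT v3: `RowOK` and `ParOK` from the outputs of the row checks (MP_c6effb_co)
-/

set_option autoImplicit false

namespace Pool.Agent.T6A.Cert3

open Pool.Agent.T6A Pool.Agent.T6A.Line3

/-- `RowOK` from the four row structures. -/
theorem rowOK_of {g : Glob} {c : ℚ} (hg : GlobOK g c) {e : ℕ} {p : Par} {r : Row}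
    (hd : p.d = e + 1) (h0 : 0 ≤ (r.mu : ℝ)) (h1 : (r.mu : ℝ) ≤ 1 / 5)
    (hM : C3M1.RowM e p.N r ((1 - (r.mu : ℝ)) / r.B))
    (hA : C3A0.RowA p.N r (AlC (5 / 4) c) (e + 1) ((1 - (r.mu : ℝ)) / r.B))
    (hS : C3S1.RowS c e p.N r ((1 - (r.mu : ℝ)) / r.B))
    (hK : ∀ x, 0 ≤ x → x ≤ (1 - (r.mu : ℝ)) / r.B →
      r.th * (lf p.N x * (1 / (1 - x) - (1 - (1 - (r.mu : ℝ))) / (1 - x) ^ (e + 1))) ≤
        (1 - r.mu) * (lf p.N x ^ 2 * AlC (5 / 4) c x ^ 2 / (1 - x)))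
    (hn : (p.N : ℝ) * ((1 - (r.mu : ℝ)) / r.B) ≤ 1) :
    RowOK g (5 / 4) c p r := by
  have e1 : (1 - (1 - (r.mu : ℝ))) = (r.mu : ℝ) := by ring
  have hx2 := hg.x2
  exact
    { am5 := le_rfl
      mu0 := h0
      mu1 := h1
      B0 := hM.hB
      th0 := hA.hth0
      g00 := hA.hg0
      ka0 := hS.hka
      kb0 := hS.hkb
      F0 := hS.hF0
      nuh1 := hM.hnuh1
      nuhN := hn
      M1 := by
        have := hM.M1
        rw [e1] at this
        rw [hd]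
        exact this
      M1' := by
        have := hM.M1'
        rw [e1] at this
        rw [hd]
        exact this
      M3 := by
        rw [e1] at hK
        rw [hd]
        exact hK
      A0 := by
        rw [hd]
        exact hA.A0
      A0' := hA.A0'
      A2 := hA.A2
      S1 := by
        rw [hd]
        exact hS.S1 (AlC (5 / 4) c) g.x1 (by linarith) (AlC_ge le_rfl hg.c0 hg.x1)
      F2b := hS.F2b }

/-- The check of one row of degree `e + 1`. -/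
def rowQ (fuel : ℕ) (c : ℚ) (e : ℕ) (N : ℚ) (r : Row) : Bool :=
  decide (0 ≤ r.mu) && (decide (r.mu ≤ 1 / 5) && (C3M1.rowMQ fuel e N r &&
    (C3A0.rowAG c N r && (C3S1.rowSQ fuel c e N r && C3M3.rowM3Q fuel c e N r))))

/-- `RowOK` from the Boolean checks. -/
theorem rowOK_chk {g : Glob} {c : ℚ} (hg : GlobOK g c) {e f1 f2 f3 : ℕ} {p : Par} {r : Row}
    (hd : p.d = e + 1) (h0 : 0 ≤ r.mu) (h1 : r.mu ≤ 1 / 5)
    (hM : C3M1.rowMQ f1 e p.N r = true) (hA : C3A0.rowAG c p.N r = true)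
    (hS : C3S1.rowSQ f2 c e p.N r = true) (hK : C3M3.rowM3Q f3 c e p.N r = true) :
    RowOK g (5 / 4) c p r := by
  have h0' : 0 ≤ (r.mu : ℝ) := by exact_mod_cast h0
  have h1' : (r.mu : ℝ) ≤ 1 / 5 := by
    have : (r.mu : ℝ) ≤ ((1 / 5 : ℚ) : ℝ) := by exact_mod_cast h1
    rw [show ((1 / 5 : ℚ) : ℝ) = 1 / 5 by norm_num] at this
    exact this
  have hn : (p.N : ℝ) * ((1 - (r.mu : ℝ)) / r.B) ≤ 1 := by
    have := hM
    simp only [C3M1.rowMQ, Bool.and_eq_true, decide_eq_true_eq] at this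
    obtain ⟨-, -, -, -, h, -⟩ := this
    have h2 : (p.N : ℝ) * ((C3M1.nuq r : ℚ) : ℝ) ≤ 1 := by exact_mod_cast h
    rw [C3M1.nuq_cast] at h2
    exact h2
  exact rowOK_of hg hd h0' h1' (C3M1.rowMQ_sound hM)
    (C3A0.rowAG_sound hA (AlC_nonneg _ _) (AlC_le hg.c0) (e + 1)) (C3S1.rowSQ_sound hS)
    (C3M3.rowM3Q_sound hK (AlC_ge' le_rfl hg.c0)) hn

theorem rowOK_Q {g : Glob} {c : ℚ} (hg : GlobOK g c) {e fuel : ℕ} {p : Par} {r : Row}
    (hd : p.d = e + 1) (h : rowQ fuel c e p.N r = true) : RowOK g (5 / 4) c p r := by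
  simp only [rowQ, Bool.and_eq_true, decide_eq_true_eq] at h
  obtain ⟨h0, h1, hM, hA, hS, hK⟩ := h
  exact rowOK_chk hg hd h0 h1 hM hA hS hK

/-- The check of a table (all rows). -/
def tabQ (fuel : ℕ) (c : ℚ) (tab : List (Par × List Row)) : Bool :=
  tab.all fun pr => (Nat.ble 1 pr.1.d || pr.2.isEmpty) &&
    pr.2.all fun r => rowQ fuel c (pr.1.d - 1) pr.1.N r

theorem tabQ_sound {g : Glob} {c : ℚ} (hg : GlobOK g c) {fuel : ℕ}
    {tab : List (Par × List Row)} (h : tabQ fuel c tab = true) :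
    ∀ pr ∈ tab, ∀ r ∈ pr.2, RowOK g (5 / 4) c pr.1 r := by
  intro pr hp r hr
  have h1 := List.all_eq_true.1 h pr hp
  simp only [Bool.and_eq_true, Bool.or_eq_true] at h1
  obtain ⟨h2, h3⟩ := h1
  have h4 : 1 ≤ pr.1.d := by
    rcases h2 with h2 | h2
    · exact Nat.le_of_ble_eq_true h2
    · rw [List.isEmpty_iff] at h2
      rw [h2] at hr
      exact absurd hr (by simp)
  exact rowOK_Q hg (by omega) (List.all_eq_true.1 h3 r hr)

/-- The factors agree. -/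
theorem AlC_eq_AlR {am c x : ℝ} (ha : 1 ≤ am) (hc : 0 ≤ c) (h0 : 0 ≤ x) (h1 : x < 1) :
    AlC am c x = ProfG.AlR am c x := AlC_min ha hc h0 h1

/-- (PROF) for one `om` from the check. -/
theorem profOK_of {g : Glob} {am c : ℝ} (ha : 1 ≤ am) (hc : 0 ≤ c) {p : Par} {um om : ℝ}
    (h : ∀ x, 0 ≤ x → x < 1 → 0 < lf p.N x →
      lf p.N x * ((p.d : ℝ) * (((g.xi : ℝ) * (ProfG.AlR am c x ^ 2 * (1 - x)) +
        (g.xi : ℝ)⁻¹ * ((om * ProfG.AlR am c x) ^ 2 / (1 - x))) / 2)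
        + (((1 - x)⁻¹) ^ p.d - 1 + KZero.ss p.d um * KZero.ut um x ^ 2))
        ≤ (p.d * ((g.xi + om ^ 2 / g.xi) / 2)) * (1 + g.X * KZero.ut um x)) :
    ProfOK g am c p um om := by
  intro x h0 h1 hf
  rw [AlC_eq_AlR ha hc h0 h1]
  exact h x h0 h1 hf

/-- The check of one degree: `um = U / 100`, `E0` = reference. -/
def parQ (g : Glob) (am c E0 : ℚ) (U : ℕ) (p : Par) : Bool :=
  decide (25 / 24 ≤ p.N) && (decide (0 ≤ c) && (decide (0 ≤ g.X) && (decide (0 ≤ E0) &&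
  (decide (1 ≤ am) && (decide (E0 ≤ g.xi) && (Nat.beq p.d 0 || (Nat.ble 1 U && (Nat.ble U 100 &&
  (decide (0 < p.ss) && (decide (p.ss * (U * U) * 10000 ^ p.d + 10000 * (10000 - U * U) ^ p.d
    ≤ 10000 * 10000 ^ p.d) &&
  ProfG.row p.d p.N.num.toNat p.N.den U 100 c.num.toNat c.den am.num.toNat am.den
    g.X.num.toNat g.X.den E0.num.toNat E0.den))))))))))

theorem toNat_cast {x : ℚ} (h : 0 ≤ x) : ((x.num.toNat : ℕ) : ℝ) / (x.den : ℝ) = (x : ℝ) := by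
  have h1 : 0 ≤ x.num := Rat.num_nonneg.2 h
  have h2 : ((x.num.toNat : ℕ) : ℝ) = ((x.num : ℤ) : ℝ) := by
    have h3 : ((x.num.toNat : ℕ) : ℤ) = x.num := Int.toNat_of_nonneg h1
    calc ((x.num.toNat : ℕ) : ℝ) = (((x.num.toNat : ℕ) : ℤ) : ℝ) := (Int.cast_natCast _).symm
      _ = ((x.num : ℤ) : ℝ) := by rw [h3]
  rw [h2]
  exact (Rat.cast_def x).symm

theorem ss_chk {ss : ℚ} {U d : ℕ} (h1 : 1 ≤ U)
    (h : ss * ((U : ℚ) * U) * 10000 ^ d + 10000 * (10000 - (U : ℚ) * U) ^ d ≤ 10000 * 10000 ^ d) :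
    (ss : ℝ) ≤ KZero.ss d ((U : ℝ) / 100) := by
  have h' : (ss : ℝ) * ((U : ℝ) * U) * 10000 ^ d + 10000 * (10000 - (U : ℝ) * U) ^ d
      ≤ 10000 * 10000 ^ d := by exact_mod_cast h
  have hU : (1 : ℝ) ≤ U := by exact_mod_cast h1
  unfold KZero.ss
  rw [le_div_iff₀ (by positivity)]
  have e1 : (1 - ((U : ℝ) / 100) ^ 2) ^ d = (10000 - (U : ℝ) * U) ^ d / 10000 ^ d := by
    rw [← div_pow]
    congr 1
    ring
  rw [e1]
  have hp : (0 : ℝ) < 10000 ^ d := by positivity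
  have e2 : 1 - (10000 - (U : ℝ) * U) ^ d / 10000 ^ d
      = (10000 ^ d - (10000 - (U : ℝ) * U) ^ d) / 10000 ^ d := by
    field_simp
  rw [e2, le_div_iff₀ hp]
  linarith

/-- `ParOK` from the check: the rows need `E0 ≤ (xi + om² / xi) / 2`. -/
theorem parOK_chk {g : Glob} {am c E0 : ℚ} {U : ℕ} {p : Par} {rs : List Row}
    (h : parQ g am c E0 U p = true) (h1 : E0 ≤ (g.xi + 1 ^ 2 / g.xi) / 2)
    (hr : ∀ r ∈ rs, E0 ≤ (g.xi + (1 - r.mu) ^ 2 / g.xi) / 2) : ParOK g am c p rs := by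
  simp only [parQ, Bool.and_eq_true, Bool.or_eq_true, decide_eq_true_eq] at h
  obtain ⟨hN, hc, hX, hE, ham, hxi, h⟩ := h
  have hN' : 25 / 24 ≤ (p.N : ℝ) := by
    have : ((25 / 24 : ℚ) : ℝ) ≤ (p.N : ℝ) := by exact_mod_cast hN
    rw [show ((25 / 24 : ℚ) : ℝ) = 25 / 24 by norm_num] at this
    exact this
  refine ⟨hN', fun hd => ?_⟩
  rcases h with h | ⟨hU1, hU2, hss, hss2, hrow⟩
  · exact absurd (Nat.eq_of_beq_eq_true h) (by omega)
  have hU1 := Nat.le_of_ble_eq_true hU1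
  have hU2 := Nat.le_of_ble_eq_true hU2
  have hU1' : (1 : ℝ) ≤ U := by exact_mod_cast hU1
  have hU2' : (U : ℝ) ≤ 100 := by exact_mod_cast hU2
  have hc' : 0 ≤ (c : ℝ) := by exact_mod_cast hc
  have ham' : 1 ≤ (am : ℝ) := by exact_mod_cast ham
  have key : ∀ om : ℚ, E0 ≤ (g.xi + om ^ 2 / g.xi) / 2 → ProfOK g am c p ((U : ℝ) / 100) om := by
    intro om ho
    have e0 : ((E0.num.toNat : ℕ) : ℝ) / (E0.den : ℝ) = (E0 : ℝ) := toNat_cast hE
    have eX : ((g.X.num.toNat : ℕ) : ℝ) / (g.X.den : ℝ) = (g.X : ℝ) := toNat_cast hX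
    have ec : ((c.num.toNat : ℕ) : ℝ) / (c.den : ℝ) = (c : ℝ) := toNat_cast hc
    have eN : ((p.N.num.toNat : ℕ) : ℝ) / (p.N.den : ℝ) = (p.N : ℝ) :=
      toNat_cast ((by norm_num : (0 : ℚ) ≤ 25 / 24).trans hN)
    have ea : ((am.num.toNat : ℕ) : ℝ) / (am.den : ℝ) = (am : ℝ) := toNat_cast (zero_le_one.trans ham)
    have h2 := ProfG.row_prof (ξ := (g.xi : ℝ)) (om := (om : ℝ)) hrow
      (by rw [e0]; exact_mod_cast hxi)
      (by
        rw [e0]
        have : (E0 : ℝ) ≤ (((g.xi + om ^ 2 / g.xi) / 2 : ℚ) : ℝ) := by exact_mod_cast ho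
        push_cast at this
        exact this)
    rw [eX, ec, eN, ea] at h2
    have e100 : ((100 : ℕ) : ℝ) = 100 := by norm_num
    rw [e100] at h2
    exact profOK_of ham' hc' h2
  refine ⟨(U : ℝ) / 100, by positivity, by linarith, by exact_mod_cast hss,
    ss_chk hU1 hss2, ?_, ?_⟩
  · have := key 1 h1
    rw [Rat.cast_one] at this
    exact this
  · intro r hrm
    have := key (1 - r.mu) (hr r hrm)
    rw [Rat.cast_sub, Rat.cast_one] at this
    exact this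

/-- The check of all degrees; `U d / 100 = um_d`. -/
def parsQ (g : Glob) (am c E0 : ℚ) (U : ℕ → ℕ) (tab : List (Par × List Row)) : Bool :=
  decide (E0 ≤ (g.xi + 1 ^ 2 / g.xi) / 2) && tab.all fun pr =>
    parQ g am c E0 (U pr.1.d) pr.1 && pr.2.all fun r =>
      decide (E0 ≤ (g.xi + (1 - r.mu) ^ 2 / g.xi) / 2)

theorem parsQ_sound {g : Glob} {am c E0 : ℚ} {U : ℕ → ℕ} {tab : List (Par × List Row)}
    (h : parsQ g am c E0 U tab = true) : ∀ pr ∈ tab, ParOK g am c pr.1 pr.2 := by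
  rw [parsQ, Bool.and_eq_true, decide_eq_true_eq] at h
  intro pr hp
  have h1 := List.all_eq_true.1 h.2 pr hp
  rw [Bool.and_eq_true] at h1
  exact parOK_chk h1.1 h.1 fun r hr => of_decide_eq_true (List.all_eq_true.1 h1.2 r hr)

/-- The check of the global conditions. -/
def globQ (g : Glob) (c : ℚ) : Bool :=
  decide (0 < g.xi) && (decide (0 ≤ g.s0) && (decide (g.s0 ≤ 1) && (decide (3 / 20000 ≤ g.eta) &&
  (decide (0 ≤ c) && (decide (g.x1 * (1 + 4 * c) = 1) && (decide (0 ≤ g.x1) &&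
  decide (2 * g.x1 < 1)))))))

theorem globQ_sound {g : Glob} {c : ℚ} (h : globQ g c = true) : GlobOK g c := by
  simp only [globQ, Bool.and_eq_true, decide_eq_true_eq] at h
  obtain ⟨h1, h2, h3, h4, h5, h6, h7, h8⟩ := h
  refine ⟨by exact_mod_cast h1, by exact_mod_cast h2, by exact_mod_cast h3, ?_,
    by exact_mod_cast h5, by exact_mod_cast h6, by exact_mod_cast h7, by exact_mod_cast h8⟩
  have : ((3 / 20000 : ℚ) : ℝ) ≤ (g.eta : ℝ) := by exact_mod_cast h4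
  rw [show ((3 / 20000 : ℚ) : ℝ) = 3 / 20000 by norm_num] at this
  exact this

end Pool.Agent.T6A.Cert3
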