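import Pool.Agent.T6A.Cert3M1Q
import Pool.Agent.T6A.Cert3Tab

/-!
# CERT v3, range (R2): M1, M1', M1x for all rows of the table (helper81)
-/

set_option autoImplicit false

namespace Pool.Agent.T6A.C3M1

open Pool.Agent.T6A.Bern Pool.Agent.T6A.Line3 Pool.Agent.T6A.C3T

/-- the check of the rows of one degree `e + 1` -/
def degM (e : ℕ) : Bool := (rows (e + 1)).all (rowMQ 8 e (par (e + 1)).N)

theorem degM3 : degM 3 = true := by decide +kernel
theorem degM4 : degM 4 = true := by decide +kernel
theorem degM5 : degM 5 = true := by decide +kernel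
theorem degM6 : degM 6 = true := by decide +kernel
theorem degM7 : degM 7 = true := by decide +kernel
theorem degM8 : degM 8 = true := by decide +kernel
theorem degM9 : degM 9 = true := by decide +kernel
theorem degM10 : degM 10 = true := by decide +kernel
theorem degM11 : degM 11 = true := by decide +kernel
theorem degM12 : degM 12 = true := by decide +kernel
theorem degM13 : degM 13 = true := by decide +kernel
theorem degM14 : degM 14 = true := by decide +kernel
theorem degM15 : degM 15 = true := by decide +kernel

theorem degM_all : ∀ e, degM e = true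
  | 0 => rfl
  | 1 => rfl
  | 2 => rfl
  | 3 => degM3
  | 4 => degM4
  | 5 => degM5
  | 6 => degM6
  | 7 => degM7
  | 8 => degM8
  | 9 => degM9
  | 10 => degM10
  | 11 => degM11
  | 12 => degM12
  | 13 => degM13
  | 14 => degM14
  | 15 => degM15
  | _ + 16 => rfl

/-- **M1, M1', M1x for every row of the table.** -/
theorem m1_row {e : ℕ} {r : Row} (h : r ∈ rows (e + 1)) :
    RowM e (par (e + 1)).N r ((1 - (r.mu : ℝ)) / r.B) :=
  rowMQ_sound (List.all_eq_true.1 (degM_all e) r h)

end Pool.Agent.T6A.C3M1
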