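import Pool.Agent.T6A.Cert3M3T0

/-!
# CERT v3, range (R2): M3 for rows of the table, part 3 (helper89)
-/

set_option autoImplicit false

namespace Pool.Agent.T6A.C3M3

open Pool.Agent.T6A.Bern Pool.Agent.T6A.Line3 Pool.Agent.T6A.C3T

theorem degK10 : degK 10 = true := by decide +kernel
theorem degK11 : degK 11 = true := by decide +kernel
theorem degK12 : degK 12 = true := by decide +kernel
theorem degK13 : degK 13 = true := by decide +kernel
theorem degK14 : degK 14 = true := by decide +kernel
theorem degK15 : degK 15 = true := by decide +kernel

end Pool.Agent.T6A.C3M3
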