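import Pool.Agent.T6A.Cert3M3T1
import Pool.Agent.T6A.Cert3M3T2
import Pool.Agent.T6A.Cert3M3T3

/-!
# CERT v3, range (R2): M3 for all rows of the table (helper89)
-/

set_option autoImplicit false

namespace Pool.Agent.T6A.C3M3

open Pool.Agent.T6A.Bern Pool.Agent.T6A.Line3 Pool.Agent.T6A.C3T

theorem degK_all : ∀ e, degK e = true
  | 0 => rfl
  | 1 => rfl
  | 2 => rfl
  | 3 => degK3
  | 4 => degK4
  | 5 => degK5
  | 6 => degK6
  | 7 => degK7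
  | 8 => degK8
  | 9 => degK9
  | 10 => degK10
  | 11 => degK11
  | 12 => degK12
  | 13 => degK13
  | 14 => degK14
  | 15 => degK15
  | _ + 16 => rfl

/-- **M3 for every row of the table**, every `Al` above `min (5 / 4) (1 + c x / (1 - x))`, `c = 29 / 100`. -/
theorem m3_row {e : ℕ} {r : Row} (h : r ∈ rows (e + 1)) {Al : ℝ → ℝ}
    (hAl : ∀ x, 0 ≤ x → x < 1 → min (5 / 4) (1 + (((29 / 100 : ℚ)) : ℝ) * (x / (1 - x))) ≤ Al x) :
    ∀ x, 0 ≤ x → x ≤ (1 - (r.mu : ℝ)) / r.B →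
      r.th * (lf ((par (e + 1)).N : ℝ) x *
        (1 / (1 - x) - (1 - (1 - (r.mu : ℝ))) / (1 - x) ^ (e + 1))) ≤
        (1 - r.mu) * (lf ((par (e + 1)).N : ℝ) x ^ 2 * Al x ^ 2 / (1 - x)) :=
  rowM3Q_sound (List.all_eq_true.1 (degK_all e) r h) hAl

/-- **M3 for every row of the table**, for `Al x = min (5 / 4) (1 + 29 / 100 (x / (1 - x)))`. -/
theorem m3_row' {e : ℕ} {r : Row} (h : r ∈ rows (e + 1)) :
    ∀ x, 0 ≤ x → x ≤ (1 - (r.mu : ℝ)) / r.B →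
      r.th * (lf ((par (e + 1)).N : ℝ) x *
        (1 / (1 - x) - (1 - (1 - (r.mu : ℝ))) / (1 - x) ^ (e + 1))) ≤
        (1 - r.mu) * (lf ((par (e + 1)).N : ℝ) x ^ 2 *
          (fun x => min (5 / 4) (1 + 29 / 100 * (x / (1 - x)))) x ^ 2 / (1 - x)) :=
  m3_row h fun x _ _ => by norm_num

end Pool.Agent.T6A.C3M3
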