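import Pool.Agent.T6A.Cert3Prof
import Pool.Agent.T6A.Cert3Tab

/-!
# CERT v3, range (R2): PROF for all degrees of the table (MP_c6effb_co)

`prof3`: the profile inequality for the degrees `d ≤ 25` of the table, `ξ = 21/25`, `4/5 ≤ om`.
`ss_le`: the number `ss` of the table is a lower bound of `KZero.ss d um`.
-/

set_option autoImplicit false

namespace Pool.Agent.T6A.C3P

open Bern C3T Cert3.ProfG

noncomputable section

/-- the check for all degrees -/
theorem rows_ok :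
    Bern.tab 1 26 (fun d => row d (Nn d) 1000 (umn d) 100 29 100 5 4 21 50 4 5) = true := by
  decide +kernel

theorem row_ok {d : ℕ} (h1 : 1 ≤ d) (h2 : d ≤ 25) :
    row d (Nn d) 1000 (umn d) 100 29 100 5 4 21 50 4 5 = true :=
  tab_get rows_ok h1 (by omega)

/-- the edge factor of the certificate -/
def Al3 (x : ℝ) : ℝ := min (5 / 4) (1 + 29 / 100 * (x / (1 - x)))

/-- the degree 0 -/
theorem prof0 (N um om C : ℝ) : ∀ x, 0 ≤ x → x < 1 → 0 < lf N x →
    lf N x * (((0 : ℕ) : ℝ) * ((21 / 25 * (Al3 x ^ 2 * (1 - x)) +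
        (21 / 25)⁻¹ * ((om * Al3 x) ^ 2 / (1 - x))) / 2)
      + (((1 - x)⁻¹) ^ 0 - 1 + KZero.ss 0 um * KZero.ut um x ^ 2))
      ≤ (((0 : ℕ) : ℝ) * C) * (1 + 21 / 50 * KZero.ut um x) := by
  intro x _ _ _
  simp [KZero.ss]

/-- **PROF for the table.** -/
theorem prof3 {d : ℕ} (h2 : d ≤ 25) {om : ℝ} (hom : 4 / 5 ≤ om) :
    ∀ x, 0 ≤ x → x < 1 → 0 < lf ((Nn d : ℝ) / 1000) x →
    lf ((Nn d : ℝ) / 1000) x * ((d : ℝ) * ((21 / 25 * (Al3 x ^ 2 * (1 - x)) +
        (21 / 25)⁻¹ * ((om * Al3 x) ^ 2 / (1 - x))) / 2)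
      + (((1 - x)⁻¹) ^ d - 1 +
        KZero.ss d ((umn d : ℝ) / 100) * KZero.ut ((umn d : ℝ) / 100) x ^ 2))
      ≤ (d * ((21 / 25 + om ^ 2 / (21 / 25)) / 2)) *
        (1 + 21 / 50 * KZero.ut ((umn d : ℝ) / 100) x) := by
  rcases Nat.eq_zero_or_pos d with rfl | h1
  · exact prof0 _ _ _ _
  have h := row_prof (ξ := 21 / 25) (om := om) (row_ok h1 h2) (by norm_num) (by
    have : (4 / 5 : ℝ) ^ 2 ≤ om ^ 2 := pow_le_pow_left₀ (by norm_num) hom 2
    push_cast
    rw [le_div_iff₀ (by norm_num), ← sub_le_iff_le_add', le_div_iff₀ (by norm_num)]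
    linarith)
  have eA : AlR (((5 : ℕ) : ℝ) / ((4 : ℕ) : ℝ)) (((29 : ℕ) : ℝ) / ((100 : ℕ) : ℝ)) = Al3 := by
    funext x
    simp [AlR, Al3]
  rw [eA] at h
  intro x hx0 hx1 hx
  have := h x hx0 hx1 (by simpa using hx)
  simpa using this

/-- the check of `ss` -/
theorem ss_ok : Bern.tab 1 26 (fun d => Nat.ble
    (Nat.mul (Nat.mul (ssn d) (Nat.mul (umn d) (umn d))) (Nat.pow 10000 d))
    (Nat.mul 10000000000 (Nat.sub (Nat.pow 10000 d)
      (Nat.pow (Nat.sub 10000 (Nat.mul (umn d) (umn d))) d)))) = true := by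
  decide +kernel

theorem um_ok : Bern.tab 0 26 (fun d => Nat.ble 1 (umn d) && Nat.ble (umn d) 100) = true := by
  decide +kernel

theorem um_pos {d : ℕ} (h : d ≤ 25) : 0 < (umn d : ℝ) / 100 ∧ (umn d : ℝ) / 100 ≤ 1 := by
  have h1 := tab_get um_ok (Nat.zero_le d) (by omega : d < 26)
  rw [Bool.and_eq_true] at h1
  have h2 := Nat.le_of_ble_eq_true h1.1
  have h3 := Nat.le_of_ble_eq_true h1.2
  have h4 : (1 : ℝ) ≤ umn d := by exact_mod_cast h2
  have h5 : (umn d : ℝ) ≤ 100 := by exact_mod_cast h3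
  constructor
  · positivity
  · rw [div_le_one (by norm_num)]; exact h5

/-- **`ss` of the table is a lower bound.** -/
theorem ss_le {d : ℕ} (h1 : 1 ≤ d) (h2 : d ≤ 25) :
    (ssn d : ℝ) / 1000000 ≤ KZero.ss d ((umn d : ℝ) / 100) := by
  have h := Nat.le_of_ble_eq_true (tab_get ss_ok h1 (by omega : d < 26))
  have hu := um_pos h2
  have hu1 : umn d ≤ 100 := by
    have := hu.2
    rw [div_le_one (by norm_num)] at this
    exact_mod_cast this
  have hu0 : (0 : ℝ) < umn d := by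
    have := hu.1
    rcases lt_or_ge (0 : ℝ) (umn d : ℝ) with h | h
    · exact h
    · exact absurd this (not_lt.2 (div_nonpos_of_nonpos_of_nonneg h (by norm_num)))
  have h3 : umn d * umn d ≤ 10000 := by nlinarith
  have h4 : (10000 - umn d * umn d) ^ d ≤ 10000 ^ d := Nat.pow_le_pow_left (Nat.sub_le _ _) d
  have h5 : ssn d * (umn d * umn d) * 10000 ^ d ≤
      10000000000 * (10000 ^ d - (10000 - umn d * umn d) ^ d) := h
  have h6 : (ssn d : ℝ) * ((umn d : ℝ) * umn d) * 10000 ^ d ≤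
      10000000000 * (10000 ^ d - (10000 - (umn d : ℝ) * umn d) ^ d) := by
    have h7 : ((ssn d * (umn d * umn d) * 10000 ^ d : ℕ) : ℝ) ≤
      ((10000000000 * (10000 ^ d - (10000 - umn d * umn d) ^ d) : ℕ) : ℝ) := by exact_mod_cast h5
    rw [Nat.cast_mul (10000000000 : ℕ) (10000 ^ d - (10000 - umn d * umn d) ^ d),
      Nat.cast_sub h4, Nat.cast_pow (10000 - umn d * umn d) d, Nat.cast_sub h3] at h7
    push_cast at h7
    exact h7
  unfold KZero.ss
  have e : (1 : ℝ) - ((umn d : ℝ) / 100) ^ 2 = (10000 - (umn d : ℝ) * umn d) / 10000 := by ring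
  rw [e, div_pow, le_div_iff₀ (by positivity)]
  have hp : (0 : ℝ) < 10000 ^ d := by positivity
  have e2 : (1 : ℝ) - (10000 - (umn d : ℝ) * umn d) ^ d / 10000 ^ d =
      (10000 ^ d - (10000 - (umn d : ℝ) * umn d) ^ d) / 10000 ^ d := by
    rw [sub_div, div_self hp.ne']
  rw [e2, le_div_iff₀ hp]
  nlinarith

end

end Pool.Agent.T6A.C3P
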