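import Pool.Agent.T6A.Cert3RowS0

/-!
# CERT v3, range (R2): rows S1 and F2b, degrees 9 to 11 (helper90)
-/

set_option autoImplicit false

namespace Pool.Agent.T6A.C3S1

theorem degSQ_8 : degSQ 8 = true := by decide +kernel
theorem degSQ_9 : degSQ 9 = true := by decide +kernel
theorem degSQ_10 : degSQ 10 = true := by decide +kernel

end Pool.Agent.T6A.C3S1
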