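import Pool.Agent.T6A.Cert3RowS0

/-!
# CERT v3, range (R2): rows S1 and F2b, degrees 12 to 14 (helper90)
-/

set_option autoImplicit false

namespace Pool.Agent.T6A.C3S1

theorem degSQ_11 : degSQ 11 = true := by decide +kernel
theorem degSQ_12 : degSQ 12 = true := by decide +kernel
theorem degSQ_13 : degSQ 13 = true := by decide +kernel

end Pool.Agent.T6A.C3S1
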