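import Pool.Agent.T6A.Cert3RowS0

/-!
# CERT v3, range (R2): rows S1 and F2b, degrees 15 to 16 (helper90)
-/

set_option autoImplicit false

namespace Pool.Agent.T6A.C3S1

theorem degSQ_14 : degSQ 14 = true := by decide +kernel
theorem degSQ_15 : degSQ 15 = true := by decide +kernel

end Pool.Agent.T6A.C3S1
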