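import Pool.Agent.T6A.Cert3RowSa
import Pool.Agent.T6A.Cert3RowSb
import Pool.Agent.T6A.Cert3RowSc
import Pool.Agent.T6A.Cert3RowSd

/-!
# CERT v3, range (R2): the rows S1 and F2b over the table `C3T.tab` (helper90)

`rowS_tab` : for `e + 1 = d` in `1, …, 25` and a row `r ∈ rows d`, the fields
`hka, hkb, hF0, hnuh0, hnuh1, F2b, S1` of `MugOK` with `N = (par d).N`, `nuh = (1 - r.mu) / r.B`, `c = 29/100`.
-/

set_option autoImplicit false

namespace Pool.Agent.T6A.C3S1

open Pool.Agent.T6A.Bern Pool.Agent.T6A.Line3 Pool.Agent.T6A.C3T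

theorem degSQ_all (e : ℕ) : degSQ e = true := by
  match e with
  | 0 => rfl
  | 1 => rfl
  | 2 => rfl
  | 3 => exact degSQ_3
  | 4 => exact degSQ_4
  | 5 => exact degSQ_5
  | 6 => exact degSQ_6
  | 7 => exact degSQ_7
  | 8 => exact degSQ_8
  | 9 => exact degSQ_9
  | 10 => exact degSQ_10
  | 11 => exact degSQ_11
  | 12 => exact degSQ_12
  | 13 => exact degSQ_13
  | 14 => exact degSQ_14
  | 15 => exact degSQ_15
  | n + 16 => rfl

/-- The rows of the table, for every degree `e + 1`. -/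
theorem rowS_tab (e : ℕ) (r : Row) (hr : r ∈ rows (e + 1)) :
    RowS (29 / 100) e (par (e + 1)).N r ((1 - (r.mu : ℝ)) / r.B) := by
  have h := degSQ_all e
  unfold degSQ at h
  rw [List.all_eq_true] at h
  exact rowSQ_sound (h r hr)

/-- The rows of the table, in the form over `tab`. -/
theorem rowS_mem (t : Par × List Row) (ht : t ∈ C3T.tab) (r : Row) (hr : r ∈ t.2) :
    RowS (29 / 100) (t.1.d - 1) t.1.N r ((1 - (r.mu : ℝ)) / r.B) := by
  unfold C3T.tab at ht
  rw [List.mem_map] at ht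
  obtain ⟨d, hd, rfl⟩ := ht
  have h1 : 1 ≤ d := by
    rw [List.mem_range'_1] at hd
    exact hd.1
  obtain ⟨e, rfl⟩ : ∃ e, d = e + 1 := ⟨d - 1, by omega⟩
  exact rowS_tab e r hr

end Pool.Agent.T6A.C3S1
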