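import Pool.Agent.T6A.Line3
import Pool.Agent.T6A.Cert3Tab

/-!
# LINE for CERT v3, range (R2): the certificates (MP_c6effb_co)

`2.999 ≤ q ≤ 5.001`, `1/2 ≤ s ≤ 1.01`; found by computer, checked by the kernel.
-/

set_option autoImplicit false

namespace Pool.Agent.T6A.Line3

open Bern C3T

/-- The parameters of (R2). -/
def gR : Glob := { xi := 21 / 25, s0 := 9 / 25, eta := 1 / 1000, X := 21 / 50, x1 := 25 / 54 }

/-- The box of (R2). -/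
def boxR : List Iv := mkBox 2999 5001 500 1010 1000

/-- Certificate, degree 0, type 0. -/
def c0_0 : Cert :=
  Cert.void (Tr.dead 1)

/-- Certificate, degree 0, type 1. -/
def c0_1 : Cert :=
  Cert.void (Tr.dead 1)

/-- Certificate, degree 0, type 2. -/
def c0_2 : Cert :=
  Cert.ch
    []
    (Tr.lf [],
      Tr.lf [])

/-- Degree 0. -/
def en0 : Entry := ⟨⟨0, 1486 / 1000, 1⟩, [], c0_0, c0_1, c0_2⟩

theorem en0_ok : en0.chk gR 0 boxR = true := by decide +kernel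

/-- Certificate, degree 1, type 0. -/
def c1_0 : Cert :=
  Cert.void (Tr.dead 1)

/-- Certificate, degree 1, type 1. -/
def c1_1 : Cert :=
  Cert.void (Tr.dead 1)

/-- Certificate, degree 1, type 2. -/
def c1_2 : Cert :=
  Cert.ch
    []
    (Tr.lf [],
      Tr.lf [])

/-- Degree 1. -/
def en1 : Entry := ⟨par 1, rows 1, c1_0, c1_1, c1_2⟩

theorem en1_ok : en1.chk gR 0 boxR = true := by decide +kernel

/-- Certificate, degree 2, type 0. -/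
def c2_0 : Cert :=
  Cert.void (Tr.dead 1)

/-- Certificate, degree 2, type 1. -/
def c2_1 : Cert :=
  Cert.ch
    []
    (Tr.lf [],
      Tr.lf [])

/-- Certificate, degree 2, type 2. -/
def c2_2 : Cert :=
  Cert.ch
    []
    (Tr.lf [],
      Tr.lf [])

/-- Degree 2. -/
def en2 : Entry := ⟨par 2, rows 2, c2_0, c2_1, c2_2⟩

theorem en2_ok : en2.chk gR 0 boxR = true := by decide +kernel

/-- Certificate, degree 3, type 0. -/
def c3_0 : Cert :=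
  Cert.ch
    []
    (Tr.lf [(0, 1), (5, 1)],
      Tr.lf [])

/-- Certificate, degree 3, type 1. -/
def c3_1 : Cert :=
  Cert.ch
    []
    (Tr.lf [],
      Tr.lf [])

/-- Certificate, degree 3, type 2. -/
def c3_2 : Cert :=
  Cert.ch
    []
    (Tr.lf [(0, 1), (5, 1)],
      Tr.lf [(0, 1), (2, 1)])

/-- Degree 3. -/
def en3 : Entry := ⟨par 3, rows 3, c3_0, c3_1, c3_2⟩

theorem en3_ok : en3.chk gR 0 boxR = true := by decide +kernel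

/-- Certificate, degree 4, type 0. -/
def c4_0 : Cert :=
  Cert.ch
    []
    (Tr.sp 0 (Tr.lf [(0, 1), (5, 1)]) (Tr.lf []),
      Tr.lf [])

/-- Certificate, degree 4, type 1. -/
def c4_1 : Cert :=
  Cert.ch
    []
    (Tr.lf [],
      Tr.lf [])

/-- Certificate, degree 4, type 2. -/
def c4_2 : Cert :=
  Cert.ch
    []
    (Tr.sp 0 (Tr.sp 1 (Tr.lf [(0, 1), (5, 1)]) (Tr.lf [])) (Tr.lf [(0, 1), (13, 1)]),
      Tr.lf [(0, 1), (2, 1)])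

/-- Degree 4. -/
def en4 : Entry := ⟨par 4, rows 4, c4_0, c4_1, c4_2⟩

theorem en4_ok : en4.chk gR 0 boxR = true := by decide +kernel

/-- Certificate, degree 5, type 0. -/
def c5_0 : Cert :=
  Cert.ch
    [⟨rw' 160 2291 956 127 917 5 5520 1005,
      Tr.lf [(0, 1), (5, 2)],
      Tr.lf [],
      Tr.lf [],
      Tr.lf [(0, 1), (0, 1), (9, 10)],
      Tr.lf [],
      Tr.lf [(0, 1), (0, 1), (9, 10)]⟩,
    ⟨rw' 110 2102 864 0 1136 6 5060 1005,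
      Tr.sp 0 (Tr.lf [(0, 1), (0, 1), (3, 2)]) (Tr.lf []),
      Tr.lf [],
      Tr.lf [(0, 1), (0, 1), (7, 10)],
      Tr.lf [],
      Tr.lf [],
      Tr.sp 0 (Tr.lf []) (Tr.lf [(0, 1), (0, 1), (0, 1), (1, 1)])⟩]
    (Tr.sp 0 (Tr.lf [(0, 1), (0, 1), (2, 1)]) (Tr.lf []),
      Tr.lf [])

/-- Certificate, degree 5, type 1. -/
def c5_1 : Cert :=
  Cert.ch
    [⟨rw' 160 2291 956 127 917 5 5520 1005,
      Tr.lf [],
      Tr.lf [],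
      Tr.lf [],
      Tr.lf [(1, 10), (0, 1), (1, 1)],
      Tr.lf [],
      Tr.sp 0 (Tr.lf []) (Tr.sp 0 (Tr.lf [(0, 1), (6633, 1), (19587, 1)]) (Tr.sp 0 (Tr.dead 2) (Tr.lf [(16962, 1), (0, 1), (9976, 1)])))⟩]
    (Tr.sp 0 (Tr.lf [(0, 1), (0, 1), (1, 4)]) (Tr.lf []),
      Tr.lf [])

/-- Certificate, degree 5, type 2. -/
def c5_2 : Cert :=
  Cert.ch
    [⟨rw' 125 2163 900 13 1087 5 5200 1005,
      Tr.sp 1 (Tr.lf [(0, 1), (8, 1)]) (Tr.lf [(0, 1), (6, 1)]),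
      Tr.lf [(0, 1), (5, 1)],
      Tr.lf [(0, 1), (3, 1)],
      Tr.lf [(0, 1), (4, 1)],
      Tr.lf [(0, 1), (3, 1)],
      Tr.lf []⟩]
    (Tr.lf [(0, 1), (25, 1), (14, 1)],
      Tr.lf [(0, 1), (17, 1), (13, 1)])

/-- Degree 5. -/
def en5 : Entry := ⟨par 5, rows 5, c5_0, c5_1, c5_2⟩

theorem en5_ok : en5.chk gR 0 boxR = true := by decide +kernel

/-- Certificate, degree 6, type 0. -/
def c6_0 : Cert :=
  Cert.ch
    [⟨rw' 190 2875 992 337 671 4 6840 1000,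
      Tr.lf [(0, 1), (13, 10)],
      Tr.lf [],
      Tr.lf [],
      Tr.lf [(0, 1), (0, 1), (9, 10)],
      Tr.lf [],
      Tr.sp 0 (Tr.lf []) (Tr.dead 2)⟩,
    ⟨rw' 185 2852 990 314 696 5 6780 1000,
      Tr.lf [(0, 1), (0, 1), (4, 5)],
      Tr.lf [],
      Tr.lf [],
      Tr.lf [(0, 1), (0, 1), (0, 1), (9, 10)],
      Tr.lf [],
      Tr.sp 0 (Tr.lf []) (Tr.dead 3)⟩,
    ⟨rw' 180 2830 987 292 721 5 6720 1000,
      Tr.lf [(0, 1), (0, 1), (4, 5)],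
      Tr.lf [],
      Tr.lf [],
      Tr.lf [(0, 1), (0, 1), (0, 1), (9, 10)],
      Tr.lf [],
      Tr.sp 0 (Tr.lf []) (Tr.dead 3)⟩,
    ⟨rw' 170 2788 981 249 770 3 6620 1000,
      Tr.sp 0 (Tr.sp 0 (Tr.sp 0 (Tr.lf [(0, 1), (0, 1), (1, 1)]) (Tr.lf [])) (Tr.lf [])) (Tr.lf []),
      Tr.lf [],
      Tr.lf [],
      Tr.lf [(0, 1), (0, 1), (0, 1), (9, 10)],
      Tr.lf [],
      Tr.sp 0 (Tr.lf []) (Tr.lf [(0, 1), (4430, 1), (0, 1), (17149, 1)])⟩,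
    ⟨rw' 160 2748 974 210 816 3 6500 1000,
      Tr.lf [(0, 1), (0, 1), (21, 25)],
      Tr.lf [],
      Tr.lf [],
      Tr.lf [(0, 1), (0, 1), (0, 1), (9, 10)],
      Tr.lf [],
      Tr.sp 0 (Tr.lf []) (Tr.lf [(0, 1), (0, 1), (0, 1), (6, 1)])⟩,
    ⟨rw' 150 2701 964 168 868 4 6380 1000,
      Tr.lf [(0, 1), (0, 1), (83, 100)],
      Tr.lf [],
      Tr.lf [],
      Tr.lf [(0, 1), (0, 1), (0, 1), (9, 10)],
      Tr.lf [],
      Tr.sp 0 (Tr.lf []) (Tr.lf [(0, 1), (0, 1), (0, 1), (4, 1)])⟩,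
    ⟨rw' 140 2649 953 126 921 2 6280 1000,
      Tr.lf [(0, 1), (0, 1), (4, 5)],
      Tr.lf [],
      Tr.lf [],
      Tr.lf [(0, 1), (0, 1), (0, 1), (9, 10)],
      Tr.lf [],
      Tr.sp 0 (Tr.lf []) (Tr.lf [(0, 1), (0, 1), (0, 1), (3, 1)])⟩,
    ⟨rw' 110 2502 903 17 1080 5 5920 1000,
      Tr.sp 0 (Tr.sp 0 (Tr.lf [(0, 1), (0, 1), (8, 5)]) (Tr.lf [])) (Tr.lf []),
      Tr.lf [],
      Tr.lf [],
      Tr.lf [],
      Tr.lf [],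
      Tr.sp 0 (Tr.lf []) (Tr.sp 0 (Tr.lf []) (Tr.lf [(0, 1), (0, 1), (0, 1), (6, 1)]))⟩,
    ⟨rw' 75 2292 793 0 1207 4 5520 1000,
      Tr.sp 0 (Tr.lf [(0, 1), (0, 1), (2, 1)]) (Tr.lf []),
      Tr.lf [],
      Tr.lf [(0, 1), (0, 1), (7, 10)],
      Tr.lf [],
      Tr.lf [],
      Tr.sp 0 (Tr.lf []) (Tr.sp 0 (Tr.lf []) (Tr.sp 0 (Tr.lf [(0, 1), (0, 1), (0, 1), (3, 2)]) (Tr.lf [(0, 1), (0, 1), (0, 1), (3, 1)])))⟩]
    (Tr.sp 0 (Tr.dead 2) (Tr.lf []),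
      Tr.lf [])

/-- Certificate, degree 6, type 1. -/
def c6_1 : Cert :=
  Cert.ch
    [⟨rw' 100 2442 879 0 1121 2 5820 1000,
      Tr.lf [(1, 2)],
      Tr.lf [],
      Tr.lf [],
      Tr.lf [(1, 50), (0, 1), (1, 1)],
      Tr.lf [],
      Tr.sp 0 (Tr.lf []) (Tr.sp 1 (Tr.sp 0 (Tr.dead 2) (Tr.sp 0 (Tr.lf [(23045, 1), (0, 1), (19620, 1)]) (Tr.lf [(40253, 1), (0, 1), (20466, 1)]))) (Tr.lf [(0, 1), (0, 1), (3, 1)]))⟩]
    (Tr.lf [(0, 1), (0, 1), (37, 100)],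
      Tr.lf [])

/-- Certificate, degree 6, type 2. -/
def c6_2 : Cert :=
  Cert.ch
    [⟨rw' 150 2701 964 168 868 4 6380 1000,
      Tr.sp 1 (Tr.lf [(0, 1), (9, 1)]) (Tr.lf [(0, 1), (11, 1)]),
      Tr.lf [(0, 1), (5, 1)],
      Tr.lf [(0, 1), (3, 1)],
      Tr.lf [(0, 1), (4, 1)],
      Tr.lf [(0, 1), (3, 1)],
      Tr.lf []⟩]
    (Tr.lf [(0, 1), (21, 1), (46, 5)],
      Tr.lf [(0, 1), (13, 1), (8, 1)])

/-- Degree 6. -/
def en6 : Entry := ⟨par 6, rows 6, c6_0, c6_1, c6_2⟩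

theorem en6_ok : en6.chk gR 0 boxR = true := by decide +kernel

/-- Certificate, degree 7, type 0. -/
def c7_0 : Cert :=
  Cert.ch
    [⟨rw' 185 3329 995 389 616 3 7820 1000,
      Tr.sp 1 (Tr.sp 1 (Tr.lf []) (Tr.lf [(0, 1), (2, 1)])) (Tr.lf [(0, 1), (6, 1)]),
      Tr.lf [],
      Tr.lf [],
      Tr.lf [(0, 1), (0, 1), (1, 1)],
      Tr.lf [],
      Tr.sp 0 (Tr.lf []) (Tr.dead 2)⟩,
    ⟨rw' 175 3276 991 341 668 4 7680 1000,
      Tr.sp 1 (Tr.sp 1 (Tr.lf [(0, 1), (0, 1), (21, 25)]) (Tr.lf [(0, 1), (0, 1), (1, 1)])) (Tr.lf [(0, 1), (6, 1), (1, 10)]),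
      Tr.lf [],
      Tr.lf [],
      Tr.lf [(0, 1), (0, 1), (0, 1), (1, 1)],
      Tr.lf [],
      Tr.sp 0 (Tr.lf []) (Tr.dead 3)⟩,
    ⟨rw' 165 3226 986 296 718 4 7540 1000,
      Tr.sp 1 (Tr.sp 1 (Tr.lf [(0, 1), (0, 1), (9, 10)]) (Tr.lf [(0, 1), (0, 1), (1, 1)])) (Tr.lf [(0, 1), (0, 1), (2, 1)]),
      Tr.lf [],
      Tr.lf [],
      Tr.lf [(0, 1), (0, 1), (0, 1), (1, 1)],
      Tr.lf [],
      Tr.sp 0 (Tr.lf []) (Tr.dead 3)⟩,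
    ⟨rw' 160 3196 983 272 745 2 7480 1000,
      Tr.lf [(0, 1), (0, 1), (24, 25)],
      Tr.lf [],
      Tr.lf [],
      Tr.lf [(0, 1), (0, 1), (0, 1), (9, 10)],
      Tr.lf [],
      Tr.sp 0 (Tr.lf []) (Tr.dead 3)⟩,
    ⟨rw' 150 3139 976 226 798 3 7340 1000,
      Tr.sp 1 (Tr.lf [(0, 1), (0, 1), (93, 100)]) (Tr.lf [(0, 1), (0, 1), (1, 1)]),
      Tr.lf [],
      Tr.lf [],
      Tr.lf [(0, 1), (0, 1), (0, 1), (9, 10)],
      Tr.lf [],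
      Tr.sp 0 (Tr.lf []) (Tr.dead 3)⟩,
    ⟨rw' 135 3059 961 162 877 5 7120 1000,
      Tr.sp 0 (Tr.sp 0 (Tr.lf [(0, 1), (0, 1), (6, 5)]) (Tr.lf [])) (Tr.lf []),
      Tr.lf [],
      Tr.lf [],
      Tr.lf [(0, 1), (0, 1), (0, 1), (4, 5)],
      Tr.lf [],
      Tr.sp 0 (Tr.lf []) (Tr.sp 0 (Tr.lf [(0, 1), (0, 1), (0, 1), (4, 1)]) (Tr.dead 3))⟩,
    ⟨rw' 110 2902 925 57 1018 4 6780 1000,
      Tr.sp 0 (Tr.sp 0 (Tr.lf [(0, 1), (0, 1), (7, 5)]) (Tr.lf [])) (Tr.lf []),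
      Tr.lf [],
      Tr.lf [],
      Tr.lf [],
      Tr.lf [],
      Tr.sp 0 (Tr.lf []) (Tr.sp 0 (Tr.lf [(0, 1), (0, 1), (0, 1), (2, 1)]) (Tr.dead 3))⟩,
    ⟨rw' 75 2645 832 0 1168 3 6300 1000,
      Tr.sp 0 (Tr.sp 0 (Tr.lf [(0, 1), (0, 1), (2, 1)]) (Tr.lf [(0, 1), (0, 1), (9, 10)])) (Tr.lf []),
      Tr.lf [],
      Tr.lf [],
      Tr.lf [],
      Tr.lf [],
      Tr.sp 0 (Tr.lf []) (Tr.sp 0 (Tr.lf [(0, 1), (0, 1), (0, 1), (1, 1)]) (Tr.sp 0 (Tr.lf [(0, 1), (0, 1), (0, 1), (3, 1)]) (Tr.lf [(982, 1), (0, 1), (0, 1), (16672, 1)])))⟩]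
    (Tr.sp 0 (Tr.lf [(0, 1), (0, 1), (4, 1)]) (Tr.lf []),
      Tr.lf [])

/-- Certificate, degree 7, type 1. -/
def c7_1 : Cert :=
  Cert.ch
    [⟨rw' 125 2999 949 119 932 5 6980 1000,
      Tr.lf [(4, 5)],
      Tr.lf [],
      Tr.lf [],
      Tr.lf [(0, 1), (0, 1), (1, 1)],
      Tr.lf [],
      Tr.sp 0 (Tr.lf [(0, 1), (0, 1), (3, 2)]) (Tr.sp 1 (Tr.sp 0 (Tr.lf [(17176, 1), (0, 1), (17476, 1)]) (Tr.lf [(44553, 1), (0, 1), (17865, 1)])) (Tr.dead 2))⟩]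
    (Tr.sp 0 (Tr.lf [(0, 1), (0, 1), (4, 5)]) (Tr.lf [(0, 1), (0, 1), (4, 5)]),
      Tr.lf [])

/-- Certificate, degree 7, type 2. -/
def c7_2 : Cert :=
  Cert.ch
    [⟨rw' 160 3196 983 272 745 2 7480 1000,
      Tr.sp 1 (Tr.lf [(0, 1), (29523, 1)]) (Tr.lf [(0, 1), (13, 1)]),
      Tr.lf [(0, 1), (9, 1)],
      Tr.lf [(0, 1), (3, 1)],
      Tr.lf [(0, 1), (5, 1)],
      Tr.lf [(0, 1), (5, 1)],
      Tr.lf []⟩]
    (Tr.lf [(0, 1), (37, 1), (16, 1)],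
      Tr.lf [(0, 1), (12, 1), (6, 1)])

/-- Degree 7. -/
def en7 : Entry := ⟨par 7, rows 7, c7_0, c7_1, c7_2⟩

theorem en7_ok : en7.chk gR 0 boxR = true := by decide +kernel

/-- Certificate, degree 8, type 0. -/
def c8_0 : Cert :=
  Cert.ch
    [⟨rw' 185 3811 997 454 549 3 8860 1000,
      Tr.sp 1 (Tr.lf []) (Tr.lf [(0, 1), (5, 1)]),
      Tr.lf [],
      Tr.lf [],
      Tr.lf [(0, 1), (3, 10), (2, 1)],
      Tr.lf [],
      Tr.sp 0 (Tr.lf []) (Tr.sp 0 (Tr.dead 2) (Tr.lf [(29247, 1), (0, 1), (12048, 1)]))⟩,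
    ⟨rw' 175 3752 994 404 602 2 8700 1000,
      Tr.sp 1 (Tr.lf [(0, 1), (0, 1), (9, 10)]) (Tr.lf [(0, 1), (0, 1), (3, 2)]),
      Tr.lf [],
      Tr.lf [],
      Tr.lf [(0, 1), (2, 5), (0, 1), (2, 1)],
      Tr.lf [],
      Tr.sp 0 (Tr.lf []) (Tr.sp 0 (Tr.dead 3) (Tr.lf [(22501, 1), (0, 1), (0, 1), (10055, 1)]))⟩,
    ⟨rw' 160 3655 988 329 683 5 8440 1000,
      Tr.sp 1 (Tr.sp 1 (Tr.lf []) (Tr.lf [(0, 1), (0, 1), (31, 25)])) (Tr.lf [(0, 1), (0, 1), (3, 2)]),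
      Tr.lf [],
      Tr.lf [],
      Tr.lf [(0, 1), (0, 1), (0, 1), (1, 1)],
      Tr.lf [],
      Tr.sp 0 (Tr.lf []) (Tr.sp 0 (Tr.dead 3) (Tr.lf [(20940, 1), (0, 1), (0, 1), (10764, 1)]))⟩,
    ⟨rw' 140 3527 975 234 791 4 8120 1000,
      Tr.sp 1 (Tr.sp 1 (Tr.lf [(0, 1), (0, 1), (1, 1)]) (Tr.lf [(0, 1), (0, 1), (156, 125)])) (Tr.lf [(0, 1), (0, 1), (3, 2)]),
      Tr.lf [],
      Tr.lf [],
      Tr.lf [(0, 1), (0, 1), (0, 1), (1, 1)],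
      Tr.lf [],
      Tr.sp 0 (Tr.lf []) (Tr.sp 0 (Tr.dead 3) (Tr.lf [(18767, 1), (0, 1), (0, 1), (12057, 1)]))⟩,
    ⟨rw' 110 3299 939 90 971 3 7640 1000,
      Tr.sp 0 (Tr.sp 0 (Tr.sp 1 (Tr.sp 0 (Tr.lf [(0, 1), (0, 1), (3, 2)]) (Tr.lf [(0, 1), (0, 1), (1, 1)])) (Tr.lf [(0, 1), (0, 1), (3, 1)])) (Tr.lf [])) (Tr.lf []),
      Tr.lf [],
      Tr.lf [],
      Tr.lf [],
      Tr.lf [],
      Tr.sp 0 (Tr.lf []) (Tr.sp 0 (Tr.lf [(0, 1), (0, 1), (0, 1), (6, 1)]) (Tr.sp 0 (Tr.dead 3) (Tr.lf [(23903, 1), (0, 1), (0, 1), (15060, 1)])))⟩,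
    ⟨rw' 75 2996 857 0 1143 3 7080 1000,
      Tr.sp 0 (Tr.lf [(0, 1), (0, 1), (11, 5)]) (Tr.lf []),
      Tr.lf [],
      Tr.lf [],
      Tr.lf [],
      Tr.lf [],
      Tr.sp 0 (Tr.lf []) (Tr.sp 1 (Tr.sp 0 (Tr.lf [(0, 1), (0, 1), (0, 1), (6, 1)]) (Tr.lf [(24644, 1), (0, 1), (0, 1), (27492, 1)])) (Tr.lf [(0, 1), (0, 1), (0, 1), (2, 1)]))⟩]
    (Tr.sp 0 (Tr.lf [(0, 1), (0, 1), (3, 1)]) (Tr.lf []),
      Tr.lf [])

/-- Certificate, degree 8, type 1. -/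
def c8_1 : Cert :=
  Cert.ch
    [⟨rw' 110 3299 939 90 971 3 7640 1000,
      Tr.sp 0 (Tr.lf []) (Tr.lf [(3, 1)]),
      Tr.lf [],
      Tr.lf [],
      Tr.lf [(0, 1), (0, 1), (1, 1)],
      Tr.lf [],
      Tr.sp 0 (Tr.sp 0 (Tr.lf []) (Tr.lf [(0, 1), (0, 1), (4, 1)])) (Tr.sp 0 (Tr.sp 1 (Tr.sp 0 (Tr.lf [(21681, 1), (0, 1), (19744, 1)]) (Tr.lf [(53756, 1), (0, 1), (28924, 1)])) (Tr.dead 2)) (Tr.sp 1 (Tr.lf [(43421, 1), (0, 1), (14500, 1)]) (Tr.lf [(28873, 1), (0, 1), (18987, 1)])))⟩]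
    (Tr.lf [(0, 1), (0, 1), (4, 5)],
      Tr.lf [])

/-- Certificate, degree 8, type 2. -/
def c8_2 : Cert :=
  Cert.ch
    [⟨rw' 170 3724 993 381 626 2 8620 1000,
      Tr.lf [(0, 1), (25, 1)],
      Tr.lf [(0, 1), (8, 1)],
      Tr.lf [(0, 1), (6, 1)],
      Tr.lf [(0, 1), (7, 1)],
      Tr.lf [(0, 1), (5, 1)],
      Tr.lf []⟩]
    (Tr.lf [(0, 1), (35, 1), (14, 1)],
      Tr.lf [(0, 1), (11, 1), (5, 1)])

/-- Degree 8. -/
def en8 : Entry := ⟨par 8, rows 8, c8_0, c8_1, c8_2⟩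

theorem en8_ok : en8.chk gR 0 boxR = true := by decide +kernel

/-- Certificate, degree 9, type 0. -/
def c9_0 : Cert :=
  Cert.ch
    [⟨rw' 180 4273 997 487 516 3 9800 1000,
      Tr.sp 1 (Tr.lf []) (Tr.sp 1 (Tr.lf [(0, 1), (3, 1)]) (Tr.lf [(0, 1), (7, 1)])),
      Tr.lf [],
      Tr.lf [],
      Tr.lf [(0, 1), (0, 1), (1, 1)],
      Tr.lf [],
      Tr.sp 0 (Tr.lf [(0, 1), (0, 1), (4, 1)]) (Tr.sp 0 (Tr.dead 2) (Tr.lf [(48983, 1), (0, 1), (15922, 1)]))⟩,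
    ⟨rw' 170 4194 995 431 574 2 9620 1000,
      Tr.sp 1 (Tr.lf []) (Tr.lf [(0, 1), (0, 1), (3, 2)]),
      Tr.lf [],
      Tr.lf [],
      Tr.lf [(0, 1), (0, 1), (0, 1), (1, 1)],
      Tr.lf [],
      Tr.sp 0 (Tr.lf [(0, 1), (0, 1), (0, 1), (3, 1)]) (Tr.sp 0 (Tr.dead 3) (Tr.lf [(39868, 1), (0, 1), (0, 1), (13884, 1)]))⟩,
    ⟨rw' 150 4031 987 322 691 3 9240 1000,
      Tr.sp 1 (Tr.lf [(0, 1), (0, 1), (1, 1)]) (Tr.lf [(0, 1), (0, 1), (159, 100)]),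
      Tr.lf [],
      Tr.lf [],
      Tr.lf [(0, 1), (0, 1), (0, 1), (1, 1)],
      Tr.lf [],
      Tr.sp 0 (Tr.lf [(0, 1), (0, 1), (0, 1), (3, 1)]) (Tr.sp 0 (Tr.dead 3) (Tr.lf [(37145, 1), (0, 1), (0, 1), (15117, 1)]))⟩,
    ⟨rw' 125 3840 967 197 836 3 8780 1000,
      Tr.sp 1 (Tr.lf [(0, 1), (0, 1), (7, 5)]) (Tr.lf [(0, 1), (0, 1), (8, 5)]),
      Tr.lf [],
      Tr.lf [],
      Tr.lf [(0, 1), (0, 1), (0, 1), (1, 1)],
      Tr.lf [],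
      Tr.sp 0 (Tr.lf [(0, 1), (0, 1), (0, 1), (2, 1)]) (Tr.sp 0 (Tr.dead 3) (Tr.lf [(33895, 1), (0, 1), (0, 1), (17371, 1)]))⟩,
    ⟨rw' 75 3354 874 0 1126 3 7860 1000,
      Tr.sp 0 (Tr.sp 0 (Tr.sp 1 (Tr.lf [(0, 1), (0, 1), (113, 50)]) (Tr.lf [(0, 1), (0, 1), (3, 1)])) (Tr.lf [])) (Tr.lf []),
      Tr.lf [],
      Tr.lf [],
      Tr.lf [],
      Tr.lf [],
      Tr.sp 0 (Tr.lf []) (Tr.sp 0 (Tr.sp 1 (Tr.dead 3) (Tr.lf [])) (Tr.sp 1 (Tr.lf [(49081, 1), (0, 1), (0, 1), (31502, 1)]) (Tr.dead 3)))⟩]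
    (Tr.sp 0 (Tr.lf [(0, 1), (0, 1), (3, 1)]) (Tr.lf []),
      Tr.lf [])

/-- Certificate, degree 9, type 1. -/
def c9_1 : Cert :=
  Cert.ch
    [⟨rw' 125 3840 967 197 836 3 8780 1000,
      Tr.sp 0 (Tr.lf []) (Tr.lf [(5, 1)]),
      Tr.lf [],
      Tr.lf [],
      Tr.lf [(0, 1), (0, 1), (1, 1)],
      Tr.lf [],
      Tr.sp 0 (Tr.sp 0 (Tr.lf [(0, 1), (0, 1), (3, 1)]) (Tr.sp 0 (Tr.lf [(0, 1), (0, 1), (15, 1)]) (Tr.lf [(11755, 1), (0, 1), (24602, 1)]))) (Tr.sp 0 (Tr.sp 1 (Tr.lf [(55755, 1), (0, 1), (24872, 1)]) (Tr.dead 2)) (Tr.lf [(48599, 1), (0, 1), (14579, 1)]))⟩]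
    (Tr.sp 1 (Tr.lf [(0, 1), (0, 1), (1, 1)]) (Tr.lf [(0, 1), (0, 1), (6, 5)]),
      Tr.lf [])

/-- Certificate, degree 9, type 2. -/
def c9_2 : Cert :=
  Cert.ch
    [⟨rw' 185 4292 998 507 495 4 9880 1000,
      Tr.lf [(0, 1), (22, 1)],
      Tr.lf [(0, 1), (8, 1)],
      Tr.lf [(0, 1), (6, 1)],
      Tr.lf [(0, 1), (6, 1)],
      Tr.lf [(0, 1), (5, 1)],
      Tr.lf []⟩]
    (Tr.lf [(0, 1), (60642, 1), (30088, 1)],
      Tr.lf [(0, 1), (18150, 1), (8446, 1)])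

/-- Degree 9. -/
def en9 : Entry := ⟨par 9, rows 9, c9_0, c9_1, c9_2⟩

theorem en9_ok : en9.chk gR 0 boxR = true := by decide +kernel

/-- Certificate, degree 10, type 0. -/
def c10_0 : Cert :=
  Cert.ch
    [⟨rw' 180 4742 998 529 473 3 10820 1000,
      Tr.lf [],
      Tr.lf [],
      Tr.lf [],
      Tr.lf [(0, 1), (0, 1), (1, 1)],
      Tr.lf [],
      Tr.sp 0 (Tr.lf [(0, 1), (0, 1), (8, 1)]) (Tr.sp 0 (Tr.lf [(27794, 1), (0, 1), (13739, 1)]) (Tr.lf [(66800, 1), (0, 1), (17507, 1)]))⟩,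
    ⟨rw' 165 4616 995 445 560 4 10500 1000,
      Tr.lf [(0, 1), (0, 1), (13, 10)],
      Tr.lf [],
      Tr.lf [],
      Tr.lf [(0, 1), (0, 1), (0, 1), (1, 1)],
      Tr.lf [],
      Tr.sp 0 (Tr.lf [(0, 1), (0, 1), (0, 1), (6, 1)]) (Tr.sp 0 (Tr.lf [(22143, 1), (0, 1), (0, 1), (12767, 1)]) (Tr.lf [(64724, 1), (0, 1), (0, 1), (18460, 1)]))⟩,
    ⟨rw' 140 4390 984 305 711 4 9980 1000,
      Tr.sp 1 (Tr.lf []) (Tr.sp 1 (Tr.lf [(0, 1), (0, 1), (9, 5)]) (Tr.lf [(0, 1), (0, 1), (19, 10)])),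
      Tr.lf [],
      Tr.lf [],
      Tr.lf [(0, 1), (0, 1), (0, 1), (1, 1)],
      Tr.lf [],
      Tr.sp 0 (Tr.lf [(0, 1), (0, 1), (0, 1), (7, 2)]) (Tr.sp 0 (Tr.lf [(21116, 1), (0, 1), (0, 1), (17022, 1)]) (Tr.lf [(63562, 1), (0, 1), (0, 1), (21364, 1)]))⟩,
    ⟨rw' 100 4002 941 96 963 3 9160 1000,
      Tr.sp 0 (Tr.sp 1 (Tr.lf [(0, 1), (0, 1), (2, 1)]) (Tr.lf [(0, 1), (0, 1), (377, 200)])) (Tr.lf []),
      Tr.lf [],
      Tr.lf [],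
      Tr.lf [],
      Tr.lf [],
      Tr.sp 0 (Tr.lf [(0, 1), (0, 1), (0, 1), (2, 1)]) (Tr.sp 1 (Tr.sp 0 (Tr.lf [(26723, 1), (0, 1), (0, 1), (23103, 1)]) (Tr.lf [(65213, 1), (0, 1), (0, 1), (23634, 1)])) (Tr.lf [(5001, 1), (0, 1), (0, 1), (21316, 1)]))⟩]
    (Tr.sp 0 (Tr.sp 0 (Tr.sp 1 (Tr.lf [(0, 1), (0, 1), (3, 1)]) (Tr.lf [(0, 1), (0, 1), (4, 1)])) (Tr.lf [(0, 1), (0, 1), (7, 2)])) (Tr.lf []),
      Tr.lf [])

/-- Certificate, degree 10, type 1. -/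
def c10_1 : Cert :=
  Cert.ch
    [⟨rw' 125 4250 972 225 803 3 9680 1000,
      Tr.sp 0 (Tr.lf []) (Tr.lf [(7, 1)]),
      Tr.lf [],
      Tr.lf [(2, 1)],
      Tr.lf [(0, 1), (0, 1), (1, 1)],
      Tr.lf [],
      Tr.sp 0 (Tr.sp 0 (Tr.lf [(0, 1), (0, 1), (4, 1)]) (Tr.sp 1 (Tr.lf [(31807, 1), (0, 1), (25559, 1)]) (Tr.dead 2))) (Tr.sp 0 (Tr.sp 1 (Tr.lf [(56373, 1), (0, 1), (19496, 1)]) (Tr.dead 2)) (Tr.lf [(51583, 1), (0, 1), (12693, 1)]))⟩]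
    (Tr.lf [(0, 1), (0, 1), (7, 5)],
      Tr.lf [])

/-- Certificate, degree 10, type 2. -/
def c10_2 : Cert :=
  Cert.void (Tr.dead 1)

/-- Degree 10. -/
def en10 : Entry := ⟨par 10, rows 10, c10_0, c10_1, c10_2⟩

theorem en10_ok : en10.chk gR 0 boxR = true := by decide +kernel

/-- Certificate, degree 11, type 0. -/
def c11_0 : Cert :=
  Cert.ch
    [⟨rw' 165 5094 997 489 514 4 11500 1000,
      Tr.lf [],
      Tr.lf [],
      Tr.lf [],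
      Tr.lf [(0, 1), (0, 1), (1, 1)],
      Tr.lf [],
      Tr.sp 0 (Tr.lf [(0, 1), (0, 1), (17, 1)]) (Tr.sp 0 (Tr.lf [(39805, 1), (0, 1), (16749, 1)]) (Tr.lf [(66100, 1), (0, 1), (15460, 1)]))⟩,
    ⟨rw' 140 4834 987 340 673 4 10920 1000,
      Tr.lf [(0, 1), (0, 1), (37, 20)],
      Tr.lf [],
      Tr.lf [],
      Tr.lf [(0, 1), (0, 1), (0, 1), (1, 1)],
      Tr.lf [],
      Tr.sp 0 (Tr.sp 0 (Tr.lf [(0, 1), (0, 1), (0, 1), (4, 1)]) (Tr.dead 3)) (Tr.sp 1 (Tr.lf [(62289, 1), (0, 1), (0, 1), (19577, 1)]) (Tr.lf [(27293, 1), (0, 1), (0, 1), (16710, 1)]))⟩,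
    ⟨rw' 100 4393 947 117 936 3 10000 1000,
      Tr.sp 0 (Tr.lf [(0, 1), (0, 1), (2, 1)]) (Tr.lf []),
      Tr.lf [],
      Tr.lf [],
      Tr.lf [],
      Tr.lf [],
      Tr.sp 0 (Tr.sp 0 (Tr.lf []) (Tr.sp 0 (Tr.lf [(0, 1), (0, 1), (0, 1), (6, 1)]) (Tr.dead 3))) (Tr.sp 0 (Tr.sp 0 (Tr.lf [(17566, 1), (0, 1), (0, 1), (23415, 1)]) (Tr.lf [(38563, 1), (0, 1), (0, 1), (24361, 1)])) (Tr.lf [(56933, 1), (0, 1), (0, 1), (20296, 1)]))⟩]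
    (Tr.sp 0 (Tr.sp 0 (Tr.sp 0 (Tr.lf [(0, 1), (0, 1), (4, 1)]) (Tr.lf [(0, 1), (0, 1), (4, 1)])) (Tr.lf [(0, 1), (0, 1), (2, 1)])) (Tr.lf []),
      Tr.lf [])

/-- Certificate, degree 11, type 1. -/
def c11_1 : Cert :=
  Cert.ch
    [⟨rw' 125 4682 976 257 767 3 10580 1000,
      Tr.sp 0 (Tr.lf []) (Tr.lf [(12, 1), (0, 1), (7, 10)]),
      Tr.lf [],
      Tr.lf [(2, 1)],
      Tr.lf [],
      Tr.lf [],
      Tr.sp 0 (Tr.sp 1 (Tr.sp 0 (Tr.dead 2) (Tr.lf [(59122, 1), (0, 1), (32495, 1)])) (Tr.lf [(0, 1), (0, 1), (5, 1)])) (Tr.sp 0 (Tr.sp 1 (Tr.lf [(58588, 1), (0, 1), (16367, 1)]) (Tr.lf [(49450, 1), (0, 1), (25448, 1)])) (Tr.lf [(55093, 1), (0, 1), (11405, 1)]))⟩]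
    (Tr.lf [(0, 1), (0, 1), (17, 10)],
      Tr.lf [])

/-- Certificate, degree 11, type 2. -/
def c11_2 : Cert :=
  Cert.void (Tr.dead 1)

/-- Degree 11. -/
def en11 : Entry := ⟨par 11, rows 11, c11_0, c11_1, c11_2⟩

theorem en11_ok : en11.chk gR 0 boxR = true := by decide +kernel

/-- Certificate, degree 12, type 0. -/
def c12_0 : Cert :=
  Cert.ch
    [⟨rw' 140 5279 989 372 639 3 11860 1000,
      Tr.lf [],
      Tr.lf [],
      Tr.lf [],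
      Tr.lf [],
      Tr.lf [],
      Tr.sp 0 (Tr.sp 0 (Tr.lf [(0, 1), (0, 1), (7, 1)]) (Tr.lf [(21728, 1), (0, 1), (26700, 1)])) (Tr.sp 0 (Tr.lf [(58413, 1), (0, 1), (23400, 1)]) (Tr.lf [(64153, 1), (0, 1), (14320, 1)]))⟩,
    ⟨rw' 100 4790 952 139 909 3 10840 1000,
      Tr.lf [(0, 1), (0, 1), (2, 1)],
      Tr.lf [],
      Tr.lf [],
      Tr.lf [],
      Tr.lf [],
      Tr.sp 0 (Tr.sp 0 (Tr.lf [(0, 1), (0, 1), (0, 1), (3, 1)]) (Tr.sp 1 (Tr.lf [(19683, 1), (0, 1), (0, 1), (24643, 1)]) (Tr.lf []))) (Tr.sp 0 (Tr.sp 1 (Tr.lf [(71907, 1), (0, 1), (0, 1), (29829, 1)]) (Tr.dead 3)) (Tr.lf [(64458, 1), (0, 1), (0, 1), (18264, 1)]))⟩]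
    (Tr.sp 0 (Tr.sp 0 (Tr.lf [(0, 1), (0, 1), (3, 1)]) (Tr.lf [])) (Tr.lf []),
      Tr.lf [])

/-- Certificate, degree 12, type 1. -/
def c12_1 : Cert :=
  Cert.ch
    []
    (Tr.sp 0 (Tr.lf []) (Tr.lf [(12, 1)]),
      Tr.lf [])

/-- Certificate, degree 12, type 2. -/
def c12_2 : Cert :=
  Cert.void (Tr.dead 1)

/-- Degree 12. -/
def en12 : Entry := ⟨par 12, rows 12, c12_0, c12_1, c12_2⟩

theorem en12_ok : en12.chk gR 0 boxR = true := by decide +kernel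

/-- Certificate, degree 13, type 0. -/
def c13_0 : Cert :=
  Cert.ch
    [⟨rw' 100 5175 957 157 886 3 11700 1000,
      Tr.sp 0 (Tr.lf []) (Tr.lf [(10, 1), (0, 1), (1, 10)]),
      Tr.lf [],
      Tr.lf [],
      Tr.lf [],
      Tr.lf [],
      Tr.sp 0 (Tr.sp 1 (Tr.sp 0 (Tr.dead 2) (Tr.lf [(45541, 1), (0, 1), (33972, 1)])) (Tr.lf [(0, 1), (0, 1), (4, 1)])) (Tr.sp 0 (Tr.sp 0 (Tr.lf [(64993, 1), (0, 1), (34211, 1)]) (Tr.lf [(62195, 1), (0, 1), (21879, 1)])) (Tr.lf [(59093, 1), (0, 1), (13888, 1)]))⟩]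
    (Tr.lf [(0, 1), (0, 1), (14, 5)],
      Tr.lf [])

/-- Certificate, degree 13, type 1. -/
def c13_1 : Cert :=
  Cert.ch
    []
    (Tr.sp 0 (Tr.lf []) (Tr.lf [(16, 1)]),
      Tr.lf [])

/-- Certificate, degree 13, type 2. -/
def c13_2 : Cert :=
  Cert.void (Tr.dead 1)

/-- Degree 13. -/
def en13 : Entry := ⟨par 13, rows 13, c13_0, c13_1, c13_2⟩

theorem en13_ok : en13.chk gR 0 boxR = true := by decide +kernel

/-- Certificate, degree 14, type 0. -/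
def c14_0 : Cert :=
  Cert.ch
    [⟨rw' 110 5708 972 234 794 3 12840 1000,
      Tr.sp 0 (Tr.lf []) (Tr.lf [(13, 1)]),
      Tr.lf [],
      Tr.lf [],
      Tr.lf [],
      Tr.lf [],
      Tr.sp 0 (Tr.sp 1 (Tr.sp 0 (Tr.dead 2) (Tr.lf [(72598, 1), (0, 1), (34657, 1)])) (Tr.lf [(0, 1), (0, 1), (7, 1)])) (Tr.sp 0 (Tr.lf [(67129, 1), (0, 1), (21791, 1)]) (Tr.dead 0))⟩]
    (Tr.lf [(0, 1), (0, 1), (3, 1)],
      Tr.lf [])

/-- Certificate, degree 14, type 1. -/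
def c14_1 : Cert :=
  Cert.ch
    []
    (Tr.sp 0 (Tr.lf []) (Tr.lf [(21, 1)]),
      Tr.lf [])

/-- Certificate, degree 14, type 2. -/
def c14_2 : Cert :=
  Cert.void (Tr.dead 1)

/-- Degree 14. -/
def en14 : Entry := ⟨par 14, rows 14, c14_0, c14_1, c14_2⟩

theorem en14_ok : en14.chk gR 0 boxR = true := by decide +kernel

/-- Certificate, degree 15, type 0. -/
def c15_0 : Cert :=
  Cert.ch
    []
    (Tr.sp 0 (Tr.lf []) (Tr.lf [(16, 1)]),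
      Tr.lf [])

/-- Certificate, degree 15, type 1. -/
def c15_1 : Cert :=
  Cert.ch
    []
    (Tr.sp 0 (Tr.lf [(4, 1)]) (Tr.dead 0),
      Tr.lf [])

/-- Certificate, degree 15, type 2. -/
def c15_2 : Cert :=
  Cert.void (Tr.dead 1)

/-- Degree 15. -/
def en15 : Entry := ⟨par 15, rows 15, c15_0, c15_1, c15_2⟩

theorem en15_ok : en15.chk gR 0 boxR = true := by decide +kernel

/-- Certificate, degree 16, type 0. -/
def c16_0 : Cert :=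
  Cert.ch
    []
    (Tr.sp 0 (Tr.lf []) (Tr.lf [(21, 1)]),
      Tr.lf [])

/-- Certificate, degree 16, type 1. -/
def c16_1 : Cert :=
  Cert.ch
    []
    (Tr.sp 0 (Tr.lf [(6, 1)]) (Tr.dead 0),
      Tr.lf [])

/-- Certificate, degree 16, type 2. -/
def c16_2 : Cert :=
  Cert.void (Tr.dead 1)

/-- Degree 16. -/
def en16 : Entry := ⟨par 16, rows 16, c16_0, c16_1, c16_2⟩

theorem en16_ok : en16.chk gR 0 boxR = true := by decide +kernel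

/-- Certificate, degree 17, type 0. -/
def c17_0 : Cert :=
  Cert.ch
    []
    (Tr.sp 0 (Tr.lf []) (Tr.dead 0),
      Tr.lf [])

/-- Certificate, degree 17, type 1. -/
def c17_1 : Cert :=
  Cert.ch
    []
    (Tr.sp 0 (Tr.lf [(9, 1)]) (Tr.dead 0),
      Tr.lf [])

/-- Certificate, degree 17, type 2. -/
def c17_2 : Cert :=
  Cert.void (Tr.dead 1)

/-- Degree 17. -/
def en17 : Entry := ⟨par 17, rows 17, c17_0, c17_1, c17_2⟩

theorem en17_ok : en17.chk gR 0 boxR = true := by decide +kernel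

/-- Certificate, degree 18, type 0. -/
def c18_0 : Cert :=
  Cert.ch
    []
    (Tr.sp 0 (Tr.lf []) (Tr.dead 0),
      Tr.lf [])

/-- Certificate, degree 18, type 1. -/
def c18_1 : Cert :=
  Cert.ch
    []
    (Tr.lf [(27, 1)],
      Tr.lf [])

/-- Certificate, degree 18, type 2. -/
def c18_2 : Cert :=
  Cert.void (Tr.dead 1)

/-- Degree 18. -/
def en18 : Entry := ⟨par 18, rows 18, c18_0, c18_1, c18_2⟩

theorem en18_ok : en18.chk gR 0 boxR = true := by decide +kernel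

/-- Certificate, degree 19, type 0. -/
def c19_0 : Cert :=
  Cert.ch
    []
    (Tr.lf [(19, 1)],
      Tr.lf [])

/-- Certificate, degree 19, type 1. -/
def c19_1 : Cert :=
  Cert.ch
    []
    (Tr.lf [(33, 1)],
      Tr.lf [])

/-- Certificate, degree 19, type 2. -/
def c19_2 : Cert :=
  Cert.void (Tr.dead 1)

/-- Degree 19. -/
def en19 : Entry := ⟨par 19, rows 19, c19_0, c19_1, c19_2⟩

theorem en19_ok : en19.chk gR 0 boxR = true := by decide +kernel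

/-- Certificate, degree 20, type 0. -/
def c20_0 : Cert :=
  Cert.ch
    []
    (Tr.lf [(24, 1)],
      Tr.lf [])

/-- Certificate, degree 20, type 1. -/
def c20_1 : Cert :=
  Cert.ch
    []
    (Tr.lf [(40, 1)],
      Tr.lf [])

/-- Certificate, degree 20, type 2. -/
def c20_2 : Cert :=
  Cert.void (Tr.dead 1)

/-- Degree 20. -/
def en20 : Entry := ⟨par 20, rows 20, c20_0, c20_1, c20_2⟩

theorem en20_ok : en20.chk gR 0 boxR = true := by decide +kernel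

/-- Certificate, degree 21, type 0. -/
def c21_0 : Cert :=
  Cert.ch
    []
    (Tr.lf [(30, 1)],
      Tr.lf [])

/-- Certificate, degree 21, type 1. -/
def c21_1 : Cert :=
  Cert.ch
    []
    (Tr.lf [(47, 1)],
      Tr.lf [])

/-- Certificate, degree 21, type 2. -/
def c21_2 : Cert :=
  Cert.void (Tr.dead 1)

/-- Degree 21. -/
def en21 : Entry := ⟨par 21, rows 21, c21_0, c21_1, c21_2⟩

theorem en21_ok : en21.chk gR 0 boxR = true := by decide +kernel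

/-- Certificate, degree 22, type 0. -/
def c22_0 : Cert :=
  Cert.ch
    []
    (Tr.lf [(37, 1)],
      Tr.lf [])

/-- Certificate, degree 22, type 1. -/
def c22_1 : Cert :=
  Cert.void (Tr.dead 0)

/-- Certificate, degree 22, type 2. -/
def c22_2 : Cert :=
  Cert.void (Tr.dead 1)

/-- Degree 22. -/
def en22 : Entry := ⟨par 22, rows 22, c22_0, c22_1, c22_2⟩

theorem en22_ok : en22.chk gR 0 boxR = true := by decide +kernel

/-- Certificate, degree 23, type 0. -/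
def c23_0 : Cert :=
  Cert.ch
    []
    (Tr.lf [(44, 1)],
      Tr.lf [])

/-- Certificate, degree 23, type 1. -/
def c23_1 : Cert :=
  Cert.void (Tr.dead 0)

/-- Certificate, degree 23, type 2. -/
def c23_2 : Cert :=
  Cert.void (Tr.dead 1)

/-- Degree 23. -/
def en23 : Entry := ⟨par 23, rows 23, c23_0, c23_1, c23_2⟩

theorem en23_ok : en23.chk gR 0 boxR = true := by decide +kernel

/-- Certificate, degree 24, type 0. -/
def c24_0 : Cert :=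
  Cert.void (Tr.dead 0)

/-- Certificate, degree 24, type 1. -/
def c24_1 : Cert :=
  Cert.void (Tr.dead 0)

/-- Certificate, degree 24, type 2. -/
def c24_2 : Cert :=
  Cert.void (Tr.dead 1)

/-- Degree 24. -/
def en24 : Entry := ⟨par 24, rows 24, c24_0, c24_1, c24_2⟩

theorem en24_ok : en24.chk gR 0 boxR = true := by decide +kernel

/-- Certificate, degree 25, type 0. -/
def c25_0 : Cert :=
  Cert.void (Tr.dead 0)

/-- Certificate, degree 25, type 1. -/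
def c25_1 : Cert :=
  Cert.void (Tr.dead 0)

/-- Certificate, degree 25, type 2. -/
def c25_2 : Cert :=
  Cert.void (Tr.dead 1)

/-- Degree 25. -/
def en25 : Entry := ⟨par 25, rows 25, c25_0, c25_1, c25_2⟩

theorem en25_ok : en25.chk gR 0 boxR = true := by decide +kernel

/-- The table with the degree 0. -/
def tabR : List (Par × List Row) := (⟨0, 1486 / 1000, 1⟩, []) :: C3T.tab

/-- All entries. -/
def entR : List Entry :=
  [en0, en1, en2, en3, en4, en5, en6, en7, en8, en9, en10, en11, en12, en13, en14, en15, en16, en17, en18, en19, en20, en21, en22, en23, en24, en25]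

theorem entR_map : entR.map (fun e => (e.p, e.rows)) = tabR := rfl

theorem entR_ok : ∀ e ∈ entR, e.chk gR 0 boxR = true := by
  intro e he
  simp only [entR, List.mem_cons, List.not_mem_nil, or_false] at he
  rcases he with rfl | rfl | rfl | rfl | rfl | rfl | rfl | rfl | rfl | rfl | rfl | rfl | rfl | rfl | rfl | rfl | rfl | rfl | rfl | rfl | rfl | rfl | rfl | rfl | rfl | rfl
  · exact en0_ok
  · exact en1_ok
  · exact en2_ok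
  · exact en3_ok
  · exact en4_ok
  · exact en5_ok
  · exact en6_ok
  · exact en7_ok
  · exact en8_ok
  · exact en9_ok
  · exact en10_ok
  · exact en11_ok
  · exact en12_ok
  · exact en13_ok
  · exact en14_ok
  · exact en15_ok
  · exact en16_ok
  · exact en17_ok
  · exact en18_ok
  · exact en19_ok
  · exact en20_ok
  · exact en21_ok
  · exact en22_ok
  · exact en23_ok
  · exact en24_ok
  · exact en25_ok

theorem entR_deg : ∀ d : ℕ, d < 25 → ∃ e ∈ entR, e.p.d = d := by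
  intro d hd
  interval_cases d
  · exact ⟨en0, by simp [entR], rfl⟩
  · exact ⟨en1, by simp [entR], rfl⟩
  · exact ⟨en2, by simp [entR], rfl⟩
  · exact ⟨en3, by simp [entR], rfl⟩
  · exact ⟨en4, by simp [entR], rfl⟩
  · exact ⟨en5, by simp [entR], rfl⟩
  · exact ⟨en6, by simp [entR], rfl⟩
  · exact ⟨en7, by simp [entR], rfl⟩
  · exact ⟨en8, by simp [entR], rfl⟩
  · exact ⟨en9, by simp [entR], rfl⟩
  · exact ⟨en10, by simp [entR], rfl⟩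
  · exact ⟨en11, by simp [entR], rfl⟩
  · exact ⟨en12, by simp [entR], rfl⟩
  · exact ⟨en13, by simp [entR], rfl⟩
  · exact ⟨en14, by simp [entR], rfl⟩
  · exact ⟨en15, by simp [entR], rfl⟩
  · exact ⟨en16, by simp [entR], rfl⟩
  · exact ⟨en17, by simp [entR], rfl⟩
  · exact ⟨en18, by simp [entR], rfl⟩
  · exact ⟨en19, by simp [entR], rfl⟩
  · exact ⟨en20, by simp [entR], rfl⟩
  · exact ⟨en21, by simp [entR], rfl⟩
  · exact ⟨en22, by simp [entR], rfl⟩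
  · exact ⟨en23, by simp [entR], rfl⟩
  · exact ⟨en24, by simp [entR], rfl⟩

/-- **LINE for the range (R2).** -/
theorem line3 : LineS gR tabR (2999 / 1000) (5001 / 1000) (500 / 1000) (1010 / 1000) := by
  have h := lineS_of_chk (g := gR) (fuel := 0) (q0 := 2999) (q1 := 5001) (s0 := 500) (s1 := 1010)
    (m := 1000) (D := 25) entR (by norm_num) (by norm_num) (by norm_num)
    (by norm_num [gR]) entR_ok entR_deg (by norm_num [gR])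
  rw [entR_map] at h
  have e1 : ((2999 : ℤ) : ℚ) / ((1000 : ℕ) : ℚ) = 2999 / 1000 := by norm_num
  have e2 : ((5001 : ℤ) : ℚ) / ((1000 : ℕ) : ℚ) = 5001 / 1000 := by norm_num
  have e3 : ((500 : ℤ) : ℚ) / ((1000 : ℕ) : ℚ) = 500 / 1000 := by norm_num
  have e4 : ((1010 : ℤ) : ℚ) / ((1000 : ℕ) : ℚ) = 1010 / 1000 := by norm_num
  rw [e1, e2, e3, e4] at h
  exact h

end Pool.Agent.T6A.Line3
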