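import Pool.Agent.T6A.Cert3Door
import Pool.Agent.T6A.Cert3M1Tab
import Pool.Agent.T6A.Cert3M3Tab
import Pool.Agent.T6A.Cert3A0Q
import Pool.Agent.T6A.Cert3RowS
import Pool.Agent.T6A.Cert3ProfTab
import Pool.Agent.T6A.Line3Data

/-!
# CERT v3: the numerical certificate for `3 ≤ q ≤ 5` (MP_c6effb_co)
-/

set_option autoImplicit false

namespace Pool.Agent.T6A.Cert3

open Pool.Agent.T6A Pool.Agent.T6A.Line3

theorem globR : GlobOK gR ((29 / 100 : ℚ) : ℝ) := globQ_sound (by decide +kernel)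

theorem muR {d : ℕ} {r : Row} (h : r ∈ C3T.rows d) : 0 ≤ r.mu ∧ r.mu ≤ 1 / 5 := by
  have key : ∀ d' : ℕ, (C3T.rows d').all (fun r => decide (0 ≤ r.mu) && decide (r.mu ≤ 1 / 5))
      = true := by
    intro d'
    rcases Nat.lt_or_ge d' 17 with hd | hd
    · have : (List.range 17).all (fun d' => (C3T.rows d').all
          fun r => decide (0 ≤ r.mu) && decide (r.mu ≤ 1 / 5)) = true := by decide +kernel
      exact List.all_eq_true.1 this d' (List.mem_range.2 hd)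
    · have : C3T.rows d' = [] := by
        unfold C3T.rows
        split <;> first | rfl | omega
      rw [this]
      rfl
  have h1 := List.all_eq_true.1 (key d) r h
  simpa using h1

theorem parN (d : ℕ) : (((C3T.par d).N : ℚ) : ℝ) = (C3T.Nn d : ℝ) / 1000 := by
  show (((C3T.Nn d : ℚ) / 1000 : ℚ) : ℝ) = _
  push_cast
  rfl

theorem parSS (d : ℕ) : (((C3T.par d).ss : ℚ) : ℝ) = (C3T.ssn d : ℝ) / 1000000 := by
  show (((C3T.ssn d : ℚ) / 1000000 : ℚ) : ℝ) = _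
  push_cast
  rfl

theorem rows3 {d : ℕ} (hd : 1 ≤ d) {r : Row} (hr : r ∈ C3T.rows d) :
    RowOK gR (5 / 4) ((29 / 100 : ℚ) : ℝ) (C3T.par d) r := by
  obtain ⟨e, rfl⟩ : ∃ e, d = e + 1 := ⟨d - 1, by omega⟩
  have hg := globR
  have h01 := muR hr
  have hM := C3M1.m1_row hr
  have hA : C3A0.RowA (C3T.par (e + 1)).N r (AlC (5 / 4) ((29 / 100 : ℚ) : ℝ)) (e + 1)
      ((1 - (r.mu : ℝ)) / r.B) :=
    C3A0.rowA hr (AlC_nonneg _ _) (by
      intro x h0 h1
      have := AlC_le (am := 5 / 4) hg.c0 x h0 h1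
      rw [show (((29 / 100 : ℚ) : ℚ) : ℝ) = 29 / 100 by norm_num] at this ⊢
      exact this) (e + 1)
  have hS := C3S1.rowS_tab e r hr
  have hK := C3M3.m3_row hr (Al := AlC (5 / 4) ((29 / 100 : ℚ) : ℝ)) (AlC_ge' le_rfl hg.c0)
  have h0 : 0 ≤ (r.mu : ℝ) := by exact_mod_cast h01.1
  have h1 : (r.mu : ℝ) ≤ 1 / 5 := by
    have : (r.mu : ℝ) ≤ ((1 / 5 : ℚ) : ℝ) := by exact_mod_cast h01.2
    rw [show ((1 / 5 : ℚ) : ℝ) = 1 / 5 by norm_num] at this
    exact this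
  have hn : ((C3T.par (e + 1)).N : ℝ) * ((1 - (r.mu : ℝ)) / r.B) ≤ 1 := by
    have := List.all_eq_true.1 (C3M1.degM_all e) r hr
    simp only [C3M1.rowMQ, Bool.and_eq_true, decide_eq_true_eq] at this
    obtain ⟨-, -, -, -, h, -⟩ := this
    have h2 : ((C3T.par (e + 1)).N : ℝ) * ((C3M1.nuq r : ℚ) : ℝ) ≤ 1 := by exact_mod_cast h
    rw [C3M1.nuq_cast] at h2
    exact h2
  exact rowOK_of hg rfl h0 h1 hM hA hS hK hn

theorem N_ge : (List.range' 1 25).all (fun d => decide (25 / 24 ≤ (C3T.par d).N) &&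
    decide (0 < (C3T.par d).ss)) = true := by decide +kernel

theorem pars3 {d : ℕ} (hd : 1 ≤ d) (hd' : d ≤ 25) :
    ParOK gR (5 / 4) ((29 / 100 : ℚ) : ℝ) (C3T.par d) (C3T.rows d) := by
  have h1 := List.all_eq_true.1 N_ge d (by rw [List.mem_range'_1]; omega)
  simp only [Bool.and_eq_true, decide_eq_true_eq] at h1
  have hN : 25 / 24 ≤ ((C3T.par d).N : ℝ) := by
    have : ((25 / 24 : ℚ) : ℝ) ≤ ((C3T.par d).N : ℝ) := by exact_mod_cast h1.1
    rw [show ((25 / 24 : ℚ) : ℝ) = 25 / 24 by norm_num] at this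
    exact this
  refine ⟨hN, fun _ => ?_⟩
  have hu := C3P.um_pos hd'
  have key : ∀ om : ℝ, 4 / 5 ≤ om → ProfOK gR (5 / 4) ((29 / 100 : ℚ) : ℝ) (C3T.par d)
      ((C3T.umn d : ℝ) / 100) om := by
    intro om ho
    have h := C3P.prof3 hd' ho
    have hx : ((gR.xi : ℚ) : ℝ) = 21 / 25 := by norm_num [gR]
    have hX : ((gR.X : ℚ) : ℝ) = 21 / 50 := by norm_num [gR]
    intro x h0 h1 hf
    rw [parN] at hf ⊢
    rw [hx, hX]
    have e1 : AlC (5 / 4) ((29 / 100 : ℚ) : ℝ) x = C3P.Al3 x := by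
      rw [AlC_min (by norm_num) (by norm_num) h0 h1, C3P.Al3]
      norm_num
    rw [e1]
    exact h x h0 h1 hf
  refine ⟨(C3T.umn d : ℝ) / 100, hu.1, hu.2, by exact_mod_cast h1.2, ?_, key 1 (by norm_num), ?_⟩
  · rw [parSS]
    exact C3P.ss_le hd hd'
  · intro r hr
    have := (muR hr).2
    have h2 : (r.mu : ℝ) ≤ 1 / 5 := by
      have : (r.mu : ℝ) ≤ ((1 / 5 : ℚ) : ℝ) := by exact_mod_cast this
      rw [show ((1 / 5 : ℚ) : ℝ) = 1 / 5 by norm_num] at this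
      exact this
    exact key _ (by linarith)

theorem tabR_mem {pr : Par × List Row} (h : pr ∈ tabR) :
    pr = (⟨0, 1486 / 1000, 1⟩, []) ∨ ∃ d, 1 ≤ d ∧ d ≤ 25 ∧ pr = (C3T.par d, C3T.rows d) := by
  rw [tabR, List.mem_cons] at h
  rcases h with h | h
  · exact Or.inl h
  · right
    rw [C3T.tab] at h
    obtain ⟨d, hd, rfl⟩ := List.mem_map.1 h
    rw [List.mem_range'_1] at hd
    exact ⟨d, hd.1, by omega, rfl⟩

/-- **The numerical certificate for `3 ≤ q ≤ 5`.** -/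
theorem numCertR_3_5 : NumCertR 3 5 := by
  refine numCertR_of_box (cellBox_of (am := 5 / 4) globR (by norm_num) (by norm_num) line3 ?_ ?_)
    (by norm_num) (by norm_num) (by norm_num) (by norm_num)
  · intro pr hp
    rcases tabR_mem hp with rfl | ⟨d, h1, h2, rfl⟩
    · exact ⟨by norm_num, fun h => absurd h (by norm_num)⟩
    · exact pars3 h1 h2
  · intro pr hp r hr
    rcases tabR_mem hp with rfl | ⟨d, h1, h2, rfl⟩
    · exact absurd hr (by simp)
    · exact rows3 h1 hr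

end Pool.Agent.T6A.Cert3
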