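import Pool.Agent.T6A.Line3Base

/-!
# LINE for CERT v3: from the checks to the statement (MP_c6effb_co)

`LineS g tab q0 q1 s0 s1` = the line conditions for all vertices, in the form needed by the glue.
`lineS_of_chk` : it follows from one Boolean check per degree and type.
-/

set_option autoImplicit false

namespace Pool.Agent.T6A.Line3

open Bern

deriving instance DecidableEq for Row

/-- The certificate of one degree and one type: empty domain or a chain of rows. -/
inductive Cert : Type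
  | void (t : Tr) : Cert
  | ch (ts : List Step) (last : Tr × Tr) : Cert

/-- The check of a certificate. -/
def Cert.chk (g : Glob) (p : Par) (rows : List Row) (ty fuel : ℕ) (box : List Iv) : Cert → Bool
  | Cert.void t => t.chk fuel [Ln g p ty, domE p ty] (Ex.q (-1) 1) box
  | Cert.ch ts last => chain g p ty fuel box last [Ln g p ty, domE p ty] ts &&
      ts.all fun t => decide (t.r ∈ rows)

/-- The conclusion for one vertex. -/
def Concl (g : Glob) (pr : Par × List Row) (s W L : ℝ) : Prop :=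
  Base g pr.1 s W L 0 ∨ ∃ r ∈ pr.2, Base g pr.1 s W L r.mu ∧ Kill g pr.1 s W L r

theorem Cert.sound {g : Glob} {p : Par} {rows : List Row} {ty fuel : ℕ} {box : List Iv}
    {c : Cert} (h : c.chk g p rows ty fuel box = true) {ρ : ℕ → ℝ} (hρ : InB box ρ)
    (hd : 0 < (Ld ty).ev ρ) (hL : 0 ≤ (Ln g p ty).ev ρ) (hdom : 0 ≤ (domE p ty).ev ρ) :
    Concl g (p, rows) (ρ 0) ((Wx ty).ev ρ) (Lv g p ty ρ) := by
  have H : ∀ h ∈ [Ln g p ty, domE p ty], 0 ≤ h.ev ρ := by
    intro h hh
    simp only [List.mem_cons, List.not_mem_nil, or_false] at hh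
    rcases hh with rfl | rfl
    · exact hL
    · exact hdom
  cases c with
  | void t =>
    have h1 := Tr.sound t box h ρ hρ H
    simp only [Ex.ev] at h1
    norm_num at h1
  | ch ts last =>
    rw [Cert.chk, Bool.and_eq_true] at h
    rcases chain_sound hρ hd hL hdom ts _ h.1 H with h1 | ⟨t, ht, h1, h2⟩
    · exact Or.inl h1
    · have h3 := List.all_eq_true.1 h.2 t ht
      exact Or.inr ⟨t.r, of_decide_eq_true h3, h1, h2⟩

/-- The certificates of one degree. -/
structure Entry : Type where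
  p : Par
  rows : List Row
  c0 : Cert
  c1 : Cert
  c2 : Cert

/-- The check of one degree. -/
def Entry.chk (g : Glob) (fuel : ℕ) (box : List Iv) (e : Entry) : Bool :=
  e.c0.chk g e.p e.rows 0 fuel box && e.c1.chk g e.p e.rows 1 fuel box &&
    e.c2.chk g e.p e.rows 2 fuel box

/-- LINE: `q = tot - 1`, `s = sigma`. -/
def LineS (g : Glob) (tab : List (Par × List Row)) (q0 q1 s0 s1 : ℚ) : Prop :=
  ∀ q s : ℝ, (q0 : ℝ) ≤ q → q ≤ q1 → (s0 : ℝ) ≤ s → s ≤ s1 → ∀ d j : ℕ, q ≤ (d + j) * s →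
    0 < 1 - s + g.eta - g.s0 * ((d + 2 * j) / (2 * q) - 1) →
    ∃ pr ∈ tab, pr.1.d = d ∧ ∃ L : ℝ,
      1 - s + g.eta - g.s0 * ((d + 2 * j) / (2 * q) - 1) ≤ L ∧ 0 < L ∧
      Concl g pr s (if j = 0 then q + 1 - s else q + 1 - 2 * s) L

theorem ev_two (ρ : ℕ → ℝ) : (2 : Ex).ev ρ = 2 := by
  show ((2 : ℤ) : ℝ) / ((1 : ℕ) : ℝ) = 2
  norm_num

/-- The point. -/
noncomputable def pt (s q : ℝ) : ℕ → ℝ := fun i => if i = 0 then s else q

/-- The box of the certificate. -/
def mkBox (q0 q1 s0 s1 : ℤ) (m : ℕ) : List Iv := [⟨s0, s1, m⟩, ⟨q0, q1, m⟩]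

theorem pt_InB {q0 q1 s0 s1 : ℤ} {m : ℕ} {s q : ℝ} (h1 : (q0 : ℝ) / m ≤ q) (h2 : q ≤ (q1 : ℝ) / m)
    (h3 : (s0 : ℝ) / m ≤ s) (h4 : s ≤ (s1 : ℝ) / m) : InB (mkBox q0 q1 s0 s1 m) (pt s q) := by
  intro i b hb
  match i, hb with
  | 0, hb =>
    have : (⟨s0, s1, m⟩ : Iv) = b := by simpa [mkBox] using hb
    subst this
    exact ⟨by simpa [pt] using h3, by simpa [pt] using h4⟩
  | 1, hb =>
    have : (⟨q0, q1, m⟩ : Iv) = b := by simpa [mkBox] using hb
    subst this
    exact ⟨by simpa [pt] using h1, by simpa [pt] using h2⟩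
  | i + 2, hb => simp [mkBox] at hb

theorem lineS_of_chk {g : Glob} {fuel : ℕ} {q0 q1 s0 s1 : ℤ} {m D : ℕ} (E : List Entry)
    (hm : 0 < m) (hq0 : 0 < q0) (hs0 : 0 < s0) (hg : 0 ≤ g.s0)
    (hE : ∀ e ∈ E, e.chk g fuel (mkBox q0 q1 s0 s1 m) = true)
    (hD : ∀ d : ℕ, d < D → ∃ e ∈ E, e.p.d = d)
    (hbig : (2 * (q1 : ℚ) / m) * (1 - (s0 : ℚ) / m + g.eta + g.s0) ≤ g.s0 * D) :
    LineS g (E.map fun e => (e.p, e.rows)) ((q0 : ℚ) / m) ((q1 : ℚ) / m) ((s0 : ℚ) / m)
      ((s1 : ℚ) / m) := by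
  intro q s hq hq' hs hs' d j hdom hL
  push_cast at hq hq' hs hs'
  have hm' : (0 : ℝ) < m := by exact_mod_cast hm
  have hqp : 0 < q := lt_of_lt_of_le (div_pos (by exact_mod_cast hq0) hm') hq
  have hsp : 0 < s := lt_of_lt_of_le (div_pos (by exact_mod_cast hs0) hm') hs
  have hgR : (0 : ℝ) ≤ (g.s0 : ℝ) := by exact_mod_cast hg
  have hdD : d < D := by
    by_contra hc
    push Not at hc
    have h1 : ((2 * (q1 : ℝ) / m) * (1 - (s0 : ℝ) / m + g.eta + g.s0)) ≤ g.s0 * D := by
      exact_mod_cast hbig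
    have h2 : (0 : ℝ) < 1 - s + g.eta + g.s0 := by
      have h3 : (0 : ℝ) ≤ g.s0 * ((d + 2 * j) / (2 * q)) :=
        mul_nonneg hgR (div_nonneg (by positivity) (by positivity))
      nlinarith [hL, h3]
    have h4 : 2 * q * (1 - s + g.eta + g.s0) ≤ (2 * (q1 : ℝ) / m) * (1 - (s0 : ℝ) / m + g.eta + g.s0) := by
      have h5 : 2 * q ≤ 2 * (q1 : ℝ) / m := by
        rw [mul_div_assoc]
        linarith
      have h6 : 1 - s + g.eta + g.s0 ≤ 1 - (s0 : ℝ) / m + g.eta + g.s0 := by linarith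
      exact mul_le_mul h5 h6 h2.le (by linarith)
    have h7 : (g.s0 : ℝ) * D ≤ g.s0 * (d + 2 * j) := by
      have : (D : ℝ) ≤ d + 2 * j := by
        have h8 : (D : ℝ) ≤ d := by exact_mod_cast hc
        have h9 : (0 : ℝ) ≤ j := Nat.cast_nonneg j
        linarith
      exact mul_le_mul_of_nonneg_left this hgR
    have h8 : 2 * q * (1 - s + g.eta - g.s0 * ((d + 2 * j) / (2 * q) - 1))
        = 2 * q * (1 - s + g.eta + g.s0) - g.s0 * (d + 2 * j) := by
      field_simp
      ring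
    have h9 : 0 < 2 * q * (1 - s + g.eta - g.s0 * ((d + 2 * j) / (2 * q) - 1)) :=
      mul_pos (by linarith) hL
    rw [h8] at h9
    linarith
  obtain ⟨e, he, hed⟩ := hD d hdD
  have hek := hE e he
  rw [Entry.chk, Bool.and_eq_true, Bool.and_eq_true] at hek
  refine ⟨(e.p, e.rows), List.mem_map.2 ⟨e, he, rfl⟩, hed, ?_⟩
  have hB : InB (mkBox q0 q1 s0 s1 m) (pt s q) := pt_InB hq hq' hs hs'
  have p0 : pt s q 0 = s := rfl
  have p1 : pt s q 1 = q := rfl
  have hc : ((e.p.d : ℕ) : ℝ) = d := by rw [hed]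
  rcases Nat.eq_zero_or_pos j with hj | hj
  · -- type 0
    subst hj
    have hv : Lv g e.p 0 (pt s q) = 1 - s + g.eta - g.s0 * ((d + 2 * (0 : ℕ)) / (2 * q) - 1) := by
      simp only [Lv, Ln, Ld, q', s', Ex.ev_sub, Ex.ev_mul, ev_two, ev_cq, Ex.ev_x, p0, p1]
      push_cast
      rw [hc]
      field_simp
      ring
    have hd0 : 0 < (Ld 0).ev (pt s q) := by
      simp only [Ld, q', Ex.ev_mul, ev_two, Ex.ev_x, p1]
      linarith
    have hLn : 0 ≤ (Ln g e.p 0).ev (pt s q) := by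
      have h1 : 0 < Lv g e.p 0 (pt s q) := by rw [hv]; exact hL
      rw [Lv] at h1
      exact (by
        by_contra h2
        push Not at h2
        exact absurd h1 (not_lt.2 (div_nonpos_of_nonpos_of_nonneg h2.le hd0.le)))
    have hdm : 0 ≤ (domE e.p 0).ev (pt s q) := by
      simp only [domE, s', q', Ex.ev_sub, Ex.ev_mul, Ex.ev_nat, Ex.ev_x, p0, p1]
      rw [hc]
      push_cast at hdom
      linarith
    have h1 := Cert.sound hek.1.1 hB hd0 hLn hdm
    refine ⟨Lv g e.p 0 (pt s q), hv.ge, by rw [hv]; exact hL, ?_⟩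
    rw [if_pos rfl]
    have hW : (Wx 0).ev (pt s q) = q + 1 - s := by
      simp only [Wx, hubN, s', q', Ex.ev_sub, Ex.ev_add, Ex.ev_mul, Ex.ev_nat, Ex.ev_one, Ex.ev_x,
        p0, p1]
      push_cast
      ring
    rw [hW, p0] at h1
    exact h1
  · have hj1 : (1 : ℝ) ≤ j := by exact_mod_cast hj
    rcases le_total q ((d + 1) * s) with hc1 | hc1
    · -- type 1
      have hv : Lv g e.p 1 (pt s q) = 1 - s + g.eta - g.s0 * ((d + 2) / (2 * q) - 1) := by
        simp only [Lv, Ln, Ld, q', s', Ex.ev_sub, Ex.ev_mul, ev_two, ev_cq, Ex.ev_x, p0, p1]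
        push_cast
        rw [hc]
        field_simp
        ring
      have hle : 1 - s + g.eta - g.s0 * ((d + 2 * j) / (2 * q) - 1) ≤ Lv g e.p 1 (pt s q) := by
        rw [hv]
        have h1 : ((d : ℝ) + 2) / (2 * q) ≤ (d + 2 * j) / (2 * q) :=
          div_le_div_of_nonneg_right (by linarith) (by linarith)
        have h2 := mul_le_mul_of_nonneg_left h1 hgR
        nlinarith [h2]
      have hd0 : 0 < (Ld 1).ev (pt s q) := by
        simp only [Ld, q', Ex.ev_mul, ev_two, Ex.ev_x, p1]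
        linarith
      have hLpos : 0 < Lv g e.p 1 (pt s q) := lt_of_lt_of_le hL hle
      have hLn : 0 ≤ (Ln g e.p 1).ev (pt s q) := by
        by_contra h2
        push Not at h2
        rw [Lv] at hLpos
        exact absurd hLpos (not_lt.2 (div_nonpos_of_nonpos_of_nonneg h2.le hd0.le))
      have hdm : 0 ≤ (domE e.p 1).ev (pt s q) := by
        simp only [domE, s', q', Ex.ev_sub, Ex.ev_mul, Ex.ev_nat, Ex.ev_x, p0, p1]
        push_cast
        rw [hc]
        linarith
      have h1 := Cert.sound hek.1.2 hB hd0 hLn hdm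
      refine ⟨Lv g e.p 1 (pt s q), hle, hLpos, ?_⟩
      rw [if_neg (by omega)]
      have hW : (Wx 1).ev (pt s q) = q + 1 - 2 * s := by
        simp only [Wx, hubN, s', q', Ex.ev_sub, Ex.ev_add, Ex.ev_mul, Ex.ev_nat, Ex.ev_one, Ex.ev_x,
          p0, p1]
        push_cast
        ring
      rw [hW, p0] at h1
      exact h1
    · -- type 2
      have hv : Lv g e.p 2 (pt s q) = 1 - s + g.eta - g.s0 * (1 / s - d / (2 * q) - 1) := by
        simp only [Lv, Ln, Ld, q', s', Ex.ev_sub, Ex.ev_add, Ex.ev_mul, ev_two, ev_cq, Ex.ev_x,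
          p0, p1]
        push_cast
        rw [hc]
        field_simp
        ring
      have hle : 1 - s + g.eta - g.s0 * ((d + 2 * j) / (2 * q) - 1) ≤ Lv g e.p 2 (pt s q) := by
        rw [hv]
        have h1 : 1 / s - (d : ℝ) / (2 * q) ≤ (d + 2 * j) / (2 * q) := by
          have h3 : q / s ≤ d + j := by
            rw [div_le_iff₀ hsp]
            exact hdom
          have h4 : 1 / s = 2 * (q / s) / (2 * q) := by
            field_simp
          rw [h4, ← sub_div]
          exact div_le_div_of_nonneg_right (by linarith) (by linarith)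
        have h2 := mul_le_mul_of_nonneg_left h1 hgR
        nlinarith [h2]
      have hd0 : 0 < (Ld 2).ev (pt s q) := by
        simp only [Ld, q', s', Ex.ev_mul, ev_two, Ex.ev_x, p0, p1]
        positivity
      have hLpos : 0 < Lv g e.p 2 (pt s q) := lt_of_lt_of_le hL hle
      have hLn : 0 ≤ (Ln g e.p 2).ev (pt s q) := by
        by_contra h2
        push Not at h2
        rw [Lv] at hLpos
        exact absurd hLpos (not_lt.2 (div_nonpos_of_nonpos_of_nonneg h2.le hd0.le))
      have hdm : 0 ≤ (domE e.p 2).ev (pt s q) := by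
        simp only [domE, s', q', Ex.ev_sub, Ex.ev_mul, Ex.ev_nat, Ex.ev_x, p0, p1]
        push_cast
        rw [hc]
        linarith
      have h1 := Cert.sound hek.2 hB hd0 hLn hdm
      refine ⟨Lv g e.p 2 (pt s q), hle, hLpos, ?_⟩
      rw [if_neg (by omega)]
      have hW : (Wx 2).ev (pt s q) = q + 1 - 2 * s := by
        simp only [Wx, hubN, s', q', Ex.ev_sub, Ex.ev_add, Ex.ev_mul, Ex.ev_nat, Ex.ev_one, Ex.ev_x,
          p0, p1]
        push_cast
        ring
      rw [hW, p0] at h1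
      exact h1

end Pool.Agent.T6A.Line3
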