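import Pool.Agent.T6A.NumStmt3
import Pool.Agent.T6A.Line3Base
import Pool.Agent.T6A.MuB

/-!
# CERT v3, range (R2): the rows and LINE give `NumCertR 3 5` (MP_c6effb_co)

`LineS` is the statement of `line3`. `ParOK`, `RowOK` collect the row conditions of a degree and of a
row of the table. The profile is `lf N` on `x ≥ 0`; for a kill row the line minorant
`rho f + a1 - B x` has `rho = mu / L`.
-/

set_option autoImplicit false

namespace Pool.Agent.T6A.Cert3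

open Pool.Agent.T6A Pool.Agent.T6A.Line3

/-- the factor `Al` -/
noncomputable def Al3 (x : ℝ) : ℝ := max 1 (min (5 / 4) (1 + 29 / 100 * (x / (1 - x))))

theorem Al3_one (x : ℝ) : 1 ≤ Al3 x := le_max_left _ _

theorem Al3_nonneg (x : ℝ) : 0 ≤ Al3 x := zero_le_one.trans (Al3_one x)

theorem Al3_le (x : ℝ) (h0 : 0 ≤ x) (h1 : x < 1) : Al3 x ≤ 1 + 29 / 100 * (x / (1 - x)) := by
  have h : 0 ≤ x / (1 - x) := div_nonneg h0 (by linarith)
  exact max_le (by linarith) (min_le_right _ _)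

theorem Al3_min {x : ℝ} (h0 : 0 ≤ x) (h1 : x < 1) :
    Al3 x = min (5 / 4) (1 + 29 / 100 * (x / (1 - x))) := by
  have h : 0 ≤ x / (1 - x) := div_nonneg h0 (by linarith)
  exact max_eq_right (le_min (by norm_num) (by linarith))

theorem Al3_ge (s : ℝ) (h0 : 0 ≤ s) (h1 : s ≤ 25 / 54) :
    29 / 100 * (s / (1 - s)) ≤ Al3 s - 1 := by
  have hs : 0 < 1 - s := by linarith
  have h2 : s / (1 - s) ≤ 25 / 29 := by
    rw [div_le_div_iff₀ hs (by norm_num)]
    linarith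
  rw [Al3_min h0 (by linarith), min_eq_right (by linarith)]
  linarith

theorem Al3_top {x : ℝ} (h0 : 25 / 54 < x) (h1 : x < 1) : 5 / 4 ≤ Al3 x := by
  have hs : 0 < 1 - x := by linarith
  have h2 : 25 / 29 ≤ x / (1 - x) := by
    rw [div_le_div_iff₀ (by norm_num) hs]
    linarith
  rw [Al3_min (by linarith) h1]
  exact le_min le_rfl (by linarith)

/-- the profile: `lf N` on `x ≥ 0`, constant on `x ≤ 0` -/
noncomputable def fN (N x : ℝ) : ℝ := lf N (max 0 x)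

theorem fN_eq {N x : ℝ} (h : 0 ≤ x) : fN N x = lf N x := by
  unfold fN
  rw [max_eq_right h]

theorem fN_nonneg (N x : ℝ) : 0 ≤ fN N x := lf_nonneg _ _

theorem fN_le {N : ℝ} (h : 0 ≤ N) (x : ℝ) : fN N x ≤ 1 := lf_le_one h (le_max_left _ _)

theorem fN_cut {N x : ℝ} (h : 25 / 24 ≤ N) (hx : 24 / 25 < x) : fN N x = 0 := by
  rw [fN_eq (by linarith)]
  exact max_eq_left (by nlinarith)

theorem fN_min {N x : ℝ} (h : 0 ≤ x) : 1 - N * x ≤ fN N x := by
  rw [fN_eq h]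
  exact le_max_right _ _

/-- The statement of LINE (`line3`). -/
def LineS (g : Glob) (tab : List (Par × List Row)) (q0 q1 s0 s1 : ℚ) : Prop :=
  ∀ q s : ℝ, (q0 : ℝ) ≤ q → q ≤ q1 → (s0 : ℝ) ≤ s → s ≤ s1 → ∀ d j : ℕ,
    q ≤ (d + j) * s →
    0 < 1 - s + g.eta - g.s0 * ((d + 2 * j) / (2 * q) - 1) →
    ∃ pr ∈ tab, pr.1.d = d ∧ ∃ L : ℝ,
      1 - s + g.eta - g.s0 * ((d + 2 * j) / (2 * q) - 1) ≤ L ∧ 0 < L ∧
      (Base g pr.1 s (if j = 0 then q + 1 - s else q + 1 - 2 * s) L 0 ∨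
        ∃ r ∈ pr.2, Base g pr.1 s (if j = 0 then q + 1 - s else q + 1 - 2 * s) L r.mu ∧
          Kill g pr.1 s (if j = 0 then q + 1 - s else q + 1 - 2 * s) L r)

/-- (PROF) for one `om` -/
def ProfOK (p : Par) (um om : ℝ) : Prop :=
  ∀ x, 0 ≤ x → x < 1 → 0 < lf p.N x →
    lf p.N x * ((p.d : ℝ) * ((21 / 25 * (Al3 x ^ 2 * (1 - x))
      + (21 / 25)⁻¹ * ((om * Al3 x) ^ 2 / (1 - x))) / 2)
      + (((1 - x)⁻¹) ^ p.d - 1 + KZero.ss p.d um * KZero.ut um x ^ 2))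
      ≤ (p.d : ℝ) * ((21 / 25 + om ^ 2 / (21 / 25)) / 2) * (1 + 21 / 50 * KZero.ut um x)

/-- The conditions of one degree. -/
structure ParOK (p : Par) : Prop where
  N0 : 25 / 24 ≤ (p.N : ℝ)
  ex : 1 ≤ p.d → ∃ um : ℝ, 0 < um ∧ um ≤ 1 ∧ 0 < (p.ss : ℝ) ∧ (p.ss : ℝ) ≤ KZero.ss p.d um ∧
    ∀ om : ℝ, 4 / 5 ≤ om → om ≤ 1 → ProfOK p um om

/-- The end of the active range. -/
noncomputable def nuR (r : Row) : ℝ := (1 - (r.mu : ℝ)) / r.B

/-- The conditions of one row. -/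
structure RowOK (p : Par) (r : Row) : Prop where
  mu0 : 0 ≤ (r.mu : ℝ)
  mu1 : (r.mu : ℝ) ≤ 1 / 5
  B0 : 0 < (r.B : ℝ)
  th0 : 0 < (r.th : ℝ)
  g00 : 0 ≤ (r.g0 : ℝ)
  ka0 : 0 ≤ (r.ka : ℝ)
  kb0 : 0 ≤ (r.kb : ℝ)
  F0 : 0 ≤ (r.F2 : ℝ)
  nuh1 : nuR r < 1
  nuhN : (p.N : ℝ) * nuR r ≤ 1
  M1 : ∀ x, 0 ≤ x → x ≤ nuR r → 0 * lf p.N x + (1 - (r.mu : ℝ)) - r.B * x ≤
    lf p.N x * (1 / (1 - x) - r.mu / (1 - x) ^ p.d)
  M1' : ∀ x, 0 ≤ x → x ≤ nuR r → lf p.N x * (1 / (1 - x) - r.mu / (1 - x) ^ p.d) ≤ 1 - r.mu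
  M3 : ∀ x, 0 ≤ x → x ≤ nuR r → r.th * (lf p.N x * (1 / (1 - x) - r.mu / (1 - x) ^ p.d)) ≤
    (1 - r.mu) * (lf p.N x ^ 2 * Al3 x ^ 2 / (1 - x))
  A0 : ∀ x, 0 ≤ x → x ≤ nuR r → 2 * (lf p.N x ^ 2 * Al3 x ^ 2 / (1 - x)) ≤
    r.g0 + r.g1 * lf p.N x + r.th * (lf p.N x / (1 - x) ^ p.d)
  A0' : ∀ x, nuR r < x → x ≤ 1 → 2 * (lf p.N x ^ 2 * Al3 x ^ 2 / (1 - x)) ≤
    r.g0 + r.g1 * lf p.N x
  A2 : ∀ x, 0 ≤ x → x ≤ 1 → 2 * (lf p.N x ^ 2 * Al3 x ^ 2 / (1 - x)) ≤
    r.g0 + r.g1 * lf p.N x + r.th * 1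
  S1 : ∀ s x, 0 ≤ s → s ≤ 25 / 54 → 0 ≤ x → x ≤ nuR r →
    lf p.N x / (1 - x) ^ p.d * ((1 - x) ^ (p.d - 1) - (max 0 (1 - x / (1 - s))) ^ (p.d - 1)
      - (Al3 s - 1) * (1 - (r.mu : ℝ))) ≤ (Al3 s - 1) * (r.ka + r.kb * x)
  F2b : ∀ x, 0 ≤ x → x ≤ nuR r → lf p.N x / (1 - x) ^ 2 ≤ r.F2

/-- (PROF) is linear in `om²`: the two ends suffice. -/
theorem prof_mid {p : Par} {um om : ℝ} (h0 : ProfOK p um (4 / 5)) (h1 : ProfOK p um 1)
    (ho : 4 / 5 ≤ om) (ho1 : om ≤ 1) : ProfOK p um om := by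
  intro x hx hx1 hf
  have a0 := h0 x hx hx1 hf
  have a1 := h1 x hx hx1 hf
  obtain ⟨t, ht⟩ : ∃ t, t = (om ^ 2 - 16 / 25) / (9 / 25) := ⟨_, rfl⟩
  have ht0 : 0 ≤ t := by
    rw [ht]
    exact div_nonneg (by nlinarith) (by norm_num)
  have ht1 : t ≤ 1 := by
    rw [ht, div_le_one (by norm_num)]
    nlinarith
  have hom : om ^ 2 = (1 - t) * (4 / 5) ^ 2 + t * 1 ^ 2 := by
    rw [ht]
    ring
  obtain ⟨a, ha⟩ : ∃ a, a = Al3 x ^ 2 := ⟨_, rfl⟩
  obtain ⟨b, hb⟩ : ∃ b, b = a / (1 - x) := ⟨_, rfl⟩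
  have e : ∀ o : ℝ, (o * Al3 x) ^ 2 / (1 - x) = o ^ 2 * b := by
    intro o
    rw [hb, ha]
    ring
  rw [e] at a0 a1 ⊢
  rw [hom]
  have b0 := mul_le_mul_of_nonneg_left a0 (sub_nonneg.2 ht1)
  have b1 := mul_le_mul_of_nonneg_left a1 ht0
  have := add_le_add b0 b1
  refine le_trans (le_of_eq ?_) (this.trans (le_of_eq ?_)) <;> ring

/-- The value of the line: `2 L - L² (…) ≥ L`. -/
theorem val_ge {A A0 sg s L C D0 D1 : ℝ} (hA0 : 0 < A0) (hA : A0 ≤ A) (hsg0 : 0 ≤ sg)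
    (hsg : sg ≤ s) (hC : 0 ≤ C) (hD0 : 0 ≤ D0) (hD : D1 ≤ D0) (hL : 0 < L)
    (hlin : L * (A0 ^ 2 + C * s * A0 + D0 * s ^ 2) ≤ A0 ^ 2) :
    L ≤ 2 * (L / A * A) - (L / A) ^ 2 * (A ^ 2 + sg * C * A + sg ^ 2 * D1) := by
  have hAp : 0 < A := hA0.trans_le hA
  obtain ⟨t, ht⟩ : ∃ t, t = sg / A := ⟨_, rfl⟩
  obtain ⟨t', ht'⟩ : ∃ t', t' = s / A0 := ⟨_, rfl⟩
  have hs0 : 0 ≤ s := hsg0.trans hsg
  have ht0 : 0 ≤ t := by rw [ht]; positivity
  have htt : t ≤ t' := by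
    rw [ht, ht']
    exact div_le_div₀ hs0 hsg hA0 hA
  have e1 : L / A * A = L := div_mul_cancel₀ _ hAp.ne'
  have e2 : (L / A) ^ 2 * (A ^ 2 + sg * C * A + sg ^ 2 * D1) = L ^ 2 * (1 + C * t + D1 * t ^ 2) := by
    rw [ht]
    field_simp
  have h1 : L * (1 + C * t' + D0 * t' ^ 2) ≤ 1 := by
    have e3 : L * (1 + C * t' + D0 * t' ^ 2) = L * (A0 ^ 2 + C * s * A0 + D0 * s ^ 2) / A0 ^ 2 := by
      rw [ht']
      field_simp
    rw [e3, div_le_one (by positivity)]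
    exact hlin
  have h2 : 1 + C * t + D1 * t ^ 2 ≤ 1 + C * t' + D0 * t' ^ 2 := by
    have a1 := mul_le_mul_of_nonneg_left htt hC
    have a2 : D1 * t ^ 2 ≤ D0 * t ^ 2 := mul_le_mul_of_nonneg_right hD (sq_nonneg _)
    have a3 : D0 * t ^ 2 ≤ D0 * t' ^ 2 :=
      mul_le_mul_of_nonneg_left (pow_le_pow_left₀ ht0 htt 2) hD0
    linarith
  have h3 : L * (1 + C * t + D1 * t ^ 2) ≤ 1 :=
    (mul_le_mul_of_nonneg_left h2 hL.le).trans h1
  rw [e1, e2]
  have h4 : L ^ 2 * (1 + C * t + D1 * t ^ 2) ≤ L := by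
    calc L ^ 2 * (1 + C * t + D1 * t ^ 2) = L * (L * (1 + C * t + D1 * t ^ 2)) := by ring
      _ ≤ L * 1 := mul_le_mul_of_nonneg_left h3 hL.le
      _ = L := mul_one L
  linarith

/-- The kill conditions of a row. -/
theorem mugOK_of {g : Glob} (hg : g = ⟨21 / 25, 9 / 25, 1 / 1000, 21 / 50, 25 / 54⟩) {p : Par}
    {r : Row} (hN0 : 25 / 24 ≤ (p.N : ℝ)) (hr : RowOK p r) (hd : 1 ≤ p.d) {W W' s sg A L : ℝ}
    (hs : 0 ≤ s) (hL : 0 < L) (hA0 : 0 < W - p.N * s) (hW : W ≤ W') (hsg : sg ≤ s)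
    (hA : W' - p.N * sg ≤ A) (hk : Kill g p s W L r) :
    MugOK W' A sg (L / A) (1 - (r.mu : ℝ)) (r.B - r.mu / L * p.N) r.th (r.mu / L)
      (1 - (r.mu : ℝ) - r.mu / L) (1 - (r.mu : ℝ)) r.g0 r.g1 1 r.ka 0 r.kb 0 r.F2 (25 / 54)
      (nuR r) Al3 (fN p.N) p.d := by
  have hmu0 := hr.mu0
  have hmu1 := hr.mu1
  have hx1 : ((g.x1 : ℚ) : ℝ) = 25 / 54 := by rw [hg]; norm_num
  obtain ⟨n1, n2, n3, n4, mn⟩ := hk
  rw [hx1] at n4
  obtain ⟨mu, hmu⟩ : ∃ mu : ℝ, mu = r.mu := ⟨_, rfl⟩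
  obtain ⟨N, hN⟩ : ∃ N : ℝ, N = p.N := ⟨_, rfl⟩
  obtain ⟨B, hB⟩ : ∃ B : ℝ, B = r.B := ⟨_, rfl⟩
  obtain ⟨rho, hrho⟩ : ∃ rho : ℝ, rho = mu / L := ⟨_, rfl⟩
  obtain ⟨om, hom⟩ : ∃ om : ℝ, om = 1 - mu := ⟨_, rfl⟩
  obtain ⟨a0, ha0⟩ : ∃ a0 : ℝ, a0 = W - N * s := ⟨_, rfl⟩
  have hNp : 0 ≤ N := by rw [hN]; linarith
  have hom0 : 0 < om := by rw [hom, hmu]; linarith
  have hmu0' : 0 ≤ mu := by rw [hmu]; exact hmu0
  have hB0 : 0 < B := by rw [hB]; exact hr.B0
  have h1om : 1 - om = mu := by rw [hom]; ring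
  have hrL : L * rho = mu := by rw [hrho, mul_div_cancel₀ _ hL.ne']
  have hrho0 : 0 ≤ rho := by rw [hrho]; positivity
  rw [← hmu, ← hN] at n1
  rw [← hN] at n2 n3 n4 hA0 hA
  rw [← hmu] at n3
  rw [← hom] at n3 n1
  rw [← hB] at n1 mn
  rw [← hmu, ← hN] at mn
  rw [← ha0] at n1 n2 n3 n4 hA0
  have hNs : 0 ≤ N * s := mul_nonneg hNp hs
  have hWa : a0 ≤ W := by rw [ha0]; linarith
  have hWp : 0 < W := hA0.trans_le hWa
  obtain ⟨δ, hδ⟩ : ∃ δ : ℝ, δ = W' - W := ⟨_, rfl⟩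
  obtain ⟨ε, hε⟩ : ∃ ε : ℝ, ε = s - sg := ⟨_, rfl⟩
  obtain ⟨a, ha⟩ : ∃ a : ℝ, a = A - a0 := ⟨_, rfl⟩
  have hδ0 : 0 ≤ δ := by rw [hδ]; linarith
  have hε0 : 0 ≤ ε := by rw [hε]; linarith
  have hNε : 0 ≤ N * ε := mul_nonneg hNp hε0
  have hWe : W' = W + δ := by rw [hδ]; ring
  have hse : sg = s - ε := by rw [hε]; ring
  have hAe : A = a0 + a := by rw [ha]; ring
  have haδ : δ ≤ a := by
    rw [ha, ha0, hδ]
    rw [hse] at hA
    nlinarith
  have ha' : 0 ≤ a := hδ0.trans haδ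
  have hAp : 0 < A := by rw [hAe]; linarith
  have hth0 := hr.th0
  have hg0 := hr.g00
  have hka := hr.ka0
  have hkb := hr.kb0
  have hF0 := hr.F0
  have hnuh0 : 0 < nuR r := by
    unfold nuR
    rw [← hmu, ← hom, ← hB]
    exact div_pos hom0 hB0
  have hBn : B * nuR r = om := by
    unfold nuR
    rw [← hmu, ← hom, ← hB, mul_div_cancel₀ _ hB0.ne']
  -- consequences
  have hLom : mu ≤ L * om := by
    have h1 : mu * W ≤ L * om * W := by
      have h2 : mu * N * s ≤ L * B * s := mul_le_mul_of_nonneg_right mn hs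
      have h3 : 0 ≤ L * om * s := by positivity
      rw [ha0] at n1
      nlinarith
    exact le_of_mul_le_mul_right h1 hWp
  have hB' : 0 ≤ B - rho * N := by
    have : L * (rho * N) ≤ L * B := by
      rw [← mul_assoc, hrL]
      exact mn
    linarith [le_of_mul_le_mul_left this hL]
  have hgg : L * (r.g0 + r.g1) ≤ r.th := by
    have h1 : L * (r.g0 + r.g1) * a0 ≤ r.th * a0 := by
      have h2 : L * (r.g0 * a0) ≤ L * (r.g0 * W) :=
        mul_le_mul_of_nonneg_left (mul_le_mul_of_nonneg_left hWa hg0) hL.le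
      have h3 : 0 ≤ L * (2 * r.th * s) := by positivity
      nlinarith
    exact le_of_mul_le_mul_right h1 hA0
  have hkk : L * r.ka ≤ om := by
    have h1 : L * r.ka * a0 ≤ om * a0 := by
      have h2 : L * (r.ka * a0) ≤ L * (r.ka * W) :=
        mul_le_mul_of_nonneg_left (mul_le_mul_of_nonneg_left hWa hka) hL.le
      have h3 : 0 ≤ L * (r.kb * s) := by positivity
      nlinarith
    exact le_of_mul_le_mul_right h1 hA0
  rw [← hmu, ← hrho, ← hom, ← hN, ← hB]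
  have hM1 := hr.M1
  have hM1' := hr.M1'
  have hM3 := hr.M3
  have hA0r := hr.A0
  have hA0' := hr.A0'
  have hA2 := hr.A2
  have hS1 := hr.S1
  have hF2b := hr.F2b
  rw [← hN, ← hmu] at hM1 hM1' hM3
  rw [← hN] at hA0r hA0' hA2 hF2b
  rw [← hN, ← hmu] at hS1
  rw [← hom] at hS1 hM1' hM3 hM1
  rw [← hB] at hM1
  exact
    { hd := hd
      hnuh0 := hnuh0
      hnuh1 := hr.nuh1
      hlam := by positivity
      hth0 := hth0
      hB := hB'
      hm1 := hom0.le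
      hkap := zero_le_one
      hk2 := hkb
      hk3 := le_rfl
      hF0 := hF0
      hx1 := by norm_num
      M1 := by
        intro x h0 h1
        rw [fN_eq h0, h1om]
        have h2 := hM1 x h0 h1
        have h3 : N * x ≤ 1 := by
          have := mul_le_mul_of_nonneg_left h1 hNp
          have h4 := hr.nuhN
          rw [← hN] at h4
          linarith
        have h5 : lf N x = 1 - N * x := max_eq_right (by linarith)
        refine le_trans (le_of_eq ?_) h2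
        rw [h5]
        ring
      M1' := by
        intro x h0 h1
        rw [fN_eq h0, h1om]
        exact hM1' x h0 h1
      M1x := by
        intro x h0 h1
        have hx0 : 0 ≤ x := hnuh0.le.trans h0.le
        rw [fN_eq hx0]
        have h2 : om ≤ B * x := by
          rw [← hBn]
          exact mul_le_mul_of_nonneg_left h0.le hB0.le
        rcases le_total (1 - N * x) 0 with h3 | h3
        · have h4 : lf N x = 0 := max_eq_left h3
          rw [h4]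
          -- at `x = 1 / N` the value is `om - B / N`
          have hNpos : 0 < N := by rw [hN]; linarith
          have h5 : om * N ≤ B := by
            have h6 := hr.nuhN
            rw [← hN] at h6
            calc om * N = B * (N * nuR r) := by rw [← hBn]; ring
              _ ≤ B * 1 := mul_le_mul_of_nonneg_left h6 hB0.le
              _ = B := mul_one B
          -- `(B - rho N) x ≥ (B - rho N) / N ≥ om - rho`
          have h7 : (B - rho * N) * 1 ≤ (B - rho * N) * (N * x) :=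
            mul_le_mul_of_nonneg_left (by linarith) hB'
          have h8 : (om - rho) * N ≤ (B - rho * N) * x * N := by nlinarith
          have h9 := le_of_mul_le_mul_right h8 hNpos
          linarith
        · have h4 : lf N x = 1 - N * x := max_eq_right h3
          rw [h4]
          nlinarith
      M3 := by
        intro x h0 h1
        rw [fN_eq h0, h1om]
        exact hM3 x h0 h1
      A0 := by
        intro x h0 h1
        rw [fN_eq h0]
        exact hA0r x h0 h1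
      A0' := by
        intro x h0 h1
        rw [fN_eq (hnuh0.le.trans h0.le)]
        exact hA0' x h0 h1
      A2 := by
        intro x h0 h1
        rw [fN_eq h0]
        exact hA2 x h0 h1
      S1 := by
        intro t x ht0 ht1 h0 h1
        rw [fN_eq h0, zero_mul, add_zero]
        exact hS1 t x ht0 ht1 h0 h1
      K0 := by
        intro x h0 h1
        have : 0 ≤ (r.kb : ℝ) * x := mul_nonneg hkb h0
        linarith
      K1 := by
        intro x h0 h1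
        have : 0 ≤ (r.kb : ℝ) * x := mul_nonneg hkb (hnuh0.le.trans h0.le)
        linarith
      F2b := by
        intro x h0 h1
        rw [fN_eq h0]
        exact hF2b x h0 h1
      AL := by
        intro x h0 h1
        have h2 := Al3_top h0 h1
        have h3 : 4 / 5 ≤ om := by rw [hom, hmu]; linarith
        nlinarith
      N1 := by
        rw [h1om, div_mul_eq_mul_div, le_div_iff₀ hAp]
        have e : L * (rho * A + ((om - rho) * W' - om * sg - (B - rho * N) * sg))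
            = (L * rho) * A + (L * om - L * rho) * W' - L * om * sg
              - (L * B - (L * rho) * N) * sg := by ring
        rw [e, hrL]
        have k1 : 0 ≤ (L * om - mu) * δ := mul_nonneg (by linarith) hδ0
        have k2 : 0 ≤ (L * B - mu * N) * ε := mul_nonneg (by linarith) hε0
        have k3 : 0 ≤ L * om * ε := by positivity
        rw [hWe, hse]
        rw [ha0] at n1
        nlinarith
      N2 := by
        rw [div_mul_eq_mul_div, div_le_iff₀ hAp, hAe, hWe, hse]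
        have k1 : L * (r.g0 + r.g1) * a ≤ r.th * a := mul_le_mul_of_nonneg_right hgg ha'
        have k2 : L * r.g0 * δ ≤ L * r.g0 * a :=
          mul_le_mul_of_nonneg_left haδ (by positivity)
        have k3 : 0 ≤ L * r.th * ε := by positivity
        nlinarith
      N3 := by
        rw [div_mul_eq_mul_div, div_le_iff₀ hAp, hAe, hWe, hse]
        have k1 : L * r.ka * δ ≤ om * δ := mul_le_mul_of_nonneg_right hkk hδ0
        have k2 : om * δ ≤ om * a := mul_le_mul_of_nonneg_left haδ hom0.le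
        have k3 : 0 ≤ L * r.kb * ε := by positivity
        nlinarith
      N4 := by
        have e : L / A * r.F2 * sg * (2 - 25 / 54) = L * (r.F2 * (2 - 25 / 54) * sg) / A := by ring
        rw [e, div_le_iff₀ hAp, hAe, hse]
        have k1 : 0 ≤ L * r.F2 * ε := by positivity
        nlinarith }

/-- One point `(W', sg, A)` of the certificate. -/
theorem numPt_of {g : Glob} (hg : g = ⟨21 / 25, 9 / 25, 1 / 1000, 21 / 50, 25 / 54⟩) {p : Par}
    {mu : ℚ} (hmu0 : 0 ≤ (mu : ℝ)) (hmu1 : (mu : ℝ) ≤ 1 / 5) (hp : ParOK p)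
    {tot s e1 sl η W W' s' sg A L : ℝ} {j : ℕ} (he : e1 ≤ 1 / 5)
    (hL : 0 < L) (hA0 : 0 < W - p.N * s')
    (hW : W ≤ W') (hsg0 : 0 ≤ sg) (hsg : sg ≤ s') (hA : W' - p.N * sg ≤ A)
    (hb : Base g p s' W L mu)
    (hline : 1 - s + η - sl * (p.d + 2 * j - 2 * (tot - 1)) ≤ L)
    (hkill : 1 ≤ p.d → 1 ≤ 1 - (mu : ℝ) ∨ ∃ B th rho a1 m1 g0 g1 kap k0 k1 k2 k3 F2 x1 nuh,
      MugOK W' A sg (L / A) (1 - (mu : ℝ)) B th rho a1 m1 g0 g1 kap k0 k1 k2 k3 F2 x1 nuh Al3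
        (fN p.N) p.d) :
    NumPt tot s e1 (21 / 25) sl η Al3 (fN p.N) p.d j W' sg A := by
  have hNp : 0 ≤ (p.N : ℝ) := by have := hp.N0; linarith
  have hA0A : W - p.N * s' ≤ A := by
    have : (p.N : ℝ) * sg ≤ p.N * s' := mul_le_mul_of_nonneg_left hsg hNp
    linarith
  have hAp : 0 < A := hA0.trans_le hA0A
  obtain ⟨hlin, hlam⟩ := hb
  obtain ⟨a0, ha0⟩ : ∃ a0 : ℝ, a0 = W - p.N * s' := ⟨_, rfl⟩
  rw [← ha0] at hlin hlam hA0A hA0
  have hlam' : L / A ≤ 2 / 5 := by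
    rw [div_le_iff₀ hAp]
    linarith
  have hf1 : ∀ x, 0 < fN p.N x → x < 1 := by
    intro x hx
    by_contra h
    rw [fN_cut hp.N0 (by linarith)] at hx
    exact lt_irrefl _ hx
  have hprof : ∀ x : ℝ, 0 ≤ x → fN (p.N : ℝ) x = lf p.N x := fun x hx => fN_eq hx
  obtain ⟨C, hC⟩ : ∃ C : ℝ, C = ((p.d * e0 g mu : ℚ) : ℝ) := ⟨_, rfl⟩
  have hC' : C = (p.d : ℝ) * ((21 / 25 + (1 - (mu : ℝ)) ^ 2 / (21 / 25)) / 2) := by
    rw [hC, hg]
    simp only [e0]
    push_cast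
    ring
  have hC0 : 0 ≤ C := by rw [hC']; positivity
  have hD : (((p.d * e0 g mu) ^ 2 * g.X ^ 2 / (4 * p.ss) : ℚ) : ℝ)
      = C ^ 2 * (21 / 50) ^ 2 / (4 * (p.ss : ℝ)) := by
    have : ((g.X : ℚ) : ℝ) = 21 / 50 := by rw [hg]; norm_num
    rw [Rat.cast_div, Rat.cast_mul, Rat.cast_pow, Rat.cast_pow, ← hC, this]
    push_cast
    ring
  rw [← hC, hD] at hlin
  rcases Nat.eq_zero_or_pos p.d with hd | hd
  · -- `d = 0`
    have hCz : C = 0 := by rw [hC', hd]; simp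
    refine ⟨L / A, 1 - (mu : ℝ), 1, 0, 0, 1 / 2, by linarith, ?_, ?_⟩
    · exact
        { lam0 := by positivity
          om0 := by linarith
          um0 := one_pos
          um1 := le_rfl
          C0 := le_rfl
          f0 := fN_nonneg _
          f1 := hf1
          X0 := fun _ => rfl
          kill := fun h => absurd h (by omega)
          prof := by
            intro x h0 h1 hf
            rw [hd]
            have : KZero.ss 0 1 = 0 := by simp [KZero.ss]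
            rw [this]
            simp }
    · have hl : L * (a0 ^ 2 + 0 * s' * a0 + 0 * s' ^ 2) ≤ a0 ^ 2 := by
        rw [hCz] at hlin
        simpa using hlin
      have := val_ge (D0 := 0) (D1 := 0) hA0 hA0A hsg0 hsg le_rfl le_rfl le_rfl hL hl
      refine hline.trans (this.trans (le_of_eq ?_))
      simp
  · obtain ⟨um, hum0, hum1, hss0, hss, hpr⟩ := hp.ex hd
    have hss1 : 0 < KZero.ss p.d um := hss0.trans_le hss
    have hkill' : 1 ≤ p.d → 1 ≤ 1 - (mu : ℝ) ∨ ∃ nuh B th rho a1 m1 g0 g1 kap k0 k1 k2 k3 F2 x1,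
        MugOK W' A sg (L / A) (1 - (mu : ℝ)) B th rho a1 m1 g0 g1 kap k0 k1 k2 k3 F2 x1 nuh Al3
          (fN p.N) p.d := by
      intro h
      rcases hkill h with h | ⟨B, th, rho, a1, m1, g0, g1, kap, k0, k1, k2, k3, F2, x1, nuh, h⟩
      · exact Or.inl h
      · exact Or.inr ⟨nuh, B, th, rho, a1, m1, g0, g1, kap, k0, k1, k2, k3, F2, x1, h⟩
    have hex : ∃ nuh : ℝ, 1 ≤ p.d → 1 ≤ 1 - (mu : ℝ) ∨
        ∃ B th rho a1 m1 g0 g1 kap k0 k1 k2 k3 F2 x1,
        MugOK W' A sg (L / A) (1 - (mu : ℝ)) B th rho a1 m1 g0 g1 kap k0 k1 k2 k3 F2 x1 nuh Al3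
          (fN p.N) p.d := by
      rcases hkill' hd with h | ⟨nuh, h⟩
      · exact ⟨1 / 2, fun _ => Or.inl h⟩
      · exact ⟨nuh, fun _ => Or.inr h⟩
    obtain ⟨nuh, hkill2⟩ := hex
    refine ⟨L / A, 1 - (mu : ℝ), um, 21 / 50, C, nuh, by linarith, ?_, ?_⟩
    · exact
        { lam0 := by positivity
          om0 := by linarith
          um0 := hum0
          um1 := hum1
          C0 := hC0
          f0 := fN_nonneg _
          f1 := hf1
          X0 := fun h => absurd h hss1.ne'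
          kill := hkill2
          prof := by
            intro x h0 h1 hf
            rw [hprof x h0] at hf ⊢
            rw [hC']
            exact hpr (1 - (mu : ℝ)) (by linarith) (by linarith) x h0 h1 hf }
    · have h1 : C ^ 2 * (21 / 50) ^ 2 / (4 * KZero.ss p.d um)
          ≤ C ^ 2 * (21 / 50) ^ 2 / (4 * (p.ss : ℝ)) :=
        div_le_div_of_nonneg_left (by positivity) (by linarith) (by linarith)
      have h2 := val_ge (D1 := C ^ 2 * (21 / 50) ^ 2 / (4 * KZero.ss p.d um)) hA0 hA0A hsg0 hsg hC0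
        (by positivity) h1 hL hlin
      refine hline.trans (h2.trans (le_of_eq ?_))
      ring

/-- **LINE and the rows give the certificate for `3 ≤ q ≤ 5`.** -/
theorem numCertR_of {g : Glob} (hg : g = ⟨21 / 25, 9 / 25, 1 / 1000, 21 / 50, 25 / 54⟩)
    {tab : List (Par × List Row)}
    (hline : LineS g tab (2999 / 1000) (5001 / 1000) (1 / 2) (101 / 100))
    (hpar : ∀ pr ∈ tab, ParOK pr.1) (hrow : ∀ pr ∈ tab, ∀ r ∈ pr.2, RowOK pr.1 r) :
    NumCertR 3 5 := by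
  refine ⟨1 / 100000, 1 / 10000, by norm_num, by norm_num, ?_⟩
  intro tot s ht0 ht1 hs0 hs1
  obtain ⟨q, hq⟩ : ∃ q : ℝ, q = tot - 1 - 1 / 100000 := ⟨_, rfl⟩
  obtain ⟨s', hs'⟩ : ∃ s' : ℝ, s' = s + 1 / 100000 := ⟨_, rfl⟩
  have hq0 : 2999 / 1000 ≤ q := by rw [hq]; linarith
  have hq1 : q ≤ 5001 / 1000 := by rw [hq]; linarith
  have hs'0 : 1 / 2 ≤ s' := by rw [hs']; linarith
  have hs'1 : s' ≤ 101 / 100 := by rw [hs']; linarith
  have hqp : 0 < q := by linarith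
  have heta : ((g.eta : ℚ) : ℝ) = 1 / 1000 := by rw [hg]; norm_num
  have hs0' : ((g.s0 : ℚ) : ℝ) = 9 / 25 := by rw [hg]; norm_num
  have hsl1 : 9 / 25 / (2 * q) ≤ 1 := by
    rw [div_le_one (by linarith)]
    linarith
  refine ⟨21 / 25, 9 / 25 / (2 * q), Al3, by norm_num, by positivity, hsl1, Al3_one, ?_⟩
  intro d j hdom hpos
  have hL' : 1 - s + 1 / 10000 - 9 / 25 / (2 * q) * (d + 2 * j - 2 * (tot - 1))
      ≤ 1 - s' + g.eta - g.s0 * ((d + 2 * j) / (2 * q) - 1) := by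
    rw [heta, hs0']
    have e1 : 9 / 25 / (2 * q) * (d + 2 * j - 2 * (tot - 1))
        = 9 / 25 * ((d + 2 * j) / (2 * q)) - 9 / 25 * (1 + 1 / 100000 / q) := by
      have : tot - 1 = q + 1 / 100000 := by rw [hq]; ring
      rw [this]
      field_simp
    have e2 : 1 / 100000 / q ≤ 1 / 100000 := div_le_self (by norm_num) (by linarith)
    rw [e1, hs']
    linarith
  have hdom' : q ≤ (d + j) * s' := by
    rw [hq, hs']
    exact hdom
  obtain ⟨pr, hprt, hprd, L, hL1, hL0, hB⟩ := hline q s' (by push_cast; linarith)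
    (by push_cast; linarith) (by push_cast; linarith) (by push_cast; linarith) d j hdom'
    (hpos.trans_le hL')
  obtain ⟨p, rows⟩ := pr
  simp only at hprd hB
  subst hprd
  have hp : ParOK p := hpar _ hprt
  have hN0 := hp.N0
  have hNp : 0 ≤ (p.N : ℝ) := by linarith
  obtain ⟨W, hWdef⟩ : ∃ W : ℝ, W = if j = 0 then q + 1 - s' else q + 1 - 2 * s' := ⟨_, rfl⟩
  rw [← hWdef] at hB
  have hA0 : 0 < W - p.N * s' := by
    have : L * (5 / 2) ≤ W - p.N * s' := by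
      rcases hB with h | ⟨r, -, h, -⟩
      · exact h.lam
      · exact h.lam
    linarith
  refine ⟨fN p.N, fN_nonneg _, fN_le hNp, fun x hx => fN_cut hN0 hx, ?_⟩
  intro W' sg A hW1 hW2 hsg1 hsg2 hA1 hA2 hmin
  have hsgs : sg ≤ s' := by rw [hs']; exact hsg2
  have hsg0 : 0 ≤ sg := by linarith
  have hWW : W ≤ W' := by
    rw [hWdef]
    by_cases hj : j = 0
    · rw [if_pos hj] at hW1 ⊢
      rw [hq, hs']
      linarith
    · rw [if_neg hj] at hW1 ⊢
      rw [hq, hs']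
      linarith
  have hA : W' - p.N * sg ≤ A := by
    have := hmin 1 p.N hNp fun x h0 h1 => fN_min h0
    linarith
  have hs'p : 0 ≤ s' := by linarith
  have hl2 := hL'.trans hL1
  rcases hB with hB | ⟨r, hr, hB, hK⟩
  · refine numPt_of hg (mu := 0) (by norm_num) (by norm_num) hp (by norm_num) hL0 hA0 hWW hsg0
      hsgs hA hB hl2 fun _ => Or.inl (by norm_num)
  · have hR := hrow _ hprt r hr
    refine numPt_of hg hR.mu0 hR.mu1 hp (by norm_num) hL0 hA0 hWW hsg0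
      hsgs hA hB hl2 fun h => Or.inr ?_
    exact ⟨_, _, _, _, _, _, _, _, _, _, _, _, _, _, _,
      mugOK_of hg hN0 hR h hs'p hL0 hA0 hWW hsgs hA hK⟩

end Pool.Agent.T6A.Cert3
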