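import Pool.Agent.T6A.Bern
import Pool.Agent.T6A.MuB

/-!
# CERT v3, range (R2): the rows M1, M1', M1x (helper81)

`f = lf N` (linear profile), `om = 1 - mu`, `B = om / nuh`, `rho = 0`, `a1 = m1 = om`. The two pointwise
inequalities are checked by the kernel with `Bern.chk`, for `x ∈ [0, r/m]`, `nuh = r/m`.
-/

set_option autoImplicit false

namespace Pool.Agent.T6A.C3M1

open Pool.Agent.T6A.Bern

/-- the polynomial of M1: `(1 - N x)((1-x)^e - mu) - (om - B x)(1-x)^(e+1)`, `d = e + 1` -/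
def eM1 (e : ℕ) (N mu om B : Ex) : Ex :=
  (1 - N * Ex.x 0) * ((1 - Ex.x 0) ^ e - mu) - (om - B * Ex.x 0) * (1 - Ex.x 0) ^ (e + 1)

/-- the polynomial of M1': `m1 (1-x)^(e+1) - (1 - N x)((1-x)^e - mu)` -/
def eM1' (e : ℕ) (N mu m1 : Ex) : Ex :=
  m1 * (1 - Ex.x 0) ^ (e + 1) - (1 - N * Ex.x 0) * ((1 - Ex.x 0) ^ e - mu)

theorem phi_eq {e : ℕ} {N mu x : ℝ} (hx : x < 1) (hN : N * x ≤ 1) :
    lf N x * (1 / (1 - x) - mu / (1 - x) ^ (e + 1)) =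
      (1 - N * x) * ((1 - x) ^ e - mu) / (1 - x) ^ (e + 1) := by
  have h1 : (1 : ℝ) - x ≠ 0 := by linarith
  have h2 : lf N x = 1 - N * x := max_eq_right (by linarith)
  rw [h2, pow_succ]
  field_simp

/-- M1 from the polynomial inequality -/
theorem m1_of {e : ℕ} {N mu om B nuh : ℝ} (hN0 : 0 ≤ N) (hN : N * nuh ≤ 1) (hnuh : nuh < 1)
    (h : ∀ x, 0 ≤ x → x ≤ nuh →
      0 ≤ (1 - N * x) * ((1 - x) ^ e - mu) - (om - B * x) * (1 - x) ^ (e + 1)) :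
    ∀ x, 0 ≤ x → x ≤ nuh →
      0 * lf N x + om - B * x ≤ lf N x * (1 / (1 - x) - mu / (1 - x) ^ (e + 1)) := by
  intro x h0 h1
  have hx : x < 1 := by linarith
  have h2 : 0 < (1 - x) ^ (e + 1) := pow_pos (by linarith) _
  rw [phi_eq hx (le_trans (mul_le_mul_of_nonneg_left h1 hN0) hN), le_div_iff₀ h2]
  have := h x h0 h1
  linarith

/-- M1' from the polynomial inequality -/
theorem m1'_of {e : ℕ} {N mu m1 nuh : ℝ} (hN0 : 0 ≤ N) (hN : N * nuh ≤ 1) (hnuh : nuh < 1)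
    (h : ∀ x, 0 ≤ x → x ≤ nuh →
      0 ≤ m1 * (1 - x) ^ (e + 1) - (1 - N * x) * ((1 - x) ^ e - mu)) :
    ∀ x, 0 ≤ x → x ≤ nuh → lf N x * (1 / (1 - x) - mu / (1 - x) ^ (e + 1)) ≤ m1 := by
  intro x h0 h1
  have hx : x < 1 := by linarith
  have h2 : 0 < (1 - x) ^ (e + 1) := pow_pos (by linarith) _
  rw [phi_eq hx (le_trans (mul_le_mul_of_nonneg_left h1 hN0) hN), div_le_iff₀ h2]
  have := h x h0 h1
  linarith

/-- The check for one entry: `N = N1/N2`, `mu = u1/u2`, `B = B1/B2`, `nuh = r/m`. -/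
def row (e : ℕ) (N1 N2 u1 u2 B1 B2 r m : ℕ) : Bool :=
  chk 8 (eM1 e (Ex.q N1 N2) (Ex.q u1 u2) (1 - Ex.q u1 u2) (Ex.q B1 B2)) [⟨0, r, m⟩] &&
  chk 8 (eM1' e (Ex.q N1 N2) (Ex.q u1 u2) (1 - Ex.q u1 u2)) [⟨0, r, m⟩]

theorem row_sound {e N1 N2 u1 u2 B1 B2 r m : ℕ} (h : row e N1 N2 u1 u2 B1 B2 r m = true)
    (hN : (N1 : ℝ) / N2 * ((r : ℝ) / m) ≤ 1) (hr : (r : ℝ) / m < 1) :
    (∀ x, 0 ≤ x → x ≤ (r : ℝ) / m →
      0 * lf ((N1 : ℝ) / N2) x + (1 - (u1 : ℝ) / u2) - (B1 : ℝ) / B2 * x ≤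
        lf ((N1 : ℝ) / N2) x * (1 / (1 - x) - (u1 : ℝ) / u2 / (1 - x) ^ (e + 1))) ∧
    (∀ x, 0 ≤ x → x ≤ (r : ℝ) / m →
      lf ((N1 : ℝ) / N2) x * (1 / (1 - x) - (u1 : ℝ) / u2 / (1 - x) ^ (e + 1)) ≤
        1 - (u1 : ℝ) / u2) := by
  rw [row, Bool.and_eq_true] at h
  have hN0 : (0 : ℝ) ≤ (N1 : ℝ) / N2 := by positivity
  constructor
  · refine m1_of hN0 hN hr fun x h0 h1 => ?_
    have := sound1 h.1 (a := x) (by simpa using h0) (by simpa using h1)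
    simpa [eM1] using this
  · refine m1'_of hN0 hN hr fun x h0 h1 => ?_
    have := sound1 h.2 (a := x) (by simpa using h0) (by simpa using h1)
    simpa [eM1'] using this

end Pool.Agent.T6A.C3M1
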