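import Pool.Agent.T6A.Cert3M3
import Pool.Agent.T6A.Cert3Tab

/-!
# CERT v3, range (R2): M3, the check of the rows of one degree (helper89)
-/

set_option autoImplicit false

namespace Pool.Agent.T6A.C3M3

open Pool.Agent.T6A.Bern Pool.Agent.T6A.Line3 Pool.Agent.T6A.C3T

/-- the check of the rows of one degree `e + 1` -/
def degK (e : ℕ) : Bool := (rows (e + 1)).all (rowM3Q 8 (29 / 100) e (par (e + 1)).N)

end Pool.Agent.T6A.C3M3
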