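import Pool.Agent.T6A.Cert3M3T0

/-!
# CERT v3, range (R2): M3 for rows of the table, part 1 (helper89)
-/

set_option autoImplicit false

namespace Pool.Agent.T6A.C3M3

open Pool.Agent.T6A.Bern Pool.Agent.T6A.Line3 Pool.Agent.T6A.C3T

theorem degK3 : degK 3 = true := by decide +kernel
theorem degK4 : degK 4 = true := by decide +kernel
theorem degK5 : degK 5 = true := by decide +kernel
theorem degK6 : degK 6 = true := by decide +kernel

end Pool.Agent.T6A.C3M3
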