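import Pool.Agent.T6A.Cert3S1Q
import Pool.Agent.T6A.Cert3Tab

/-!
# CERT v3, range (R2): the check of the rows S1 and F2b of one degree (helper90)
-/

set_option autoImplicit false

namespace Pool.Agent.T6A.C3S1

open Pool.Agent.T6A.Bern Pool.Agent.T6A.Line3 Pool.Agent.T6A.C3T

/-- All rows of the degree `e + 1`. -/
def degSQ (e : ℕ) : Bool := (rows (e + 1)).all fun r => rowSQ 4 (29 / 100) e (par (e + 1)).N r

end Pool.Agent.T6A.C3S1
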