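import Pool.Agent.T6A.Cert3RowS0

/-!
# CERT v3, range (R2): rows S1 and F2b, degrees 4 to 8 (helper90)
-/

set_option autoImplicit false

namespace Pool.Agent.T6A.C3S1

theorem degSQ_3 : degSQ 3 = true := by decide +kernel
theorem degSQ_4 : degSQ 4 = true := by decide +kernel
theorem degSQ_5 : degSQ 5 = true := by decide +kernel
theorem degSQ_6 : degSQ 6 = true := by decide +kernel
theorem degSQ_7 : degSQ 7 = true := by decide +kernel

end Pool.Agent.T6A.C3S1
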