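import Mathlib

/-!
# The bracket with the removal of `N(a)` and `N(b)` for arbitrary profiles (T6-A, MP_c6effb_co)

Generalisation of `mub` (helper58, helper22): the profile `f`, the factor `Al` and the constants are
arbitrary. `mug_zero`: the bound at `s = 0`; `mug_diff`: the change with `s`.
-/

set_option autoImplicit false
set_option linter.unusedSectionVars false

open Finset

namespace Pool.Agent.T6A

/-- the intensity -/
noncomputable def rhoG {ι : Type*} [DecidableEq ι] (U Nb S : Finset ι) (w n : ι → ℝ)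
    (lam : ℝ) (f : ℝ → ℝ) (nuh : ℝ) (d : ℕ) (c : ι) : ℝ :=
  if c ∈ U ∧ c ∉ Nb ∧ c ∉ S ∧ n c ≤ nuh then lam * w c * f (n c) / (1 - n c) ^ d else 0

/-- the sum of the squares (per `lam ^ 2`) -/
noncomputable def PG {ι : Type*} (U : Finset ι) (w n : ι → ℝ) (Al f : ℝ → ℝ) : ℝ :=
  ∑ c ∈ U, w c * (f (n c) ^ 2 * Al (n c) ^ 2 / (1 - n c))

section

variable {ι : Type*} [Fintype ι] [DecidableEq ι] (U Nb S : Finset ι) (w n : ι → ℝ)
  (lam : ℝ) (f : ℝ → ℝ) (nuh : ℝ) (d : ℕ)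

/-- the active set -/
noncomputable def actG : Finset ι := U.filter (fun c => c ∉ Nb ∧ c ∉ S ∧ n c ≤ nuh)

theorem sum_rhoG (g : ι → ℝ) : ∑ c, rhoG U Nb S w n lam f nuh d c * g c =
    ∑ c ∈ actG U Nb S n nuh, lam * w c * f (n c) / (1 - n c) ^ d * g c := by
  rw [actG, sum_filter]
  have h1 : ∑ c, rhoG U Nb S w n lam f nuh d c * g c
      = ∑ c ∈ U, rhoG U Nb S w n lam f nuh d c * g c := by
    symm
    refine sum_subset (subset_univ U) fun c _ hc => ?_
    unfold rhoG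
    rw [if_neg (fun h => hc h.1), zero_mul]
  rw [h1]
  refine sum_congr rfl fun c hc => ?_
  unfold rhoG
  by_cases h : c ∉ Nb ∧ c ∉ S ∧ n c ≤ nuh
  · rw [if_pos ⟨hc, h⟩, if_pos h]
  · rw [if_neg (fun h' => h h'.2), if_neg h, zero_mul]

theorem sum_rhoG' : ∑ c, rhoG U Nb S w n lam f nuh d c =
    ∑ c ∈ actG U Nb S n nuh, lam * w c * f (n c) / (1 - n c) ^ d := by
  have := sum_rhoG U Nb S w n lam f nuh d (fun _ => 1)
  simpa using this

variable {U Nb S w n lam f nuh d}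

theorem rhoG_nonneg (hw : ∀ c ∈ U, 0 ≤ w c) (hlam : 0 ≤ lam) (hf : ∀ x, 0 ≤ f x)
    (hn1 : ∀ c ∈ U, n c ≤ 1) (c : ι) : 0 ≤ rhoG U Nb S w n lam f nuh d c := by
  unfold rhoG
  split_ifs with h
  · have := hn1 c h.1
    exact div_nonneg (mul_nonneg (mul_nonneg hlam (hw c h.1)) (hf _))
      (pow_nonneg (by linarith) _)
  · exact le_rfl

/-- **The bound at `s = 0`.** -/
theorem mug_zero {sg mu om B th a1 m1 g0 kap : ℝ} {Al : ℝ → ℝ}
    (hw : ∀ c ∈ U, 0 ≤ w c) (hn0 : ∀ c ∈ U, 0 ≤ n c) (hn1 : ∀ c ∈ U, n c ≤ 1)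
    (hwn : ∑ c ∈ U, w c * n c ≤ sg) (hNb : ∑ c ∈ U ∩ Nb, w c ≤ sg) (hS : ∑ c ∈ U ∩ S, w c ≤ sg)
    (hd : 1 ≤ d) (hf : ∀ x, 0 ≤ f x) (hnuh0 : 0 < nuh) (hnuh1 : nuh < 1)
    (hlam : 0 ≤ lam) (hth0 : 0 < th) (hB : 0 ≤ B) (hom0 : 0 ≤ om) (hom : om = 1 - mu)
    (hm1 : 0 ≤ m1) (hkap : 0 ≤ kap)
    (M1 : ∀ x, 0 ≤ x → x ≤ nuh → a1 - B * x ≤ f x * (1 / (1 - x) - mu / (1 - x) ^ d))
    (M1' : ∀ x, 0 ≤ x → x ≤ nuh → f x * (1 / (1 - x) - mu / (1 - x) ^ d) ≤ m1)
    (M2 : a1 ≤ B * nuh)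
    (M3 : ∀ x, 0 ≤ x → x ≤ nuh → th * (f x * (1 / (1 - x) - mu / (1 - x) ^ d))
      ≤ om * (f x ^ 2 * Al x ^ 2 / (1 - x)))
    (A0 : ∀ x, 0 ≤ x → x ≤ nuh → 2 * (f x ^ 2 * Al x ^ 2 / (1 - x)) ≤
      g0 + th * (f x / (1 - x) ^ d))
    (A0' : ∀ x, nuh < x → x ≤ 1 → 2 * (f x ^ 2 * Al x ^ 2 / (1 - x)) ≤ g0)
    (A2 : ∀ x, 0 ≤ x → x ≤ 1 → 2 * (f x ^ 2 * Al x ^ 2 / (1 - x)) ≤ g0 + th * kap)
    (N1 : mu ≤ lam * (a1 * ∑ c ∈ U, w c - m1 * sg - B * sg))
    (N2 : lam * (g0 * ∑ c ∈ U, w c + 2 * th * kap * sg) ≤ th) :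
    1 + ∑ c, rhoG U Nb S w n lam f nuh d c * (1 - (1 - n c) ^ (d - 1)) ≤
      om * (1 + PG (U ∩ S) w n Al f / PG U w n Al f / 2) *
        (1 + ∑ c, rhoG U Nb S w n lam f nuh d c) := by
  obtain ⟨e, rfl⟩ : ∃ e, d = e + 1 := ⟨d - 1, by omega⟩
  simp only [Nat.add_sub_cancel]
  obtain ⟨T, hT⟩ : ∃ T, T = actG U Nb S n nuh := ⟨_, rfl⟩
  have hTU : ∀ c ∈ T, c ∈ U ∧ c ∉ Nb ∧ c ∉ S ∧ n c ≤ nuh := fun c hc => by
    rw [hT, actG] at hc; simpa using mem_filter.mp hc
  have hy : ∀ c ∈ T, 0 < 1 - n c := fun c hc => by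
    have := (hTU c hc).2.2.2; linarith
  have hterm0 : ∀ c ∈ T, 0 ≤ lam * w c * f (n c) / (1 - n c) ^ (e + 1) := fun c hc =>
    div_nonneg (mul_nonneg (mul_nonneg hlam (hw c (hTU c hc).1)) (hf _))
      (pow_pos (hy c hc) _).le
  obtain ⟨M, hM⟩ : ∃ M, M = ∑ c, rhoG U Nb S w n lam f nuh (e + 1) c := ⟨_, rfl⟩
  have hMsum : M = ∑ c ∈ T, lam * w c * f (n c) / (1 - n c) ^ (e + 1) := by
    rw [hM, sum_rhoG', ← hT]
  have hM0 : 0 ≤ M := by rw [hMsum]; exact sum_nonneg hterm0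
  rw [← hM]
  -- P, PS
  obtain ⟨P, hP⟩ : ∃ P, P = PG U w n Al f := ⟨_, rfl⟩
  obtain ⟨PS, hPS⟩ : ∃ PS, PS = PG (U ∩ S) w n Al f := ⟨_, rfl⟩
  rw [← hP, ← hPS]
  have hpt : ∀ c ∈ U, 0 ≤ w c * (f (n c) ^ 2 * Al (n c) ^ 2 / (1 - n c)) := fun c hc =>
    mul_nonneg (hw c hc) (div_nonneg (by positivity) (by linarith [hn1 c hc]))
  have hPS0 : 0 ≤ PS := by
    rw [hPS]; unfold PG
    exact sum_nonneg fun c hc => hpt c (mem_inter.mp hc).1
  have hPSP : PS ≤ P := by
    rw [hPS, hP]; unfold PG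
    exact sum_le_sum_of_subset_of_nonneg inter_subset_left fun c hc _ => hpt c hc
  obtain ⟨z, hz⟩ : ∃ z, z = PS / P := ⟨_, rfl⟩
  have hz0 : 0 ≤ z := by rw [hz]; exact div_nonneg hPS0 (hPS0.trans hPSP)
  have hzP : z * P = PS := by
    rcases (hPS0.trans hPSP).eq_or_lt with h | h
    · have h' : P = 0 := h.symm
      have : PS = 0 := le_antisymm (by rw [h'] at hPSP; exact hPSP) hPS0
      rw [this, h', mul_zero]
    · rw [hz]; field_simp
  rw [← hz]
  -- left side
  have hL : 1 + ∑ c, rhoG U Nb S w n lam f nuh (e + 1) c * (1 - (1 - n c) ^ e) =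
      1 + M - mu * M - ∑ c, rhoG U Nb S w n lam f nuh (e + 1) c * ((1 - n c) ^ e - mu) := by
    rw [hM, mul_sum]
    have : ∑ c, rhoG U Nb S w n lam f nuh (e + 1) c * (1 - (1 - n c) ^ e)
        = ∑ c, rhoG U Nb S w n lam f nuh (e + 1) c
          - ∑ c, mu * rhoG U Nb S w n lam f nuh (e + 1) c
          - ∑ c, rhoG U Nb S w n lam f nuh (e + 1) c * ((1 - n c) ^ e - mu) := by
      rw [← sum_sub_distrib, ← sum_sub_distrib]
      exact sum_congr rfl fun c _ => by ring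
    rw [this]; ring
  rw [hL]
  -- the main term
  obtain ⟨φ, hφ⟩ : ∃ φ : ℝ → ℝ, φ = fun x => f x * (1 / (1 - x) - mu / (1 - x) ^ (e + 1)) :=
    ⟨_, rfl⟩
  have hφx : ∀ x, φ x = f x * (1 / (1 - x) - mu / (1 - x) ^ (e + 1)) := fun x => by rw [hφ]
  have hb1 : ∑ c, rhoG U Nb S w n lam f nuh (e + 1) c * ((1 - n c) ^ e - mu)
      = lam * ∑ c ∈ T, w c * φ (n c) := by
    rw [sum_rhoG, ← hT, mul_sum]
    refine sum_congr rfl fun c hc => ?_
    have hyc := hy c hc
    rw [hφx, pow_succ]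
    field_simp
  obtain ⟨U', hU'⟩ : ∃ U' : Finset ι, U' = U.filter (fun c => n c ≤ nuh) := ⟨_, rfl⟩
  have hT' : T = U'.filter (fun c => c ∉ Nb ∧ c ∉ S) := by
    rw [hT, actG, hU', filter_filter]
    refine filter_congr fun c _ => ?_
    tauto
  have hb2 : a1 * ∑ c ∈ U, w c - B * sg ≤ ∑ c ∈ U', w c * φ (n c) := by
    calc a1 * ∑ c ∈ U, w c - B * sg ≤ a1 * ∑ c ∈ U, w c - B * ∑ c ∈ U, w c * n c := by
          have := mul_le_mul_of_nonneg_left hwn hB
          linarith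
      _ = ∑ c ∈ U, w c * (a1 - B * n c) := by
          rw [mul_sum, mul_sum, ← sum_sub_distrib]
          refine sum_congr rfl fun c _ => ?_
          ring
      _ ≤ ∑ c ∈ U, if n c ≤ nuh then w c * φ (n c) else 0 := by
          refine sum_le_sum fun c hc => ?_
          split_ifs with h
          · rw [hφx]
            exact mul_le_mul_of_nonneg_left (M1 (n c) (hn0 c hc) h) (hw c hc)
          · push Not at h
            refine mul_nonpos_of_nonneg_of_nonpos (hw c hc) ?_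
            have : B * nuh ≤ B * n c := mul_le_mul_of_nonneg_left h.le hB
            linarith
      _ = ∑ c ∈ U', w c * φ (n c) := by rw [hU', sum_filter]
  have hb3 : ∑ c ∈ U', w c * φ (n c) - ∑ c ∈ T, w c * φ (n c) ≤
      m1 * sg + om / th * PS := by
    have h1 : ∑ c ∈ U', w c * φ (n c) = ∑ c ∈ T, w c * φ (n c) +
        ∑ c ∈ U'.filter (fun c => ¬ (c ∉ Nb ∧ c ∉ S)), w c * φ (n c) := by
      rw [hT', sum_filter_add_sum_filter_not]
    rw [h1, add_sub_cancel_left]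
    have h2 : ∀ c ∈ U'.filter (fun c => ¬ (c ∉ Nb ∧ c ∉ S)), w c * φ (n c) ≤
        (if c ∈ Nb then m1 * w c else 0) + (if c ∈ S then om / th *
          (w c * (f (n c) ^ 2 * Al (n c) ^ 2 / (1 - n c))) else 0) := by
      intro c hc
      obtain ⟨hc1, hc2⟩ := mem_filter.mp hc
      rw [hU'] at hc1
      obtain ⟨hcU, hcn⟩ := mem_filter.mp hc1
      have hwc := hw c hcU
      have hx0 := hn0 c hcU
      by_cases hNbc : c ∈ Nb
      · rw [if_pos hNbc]
        have h3 : w c * φ (n c) ≤ m1 * w c := by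
          rw [mul_comm m1, hφx]
          exact mul_le_mul_of_nonneg_left (M1' (n c) hx0 hcn) hwc
        have h4 : (0 : ℝ) ≤ if c ∈ S then om / th *
          (w c * (f (n c) ^ 2 * Al (n c) ^ 2 / (1 - n c))) else 0 := by
          split_ifs
          · exact mul_nonneg (div_nonneg hom0 hth0.le) (hpt c hcU)
          · exact le_rfl
        linarith
      · have hSc : c ∈ S := by
          by_contra h; exact hc2 ⟨hNbc, h⟩
        rw [if_neg hNbc, if_pos hSc, zero_add]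
        have h3 := M3 (n c) hx0 hcn
        rw [← hφx] at h3
        have h8 : φ (n c) ≤ om / th * (f (n c) ^ 2 * Al (n c) ^ 2 / (1 - n c)) := by
          rw [div_mul_eq_mul_div, le_div_iff₀ hth0, mul_comm (φ (n c))]
          exact h3
        calc w c * φ (n c) ≤ w c * (om / th *
            (f (n c) ^ 2 * Al (n c) ^ 2 / (1 - n c))) :=
              mul_le_mul_of_nonneg_left h8 hwc
          _ = _ := by ring
    refine (sum_le_sum h2).trans ?_
    rw [sum_add_distrib]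
    refine add_le_add ?_ ?_
    · calc _ ≤ ∑ c ∈ U, if c ∈ Nb then m1 * w c else 0 := by
            rw [hU']
            refine sum_le_sum_of_subset_of_nonneg
              ((filter_subset _ _).trans (filter_subset _ _)) fun c hc _ => ?_
            split_ifs
            · exact mul_nonneg hm1 (hw c hc)
            · exact le_rfl
        _ = m1 * ∑ c ∈ U ∩ Nb, w c := by
            rw [← sum_filter, mul_sum, filter_mem_eq_inter]
        _ ≤ m1 * sg := mul_le_mul_of_nonneg_left hNb hm1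
    · calc _ ≤ ∑ c ∈ U, if c ∈ S then om / th *
            (w c * (f (n c) ^ 2 * Al (n c) ^ 2 / (1 - n c))) else 0 := by
            rw [hU']
            refine sum_le_sum_of_subset_of_nonneg
              ((filter_subset _ _).trans (filter_subset _ _)) fun c hc _ => ?_
            split_ifs
            · exact mul_nonneg (div_nonneg hom0 hth0.le) (hpt c hc)
            · exact le_rfl
        _ = om / th * PS := by
            rw [← sum_filter, filter_mem_eq_inter, hPS]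
            unfold PG
            rw [mul_sum]
  have hc : 2 * lam * P ≤ th * (1 + M) := by
    have h1 : ∀ c ∈ U, 2 * (w c * (f (n c) ^ 2 * Al (n c) ^ 2 / (1 - n c))) ≤
        g0 * w c + ((if c ∈ Nb then th * kap * w c else 0) +
          (if c ∈ S then th * kap * w c else 0)) +
          (if c ∉ Nb ∧ c ∉ S ∧ n c ≤ nuh then th * (w c * (f (n c) / (1 - n c) ^ (e + 1)))
            else 0) := by
      intro c hcU
      have hwc := hw c hcU
      have hx0 := hn0 c hcU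
      have hx1 := hn1 c hcU
      have hk0 : 0 ≤ th * kap * w c := mul_nonneg (mul_nonneg hth0.le hkap) hwc
      by_cases hact : c ∉ Nb ∧ c ∉ S ∧ n c ≤ nuh
      · rw [if_neg hact.1, if_neg hact.2.1, if_pos hact, add_zero, add_zero]
        have h2 := mul_le_mul_of_nonneg_left (A0 (n c) hx0 hact.2.2) hwc
        calc _ = w c * (2 * (f (n c) ^ 2 * Al (n c) ^ 2 / (1 - n c))) := by ring
          _ ≤ _ := h2
          _ = _ := by ring
      · rw [if_neg hact, add_zero]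
        by_cases hrem : c ∈ Nb ∨ c ∈ S
        · have h2 := mul_le_mul_of_nonneg_left (A2 (n c) hx0 hx1) hwc
          have h3 : th * kap * w c ≤ (if c ∈ Nb then th * kap * w c else 0) +
              (if c ∈ S then th * kap * w c else 0) := by
            rcases hrem with h | h
            · rw [if_pos h]
              split_ifs <;> linarith
            · rw [if_pos h]
              split_ifs <;> linarith
          calc _ = w c * (2 * (f (n c) ^ 2 * Al (n c) ^ 2 / (1 - n c))) := by ring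
            _ ≤ w c * (g0 + th * kap) := h2
            _ = g0 * w c + th * kap * w c := by ring
            _ ≤ _ := by linarith
        · push Not at hrem
          rw [if_neg hrem.1, if_neg hrem.2, add_zero, add_zero]
          have hgt : nuh < n c := by
            by_contra hcon
            push Not at hcon
            exact hact ⟨hrem.1, hrem.2, hcon⟩
          have h2 := mul_le_mul_of_nonneg_left (A0' (n c) hgt hx1) hwc
          calc _ = w c * (2 * (f (n c) ^ 2 * Al (n c) ^ 2 / (1 - n c))) := by ring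
            _ ≤ _ := h2
            _ = _ := by ring
    have h2 : 2 * P ≤ g0 * ∑ c ∈ U, w c + 2 * th * kap * sg
        + th * ∑ c ∈ T, w c * (f (n c) / (1 - n c) ^ (e + 1)) := by
      calc 2 * P = ∑ c ∈ U, 2 * (w c * (f (n c) ^ 2 * Al (n c) ^ 2 / (1 - n c))) := by
            rw [hP]; unfold PG; rw [mul_sum]
        _ ≤ _ := sum_le_sum h1
        _ = g0 * ∑ c ∈ U, w c + (th * kap * ∑ c ∈ U ∩ Nb, w c + th * kap * ∑ c ∈ U ∩ S, w c)
            + th * ∑ c ∈ T, w c * (f (n c) / (1 - n c) ^ (e + 1)) := by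
          rw [sum_add_distrib, sum_add_distrib, sum_add_distrib, mul_sum]
          congr 1
          · congr 1
            congr 1
            · rw [← sum_filter, mul_sum, filter_mem_eq_inter]
            · rw [← sum_filter, mul_sum, filter_mem_eq_inter]
          · rw [hT, actG, sum_filter, mul_sum]
            refine sum_congr rfl fun c _ => ?_
            split_ifs <;> simp
        _ ≤ _ := by
          have h3 : 0 ≤ th * kap := mul_nonneg hth0.le hkap
          have h4 := mul_le_mul_of_nonneg_left hNb h3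
          have h5 := mul_le_mul_of_nonneg_left hS h3
          linarith
    have h3 := mul_le_mul_of_nonneg_left h2 hlam
    have h4 : lam * (th * ∑ c ∈ T, w c * (f (n c) / (1 - n c) ^ (e + 1))) = th * M := by
      rw [hMsum, mul_sum, mul_sum, mul_sum]
      exact sum_congr rfl fun c _ => by ring
    nlinarith
  -- conclusion
  rw [hb1]
  have h1 : a1 * ∑ c ∈ U, w c - m1 * sg - B * sg - om / th * PS ≤ ∑ c ∈ T, w c * φ (n c) := by
    linarith
  have h2 := mul_le_mul_of_nonneg_left h1 hlam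
  have h3 : lam * (om / th * PS) ≤ om * (z / 2) * (1 + M) := by
    rw [← hzP]
    have h4 : lam * (om / th * (z * P)) = om * z / (2 * th) * (2 * lam * P) := by
      field_simp
    have h5 : om * z / (2 * th) * (2 * lam * P) ≤ om * z / (2 * th) * (th * (1 + M)) :=
      mul_le_mul_of_nonneg_left hc (by positivity)
    have h6 : om * z / (2 * th) * (th * (1 + M)) = om * (z / 2) * (1 + M) := by
      field_simp
    rw [h4]
    exact h5.trans h6.le
  have h7 : lam * (a1 * ∑ c ∈ U, w c - m1 * sg - B * sg - om / th * PS)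
      = lam * (a1 * ∑ c ∈ U, w c - m1 * sg - B * sg) - lam * (om / th * PS) := by ring
  rw [h7] at h2
  have h8 : om * (1 + z / 2) * (1 + M) = (1 + M - mu * M - mu) + om * (z / 2) * (1 + M) := by
    rw [hom]; ring
  rw [h8]
  linarith

/-- **The change with `s`.** -/
theorem mug_diff {om ka kb s δ sg : ℝ} (hw : ∀ c ∈ U, 0 ≤ w c) (hn0 : ∀ c ∈ U, 0 ≤ n c)
    (hwn : ∑ c ∈ U, w c * n c ≤ sg)
    (hd : 1 ≤ d) (hlam : 0 ≤ lam) (hδ : 0 ≤ δ) (hka : 0 ≤ ka) (hkb : 0 ≤ kb)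
    (S1 : ∀ x, 0 ≤ x → x ≤ nuh →
      f x / (1 - x) ^ d * ((1 - x) ^ (d - 1) - (max 0 (1 - x / (1 - s))) ^ (d - 1)
        - δ * om) ≤ δ * (ka + kb * x))
    (N3 : lam * (ka * ∑ c ∈ U, w c + kb * sg) ≤ om) :
    ∑ c, rhoG U Nb S w n lam f nuh d c *
        ((1 - n c) ^ (d - 1) - (max 0 (1 - n c / (1 - s))) ^ (d - 1))
      ≤ δ * om * (1 + ∑ c, rhoG U Nb S w n lam f nuh d c) := by
  obtain ⟨e, rfl⟩ : ∃ e, d = e + 1 := ⟨d - 1, by omega⟩
  simp only [Nat.add_sub_cancel] at S1 ⊢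
  have h1 : ∑ c, rhoG U Nb S w n lam f nuh (e + 1) c *
      ((1 - n c) ^ e - (max 0 (1 - n c / (1 - s))) ^ e - δ * om) ≤ δ * om := by
    rw [sum_rhoG]
    have hTU : ∀ c ∈ actG U Nb S n nuh, c ∈ U ∧ c ∉ Nb ∧ c ∉ S ∧ n c ≤ nuh := fun c hc => by
      rw [actG] at hc; simpa using mem_filter.mp hc
    calc _ ≤ ∑ c ∈ actG U Nb S n nuh, lam * w c * (δ * (ka + kb * n c)) := by
          refine sum_le_sum fun c hc => ?_
          have hcT := hTU c hc
          calc _ = lam * w c * (f (n c) / (1 - n c) ^ (e + 1) *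
              ((1 - n c) ^ e - (max 0 (1 - n c / (1 - s))) ^ e - δ * om)) := by ring
            _ ≤ _ := mul_le_mul_of_nonneg_left (S1 (n c) (hn0 c hcT.1) hcT.2.2.2)
              (mul_nonneg hlam (hw c hcT.1))
      _ ≤ ∑ c ∈ U, lam * w c * (δ * (ka + kb * n c)) := by
          refine sum_le_sum_of_subset_of_nonneg (filter_subset _ _) fun c hc _ => ?_
          have := mul_nonneg hkb (hn0 c hc)
          exact mul_nonneg (mul_nonneg hlam (hw c hc)) (mul_nonneg hδ (by linarith))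
      _ = δ * (lam * (ka * ∑ c ∈ U, w c + kb * ∑ c ∈ U, w c * n c)) := by
          rw [mul_sum, mul_sum, ← sum_add_distrib, mul_sum, mul_sum]
          exact sum_congr rfl fun c _ => by ring
      _ ≤ δ * (lam * (ka * ∑ c ∈ U, w c + kb * sg)) := by
          refine mul_le_mul_of_nonneg_left (mul_le_mul_of_nonneg_left ?_ hlam) hδ
          have := mul_le_mul_of_nonneg_left hwn hkb
          linarith
      _ ≤ δ * om := mul_le_mul_of_nonneg_left N3 hδ
  have h2 : ∑ c, rhoG U Nb S w n lam f nuh (e + 1) c *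
      ((1 - n c) ^ e - (max 0 (1 - n c / (1 - s))) ^ e - δ * om)
      = ∑ c, rhoG U Nb S w n lam f nuh (e + 1) c *
        ((1 - n c) ^ e - (max 0 (1 - n c / (1 - s))) ^ e)
        - δ * om * ∑ c, rhoG U Nb S w n lam f nuh (e + 1) c := by
    rw [mul_sum, ← sum_sub_distrib]
    exact sum_congr rfl fun c _ => by ring
  rw [h2] at h1
  linarith

omit [Fintype ι] [DecidableEq ι] in
/-- `(1 - x)^E - (1 - x/(1-s))₊^E ≤ s/(1-s) · E x (1-x)^(E-1)`. -/
theorem pow_diff_le {x s : ℝ} (hx0 : 0 ≤ x) (hx1 : x < 1) (hs0 : 0 ≤ s) (hs1 : s < 1) (E : ℕ) :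
    (1 - x) ^ E - (max 0 (1 - x / (1 - s))) ^ E
      ≤ s / (1 - s) * (E * (x * (1 - x) ^ (E - 1))) := by
  have hy : 0 < 1 - x := by linarith
  have hs : 0 < 1 - s := by linarith
  rcases Nat.eq_zero_or_pos E with hE | hE
  · subst hE; simp
  · obtain ⟨m, rfl⟩ : ∃ m, E = m + 1 := ⟨E - 1, by omega⟩
    simp only [Nat.add_sub_cancel]
    obtain ⟨t, ht⟩ : ∃ t, t = max 0 (1 - x / (1 - s)) := ⟨_, rfl⟩
    rw [← ht]
    have ht0 : 0 ≤ t := by rw [ht]; exact le_max_left _ _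
    have ht1 : 1 - x - s / (1 - s) * x ≤ t := by
      rw [ht]
      refine le_trans (le_of_eq ?_) (le_max_right _ _)
      field_simp
      ring
    have ht2 : t ≤ 1 - x := by
      rw [ht]
      refine max_le hy.le ?_
      have : x ≤ x / (1 - s) := by
        rw [le_div_iff₀ hs]
        nlinarith
      linarith
    -- the tangent at `1 - x`
    have hb : (1 - x) ^ (m + 1) - t ^ (m + 1) ≤ ((m + 1 : ℕ) : ℝ) * (1 - x) ^ m * (1 - x - t) := by
      have h1 : -2 ≤ t / (1 - x) - 1 := by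
        have := div_nonneg ht0 hy.le
        linarith
      have h2 := one_add_mul_le_pow h1 (m + 1)
      have h3 : (1 + (t / (1 - x) - 1)) ^ (m + 1) = t ^ (m + 1) / (1 - x) ^ (m + 1) := by
        rw [← div_pow]; congr 1; ring
      rw [h3, le_div_iff₀ (by positivity)] at h2
      have h4 : (1 + ((m + 1 : ℕ) : ℝ) * (t / (1 - x) - 1)) * (1 - x) ^ (m + 1)
          = (1 - x) ^ (m + 1) - ((m + 1 : ℕ) : ℝ) * (1 - x) ^ m * (1 - x - t) := by
        rw [pow_succ]
        field_simp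
        ring
      rw [h4] at h2
      linarith
    refine hb.trans ?_
    have h5 : 1 - x - t ≤ s / (1 - s) * x := by linarith
    have h6 := mul_le_mul_of_nonneg_left h5
      (by positivity : 0 ≤ ((m + 1 : ℕ) : ℝ) * (1 - x) ^ m)
    calc _ ≤ _ := h6
      _ = _ := by ring

omit [Fintype ι] [DecidableEq ι] in
/-- The condition `S1` of `mug_diff` from a condition in one variable: `δ ≥ c s / (1 - s)`. -/
theorem S1_of {f : ℝ → ℝ} {om ka kb c s δ x : ℝ} {d : ℕ} (hf : 0 ≤ f x) (hc : 0 < c)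
    (hx0 : 0 ≤ x) (hx1 : x < 1) (hs0 : 0 ≤ s) (hs1 : s < 1) (hδ : c * (s / (1 - s)) ≤ δ)
    (hone : f x / (1 - x) ^ d * (((d - 1 : ℕ) : ℝ) * (x * (1 - x) ^ (d - 1 - 1)) - c * om)
      ≤ c * (ka + kb * x)) :
    f x / (1 - x) ^ d * ((1 - x) ^ (d - 1) - (max 0 (1 - x / (1 - s))) ^ (d - 1)
        - δ * om) ≤ δ * (ka + kb * x) := by
  have hy : 0 < 1 - x := by linarith
  have hs : 0 < 1 - s := by linarith
  have ho : 0 ≤ s / (1 - s) := div_nonneg hs0 hs.le
  have hδ0 : 0 ≤ δ := (mul_nonneg hc.le ho).trans hδ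
  have h1 := pow_diff_le hx0 hx1 hs0 hs1 (d - 1)
  obtain ⟨q, hq⟩ : ∃ q, q = f x / (1 - x) ^ d := ⟨_, rfl⟩
  have hq0 : 0 ≤ q := by rw [hq]; positivity
  obtain ⟨A, hA⟩ : ∃ A, A = ((d - 1 : ℕ) : ℝ) * (x * (1 - x) ^ (d - 1 - 1)) := ⟨_, rfl⟩
  have hA0 : 0 ≤ A := by rw [hA]; positivity
  rw [← hq, ← hA] at hone
  rw [← hA] at h1
  rw [← hq]
  have h2 : s / (1 - s) * A ≤ δ / c * A := by
    refine mul_le_mul_of_nonneg_right ?_ hA0
    rw [le_div_iff₀ hc, mul_comm]
    exact hδ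
  have h3 : q * ((1 - x) ^ (d - 1) - (max 0 (1 - x / (1 - s))) ^ (d - 1) - δ * om)
      ≤ q * (δ / c * A - δ * om) := mul_le_mul_of_nonneg_left (by linarith) hq0
  have h4 : q * (δ / c * A - δ * om) = δ / c * (q * (A - c * om)) := by
    field_simp
  have h5 : δ / c * (q * (A - c * om)) ≤ δ / c * (c * (ka + kb * x)) :=
    mul_le_mul_of_nonneg_left hone (div_nonneg hδ0 hc.le)
  have h6 : δ / c * (c * (ka + kb * x)) = δ * (ka + kb * x) := by
    field_simp
  linarith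

end

end Pool.Agent.T6A
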