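import Pool.Agent.T6A.Bern
import Pool.Agent.T6A.MuB
import Pool.Agent.T6A.MuG

/-!
# CERT v3, range (R2): the rows S1 and F2b (helper90)

`f = lf N` (linear profile), `om = 1 - mu`, `Al s - 1 ≥ c s / (1 - s)`, `c = 29/100`. The pointwise
inequalities are checked by the kernel with `Bern.chk`, for `x ∈ [0, r/m]`, `nuh = r/m`. `rowS` checks one
entry of the table; `rowS_sound` gives the fields `S1` and `F2b` of `MugOK`.
-/

set_option autoImplicit false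

namespace Pool.Agent.T6A.C3S1

open Pool.Agent.T6A.Bern

/-- The polynomial of S1: `c (ka + kb x)(1-x)^(e+1) - (1 - N x)(e x (1-x)^(e-1) - c (1 - mu))`, `d = e + 1`. -/
def eS1 (e : ℕ) (c N mu ka kb : Ex) : Ex :=
  c * (ka + kb * Ex.x 0) * (1 - Ex.x 0) ^ (e + 1) -
    (1 - N * Ex.x 0) * (Ex.nat e * (Ex.x 0 * (1 - Ex.x 0) ^ (e - 1)) - c * (1 - mu))

/-- The polynomial of F2b: `F2 (1-x)^2 - (1 - N x)`. -/
def eF2 (N F2 : Ex) : Ex := F2 * (1 - Ex.x 0) ^ 2 - (1 - N * Ex.x 0)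

/-- S1 in one variable, from the polynomial inequality -/
theorem s1_of {e : ℕ} {c N mu ka kb nuh : ℝ} (hc : 0 ≤ c) (hka : 0 ≤ ka) (hkb : 0 ≤ kb)
    (hnuh : nuh < 1)
    (h : ∀ x, 0 ≤ x → x ≤ nuh → 0 ≤ c * (ka + kb * x) * (1 - x) ^ (e + 1) -
      (1 - N * x) * ((e : ℝ) * (x * (1 - x) ^ (e - 1)) - c * (1 - mu))) :
    ∀ x, 0 ≤ x → x ≤ nuh →
      lf N x / (1 - x) ^ (e + 1) * (((e + 1 - 1 : ℕ) : ℝ) * (x * (1 - x) ^ (e + 1 - 1 - 1))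
        - c * (1 - mu)) ≤ c * (ka + kb * x) := by
  intro x h0 h1
  have hy : 0 < 1 - x := by linarith
  have hR : 0 ≤ c * (ka + kb * x) := by positivity
  have h3 := h x h0 h1
  rw [Nat.add_sub_cancel]
  rcases le_total (1 - N * x) 0 with h2 | h2
  · have e1 : lf N x = 0 := max_eq_left h2
    rw [e1, zero_div, zero_mul]
    exact hR
  · have e1 : lf N x = 1 - N * x := max_eq_right h2
    rw [e1, div_mul_eq_mul_div, div_le_iff₀ (pow_pos hy _)]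
    linarith

/-- F2b from the polynomial inequality -/
theorem f2_of {N F2 nuh : ℝ} (hF : 0 ≤ F2) (hnuh : nuh < 1)
    (h : ∀ x, 0 ≤ x → x ≤ nuh → 0 ≤ F2 * (1 - x) ^ 2 - (1 - N * x)) :
    ∀ x, 0 ≤ x → x ≤ nuh → lf N x / (1 - x) ^ 2 ≤ F2 := by
  intro x h0 h1
  have hy : 0 < 1 - x := by linarith
  have h3 := h x h0 h1
  rcases le_total (1 - N * x) 0 with h2 | h2
  · have e1 : lf N x = 0 := max_eq_left h2
    rw [e1, zero_div]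
    exact hF
  · have e1 : lf N x = 1 - N * x := max_eq_right h2
    rw [e1, div_le_iff₀ (pow_pos hy 2)]
    linarith

/-- The condition `S1` of `MugOK` from the condition in one variable. -/
theorem S1_full {f Al : ℝ → ℝ} {c om ka kb x1 nuh : ℝ} {d : ℕ} (hf : ∀ x, 0 ≤ f x) (hc : 0 < c)
    (hx1 : x1 < 1) (hnuh : nuh < 1) (hAl : ∀ s, 0 ≤ s → s ≤ x1 → c * (s / (1 - s)) ≤ Al s - 1)
    (h : ∀ x, 0 ≤ x → x ≤ nuh → f x / (1 - x) ^ d *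
      (((d - 1 : ℕ) : ℝ) * (x * (1 - x) ^ (d - 1 - 1)) - c * om) ≤ c * (ka + kb * x)) :
    ∀ s x, 0 ≤ s → s ≤ x1 → 0 ≤ x → x ≤ nuh →
      f x / (1 - x) ^ d * ((1 - x) ^ (d - 1) - (max 0 (1 - x / (1 - s))) ^ (d - 1)
        - (Al s - 1) * om) ≤ (Al s - 1) * (ka + kb * x) := by
  intro s x hs0 hs1 h0 h1
  exact S1_of (hf x) hc h0 (by linarith) hs0 (by linarith) (hAl s hs0 hs1) (h x h0 h1)

/-- `Al x = min (5/4) (1 + c x / (1 - x))`, `c = 29/100`, `x1 = 25/54` -/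
theorem hAl_min (s : ℝ) (h0 : 0 ≤ s) (h1 : s ≤ 25 / 54) :
    29 / 100 * (s / (1 - s)) ≤ min (5 / 4) (1 + 29 / 100 * (s / (1 - s))) - 1 := by
  have hs : 0 < 1 - s := by linarith
  have h2 : s / (1 - s) ≤ 25 / 29 := by
    rw [div_le_div_iff₀ hs (by norm_num)]
    linarith
  rw [min_eq_right (by linarith)]
  linarith

/-- The check for one entry: `N = N1/N2`, `mu = u1/u2`, `ka = a1/a2`, `kb = b1/b2`, `F2 = F1/F2`,
`nuh = r/m`, `d = e + 1`. -/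
def rowS (fuel e N1 N2 u1 u2 a1 a2 b1 b2 F1 F2 r m : ℕ) : Bool :=
  chk fuel (eS1 e (Ex.q 29 100) (Ex.q N1 N2) (Ex.q u1 u2) (Ex.q a1 a2) (Ex.q b1 b2)) [⟨0, r, m⟩] &&
  chk fuel (eF2 (Ex.q N1 N2) (Ex.q F1 F2)) [⟨0, r, m⟩]

theorem rowS_sound {fuel e N1 N2 u1 u2 a1 a2 b1 b2 F1 F2 r m : ℕ}
    (h : rowS fuel e N1 N2 u1 u2 a1 a2 b1 b2 F1 F2 r m = true) (hr : (r : ℝ) / m < 1) :
    (∀ x, 0 ≤ x → x ≤ (r : ℝ) / m →
      lf ((N1 : ℝ) / N2) x / (1 - x) ^ (e + 1) *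
        (((e + 1 - 1 : ℕ) : ℝ) * (x * (1 - x) ^ (e + 1 - 1 - 1)) - 29 / 100 * (1 - (u1 : ℝ) / u2))
        ≤ 29 / 100 * ((a1 : ℝ) / a2 + (b1 : ℝ) / b2 * x)) ∧
    (∀ x, 0 ≤ x → x ≤ (r : ℝ) / m → lf ((N1 : ℝ) / N2) x / (1 - x) ^ 2 ≤ (F1 : ℝ) / F2) := by
  rw [rowS, Bool.and_eq_true] at h
  constructor
  · refine s1_of (by norm_num) (by positivity) (by positivity) hr fun x h0 h1 => ?_
    have := sound1 h.1 (a := x) (by simpa using h0) (by simpa using h1)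
    simpa [eS1] using this
  · refine f2_of (by positivity) hr fun x h0 h1 => ?_
    have := sound1 h.2 (a := x) (by simpa using h0) (by simpa using h1)
    simpa [eF2] using this

/-- The fields `S1` (for every `Al` with `Al s - 1 ≥ 29/100 s/(1-s)` up to `x1`) and `F2b` of `MugOK`. -/
theorem rowS_MugOK {fuel e N1 N2 u1 u2 a1 a2 b1 b2 F1 F2 r m : ℕ} {Al : ℝ → ℝ} {x1 : ℝ}
    (h : rowS fuel e N1 N2 u1 u2 a1 a2 b1 b2 F1 F2 r m = true) (hr : (r : ℝ) / m < 1)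
    (hx1 : x1 < 1) (hAl : ∀ s, 0 ≤ s → s ≤ x1 → 29 / 100 * (s / (1 - s)) ≤ Al s - 1) :
    (∀ s x, 0 ≤ s → s ≤ x1 → 0 ≤ x → x ≤ (r : ℝ) / m →
      lf ((N1 : ℝ) / N2) x / (1 - x) ^ (e + 1) * ((1 - x) ^ (e + 1 - 1)
        - (max 0 (1 - x / (1 - s))) ^ (e + 1 - 1) - (Al s - 1) * (1 - (u1 : ℝ) / u2))
        ≤ (Al s - 1) * ((a1 : ℝ) / a2 + (b1 : ℝ) / b2 * x)) ∧
    (∀ x, 0 ≤ x → x ≤ (r : ℝ) / m → lf ((N1 : ℝ) / N2) x / (1 - x) ^ 2 ≤ (F1 : ℝ) / F2) :=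
  ⟨S1_full (fun _ => lf_nonneg _ _) (by norm_num) hx1 hr hAl (rowS_sound h hr).1,
    (rowS_sound h hr).2⟩

end Pool.Agent.T6A.C3S1
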