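import Pool.Agent.T6A.Cert5Tab
import Pool.Agent.T6A.Cert3Gen
import Pool.Agent.T6A.Cert3M1Q
import Pool.Agent.T6A.Cert3A0Q
import Pool.Agent.T6A.Cert3S1Q
import Pool.Agent.T6A.Cert3M3

/-!
# CERT v3, range (R1): all row conditions for the rows with `mu > 0` (MP_c6effb_co)

`rowOK_of` : the Boolean checks of one row give `RowOK` (`c = 29/100`, `am = 5/4`); `rowOK5` : the rows of
the table `C5T`.
-/

set_option autoImplicit false

namespace Pool.Agent.T6A.C5T

open Line3 Cert3

/-- All checks of one row. -/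
def chkRow (e : ℕ) (N : ℚ) (r : Row) : Bool :=
  decide (0 ≤ r.mu) && (decide (r.mu ≤ 1 / 5) && (decide (N * C3M1.nuq r ≤ 1) &&
  (C3M1.rowMQ 8 e N r && (C3M3.rowM3Q 8 (29 / 100) e N r &&
  (C3S1.rowSQ 8 (29 / 100) e N r && C3A0.rowAQ N r)))))

/-- **The checks give all conditions of the row.** -/
theorem rowOK_of {g : Glob} (hx : (g.x1 : ℝ) * (1 + 4 * (29 / 100)) = 1) {p : Par} {e : ℕ}
    (hd : p.d = e + 1) {r : Row} (h : chkRow e p.N r = true) : RowOK g (5 / 4) (29 / 100) p r := by
  simp only [chkRow, Bool.and_eq_true, decide_eq_true_eq] at h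
  obtain ⟨h0, h1, hn, hM, hK, hS, hA⟩ := h
  have hc : ((29 / 100 : ℚ) : ℝ) = 29 / 100 := by norm_num
  have RM := C3M1.rowMQ_sound hM
  have RS := C3S1.rowSQ_sound hS
  have RK := C3M3.rowM3Q_sound hK (Al := AlC (5 / 4) (29 / 100)) (by
    rw [hc]; exact AlC_ge' le_rfl (by norm_num))
  have RA := C3A0.rowAQ_sound hA (AlC_nonneg (5 / 4) (29 / 100))
    (AlC_le (am := 5 / 4) (c := 29 / 100) (by norm_num)) (e + 1)
  have hx1 : (g.x1 : ℝ) < 1 := by linarith
  have RS1 := RS.S1 (AlC (5 / 4) (29 / 100)) g.x1 hx1 (by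
    rw [hc]; exact AlC_ge le_rfl (by norm_num) hx)
  have e1 : (1 - (1 - (r.mu : ℝ))) = (r.mu : ℝ) := by ring
  have hN : (p.N : ℝ) * ((1 - (r.mu : ℝ)) / r.B) ≤ 1 := by
    rw [← C3M1.nuq_cast]
    exact_mod_cast hn
  have M1 := RM.M1
  have M1' := RM.M1'
  rw [e1] at M1 M1' RK
  refine ⟨le_rfl, by exact_mod_cast h0, ?_, RM.hB, RA.hth0, RA.hg0, RS.hka, RS.hkb, RS.hF0,
    RM.hnuh1, hN, ?_, ?_, ?_, ?_, ?_, ?_, ?_, ?_⟩
  · have : ((r.mu : ℚ) : ℝ) ≤ ((1 / 5 : ℚ) : ℝ) := by exact_mod_cast h1
    simpa using this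
  · rw [hd]; exact M1
  · rw [hd]; exact M1'
  · rw [hd]; exact RK
  · rw [hd]; exact RA.A0
  · exact RA.A0'
  · exact RA.A2
  · rw [hd]; exact RS1
  · exact RS.F2b

/-- The check of the rows of the degree `e + 1`. -/
def degR (e : ℕ) : Bool := (rows (e + 1)).all (chkRow e (par (e + 1)).N)

theorem degR7 : degR 7 = true := by decide +kernel
theorem degR8 : degR 8 = true := by decide +kernel
theorem degR9 : degR 9 = true := by decide +kernel
theorem degR10 : degR 10 = true := by decide +kernel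
theorem degR11 : degR 11 = true := by decide +kernel
theorem degR12 : degR 12 = true := by decide +kernel
theorem degR13 : degR 13 = true := by decide +kernel
theorem degR14 : degR 14 = true := by decide +kernel
theorem degR15 : degR 15 = true := by decide +kernel
theorem degR16 : degR 16 = true := by decide +kernel
theorem degR17 : degR 17 = true := by decide +kernel
theorem degR18 : degR 18 = true := by decide +kernel
theorem degR19 : degR 19 = true := by decide +kernel
theorem degR20 : degR 20 = true := by decide +kernel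
theorem degR21 : degR 21 = true := by decide +kernel
theorem degR22 : degR 22 = true := by decide +kernel
theorem degR23 : degR 23 = true := by decide +kernel
theorem degR24 : degR 24 = true := by decide +kernel
theorem degR25 : degR 25 = true := by decide +kernel
theorem degR26 : degR 26 = true := by decide +kernel
theorem degR27 : degR 27 = true := by decide +kernel

theorem degR_all : ∀ e, degR e = true
  | 0 | 1 | 2 | 3 | 4 | 5 | 6 => rfl
  | 7 => degR7
  | 8 => degR8
  | 9 => degR9
  | 10 => degR10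
  | 11 => degR11
  | 12 => degR12
  | 13 => degR13
  | 14 => degR14
  | 15 => degR15
  | 16 => degR16
  | 17 => degR17
  | 18 => degR18
  | 19 => degR19
  | 20 => degR20
  | 21 => degR21
  | 22 => degR22
  | 23 => degR23
  | 24 => degR24
  | 25 => degR25
  | 26 => degR26
  | 27 => degR27
  | _ + 28 => rfl

/-- **All rows of the table.** -/
theorem rowOK5 {g : Glob} (hx : (g.x1 : ℝ) * (1 + 4 * (29 / 100)) = 1) {d : ℕ} (h1 : 1 ≤ d)
    {r : Row} (h : r ∈ rows d) : RowOK g (5 / 4) (29 / 100) (par d) r := by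
  obtain ⟨e, rfl⟩ : ∃ e, d = e + 1 := ⟨d - 1, by omega⟩
  exact rowOK_of hx rfl (List.all_eq_true.1 (degR_all e) r h)

end Pool.Agent.T6A.C5T
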