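import Pool.Agent.T6A.Line3
import Pool.Agent.T6A.Cert5Tab

/-!
# LINE for CERT v3, range (R1): the certificates (MP_c6effb_co)

`4.999 ≤ q ≤ 10.001`, `1/2 ≤ s ≤ 1.01`; found by computer (generator of helper15), checked by the kernel.
-/

set_option autoImplicit false

namespace Pool.Agent.T6A.C5T

open Bern Line3

/-- The parameters of (R1). -/
def g5 : Glob := { xi := 21 / 25, s0 := 9 / 25, eta := 1 / 1000, X := 21 / 50, x1 := 25 / 54 }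

/-- The box of (R1). -/
def box5 : List Iv := mkBox 4999 10001 500 1010 1000

/-- Certificate, degree 0, type 0. -/
def c0_0 : Cert :=
  Cert.void (Tr.dead 1)

/-- Certificate, degree 0, type 1. -/
def c0_1 : Cert :=
  Cert.void (Tr.dead 1)

/-- Certificate, degree 0, type 2. -/
def c0_2 : Cert :=
  Cert.ch
    []
    (Tr.lf [],
      Tr.lf [])

/-- Degree 0. -/
def en0 : Entry := ⟨⟨0, 1486 / 1000, 1⟩, [], c0_0, c0_1, c0_2⟩

theorem en0_ok : en0.chk g5 0 box5 = true := by decide +kernel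

/-- Certificate, degree 1, type 0. -/
def c1_0 : Cert :=
  Cert.void (Tr.dead 1)

/-- Certificate, degree 1, type 1. -/
def c1_1 : Cert :=
  Cert.void (Tr.dead 1)

/-- Certificate, degree 1, type 2. -/
def c1_2 : Cert :=
  Cert.ch
    []
    (Tr.lf [],
      Tr.lf [])

/-- Degree 1. -/
def en1 : Entry := ⟨par 1, rows 1, c1_0, c1_1, c1_2⟩

theorem en1_ok : en1.chk g5 0 box5 = true := by decide +kernel

/-- Certificate, degree 2, type 0. -/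
def c2_0 : Cert :=
  Cert.void (Tr.dead 1)

/-- Certificate, degree 2, type 1. -/
def c2_1 : Cert :=
  Cert.void (Tr.dead 1)

/-- Certificate, degree 2, type 2. -/
def c2_2 : Cert :=
  Cert.ch
    []
    (Tr.lf [],
      Tr.lf [])

/-- Degree 2. -/
def en2 : Entry := ⟨par 2, rows 2, c2_0, c2_1, c2_2⟩

theorem en2_ok : en2.chk g5 0 box5 = true := by decide +kernel

/-- Certificate, degree 3, type 0. -/
def c3_0 : Cert :=
  Cert.void (Tr.dead 1)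

/-- Certificate, degree 3, type 1. -/
def c3_1 : Cert :=
  Cert.void (Tr.dead 1)

/-- Certificate, degree 3, type 2. -/
def c3_2 : Cert :=
  Cert.ch
    []
    (Tr.lf [],
      Tr.lf [])

/-- Degree 3. -/
def en3 : Entry := ⟨par 3, rows 3, c3_0, c3_1, c3_2⟩

theorem en3_ok : en3.chk g5 0 box5 = true := by decide +kernel

/-- Certificate, degree 4, type 0. -/
def c4_0 : Cert :=
  Cert.void (Tr.dead 1)

/-- Certificate, degree 4, type 1. -/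
def c4_1 : Cert :=
  Cert.ch
    []
    (Tr.lf [],
      Tr.lf [])

/-- Certificate, degree 4, type 2. -/
def c4_2 : Cert :=
  Cert.ch
    []
    (Tr.lf [],
      Tr.lf [])

/-- Degree 4. -/
def en4 : Entry := ⟨par 4, rows 4, c4_0, c4_1, c4_2⟩

theorem en4_ok : en4.chk g5 0 box5 = true := by decide +kernel

/-- Certificate, degree 5, type 0. -/
def c5_0 : Cert :=
  Cert.ch
    []
    (Tr.lf [(0, 1), (25, 1)],
      Tr.lf [])

/-- Certificate, degree 5, type 1. -/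
def c5_1 : Cert :=
  Cert.ch
    []
    (Tr.lf [],
      Tr.lf [])

/-- Certificate, degree 5, type 2. -/
def c5_2 : Cert :=
  Cert.ch
    []
    (Tr.lf [],
      Tr.lf [])

/-- Degree 5. -/
def en5 : Entry := ⟨par 5, rows 5, c5_0, c5_1, c5_2⟩

theorem en5_ok : en5.chk g5 0 box5 = true := by decide +kernel

/-- Certificate, degree 6, type 0. -/
def c6_0 : Cert :=
  Cert.ch
    []
    (Tr.lf [(0, 1), (22, 1)],
      Tr.lf [])

/-- Certificate, degree 6, type 1. -/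
def c6_1 : Cert :=
  Cert.ch
    []
    (Tr.lf [(0, 1), (8, 1)],
      Tr.lf [])

/-- Certificate, degree 6, type 2. -/
def c6_2 : Cert :=
  Cert.ch
    []
    (Tr.lf [],
      Tr.lf [])

/-- Degree 6. -/
def en6 : Entry := ⟨par 6, rows 6, c6_0, c6_1, c6_2⟩

theorem en6_ok : en6.chk g5 0 box5 = true := by decide +kernel

/-- Certificate, degree 7, type 0. -/
def c7_0 : Cert :=
  Cert.ch
    []
    (Tr.lf [(0, 1), (21, 1)],
      Tr.lf [])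

/-- Certificate, degree 7, type 1. -/
def c7_1 : Cert :=
  Cert.ch
    []
    (Tr.lf [(0, 1), (8, 1)],
      Tr.lf [])

/-- Certificate, degree 7, type 2. -/
def c7_2 : Cert :=
  Cert.ch
    []
    (Tr.sp 0 (Tr.lf [(0, 1), (15, 1)]) (Tr.lf [(0, 1), (18, 1)]),
      Tr.lf [])

/-- Degree 7. -/
def en7 : Entry := ⟨par 7, rows 7, c7_0, c7_1, c7_2⟩

theorem en7_ok : en7.chk g5 0 box5 = true := by decide +kernel

/-- Certificate, degree 8, type 0. -/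
def c8_0 : Cert :=
  Cert.ch
    [⟨rw' 125 3407 960 157 883 4 7880 1000,
      Tr.lf [(0, 1), (13, 1)],
      Tr.lf [],
      Tr.lf [],
      Tr.lf [],
      Tr.lf [],
      Tr.lf [(0, 1), (0, 1), (1, 2)]⟩]
    (Tr.lf [(0, 1), (0, 1), (7, 1)],
      Tr.lf [])

/-- Certificate, degree 8, type 1. -/
def c8_1 : Cert :=
  Cert.ch
    [⟨rw' 155 3629 986 306 708 4 8360 1000,
      Tr.lf [],
      Tr.lf [],
      Tr.lf [],
      Tr.lf [],
      Tr.lf [],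
      Tr.sp 0 (Tr.lf []) (Tr.sp 0 (Tr.lf []) (Tr.lf [(0, 1), (7550, 1), (14427, 1)]))⟩]
    (Tr.lf [(0, 1), (0, 1), (3, 2)],
      Tr.lf [])

/-- Certificate, degree 8, type 2. -/
def c8_2 : Cert :=
  Cert.ch
    [⟨rw' 140 3527 975 233 792 4 8120 1000,
      Tr.lf [(0, 1), (17, 1)],
      Tr.lf [],
      Tr.lf [],
      Tr.lf [(0, 1), (5, 1)],
      Tr.lf [],
      Tr.lf []⟩]
    (Tr.lf [(0, 1), (34, 1), (10, 1)],
      Tr.lf [])

/-- Degree 8. -/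
def en8 : Entry := ⟨par 8, rows 8, c8_0, c8_1, c8_2⟩

theorem en8_ok : en8.chk g5 0 box5 = true := by decide +kernel

/-- Certificate, degree 9, type 0. -/
def c9_0 : Cert :=
  Cert.ch
    [⟨rw' 140 3966 980 274 746 3 9060 1000,
      Tr.sp 0 (Tr.sp 0 (Tr.lf [(0, 1), (63, 5)]) (Tr.lf [])) (Tr.lf []),
      Tr.lf [],
      Tr.lf [],
      Tr.lf [],
      Tr.lf [],
      Tr.lf [(0, 1), (0, 1), (7, 10)]⟩]
    (Tr.sp 0 (Tr.sp 0 (Tr.dead 2) (Tr.sp 0 (Tr.lf [(0, 1), (0, 1), (243, 50)]) (Tr.lf []))) (Tr.lf []),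
      Tr.lf [])

/-- Certificate, degree 9, type 1. -/
def c9_1 : Cert :=
  Cert.ch
    [⟨rw' 125 3840 967 196 837 3 8780 1000,
      Tr.lf [],
      Tr.lf [],
      Tr.lf [],
      Tr.lf [],
      Tr.lf [],
      Tr.sp 0 (Tr.lf []) (Tr.sp 1 (Tr.lf [(0, 1), (0, 1), (41, 10)]) (Tr.lf []))⟩]
    (Tr.lf [(0, 1), (0, 1), (3, 2)],
      Tr.lf [])

/-- Certificate, degree 9, type 2. -/
def c9_2 : Cert :=
  Cert.ch
    [⟨rw' 140 3966 980 274 746 3 9060 1000,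
      Tr.sp 1 (Tr.lf [(0, 1), (23, 1)]) (Tr.lf []),
      Tr.lf [],
      Tr.lf [],
      Tr.lf [(0, 1), (7, 1)],
      Tr.lf [],
      Tr.lf []⟩]
    (Tr.lf [(0, 1), (66, 1), (26, 1)],
      Tr.lf [])

/-- Degree 9. -/
def en9 : Entry := ⟨par 9, rows 9, c9_0, c9_1, c9_2⟩

theorem en9_ok : en9.chk g5 0 box5 = true := by decide +kernel

/-- Certificate, degree 10, type 0. -/
def c10_0 : Cert :=
  Cert.ch
    [⟨rw' 185 4797 998 561 441 4 10920 1000,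
      Tr.lf [(0, 1), (4, 1)],
      Tr.lf [],
      Tr.lf [],
      Tr.lf [(0, 1), (0, 1), (7, 10)],
      Tr.lf [],
      Tr.sp 0 (Tr.lf []) (Tr.lf [(0, 1), (0, 1), (4, 1)])⟩,
    ⟨rw' 170 4665 997 475 528 2 10620 1000,
      Tr.lf [(0, 1), (0, 1), (2, 1)],
      Tr.lf [],
      Tr.lf [],
      Tr.lf [],
      Tr.lf [],
      Tr.sp 0 (Tr.lf []) (Tr.lf [(0, 1), (0, 1), (0, 1), (3, 1)])⟩,
    ⟨rw' 140 4390 984 305 711 4 9980 1000,
      Tr.lf [(0, 1), (0, 1), (2, 1)],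
      Tr.lf [],
      Tr.lf [],
      Tr.lf [],
      Tr.lf [],
      Tr.sp 0 (Tr.lf []) (Tr.lf [(0, 1), (0, 1), (0, 1), (8, 5)])⟩,
    ⟨rw' 95 3937 932 68 1000 4 9040 1000,
      Tr.lf [(0, 1), (0, 1), (2, 1)],
      Tr.lf [],
      Tr.lf [],
      Tr.lf [],
      Tr.lf [],
      Tr.sp 0 (Tr.lf []) (Tr.sp 1 (Tr.lf [(0, 1), (0, 1), (0, 1), (17, 10)]) (Tr.lf []))⟩]
    (Tr.lf [(0, 1), (0, 1), (48, 5)],
      Tr.lf [])

/-- Certificate, degree 10, type 1. -/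
def c10_1 : Cert :=
  Cert.ch
    [⟨rw' 125 4250 972 224 804 3 9680 1000,
      Tr.lf [],
      Tr.lf [],
      Tr.lf [],
      Tr.lf [],
      Tr.lf [],
      Tr.sp 0 (Tr.lf []) (Tr.sp 0 (Tr.lf [(0, 1), (0, 1), (1, 1)]) (Tr.sp 0 (Tr.lf [(0, 1), (0, 1), (6, 1)]) (Tr.dead 2)))⟩]
    (Tr.lf [(0, 1), (0, 1), (17, 10)],
      Tr.lf [])

/-- Certificate, degree 10, type 2. -/
def c10_2 : Cert :=
  Cert.ch
    [⟨rw' 155 4521 992 386 622 3 10300 1000,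
      Tr.sp 1 (Tr.lf [(0, 1), (23, 1)]) (Tr.lf []),
      Tr.lf [],
      Tr.lf [(0, 1), (5, 1)],
      Tr.lf [(0, 1), (7, 1)],
      Tr.lf [],
      Tr.lf []⟩]
    (Tr.sp 0 (Tr.lf [(0, 1), (66, 1), (27, 1)]) (Tr.lf [(0, 1), (39, 1)]),
      Tr.lf [])

/-- Degree 10. -/
def en10 : Entry := ⟨par 10, rows 10, c10_0, c10_1, c10_2⟩

theorem en10_ok : en10.chk g5 0 box5 = true := by decide +kernel

/-- Certificate, degree 11, type 0. -/
def c11_0 : Cert :=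
  Cert.ch
    [⟨rw' 185 5261 999 597 404 4 11960 1000,
      Tr.lf [(0, 1), (5, 1)],
      Tr.lf [],
      Tr.lf [],
      Tr.lf [(0, 1), (0, 1), (3, 2)],
      Tr.lf [],
      Tr.sp 0 (Tr.lf []) (Tr.lf [(0, 1), (7644, 1), (16042, 1)])⟩,
    ⟨rw' 170 5126 997 510 493 3 11620 1000,
      Tr.lf [(0, 1), (0, 1), (2, 1)],
      Tr.lf [],
      Tr.lf [],
      Tr.lf [(0, 1), (0, 1), (0, 1), (7, 10)],
      Tr.lf [],
      Tr.sp 0 (Tr.lf []) (Tr.lf [(0, 1), (0, 1), (0, 1), (5, 1)])⟩,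
    ⟨rw' 155 4973 994 421 585 4 11260 1000,
      Tr.lf [(0, 1), (0, 1), (2, 1)],
      Tr.lf [],
      Tr.lf [],
      Tr.lf [],
      Tr.lf [],
      Tr.sp 0 (Tr.lf []) (Tr.lf [(0, 1), (0, 1), (0, 1), (3, 1)])⟩,
    ⟨rw' 140 4834 987 339 674 3 10920 1000,
      Tr.lf [(0, 1), (0, 1), (2, 1)],
      Tr.lf [],
      Tr.lf [],
      Tr.lf [],
      Tr.lf [],
      Tr.sp 0 (Tr.lf []) (Tr.sp 0 (Tr.lf []) (Tr.dead 3))⟩,
    ⟨rw' 110 4497 961 168 871 4 10220 1000,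
      Tr.lf [(0, 1), (0, 1), (2, 1)],
      Tr.lf [],
      Tr.lf [],
      Tr.lf [],
      Tr.lf [],
      Tr.sp 0 (Tr.lf []) (Tr.sp 1 (Tr.lf [(0, 1), (0, 1), (0, 1), (3, 1)]) (Tr.lf []))⟩]
    (Tr.sp 0 (Tr.lf [(0, 1), (0, 1), (5, 1)]) (Tr.lf []),
      Tr.lf [])

/-- Certificate, degree 11, type 1. -/
def c11_1 : Cert :=
  Cert.ch
    [⟨rw' 110 4497 961 168 871 4 10220 1000,
      Tr.lf [(0, 1), (3, 1)],
      Tr.lf [],
      Tr.lf [],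
      Tr.lf [],
      Tr.lf [],
      Tr.sp 0 (Tr.lf []) (Tr.sp 0 (Tr.lf [(0, 1), (0, 1), (8, 5)]) (Tr.sp 0 (Tr.lf [(0, 1), (0, 1), (7, 1)]) (Tr.lf [(10311, 1), (0, 1), (11614, 1)])))⟩]
    (Tr.lf [(0, 1), (0, 1), (2, 1)],
      Tr.lf [])

/-- Certificate, degree 11, type 2. -/
def c11_2 : Cert :=
  Cert.ch
    [⟨rw' 155 4973 994 421 585 4 11260 1000,
      Tr.sp 1 (Tr.lf [(0, 1), (32, 1)]) (Tr.lf [(0, 1), (36, 1)]),
      Tr.lf [],
      Tr.lf [(0, 1), (5, 1)],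
      Tr.lf [(0, 1), (7, 1)],
      Tr.lf [(0, 1), (4, 1)],
      Tr.lf []⟩]
    (Tr.sp 0 (Tr.lf [(0, 1), (322, 1), (190, 1)]) (Tr.lf [(0, 1), (166, 1)]),
      Tr.lf [])

/-- Degree 11. -/
def en11 : Entry := ⟨par 11, rows 11, c11_0, c11_1, c11_2⟩

theorem en11_ok : en11.chk g5 0 box5 = true := by decide +kernel

/-- Certificate, degree 12, type 0. -/
def c12_0 : Cert :=
  Cert.ch
    [⟨rw' 185 5742 999 635 366 3 13020 1000,
      Tr.lf [(0, 1), (6, 1)],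
      Tr.lf [],
      Tr.lf [],
      Tr.lf [(0, 1), (0, 1), (3, 2)],
      Tr.lf [],
      Tr.sp 0 (Tr.lf []) (Tr.dead 2)⟩,
    ⟨rw' 170 5611 998 553 449 4 12620 1000,
      Tr.sp 1 (Tr.sp 1 (Tr.lf [(0, 1), (0, 1), (2, 1)]) (Tr.lf [(0, 1), (0, 1), (3, 1)])) (Tr.lf [(0, 1), (46, 1), (0, 1), (2, 1)]),
      Tr.lf [],
      Tr.lf [],
      Tr.lf [(0, 1), (0, 1), (0, 1), (1, 1)],
      Tr.lf [],
      Tr.sp 0 (Tr.lf []) (Tr.lf [(0, 1), (0, 1), (0, 1), (16, 1)])⟩,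
    ⟨rw' 155 5454 995 464 541 4 12240 1000,
      Tr.lf [(0, 1), (0, 1), (12, 5)],
      Tr.lf [],
      Tr.lf [],
      Tr.lf [],
      Tr.lf [],
      Tr.sp 0 (Tr.lf []) (Tr.sp 0 (Tr.lf [(0, 1), (0, 1), (0, 1), (4, 1)]) (Tr.dead 3))⟩,
    ⟨rw' 125 5090 979 279 742 3 11480 1000,
      Tr.lf [(0, 1), (0, 1), (5, 2)],
      Tr.lf [],
      Tr.lf [],
      Tr.lf [],
      Tr.lf [],
      Tr.sp 0 (Tr.lf []) (Tr.sp 0 (Tr.lf [(0, 1), (0, 1), (0, 1), (2, 1)]) (Tr.lf [(0, 1), (0, 1), (0, 1), (21, 1)]))⟩,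
    ⟨rw' 80 4490 917 25 1058 3 10340 1000,
      Tr.lf [(0, 1), (0, 1), (5, 2)],
      Tr.lf [],
      Tr.lf [],
      Tr.lf [],
      Tr.lf [],
      Tr.sp 0 (Tr.lf []) (Tr.sp 0 (Tr.lf [(0, 1), (0, 1), (0, 1), (1, 1)]) (Tr.sp 1 (Tr.lf [(0, 1), (0, 1), (0, 1), (12, 1)]) (Tr.lf [])))⟩]
    (Tr.lf [(0, 1), (0, 1), (3, 1)],
      Tr.lf [])

/-- Certificate, degree 12, type 1. -/
def c12_1 : Cert :=
  Cert.ch
    [⟨rw' 110 4920 965 196 839 3 11100 1000,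
      Tr.sp 0 (Tr.lf [(0, 1), (5, 1)]) (Tr.lf []),
      Tr.lf [],
      Tr.lf [],
      Tr.lf [],
      Tr.lf [],
      Tr.sp 0 (Tr.lf []) (Tr.sp 1 (Tr.sp 0 (Tr.dead 2) (Tr.lf [(35105, 1), (0, 1), (17375, 1)])) (Tr.lf [(0, 1), (0, 1), (2, 1)]))⟩]
    (Tr.lf [(0, 1), (0, 1), (2, 1)],
      Tr.lf [])

/-- Certificate, degree 12, type 2. -/
def c12_2 : Cert :=
  Cert.ch
    [⟨rw' 170 5611 998 553 449 4 12620 1000,
      Tr.sp 1 (Tr.lf [(0, 1), (31, 1)]) (Tr.lf [(0, 1), (36, 1)]),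
      Tr.lf [(0, 1), (8, 1)],
      Tr.lf [(0, 1), (5, 1)],
      Tr.lf [(0, 1), (7, 1), (9, 100)],
      Tr.lf [(0, 1), (4, 1)],
      Tr.lf []⟩]
    (Tr.sp 1 (Tr.lf [(0, 1), (366, 5), (98, 5)]) (Tr.lf [(0, 1), (46, 1), (51, 10)]),
      Tr.lf [(0, 1), (22, 1), (9, 1)])

/-- Degree 12. -/
def en12 : Entry := ⟨par 12, rows 12, c12_0, c12_1, c12_2⟩

theorem en12_ok : en12.chk g5 0 box5 = true := by decide +kernel

/-- Certificate, degree 13, type 0. -/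
def c13_0 : Cert :=
  Cert.ch
    [⟨rw' 185 6224 999 671 330 3 14060 1000,
      Tr.sp 0 (Tr.lf [(0, 1), (141, 20)]) (Tr.lf []),
      Tr.lf [],
      Tr.lf [],
      Tr.lf [(0, 1), (53, 1000), (8, 5)],
      Tr.lf [],
      Tr.sp 0 (Tr.lf []) (Tr.lf [(11913, 1), (0, 1), (15217, 1)])⟩,
    ⟨rw' 170 6061 998 579 423 3 13640 1000,
      Tr.sp 1 (Tr.lf [(0, 1), (0, 1), (52, 25)]) (Tr.lf [(0, 1), (30, 1)]),
      Tr.lf [],
      Tr.lf [],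
      Tr.lf [(0, 1), (0, 1), (0, 1), (1, 1)],
      Tr.lf [],
      Tr.sp 0 (Tr.lf []) (Tr.lf [(4813, 1), (0, 1), (0, 1), (17168, 1)])⟩,
    ⟨rw' 155 5912 996 495 509 3 13220 1000,
      Tr.lf [(0, 1), (0, 1), (143, 50)],
      Tr.lf [],
      Tr.lf [],
      Tr.lf [],
      Tr.lf [],
      Tr.sp 0 (Tr.lf []) (Tr.sp 0 (Tr.lf [(0, 1), (0, 1), (0, 1), (7, 1)]) (Tr.lf [(18876, 1), (0, 1), (0, 1), (11054, 1)]))⟩,
    ⟨rw' 125 5506 982 302 716 4 12380 1000,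
      Tr.sp 1 (Tr.lf [(0, 1), (0, 1), (14, 5)]) (Tr.lf [(0, 1), (0, 1), (4, 1)]),
      Tr.lf [],
      Tr.lf [],
      Tr.lf [],
      Tr.lf [],
      Tr.sp 0 (Tr.lf []) (Tr.sp 0 (Tr.lf [(0, 1), (0, 1), (0, 1), (13, 5)]) (Tr.lf [(7455, 1), (0, 1), (0, 1), (16362, 1)]))⟩,
    ⟨rw' 80 4870 923 42 1035 3 11140 1000,
      Tr.lf [(0, 1), (0, 1), (3, 1)],
      Tr.lf [],
      Tr.lf [],
      Tr.lf [],
      Tr.lf [],
      Tr.sp 0 (Tr.lf []) (Tr.sp 0 (Tr.lf [(0, 1), (0, 1), (0, 1), (6, 5)]) (Tr.sp 1 (Tr.lf [(5470, 1), (0, 1), (0, 1), (18390, 1)]) (Tr.lf [(0, 1), (0, 1), (0, 1), (1, 1)])))⟩]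
    (Tr.lf [(0, 1), (0, 1), (4, 1)],
      Tr.lf [])

/-- Certificate, degree 13, type 1. -/
def c13_1 : Cert :=
  Cert.ch
    [⟨rw' 110 5300 969 211 820 4 11960 1000,
      Tr.sp 0 (Tr.lf [(0, 1), (5, 1)]) (Tr.lf []),
      Tr.lf [],
      Tr.lf [],
      Tr.lf [],
      Tr.lf [],
      Tr.sp 0 (Tr.lf []) (Tr.sp 1 (Tr.sp 0 (Tr.dead 2) (Tr.lf [(56067, 1), (0, 1), (20924, 1)])) (Tr.lf [(0, 1), (0, 1), (2, 1)]))⟩]
    (Tr.lf [(0, 1), (0, 1), (12, 5)],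
      Tr.lf [])

/-- Certificate, degree 13, type 2. -/
def c13_2 : Cert :=
  Cert.ch
    [⟨rw' 155 5912 996 495 509 3 13220 1000,
      Tr.sp 1 (Tr.lf [(0, 1), (55, 1)]) (Tr.lf [(0, 1), (38, 1)]),
      Tr.lf [(0, 1), (8, 1)],
      Tr.lf [(0, 1), (5, 1)],
      Tr.lf [(0, 1), (8, 1)],
      Tr.lf [(0, 1), (4, 1)],
      Tr.lf []⟩]
    (Tr.lf [(0, 1), (169, 1), (54, 1)],
      Tr.lf [(0, 1), (31, 1), (12, 1)])

/-- Degree 13. -/
def en13 : Entry := ⟨par 13, rows 13, c13_0, c13_1, c13_2⟩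

theorem en13_ok : en13.chk g5 0 box5 = true := by decide +kernel

/-- Certificate, degree 14, type 0. -/
def c14_0 : Cert :=
  Cert.ch
    [⟨rw' 185 6738 999 715 286 2 15120 1000,
      Tr.sp 1 (Tr.lf []) (Tr.lf [(0, 1), (27, 1)]),
      Tr.lf [],
      Tr.lf [],
      Tr.lf [(0, 1), (0, 1), (2, 1)],
      Tr.lf [],
      Tr.sp 0 (Tr.lf []) (Tr.sp 0 (Tr.dead 2) (Tr.lf [(27999, 1), (0, 1), (7754, 1)]))⟩,
    ⟨rw' 170 6538 998 612 390 3 14660 1000,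
      Tr.sp 1 (Tr.lf [(0, 1), (0, 1), (13, 10)]) (Tr.lf [(0, 1), (0, 1), (4, 1)]),
      Tr.lf [],
      Tr.lf [],
      Tr.lf [(0, 1), (21, 100), (0, 1), (3, 2)],
      Tr.lf [],
      Tr.sp 0 (Tr.lf []) (Tr.sp 0 (Tr.dead 3) (Tr.lf [(26288, 1), (0, 1), (0, 1), (8781, 1)]))⟩,
    ⟨rw' 155 6356 997 521 482 3 14200 1000,
      Tr.sp 1 (Tr.lf [(0, 1), (0, 1), (3, 1)]) (Tr.lf [(0, 1), (0, 1), (4, 1)]),
      Tr.lf [],
      Tr.lf [],
      Tr.lf [(0, 1), (0, 1), (0, 1), (1, 1)],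
      Tr.lf [],
      Tr.sp 0 (Tr.lf []) (Tr.sp 0 (Tr.dead 3) (Tr.lf [(24245, 1), (0, 1), (0, 1), (10132, 1)]))⟩,
    ⟨rw' 140 6145 992 422 586 4 13740 1000,
      Tr.lf [(0, 1), (0, 1), (3, 1)],
      Tr.lf [],
      Tr.lf [],
      Tr.lf [],
      Tr.lf [],
      Tr.sp 0 (Tr.lf []) (Tr.sp 0 (Tr.lf [(0, 1), (0, 1), (0, 1), (7, 1)]) (Tr.lf [(21004, 1), (0, 1), (0, 1), (11897, 1)]))⟩,
    ⟨rw' 110 5708 971 232 797 3 12840 1000,
      Tr.lf [(0, 1), (0, 1), (3, 1)],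
      Tr.lf [],
      Tr.lf [],
      Tr.lf [],
      Tr.lf [],
      Tr.sp 0 (Tr.lf []) (Tr.sp 0 (Tr.lf [(0, 1), (0, 1), (0, 1), (27, 10)]) (Tr.sp 0 (Tr.dead 3) (Tr.lf [(20287, 1), (0, 1), (0, 1), (12104, 1)])))⟩]
    (Tr.sp 0 (Tr.sp 0 (Tr.lf [(0, 1), (0, 1), (61, 10)]) (Tr.lf [(0, 1), (0, 1), (3, 1)])) (Tr.lf []),
      Tr.lf [])

/-- Certificate, degree 14, type 1. -/
def c14_1 : Cert :=
  Cert.ch
    [⟨rw' 110 5708 971 232 797 3 12840 1000,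
      Tr.sp 1 (Tr.lf []) (Tr.lf [(0, 1), (19, 1)]),
      Tr.lf [],
      Tr.lf [],
      Tr.lf [],
      Tr.lf [],
      Tr.sp 0 (Tr.lf [(0, 1), (0, 1), (1, 1)]) (Tr.sp 1 (Tr.sp 0 (Tr.lf [(19986, 1), (0, 1), (22380, 1)]) (Tr.lf [(73234, 1), (0, 1), (21697, 1)])) (Tr.lf [(0, 1), (0, 1), (3, 1)]))⟩]
    (Tr.lf [(0, 1), (0, 1), (27, 10)],
      Tr.lf [])

/-- Certificate, degree 14, type 2. -/
def c14_2 : Cert :=
  Cert.ch
    [⟨rw' 155 6356 997 521 482 3 14200 1000,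
      Tr.sp 1 (Tr.lf [(0, 1), (128126, 1)]) (Tr.lf [(0, 1), (45, 1)]),
      Tr.lf [(0, 1), (18, 1)],
      Tr.lf [(0, 1), (4, 1)],
      Tr.lf [(0, 1), (8, 1)],
      Tr.lf [(0, 1), (10, 1)],
      Tr.lf []⟩]
    (Tr.lf [(0, 1), (189, 1), (55, 1)],
      Tr.lf [(0, 1), (37, 1), (14, 1)])

/-- Degree 14. -/
def en14 : Entry := ⟨par 14, rows 14, c14_0, c14_1, c14_2⟩

theorem en14_ok : en14.chk g5 0 box5 = true := by decide +kernel

/-- Certificate, degree 15, type 0. -/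
def c15_0 : Cert :=
  Cert.ch
    [⟨rw' 185 7215 999 744 257 3 16160 1000,
      Tr.sp 1 (Tr.lf []) (Tr.lf [(0, 1), (25, 1)]),
      Tr.lf [],
      Tr.lf [],
      Tr.lf [(0, 1), (0, 1), (2, 1)],
      Tr.lf [],
      Tr.sp 0 (Tr.lf [(0, 1), (0, 1), (3, 1)]) (Tr.sp 0 (Tr.dead 2) (Tr.lf [(35949, 1), (0, 1), (8320, 1)]))⟩,
    ⟨rw' 170 7036 998 649 353 3 15680 1000,
      Tr.sp 1 (Tr.lf [(0, 1), (0, 1), (2, 1)]) (Tr.lf [(0, 1), (0, 1), (4, 1)]),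
      Tr.lf [],
      Tr.lf [],
      Tr.lf [(0, 1), (3, 20), (0, 1), (3, 2)],
      Tr.lf [],
      Tr.sp 0 (Tr.lf [(0, 1), (0, 1), (0, 1), (2, 1)]) (Tr.sp 0 (Tr.dead 3) (Tr.lf [(33226, 1), (0, 1), (0, 1), (8910, 1)]))⟩,
    ⟨rw' 155 6817 997 548 455 3 15180 1000,
      Tr.sp 1 (Tr.lf [(0, 1), (0, 1), (2, 1)]) (Tr.lf [(0, 1), (0, 1), (4, 1)]),
      Tr.lf [],
      Tr.lf [],
      Tr.lf [(0, 1), (0, 1), (0, 1), (1, 1)],
      Tr.lf [],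
      Tr.sp 0 (Tr.lf [(0, 1), (0, 1), (0, 1), (2, 1)]) (Tr.sp 0 (Tr.dead 3) (Tr.lf [(29775, 1), (0, 1), (0, 1), (9603, 1)]))⟩,
    ⟨rw' 140 6567 993 441 566 3 14700 1000,
      Tr.lf [(0, 1), (0, 1), (3, 1)],
      Tr.lf [],
      Tr.lf [],
      Tr.lf [],
      Tr.lf [],
      Tr.sp 0 (Tr.lf [(0, 1), (0, 1), (0, 1), (8, 5)]) (Tr.sp 0 (Tr.lf [(0, 1), (0, 1), (0, 1), (25, 1)]) (Tr.lf [(26333, 1), (0, 1), (0, 1), (10778, 1)]))⟩,
    ⟨rw' 95 5879 957 161 882 2 13240 1000,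
      Tr.sp 1 (Tr.lf [(0, 1), (0, 1), (3, 1)]) (Tr.lf [(0, 1), (0, 1), (4, 1)]),
      Tr.lf [],
      Tr.lf [],
      Tr.lf [],
      Tr.lf [],
      Tr.sp 0 (Tr.lf []) (Tr.sp 1 (Tr.sp 0 (Tr.dead 3) (Tr.lf [(49758, 1), (0, 1), (0, 1), (23129, 1)])) (Tr.lf [(0, 1), (0, 1), (0, 1), (2, 1)]))⟩]
    (Tr.sp 0 (Tr.lf [(0, 1), (0, 1), (7, 1)]) (Tr.lf []),
      Tr.lf [])

/-- Certificate, degree 15, type 1. -/
def c15_1 : Cert :=
  Cert.ch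
    [⟨rw' 125 6343 986 346 668 3 14200 1000,
      Tr.lf [],
      Tr.lf [],
      Tr.lf [],
      Tr.lf [],
      Tr.lf [],
      Tr.sp 0 (Tr.sp 0 (Tr.lf []) (Tr.lf [(0, 1), (0, 1), (29, 10)])) (Tr.sp 1 (Tr.sp 0 (Tr.lf [(43087, 1), (0, 1), (22313, 1)]) (Tr.lf [(79988, 1), (0, 1), (17521, 1)])) (Tr.dead 2))⟩]
    (Tr.sp 1 (Tr.lf [(0, 1), (0, 1), (3, 1)]) (Tr.lf [(0, 1), (0, 1), (17, 5)]),
      Tr.lf [])

/-- Certificate, degree 15, type 2. -/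
def c15_2 : Cert :=
  Cert.ch
    [⟨rw' 155 6817 997 548 455 3 15180 1000,
      Tr.sp 1 (Tr.dead 1) (Tr.lf [(0, 1), (48, 1)]),
      Tr.lf [(0, 1), (18, 1)],
      Tr.lf [(0, 1), (13, 1)],
      Tr.lf [(0, 1), (14, 1)],
      Tr.lf [(0, 1), (10, 1)],
      Tr.lf []⟩]
    (Tr.lf [(0, 1), (239361, 1), (80875, 1)],
      Tr.lf [(0, 1), (87354, 1), (29519, 1)])

/-- Degree 15. -/
def en15 : Entry := ⟨par 15, rows 15, c15_0, c15_1, c15_2⟩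

theorem en15_ok : en15.chk g5 0 box5 = true := by decide +kernel

/-- Certificate, degree 16, type 0. -/
def c16_0 : Cert :=
  Cert.ch
    [⟨rw' 185 7691 999 773 228 3 17220 1000,
      Tr.lf [(0, 1), (57, 10)],
      Tr.lf [],
      Tr.lf [],
      Tr.lf [(0, 1), (0, 1), (2, 1)],
      Tr.lf [],
      Tr.sp 0 (Tr.lf [(0, 1), (0, 1), (4, 1)]) (Tr.sp 0 (Tr.dead 2) (Tr.lf [(48411, 1), (0, 1), (9608, 1)]))⟩,
    ⟨rw' 170 7480 999 672 329 3 16700 1000,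
      Tr.sp 1 (Tr.lf []) (Tr.lf [(0, 1), (0, 1), (2, 1)]),
      Tr.lf [],
      Tr.lf [],
      Tr.lf [(0, 1), (0, 1), (0, 1), (2, 1)],
      Tr.lf [],
      Tr.sp 0 (Tr.lf [(0, 1), (0, 1), (0, 1), (3, 1)]) (Tr.sp 0 (Tr.dead 3) (Tr.lf [(45963, 1), (0, 1), (0, 1), (10392, 1)]))⟩,
    ⟨rw' 140 7052 994 478 528 3 15640 1000,
      Tr.sp 1 (Tr.sp 1 (Tr.lf []) (Tr.sp 1 (Tr.lf []) (Tr.lf [(0, 1), (0, 1), (3, 1)]))) (Tr.lf [(0, 1), (0, 1), (4, 1)]),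
      Tr.lf [],
      Tr.lf [],
      Tr.lf [(0, 1), (0, 1), (0, 1), (1, 1)],
      Tr.lf [],
      Tr.sp 0 (Tr.lf [(0, 1), (0, 1), (0, 1), (2, 1)]) (Tr.sp 0 (Tr.dead 3) (Tr.lf [(39180, 1), (0, 1), (0, 1), (12296, 1)]))⟩,
    ⟨rw' 95 6244 960 173 867 3 14080 1000,
      Tr.sp 1 (Tr.lf [(0, 1), (0, 1), (18, 5)]) (Tr.lf [(0, 1), (0, 1), (4, 1)]),
      Tr.lf [],
      Tr.lf [],
      Tr.lf [],
      Tr.lf [],
      Tr.sp 0 (Tr.lf [(0, 1), (0, 1), (0, 1), (1, 1)]) (Tr.sp 1 (Tr.sp 0 (Tr.dead 3) (Tr.lf [(77219, 1), (0, 1), (0, 1), (27497, 1)])) (Tr.lf [(0, 1), (0, 1), (0, 1), (3, 1)]))⟩]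
    (Tr.sp 0 (Tr.lf [(0, 1), (0, 1), (43, 10)]) (Tr.lf []),
      Tr.lf [])

/-- Certificate, degree 16, type 1. -/
def c16_1 : Cert :=
  Cert.ch
    [⟨rw' 125 6785 987 372 641 3 15120 1000,
      Tr.lf [],
      Tr.lf [],
      Tr.lf [],
      Tr.lf [],
      Tr.lf [],
      Tr.sp 0 (Tr.sp 1 (Tr.lf [(0, 1), (0, 1), (53, 10)]) (Tr.lf [])) (Tr.sp 1 (Tr.sp 0 (Tr.lf [(61365, 1), (0, 1), (24021, 1)]) (Tr.lf [(83029, 1), (0, 1), (15630, 1)])) (Tr.dead 2))⟩]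
    (Tr.sp 1 (Tr.lf [(0, 1), (0, 1), (17, 5)]) (Tr.lf [(0, 1), (0, 1), (18, 5)]),
      Tr.lf [])

/-- Certificate, degree 16, type 2. -/
def c16_2 : Cert :=
  Cert.ch
    [⟨rw' 170 7480 999 672 329 3 16700 1000,
      Tr.sp 1 (Tr.dead 1) (Tr.lf [(0, 1), (68, 1)]),
      Tr.lf [(0, 1), (18, 1)],
      Tr.lf [(0, 1), (12, 1)],
      Tr.lf [(0, 1), (14, 1)],
      Tr.lf [(0, 1), (10, 1)],
      Tr.lf []⟩]
    (Tr.lf [(0, 1), (138, 1), (297, 10)],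
      Tr.lf [(0, 1), (26, 1), (8, 1)])

/-- Degree 16. -/
def en16 : Entry := ⟨par 16, rows 16, c16_0, c16_1, c16_2⟩

theorem en16_ok : en16.chk g5 0 box5 = true := by decide +kernel

/-- Certificate, degree 17, type 0. -/
def c17_0 : Cert :=
  Cert.ch
    [⟨rw' 170 7983 999 707 294 3 17720 1000,
      Tr.sp 1 (Tr.lf []) (Tr.lf [(0, 1), (25, 2)]),
      Tr.lf [],
      Tr.lf [],
      Tr.lf [(0, 1), (0, 1), (2, 1)],
      Tr.lf [],
      Tr.sp 0 (Tr.lf [(0, 1), (0, 1), (4, 1)]) (Tr.sp 0 (Tr.lf [(35928, 1), (0, 1), (16738, 1)]) (Tr.lf [(61647, 1), (0, 1), (11904, 1)]))⟩,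
    ⟨rw' 140 7481 995 498 507 3 16600 1000,
      Tr.sp 1 (Tr.lf []) (Tr.lf [(0, 1), (0, 1), (17, 5)]),
      Tr.lf [],
      Tr.lf [],
      Tr.lf [(0, 1), (0, 1), (0, 1), (1, 1)],
      Tr.lf [],
      Tr.sp 0 (Tr.lf [(0, 1), (0, 1), (0, 1), (2, 1)]) (Tr.sp 0 (Tr.sp 0 (Tr.dead 3) (Tr.lf [(34731, 1), (0, 1), (0, 1), (17220, 1)])) (Tr.lf [(55636, 1), (0, 1), (0, 1), (14323, 1)]))⟩,
    ⟨rw' 95 6657 962 193 845 3 14920 1000,
      Tr.sp 1 (Tr.lf [(0, 1), (0, 1), (3, 1)]) (Tr.lf [(0, 1), (0, 1), (4, 1)]),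
      Tr.lf [],
      Tr.lf [],
      Tr.lf [],
      Tr.lf [],
      Tr.sp 0 (Tr.sp 0 (Tr.lf []) (Tr.lf [(0, 1), (0, 1), (0, 1), (2, 1)])) (Tr.sp 1 (Tr.sp 0 (Tr.lf [(23584, 1), (0, 1), (0, 1), (24448, 1)]) (Tr.lf [(105102, 1), (0, 1), (0, 1), (29850, 1)])) (Tr.lf [(0, 1), (0, 1), (0, 1), (4, 1)]))⟩]
    (Tr.sp 0 (Tr.lf [(0, 1), (0, 1), (5, 1)]) (Tr.lf []),
      Tr.lf [])

/-- Certificate, degree 17, type 1. -/
def c17_1 : Cert :=
  Cert.ch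
    [⟨rw' 125 7234 988 398 614 3 16040 1000,
      Tr.lf [],
      Tr.lf [],
      Tr.lf [],
      Tr.lf [],
      Tr.lf [],
      Tr.sp 0 (Tr.sp 0 (Tr.lf [(0, 1), (0, 1), (2, 1)]) (Tr.sp 0 (Tr.lf [(0, 1), (0, 1), (5, 1)]) (Tr.lf [(0, 1), (0, 1), (40, 1)]))) (Tr.sp 1 (Tr.sp 0 (Tr.lf [(86969, 1), (0, 1), (27234, 1)]) (Tr.lf [(86437, 1), (0, 1), (14224, 1)])) (Tr.dead 2))⟩]
    (Tr.sp 1 (Tr.lf [(0, 1), (0, 1), (4, 1)]) (Tr.lf [(0, 1), (0, 1), (4, 1)]),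
      Tr.lf [])

/-- Certificate, degree 17, type 2. -/
def c17_2 : Cert :=
  Cert.ch
    [⟨rw' 170 7983 999 707 294 3 17720 1000,
      Tr.lf [(0, 1), (107, 1)],
      Tr.lf [(0, 1), (18, 1)],
      Tr.lf [(0, 1), (12, 1)],
      Tr.lf [(0, 1), (14, 1)],
      Tr.lf [(0, 1), (10, 1)],
      Tr.lf []⟩]
    (Tr.lf [(0, 1), (275963, 1), (80281, 1)],
      Tr.lf [(0, 1), (67975, 1), (19363, 1)])

/-- Degree 17. -/
def en17 : Entry := ⟨par 17, rows 17, c17_0, c17_1, c17_2⟩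

theorem en17_ok : en17.chk g5 0 box5 = true := by decide +kernel

/-- Certificate, degree 18, type 0. -/
def c18_0 : Cert :=
  Cert.ch
    [⟨rw' 170 8472 999 737 264 3 18740 1000,
      Tr.sp 1 (Tr.lf []) (Tr.lf [(0, 1), (14, 1)]),
      Tr.lf [],
      Tr.lf [],
      Tr.lf [(0, 1), (0, 1), (2, 1)],
      Tr.lf [],
      Tr.sp 0 (Tr.lf [(0, 1), (0, 1), (5, 1)]) (Tr.sp 0 (Tr.lf [(43296, 1), (0, 1), (15615, 1)]) (Tr.lf [(81008, 1), (0, 1), (13663, 1)]))⟩,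
    ⟨rw' 155 8206 998 628 374 3 18140 1000,
      Tr.sp 1 (Tr.lf []) (Tr.lf [(0, 1), (0, 1), (4, 1)]),
      Tr.lf [],
      Tr.lf [],
      Tr.lf [(0, 1), (0, 1), (0, 1), (1, 1)],
      Tr.lf [],
      Tr.sp 0 (Tr.lf [(0, 1), (0, 1), (0, 1), (94, 25)]) (Tr.sp 0 (Tr.lf [(39251, 1), (0, 1), (0, 1), (18042, 1)]) (Tr.lf [(77721, 1), (0, 1), (0, 1), (14739, 1)]))⟩,
    ⟨rw' 110 7358 979 311 710 3 16360 1000,
      Tr.sp 1 (Tr.lf [(0, 1), (0, 1), (4, 1)]) (Tr.lf [(0, 1), (0, 1), (23, 5)]),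
      Tr.lf [],
      Tr.lf [],
      Tr.lf [],
      Tr.lf [],
      Tr.sp 0 (Tr.sp 1 (Tr.lf [(0, 1), (0, 1), (0, 1), (4, 1)]) (Tr.lf [])) (Tr.sp 1 (Tr.sp 0 (Tr.lf [(44659, 1), (0, 1), (0, 1), (21455, 1)]) (Tr.lf [(120839, 1), (0, 1), (0, 1), (25129, 1)])) (Tr.lf [(0, 1), (0, 1), (0, 1), (12, 1)]))⟩]
    (Tr.sp 0 (Tr.sp 0 (Tr.sp 1 (Tr.lf [(0, 1), (0, 1), (5, 1)]) (Tr.lf [(0, 1), (0, 1), (10, 1)])) (Tr.lf [(0, 1), (0, 1), (6, 1)])) (Tr.lf []),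
      Tr.lf [])

/-- Certificate, degree 18, type 1. -/
def c18_1 : Cert :=
  Cert.ch
    [⟨rw' 125 7611 989 406 605 3 16960 1000,
      Tr.lf [],
      Tr.lf [],
      Tr.lf [],
      Tr.lf [],
      Tr.lf [],
      Tr.sp 0 (Tr.sp 0 (Tr.lf [(0, 1), (0, 1), (5, 2)]) (Tr.sp 1 (Tr.lf [(32485, 1), (0, 1), (26599, 1)]) (Tr.lf []))) (Tr.sp 0 (Tr.sp 1 (Tr.lf [(96310, 1), (0, 1), (25463, 1)]) (Tr.dead 2)) (Tr.lf [(89333, 1), (0, 1), (17022, 1)]))⟩]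
    (Tr.sp 1 (Tr.lf [(0, 1), (0, 1), (4, 1)]) (Tr.lf [(0, 1), (0, 1), (21, 5)]),
      Tr.lf [])

/-- Certificate, degree 18, type 2. -/
def c18_2 : Cert :=
  Cert.ch
    [⟨rw' 170 8472 999 737 264 3 18740 1000,
      Tr.lf [(0, 1), (99, 1)],
      Tr.lf [(0, 1), (18, 1)],
      Tr.lf [(0, 1), (12, 1)],
      Tr.lf [(0, 1), (14, 1)],
      Tr.lf [(0, 1), (10, 1)],
      Tr.lf []⟩]
    (Tr.lf [(0, 1), (289141, 1), (80368, 1)],
      Tr.lf [(0, 1), (60583, 1), (16423, 1)])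

/-- Degree 18. -/
def en18 : Entry := ⟨par 18, rows 18, c18_0, c18_1, c18_2⟩

theorem en18_ok : en18.chk g5 0 box5 = true := by decide +kernel

/-- Certificate, degree 19, type 0. -/
def c19_0 : Cert :=
  Cert.ch
    [⟨rw' 170 8927 999 756 245 3 19760 1000,
      Tr.sp 1 (Tr.lf []) (Tr.lf [(0, 1), (14, 1)]),
      Tr.lf [],
      Tr.lf [],
      Tr.lf [(0, 1), (0, 1), (2, 1)],
      Tr.lf [],
      Tr.sp 0 (Tr.sp 0 (Tr.lf [(0, 1), (0, 1), (5, 1)]) (Tr.dead 2)) (Tr.sp 0 (Tr.lf [(63181, 1), (0, 1), (18703, 1)]) (Tr.lf [(109947, 1), (0, 1), (16523, 1)]))⟩,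
    ⟨rw' 155 8625 998 640 362 3 19120 1000,
      Tr.lf [(0, 1), (0, 1), (2, 1)],
      Tr.lf [],
      Tr.lf [],
      Tr.lf [(0, 1), (0, 1), (0, 1), (1, 1)],
      Tr.lf [],
      Tr.sp 0 (Tr.sp 0 (Tr.lf [(0, 1), (0, 1), (0, 1), (4, 1)]) (Tr.dead 3)) (Tr.sp 1 (Tr.lf [(109539, 1), (0, 1), (0, 1), (21311, 1)]) (Tr.dead 3))⟩,
    ⟨rw' 110 7742 981 324 695 3 17240 1000,
      Tr.sp 1 (Tr.lf []) (Tr.lf [(0, 1), (0, 1), (5, 1)]),
      Tr.lf [],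
      Tr.lf [],
      Tr.lf [],
      Tr.lf [],
      Tr.sp 0 (Tr.sp 0 (Tr.lf [(0, 1), (0, 1), (0, 1), (2, 1)]) (Tr.sp 1 (Tr.dead 3) (Tr.lf []))) (Tr.sp 1 (Tr.sp 0 (Tr.lf [(67299, 1), (0, 1), (0, 1), (25216, 1)]) (Tr.lf [(125664, 1), (0, 1), (0, 1), (22802, 1)])) (Tr.dead 3))⟩]
    (Tr.sp 0 (Tr.sp 1 (Tr.lf [(0, 1), (0, 1), (5, 1)]) (Tr.lf [(0, 1), (0, 1), (6, 1)])) (Tr.lf []),
      Tr.lf [])

/-- Certificate, degree 19, type 1. -/
def c19_1 : Cert :=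
  Cert.ch
    [⟨rw' 125 8030 990 424 586 2 17880 1000,
      Tr.lf [(1, 1)],
      Tr.lf [],
      Tr.lf [],
      Tr.lf [],
      Tr.lf [],
      Tr.sp 0 (Tr.sp 0 (Tr.lf [(0, 1), (0, 1), (3, 1)]) (Tr.sp 1 (Tr.lf [(40916, 1), (0, 1), (23408, 1)]) (Tr.lf []))) (Tr.sp 0 (Tr.sp 1 (Tr.lf [(98542, 1), (0, 1), (22322, 1)]) (Tr.dead 2)) (Tr.lf [(92802, 1), (0, 1), (15549, 1)]))⟩]
    (Tr.sp 1 (Tr.lf [(0, 1), (0, 1), (4, 1)]) (Tr.lf [(0, 1), (0, 1), (23, 5)]),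
      Tr.lf [])

/-- Certificate, degree 19, type 2. -/
def c19_2 : Cert :=
  Cert.ch
    [⟨rw' 185 9160 999 859 142 3 20400 1000,
      Tr.lf [(0, 1), (91, 1)],
      Tr.lf [(0, 1), (18, 1)],
      Tr.lf [(0, 1), (12, 1)],
      Tr.lf [(0, 1), (13, 1)],
      Tr.lf [(0, 1), (10, 1)],
      Tr.lf []⟩]
    (Tr.lf [(0, 1), (299689, 1), (75723, 1)],
      Tr.lf [(0, 1), (54752, 1), (13367, 1)])

/-- Degree 19. -/
def en19 : Entry := ⟨par 19, rows 19, c19_0, c19_1, c19_2⟩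

theorem en19_ok : en19.chk g5 0 box5 = true := by decide +kernel

/-- Certificate, degree 20, type 0. -/
def c20_0 : Cert :=
  Cert.ch
    [⟨rw' 170 9328 999 762 239 3 20780 1000,
      Tr.lf [],
      Tr.lf [],
      Tr.lf [],
      Tr.lf [(0, 1), (0, 1), (2, 1)],
      Tr.lf [],
      Tr.sp 0 (Tr.sp 0 (Tr.lf [(0, 1), (0, 1), (7, 1)]) (Tr.lf [(31837, 1), (0, 1), (27774, 1)])) (Tr.sp 0 (Tr.lf [(64274, 1), (0, 1), (16286, 1)]) (Tr.lf [(112613, 1), (0, 1), (15352, 1)]))⟩,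
    ⟨rw' 140 8778 996 552 452 3 19460 1000,
      Tr.lf [(0, 1), (0, 1), (143, 50)],
      Tr.lf [],
      Tr.lf [],
      Tr.lf [],
      Tr.lf [],
      Tr.sp 0 (Tr.sp 0 (Tr.lf [(0, 1), (0, 1), (0, 1), (4, 1)]) (Tr.sp 0 (Tr.dead 3) (Tr.lf [(26844, 1), (0, 1), (0, 1), (26825, 1)]))) (Tr.sp 1 (Tr.lf [(107386, 1), (0, 1), (0, 1), (20098, 1)]) (Tr.dead 3))⟩,
    ⟨rw' 95 7804 968 232 800 3 17460 1000,
      Tr.lf [(0, 1), (0, 1), (9, 2)],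
      Tr.lf [],
      Tr.lf [],
      Tr.lf [],
      Tr.lf [],
      Tr.sp 0 (Tr.sp 0 (Tr.lf [(0, 1), (0, 1), (0, 1), (19, 10)]) (Tr.sp 1 (Tr.lf [(9338, 1), (0, 1), (0, 1), (36294, 1)]) (Tr.lf []))) (Tr.sp 1 (Tr.sp 0 (Tr.lf [(91579, 1), (0, 1), (0, 1), (33585, 1)]) (Tr.dead 0)) (Tr.dead 3))⟩]
    (Tr.lf [(0, 1), (0, 1), (23, 5)],
      Tr.lf [])

/-- Certificate, degree 20, type 1. -/
def c20_1 : Cert :=
  Cert.ch
    [⟨rw' 125 8498 991 451 558 3 18780 1000,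
      Tr.sp 0 (Tr.lf []) (Tr.lf [(26, 1)]),
      Tr.lf [],
      Tr.lf [],
      Tr.lf [],
      Tr.lf [],
      Tr.sp 0 (Tr.sp 1 (Tr.sp 0 (Tr.dead 2) (Tr.lf [(68331, 1), (0, 1), (29511, 1)])) (Tr.lf [])) (Tr.sp 1 (Tr.lf [(96875, 1), (0, 1), (15440, 1)]) (Tr.lf [(41313, 1), (0, 1), (17136, 1)]))⟩]
    (Tr.sp 1 (Tr.lf [(0, 1), (0, 1), (1, 1)]) (Tr.lf [(0, 1), (0, 1), (5, 1)]),
      Tr.lf [])

/-- Certificate, degree 20, type 2. -/
def c20_2 : Cert :=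
  Cert.void (Tr.dead 1)

/-- Degree 20. -/
def en20 : Entry := ⟨par 20, rows 20, c20_0, c20_1, c20_2⟩

theorem en20_ok : en20.chk g5 0 box5 = true := by decide +kernel

/-- Certificate, degree 21, type 0. -/
def c21_0 : Cert :=
  Cert.ch
    [⟨rw' 155 9497 998 673 329 3 21120 1000,
      Tr.lf [],
      Tr.lf [],
      Tr.lf [],
      Tr.lf [],
      Tr.lf [],
      Tr.sp 0 (Tr.sp 0 (Tr.lf [(0, 1), (0, 1), (6, 1)]) (Tr.sp 0 (Tr.dead 2) (Tr.lf [(50212, 1), (0, 1), (23674, 1)]))) (Tr.sp 1 (Tr.lf [(111581, 1), (0, 1), (17004, 1)]) (Tr.lf [(38226, 1), (0, 1), (13130, 1)]))⟩,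
    ⟨rw' 110 8560 983 355 662 3 19020 1000,
      Tr.sp 1 (Tr.lf []) (Tr.lf [(0, 1), (0, 1), (5, 1)]),
      Tr.lf [],
      Tr.lf [],
      Tr.lf [],
      Tr.lf [],
      Tr.sp 0 (Tr.sp 0 (Tr.lf [(0, 1), (0, 1), (0, 1), (69, 25)]) (Tr.sp 1 (Tr.lf [(36905, 1), (0, 1), (0, 1), (28816, 1)]) (Tr.lf []))) (Tr.sp 1 (Tr.lf [(98037, 1), (0, 1), (0, 1), (19713, 1)]) (Tr.lf [(21070, 1), (0, 1), (0, 1), (18600, 1)]))⟩]
    (Tr.sp 0 (Tr.sp 1 (Tr.lf [(0, 1), (0, 1), (6, 1)]) (Tr.lf [(0, 1), (0, 1), (6, 1)])) (Tr.lf []),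
      Tr.lf [])

/-- Certificate, degree 21, type 1. -/
def c21_1 : Cert :=
  Cert.ch
    [⟨rw' 125 8931 992 471 537 3 19720 1000,
      Tr.sp 0 (Tr.lf []) (Tr.lf [(58, 1), (0, 1), (4, 1)]),
      Tr.lf [],
      Tr.lf [],
      Tr.lf [],
      Tr.lf [],
      Tr.sp 0 (Tr.sp 1 (Tr.sp 0 (Tr.dead 2) (Tr.lf [(92797, 1), (0, 1), (32359, 1)])) (Tr.lf [(0, 1), (0, 1), (3, 1)])) (Tr.sp 1 (Tr.lf [(100684, 1), (0, 1), (14351, 1)]) (Tr.lf [(59400, 1), (0, 1), (19474, 1)]))⟩]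
    (Tr.sp 0 (Tr.lf [(0, 1), (0, 1), (49, 10)]) (Tr.lf [(29, 1)]),
      Tr.lf [])

/-- Certificate, degree 21, type 2. -/
def c21_2 : Cert :=
  Cert.void (Tr.dead 1)

/-- Degree 21. -/
def en21 : Entry := ⟨par 21, rows 21, c21_0, c21_1, c21_2⟩

theorem en21_ok : en21.chk g5 0 box5 = true := by decide +kernel

/-- Certificate, degree 22, type 0. -/
def c22_0 : Cert :=
  Cert.ch
    [⟨rw' 155 10062 998 716 286 3 22100 1000,
      Tr.lf [],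
      Tr.lf [],
      Tr.lf [],
      Tr.lf [],
      Tr.lf [],
      Tr.sp 0 (Tr.sp 0 (Tr.lf [(0, 1), (0, 1), (10, 1)]) (Tr.sp 0 (Tr.lf [(39511, 1), (0, 1), (29228, 1)]) (Tr.lf [(75218, 1), (0, 1), (27414, 1)]))) (Tr.sp 1 (Tr.lf [(116385, 1), (0, 1), (15690, 1)]) (Tr.lf [(54982, 1), (0, 1), (15045, 1)]))⟩,
    ⟨rw' 110 8992 984 374 642 3 19900 1000,
      Tr.lf [(0, 1), (0, 1), (22, 5)],
      Tr.lf [],
      Tr.lf [],
      Tr.lf [],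
      Tr.lf [],
      Tr.sp 0 (Tr.sp 1 (Tr.sp 0 (Tr.lf [(0, 1), (0, 1), (0, 1), (14, 1)]) (Tr.lf [(48394, 1), (0, 1), (0, 1), (26523, 1)])) (Tr.lf [])) (Tr.sp 1 (Tr.lf [(106141, 1), (0, 1), (0, 1), (18632, 1)]) (Tr.lf [(33140, 1), (0, 1), (0, 1), (18861, 1)]))⟩]
    (Tr.sp 1 (Tr.lf []) (Tr.lf [(0, 1), (0, 1), (6, 1)]),
      Tr.lf [])

/-- Certificate, degree 22, type 1. -/
def c22_1 : Cert :=
  Cert.ch
    [⟨rw' 125 9311 992 477 531 3 20640 1000,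
      Tr.sp 0 (Tr.lf []) (Tr.lf [(60, 1), (0, 1), (3, 1)]),
      Tr.lf [],
      Tr.lf [],
      Tr.lf [],
      Tr.lf [],
      Tr.sp 0 (Tr.sp 1 (Tr.sp 0 (Tr.lf [(27013, 1), (0, 1), (36841, 1)]) (Tr.lf [(114835, 1), (0, 1), (33861, 1)])) (Tr.lf [(0, 1), (0, 1), (4, 1)])) (Tr.sp 1 (Tr.lf [(104040, 1), (0, 1), (13478, 1)]) (Tr.lf [(81255, 1), (0, 1), (22233, 1)]))⟩]
    (Tr.lf [(0, 1), (0, 1), (5, 1)],
      Tr.lf [])

/-- Certificate, degree 22, type 2. -/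
def c22_2 : Cert :=
  Cert.void (Tr.dead 1)

/-- Degree 22. -/
def en22 : Entry := ⟨par 22, rows 22, c22_0, c22_1, c22_2⟩

theorem en22_ok : en22.chk g5 0 box5 = true := by decide +kernel

/-- Certificate, degree 23, type 0. -/
def c23_0 : Cert :=
  Cert.ch
    [⟨rw' 155 10435 998 717 285 3 23100 1000,
      Tr.lf [],
      Tr.lf [],
      Tr.lf [],
      Tr.lf [],
      Tr.lf [],
      Tr.sp 0 (Tr.sp 0 (Tr.lf [(0, 1), (0, 1), (19, 1)]) (Tr.sp 0 (Tr.lf [(50594, 1), (0, 1), (28113, 1)]) (Tr.lf [(76300, 1), (0, 1), (23592, 1)]))) (Tr.sp 0 (Tr.lf [(113646, 1), (0, 1), (21670, 1)]) (Tr.lf [(119387, 1), (0, 1), (13333, 1)]))⟩,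
    ⟨rw' 110 9371 985 384 631 3 20780 1000,
      Tr.lf [(0, 1), (0, 1), (5, 1)],
      Tr.lf [],
      Tr.lf [],
      Tr.lf [],
      Tr.lf [],
      Tr.sp 0 (Tr.sp 1 (Tr.sp 0 (Tr.dead 3) (Tr.lf [(71016, 1), (0, 1), (0, 1), (30344, 1)])) (Tr.lf [(0, 1), (0, 1), (0, 1), (3, 1)])) (Tr.sp 1 (Tr.lf [(113868, 1), (0, 1), (0, 1), (17840, 1)]) (Tr.lf [(49651, 1), (0, 1), (0, 1), (21156, 1)]))⟩]
    (Tr.lf [(0, 1), (0, 1), (6, 1)],
      Tr.lf [])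

/-- Certificate, degree 23, type 1. -/
def c23_1 : Cert :=
  Cert.ch
    [⟨rw' 125 9725 993 492 515 3 21560 1000,
      Tr.sp 0 (Tr.lf []) (Tr.lf [(61, 1), (0, 1), (3, 1)]),
      Tr.lf [],
      Tr.lf [],
      Tr.lf [],
      Tr.lf [],
      Tr.sp 0 (Tr.sp 1 (Tr.sp 0 (Tr.lf [(39964, 1), (0, 1), (33543, 1)]) (Tr.lf [(116919, 1), (0, 1), (29630, 1)])) (Tr.lf [(0, 1), (0, 1), (5, 1)])) (Tr.sp 1 (Tr.lf [(107786, 1), (0, 1), (12727, 1)]) (Tr.lf [(120488, 1), (0, 1), (28024, 1)]))⟩]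
    (Tr.lf [(0, 1), (0, 1), (6, 1)],
      Tr.lf [])

/-- Certificate, degree 23, type 2. -/
def c23_2 : Cert :=
  Cert.void (Tr.dead 1)

/-- Degree 23. -/
def en23 : Entry := ⟨par 23, rows 23, c23_0, c23_1, c23_2⟩

theorem en23_ok : en23.chk g5 0 box5 = true := by decide +kernel

/-- Certificate, degree 24, type 0. -/
def c24_0 : Cert :=
  Cert.ch
    [⟨rw' 110 9783 986 399 615 3 21680 1000,
      Tr.lf [],
      Tr.lf [],
      Tr.lf [],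
      Tr.lf [],
      Tr.lf [],
      Tr.sp 0 (Tr.sp 1 (Tr.sp 0 (Tr.dead 2) (Tr.lf [(118158, 1), (0, 1), (40942, 1)])) (Tr.lf [(0, 1), (0, 1), (3, 1)])) (Tr.sp 1 (Tr.lf [(108057, 1), (0, 1), (15189, 1)]) (Tr.lf [(70979, 1), (0, 1), (23851, 1)]))⟩]
    (Tr.lf [(0, 1), (0, 1), (7, 1)],
      Tr.lf [])

/-- Certificate, degree 24, type 1. -/
def c24_1 : Cert :=
  Cert.ch
    [⟨rw' 125 10177 993 512 495 3 22480 1000,
      Tr.sp 0 (Tr.lf []) (Tr.lf [(62, 1), (0, 1), (2, 1)]),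
      Tr.lf [],
      Tr.lf [],
      Tr.lf [],
      Tr.lf [],
      Tr.sp 0 (Tr.sp 1 (Tr.sp 1 (Tr.lf [(119832, 1), (0, 1), (28767, 1)]) (Tr.lf [(35907, 1), (0, 1), (22561, 1)])) (Tr.lf [(0, 1), (0, 1), (7, 1)])) (Tr.sp 1 (Tr.dead 0) (Tr.lf [(123615, 1), (0, 1), (24772, 1)]))⟩]
    (Tr.lf [(0, 1), (0, 1), (6, 1)],
      Tr.lf [])

/-- Certificate, degree 24, type 2. -/
def c24_2 : Cert :=
  Cert.void (Tr.dead 1)

/-- Degree 24. -/
def en24 : Entry := ⟨par 24, rows 24, c24_0, c24_1, c24_2⟩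

theorem en24_ok : en24.chk g5 0 box5 = true := by decide +kernel

/-- Certificate, degree 25, type 0. -/
def c25_0 : Cert :=
  Cert.ch
    [⟨rw' 110 10232 986 418 596 3 22560 1000,
      Tr.lf [],
      Tr.lf [],
      Tr.lf [],
      Tr.lf [],
      Tr.lf [],
      Tr.sp 0 (Tr.sp 1 (Tr.sp 0 (Tr.lf [(29340, 1), (0, 1), (39069, 1)]) (Tr.lf [(120687, 1), (0, 1), (34826, 1)])) (Tr.lf [(0, 1), (0, 1), (4, 1)])) (Tr.sp 1 (Tr.lf [(112159, 1), (0, 1), (14204, 1)]) (Tr.lf [(124020, 1), (0, 1), (33987, 1)]))⟩]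
    (Tr.lf [(0, 1), (0, 1), (7, 1)],
      Tr.lf [])

/-- Certificate, degree 25, type 1. -/
def c25_1 : Cert :=
  Cert.ch
    [⟨rw' 125 10673 994 541 465 3 23400 1000,
      Tr.sp 0 (Tr.lf []) (Tr.lf [(63, 1), (0, 1), (1, 1)]),
      Tr.lf [],
      Tr.lf [],
      Tr.lf [],
      Tr.lf [],
      Tr.sp 0 (Tr.sp 1 (Tr.sp 0 (Tr.sp 0 (Tr.lf [(47356, 1), (0, 1), (28401, 1)]) (Tr.lf [(103754, 1), (0, 1), (34093, 1)])) (Tr.lf [(123497, 1), (0, 1), (23909, 1)])) (Tr.lf [(0, 1), (0, 1), (10, 1)])) (Tr.sp 1 (Tr.dead 0) (Tr.lf [(127403, 1), (0, 1), (22222, 1)]))⟩]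
    (Tr.lf [(0, 1), (0, 1), (7, 1)],
      Tr.lf [])

/-- Certificate, degree 25, type 2. -/
def c25_2 : Cert :=
  Cert.void (Tr.dead 1)

/-- Degree 25. -/
def en25 : Entry := ⟨par 25, rows 25, c25_0, c25_1, c25_2⟩

theorem en25_ok : en25.chk g5 0 box5 = true := by decide +kernel

/-- Certificate, degree 26, type 0. -/
def c26_0 : Cert :=
  Cert.ch
    [⟨rw' 110 10598 987 425 588 3 23460 1000,
      Tr.lf [(4, 1)],
      Tr.lf [],
      Tr.lf [],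
      Tr.lf [],
      Tr.lf [],
      Tr.sp 0 (Tr.sp 1 (Tr.sp 1 (Tr.lf [(122810, 1), (0, 1), (33790, 1)]) (Tr.lf [(27811, 1), (0, 1), (26410, 1)])) (Tr.lf [(0, 1), (0, 1), (5, 1)])) (Tr.sp 1 (Tr.dead 0) (Tr.lf [(126336, 1), (0, 1), (29664, 1)]))⟩]
    (Tr.lf [(0, 1), (0, 1), (8, 1)],
      Tr.lf [])

/-- Certificate, degree 26, type 1. -/
def c26_1 : Cert :=
  Cert.ch
    []
    (Tr.sp 0 (Tr.lf []) (Tr.lf [(59, 1)]),
      Tr.lf [])

/-- Certificate, degree 26, type 2. -/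
def c26_2 : Cert :=
  Cert.void (Tr.dead 1)

/-- Degree 26. -/
def en26 : Entry := ⟨par 26, rows 26, c26_0, c26_1, c26_2⟩

theorem en26_ok : en26.chk g5 0 box5 = true := by decide +kernel

/-- Certificate, degree 27, type 0. -/
def c27_0 : Cert :=
  Cert.ch
    [⟨rw' 110 10990 988 435 577 3 24340 1000,
      Tr.lf [(7, 1)],
      Tr.lf [],
      Tr.lf [],
      Tr.lf [],
      Tr.lf [],
      Tr.sp 0 (Tr.sp 1 (Tr.sp 1 (Tr.lf [(125493, 1), (0, 1), (29601, 1)]) (Tr.lf [(43005, 1), (0, 1), (27175, 1)])) (Tr.lf [(0, 1), (0, 1), (7, 1)])) (Tr.sp 1 (Tr.dead 0) (Tr.lf [(129126, 1), (0, 1), (26338, 1)]))⟩]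
    (Tr.lf [(0, 1), (0, 1), (8, 1)],
      Tr.lf [])

/-- Certificate, degree 27, type 1. -/
def c27_1 : Cert :=
  Cert.ch
    []
    (Tr.sp 0 (Tr.lf []) (Tr.lf [(67, 1)]),
      Tr.lf [])

/-- Certificate, degree 27, type 2. -/
def c27_2 : Cert :=
  Cert.void (Tr.dead 1)

/-- Degree 27. -/
def en27 : Entry := ⟨par 27, rows 27, c27_0, c27_1, c27_2⟩

theorem en27_ok : en27.chk g5 0 box5 = true := by decide +kernel

/-- Certificate, degree 28, type 0. -/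
def c28_0 : Cert :=
  Cert.ch
    [⟨rw' 110 11413 988 449 563 3 25240 1000,
      Tr.lf [(10, 1)],
      Tr.lf [],
      Tr.lf [],
      Tr.lf [],
      Tr.lf [],
      Tr.sp 0 (Tr.sp 1 (Tr.sp 0 (Tr.lf [(91183, 1), (0, 1), (42758, 1)]) (Tr.lf [(128707, 1), (0, 1), (25076, 1)])) (Tr.lf [(0, 1), (0, 1), (10, 1)])) (Tr.sp 0 (Tr.lf [(125198, 1), (0, 1), (19557, 1)]) (Tr.dead 0))⟩]
    (Tr.lf [(0, 1), (0, 1), (9, 1)],
      Tr.lf [])

/-- Certificate, degree 28, type 1. -/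
def c28_1 : Cert :=
  Cert.ch
    []
    (Tr.sp 0 (Tr.lf []) (Tr.lf [(75, 1)]),
      Tr.lf [])

/-- Certificate, degree 28, type 2. -/
def c28_2 : Cert :=
  Cert.void (Tr.dead 1)

/-- Degree 28. -/
def en28 : Entry := ⟨par 28, rows 28, c28_0, c28_1, c28_2⟩

theorem en28_ok : en28.chk g5 0 box5 = true := by decide +kernel

/-- Certificate, degree 29, type 0. -/
def c29_0 : Cert :=
  Cert.ch
    []
    (Tr.sp 0 (Tr.lf []) (Tr.lf [(63, 1)]),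
      Tr.lf [])

/-- Certificate, degree 29, type 1. -/
def c29_1 : Cert :=
  Cert.ch
    []
    (Tr.sp 0 (Tr.lf []) (Tr.lf [(84, 1)]),
      Tr.lf [])

/-- Certificate, degree 29, type 2. -/
def c29_2 : Cert :=
  Cert.void (Tr.dead 1)

/-- Degree 29. -/
def en29 : Entry := ⟨par 29, rows 29, c29_0, c29_1, c29_2⟩

theorem en29_ok : en29.chk g5 0 box5 = true := by decide +kernel

/-- Certificate, degree 30, type 0. -/
def c30_0 : Cert :=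
  Cert.ch
    []
    (Tr.sp 0 (Tr.lf []) (Tr.lf [(72, 1)]),
      Tr.lf [])

/-- Certificate, degree 30, type 1. -/
def c30_1 : Cert :=
  Cert.ch
    []
    (Tr.sp 0 (Tr.lf []) (Tr.lf [(94, 1)]),
      Tr.lf [])

/-- Certificate, degree 30, type 2. -/
def c30_2 : Cert :=
  Cert.void (Tr.dead 1)

/-- Degree 30. -/
def en30 : Entry := ⟨par 30, rows 30, c30_0, c30_1, c30_2⟩

theorem en30_ok : en30.chk g5 0 box5 = true := by decide +kernel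

/-- Certificate, degree 31, type 0. -/
def c31_0 : Cert :=
  Cert.ch
    []
    (Tr.sp 0 (Tr.lf []) (Tr.lf [(81, 1)]),
      Tr.lf [])

/-- Certificate, degree 31, type 1. -/
def c31_1 : Cert :=
  Cert.ch
    []
    (Tr.sp 0 (Tr.lf []) (Tr.lf [(105, 1)]),
      Tr.lf [])

/-- Certificate, degree 31, type 2. -/
def c31_2 : Cert :=
  Cert.void (Tr.dead 1)

/-- Degree 31. -/
def en31 : Entry := ⟨par 31, rows 31, c31_0, c31_1, c31_2⟩

theorem en31_ok : en31.chk g5 0 box5 = true := by decide +kernel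

/-- Certificate, degree 32, type 0. -/
def c32_0 : Cert :=
  Cert.ch
    []
    (Tr.sp 0 (Tr.lf []) (Tr.lf [(91, 1)]),
      Tr.lf [])

/-- Certificate, degree 32, type 1. -/
def c32_1 : Cert :=
  Cert.ch
    []
    (Tr.sp 0 (Tr.lf []) (Tr.dead 0),
      Tr.lf [])

/-- Certificate, degree 32, type 2. -/
def c32_2 : Cert :=
  Cert.void (Tr.dead 1)

/-- Degree 32. -/
def en32 : Entry := ⟨par 32, rows 32, c32_0, c32_1, c32_2⟩

theorem en32_ok : en32.chk g5 0 box5 = true := by decide +kernel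

/-- Certificate, degree 33, type 0. -/
def c33_0 : Cert :=
  Cert.ch
    []
    (Tr.sp 0 (Tr.lf []) (Tr.lf [(102, 1)]),
      Tr.lf [])

/-- Certificate, degree 33, type 1. -/
def c33_1 : Cert :=
  Cert.ch
    []
    (Tr.sp 0 (Tr.lf [(19, 1)]) (Tr.dead 0),
      Tr.lf [])

/-- Certificate, degree 33, type 2. -/
def c33_2 : Cert :=
  Cert.void (Tr.dead 1)

/-- Degree 33. -/
def en33 : Entry := ⟨par 33, rows 33, c33_0, c33_1, c33_2⟩

theorem en33_ok : en33.chk g5 0 box5 = true := by decide +kernel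

/-- Certificate, degree 34, type 0. -/
def c34_0 : Cert :=
  Cert.ch
    []
    (Tr.lf [(373, 10)],
      Tr.lf [])

/-- Certificate, degree 34, type 1. -/
def c34_1 : Cert :=
  Cert.ch
    []
    (Tr.sp 0 (Tr.lf [(23, 1)]) (Tr.dead 0),
      Tr.lf [])

/-- Certificate, degree 34, type 2. -/
def c34_2 : Cert :=
  Cert.void (Tr.dead 1)

/-- Degree 34. -/
def en34 : Entry := ⟨par 34, rows 34, c34_0, c34_1, c34_2⟩

theorem en34_ok : en34.chk g5 0 box5 = true := by decide +kernel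

/-- Certificate, degree 35, type 0. -/
def c35_0 : Cert :=
  Cert.ch
    []
    (Tr.lf [(45, 1)],
      Tr.lf [])

/-- Certificate, degree 35, type 1. -/
def c35_1 : Cert :=
  Cert.ch
    []
    (Tr.lf [(357, 5)],
      Tr.lf [])

/-- Certificate, degree 35, type 2. -/
def c35_2 : Cert :=
  Cert.void (Tr.dead 1)

/-- Degree 35. -/
def en35 : Entry := ⟨par 35, rows 35, c35_0, c35_1, c35_2⟩

theorem en35_ok : en35.chk g5 0 box5 = true := by decide +kernel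

/-- Certificate, degree 36, type 0. -/
def c36_0 : Cert :=
  Cert.ch
    []
    (Tr.lf [(53, 1)],
      Tr.lf [])

/-- Certificate, degree 36, type 1. -/
def c36_1 : Cert :=
  Cert.ch
    []
    (Tr.lf [(81, 1)],
      Tr.lf [])

/-- Certificate, degree 36, type 2. -/
def c36_2 : Cert :=
  Cert.void (Tr.dead 1)

/-- Degree 36. -/
def en36 : Entry := ⟨par 36, rows 36, c36_0, c36_1, c36_2⟩

theorem en36_ok : en36.chk g5 0 box5 = true := by decide +kernel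

/-- Certificate, degree 37, type 0. -/
def c37_0 : Cert :=
  Cert.ch
    []
    (Tr.lf [(61, 1)],
      Tr.lf [])

/-- Certificate, degree 37, type 1. -/
def c37_1 : Cert :=
  Cert.ch
    []
    (Tr.lf [(91, 1)],
      Tr.lf [(17, 1)])

/-- Certificate, degree 37, type 2. -/
def c37_2 : Cert :=
  Cert.void (Tr.dead 1)

/-- Degree 37. -/
def en37 : Entry := ⟨par 37, rows 37, c37_0, c37_1, c37_2⟩

theorem en37_ok : en37.chk g5 0 box5 = true := by decide +kernel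

/-- Certificate, degree 38, type 0. -/
def c38_0 : Cert :=
  Cert.ch
    []
    (Tr.lf [(70, 1)],
      Tr.lf [])

/-- Certificate, degree 38, type 1. -/
def c38_1 : Cert :=
  Cert.ch
    []
    (Tr.lf [(101, 1)],
      Tr.lf [(17, 1)])

/-- Certificate, degree 38, type 2. -/
def c38_2 : Cert :=
  Cert.void (Tr.dead 1)

/-- Degree 38. -/
def en38 : Entry := ⟨par 38, rows 38, c38_0, c38_1, c38_2⟩

theorem en38_ok : en38.chk g5 0 box5 = true := by decide +kernel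

/-- Certificate, degree 39, type 0. -/
def c39_0 : Cert :=
  Cert.ch
    []
    (Tr.lf [(80, 1)],
      Tr.lf [])

/-- Certificate, degree 39, type 1. -/
def c39_1 : Cert :=
  Cert.ch
    []
    (Tr.lf [(112, 1)],
      Tr.lf [(17, 1)])

/-- Certificate, degree 39, type 2. -/
def c39_2 : Cert :=
  Cert.void (Tr.dead 1)

/-- Degree 39. -/
def en39 : Entry := ⟨par 39, rows 39, c39_0, c39_1, c39_2⟩

theorem en39_ok : en39.chk g5 0 box5 = true := by decide +kernel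

/-- Certificate, degree 40, type 0. -/
def c40_0 : Cert :=
  Cert.ch
    []
    (Tr.lf [(90, 1)],
      Tr.lf [])

/-- Certificate, degree 40, type 1. -/
def c40_1 : Cert :=
  Cert.ch
    []
    (Tr.lf [(124, 1)],
      Tr.lf [(17, 1)])

/-- Certificate, degree 40, type 2. -/
def c40_2 : Cert :=
  Cert.void (Tr.dead 1)

/-- Degree 40. -/
def en40 : Entry := ⟨par 40, rows 40, c40_0, c40_1, c40_2⟩

theorem en40_ok : en40.chk g5 0 box5 = true := by decide +kernel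

/-- Certificate, degree 41, type 0. -/
def c41_0 : Cert :=
  Cert.ch
    []
    (Tr.lf [(101, 1)],
      Tr.lf [])

/-- Certificate, degree 41, type 1. -/
def c41_1 : Cert :=
  Cert.ch
    []
    (Tr.lf [(136, 1)],
      Tr.lf [(17, 1)])

/-- Certificate, degree 41, type 2. -/
def c41_2 : Cert :=
  Cert.void (Tr.dead 1)

/-- Degree 41. -/
def en41 : Entry := ⟨par 41, rows 41, c41_0, c41_1, c41_2⟩

theorem en41_ok : en41.chk g5 0 box5 = true := by decide +kernel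

/-- Certificate, degree 42, type 0. -/
def c42_0 : Cert :=
  Cert.ch
    []
    (Tr.lf [(112, 1)],
      Tr.lf [])

/-- Certificate, degree 42, type 1. -/
def c42_1 : Cert :=
  Cert.ch
    []
    (Tr.lf [(149, 1)],
      Tr.lf [(17, 1)])

/-- Certificate, degree 42, type 2. -/
def c42_2 : Cert :=
  Cert.void (Tr.dead 1)

/-- Degree 42. -/
def en42 : Entry := ⟨par 42, rows 42, c42_0, c42_1, c42_2⟩

theorem en42_ok : en42.chk g5 0 box5 = true := by decide +kernel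

/-- Certificate, degree 43, type 0. -/
def c43_0 : Cert :=
  Cert.ch
    []
    (Tr.lf [(124, 1)],
      Tr.lf [])

/-- Certificate, degree 43, type 1. -/
def c43_1 : Cert :=
  Cert.ch
    []
    (Tr.lf [(163, 1)],
      Tr.lf [(16, 1)])

/-- Certificate, degree 43, type 2. -/
def c43_2 : Cert :=
  Cert.void (Tr.dead 1)

/-- Degree 43. -/
def en43 : Entry := ⟨par 43, rows 43, c43_0, c43_1, c43_2⟩

theorem en43_ok : en43.chk g5 0 box5 = true := by decide +kernel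

/-- Certificate, degree 44, type 0. -/
def c44_0 : Cert :=
  Cert.ch
    []
    (Tr.lf [(137, 1)],
      Tr.lf [])

/-- Certificate, degree 44, type 1. -/
def c44_1 : Cert :=
  Cert.ch
    []
    (Tr.lf [(178, 1)],
      Tr.lf [(16, 1)])

/-- Certificate, degree 44, type 2. -/
def c44_2 : Cert :=
  Cert.void (Tr.dead 1)

/-- Degree 44. -/
def en44 : Entry := ⟨par 44, rows 44, c44_0, c44_1, c44_2⟩

theorem en44_ok : en44.chk g5 0 box5 = true := by decide +kernel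

/-- Certificate, degree 45, type 0. -/
def c45_0 : Cert :=
  Cert.ch
    []
    (Tr.lf [(151, 1)],
      Tr.lf [])

/-- Certificate, degree 45, type 1. -/
def c45_1 : Cert :=
  Cert.ch
    []
    (Tr.lf [(193, 1)],
      Tr.lf [(16, 1)])

/-- Certificate, degree 45, type 2. -/
def c45_2 : Cert :=
  Cert.void (Tr.dead 1)

/-- Degree 45. -/
def en45 : Entry := ⟨par 45, rows 45, c45_0, c45_1, c45_2⟩

theorem en45_ok : en45.chk g5 0 box5 = true := by decide +kernel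

/-- Certificate, degree 46, type 0. -/
def c46_0 : Cert :=
  Cert.ch
    []
    (Tr.lf [(165, 1)],
      Tr.lf [])

/-- Certificate, degree 46, type 1. -/
def c46_1 : Cert :=
  Cert.void (Tr.dead 0)

/-- Certificate, degree 46, type 2. -/
def c46_2 : Cert :=
  Cert.void (Tr.dead 1)

/-- Degree 46. -/
def en46 : Entry := ⟨par 46, rows 46, c46_0, c46_1, c46_2⟩

theorem en46_ok : en46.chk g5 0 box5 = true := by decide +kernel

/-- Certificate, degree 47, type 0. -/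
def c47_0 : Cert :=
  Cert.ch
    []
    (Tr.lf [(180, 1)],
      Tr.lf [])

/-- Certificate, degree 47, type 1. -/
def c47_1 : Cert :=
  Cert.void (Tr.dead 0)

/-- Certificate, degree 47, type 2. -/
def c47_2 : Cert :=
  Cert.void (Tr.dead 1)

/-- Degree 47. -/
def en47 : Entry := ⟨par 47, rows 47, c47_0, c47_1, c47_2⟩

theorem en47_ok : en47.chk g5 0 box5 = true := by decide +kernel

/-- Certificate, degree 48, type 0. -/
def c48_0 : Cert :=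
  Cert.void (Tr.dead 0)

/-- Certificate, degree 48, type 1. -/
def c48_1 : Cert :=
  Cert.void (Tr.dead 0)

/-- Certificate, degree 48, type 2. -/
def c48_2 : Cert :=
  Cert.void (Tr.dead 1)

/-- Degree 48. -/
def en48 : Entry := ⟨par 48, rows 48, c48_0, c48_1, c48_2⟩

theorem en48_ok : en48.chk g5 0 box5 = true := by decide +kernel

/-- The table with the degree 0. -/
def tab0 : List (Par × List Row) := (⟨0, 1486 / 1000, 1⟩, []) :: tab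

/-- All entries. -/
def entR : List Entry :=
  [en0, en1, en2, en3, en4, en5, en6, en7, en8, en9, en10, en11, en12, en13, en14, en15, en16, en17, en18, en19, en20, en21, en22, en23, en24, en25, en26, en27, en28, en29, en30, en31, en32, en33, en34, en35, en36, en37, en38, en39, en40, en41, en42, en43, en44, en45, en46, en47, en48]

theorem entR_map : entR.map (fun e => (e.p, e.rows)) = tab0 := rfl

theorem entR_ok : ∀ e ∈ entR, e.chk g5 0 box5 = true := by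
  intro e he
  simp only [entR, List.mem_cons, List.not_mem_nil, or_false] at he
  rcases he with rfl | rfl | rfl | rfl | rfl | rfl | rfl | rfl | rfl | rfl | rfl | rfl | rfl | rfl | rfl | rfl | rfl | rfl | rfl | rfl | rfl | rfl | rfl | rfl | rfl | rfl | rfl | rfl | rfl | rfl | rfl | rfl | rfl | rfl | rfl | rfl | rfl | rfl | rfl | rfl | rfl | rfl | rfl | rfl | rfl | rfl | rfl | rfl | rfl
  · exact en0_ok
  · exact en1_ok
  · exact en2_ok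
  · exact en3_ok
  · exact en4_ok
  · exact en5_ok
  · exact en6_ok
  · exact en7_ok
  · exact en8_ok
  · exact en9_ok
  · exact en10_ok
  · exact en11_ok
  · exact en12_ok
  · exact en13_ok
  · exact en14_ok
  · exact en15_ok
  · exact en16_ok
  · exact en17_ok
  · exact en18_ok
  · exact en19_ok
  · exact en20_ok
  · exact en21_ok
  · exact en22_ok
  · exact en23_ok
  · exact en24_ok
  · exact en25_ok
  · exact en26_ok
  · exact en27_ok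
  · exact en28_ok
  · exact en29_ok
  · exact en30_ok
  · exact en31_ok
  · exact en32_ok
  · exact en33_ok
  · exact en34_ok
  · exact en35_ok
  · exact en36_ok
  · exact en37_ok
  · exact en38_ok
  · exact en39_ok
  · exact en40_ok
  · exact en41_ok
  · exact en42_ok
  · exact en43_ok
  · exact en44_ok
  · exact en45_ok
  · exact en46_ok
  · exact en47_ok
  · exact en48_ok

theorem entR_deg : ∀ d : ℕ, d < 48 → ∃ e ∈ entR, e.p.d = d := by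
  intro d hd
  interval_cases d
  · exact ⟨en0, by simp [entR], rfl⟩
  · exact ⟨en1, by simp [entR], rfl⟩
  · exact ⟨en2, by simp [entR], rfl⟩
  · exact ⟨en3, by simp [entR], rfl⟩
  · exact ⟨en4, by simp [entR], rfl⟩
  · exact ⟨en5, by simp [entR], rfl⟩
  · exact ⟨en6, by simp [entR], rfl⟩
  · exact ⟨en7, by simp [entR], rfl⟩
  · exact ⟨en8, by simp [entR], rfl⟩
  · exact ⟨en9, by simp [entR], rfl⟩
  · exact ⟨en10, by simp [entR], rfl⟩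
  · exact ⟨en11, by simp [entR], rfl⟩
  · exact ⟨en12, by simp [entR], rfl⟩
  · exact ⟨en13, by simp [entR], rfl⟩
  · exact ⟨en14, by simp [entR], rfl⟩
  · exact ⟨en15, by simp [entR], rfl⟩
  · exact ⟨en16, by simp [entR], rfl⟩
  · exact ⟨en17, by simp [entR], rfl⟩
  · exact ⟨en18, by simp [entR], rfl⟩
  · exact ⟨en19, by simp [entR], rfl⟩
  · exact ⟨en20, by simp [entR], rfl⟩
  · exact ⟨en21, by simp [entR], rfl⟩
  · exact ⟨en22, by simp [entR], rfl⟩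
  · exact ⟨en23, by simp [entR], rfl⟩
  · exact ⟨en24, by simp [entR], rfl⟩
  · exact ⟨en25, by simp [entR], rfl⟩
  · exact ⟨en26, by simp [entR], rfl⟩
  · exact ⟨en27, by simp [entR], rfl⟩
  · exact ⟨en28, by simp [entR], rfl⟩
  · exact ⟨en29, by simp [entR], rfl⟩
  · exact ⟨en30, by simp [entR], rfl⟩
  · exact ⟨en31, by simp [entR], rfl⟩
  · exact ⟨en32, by simp [entR], rfl⟩
  · exact ⟨en33, by simp [entR], rfl⟩
  · exact ⟨en34, by simp [entR], rfl⟩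
  · exact ⟨en35, by simp [entR], rfl⟩
  · exact ⟨en36, by simp [entR], rfl⟩
  · exact ⟨en37, by simp [entR], rfl⟩
  · exact ⟨en38, by simp [entR], rfl⟩
  · exact ⟨en39, by simp [entR], rfl⟩
  · exact ⟨en40, by simp [entR], rfl⟩
  · exact ⟨en41, by simp [entR], rfl⟩
  · exact ⟨en42, by simp [entR], rfl⟩
  · exact ⟨en43, by simp [entR], rfl⟩
  · exact ⟨en44, by simp [entR], rfl⟩
  · exact ⟨en45, by simp [entR], rfl⟩
  · exact ⟨en46, by simp [entR], rfl⟩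
  · exact ⟨en47, by simp [entR], rfl⟩

/-- **LINE for the range (R1).** -/
theorem line5 : LineS g5 tab0 (4999 / 1000) (10001 / 1000) (500 / 1000) (1010 / 1000) := by
  have h := lineS_of_chk (g := g5) (fuel := 0) (q0 := 4999) (q1 := 10001) (s0 := 500) (s1 := 1010)
    (m := 1000) (D := 48) entR (by norm_num) (by norm_num) (by norm_num)
    (by norm_num [g5]) entR_ok entR_deg (by norm_num [g5])
  rw [entR_map] at h
  have e1 : ((4999 : ℤ) : ℚ) / ((1000 : ℕ) : ℚ) = 4999 / 1000 := by norm_num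
  have e2 : ((10001 : ℤ) : ℚ) / ((1000 : ℕ) : ℚ) = 10001 / 1000 := by norm_num
  have e3 : ((500 : ℤ) : ℚ) / ((1000 : ℕ) : ℚ) = 500 / 1000 := by norm_num
  have e4 : ((1010 : ℤ) : ℚ) / ((1000 : ℕ) : ℚ) = 1010 / 1000 := by norm_num
  rw [e1, e2, e3, e4] at h
  exact h

end Pool.Agent.T6A.C5T
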