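import Pool.Agent.T6A.Cert3Prof
import Pool.Agent.T6A.Cert5Rows
import Pool.Agent.T6A.Line5Data

/-!
# CERT v3, range (R1): PROF for all degrees of the table, and `NumCertR 5 10` (MP_c6effb_co)
-/

set_option autoImplicit false

namespace Pool.Agent.T6A.C5T

open Bern Line3 Cert3 Cert3.ProfG

noncomputable section

/-- The check of the profile for one degree. -/
def pr (d : ℕ) : Bool := row d (Nn d) 1000 (umn d) 100 29 100 5 4 21 50 4 5

theorem pr_a : Bern.tab 1 13 pr = true := by decide +kernel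
theorem pr_b : Bern.tab 13 21 pr = true := by decide +kernel
theorem pr_c : Bern.tab 21 27 pr = true := by decide +kernel
theorem pr_d : Bern.tab 27 33 pr = true := by decide +kernel
theorem pr_e : Bern.tab 33 38 pr = true := by decide +kernel
theorem pr_f : Bern.tab 38 42 pr = true := by decide +kernel
theorem pr_g : Bern.tab 42 46 pr = true := by decide +kernel
theorem pr_h : Bern.tab 46 49 pr = true := by decide +kernel

theorem pr_ok {d : ℕ} (h1 : 1 ≤ d) (h2 : d ≤ 48) : pr d = true := by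
  rcases Nat.lt_or_ge d 13 with h | h
  · exact tab_get pr_a h1 h
  rcases Nat.lt_or_ge d 21 with h' | h'
  · exact tab_get pr_b h h'
  rcases Nat.lt_or_ge d 27 with h | h
  · exact tab_get pr_c h' h
  rcases Nat.lt_or_ge d 33 with h' | h'
  · exact tab_get pr_d h h'
  rcases Nat.lt_or_ge d 38 with h | h
  · exact tab_get pr_e h' h
  rcases Nat.lt_or_ge d 42 with h' | h'
  · exact tab_get pr_f h h'
  rcases Nat.lt_or_ge d 46 with h | h
  · exact tab_get pr_g h' h
  · exact tab_get pr_h h (by omega)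

/-- **PROF for the table.** -/
theorem prof5 {d : ℕ} (h1 : 1 ≤ d) (h2 : d ≤ 48) {om : ℝ} (hom : 4 / 5 ≤ om) :
    ProfOK g5 (5 / 4) (29 / 100) (par d) ((umn d : ℝ) / 100) om := by
  have h := row_prof (ξ := 21 / 25) (om := om) (pr_ok h1 h2) (by norm_num) (by
    have : (4 / 5 : ℝ) ^ 2 ≤ om ^ 2 := pow_le_pow_left₀ (by norm_num) hom 2
    push_cast
    rw [le_div_iff₀ (by norm_num), ← sub_le_iff_le_add', le_div_iff₀ (by norm_num)]
    linarith)
  intro x hx0 hx1 hx
  have eN : ((par d).N : ℝ) = ((Nn d : ℕ) : ℝ) / ((1000 : ℕ) : ℝ) := by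
    simp [par]
  have ed : (par d).d = d := rfl
  have exi : ((g5.xi : ℚ) : ℝ) = 21 / 25 := by norm_num [g5]
  have eX : ((g5.X : ℚ) : ℝ) = 21 / 50 := by norm_num [g5]
  rw [eN] at hx ⊢
  have h3 := h x hx0 hx1 hx
  have eA : AlR (((5 : ℕ) : ℝ) / ((4 : ℕ) : ℝ)) (((29 : ℕ) : ℝ) / ((100 : ℕ) : ℝ)) x
      = AlC (5 / 4) (29 / 100) x := by
    rw [AlC_min (by norm_num) (by norm_num) hx0 hx1]
    simp [AlR]
  rw [eA] at h3
  rw [ed, exi, eX]
  simpa using h3

/-- the check of `ss` -/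
theorem ss_ok : Bern.tab 1 49 (fun d => Nat.ble
    (Nat.mul (Nat.mul (ssn d) (Nat.mul (umn d) (umn d))) (Nat.pow 10000 d))
    (Nat.mul 10000000000 (Nat.sub (Nat.pow 10000 d)
      (Nat.pow (Nat.sub 10000 (Nat.mul (umn d) (umn d))) d)))) = true := by
  decide +kernel

theorem um_ok : Bern.tab 0 49 (fun d => Nat.ble 1 (umn d) && Nat.ble (umn d) 100) = true := by
  decide +kernel

theorem N_ok : Bern.tab 1 49 (fun d => Nat.ble 1100 (Nn d) && Nat.ble 1 (ssn d)) = true := by
  decide +kernel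

theorem um_pos {d : ℕ} (h : d ≤ 48) : 0 < (umn d : ℝ) / 100 ∧ (umn d : ℝ) / 100 ≤ 1 := by
  have h1 := tab_get um_ok (Nat.zero_le d) (by omega : d < 49)
  rw [Bool.and_eq_true] at h1
  have h2 := Nat.le_of_ble_eq_true h1.1
  have h3 := Nat.le_of_ble_eq_true h1.2
  have h4 : (1 : ℝ) ≤ umn d := by exact_mod_cast h2
  have h5 : (umn d : ℝ) ≤ 100 := by exact_mod_cast h3
  constructor
  · positivity
  · rw [div_le_one (by norm_num)]; exact h5

/-- **`ss` of the table is a lower bound.** -/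
theorem ss_le {d : ℕ} (h1 : 1 ≤ d) (h2 : d ≤ 48) :
    (ssn d : ℝ) / 1000000 ≤ KZero.ss d ((umn d : ℝ) / 100) := by
  have h := Nat.le_of_ble_eq_true (tab_get ss_ok h1 (by omega : d < 49))
  have hu := um_pos h2
  have hu1 : umn d ≤ 100 := by
    have := hu.2
    rw [div_le_one (by norm_num)] at this
    exact_mod_cast this
  have hu0 : (0 : ℝ) < umn d := by
    have := hu.1
    rcases lt_or_ge (0 : ℝ) (umn d : ℝ) with h | h
    · exact h
    · exact absurd this (not_lt.2 (div_nonpos_of_nonpos_of_nonneg h (by norm_num)))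
  have h3 : umn d * umn d ≤ 10000 := by nlinarith
  have h4 : (10000 - umn d * umn d) ^ d ≤ 10000 ^ d := Nat.pow_le_pow_left (Nat.sub_le _ _) d
  have h5 : ssn d * (umn d * umn d) * 10000 ^ d ≤
      10000000000 * (10000 ^ d - (10000 - umn d * umn d) ^ d) := h
  have h6 : (ssn d : ℝ) * ((umn d : ℝ) * umn d) * 10000 ^ d ≤
      10000000000 * (10000 ^ d - (10000 - (umn d : ℝ) * umn d) ^ d) := by
    have h7 : ((ssn d * (umn d * umn d) * 10000 ^ d : ℕ) : ℝ) ≤
      ((10000000000 * (10000 ^ d - (10000 - umn d * umn d) ^ d) : ℕ) : ℝ) := by exact_mod_cast h5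
    rw [Nat.cast_mul (10000000000 : ℕ) (10000 ^ d - (10000 - umn d * umn d) ^ d),
      Nat.cast_sub h4, Nat.cast_pow (10000 - umn d * umn d) d, Nat.cast_sub h3] at h7
    push_cast at h7
    exact h7
  unfold KZero.ss
  have e : (1 : ℝ) - ((umn d : ℝ) / 100) ^ 2 = (10000 - (umn d : ℝ) * umn d) / 10000 := by ring
  rw [e, div_pow, le_div_iff₀ (by positivity)]
  have hp : (0 : ℝ) < 10000 ^ d := by positivity
  have e2 : (1 : ℝ) - (10000 - (umn d : ℝ) * umn d) ^ d / 10000 ^ d =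
      (10000 ^ d - (10000 - (umn d : ℝ) * umn d) ^ d) / 10000 ^ d := by
    rw [sub_div, div_self hp.ne']
  rw [e2, le_div_iff₀ hp]
  nlinarith


theorem parOK5 {d : ℕ} (h1 : 1 ≤ d) (h2 : d ≤ 48) :
    ParOK g5 (5 / 4) (29 / 100) (par d) (rows d) := by
  have h := tab_get N_ok h1 (by omega : d < 49)
  rw [Bool.and_eq_true] at h
  have h3 : (1100 : ℝ) ≤ Nn d := by exact_mod_cast Nat.le_of_ble_eq_true h.1
  have h4 : (1 : ℝ) ≤ ssn d := by exact_mod_cast Nat.le_of_ble_eq_true h.2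
  have eN : ((par d).N : ℝ) = (Nn d : ℝ) / 1000 := by simp [par]
  have eS : ((par d).ss : ℝ) = (ssn d : ℝ) / 1000000 := by simp [par]
  constructor
  · rw [eN, le_div_iff₀ (by norm_num)]
    linarith
  · intro _
    refine ⟨(umn d : ℝ) / 100, (um_pos h2).1, (um_pos h2).2, ?_, ?_, ?_, ?_⟩
    · rw [eS]
      positivity
    · rw [eS]
      exact ss_le h1 h2
    · exact prof5 h1 h2 (by norm_num)
    · intro r hr
      have hx : ((g5.x1 : ℚ) : ℝ) * (1 + 4 * (29 / 100)) = 1 := by norm_num [g5]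
      have := (rowOK5 (g := g5) hx h1 hr).mu1
      exact prof5 h1 h2 (by linarith)

theorem parOK0 : ParOK g5 (5 / 4) (29 / 100) ⟨0, 1486 / 1000, 1⟩ [] := by
  constructor
  · norm_num
  · intro h
    exact absurd h (by norm_num)

theorem mem_tab {pr : Par × List Row} (h : pr ∈ tab) :
    ∃ d, 1 ≤ d ∧ d ≤ 48 ∧ pr = (par d, rows d) := by
  unfold tab at h
  rw [List.mem_map] at h
  obtain ⟨d, hd, rfl⟩ := h
  rw [List.mem_range'_1] at hd
  exact ⟨d, hd.1, by omega, rfl⟩

theorem globOK5 : GlobOK g5 (29 / 100) := by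
  constructor <;> norm_num [g5]

/-- **The numerical certificate for `5 k ≤ m ≤ 10 k`.** -/
theorem numCertR_5_10 : NumCertR 5 10 := by
  have hx : ((g5.x1 : ℚ) : ℝ) * (1 + 4 * (29 / 100)) = 1 := by norm_num [g5]
  have hpar : ∀ pr ∈ tab0, ParOK g5 (5 / 4) (29 / 100) pr.1 pr.2 := by
    intro pr hpr
    rcases List.mem_cons.1 hpr with rfl | hpr
    · exact parOK0
    · obtain ⟨d, h1, h2, rfl⟩ := mem_tab hpr
      exact parOK5 h1 h2
  have hrow : ∀ pr ∈ tab0, ∀ r ∈ pr.2, RowOK g5 (5 / 4) (29 / 100) pr.1 r := by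
    intro pr hpr r hr
    rcases List.mem_cons.1 hpr with rfl | hpr
    · exact absurd hr (by simp)
    · obtain ⟨d, h1, h2, rfl⟩ := mem_tab hpr
      exact rowOK5 hx h1 hr
  have hbox : CellBox (4999 / 1000) (10001 / 1000) (500 / 1000) (1010 / 1000) :=
    cellBox_of globOK5 (by norm_num) (by norm_num) line5 hpar hrow
  exact numCertR_of_box hbox (by norm_num) (by norm_num) (by norm_num) (by norm_num)

end

end Pool.Agent.T6A.C5T
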