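import Pool.Agent.T6A.World

/-!
# The selection step (MP_c6effb_co): statement

`Sol` = what the selection of an outcome of the random rule delivers: `T` = the vertices placed
outside `A` (`v` in `b v`), a vertex outside `T` with a neighbour in `T` goes to `g v`, the other
vertices go anywhere in the clusters of `A`.
-/

set_option autoImplicit false

open Finset

namespace Pool.Agent.T6A

noncomputable section

open Classical in
/-- A solution of the low problem. -/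
structure Sol {V ι : Type} [Fintype V] [Fintype ι] (X : World ι) (L : Low V ι) (Bd : ι → ι → Prop)
    (k e : ℝ) (T : Finset V) (g b : V → ι) : Prop where
  tB : ∀ v ∈ T, b v ∈ L.Bv v
  gA : ∀ v, v ∉ T → (∃ u ∈ T, L.G.Adj v u) → g v ∈ L.Av v
  tt : ∀ v ∈ T, ∀ u ∈ T, L.G.Adj v u → ¬ X.F.Adj (b v) (b u) ∧ ¬ Bd (b v) (b u)
  ts : ∀ v ∈ T, ∀ u, u ∉ T → L.G.Adj v u → ¬ X.F.Adj (b v) (g u) ∧ ¬ Bd (b v) (g u)
  ss : ∀ v u, v ∉ T → u ∉ T → L.G.Adj v u → (∃ z ∈ T, L.G.Adj v z) → (∃ z ∈ T, L.G.Adj u z) →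
    ¬ Bd (g v) (g u)
  la : ∀ a ∈ X.A, (#{v | v ∉ T ∧ (∃ u ∈ T, L.G.Adj v u) ∧ g v = a} : ℝ) ≤ (1 - e) * X.w a * k
  lb : ∀ y, y ∉ X.A → (#{v | v ∈ T ∧ b v = y} : ℝ) ≤ (1 - e) * X.w y * k
  lt : (Fintype.card V : ℝ) - #T ≤ (1 - e) * X.sA * k

/-- Statement of SEL: for large `k` every scheme gives a solution. -/
def SelStmt : Prop := ∀ (Q e ε w₀ : ℝ) (C K B M : ℕ), 0 < e → e ≤ 1 / 8 → 0 < w₀ →
  ∃ k₁ : ℝ, ∀ (V ι : Type) [Fintype V] [Fintype ι] (X : World ι) (L : Low V ι)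
    (Bd : ι → ι → Prop) (k : ℝ), k₁ ≤ k → Fintype.card ι ≤ M → (∀ i, w₀ ≤ X.w i) →
    WorldOK X L Bd k Q C K e ε →
    ∀ (Om : Type) [Fintype Om] (p : V → Om → ℝ) (g : (V → Om) → V → ι)
      (b : (V → Om) → V → Option ι) (Bn : V → Finset V) (φ : ι → ι → ℝ),
      Scheme X L Bd k e (e / 16) B p g b Bn φ →
      ∃ (T : Finset V) (g' b' : V → ι), Sol X L Bd k (e / 2) T g' b'

end

end Pool.Agent.T6A
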