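import Pool.Agent.T6A.Low
import Pool.Agent.T6A.Setup

/-!
# From LIM and the selection step to the low problem (MP_c6effb_co)
-/

set_option autoImplicit false

open Finset

namespace Pool.Agent.T6A

open Classical

noncomputable section

variable {Q : ℝ} {C K M : ℕ} {δ₁ δ : ℝ} {V : Type} [Fintype V] {G : SimpleGraph V}

/-- The low vertices. -/
abbrev LowData.Lv (D : LowData Q C K M δ₁ δ G) : Type := {v : V // v ∉ D.Qh}

theorem LowData.wpos' (D : LowData Q C K M δ₁ δ G) (i : D.ι) : 0 < D.w i := by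
  by_contra h
  have h1 := D.wpos i
  have h2 : (M : ℝ) * D.w i ≤ 0 := mul_nonpos_of_nonneg_of_nonpos (Nat.cast_nonneg M) (not_lt.1 h)
  linarith

instance (D : LowData Q C K M δ₁ δ G) : Fintype D.ι := D.ft

/-- The world of the low problem. -/
def LowData.world (D : LowData Q C K M δ₁ δ G) : World D.ι where
  w := D.w
  F := D.F
  A := D.A
  s := ∑ i ∈ D.A, D.w i
  pos := D.wpos'
  tri := D.tri
  ind := D.indA
  max := D.maxA

/-- The low graph of the low problem. -/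
def LowData.low (D : LowData Q C K M δ₁ δ G) : Low D.Lv D.ι where
  G := G.comap Subtype.val
  j v := jHub G D.Gi v.1
  E := univ.filter fun v => v.1 ∈ D.Ex
  Av v := D.A.filter fun i => i ∈ D.Al v.1
  Bv v := univ.filter fun i => v.1 ∉ D.Ex ∧ i ∉ D.A ∧ i ∈ D.Al v.1

theorem LowData.low_d (D : LowData Q C K M δ₁ δ G) (v : D.Lv) : D.low.d v = dLow G D.Qh v.1 := by
  unfold Low.d dLow
  rw [← card_map (Function.Embedding.subtype (fun v => v ∉ D.Qh))]
  congr 1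
  ext u
  simp only [mem_map, mem_filter, mem_univ, true_and, LowData.low, SimpleGraph.comap_adj,
    Function.Embedding.subtype_apply]
  constructor
  · rintro ⟨u', h, rfl⟩
    exact ⟨h, u'.2⟩
  · rintro ⟨h, hu⟩
    exact ⟨⟨u, hu⟩, h, rfl⟩

theorem LowData.card_lv (D : LowData Q C K M δ₁ δ G) :
    (Fintype.card D.Lv : ℝ) = Fintype.card V - D.Qh.card := by
  have h1 : Fintype.card D.Lv = (D.Qhᶜ).card := by
    rw [Fintype.card_subtype]
    congr 1
    ext v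
    simp
  have h2 := card_add_card_compl D.Qh
  rw [h1]
  have h3 : (D.Qh.card : ℝ) + ((D.Qhᶜ).card : ℝ) = Fintype.card V := by exact_mod_cast h2
  linarith

/-- Few hubs. -/
theorem LowData.few_hubs (D : LowData Q C K M δ₁ δ G) {e : ℝ} (hK : 0 < K)
    (hK' : 32 * (C : ℝ) ≤ e * K) : (D.Qh.card : ℝ) ≤ e / 16 * Fintype.card V := by
  have h1 := D.hubs
  have hK0 : (0 : ℝ) < K := by exact_mod_cast hK
  have h2 : 2 * (C : ℝ) * Fintype.card V ≤ (e / 16 * Fintype.card V) * K := by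
    have : 2 * (C : ℝ) ≤ e / 16 * K := by linarith
    have h3 := mul_le_mul_of_nonneg_right this (Nat.cast_nonneg (α := ℝ) (Fintype.card V))
    linarith
  exact le_of_mul_le_mul_right (h1.trans h2) hK0

/-- **WOK.** The hypotheses of LIM hold. -/
theorem LowData.wok (D : LowData Q C K M δ₁ δ G) {e ε : ℝ} (he : 0 < e) (hδe : δ ≤ e)
    (hδε : δ ≤ ε) (hδ₁ : δ₁ ≤ e) (hK : 0 < K) (hK' : 32 * (C : ℝ) ≤ e * K)
    (hV : 0 < Fintype.card V) :
    WorldOK D.world D.low D.Bd (Fintype.card V) Q C K e ε := by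
  have hV0 : (0 : ℝ) < Fintype.card V := by exact_mod_cast hV
  have hq := D.few_hubs hK hK'
  have hnb : ∀ v : D.Lv, D.low.d v ≤ K := by
    intro v
    rw [D.low_d]
    refine (card_le_card ?_).trans (D.deg v.1 v.2)
    intro u hu
    rw [mem_filter] at hu ⊢
    exact ⟨hu.1, hu.2.1⟩
  refine
    { k0 := hV0
      cV := ?_
      cV' := ?_
      tot1 := ?_
      tot2 := ?_
      deg := ?_
      s1 := ?_
      s2 := ?_
      Ec := ?_
      mind := ?_
      dK := hnb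
      jK := ?_
      bsymm := D.bsymm
      brefl := D.brefl
      bsmall := ?_
      AvA := ?_
      Avw := ?_
      BvA := ?_
      BvE := ?_
      Bvw := ?_ }
  · rw [D.card_lv]
    have : (0 : ℝ) ≤ D.Qh.card := Nat.cast_nonneg _
    linarith
  · rw [D.card_lv]
    have : e / 16 * Fintype.card V ≤ e * Fintype.card V := by
      apply mul_le_mul_of_nonneg_right _ hV0.le
      linarith
    linarith
  · have := D.totQ
    change 1 + Q - e ≤ ∑ i, D.w i
    linarith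
  · have := D.totC
    change ∑ i, D.w i ≤ _
    linarith
  · have h1 := D.budget (univ.filter fun v => v ∉ D.Qh) (fun v hv => (mem_filter.1 hv).2)
    have h2 : ∑ v : D.Lv, ((D.low.d v : ℝ) + 2 * D.low.j v) =
        ∑ v ∈ univ.filter (fun v => v ∉ D.Qh), ((dLow G D.Qh v : ℝ) + 2 * jHub G D.Gi v) := by
      have h3 : ∑ v : D.Lv, ((D.low.d v : ℝ) + 2 * D.low.j v) =
          ∑ v : D.Lv, ((dLow G D.Qh v.1 : ℝ) + 2 * jHub G D.Gi v.1) := by
        refine sum_congr rfl fun v _ => ?_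
        rw [D.low_d]
        rfl
      rw [h3, Finset.sum_subtype (univ.filter fun v => v ∉ D.Qh) (p := fun v => v ∉ D.Qh)
        (fun x => by simp) (fun v => ((dLow G D.Qh v : ℝ) + 2 * jHub G D.Gi v))]
    rw [h2]
    refine h1.trans ?_
    change _ ≤ 2 * ((∑ i, D.w i) - 1 + e) * (Fintype.card V : ℝ)
    apply mul_le_mul_of_nonneg_right _ hV0.le
    linarith
  · have := D.half
    change 1 / 2 - e ≤ ∑ i ∈ D.A, D.w i
    linarith
  · change ∑ i ∈ D.A, D.w i - e ≤ ∑ i ∈ D.A, D.w i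
    linarith
  · have h1 : D.low.E.card ≤ D.Ex.card := by
      rw [← card_map (Function.Embedding.subtype (fun v => v ∉ D.Qh))]
      apply card_le_card
      intro u hu
      simp only [mem_map, Function.Embedding.subtype_apply] at hu
      obtain ⟨u', hu', rfl⟩ := hu
      exact (mem_filter.1 hu').2
    have h2 : (D.low.E.card : ℝ) ≤ D.Ex.card := by exact_mod_cast h1
    refine h2.trans (D.exCard.trans ?_)
    exact mul_le_mul_of_nonneg_right hδ₁ hV0.le
  · intro v hv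
    have hv' : v.1 ∉ D.Ex := fun h => hv (mem_filter.2 ⟨mem_univ _, h⟩)
    have h1 := D.degBig v.1 v.2 hv'
    rw [D.low_d]
    change (∑ i, D.w i) - 1 - e ≤ ((dLow G D.Qh v.1 : ℝ) + (jHub G D.Gi v.1 : ℝ)) *
      ((∑ i ∈ D.A, D.w i) + e)
    have h2 : ((dLow G D.Qh v.1 : ℝ) + (jHub G D.Gi v.1 : ℝ)) * ((∑ i ∈ D.A, D.w i) + δ) ≤
        ((dLow G D.Qh v.1 : ℝ) + (jHub G D.Gi v.1 : ℝ)) * ((∑ i ∈ D.A, D.w i) + e) := by
      apply mul_le_mul_of_nonneg_left _ (by positivity)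
      linarith
    linarith
  · intro v
    refine (card_le_card ?_).trans (D.deg v.1 v.2)
    intro u hu
    rw [mem_filter] at hu ⊢
    exact ⟨hu.1, hu.2.1⟩
  · intro i
    exact (D.bsmall i _ (fun j hj => (mem_filter.1 hj).2)).trans hδε
  · intro v
    exact filter_subset _ _
  · intro v
    refine (D.listA v.1 v.2 _ fun i hi => ?_).trans hδε
    rw [mem_sdiff] at hi
    refine ⟨hi.1, fun h => hi.2 ?_⟩
    exact mem_filter.2 ⟨hi.1, h⟩
  · intro v
    rw [disjoint_left]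
    intro i hi hA
    exact (mem_filter.1 hi).2.2.1 hA
  · intro v hv
    rw [eq_empty_iff_forall_notMem]
    intro i hi
    exact (mem_filter.1 hi).2.1 (mem_filter.1 hv).2
  · intro v hv
    have hv' : v.1 ∉ D.Ex := fun h => hv (mem_filter.2 ⟨mem_univ _, h⟩)
    have h1 := D.listB v.1 v.2 hv' (univ.filter (fun i => i ∉ D.world.A ∧ i ∉ D.low.Bv v))
      (fun i hi => ?_)
    · refine h1.trans ?_
      change _ ≤ (if jHub G D.Gi v.1 = 0 then 0 else ∑ i ∈ D.A, D.w i) + e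
      linarith
    · rw [mem_filter] at hi
      refine ⟨hi.2.1, fun h => hi.2.2 ?_⟩
      exact mem_filter.2 ⟨mem_univ _, hv', hi.2.1, h⟩

/-- The way back. -/
theorem LowData.sol (D : LowData Q C K M δ₁ δ G) {e : ℝ} (he : 0 < e) (he8 : e ≤ 1 / 8)
    (hδe : δ ≤ e) (hδ₁ : δ₁ ≤ e / 8) (hK : 0 < K) (hK' : 32 * (C : ℝ) ≤ e * K)
    (T : Finset D.Lv) (g b : D.Lv → D.ι)
    (hs : Sol D.world D.low D.Bd (Fintype.card V) (e / 2) T g b) : LowSol D := by
  have hq := D.few_hubs hK hK'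
  have hsA : 3 / 8 ≤ ∑ i ∈ D.A, D.w i := by
    have := D.half
    linarith
  have hne : Nonempty D.ι := by
    by_contra h
    rw [not_nonempty_iff] at h
    have : ∑ i ∈ D.A, D.w i = 0 := by
      rw [eq_empty_of_isEmpty D.A, sum_empty]
    linarith
  obtain ⟨i₀⟩ := hne
  have hn : (0 : ℝ) ≤ Fintype.card V := Nat.cast_nonneg _
  obtain ⟨T', hT'⟩ : ∃ T' : Finset V,
    T' = T.map (Function.Embedding.subtype (fun v => v ∉ D.Qh)) := ⟨_, rfl⟩
  have hmem : ∀ v : V, v ∈ T' ↔ ∃ h : v ∉ D.Qh, (⟨v, h⟩ : D.Lv) ∈ T := by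
    intro v
    rw [hT', mem_map]
    constructor
    · rintro ⟨u, hu, rfl⟩
      exact ⟨u.2, hu⟩
    · rintro ⟨h, hu⟩
      exact ⟨⟨v, h⟩, hu, rfl⟩
  have hmem' : ∀ v : D.Lv, v.1 ∈ T' ↔ v ∈ T := by
    intro v
    rw [hmem]
    exact ⟨fun ⟨_, h⟩ => h, fun h => ⟨v.2, h⟩⟩
  have hcard : T'.card = T.card := by rw [hT', card_map]
  refine ⟨T', fun v => if h : v ∉ D.Qh then g ⟨v, h⟩ else i₀,
    fun v => if h : v ∉ D.Qh then b ⟨v, h⟩ else i₀, ?_, ?_, ?_, ?_, ?_, ?_, ?_, ?_⟩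
  · intro v hv
    obtain ⟨h, hvT⟩ := (hmem v).1 hv
    have h1 := mem_filter.1 (hs.tB _ hvT)
    simp only [h, dif_pos, not_false_eq_true, true_and]
    exact ⟨h1.2.1, h1.2.2.1, h1.2.2.2⟩
  · rintro v hvT h ⟨u, hu, hadj⟩
    obtain ⟨hu', huT⟩ := (hmem u).1 hu
    have h1 := hs.gA ⟨v, h⟩ (fun h2 => hvT ((hmem' _).2 h2)) ⟨⟨u, hu'⟩, huT, hadj⟩
    simp only [h, dif_pos, not_false_eq_true]
    exact mem_filter.1 h1
  · intro v hv u hu hadj
    obtain ⟨hv', hvT⟩ := (hmem v).1 hv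
    obtain ⟨hu', huT⟩ := (hmem u).1 hu
    simp only [hv', hu', dif_pos, not_false_eq_true]
    exact hs.tt _ hvT _ huT hadj
  · intro v hv u huT hu' hadj
    obtain ⟨hv', hvT⟩ := (hmem v).1 hv
    simp only [hv', hu', dif_pos, not_false_eq_true]
    exact hs.ts _ hvT ⟨u, hu'⟩ (fun h2 => huT ((hmem' _).2 h2)) hadj
  · rintro v u hvT hv' huT hu' hadj ⟨z, hz, hvz⟩ ⟨y, hy, huy⟩
    obtain ⟨hz', hzT⟩ := (hmem z).1 hz
    obtain ⟨hy', hyT⟩ := (hmem y).1 hy
    simp only [hv', hu', dif_pos, not_false_eq_true]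
    exact hs.ss ⟨v, hv'⟩ ⟨u, hu'⟩ (fun h2 => hvT ((hmem' _).2 h2))
      (fun h2 => huT ((hmem' _).2 h2)) hadj ⟨⟨z, hz'⟩, hzT, hvz⟩ ⟨⟨y, hy'⟩, hyT, huy⟩
  · intro a ha S hS
    have h1 := hs.la a ha
    have h2 : S.card ≤ (univ.filter fun v : D.Lv => v ∉ T ∧
        (∃ u ∈ T, D.low.G.Adj v u) ∧ g v = a).card := by
      rw [← card_map (Function.Embedding.subtype (fun v => v ∉ D.Qh))]
      apply card_le_card
      intro v hv
      obtain ⟨h3, h4, ⟨u, hu, hadj⟩, h5⟩ := hS v hv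
      obtain ⟨hu', huT⟩ := (hmem u).1 hu
      rw [mem_map]
      refine ⟨⟨v, h4⟩, mem_filter.2 ⟨mem_univ _, fun h6 => h3 ((hmem' _).2 h6),
        ⟨⟨u, hu'⟩, huT, hadj⟩, ?_⟩, rfl⟩
      simpa only [h4, dif_pos, not_false_eq_true] using h5
    have h3 : (S.card : ℝ) ≤ ((univ.filter fun v : D.Lv => v ∉ T ∧
        (∃ u ∈ T, D.low.G.Adj v u) ∧ g v = a).card : ℝ) := by exact_mod_cast h2
    have h1' : ((univ.filter fun v : D.Lv => v ∉ T ∧
        (∃ u ∈ T, D.low.G.Adj v u) ∧ g v = a).card : ℝ) ≤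
        (1 - e / 2) * D.w a * (Fintype.card V : ℝ) := by
      convert h1
      rfl
    refine h3.trans (h1'.trans ?_)
    apply mul_le_mul_of_nonneg_right _ hn
    apply mul_le_mul_of_nonneg_right _ (D.wpos' a).le
    linarith
  · intro c hc S hS
    have h1 := hs.lb c hc
    have h2 : S.card ≤ (univ.filter fun v : D.Lv => v ∈ T ∧ b v = c).card := by
      rw [← card_map (Function.Embedding.subtype (fun v => v ∉ D.Qh))]
      apply card_le_card
      intro v hv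
      obtain ⟨h3, h5⟩ := hS v hv
      obtain ⟨h4, hvT⟩ := (hmem v).1 h3
      rw [mem_map]
      refine ⟨⟨v, h4⟩, mem_filter.2 ⟨mem_univ _, hvT, ?_⟩, rfl⟩
      simpa only [h4, dif_pos, not_false_eq_true] using h5
    have h3 : (S.card : ℝ) ≤ ((univ.filter fun v : D.Lv => v ∈ T ∧ b v = c).card : ℝ) := by
      exact_mod_cast h2
    have h1' : ((univ.filter fun v : D.Lv => v ∈ T ∧ b v = c).card : ℝ) ≤
        (1 - e / 2) * D.w c * (Fintype.card V : ℝ) := by
      convert h1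
      rfl
    refine h3.trans (h1'.trans ?_)
    apply mul_le_mul_of_nonneg_right _ hn
    apply mul_le_mul_of_nonneg_right _ (D.wpos' c).le
    linarith
  · have h1 := hs.lt
    rw [D.card_lv] at h1
    rw [hcard]
    change (Fintype.card V : ℝ) - D.Qh.card - T.card ≤
      (1 - e / 2) * (∑ i ∈ D.A, D.w i) * (Fintype.card V : ℝ) at h1
    have h2 : e / 16 * (Fintype.card V : ℝ) ≤
        e / 4 * (∑ i ∈ D.A, D.w i) * (Fintype.card V : ℝ) := by
      apply mul_le_mul_of_nonneg_right _ hn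
      nlinarith
    have h3 : (1 - e / 2 + e / 4) * (∑ i ∈ D.A, D.w i) * (Fintype.card V : ℝ) ≤
        (1 - 2 * δ₁) * (∑ i ∈ D.A, D.w i) * (Fintype.card V : ℝ) := by
      apply mul_le_mul_of_nonneg_right _ hn
      apply mul_le_mul_of_nonneg_right _ (by linarith)
      linarith
    nlinarith

/-- The selection step, pointwise: a scheme for the world of `D` solves the low problem. -/
theorem low_of_scheme (hsel : SelStmt) (Q : ℝ) (C K M B : ℕ) (e ε : ℝ) (he : 0 < e)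
    (he8 : e ≤ 1 / 8) (hK : 0 < K) (hK' : 32 * (C : ℝ) ≤ e * K) :
    ∃ k₀ : ℕ, 0 < k₀ ∧ ∀ (δ₁ δ : ℝ), δ₁ ≤ e / 8 → δ ≤ e → δ ≤ ε →
      ∀ (V : Type) [Fintype V] (G : SimpleGraph V) (D : LowData Q C K M δ₁ δ G),
      k₀ ≤ Fintype.card V →
      (WorldOK D.world D.low D.Bd (Fintype.card V) Q C K e ε →
        ∃ (Om : Type) (_ : Fintype Om) (p : D.Lv → Om → ℝ) (g : (D.Lv → Om) → D.Lv → D.ι)
          (b : (D.Lv → Om) → D.Lv → Option D.ι) (Bn : D.Lv → Finset D.Lv) (φ : D.ι → D.ι → ℝ),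
          Scheme D.world D.low D.Bd (Fintype.card V) e (e / 16) B p g b Bn φ) → LowSol D := by
  obtain ⟨k₁, h3⟩ := hsel Q e ε (1 / (2 * M + 1)) C K B M he he8 (by positivity)
  refine ⟨⌈k₁⌉₊ + 1, Nat.succ_pos _, fun δ₁ δ hδ₁ hδe hδε V _ G D hV h2 => ?_⟩
  have hok := D.wok (e := e) (ε := ε) he hδe hδε (by linarith) hK hK' (by omega)
  obtain ⟨Om, _, p, g, b, Bn, φ, hsch⟩ := h2 hok
  obtain ⟨T, g', b', hs⟩ := h3 D.Lv D.ι D.world D.low D.Bd (Fintype.card V) (by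
      have h4 : k₁ ≤ ⌈k₁⌉₊ := Nat.le_ceil _
      have h5 : ((⌈k₁⌉₊ + 1 : ℕ) : ℝ) ≤ Fintype.card V := by exact_mod_cast hV
      push_cast at h5
      linarith) (by
        have h4 := D.few
        convert h4) (fun i => by
      change 1 / (2 * (M : ℝ) + 1) ≤ D.w i
      rw [div_le_iff₀ (by positivity)]
      have h4 := D.wpos i
      have h5 := D.wpos' i
      linarith) hok Om p g b Bn φ hsch
  exact D.sol he he8 hδe hδ₁ hK hK' T g' b' hs

/-- `K₁` is large enough. -/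
theorem large_K {C K : ℕ} {e : ℝ} (he : 0 < e) (hK : ⌈32 * (C : ℝ) / e⌉₊ + 1 ≤ K) :
    0 < K ∧ 32 * (C : ℝ) ≤ e * K := by
  refine ⟨by omega, ?_⟩
  have h4 : 32 * (C : ℝ) / e ≤ ⌈32 * (C : ℝ) / e⌉₊ := Nat.le_ceil _
  have h5 : ((⌈32 * (C : ℝ) / e⌉₊ + 1 : ℕ) : ℝ) ≤ K := by exact_mod_cast hK
  push_cast at h5
  have h6 : 32 * (C : ℝ) / e ≤ K := by linarith
  rw [div_le_iff₀ he] at h6
  linarith

/-- The selection step and LIM solve the low problem. -/
theorem low_of_lim {Q : ℝ} (hsel : SelStmt) (hlim : Lim Q) : LowProb Q := by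
  intro C
  obtain ⟨e, he, he8, h1⟩ := hlim C
  refine ⟨e / 8, by linarith, by linarith, ⌈32 * (C : ℝ) / e⌉₊ + 1, fun K hK => ?_⟩
  obtain ⟨B, ε, hε, h2⟩ := h1 K (e / 16) (by linarith)
  refine ⟨min e ε, lt_min he hε, fun M => ?_⟩
  obtain ⟨hK0, hK'⟩ := large_K he hK
  obtain ⟨k₀, _, h3⟩ := low_of_scheme hsel Q C K M B e ε he he8 hK0 hK'
  exact ⟨k₀, fun V _ G D hV => h3 (e / 8) _ le_rfl (min_le_left _ _) (min_le_right _ _) V G D hV
    fun hok => h2 D.Lv D.ι D.world D.low D.Bd (Fintype.card V) hok⟩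

end

end Pool.Agent.T6A
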