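import Pool.Agent.T6A.MathStmt
import Pool.Agent.T6A.Wok

/-!
# The threshold hypothesis and the statements of round 2 (MP_c6effb_co)

`ThrW`: every degree which occurs often is at least `tot / s - 1`. It comes from the minimality of a
counterexample; with it the chain `Lim → LowProb → CoreEmb` is used down to `Q = 7 / 5`.
-/

set_option autoImplicit false

open Finset

namespace Pool.Agent.T6A

noncomputable section

open Classical in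
/-- The threshold hypothesis for the world. -/
def ThrW {V ι : Type} [Fintype V] [Fintype ι] (X : World ι) (L : Low V ι) (k e : ℝ) : Prop :=
  ∀ d : ℕ, e * k ≤ (#{v | v ∉ L.E ∧ L.d v + L.j v = d} : ℝ) → (1 - e) * X.tot ≤ (1 + d) * (X.s + e)

open Classical in
/-- The threshold hypothesis for the low problem. -/
def ThrD {Q : ℝ} {C K M : ℕ} {δ₁ δ : ℝ} {V : Type} [Fintype V] {G : SimpleGraph V}
    (D : LowData Q C K M δ₁ δ G) (e : ℝ) : Prop :=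
  ∀ d : ℕ, e * Fintype.card V ≤
    (#{v | v ∉ D.Qh ∧ v ∉ D.Ex ∧ dLow G D.Qh v + jHub G D.Gi v = d} : ℝ) →
    (1 - e) * D.world.tot ≤ (1 + d) * (D.world.sA + e)

/-- LIM with the threshold hypothesis. -/
def Lim3 (Q : ℝ) : Prop := ∀ C : ℕ, ∃ e : ℝ, 0 < e ∧ e ≤ 1 / 8 ∧ ∀ (K : ℕ) (ζ : ℝ), 0 < ζ →
  ∃ (B : ℕ) (ε : ℝ), 0 < ε ∧ ∀ (V ι : Type) [Fintype V] [Fintype ι] (X : World ι) (L : Low V ι)
    (Bd : ι → ι → Prop) (k : ℝ), WorldOK X L Bd k Q C K e ε → ThrW X L k e →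
    ∃ (Om : Type) (_ : Fintype Om) (p : V → Om → ℝ) (g : (V → Om) → V → ι)
      (b : (V → Om) → V → Option ι) (Bn : V → Finset V) (φ : ι → ι → ℝ),
      Scheme X L Bd k e ζ B p g b Bn φ

/-- CERT with the threshold hypothesis. -/
def CertStmt3 (Q : ℝ) : Prop := ∀ C : ℕ, ∃ e : ℝ, 0 < e ∧ e ≤ 1 / 8 ∧ ∀ K : ℕ,
  ∃ R η ε : ℝ, 0 < η ∧ 0 < ε ∧ ∀ (V ι : Type) [Fintype V] [Fintype ι] (X : World ι) (L : Low V ι)
    (Bd : ι → ι → Prop) (k : ℝ), WorldOK X L Bd k Q C K e ε → ThrW X L k e → X.s < 1 + 3 * e →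
    ∃ r : V → ι → ℝ, RateOK X L k e R η r

/-- The low problem with the threshold hypothesis; `e₃` = tolerance of the threshold. -/
def LowProb3 (Q : ℝ) : Prop :=
  ∀ C : ℕ, ∃ δ₁ e₃ : ℝ, 0 < δ₁ ∧ δ₁ ≤ 1 / 4 ∧ 0 < e₃ ∧ ∃ K₁ : ℕ, ∀ K : ℕ, K₁ ≤ K →
    ∃ δ : ℝ, 0 < δ ∧ δ ≤ e₃ ∧ ∀ M : ℕ, ∃ k₀ : ℕ, ∀ (V : Type) [Fintype V] (G : SimpleGraph V)
      (D : LowData Q C K M δ₁ δ G), k₀ ≤ Fintype.card V → ThrD D e₃ → LowSol D

end

end Pool.Agent.T6A
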