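import Pool.Agent.T6A.CertAsm3
import Pool.Agent.T6A.Thr3

/-!
# The certificate with the threshold (MP_c6effb_co, CERT v3T)

`NumCertT Q Q'`: the numbers only for the degrees `d` with `(1 - e1) tot ≤ (1 + d) (s + e1)` and
without giants. `CertStmtT Q Q'`: `CertStmt` with the threshold hypothesis, without giants and with
`tot ≤ 1 + Q'`. The vertices of infrequent degrees get the rate `0`.
-/

set_option autoImplicit false
set_option linter.unusedSectionVars false

open Finset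

namespace Pool.Agent.T6A

/-- The numerical certificate with the threshold for one pair `(tot, s)`. -/
def NumCellT (e1 η tot s : ℝ) : Prop :=
  ∃ (ξ sl : ℝ) (Al : ℝ → ℝ), 0 < ξ ∧ 0 ≤ sl ∧ sl ≤ 1 ∧ (∀ x, 1 ≤ Al x) ∧
  ∀ d : ℕ, tot - 1 - e1 ≤ d * (s + e1) → (1 - e1) * tot ≤ (1 + d) * (s + e1) →
    0 < 1 - s + η - sl * (d - 2 * (tot - 1)) →
    ∃ f : ℝ → ℝ, NumVtx3 tot s e1 ξ sl η Al f d 0

/-- The numerical certificate with the threshold for `Q k ≤ m ≤ Q' k`. -/
def NumCertT (Q Q' : ℝ) : Prop := ∃ e1 η : ℝ, 0 < e1 ∧ 0 < η ∧ ∀ tot s : ℝ,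
  1 + Q - e1 ≤ tot → tot ≤ 1 + Q' → 1 / 2 - e1 ≤ s → s ≤ 1 + e1 → NumCellT e1 η tot s

/-- **CERT** with the threshold hypothesis, without giants, for `tot ≤ 1 + Q'`. -/
def CertStmtT (Q Q' : ℝ) : Prop := ∀ C : ℕ, ∃ e : ℝ, 0 < e ∧ e ≤ 1 / 8 ∧ ∀ K : ℕ,
  ∃ R η ε : ℝ, 0 < η ∧ 0 < ε ∧ ∀ (V ι : Type) [Fintype V] [Fintype ι] (X : World ι) (L : Low V ι)
    (Bd : ι → ι → Prop) (k : ℝ), WorldOK X L Bd k Q C K e ε → ThrW X L k e →
    (∀ v, L.j v = 0) → X.tot ≤ 1 + Q' → X.s < 1 + 3 * e → ∃ r : V → ι → ℝ, RateOK X L k e R η r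

namespace CAT

noncomputable section

open Classical

variable {V ι : Type} [Fintype V] [Fintype ι]

/-- **The rates from a choice for every vertex outside `Z`.** -/
theorem rate_core {X : World ι} {L : Low V ι} {Bd : ι → ι → Prop}
    {k Q e ε η1 z ξ sl R : ℝ} {C K : ℕ} {Al : ℝ → ℝ} (hQ : 1 ≤ Q)
    (H : WorldOK X L Bd k Q C K e ε) (he0 : 0 < e) (he8 : e ≤ 1 / 8) (hez : e ≤ z)
    (hz8 : z ≤ 1 / 8) (hzη : z * (16 * C + 20) ≤ η1) (hs3 : X.s < 1 + 3 * e) (hξ : 0 < ξ)
    (hsl0 : 0 ≤ sl) (hsl1 : sl ≤ 1) (hAl : ∀ x, 1 ≤ Al x) (hR : 25 ^ K * (2 * C + 2) ≤ R)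
    (Z : Finset V) (hZ : ((#Z : ℕ) : ℝ) ≤ z * k)
    (hch : ∀ v, ∃ (f : ℝ → ℝ) (lam om um Xx C nuh : ℝ), (∀ x, 0 ≤ f x) ∧ (∀ x, f x ≤ 1) ∧
      (∀ x, 24 / 25 < x → f x = 0) ∧ 2 * lam ≤ 1 - e ∧
      VtxG (∑ b ∈ L.Bv v, CA.wo X b) (∑ b, CA.wo X b * prg X.F X.mu (L.Bv v) f b) (X.s + 25 * e)
        lam om um Xx C nuh ξ Al f #(nbh L.G v) ∧
      (if v ∈ Z then 0 else 1 - X.s + η1 - sl * ((L.d v : ℝ) + 2 * L.j v
          - 2 * (X.tot - 1))) ≤
        2 * (lam * ∑ b, CA.wo X b * prg X.F X.mu (L.Bv v) f b)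
        - lam ^ 2 * ((∑ b, CA.wo X b * prg X.F X.mu (L.Bv v) f b) ^ 2
          + (X.s + 25 * e) * C * (∑ b, CA.wo X b * prg X.F X.mu (L.Bv v) f b)
          + (X.s + 25 * e) ^ 2 * C ^ 2 * Xx ^ 2 / (4 * KZero.ss #(nbh L.G v) um))) :
    ∃ r : V → ι → ℝ, RateOK X L k e R (η1 / 4) r := by
  have hk := H.k0
  have hCC : (0:ℝ) ≤ C := Nat.cast_nonneg C
  have hz0 : 0 < z := he0.trans_le hez
  have hη1 : 0 < η1 := by
    have : 0 < z * (16 * C + 20) := by positivity
    linarith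
  -- basic facts
  have hsA : 0 < X.sA := by
    have h1 := H.s1
    have h2 := H.s2
    linarith
  have hsAs := CA.sA_le X
  have hs0 : 0 < X.s := by linarith
  have hQ' := H.tot1
  have hμ0 := CA.mu_nonneg X
  have hμ1 := CA.mu_sum X hsA
  have hrow : ∀ a, 0 < X.mu a → (∑ c, if X.F.Adj a c then CA.wo X c else 0) ≤ X.s + 25 * e :=
    fun a _ => (CA.rowA X a).trans (by linarith)
  choose f lam om um Xx Cc nuh hf0 hf1 hfc hlam1 hvtx hline using hch
  have hlam0 : ∀ v, 0 ≤ lam v := fun v => (hvtx v).lam0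
  -- properties of the profile
  have hp0 : ∀ v b, 0 ≤ prg X.F X.mu (L.Bv v) (f v) b := fun v b => prg_nonneg (hf0 v) b
  have hp1 : ∀ v b, prg X.F X.mu (L.Bv v) (f v) b ≤ 1 := fun v b => by
    unfold prg
    split_ifs
    · exact hf1 v _
    · exact zero_le_one
  have hnlt : ∀ v b, 0 < f v (nb X.F X.mu b) → nb X.F X.mu b ≤ 24 / 25 := by
    intro v b h
    by_contra hcon
    push Not at hcon
    rw [hfc v _ hcon] at h
    exact lt_irrefl _ h
  have hσb : ∀ b, 0 < CA.wo X b → (∃ v, b ∈ L.Bv v ∧ 0 < f v (nb X.F X.mu b)) →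
      (∑ c, if X.F.Adj b c then CA.wo X c else 0)
        ≤ (X.s + 25 * e) * (1 - nb X.F X.mu b) := by
    rintro b _ ⟨v, _, hv⟩
    obtain ⟨n, hn⟩ : ∃ n, n = nb X.F X.mu b := ⟨_, rfl⟩
    have h1 := hnlt v b hv
    have h2 := CA.rowB X hsA b
    have h3 := nb_nonneg (F := X.F) hμ0 b
    have h4 := H.s2
    rw [← hn] at h1 h2 h3 ⊢
    have h5 : (X.s - e) * n ≤ X.sA * n := mul_le_mul_of_nonneg_right h4 h3
    have h6 : 0 ≤ e * (25 - 26 * n) := mul_nonneg he0.le (by linarith)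
    nlinarith
  -- the rates
  refine ⟨rate X.F L.G X.mu (CA.wo X) fun v b => lam v * prg X.F X.mu (L.Bv v) (f v) b, ?_⟩
  have hh0 : ∀ v b, 0 ≤ lam v * prg X.F X.mu (L.Bv v) (f v) b := fun v b =>
    mul_nonneg (hlam0 v) (hp0 v b)
  have hpos : ∀ v b, 0 < lam v * prg X.F X.mu (L.Bv v) (f v) b →
      nb X.F X.mu b ≤ 24 / 25 := by
    intro v b h
    refine hnlt v b ?_
    have h2 : 0 < prg X.F X.mu (L.Bv v) (f v) b :=
      pos_of_mul_pos_right h (hlam0 v)
    exact (prg_pos h2).2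
  have hr0 : ∀ v b, 0 ≤ rate X.F L.G X.mu (CA.wo X)
      (fun v b => lam v * prg X.F X.mu (L.Bv v) (f v) b) v b := fun v b =>
    rate_nonneg hμ0 hμ1 (CA.wo_nonneg X) hh0 v b
  have hlamle : ∀ v, lam v ≤ 1 := fun v => by have := hlam1 v; linarith
  have hr1 : ∀ v b, rate X.F L.G X.mu (CA.wo X)
      (fun v b => lam v * prg X.F X.mu (L.Bv v) (f v) b) v b ≤ 25 ^ K * CA.wo X b := by
    intro v b
    unfold rate
    rcases (hh0 v b).lt_or_eq with hpb | hz
    · have h1 := hpos v b hpb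
      have h2 : (1:ℝ) / 25 ≤ 1 - nb X.F X.mu b := by linarith
      have h3 : ((1:ℝ) / 25) ^ K ≤ (1 - nb X.F X.mu b) ^ #(nbh L.G v) := by
        have hd : #(nbh L.G v) ≤ K := H.dK v
        calc ((1:ℝ) / 25) ^ K ≤ (1 / 25) ^ #(nbh L.G v) :=
              pow_le_pow_of_le_one (by norm_num) (by norm_num) hd
          _ ≤ _ := pow_le_pow_left₀ (by norm_num) h2 _
      have h5 : 0 < ((1:ℝ) / 25) ^ K := by positivity
      rw [div_le_iff₀ (h5.trans_le h3)]
      have h6 : CA.wo X b * (lam v * prg X.F X.mu (L.Bv v) (f v) b) ≤ CA.wo X b := by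
        refine mul_le_of_le_one_right (CA.wo_nonneg X b) ?_
        exact mul_le_one₀ (hlamle v) (hp0 v b) (hp1 v b)
      have h7 : (25:ℝ) ^ K * ((1:ℝ) / 25) ^ K = 1 := by
        rw [← mul_pow]; norm_num
      calc _ ≤ CA.wo X b := h6
        _ = 25 ^ K * CA.wo X b * ((1:ℝ) / 25) ^ K := by
          rw [mul_right_comm, h7, one_mul]
        _ ≤ _ := mul_le_mul_of_nonneg_left h3
          (mul_nonneg (by positivity) (CA.wo_nonneg X b))
    · have e2 : CA.wo X b * (lam v * prg X.F X.mu (L.Bv v) (f v) b)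
          / (1 - nb X.F X.mu b) ^ #(nbh L.G v) = 0 := by rw [← hz, mul_zero, zero_div]
      exact e2.le.trans (mul_nonneg (by positivity) (CA.wo_nonneg X b))
  have hRle : ∀ y, (25:ℝ) ^ K * (2 * C + 2) * X.w y ≤ R * X.w y :=
    fun y => mul_le_mul_of_nonneg_right hR (X.pos y).le
  constructor
  · exact hr0
  · intro v y hy
    have e2 : prg X.F X.mu (L.Bv v) (f v) y = 0 := by rw [prg, if_neg hy]
    unfold rate
    simp only [e2, mul_zero, zero_div]
  · intro v y
    refine (hr1 v y).trans ?_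
    have h1 : (25:ℝ) ^ K * CA.wo X y ≤ 25 ^ K * X.w y :=
      mul_le_mul_of_nonneg_left (CA.wo_le X y) (by positivity)
    have h2 : (25:ℝ) ^ K * X.w y ≤ 25 ^ K * X.w y * (2 * C + 2) := by
      have := mul_nonneg (by positivity : (0:ℝ) ≤ 25 ^ K) (X.pos y).le
      nlinarith
    calc _ ≤ _ := h1
      _ ≤ _ := h2
      _ = 25 ^ K * (2 * C + 2) * X.w y := by ring
      _ ≤ _ := hRle y
  · intro v
    calc _ ≤ ∑ y, 25 ^ K * CA.wo X y := sum_le_sum fun y _ => hr1 v y
      _ = 25 ^ K * (X.tot - X.sA) := by rw [← mul_sum, CA.sum_wo]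
      _ ≤ 25 ^ K * (2 * C + 2) := by
        refine mul_le_mul_of_nonneg_left ?_ (by positivity)
        have := H.tot2
        linarith
      _ ≤ _ := hR
  · intro v y
    have h1 : rate X.F L.G X.mu (CA.wo X)
        (fun v b => lam v * prg X.F X.mu (L.Bv v) (f v) b) v y
        * (1 - nb X.F X.mu y) ^ #(nbh L.G v)
        = CA.wo X y * (lam v * prg X.F X.mu (L.Bv v) (f v) y) :=
      rate_mul hh0 (fun v b h => by have := hpos v b h; linarith) v y
    have h2 : L.d v = #(nbh L.G v) := rfl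
    rw [h2, h1]
    have h3 : lam v * prg X.F X.mu (L.Bv v) (f v) y ≤ lam v :=
      mul_le_of_le_one_right (hlam0 v) (hp1 v y)
    have h4 := mul_le_mul (CA.wo_le X y) h3 (hh0 v y) (X.pos y).le
    have h5 := mul_le_mul_of_nonneg_right (hlam1 v) (X.pos y).le
    nlinarith
  · intro a ha
    have hpa := CA.mu_pos X hsA ha
    have key := sum_pairB_ge_num (G := L.G) hμ0 hμ1 X.tri hξ hAl
      (CA.wo_nonneg X) (by linarith : 0 ≤ X.s + 25 * e) hrow L.Bv hσb hvtx hpa
    have hcut0 := cut_nonneg (F := X.F) (μ := X.mu) hr0 nuh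
    have hcut1 := cut_le (F := X.F) (μ := X.mu) hr0 nuh
    have hrn : ∀ u c, 0 < rate X.F L.G X.mu (CA.wo X)
        (fun v b => lam v * prg X.F X.mu (L.Bv v) (f v) b) u c → nb X.F X.mu c < 1 := by
      intro u c h
      have h1 : 0 < lam u * prg X.F X.mu (L.Bv u) (f u) c := by
        rcases (hh0 u c).lt_or_eq with h2 | h2
        · exact h2
        · have h3 : lam u * prg X.F X.mu (L.Bv u) (f u) c = 0 := h2.symm
          unfold rate at h
          simp only [h3, mul_zero, zero_div] at h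
          exact absurd h (lt_irrefl _)
      have := hpos u c h1
      linarith
    have hLB : ∑ v, pairB X.F L.G X.mu (rate X.F L.G X.mu (CA.wo X)
          fun v b => lam v * prg X.F X.mu (L.Bv v) (f v) b)
        (brj X.F L.G X.mu (cut X.F X.mu (rate X.F L.G X.mu (CA.wo X)
          fun v b => lam v * prg X.F X.mu (L.Bv v) (f v) b) nuh) a) a v
        ≤ ∑ v, ∑ y, LB X.F L.G X.mu (rate X.F L.G X.mu (CA.wo X)
          fun v b => lam v * prg X.F X.mu (L.Bv v) (f v) b) v a y :=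
      sum_le_sum fun v _ => exp1B hμ0 hμ1 X.tri hr0 hrn hcut0 hcut1 v a
    have hT : ∑ v, (if v ∈ Z then 0 else 1 - X.s + η1 - sl * ((L.d v : ℝ) + 2 * L.j v
          - 2 * (X.tot - 1)))
        ≤ ∑ v, (2 * (lam v * ∑ b, CA.wo X b * prg X.F X.mu (L.Bv v) (f v) b)
        - lam v ^ 2 * ((∑ b, CA.wo X b * prg X.F X.mu (L.Bv v) (f v) b) ^ 2
          + (X.s + 25 * e) * Cc v * (∑ b, CA.wo X b * prg X.F X.mu (L.Bv v) (f v) b)
          + (X.s + 25 * e) ^ 2 * Cc v ^ 2 * Xx v ^ 2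
            / (4 * KZero.ss #(nbh L.G v) (um v)))) :=
      sum_le_sum fun v _ => hline v
    have hall := hT.trans (key.trans hLB)
    -- the arithmetic
    obtain ⟨Nv, hNv⟩ : ∃ Nv : ℝ, Nv = (Fintype.card V : ℝ) := ⟨_, rfl⟩
    have hN1 : Nv ≤ k := hNv ▸ H.cV
    have hN2 : (1 - e) * k ≤ Nv := hNv ▸ H.cV'
    obtain ⟨q, hq⟩ : ∃ q : ℝ, q = X.tot - 1 := ⟨_, rfl⟩
    have hq0 : 0 ≤ q := by rw [hq]; linarith
    have hq1 : q ≤ 2 * C + 1 := by rw [hq]; have := H.tot2; linarith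
    have hsum : Nv * (1 - X.s + η1 + 2 * sl * q) - sl * ∑ v, ((L.d v : ℝ) + 2 * L.j v)
        - ((#Z : ℕ) : ℝ) * (1 - X.s + η1 + 2 * sl * q)
        ≤ ∑ v, (if v ∈ Z then 0 else 1 - X.s + η1 - sl * ((L.d v : ℝ) + 2 * L.j v
          - 2 * (X.tot - 1))) := by
      have h1 : ((#Z : ℕ) : ℝ) * (1 - X.s + η1 + 2 * sl * q)
          = ∑ v, (if v ∈ Z then (1 - X.s + η1 + 2 * sl * q) else 0) := by
        rw [← sum_filter, sum_const, nsmul_eq_mul]
        congr 3
        ext v; simp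
      have h2 : Nv * (1 - X.s + η1 + 2 * sl * q) = ∑ _v : V, (1 - X.s + η1 + 2 * sl * q) := by
        rw [sum_const, nsmul_eq_mul, card_univ, hNv]
      rw [h1, h2, mul_sum, ← sum_sub_distrib, ← sum_sub_distrib]
      refine sum_le_sum fun v _ => ?_
      have h3 : 0 ≤ sl * ((L.d v : ℝ) + 2 * L.j v) := by positivity
      split_ifs
      · linarith
      · rw [hq]
        have : sl * ((L.d v : ℝ) + 2 * L.j v - 2 * (X.tot - 1))
            = sl * ((L.d v : ℝ) + 2 * L.j v) - 2 * sl * (X.tot - 1) := by ring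
        linarith
    have hdeg : ∑ v, ((L.d v : ℝ) + 2 * L.j v) ≤ 2 * (q + e) * k := by
      have := H.deg
      rw [hq]
      exact this
    have hdeg' := mul_le_mul_of_nonneg_left hdeg hsl0
    have hc0 : 0 ≤ 1 - X.s + η1 + 2 * sl * q := by
      have : 0 ≤ sl * q := mul_nonneg hsl0 hq0
      nlinarith
    have hE' := mul_le_mul_of_nonneg_right hZ hc0
    have hfin : Nv - (Nv * (1 - X.s + η1 + 2 * sl * q) - sl * (2 * (q + e) * k)
        - z * k * (1 - X.s + η1 + 2 * sl * q)) ≤ ((1 - e) * X.sA - η1 / 4) * k := by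
      obtain ⟨M, hM⟩ : ∃ M : ℝ, M = k - Nv := ⟨_, rfl⟩
      have hM0 : 0 ≤ M := by linarith
      have hM1 : M ≤ e * k := by linarith
      have hslq : 0 ≤ sl * q := mul_nonneg hsl0 hq0
      have hslq1 : sl * q ≤ 2 * C + 1 := (mul_le_of_le_one_left hq0 hsl1).trans hq1
      have hzk : 0 ≤ z * k := mul_nonneg hz0.le hk.le
      have hekz : e * k ≤ z * k := mul_le_mul_of_nonneg_right hez hk.le
      have ha : M * (η1 + 2 * (sl * q)) ≤ z * k * (η1 + 2 * (2 * C + 1)) := by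
        refine mul_le_mul (hM1.trans hekz) (by linarith) (by positivity) hzk
      have hb : 0 ≤ M * X.s := mul_nonneg hM0 hs0.le
      have hek : 0 ≤ e * k := mul_nonneg he0.le hk.le
      have hc1 : z * k * (sl * q) ≤ z * k * (2 * C + 1) :=
        mul_le_mul_of_nonneg_left hslq1 hzk
      have hd : sl * (e * k) ≤ z * k := (mul_le_of_le_one_left hek hsl1).trans hekz
      have he' : z * (16 * C + 20) * k ≤ η1 * k := mul_le_mul_of_nonneg_right hzη hk.le
      have hf : z * (η1 * k) ≤ 1 / 8 * (η1 * k) :=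
        mul_le_mul_of_nonneg_right hz8 (by positivity)
      have hg : (1 - e) * (X.s - e) * k ≤ (1 - e) * X.sA * k := by
        refine mul_le_mul_of_nonneg_right (mul_le_mul_of_nonneg_left ?_ (by linarith)) hk.le
        have := H.s2
        linarith
      have hee : 0 ≤ e * e * k := by positivity
      have hes : e * k * (1 + X.s) ≤ z * k * (1 + X.s) :=
        mul_le_mul_of_nonneg_right hekz (by linarith)
      have hzC : 0 ≤ z * k * C := mul_nonneg hzk hCC
      -- collect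
      have h1 : Nv - (Nv * (1 - X.s + η1 + 2 * sl * q) - sl * (2 * (q + e) * k)
          - z * k * (1 - X.s + η1 + 2 * sl * q))
          = k * X.s - k * η1 - M * X.s + M * (η1 + 2 * (sl * q)) + 2 * (sl * (e * k))
            + z * k * (1 - X.s + η1) + 2 * (z * k * (sl * q)) := by
        have hNM : Nv = k - M := by linarith
        rw [hNM]; ring
      have h2 : (1 - e) * (X.s - e) * k = k * X.s - e * k * (1 + X.s) + e * e * k := by ring
      have h3 : z * k * (η1 + 2 * (2 * C + 1)) = z * (η1 * k) + 4 * (z * k * C) + 2 * (z * k) := by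
        ring
      have h4 : z * k * (1 - X.s + η1) = z * k - z * k * X.s + z * (η1 * k) := by ring
      have h5 : z * k * (2 * C + 1) = 2 * (z * k * C) + z * k := by ring
      have h6 : z * (16 * C + 20) * k = 16 * (z * k * C) + 20 * (z * k) := by ring
      have h7 : ((1 - e) * X.sA - η1 / 4) * k = (1 - e) * X.sA * k - η1 * k / 4 := by ring
      have h8 : e * k * (1 + X.s) = e * k + e * k * X.s := by ring
      have h9 : z * k * (1 + X.s) = z * k + z * k * X.s := by ring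
      rw [h1, h7]
      rw [h2] at hg
      rw [h3] at ha
      rw [h5] at hc1
      rw [h6] at he'
      rw [h4]
      rw [h9] at hes
      linarith
    have hres : (Fintype.card V : ℝ) - ∑ v, ∑ y, LB X.F L.G X.mu (rate X.F L.G X.mu (CA.wo X)
          fun v b => lam v * prg X.F X.mu (L.Bv v) (f v) b) v a y
        ≤ ((1 - e) * X.sA - η1 / 4) * k := by
      rw [← hNv]
      linarith
    exact hres

/-- The vertices with an infrequent degree below the threshold. -/
theorem card_low_le {X : World ι} {L : Low V ι} {Bd : ι → ι → Prop} {k Q e ε : ℝ} {C K : ℕ}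
    (H : WorldOK X L Bd k Q C K e ε) (hT : ThrW X L k e) (he0 : 0 < e) (he8 : e ≤ 1 / 8) :
    ((#(univ.filter fun v => v ∉ L.E ∧ (1 + ((L.d v + L.j v : ℕ) : ℝ)) * (X.s + e)
      < (1 - e) * X.tot) : ℕ) : ℝ) ≤ (4 * C + 4) * (e * k) := by
  obtain ⟨S, hS⟩ : ∃ S : Finset V, S = univ.filter fun v => v ∉ L.E ∧
    (1 + ((L.d v + L.j v : ℕ) : ℝ)) * (X.s + e) < (1 - e) * X.tot := ⟨_, rfl⟩
  rw [← hS]
  have htot0 : 0 ≤ X.tot := by
    unfold World.tot
    exact sum_nonneg fun i _ => (X.pos i).le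
  have hbound : ∀ v ∈ S, L.d v + L.j v ∈ range (4 * C + 4) := by
    intro v hv
    rw [hS, mem_filter] at hv
    obtain ⟨_, _, h1⟩ := hv
    rw [mem_range]
    have h2 := H.tot2
    have h3 := H.s1
    have h5 : (1 + ((L.d v + L.j v : ℕ) : ℝ)) * (1 / 2)
        ≤ (1 + ((L.d v + L.j v : ℕ) : ℝ)) * (X.s + e) :=
      mul_le_mul_of_nonneg_left (by linarith) (by positivity)
    have h6 : (1 - e) * X.tot ≤ X.tot := by nlinarith
    have h7 : ((L.d v + L.j v : ℕ) : ℝ) < ((4 * C + 4 : ℕ) : ℝ) := by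
      push_cast at h1 h5 ⊢
      linarith
    exact_mod_cast h7
  rw [card_eq_sum_card_fiberwise (f := fun v => L.d v + L.j v) (t := range (4 * C + 4))
    fun v hv => hbound v hv]
  push_cast
  calc ∑ d ∈ range (4 * C + 4), ((#(S.filter fun v => L.d v + L.j v = d) : ℕ) : ℝ)
      ≤ ∑ d ∈ range (4 * C + 4), e * k := by
        refine sum_le_sum fun d _ => ?_
        by_cases hd : (1 - e) * X.tot ≤ (1 + d) * (X.s + e)
        · have : S.filter (fun v => L.d v + L.j v = d) = ∅ := by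
            refine filter_eq_empty_iff.2 fun v hv hvd => ?_
            rw [hS, mem_filter] at hv
            rw [hvd] at hv
            exact absurd hv.2.2 (not_lt.2 hd)
          rw [this, card_empty, Nat.cast_zero]
          exact mul_nonneg he0.le H.k0.le
        · have h1 : ¬ e * k ≤ (#{v | v ∉ L.E ∧ L.d v + L.j v = d} : ℝ) := fun h => hd (hT d h)
          push Not at h1
          refine le_trans ?_ h1.le
          have : #(S.filter fun v => L.d v + L.j v = d)
              ≤ #(univ.filter fun v => v ∉ L.E ∧ L.d v + L.j v = d) := by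
            refine card_le_card fun v hv => ?_
            rw [mem_filter] at hv ⊢
            rw [hS, mem_filter] at hv
            exact ⟨mem_univ _, hv.1.2.1, hv.2⟩
          exact_mod_cast this
    _ = (4 * C + 4) * (e * k) := by
        rw [sum_const, card_range, nsmul_eq_mul]; push_cast; ring

/-- **CERT with the threshold from the numbers.** -/
theorem cert_of_numT {Q Q' : ℝ} (hQ : 1 ≤ Q) (hN : NumCertT Q Q') : CertStmtT Q Q' := by
  intro C
  obtain ⟨e1, η1, he1, hη1, hnum⟩ := hN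
  have hCC : (0:ℝ) ≤ C := Nat.cast_nonneg C
  obtain ⟨e, he⟩ : ∃ e : ℝ, e = min ((1:ℝ) / (8 * (4 * (C:ℝ) + 5)))
    (min (e1 / 75) (η1 / ((4 * (C:ℝ) + 5) * (16 * (C:ℝ) + 20)))) := ⟨_, rfl⟩
  have he0 : 0 < e := by
    rw [he]
    refine lt_min (by positivity) (lt_min (by positivity) (by positivity))
  have hz8 : (4 * C + 5) * e ≤ 1 / 8 := by
    have : e ≤ 1 / (8 * (4 * C + 5)) := by rw [he]; exact min_le_left _ _
    rw [le_div_iff₀ (by positivity)] at this
    linarith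
  have he3 : 75 * e ≤ e1 := by
    have : e ≤ e1 / 75 := by rw [he]; exact (min_le_right _ _).trans (min_le_left _ _)
    linarith
  have hzη : (4 * C + 5) * e * (16 * C + 20) ≤ η1 := by
    have : e ≤ η1 / ((4 * C + 5) * (16 * C + 20)) := by
      rw [he]; exact (min_le_right _ _).trans (min_le_right _ _)
    rw [le_div_iff₀ (by positivity)] at this
    linarith
  have hez : e ≤ (4 * C + 5) * e := by nlinarith
  have he8 : e ≤ 1 / 8 := hez.trans hz8
  refine ⟨e, he0, he8, fun K => ⟨25 ^ K * (2 * C + 2), η1 / 4, 1, by positivity, one_pos, ?_⟩⟩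
  intro V ι _ _ X L Bd k H hThr hj hQ' hs3
  have hk := H.k0
  have hsA : 0 < X.sA := by
    have h1 := H.s1
    have h2 := H.s2
    linarith
  have htot := H.tot1
  have htot0 : 0 ≤ X.tot := by linarith
  obtain ⟨ξ, sl, Al, hξ, hsl0, hsl1, hAl, hd⟩ := hnum X.tot X.s (by linarith) hQ'
    (by have := H.s1; linarith) (by linarith)
  obtain ⟨Z, hZ⟩ : ∃ Z : Finset V, Z = L.E ∪ univ.filter fun v => v ∉ L.E ∧
    (1 + ((L.d v + L.j v : ℕ) : ℝ)) * (X.s + e) < (1 - e) * X.tot := ⟨_, rfl⟩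
  have hZc : ((#Z : ℕ) : ℝ) ≤ (4 * C + 5) * e * k := by
    have h1 : #Z ≤ #L.E + #(univ.filter fun v => v ∉ L.E ∧
      (1 + ((L.d v + L.j v : ℕ) : ℝ)) * (X.s + e) < (1 - e) * X.tot) := by
      rw [hZ]; exact card_union_le _ _
    have h2 : ((#Z : ℕ) : ℝ) ≤ (#L.E : ℝ) + (#(univ.filter fun v => v ∉ L.E ∧
      (1 + ((L.d v + L.j v : ℕ) : ℝ)) * (X.s + e) < (1 - e) * X.tot) : ℝ) := by
      exact_mod_cast h1
    have h3 := card_low_le H hThr he0 he8
    have h4 : (#L.E : ℝ) ≤ e * k := H.Ec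
    have h5 : (4 * C + 5) * e * k = (4 * C + 4) * (e * k) + e * k := by ring
    rw [h5]
    linarith
  refine rate_core hQ H he0 he8 hez hz8 hzη hs3 hξ hsl0 hsl1 hAl le_rfl Z hZc ?_
  intro v
  by_cases hv : v ∉ Z ∧ 0 < 1 - X.s + η1 - sl * ((L.d v : ℝ) + 2 * L.j v
      - 2 * (X.tot - 1))
  · obtain ⟨hvZ, hline⟩ := hv
    have hvE : v ∉ L.E := fun h => hvZ (by rw [hZ]; exact mem_union_left _ h)
    have hthr : (1 - e) * X.tot ≤ (1 + ((L.d v + L.j v : ℕ) : ℝ)) * (X.s + e) := by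
      by_contra hcon
      push Not at hcon
      exact hvZ (by rw [hZ]; exact mem_union_right _ (mem_filter.2 ⟨mem_univ _, hvE, hcon⟩))
    rw [hj v] at hthr hline
    simp only [add_zero, Nat.cast_zero, mul_zero] at hthr hline
    have hmind : X.tot - 1 - e1 ≤ (L.d v : ℝ) * (X.s + e1) := by
      have h1 := H.mind v hvE
      rw [hj v] at h1
      simp only [Nat.cast_zero, add_zero] at h1
      have h2 : (L.d v : ℝ) * (X.s + e) ≤ (L.d v : ℝ) * (X.s + e1) :=
        mul_le_mul_of_nonneg_left (by linarith) (by positivity)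
      linarith
    have hthr1 : (1 - e1) * X.tot ≤ (1 + (L.d v : ℝ)) * (X.s + e1) := by
      have h1 : (1 - e1) * X.tot ≤ (1 - e) * X.tot :=
        mul_le_mul_of_nonneg_right (by linarith) htot0
      have h2 : (1 + (L.d v : ℝ)) * (X.s + e) ≤ (1 + (L.d v : ℝ)) * (X.s + e1) :=
        mul_le_mul_of_nonneg_left (by linarith) (by positivity)
      linarith
    have hmiss := H.Bvw v hvE
    rw [hj v] at hmiss
    have hc := CA3.choice (X := X) (B := L.Bv v) (j := 0) hsA he0.le (by linarith) H.s2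
      hmiss (hd (L.d v) hmind hthr1 hline)
    rw [if_neg hvZ, hj v]
    exact hc
  · refine ⟨fun _ => 0, 0, 1, 1, 0, 0, 1 / 2, fun _ => le_rfl, fun _ => zero_le_one,
      fun _ _ => rfl, by linarith, CA3.vtxG_zero Al _, ?_⟩
    have e2 : ∑ b, CA.wo X b * prg X.F X.mu (L.Bv v) (fun _ => (0:ℝ)) b = 0 :=
      sum_eq_zero fun b _ => by unfold prg; split_ifs <;> simp
    rw [e2]
    simp only [mul_zero, ne_eq, OfNat.ofNat_ne_zero, not_false_eq_true, zero_pow, zero_mul,
      sub_zero]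
    split_ifs with hvE
    · exact le_rfl
    · by_contra hcon
      push Not at hcon
      exact hv ⟨hvE, hcon⟩

end

end CAT

end Pool.Agent.T6A
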