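import Mathlib

/-!
# The profile inequality (C1) for all degrees (MP_c6effb_co)

`Nd D = max (57/20) (31/20 + D/7)`. For every natural number `D ≥ 1` and `0 ≤ n`, `Nd D * n ≤ 1`, `y = 1 - n`:
`(1 - Nd D n) ((y^(-D) - 1) / (81/100) + D (1 + 7 n / (10 y))² (y + 1/y) / 2) ≤ D`.

Proof: `n ≤ 1/100` by Bernoulli (`small`); `D < 120` by a grid of cells `[i/N, (i+1)/N]` (`cell`), the cells
are checked by the kernel in natural numbers (`chk`); `D ≥ 120` by one inequality in `s = - D log y` (`tail`).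
-/

set_option autoImplicit false

namespace Pool.Agent.T6A.Cert

/-- the slope of the linear profile -/
noncomputable def Nd (D : ℕ) : ℝ := max (57 / 20) (31 / 20 + D / 7)

namespace C1

/-- The cell check at degree `D`, slope `I / R`, cell `[i / N, (i + 1) / N]`. -/
def chk (N I R D i : ℕ) : Bool :=
  let m := N - (i + 1)
  let rn := (10 * m + 7 * (i + 1)) ^ 2 * (m ^ 2 + N ^ 2)
  let rd := 200 * m ^ 3 * N
  let y := m ^ D
  Nat.ble ((R * N - i * I) * (81 * D * rn * y + 100 * rd * (N ^ D - y)))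
    (R * N * 81 * D * rd * y)

/-- all cells `i0 + j`, `j < n` -/
def row (N I R D i0 : ℕ) : ℕ → Bool
  | 0 => true
  | n + 1 => chk N I R D (i0 + n) && row N I R D i0 n

theorem row_spec {N I R D i0 : ℕ} : ∀ {n : ℕ}, row N I R D i0 n = true →
    ∀ j < n, chk N I R D (i0 + j) = true
  | 0, _, j, hj => absurd hj (Nat.not_lt_zero _)
  | n + 1, h, j, hj => by
    rw [row, Bool.and_eq_true] at h
    rcases Nat.lt_succ_iff_lt_or_eq.1 hj with h1 | h1
    · exact row_spec h.2 j h1
    · rw [h1]; exact h.1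

/-- the factor `rho` -/
noncomputable def rho (n : ℝ) : ℝ := (1 + 7 / 10 * (n / (1 - n))) ^ 2 * (((1 - n) + (1 - n)⁻¹) / 2)

theorem rho_mono {n n' : ℝ} (hn : 0 ≤ n) (h : n ≤ n') (h1 : n' < 1) : rho n ≤ rho n' := by
  unfold rho
  have hy : 0 < 1 - n' := by linarith
  have hy2 : 0 < 1 - n := by linarith
  have h2 : (1 - n) + (1 - n)⁻¹ ≤ (1 - n') + (1 - n')⁻¹ := by
    have e : (1 - n') + (1 - n')⁻¹ - ((1 - n) + (1 - n)⁻¹) =
        (n' - n) * (1 / ((1 - n) * (1 - n')) - 1) := by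
      field_simp
      ring
    have h3 : 1 ≤ 1 / ((1 - n) * (1 - n')) := by
      rw [le_div_iff₀ (by positivity)]
      nlinarith
    nlinarith
  have h3 : n / (1 - n) ≤ n' / (1 - n') := by
    rw [div_le_div_iff₀ hy2 hy]
    nlinarith
  have h4 : 0 ≤ n / (1 - n) := by positivity
  apply mul_le_mul _ _ (by positivity) (by positivity)
  · apply pow_le_pow_left₀ (by positivity)
    linarith
  · linarith

/-- one cell -/
theorem cell {N I R D i : ℕ} (hN : 0 < N) (hR : 0 < R) (hD : 0 < D) (hi : i + 1 < N)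
    (h : chk N I R D i = true) {n : ℝ} (hn : (i : ℝ) / N ≤ n) (hn' : n ≤ ((i + 1 : ℕ) : ℝ) / N)
    (hl : n * ((I : ℝ) / R) ≤ 1) :
    (1 - n * ((I : ℝ) / R)) * (81 / 100 * D * rho n + ((1 - n) ^ D)⁻¹ - 1) ≤ 81 / 100 * D := by
  have hN' : (0 : ℝ) < N := by exact_mod_cast hN
  have hR' : (0 : ℝ) < R := by exact_mod_cast hR
  have hD' : (0 : ℝ) < D := by exact_mod_cast hD
  have hI : (0 : ℝ) ≤ (I : ℝ) := by positivity
  obtain ⟨m, hm⟩ : ∃ m : ℕ, m = N - (i + 1) := ⟨_, rfl⟩
  have hm0 : 0 < m := by omega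
  have hmN : m + (i + 1) = N := by omega
  have hm' : (0 : ℝ) < m := by exact_mod_cast hm0
  have hmN' : (m : ℝ) + (i + 1) = N := by exact_mod_cast hmN
  have hn0 : 0 ≤ n := le_trans (by positivity) hn
  have hin : (i : ℝ) * I ≤ R * N := by
    have h1 : (i : ℝ) / N * ((I : ℝ) / R) ≤ 1 := by
      refine le_trans ?_ hl
      exact mul_le_mul_of_nonneg_right hn (by positivity)
    rw [div_mul_div_comm, div_le_one (by positivity)] at h1
    linarith
  have hin2 : i * I ≤ R * N := by exact_mod_cast hin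
  have hmle : m ^ D ≤ N ^ D := Nat.pow_le_pow_left (by omega) D
  unfold chk at h
  rw [← hm] at h
  have h2 := Nat.le_of_ble_eq_true h
  obtain ⟨rn, hrn⟩ : ∃ x : ℕ, x = (10 * m + 7 * (i + 1)) ^ 2 * (m ^ 2 + N ^ 2) := ⟨_, rfl⟩
  obtain ⟨rd, hrd⟩ : ∃ x : ℕ, x = 200 * m ^ 3 * N := ⟨_, rfl⟩
  rw [← hrn, ← hrd] at h2
  have hrd0 : 0 < rd := by rw [hrd]; positivity
  have hrd' : (0 : ℝ) < rd := by exact_mod_cast hrd0
  have h3 : ((R * N - i * I : ℝ)) * (81 * D * rn * (m : ℝ) ^ D +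
      100 * rd * ((N : ℝ) ^ D - (m : ℝ) ^ D)) ≤ R * N * 81 * D * rd * (m : ℝ) ^ D := by
    have := (Nat.cast_le (α := ℝ)).2 h2
    push_cast [Nat.cast_sub hin2, Nat.cast_sub hmle] at this
    linarith
  have e1 : 1 - ((i + 1 : ℕ) : ℝ) / N = m / N := by
    rw [eq_div_iff hN'.ne', sub_mul, div_mul_cancel₀ _ hN'.ne']
    push_cast
    linarith
  have hrr : rho (((i + 1 : ℕ) : ℝ) / N) = (rn : ℝ) / rd := by
    unfold rho
    rw [e1, hrn, hrd]
    push_cast
    field_simp
    ring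
  have hY : ((1 - ((i + 1 : ℕ) : ℝ) / N) ^ D)⁻¹ = (N : ℝ) ^ D / (m : ℝ) ^ D := by
    rw [e1, div_pow, inv_div]
  have hr1 : ((i + 1 : ℕ) : ℝ) / N < 1 := by
    rw [div_lt_one hN']
    exact_mod_cast hi
  have m1 : rho n ≤ (rn : ℝ) / rd := by
    rw [← hrr]
    exact rho_mono hn0 hn' hr1
  have m2 : ((1 - n) ^ D)⁻¹ ≤ (N : ℝ) ^ D / (m : ℝ) ^ D := by
    rw [← hY]
    have : 0 < 1 - ((i + 1 : ℕ) : ℝ) / N := by linarith
    gcongr
  have hYm : (1 : ℝ) ≤ (N : ℝ) ^ D / (m : ℝ) ^ D := by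
    rw [le_div_iff₀ (by positivity), one_mul]
    exact_mod_cast hmle
  obtain ⟨L0, hL0⟩ : ∃ x : ℝ, x = 1 - n * ((I : ℝ) / R) := ⟨_, rfl⟩
  have hL00 : 0 ≤ L0 := by rw [hL0]; linarith
  have hL1 : L0 ≤ (R * N - i * I) / (R * N) := by
    have h1 : (i : ℝ) / N * ((I : ℝ) / R) ≤ n * ((I : ℝ) / R) :=
      mul_le_mul_of_nonneg_right hn (by positivity)
    have e : (R * N - i * I : ℝ) / (R * N) = 1 - (i : ℝ) / N * ((I : ℝ) / R) := by
      field_simp
    rw [e, hL0]
    linarith
  obtain ⟨E0, hE0⟩ : ∃ x : ℝ, x = 81 / 100 * (D : ℝ) := ⟨_, rfl⟩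
  have hE00 : 0 < E0 := by rw [hE0]; positivity
  obtain ⟨S, hS⟩ : ∃ x : ℝ, x = (N : ℝ) ^ D / (m : ℝ) ^ D := ⟨_, rfl⟩
  obtain ⟨r, hr⟩ : ∃ x : ℝ, x = (rn : ℝ) / rd := ⟨_, rfl⟩
  have hr0 : 0 ≤ r := by rw [hr]; positivity
  have h4 : (R * N - i * I : ℝ) / (R * N) * (E0 * r + S - 1) ≤ E0 := by
    have e : (R * N - i * I : ℝ) / (R * N) * (E0 * r + S - 1) =
        (R * N - i * I : ℝ) * (81 * D * rn * (m : ℝ) ^ D +
      100 * rd * ((N : ℝ) ^ D - (m : ℝ) ^ D)) / (R * N * 100 * rd * (m : ℝ) ^ D) := by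
      rw [hE0, hr, hS]
      field_simp
      ring
    rw [e, div_le_iff₀ (by positivity)]
    refine h3.trans (le_of_eq ?_)
    rw [hE0]
    ring
  rw [← hL0, ← hE0]
  calc L0 * (E0 * rho n + ((1 - n) ^ D)⁻¹ - 1)
      ≤ L0 * (E0 * r + S - 1) := by
        apply mul_le_mul_of_nonneg_left _ hL00
        have : E0 * rho n ≤ E0 * r := by
          rw [hr]
          exact mul_le_mul_of_nonneg_left m1 hE00.le
        rw [hS]
        linarith
    _ ≤ (R * N - i * I : ℝ) / (R * N) * (E0 * r + S - 1) := by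
        refine mul_le_mul_of_nonneg_right hL1 ?_
        have : 0 ≤ E0 * r := by positivity
        rw [hS]
        linarith
    _ ≤ E0 := h4

/-- small `n` -/
theorem small {D : ℕ} {E n iv r1 Y rr y1 : ℝ} (hn : 0 ≤ n) (hy : y1 ≤ 1 - n) (hy1 : 0 < y1)
    (hE : 0 < E) (hl : n * iv ≤ 1) (hr : rr ≤ 1 + r1 * n) (hY0 : 0 ≤ Y) (hY : 1 ≤ Y * y1 ^ D)
    (h : r1 * E + D * Y ≤ iv * E) :
    (1 - n * iv) * (E * rr + ((1 - n) ^ D)⁻¹ - 1) ≤ E := by
  have hy0 : 0 < 1 - n := by linarith
  have hp : 0 < (1 - n) ^ D := by positivity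
  have h1 : ((1 - n) ^ D)⁻¹ - 1 ≤ D * n * Y := by
    have b : 1 - D * n ≤ (1 - n) ^ D := by
      have := one_add_mul_le_pow (a := -n) (by linarith) D
      have e : (1 + -n) = 1 - n := by ring
      rw [e] at this
      linarith
    have c : 1 ≤ Y * (1 - n) ^ D := by
      refine hY.trans (mul_le_mul_of_nonneg_left ?_ hY0)
      exact pow_le_pow_left₀ hy1.le hy D
    have e : ((1 - n) ^ D)⁻¹ - 1 = (1 - (1 - n) ^ D) / (1 - n) ^ D := by
      field_simp
    rw [e, div_le_iff₀ hp]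
    have hDn : 0 ≤ D * n := by positivity
    nlinarith [mul_le_mul_of_nonneg_left c hDn]
  have h2 : E * rr + ((1 - n) ^ D)⁻¹ - 1 ≤ E * (1 + n * iv) := by
    have h3 : E * rr ≤ E * (1 + r1 * n) := mul_le_mul_of_nonneg_left hr hE.le
    have h4 : n * (r1 * E + D * Y) ≤ n * (iv * E) := mul_le_mul_of_nonneg_left h hn
    nlinarith
  calc (1 - n * iv) * (E * rr + ((1 - n) ^ D)⁻¹ - 1) ≤ (1 - n * iv) * (E * (1 + n * iv)) :=
        mul_le_mul_of_nonneg_left h2 (by linarith)
    _ = E * (1 - (n * iv) ^ 2) := by ring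
    _ ≤ E * 1 := by
        apply mul_le_mul_of_nonneg_left _ hE.le
        nlinarith [sq_nonneg (n * iv)]
    _ = E := mul_one E

theorem exp_neg_le {t : ℝ} (h0 : 0 ≤ t) : Real.exp (-t) ≤ 1 - t + t ^ 2 / 2 := by
  have h2 := Real.quadratic_le_exp_of_nonneg h0
  have h3 : Real.exp (-t) * Real.exp t = 1 := by
    rw [← Real.exp_add]; simp
  have h4 : 0 < Real.exp (-t) := Real.exp_pos _
  have h5 : Real.exp (-t) * (1 + t + t ^ 2 / 2) ≤ 1 := by
    calc Real.exp (-t) * (1 + t + t ^ 2 / 2) ≤ Real.exp (-t) * Real.exp t :=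
          mul_le_mul_of_nonneg_left h2 h4.le
      _ = 1 := h3
  have h6 : 1 ≤ (1 - t + t ^ 2 / 2) * (1 + t + t ^ 2 / 2) := by
    nlinarith [sq_nonneg t, sq_nonneg (t ^ 2)]
  have h7 : 0 < 1 + t + t ^ 2 / 2 := by positivity
  have h8 : Real.exp (-t) * (1 + t + t ^ 2 / 2) ≤ (1 - t + t ^ 2 / 2) * (1 + t + t ^ 2 / 2) :=
    h5.trans h6
  exact le_of_mul_le_mul_right h8 h7

/-- large `D` -/
theorem tail {D : ℕ} {al be e0 r1 E n rr D1 : ℝ} (hD1 : 0 < D1) (hD : D1 ≤ D) (hn : 0 ≤ n)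
    (hn1 : n < 1) (hbe : 0 < be) (he0 : 0 < e0) (hr1 : 0 ≤ r1) (hE : e0 * D ≤ E)
    (ha : al / 2 ≤ (al - 1 / 2) * be * D1) (ha2 : 1 / 2 ≤ al)
    (hr1b : r1 ≤ be * D1)
    (hl : n * (al + be * D) < 1) (hr : rr ≤ 1 + r1 * n)
    (H : ∀ s : ℝ, 0 ≤ s → be * s < 1 →
      Real.exp s - 1 ≤ e0 * s * (D1 * be / (1 - be * s) - r1)) :
    (1 - n * (al + be * D)) * (E * rr + ((1 - n) ^ D)⁻¹ - 1) ≤ E := by
  have hDp : (0 : ℝ) < D := lt_of_lt_of_le hD1 hD
  have hy0 : 0 < 1 - n := by linarith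
  have hE0 : 0 < E := lt_of_lt_of_le (by positivity) hE
  obtain ⟨s, hs⟩ : ∃ x : ℝ, x = -(D * Real.log (1 - n)) := ⟨_, rfl⟩
  have hlog : Real.log (1 - n) ≤ 0 := Real.log_nonpos (by linarith) (by linarith)
  have hs0 : 0 ≤ s := by
    rw [hs]
    nlinarith
  have hes : Real.exp s = ((1 - n) ^ D)⁻¹ := by
    rw [hs, Real.exp_neg, mul_comm, Real.exp_mul, Real.exp_log hy0, Real.rpow_natCast]
  -- n ≥ s/D - s²/(2D²) , n ≤ s / D
  have hlogs : Real.log (1 - n) = -(s / D) := by
    rw [hs]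
    field_simp
  have hyexp : 1 - n = Real.exp (-(s / D)) := by
    rw [← hlogs, Real.exp_log hy0]
  have hnle : n ≤ s / D := by
    have := Real.add_one_le_exp (-(s / D))
    linarith
  have hnge : s / D - (s / D) ^ 2 / 2 ≤ n := by
    have h0 : 0 ≤ s / D := by positivity
    have h1 := exp_neg_le h0
    linarith
  have hc : 0 < al + be * D := by
    have : 0 < be * D := by positivity
    linarith
  -- be s < 1
  have hkey : ∀ x : ℝ, 0 ≤ x → be * x ≤ 1 → be * x ≤ (x / D - (x / D) ^ 2 / 2) * (al + be * D) := by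
    intro x hx hx1
    have e : (x / D - (x / D) ^ 2 / 2) * (al + be * D) - be * x =
        x / D * (al - be * x / 2 - al * x / (2 * D)) := by
      field_simp
      ring
    have h1 : al * x / (2 * D) ≤ al - 1 / 2 := by
      have h2 : x ≤ 1 / be := by
        rw [le_div_iff₀ hbe]
        linarith
      have h3 : al * x / (2 * D) ≤ al * (1 / be) / (2 * D1) := by
        apply div_le_div₀ (by positivity) _ (by positivity) (by linarith)
        exact mul_le_mul_of_nonneg_left h2 (by linarith)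
      have h4 : al * (1 / be) / (2 * D1) = al / 2 / (be * D1) := by
        field_simp
      rw [h4] at h3
      refine h3.trans ?_
      rw [div_le_iff₀ (by positivity)]
      linarith
    have h5 : 0 ≤ x / D * (al - be * x / 2 - al * x / (2 * D)) := by
      apply mul_nonneg (by positivity)
      linarith
    linarith
  have hbs : be * s < 1 := by
    by_contra hcon
    push Not at hcon
    have h1 := hkey (1 / be) (by positivity) (by field_simp; exact le_rfl)
    have h2 : be * (1 / be) = 1 := by field_simp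
    rw [h2] at h1
    -- n ≥ 1 - exp(-(1/(be D))) ≥ ...
    have h3 : 1 / be ≤ s := by
      rw [div_le_iff₀ hbe]
      linarith
    have h4 : 1 / be / D ≤ s / D := by
      apply div_le_div_of_nonneg_right h3 hDp.le
    have h5 : 1 / be / D - (1 / be / D) ^ 2 / 2 ≤ n := by
      have h0 : 0 ≤ 1 / be / D := by positivity
      have h6 : Real.exp (-(s / D)) ≤ Real.exp (-(1 / be / D)) := by
        apply Real.exp_le_exp.2
        linarith
      have h7 := exp_neg_le h0
      linarith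
    have h8 : (1 / be / D - (1 / be / D) ^ 2 / 2) * (al + be * D) ≤ n * (al + be * D) :=
      mul_le_mul_of_nonneg_right h5 hc.le
    linarith
  have hL : 1 - n * (al + be * D) ≤ 1 - be * s := by
    have h1 := hkey s hs0 hbs.le
    have h2 : (s / D - (s / D) ^ 2 / 2) * (al + be * D) ≤ n * (al + be * D) :=
      mul_le_mul_of_nonneg_right hnge hc.le
    linarith
  have hL0 : 0 < 1 - be * s := by linarith
  have h1 : Real.exp s - 1 ≤ E * (be * s / (1 - be * s) - r1 * s / D) := by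
    refine (H s hs0 hbs).trans ?_
    have h2 : 0 ≤ be / (1 - be * s) - r1 / D := by
      have h3 : r1 / D ≤ be := by
        rw [div_le_iff₀ hDp]
        nlinarith
      have h4 : be ≤ be / (1 - be * s) := by
        rw [le_div_iff₀ hL0]
        nlinarith [mul_nonneg hbe.le hs0]
      linarith
    calc e0 * s * (D1 * be / (1 - be * s) - r1) ≤ e0 * s * (D * be / (1 - be * s) - r1) := by
          gcongr
      _ = e0 * D * (s * (be / (1 - be * s) - r1 / D)) := by
          field_simp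
      _ ≤ E * (s * (be / (1 - be * s) - r1 / D)) := by
          apply mul_le_mul_of_nonneg_right hE
          positivity
      _ = E * (be * s / (1 - be * s) - r1 * s / D) := by
          ring
  have h2 : E * rr + ((1 - n) ^ D)⁻¹ - 1 ≤ E * (1 / (1 - be * s)) := by
    rw [← hes]
    have h3 : E * rr ≤ E * (1 + r1 * s / D) := by
      apply mul_le_mul_of_nonneg_left _ hE0.le
      refine hr.trans ?_
      have : r1 * n ≤ r1 * (s / D) := mul_le_mul_of_nonneg_left hnle hr1
      have e : r1 * s / D = r1 * (s / D) := by ring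
      rw [e]
      linarith
    have e : E * (1 / (1 - be * s)) = E * (1 + be * s / (1 - be * s)) := by
      field_simp
      ring
    rw [e]
    have : E * (1 + r1 * s / D) + E * (be * s / (1 - be * s) - r1 * s / D) =
      E * (1 + be * s / (1 - be * s)) := by ring
    linarith
  have h0 : 0 ≤ 1 - n * (al + be * D) := by linarith
  calc (1 - n * (al + be * D)) * (E * rr + ((1 - n) ^ D)⁻¹ - 1)
      ≤ (1 - n * (al + be * D)) * (E * (1 / (1 - be * s))) := mul_le_mul_of_nonneg_left h2 h0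
    _ ≤ (1 - be * s) * (E * (1 / (1 - be * s))) := by
        apply mul_le_mul_of_nonneg_right hL
        positivity
    _ = E := by
        field_simp

/-- small `n`, in natural numbers -/
def chkS (I R D : ℕ) : Bool := Nat.ble (100 ^ D * 100 * 20 * R) (99 ^ D * 81 * (20 * I - 29 * R))

/-- the rows of the grid -/
def rowD (D : ℕ) : Bool :=
  if D ≤ 9 then row 1400 57 20 D 14 478 && chkS 57 20 D
  else if D = 10 then row 1000 (217 + 20 * D) 140 D 10 326 && chkS (217 + 20 * D) 140 D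
  else if D ≤ 27 then row 600 (217 + 20 * D) 140 D 6 187 && chkS (217 + 20 * D) 140 D
  else row 400 (217 + 20 * D) 140 D 4 69 && chkS (217 + 20 * D) 140 D

/-- all rows `1 ≤ D ≤ n` -/
def rows : ℕ → Bool
  | 0 => true
  | n + 1 => rowD (n + 1) && rows n

theorem rows_spec : ∀ {n : ℕ}, rows n = true → ∀ D, 1 ≤ D → D ≤ n → rowD D = true
  | 0, _, D, h1, h2 => absurd h1 (by omega)
  | n + 1, h, D, h1, h2 => by
    rw [rows, Bool.and_eq_true] at h
    rcases Nat.lt_or_ge n D with h3 | h3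
    · have : D = n + 1 := by omega
      rw [this]; exact h.1
    · exact rows_spec h.2 D h1 h3

set_option maxRecDepth 100000 in
theorem rows_ok : rows 119 = true := by decide +kernel

theorem rho_le {n n1 r1 : ℝ} (hn : 0 ≤ n) (h : n ≤ n1) (h1 : n1 < 1)
    (hr : (1 + (7 / 5 / (1 - n1) + 49 / 100 / (1 - n1) ^ 2 * n1) * n1) * (n1 / (2 * (1 - n1))) +
      (7 / 5 / (1 - n1) + 49 / 100 / (1 - n1) ^ 2 * n1) ≤ r1) : rho n ≤ 1 + r1 * n := by
  have hy1 : 0 < 1 - n1 := by linarith
  have hy : 0 < 1 - n := by linarith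
  have hn1 : 0 ≤ n1 := by linarith
  obtain ⟨b, hb⟩ : ∃ x, x = 7 / 5 / (1 - n1) + 49 / 100 / (1 - n1) ^ 2 * n1 := ⟨_, rfl⟩
  obtain ⟨c, hc⟩ : ∃ x, x = n1 / (2 * (1 - n1)) := ⟨_, rfl⟩
  rw [← hb, ← hc] at hr
  have hb0 : 0 ≤ b := by rw [hb]; positivity
  have hc0 : 0 ≤ c := by rw [hc]; positivity
  have ho : n / (1 - n) ≤ n / (1 - n1) := by
    apply div_le_div_of_nonneg_left hn hy1
    linarith
  have ho0 : 0 ≤ n / (1 - n) := by positivity
  have e1 : (1 + 7 / 10 * (n / (1 - n))) ^ 2 ≤ 1 + b * n := by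
    calc (1 + 7 / 10 * (n / (1 - n))) ^ 2 ≤ (1 + 7 / 10 * (n / (1 - n1))) ^ 2 := by
          apply pow_le_pow_left₀ (by positivity)
          linarith
      _ = 1 + 7 / 5 / (1 - n1) * n + 49 / 100 / (1 - n1) ^ 2 * n * n := by
          field_simp
          ring
      _ ≤ 1 + 7 / 5 / (1 - n1) * n + 49 / 100 / (1 - n1) ^ 2 * n1 * n := by
          gcongr
      _ = 1 + b * n := by rw [hb]; ring
  have e2 : ((1 - n) + (1 - n)⁻¹) / 2 ≤ 1 + c * n := by
    have e : ((1 - n) + (1 - n)⁻¹) / 2 = 1 + n * (n / (2 * (1 - n))) := by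
      field_simp
      ring
    rw [e]
    have : n / (2 * (1 - n)) ≤ c := by
      rw [hc]
      apply div_le_div₀ hn1 h (by linarith) (by linarith)
    nlinarith
  have e3 : 0 ≤ ((1 - n) + (1 - n)⁻¹) / 2 := by positivity
  unfold rho
  calc (1 + 7 / 10 * (n / (1 - n))) ^ 2 * (((1 - n) + (1 - n)⁻¹) / 2)
      ≤ (1 + b * n) * (1 + c * n) := mul_le_mul e1 e2 e3 (by positivity)
    _ = 1 + (b * n * c + c + b) * n := by ring
    _ ≤ 1 + (b * n1 * c + c + b) * n := by gcongr
    _ ≤ 1 + r1 * n := by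
        have : (b * n1 * c + c + b) ≤ r1 := by linarith
        have := mul_le_mul_of_nonneg_right this hn
        linarith

theorem exp_quarter : Real.exp (1 / 4) ≤ 12841 / 10000 := by
  have h := Real.exp_one_lt_d9
  have h1 : Real.exp (1 / 4) ^ 4 = Real.exp 1 := by
    rw [← Real.exp_nat_mul]
    norm_num
  by_contra hc
  push Not at hc
  have h2 : (12841 / 10000 : ℝ) ^ 4 < Real.exp (1 / 4) ^ 4 :=
    pow_lt_pow_left₀ hc (by norm_num) (by norm_num)
  rw [h1] at h2
  norm_num at h2 h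
  linarith

theorem tcell {s : ℝ} (j : ℕ) (h1 : (j : ℝ) / 4 ≤ s) (h2 : s ≤ ((j : ℝ) + 1) / 4) (hj : j < 28)
    (hs : 1 / 7 * s < 1)
    (h : (12841 / 10000 : ℝ) ^ (j + 1) - 1 ≤
      81 / 100 * ((j : ℝ) / 4) * (120 * (1 / 7) / (1 - 1 / 7 * ((j : ℝ) / 4)) - 8 / 5)) :
    Real.exp s - 1 ≤ 81 / 100 * s * (120 * (1 / 7) / (1 - 1 / 7 * s) - 8 / 5) := by
  have hj' : (j : ℝ) < 28 := by exact_mod_cast hj
  have hj0 : (0 : ℝ) ≤ j := by positivity
  have e1 : Real.exp s ≤ (12841 / 10000 : ℝ) ^ (j + 1) := by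
    calc Real.exp s ≤ Real.exp (((j : ℝ) + 1) / 4) := Real.exp_le_exp.2 h2
      _ = Real.exp (1 / 4) ^ (j + 1) := by
          rw [← Real.exp_nat_mul]
          congr 1
          push_cast
          ring
      _ ≤ _ := pow_le_pow_left₀ (Real.exp_pos _).le exp_quarter _
  have e2 : 0 < 1 - 1 / 7 * s := by linarith
  have e3 : 1 - 1 / 7 * s ≤ 1 - 1 / 7 * ((j : ℝ) / 4) := by linarith
  have e4 : 120 * (1 / 7) / (1 - 1 / 7 * ((j : ℝ) / 4)) ≤ 120 * (1 / 7) / (1 - 1 / 7 * s) :=
    div_le_div_of_nonneg_left (by norm_num) e2 e3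
  have e5 : 0 ≤ 120 * (1 / 7) / (1 - 1 / 7 * ((j : ℝ) / 4)) - 8 / 5 := by
    have : 120 * (1 / 7) ≤ 120 * (1 / 7) / (1 - 1 / 7 * ((j : ℝ) / 4)) := by
      rw [le_div_iff₀ (by linarith)]
      nlinarith
    linarith
  calc Real.exp s - 1 ≤ (12841 / 10000 : ℝ) ^ (j + 1) - 1 := by linarith
    _ ≤ _ := h
    _ ≤ 81 / 100 * s * (120 * (1 / 7) / (1 - 1 / 7 * s) - 8 / 5) := by
        apply mul_le_mul _ _ e5 _
        · linarith
        · linarith
        · have : 0 ≤ s := le_trans (by positivity) h1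
          positivity

theorem H120 (s : ℝ) (h0 : 0 ≤ s) (hs : 1 / 7 * s < 1) :
    Real.exp s - 1 ≤ 81 / 100 * s * (120 * (1 / 7) / (1 - 1 / 7 * s) - 8 / 5) := by
  rcases le_or_gt s 2 with h2 | h2
  · have e1 : Real.exp s - 1 ≤ s * Real.exp s := by
      have h3 : 1 - s ≤ Real.exp (-s) := by
        have := Real.add_one_le_exp (-s)
        linarith
      have h4 : Real.exp (-s) * Real.exp s = 1 := by
        rw [← Real.exp_add]; simp
      have h5 := Real.exp_pos s
      nlinarith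
    have e2 : Real.exp s ≤ 15 / 2 := by
      have h3 := Real.exp_one_lt_d9
      have h4 : Real.exp 2 = Real.exp 1 ^ 2 := by
        rw [← Real.exp_nat_mul]
        norm_num
      have h5 : Real.exp s ≤ Real.exp 2 := Real.exp_le_exp.2 h2
      have h6 : Real.exp 1 ^ 2 ≤ (2.7182818286 : ℝ) ^ 2 :=
        pow_le_pow_left₀ (Real.exp_pos _).le h3.le 2
      rw [h4] at h5
      refine h5.trans (h6.trans ?_)
      norm_num
    have e3 : 120 * (1 / 7) ≤ 120 * (1 / 7) / (1 - 1 / 7 * s) := by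
      rw [le_div_iff₀ (by linarith)]
      nlinarith
    have e4 : (15 / 2 : ℝ) ≤ 81 / 100 * (120 * (1 / 7) / (1 - 1 / 7 * s) - 8 / 5) := by
      linarith
    calc Real.exp s - 1 ≤ s * Real.exp s := e1
      _ ≤ s * (81 / 100 * (120 * (1 / 7) / (1 - 1 / 7 * s) - 8 / 5)) :=
          mul_le_mul_of_nonneg_left (e2.trans e4) h0
      _ = _ := by ring
  · obtain ⟨j, hj⟩ : ∃ j : ℕ, j = ⌊4 * s⌋₊ := ⟨_, rfl⟩
    have j1 : (j : ℝ) ≤ 4 * s := by rw [hj]; exact Nat.floor_le (by linarith)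
    have j2 : 4 * s < (j : ℝ) + 1 := by rw [hj]; exact Nat.lt_floor_add_one _
    have j3 : 8 ≤ j := by
      rw [hj]
      exact Nat.le_floor (by push_cast; linarith)
    have j4 : j < 28 := by
      have : (j : ℝ) < 28 := by linarith
      exact_mod_cast this
    apply tcell j (by linarith) (by linarith) j4 hs
    interval_cases j <;> norm_num

end C1

open C1 in
/-- **(C1)** -/
theorem c1 (D : ℕ) (n : ℝ) (hD : 1 ≤ D) (hn : 0 ≤ n) (hl : Nd D * n ≤ 1) :
    (1 - Nd D * n) * (((1 - n)⁻¹ ^ D - 1) / (81 / 100) +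
      D * (1 + 7 * n / (10 * (1 - n))) ^ 2 * ((1 - n) + (1 - n)⁻¹) / 2) ≤ D := by
  have hD' : (1 : ℝ) ≤ D := by exact_mod_cast hD
  have hN1 : (57 / 20 : ℝ) ≤ Nd D := le_max_left _ _
  have hN2 : (31 / 20 + D / 7 : ℝ) ≤ Nd D := le_max_right _ _
  have hn1 : n ≤ 20 / 57 := by
    have : 57 / 20 * n ≤ 1 := le_trans (mul_le_mul_of_nonneg_right hN1 hn) hl
    linarith
  have hy : 0 < 1 - n := by linarith
  rw [mul_comm] at hl
  suffices h : (1 - n * Nd D) * (81 / 100 * D * rho n + ((1 - n) ^ D)⁻¹ - 1) ≤ 81 / 100 * D by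
    have e : (1 - Nd D * n) * (((1 - n)⁻¹ ^ D - 1) / (81 / 100) +
      D * (1 + 7 * n / (10 * (1 - n))) ^ 2 * ((1 - n) + (1 - n)⁻¹) / 2) =
      (1 - n * Nd D) * (81 / 100 * D * rho n + ((1 - n) ^ D)⁻¹ - 1) / (81 / 100) := by
      unfold rho
      rw [inv_pow]
      have : 7 * n / (10 * (1 - n)) = 7 / 10 * (n / (1 - n)) := by
        field_simp
      rw [this]
      ring
    rw [e, div_le_iff₀ (by norm_num)]
    linarith
  have hE : 0 < 81 / 100 * (D : ℝ) := by positivity
  rcases Nat.lt_or_ge D 120 with hlt | hge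
  · -- the slope as a fraction
    have hrow := rows_spec rows_ok D hD (by omega)
    obtain ⟨N, I, R, i0, cnt, hN, hR, hIR, hrw, hS, hi0, hcnt, hNN, hIR2⟩ :
        ∃ N I R i0 cnt : ℕ, 0 < N ∧ 0 < R ∧ Nd D = (I : ℝ) / R ∧ row N I R D i0 cnt = true ∧
          chkS I R D = true ∧ 100 * i0 = N ∧ N * R < (i0 + cnt) * I ∧ i0 + cnt < N ∧
          29 * R ≤ 20 * I := by
      unfold rowD at hrow
      by_cases h9 : D ≤ 9
      · rw [if_pos h9, Bool.and_eq_true] at hrow
        refine ⟨1400, 57, 20, 14, 478, by norm_num, by norm_num, ?_, hrow.1, hrow.2, by norm_num,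
          by norm_num, by norm_num, by norm_num⟩
        unfold Nd
        have h9' : (D : ℝ) ≤ 9 := by exact_mod_cast h9
        rw [max_eq_left (by linarith)]
        norm_num
      · have h10 : (10 : ℝ) ≤ D := by
          have : 10 ≤ D := by omega
          exact_mod_cast this
        have hNd : Nd D = ((217 + 20 * D : ℕ) : ℝ) / ((140 : ℕ) : ℝ) := by
          unfold Nd
          rw [max_eq_right (by linarith)]
          push_cast
          ring
        rw [if_neg h9] at hrow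
        by_cases h10' : D = 10
        · rw [if_pos h10', Bool.and_eq_true] at hrow
          exact ⟨1000, 217 + 20 * D, 140, 10, 326, by norm_num, by norm_num, hNd, hrow.1, hrow.2,
            by norm_num, by omega, by norm_num, by omega⟩
        · rw [if_neg h10'] at hrow
          by_cases h27 : D ≤ 27
          · rw [if_pos h27, Bool.and_eq_true] at hrow
            exact ⟨600, 217 + 20 * D, 140, 6, 187, by norm_num, by norm_num, hNd, hrow.1, hrow.2,
              by norm_num, by omega, by norm_num, by omega⟩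
          · rw [if_neg h27, Bool.and_eq_true] at hrow
            exact ⟨400, 217 + 20 * D, 140, 4, 69, by norm_num, by norm_num, hNd, hrow.1, hrow.2,
              by norm_num, by omega, by norm_num, by omega⟩
    have hN' : (0 : ℝ) < N := by exact_mod_cast hN
    have hR' : (0 : ℝ) < R := by exact_mod_cast hR
    rcases le_or_gt n (1 / 100) with hsm | hbig
    · -- small n
      unfold chkS at hS
      have hS' := Nat.le_of_ble_eq_true hS
      have hS2 : (100 : ℝ) ^ D * 100 * 20 * R ≤ 99 ^ D * 81 * (20 * I - 29 * R) := by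
        have := (Nat.cast_le (α := ℝ)).2 hS'
        push_cast [Nat.cast_sub hIR2] at this
        linarith
      apply small (r1 := 29 / 20) (Y := ((99 / 100 : ℝ) ^ D)⁻¹) (y1 := 99 / 100) hn (by linarith)
        (by norm_num) hE hl
      · apply rho_le hn hsm (by norm_num)
        norm_num
      · positivity
      · rw [inv_mul_cancel₀ (by positivity)]
      · -- 29/20 E + D Y ≤ Nd E
        have h1 : ((99 / 100 : ℝ) ^ D)⁻¹ ≤ 81 / 100 * ((I : ℝ) / R - 29 / 20) := by
          rw [div_pow, inv_div, div_le_iff₀ (by positivity)]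
          have e : 81 / 100 * ((I : ℝ) / R - 29 / 20) * 99 ^ D =
              99 ^ D * 81 * (20 * I - 29 * R) / (100 * 20 * R) := by
            field_simp
          rw [e, le_div_iff₀ (by positivity)]
          linarith
        rw [hIR]
        have h2 := mul_le_mul_of_nonneg_left h1 (by linarith : (0 : ℝ) ≤ D)
        nlinarith
    · -- the grid
      obtain ⟨i, hi⟩ : ∃ i : ℕ, i = ⌊n * N⌋₊ := ⟨_, rfl⟩
      have i1 : (i : ℝ) ≤ n * N := by rw [hi]; exact Nat.floor_le (by positivity)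
      have i2 : n * N < (i : ℝ) + 1 := by rw [hi]; exact Nat.lt_floor_add_one _
      have i3 : i0 ≤ i := by
        rw [hi]
        apply Nat.le_floor
        have : (100 : ℝ) * i0 = N := by exact_mod_cast hi0
        nlinarith
      have hI0 : (0 : ℝ) < I := by
        have h1 : (0 : ℝ) < (I : ℝ) / R := by
          rw [← hIR]; linarith
        have h2 := mul_pos h1 hR'
        rwa [div_mul_cancel₀ _ hR'.ne'] at h2
      have i4 : i < i0 + cnt := by
        have h1 : n * ((I : ℝ) / R) ≤ 1 := by rw [← hIR]; exact hl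
        have h2 : n * I ≤ R := by
          have := mul_le_mul_of_nonneg_right h1 hR'.le
          calc n * I = n * ((I : ℝ) / R) * R := by field_simp
            _ ≤ 1 * R := this
            _ = R := one_mul _
        have h3 : (i : ℝ) * I ≤ N * R := by
          calc (i : ℝ) * I ≤ n * N * I := mul_le_mul_of_nonneg_right i1 hI0.le
            _ = N * (n * I) := by ring
            _ ≤ N * R := mul_le_mul_of_nonneg_left h2 hN'.le
        have h4 : i * I ≤ N * R := by exact_mod_cast h3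
        have h5 : i * I < (i0 + cnt) * I := lt_of_le_of_lt h4 hcnt
        exact lt_of_mul_lt_mul_right h5 (Nat.zero_le _)
      obtain ⟨j, rfl⟩ : ∃ j, i = i0 + j := ⟨i - i0, by omega⟩
      have hchk := row_spec hrw j (by omega)
      rw [hIR]
      apply cell hN hR (by omega) (by omega) hchk
      · rw [div_le_iff₀ hN']
        exact i1
      · rw [le_div_iff₀ hN']
        push_cast at i2 ⊢
        linarith
      · rw [← hIR]; exact hl
  · -- large D
    have hge' : (120 : ℝ) ≤ D := by exact_mod_cast hge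
    have hNd : Nd D = 31 / 20 + 1 / 7 * D := by
      unfold Nd
      rw [max_eq_right (by linarith)]
      ring
    rw [hNd] at hl ⊢
    have hn2 : n ≤ 3 / 50 := by
      by_contra hc
      push Not at hc
      have : (3 / 50 : ℝ) * (31 / 20 + 1 / 7 * D) < n * (31 / 20 + 1 / 7 * D) :=
        mul_lt_mul_of_pos_right hc (by positivity)
      nlinarith
    rcases eq_or_lt_of_le hl with he | hlt
    · rw [he]
      simp only [sub_self, zero_mul]
      positivity
    · exact tail (D1 := 120) (r1 := 8 / 5) (e0 := 81 / 100) (by norm_num) hge' hn (by linarith)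
        (by norm_num) (by norm_num) (by norm_num) le_rfl (by norm_num) (by norm_num) (by norm_num)
        hlt (rho_le hn hn2 (by norm_num) (by norm_num)) H120

end Pool.Agent.T6A.Cert
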