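import Pool.Agent.T6A.CertProf

/-!
# The numerical statements of the certificate for `Q = 10` (MP_c6effb_co, T6-A)

`Nd d` = slope of the profile; `Menu mu B d` = the possible values of `mu` (part of the kill rate
which is used) with the slope `B` of the minorant. `M1Stmt`, `S1Stmt`, `A0Stmt` are pointwise
inequalities; `LineStmt` is the final inequality (supporting line for the degree `x`).
-/

set_option autoImplicit false

open Pool.Agent.T6A.Cert (Nd)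

namespace Pool.Agent.T6A.CertB

noncomputable section

/-- The menu. -/
def Menu (mu B : ℝ) (d : ℕ) : Prop :=
  10 ≤ d ∧ ((mu = 37 / 200 ∧ B = 967 / 2000 * d - 9 / 200) ∨
    (mu = 4 / 25 ∧ B = 459 / 1000 * d - 1 / 50) ∨ (mu = 3 / 25 ∧ B = 831 / 2000 * d + 1 / 20))

/-- (M1) -/
def M1Stmt : Prop := ∀ (d : ℕ) (mu B n : ℝ), Menu mu B d → 0 ≤ n → n ≤ (1 - mu) / B →
  (1 - mu) - B * n ≤ (1 - Nd d * n) * (1 / (1 - n) - mu / (1 - n) ^ d) ∧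
    (1 - Nd d * n) * (1 / (1 - n) - mu / (1 - n) ^ d) ≤ 1 - mu

/-- (M3) -/
def M3Stmt : Prop := ∀ (d : ℕ) (mu B n : ℝ), Menu mu B d → 0 ≤ n → n ≤ (1 - mu) / B →
  21 / 25 * (1 - mu / (1 - n) ^ (d - 1)) ≤ (1 - mu) * (1 - Nd d * n)

/-- (S1) -/
def S1Stmt : Prop := ∀ (d : ℕ) (mu B n s : ℝ), Menu mu B d → 0 ≤ n → n ≤ (1 - mu) / B → 0 < s →
  s ≤ 1 / 2 → (1 - Nd d * n) / (1 - n) ^ d * ((1 - n) ^ (d - 1) -
    (max 0 (1 - n / (1 - s))) ^ (d - 1) - s * (1 - mu) / 2) ≤ s * (3 / 10)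

/-- (A0) -/
def A0Stmt : Prop := ∀ (d : ℕ) (mu B n : ℝ), Menu mu B d →
  (0 ≤ n → n ≤ (1 - mu) / B → 2 * (1 - Nd d * n) ^ 2 * (1 + n / 2) ^ 2 / (1 - n) ≤
    29 / 25 + 21 / 25 * (1 - Nd d * n) / (1 - n) ^ d) ∧
  ((1 - mu) / B ≤ n → Nd d * n ≤ 1 → 2 * (1 - Nd d * n) ^ 2 * (1 + n / 2) ^ 2 / (1 - n) ≤ 29 / 25)

/-- The constant of the AM-GM step. -/
def xiF (sg : ℝ) : ℝ := if sg < 119 / 200 then 21 / 25 else if sg < 143 / 200 then 22 / 25 else 1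

/-- The common factor of the profiles. -/
def lamF (q sg : ℝ) : ℝ := 1 / ((q + 1 - sg) - sg * (31 / 20 + 2 * q / 7) + 2 * q * sg * xiF sg)

/-- The supporting line. -/
def Lx (q sg x : ℝ) : ℝ := 1 - sg - 43 / 100 * (x / (2 * q) - 1)

/-- (LINE) `q` = number of edges per vertex, `sg` = weight of `A`, `d` = low degree, `hub` = 1 if
there is a giant neighbour, `x` = the price, `W = q + 1 - sg`. -/
def LineStmt : Prop := ∀ (q sg : ℝ) (d : ℕ) (hub x : ℝ), 999 / 100 ≤ q → 1 / 2 ≤ sg →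
  sg ≤ 101 / 100 →
  ((hub = 0 ∧ x = d ∧ q ≤ d * sg) ∨ (hub = 1 ∧ (d : ℝ) + 2 ≤ x ∧ 2 * q / sg - d ≤ x)) →
  0 < Lx q sg x + 1 / 2000 →
  ∃ mu B : ℝ, (mu = 0 ∨ (Menu mu B d ∧
      mu ≤ lamF q sg * ((1 - mu) * ((q + 1 - sg) - hub * sg - sg) - B * sg) ∧
      lamF q sg * (29 / 25 * ((q + 1 - sg) + 1 / 100) + 42 / 25 * sg) ≤ 21 / 25 ∧
      lamF q sg * (3 / 10) * ((q + 1 - sg) + 1 / 100) ≤ (1 - mu) / 2)) ∧
    ∀ J : ℝ, (q + 1 - sg) - hub * sg - sg * Nd d ≤ J → J ≤ (q + 1 - sg) + 1 / 100 →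
      Lx q sg x + 1 / 1000 ≤ lamF q sg * J *
        (2 - lamF q sg * (J + sg * (d * ((xiF sg + (1 - mu) ^ 2 / xiF sg) / 2))))

end

end Pool.Agent.T6A.CertB
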