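import Pool.Agent.T6A.CertStmts
import Pool.Agent.T6A.CertStmtsB

/-!
# Project T6A, certificate: conversion of the numerical statements
-/

set_option autoImplicit false

namespace Pool.Agent.T6A.Cert

theorem xiF_cases (sg : ℝ) :
    CertB.xiF sg = 21 / 25 ∨ CertB.xiF sg = 22 / 25 ∨ CertB.xiF sg = 1 := by
  unfold CertB.xiF
  split_ifs
  · exact Or.inl rfl
  · exact Or.inr (Or.inl rfl)
  · exact Or.inr (Or.inr rfl)

theorem lamF_bounds {q sg : ℝ} (hq : 999 / 100 ≤ q) (h1 : 1 / 2 ≤ sg) (h2 : sg ≤ 101 / 100) :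
    0 ≤ CertB.lamF q sg ∧ CertB.lamF q sg ≤ 1 / 4 := by
  have hxi : 21 / 25 ≤ CertB.xiF sg := by
    rcases xiF_cases sg with h | h | h <;> rw [h] <;> norm_num
  have hqs : 0 < q * sg := by positivity
  have h3 : 21 / 25 * (q * sg) ≤ CertB.xiF sg * (q * sg) := mul_le_mul_of_nonneg_right hxi hqs.le
  have h4 : 4 ≤ (q + 1 - sg) - sg * (31 / 20 + 2 * q / 7) + 2 * q * sg * CertB.xiF sg := by
    nlinarith
  unfold CertB.lamF
  constructor
  · exact one_div_nonneg.2 (by linarith)
  · exact one_div_le_one_div_of_le (by norm_num) h4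

/-- helper53's form of LINE implies the general form. -/
theorem lineG_of_stmt (h : CertB.LineStmt) : LineG := by
  intro q sg hq h1 h2
  refine ⟨CertB.xiF sg, 43 / 100, xiF_cases sg, by norm_num, by norm_num, fun d j hd => ?_⟩
  have hsg : 0 < sg := by linarith
  have hq0 : 0 < q := by linarith
  obtain ⟨hl0, hl1⟩ := lamF_bounds hq h1 h2
  have hub01 : (j = 0 ∧ hub j = 0) ∨ (1 ≤ j ∧ hub j = 1) := by
    unfold hub
    rcases Nat.eq_zero_or_pos j with h0 | h0
    · exact Or.inl ⟨h0, by rw [if_pos h0]⟩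
    · exact Or.inr ⟨h0, by rw [if_neg (by omega)]⟩
  have hLx : CertB.Lx q sg (d + 2 * j) = 1 - sg - 43 / 100 * (((d : ℝ) + 2 * j) / (2 * q) - 1) := rfl
  by_cases hpos : 0 < CertB.Lx q sg (d + 2 * j) + 1 / 2000
  · have hx : (hub j = 0 ∧ (d : ℝ) + 2 * j = d ∧ q ≤ d * sg) ∨
        (hub j = 1 ∧ (d : ℝ) + 2 ≤ d + 2 * j ∧ 2 * q / sg - d ≤ (d : ℝ) + 2 * j) := by
      rcases hub01 with ⟨hj, hh⟩ | ⟨hj, hh⟩
      · left
        subst hj
        refine ⟨hh, by simp, ?_⟩
        simpa using hd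
      · right
        have hj' : (1 : ℝ) ≤ j := by exact_mod_cast hj
        refine ⟨hh, by linarith, ?_⟩
        have : 2 * q / sg ≤ 2 * (d + j) := by
          rw [div_le_iff₀ hsg]
          linarith
        linarith
    obtain ⟨mu, B, hmenu, hJ⟩ := h q sg d (hub j) (d + 2 * j) hq h1 h2 hx hpos
    have hh1 : 0 ≤ hub j ∧ hub j ≤ 1 := by
      rcases hub01 with ⟨_, h⟩ | ⟨_, h⟩ <;> rw [h] <;> norm_num
    have hN : 0 ≤ Nd d := by have := Nd_ge d; linarith
    have hsN : 0 ≤ sg * Nd d := by positivity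
    have hhs : 0 ≤ hub j * sg := mul_nonneg hh1.1 hsg.le
    refine ⟨mu, B, CertB.lamF q sg, ?_, hl0, hl1, ?_, ?_⟩
    · rcases hmenu with h0 | ⟨h3, h4, h5, h6⟩
      · exact Or.inl h0
      · right
        refine ⟨⟨h3.1, h3.2⟩, h4, ?_, ?_⟩
        · refine le_trans (mul_le_mul_of_nonneg_left ?_ hl0) h5
          linarith
        · refine le_trans (mul_le_mul_of_nonneg_left ?_ ?_) h6
          · linarith
          · positivity
    · have := hJ (q + 1 - sg - hub j * sg - Nd d * sg) (by linarith) (by linarith)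
      rw [hLx] at this
      unfold edx
      linarith
    · have := hJ (q + 1 - sg + 1 / 1000) (by linarith) (by linarith)
      rw [hLx] at this
      unfold edx
      linarith
  · refine ⟨0, 0, 0, Or.inl rfl, le_rfl, by norm_num, ?_, ?_⟩
    · rw [hLx] at hpos
      linarith
    · rw [hLx] at hpos
      linarith

/-- helper53's form of (M1) implies `M1`. -/
theorem m1_of_stmt (h : CertB.M1Stmt) : M1 := by
  intro d mu B n hm hn hB
  have hd : (10 : ℝ) ≤ d := by exact_mod_cast hm.1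
  have hB0 : 0 < B := by rcases hm.2 with h | h | h <;> rw [h.2] <;> linarith
  refine h d mu B n ⟨hm.1, hm.2⟩ hn ?_
  rw [le_div_iff₀ hB0]
  linarith

end Pool.Agent.T6A.Cert
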