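import Pool.Agent.T6A.CertProf

/-!
# Project T6A, certificate: the numerical statements

`d` = degree in the low graph, `Nd d` = slope of the profile, `Menu d mu B` = the admissible triples for
the bracket. `Line` = the linear lower bound for the value of one vertex: `q + 1` = total weight,
`sg` = bound for the independent sets, `j` = number of giant neighbours, slope `9 / 20`, `xi = 21 / 25`,
rate `lam = 1 / Z`.
-/

set_option autoImplicit false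

namespace Pool.Agent.T6A.Cert

/-- The menu. -/
def Menu (d : ℕ) (mu B : ℝ) : Prop := 10 ≤ d ∧
  ((mu = 37 / 200 ∧ B = 967 / 2000 * d - 9 / 200) ∨ (mu = 4 / 25 ∧ B = 459 / 1000 * d - 1 / 50) ∨
    (mu = 3 / 25 ∧ B = 831 / 2000 * d + 1 / 20))

/-- (M1) -/
def M1 : Prop := ∀ (d : ℕ) (mu B n : ℝ), Menu d mu B → 0 ≤ n → B * n ≤ 1 - mu →
  (1 - mu) - B * n ≤ (1 - Nd d * n) * (1 / (1 - n) - mu / (1 - n) ^ d) ∧
    (1 - Nd d * n) * (1 / (1 - n) - mu / (1 - n) ^ d) ≤ 1 - mu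

/-- (M3) -/
def M3 : Prop := ∀ (d : ℕ) (mu B n : ℝ), Menu d mu B → 0 ≤ n → B * n ≤ 1 - mu →
  21 / 25 * (1 - mu / (1 - n) ^ (d - 1)) ≤ (1 - mu) * (1 - Nd d * n)

/-- (S1) -/
def S1 : Prop := ∀ (d : ℕ) (mu B n s : ℝ), Menu d mu B → 0 ≤ n → B * n ≤ 1 - mu → 0 < s →
  s ≤ 1 / 2 → (1 - Nd d * n) / (1 - n) ^ d * ((1 - n) ^ (d - 1) -
    (max 0 (1 - n / (1 - s))) ^ (d - 1) - s * (1 - mu) * (1 / 2)) ≤ s * (3 / 10)

/-- (A0), part with `n ≤ nuh` -/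
def A0 : Prop := ∀ (d : ℕ) (mu B n : ℝ), Menu d mu B → 0 ≤ n → B * n ≤ 1 - mu →
  2 * (1 - Nd d * n) ^ 2 * (1 + n / 2) ^ 2 / (1 - n) ≤
    29 / 25 + 21 / 25 * (1 - Nd d * n) / (1 - n) ^ d

/-- (A0), part with `nuh ≤ n` -/
def A0' : Prop := ∀ (d : ℕ) (mu B n : ℝ), Menu d mu B → 1 - mu ≤ B * n → Nd d * n ≤ 1 →
  2 * (1 - Nd d * n) ^ 2 * (1 + n / 2) ^ 2 / (1 - n) ≤ 29 / 25

/-- `e_d` -/
noncomputable def ed (mu : ℝ) : ℝ := (21 / 25 + (1 - mu) ^ 2 / (21 / 25)) / 2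

/-- 1 if there is a giant neighbour -/
noncomputable def hub (j : ℕ) : ℝ := if j = 0 then 0 else 1

/-- The conditions for one vertex: `W` = lower bound of its allowed weight, `W'` = upper bound,
`L` = the wanted value. -/
def Good (d : ℕ) (sg W W' L : ℝ) : Prop :=
  ∃ mu B lam : ℝ, (mu = 0 ∨ Menu d mu B ∧ mu ≤ lam * ((1 - mu) * (W - sg) - B * sg) ∧
      lam * (29 / 25 * W' + 42 / 25 * sg) ≤ 21 / 25 ∧ lam * (3 / 10) * W' ≤ (1 - mu) / 2) ∧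
    0 ≤ lam ∧ lam ≤ 1 / 4 ∧
    L ≤ lam * (W - Nd d * sg) * (2 - lam * ((W - Nd d * sg) + sg * (d * ed mu))) ∧
    L ≤ lam * W' * (2 - lam * (W' + sg * (d * ed mu)))

/-- **LINE** -/
def Line : Prop := ∀ (q sg : ℝ) (d j : ℕ), 199 / 20 ≤ q → 1 / 2 ≤ sg → sg ≤ 101 / 100 →
  q ≤ (d + j) * sg → Good d sg (q + 1 - sg - hub j * sg) (q + 1 - sg + 1 / 1000)
    (1 - sg - 9 / 20 * ((d + 2 * j) / (2 * q) - 1) + 1 / 1000)

/-- `e_d` for general `xi` -/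
noncomputable def edx (xi mu : ℝ) : ℝ := (xi + (1 - mu) ^ 2 / xi) / 2

/-- `Good` for general `xi`. -/
def GoodX (xi : ℝ) (d : ℕ) (sg W W' L : ℝ) : Prop :=
  ∃ mu B lam : ℝ, (mu = 0 ∨ Menu d mu B ∧ mu ≤ lam * ((1 - mu) * (W - sg) - B * sg) ∧
      lam * (29 / 25 * W' + 42 / 25 * sg) ≤ 21 / 25 ∧ lam * (3 / 10) * W' ≤ (1 - mu) / 2) ∧
    0 ≤ lam ∧ lam ≤ 1 / 4 ∧
    L ≤ lam * (W - Nd d * sg) * (2 - lam * ((W - Nd d * sg) + sg * (d * edx xi mu))) ∧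
    L ≤ lam * W' * (2 - lam * (W' + sg * (d * edx xi mu)))

/-- **LINE**, general form: `xi` and the slope may depend on `q`, `sg`. -/
def LineG : Prop := ∀ q sg : ℝ, 999 / 100 ≤ q → 1 / 2 ≤ sg → sg ≤ 101 / 100 → ∃ xi sl : ℝ,
  (xi = 21 / 25 ∨ xi = 22 / 25 ∨ xi = 1) ∧ 0 ≤ sl ∧ sl ≤ 9 / 20 ∧ ∀ d j : ℕ, q ≤ (d + j) * sg →
    GoodX xi d sg (q + 1 - sg - hub j * sg) (q + 1 - sg + 1 / 1000)
      (1 - sg - sl * ((d + 2 * j) / (2 * q) - 1) + 1 / 2000)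

theorem lineG_of_line (h : Line) : LineG := by
  intro q sg hq h1 h2
  refine ⟨21 / 25, 9 / 20, Or.inl rfl, by norm_num, le_rfl, fun d j hd => ?_⟩
  obtain ⟨mu, B, lam, h3, h4, h5, h6, h7⟩ := h q sg d j (by linarith) h1 h2 hd
  exact ⟨mu, B, lam, h3, h4, h5, le_trans (by linarith) h6, le_trans (by linarith) h7⟩

end Pool.Agent.T6A.Cert
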