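import Pool.Agent.T6A.Expect5
import Pool.Agent.T6A.MuB
import Pool.Agent.T6A.MathStmt
import Pool.Agent.T6A.CertStmts

/-!
# Project T6A, certificate: CERT from the numerical statements
-/

set_option autoImplicit false
set_option linter.unusedSectionVars false

open Finset

namespace Pool.Agent.T6A.Cert

open Pool.Agent.T6A

theorem Menu.mu_cases {d : ℕ} {mu B : ℝ} (h : Menu d mu B) :
    mu = 37 / 200 ∨ mu = 4 / 25 ∨ mu = 3 / 25 := by
  rcases h.2 with h | h | h
  · exact Or.inl h.1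
  · exact Or.inr (Or.inl h.1)
  · exact Or.inr (Or.inr h.1)

theorem Menu.B_pos {d : ℕ} {mu B : ℝ} (h : Menu d mu B) : 0 < B := by
  have hd : (10 : ℝ) ≤ d := by exact_mod_cast h.1
  rcases h.2 with h | h | h <;> rw [h.2] <;> linarith

theorem Menu.Nd_le {d : ℕ} {mu B : ℝ} (h : Menu d mu B) : (1 - mu) * Nd d ≤ B := by
  have hd : (10 : ℝ) ≤ d := by exact_mod_cast h.1
  have h1 : Nd d = 31 / 20 + (d : ℝ) / 7 := by
    unfold Nd
    exact max_eq_right (by linarith)
  rw [h1]
  rcases h.2 with h | h | h <;> rw [h.1, h.2] <;> linarith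

section bracket

variable {V ι : Type*} [Fintype V] [DecidableEq V] [Fintype ι] [DecidableEq ι]
variable {F : SimpleGraph ι} [DecidableRel F.Adj] {G : SimpleGraph V} [DecidableRel G.Adj]
  {μ : ι → ℝ}

theorem lf_eq {N x : ℝ} (h : N * x ≤ 1) : lf N x = 1 - N * x := max_eq_right (by linarith)

/-- The bracket for a vertex with a triple of the menu. -/
theorem brk_menu (hM1 : M1) (hM3 : M3) (hS1 : S1) (hA0 : A0) (hA0' : A0')
    (h0 : ∀ x, 0 ≤ μ x) (h1 : ∑ x, μ x = 1) (hF : F.CliqueFree 3) {w w' : ι → ℝ}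
    (hw : ∀ c, 0 ≤ w c) (hw' : ∀ c, 0 ≤ w' c) {sg : ℝ}
    (hind : ∀ x, (∑ c, if F.Adj x c then w c else 0) ≤ sg) (hwn : ∑ c, w c * nb F μ c ≤ sg)
    {U : V → Finset ι} (hww : ∀ v, ∀ c ∈ U v, nb F μ c ≤ 20 / 57 → w' c = w c)
    {W W' : ℝ} {lam nuh : V → ℝ} {u : V} {mu B : ℝ} (hmenu : Menu #(nbh G u) mu B)
    (hnuh : nuh u = (1 - mu) / B) (hlam : ∀ v, 0 ≤ lam v)
    (hW : W ≤ ∑ c ∈ U u, w c) (hW' : ∑ c ∈ U u, w c ≤ W')
    (N1 : mu ≤ lam u * ((1 - mu) * (W - sg) - B * sg))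
    (N2 : lam u * (29 / 25 * W' + 42 / 25 * sg) ≤ 21 / 25)
    (N3 : lam u * (3 / 10) * W' ≤ (1 - mu) / 2) {a b b' : ι} (hbb : F.Adj b b') :
    brk F G μ (cut F μ (rate F G μ w' fun v b =>
        lam v * lin F μ (U v) (Nd #(nbh G v)) b) nuh) a u b b' ≤
      (1 + 1 / 2 * nb F μ b) * ((1 - mu) *
        (1 + zz F μ w' (lin F μ (U u) (Nd #(nbh G u))) (1 / 2) a / 2) * (1 + 1 / 2 * nb F μ b')) := by
  obtain ⟨d, hd⟩ : ∃ d, d = #(nbh G u) := ⟨_, rfl⟩
  obtain ⟨l, hl⟩ : ∃ l : V → ι → ℝ, l = fun v => lin F μ (U v) (Nd #(nbh G v)) := ⟨_, rfl⟩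
  have hl0 : ∀ v b, 0 ≤ l v b := fun v b => by rw [hl]; exact lin_nonneg _ _ _
  have hN := Nd_ge d
  have hN0 : 0 < Nd d := by linarith
  have hB := hmenu.B_pos
  have hNB := hmenu.Nd_le
  rw [← hd] at hmenu hNB
  have hmu1 : 0 < 1 - mu := by
    rcases hmenu.mu_cases with h | h | h <;> rw [h] <;> norm_num
  have hn1 : ∀ c, nb F μ c ≤ 1 := nb_le_one h0 h1
  have hn0 : ∀ c, 0 ≤ nb F μ c := nb_nonneg h0
  have hNpos : ∀ c, Nd d * nb F μ c ≤ 1 → nb F μ c ≤ 20 / 57 := by
    intro c hc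
    have : 57 / 20 * nb F μ c ≤ Nd d * nb F μ c := mul_le_mul_of_nonneg_right hN (hn0 c)
    linarith
  have hlt : ∀ v b, 0 < l v b → nb F μ b < 1 := by
    intro v b h
    rw [hl] at h
    simp only [lin] at h
    split_ifs at h with hb
    · have h2 : 0 < 1 - Nd #(nbh G v) * nb F μ b := by
        by_contra hc
        rw [max_eq_left (not_lt.1 hc)] at h
        exact lt_irrefl _ h
      have h3 : 57 / 20 * nb F μ b ≤ Nd #(nbh G v) * nb F μ b :=
        mul_le_mul_of_nonneg_right (Nd_ge _) (hn0 b)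
      linarith
    · exact absurd h (lt_irrefl _)
  have hnuhx : ∀ x : ℝ, x ≤ (1 - mu) / B → B * x ≤ 1 - mu := by
    intro x hx
    rw [le_div_iff₀ hB] at hx
    linarith
  have hnuhN : ∀ x : ℝ, 0 ≤ x → x ≤ (1 - mu) / B → Nd d * x ≤ 1 := by
    intro x hx0 hx
    have h2 := hnuhx x hx
    have h3 : (1 - mu) * Nd d * x ≤ B * x := mul_le_mul_of_nonneg_right hNB hx0
    have h4 : (1 - mu) * (Nd d * x) ≤ (1 - mu) * 1 := by linarith
    exact le_of_mul_le_mul_left h4 hmu1
  -- the rates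
  have hrate : ∀ v c, 0 ≤ rate F G μ w' (fun v b => lam v * l v b) v c := by
    intro v c
    unfold rate
    exact div_nonneg (mul_nonneg (hw' c) (mul_nonneg (hlam v) (hl0 v c)))
      (pow_nonneg (by linarith [hn1 c]) _)
  have hs0 := cut_nonneg (F := F) (μ := μ) hrate nuh
  have e1 : (fun v b => lam v * lin F μ (U v) (Nd #(nbh G v)) b) = fun v b => lam v * l v b := by
    rw [hl]
  have e2 : lin F μ (U u) (Nd #(nbh G u)) = l u := by rw [hl]
  rw [e1, e2]
  refine brk_le h0 h1 hF hs0 (by norm_num)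
    (zz_nonneg hw' (hlt u) (hl0 u) (1 / 2) a) hmu1.le ?_ hbb ?_
  · rcases hmenu.mu_cases with h | h | h <;> rw [h] <;> norm_num
  intro t ht0 ht1
  have hm := mub (U u) (univ.filter (F.Adj b)) (univ.filter (F.Adj a)) w (nb F μ) sg (lam u) mu B
    (21 / 25) (3 / 10) (1 / 2) (Nd d) ((1 - mu) / B) d (fun c _ => hw c) (fun c _ => hn0 c)
    (fun c _ => hn1 c) ?_ ?_ ?_ ?_ (by norm_num) (by linarith) (div_pos hmu1 hB) ?_ (hlam u)
    (by norm_num) (by norm_num) ?_ ?_ ?_ ?_ ?_ ?_ ?_ ?_ ?_ ?_ ?_ t ht0 ht1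
  · -- the conclusion
    have hrho : ∀ c, rhoF (U u) (univ.filter (F.Adj b)) (univ.filter (F.Adj a)) w (nb F μ) (lam u)
        (Nd d) ((1 - mu) / B) d c =
        sab F (cut F μ (rate F G μ w' fun v b => lam v * l v b) nuh) u a b c := by
      intro c
      unfold rhoF sab cut rate
      rw [hnuh, ← hd]
      by_cases hb : F.Adj b c
      · rw [if_neg (by simp [hb]), if_pos (Or.inl hb)]
      by_cases ha : F.Adj a c
      · rw [if_neg (by simp [ha]), if_pos (Or.inr ha)]
      rw [if_neg (not_or.2 ⟨hb, ha⟩)]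
      by_cases hc : nb F μ c ≤ (1 - mu) / B
      · rw [if_pos hc]
        by_cases hU : c ∈ U u
        · rw [if_pos ⟨hU, by simp [hb], by simp [ha], hc⟩, hl]
          simp only [lin]
          rw [if_pos hU, hww u c hU (hNpos c (hnuhN _ (hn0 c) hc)), ← hd]
          unfold lf
          ring
        · rw [if_neg (by tauto), hl]
          simp only [lin]
          rw [if_neg hU]
          simp
      · rw [if_neg hc, if_neg (by tauto)]
    have hPF : PF (U u) w (nb F μ) (1 / 2) (Nd d) = Pz F μ w' (l u) (1 / 2) := by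
      unfold PF Pz
      rw [← sum_subset (subset_univ (U u)) (f := fun b => w' b * (l u b ^ 2 *
        ((1 + 1 / 2 * nb F μ b) ^ 2 / (1 - nb F μ b))))]
      · refine sum_congr rfl fun c hc => ?_
        rw [hl]
        simp only [lin]
        rw [if_pos hc, ← hd]
        unfold lf
        by_cases hx : Nd d * nb F μ c ≤ 1
        · rw [hww u c hc (hNpos c hx)]
          ring
        · rw [max_eq_left (by linarith)]
          simp
      · intro c _ hc
        rw [hl]
        simp only [lin]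
        rw [if_neg hc]
        simp
    have hPFS : PF (U u ∩ univ.filter (F.Adj a)) w (nb F μ) (1 / 2) (Nd d) =
        PzS F μ w' (l u) (1 / 2) a := by
      unfold PF PzS
      rw [← sum_filter, ← sum_subset (s₁ := U u ∩ univ.filter (F.Adj a))
        (s₂ := univ.filter (F.Adj a)) (inter_subset_right) (f := fun b => w' b * (l u b ^ 2 *
        ((1 + 1 / 2 * nb F μ b) ^ 2 / (1 - nb F μ b))))]
      · refine sum_congr rfl fun c hc => ?_
        have hcU := (mem_inter.1 hc).1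
        rw [hl]
        simp only [lin]
        rw [if_pos hcU, ← hd]
        unfold lf
        by_cases hx : Nd d * nb F μ c ≤ 1
        · rw [hww u c hcU (hNpos c hx)]
          ring
        · rw [max_eq_left (by linarith)]
          simp
      · intro c hc1 hc
        have hcU : c ∉ U u := fun h => hc (mem_inter.2 ⟨h, hc1⟩)
        rw [hl]
        simp only [lin]
        rw [if_neg hcU]
        simp
    rw [hPF, hPFS] at hm
    simp only [hrho] at hm
    have hkz : ∀ c, kz (1 - t) (nb F μ c) (#(nbh G u) - 1) =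
        (max 0 (1 - nb F μ c / (1 - t))) ^ (d - 1) := by
      intro c
      rw [kz_of_pos (by linarith), ← hd]
    simp only [hkz]
    exact hm
  · -- hwn
    exact (sum_le_sum_of_subset_of_nonneg (subset_univ _) fun c _ _ =>
      mul_nonneg (hw c) (hn0 c)).trans hwn
  · -- hNb
    refine le_trans ?_ (hind b)
    rw [← sum_filter]
    exact sum_le_sum_of_subset_of_nonneg inter_subset_right fun c _ _ => hw c
  · refine le_trans ?_ (hind a)
    rw [← sum_filter]
    exact sum_le_sum_of_subset_of_nonneg inter_subset_right fun c _ _ => hw c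
  · exact le_trans (by norm_num) hmenu.1
  · -- nuh * inv ≤ 1
    have := hnuhN ((1 - mu) / B) (div_pos hmu1 hB).le le_rfl
    linarith
  · intro x hx0 hx
    rw [lf_eq (hnuhN x hx0 hx)]
    exact (hM1 d mu B x hmenu hx0 (hnuhx x hx)).1
  · intro x hx0 hx
    rw [lf_eq (hnuhN x hx0 hx)]
    exact (hM1 d mu B x hmenu hx0 (hnuhx x hx)).2
  · rw [mul_div_cancel₀ _ hB.ne']
  · intro x hx0 hx
    rw [lf_eq (hnuhN x hx0 hx)]
    exact hM3 d mu B x hmenu hx0 (hnuhx x hx)
  · intro s x hs0 hs1 hx0 hx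
    rw [lf_eq (hnuhN x hx0 hx)]
    exact hS1 d mu B x s hmenu hx0 (hnuhx x hx) hs0 hs1
  · intro x hx0 hx
    rw [lf_eq (hnuhN x hx0 hx)]
    have := hA0 d mu B x hmenu hx0 (hnuhx x hx)
    have e3 : (1 + 1 / 2 * x) = 1 + x / 2 := by ring
    rw [e3]
    linarith
  · intro x hx hx1
    have hx2 : Nd d * x ≤ 1 := by linarith
    rw [lf_eq hx2]
    have h5 : 1 - mu ≤ B * x := by
      rw [div_le_iff₀ hB] at hx
      linarith
    have := hA0' d mu B x hmenu h5 hx2
    have e3 : (1 + 1 / 2 * x) = 1 + x / 2 := by ring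
    rw [e3]
    linarith
  · rcases hmenu.mu_cases with h | h | h <;> rw [h] <;> norm_num
  · -- N1
    refine N1.trans (mul_le_mul_of_nonneg_left ?_ (hlam u))
    have := mul_le_mul_of_nonneg_left hW hmu1.le
    linarith
  · -- N2
    refine le_trans (mul_le_mul_of_nonneg_left ?_ (hlam u)) N2
    linarith
  · -- N3
    refine le_trans (mul_le_mul_of_nonneg_left hW' ?_) (N3.trans (by linarith))
    have := hlam u
    positivity

end bracket

section world

variable {ι : Type} [Fintype ι] (X : World ι)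

theorem mu_nonneg (hA : 0 < X.sA) (a : ι) : 0 ≤ X.mu a := by
  unfold World.mu
  split_ifs
  · exact div_nonneg (X.pos a).le hA.le
  · exact le_rfl

theorem mu_sum (hA : 0 < X.sA) : ∑ a, X.mu a = 1 := by
  classical
  unfold World.mu
  rw [← sum_filter, filter_mem_eq_inter, univ_inter, ← sum_div]
  exact div_self hA.ne'

theorem nbh_le [DecidableRel X.F.Adj] (x : ι) : (∑ c, if X.F.Adj x c then X.w c else 0) ≤ X.s := by
  classical
  rw [← sum_filter]
  refine X.max _ fun c hc c' hc' hcc => ?_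
  simp only [mem_filter, mem_univ, true_and] at hc hc'
  exact X.tri {x, c, c'} (SimpleGraph.is3Clique_triple_iff.2 ⟨hc, hc', hcc⟩)

/-- row sums outside `A` -/
theorem row_le [DecidableRel X.F.Adj] (hA : 0 < X.sA) {e : ℝ} (he : 0 ≤ e) (h2 : X.s - e ≤ X.sA)
    {b : ι} (hb : nb X.F X.mu b ≤ 20 / 57) {w' : ι → ℝ} (hw' : ∀ c, w' c ≤ X.w c)
    (hwA : ∀ c ∈ X.A, w' c = 0) :
    (∑ c, if X.F.Adj b c then w' c else 0) ≤ (X.s + e) * (1 - nb X.F X.mu b) := by
  classical
  have hn0 : 0 ≤ nb X.F X.mu b := nb_nonneg (mu_nonneg X hA) b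
  have h3 : nb X.F X.mu b * X.sA = ∑ c, if X.F.Adj b c ∧ c ∈ X.A then X.w c else 0 := by
    unfold nb World.mu
    rw [sum_mul]
    refine sum_congr rfl fun c _ => ?_
    by_cases hc : X.F.Adj b c
    · by_cases hcA : c ∈ X.A
      · rw [if_pos hc.symm, if_pos hcA, if_pos ⟨hc, hcA⟩, div_mul_cancel₀ _ hA.ne']
      · rw [if_pos hc.symm, if_neg hcA, if_neg (fun h => hcA h.2), zero_mul]
    · rw [if_neg (fun h => hc h.symm), if_neg (fun h => hc h.1), zero_mul]
  have h4 : (∑ c, if X.F.Adj b c then w' c else 0) +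
      (∑ c, if X.F.Adj b c ∧ c ∈ X.A then X.w c else 0) ≤
      ∑ c, if X.F.Adj b c then X.w c else 0 := by
    rw [← sum_add_distrib]
    refine sum_le_sum fun c _ => ?_
    by_cases hc : X.F.Adj b c
    · by_cases hcA : c ∈ X.A
      · rw [if_pos hc, if_pos ⟨hc, hcA⟩, if_pos hc, hwA c hcA, zero_add]
      · rw [if_pos hc, if_neg (fun h => hcA h.2), if_pos hc, add_zero]
        exact hw' c
    · rw [if_neg hc, if_neg (fun h => hc h.1), if_neg hc, add_zero]
  have h5 := nbh_le X b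
  have h6 : nb X.F X.mu b * (X.s - e) ≤ nb X.F X.mu b * X.sA := mul_le_mul_of_nonneg_left h2 hn0
  nlinarith

end world

/-- the value is concave in the mass -/
theorem value_ge {lam A J₁ J J₂ L : ℝ} (h1 : J₁ ≤ J) (h2 : J ≤ J₂)
    (hL1 : L ≤ lam * J₁ * (2 - lam * (J₁ + A))) (hL2 : L ≤ lam * J₂ * (2 - lam * (J₂ + A))) :
    L ≤ 2 * (lam * J) - lam ^ 2 * (J * (J + A)) := by
  rcases (h1.trans h2).lt_or_eq with h | h
  · -- convex combination
    have h3 : 0 ≤ lam ^ 2 * ((J - J₁) * (J₂ - J)) := by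
      have := mul_nonneg (sub_nonneg.2 h1) (sub_nonneg.2 h2)
      positivity
    have h4 : (J₂ - J₁) * (2 * (lam * J) - lam ^ 2 * (J * (J + A))) =
        (J₂ - J) * (lam * J₁ * (2 - lam * (J₁ + A))) + (J - J₁) * (lam * J₂ * (2 - lam * (J₂ + A)))
        + (J₂ - J₁) * (lam ^ 2 * ((J - J₁) * (J₂ - J))) := by ring
    have h5 := mul_le_mul_of_nonneg_left hL1 (sub_nonneg.2 h2)
    have h6 := mul_le_mul_of_nonneg_left hL2 (sub_nonneg.2 h1)
    have h7 := mul_nonneg (sub_pos.2 h).le h3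
    have h8 : (J₂ - J₁) * L ≤ (J₂ - J₁) * (2 * (lam * J) - lam ^ 2 * (J * (J + A))) := by
      rw [h4]
      linarith
    exact le_of_mul_le_mul_left h8 (sub_pos.2 h)
  · have : J = J₁ := le_antisymm (by linarith) h1
    rw [this]
    linarith

/-- **CERT** -/
theorem cert (hM1 : M1) (hM3 : M3) (hS1 : S1) (hA0 : A0) (hA0' : A0') (hLine : LineG) :
    CertStmt 10 := by
  classical
  intro C
  refine ⟨1 / 20000, by norm_num, by norm_num, fun K => ⟨(2 * C + 3) * 2 ^ K, 1 / 20000, 1,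
    by norm_num, by norm_num, ?_⟩⟩
  intro V ι _ _ X L Bd k hOK hs3
  obtain ⟨e, he⟩ : ∃ e : ℝ, e = 1 / 20000 := ⟨_, rfl⟩
  rw [← he] at hOK hs3 ⊢
  have he0 : 0 < e := by rw [he]; norm_num
  obtain ⟨sg, hsg⟩ : ∃ sg, sg = X.s + e := ⟨_, rfl⟩
  obtain ⟨q, hq⟩ : ∃ q, q = X.tot - 1 - e := ⟨_, rfl⟩
  have hk0 := hOK.k0
  have htot1 := hOK.tot1
  have htot2 := hOK.tot2
  have hs1 := hOK.s1
  have hs2 := hOK.s2
  have hsA : X.sA ≤ X.s := X.max X.A X.ind
  have he1 : e ≤ 1 / 20000 := he.le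
  have hA : 0 < X.sA := by linarith
  have hμ0 := mu_nonneg X hA
  have hμ1 := mu_sum X hA
  have hn0 : ∀ c, 0 ≤ nb X.F X.mu c := nb_nonneg hμ0
  have hn1 : ∀ c, nb X.F X.mu c ≤ 1 := nb_le_one hμ0 hμ1
  have hq10 : 999 / 100 ≤ q := by rw [hq]; linarith
  have hsg1 : 1 / 2 ≤ sg := by rw [hsg]; linarith
  have hsg2 : sg ≤ 101 / 100 := by rw [hsg]; linarith
  have hw0 : ∀ c, 0 ≤ X.w c := fun c => (X.pos c).le
  obtain ⟨xi, sl, hxi, hsl0, hsl1, hL⟩ := hLine q sg hq10 hsg1 hsg2
  have hxi0 : 0 < xi := by rcases hxi with h | h | h <;> rw [h] <;> norm_num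
  -- degrees
  have hdd : ∀ v, #(nbh L.G v) = L.d v := fun v => rfl
  -- the weights
  obtain ⟨w', hw'⟩ : ∃ w' : ι → ℝ, w' = fun c => if c ∈ X.A ∨ 20 / 57 < nb X.F X.mu c then 0
    else X.w c := ⟨_, rfl⟩
  have hw'0 : ∀ c, 0 ≤ w' c := by
    intro c; rw [hw']; dsimp only; split_ifs
    · exact le_rfl
    · exact hw0 c
  have hw'w : ∀ c, w' c ≤ X.w c := by
    intro c; rw [hw']; dsimp only; split_ifs
    · exact hw0 c
    · exact le_rfl
  have hw'A : ∀ c ∈ X.A, w' c = 0 := by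
    intro c hc; rw [hw']; dsimp only; rw [if_pos (Or.inl hc)]
  have hind : ∀ x, (∑ c, if X.F.Adj x c then X.w c else 0) ≤ sg := fun x =>
    (nbh_le X x).trans (by rw [hsg]; linarith)
  have hσa : ∀ a, 0 < X.mu a → (∑ c, if X.F.Adj a c then X.w c else 0) ≤ sg := fun a _ => hind a
  have hwn : ∑ c, X.w c * nb X.F X.mu c ≤ sg := sum_nb_le hμ0 hμ1 hσa
  have hw'n : ∀ b, 0 < w' b → nb X.F X.mu b ≤ 20 / 57 := by
    intro b hb
    by_contra hc
    rw [hw'] at hb
    dsimp only at hb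
    rw [if_pos (Or.inr (not_le.1 hc))] at hb
    exact lt_irrefl _ hb
  have hσb : ∀ b, 0 < w' b → (∑ c, if X.F.Adj b c then w' c else 0) ≤
      sg * (1 - nb X.F X.mu b) := by
    intro b hb
    rw [hsg]
    exact row_le X hA he0.le hs2 (hw'n b hb) hw'w hw'A
  have hσa' : ∀ a, 0 < X.mu a → (∑ c, if X.F.Adj a c then w' c else 0) ≤ sg := by
    intro a ha
    refine (sum_le_sum fun c _ => ?_).trans (hσa a ha)
    split_ifs
    · exact hw'w c
    · exact le_rfl
  -- the allowed weights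
  have htot : ∀ v, ∑ c ∈ L.Bv v, X.w c + X.sA +
      ∑ i ∈ univ.filter (fun i => i ∉ X.A ∧ i ∉ L.Bv v), X.w i = X.tot := by
    intro v
    unfold World.sA World.tot
    have h1 : univ.filter (fun i => i ∉ X.A ∧ i ∉ L.Bv v) = (L.Bv v ∪ X.A)ᶜ := by
      ext i; simp only [mem_filter, mem_univ, true_and, mem_compl, mem_union]; tauto
    rw [h1, ← sum_union (hOK.BvA v), sum_add_sum_compl]
  have hup : ∀ v, ∑ c ∈ L.Bv v, X.w c ≤ q + 1 - sg + 1 / 1000 := by
    intro v
    have h1 := htot v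
    have h2 : 0 ≤ ∑ i ∈ univ.filter (fun i => i ∉ X.A ∧ i ∉ L.Bv v), X.w i :=
      sum_nonneg fun c _ => hw0 c
    rw [hq, hsg]
    linarith
  have hlo : ∀ v, v ∉ L.E → q + 1 - sg - hub (L.j v) * sg ≤ ∑ c ∈ L.Bv v, X.w c := by
    intro v hv
    have h1 := htot v
    have h2 := hOK.Bvw v hv
    have h3 : (if L.j v = 0 then 0 else X.s) ≤ hub (L.j v) * sg := by
      unfold hub
      split_ifs
      · simp
      · rw [hsg]; linarith
    rw [hq]
    have h4 : X.s = sg - e := by rw [hsg]; ring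
    linarith
  -- the choice for every vertex
  have hgood : ∀ v, ∃ mu B lam : ℝ, 0 ≤ lam ∧ lam ≤ 1 / 4 ∧ (v ∈ L.E → lam = 0 ∧ mu = 0) ∧
      (mu = 0 ∨ Menu (L.d v) mu B ∧
        mu ≤ lam * ((1 - mu) * ((q + 1 - sg - hub (L.j v) * sg) - sg) - B * sg) ∧
        lam * (29 / 25 * (q + 1 - sg + 1 / 1000) + 42 / 25 * sg) ≤ 21 / 25 ∧
        lam * (3 / 10) * (q + 1 - sg + 1 / 1000) ≤ (1 - mu) / 2) ∧
      (v ∉ L.E → 1 - sg - sl * ((L.d v + 2 * L.j v) / (2 * q) - 1) + 1 / 2000 ≤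
          lam * ((q + 1 - sg - hub (L.j v) * sg) - Nd (L.d v) * sg) *
          (2 - lam * (((q + 1 - sg - hub (L.j v) * sg) - Nd (L.d v) * sg) +
            sg * (L.d v * edx xi mu))) ∧
        1 - sg - sl * ((L.d v + 2 * L.j v) / (2 * q) - 1) + 1 / 2000 ≤
          lam * (q + 1 - sg + 1 / 1000) * (2 - lam * ((q + 1 - sg + 1 / 1000) +
            sg * (L.d v * edx xi mu)))) := by
    intro v
    by_cases hv : v ∈ L.E
    · exact ⟨0, 0, 0, le_rfl, by norm_num, fun _ => ⟨rfl, rfl⟩, Or.inl rfl, fun h => absurd hv h⟩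
    · have hmind := hOK.mind v hv
      rw [← hsg, ← hq] at hmind
      obtain ⟨mu, B, lam, h1, h2, h3, h4, h5⟩ := hL (L.d v) (L.j v) hmind
      exact ⟨mu, B, lam, h2, h3, fun h => absurd h hv, h1, fun _ => ⟨h4, h5⟩⟩
  choose mu B lam hlam0 hlam1 hE hmenu hval using hgood
  obtain ⟨l, hl⟩ : ∃ l : V → ι → ℝ, l = fun v => lin X.F X.mu (L.Bv v) (Nd #(nbh L.G v)) := ⟨_, rfl⟩
  have hl0 : ∀ v b, 0 ≤ l v b := fun v b => by rw [hl]; exact lin_nonneg _ _ _
  have hl1 : ∀ v b, l v b ≤ 1 := fun v b => by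
    rw [hl]; exact lin_le_one hμ0 _ (by linarith [Nd_ge #(nbh L.G v)]) _
  have hlpos : ∀ v b, 0 < l v b → b ∈ L.Bv v ∧ Nd (L.d v) * nb X.F X.mu b < 1 ∧
      l v b = 1 - Nd (L.d v) * nb X.F X.mu b := by
    intro v b h
    rw [hl] at h ⊢
    simp only [lin] at h ⊢
    split_ifs at h with hb
    · have h2 : 0 < 1 - Nd #(nbh L.G v) * nb X.F X.mu b := by
        by_contra hc
        rw [max_eq_left (not_lt.1 hc)] at h
        exact lt_irrefl _ h
      rw [if_pos hb, max_eq_right h2.le]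
      rw [hdd] at h2
      exact ⟨hb, by linarith, by rw [hdd]⟩
    · exact absurd h (lt_irrefl _)
  have hlt57 : ∀ v b, 0 < l v b → nb X.F X.mu b ≤ 20 / 57 := by
    intro v b h
    have h1 := (hlpos v b h).2.1
    have h3 : 57 / 20 * nb X.F X.mu b ≤ Nd (L.d v) * nb X.F X.mu b :=
      mul_le_mul_of_nonneg_right (Nd_ge _) (hn0 b)
    linarith
  have hlt : ∀ v b, 0 < l v b → nb X.F X.mu b < 1 := fun v b h => by
    have := hlt57 v b h
    linarith
  obtain ⟨nuh, hnuh⟩ : ∃ nuh : V → ℝ, nuh = fun v => if mu v = 0 then -1 else (1 - mu v) / B v :=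
    ⟨_, rfl⟩
  obtain ⟨r, hr⟩ : ∃ r : V → ι → ℝ, r = rate X.F L.G X.mu w' (fun v b => lam v * l v b) := ⟨_, rfl⟩
  have hr0 : ∀ v c, 0 ≤ r v c := by
    intro v c
    rw [hr]
    unfold rate
    exact div_nonneg (mul_nonneg (hw'0 c) (mul_nonneg (hlam0 v) (hl0 v c)))
      (pow_nonneg (by linarith [hn1 c]) _)
  have hrw : ∀ v c, r v c ≤ 2 ^ K * X.w c := by
    intro v c
    rcases (hl0 v c).lt_or_eq with hpos | hz
    · have hn := hlt57 v c hpos
      have hy : (1 : ℝ) / 2 ≤ 1 - nb X.F X.mu c := by linarith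
      have hy2 : ((1 : ℝ) / 2) ^ K ≤ (1 - nb X.F X.mu c) ^ #(nbh L.G v) := by
        have h1 : ((1 : ℝ) / 2) ^ K ≤ ((1 : ℝ) / 2) ^ #(nbh L.G v) :=
          pow_le_pow_of_le_one (by norm_num) (by norm_num) (hOK.dK v)
        exact h1.trans (pow_le_pow_left₀ (by norm_num) hy _)
      have hp : (0 : ℝ) < (1 - nb X.F X.mu c) ^ #(nbh L.G v) := lt_of_lt_of_le (by positivity) hy2
      rw [hr]
      unfold rate
      rw [div_le_iff₀ hp]
      have h2 : w' c * (lam v * l v c) ≤ X.w c * 1 := by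
        refine mul_le_mul (hw'w c) ?_ (mul_nonneg (hlam0 v) (hl0 v c)) (hw0 c)
        exact mul_le_one₀ ((hlam1 v).trans (by norm_num)) (hl0 v c) (hl1 v c)
      have h3 : X.w c * 1 ≤ 2 ^ K * X.w c * (1 - nb X.F X.mu c) ^ #(nbh L.G v) := by
        have h4 : (1 : ℝ) ≤ 2 ^ K * (1 - nb X.F X.mu c) ^ #(nbh L.G v) := by
          calc (1 : ℝ) = 2 ^ K * (1 / 2) ^ K := by rw [← mul_pow]; norm_num
            _ ≤ _ := mul_le_mul_of_nonneg_left hy2 (by positivity)
        have := mul_le_mul_of_nonneg_left h4 (hw0 c)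
        linarith
      exact h2.trans h3
    · rw [hr]
      unfold rate
      dsimp only
      rw [← hz, mul_zero, mul_zero, zero_div]
      exact mul_nonneg (by positivity) (hw0 c)
  have hK1 : (1 : ℝ) ≤ 2 ^ K := one_le_pow₀ (by norm_num)
  have hC0 : (0 : ℝ) ≤ C := Nat.cast_nonneg C
  refine ⟨r, ⟨hr0, ?_, ?_, ?_, ?_, ?_⟩⟩
  · -- rB
    intro v y hy
    rw [hr, hl]
    unfold rate
    simp only [lin]
    rw [if_neg hy]
    simp
  · intro v y
    refine (hrw v y).trans (mul_le_mul_of_nonneg_right ?_ (hw0 y))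
    nlinarith
  · intro v
    calc ∑ y, r v y ≤ ∑ y, 2 ^ K * X.w y := sum_le_sum fun y _ => hrw v y
      _ = 2 ^ K * X.tot := by rw [← mul_sum]; rfl
      _ ≤ 2 ^ K * (2 * C + 2) := mul_le_mul_of_nonneg_left htot2 (by positivity)
      _ ≤ (2 * C + 3) * 2 ^ K := by nlinarith
  · -- rc
    intro v y
    have h1 : r v y * (1 - nb X.F X.mu y) ^ L.d v = w' y * (lam v * l v y) := by
      rw [hr]
      exact rate_mul (fun v b => mul_nonneg (hlam0 v) (hl0 v b)) (fun v b h => hlt v b (by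
        refine lt_of_le_of_ne (hl0 v b) (Ne.symm ?_)
        intro hc
        rw [hc, mul_zero] at h
        exact lt_irrefl _ h)) v y
    have h2 : w' y * (lam v * l v y) ≤ X.w y * (1 / 4) := by
      refine mul_le_mul (hw'w y) ?_ (mul_nonneg (hlam0 v) (hl0 v y)) (hw0 y)
      calc lam v * l v y ≤ 1 / 4 * 1 := mul_le_mul (hlam1 v) (hl1 v y) (hl0 v y) (by norm_num)
        _ = 1 / 4 := by ring
    have h3 : 2 * (r v y * (1 - nb X.F X.mu y) ^ L.d v) ≤ (1 - e) * X.w y := by
      rw [h1]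
      have := hw0 y
      rw [he]
      linarith
    convert h3 using 3
  · -- main
    intro a ha
    -- the bracket
    have hbr : ∀ v u b b', L.G.Adj v u → X.F.Adj b b' → ¬ X.F.Adj a b' → 0 < w' b → 0 < w' b' →
        0 < l v b → 0 < l u b' → brk X.F L.G X.mu (cut X.F X.mu r nuh) a u b b' ≤
          (1 + 1 / 2 * nb X.F X.mu b) * ((1 - mu u) * (1 + zz X.F X.mu w' (l u) (1 / 2) a / 2) *
            (1 + 1 / 2 * nb X.F X.mu b')) := by
      intro v u b b' _ hbb _ _ _ _ _
      rcases hmenu u with h | ⟨h2, h3, h4, h5⟩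
      · -- no chord
        have hcut : ∀ c, cut X.F X.mu r nuh u c = 0 := by
          intro c
          have h9 : nuh u = -1 := by
            rw [hnuh]
            dsimp only
            rw [if_pos h]
          have h10 : ¬ nb X.F X.mu c ≤ nuh u := by
            rw [h9]
            linarith [hn0 c]
          unfold cut
          rw [if_neg h10]
        have hsab : ∀ c, sab X.F (cut X.F X.mu r nuh) u a b c = 0 := by
          intro c
          unfold sab
          rw [hcut]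
          simp
        unfold brk
        simp only [hsab, zero_mul, sum_const_zero, mul_zero, sub_zero]
        rw [h, sub_zero, one_mul]
        have hz := zz_nonneg hw'0 (hlt u) (hl0 u) (1 / 2) a
        have h6 : (1 : ℝ) ≤ 1 + 1 / 2 * nb X.F X.mu b := by linarith [hn0 b]
        have h7 : (1 : ℝ) ≤ 1 + 1 / 2 * nb X.F X.mu b' := by linarith [hn0 b']
        have h8 : (1 : ℝ) ≤ 1 + zz X.F X.mu w' (l u) (1 / 2) a / 2 := by linarith
        calc (1 : ℝ) = 1 * (1 * 1) := by ring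
          _ ≤ _ := mul_le_mul h6 (mul_le_mul h8 h7 (by norm_num) (by linarith)) (by norm_num)
            (by linarith)
      · have hv : u ∉ L.E := by
          intro hu
          have := (hE u hu).2
          rcases h2.mu_cases with h | h | h <;> rw [h] at this <;> norm_num at this
        have hmu0 : mu u ≠ 0 := by
          intro hu
          rcases h2.mu_cases with h | h | h <;> rw [h] at hu <;> norm_num at hu
        have hkey := brk_menu (G := L.G) (U := L.Bv) (lam := lam) (nuh := nuh) (u := u)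
          hM1 hM3 hS1 hA0 hA0' hμ0 hμ1 X.tri hw0 hw'0 hind hwn ?_ h2 ?_ hlam0 (hlo u hv) (hup u)
          h3 h4 h5 (a := a) hbb
        · rw [hr, hl]
          exact hkey
        · intro v c hc hcn
          rw [hw']
          dsimp only
          rw [if_neg]
          rintro (h | h)
          · exact disjoint_left.1 (hOK.BvA v) hc h
          · linarith
        · rw [hnuh]
          dsimp only
          rw [if_neg hmu0]
    -- the profile
    have hprof : ∀ v b, 0 < w' b → 0 < l v b →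
        l v b * ((#(nbh L.G v) : ℝ) * ((1 + 1 / 2 * nb X.F X.mu b) ^ 2
          * (xi * (1 - nb X.F X.mu b) + xi⁻¹ *
            ((1 - mu v) ^ 2 / (1 - nb X.F X.mu b))) / 2)
          + (((1 - nb X.F X.mu b)⁻¹) ^ #(nbh L.G v) - 1)) ≤ (#(nbh L.G v) : ℝ) * edx xi (mu v) := by
      intro v b _ hlb
      obtain ⟨_, h1, h2⟩ := hlpos v b hlb
      rw [h2, hdd]
      rcases Nat.eq_zero_or_pos (L.d v) with h0 | hpos
      · rw [h0]
        simp
      · have hom : 1 - mu v = 163 / 200 ∨ 1 - mu v = 21 / 25 ∨ 1 - mu v = 22 / 25 ∨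
            1 - mu v = 1 := by
          rcases hmenu v with h | ⟨h, _⟩
          · right; right; right; rw [h]; norm_num
          · rcases h.mu_cases with h | h | h <;> rw [h] <;> norm_num
        have := prof (xi := xi) (om := 1 - mu v) (n := nb X.F X.mu b) hpos (hn0 b) h1.le hxi hom
        unfold edx
        have e1 : (1 + 1 / 2 * nb X.F X.mu b) = 1 + nb X.F X.mu b / 2 := by ring
        rw [e1]
        exact this
    have hom0 : ∀ v, 0 ≤ 1 - mu v := by
      intro v
      rcases hmenu v with h | ⟨h, _⟩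
      · rw [h]; norm_num
      · rcases h.mu_cases with h | h | h <;> rw [h] <;> norm_num
    have hsum := sum_pairT_ge_rem (F := X.F) (G := L.G) (μ := X.mu) (w := w') (l := l)
      (s := cut X.F X.mu r nuh) (lam := lam) (e0 := fun v => edx xi (mu v)) (om := fun v => 1 - mu v)
      (σ := sg) (ξ := xi) (c0 := 1 / 2) hμ0 hμ1 hxi0 (by norm_num) hw'0 hlam0 hl0 hlt
      (by linarith) hom0 hσa' (fun b hb _ => hσb b hb) (a := a) hbr hprof
    -- EXP1
    have hLB : ∀ v, pairT X.F L.G X.mu r (cut X.F X.mu r nuh) a v ≤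
        ∑ y, LB X.F L.G X.mu r v a y := by
      intro v
      refine (pairT_le hμ0 hμ1 X.tri hr0 (cut_nonneg hr0 nuh) (cut_le hr0 nuh) v a).trans
        (le_of_eq ?_)
      refine sum_congr rfl fun y _ => ?_
      unfold LB
      congr! 2
    -- the masses
    have hJ : ∀ v, ∑ b, w' b * l v b = ∑ b, X.w b * l v b := by
      intro v
      refine sum_congr rfl fun b _ => ?_
      rcases (hl0 v b).lt_or_eq with hpos | hz
      · rw [hw']
        dsimp only
        rw [if_neg]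
        rintro (h | h)
        · exact disjoint_left.1 (hOK.BvA v) (hlpos v b hpos).1 h
        · linarith [hlt57 v b hpos]
      · rw [← hz]; simp
    have hJ1 : ∀ v, ∑ c ∈ L.Bv v, X.w c - Nd (L.d v) * sg ≤ ∑ b, w' b * l v b := by
      intro v
      rw [hJ, hl]
      have hN := Nd_ge #(nbh L.G v)
      have hN0 : 0 ≤ Nd #(nbh L.G v) := by linarith
      exact J_ge (nu' := Nd #(nbh L.G v)) hμ0 hμ1 hw0 hσa _ hN0
    have hJ2 : ∀ v, ∑ b, w' b * l v b ≤ ∑ c ∈ L.Bv v, X.w c := by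
      intro v
      rw [hJ, hl]
      have hN := Nd_ge #(nbh L.G v)
      have hN0 : 0 ≤ Nd #(nbh L.G v) := by linarith
      exact J_le (nu' := Nd #(nbh L.G v)) hμ0 hw0 _ hN0
    have hterm : ∀ v, v ∉ L.E → 1 - sg - sl * ((L.d v + 2 * L.j v) / (2 * q) - 1) + 1 / 2000 ≤
        2 * (lam v * ∑ b, w' b * l v b) - lam v ^ 2 * ((∑ b, w' b * l v b)
          * ((∑ b, w' b * l v b) + sg * ((#(nbh L.G v) : ℝ) * edx xi (mu v)))) := by
      intro v hv
      obtain ⟨h1, h2⟩ := hval v hv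
      refine value_ge ?_ ?_ h1 h2
      · exact (sub_le_sub_right (hlo v hv) _).trans (hJ1 v)
      · exact (hJ2 v).trans (hup v)
    have hterm0 : ∀ v, v ∈ L.E → 2 * (lam v * ∑ b, w' b * l v b) - lam v ^ 2 *
        ((∑ b, w' b * l v b) * ((∑ b, w' b * l v b) + sg * ((#(nbh L.G v) : ℝ) * edx xi (mu v)))) = 0 := by
      intro v hv
      rw [(hE v hv).1]
      ring
    -- the sum of the values
    obtain ⟨f, hf⟩ : ∃ f : V → ℝ, f = fun v => 2 * (lam v * ∑ b, w' b * l v b) - lam v ^ 2 *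
        ((∑ b, w' b * l v b) * ((∑ b, w' b * l v b) + sg * ((#(nbh L.G v) : ℝ) * edx xi (mu v)))) :=
      ⟨_, rfl⟩
    have hq0 : 0 < q := by linarith
    have hfs : (∑ v ∈ univ.filter (fun v => v ∉ L.E), (1 - sg - sl * (((L.d v : ℝ) +
        2 * L.j v) / (2 * q) - 1) + 1 / 2000)) ≤ ∑ v, f v := by
      rw [← sum_filter_add_sum_filter_not univ (fun v => v ∉ L.E) f]
      have h1 : ∑ v ∈ univ.filter (fun v => ¬ v ∉ L.E), f v = 0 := by
        refine sum_eq_zero fun v hv => ?_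
        rw [hf]
        exact hterm0 v (not_not.1 (mem_filter.1 hv).2)
      rw [h1, add_zero]
      refine sum_le_sum fun v hv => ?_
      rw [hf]
      exact hterm v (mem_filter.1 hv).2
    have hcE : (#(univ.filter (fun v => v ∉ L.E)) : ℝ) = Fintype.card V - #L.E := by
      have h1 : univ.filter (fun v => v ∉ L.E) = L.Eᶜ := by ext v; simp
      rw [h1, card_compl, Nat.cast_sub (card_le_univ _)]
    have hdeg : ∑ v ∈ univ.filter (fun v => v ∉ L.E), ((L.d v : ℝ) + 2 * L.j v) ≤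
        2 * (q + 2 * e) * k := by
      refine (sum_le_sum_of_subset_of_nonneg (filter_subset _ _) fun v _ _ => by positivity).trans ?_
      refine hOK.deg.trans (le_of_eq ?_)
      rw [hq]
      ring
    have hlow : (Fintype.card V - #L.E : ℝ) * (1 + sl + 1 / 2000 - sg) -
        sl * ((q + 2 * e) * k / q) ≤ ∑ v, f v := by
      refine le_trans ?_ hfs
      have h1 : (∑ v ∈ univ.filter (fun v => v ∉ L.E), (1 - sg - sl * (((L.d v : ℝ) +
        2 * L.j v) / (2 * q) - 1) + 1 / 2000)) = #(univ.filter (fun v => v ∉ L.E)) *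
          (1 + sl + 1 / 2000 - sg) - sl * ((∑ v ∈ univ.filter (fun v => v ∉ L.E),
          ((L.d v : ℝ) + 2 * L.j v)) / (2 * q)) := by
        rw [sum_div, mul_sum, ← nsmul_eq_mul, ← sum_const, ← sum_sub_distrib]
        exact sum_congr rfl fun v _ => by ring
      rw [h1, hcE]
      have h2 : (∑ v ∈ univ.filter (fun v => v ∉ L.E), ((L.d v : ℝ) + 2 * L.j v)) / (2 * q) ≤
          (q + 2 * e) * k / q := by
        rw [div_le_div_iff₀ (by linarith) hq0]
        have := mul_le_mul_of_nonneg_right hdeg hq0.le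
        linarith
      have h3 := mul_le_mul_of_nonneg_left h2 hsl0
      linarith
    have hqe : (q + 2 * e) * k / q ≤ k + e * k := by
      rw [div_le_iff₀ hq0]
      have : 0 ≤ e * k := by positivity
      nlinarith
    have hEc := hOK.Ec
    have hcV := hOK.cV
    have hcV' := hOK.cV'
    have hc1 : (1 - 2 * e) * k ≤ (Fintype.card V - #L.E : ℝ) := by linarith
    have hc4 := mul_le_mul_of_nonneg_left hqe hsl0
    have hLBs : ∑ v, f v ≤ ∑ v, ∑ y, LB X.F L.G X.mu r v a y := by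
      rw [hf]
      refine le_trans ?_ (sum_le_sum fun v _ => hLB v)
      rw [hr]
      rw [hr] at hsum
      exact hsum
    -- the mass outside `E`
    obtain ⟨m, hm⟩ : ∃ m : ℝ, m = Fintype.card V - #L.E := ⟨_, rfl⟩
    rw [← hm] at hc1 hlow
    have hmk : m ≤ k := by
      have : (0 : ℝ) ≤ #L.E := Nat.cast_nonneg _
      linarith
    have hc5 : k * (1 + sl + 1 / 2000 - sg) - 3 * e * k ≤ m * (1 + sl + 1 / 2000 - sg) := by
      have h1 : (k - m) * (1 + sl + 1 / 2000 - sg) ≤ (k - m) * 1 :=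
        mul_le_mul_of_nonneg_left (by linarith) (by linarith)
      have h2 : 0 ≤ e * k := by positivity
      linarith
    have hsle : sl * (e * k) ≤ 9 / 20 * (e * k) :=
      mul_le_mul_of_nonneg_right hsl1 (by positivity)
    have hfin : k - (k * (1 + sl + 1 / 2000 - sg) - 3 * e * k - sl * (k + e * k)) ≤
        ((1 - e) * X.sA - e) * k := by
      have h1 : (1 : ℝ) - ((1 + 1 / 2000 - sg) - 3 * e - 9 / 20 * e) ≤
          (1 - e) * X.sA - e := by
        have h2 : (1 - e) * (X.s - e) ≤ (1 - e) * X.sA :=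
          mul_le_mul_of_nonneg_left hs2 (by rw [he]; norm_num)
        rw [hsg]
        rw [he] at h2 hs3 ⊢
        nlinarith
      have := mul_le_mul_of_nonneg_right h1 hk0.le
      linarith
    linarith

end Pool.Agent.T6A.Cert
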