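import Pool.Agent.T6A.CertC1

/-!
# Project T6A, certificate: the profile inequality PR from (C1)
-/

set_option autoImplicit false

namespace Pool.Agent.T6A.Cert

theorem Nd_ge (D : ℕ) : 57 / 20 ≤ Nd D := le_max_left _ _

/-- the comparison of the edge factors -/
theorem edge_le {n xi q : ℝ} (hn0 : 0 ≤ n) (hn1 : n ≤ 20 / 57) (hxi : 0 < xi) (hq : 0 < q)
    (hk : 3 * (q - xi) ≤ (xi + q)) :
    (1 + n / 2) ^ 2 * (xi * (1 - n) + q * (1 - n)⁻¹) ≤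
      (xi + q) / 2 * ((1 + 7 * n / (10 * (1 - n))) ^ 2 * ((1 - n) + (1 - n)⁻¹)) := by
  have hy : 0 < 1 - n := by linarith
  obtain ⟨o, ho⟩ : ∃ o, o = n / (1 - n) := ⟨_, rfl⟩
  have ho0 : 0 ≤ o := by rw [ho]; exact div_nonneg hn0 hy.le
  have hon : n ≤ o := by
    rw [ho, le_div_iff₀ hy]; nlinarith
  have h7 : 7 * n / (10 * (1 - n)) = 7 / 10 * o := by rw [ho]; field_simp
  have hinv : (1 - n)⁻¹ = 1 + o := by rw [ho]; field_simp; ring
  have hyo : (1 - n) * (1 + o) = 1 := by rw [← hinv]; field_simp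
  rw [h7, hinv]
  -- the factor
  have h1 : (1 + n / 2) ^ 2 ≤ (1 + o / 2) ^ 2 := pow_le_pow_left₀ (by linarith) (by linarith) 2
  have hpos : 0 ≤ xi * (1 - n) + q * (1 + o) := by positivity
  rcases le_or_gt q xi with h | h
  · -- q ≤ xi
    have h2 : xi * (1 - n) + q * (1 + o) ≤ (xi + q) / 2 * ((1 - n) + (1 + o)) := by
      nlinarith [mul_nonneg (sub_nonneg.mpr h) (by linarith : (0 : ℝ) ≤ (1 + o) - (1 - n))]
    have h3 : (1 + n / 2) ^ 2 ≤ (1 + 7 / 10 * o) ^ 2 :=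
      pow_le_pow_left₀ (by linarith) (by linarith) 2
    calc (1 + n / 2) ^ 2 * (xi * (1 - n) + q * (1 + o))
        ≤ (1 + 7 / 10 * o) ^ 2 * ((xi + q) / 2 * ((1 - n) + (1 + o))) :=
          mul_le_mul h3 h2 hpos (sq_nonneg _)
      _ = _ := by ring
  · -- q > xi : the excess (q - xi) / 2 * (1/y - y) is at most (xi + q) / 6 * (o + n)
    have h2 : xi * (1 - n) + q * (1 + o) ≤
        (xi + q) / 2 * (((1 - n) + (1 + o)) + (o + n) / 3) := by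
      have : (q - xi) * (o + n) ≤ (xi + q) / 3 * (o + n) :=
        mul_le_mul_of_nonneg_right (by linarith) (by linarith)
      nlinarith
    have h3 : (1 + n / 2) ^ 2 * (((1 - n) + (1 + o)) + (o + n) / 3) ≤
        (1 + 7 / 10 * o) ^ 2 * ((1 - n) + (1 + o)) := by
      -- use y (1 + o) = 1
      have e1 : o = n + n * o := by nlinarith
      nlinarith [mul_nonneg hn0 ho0, mul_nonneg hn0 hn0, mul_nonneg ho0 ho0,
        mul_nonneg (mul_nonneg hn0 ho0) ho0, mul_nonneg (mul_nonneg hn0 hn0) ho0,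
        mul_nonneg (mul_nonneg hn0 hn0) hn0, mul_nonneg (mul_nonneg ho0 ho0) ho0]
    have hE : 0 ≤ (xi + q) / 2 := by positivity
    calc (1 + n / 2) ^ 2 * (xi * (1 - n) + q * (1 + o))
        ≤ (1 + n / 2) ^ 2 * ((xi + q) / 2 * (((1 - n) + (1 + o)) + (o + n) / 3)) :=
          mul_le_mul_of_nonneg_left h2 (sq_nonneg _)
      _ = (xi + q) / 2 * ((1 + n / 2) ^ 2 * (((1 - n) + (1 + o)) + (o + n) / 3)) := by ring
      _ ≤ _ := mul_le_mul_of_nonneg_left h3 hE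

/-- **PR** in general form: `xi, om` with `E = (xi + om² / xi) / 2 ≥ 81/100` and
`3 (om² / xi - xi) ≤ xi + om² / xi`. -/
theorem prof_gen {xi om n : ℝ} {d : ℕ} (hd : 1 ≤ d) (hn0 : 0 ≤ n)
    (hn1 : Nd d * n ≤ 1) (hxi : 0 < xi) (hom : 0 < om)
    (hE : 81 / 100 ≤ (xi + om ^ 2 / xi) / 2) (hk : 3 * (om ^ 2 / xi - xi) ≤ xi + om ^ 2 / xi) :
    (1 - Nd d * n) * (d * ((1 + n / 2) ^ 2 * (xi * (1 - n) + xi⁻¹ * (om ^ 2 / (1 - n))) / 2) +
      (((1 - n)⁻¹) ^ d - 1)) ≤ d * ((xi + om ^ 2 / xi) / 2) := by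
  have hN := Nd_ge d
  have hn2 : n ≤ 20 / 57 := by
    have : 57 / 20 * n ≤ Nd d * n := mul_le_mul_of_nonneg_right hN hn0
    linarith
  have hy : 0 < 1 - n := by linarith
  have hq : 0 < om ^ 2 / xi := by positivity
  obtain ⟨q, hqq⟩ : ∃ q, q = om ^ 2 / xi := ⟨_, rfl⟩
  rw [← hqq] at hE hk hq ⊢
  have h1 : xi⁻¹ * (om ^ 2 / (1 - n)) = q * (1 - n)⁻¹ := by
    rw [hqq]; field_simp
  rw [h1]
  have hedge := edge_le hn0 hn2 hxi hq hk
  have hS : 0 ≤ (1 - n)⁻¹ ^ d - 1 := by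
    have : 1 ≤ (1 - n)⁻¹ := (one_le_inv₀ hy).mpr (by linarith)
    linarith [one_le_pow₀ this (n := d)]
  have hc := c1 d n hd hn0 hn1
  have hl : 0 ≤ 1 - Nd d * n := by linarith
  obtain ⟨E, hEE⟩ : ∃ E, E = (xi + q) / 2 := ⟨_, rfl⟩
  rw [← hEE] at hE hedge ⊢
  have hE0 : 0 < E := by linarith
  have hd0 : (0 : ℝ) ≤ d := Nat.cast_nonneg d
  have h2 : d * ((1 + n / 2) ^ 2 * (xi * (1 - n) + q * (1 - n)⁻¹) / 2) + ((1 - n)⁻¹ ^ d - 1) ≤
      E * (((1 - n)⁻¹ ^ d - 1) / (81 / 100) +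
        d * (1 + 7 * n / (10 * (1 - n))) ^ 2 * ((1 - n) + (1 - n)⁻¹) / 2) := by
    have h3 : d * ((1 + n / 2) ^ 2 * (xi * (1 - n) + q * (1 - n)⁻¹) / 2) ≤
        E * (d * (1 + 7 * n / (10 * (1 - n))) ^ 2 * ((1 - n) + (1 - n)⁻¹) / 2) := by
      have := mul_le_mul_of_nonneg_left hedge hd0
      nlinarith
    have h4 : ((1 - n)⁻¹ ^ d - 1) ≤ E * (((1 - n)⁻¹ ^ d - 1) / (81 / 100)) := by
      have : 81 / 100 * (((1 - n)⁻¹ ^ d - 1) / (81 / 100)) ≤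
          E * (((1 - n)⁻¹ ^ d - 1) / (81 / 100)) :=
        mul_le_mul_of_nonneg_right hE (by positivity)
      linarith
    linarith
  calc _ ≤ (1 - Nd d * n) * (E * (((1 - n)⁻¹ ^ d - 1) / (81 / 100) +
        d * (1 + 7 * n / (10 * (1 - n))) ^ 2 * ((1 - n) + (1 - n)⁻¹) / 2)) :=
          mul_le_mul_of_nonneg_left h2 hl
    _ = E * ((1 - Nd d * n) * (((1 - n)⁻¹ ^ d - 1) / (81 / 100) +
        d * (1 + 7 * n / (10 * (1 - n))) ^ 2 * ((1 - n) + (1 - n)⁻¹) / 2)) := by ring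
    _ ≤ E * d := mul_le_mul_of_nonneg_left hc hE0.le
    _ = d * E := by ring

/-- **PR** for the constants of the certificate. -/
theorem prof {xi om n : ℝ} {d : ℕ} (hd : 1 ≤ d) (hn0 : 0 ≤ n)
    (hn1 : Nd d * n ≤ 1) (hxi : xi = 21 / 25 ∨ xi = 22 / 25 ∨ xi = 1)
    (hom : om = 163 / 200 ∨ om = 21 / 25 ∨ om = 22 / 25 ∨ om = 1) :
    (1 - Nd d * n) * (d * ((1 + n / 2) ^ 2 * (xi * (1 - n) + xi⁻¹ * (om ^ 2 / (1 - n))) / 2) +
      (((1 - n)⁻¹) ^ d - 1)) ≤ d * ((xi + om ^ 2 / xi) / 2) := by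
  apply prof_gen hd hn0 hn1
  · rcases hxi with h | h | h <;> rw [h] <;> norm_num
  · rcases hom with h | h | h | h <;> rw [h] <;> norm_num
  · rcases hxi with h | h | h <;> rcases hom with h' | h' | h' | h' <;> rw [h, h'] <;> norm_num
  · rcases hxi with h | h | h <;> rcases hom with h' | h' | h' | h' <;> rw [h, h'] <;> norm_num

end Pool.Agent.T6A.Cert
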