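import Pool.Agent.T6A.CertAsm3
import Pool.Agent.T6A.CertFin
import Pool.Agent.T6A.Cert5Final
import Pool.Agent.T6A.Cert3Final

/-!
# CERT for `Q = 5`, `Q = 3` and `Q = 2.9995` (MP_c6effb_co)
-/

set_option autoImplicit false

namespace Pool.Agent.T6A

open Line3 Cert3

/-- **CERT** for `Q = 5`. -/
theorem certStmt5 : CertStmt 5 :=
  CA3.cert_of_numR (by norm_num) C5T.numCertR_5_10 Cert.certStmt

/-- **CERT** for `Q = 3`. -/
theorem certStmt3 : CertStmt 3 :=
  CA3.cert_of_numR (by norm_num) Cert3.numCertR_3_5 certStmt5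

/-- The box `q ∈ [2.999, 5.001]`, `s ∈ [0.5, 1.01]` of the table `C3T`. -/
theorem cellBox3 : CellBox (2999 / 1000) (5001 / 1000) (500 / 1000) (1010 / 1000) := by
  refine cellBox_of (am := 5 / 4) globR (by norm_num) (by norm_num) line3 ?_ ?_
  · intro pr hp
    rcases tabR_mem hp with rfl | ⟨d, h1, h2, rfl⟩
    · exact ⟨by norm_num, fun h => absurd h (by norm_num)⟩
    · exact pars3 h1 h2
  · intro pr hp r hr
    rcases tabR_mem hp with rfl | ⟨d, h1, h2, rfl⟩
    · exact absurd hr (by simp)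
    · exact rows3 h1 hr

/-- The numerical certificate for `2.9995 ≤ q ≤ 5`. -/
theorem numR29995 : NumCertR (5999 / 2000) 5 :=
  numCertR_of_box cellBox3 (by norm_num) (by norm_num) (by norm_num) (by norm_num)

/-- **CERT** for `Q = 2.9995`. -/
theorem certStmt29995 : CertStmt (5999 / 2000) :=
  CA3.cert_of_numR (by norm_num) numR29995 certStmt5

end Pool.Agent.T6A
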