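import Mathlib

/-!
# The two ends of the vertex inequality (MP_c6effb_co)

`J ↦ lam J (2 - lam (J + A))` is concave, so on an interval it is at least the smaller of the values at the
two ends.
-/

set_option autoImplicit false

namespace Pool.Agent.T6A.Cert

/-- concavity in `J` -/
theorem vertex_ends {lam A J J1 J2 L : ℝ} (h1 : J1 ≤ J) (h2 : J ≤ J2)
    (e1 : L ≤ lam * J1 * (2 - lam * (J1 + A))) (e2 : L ≤ lam * J2 * (2 - lam * (J2 + A))) :
    L ≤ lam * J * (2 - lam * (J + A)) := by
  rcases eq_or_lt_of_le (h1.trans h2) with h | h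
  · have : J = J1 := le_antisymm (by rw [h]; exact h2) h1
    rw [this]
    exact e1
  · have h3 : 0 < J2 - J1 := by linarith
    have h4 : 0 ≤ (J - J1) * (J2 - J) := mul_nonneg (by linarith) (by linarith)
    have h5 : (J2 - J) * L ≤ (J2 - J) * (lam * J1 * (2 - lam * (J1 + A))) :=
      mul_le_mul_of_nonneg_left e1 (by linarith)
    have h6 : (J - J1) * L ≤ (J - J1) * (lam * J2 * (2 - lam * (J2 + A))) :=
      mul_le_mul_of_nonneg_left e2 (by linarith)
    have h7 : (J2 - J1) * (lam * J * (2 - lam * (J + A))) =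
        (J2 - J) * (lam * J1 * (2 - lam * (J1 + A))) + (J - J1) * (lam * J2 * (2 - lam * (J2 + A))) +
          (J2 - J1) * (lam ^ 2 * ((J - J1) * (J2 - J))) := by
      ring
    have h8 : 0 ≤ (J2 - J1) * (lam ^ 2 * ((J - J1) * (J2 - J))) := by positivity
    have h9 : (J2 - J1) * L ≤ (J2 - J1) * (lam * J * (2 - lam * (J + A))) := by
      rw [h7]
      linarith
    exact le_of_mul_le_mul_left h9 h3

/-- the same in the form of `NumVtx.line` -/
theorem vertex_ends' {lam A J J1 J2 L : ℝ} (h1 : J1 ≤ J) (h2 : J ≤ J2)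
    (e1 : L ≤ lam * J1 * (2 - lam * (J1 + A))) (e2 : L ≤ lam * J2 * (2 - lam * (J2 + A))) :
    L ≤ 2 * (lam * J) - lam ^ 2 * (J * (J + A)) := by
  refine (vertex_ends h1 h2 e1 e2).trans (le_of_eq ?_)
  ring

end Pool.Agent.T6A.Cert
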