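import Pool.Agent.T6A.MathAsm
import Pool.Agent.T6A.Thr3

/-!
# `Lim3` from the rule and the certificate (MP_c6effb_co, round 2)

The same proof as for `lim_of`, with the threshold hypothesis passed on.
-/

set_option autoImplicit false

open Finset

namespace Pool.Agent.T6A

noncomputable section

/-- **`Lim3` from the rule and the certificate.** -/
theorem lim3_of {Q : ℝ} (hR : RuleStmt) (hC : CertStmt3 Q) : Lim3 Q := by
  classical
  intro C
  obtain ⟨e, he0, he8, hC⟩ := hC C
  refine ⟨e, he0, he8, fun K ζ hζ => ?_⟩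
  obtain ⟨R, η, ε₀, hη, hε₀, hC⟩ := hC K
  obtain ⟨R', hR'⟩ : ∃ R', R' = max R 4 := ⟨_, rfl⟩
  have hR1 : R ≤ R' := hR' ▸ le_max_left _ _
  have hR4 : 4 ≤ R' := hR' ▸ le_max_right _ _
  obtain ⟨δ, hδ'⟩ : ∃ δ, δ = min ζ (η / (R' + 1)) := ⟨_, rfl⟩
  have hδ : 0 < δ := hδ' ▸ lt_min hζ (by positivity)
  have hδζ : δ ≤ ζ := hδ' ▸ min_le_left _ _
  have hδη : δ * (R' + 1) ≤ η := by
    have h1 : δ ≤ η / (R' + 1) := hδ' ▸ min_le_right _ _
    have h2 : 0 < R' + 1 := by linarith
    calc δ * (R' + 1) ≤ η / (R' + 1) * (R' + 1) := mul_le_mul_of_nonneg_right h1 h2.le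
      _ = η := div_mul_cancel₀ _ h2.ne'
  obtain ⟨B, ε₁, hε₁, hR⟩ := hR K R' δ hδ
  refine ⟨B, min ε₀ ε₁, lt_min hε₀ hε₁, ?_⟩
  intro V ι _ _ X L Bd k hW hthr
  have hk := hW.k0
  have hsA : 1 / 4 ≤ X.sA := by
    have h1 := hW.s1
    have h2 := hW.s2
    linarith
  have hsA0 : 0 < X.sA := by linarith
  have hμ0 := X.mu_nonneg
  have hμ1 := X.mu_sum hsA0
  have hμR : ∀ a, X.mu a ≤ R' * X.w a := by
    intro a
    by_cases ha : a ∈ X.A
    · rw [X.mu_mem ha, div_le_iff₀ hsA0]
      have hwa := X.pos a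
      have h1 : 1 ≤ R' * X.sA := by nlinarith
      calc X.w a = X.w a * 1 := (mul_one _).symm
        _ ≤ X.w a * (R' * X.sA) := mul_le_mul_of_nonneg_left h1 hwa.le
        _ = _ := by ring
    · rw [X.mu_notMem ha]
      exact mul_nonneg (by linarith) (X.pos a).le
  have hbs : ∀ i, ∀ S : Finset ι, (∀ i' ∈ S, Bd i i') → ∑ i' ∈ S, X.w i' ≤ ε₁ := by
    intro i S hS
    have h1 := (hW.bsmall i).trans (min_le_right _ _)
    refine le_trans (sum_le_sum_of_subset_of_nonneg ?_ fun j _ _ => (X.pos j).le) h1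
    intro j hj
    exact mem_filter.2 ⟨mem_univ _, hS j hj⟩
  have hAs : ∀ v, ∀ S : Finset ι, (∀ i ∈ S, i ∈ X.A ∧ i ∉ L.Av v) → ∑ i ∈ S, X.w i ≤ ε₁ := by
    intro v S hS
    have h1 := (hW.Avw v).trans (min_le_right _ _)
    refine le_trans (sum_le_sum_of_subset_of_nonneg ?_ fun j _ _ => (X.pos j).le) h1
    intro j hj
    exact mem_sdiff.2 (hS j hj)
  by_cases hs : X.s < 1 + 3 * e
  · obtain ⟨r, hr⟩ := hC V ι X L Bd k (hW.mono (min_le_left _ _)) hthr hs
    have hrR : ∀ v y, r v y ≤ R' * X.w y := fun v y =>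
      (hr.rw v y).trans (mul_le_mul_of_nonneg_right hR1 (X.pos y).le)
    obtain ⟨Om, iOm, p, g, b, Bn, hO⟩ := hR V ι X L Bd X.mu r hW.dK hW.bsymm hW.brefl hbs hAs hμ0 hμ1
      (fun a ha => X.mu_notMem ha) hμR hr.r0 hr.rB hrR (fun v => (hr.rs v).trans hR1)
    have hnb1 : ∀ y, 0 ≤ 1 - nb X.F X.mu y := by
      intro y
      have := nb_le_one (F := X.F) hμ0 hμ1 y
      linarith
    refine ⟨Om, iOm, p, g, b, Bn, fun a y => (1 / k) * ∑ v, min (EE p (fun ω =>
      if g ω v = a ∧ b ω v = some y ∧ ¬ badE L Bd g b ω v then 1 else 0))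
      (2 * X.mu a * (r v y * (1 - nb X.F X.mu y) ^ L.d v)), ?_⟩
    have hmin0 : ∀ v a y, 0 ≤ min (EE p (fun ω =>
      if g ω v = a ∧ b ω v = some y ∧ ¬ badE L Bd g b ω v then 1 else 0))
      (2 * X.mu a * (r v y * (1 - nb X.F X.mu y) ^ L.d v)) := by
      intro v a y
      refine le_min (EE_nonneg hO.law fun ω => by split_ifs <;> norm_num) ?_
      exact mul_nonneg (mul_nonneg (by norm_num) (hμ0 a))
        (mul_nonneg (hr.r0 v y) (pow_nonneg (hnb1 y) _))
    have hk1 : ∀ x : ℝ, (1 / k) * x * k = x := fun x => by field_simp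
    refine ⟨hO.law, hO.loc, hO.ov, hO.mem, hO.st, hO.tt, ?_, ?_, ?_, ?_, ?_, ?_⟩
    · intro a y
      exact mul_nonneg (by positivity) (sum_nonneg fun v _ => hmin0 v a y)
    · intro a y hy
      have h1 : ∀ v, min (EE p (fun ω =>
          if g ω v = a ∧ b ω v = some y ∧ ¬ badE L Bd g b ω v then 1 else 0))
          (2 * X.mu a * (r v y * (1 - nb X.F X.mu y) ^ L.d v)) = 0 := by
        intro v
        have hry : r v y = 0 := hr.rB v y fun h => disjoint_left.1 (hW.BvA v) h hy
        refine le_antisymm ((min_le_right _ _).trans ?_) (hmin0 v a y)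
        rw [hry]; simp
      simp only [h1, sum_const_zero, mul_zero]
    · intro a _ y
      rw [hk1]
      exact sum_le_sum fun v _ => min_le_left _ _
    · intro a ha
      have e1 : ∑ y, (1 / k) * (∑ v, min (EE p (fun ω =>
          if g ω v = a ∧ b ω v = some y ∧ ¬ badE L Bd g b ω v then 1 else 0))
          (2 * X.mu a * (r v y * (1 - nb X.F X.mu y) ^ L.d v))) * k =
          ∑ v, ∑ y, min (EE p (fun ω =>
          if g ω v = a ∧ b ω v = some y ∧ ¬ badE L Bd g b ω v then 1 else 0))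
          (2 * X.mu a * (r v y * (1 - nb X.F X.mu y) ^ L.d v)) := by
        rw [sum_comm]
        exact sum_congr rfl fun y _ => hk1 _
      rw [e1, ← sum_sub_distrib]
      have h1 := sum_le_sum fun v (_ : v ∈ (univ : Finset V)) =>
        vertex_le hμ0 hμ1 hr.r0 (fun v => (hr.rs v).trans hR1) hδ.le hO v a
      refine h1.trans ?_
      rw [sum_add_distrib, ← mul_sum, sum_sub_distrib]
      simp only [sum_const, card_univ, nsmul_eq_mul, mul_one]
      have h2 := hr.main a ha
      have hμa := hμ0 a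
      have h3 : (Fintype.card V : ℝ) * (X.mu a * (δ * (R' + 1))) ≤ X.mu a * (η * k) := by
        have h4 : (Fintype.card V : ℝ) * (δ * (R' + 1)) ≤ k * η :=
          mul_le_mul hW.cV hδη (by positivity) hk.le
        calc (Fintype.card V : ℝ) * (X.mu a * (δ * (R' + 1)))
            = X.mu a * ((Fintype.card V : ℝ) * (δ * (R' + 1))) := by ring
          _ ≤ X.mu a * (k * η) := mul_le_mul_of_nonneg_left h4 hμa
          _ = _ := by ring
      have h5 := mul_le_mul_of_nonneg_left h2 hμa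
      have h6 : X.mu a * X.sA = X.w a := by
        rw [X.mu_mem ha]; exact div_mul_cancel₀ _ hsA0.ne'
      calc _ ≤ X.mu a * (((1 - e) * X.sA - η) * k) + X.mu a * (η * k) := add_le_add h5 h3
        _ = (1 - e) * (X.mu a * X.sA) * k := by ring
        _ = _ := by rw [h6]
    · intro y hy
      have h1 : ∀ a ∈ X.A, (1 / k) * (∑ v, min (EE p (fun ω =>
          if g ω v = a ∧ b ω v = some y ∧ ¬ badE L Bd g b ω v then 1 else 0))
          (2 * X.mu a * (r v y * (1 - nb X.F X.mu y) ^ L.d v))) ≤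
          X.mu a * ((1 - e) * X.w y) := by
        intro a _
        have hμa := hμ0 a
        have h2 : ∑ v, min (EE p (fun ω =>
            if g ω v = a ∧ b ω v = some y ∧ ¬ badE L Bd g b ω v then 1 else 0))
            (2 * X.mu a * (r v y * (1 - nb X.F X.mu y) ^ L.d v)) ≤
            ∑ _v : V, X.mu a * ((1 - e) * X.w y) := by
          refine sum_le_sum fun v _ => (min_le_right _ _).trans ?_
          calc 2 * X.mu a * (r v y * (1 - nb X.F X.mu y) ^ L.d v)
              = X.mu a * (2 * (r v y * (1 - nb X.F X.mu y) ^ L.d v)) := by ring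
            _ ≤ _ := mul_le_mul_of_nonneg_left (hr.rc v y) hμa
        rw [sum_const, card_univ, nsmul_eq_mul] at h2
        have hnn : 0 ≤ X.mu a * ((1 - e) * X.w y) :=
          mul_nonneg hμa (mul_nonneg (by linarith) (X.pos y).le)
        calc _ ≤ (1 / k) * ((Fintype.card V : ℝ) * (X.mu a * ((1 - e) * X.w y))) :=
              mul_le_mul_of_nonneg_left h2 (by positivity)
          _ ≤ (1 / k) * (k * (X.mu a * ((1 - e) * X.w y))) :=
              mul_le_mul_of_nonneg_left (mul_le_mul_of_nonneg_right hW.cV hnn) (by positivity)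
          _ = _ := by field_simp
      refine (sum_le_sum h1).trans ?_
      rw [← sum_mul]
      have h3 : ∑ a ∈ X.A, X.mu a ≤ 1 := by
        rw [← hμ1]
        exact sum_le_sum_of_subset_of_nonneg (subset_univ _) fun a _ _ => hμ0 a
      have hnn : 0 ≤ (1 - e) * X.w y := mul_nonneg (by linarith) (X.pos y).le
      calc _ ≤ 1 * ((1 - e) * X.w y) := mul_le_mul_of_nonneg_right h3 hnn
        _ = _ := one_mul _
    · have h1 := sum_le_sum fun v (_ : v ∈ (univ : Finset V)) => hO.zv v
      refine h1.trans ?_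
      rw [sum_const, card_univ, nsmul_eq_mul]
      calc (Fintype.card V : ℝ) * δ ≤ k * ζ := mul_le_mul hW.cV hδζ hδ.le hk.le
        _ = _ := mul_comm _ _
  · push Not at hs
    have hR0 : (0 : ℝ) ≤ R' := by linarith
    obtain ⟨Om, iOm, p, g, b, Bn, hO⟩ := hR V ι X L Bd X.mu (fun _ _ => 0) hW.dK hW.bsymm hW.brefl
      hbs hAs hμ0 hμ1 (fun a ha => X.mu_notMem ha) hμR (fun _ _ => le_rfl) (fun _ _ _ => rfl)
      (fun _ y => mul_nonneg hR0 (X.pos y).le) (fun _ => by simpa using hR0)
    refine ⟨Om, iOm, p, g, b, Bn, fun _ _ => 0, ?_⟩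
    refine ⟨hO.law, hO.loc, hO.ov, hO.mem, hO.st, hO.tt, fun _ _ => le_rfl, fun _ _ _ => rfl,
      ?_, ?_, ?_, ?_⟩
    · intro a _ y
      rw [zero_mul]
      exact sum_nonneg fun v _ => EE_nonneg hO.law fun ω => by split_ifs <;> norm_num
    · intro a ha
      simp only [zero_mul, sum_const_zero, sub_zero]
      have h1 : ∀ v, EE p (fun ω => if g ω v = a ∧ ¬ zev L Bd g ω v then (1 : ℝ) else 0) ≤
          X.mu a := by
        intro v
        rw [← hO.gm v a]
        refine EE_mono hO.law fun ω => ?_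
        by_cases h : g ω v = a
        · rw [if_pos h]
          split_ifs <;> norm_num
        · rw [if_neg h, if_neg fun h' => h h'.1]
      refine (sum_le_sum fun v _ => h1 v).trans ?_
      rw [sum_const, card_univ, nsmul_eq_mul]
      have hμa := hμ0 a
      have h2 : X.w a = X.mu a * X.sA := by
        rw [X.mu_mem ha]; exact (div_mul_cancel₀ _ hsA0.ne').symm
      have h3 : 1 ≤ (1 - e) * X.sA := by
        have h4 := hW.s2
        have h5 : 1 + 2 * e ≤ X.sA := by linarith
        have h6 : (1 - e) * (1 + 2 * e) ≤ (1 - e) * X.sA :=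
          mul_le_mul_of_nonneg_left h5 (by linarith)
        nlinarith
      calc (Fintype.card V : ℝ) * X.mu a ≤ k * X.mu a := mul_le_mul_of_nonneg_right hW.cV hμa
        _ = k * X.mu a * 1 := (mul_one _).symm
        _ ≤ k * X.mu a * ((1 - e) * X.sA) :=
            mul_le_mul_of_nonneg_left h3 (mul_nonneg hk.le hμa)
        _ = (1 - e) * (X.mu a * X.sA) * k := by ring
        _ = _ := by rw [← h2]
    · intro y _
      rw [sum_const_zero]
      exact mul_nonneg (by linarith) (X.pos y).le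
    · have h1 := sum_le_sum fun v (_ : v ∈ (univ : Finset V)) => hO.zv v
      refine h1.trans ?_
      rw [sum_const, card_univ, nsmul_eq_mul]
      calc (Fintype.card V : ℝ) * δ ≤ k * ζ := mul_le_mul hW.cV hδζ hδ.le hk.le
        _ = _ := mul_comm _ _

end

end Pool.Agent.T6A
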