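import Pool.Agent.T6A.MathStmt

/-!
# `Lim Q` from the rule and the certificate (MP_c6effb_co, T6-A)
-/

set_option autoImplicit false

open Finset

namespace Pool.Agent.T6A

noncomputable section

theorem WorldOK.mono {V ι : Type} [Fintype V] [Fintype ι] {X : World ι} {L : Low V ι}
    {Bd : ι → ι → Prop} {k Q : ℝ} {C K : ℕ} {e ε ε' : ℝ} (h : WorldOK X L Bd k Q C K e ε)
    (hε : ε ≤ ε') : WorldOK X L Bd k Q C K e ε' :=
  { h with
    bsmall := fun i => (h.bsmall i).trans hε
    Avw := fun v => (h.Avw v).trans hε }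

open Classical in
/-- The lower bound is at most `2 h`. -/
theorem LB_le {V ι : Type} [Fintype V] [Fintype ι] {F : SimpleGraph ι} {G : SimpleGraph V}
    {μ : ι → ℝ} (h0 : ∀ x, 0 ≤ μ x) (h1 : ∑ x, μ x = 1) {r : V → ι → ℝ} (hr : ∀ v y, 0 ≤ r v y)
    (v : V) (a y : ι) : LB F G μ r v a y ≤ 2 * (r v y * (1 - nb F μ y) ^ #(nbh G v)) := by
  have hlaw := isLaw_const (V := V) h0 h1
  have hv : v ∉ nbh G v := by simp [nbh]
  unfold LB
  have hpt : ∀ g : V → ι, r v y * (il F (nbh G v) y g *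
      (2 - Xk F G r v g - ∑ u ∈ nbh G v, Nk F G r u y g / (1 + Mk F G r u y g))) ≤
      2 * r v y * il F (nbh G v) y g := by
    intro g
    have hi := il_nonneg (F := F) (nbh G v) y g
    have hX : 0 ≤ Xk F G r v g := sum_nonneg fun c _ => mul_nonneg (hr v c) (il_nonneg _ _ _)
    have hS : 0 ≤ ∑ u ∈ nbh G v, Nk F G r u y g / (1 + Mk F G r u y g) := by
      refine sum_nonneg fun u _ => div_nonneg (Nk_nonneg hr u y g) ?_
      have := Mk_nonneg (F := F) (G := G) hr u y g
      linarith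
    have h2 : il F (nbh G v) y g *
        (2 - Xk F G r v g - ∑ u ∈ nbh G v, Nk F G r u y g / (1 + Mk F G r u y g)) ≤
        il F (nbh G v) y g * 2 := mul_le_mul_of_nonneg_left (by linarith) hi
    calc _ ≤ r v y * (il F (nbh G v) y g * 2) := mul_le_mul_of_nonneg_left h2 (hr v y)
      _ = _ := by ring
  refine (EE_mono hlaw fun h => hpt (Function.update h v a)).trans (le_of_eq ?_)
  rw [EE_smul, EE_il_update h0 h1 hv]
  ring

theorem World.mu_notMem {ι : Type} [Fintype ι] (X : World ι) {a : ι} (h : a ∉ X.A) :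
    X.mu a = 0 := if_neg h

theorem World.mu_mem {ι : Type} [Fintype ι] (X : World ι) {a : ι} (h : a ∈ X.A) :
    X.mu a = X.w a / X.sA := if_pos h

open Classical in
/-- One vertex. -/
theorem vertex_le {V ι Om : Type} [Fintype V] [Fintype ι] [Fintype Om] {X : World ι} {L : Low V ι}
    {Bd : ι → ι → Prop} {B : ℕ} {δ R : ℝ} {μ : ι → ℝ} {r : V → ι → ℝ} {p : V → Om → ℝ}
    {g : (V → Om) → V → ι} {b : (V → Om) → V → Option ι} {Bn : V → Finset V}
    (h0 : ∀ x, 0 ≤ μ x) (h1 : ∑ x, μ x = 1) (hr : ∀ v y, 0 ≤ r v y) (hrs : ∀ v, ∑ y, r v y ≤ R)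
    (hδ : 0 ≤ δ) (hO : RuleOut X L Bd B δ μ r p g b Bn) (v : V) (a : ι) :
    EE p (fun ω => if g ω v = a ∧ ¬ zev L Bd g ω v then 1 else 0) -
      ∑ y, min (EE p (fun ω => if g ω v = a ∧ b ω v = some y ∧ ¬ badE L Bd g b ω v then 1 else 0))
        (2 * μ a * (r v y * (1 - nb X.F μ y) ^ L.d v)) ≤
      μ a * (1 - ∑ y, LB X.F L.G μ r v a y) + μ a * (δ * (R + 1)) := by
  have hd : L.d v = #(nbh L.G v) := rfl
  have hμ := h0 a
  have hterm : ∀ y, μ a * (LB X.F L.G μ r v a y - δ * r v y) -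
      (EE p (fun ω => if g ω v = a ∧ b ω v = some y then 1 else 0) -
        EE p (fun ω => if g ω v = a ∧ b ω v = some y ∧ ¬ badE L Bd g b ω v then 1 else 0)) ≤
      min (EE p (fun ω => if g ω v = a ∧ b ω v = some y ∧ ¬ badE L Bd g b ω v then 1 else 0))
        (2 * μ a * (r v y * (1 - nb X.F μ y) ^ L.d v)) := by
    intro y
    have hlow := hO.low v a y
    have hsub : EE p (fun ω => if g ω v = a ∧ b ω v = some y ∧ ¬ badE L Bd g b ω v then 1 else 0) ≤
        EE p (fun ω => if g ω v = a ∧ b ω v = some y then 1 else 0) := by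
      refine EE_mono hO.law fun ω => ?_
      by_cases h : g ω v = a ∧ b ω v = some y ∧ ¬ badE L Bd g b ω v
      · rw [if_pos h, if_pos ⟨h.1, h.2.1⟩]
      · rw [if_neg h]
        split_ifs <;> norm_num
    refine le_min (by linarith) ?_
    have hLB := LB_le (F := X.F) (G := L.G) h0 h1 hr v a y
    rw [hd]
    have h2 := mul_le_mul_of_nonneg_left hLB hμ
    have h3 : 0 ≤ μ a * (δ * r v y) := mul_nonneg hμ (mul_nonneg hδ (hr v y))
    have h4 : μ a * (LB X.F L.G μ r v a y - δ * r v y) =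
      μ a * LB X.F L.G μ r v a y - μ a * (δ * r v y) := by ring
    have h5 : μ a * (2 * (r v y * (1 - nb X.F μ y) ^ #(nbh L.G v))) =
      2 * μ a * (r v y * (1 - nb X.F μ y) ^ #(nbh L.G v)) := by ring
    linarith
  have hsum := sum_le_sum fun y (_ : y ∈ (univ : Finset ι)) => hterm y
  rw [sum_sub_distrib, sum_sub_distrib] at hsum
  have e1 : ∑ y, μ a * (LB X.F L.G μ r v a y - δ * r v y) =
      μ a * ∑ y, LB X.F L.G μ r v a y - μ a * (δ * ∑ y, r v y) := by
    rw [mul_sum, mul_sum, mul_sum, ← sum_sub_distrib]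
    exact sum_congr rfl fun y _ => by ring
  have h2 : μ a * (δ * ∑ y, r v y) ≤ μ a * (δ * R) :=
    mul_le_mul_of_nonneg_left (mul_le_mul_of_nonneg_left (hrs v) hδ) hμ
  have h3 : (∑ y, EE p (fun ω => if g ω v = a ∧ b ω v = some y then 1 else 0)) -
      (∑ y, EE p (fun ω => if g ω v = a ∧ b ω v = some y ∧ ¬ badE L Bd g b ω v then 1 else 0)) ≤
      EE p (fun ω => if g ω v = a then 1 else 0) -
        EE p (fun ω => if g ω v = a ∧ ¬ zev L Bd g ω v then 1 else 0) +
        EE p (fun ω => if g ω v = a ∧ ¬ zev L Bd g ω v ∧ badE L Bd g b ω v then 1 else 0) := by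
    rw [← EE_sum, ← EE_sum, ← EE_sub, ← EE_sub, ← EE_add]
    refine EE_mono hO.law fun ω => ?_
    rw [← sum_sub_distrib]
    by_cases hg : g ω v = a
    · have hzb : zev L Bd g ω v → badE L Bd g b ω v := Or.inl
      rcases hb : b ω v with _ | y₀
      · have : ∀ y : ι, ((if g ω v = a ∧ b ω v = some y then (1 : ℝ) else 0) -
            if g ω v = a ∧ b ω v = some y ∧ ¬ badE L Bd g b ω v then 1 else 0) = 0 := by
          intro y
          simp [hb]
        simp only [hb] at this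
        rw [sum_congr rfl fun y _ => this y, sum_const_zero]
        by_cases hz : zev L Bd g ω v
        · simp [hg, hz]
        · by_cases hbd : badE L Bd g b ω v <;> simp [hg, hz, hbd]
      · rw [sum_eq_single y₀]
        · by_cases hbd : badE L Bd g b ω v
          · by_cases hz : zev L Bd g ω v <;> simp [hg, hz, hbd]
          · have hz : ¬ zev L Bd g ω v := fun h => hbd (hzb h)
            simp [hg, hz, hbd]
        · intro y _ hy
          have : ¬ (some y₀ = some y) := fun h => hy (Option.some.inj h).symm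
          simp [this]
        · intro h
          exact absurd (mem_univ _) h
    · simp [hg]
  have h4 := hO.gm v a
  have h5 := hO.bad v a
  rw [h4] at h3
  have h6 : μ a * (1 - ∑ y, LB X.F L.G μ r v a y) = μ a - μ a * ∑ y, LB X.F L.G μ r v a y := by ring
  have h7 : μ a * (δ * (R + 1)) = μ a * (δ * R) + μ a * δ := by ring
  rw [h6, h7]
  linarith

/-- **The scheme from the rule and the rates**, with uniform constants; `H` = further hypotheses. -/
theorem scheme_core (hR : RuleStmt) {e : ℝ} (he0 : 0 < e) (he8 : e ≤ 1 / 8) (K : ℕ)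
    {R η ε₀ ζ : ℝ} (hη : 0 < η) (hε₀ : 0 < ε₀) (hζ : 0 < ζ) :
    ∃ (B : ℕ) (ε : ℝ), 0 < ε ∧ ε ≤ ε₀ ∧ ∀ (V ι : Type) [Fintype V] [Fintype ι] (X : World ι)
      (L : Low V ι) (Bd : ι → ι → Prop) (k Q : ℝ) (C : ℕ), WorldOK X L Bd k Q C K e ε →
      (X.s < 1 + 3 * e → ∃ r : V → ι → ℝ, RateOK X L k e R η r) →
      ∃ (Om : Type) (_ : Fintype Om) (p : V → Om → ℝ) (g : (V → Om) → V → ι)
        (b : (V → Om) → V → Option ι) (Bn : V → Finset V) (φ : ι → ι → ℝ),
        Scheme X L Bd k e ζ B p g b Bn φ := by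
  classical
  obtain ⟨R', hR'⟩ : ∃ R', R' = max R 4 := ⟨_, rfl⟩
  have hR1 : R ≤ R' := hR' ▸ le_max_left _ _
  have hR4 : 4 ≤ R' := hR' ▸ le_max_right _ _
  obtain ⟨δ, hδ'⟩ : ∃ δ, δ = min ζ (η / (R' + 1)) := ⟨_, rfl⟩
  have hδ : 0 < δ := hδ' ▸ lt_min hζ (by positivity)
  have hδζ : δ ≤ ζ := hδ' ▸ min_le_left _ _
  have hδη : δ * (R' + 1) ≤ η := by
    have h1 : δ ≤ η / (R' + 1) := hδ' ▸ min_le_right _ _
    have h2 : 0 < R' + 1 := by linarith
    calc δ * (R' + 1) ≤ η / (R' + 1) * (R' + 1) := mul_le_mul_of_nonneg_right h1 h2.le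
      _ = η := div_mul_cancel₀ _ h2.ne'
  obtain ⟨B, ε₁, hε₁, hR⟩ := hR K R' δ hδ
  refine ⟨B, min ε₀ ε₁, lt_min hε₀ hε₁, min_le_left _ _, ?_⟩
  intro V ι _ _ X L Bd k Q C hW hC
  have hk := hW.k0
  have hsA : 1 / 4 ≤ X.sA := by
    have h1 := hW.s1
    have h2 := hW.s2
    linarith
  have hsA0 : 0 < X.sA := by linarith
  have hμ0 := X.mu_nonneg
  have hμ1 := X.mu_sum hsA0
  have hμR : ∀ a, X.mu a ≤ R' * X.w a := by
    intro a
    by_cases ha : a ∈ X.A
    · rw [X.mu_mem ha, div_le_iff₀ hsA0]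
      have hwa := X.pos a
      have h1 : 1 ≤ R' * X.sA := by nlinarith
      calc X.w a = X.w a * 1 := (mul_one _).symm
        _ ≤ X.w a * (R' * X.sA) := mul_le_mul_of_nonneg_left h1 hwa.le
        _ = _ := by ring
    · rw [X.mu_notMem ha]
      exact mul_nonneg (by linarith) (X.pos a).le
  have hbs : ∀ i, ∀ S : Finset ι, (∀ i' ∈ S, Bd i i') → ∑ i' ∈ S, X.w i' ≤ ε₁ := by
    intro i S hS
    have h1 := (hW.bsmall i).trans (min_le_right _ _)
    refine le_trans (sum_le_sum_of_subset_of_nonneg ?_ fun j _ _ => (X.pos j).le) h1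
    intro j hj
    exact mem_filter.2 ⟨mem_univ _, hS j hj⟩
  have hAs : ∀ v, ∀ S : Finset ι, (∀ i ∈ S, i ∈ X.A ∧ i ∉ L.Av v) → ∑ i ∈ S, X.w i ≤ ε₁ := by
    intro v S hS
    have h1 := (hW.Avw v).trans (min_le_right _ _)
    refine le_trans (sum_le_sum_of_subset_of_nonneg ?_ fun j _ _ => (X.pos j).le) h1
    intro j hj
    exact mem_sdiff.2 (hS j hj)
  by_cases hs : X.s < 1 + 3 * e
  · obtain ⟨r, hr⟩ := hC hs
    have hrR : ∀ v y, r v y ≤ R' * X.w y := fun v y =>
      (hr.rw v y).trans (mul_le_mul_of_nonneg_right hR1 (X.pos y).le)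
    obtain ⟨Om, iOm, p, g, b, Bn, hO⟩ := hR V ι X L Bd X.mu r hW.dK hW.bsymm hW.brefl hbs hAs hμ0 hμ1
      (fun a ha => X.mu_notMem ha) hμR hr.r0 hr.rB hrR (fun v => (hr.rs v).trans hR1)
    have hnb1 : ∀ y, 0 ≤ 1 - nb X.F X.mu y := by
      intro y
      have := nb_le_one (F := X.F) hμ0 hμ1 y
      linarith
    refine ⟨Om, iOm, p, g, b, Bn, fun a y => (1 / k) * ∑ v, min (EE p (fun ω =>
      if g ω v = a ∧ b ω v = some y ∧ ¬ badE L Bd g b ω v then 1 else 0))
      (2 * X.mu a * (r v y * (1 - nb X.F X.mu y) ^ L.d v)), ?_⟩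
    have hmin0 : ∀ v a y, 0 ≤ min (EE p (fun ω =>
      if g ω v = a ∧ b ω v = some y ∧ ¬ badE L Bd g b ω v then 1 else 0))
      (2 * X.mu a * (r v y * (1 - nb X.F X.mu y) ^ L.d v)) := by
      intro v a y
      refine le_min (EE_nonneg hO.law fun ω => by split_ifs <;> norm_num) ?_
      exact mul_nonneg (mul_nonneg (by norm_num) (hμ0 a))
        (mul_nonneg (hr.r0 v y) (pow_nonneg (hnb1 y) _))
    have hk1 : ∀ x : ℝ, (1 / k) * x * k = x := fun x => by field_simp
    refine ⟨hO.law, hO.loc, hO.ov, hO.mem, hO.st, hO.tt, ?_, ?_, ?_, ?_, ?_, ?_⟩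
    · intro a y
      exact mul_nonneg (by positivity) (sum_nonneg fun v _ => hmin0 v a y)
    · intro a y hy
      have h1 : ∀ v, min (EE p (fun ω =>
          if g ω v = a ∧ b ω v = some y ∧ ¬ badE L Bd g b ω v then 1 else 0))
          (2 * X.mu a * (r v y * (1 - nb X.F X.mu y) ^ L.d v)) = 0 := by
        intro v
        have hry : r v y = 0 := hr.rB v y fun h => disjoint_left.1 (hW.BvA v) h hy
        refine le_antisymm ((min_le_right _ _).trans ?_) (hmin0 v a y)
        rw [hry]; simp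
      simp only [h1, sum_const_zero, mul_zero]
    · intro a _ y
      rw [hk1]
      exact sum_le_sum fun v _ => min_le_left _ _
    · intro a ha
      have e1 : ∑ y, (1 / k) * (∑ v, min (EE p (fun ω =>
          if g ω v = a ∧ b ω v = some y ∧ ¬ badE L Bd g b ω v then 1 else 0))
          (2 * X.mu a * (r v y * (1 - nb X.F X.mu y) ^ L.d v))) * k =
          ∑ v, ∑ y, min (EE p (fun ω =>
          if g ω v = a ∧ b ω v = some y ∧ ¬ badE L Bd g b ω v then 1 else 0))
          (2 * X.mu a * (r v y * (1 - nb X.F X.mu y) ^ L.d v)) := by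
        rw [sum_comm]
        exact sum_congr rfl fun y _ => hk1 _
      rw [e1, ← sum_sub_distrib]
      have h1 := sum_le_sum fun v (_ : v ∈ (univ : Finset V)) =>
        vertex_le hμ0 hμ1 hr.r0 (fun v => (hr.rs v).trans hR1) hδ.le hO v a
      refine h1.trans ?_
      rw [sum_add_distrib, ← mul_sum, sum_sub_distrib]
      simp only [sum_const, card_univ, nsmul_eq_mul, mul_one]
      have h2 := hr.main a ha
      have hμa := hμ0 a
      have h3 : (Fintype.card V : ℝ) * (X.mu a * (δ * (R' + 1))) ≤ X.mu a * (η * k) := by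
        have h4 : (Fintype.card V : ℝ) * (δ * (R' + 1)) ≤ k * η :=
          mul_le_mul hW.cV hδη (by positivity) hk.le
        calc (Fintype.card V : ℝ) * (X.mu a * (δ * (R' + 1)))
            = X.mu a * ((Fintype.card V : ℝ) * (δ * (R' + 1))) := by ring
          _ ≤ X.mu a * (k * η) := mul_le_mul_of_nonneg_left h4 hμa
          _ = _ := by ring
      have h5 := mul_le_mul_of_nonneg_left h2 hμa
      have h6 : X.mu a * X.sA = X.w a := by
        rw [X.mu_mem ha]; exact div_mul_cancel₀ _ hsA0.ne'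
      calc _ ≤ X.mu a * (((1 - e) * X.sA - η) * k) + X.mu a * (η * k) := add_le_add h5 h3
        _ = (1 - e) * (X.mu a * X.sA) * k := by ring
        _ = _ := by rw [h6]
    · intro y hy
      have h1 : ∀ a ∈ X.A, (1 / k) * (∑ v, min (EE p (fun ω =>
          if g ω v = a ∧ b ω v = some y ∧ ¬ badE L Bd g b ω v then 1 else 0))
          (2 * X.mu a * (r v y * (1 - nb X.F X.mu y) ^ L.d v))) ≤
          X.mu a * ((1 - e) * X.w y) := by
        intro a _
        have hμa := hμ0 a
        have h2 : ∑ v, min (EE p (fun ω =>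
            if g ω v = a ∧ b ω v = some y ∧ ¬ badE L Bd g b ω v then 1 else 0))
            (2 * X.mu a * (r v y * (1 - nb X.F X.mu y) ^ L.d v)) ≤
            ∑ _v : V, X.mu a * ((1 - e) * X.w y) := by
          refine sum_le_sum fun v _ => (min_le_right _ _).trans ?_
          calc 2 * X.mu a * (r v y * (1 - nb X.F X.mu y) ^ L.d v)
              = X.mu a * (2 * (r v y * (1 - nb X.F X.mu y) ^ L.d v)) := by ring
            _ ≤ _ := mul_le_mul_of_nonneg_left (hr.rc v y) hμa
        rw [sum_const, card_univ, nsmul_eq_mul] at h2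
        have hnn : 0 ≤ X.mu a * ((1 - e) * X.w y) :=
          mul_nonneg hμa (mul_nonneg (by linarith) (X.pos y).le)
        calc _ ≤ (1 / k) * ((Fintype.card V : ℝ) * (X.mu a * ((1 - e) * X.w y))) :=
              mul_le_mul_of_nonneg_left h2 (by positivity)
          _ ≤ (1 / k) * (k * (X.mu a * ((1 - e) * X.w y))) :=
              mul_le_mul_of_nonneg_left (mul_le_mul_of_nonneg_right hW.cV hnn) (by positivity)
          _ = _ := by field_simp
      refine (sum_le_sum h1).trans ?_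
      rw [← sum_mul]
      have h3 : ∑ a ∈ X.A, X.mu a ≤ 1 := by
        rw [← hμ1]
        exact sum_le_sum_of_subset_of_nonneg (subset_univ _) fun a _ _ => hμ0 a
      have hnn : 0 ≤ (1 - e) * X.w y := mul_nonneg (by linarith) (X.pos y).le
      calc _ ≤ 1 * ((1 - e) * X.w y) := mul_le_mul_of_nonneg_right h3 hnn
        _ = _ := one_mul _
    · have h1 := sum_le_sum fun v (_ : v ∈ (univ : Finset V)) => hO.zv v
      refine h1.trans ?_
      rw [sum_const, card_univ, nsmul_eq_mul]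
      calc (Fintype.card V : ℝ) * δ ≤ k * ζ := mul_le_mul hW.cV hδζ hδ.le hk.le
        _ = _ := mul_comm _ _
  · push Not at hs
    have hR0 : (0 : ℝ) ≤ R' := by linarith
    obtain ⟨Om, iOm, p, g, b, Bn, hO⟩ := hR V ι X L Bd X.mu (fun _ _ => 0) hW.dK hW.bsymm hW.brefl
      hbs hAs hμ0 hμ1 (fun a ha => X.mu_notMem ha) hμR (fun _ _ => le_rfl) (fun _ _ _ => rfl)
      (fun _ y => mul_nonneg hR0 (X.pos y).le) (fun _ => by simpa using hR0)
    refine ⟨Om, iOm, p, g, b, Bn, fun _ _ => 0, ?_⟩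
    refine ⟨hO.law, hO.loc, hO.ov, hO.mem, hO.st, hO.tt, fun _ _ => le_rfl, fun _ _ _ => rfl,
      ?_, ?_, ?_, ?_⟩
    · intro a _ y
      rw [zero_mul]
      exact sum_nonneg fun v _ => EE_nonneg hO.law fun ω => by split_ifs <;> norm_num
    · intro a ha
      simp only [zero_mul, sum_const_zero, sub_zero]
      have h1 : ∀ v, EE p (fun ω => if g ω v = a ∧ ¬ zev L Bd g ω v then (1 : ℝ) else 0) ≤
          X.mu a := by
        intro v
        rw [← hO.gm v a]
        refine EE_mono hO.law fun ω => ?_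
        by_cases h : g ω v = a
        · rw [if_pos h]
          split_ifs <;> norm_num
        · rw [if_neg h, if_neg fun h' => h h'.1]
      refine (sum_le_sum fun v _ => h1 v).trans ?_
      rw [sum_const, card_univ, nsmul_eq_mul]
      have hμa := hμ0 a
      have h2 : X.w a = X.mu a * X.sA := by
        rw [X.mu_mem ha]; exact (div_mul_cancel₀ _ hsA0.ne').symm
      have h3 : 1 ≤ (1 - e) * X.sA := by
        have h4 := hW.s2
        have h5 : 1 + 2 * e ≤ X.sA := by linarith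
        have h6 : (1 - e) * (1 + 2 * e) ≤ (1 - e) * X.sA :=
          mul_le_mul_of_nonneg_left h5 (by linarith)
        nlinarith
      calc (Fintype.card V : ℝ) * X.mu a ≤ k * X.mu a := mul_le_mul_of_nonneg_right hW.cV hμa
        _ = k * X.mu a * 1 := (mul_one _).symm
        _ ≤ k * X.mu a * ((1 - e) * X.sA) :=
            mul_le_mul_of_nonneg_left h3 (mul_nonneg hk.le hμa)
        _ = (1 - e) * (X.mu a * X.sA) * k := by ring
        _ = _ := by rw [← h2]
    · intro y _
      rw [sum_const_zero]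
      exact mul_nonneg (by linarith) (X.pos y).le
    · have h1 := sum_le_sum fun v (_ : v ∈ (univ : Finset V)) => hO.zv v
      refine h1.trans ?_
      rw [sum_const, card_univ, nsmul_eq_mul]
      calc (Fintype.card V : ℝ) * δ ≤ k * ζ := mul_le_mul hW.cV hδζ hδ.le hk.le
        _ = _ := mul_comm _ _

/-- **`Lim` from the rule and the certificate.** -/
theorem lim_of {Q : ℝ} (hR : RuleStmt) (hC : CertStmt Q) : Lim Q := by
  intro C
  obtain ⟨e, he0, he8, hC⟩ := hC C
  refine ⟨e, he0, he8, fun K ζ hζ => ?_⟩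
  obtain ⟨R, η, ε₀, hη, hε₀, hC⟩ := hC K
  obtain ⟨B, ε, hε, hεε, h⟩ := scheme_core hR he0 he8 K (R := R) hη hε₀ hζ
  exact ⟨B, ε, hε, fun V ι _ _ X L Bd k hW =>
    h V ι X L Bd k Q C hW fun hs => hC V ι X L Bd k (hW.mono hεε) hs⟩

end

end Pool.Agent.T6A
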