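import Pool.Agent.T6A.Setup

/-!
# The selection step (MP_c6effb_co): proof of `SelStmt`

A configuration `ω` at which all counts are close to their expectations (`select` of Prob.lean); for
`a` in `A` and `y` choose `min ⌊φ a y k⌋ (all)` of the vertices with `g v = a`, `b v = some y` which
are not bad: `T` is the union.
-/

set_option autoImplicit false

open Finset

namespace Pool.Agent.T6A

namespace Selx

open Classical

variable {V ι Om : Type}

/-- Closed neighbourhood. -/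
noncomputable def nb1 [Fintype V] (G : SimpleGraph V) (v : V) : Finset V :=
  insert v (univ.filter fun u => G.Adj v u)

/-- Ball of radius two. -/
noncomputable def nb2 [Fintype V] (G : SimpleGraph V) (v : V) : Finset V :=
  (nb1 G v).biUnion (nb1 G)

section nb

variable [Fintype V]

lemma mem_nb1 {G : SimpleGraph V} {u v : V} : u ∈ nb1 G v ↔ u = v ∨ G.Adj v u := by
  simp [nb1]

lemma mem_nb1_comm {G : SimpleGraph V} {u v : V} (h : u ∈ nb1 G v) : v ∈ nb1 G u := by
  rw [mem_nb1] at h ⊢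
  rcases h with rfl | h
  · exact Or.inl rfl
  · exact Or.inr h.symm

lemma self_mem_nb1 (G : SimpleGraph V) (v : V) : v ∈ nb1 G v := mem_nb1.2 (Or.inl rfl)

lemma mem_nb2 {G : SimpleGraph V} {u v : V} : u ∈ nb2 G v ↔ ∃ z ∈ nb1 G v, u ∈ nb1 G z := by
  simp [nb2]

lemma nb1_sub_nb2 (G : SimpleGraph V) (v : V) : nb1 G v ⊆ nb2 G v := fun u hu =>
  mem_nb2.2 ⟨u, hu, self_mem_nb1 G u⟩

lemma mem_nb2_comm {G : SimpleGraph V} {u v : V} (h : u ∈ nb2 G v) : v ∈ nb2 G u := by
  rw [mem_nb2] at h ⊢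
  obtain ⟨z, hz, hu⟩ := h
  exact ⟨z, mem_nb1_comm hu, mem_nb1_comm hz⟩

lemma card_nb1 {G : SimpleGraph V} {K : ℕ} (hK : ∀ v, #(univ.filter fun u => G.Adj v u) ≤ K)
    (v : V) : #(nb1 G v) ≤ K + 1 :=
  (card_insert_le _ _).trans (Nat.add_le_add_right (hK v) 1)

lemma card_nb2 {G : SimpleGraph V} {K : ℕ} (hK : ∀ v, #(univ.filter fun u => G.Adj v u) ≤ K)
    (v : V) : #(nb2 G v) ≤ (K + 1) * (K + 1) := by
  refine card_biUnion_le.trans ?_
  refine (sum_le_card_nsmul _ _ (K + 1) fun z _ => card_nb1 hK z).trans ?_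
  rw [smul_eq_mul]
  exact Nat.mul_le_mul_right _ (card_nb1 hK v)

/-- Overlaps of the enlarged dependency sets. -/
lemma card_ov {G : SimpleGraph V} {K B : ℕ} (hK : ∀ v, #(univ.filter fun u => G.Adj v u) ≤ K)
    {Bn : V → Finset V} (hB : ∀ v, #{u | ¬ Disjoint (Bn v) (Bn u)} ≤ B) (v : V) :
    #{u | ¬ Disjoint ((nb2 G v).biUnion Bn) ((nb2 G u).biUnion Bn)}
      ≤ (K + 1) * (K + 1) * (B * ((K + 1) * (K + 1))) := by
  have hsub : (univ.filter fun u => ¬ Disjoint ((nb2 G v).biUnion Bn) ((nb2 G u).biUnion Bn)) ⊆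
      (nb2 G v).biUnion fun x => (univ.filter fun y => ¬ Disjoint (Bn x) (Bn y)).biUnion (nb2 G) := by
    intro u hu
    rw [mem_filter, Finset.not_disjoint_iff] at hu
    obtain ⟨-, t, ht1, ht2⟩ := hu
    rw [mem_biUnion] at ht1 ht2
    obtain ⟨x, hx, htx⟩ := ht1
    obtain ⟨y, hy, hty⟩ := ht2
    rw [mem_biUnion]
    refine ⟨x, hx, ?_⟩
    rw [mem_biUnion]
    refine ⟨y, ?_, mem_nb2_comm hy⟩
    rw [mem_filter, Finset.not_disjoint_iff]
    exact ⟨mem_univ _, t, htx, hty⟩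
  refine (card_le_card hsub).trans (card_biUnion_le.trans ?_)
  refine (sum_le_card_nsmul _ _ (B * ((K + 1) * (K + 1))) fun x _ => ?_).trans ?_
  · refine card_biUnion_le.trans ((sum_le_card_nsmul _ _ ((K + 1) * (K + 1)) fun y _ =>
      card_nb2 hK y).trans ?_)
    rw [smul_eq_mul]
    exact Nat.mul_le_mul_right _ (hB x)
  · rw [smul_eq_mul]
    exact Nat.mul_le_mul_right _ (card_nb2 hK v)

lemma zev_congr {L : Low V ι} {Bd : ι → ι → Prop} {g : (V → Om) → V → ι} {ω ω' : V → Om} {v : V}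
    (h : ∀ u ∈ nb1 L.G v, g ω u = g ω' u) : zev L Bd g ω v ↔ zev L Bd g ω' v := by
  unfold zev
  rw [h v (self_mem_nb1 _ _)]
  refine or_congr Iff.rfl (exists_congr fun u => and_congr_right fun hu => ?_)
  rw [h u (mem_nb1.2 (Or.inr hu))]

lemma badE_congr {L : Low V ι} {Bd : ι → ι → Prop} {g : (V → Om) → V → ι}
    {b : (V → Om) → V → Option ι} {ω ω' : V → Om} {v : V}
    (h : ∀ u ∈ nb2 L.G v, g ω u = g ω' u) (h' : ∀ u ∈ nb2 L.G v, b ω u = b ω' u) :
    badE L Bd g b ω v ↔ badE L Bd g b ω' v := by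
  unfold badE
  have hv : v ∈ nb2 L.G v := nb1_sub_nb2 _ _ (self_mem_nb1 _ _)
  have hu : ∀ u, L.G.Adj v u → u ∈ nb2 L.G v := fun u hu =>
    nb1_sub_nb2 _ _ (mem_nb1.2 (Or.inr hu))
  rw [zev_congr (ω := ω) (ω' := ω') fun u hu => h u (nb1_sub_nb2 _ _ hu)]
  refine or_congr Iff.rfl (or_congr (exists_congr fun u => and_congr_right fun huv => ?_) ?_)
  · refine zev_congr fun z hz => h z (mem_nb2.2 ⟨u, mem_nb1.2 (Or.inr huv), hz⟩)
  · refine exists_congr fun y => ?_
    rw [h' v hv]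
    refine and_congr_right fun _ => exists_congr fun u => and_congr_right fun huv => ?_
    rw [h u (hu u huv), h' u (hu u huv)]

lemma dep {L : Low V ι} {g : (V → Om) → V → ι}
    {b : (V → Om) → V → Option ι} {Bn : V → Finset V}
    (hloc : ∀ v, DepOn (fun ω => (g ω v, b ω v)) (Bn v)) {v : V} {ω ω' : V → Om}
    (h : ∀ x ∈ (nb2 L.G v).biUnion Bn, ω x = ω' x) :
    ∀ u ∈ nb2 L.G v, g ω u = g ω' u ∧ b ω u = b ω' u := by
  intro u hu
  have := hloc u ω ω' fun x hx => h x (mem_biUnion.2 ⟨u, hu, hx⟩)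
  exact ⟨congrArg Prod.fst this, congrArg Prod.snd this⟩

end nb

/-- The selection of the vertices of `T`. -/
lemma pick [Fintype V] (S : Finset V) (c η : ℝ) (hc : 0 ≤ c) (hS : c - η ≤ #S) (hη : 0 ≤ η) :
    ∃ T ⊆ S, (#T : ℝ) ≤ c ∧ c - η - 1 ≤ #T := by
  obtain ⟨T, hT, hc'⟩ := Finset.exists_subset_card_eq (s := S) (n := min ⌊c⌋₊ #S) (min_le_right _ _)
  refine ⟨T, hT, ?_, ?_⟩
  · rw [hc']
    refine le_trans ?_ (Nat.floor_le hc)
    exact_mod_cast min_le_left _ _
  · rw [hc']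
    rcases le_total ⌊c⌋₊ #S with h | h
    · rw [min_eq_left h]
      have := Nat.lt_floor_add_one c
      linarith
    · rw [min_eq_right h]
      linarith

end Selx

open Classical in
/-- **SEL.** -/
theorem sel : SelStmt := by
  intro Q e ε w₀ C K B M he he8 hw₀
  -- the constants
  obtain ⟨δ, hδ0, hδ1, hδ2⟩ : ∃ δ : ℝ, 0 < δ ∧ δ * (M + 1) ≤ e * w₀ / 4 ∧
      δ * ((M + 1) * (M + 1)) ≤ e / 32 := by
    have hM : (0 : ℝ) < (M : ℝ) + 1 := by positivity
    refine ⟨min (e * w₀ / 4 / (M + 1)) (e / 32 / ((M + 1) * (M + 1))), ?_, ?_, ?_⟩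
    · exact lt_min (by positivity) (by positivity)
    · calc min (e * w₀ / 4 / (M + 1)) (e / 32 / ((M + 1) * (M + 1))) * ((M : ℝ) + 1)
          ≤ e * w₀ / 4 / (M + 1) * (M + 1) := mul_le_mul_of_nonneg_right (min_le_left _ _) hM.le
        _ = e * w₀ / 4 := div_mul_cancel₀ _ hM.ne'
    · calc min (e * w₀ / 4 / (M + 1)) (e / 32 / ((M + 1) * (M + 1))) * (((M : ℝ) + 1) * (M + 1))
          ≤ e / 32 / ((M + 1) * (M + 1)) * (((M : ℝ) + 1) * (M + 1)) :=
            mul_le_mul_of_nonneg_right (min_le_right _ _) (by positivity)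
        _ = e / 32 := div_mul_cancel₀ _ (by positivity)
  set B' : ℕ := (K + 1) * (K + 1) * (B * ((K + 1) * (K + 1))) with hB'
  set NI : ℕ := M + M * M + 1 with hNI
  refine ⟨max (4 * M / (e * w₀)) (max (32 * (M * M) / e) (2 * (NI * B') / δ ^ 2)), ?_⟩
  intro V ι _ _ X L Bd k hk hM hw0 W Om _ p g b Bn φ S
  have hk1 : 4 * M / (e * w₀) ≤ k := (le_max_left _ _).trans hk
  have hk2 : 32 * (M * M) / e ≤ k := (le_max_left _ _).trans ((le_max_right _ _).trans hk)
  have hk3 : 2 * (NI * B') / δ ^ 2 ≤ k := (le_max_right _ _).trans ((le_max_right _ _).trans hk)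
  have hk0 : 0 < k := W.k0
  have hMr : (Fintype.card ι : ℝ) ≤ M := by exact_mod_cast hM
  -- the random variables
  let Y : Option (ι ⊕ ι × ι) → V → (V → Om) → ℝ := fun i v ω =>
    match i with
    | none => if zev L Bd g ω v then 1 else 0
    | some (Sum.inl a) => if g ω v = a ∧ ¬ zev L Bd g ω v then 1 else 0
    | some (Sum.inr (a, y)) => if g ω v = a ∧ b ω v = some y ∧ ¬ badE L Bd g b ω v then 1 else 0
  have hY0 : ∀ i v ω, 0 ≤ Y i v ω := by
    intro i v ω
    rcases i with _ | a | ⟨a, y⟩ <;> (simp only [Y]; split_ifs <;> norm_num)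
  have hY1 : ∀ i v ω, Y i v ω ≤ 1 := by
    intro i v ω
    rcases i with _ | a | ⟨a, y⟩ <;> (simp only [Y]; split_ifs <;> norm_num)
  have hdepY : ∀ i v, DepOn (Y i v) ((Selx.nb2 L.G v).biUnion Bn) := by
    intro i v ω ω' h
    have h1 := Selx.dep (L := L) S.loc h
    have hv := h1 v (Selx.nb1_sub_nb2 _ _ (Selx.self_mem_nb1 _ _))
    have hz : zev L Bd g ω v ↔ zev L Bd g ω' v :=
      Selx.zev_congr fun u hu => (h1 u (Selx.nb1_sub_nb2 _ _ hu)).1
    have hb : badE L Bd g b ω v ↔ badE L Bd g b ω' v :=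
      Selx.badE_congr (fun u hu => (h1 u hu).1) fun u hu => (h1 u hu).2
    rcases i with _ | a | ⟨a, y⟩
    · simp only [Y, hz]
    · simp only [Y, hz, hv.1]
    · simp only [Y, hb, hv.1, hv.2]
  have hdeg : ∀ v, #(univ.filter fun u => L.G.Adj v u) ≤ K := fun v => W.dK v
  have hov := Selx.card_ov hdeg S.ov
  have hcard : Fintype.card (Option (ι ⊕ ι × ι)) ≤ NI := by
    rw [Fintype.card_option, Fintype.card_sum, Fintype.card_prod]
    exact Nat.add_le_add_right (Nat.add_le_add hM (Nat.mul_le_mul hM hM)) 1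
  have hVk : (Fintype.card V : ℝ) ≤ k := W.cV
  have hVk' : k / 2 ≤ (Fintype.card V : ℝ) := by
    have := W.cV'
    nlinarith
  obtain ⟨ω, hω⟩ := select S.law (univ : Finset (Option (ι ⊕ ι × ι))) Y
    (fun v => (Selx.nb2 L.G v).biUnion Bn) (fun i _ v => hdepY i v) (fun i _ => hY0 i)
    (fun i _ => hY1 i) B' hov δ hδ0.le (by
      have h1 : ((univ : Finset (Option (ι ⊕ ι × ι))).card : ℝ) ≤ NI := by
        rw [card_univ]
        exact_mod_cast hcard
      have h2 : (2 * ((NI : ℝ) * B')) ≤ k * δ ^ 2 := (div_le_iff₀ (by positivity)).1 hk3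
      calc ((univ : Finset (Option (ι ⊕ ι × ι))).card * B' : ℝ) ≤ NI * B' :=
            mul_le_mul_of_nonneg_right h1 (Nat.cast_nonneg _)
        _ ≤ k / 2 * δ ^ 2 := by linarith
        _ ≤ δ ^ 2 * Fintype.card V := by
            rw [mul_comm (δ ^ 2)]
            exact mul_le_mul_of_nonneg_right hVk' (by positivity))
  have hδk : δ * Fintype.card V ≤ δ * k := mul_le_mul_of_nonneg_left hVk hδ0.le
  -- counts at `ω`
  have hsum : ∀ P : V → Prop, (∑ v, if P v then (1 : ℝ) else 0) = #(univ.filter P) := by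
    intro P
    rw [sum_boole]
  have hZ : (#(univ.filter fun v => zev L Bd g ω v) : ℝ) ≤ e / 16 * k + δ * k := by
    have h1 := (abs_le.1 (hω none (mem_univ _))).2
    have h2 := S.out
    have h3 : ∑ v, Y none v ω = #(univ.filter fun v => zev L Bd g ω v) := hsum _
    rw [h3] at h1
    have h4 : ∑ v, EE p (Y none v) = ∑ v, EE p (fun ω => if zev L Bd g ω v then 1 else 0) := rfl
    rw [h4] at h1
    linarith
  have hA : ∀ a ∈ X.A, (#(univ.filter fun v => g ω v = a ∧ ¬ zev L Bd g ω v) : ℝ) ≤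
      (1 - e) * X.w a * k + ∑ y, φ a y * k + δ * k := by
    intro a ha
    have h1 := (abs_le.1 (hω (some (Sum.inl a)) (mem_univ _))).2
    have h2 := S.lA a ha
    have h3 : ∑ v, Y (some (Sum.inl a)) v ω
        = #(univ.filter fun v => g ω v = a ∧ ¬ zev L Bd g ω v) := by
      simp only [Y]
      rw [sum_boole]
    rw [h3] at h1
    have h4 : ∑ v, EE p (Y (some (Sum.inl a)) v)
        = ∑ v, EE p (fun ω => if g ω v = a ∧ ¬ zev L Bd g ω v then 1 else 0) := rfl
    rw [h4] at h1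
    linarith
  have hT : ∀ a ∈ X.A, ∀ y, φ a y * k - δ * k ≤
      (#(univ.filter fun v => g ω v = a ∧ b ω v = some y ∧ ¬ badE L Bd g b ω v) : ℝ) := by
    intro a ha y
    have h1 := (abs_le.1 (hω (some (Sum.inr (a, y))) (mem_univ _))).1
    have h2 := S.cls a ha y
    have h3 : ∑ v, Y (some (Sum.inr (a, y))) v ω
        = #(univ.filter fun v => g ω v = a ∧ b ω v = some y ∧ ¬ badE L Bd g b ω v) := by
      simp only [Y]
      rw [sum_boole]
    rw [h3] at h1
    have h4 : ∑ v, EE p (Y (some (Sum.inr (a, y))) v) = ∑ v, EE p (fun ω =>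
        if g ω v = a ∧ b ω v = some y ∧ ¬ badE L Bd g b ω v then 1 else 0) := rfl
    rw [h4] at h1
    linarith
  -- the sets `T a y`
  have hpick : ∀ a y, ∃ T' ⊆ univ.filter fun v =>
      g ω v = a ∧ b ω v = some y ∧ ¬ badE L Bd g b ω v,
      a ∈ X.A → (#T' : ℝ) ≤ φ a y * k ∧ φ a y * k - δ * k - 1 ≤ #T' := by
    intro a y
    by_cases ha : a ∈ X.A
    · obtain ⟨T', h1, h2, h3⟩ := Selx.pick _ (φ a y * k) (δ * k)
        (mul_nonneg (S.φ0 a y) hk0.le) (hT a ha y) (by positivity)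
      exact ⟨T', h1, fun _ => ⟨h2, h3⟩⟩
    · exact ⟨∅, empty_subset _, fun h => absurd h ha⟩
  choose T' hT'1 hT'2 using hpick
  have hmem : ∀ a y v, v ∈ T' a y → g ω v = a ∧ b ω v = some y ∧ ¬ badE L Bd g b ω v := by
    intro a y v hv
    exact (mem_filter.1 (hT'1 a y hv)).2
  let T : Finset V := univ.filter fun v => ∃ a ∈ X.A, ∃ y, v ∈ T' a y
  have memT : ∀ v, v ∈ T ↔ ∃ a ∈ X.A, ∃ y, v ∈ T' a y := fun v => by simp [T]
  have hTbad : ∀ v ∈ T, ¬ badE L Bd g b ω v := by
    intro v hv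
    obtain ⟨a, _, y, h⟩ := (memT v).1 hv
    exact (hmem a y v h).2.2
  have hTsome : ∀ v ∈ T, b ω v = some ((b ω v).getD (g ω v)) := by
    intro v hv
    obtain ⟨a, _, y, h⟩ := (memT v).1 hv
    rw [(hmem a y v h).2.1]
    rfl
  have hTA : ∀ v ∈ T, g ω v ∈ X.A := by
    intro v hv
    obtain ⟨a, ha, y, h⟩ := (memT v).1 hv
    rw [(hmem a y v h).1]
    exact ha
  have hTz : ∀ v ∈ T, ∀ u, L.G.Adj v u → ¬ zev L Bd g ω u := by
    intro v hv u huv hz
    exact hTbad v hv (Or.inr (Or.inl ⟨u, huv, hz⟩))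
  -- counting `T`
  have hF1 : ∀ a ∈ X.A, (#(T.filter fun v => g ω v = a) : ℝ) = ∑ y, (#(T' a y) : ℝ) := by
    intro a ha
    have h1 : (T.filter fun v => g ω v = a) = univ.biUnion fun y => T' a y := by
      ext v
      simp only [mem_filter, mem_biUnion, mem_univ, true_and, memT]
      constructor
      · rintro ⟨⟨a', _, y, h⟩, h2⟩
        have h3 := (hmem a' y v h).1
        rw [h2] at h3
        exact ⟨y, h3 ▸ h⟩
      · rintro ⟨y, h⟩
        exact ⟨⟨a, ha, y, h⟩, (hmem a y v h).1⟩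
    rw [h1, card_biUnion]
    · push_cast
      rfl
    · intro y _ y' _ hyy
      refine Finset.disjoint_left.2 fun v hv hv' => ?_
      have h2 := (hmem a y v hv).2.1
      rw [(hmem a y' v hv').2.1] at h2
      exact hyy (Option.some.inj h2).symm
  have hF2 : ∀ y, (#(T.filter fun v => (b ω v).getD (g ω v) = y) : ℝ)
      = ∑ a ∈ X.A, (#(T' a y) : ℝ) := by
    intro y
    have h1 : (T.filter fun v => (b ω v).getD (g ω v) = y) = X.A.biUnion fun a => T' a y := by
      ext v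
      simp only [mem_filter, mem_biUnion, memT]
      constructor
      · rintro ⟨⟨a, ha, y', h⟩, h2⟩
        have h3 := (hmem a y' v h).2.1
        rw [h3] at h2
        have h4 : y' = y := h2
        exact ⟨a, ha, h4 ▸ h⟩
      · rintro ⟨a, ha, h⟩
        refine ⟨⟨a, ha, y, h⟩, ?_⟩
        rw [(hmem a y v h).2.1]
        rfl
    rw [h1, card_biUnion]
    · push_cast
      rfl
    · intro a _ a' _ haa
      refine Finset.disjoint_left.2 fun v hv hv' => ?_
      have h2 := (hmem a y v hv).1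
      rw [(hmem a' y v hv').1] at h2
      exact haa h2.symm
  have hF3 : (#T : ℝ) = ∑ a ∈ X.A, (#(T.filter fun v => g ω v = a) : ℝ) := by
    rw [card_eq_sum_card_fiberwise (t := X.A) (f := fun v => g ω v) fun v hv => hTA v hv]
    push_cast
    rfl
  have hcardA : (#X.A : ℝ) ≤ M := by
    have : #X.A ≤ Fintype.card ι := card_le_univ _
    exact le_trans (by exact_mod_cast this) hMr
  -- lower bound for the number of vertices of `T` over `a`
  have hlow : ∀ a ∈ X.A, ∑ y, φ a y * k - M * (δ * k + 1)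
      ≤ (#(T.filter fun v => g ω v = a) : ℝ) := by
    intro a ha
    rw [hF1 a ha]
    have h1 : ∑ y, (φ a y * k - (δ * k + 1)) ≤ ∑ y, (#(T' a y) : ℝ) := by
      refine sum_le_sum fun y _ => ?_
      have := (hT'2 a y ha).2
      linarith
    rw [sum_sub_distrib, sum_const, nsmul_eq_mul, card_univ] at h1
    have h2 : (Fintype.card ι : ℝ) * (δ * k + 1) ≤ M * (δ * k + 1) :=
      mul_le_mul_of_nonneg_right hMr (by positivity)
    linarith
  -- the vertices over `a` outside `T`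
  have hout : ∀ a ∈ X.A,
      (#(univ.filter fun v => v ∉ T ∧ g ω v = a ∧ ¬ zev L Bd g ω v) : ℝ)
        ≤ (1 - e) * X.w a * k + (δ * k + M * (δ * k + 1)) := by
    intro a ha
    have h1 : (#(univ.filter fun v => v ∉ T ∧ g ω v = a ∧ ¬ zev L Bd g ω v) : ℝ)
        + #(T.filter fun v => g ω v = a)
        = #(univ.filter fun v => g ω v = a ∧ ¬ zev L Bd g ω v) := by
      rw [← Nat.cast_add, ← card_union_of_disjoint]
      · congr 2
        ext v
        simp only [mem_union, mem_filter, mem_univ, true_and]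
        constructor
        · rintro (h | ⟨h, h'⟩)
          · exact h.2
          · exact ⟨h', fun hz => hTbad v h (Or.inl hz)⟩
        · rintro h
          by_cases hv : v ∈ T
          · exact Or.inr ⟨hv, h.1⟩
          · exact Or.inl ⟨hv, h⟩
      · rw [Finset.disjoint_left]
        intro v hv hv'
        exact (mem_filter.1 hv).2.1 (mem_filter.1 hv').1
    have h2 := hA a ha
    have h3 := hlow a ha
    linarith
  have hMk1 : (M : ℝ) ≤ e * w₀ / 4 * k := by
    have := (div_le_iff₀ (by positivity)).1 hk1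
    linarith
  have hMk2 : (M : ℝ) * M ≤ e / 32 * k := by
    have := (div_le_iff₀ he).1 hk2
    linarith
  have hM0 : (0 : ℝ) ≤ M := Nat.cast_nonneg _
  refine ⟨T, g ω, fun v => (b ω v).getD (g ω v), ⟨?_, ?_, ?_, ?_, ?_, ?_, ?_, ?_⟩⟩
  · -- tB
    intro v hv
    exact S.mem ω v _ (hTsome v hv)
  · -- gA
    rintro v hv ⟨u, hu, huv⟩
    by_contra hcon
    exact hTz u hu v huv.symm (Or.inl hcon)
  · -- tt
    intro v hv u hu huv
    refine ⟨S.tt ω v _ u _ (hTsome v hv) (hTsome u hu) huv, fun hbd => ?_⟩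
    exact hTbad v hv (Or.inr (Or.inr ⟨_, hTsome v hv, u, huv, Or.inr ⟨_, hTsome u hu, hbd⟩⟩))
  · -- ts
    intro v hv u _ huv
    refine ⟨S.st ω v _ (hTsome v hv) u huv, fun hbd => ?_⟩
    exact hTbad v hv (Or.inr (Or.inr ⟨_, hTsome v hv, u, huv, Or.inl hbd⟩))
  · -- ss
    rintro v u hv hu huv ⟨z, hz, hvz⟩ _ hbd
    exact hTz z hz v hvz.symm (Or.inr ⟨u, huv, hbd⟩)
  · -- la
    intro a ha
    have h1 : (#(univ.filter fun v => v ∉ T ∧ (∃ u ∈ T, L.G.Adj v u) ∧ g ω v = a) : ℝ)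
        ≤ #(univ.filter fun v => v ∉ T ∧ g ω v = a ∧ ¬ zev L Bd g ω v) := by
      have : (univ.filter fun v => v ∉ T ∧ (∃ u ∈ T, L.G.Adj v u) ∧ g ω v = a) ⊆
          univ.filter fun v => v ∉ T ∧ g ω v = a ∧ ¬ zev L Bd g ω v := by
        intro v hv
        rw [mem_filter] at hv ⊢
        obtain ⟨-, h1, ⟨u, hu, huv⟩, h3⟩ := hv
        exact ⟨mem_univ _, h1, h3, hTz u hu v huv.symm⟩
      exact_mod_cast card_le_card this
    have h2 := hout a ha
    have h3 : (δ * k + M * (δ * k + 1)) ≤ e / 2 * X.w a * k := by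
      have h4 : δ * k + M * (δ * k + 1) = δ * (M + 1) * k + M := by ring
      have h5 : δ * (M + 1) * k ≤ e * w₀ / 4 * k := mul_le_mul_of_nonneg_right hδ1 hk0.le
      have h6 : e / 2 * w₀ * k ≤ e / 2 * X.w a * k :=
        mul_le_mul_of_nonneg_right (mul_le_mul_of_nonneg_left (hw0 a) (by positivity)) hk0.le
      rw [h4]
      linarith
    calc _ ≤ _ := h1
      _ ≤ _ := h2
      _ ≤ (1 - e / 2) * X.w a * k := by linarith
  · -- lb
    intro y hy
    have h1 : (#(univ.filter fun v => v ∈ T ∧ (b ω v).getD (g ω v) = y) : ℝ)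
        = ∑ a ∈ X.A, (#(T' a y) : ℝ) := by
      rw [← hF2 y]
      congr 2
      ext v
      simp
    have h2 : ∑ a ∈ X.A, (#(T' a y) : ℝ) ≤ ∑ a ∈ X.A, φ a y * k :=
      sum_le_sum fun a ha => (hT'2 a y ha).1
    have h3 : ∑ a ∈ X.A, φ a y * k ≤ (1 - e) * X.w y * k := by
      rw [← sum_mul]
      exact mul_le_mul_of_nonneg_right (S.lB y hy) hk0.le
    have h4 : 0 < e / 2 * X.w y * k := by
      have := X.pos y
      positivity
    calc _ = _ := h1
      _ ≤ _ := h2
      _ ≤ _ := h3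
      _ ≤ (1 - e / 2) * X.w y * k := by linarith
  · -- lt
    have h1 : (Fintype.card V : ℝ) ≤ #T + (#(univ.filter fun v => zev L Bd g ω v)
        + ∑ a ∈ X.A, (#(univ.filter fun v => v ∉ T ∧ g ω v = a ∧ ¬ zev L Bd g ω v) : ℝ)) := by
      have h2 : (univ : Finset V) ⊆ T ∪ ((univ.filter fun v => zev L Bd g ω v) ∪
          X.A.biUnion fun a => univ.filter fun v => v ∉ T ∧ g ω v = a ∧ ¬ zev L Bd g ω v) := by
        intro v _
        simp only [mem_union, mem_filter, mem_univ, true_and, mem_biUnion]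
        by_cases hv : v ∈ T
        · exact Or.inl hv
        · by_cases hz : zev L Bd g ω v
          · exact Or.inr (Or.inl hz)
          · have h3 : g ω v ∈ L.Av v := by
              by_contra hcon
              exact hz (Or.inl hcon)
            exact Or.inr (Or.inr ⟨g ω v, W.AvA v h3, hv, rfl, hz⟩)
      have h3 : Fintype.card V ≤ #T + (#(univ.filter fun v => zev L Bd g ω v)
          + ∑ a ∈ X.A, #(univ.filter fun v => v ∉ T ∧ g ω v = a ∧ ¬ zev L Bd g ω v)) := by
        rw [← card_univ]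
        refine (card_le_card h2).trans ((card_union_le _ _).trans ?_)
        refine Nat.add_le_add_left ((card_union_le _ _).trans ?_) _
        exact Nat.add_le_add_left card_biUnion_le _
      exact_mod_cast h3
    have h2 : ∑ a ∈ X.A, (#(univ.filter fun v => v ∉ T ∧ g ω v = a ∧ ¬ zev L Bd g ω v) : ℝ)
        ≤ ∑ a ∈ X.A, ((1 - e) * X.w a * k + (δ * k + M * (δ * k + 1))) :=
      sum_le_sum fun a ha => hout a ha
    rw [sum_add_distrib, sum_const, nsmul_eq_mul] at h2
    have h3 : ∑ a ∈ X.A, (1 - e) * X.w a * k = (1 - e) * X.sA * k := by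
      rw [World.sA, mul_sum, sum_mul]
    rw [h3] at h2
    have h4 : (#X.A : ℝ) * (δ * k + M * (δ * k + 1)) ≤ M * (δ * k + M * (δ * k + 1)) :=
      mul_le_mul_of_nonneg_right hcardA (by positivity)
    have h5 : 1 / 4 ≤ X.sA := by
      have := W.s1
      have := W.s2
      linarith
    have h6 : δ * k + M * (δ * k + M * (δ * k + 1)) ≤ e / 16 * k := by
      have h7 : δ * k + M * (δ * k + M * (δ * k + 1)) = δ * (1 + M + M * M) * k + M * M := by ring
      have h8 : δ * (1 + M + M * M) ≤ δ * ((M + 1) * (M + 1)) :=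
        mul_le_mul_of_nonneg_left (by nlinarith) hδ0.le
      have h9 : δ * (1 + M + M * M) * k ≤ e / 32 * k :=
        mul_le_mul_of_nonneg_right (h8.trans hδ2) hk0.le
      rw [h7]
      linarith
    have h7 : e / 2 * (1 / 4) * k ≤ e / 2 * X.sA * k :=
      mul_le_mul_of_nonneg_right (mul_le_mul_of_nonneg_left h5 (by positivity)) hk0.le
    linarith

end Pool.Agent.T6A
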