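import Pool.Agent.T6A.Top
import Pool.Agent.Sid84.Main

/-!
# The asymptotic theorem follows from the core statement (MP_c6effb_co)
-/

set_option autoImplicit false

namespace Pool.Agent.T6A

/-- If the core statement holds for `Q ≥ 0`, then `R(3, G) ≤ k + m` for all graphs `G` with `k ≥ k₀`
vertices and `m ≥ Q k` edges. -/
theorem main_of_core {Q : ℝ} (hQ : 0 ≤ Q) (hcore : CoreEmb Q) :
    ∃ k₀ : ℕ, ∀ (V : Type) [Fintype V] (G : SimpleGraph V), k₀ ≤ Fintype.card V →
      Q * Fintype.card V ≤ G.edgeSet.ncard →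
      ∀ H : SimpleGraph (Fin (Fintype.card V + G.edgeSet.ncard)),
        ¬ H.CliqueFree 3 ∨ ∃ f : G →g Hᶜ, Function.Injective f :=
  all_of_core hQ hcore (Pool.Agent.Sid84.ramsey_eps 1 one_pos)

end Pool.Agent.T6A
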