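import Pool.Agent.T6A.RuleEnd
import Pool.Agent.T6A.Sel
import Pool.Agent.T6A.MathAsm
import Pool.Agent.T6A.Lim3
import Pool.Agent.T6A.Low3
import Pool.Agent.T6A.TopMain
import Pool.Agent.T6A.Pos
import Pool.Agent.T6A.Thr

/-!
# The chain from the certificate to the low problem (MP_c6effb_co)
-/

set_option autoImplicit false

namespace Pool.Agent.T6A

/-- The low problem is solvable as soon as there is a certificate. -/
theorem low_of_cert {Q : ℝ} (hC : CertStmt Q) : LowProb Q :=
  low_of_lim sel (lim_of ruleStmt hC)

/-- The same with the threshold hypothesis. -/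
theorem low3_of_cert3 {Q : ℝ} (hC : CertStmt3 Q) : LowProb3 Q :=
  low3_of_lim3 sel (lim3_of ruleStmt hC)

end Pool.Agent.T6A
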