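import Pool.Agent.T6A.TopDeg

/-!
# Splitting the core statement by the ratio `|W| / |V|` (MP_c6effb_co, round 2)

`Core3RP P Q Q'` is the core statement for connected graphs `G` with the property `P` and for
`(1 + Q) |V| ≤ |W| < (1 + Q') |V|`. The ranges can be treated one by one.
-/

set_option autoImplicit false

open Finset

namespace Pool.Agent.T6A

open Classical in
/-- `Core3P` for `(1 + Q) |V| ≤ |W| < (1 + Q') |V|`. -/
def Core3RP (P : ∀ V : Type, SimpleGraph V → Prop) (Q Q' : ℝ) : Prop := ∀ C : ℕ,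
  ∃ ε : ℝ, 0 < ε ∧ ∃ N₀ : ℕ, ∀ (W V : Type) [Fintype W] [Fintype V] (H : SimpleGraph W)
  (G : SimpleGraph V) (I : Finset W),
  N₀ ≤ Fintype.card W → H.CliqueFree 3 → P V G → G.Connected →
  Fintype.card V + G.edgeSet.ncard ≤ Fintype.card W →
  (1 + Q) * Fintype.card V ≤ Fintype.card W →
  (Fintype.card W : ℝ) < (1 + Q') * Fintype.card V →
  G.edgeSet.ncard ≤ C * Fintype.card V →
  7 * Fintype.card V < 5 * G.edgeSet.ncard →
  H.IsIndepSet (I : Set W) →
  (∀ J : Finset W, H.IsIndepSet (J : Set W) → #J ≤ #I) → #I < Fintype.card V →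
  (∀ v : V, Fintype.card W + 1 ≤ (G.neighborSet v).ncard * #I + Fintype.card V) →
  (∀ d : ℕ, ε * Fintype.card V ≤ #{v | (G.neighborSet v).ncard = d} →
    (1 - ε) * Fintype.card W ≤ (1 + d) * #I) → Emb G H

/-- All connected graphs. -/
abbrev Core3R (Q Q' : ℝ) : Prop := Core3RP (fun _ _ => True) Q Q'

variable {P : ∀ V : Type, SimpleGraph V → Prop} {Q Q' Q'' : ℝ}

/-- Weakening `ε` in the bound for the frequent degrees. -/
theorem thr_mono {V : Type} [Fintype V] {G : SimpleGraph V} {w s : ℕ} {ε ε' : ℝ} (hε : ε ≤ ε')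
    (h : ∀ d : ℕ, ε * Fintype.card V ≤
      (@Finset.filter V (fun v => (G.neighborSet v).ncard = d) (Classical.decPred _) univ).card →
      (1 - ε) * (w : ℝ) ≤ (1 + d) * (s : ℝ)) (d : ℕ)
    (hd : ε' * Fintype.card V ≤
      (@Finset.filter V (fun v => (G.neighborSet v).ncard = d) (Classical.decPred _) univ).card) :
    (1 - ε') * (w : ℝ) ≤ (1 + d) * (s : ℝ) := by
  have h1 := h d ((mul_le_mul_of_nonneg_right hε (Nat.cast_nonneg _)).trans hd)
  have h2 : (1 - ε') * (w : ℝ) ≤ (1 - ε) * (w : ℝ) :=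
    mul_le_mul_of_nonneg_right (by linarith) (Nat.cast_nonneg _)
  linarith

/-- Two adjacent ranges. -/
theorem Core3RP.split (h1 : Core3RP P Q Q') (h2 : Core3RP P Q' Q'') : Core3RP P Q Q'' := by
  intro C
  obtain ⟨ε₁, hε₁, N₁, h1⟩ := h1 C
  obtain ⟨ε₂, hε₂, N₂, h2⟩ := h2 C
  refine ⟨min ε₁ ε₂, lt_min hε₁ hε₂, max N₁ N₂, ?_⟩
  intro W V _ _ H G I hN hH hP hc hkm hq hq' hmC h75 hI hmax hIV hdeg hthr
  rcases lt_or_ge (Fintype.card W : ℝ) ((1 + Q') * Fintype.card V) with h | h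
  · refine h1 W V H G I ((le_max_left _ _).trans hN) hH hP hc hkm hq h hmC h75 hI hmax hIV hdeg ?_
    intro d hd
    exact thr_mono (min_le_left _ _) (fun d hd => hthr d (hd.trans (le_of_eq (by congr)))) d
      (hd.trans (le_of_eq (by congr)))
  · refine h2 W V H G I ((le_max_right _ _).trans hN) hH hP hc hkm h hq' hmC h75 hI hmax hIV hdeg ?_
    intro d hd
    exact thr_mono (min_le_right _ _) (fun d hd => hthr d (hd.trans (le_of_eq (by congr)))) d
      (hd.trans (le_of_eq (by congr)))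

/-- A range from the core statement with no upper bound. -/
theorem Core3RP.of_coreEmb (h : CoreEmb Q) : Core3RP P Q Q' := by
  intro C
  obtain ⟨N₀, h⟩ := h C
  refine ⟨1, one_pos, N₀, ?_⟩
  intro W V _ _ H G I hN hH _ _ hkm hq _ hmC _ hI hmax hIV hdeg _
  exact h W V H G I hN hH hkm hq hmC hI hmax hIV hdeg

/-- A range from `Core3P`. -/
theorem Core3RP.of_core3P (h : Core3P P) : Core3RP P Q Q' := by
  intro C
  obtain ⟨ε, hε, N₀, h⟩ := h C
  refine ⟨ε, hε, N₀, ?_⟩
  intro W V _ _ H G I hN hH hP hc hkm _ _ hmC h75 hI hmax hIV hdeg hthr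
  exact h W V H G I hN hH hP hc hkm hmC h75 hI hmax hIV hdeg hthr

theorem Core3RP.mono (hQ : Q ≤ Q') {R R' : ℝ} (hR : R' ≤ R) (h : Core3RP P Q R) :
    Core3RP P Q' R' := by
  intro C
  obtain ⟨ε, hε, N₀, h⟩ := h C
  refine ⟨ε, hε, N₀, ?_⟩
  intro W V _ _ H G I hN hH hP hc hkm hq hq' hmC h75 hI hmax hIV hdeg hthr
  have hV : (0 : ℝ) ≤ Fintype.card V := Nat.cast_nonneg _
  refine h W V H G I hN hH hP hc hkm ((mul_le_mul_of_nonneg_right (by linarith) hV).trans hq)
    (lt_of_lt_of_le hq' (mul_le_mul_of_nonneg_right (by linarith) hV)) hmC h75 hI hmax hIV hdeg hthr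

/-- **The core statement for `P`** from a range `[7/5, Q]` and the core statement above `Q`. -/
theorem core3P_of_ranges (h1 : Core3RP P (7 / 5) Q) (h2 : CoreEmb Q) : Core3P P := by
  intro C
  obtain ⟨ε, hε, N₁, h1⟩ := h1 C
  obtain ⟨N₂, h2⟩ := h2 C
  refine ⟨ε, hε, max N₁ N₂, ?_⟩
  intro W V _ _ H G I hN hH hP hc hkm hmC h75 hI hmax hIV hdeg hthr
  rcases lt_or_ge (Fintype.card W : ℝ) ((1 + Q) * Fintype.card V) with h | h
  · have hq : (1 + 7 / 5 : ℝ) * Fintype.card V ≤ Fintype.card W := by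
      have h8 : ((Fintype.card V + G.edgeSet.ncard : ℕ) : ℝ) ≤ Fintype.card W := by
        exact_mod_cast hkm
      have h9 : ((7 * Fintype.card V : ℕ) : ℝ) < ((5 * G.edgeSet.ncard : ℕ) : ℝ) := by
        exact_mod_cast h75
      push_cast at h8 h9
      linarith
    exact h1 W V H G I ((le_max_left _ _).trans hN) hH hP hc hkm hq h hmC h75 hI hmax hIV hdeg hthr
  · exact h2 W V H G I ((le_max_right _ _).trans hN) hH hkm h hmC hI hmax hIV hdeg

/-- **All large graphs** from a range `[7/5, Q]` and the core statement above `Q`. -/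
theorem all_of_ranges (h1 : Core3R (7 / 5) Q) (h2 : CoreEmb Q) :
    ∃ k₀ : ℕ, ∀ (V : Type) [Fintype V] (G : SimpleGraph V), k₀ ≤ Fintype.card V →
      ∀ H : SimpleGraph (Fin (Fintype.card V + G.edgeSet.ncard)),
        ¬ H.CliqueFree 3 ∨ ∃ f : G →g Hᶜ, Function.Injective f :=
  all_of_core3C (core3P_of_ranges h1 h2)

/-- **All large graphs** from two ranges and the core statement above `Q'`. -/
theorem all_of_two_ranges (h1 : Core3R (7 / 5) Q) (h2 : Core3R Q Q') (h3 : CoreEmb Q') :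
    ∃ k₀ : ℕ, ∀ (V : Type) [Fintype V] (G : SimpleGraph V), k₀ ≤ Fintype.card V →
      ∀ H : SimpleGraph (Fin (Fintype.card V + G.edgeSet.ncard)),
        ¬ H.CliqueFree 3 ∨ ∃ f : G →g Hᶜ, Function.Injective f :=
  all_of_ranges (h1.split h2) h3

end Pool.Agent.T6A
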