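import Pool.Agent.T6A.Thr4
import Pool.Agent.T6A.CoreSplit

/-!
# The low problem, version 4, with threshold, for a range of `|W| / |V|` (MP_c6effb_co)
-/

set_option autoImplicit false

open Finset

namespace Pool.Agent.T6A

open Classical

noncomputable section

/-- The low problem, version 4, with the threshold hypothesis, for connected graphs with the property
`P` and total weight below `1 + Q'`. -/
def LowProb43R (P : ∀ V : Type, SimpleGraph V → Prop) (Q Q' : ℝ) : Prop :=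
  ∀ C : ℕ, ∃ δ₁ e₃ : ℝ, 0 < δ₁ ∧ δ₁ ≤ 1 / 4 ∧ 0 < e₃ ∧ ∃ K₁ : ℕ, ∀ K : ℕ, K₁ ≤ K →
    ∃ δ : ℝ, 0 < δ ∧ δ ≤ e₃ ∧ ∀ M : ℕ, ∃ k₀ : ℕ, ∀ (V : Type) [Fintype V] (G : SimpleGraph V)
      (D : PreData Q C K M δ₁ δ G), k₀ ≤ Fintype.card V → P V G → G.Connected →
      7 * Fintype.card V < 5 * G.edgeSet.ncard →
      (@Finset.sum D.ι ℝ _ (@Finset.univ D.ι D.ft) D.w) < 1 + Q' →
      (∀ v, v ∉ D.Qh → v ∉ D.Ex → dLow G D.Qh v + jHub G D.Gi v = (G.neighborSet v).ncard) →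
      ThrP D e₃ →
      ∃ As ⊆ D.A, δ₁ ≤ ∑ i ∈ As, D.w i ∧
        ∀ i₀ ∈ As, ∀ Al : V → Finset D.ι, D.Lists i₀ Al → D.Sol Al

/-- **The core statement for a range follows from the low problem for this range.** -/
theorem core3R_of_low4 {P : ∀ V : Type, SimpleGraph V → Prop} {Q Q' : ℝ}
    (h : LowProb43R P Q Q') : Core3RP P Q Q' := by
  intro C
  obtain ⟨δ₁, e₃, hδ₁, hδ₁4, he₃, K₁, h1⟩ := h C
  have h2 : ∀ K, ∃ δ : ℝ, 0 < δ ∧ δ ≤ e₃ ∧ (K₁ ≤ K → ∀ M : ℕ, ∃ k₀ : ℕ, ∀ (V : Type) [Fintype V]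
      (G : SimpleGraph V) (D : PreData Q C K M δ₁ δ G), k₀ ≤ Fintype.card V → P V G →
      G.Connected → 7 * Fintype.card V < 5 * G.edgeSet.ncard →
      (@Finset.sum D.ι ℝ _ (@Finset.univ D.ι D.ft) D.w) < 1 + Q' →
      (∀ v, v ∉ D.Qh → v ∉ D.Ex → dLow G D.Qh v + jHub G D.Gi v = (G.neighborSet v).ncard) →
      ThrP D e₃ →
      ∃ As ⊆ D.A, δ₁ ≤ ∑ i ∈ As, D.w i ∧
        ∀ i₀ ∈ As, ∀ Al : V → Finset D.ι, D.Lists i₀ Al → D.Sol Al) := by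
    intro K
    by_cases hK : K₁ ≤ K
    · obtain ⟨δ, hδ, hδe, h3⟩ := h1 K hK
      exact ⟨δ, hδ, hδe, fun _ => h3⟩
    · exact ⟨e₃, he₃, le_rfl, fun h => absurd h hK⟩
  choose δf hδf hδe h3 using h2
  obtain ⟨Mf, h4⟩ := low_exists4 Q C hδ₁ hδ₁4 K₁ δf hδf
  have h5 : ∀ K, ∃ k₀ : ℕ, K₁ ≤ K → ∀ (V : Type) [Fintype V]
      (G : SimpleGraph V) (D : PreData Q C K (Mf K) δ₁ (δf K) G), k₀ ≤ Fintype.card V → P V G →
      G.Connected → 7 * Fintype.card V < 5 * G.edgeSet.ncard →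
      (@Finset.sum D.ι ℝ _ (@Finset.univ D.ι D.ft) D.w) < 1 + Q' →
      (∀ v, v ∉ D.Qh → v ∉ D.Ex → dLow G D.Qh v + jHub G D.Gi v = (G.neighborSet v).ncard) →
      ThrP D e₃ → ∃ As ⊆ D.A, δ₁ ≤ ∑ i ∈ As, D.w i ∧
        ∀ i₀ ∈ As, ∀ Al : V → Finset D.ι, D.Lists i₀ Al → D.Sol Al := by
    intro K
    by_cases hK : K₁ ≤ K
    · obtain ⟨k₀, h6⟩ := h3 K hK (Mf K)
      exact ⟨k₀, fun _ => h6⟩
    · exact ⟨0, fun h => absurd h hK⟩
  choose kf h6 using h5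
  obtain ⟨N₀, h7⟩ := h4 fun K => kf K + 1
  refine ⟨min e₃ 1, lt_min he₃ one_pos, N₀, ?_⟩
  intro W V _ _ H G I hN hH hP hc hkm hQ hQ' hmC h75 hI _ hIk hdeg hthr
  have hk0 : 0 < Fintype.card V := lt_of_le_of_lt (Nat.zero_le _) hIk
  have hk0' : (0 : ℝ) < Fintype.card V := by exact_mod_cast hk0
  refine h7 W V H G I hN hH hkm hQ hmC hI hIk hdeg ?_
  intro K hK D hk hW hI' hd
  have hw' : (@Finset.sum D.ι ℝ _ (@Finset.univ D.ι D.ft) D.w) < 1 + Q' := by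
    have h8 := lt_of_le_of_lt hW hQ'
    exact lt_of_mul_lt_mul_right h8 hk0'.le
  refine h6 K hK V G D (by omega) hP hc h75 hw' hd ?_
  intro d hd'
  have h8 : (#{v | v ∉ D.Qh ∧ v ∉ D.Ex ∧ dLow G D.Qh v + jHub G D.Gi v = d} : ℝ) ≤
      (#{v | (G.neighborSet v).ncard = d} : ℝ) := by
    have h9 : #{v | v ∉ D.Qh ∧ v ∉ D.Ex ∧ dLow G D.Qh v + jHub G D.Gi v = d} ≤
        #{v | (G.neighborSet v).ncard = d} := by
      refine card_le_card fun v hv => ?_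
      rw [mem_filter] at hv ⊢
      exact ⟨mem_univ _, (hd v hv.2.1 hv.2.2.1).symm.trans hv.2.2.2⟩
    exact_mod_cast h9
  have h10 : min e₃ 1 * (Fintype.card V : ℝ) ≤ (#{v | (G.neighborSet v).ncard = d} : ℝ) := by
    refine le_trans ?_ (hd'.trans (le_trans ?_ h8))
    · exact mul_le_mul_of_nonneg_right (min_le_left _ _) hk0'.le
    · exact le_of_eq (by congr)
  have h11 := hthr d (by
    refine h10.trans (le_of_eq ?_)
    congr)
  letI := D.ft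
  change (1 - e₃) * (∑ i, D.w i) ≤ (1 + d) * ((∑ i ∈ D.A, D.w i) + e₃)
  have hwpos : (0 : ℝ) ≤ ∑ i, D.w i := by
    refine sum_nonneg fun i _ => ?_
    have h1 := D.wpos i
    by_contra h2
    push Not at h2
    have h3 : 2 * (Mf K : ℝ) * D.w i ≤ 0 :=
      mul_nonpos_of_nonneg_of_nonpos (by positivity) h2.le
    linarith
  have h12 : (∑ i, D.w i) * (Fintype.card V : ℝ) ≤ Fintype.card W := hW
  have h13 : (1 - min e₃ 1) * ((∑ i, D.w i) * (Fintype.card V : ℝ)) ≤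
      (1 - min e₃ 1) * Fintype.card W :=
    mul_le_mul_of_nonneg_left h12 (by linarith [min_le_right e₃ (1 : ℝ)])
  have h14 : (1 + (d : ℝ)) * I.card ≤
      (1 + d) * (((∑ i ∈ D.A, D.w i) + e₃) * Fintype.card V) := by
    refine mul_le_mul_of_nonneg_left (hI'.trans ?_) (by positivity)
    refine mul_le_mul_of_nonneg_right ?_ hk0'.le
    linarith [hδe K]
  have h15 : (1 - min e₃ 1) * (∑ i, D.w i) * Fintype.card V ≤
      (1 + d) * ((∑ i ∈ D.A, D.w i) + e₃) * Fintype.card V := by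
    calc (1 - min e₃ 1) * (∑ i, D.w i) * Fintype.card V
        = (1 - min e₃ 1) * ((∑ i, D.w i) * (Fintype.card V : ℝ)) := by ring
      _ ≤ _ := h13.trans (h11.trans h14)
      _ = _ := by ring
  have h16 := le_of_mul_le_mul_right h15 hk0'
  refine le_trans ?_ h16
  exact mul_le_mul_of_nonneg_right (by linarith [min_le_left e₃ (1 : ℝ)]) hwpos

end

end Pool.Agent.T6A
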