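import Pool.Agent.T6A.Lim4
import Pool.Agent.T6A.Thr4R
import Pool.Agent.T6A.Low3

/-!
# From LIM v4 and the selection step to the low problem v4 (MP_c6effb_co)

For given lists the data `PreData` are data `LowData`; so `LowData.wok`, `LowData.sol` and
`low_of_scheme` of `Wok.lean` are used as they are.
-/

set_option autoImplicit false

open Finset

namespace Pool.Agent.T6A

open Classical

noncomputable section

variable {Q : ℝ} {C K M : ℕ} {δ₁ δ : ℝ} {V : Type} [Fintype V] {G : SimpleGraph V}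

/-- The data of the low problem, with lists. -/
@[reducible] def PreData.toLow (D : PreData Q C K M δ₁ δ G) (Al : V → Finset D.ι)
    (hA : ∀ v, v ∉ D.Qh → ∀ S : Finset D.ι, (∀ i ∈ S, i ∈ D.A ∧ i ∉ Al v) → ∑ i ∈ S, D.w i ≤ δ)
    (hB : ∀ v, v ∉ D.Qh → v ∉ D.Ex → ∀ S : Finset D.ι, (∀ i ∈ S, i ∉ D.A ∧ i ∉ Al v) →
      ∑ i ∈ S, D.w i ≤ (if jHub G D.Gi v = 0 then 0 else ∑ i ∈ D.A, D.w i) + δ) :
    LowData Q C K M δ₁ δ G where
  ι := D.ι
  ft := D.ft
  F := D.F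
  Bd := D.Bd
  w := D.w
  A := D.A
  Qh := D.Qh
  Gi := D.Gi
  Ex := D.Ex
  Al := Al
  few := D.few
  wpos := D.wpos
  tri := D.tri
  brefl := D.brefl
  bsymm := D.bsymm
  bsmall := D.bsmall
  indA := D.indA
  maxA := D.maxA
  half := D.half
  totQ := D.totQ
  totC := D.totC
  hubs := D.hubs
  giants := D.giants
  exc := D.exc
  exCard := D.exCard
  deg := D.deg
  degBig := D.degBig
  budget := D.budget
  listA := hA
  listB := hB

instance (D : PreData Q C K M δ₁ δ G) : Fintype D.ι := D.ft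

theorem PreData.δ_nonneg (D : PreData Q C K M δ₁ δ G) (i : D.ι) : 0 ≤ δ := by
  simpa using D.bsmall i ∅ (by simp)

theorem PreData.wpos' (D : PreData Q C K M δ₁ δ G) (i : D.ι) : 0 < D.w i := by
  by_contra h
  have h1 := D.wpos i
  have h2 : (M : ℝ) * D.w i ≤ 0 := mul_nonpos_of_nonneg_of_nonpos (Nat.cast_nonneg M) (not_lt.1 h)
  linarith

/-- The clause `listB` of `LowData`. -/
theorem PreData.Lists.listB {D : PreData Q C K M δ₁ δ G} {i₀ : D.ι} {Al : V → Finset D.ι}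
    (h : D.Lists i₀ Al) : ∀ v, v ∉ D.Qh → v ∉ D.Ex → ∀ S : Finset D.ι,
      (∀ i ∈ S, i ∉ D.A ∧ i ∉ Al v) →
      ∑ i ∈ S, D.w i ≤ (if jHub G D.Gi v = 0 then 0 else ∑ i ∈ D.A, D.w i) + δ := by
  intro v hv hv' S hS
  by_cases hj : jHub G D.Gi v = 0
  · rw [if_pos hj, zero_add]
    exact h.listB0 v hv hv' hj S hS
  · rw [if_neg hj, ← sum_filter_add_sum_filter_not S (fun i => D.F.Adj i₀ i)]
    refine add_le_add (D.maxA _ ?_) (h.listB1 v hv hv' _ ?_)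
    · intro i hi j hj' hij
      rw [mem_filter] at hi hj'
      refine D.tri {i₀, i, j} ?_
      rw [SimpleGraph.is3Clique_triple_iff]
      exact ⟨hi.2, hj'.2, hij⟩
    · intro i hi
      rw [mem_filter] at hi
      exact ⟨(hS i hi.1).1, (hS i hi.1).2, hi.2⟩

/-- The data with the lists of `Lists`. -/
@[reducible] def PreData.toLow' (D : PreData Q C K M δ₁ δ G) {i₀ : D.ι} {Al : V → Finset D.ι}
    (h : D.Lists i₀ Al) : LowData Q C K M δ₁ δ G := D.toLow Al h.listA h.listB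

/-- The hypotheses of LIM without lists. -/
theorem WorldOK.preOK {V ι : Type} [Fintype V] [Fintype ι] {X : World ι} {L : Low V ι}
    {Bd : ι → ι → Prop} {k Q : ℝ} {C K : ℕ} {e ε : ℝ} (h : WorldOK X L Bd k Q C K e ε) :
    PreOK X L Bd k Q C K e ε where
  k0 := h.k0
  cV := h.cV
  cV' := h.cV'
  tot1 := h.tot1
  tot2 := h.tot2
  deg := h.deg
  s1 := h.s1
  s2 := h.s2
  Ec := h.Ec
  mind := h.mind
  dK := h.dK
  jK := h.jK
  bsymm := h.bsymm
  brefl := h.brefl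
  bsmall := h.bsmall

/-- A list which forbids nothing. -/
theorem PreData.lists_univ (D : PreData Q C K M δ₁ δ G) (hδ : 0 ≤ δ) (i₀ : D.ι) :
    D.Lists i₀ (fun _ => @univ D.ι D.ft) := by
  let _ := D.ft
  have h0 : ∀ S : Finset D.ι, (∀ i ∈ S, i ∉ (univ : Finset D.ι)) → ∑ i ∈ S, D.w i ≤ δ := by
    intro S hS
    have : S = ∅ := by
      rw [eq_empty_iff_forall_notMem]
      exact fun i hi => hS i hi (mem_univ i)
    rw [this, sum_empty]
    exact hδ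
  exact ⟨fun v _ S hS => h0 S fun i hi => (hS i hi).2, fun v _ _ _ S hS => h0 S fun i hi =>
    (hS i hi).2, fun v _ _ S hS => h0 S fun i hi => (hS i hi).2.1⟩

/-- The hypotheses on the lists. -/
theorem PreData.Lists.listOK {D : PreData Q C K M δ₁ δ G} {i₀ : D.ι} {Al : V → Finset D.ι}
    (h : D.Lists i₀ Al) {e ε : ℝ} (hδe : δ ≤ e) {k : ℝ}
    (hW : WorldOK (D.toLow' h).world (D.toLow' h).low (D.toLow' h).Bd k Q C K e ε) :
    ListOK (D.toLow' h).world (D.toLow' h).low i₀ e ε where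
  AvA := hW.AvA
  Avw := hW.Avw
  BvA := hW.BvA
  BvE := hW.BvE
  Bv0 := by
    intro v hv hj
    have hv' : v.1 ∉ D.Ex := fun h => hv (mem_filter.2 ⟨mem_univ _, h⟩)
    refine (h.listB0 v.1 v.2 hv' hj _ fun i hi => ?_).trans hδe
    rw [mem_filter] at hi
    refine ⟨hi.2.1, fun h => hi.2.2 ?_⟩
    exact mem_filter.2 ⟨mem_univ _, hv', hi.2.1, h⟩
  Bv1 := by
    intro v hv
    have hv' : v.1 ∉ D.Ex := fun h => hv (mem_filter.2 ⟨mem_univ _, h⟩)
    refine (h.listB1 v.1 v.2 hv' _ fun i hi => ?_).trans hδe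
    rw [mem_filter] at hi
    refine ⟨hi.2.1.1, fun h => hi.2.1.2 ?_, hi.2.2⟩
    exact mem_filter.2 ⟨mem_univ _, hv', hi.2.1.1, h⟩

/-- **The low problem v4 from LIM v4 and the selection step**, general form. -/
theorem low4_core {t : Prop} {U : ℝ → Prop} {Q : ℝ} (hsel : SelStmt) (hlim : Lim4 t U Q) :
    ∀ C : ℕ, ∃ e : ℝ, 0 < e ∧ e ≤ 1 / 8 ∧ ∃ K₁ : ℕ, ∀ K : ℕ, K₁ ≤ K → ∃ δ : ℝ, 0 < δ ∧ δ ≤ e ∧
      ∀ M : ℕ, ∃ k₀ : ℕ, ∀ (V : Type) [Fintype V] (G : SimpleGraph V)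
        (D : PreData Q C K M (e / 8) δ G), k₀ ≤ Fintype.card V → (t → ThrP D e) →
        U (@Finset.sum D.ι ℝ _ (@Finset.univ D.ι D.ft) D.w) →
        ∃ As ⊆ D.A, e / 8 ≤ ∑ i ∈ As, D.w i ∧
          ∀ i₀ ∈ As, ∀ Al : V → Finset D.ι, D.Lists i₀ Al → D.Sol Al := by
  intro C
  obtain ⟨e, he, he8, h1⟩ := hlim C
  refine ⟨e, he, he8, ⌈32 * (C : ℝ) / e⌉₊ + 1, fun K hK => ?_⟩
  obtain ⟨B, ε, hε, h2⟩ := h1 K (e / 16) (by linarith)
  refine ⟨min e ε, lt_min he hε, min_le_left _ _, fun M => ?_⟩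
  obtain ⟨hK0, hK'⟩ := large_K he hK
  obtain ⟨k₀, hk₀, h3⟩ := low_of_scheme hsel Q C K M B e ε he he8 hK0 hK'
  refine ⟨k₀, fun V _ G D hV hthr hU => ?_⟩
  have hV0 : 0 < Fintype.card V := by omega
  have hne : Nonempty D.ι := by
    by_contra h
    rw [not_nonempty_iff] at h
    have h4 : ∑ i ∈ D.A, D.w i = 0 := by
      rw [eq_empty_of_isEmpty D.A, sum_empty]
    have h5 := D.half
    have h6 : min e ε ≤ e := min_le_left _ _
    linarith
  obtain ⟨j₀⟩ := hne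
  have hU0 := D.lists_univ (lt_min he hε).le j₀
  have hW0 := (D.toLow' hU0).wok (e := e) (ε := ε) he (min_le_left _ _) (min_le_right _ _)
    (by linarith) hK0 hK' hV0
  obtain ⟨As, hAs, hAsw, h4⟩ := h2 (D.toLow' hU0).Lv (D.toLow' hU0).ι (D.toLow' hU0).world
    (D.toLow' hU0).low (D.toLow' hU0).Bd (Fintype.card V) hW0.preOK
    (fun ht => thrW_of_thrD (D.toLow' hU0) (hthr ht)) hU
  refine ⟨As, hAs, le_trans (by linarith) hAsw, fun i₀ hi₀ Al hL => ?_⟩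
  have hW1 := (D.toLow' hL).wok (e := e) (ε := ε) he (min_le_left _ _) (min_le_right _ _)
    (by linarith) hK0 hK' hV0
  exact h3 (e / 8) _ le_rfl (min_le_left _ _) (min_le_right _ _) V G (D.toLow' hL) hV fun _ =>
    h4 i₀ hi₀ (D.toLow' hL).low.Av (D.toLow' hL).low.Bv
      (hL.listOK (min_le_left _ _) hW1)

/-- `LowProb4` from LIM v4 without threshold. -/
theorem low4_of_lim4 {Q : ℝ} (hsel : SelStmt) (hlim : Lim4 False (fun _ => True) Q) :
    LowProb4 Q := by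
  intro C
  obtain ⟨e, he, he8, K₁, h1⟩ := low4_core hsel hlim C
  refine ⟨e / 8, by linarith, by linarith, K₁, fun K hK => ?_⟩
  obtain ⟨δ, hδ, _, h2⟩ := h1 K hK
  refine ⟨δ, hδ, fun M => ?_⟩
  obtain ⟨k₀, h3⟩ := h2 M
  exact ⟨k₀, fun V _ G D hV => h3 V G D hV False.elim trivial⟩

/-- `LowProb43` from LIM v4 with threshold. -/
theorem low43_of_lim4 {Q : ℝ} (hsel : SelStmt) (hlim : Lim4 True (fun _ => True) Q) :
    LowProb43 Q := by
  intro C
  obtain ⟨e, he, he8, K₁, h1⟩ := low4_core hsel hlim C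
  refine ⟨e / 8, e, by linarith, by linarith, he, K₁, fun K hK => ?_⟩
  obtain ⟨δ, hδ, hδe, h2⟩ := h1 K hK
  refine ⟨δ, hδ, hδe, fun M => ?_⟩
  obtain ⟨k₀, h3⟩ := h2 M
  exact ⟨k₀, fun V _ G D hV hthr => h3 V G D hV (fun _ => hthr) trivial⟩

/-- `LowProb43R` from LIM v4 with threshold and total weight below `1 + Q'`. -/
theorem low43R_of_lim4 {P : ∀ V : Type, SimpleGraph V → Prop} {Q Q' : ℝ} (hsel : SelStmt)
    (hlim : Lim4 True (fun x => x < 1 + Q') Q) : LowProb43R P Q Q' := by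
  intro C
  obtain ⟨e, he, he8, K₁, h1⟩ := low4_core hsel hlim C
  refine ⟨e / 8, e, by linarith, by linarith, he, K₁, fun K hK => ?_⟩
  obtain ⟨δ, hδ, hδe, h2⟩ := h1 K hK
  refine ⟨δ, hδ, hδe, fun M => ?_⟩
  obtain ⟨k₀, h3⟩ := h2 M
  exact ⟨k₀, fun V _ G D hV _ _ _ hU _ hthr => h3 V G D hV (fun _ => hthr) hU⟩

end

end Pool.Agent.T6A
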