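import Pool.Agent.T6A.RuleEnd
import Pool.Agent.T6A.Sel
import Pool.Agent.T6A.Wok4

/-!
# The chain from the certificate v4 to the theorem (MP_c6effb_co)
-/

set_option autoImplicit false

namespace Pool.Agent.T6A

/-- `R(3, G) ≤ k + m` for all large graphs with at least `Q k` edges, from LIM v4. -/
theorem main_of_lim4 {Q : ℝ} (hQ : 0 ≤ Q) (h : Lim4 False (fun _ => True) Q) :
    ∃ k₀ : ℕ, ∀ (V : Type) [Fintype V] (G : SimpleGraph V), k₀ ≤ Fintype.card V →
      Q * Fintype.card V ≤ G.edgeSet.ncard →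
      ∀ H : SimpleGraph (Fin (Fintype.card V + G.edgeSet.ncard)),
        ¬ H.CliqueFree 3 ∨ ∃ f : G →g Hᶜ, Function.Injective f :=
  main_of_low4 hQ (low4_of_lim4 sel h)

/-- The same from a certificate v4. -/
theorem main_of_cert4 {Q : ℝ} (hQ : 0 ≤ Q) (h : CertStmt4 False (fun _ => True) Q) :
    ∃ k₀ : ℕ, ∀ (V : Type) [Fintype V] (G : SimpleGraph V), k₀ ≤ Fintype.card V →
      Q * Fintype.card V ≤ G.edgeSet.ncard →
      ∀ H : SimpleGraph (Fin (Fintype.card V + G.edgeSet.ncard)),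
        ¬ H.CliqueFree 3 ∨ ∃ f : G →g Hᶜ, Function.Injective f :=
  main_of_lim4 hQ (lim4_of ruleStmt h)

/-- `R(3, G) ≤ k + m` for ALL large graphs, from LIM v4 with threshold at `Q = 7 / 5`. -/
theorem all_of_lim4 (h : Lim4 True (fun _ => True) (7 / 5)) :
    ∃ k₀ : ℕ, ∀ (V : Type) [Fintype V] (G : SimpleGraph V), k₀ ≤ Fintype.card V →
      ∀ H : SimpleGraph (Fin (Fintype.card V + G.edgeSet.ncard)),
        ¬ H.CliqueFree 3 ∨ ∃ f : G →g Hᶜ, Function.Injective f :=
  all_of_low4 (low43_of_lim4 sel h)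

/-- The core statement for a range, from LIM v4 with threshold for this range. -/
theorem core3R_of_lim4 {P : ∀ V : Type, SimpleGraph V → Prop} {Q Q' : ℝ}
    (h : Lim4 True (fun x => x < 1 + Q') Q) : Core3RP P Q Q' :=
  core3R_of_low4 (low43R_of_lim4 sel h)

/-- The core statement for a range, from a certificate v4 with threshold for this range. -/
theorem core3R_of_cert4 {P : ∀ V : Type, SimpleGraph V → Prop} {Q Q' : ℝ}
    (h : CertStmt4 True (fun x => x < 1 + Q') Q) : Core3RP P Q Q' :=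
  core3R_of_lim4 (lim4_of ruleStmt h)

end Pool.Agent.T6A
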