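import Mathlib

/-!
# The line at the four corners of a cell implies it on the cell (CERT v3, helper81)

`u = w - h - be`, `L = a + b s + g w + c s w` (bilinear), `C, K ≥ 0`: the inequality
`θ² K ≤ ((2 θ - θ² - L) u - θ² C) u` at the corners implies it for all `w ∈ [w0, w1]`, `s ∈ [s0, s1]`.
-/

set_option autoImplicit false

namespace Pool.Agent.T6A.Corner

theorem inv_le_chord {u0 u1 t : ℝ} (h0 : 0 < u0) (h1 : 0 < u1) (ht : 0 ≤ t) (ht1 : t ≤ 1) :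
    ((1 - t) * u0 + t * u1)⁻¹ ≤ (1 - t) * u0⁻¹ + t * u1⁻¹ := by
  have hu : 0 < (1 - t) * u0 + t * u1 := by
    rcases ht.eq_or_lt with h | h
    · rw [← h]; simpa using h0
    · have := mul_pos h h1
      have := mul_nonneg (sub_nonneg.2 ht1) h0.le
      linarith
  rw [inv_le_iff_one_le_mul₀ hu]
  have e : ((1 - t) * u0⁻¹ + t * u1⁻¹) * ((1 - t) * u0 + t * u1) =
      1 + t * (1 - t) * ((u0 - u1) ^ 2 * (u0⁻¹ * u1⁻¹)) := by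
    field_simp
    ring
  rw [e]
  have : 0 ≤ t * (1 - t) * ((u0 - u1) ^ 2 * (u0⁻¹ * u1⁻¹)) :=
    mul_nonneg (mul_nonneg ht (sub_nonneg.2 ht1))
      (mul_nonneg (sq_nonneg _) (mul_nonneg (inv_nonneg.2 h0.le) (inv_nonneg.2 h1.le)))
  linarith

theorem inv_sq_le_chord {u0 u1 t : ℝ} (h0 : 0 < u0) (h1 : 0 < u1) (ht : 0 ≤ t) (ht1 : t ≤ 1) :
    ((1 - t) * u0 + t * u1)⁻¹ ^ 2 ≤ (1 - t) * u0⁻¹ ^ 2 + t * u1⁻¹ ^ 2 := by
  have hu : 0 ≤ ((1 - t) * u0 + t * u1)⁻¹ :=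
    inv_nonneg.2 (add_nonneg (mul_nonneg (sub_nonneg.2 ht1) h0.le) (mul_nonneg ht h1.le))
  have h2 := inv_le_chord h0 h1 ht ht1
  have h3 := pow_le_pow_left₀ hu h2 2
  refine h3.trans ?_
  nlinarith [mul_nonneg (mul_nonneg ht (sub_nonneg.2 ht1)) (sq_nonneg (u0⁻¹ - u1⁻¹))]

/-- the quotient form -/
theorem form_iff {θ C K L u : ℝ} (hu : 0 < u) :
    θ ^ 2 * K ≤ ((2 * θ - θ ^ 2 - L) * u - θ ^ 2 * C) * u ↔
      0 ≤ 2 * θ - θ ^ 2 - L - θ ^ 2 * C * u⁻¹ - θ ^ 2 * K * u⁻¹ ^ 2 := by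
  have e : ((2 * θ - θ ^ 2 - L) * u - θ ^ 2 * C) * u - θ ^ 2 * K =
      u ^ 2 * (2 * θ - θ ^ 2 - L - θ ^ 2 * C * u⁻¹ - θ ^ 2 * K * u⁻¹ ^ 2) := by
    field_simp
  constructor
  · intro h
    have h1 : 0 ≤ u ^ 2 * (2 * θ - θ ^ 2 - L - θ ^ 2 * C * u⁻¹ - θ ^ 2 * K * u⁻¹ ^ 2) := by
      rw [← e]; linarith
    by_contra hc
    push Not at hc
    have := mul_neg_of_pos_of_neg (pow_pos hu 2) hc
    linarith
  · intro h
    have h1 := mul_nonneg (sq_nonneg u) h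
    rw [← e] at h1
    linarith

/-- one direction: `w` -/
theorem edge {θ C K u0 u1 L0 L1 t : ℝ} (hC : 0 ≤ C) (hK : 0 ≤ K) (h0 : 0 < u0) (h1 : 0 < u1)
    (ht : 0 ≤ t) (ht1 : t ≤ 1)
    (g0 : 0 ≤ 2 * θ - θ ^ 2 - L0 - θ ^ 2 * C * u0⁻¹ - θ ^ 2 * K * u0⁻¹ ^ 2)
    (g1 : 0 ≤ 2 * θ - θ ^ 2 - L1 - θ ^ 2 * C * u1⁻¹ - θ ^ 2 * K * u1⁻¹ ^ 2) :
    0 ≤ 2 * θ - θ ^ 2 - ((1 - t) * L0 + t * L1) - θ ^ 2 * C * ((1 - t) * u0 + t * u1)⁻¹ -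
      θ ^ 2 * K * ((1 - t) * u0 + t * u1)⁻¹ ^ 2 := by
  have h2 := mul_le_mul_of_nonneg_left (inv_le_chord h0 h1 ht ht1) (mul_nonneg (sq_nonneg θ) hC)
  have h3 := mul_le_mul_of_nonneg_left (inv_sq_le_chord h0 h1 ht ht1)
    (mul_nonneg (sq_nonneg θ) hK)
  have h4 := mul_nonneg (sub_nonneg.2 ht1) g0
  have h5 := mul_nonneg ht g1
  nlinarith

/-- a point of an interval as a combination of the end points -/
theorem exists_t {w0 w1 w : ℝ} (h0 : w0 ≤ w) (h1 : w ≤ w1) :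
    ∃ t, 0 ≤ t ∧ t ≤ 1 ∧ w = (1 - t) * w0 + t * w1 := by
  rcases (h0.trans h1).eq_or_lt with h | h
  · exact ⟨0, le_rfl, zero_le_one, by linarith⟩
  · have hd : 0 < w1 - w0 := by linarith
    refine ⟨(w - w0) / (w1 - w0), div_nonneg (by linarith) hd.le, ?_, ?_⟩
    · rw [div_le_one hd]; linarith
    · field_simp
      ring

/-- **The corner lemma**, bilinear `L`. -/
theorem corner {θ C K h be a b g c w0 w1 s0 s1 w s : ℝ} (hC : 0 ≤ C) (hK : 0 ≤ K)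
    (hu : 0 < w0 - h - be) (hw0 : w0 ≤ w) (hw1 : w ≤ w1) (hs0 : s0 ≤ s) (hs1 : s ≤ s1)
    (c00 : θ ^ 2 * K ≤ ((2 * θ - θ ^ 2 - (a + b * s0 + g * w0 + c * s0 * w0)) * (w0 - h - be)
      - θ ^ 2 * C) * (w0 - h - be))
    (c01 : θ ^ 2 * K ≤ ((2 * θ - θ ^ 2 - (a + b * s1 + g * w0 + c * s1 * w0)) * (w0 - h - be)
      - θ ^ 2 * C) * (w0 - h - be))
    (c10 : θ ^ 2 * K ≤ ((2 * θ - θ ^ 2 - (a + b * s0 + g * w1 + c * s0 * w1)) * (w1 - h - be)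
      - θ ^ 2 * C) * (w1 - h - be))
    (c11 : θ ^ 2 * K ≤ ((2 * θ - θ ^ 2 - (a + b * s1 + g * w1 + c * s1 * w1)) * (w1 - h - be)
      - θ ^ 2 * C) * (w1 - h - be)) :
    θ ^ 2 * K ≤ ((2 * θ - θ ^ 2 - (a + b * s + g * w + c * s * w)) * (w - h - be)
      - θ ^ 2 * C) * (w - h - be) := by
  have hu1 : 0 < w1 - h - be := by linarith
  have huw : 0 < w - h - be := by linarith
  rw [form_iff hu] at c00 c01
  rw [form_iff hu1] at c10 c11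
  rw [form_iff huw]
  obtain ⟨t, ht, ht1, ew⟩ := exists_t hw0 hw1
  obtain ⟨r, hr, hr1, es⟩ := exists_t hs0 hs1
  have e1 : (1 - t) * (w0 - h - be) + t * (w1 - h - be) = w - h - be := by rw [ew]; ring
  have g0 := edge hC hK hu hu1 ht ht1 c00 c10
  have g1 := edge hC hK hu hu1 ht ht1 c01 c11
  rw [e1] at g0 g1
  have h4 := mul_nonneg (sub_nonneg.2 hr1) g0
  have h5 := mul_nonneg hr g1
  have e2 : a + b * s + g * w + c * s * w =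
      (1 - r) * ((1 - t) * (a + b * s0 + g * w0 + c * s0 * w0) +
        t * (a + b * s0 + g * w1 + c * s0 * w1)) +
      r * ((1 - t) * (a + b * s1 + g * w0 + c * s1 * w0) +
        t * (a + b * s1 + g * w1 + c * s1 * w1)) := by
    rw [ew, es]; ring
  rw [e2]
  linarith

/-- the line of CERT v3: `L = 1 - s + e1 + eta - sl (dd - 2 s (w + 1))`, `dd = d + 2 j + 2` -/
theorem corner_line {θ C K h be e1 eta sl dd w0 w1 s0 s1 w s : ℝ} (hC : 0 ≤ C) (hK : 0 ≤ K)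
    (hu : 0 < w0 - h - be) (hw0 : w0 ≤ w) (hw1 : w ≤ w1) (hs0 : s0 ≤ s) (hs1 : s ≤ s1)
    (c00 : θ ^ 2 * K ≤ ((2 * θ - θ ^ 2 - (1 - s0 + e1 + eta - sl * (dd - 2 * s0 * (w0 + 1)))) *
      (w0 - h - be) - θ ^ 2 * C) * (w0 - h - be))
    (c01 : θ ^ 2 * K ≤ ((2 * θ - θ ^ 2 - (1 - s1 + e1 + eta - sl * (dd - 2 * s1 * (w0 + 1)))) *
      (w0 - h - be) - θ ^ 2 * C) * (w0 - h - be))
    (c10 : θ ^ 2 * K ≤ ((2 * θ - θ ^ 2 - (1 - s0 + e1 + eta - sl * (dd - 2 * s0 * (w1 + 1)))) *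
      (w1 - h - be) - θ ^ 2 * C) * (w1 - h - be))
    (c11 : θ ^ 2 * K ≤ ((2 * θ - θ ^ 2 - (1 - s1 + e1 + eta - sl * (dd - 2 * s1 * (w1 + 1)))) *
      (w1 - h - be) - θ ^ 2 * C) * (w1 - h - be)) :
    θ ^ 2 * K ≤ ((2 * θ - θ ^ 2 - (1 - s + e1 + eta - sl * (dd - 2 * s * (w + 1)))) *
      (w - h - be) - θ ^ 2 * C) * (w - h - be) := by
  have key : ∀ s w : ℝ, 1 - s + e1 + eta - sl * (dd - 2 * s * (w + 1)) =
      (1 + e1 + eta - sl * dd) + (2 * sl - 1) * s + 0 * w + 2 * sl * s * w := fun s w => by ring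
  rw [key] at c00 c01 c10 c11 ⊢
  exact corner hC hK hu hw0 hw1 hs0 hs1 c00 c01 c10 c11

/-- the same with `L ≤ 0` at a point of the cell allowed: if `L` is at most `0` at the four corners it is at most
`0` on the cell (then no entry is needed) -/
theorem corner_nonpos {e1 eta sl dd w0 w1 s0 s1 w s : ℝ} (hw0 : w0 ≤ w) (hw1 : w ≤ w1)
    (hs0 : s0 ≤ s) (hs1 : s ≤ s1)
    (c00 : 1 - s0 + e1 + eta - sl * (dd - 2 * s0 * (w0 + 1)) ≤ 0)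
    (c01 : 1 - s1 + e1 + eta - sl * (dd - 2 * s1 * (w0 + 1)) ≤ 0)
    (c10 : 1 - s0 + e1 + eta - sl * (dd - 2 * s0 * (w1 + 1)) ≤ 0)
    (c11 : 1 - s1 + e1 + eta - sl * (dd - 2 * s1 * (w1 + 1)) ≤ 0) :
    1 - s + e1 + eta - sl * (dd - 2 * s * (w + 1)) ≤ 0 := by
  obtain ⟨t, ht, ht1, ew⟩ := exists_t hw0 hw1
  obtain ⟨r, hr, hr1, es⟩ := exists_t hs0 hs1
  have e2 : 1 - s + e1 + eta - sl * (dd - 2 * s * (w + 1)) =
      (1 - r) * ((1 - t) * (1 - s0 + e1 + eta - sl * (dd - 2 * s0 * (w0 + 1))) +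
        t * (1 - s0 + e1 + eta - sl * (dd - 2 * s0 * (w1 + 1)))) +
      r * ((1 - t) * (1 - s1 + e1 + eta - sl * (dd - 2 * s1 * (w0 + 1))) +
        t * (1 - s1 + e1 + eta - sl * (dd - 2 * s1 * (w1 + 1)))) := by
    rw [ew, es]; ring
  rw [e2]
  have ht' : 0 ≤ 1 - t := by linarith
  have hr' : 0 ≤ 1 - r := by linarith
  have a0 := add_nonpos (mul_nonpos_of_nonneg_of_nonpos ht' c00)
    (mul_nonpos_of_nonneg_of_nonpos ht c10)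
  have a1 := add_nonpos (mul_nonpos_of_nonneg_of_nonpos ht' c01)
    (mul_nonpos_of_nonneg_of_nonpos ht c11)
  exact add_nonpos (mul_nonpos_of_nonneg_of_nonpos hr' a0) (mul_nonpos_of_nonneg_of_nonpos hr a1)

end Pool.Agent.T6A.Corner
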