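import Mathlib

/-!
# Covering an interval by a list of intervals, Boolean check (CERT v3, helper81)
-/

set_option autoImplicit false

namespace Pool.Agent.T6A.Cover

variable {α : Type*}

/-- `l` covers `[a, b]`: the first interval starts at or before `a`, each next one starts at or before the end of
the part which is covered, the last one ends at or after `b`. -/
def covB (lo hi : α → ℕ) : List α → ℕ → ℕ → Bool
  | [], a, b => Nat.blt b a
  | i :: l, a, b => Nat.ble (lo i) a && (Nat.ble b (hi i) || covB lo hi l (hi i) b)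

/-- the cover, natural end points, real point -/
theorem cov_get {lo hi : α → ℕ} : ∀ {l : List α} {a b : ℕ}, covB lo hi l a b = true →
    ∀ {x : ℝ}, (a : ℝ) ≤ x → x ≤ b → ∃ i ∈ l, (lo i : ℝ) ≤ x ∧ x ≤ (hi i : ℝ)
  | [], a, b, h, x, h0, h1 => by
    have h2 : b < a := Nat.le_of_ble_eq_true h
    have h3 : (b : ℝ) < a := by exact_mod_cast h2
    linarith
  | i :: l, a, b, h, x, h0, h1 => by
    rw [covB, Bool.and_eq_true, Bool.or_eq_true] at h
    have h2 : lo i ≤ a := Nat.le_of_ble_eq_true h.1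
    have h3 : (lo i : ℝ) ≤ a := by exact_mod_cast h2
    rcases le_or_gt x (hi i : ℝ) with h4 | h4
    · exact ⟨i, List.mem_cons_self, h3.trans h0, h4⟩
    · rcases h.2 with h5 | h5
      · have h6 : (b : ℝ) ≤ hi i := by exact_mod_cast Nat.le_of_ble_eq_true h5
        exact ⟨i, List.mem_cons_self, h3.trans h0, h1.trans h6⟩
      · obtain ⟨j, hj, h6⟩ := cov_get h5 h4.le h1
        exact ⟨j, List.mem_cons_of_mem _ hj, h6⟩

/-- the same in the unit `1/u` -/
theorem cov_get_div {lo hi : α → ℕ} {l : List α} {a b : ℕ} (h : covB lo hi l a b = true) {u : ℝ}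
    (hu : 0 < u) {x : ℝ} (h0 : (a : ℝ) / u ≤ x) (h1 : x ≤ (b : ℝ) / u) :
    ∃ i ∈ l, (lo i : ℝ) / u ≤ x ∧ x ≤ (hi i : ℝ) / u := by
  obtain ⟨i, hi', h2, h3⟩ := cov_get h (x := x * u) (by rwa [← div_le_iff₀ hu])
    (by rwa [← le_div_iff₀ hu])
  exact ⟨i, hi', by rwa [div_le_iff₀ hu], by rwa [le_div_iff₀ hu]⟩

/-- Two levels: strips `i` in the first coordinate, with cells `c` of `cells i` in the second one, which must
cover `[p i, q i]`. -/
def covB2 {β : Type*} (lo hi p q : α → ℕ) (cells : α → List β) (lo' hi' : β → ℕ) (l : List α)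
    (a b : ℕ) : Bool :=
  covB lo hi l a b && l.all fun i => covB lo' hi' (cells i) (p i) (q i)

/-- the two level cover -/
theorem cov2_get {β : Type*} {lo hi p q : α → ℕ} {cells : α → List β} {lo' hi' : β → ℕ}
    {l : List α} {a b : ℕ} (h : covB2 lo hi p q cells lo' hi' l a b = true) {u : ℝ} (hu : 0 < u)
    {x y : ℝ} (h0 : (a : ℝ) / u ≤ x) (h1 : x ≤ (b : ℝ) / u)
    (hy : ∀ i ∈ l, (lo i : ℝ) / u ≤ x → x ≤ (hi i : ℝ) / u →
      (p i : ℝ) / u ≤ y ∧ y ≤ (q i : ℝ) / u) :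
    ∃ i ∈ l, ((lo i : ℝ) / u ≤ x ∧ x ≤ (hi i : ℝ) / u) ∧
      ∃ c ∈ cells i, (lo' c : ℝ) / u ≤ y ∧ y ≤ (hi' c : ℝ) / u := by
  rw [covB2, Bool.and_eq_true] at h
  obtain ⟨i, hi', h2, h3⟩ := cov_get_div h.1 hu h0 h1
  have h4 := List.all_eq_true.1 h.2 i hi'
  obtain ⟨h5, h6⟩ := hy i hi' h2 h3
  exact ⟨i, hi', ⟨h2, h3⟩, cov_get_div h4 hu h5 h6⟩

end Pool.Agent.T6A.Cover
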