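import Pool.Agent.T6A.ChkSnd
import Pool.Agent.T6A.ChkCorner
import Pool.Agent.T6A.Cover

/-!
# The checker for the cells of CERT v3 (MP_c6effb_co, helper37)

Coordinates `(w, σ)`: `σ = s + e1`, `tot = σ (w + 1)`, the list of a vertex has weight `≥ (w - hub) σ`.
A cell is a rectangle in `(w, σ)` with a slope and, for every needed degree, a profile of the menu
and a number `θ`. All numbers are in the unit `1 / 10000`; `e1 = 1 / 10 ^ 6`, `η = 1 / 10 ^ 5`.
-/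

set_option autoImplicit false

namespace Pool.Agent.T6A.Chk

open Bern

/-- An entry: index of the profile in the menu of the degree, and `θ`. -/
structure Ent : Type where
  i : ℕ
  th : ℕ

/-- A cell: `σ`-interval, slope, menu, entries of hub `0` (from the first needed degree on) and of
hub `1` (from degree `0` on). -/
structure Cell : Type where
  s0 : ℕ
  s1 : ℕ
  sl : ℕ
  m : ℕ
  h0 : List Ent
  h1 : List Ent

/-- A strip: `w`-interval and its cells. -/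
structure Strip : Type where
  w0 : ℕ
  w1 : ℕ
  cs : List Cell

/-- A menu: the common factor and `ξ`, and the profiles of degree `0, 1, 2, ...`. -/
structure Menu : Type where
  al : Af
  xi : ℕ
  ps : List (List Pf)

/-- positive part of the line, unit `10 ^ (-12)` -/
def LP (w s sl : ℕ) : ℕ := 1000011000000 + 2 * sl * s * (w + 10000)

/-- negative part of the line, `x = d + 2 j` -/
def LN (s sl x : ℕ) : ℕ := 100000000 * s + 100000000 * sl * (x + 2)

/-- the line is `≤ 0` on the cell -/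
def noL (w1 s0 s1 sl x : ℕ) : Bool :=
  Nat.ble (LP w1 s0 sl) (LN s0 sl x) && Nat.ble (LP w1 s1 sl) (LN s1 sl x)

/-- the line at a corner, `u = w - hub - be` -/
def crn (u th C X sL P N : ℕ) : Bool :=
  Nat.ble (th * th * (C * C * (X * X)) + 4 * sL * u * ((th * th * 10000 + P) * u
    + th * th * (C * 10000))) (4 * sL * u * (u * (200000000 * th + N)))

/-- the side conditions, `u = w - hub - be`, `W = w - hub` -/
def sideB (p : Pf) (u W th : ℕ) : Bool :=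
  Nat.ble 100000000 (th * p.rho + p.om * 10000) &&
  Nat.ble ((p.m1 + p.B) * 10000) (p.a1 * W) &&
  Nat.ble (th * ((p.g0 + p.g1) * u + p.g0 * p.be + 2 * p.th * p.kap)) (p.th * 10000 * u) &&
  nnI (Int.ofNat (p.om * 10000 * u) - Int.ofNat th * ((p.k0 + p.k1) * Int.ofNat u
    + Int.ofNat (p.k0.toNat * p.be + (p.k2 + 2 * p.k3) * 10000))) &&
  Nat.ble (10000 * p.al.x1 * u + th * p.F2 * 20000) (100000000 * u + th * p.F2 * p.al.x1)

/-- the check of an entry: profile, `hub * 10000 + be`, `hub * 10000` -/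
def okE (p : Pf) (w0 w1 s0 s1 sl hb x th : ℕ) : Bool :=
  Nat.blt (hb + p.be) w0 && Nat.ble 1 p.sL &&
  Nat.ble (20000000000 * th) (999999 * (s0 * (w0 - (hb + p.be)))) &&
  (Nat.ble 10000 p.om || Nat.ble p.d 0 || sideB p (w0 - (hb + p.be)) (w0 - hb) th) &&
  crn (w0 - (hb + p.be)) th p.C p.X p.sL (LP w0 s0 sl) (LN s0 sl x) &&
  crn (w0 - (hb + p.be)) th p.C p.X p.sL (LP w0 s1 sl) (LN s1 sl x) &&
  crn (w1 - (hb + p.be)) th p.C p.X p.sL (LP w1 s0 sl) (LN s0 sl x) &&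
  crn (w1 - (hb + p.be)) th p.C p.X p.sL (LP w1 s1 sl) (LN s1 sl x)

/-- the check of an entry of a list -/
def okI (ps : List Pf) (w0 w1 : ℕ) (c : Cell) (hb x : ℕ) (e : Ent) : Bool :=
  match ps[e.i]? with
  | none => false
  | some p => okE p w0 w1 c.s0 c.s1 c.sl hb x e.th

/-- hub `0`, from the degree `d` on -/
def go0 (w0 w1 : ℕ) (c : Cell) : ℕ → List (List Pf) → List Ent → Bool
  | d, _, [] => noL w1 c.s0 c.s1 c.sl d
  | d, m :: M, e :: l =>
    (okI m w0 w1 c 0 d e || noL w1 c.s0 c.s1 c.sl d) && go0 w0 w1 c (d + 1) M l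
  | _, [], _ :: _ => false

/-- hub `1`, from the degree `d` on -/
def go1 (w0 w1 : ℕ) (c : Cell) (D0 : ℕ) : ℕ → List (List Pf) → List Ent → Bool
  | d, _, [] => Nat.ble D0 (d + 1) && noL w1 c.s0 c.s1 c.sl (d + 2)
  | d, m :: M, e :: l =>
    (okI m w0 w1 c 10000 (d + 2 * (D0 - (d + 1) + 1)) e
      || noL w1 c.s0 c.s1 c.sl (d + 2 * (D0 - (d + 1) + 1))) && go1 w0 w1 c D0 (d + 1) M l
  | _, [], _ :: _ => false

/-- the smallest needed `d + j` -/
def Dmin (w0 s0 : ℕ) : ℕ :=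
  ((w0 + 10000) * s0 * 1000000 - 100000100000000 + (10000000000 * s0 - 1)) / (10000000000 * s0)

/-- **The check of a cell.** -/
def okCell (M : Menu) (w0 w1 : ℕ) (c : Cell) : Bool :=
  okAf M.al && Nat.ble 1 M.xi && Nat.ble c.sl 10000 && Nat.ble 1 c.s0 &&
  go0 w0 w1 c (Dmin w0 c.s0) (M.ps.drop (Dmin w0 c.s0)) c.h0 &&
  go1 w0 w1 c (Dmin w0 c.s0) 0 M.ps c.h1

/-- the check of the cells of a strip -/
def okStrip (ms : List Menu) (t : Strip) : Bool :=
  t.cs.all fun c => match ms[c.m]? with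
    | none => false
    | some M => okCell M t.w0 t.w1 c

/-- lower end of the needed `σ` in a strip -/
def pS (Q : ℕ) (t : Strip) : ℕ :=
  Nat.max 5000 ((10000 * (10000 + Q) - 100) / (t.w1 + 10000))

/-- upper end of the needed `σ` in a strip -/
def qS (Q' : ℕ) (t : Strip) : ℕ :=
  Nat.min 10001 ((10000 * (10000 + Q') + (t.w0 + 9999)) / (t.w0 + 10000))

/-- **The check that the strips cover the range.** -/
def okCover (Q Q' : ℕ) (T : List Strip) : Bool :=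
  Cover.covB2 Strip.w0 Strip.w1 (pS Q) (qS Q') Strip.cs Cell.s0 Cell.s1 T
    ((1000000 * Q - 30000) / 1000002) (2 * Q' + 10000)

/-- the profiles of one degree -/
def okDeg (al : Af) (xi d : ℕ) (l : List Pf) : Bool :=
  l.all fun p => okPf p && Nat.beq p.d d && Nat.beq p.xi xi && Nat.beq p.al.kd al.kd &&
    Nat.beq p.al.c al.c && Nat.beq p.al.x1 al.x1 && Nat.beq p.al.AM al.AM

/-- The menu is valid from the degree `d` on. -/
def MOK (al : Af) (xi d : ℕ) (M : List (List Pf)) : Prop :=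
  ∀ k l, M[k]? = some l → okDeg al xi (d + k) l = true

theorem mok_nil (al : Af) (xi d : ℕ) : MOK al xi d [] := fun k l h => by simp at h

theorem mok_cons {al : Af} {xi d : ℕ} {m : List Pf} {M : List (List Pf)}
    (h : okDeg al xi d m = true) (H : MOK al xi (d + 1) M) : MOK al xi d (m :: M) := by
  intro k l hk
  rcases k with _ | k
  · rw [List.getElem?_cons_zero] at hk
    obtain rfl := Option.some.inj hk
    exact h
  · rw [List.getElem?_cons_succ] at hk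
    have := H k l hk
    rwa [show d + (k + 1) = d + 1 + k by omega]

theorem MOK.head {al : Af} {xi d : ℕ} {m : List Pf} {M : List (List Pf)}
    (H : MOK al xi d (m :: M)) : okDeg al xi d m = true := H 0 m rfl

theorem MOK.tail {al : Af} {xi d : ℕ} {m : List Pf} {M : List (List Pf)}
    (H : MOK al xi d (m :: M)) : MOK al xi (d + 1) M := by
  intro k l hk
  have := H (k + 1) l (by rwa [List.getElem?_cons_succ])
  rwa [show d + 1 + k = d + (k + 1) by omega]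

theorem MOK.drop {al : Af} {xi : ℕ} {M : List (List Pf)} (H : MOK al xi 0 M) (d : ℕ) :
    MOK al xi d (M.drop d) := by
  intro k l hk
  rw [List.getElem?_drop] at hk
  have := H (d + k) l hk
  rwa [zero_add] at this

theorem okDeg_mem {al : Af} {xi d : ℕ} {l : List Pf} (h : okDeg al xi d l = true) {p : Pf}
    (hp : p ∈ l) : okPf p = true ∧ p.d = d ∧ p.xi = xi ∧ p.al = al := by
  have h1 := List.all_eq_true.1 h p hp
  simp only [Bool.and_eq_true] at h1
  obtain ⟨⟨⟨⟨⟨⟨h1, h2⟩, h3⟩, h4⟩, h5⟩, h6⟩, h7⟩ := h1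
  refine ⟨h1, Nat.eq_of_beq_eq_true h2, Nat.eq_of_beq_eq_true h3, ?_⟩
  have e1 := Nat.eq_of_beq_eq_true h4
  have e2 := Nat.eq_of_beq_eq_true h5
  have e3 := Nat.eq_of_beq_eq_true h6
  have e4 := Nat.eq_of_beq_eq_true h7
  rcases h8 : p.al with ⟨a, b, c, e⟩
  rcases al with ⟨a', b', c', e'⟩
  rw [h8] at e1 e2 e3 e4
  simp only at e1 e2 e3 e4
  rw [e1, e2, e3, e4]

/-- A good entry for `(d, hub, x)`. -/
def Good (M : Menu) (w0 w1 : ℕ) (c : Cell) (d hb x : ℕ) : Prop :=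
  ∃ (p : Pf) (th : ℕ), okPf p = true ∧ p.d = d ∧ p.xi = M.xi ∧ p.al = M.al ∧
    okE p w0 w1 c.s0 c.s1 c.sl hb x th = true

theorem good_of {M : Menu} {w0 w1 : ℕ} {c : Cell} {d hb x : ℕ} {ps : List Pf} {e : Ent}
    (hp : okDeg M.al M.xi d ps = true) (h : okI ps w0 w1 c hb x e = true) :
    Good M w0 w1 c d hb x := by
  unfold okI at h
  rcases h1 : ps[e.i]? with _ | p
  · rw [h1] at h
    exact absurd h (by simp)
  · rw [h1] at h
    obtain ⟨h2, h3, h4, h5⟩ := okDeg_mem hp (List.mem_of_getElem? h1)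
    exact ⟨p, e.th, h2, h3, h4, h5, h⟩

/-- the line is monotone in `x` -/
theorem noL_mono {w1 s0 s1 sl x y : ℕ} (h : noL w1 s0 s1 sl x = true) (hxy : x ≤ y) :
    noL w1 s0 s1 sl y = true := by
  unfold noL at h ⊢
  rw [Bool.and_eq_true] at h ⊢
  have h1 := Nat.le_of_ble_eq_true h.1
  have h2 := Nat.le_of_ble_eq_true h.2
  have h3 : ∀ s, LN s sl x ≤ LN s sl y := fun s =>
    Nat.add_le_add_left (Nat.mul_le_mul_left _ (by omega)) _
  exact ⟨Nat.ble_eq_true_of_le (h1.trans (h3 _)), Nat.ble_eq_true_of_le (h2.trans (h3 _))⟩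

theorem go0_get {M : Menu} {w0 w1 : ℕ} {c : Cell} : ∀ (l : List Ent) (d : ℕ)
    (ps : List (List Pf)), MOK M.al M.xi d ps → go0 w0 w1 c d ps l = true →
    ∀ d', d ≤ d' → noL w1 c.s0 c.s1 c.sl d' = true ∨ Good M w0 w1 c d' 0 d'
  | [], d, ps, _, h, d', hd => by
    have h1 : noL w1 c.s0 c.s1 c.sl d = true := by
      rcases ps with _ | ⟨m, ps⟩ <;> simpa [go0] using h
    exact Or.inl (noL_mono h1 hd)
  | e :: l, d, [], _, h, d', hd => by simp [go0] at h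
  | e :: l, d, m :: ps, hm, h, d', hd => by
    rw [go0, Bool.and_eq_true, Bool.or_eq_true] at h
    rcases eq_or_lt_of_le hd with rfl | hd
    · rcases h.1 with h1 | h1
      · exact Or.inr (good_of hm.head h1)
      · exact Or.inl h1
    · exact go0_get l (d + 1) ps hm.tail h.2 d' hd

theorem go1_get {M : Menu} {w0 w1 : ℕ} {c : Cell} {D0 : ℕ} : ∀ (l : List Ent) (d : ℕ)
    (ps : List (List Pf)), MOK M.al M.xi d ps → go1 w0 w1 c D0 d ps l = true →
    ∀ d' j, d ≤ d' → 1 ≤ j → D0 ≤ d' + j → noL w1 c.s0 c.s1 c.sl (d' + 2 * j) = true ∨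
      ∃ x, x ≤ d' + 2 * j ∧ Good M w0 w1 c d' 10000 x
  | [], d, ps, _, h, d', j, hd, hj, hD => by
    have h1 : D0 ≤ d + 1 ∧ noL w1 c.s0 c.s1 c.sl (d + 2) = true := by
      rcases ps with _ | ⟨m, ps⟩ <;>
      · rw [go1, Bool.and_eq_true] at h
        exact ⟨Nat.le_of_ble_eq_true h.1, h.2⟩
    exact Or.inl (noL_mono h1.2 (by omega))
  | e :: l, d, [], _, h, d', j, hd, hj, hD => by simp [go1] at h
  | e :: l, d, m :: ps, hm, h, d', j, hd, hj, hD => by
    rw [go1, Bool.and_eq_true, Bool.or_eq_true] at h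
    rcases eq_or_lt_of_le hd with rfl | hd
    · have hx : d + 2 * (D0 - (d + 1) + 1) ≤ d + 2 * j := by omega
      rcases h.1 with h1 | h1
      · exact Or.inr ⟨_, hx, good_of hm.head h1⟩
      · exact Or.inl (noL_mono h1 hx)
    · exact go1_get l (d + 1) ps hm.tail h.2 d' j hd hj hD

/-! ### Real forms -/

noncomputable section

/-- the line, `x = d + 2 j` -/
def Lr (sl σ w x : ℝ) : ℝ := 1 - σ + 1 / 10 ^ 6 + 1 / 10 ^ 5 - sl * (x + 2 - 2 * σ * (w + 1))

theorem cv (n : ℕ) : (n : ℝ) = 10000 * v n := by unfold v; ring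

theorem cvz (n : ℤ) : (n : ℝ) = 10000 * vz n := by unfold vz; ring

theorem v_sub {a b : ℕ} (h : b ≤ a) : v (a - b) = v a - v b := by
  unfold v
  rw [Nat.cast_sub h]
  ring

theorem v_add (a b : ℕ) : v (a + b) = v a + v b := by
  unfold v
  push_cast
  ring

theorem Lr_nat (w s sl x : ℕ) :
    (LP w s sl : ℝ) - LN s sl x = 10 ^ 12 * Lr (v sl) (v s) (v w) x := by
  unfold LP LN Lr
  push_cast
  rw [cv w, cv s, cv sl]
  ring

theorem noL_sound {w1 s0 s1 sl x : ℕ} (h : noL w1 s0 s1 sl x = true) {w σ : ℝ} (hw : w ≤ v w1)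
    (h0 : v s0 ≤ σ) (h1 : σ ≤ v s1) : Lr (v sl) σ w x ≤ 0 := by
  unfold noL at h
  rw [Bool.and_eq_true] at h
  have a0 : (LP w1 s0 sl : ℝ) ≤ LN s0 sl x := by exact_mod_cast Nat.le_of_ble_eq_true h.1
  have a1 : (LP w1 s1 sl : ℝ) ≤ LN s1 sl x := by exact_mod_cast Nat.le_of_ble_eq_true h.2
  have b0 : Lr (v sl) (v s0) (v w1) x ≤ 0 := by
    have := Lr_nat w1 s0 sl x
    linarith
  have b1 : Lr (v sl) (v s1) (v w1) x ≤ 0 := by
    have := Lr_nat w1 s1 sl x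
    linarith
  have hσ : 0 ≤ σ := (v_nonneg s0).trans h0
  have hm : Lr (v sl) σ w x ≤ Lr (v sl) σ (v w1) x := by
    have h2 := mul_nonneg (mul_nonneg (v_nonneg sl) hσ) (sub_nonneg.2 hw)
    unfold Lr
    nlinarith
  obtain ⟨t, ht, ht1, e⟩ := Corner.exists_t h0 h1
  have h3 : Lr (v sl) σ (v w1) x =
      (1 - t) * Lr (v sl) (v s0) (v w1) x + t * Lr (v sl) (v s1) (v w1) x := by
    rw [e]
    unfold Lr
    ring
  have h4 := mul_nonneg_of_nonpos_of_nonpos b1 (neg_nonpos.2 ht)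
  have h5 := mul_nonneg_of_nonpos_of_nonpos b0 (neg_nonpos.2 (sub_nonneg.2 ht1))
  linarith

theorem crn_sound {u th C X sL w s sl x : ℕ} (hs : 0 < v sL)
    (h : crn u th C X sL (LP w s sl) (LN s sl x) = true) :
    v th ^ 2 * (v C ^ 2 * v X ^ 2 / (4 * v sL)) ≤
      ((2 * v th - v th ^ 2 - Lr (v sl) (v s) (v w) x) * v u - v th ^ 2 * v C) * v u := by
  have h1 : ((th * th * (C * C * (X * X)) + 4 * sL * u * ((th * th * 10000 + LP w s sl) * u
    + th * th * (C * 10000)) : ℕ) : ℝ)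
      ≤ ((4 * sL * u * (u * (200000000 * th + LN s sl x)) : ℕ) : ℝ) := by
    exact_mod_cast Nat.le_of_ble_eq_true h
  push_cast at h1
  have h2 := Lr_nat w s sl x
  obtain ⟨P, hP⟩ : ∃ P, P = (LP w s sl : ℝ) := ⟨_, rfl⟩
  obtain ⟨N, hN⟩ : ∃ N, N = (LN s sl x : ℝ) := ⟨_, rfl⟩
  obtain ⟨L, hL⟩ : ∃ L, L = Lr (v sl) (v s) (v w) x := ⟨_, rfl⟩
  rw [← hP, ← hN] at h1 h2
  rw [← hL] at h2 ⊢
  have h3 : P = N + 10 ^ 12 * L := by linarith
  rw [h3, cv th, cv C, cv X, cv sL, cv u] at h1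
  have h4 : v th ^ 2 * (v C ^ 2 * v X ^ 2) ≤
      4 * v sL * (((2 * v th - v th ^ 2 - L) * v u - v th ^ 2 * v C) * v u) := by
    nlinarith
  have h5 : v th ^ 2 * (v C ^ 2 * v X ^ 2 / (4 * v sL)) =
      v th ^ 2 * (v C ^ 2 * v X ^ 2) / (4 * v sL) := by ring
  rw [h5, div_le_iff₀ (by linarith)]
  linarith

/-- the side conditions in real form, `u = w0 - hub - be`, `W0 = w0 - hub` -/
theorem sideB_sound {p : Pf} {u W th : ℕ} (h : sideB p u W th = true) :
    (1 ≤ v th * v p.rho + v p.om) ∧ (v p.m1 + v p.B ≤ v p.a1 * v W) ∧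
    (v th * ((v p.g0 + v p.g1) * v u + v p.g0 * v p.be + 2 * v p.th * v p.kap) ≤ v p.th * v u) ∧
    (∃ K : ℝ, 0 ≤ K ∧ vz p.k0 ≤ K ∧
      v th * ((vz p.k0 + vz p.k1) * v u + K * v p.be + v p.k2 + 2 * v p.k3) ≤ v p.om * v u) ∧
    (v th * v p.F2 * (2 - v p.al.x1) ≤ (1 - v p.al.x1) * v u) := by
  unfold sideB at h
  simp only [Bool.and_eq_true] at h
  obtain ⟨⟨⟨⟨h1, h2⟩, h3⟩, h4⟩, h5⟩ := h
  have g1 : ((100000000 : ℕ) : ℝ) ≤ ((th * p.rho + p.om * 10000 : ℕ) : ℝ) := by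
    exact_mod_cast Nat.le_of_ble_eq_true h1
  have g2 : (((p.m1 + p.B) * 10000 : ℕ) : ℝ) ≤ ((p.a1 * W : ℕ) : ℝ) := by
    exact_mod_cast Nat.le_of_ble_eq_true h2
  have g3 : ((th * ((p.g0 + p.g1) * u + p.g0 * p.be + 2 * p.th * p.kap) : ℕ) : ℝ)
      ≤ ((p.th * 10000 * u : ℕ) : ℝ) := by
    exact_mod_cast Nat.le_of_ble_eq_true h3
  have g4 := (nnI_iff _).1 h4
  have g4' : (0 : ℝ) ≤ ((Int.ofNat (p.om * 10000 * u) - Int.ofNat th * ((p.k0 + p.k1) * Int.ofNat u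
    + Int.ofNat (p.k0.toNat * p.be + (p.k2 + 2 * p.k3) * 10000)) : ℤ) : ℝ) := by
    exact_mod_cast g4
  have g5 : ((10000 * p.al.x1 * u + th * p.F2 * 20000 : ℕ) : ℝ)
      ≤ ((100000000 * u + th * p.F2 * p.al.x1 : ℕ) : ℝ) := by
    exact_mod_cast Nat.le_of_ble_eq_true h5
  push_cast at g1 g2 g3 g5
  simp only [Int.ofNat_eq_natCast] at g4'
  push_cast at g4'
  have hk : (p.k0 : ℝ) ≤ ((p.k0.toNat : ℕ) : ℝ) := by
    exact_mod_cast Int.self_le_toNat p.k0
  have hk' : vz p.k0 ≤ v p.k0.toNat := by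
    unfold vz v
    exact div_le_div_of_nonneg_right hk (by norm_num)
  have g6 : (0 : ℝ) ≤ (p.om : ℝ) * 10000 * u - (th : ℝ) * (((p.k0 : ℝ) + p.k1) * u
      + (((p.k0.toNat : ℕ) : ℝ) * p.be + ((p.k2 : ℝ) + 2 * p.k3) * 10000)) := by
    convert g4' using 3
  rw [cv th, cv p.rho, cv p.om] at g1
  rw [cv p.m1, cv p.B, cv p.a1, cv W] at g2
  rw [cv th, cv p.g0, cv p.g1, cv u, cv p.be, cv p.th, cv p.kap] at g3
  rw [cv p.om, cv u, cv th, cvz p.k0, cvz p.k1, cv p.k0.toNat, cv p.be, cv p.k2, cv p.k3] at g6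
  rw [cv p.al.x1, cv u, cv th, cv p.F2] at g5
  refine ⟨by nlinarith, by nlinarith, by nlinarith, ⟨v p.k0.toNat, v_nonneg _, hk', by nlinarith⟩,
    by nlinarith⟩

/-- the side conditions for the vertex -/
theorem side_of {p : Pf} {W A sg θ u W0 : ℝ} (hx : v p.al.x1 ≤ 1) (hθ : 0 ≤ θ) (hu : 0 < u)
    (hsg : 0 ≤ sg) (huA : u * sg ≤ A) (hWA : W ≤ A + v p.be * sg) (hAW : A ≤ W)
    (hW0 : W0 * sg ≤ W)
    (h1 : 1 ≤ θ * v p.rho + v p.om) (h2 : v p.m1 + v p.B ≤ v p.a1 * W0)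
    (h3 : θ * ((v p.g0 + v p.g1) * u + v p.g0 * v p.be + 2 * v p.th * v p.kap) ≤ v p.th * u)
    (h4 : ∃ K : ℝ, 0 ≤ K ∧ vz p.k0 ≤ K ∧
      θ * ((vz p.k0 + vz p.k1) * u + K * v p.be + v p.k2 + 2 * v p.k3) ≤ v p.om * u)
    (h5 : θ * v p.F2 * (2 - v p.al.x1) ≤ (1 - v p.al.x1) * u) : Side p W A sg θ := by
  have hA : 0 ≤ A := (mul_nonneg hu.le hsg).trans huA
  have key : ∀ {c b : ℝ}, 0 ≤ b → b ≤ c * u → b * sg ≤ c * A := by
    intro c b hb hc
    have hc0 : 0 ≤ c := by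
      by_contra hn
      push Not at hn
      have := mul_neg_of_neg_of_pos hn hu
      linarith
    calc b * sg ≤ c * u * sg := mul_le_mul_of_nonneg_right hc hsg
      _ = c * (u * sg) := by ring
      _ ≤ c * A := mul_le_mul_of_nonneg_left huA hc0
  have hg0 := v_nonneg p.g0
  have hg1 := v_nonneg p.g1
  have hbe := v_nonneg p.be
  constructor
  · have e1 : (1 - v p.om) * A ≤ θ * v p.rho * A := mul_le_mul_of_nonneg_right (by linarith) hA
    have e2 : 0 ≤ v p.a1 * W - v p.m1 * sg - v p.B * sg := by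
      have h6 := mul_le_mul_of_nonneg_right h2 hsg
      have h7 := mul_le_mul_of_nonneg_left hW0 (v_nonneg p.a1)
      nlinarith
    have e3 := mul_nonneg hθ e2
    nlinarith
  · have e1 := key (c := v p.th - θ * (v p.g0 + v p.g1))
      (b := θ * (v p.g0 * v p.be + 2 * v p.th * v p.kap))
      (mul_nonneg hθ (add_nonneg (mul_nonneg hg0 hbe)
        (mul_nonneg (mul_nonneg (by norm_num) (v_nonneg _)) (v_nonneg _)))) (by nlinarith)
    have e2 := mul_le_mul_of_nonneg_left (mul_le_mul_of_nonneg_left hWA hg0) hθ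
    nlinarith
  · obtain ⟨K, hK, hkK, h4⟩ := h4
    have e1 := key (c := v p.om - θ * (vz p.k0 + vz p.k1))
      (b := θ * (K * v p.be + v p.k2 + 2 * v p.k3))
      (mul_nonneg hθ (add_nonneg (add_nonneg (mul_nonneg hK hbe) (v_nonneg _))
        (mul_nonneg (by norm_num) (v_nonneg _)))) (by nlinarith)
    have e2 : vz p.k0 * (W - A) ≤ K * (v p.be * sg) :=
      (mul_le_mul_of_nonneg_right hkK (by linarith)).trans
        (mul_le_mul_of_nonneg_left (by linarith) hK)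
    have e3 := mul_le_mul_of_nonneg_left e2 hθ
    nlinarith
  · have e1 := key (c := 1 - v p.al.x1) (b := θ * v p.F2 * (2 - v p.al.x1))
      (mul_nonneg (mul_nonneg hθ (v_nonneg _)) (by linarith)) h5
    nlinarith

/-- the line from the line at `u` -/
theorem line_of {θ C X s K sg A L u : ℝ} (hu : 0 < u) (hA : 0 < A) (hsg : 0 ≤ sg)
    (huA : u * sg ≤ A) (hC : 0 ≤ C) (hK : C ^ 2 * X ^ 2 / (4 * s) ≤ K) (hK0 : 0 ≤ K)
    (h : θ ^ 2 * K ≤ ((2 * θ - θ ^ 2 - L) * u - θ ^ 2 * C) * u) :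
    L ≤ 2 * (θ / A * A) - (θ / A) ^ 2 *
      (A ^ 2 + sg * C * A + sg ^ 2 * C ^ 2 * X ^ 2 / (4 * s)) := by
  rw [Corner.form_iff hu] at h
  obtain ⟨r, hr⟩ : ∃ r, r = sg / A := ⟨_, rfl⟩
  have hr0 : 0 ≤ r := by rw [hr]; positivity
  have hru : r ≤ u⁻¹ := by
    rw [hr, div_le_iff₀ hA, ← div_eq_inv_mul, le_div_iff₀ hu]
    linarith
  have e1 : 2 * (θ / A * A) - (θ / A) ^ 2 *
      (A ^ 2 + sg * C * A + sg ^ 2 * C ^ 2 * X ^ 2 / (4 * s)) =
      2 * θ - θ ^ 2 - θ ^ 2 * C * r - θ ^ 2 * (C ^ 2 * X ^ 2 / (4 * s)) * r ^ 2 := by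
    have e2 : sg ^ 2 * C ^ 2 * X ^ 2 / (4 * s) = sg ^ 2 * (C ^ 2 * X ^ 2 / (4 * s)) := by ring
    rw [e2, hr]
    generalize C ^ 2 * X ^ 2 / (4 * s) = K'
    field_simp
    ring
  rw [e1]
  have h1 : θ ^ 2 * C * r ≤ θ ^ 2 * C * u⁻¹ :=
    mul_le_mul_of_nonneg_left hru (mul_nonneg (sq_nonneg _) hC)
  have h2 : θ ^ 2 * (C ^ 2 * X ^ 2 / (4 * s)) * r ^ 2 ≤ θ ^ 2 * K * u⁻¹ ^ 2 := by
    refine mul_le_mul (mul_le_mul_of_nonneg_left hK (sq_nonneg _))
      (pow_le_pow_left₀ hr0 hru 2) (sq_nonneg _) (mul_nonneg (sq_nonneg _) hK0)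
  linarith

/-- **An entry gives the conditions of the vertex.** -/
theorem ent_pt {p : Pf} (hp : okPf p = true) (hal : okAf p.al = true)
    {w0 w1 s0 s1 sl hb x th : ℕ} (h : okE p w0 w1 s0 s1 sl hb x th = true) (hs : 0 < v s0)
    {w σ : ℝ} (hw0 : v w0 ≤ w) (hw1 : w ≤ v w1) (hs0 : v s0 ≤ σ) (hs1 : σ ≤ v s1) {W A sg : ℝ}
    (hW : (w - v hb) * σ ≤ W) (hsg : sg ≤ σ) (hsg0 : 0 ≤ sg) (hA : W - v p.be * sg ≤ A)
    (hAW : A ≤ W) :
    2 * (v th / A) ≤ 1 - 1 / 10 ^ 6 ∧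
    VtxG W A sg (v th / A) (v p.om) (v p.um) (v p.X) (v p.C) (v p.nuh) (v p.xi) (AL p.al) (ff p)
      p.d ∧
    Lr (v sl) σ w x ≤ 2 * (v th / A * A) - (v th / A) ^ 2 *
      (A ^ 2 + sg * v p.C * A + sg ^ 2 * v p.C ^ 2 * v p.X ^ 2
        / (4 * KZero.ss p.d (v p.um))) := by
  unfold okE at h
  simp only [Bool.and_eq_true, Bool.or_eq_true] at h
  obtain ⟨⟨⟨⟨⟨⟨⟨a1, a2⟩, a3⟩, a4⟩, c00⟩, c01⟩, c10⟩, c11⟩ := h
  have b1 : hb + p.be < w0 := Nat.le_of_ble_eq_true a1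
  have b2 : 0 < v p.sL := v_pos_of a2
  have hbw : w0 ≤ w1 := by
    have h1 : v w0 ≤ v w1 := hw0.trans hw1
    unfold v at h1
    have h2 : (w0 : ℝ) ≤ w1 := by
      have := mul_le_mul_of_nonneg_right h1 (by norm_num : (0 : ℝ) ≤ 10000)
      rwa [div_mul_cancel₀ _ (by norm_num), div_mul_cancel₀ _ (by norm_num)] at this
    exact_mod_cast h2
  have eu0 : v (w0 - (hb + p.be)) = v w0 - v hb - v p.be := by
    rw [v_sub b1.le, v_add]
    ring
  have eu1 : v (w1 - (hb + p.be)) = v w1 - v hb - v p.be := by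
    rw [v_sub (b1.le.trans hbw), v_add]
    ring
  have eW0 : v (w0 - hb) = v w0 - v hb := v_sub (by omega)
  have hu0 : 0 < v w0 - v hb - v p.be := by
    rw [← eu0]
    exact v_pos_of (Nat.ble_eq_true_of_le (by omega))
  have hbe := v_nonneg p.be
  have hθ := v_nonneg th
  have hC := v_nonneg p.C
  have hσ : 0 < σ := hs.trans_le hs0
  have hK0 : 0 ≤ v p.C ^ 2 * v p.X ^ 2 / (4 * v p.sL) := by positivity
  obtain ⟨u0, hu0e⟩ : ∃ u0, u0 = v w0 - v hb - v p.be := ⟨_, rfl⟩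
  obtain ⟨u, hue⟩ : ∃ u, u = w - v hb - v p.be := ⟨_, rfl⟩
  have hu0' : 0 < u0 := by rw [hu0e]; exact hu0
  have huu : u0 ≤ u := by rw [hu0e, hue]; linarith
  have hu : 0 < u := hu0'.trans_le huu
  -- `u σ ≤ A`
  have huσ : u * σ ≤ A := by
    have h1 : v p.be * sg ≤ v p.be * σ := mul_le_mul_of_nonneg_left hsg hbe
    have h2 : u * σ = (w - v hb) * σ - v p.be * σ := by rw [hue]; ring
    linarith
  have hA0 : 0 < A := (mul_pos hu hσ).trans_le huσ
  have huA : u * sg ≤ A := (mul_le_mul_of_nonneg_left hsg hu.le).trans huσ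
  have hu0A : u0 * sg ≤ A := (mul_le_mul_of_nonneg_right huu hsg0).trans huA
  -- the bound of `λ`
  have hlam : 2 * (v th / A) ≤ 1 - 1 / 10 ^ 6 := by
    have h1 : ((20000000000 * th : ℕ) : ℝ) ≤ ((999999 * (s0 * (w0 - (hb + p.be))) : ℕ) : ℝ) := by
      exact_mod_cast Nat.le_of_ble_eq_true a3
    push_cast at h1
    rw [cv th, cv s0, cv (w0 - (hb + p.be)), eu0, ← hu0e] at h1
    have h2 : v s0 * u0 ≤ A := (mul_le_mul hs0 huu hu0'.le hσ.le).trans (by linarith)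
    have h3 : 2 * v th ≤ (1 - 1 / 10 ^ 6) * A := by nlinarith
    rw [← mul_div_assoc, div_le_iff₀ hA0]
    exact h3
  refine ⟨hlam, ?_, ?_⟩
  · refine vtxG_of hp hA0 hθ fun hom hd => ?_
    have a5 : sideB p (w0 - (hb + p.be)) (w0 - hb) th = true := by
      rcases a4 with (a4 | a4) | a4
      · have h1 := v_le_of a4
        have h2 : v 10000 = 1 := by unfold v; norm_num
        rw [h2] at h1
        exact absurd hom (not_lt.2 h1)
      · exact absurd hd (not_le.2 (Nat.lt_succ_of_le (Nat.le_of_ble_eq_true a4)))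
      · exact a4
    obtain ⟨k1, k2, k3, k4, k5⟩ := sideB_sound a5
    rw [eu0, ← hu0e] at k3 k4 k5
    rw [eW0] at k2
    have hx : v p.al.x1 ≤ 1 := by
      unfold okAf at hal
      rw [Bool.and_eq_true] at hal
      have h1 : 2 * p.al.x1 < 10000 := Nat.le_of_ble_eq_true hal.1
      have h2 : (p.al.x1 : ℝ) ≤ 10000 := by
        have : p.al.x1 ≤ 10000 := by omega
        exact_mod_cast this
      unfold v
      rw [div_le_one (by norm_num)]
      exact h2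
    have hW0 : (v w0 - v hb) * sg ≤ W := by
      have h1 : 0 ≤ v w0 - v hb := by linarith
      have h2 : (v w0 - v hb) * sg ≤ (v w0 - v hb) * σ := mul_le_mul_of_nonneg_left hsg h1
      have h3 : (v w0 - v hb) * σ ≤ (w - v hb) * σ := mul_le_mul_of_nonneg_right (by linarith) hσ.le
      linarith
    exact side_of hx hθ hu0' hsg0 hu0A (by linarith) hAW hW0 k1 k2 k3 k4 k5
  · have hcor := Corner.corner_line (θ := v th) (C := v p.C)
      (K := v p.C ^ 2 * v p.X ^ 2 / (4 * v p.sL)) (h := v hb) (be := v p.be) (e1 := 1 / 10 ^ 6)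
      (eta := 1 / 10 ^ 5) (sl := v sl) (dd := x + 2) (w0 := v w0) (w1 := v w1) (s0 := v s0)
      (s1 := v s1) (w := w) (s := σ) hC hK0 hu0 hw0 hw1 hs0 hs1
      (by have := crn_sound b2 c00; rw [eu0] at this; exact this)
      (by have := crn_sound b2 c01; rw [eu0] at this; exact this)
      (by have := crn_sound b2 c10; rw [eu1] at this; exact this)
      (by have := crn_sound b2 c11; rw [eu1] at this; exact this)
    have hK : v p.C ^ 2 * v p.X ^ 2 / (4 * KZero.ss p.d (v p.um)) ≤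
        v p.C ^ 2 * v p.X ^ 2 / (4 * v p.sL) := by
      rcases Nat.eq_zero_or_pos p.d with hd | hd
      · rw [(okPf_A hp).2.hX hd]
        simp
      · have h1 := (okPf_A hp).2.ssL hd
        refine div_le_div_of_nonneg_left (by positivity) (by linarith) (by linarith)
    rw [← hue] at hcor
    exact line_of hu hA0 hsg0 huA hC hK hK0 hcor

/-- the profile on the whole line -/
def gf (p : Pf) (x : ℝ) : ℝ := ff p (max 0 x)

theorem gf_of_nonneg (p : Pf) {x : ℝ} (h : 0 ≤ x) : gf p x = ff p x := by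
  unfold gf
  rw [max_eq_right h]

theorem mug_congr {W A sg lam om B th rho a1 m1 g0 g1 kap k0 k1 k2 k3 F2 x1 nuh : ℝ}
    {Al f g : ℝ → ℝ} {d : ℕ}
    (h : MugOK W A sg lam om B th rho a1 m1 g0 g1 kap k0 k1 k2 k3 F2 x1 nuh Al f d)
    (e : ∀ x, 0 ≤ x → g x = f x) :
    MugOK W A sg lam om B th rho a1 m1 g0 g1 kap k0 k1 k2 k3 F2 x1 nuh Al g d where
  hd := h.hd
  hnuh0 := h.hnuh0
  hnuh1 := h.hnuh1
  hlam := h.hlam
  hth0 := h.hth0
  hB := h.hB
  hm1 := h.hm1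
  hkap := h.hkap
  hk2 := h.hk2
  hk3 := h.hk3
  hF0 := h.hF0
  hx1 := h.hx1
  M1 := fun x a b => by rw [e x a]; exact h.M1 x a b
  M1' := fun x a b => by rw [e x a]; exact h.M1' x a b
  M1x := fun x a b => by rw [e x (h.hnuh0.le.trans a.le)]; exact h.M1x x a b
  M3 := fun x a b => by rw [e x a]; exact h.M3 x a b
  A0 := fun x a b => by rw [e x a]; exact h.A0 x a b
  A0' := fun x a b => by rw [e x (h.hnuh0.le.trans a.le)]; exact h.A0' x a b
  A2 := fun x a b => by rw [e x a]; exact h.A2 x a b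
  S1 := fun s x a b c c' => by rw [e x c]; exact h.S1 s x a b c c'
  K0 := fun x a b => by rw [e x a]; exact h.K0 x a b
  K1 := fun x a b => by rw [e x (h.hnuh0.le.trans a.le)]; exact h.K1 x a b
  F2b := fun x a b => by rw [e x a]; exact h.F2b x a b
  AL := h.AL
  N1 := h.N1
  N2 := h.N2
  N3 := h.N3
  N4 := h.N4

theorem vtx_congr {W A sg lam om um X C nuh ξ : ℝ} {Al f g : ℝ → ℝ} {d : ℕ}
    (h : VtxG W A sg lam om um X C nuh ξ Al f d) (e : ∀ x, 0 ≤ x → g x = f x)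
    (g0 : ∀ x, 0 ≤ g x) (g1 : ∀ x, 0 < g x → x < 1) :
    VtxG W A sg lam om um X C nuh ξ Al g d where
  lam0 := h.lam0
  om0 := h.om0
  um0 := h.um0
  um1 := h.um1
  C0 := h.C0
  f0 := g0
  f1 := g1
  X0 := h.X0
  kill := fun hd => by
    rcases h.kill hd with h1 | ⟨B, th, rho, a1, m1, g0, g1, kap, k0, k1, k2, k3, F2, x1, h1⟩
    · exact Or.inl h1
    · exact Or.inr ⟨B, th, rho, a1, m1, g0, g1, kap, k0, k1, k2, k3, F2, x1, mug_congr h1 e⟩
  prof := fun x a b c => by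
    rw [e x a] at c ⊢
    exact h.prof x a b c

theorem ceil_lem {k num den : ℕ} (hden : 0 < den) (h : k < (num + (den - 1)) / den) :
    k * den < num := by
  have h1 : (k + 1) * den ≤ num + (den - 1) := (Nat.le_div_iff_mul_le hden).1 h
  have h2 : (k + 1) * den = k * den + den := by ring
  omega

theorem Dmin_le {w0 s0 k : ℕ} (hs : 0 < v s0) {w σ : ℝ} (hw0 : v w0 ≤ w) (hs0 : v s0 ≤ σ)
    (h : σ * (w + 1) - 1 - 1 / 10 ^ 6 ≤ k * σ) : Dmin w0 s0 ≤ k := by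
  by_contra hc
  push Not at hc
  have hs' : 0 < s0 := by
    rcases Nat.eq_zero_or_pos s0 with h0 | h0
    · rw [h0] at hs
      unfold v at hs
      simp at hs
    · exact h0
  have h2 := ceil_lem (Nat.mul_pos (by norm_num) hs') hc
  have h3 : k * (10000000000 * s0) + 100000100000000 < (w0 + 10000) * s0 * 1000000 :=
    Nat.add_lt_of_lt_sub h2
  have h4 : ((k * (10000000000 * s0) + 100000100000000 : ℕ) : ℝ) <
      (((w0 + 10000) * s0 * 1000000 : ℕ) : ℝ) := by exact_mod_cast h3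
  push_cast at h4
  rw [cv w0, cv s0] at h4
  clear hc h2 h3
  have h5 : 1 + 1 / 10 ^ 6 < (v w0 + 1 - k) * v s0 := by linarith
  have h6 : 0 < v w0 + 1 - k := by
    by_contra hn
    push Not at hn
    have := mul_nonneg_of_nonpos_of_nonpos hn (neg_nonpos.2 hs.le)
    nlinarith
  have h7 : (v w0 + 1 - k) * v s0 ≤ (w + 1 - k) * σ :=
    mul_le_mul (by linarith) hs0 hs.le (by linarith)
  nlinarith

/-- **A cell gives `NumCell`.** -/
theorem cell_sound {M : Menu} (hM : MOK M.al M.xi 0 M.ps) {w0 w1 : ℕ} {c : Cell}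
    (h : okCell M w0 w1 c = true) {w σ : ℝ} (hw0 : v w0 ≤ w) (hw1 : w ≤ v w1)
    (hs0 : v c.s0 ≤ σ) (hs1 : σ ≤ v c.s1) :
    NumCell (1 / 10 ^ 6) (1 / 10 ^ 5) (σ * (w + 1)) (σ - 1 / 10 ^ 6) := by
  unfold okCell at h
  simp only [Bool.and_eq_true] at h
  obtain ⟨⟨⟨⟨⟨a1, a2⟩, a3⟩, a4⟩, a5⟩, a6⟩ := h
  have hs : 0 < v c.s0 := v_pos_of a4
  have hsl : v c.sl ≤ 1 := by
    have h1 := v_le_of a3
    have e1 : v 10000 = 1 := by unfold v; norm_num
    rwa [e1] at h1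
  have hσe : 1 / 10 ^ 6 ≤ σ := by
    have h1 := v_le_of a4
    have e1 : v 1 = 1 / 10000 := by unfold v; norm_num
    rw [e1] at h1
    refine le_trans ?_ (h1.trans hs0)
    norm_num
  have hsl0 := v_nonneg c.sl
  have h10 : v 10000 = 1 := by unfold v; norm_num
  have h00 : v 0 = 0 := by unfold v; norm_num
  refine ⟨v M.xi, v c.sl, AL M.al, v_pos_of a2, hsl0, hsl, AL_ge_one a1, fun d j hd hL => ?_⟩
  have hLr : 0 < Lr (v c.sl) σ w (d + 2 * j) := by
    have e1 : 1 - (σ - 1 / 10 ^ 6) + 1 / 10 ^ 5 -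
        v c.sl * ((d : ℝ) + 2 * j - 2 * (σ * (w + 1) - 1)) = Lr (v c.sl) σ w (d + 2 * j) := by
      unfold Lr
      ring
    rwa [e1] at hL
  have hD : Dmin w0 c.s0 ≤ d + j := by
    refine Dmin_le hs hw0 hs0 ?_
    push_cast
    have e1 : ((d : ℝ) + j) * (σ - 1 / 10 ^ 6 + 1 / 10 ^ 6) = ((d : ℝ) + j) * σ := by ring
    rw [e1] at hd
    exact hd
  -- the entry
  obtain ⟨hb, x, hhb, hx, p, th, hp, hpd, hpx, hpa, hE⟩ : ∃ hb x : ℕ,
      (v hb = if j = 0 then 0 else 1) ∧ x ≤ d + 2 * j ∧ Good M w0 w1 c d hb x := by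
    have hno : ∀ y : ℕ, y ≤ d + 2 * j → noL w1 c.s0 c.s1 c.sl y = true → False := by
      intro y hy h1
      have h2 := noL_sound h1 hw1 hs0 hs1
      have h3 : ((y : ℕ) : ℝ) ≤ d + 2 * j := by exact_mod_cast hy
      have h4 : Lr (v c.sl) σ w (d + 2 * j) ≤ Lr (v c.sl) σ w y := by
        unfold Lr
        nlinarith
      linarith
    rcases Nat.eq_zero_or_pos j with hj | hj
    · subst hj
      rcases go0_get c.h0 (Dmin w0 c.s0) _ (hM.drop _) a5 d (by omega) with h1 | h1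
      · exact absurd h1 (fun h2 => hno d (by omega) h2)
      · exact ⟨0, d, by simp [h00], by omega, h1⟩
    · rcases go1_get c.h1 0 _ hM a6 d j (Nat.zero_le _) hj hD with h1 | ⟨x, hx, h1⟩
      · exact absurd h1 (fun h2 => hno _ le_rfl h2)
      · exact ⟨10000, x, by rw [if_neg (by omega), h10], hx, h1⟩
  have hal : okAf p.al = true := by rw [hpa]; exact a1
  have hLx : Lr (v c.sl) σ w (d + 2 * j) ≤ Lr (v c.sl) σ w x := by
    have h3 : ((x : ℕ) : ℝ) ≤ d + 2 * j := by exact_mod_cast hx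
    unfold Lr
    nlinarith
  refine ⟨gf p, fun y => ff_nonneg p _, fun y => ff_le p (le_max_left _ _), fun y hy => ?_, ?_⟩
  · rw [gf_of_nonneg p (by linarith)]
    exact ff_cut (okPf_A hp).2 hy
  intro W sg A h1 h2 h3 h4 h5 h6 h7
  have hsgσ : sg ≤ σ := by linarith
  have hsg0 : 0 ≤ sg := by linarith
  have hW : (w - v hb) * σ ≤ W := by
    rw [hhb]
    split_ifs at h1 ⊢ with hj
    · nlinarith
    · nlinarith
  have hA : W - v p.be * sg ≤ A := by
    have := h7 1 (v p.be) (v_nonneg _) fun y hy _ => by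
      rw [gf_of_nonneg p hy]
      exact line_le p y
    linarith
  obtain ⟨r1, r2, r3⟩ := ent_pt hp hal hE hs hw0 hw1 hs0 hs1 hW hsgσ hsg0 hA h6
  refine ⟨v th / A, v p.om, v p.um, v p.X, v p.C, v p.nuh, r1, ?_, ?_⟩
  · rw [hpx, hpa, hpd] at r2
    refine vtx_congr r2 (fun y hy => gf_of_nonneg p hy) (fun y => ff_nonneg p _) fun y hy => ?_
    rcases le_or_gt 0 y with h8 | h8
    · rw [gf_of_nonneg p h8] at hy
      exact ff_lt_one (okPf_A hp).2 hy
    · linarith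
  · rw [hpd] at r3
    have e1 : 1 - (σ - 1 / 10 ^ 6) + 1 / 10 ^ 5 -
        v c.sl * ((d : ℝ) + 2 * j - 2 * (σ * (w + 1) - 1)) = Lr (v c.sl) σ w (d + 2 * j) := by
      unfold Lr
      ring
    rw [e1]
    exact hLx.trans r3

end

end Pool.Agent.T6A.Chk
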