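import Pool.Agent.T6A.Cover

/-!
# The strips cover the range of `(tot, σ)` (CERT v3, helper81)

Unit `1/10000`; `w = tot / σ - 1`. The lists of strips and cells are arbitrary types with natural end points.
-/

set_option autoImplicit false

namespace Pool.Agent.T6A.Cover

theorem natDiv_le {a b : ℕ} : (((a / b : ℕ) : ℕ) : ℝ) ≤ (a : ℝ) / b := Nat.cast_div_le

theorem le_ceilDiv {a b : ℕ} : (a : ℝ) / ((b : ℝ) + 10000) ≤
    (((a + (b + 9999)) / (b + 10000) : ℕ) : ℝ) := by
  have hb : (0 : ℝ) < (b : ℝ) + 10000 := by positivity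
  rw [div_le_iff₀ hb]
  have h1 : a + (b + 9999) < ((a + (b + 9999)) / (b + 10000) + 1) * (b + 10000) := by
    have := Nat.lt_mul_div_succ (a + (b + 9999)) (show 0 < b + 10000 by omega)
    rwa [mul_comm] at this
  have h2 : a ≤ ((a + (b + 9999)) / (b + 10000)) * (b + 10000) := by
    rw [Nat.add_mul, Nat.one_mul] at h1
    omega
  calc (a : ℝ) ≤ ((((a + (b + 9999)) / (b + 10000)) * (b + 10000) : ℕ) : ℝ) := by
        exact_mod_cast h2
    _ = _ := by push_cast; ring

/-- **The cover.** -/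
theorem cover_gen {α β : Type*} {w0 w1 : α → ℕ} {cs : α → List β} {s0 s1 : β → ℕ} {Q Q' : ℕ}
    {T : List α} (hQ : 1 ≤ Q)
    (h : covB2 w0 w1 (fun t => Nat.max 5000 ((10000 * (10000 + Q) - 100) / (w1 t + 10000)))
      (fun t => Nat.min 10001 ((10000 * (10000 + Q') + (w0 t + 9999)) / (w0 t + 10000)))
      cs s0 s1 T ((1000000 * Q - 30000) / 1000002) (2 * Q' + 10000) = true) {tot σ : ℝ}
    (h1 : 1 + (Q : ℝ) / 10000 - 1 / 10 ^ 6 ≤ tot) (h2 : tot ≤ 1 + (Q' : ℝ) / 10000)
    (h3 : 1 / 2 ≤ σ) (h4 : σ ≤ 1 + 2 / 10 ^ 6) :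
    ∃ t ∈ T, ∃ c ∈ cs t, (w0 t : ℝ) / 10000 ≤ tot / σ - 1 ∧ tot / σ - 1 ≤ (w1 t : ℝ) / 10000 ∧
      (s0 c : ℝ) / 10000 ≤ σ ∧ σ ≤ (s1 c : ℝ) / 10000 := by
  have hσ : 0 < σ := by linarith
  have hQ1 : (1 : ℝ) ≤ Q := by exact_mod_cast hQ
  have hQ0' : (0 : ℝ) ≤ Q' := Nat.cast_nonneg _
  have htot : 0 < tot := by linarith
  have e1 : (((1000000 * Q - 30000 : ℕ)) : ℝ) = 1000000 * (Q : ℝ) - 30000 := by
    rw [Nat.cast_sub (by omega)]; push_cast; ring
  have e2 : (((10000 * (10000 + Q) - 100 : ℕ)) : ℝ) = 10000 * (10000 + (Q : ℝ)) - 100 := by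
    rw [Nat.cast_sub (by omega)]; push_cast; ring
  have hx0 : (((1000000 * Q - 30000) / 1000002 : ℕ) : ℝ) / 10000 ≤ tot / σ - 1 := by
    have h5 : (((1000000 * Q - 30000) / 1000002 : ℕ) : ℝ) ≤
        (1000000 * (Q : ℝ) - 30000) / 1000002 := by
      have := @natDiv_le (1000000 * Q - 30000) 1000002
      rw [e1] at this
      push_cast at this
      exact this
    have h6 : (1000000 * (Q : ℝ) - 30000) / 1000002 / 10000 + 1 ≤ tot / σ := by
      rw [le_div_iff₀ hσ]
      have h7 : 0 ≤ (1000000 * (Q : ℝ) - 30000) / 1000002 / 10000 + 1 := by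
        have : 0 ≤ (1000000 * (Q : ℝ) - 30000) := by linarith
        positivity
      calc _ ≤ ((1000000 * (Q : ℝ) - 30000) / 1000002 / 10000 + 1) * (1 + 2 / 10 ^ 6) :=
            mul_le_mul_of_nonneg_left h4 h7
        _ = 1 + (Q : ℝ) / 10000 - 1 / 10 ^ 6 := by ring
        _ ≤ tot := h1
    have h8 : (((1000000 * Q - 30000) / 1000002 : ℕ) : ℝ) / 10000 ≤
        (1000000 * (Q : ℝ) - 30000) / 1000002 / 10000 :=
      div_le_div_of_nonneg_right h5 (by norm_num)
    linarith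
  have hx1 : tot / σ - 1 ≤ ((2 * Q' + 10000 : ℕ) : ℝ) / 10000 := by
    have h5 : tot / σ ≤ 2 * (1 + (Q' : ℝ) / 10000) := by
      rw [div_le_iff₀ hσ]
      nlinarith
    push_cast
    linarith
  obtain ⟨t, ht, ⟨h5, h6⟩, c, hc, h7, h8⟩ := cov2_get h (u := 10000) (by norm_num) hx0 hx1
    (y := σ) (fun t _ g0 g1 => by
      have hw1 : (0 : ℝ) ≤ w1 t := Nat.cast_nonneg _
      have hw0 : (0 : ℝ) ≤ w0 t := Nat.cast_nonneg _
      have et : tot = (tot / σ - 1 + 1) * σ := by field_simp; ring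
      constructor
      · rw [div_le_iff₀ (by norm_num)]
        have hm : ∀ k : ℕ, (k : ℝ) ≤ σ * 10000 → ((Nat.max 5000 k : ℕ) : ℝ) ≤ σ * 10000 := by
          intro k hk
          rcases Nat.le_total 5000 k with h9 | h9
          · rwa [show Nat.max 5000 k = k from Nat.max_eq_right h9]
          · rw [show Nat.max 5000 k = 5000 from Nat.max_eq_left h9]
            have : ((5000 : ℕ) : ℝ) = 5000 := Nat.cast_ofNat
            rw [this]
            linarith
        refine hm _ ?_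
        have h9 := @natDiv_le (10000 * (10000 + Q) - 100) (w1 t + 10000)
        refine h9.trans ?_
        have hp : (0 : ℝ) < (w1 t : ℝ) + 10000 := by linarith
        have e3 : ((w1 t + 10000 : ℕ) : ℝ) = (w1 t : ℝ) + 10000 := by
          rw [Nat.cast_add, Nat.cast_ofNat]
        rw [e2, e3, div_le_iff₀ hp]
        have h10 : tot ≤ ((w1 t : ℝ) / 10000 + 1) * σ :=
          et.le.trans (mul_le_mul_of_nonneg_right (by linarith) hσ.le)
        linarith
      · rw [le_div_iff₀ (by norm_num)]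
        have hm : ∀ k : ℕ, σ * 10000 ≤ (k : ℝ) → σ * 10000 ≤ ((Nat.min 10001 k : ℕ) : ℝ) := by
          intro k hk
          rcases Nat.le_total 10001 k with h9 | h9
          · rw [show Nat.min 10001 k = 10001 from Nat.min_eq_left h9]
            have : ((10001 : ℕ) : ℝ) = 10001 := Nat.cast_ofNat
            rw [this]
            linarith
          · rwa [show Nat.min 10001 k = k from Nat.min_eq_right h9]
        refine hm _ ?_
        refine le_trans ?_ (@le_ceilDiv (10000 * (10000 + Q')) (w0 t))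
        have hp : (0 : ℝ) < (w0 t : ℝ) + 10000 := by linarith
        have e3 : ((10000 * (10000 + Q') : ℕ) : ℝ) = 10000 * (10000 + (Q' : ℝ)) := by
          rw [Nat.cast_mul, Nat.cast_add, Nat.cast_ofNat]
        rw [e3, le_div_iff₀ hp]
        have h10 : ((w0 t : ℝ) / 10000 + 1) * σ ≤ tot :=
          (mul_le_mul_of_nonneg_right (by linarith) hσ.le).trans et.ge
        linarith)
  exact ⟨t, ht, c, hc, h5, h6, h7, h8⟩

end Pool.Agent.T6A.Cover
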