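import Pool.Agent.T6A.Expect9

/-!
# The numerical certificate for arbitrary profiles: statement (MP_c6effb_co, CERT v3)

`tot` = total weight (`tot - 1` = number of edges per vertex), `s` = weight bound of the independent
sets, `sg` = the same with tolerance, `W'` = weight of the list of the vertex, `d` = low degree,
`j` = number of giant neighbours, `A` = `∑ w f`. The line is
`1 - s + η - sl (d + 2 j - 2 (tot - 1))`. The data (except `f`) may depend on `W'`, `sg`, `A`.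
-/

set_option autoImplicit false

namespace Pool.Agent.T6A

/-- The numerical conditions for one vertex with given `W'`, `sg`, `A`. -/
def NumPt (tot s e1 ξ sl η : ℝ) (Al f : ℝ → ℝ) (d j : ℕ) (W' sg A : ℝ) : Prop :=
  ∃ lam om um X C nuh : ℝ, 2 * lam ≤ 1 - e1 ∧ VtxG W' A sg lam om um X C nuh ξ Al f d ∧
    1 - s + η - sl * (d + 2 * j - 2 * (tot - 1)) ≤
      2 * (lam * A) - lam ^ 2 * (A ^ 2 + sg * C * A
        + sg ^ 2 * C ^ 2 * X ^ 2 / (4 * KZero.ss d um))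

/-- The conditions of one vertex with the profile `f`. -/
structure NumVtx3 (tot s e1 ξ sl η : ℝ) (Al f : ℝ → ℝ) (d j : ℕ) : Prop where
  f_nonneg : ∀ x, 0 ≤ f x
  f_le : ∀ x, f x ≤ 1
  f_cut : ∀ x, 24 / 25 < x → f x = 0
  pt : ∀ W' sg A : ℝ, tot - s - (if j = 0 then 0 else s) - e1 ≤ W' → W' ≤ tot - s + e1 →
    s ≤ sg → sg ≤ s + e1 → 0 ≤ A → A ≤ W' →
    (∀ α β : ℝ, 0 ≤ β → (∀ x, 0 ≤ x → x ≤ 1 → α - β * x ≤ f x) → α * W' - β * sg ≤ A) →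
    NumPt tot s e1 ξ sl η Al f d j W' sg A

/-- The numerical certificate for one pair `(tot, s)`. -/
def NumCell (e1 η tot s : ℝ) : Prop :=
  ∃ (ξ sl : ℝ) (Al : ℝ → ℝ), 0 < ξ ∧ 0 ≤ sl ∧ sl ≤ 1 ∧ (∀ x, 1 ≤ Al x) ∧
  ∀ d j : ℕ, tot - 1 - e1 ≤ (d + j) * (s + e1) →
    0 < 1 - s + η - sl * (d + 2 * j - 2 * (tot - 1)) →
    ∃ f : ℝ → ℝ, NumVtx3 tot s e1 ξ sl η Al f d j

/-- The numerical certificate for `Q k ≤ m ≤ Q' k`. -/
def NumCertR (Q Q' : ℝ) : Prop := ∃ e1 η : ℝ, 0 < e1 ∧ 0 < η ∧ ∀ tot s : ℝ,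
  1 + Q - e1 ≤ tot → tot ≤ 1 + Q' → 1 / 2 - e1 ≤ s → s ≤ 1 + e1 → NumCell e1 η tot s

end Pool.Agent.T6A
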