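import Pool.Agent.T6A.Kron
import Pool.Agent.T6A.NumStmt3

/-!
# The checker for the profiles of CERT v3 (MP_c6effb_co, helper21)

All parameters are integers, unit `1 / 10000`. `okPf p = true` (checked by the kernel) implies all
pointwise inequalities of `VtxG` / `MugOK` for the profile `f x = max 0 (1 - be x)` and the factor
`Al x = 1 + c x / (1 - x)` (`kd = 0`) or `1 + c x` (`kd = 1`) for `x ≤ x1`, `AM` beyond.
-/

set_option autoImplicit false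

namespace Pool.Agent.T6A.Chk

open Bern

/-- The parameters of the factor. -/
structure Af : Type where
  kd : ℕ
  c : ℕ
  x1 : ℕ
  AM : ℕ

/-- The parameters of a profile. -/
structure Pf : Type where
  d : ℕ
  al : Af
  xi : ℕ
  om : ℕ
  um : ℕ
  X : ℕ
  C : ℕ
  be : ℕ
  sL : ℕ
  sU : ℕ
  nuh : ℕ
  rho : ℕ
  a1 : ℕ
  B : ℕ
  m1 : ℕ
  th : ℕ
  g0 : ℕ
  g1 : ℕ
  kap : ℕ
  k0 : ℤ
  k1 : ℤ
  k2 : ℕ
  k3 : ℕ
  F2 : ℕ

/-- unit `1 / 10000` -/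
def pr (n : ℕ) : Ex := Ex.q (Int.ofNat n) 10000

/-- unit `1 / 10000` -/
def prz (n : ℤ) : Ex := Ex.q n 10000

/-- the value -/
noncomputable def v (n : ℕ) : ℝ := (n : ℝ) / 10000

/-- the value -/
noncomputable def vz (n : ℤ) : ℝ := (n : ℝ) / 10000

@[simp] theorem ev_pr (n : ℕ) (ρ : ℕ → ℝ) : (pr n).ev ρ = v n := by
  show ((Int.ofNat n : ℤ) : ℝ) / ((10000 : ℕ) : ℝ) = (n : ℝ) / 10000
  simp

@[simp] theorem ev_prz (n : ℤ) (ρ : ℕ → ℝ) : (prz n).ev ρ = vz n := by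
  show (n : ℝ) / ((10000 : ℕ) : ℝ) = (n : ℝ) / 10000
  simp

theorem v_nonneg (n : ℕ) : 0 ≤ v n := by unfold v; positivity

/-- `y = 1 - x` -/
def yE : Ex := 1 - Ex.x 0

/-- the profile where it is positive -/
def fE (p : Pf) : Ex := 1 - pr p.be * Ex.x 0

/-- `Al = AE / y` -/
def AE (a : Af) : Ex :=
  if a.kd = 0 then yE + pr a.c * Ex.x 0 else yE * (1 + pr a.c * Ex.x 0)

/-- `1 - om` -/
def muE (p : Pf) : Ex := 1 - pr p.om

/-- `om ^ 2 / xi` -/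
def oxE (p : Pf) : Ex := Ex.q (Int.ofNat (p.om * p.om)) (10000 * p.xi)

/-- first piece of the profile condition: `x / y ≤ um`, times `y ^ (d + 3)` -/
def profA (p : Pf) : Ex :=
  pr p.C * (yE + pr p.X * Ex.x 0) * yE ^ (p.d + 2) -
    fE p * (Ex.q (Int.ofNat p.d) 2 * (pr p.xi * AE p.al ^ 2 * yE ^ (p.d + 2)
      + oxE p * AE p.al ^ 2 * yE ^ p.d)
      + yE ^ 3 - yE ^ (p.d + 3) + pr p.sU * Ex.x 0 ^ 2 * yE ^ (p.d + 1))

/-- second piece: `um ≤ x / y`, `x ≤ x1` -/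
def profB (p : Pf) : Ex :=
  pr p.C * (1 + pr p.X * pr p.um) * yE ^ (p.d + 3) -
    fE p * (Ex.q (Int.ofNat p.d) 2 * (pr p.xi * AE p.al ^ 2 * yE ^ (p.d + 2)
      + oxE p * AE p.al ^ 2 * yE ^ p.d)
      + yE ^ 3 - yE ^ (p.d + 3) + pr p.sU * pr p.um ^ 2 * yE ^ (p.d + 3))

/-- third piece: `x1 ≤ x` -/
def profC (p : Pf) : Ex :=
  pr p.C * (1 + pr p.X * pr p.um) * yE ^ (p.d + 1) -
    fE p * (Ex.q (Int.ofNat p.d) 2 * (pr p.xi * pr p.al.AM ^ 2 * yE ^ (p.d + 2)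
      + oxE p * pr p.al.AM ^ 2 * yE ^ p.d)
      + yE - yE ^ (p.d + 1) + pr p.sU * pr p.um ^ 2 * yE ^ (p.d + 1))

/-- (M1), times `y ^ d` -/
def M1E (p : Pf) : Ex :=
  fE p * (yE ^ (p.d - 1) - muE p) - (pr p.rho * fE p + pr p.a1 - pr p.B * Ex.x 0) * yE ^ p.d

/-- (M1'), times `y ^ d` -/
def M1E' (p : Pf) : Ex := pr p.m1 * yE ^ p.d - fE p * (yE ^ (p.d - 1) - muE p)

/-- (M3), divided by `f`, times `y ^ (d + 2)` -/
def M3E (p : Pf) : Ex :=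
  pr p.om * fE p * AE p.al ^ 2 * yE ^ (p.d - 1) - pr p.th * (yE ^ (p.d - 1) - muE p) * yE ^ 2

/-- (A0), times `y ^ (d + 3)` -/
def A0E (p : Pf) : Ex :=
  ((pr p.g0 + pr p.g1 * fE p) * yE ^ p.d + pr p.th * fE p) * yE ^ 3
    - 2 * fE p ^ 2 * AE p.al ^ 2 * yE ^ p.d

/-- (A0') for `x ≤ x1` -/
def A0a (p : Pf) : Ex := (pr p.g0 + pr p.g1 * fE p) * yE ^ 3 - 2 * fE p ^ 2 * AE p.al ^ 2

/-- (A0') for `x1 ≤ x` -/
def A0b (p : Pf) : Ex := (pr p.g0 + pr p.g1 * fE p) * yE - 2 * fE p ^ 2 * pr p.al.AM ^ 2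

/-- (A2) for `x ≤ x1` -/
def A2a (p : Pf) : Ex :=
  (pr p.g0 + pr p.g1 * fE p + pr p.th * pr p.kap) * yE ^ 3 - 2 * fE p ^ 2 * AE p.al ^ 2

/-- (A2) for `x1 ≤ x` -/
def A2b (p : Pf) : Ex :=
  (pr p.g0 + pr p.g1 * fE p + pr p.th * pr p.kap) * yE - 2 * fE p ^ 2 * pr p.al.AM ^ 2

/-- the majorant -/
def rE (p : Pf) : Ex := prz p.k0 + prz p.k1 * fE p + pr p.k2 * Ex.x 0

/-- (S1) in one variable (`kd = 0`), times `y ^ d` -/
def S1E (p : Pf) : Ex :=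
  pr p.al.c * rE p * yE ^ p.d -
    fE p * (Ex.nat (p.d - 1) * (Ex.x 0 * yE ^ (p.d - 1 - 1)) - pr p.al.c * pr p.om)

/-- `(a ^ E - b ^ E) / (a - b)` -/
def GE (a b : Ex) : ℕ → Ex
  | 0 => 0
  | n + 1 => a * GE a b n + b ^ n

/-- (S1) in two variables (`kd = 1`) -/
def S1F (p : Pf) : Ex :=
  pr p.al.c * rE p * yE ^ p.d * (1 - Ex.x 1) ^ (p.d - 1) -
    fE p * (Ex.x 0 * GE (yE * (1 - Ex.x 1)) (yE - Ex.x 1) (p.d - 1)
      - pr p.al.c * pr p.om * (1 - Ex.x 1) ^ (p.d - 1))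

/-- (F2) -/
def F2E (p : Pf) : Ex := pr p.F2 * yE ^ 2 - fE p

/-- `[0, nuh]` -/
def iN (p : Pf) : Iv := ⟨0, Int.ofNat p.nuh, 10000⟩

/-- `[0, x1]` -/
def iX (p : Pf) : Iv := ⟨0, Int.ofNat p.al.x1, 10000⟩

/-- `um / (1 + um)` is the end of the first piece -/
def iA (p : Pf) : Iv := ⟨0, Int.ofNat p.um, 10000 + p.um⟩

/-- second piece -/
def iB (p : Pf) : Iv :=
  ⟨Int.ofNat (10000 * p.um), Int.ofNat (p.al.x1 * (10000 + p.um)), 10000 * (10000 + p.um)⟩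

/-- third piece -/
def iC (p : Pf) : Iv := ⟨Int.ofNat (p.al.x1 * p.be), 100000000, 10000 * p.be⟩

/-- the support reaches beyond `x1` -/
def lng (p : Pf) : Bool := Nat.ble (p.al.x1 * p.be) 100000000

/-- `[nuh, min x1 (1 / be)]` -/
def iD (p : Pf) : Iv :=
  if lng p = true then ⟨Int.ofNat p.nuh, Int.ofNat p.al.x1, 10000⟩
  else ⟨Int.ofNat (p.nuh * p.be), 100000000, 10000 * p.be⟩

/-- `[0, min x1 (1 / be)]` -/
def iE (p : Pf) : Iv :=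
  if lng p = true then ⟨0, Int.ofNat p.al.x1, 10000⟩ else ⟨0, 10000, p.be⟩

/-- the check with fuel `12` -/
def ck (e : Ex) (b : Iv) : Bool := kchk 12 e b.l b.r b.m

/-- constant expressions -/
def ck0 (e : Ex) : Bool := chk 0 e []

/-- The factor. -/
def okAf (a : Af) : Bool := Nat.blt (2 * a.x1) 10000 && Nat.ble 10000 a.AM

/-- The general part. -/
def okA (p : Pf) : Bool :=
  Nat.ble 1 p.xi && Nat.ble 1 p.um && Nat.ble p.um 10000 && Nat.ble 10417 p.be &&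
  Nat.ble p.om 10000 &&
  (Nat.ble p.d 0 && Nat.ble p.X 0 || Nat.ble 1 p.d && Nat.ble 1 p.sL &&
    ck0 (pr p.sU * pr p.um ^ 2 - (1 - (1 - pr p.um ^ 2) ^ p.d)) &&
    ck0 ((1 - (1 - pr p.um ^ 2) ^ p.d) - pr p.sL * pr p.um ^ 2) &&
    ck (profA p) (iA p) && ck (profB p) (iB p) && (!lng p || ck (profC p) (iC p)))

/-- The part for the kill factor. -/
def okK (p : Pf) : Bool :=
  Nat.ble 1 p.al.c && Nat.ble 1 p.th && Nat.ble 1 p.nuh && Nat.ble p.nuh p.al.x1 &&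
  Nat.ble (p.nuh * p.be) 100000000 && Nat.ble 100000000 (p.om * p.al.AM) &&
  ck (M1E p) (iN p) && ck (M1E' p) (iN p) && ck (M3E p) (iN p) && ck (A0E p) (iN p) &&
  ck (F2E p) (iN p) && ck (A0a p) (iD p) && (!lng p || ck (A0b p) (iC p)) &&
  ck (A2a p) (iE p) && (!lng p || ck (A2b p) (iC p)) &&
  (if p.al.kd = 0 then ck (S1E p) (iN p) else chk 8 (S1F p) [iN p, iX p]) &&
  ck0 (pr p.B * pr p.nuh - pr p.rho * (1 - pr p.be * pr p.nuh) - pr p.a1) &&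
  ck0 (prz p.k0 + prz p.k1 + pr p.k3) && ck0 (prz p.k0 * pr p.be + pr p.k2 + pr p.k3 * pr p.be) &&
  ck0 (prz p.k0 + prz p.k1 * (1 - pr p.be * pr p.nuh) + pr p.k2 * pr p.nuh) &&
  ck0 (prz p.k0 * pr p.be + pr p.k2)

/-- **The check of a profile.** -/
def okPf (p : Pf) : Bool :=
  okAf p.al && okA p && (Nat.ble p.d 0 || Nat.ble 10000 p.om || okK p)

noncomputable section

/-- The profile. -/
def ff (p : Pf) (x : ℝ) : ℝ := max 0 (1 - v p.be * x)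

/-- The factor. -/
def AL (a : Af) (x : ℝ) : ℝ :=
  if x ≤ v a.x1 then (AE a).ev (fun _ => max 0 x) / (1 - max 0 x) else v a.AM

theorem ck_sound {e : Ex} {b : Iv} (h : ck e b = true) {x : ℝ} (h0 : (b.l : ℝ) / b.m ≤ x)
    (h1 : x ≤ (b.r : ℝ) / b.m) : 0 ≤ e.ev fun _ => x := kchk_sound h h0 h1

theorem ck_le {e : Ex} {b : Iv} (h : ck e b = true) : b.l ≤ b.r := by
  rw [ck, kchk, Bool.and_eq_true, Bool.and_eq_true, Bool.and_eq_true] at h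
  have h3 := (nnI_iff _).1 h.1.2
  have h4 : Int.sub b.r b.l = b.r - b.l := rfl
  rw [h4] at h3
  omega

theorem ck0_sound {e : Ex} (h : ck0 e = true) : 0 ≤ e.ev fun _ => 0 :=
  sound h (fun i b hb => by simp at hb)

theorem v_le_of {a b : ℕ} (h : Nat.ble a b = true) : v a ≤ v b := by
  have h1 : (a : ℝ) ≤ b := by exact_mod_cast Nat.le_of_ble_eq_true h
  unfold v
  exact div_le_div_of_nonneg_right h1 (by norm_num)

theorem v_pos_of {a : ℕ} (h : Nat.ble 1 a = true) : 0 < v a := by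
  have h1 : (1 : ℝ) ≤ a := by exact_mod_cast Nat.le_of_ble_eq_true h
  unfold v
  positivity

theorem oxE_ev (p : Pf) (ρ : ℕ → ℝ) : (oxE p).ev ρ = (v p.xi)⁻¹ * v p.om ^ 2 := by
  show ((Int.ofNat (p.om * p.om) : ℤ) : ℝ) / ((10000 * p.xi : ℕ) : ℝ) = _
  have e1 : ((Int.ofNat (p.om * p.om) : ℤ) : ℝ) = (p.om : ℝ) * p.om := by
    rw [Int.ofNat_eq_natCast]
    push_cast
    rfl
  rw [e1]
  push_cast
  unfold v
  rcases eq_or_ne (p.xi : ℝ) 0 with h | h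
  · rw [h]; simp
  · field_simp

theorem half_ev (n : ℕ) (ρ : ℕ → ℝ) : (Ex.q (Int.ofNat n) 2).ev ρ = (n : ℝ) / 2 := by
  show ((Int.ofNat n : ℤ) : ℝ) / ((2 : ℕ) : ℝ) = _
  simp

theorem yE_ev (ρ : ℕ → ℝ) : yE.ev ρ = 1 - ρ 0 := by
  simp [yE]

theorem fE_ev (p : Pf) (ρ : ℕ → ℝ) : (fE p).ev ρ = 1 - v p.be * ρ 0 := by
  simp [fE]

theorem muE_ev (p : Pf) (ρ : ℕ → ℝ) : (muE p).ev ρ = 1 - v p.om := by
  simp [muE]

theorem rE_ev (p : Pf) (ρ : ℕ → ℝ) :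
    (rE p).ev ρ = vz p.k0 + vz p.k1 * (1 - v p.be * ρ 0) + v p.k2 * ρ 0 := by
  simp [rE, fE_ev]

theorem ff_of_le {p : Pf} {x : ℝ} (h : v p.be * x ≤ 1) : ff p x = 1 - v p.be * x :=
  max_eq_right (by linarith)

theorem ff_of_ge {p : Pf} {x : ℝ} (h : 1 ≤ v p.be * x) : ff p x = 0 :=
  max_eq_left (by linarith)

theorem ff_nonneg (p : Pf) (x : ℝ) : 0 ≤ ff p x := le_max_left _ _

theorem AL_small (a : Af) {x : ℝ} (h0 : 0 ≤ x) (h : x ≤ v a.x1) :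
    AL a x = (AE a).ev (fun _ => x) / (1 - x) := by
  rw [AL, if_pos h, max_eq_right h0]

theorem AL_big (a : Af) {x : ℝ} (h : ¬ x ≤ v a.x1) : AL a x = v a.AM := if_neg h

/-! ### End points of the intervals -/

theorem iN_l (p : Pf) {x : ℝ} (h : 0 ≤ x) : ((iN p).l : ℝ) / (iN p).m ≤ x := by
  show ((0 : ℤ) : ℝ) / _ ≤ x
  simpa using h

theorem iN_r (p : Pf) {x : ℝ} (h : x ≤ v p.nuh) : x ≤ ((iN p).r : ℝ) / (iN p).m := by
  show x ≤ ((Int.ofNat p.nuh : ℤ) : ℝ) / ((10000 : ℕ) : ℝ)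
  simpa [v] using h

theorem iX_l (p : Pf) {x : ℝ} (h : 0 ≤ x) : ((iX p).l : ℝ) / (iX p).m ≤ x := by
  show ((0 : ℤ) : ℝ) / _ ≤ x
  simpa using h

theorem iX_r (p : Pf) {x : ℝ} (h : x ≤ v p.al.x1) : x ≤ ((iX p).r : ℝ) / (iX p).m := by
  show x ≤ ((Int.ofNat p.al.x1 : ℤ) : ℝ) / ((10000 : ℕ) : ℝ)
  simpa [v] using h

theorem be_le {p : Pf} {x : ℝ} (hf : v p.be * x ≤ 1) : (p.be : ℝ) * x ≤ 10000 := by
  unfold v at hf
  have := mul_le_mul_of_nonneg_right hf (by norm_num : (0:ℝ) ≤ 10000)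
  have e : (p.be : ℝ) / 10000 * x * 10000 = (p.be : ℝ) * x := by ring
  rw [e] at this
  linarith

theorem be_pos {p : Pf} (hbe : 0 < v p.be) : (0 : ℝ) < (p.be : ℝ) := by
  unfold v at hbe
  exact (div_pos_iff_of_pos_right (by norm_num : (0 : ℝ) < 10000)).1 hbe

theorem iA_l (p : Pf) {x : ℝ} (h : 0 ≤ x) : ((iA p).l : ℝ) / (iA p).m ≤ x := by
  show ((0 : ℤ) : ℝ) / _ ≤ x
  simpa using h

theorem iA_r (p : Pf) {x : ℝ} (hy : 0 < 1 - x) (hx : x / (1 - x) ≤ v p.um) :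
    x ≤ ((iA p).r : ℝ) / (iA p).m := by
  show x ≤ ((Int.ofNat p.um : ℤ) : ℝ) / ((10000 + p.um : ℕ) : ℝ)
  rw [div_le_iff₀ hy] at hx
  have e1 : ((Int.ofNat p.um : ℤ) : ℝ) = (p.um : ℝ) := by simp
  rw [e1]
  push_cast
  rw [le_div_iff₀ (by positivity)]
  unfold v at hx
  have : x * 10000 ≤ (p.um : ℝ) * (1 - x) := by
    have := mul_le_mul_of_nonneg_right hx (by norm_num : (0:ℝ) ≤ 10000)
    calc x * 10000 ≤ (p.um : ℝ) / 10000 * (1 - x) * 10000 := this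
      _ = (p.um : ℝ) * (1 - x) := by ring
  nlinarith

theorem iB_l (p : Pf) {x : ℝ} (hy : 0 < 1 - x) (hx : v p.um ≤ x / (1 - x)) :
    ((iB p).l : ℝ) / (iB p).m ≤ x := by
  show ((Int.ofNat (10000 * p.um) : ℤ) : ℝ) / ((10000 * (10000 + p.um) : ℕ) : ℝ) ≤ x
  rw [le_div_iff₀ hy] at hx
  have e1 : ((Int.ofNat (10000 * p.um) : ℤ) : ℝ) = 10000 * (p.um : ℝ) := by simp
  rw [e1]
  push_cast
  rw [div_le_iff₀ (by positivity)]
  unfold v at hx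
  have : (p.um : ℝ) * (1 - x) ≤ x * 10000 := by
    have := mul_le_mul_of_nonneg_right hx (by norm_num : (0:ℝ) ≤ 10000)
    calc (p.um : ℝ) * (1 - x) = (p.um : ℝ) / 10000 * (1 - x) * 10000 := by ring
      _ ≤ _ := this
  nlinarith

theorem iB_r (p : Pf) {x : ℝ} (hx1 : x ≤ v p.al.x1) : x ≤ ((iB p).r : ℝ) / (iB p).m := by
  show x ≤ ((Int.ofNat (p.al.x1 * (10000 + p.um)) : ℤ) : ℝ) / ((10000 * (10000 + p.um) : ℕ) : ℝ)
  have e1 : ((Int.ofNat (p.al.x1 * (10000 + p.um)) : ℤ) : ℝ)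
      = (p.al.x1 : ℝ) * (10000 + (p.um : ℝ)) := by simp
  rw [e1]
  push_cast
  rw [mul_div_mul_right _ _ (by positivity)]
  exact hx1

theorem iC_l (p : Pf) (hbe : 0 < v p.be) {x : ℝ} (hx1 : v p.al.x1 ≤ x) :
    ((iC p).l : ℝ) / (iC p).m ≤ x := by
  have hbn := be_pos hbe
  show ((Int.ofNat (p.al.x1 * p.be) : ℤ) : ℝ) / ((10000 * p.be : ℕ) : ℝ) ≤ x
  have e1 : ((Int.ofNat (p.al.x1 * p.be) : ℤ) : ℝ) = (p.al.x1 : ℝ) * (p.be : ℝ) := by simp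
  rw [e1]
  push_cast
  rw [mul_div_mul_right _ _ hbn.ne']
  exact hx1

theorem iC_r (p : Pf) (hbe : 0 < v p.be) {x : ℝ} (hf : v p.be * x ≤ 1) :
    x ≤ ((iC p).r : ℝ) / (iC p).m := by
  have hbn := be_pos hbe
  show x ≤ ((100000000 : ℤ) : ℝ) / ((10000 * p.be : ℕ) : ℝ)
  push_cast
  rw [le_div_iff₀ (by positivity)]
  have := be_le hf
  nlinarith

theorem lng_false {p : Pf} (h : lng p = false) : 1 < v p.al.x1 * v p.be := by
  have h1 : ¬ (p.al.x1 * p.be ≤ 100000000) := by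
    intro h2
    have : lng p = true := Nat.ble_eq_true_of_le h2
    rw [h] at this
    exact absurd this (by decide)
  have h2 : (100000000 : ℝ) < (p.al.x1 : ℝ) * (p.be : ℝ) := by exact_mod_cast not_le.1 h1
  unfold v
  rw [div_mul_div_comm, lt_div_iff₀ (by norm_num)]
  linarith

theorem iE_l (p : Pf) {x : ℝ} (h : 0 ≤ x) : ((iE p).l : ℝ) / (iE p).m ≤ x := by
  unfold iE
  split_ifs
  · show ((0 : ℤ) : ℝ) / _ ≤ x
    simpa using h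
  · show ((0 : ℤ) : ℝ) / _ ≤ x
    simpa using h

theorem iE_r (p : Pf) (hbe : 0 < v p.be) {x : ℝ} (hx : x ≤ v p.al.x1) (hf : v p.be * x ≤ 1) :
    x ≤ ((iE p).r : ℝ) / (iE p).m := by
  have hbn := be_pos hbe
  unfold iE
  split_ifs
  · show x ≤ ((Int.ofNat p.al.x1 : ℤ) : ℝ) / ((10000 : ℕ) : ℝ)
    simpa [v] using hx
  · show x ≤ ((10000 : ℤ) : ℝ) / ((p.be : ℕ) : ℝ)
    push_cast
    rw [le_div_iff₀ hbn]
    have := be_le hf
    linarith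

theorem iD_l (p : Pf) (hbe : 0 < v p.be) {x : ℝ} (h : v p.nuh ≤ x) :
    ((iD p).l : ℝ) / (iD p).m ≤ x := by
  have hbn := be_pos hbe
  unfold iD
  split_ifs
  · show ((Int.ofNat p.nuh : ℤ) : ℝ) / ((10000 : ℕ) : ℝ) ≤ x
    simpa [v] using h
  · show ((Int.ofNat (p.nuh * p.be) : ℤ) : ℝ) / ((10000 * p.be : ℕ) : ℝ) ≤ x
    have e1 : ((Int.ofNat (p.nuh * p.be) : ℤ) : ℝ) = (p.nuh : ℝ) * (p.be : ℝ) := by simp
    rw [e1]
    push_cast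
    rw [mul_div_mul_right _ _ hbn.ne']
    exact h

theorem iD_r (p : Pf) (hbe : 0 < v p.be) {x : ℝ} (hx : x ≤ v p.al.x1) (hf : v p.be * x ≤ 1) :
    x ≤ ((iD p).r : ℝ) / (iD p).m := by
  have hbn := be_pos hbe
  unfold iD
  split_ifs
  · show x ≤ ((Int.ofNat p.al.x1 : ℤ) : ℝ) / ((10000 : ℕ) : ℝ)
    simpa [v] using hx
  · show x ≤ ((100000000 : ℤ) : ℝ) / ((10000 * p.be : ℕ) : ℝ)
    push_cast
    rw [le_div_iff₀ (by positivity)]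
    have := be_le hf
    nlinarith

end

end Pool.Agent.T6A.Chk
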