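import Pool.Agent.T6A.ChkPf

/-!
# Soundness of the checker for the profiles of CERT v3 (MP_c6effb_co, helper21)

`vtxG_of`: `okPf p = true` and the four side conditions `Side` give `VtxG`.
-/

set_option autoImplicit false

namespace Pool.Agent.T6A.Chk

open Bern

noncomputable section

/-- The value of `AE`. -/
def av (a : Af) (x : ℝ) : ℝ := (AE a).ev fun _ => x

theorem av_eq (a : Af) (x : ℝ) :
    av a x = if a.kd = 0 then (1 - x) + v a.c * x else (1 - x) * (1 + v a.c * x) := by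
  unfold av AE
  split_ifs <;> simp [yE]

theorem av_ge (a : Af) {x : ℝ} (h0 : 0 ≤ x) (h1 : x < 1) : 1 - x ≤ av a x := by
  have hc := v_nonneg a.c
  have h2 : 0 ≤ v a.c * x := mul_nonneg hc h0
  rw [av_eq]
  split_ifs
  · linarith
  · nlinarith

theorem AL_ge_one {a : Af} (h : okAf a = true) (x : ℝ) : 1 ≤ AL a x := by
  rw [okAf, Bool.and_eq_true] at h
  have hAM := v_le_of h.2
  have hx1 : v a.x1 < 1 / 2 := by
    have h1 : 2 * a.x1 < 10000 := Nat.le_of_ble_eq_true h.1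
    have h2 : (2 * a.x1 : ℝ) < 10000 := by exact_mod_cast h1
    unfold v
    rw [div_lt_iff₀ (by norm_num)]
    linarith
  unfold AL
  split_ifs with hx
  · have h0 : 0 ≤ max 0 x := le_max_left _ _
    have h1 : max 0 x < 1 := max_lt (by norm_num) (by linarith)
    rw [one_le_div (by linarith)]
    exact av_ge a h0 h1
  · have e : v 10000 = 1 := by unfold v; norm_num
    linarith

theorem ev_two (ρ : ℕ → ℝ) : (2 : Ex).ev ρ = 2 := by
  show ((2 : ℤ) : ℝ) / ((1 : ℕ) : ℝ) = 2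
  norm_num

section prof

variable {p : Pf} {ss x : ℝ}

theorem prof_A (h : ck (profA p) (iA p) = true) (hss : ss ≤ v p.sU)
    (h0 : 0 ≤ x) (hy : 0 < 1 - x) (hx : x / (1 - x) ≤ v p.um) (hf : v p.be * x ≤ 1) :
    (1 - v p.be * x) * ((p.d : ℝ) * ((v p.xi * ((av p.al x / (1 - x)) ^ 2 * (1 - x))
      + (v p.xi)⁻¹ * ((v p.om * (av p.al x / (1 - x))) ^ 2 / (1 - x))) / 2)
      + (((1 - x)⁻¹) ^ p.d - 1 + ss * (x / (1 - x)) ^ 2))
      ≤ v p.C * (1 + v p.X * (x / (1 - x))) := by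
  have h2 := ck_sound h (iA_l p h0) (iA_r p hy hx)
  simp only [profA, Ex.ev_sub, Ex.ev_add, Ex.ev_mul, Ex.ev_pow, Ex.ev_x,
    ev_pr, half_ev, oxE_ev, yE_ev, fE_ev] at h2
  have eav : (AE p.al).ev (fun _ => x) = av p.al x := rfl
  rw [eav] at h2
  obtain ⟨y, hyd⟩ : ∃ y, y = 1 - x := ⟨_, rfl⟩
  rw [← hyd] at h2 hy ⊢
  have hP : 0 < y ^ p.d := pow_pos hy _
  have h3 : (1 - v p.be * x) * ss * (x ^ 2 * y ^ (p.d + 1))
      ≤ (1 - v p.be * x) * v p.sU * (x ^ 2 * y ^ (p.d + 1)) := by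
    refine mul_le_mul_of_nonneg_right (mul_le_mul_of_nonneg_left hss (by linarith)) ?_
    positivity
  have key : v p.C * (1 + v p.X * (x / y)) - (1 - v p.be * x) * ((p.d : ℝ) *
      ((v p.xi * ((av p.al x / y) ^ 2 * y)
      + (v p.xi)⁻¹ * ((v p.om * (av p.al x / y)) ^ 2 / y)) / 2)
      + ((y⁻¹) ^ p.d - 1 + ss * (x / y) ^ 2))
      = (v p.C * (y + v p.X * x) * y ^ (p.d + 2) - (1 - v p.be * x) * ((p.d : ℝ) / 2 *
        (v p.xi * av p.al x ^ 2 * y ^ (p.d + 2)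
          + (v p.xi)⁻¹ * v p.om ^ 2 * av p.al x ^ 2 * y ^ p.d)
        + y ^ 3 - y ^ (p.d + 3) + ss * x ^ 2 * y ^ (p.d + 1))) / y ^ (p.d + 3) := by
    rw [inv_pow]
    have e1 : y ^ (p.d + 3) = y ^ p.d * y ^ 3 := pow_add _ _ _
    have e2 : y ^ (p.d + 2) = y ^ p.d * y ^ 2 := pow_add _ _ _
    have e3 : y ^ (p.d + 1) = y ^ p.d * y := pow_succ _ _
    rw [e1, e2, e3]
    generalize y ^ p.d = P at hP
    generalize (v p.xi)⁻¹ = xi'
    field_simp
    ring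
  have h4 : 0 ≤ (v p.C * (y + v p.X * x) * y ^ (p.d + 2) - (1 - v p.be * x) * ((p.d : ℝ) / 2 *
        (v p.xi * av p.al x ^ 2 * y ^ (p.d + 2)
          + (v p.xi)⁻¹ * v p.om ^ 2 * av p.al x ^ 2 * y ^ p.d)
        + y ^ 3 - y ^ (p.d + 3) + ss * x ^ 2 * y ^ (p.d + 1))) / y ^ (p.d + 3) := by
    refine div_nonneg ?_ (pow_pos hy _).le
    linarith
  linarith

theorem prof_B (h : ck (profB p) (iB p) = true) (hss : ss ≤ v p.sU)
    (hy : 0 < 1 - x) (hx : v p.um ≤ x / (1 - x)) (hx1 : x ≤ v p.al.x1) (hf : v p.be * x ≤ 1) :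
    (1 - v p.be * x) * ((p.d : ℝ) * ((v p.xi * ((av p.al x / (1 - x)) ^ 2 * (1 - x))
      + (v p.xi)⁻¹ * ((v p.om * (av p.al x / (1 - x))) ^ 2 / (1 - x))) / 2)
      + (((1 - x)⁻¹) ^ p.d - 1 + ss * v p.um ^ 2))
      ≤ v p.C * (1 + v p.X * v p.um) := by
  have h2 := ck_sound h (iB_l p hy hx) (iB_r p hx1)
  simp only [profB, Ex.ev_sub, Ex.ev_add, Ex.ev_mul, Ex.ev_pow, Ex.ev_one,
    ev_pr, half_ev, oxE_ev, yE_ev, fE_ev] at h2
  have eav : (AE p.al).ev (fun _ => x) = av p.al x := rfl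
  rw [eav] at h2
  obtain ⟨y, hyd⟩ : ∃ y, y = 1 - x := ⟨_, rfl⟩
  rw [← hyd] at h2 hy ⊢
  have hP : 0 < y ^ p.d := pow_pos hy _
  have hum := v_nonneg p.um
  have h3 : (1 - v p.be * x) * ss * (v p.um ^ 2 * y ^ (p.d + 3))
      ≤ (1 - v p.be * x) * v p.sU * (v p.um ^ 2 * y ^ (p.d + 3)) := by
    refine mul_le_mul_of_nonneg_right (mul_le_mul_of_nonneg_left hss (by linarith)) ?_
    positivity
  have key : v p.C * (1 + v p.X * v p.um) - (1 - v p.be * x) * ((p.d : ℝ) *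
      ((v p.xi * ((av p.al x / y) ^ 2 * y)
      + (v p.xi)⁻¹ * ((v p.om * (av p.al x / y)) ^ 2 / y)) / 2)
      + ((y⁻¹) ^ p.d - 1 + ss * v p.um ^ 2))
      = (v p.C * (1 + v p.X * v p.um) * y ^ (p.d + 3) - (1 - v p.be * x) * ((p.d : ℝ) / 2 *
        (v p.xi * av p.al x ^ 2 * y ^ (p.d + 2)
          + (v p.xi)⁻¹ * v p.om ^ 2 * av p.al x ^ 2 * y ^ p.d)
        + y ^ 3 - y ^ (p.d + 3) + ss * v p.um ^ 2 * y ^ (p.d + 3))) / y ^ (p.d + 3) := by
    rw [inv_pow]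
    have e1 : y ^ (p.d + 3) = y ^ p.d * y ^ 3 := pow_add _ _ _
    have e2 : y ^ (p.d + 2) = y ^ p.d * y ^ 2 := pow_add _ _ _
    rw [e1, e2]
    generalize y ^ p.d = P at hP
    generalize (v p.xi)⁻¹ = xi'
    field_simp
    ring
  have h4 : 0 ≤ (v p.C * (1 + v p.X * v p.um) * y ^ (p.d + 3) - (1 - v p.be * x) * ((p.d : ℝ) / 2 *
        (v p.xi * av p.al x ^ 2 * y ^ (p.d + 2)
          + (v p.xi)⁻¹ * v p.om ^ 2 * av p.al x ^ 2 * y ^ p.d)
        + y ^ 3 - y ^ (p.d + 3) + ss * v p.um ^ 2 * y ^ (p.d + 3))) / y ^ (p.d + 3) := by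
    refine div_nonneg ?_ (pow_pos hy _).le
    linarith
  linarith

theorem prof_C (h : ck (profC p) (iC p) = true) (hss : ss ≤ v p.sU) (hbe : 0 < v p.be)
    (hx1 : v p.al.x1 ≤ x) (hy : 0 < 1 - x) (hf : v p.be * x ≤ 1) :
    (1 - v p.be * x) * ((p.d : ℝ) * ((v p.xi * (v p.al.AM ^ 2 * (1 - x))
      + (v p.xi)⁻¹ * ((v p.om * v p.al.AM) ^ 2 / (1 - x))) / 2)
      + (((1 - x)⁻¹) ^ p.d - 1 + ss * v p.um ^ 2))
      ≤ v p.C * (1 + v p.X * v p.um) := by
  have h2 := ck_sound h (iC_l p hbe hx1) (iC_r p hbe hf)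
  simp only [profC, Ex.ev_sub, Ex.ev_add, Ex.ev_mul, Ex.ev_pow, Ex.ev_one,
    ev_pr, half_ev, oxE_ev, yE_ev, fE_ev] at h2
  obtain ⟨y, hyd⟩ : ∃ y, y = 1 - x := ⟨_, rfl⟩
  rw [← hyd] at h2 hy ⊢
  have hP : 0 < y ^ p.d := pow_pos hy _
  have hum := v_nonneg p.um
  have h3 : (1 - v p.be * x) * ss * (v p.um ^ 2 * y ^ (p.d + 1))
      ≤ (1 - v p.be * x) * v p.sU * (v p.um ^ 2 * y ^ (p.d + 1)) := by
    refine mul_le_mul_of_nonneg_right (mul_le_mul_of_nonneg_left hss (by linarith)) ?_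
    positivity
  have key : v p.C * (1 + v p.X * v p.um) - (1 - v p.be * x) * ((p.d : ℝ) *
      ((v p.xi * (v p.al.AM ^ 2 * y)
      + (v p.xi)⁻¹ * ((v p.om * v p.al.AM) ^ 2 / y)) / 2)
      + ((y⁻¹) ^ p.d - 1 + ss * v p.um ^ 2))
      = (v p.C * (1 + v p.X * v p.um) * y ^ (p.d + 1) - (1 - v p.be * x) * ((p.d : ℝ) / 2 *
        (v p.xi * v p.al.AM ^ 2 * y ^ (p.d + 2)
          + (v p.xi)⁻¹ * v p.om ^ 2 * v p.al.AM ^ 2 * y ^ p.d)
        + y - y ^ (p.d + 1) + ss * v p.um ^ 2 * y ^ (p.d + 1))) / y ^ (p.d + 1) := by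
    rw [inv_pow]
    have e1 : y ^ (p.d + 1) = y ^ p.d * y := pow_succ _ _
    have e2 : y ^ (p.d + 2) = y ^ p.d * y ^ 2 := pow_add _ _ _
    rw [e1, e2]
    generalize y ^ p.d = P at hP
    generalize (v p.xi)⁻¹ = xi'
    field_simp
    ring
  have h4 : 0 ≤ (v p.C * (1 + v p.X * v p.um) * y ^ (p.d + 1) - (1 - v p.be * x) * ((p.d : ℝ) / 2 *
        (v p.xi * v p.al.AM ^ 2 * y ^ (p.d + 2)
          + (v p.xi)⁻¹ * v p.om ^ 2 * v p.al.AM ^ 2 * y ^ p.d)
        + y - y ^ (p.d + 1) + ss * v p.um ^ 2 * y ^ (p.d + 1))) / y ^ (p.d + 1) := by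
    refine div_nonneg ?_ (pow_pos hy _).le
    linarith
  linarith

end prof

/-! ### The profile -/

theorem ff_le (p : Pf) {x : ℝ} (h : 0 ≤ x) : ff p x ≤ 1 := by
  have := mul_nonneg (v_nonneg p.be) h
  exact max_le (by norm_num) (by linarith)

theorem line_le (p : Pf) (x : ℝ) : 1 - v p.be * x ≤ ff p x := le_max_right _ _

/-- What `okA` says. -/
structure OkA (p : Pf) : Prop where
  hxi : 0 < v p.xi
  hum0 : 0 < v p.um
  hum1 : v p.um ≤ 1
  hbe : 10417 / 10000 ≤ v p.be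
  hom : v p.om ≤ 1
  hX : p.d = 0 → v p.X = 0
  hsL : 1 ≤ p.d → 0 < v p.sL
  ssL : 1 ≤ p.d → v p.sL ≤ KZero.ss p.d (v p.um)
  ssU : 1 ≤ p.d → KZero.ss p.d (v p.um) ≤ v p.sU
  pA : 1 ≤ p.d → ck (profA p) (iA p) = true
  pB : 1 ≤ p.d → ck (profB p) (iB p) = true
  pC : 1 ≤ p.d → lng p = true → ck (profC p) (iC p) = true

theorem okA_of {p : Pf} (h : okA p = true) : OkA p := by
  simp only [okA, Bool.and_eq_true, Bool.or_eq_true] at h
  obtain ⟨⟨⟨⟨⟨hxi, hum0⟩, hum1⟩, hbe⟩, hom⟩, hrest⟩ := h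
  have e1 : v 10000 = 1 := by unfold v; norm_num
  have e2 : v 10417 = 10417 / 10000 := by unfold v; norm_num
  have hum0' := v_pos_of hum0
  have hum2 : 0 < v p.um ^ 2 := by positivity
  have key : 1 ≤ p.d → Nat.ble 1 p.sL = true ∧
      ck0 (pr p.sU * pr p.um ^ 2 - (1 - (1 - pr p.um ^ 2) ^ p.d)) = true ∧
      ck0 ((1 - (1 - pr p.um ^ 2) ^ p.d) - pr p.sL * pr p.um ^ 2) = true ∧
      ck (profA p) (iA p) = true ∧ ck (profB p) (iB p) = true ∧
      (lng p = true → ck (profC p) (iC p) = true) := by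
    intro hd
    rcases hrest with ⟨h1, _⟩ | ⟨⟨⟨⟨⟨⟨_, h2⟩, h3⟩, h4⟩, h5⟩, h6⟩, h7⟩
    · have := Nat.le_of_ble_eq_true h1
      omega
    · refine ⟨h2, h3, h4, h5, h6, fun hl => ?_⟩
      rcases h7 with h7 | h7
      · rw [hl] at h7
        exact absurd h7 (by decide)
      · exact h7
  refine ⟨v_pos_of hxi, hum0', by rw [← e1]; exact v_le_of hum1, by rw [← e2]; exact v_le_of hbe,
    by rw [← e1]; exact v_le_of hom, ?_, fun hd => v_pos_of (key hd).1, ?_, ?_,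
    fun hd => (key hd).2.2.2.1, fun hd => (key hd).2.2.2.2.1, fun hd => (key hd).2.2.2.2.2⟩
  · intro hd
    rcases hrest with ⟨_, h2⟩ | ⟨⟨⟨⟨⟨⟨h1, _⟩, _⟩, _⟩, _⟩, _⟩, _⟩
    · have h3 := Nat.le_of_ble_eq_true h2
      have h4 : p.X = 0 := by omega
      rw [h4]
      unfold v
      simp
    · have := Nat.le_of_ble_eq_true h1
      omega
  · intro hd
    have h4 := ck0_sound (key hd).2.2.1
    simp only [Ex.ev_sub, Ex.ev_mul, Ex.ev_pow, Ex.ev_one, ev_pr] at h4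
    unfold KZero.ss
    rw [le_div_iff₀ hum2]
    linarith
  · intro hd
    have h4 := ck0_sound (key hd).2.1
    simp only [Ex.ev_sub, Ex.ev_mul, Ex.ev_pow, Ex.ev_one, ev_pr] at h4
    unfold KZero.ss
    rw [div_le_iff₀ hum2]
    linarith

theorem ff_cut {p : Pf} (h : OkA p) {x : ℝ} (hx : 24 / 25 < x) : ff p x = 0 := by
  apply ff_of_ge
  have := h.hbe
  nlinarith

theorem ff_pos {p : Pf} {x : ℝ} (h : 0 < ff p x) : v p.be * x < 1 := by
  unfold ff at h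
  rcases lt_max_iff.1 h with h | h
  · exact absurd h (lt_irrefl _)
  · linarith

theorem ff_lt_one {p : Pf} (h : OkA p) {x : ℝ} (hx : 0 < ff p x) : x < 1 := by
  have h1 := ff_pos hx
  have h2 := h.hbe
  by_contra hcon
  push Not at hcon
  nlinarith

/-- **The profile condition.** -/
theorem prof_of {p : Pf} (hA : OkA p) {x : ℝ} (h0 : 0 ≤ x) (h1 : x < 1) (hf : 0 < ff p x) :
    ff p x * ((p.d : ℝ) * ((v p.xi * (AL p.al x ^ 2 * (1 - x))
      + (v p.xi)⁻¹ * ((v p.om * AL p.al x) ^ 2 / (1 - x))) / 2)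
      + (((1 - x)⁻¹) ^ p.d - 1 + KZero.ss p.d (v p.um) * KZero.ut (v p.um) x ^ 2))
      ≤ v p.C * (1 + v p.X * KZero.ut (v p.um) x) := by
  have hy : 0 < 1 - x := by linarith
  have hbx := (ff_pos hf).le
  have hC := v_nonneg p.C
  have hXn := v_nonneg p.X
  have hbe : 0 < v p.be := lt_of_lt_of_le (by norm_num) hA.hbe
  rcases Nat.eq_zero_or_pos p.d with hd | hd
  · rw [hd]
    have e : KZero.ss 0 (v p.um) = 0 := by simp [KZero.ss]
    rw [e]
    have hut : 0 ≤ KZero.ut (v p.um) x := KZero.ut_nonneg hA.hum0 h1 h0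
    have : 0 ≤ v p.C * (1 + v p.X * KZero.ut (v p.um) x) :=
      mul_nonneg hC (by have := mul_nonneg hXn hut; linarith)
    simpa using this
  · rw [ff_of_le hbx]
    rcases le_total (x / (1 - x)) (v p.um) with hu | hu
    · have e : KZero.ut (v p.um) x = x / (1 - x) := min_eq_left hu
      rw [e]
      by_cases hx : x ≤ v p.al.x1
      · have := prof_A (hA.pA hd) (hA.ssU hd) h0 hy hu hbx
        rw [AL_small p.al h0 hx]
        exact this
      · -- `x1 < x` and `x / y ≤ um`: the second piece starts before `x1`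
        exfalso
        push Not at hx
        -- the interval of the second piece is well formed
        have h3 := ck_le (hA.pB hd)
        have h4 : 10000 * p.um ≤ p.al.x1 * (10000 + p.um) := by
          have h5 : (Int.ofNat (10000 * p.um) : ℤ) ≤ Int.ofNat (p.al.x1 * (10000 + p.um)) := h3
          exact Int.ofNat_le.1 h5
        have h6 : 10000 * (p.um : ℝ) ≤ (p.al.x1 : ℝ) * (10000 + p.um) := by exact_mod_cast h4
        rw [div_le_iff₀ hy] at hu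
        unfold v at hu hx
        have h7 : x * 10000 ≤ (p.um : ℝ) * (1 - x) := by
          have := mul_le_mul_of_nonneg_right hu (by norm_num : (0:ℝ) ≤ 10000)
          calc x * 10000 ≤ (p.um : ℝ) / 10000 * (1 - x) * 10000 := this
            _ = (p.um : ℝ) * (1 - x) := by ring
        have h8 : (p.al.x1 : ℝ) < x * 10000 := by
          rw [div_lt_iff₀ (by norm_num)] at hx
          exact hx
        have hum : (0 : ℝ) ≤ (p.um : ℝ) := Nat.cast_nonneg _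
        generalize (p.um : ℝ) = U at h6 h7 hum
        generalize (p.al.x1 : ℝ) = X1 at h6 h8
        have h9 : x * 10000 + U * x ≤ U := by linarith
        have h10 : (x * 10000) * (10000 + U) ≤ X1 * (10000 + U) := by
          calc (x * 10000) * (10000 + U) = 10000 * (x * 10000 + U * x) := by ring
            _ ≤ 10000 * U := by linarith
            _ ≤ _ := h6
        have h11 := le_of_mul_le_mul_right h10 (by linarith : 0 < 10000 + U)
        linarith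
    · have e : KZero.ut (v p.um) x = v p.um := min_eq_right hu
      rw [e]
      by_cases hx : x ≤ v p.al.x1
      · have := prof_B (hA.pB hd) (hA.ssU hd) hy hu hx hbx
        rw [AL_small p.al h0 hx]
        exact this
      · push Not at hx
        have hl : lng p = true := by
          by_contra hcon
          have h2 := lng_false (Bool.eq_false_iff.2 hcon)
          nlinarith
        have := prof_C (hA.pC hd hl) (hA.ssU hd) hbe hx.le hy hbx
        rw [AL_big p.al (not_le.2 hx)]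
        exact this

/-! ### The kill factor -/

/-- The side conditions (`θ = lam A`). -/
structure Side (p : Pf) (W A sg θ : ℝ) : Prop where
  n1 : (1 - v p.om) * A ≤ θ * (v p.rho * A + (v p.a1 * W - v p.m1 * sg - v p.B * sg))
  n2 : θ * (v p.g0 * W + v p.g1 * A + 2 * v p.th * v p.kap * sg) ≤ v p.th * A
  n3 : θ * (vz p.k0 * W + vz p.k1 * A + v p.k2 * sg + 2 * v p.k3 * sg) ≤ v p.om * A
  n4 : θ * v p.F2 * sg * (2 - v p.al.x1) ≤ (1 - v p.al.x1) * A

/-- What `okK` says. -/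
structure OkK (p : Pf) : Prop where
  hc : 0 < v p.al.c
  hth : 0 < v p.th
  hnuh : 0 < v p.nuh
  hnx : v p.nuh ≤ v p.al.x1
  hnb : v p.nuh * v p.be ≤ 1
  hAM : 1 ≤ v p.om * v p.al.AM
  cM1 : ck (M1E p) (iN p) = true
  cM1' : ck (M1E' p) (iN p) = true
  cM3 : ck (M3E p) (iN p) = true
  cA0 : ck (A0E p) (iN p) = true
  cF2 : ck (F2E p) (iN p) = true
  cA0a : ck (A0a p) (iD p) = true
  cA0b : lng p = true → ck (A0b p) (iC p) = true
  cA2a : ck (A2a p) (iE p) = true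
  cA2b : lng p = true → ck (A2b p) (iC p) = true
  cS1 : p.al.kd = 0 → ck (S1E p) (iN p) = true
  cS2 : p.al.kd ≠ 0 → chk 8 (S1F p) [iN p, iX p] = true
  e1 : v p.rho * (1 - v p.be * v p.nuh) + v p.a1 ≤ v p.B * v p.nuh
  e2 : 0 ≤ vz p.k0 + vz p.k1 + v p.k3
  e3 : 0 ≤ vz p.k0 * v p.be + v p.k2 + v p.k3 * v p.be
  e4 : 0 ≤ vz p.k0 + vz p.k1 * (1 - v p.be * v p.nuh) + v p.k2 * v p.nuh
  e5 : 0 ≤ vz p.k0 * v p.be + v p.k2

theorem imp_of {a b : Bool} (h : (!a || b) = true) (ha : a = true) : b = true := by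
  rw [ha] at h
  simpa using h

theorem okK_of {p : Pf} (h : okK p = true) : OkK p := by
  unfold okK at h
  rw [Bool.and_eq_true, Bool.and_eq_true, Bool.and_eq_true, Bool.and_eq_true, Bool.and_eq_true,
    Bool.and_eq_true, Bool.and_eq_true, Bool.and_eq_true, Bool.and_eq_true, Bool.and_eq_true,
    Bool.and_eq_true, Bool.and_eq_true, Bool.and_eq_true, Bool.and_eq_true, Bool.and_eq_true,
    Bool.and_eq_true, Bool.and_eq_true, Bool.and_eq_true, Bool.and_eq_true, Bool.and_eq_true] at h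
  obtain ⟨⟨⟨⟨⟨⟨⟨⟨⟨⟨⟨⟨⟨⟨⟨⟨⟨⟨⟨⟨hc, hth⟩, hn⟩, hnx⟩, hnb⟩, hAM⟩, c1⟩, c2⟩, c3⟩, c4⟩, c5⟩, c6⟩, c7⟩, c8⟩,
    c9⟩, c10⟩, d1⟩, d2⟩, d3⟩, d4⟩, d5⟩ := h
  have hnb' : v p.nuh * v p.be ≤ 1 := by
    have h1 : ((p.nuh * p.be : ℕ) : ℝ) ≤ ((100000000 : ℕ) : ℝ) :=
      Nat.cast_le.2 (Nat.le_of_ble_eq_true hnb)
    push_cast at h1
    unfold v
    rw [div_mul_div_comm, div_le_one (by norm_num)]
    linarith
  have hAM' : 1 ≤ v p.om * v p.al.AM := by
    have h1 : ((100000000 : ℕ) : ℝ) ≤ ((p.om * p.al.AM : ℕ) : ℝ) :=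
      Nat.cast_le.2 (Nat.le_of_ble_eq_true hAM)
    push_cast at h1
    unfold v
    rw [div_mul_div_comm, one_le_div (by norm_num)]
    linarith
  refine ⟨v_pos_of hc, v_pos_of hth, v_pos_of hn, v_le_of hnx, hnb', hAM', c1, c2, c3, c4, c5, c6,
    imp_of c7, c8, imp_of c9, fun hk => ?_, fun hk => ?_, ?_, ?_, ?_, ?_, ?_⟩
  · rw [if_pos hk] at c10
    exact c10
  · rw [if_neg hk] at c10
    exact c10
  · have := ck0_sound d1
    simp only [Ex.ev_sub, Ex.ev_mul, Ex.ev_one, ev_pr] at this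
    linarith
  · have := ck0_sound d2
    simp only [Ex.ev_add, ev_pr, ev_prz] at this
    exact this
  · have := ck0_sound d3
    simp only [Ex.ev_add, Ex.ev_mul, ev_pr, ev_prz] at this
    exact this
  · have := ck0_sound d4
    simp only [Ex.ev_add, Ex.ev_sub, Ex.ev_mul, Ex.ev_one, ev_pr, ev_prz] at this
    exact this
  · have := ck0_sound d5
    simp only [Ex.ev_add, Ex.ev_mul, ev_pr, ev_prz] at this
    exact this

/-- The value of `GE`. -/
theorem GE_ev (a b : Ex) (ρ : ℕ → ℝ) : ∀ n : ℕ,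
    (a.ev ρ - b.ev ρ) * (GE a b n).ev ρ = a.ev ρ ^ n - b.ev ρ ^ n
  | 0 => by simp [GE]
  | n + 1 => by
    have h := GE_ev a b ρ n
    rw [GE, Ex.ev_add, Ex.ev_mul, Ex.ev_pow]
    calc (a.ev ρ - b.ev ρ) * (a.ev ρ * (GE a b n).ev ρ + b.ev ρ ^ n)
        = a.ev ρ * ((a.ev ρ - b.ev ρ) * (GE a b n).ev ρ) + (a.ev ρ - b.ev ρ) * b.ev ρ ^ n := by
          ring
      _ = a.ev ρ ^ (n + 1) - b.ev ρ ^ (n + 1) := by
          rw [h]
          ring

section kill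

variable {p : Pf} {x : ℝ}

theorem phi_eq {f y mu : ℝ} (hy : 0 < y) {d : ℕ} (hd : 1 ≤ d) :
    f * (1 / y - mu / y ^ d) = f * (y ^ (d - 1) - mu) / y ^ d := by
  obtain ⟨e, rfl⟩ : ∃ e, d = e + 1 := ⟨d - 1, by omega⟩
  rw [Nat.add_sub_cancel, pow_succ]
  have : 0 < y ^ e := pow_pos hy _
  field_simp

theorem M1_of (hK : OkK p) (hd : 1 ≤ p.d) (h0 : 0 ≤ x) (h1 : x ≤ v p.nuh) (hy : 0 < 1 - x)
    (hb : v p.be * x ≤ 1) : v p.rho * ff p x + v p.a1 - v p.B * x ≤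
      ff p x * (1 / (1 - x) - (1 - v p.om) / (1 - x) ^ p.d) := by
  have h2 := ck_sound hK.cM1 (iN_l p h0) (iN_r p h1)
  simp only [M1E, Ex.ev_sub, Ex.ev_add, Ex.ev_mul, Ex.ev_pow, Ex.ev_x, ev_pr, yE_ev, fE_ev,
    muE_ev] at h2
  rw [ff_of_le hb, phi_eq hy hd, le_div_iff₀ (pow_pos hy _)]
  linarith

theorem M1'_of (hK : OkK p) (hd : 1 ≤ p.d) (h0 : 0 ≤ x) (h1 : x ≤ v p.nuh) (hy : 0 < 1 - x)
    (hb : v p.be * x ≤ 1) :
    ff p x * (1 / (1 - x) - (1 - v p.om) / (1 - x) ^ p.d) ≤ v p.m1 := by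
  have h2 := ck_sound hK.cM1' (iN_l p h0) (iN_r p h1)
  simp only [M1E', Ex.ev_sub, Ex.ev_mul, Ex.ev_pow, ev_pr, yE_ev, fE_ev, muE_ev] at h2
  rw [ff_of_le hb, phi_eq hy hd, div_le_iff₀ (pow_pos hy _)]
  linarith

theorem M3_of (hK : OkK p) (hd : 1 ≤ p.d) (h0 : 0 ≤ x) (h1 : x ≤ v p.nuh) (hy : 0 < 1 - x)
    (hb : v p.be * x ≤ 1) :
    v p.th * (ff p x * (1 / (1 - x) - (1 - v p.om) / (1 - x) ^ p.d))
      ≤ v p.om * (ff p x ^ 2 * AL p.al x ^ 2 / (1 - x)) := by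
  have h2 := ck_sound hK.cM3 (iN_l p h0) (iN_r p h1)
  simp only [M3E, Ex.ev_sub, Ex.ev_mul, Ex.ev_pow, ev_pr, yE_ev, fE_ev, muE_ev] at h2
  have eav : (AE p.al).ev (fun _ => x) = av p.al x := rfl
  rw [eav] at h2
  rw [ff_of_le hb, phi_eq hy hd, AL_small p.al h0 (h1.trans hK.hnx), eav]
  obtain ⟨y, hyd⟩ : ∃ y, y = 1 - x := ⟨_, rfl⟩
  obtain ⟨f, hfd⟩ : ∃ f, f = 1 - v p.be * x := ⟨_, rfl⟩
  have hf : 0 ≤ f := by rw [hfd]; linarith
  rw [← hyd, ← hfd] at h2 ⊢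
  rw [← hyd] at hy
  obtain ⟨e, he⟩ : ∃ e, p.d = e + 1 := ⟨p.d - 1, by omega⟩
  rw [he] at h2 ⊢
  rw [Nat.add_sub_cancel] at h2 ⊢
  have hP : 0 < y ^ e := pow_pos hy _
  have key : v p.om * (f ^ 2 * (av p.al x / y) ^ 2 / y)
      - v p.th * (f * (y ^ e - (1 - v p.om)) / y ^ (e + 1))
      = f * (v p.om * f * av p.al x ^ 2 * y ^ e - v p.th * (y ^ e - (1 - v p.om)) * y ^ 2)
        / (y ^ e * y ^ 3) := by
    have e1 : y ^ (e + 1) = y ^ e * y := pow_succ _ _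
    rw [e1]
    generalize y ^ e = P at hP
    field_simp
  have h3 : 0 ≤ f * (v p.om * f * av p.al x ^ 2 * y ^ e
      - v p.th * (y ^ e - (1 - v p.om)) * y ^ 2) / (y ^ e * y ^ 3) := by
    refine div_nonneg (mul_nonneg hf ?_) (by positivity)
    linarith
  linarith

theorem A0_of (hK : OkK p) (h0 : 0 ≤ x) (h1 : x ≤ v p.nuh) (hy : 0 < 1 - x)
    (hb : v p.be * x ≤ 1) : 2 * (ff p x ^ 2 * AL p.al x ^ 2 / (1 - x)) ≤
      v p.g0 + v p.g1 * ff p x + v p.th * (ff p x / (1 - x) ^ p.d) := by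
  have h2 := ck_sound hK.cA0 (iN_l p h0) (iN_r p h1)
  simp only [A0E, Ex.ev_sub, Ex.ev_add, Ex.ev_mul, Ex.ev_pow, ev_pr, yE_ev, fE_ev,
    ev_two] at h2
  have eav : (AE p.al).ev (fun _ => x) = av p.al x := rfl
  rw [eav] at h2
  rw [ff_of_le hb, AL_small p.al h0 (h1.trans hK.hnx), eav]
  obtain ⟨y, hyd⟩ : ∃ y, y = 1 - x := ⟨_, rfl⟩
  obtain ⟨f, hfd⟩ : ∃ f, f = 1 - v p.be * x := ⟨_, rfl⟩
  rw [← hyd, ← hfd] at h2 ⊢
  rw [← hyd] at hy
  have hP : 0 < y ^ p.d := pow_pos hy _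
  have key : v p.g0 + v p.g1 * f + v p.th * (f / y ^ p.d)
      - 2 * (f ^ 2 * (av p.al x / y) ^ 2 / y)
      = (((v p.g0 + v p.g1 * f) * y ^ p.d + v p.th * f) * y ^ 3
        - 2 * f ^ 2 * av p.al x ^ 2 * y ^ p.d) / (y ^ p.d * y ^ 3) := by
    generalize y ^ p.d = P at hP
    field_simp
  have h3 : 0 ≤ (((v p.g0 + v p.g1 * f) * y ^ p.d + v p.th * f) * y ^ 3
        - 2 * f ^ 2 * av p.al x ^ 2 * y ^ p.d) / (y ^ p.d * y ^ 3) :=
    div_nonneg h2 (by positivity)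
  linarith

theorem A_small {R : ℝ} (hy : 0 < 1 - x) (h0 : 0 ≤ x) (hx1 : x ≤ v p.al.x1)
    (hb : v p.be * x ≤ 1)
    (h2 : 0 ≤ R * (1 - x) ^ 3 - 2 * (1 - v p.be * x) ^ 2 * av p.al x ^ 2) :
    2 * (ff p x ^ 2 * AL p.al x ^ 2 / (1 - x)) ≤ R := by
  have eav : (AE p.al).ev (fun _ => x) = av p.al x := rfl
  rw [ff_of_le hb, AL_small p.al h0 hx1, eav]
  obtain ⟨y, hyd⟩ : ∃ y, y = 1 - x := ⟨_, rfl⟩
  rw [← hyd] at h2 hy ⊢
  have key : R - 2 * ((1 - v p.be * x) ^ 2 * (av p.al x / y) ^ 2 / y)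
      = (R * y ^ 3 - 2 * (1 - v p.be * x) ^ 2 * av p.al x ^ 2) / y ^ 3 := by
    field_simp
  have h3 : 0 ≤ (R * y ^ 3 - 2 * (1 - v p.be * x) ^ 2 * av p.al x ^ 2) / y ^ 3 :=
    div_nonneg h2 (by positivity)
  linarith

theorem A_big {R : ℝ} (hy : 0 < 1 - x) (hx1 : v p.al.x1 < x) (hb : v p.be * x ≤ 1)
    (h2 : 0 ≤ R * (1 - x) - 2 * (1 - v p.be * x) ^ 2 * v p.al.AM ^ 2) :
    2 * (ff p x ^ 2 * AL p.al x ^ 2 / (1 - x)) ≤ R := by
  rw [ff_of_le hb, AL_big p.al (not_le.2 hx1)]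
  obtain ⟨y, hyd⟩ : ∃ y, y = 1 - x := ⟨_, rfl⟩
  rw [← hyd] at h2 hy ⊢
  have key : R - 2 * ((1 - v p.be * x) ^ 2 * v p.al.AM ^ 2 / y)
      = (R * y - 2 * (1 - v p.be * x) ^ 2 * v p.al.AM ^ 2) / y := by
    field_simp
  have h3 : 0 ≤ (R * y - 2 * (1 - v p.be * x) ^ 2 * v p.al.AM ^ 2) / y :=
    div_nonneg h2 hy.le
  linarith

theorem lng_of (hx1 : v p.al.x1 < x) (hbe : 0 < v p.be) (hb : v p.be * x ≤ 1) :
    lng p = true := by
  by_contra hcon
  have h2 := lng_false (Bool.eq_false_iff.2 hcon)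
  nlinarith

theorem A0'_of (hA : OkA p) (hK : OkK p) (h0 : v p.nuh < x) (hx : x ≤ 1) :
    2 * (ff p x ^ 2 * AL p.al x ^ 2 / (1 - x)) ≤ v p.g0 + v p.g1 * ff p x := by
  have hbe : 0 < v p.be := lt_of_lt_of_le (by norm_num) hA.hbe
  have hbe1 : 1 < v p.be := lt_of_lt_of_le (by norm_num) hA.hbe
  have hn := hK.hnuh
  have hg0 := v_nonneg p.g0
  rcases le_total 1 (v p.be * x) with hb | hb
  · rw [ff_of_ge hb]
    simp only [ne_eq, OfNat.ofNat_ne_zero, not_false_eq_true, zero_pow, zero_mul, zero_div,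
      mul_zero, add_zero]
    exact hg0
  · have hx' : x < 1 := by
      by_contra hcon
      push Not at hcon
      nlinarith
    have hy : 0 < 1 - x := by linarith
    by_cases hx1 : x ≤ v p.al.x1
    · refine A_small hy (by linarith) hx1 hb ?_
      have h2 := ck_sound hK.cA0a (iD_l p hbe h0.le) (iD_r p hbe hx1 hb)
      simp only [A0a, Ex.ev_sub, Ex.ev_add, Ex.ev_mul, Ex.ev_pow, ev_pr, yE_ev, fE_ev,
        ev_two] at h2
      rw [ff_of_le hb]
      exact h2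
    · push Not at hx1
      refine A_big hy hx1 hb ?_
      have h2 := ck_sound (hK.cA0b (lng_of hx1 hbe hb)) (iC_l p hbe hx1.le) (iC_r p hbe hb)
      simp only [A0b, Ex.ev_sub, Ex.ev_add, Ex.ev_mul, Ex.ev_pow, ev_pr, yE_ev, fE_ev,
        ev_two] at h2
      rw [ff_of_le hb]
      exact h2

theorem A2_of (hA : OkA p) (hK : OkK p) (h0 : 0 ≤ x) (hx : x ≤ 1) :
    2 * (ff p x ^ 2 * AL p.al x ^ 2 / (1 - x)) ≤
      v p.g0 + v p.g1 * ff p x + v p.th * v p.kap := by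
  have hbe : 0 < v p.be := lt_of_lt_of_le (by norm_num) hA.hbe
  have hbe1 : 1 < v p.be := lt_of_lt_of_le (by norm_num) hA.hbe
  have hg0 := v_nonneg p.g0
  have hkap := mul_nonneg (v_nonneg p.th) (v_nonneg p.kap)
  rcases le_total 1 (v p.be * x) with hb | hb
  · rw [ff_of_ge hb]
    simp only [ne_eq, OfNat.ofNat_ne_zero, not_false_eq_true, zero_pow, zero_mul, zero_div,
      mul_zero, add_zero]
    linarith
  · have hx' : x < 1 := by
      by_contra hcon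
      push Not at hcon
      nlinarith
    have hy : 0 < 1 - x := by linarith
    by_cases hx1 : x ≤ v p.al.x1
    · refine A_small hy h0 hx1 hb ?_
      have h2 := ck_sound hK.cA2a (iE_l p h0) (iE_r p hbe hx1 hb)
      simp only [A2a, Ex.ev_sub, Ex.ev_add, Ex.ev_mul, Ex.ev_pow, ev_pr, yE_ev, fE_ev,
        ev_two] at h2
      rw [ff_of_le hb]
      exact h2
    · push Not at hx1
      refine A_big hy hx1 hb ?_
      have h2 := ck_sound (hK.cA2b (lng_of hx1 hbe hb)) (iC_l p hbe hx1.le) (iC_r p hbe hb)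
      simp only [A2b, Ex.ev_sub, Ex.ev_add, Ex.ev_mul, Ex.ev_pow, ev_pr, yE_ev, fE_ev,
        ev_two] at h2
      rw [ff_of_le hb]
      exact h2

theorem S1_of' (hK : OkK p) (hAf : v p.al.x1 < 1 / 2) (hd : 1 ≤ p.d) {s : ℝ} (hs0 : 0 ≤ s)
    (hs1 : s ≤ v p.al.x1) (h0 : 0 ≤ x) (h1 : x ≤ v p.nuh) (hb : v p.be * x ≤ 1) :
    ff p x / (1 - x) ^ p.d * ((1 - x) ^ (p.d - 1) - (max 0 (1 - x / (1 - s))) ^ (p.d - 1)
      - (AL p.al s - 1) * v p.om)
      ≤ (AL p.al s - 1) * (vz p.k0 + vz p.k1 * ff p x + v p.k2 * x) := by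
  have hnx := hK.hnx
  have hy : 0 < 1 - x := by linarith
  have hs : 0 < 1 - s := by linarith
  have hc := hK.hc
  have hf : 0 ≤ ff p x := ff_nonneg p x
  by_cases hk : p.al.kd = 0
  · have hAL : AL p.al s - 1 = v p.al.c * (s / (1 - s)) := by
      have eav : (AE p.al).ev (fun _ => s) = av p.al s := rfl
      rw [AL_small p.al hs0 hs1, eav, av_eq, if_pos hk]
      field_simp
      ring
    have h2 := ck_sound (hK.cS1 hk) (iN_l p h0) (iN_r p h1)
    simp only [S1E, Ex.ev_sub, Ex.ev_mul, Ex.ev_pow, Ex.ev_x, ev_pr, yE_ev, fE_ev, rE_ev,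
      Ex.ev_nat] at h2
    rw [hAL]
    have h3 := S1_of (f := ff p) (om := v p.om)
      (ka := vz p.k0 + vz p.k1 * ff p x + v p.k2 * x) (kb := 0) (c := v p.al.c) (s := s)
      (δ := v p.al.c * (s / (1 - s))) (x := x) (d := p.d) hf hc h0 (by linarith) hs0 (by linarith)
      le_rfl (by
        rw [ff_of_le hb, div_mul_eq_mul_div, div_le_iff₀ (pow_pos hy _)]
        linarith)
    rw [zero_mul, add_zero] at h3
    exact h3
  · have hAL : AL p.al s - 1 = v p.al.c * s := by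
      have eav : (AE p.al).ev (fun _ => s) = av p.al s := rfl
      rw [AL_small p.al hs0 hs1, eav, av_eq, if_neg hk, mul_div_cancel_left₀ _ hs.ne']
      ring
    have h2 := sound2 (hK.cS2 hk) (a := x) (b := s) (iN_l p h0) (iN_r p h1) (iX_l p hs0)
      (iX_r p hs1)
    have hG := GE_ev (yE * (1 - Ex.x 1)) (yE - Ex.x 1) (r2 x s) (p.d - 1)
    simp only [S1F, Ex.ev_sub, Ex.ev_mul, Ex.ev_pow, Ex.ev_x, ev_pr, yE_ev, fE_ev, rE_ev,
      Ex.ev_one, r2_0, r2_1] at h2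
    simp only [Ex.ev_sub, Ex.ev_mul, Ex.ev_x, yE_ev, Ex.ev_one, r2_0, r2_1] at hG
    obtain ⟨G, hGd⟩ : ∃ G, G = (GE (yE * (1 - Ex.x 1)) (yE - Ex.x 1) (p.d - 1)).ev (r2 x s) :=
      ⟨_, rfl⟩
    rw [← hGd] at h2 hG
    rw [hAL, ff_of_le hb]
    have hm : max 0 (1 - x / (1 - s)) = (1 - x - s) / (1 - s) := by
      have e : 1 - x / (1 - s) = (1 - x - s) / (1 - s) := by
        rw [eq_div_iff hs.ne', sub_mul, div_mul_cancel₀ _ hs.ne']
        ring
      rw [e]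
      exact max_eq_right (div_nonneg (by linarith) hs.le)
    rw [hm]
    obtain ⟨f, hfd⟩ : ∃ f, f = 1 - v p.be * x := ⟨_, rfl⟩
    rw [← hfd] at h2 ⊢
    obtain ⟨R, hR⟩ : ∃ R, R = vz p.k0 + vz p.k1 * f + v p.k2 * x := ⟨_, rfl⟩
    rw [← hR] at h2 ⊢
    obtain ⟨E, hE⟩ : ∃ E, E = p.d - 1 := ⟨_, rfl⟩
    rw [← hE] at h2 hG ⊢
    have hT : 0 < (1 - s) ^ E := pow_pos hs _
    have hP : 0 < (1 - x) ^ p.d := pow_pos hy _
    have hG' : s * x * G = ((1 - x) * (1 - s)) ^ E - (1 - x - s) ^ E := by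
      rw [← hG]
      ring
    have key : v p.al.c * s * R - f / (1 - x) ^ p.d * ((1 - x) ^ E
        - ((1 - x - s) / (1 - s)) ^ E - v p.al.c * s * v p.om)
        = s * (v p.al.c * R * (1 - x) ^ p.d * (1 - s) ^ E - f * (x * G
          - v p.al.c * v p.om * (1 - s) ^ E)) / ((1 - x) ^ p.d * (1 - s) ^ E) := by
      have e1 : s * (v p.al.c * R * (1 - x) ^ p.d * (1 - s) ^ E - f * (x * G
          - v p.al.c * v p.om * (1 - s) ^ E))
          = s * v p.al.c * R * (1 - x) ^ p.d * (1 - s) ^ E - f * (s * x * G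
          - s * v p.al.c * v p.om * (1 - s) ^ E) := by ring
      rw [e1, hG', mul_pow, div_pow]
      generalize (1 - x) ^ p.d = P at hP
      generalize (1 - s) ^ E = T at hT
      field_simp
    have h3 : 0 ≤ s * (v p.al.c * R * (1 - x) ^ p.d * (1 - s) ^ E - f * (x * G
          - v p.al.c * v p.om * (1 - s) ^ E)) / ((1 - x) ^ p.d * (1 - s) ^ E) :=
      div_nonneg (mul_nonneg hs0 h2) (by positivity)
    linarith

theorem K0_of (hK : OkK p) (h0 : 0 ≤ x) :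
    - v p.k3 ≤ vz p.k0 + vz p.k1 * ff p x + v p.k2 * x := by
  have e2 := hK.e2
  have e3 := hK.e3
  have hk2 := v_nonneg p.k2
  have hk3 := v_nonneg p.k3
  have hbe := v_nonneg p.be
  rcases le_total (v p.be * x) 1 with hb | hb
  · rw [ff_of_le hb]
    have h1 := mul_nonneg (by linarith : 0 ≤ 1 - v p.be * x) e2
    have h2 := mul_nonneg h0 e3
    nlinarith
  · rw [ff_of_ge hb]
    have hbe' : 0 < v p.be := by
      by_contra hcon
      push Not at hcon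
      nlinarith
    have h1 : 0 ≤ v p.be * (vz p.k0 + v p.k2 * x + v p.k3) := by
      have h2 := mul_le_mul_of_nonneg_left hb hk2
      nlinarith
    have h2 := nonneg_of_mul_nonneg_right h1 hbe'
    linarith

theorem K1_of (hK : OkK p) (h0 : v p.nuh < x) :
    0 ≤ vz p.k0 + vz p.k1 * ff p x + v p.k2 * x := by
  have e4 := hK.e4
  have e5 := hK.e5
  have hk2 := v_nonneg p.k2
  have hn := hK.hnuh
  have hbe := v_nonneg p.be
  rcases le_total (v p.be * x) 1 with hb | hb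
  · rw [ff_of_le hb]
    have hbe' : 0 < v p.be ∨ v p.be = 0 := hbe.lt_or_eq.imp_right Eq.symm
    have hbn : v p.be * v p.nuh < 1 := by
      rcases hbe' with h | h
      · calc v p.be * v p.nuh < v p.be * x := mul_lt_mul_of_pos_left h0 h
          _ ≤ 1 := hb
      · rw [h]; simp
    have h1 := mul_nonneg (by linarith : 0 ≤ 1 - v p.be * x) e4
    have h2 := mul_nonneg (by linarith : 0 ≤ x - v p.nuh) e5
    have h3 : 0 ≤ (1 - v p.be * v p.nuh) * (vz p.k0 + vz p.k1 * (1 - v p.be * x)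
        + v p.k2 * x) := by
      have e : (1 - v p.be * v p.nuh) * (vz p.k0 + vz p.k1 * (1 - v p.be * x) + v p.k2 * x)
          = (1 - v p.be * x) * (vz p.k0 + vz p.k1 * (1 - v p.be * v p.nuh) + v p.k2 * v p.nuh)
            + (x - v p.nuh) * (vz p.k0 * v p.be + v p.k2) := by ring
      rw [e]
      linarith
    exact nonneg_of_mul_nonneg_right h3 (by linarith)
  · rw [ff_of_ge hb]
    have hbe' : 0 < v p.be := by
      by_contra hcon
      push Not at hcon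
      nlinarith
    have h1 : 0 ≤ v p.be * (vz p.k0 + v p.k2 * x) := by
      have h2 := mul_le_mul_of_nonneg_left hb hk2
      nlinarith
    have h2 := nonneg_of_mul_nonneg_right h1 hbe'
    linarith

end kill

theorem x1_lt {a : Af} (h : okAf a = true) : v a.x1 < 1 / 2 := by
  rw [okAf, Bool.and_eq_true] at h
  have h1 : 2 * a.x1 < 10000 := Nat.le_of_ble_eq_true h.1
  have h2 : (2 * a.x1 : ℝ) < 10000 := by exact_mod_cast h1
  unfold v
  rw [div_lt_iff₀ (by norm_num)]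
  linarith

/-- The kill factor. -/
theorem mugOK_of {p : Pf} (hAf : okAf p.al = true) (hA : OkA p) (hK : OkK p) (hd : 1 ≤ p.d)
    {W A sg θ : ℝ} (hA0 : 0 < A) (hθ : 0 ≤ θ) (hS : Side p W A sg θ) :
    MugOK W A sg (θ / A) (v p.om) (v p.B) (v p.th) (v p.rho) (v p.a1) (v p.m1) (v p.g0) (v p.g1)
      (v p.kap) (vz p.k0) (vz p.k1) (v p.k2) (v p.k3) (v p.F2) (v p.al.x1) (v p.nuh) (AL p.al)
      (ff p) p.d := by
  have hx1 := x1_lt hAf
  have hnx := hK.hnx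
  have hbe : 0 < v p.be := lt_of_lt_of_le (by norm_num) hA.hbe
  have hbx : ∀ x, x ≤ v p.nuh → v p.be * x ≤ 1 := fun x hx => by
    have h1 := mul_le_mul_of_nonneg_left hx hbe.le
    have h2 := hK.hnb
    linarith
  refine ⟨hd, hK.hnuh, by linarith, div_nonneg hθ hA0.le, hK.hth, v_nonneg _, v_nonneg _,
    v_nonneg _, v_nonneg _, v_nonneg _, v_nonneg _, by linarith, ?_, ?_, ?_, ?_, ?_, ?_, ?_, ?_,
    ?_, ?_, ?_, ?_, ?_, ?_, ?_, ?_⟩
  · exact fun x h0 h1 => M1_of hK hd h0 h1 (by linarith) (hbx x h1)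
  · exact fun x h0 h1 => M1'_of hK hd h0 h1 (by linarith) (hbx x h1)
  · intro x h0 h1
    have h2 : ff p x ≤ 1 - v p.be * v p.nuh := by
      have h3 := mul_le_mul_of_nonneg_left h0.le hbe.le
      have h4 := hbx _ le_rfl
      exact max_le (by linarith) (by linarith)
    have h3 := mul_le_mul_of_nonneg_left h2 (v_nonneg p.rho)
    have h4 := mul_le_mul_of_nonneg_left h0.le (v_nonneg p.B)
    have h5 := hK.e1
    linarith
  · exact fun x h0 h1 => M3_of hK hd h0 h1 (by linarith) (hbx x h1)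
  · exact fun x h0 h1 => A0_of hK h0 h1 (by linarith) (hbx x h1)
  · exact fun x h0 h1 => A0'_of hA hK h0 h1
  · exact fun x h0 h1 => A2_of hA hK h0 h1
  · exact fun s x hs0 hs1 h0 h1 => S1_of' hK hx1 hd hs0 hs1 h0 h1 (hbx x h1)
  · exact fun x h0 _ => K0_of hK h0
  · exact fun x h0 _ => K1_of hK h0
  · intro x h0 h1
    have hy : 0 < 1 - x := by linarith
    have h2 := ck_sound hK.cF2 (iN_l p h0) (iN_r p h1)
    simp only [F2E, Ex.ev_sub, Ex.ev_mul, Ex.ev_pow, ev_pr, yE_ev, fE_ev] at h2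
    rw [ff_of_le (hbx x h1), div_le_iff₀ (by positivity)]
    linarith
  · intro x h0 _
    rw [AL_big p.al (not_le.2 h0)]
    exact hK.hAM
  · rw [div_mul_eq_mul_div, le_div_iff₀ hA0]
    exact hS.n1
  · rw [div_mul_eq_mul_div, div_le_iff₀ hA0]
    exact hS.n2
  · rw [div_mul_eq_mul_div, div_le_iff₀ hA0]
    exact hS.n3
  · have e : θ / A * v p.F2 * sg * (2 - v p.al.x1) = (θ * v p.F2 * sg * (2 - v p.al.x1)) / A := by
      ring
    rw [e, div_le_iff₀ hA0]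
    exact hS.n4

/-- What `okPf` says in general. -/
theorem okPf_A {p : Pf} (h : okPf p = true) : okAf p.al = true ∧ OkA p := by
  rw [okPf, Bool.and_eq_true, Bool.and_eq_true] at h
  exact ⟨h.1.1, okA_of h.1.2⟩

/-- **All numeric conditions of a vertex.** -/
theorem vtxG_of {p : Pf} (h : okPf p = true) {W A sg θ : ℝ} (hA0 : 0 < A) (hθ : 0 ≤ θ)
    (hS : v p.om < 1 → 1 ≤ p.d → Side p W A sg θ) :
    VtxG W A sg (θ / A) (v p.om) (v p.um) (v p.X) (v p.C) (v p.nuh) (v p.xi) (AL p.al) (ff p)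
      p.d := by
  obtain ⟨hAf, hA⟩ := okPf_A h
  refine ⟨div_nonneg hθ hA0.le, v_nonneg _, hA.hum0, hA.hum1, v_nonneg _, ff_nonneg p,
    fun x hx => ff_lt_one hA hx, ?_, ?_, fun x h0 h1 hf => prof_of hA h0 h1 hf⟩
  · intro hss
    rcases Nat.eq_zero_or_pos p.d with hd | hd
    · exact hA.hX hd
    · have h1 := hA.hsL hd
      have h2 := hA.ssL hd
      rw [hss] at h2
      linarith
  · intro hd
    rw [okPf, Bool.and_eq_true, Bool.and_eq_true, Bool.or_eq_true, Bool.or_eq_true] at h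
    rcases h.2 with (h1 | h1) | h1
    · have := Nat.le_of_ble_eq_true h1
      omega
    · left
      have h2 := v_le_of h1
      have e : v 10000 = 1 := by unfold v; norm_num
      linarith
    · by_cases hom : 1 ≤ v p.om
      · exact Or.inl hom
      · right
        push Not at hom
        exact ⟨_, _, _, _, _, _, _, _, _, _, _, _, _, _,
          mugOK_of hAf hA (okK_of h1) hd hA0 hθ (hS hom hd)⟩

end

end Pool.Agent.T6A.Chk
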