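import Pool.Agent.T6A.ChkCell
import Pool.Agent.T6A.ChkCover

/-!
# The tables of CERT v3: final form (MP_c6effb_co, helper37)
-/

set_option autoImplicit false

namespace Pool.Agent.T6A.Chk

theorem cover_get {Q Q' : ℕ} (hQ : 1 ≤ Q) {T : List Strip} (h : okCover Q Q' T = true)
    {tot σ : ℝ} (h1 : 1 + v Q - 1 / 10 ^ 6 ≤ tot) (h2 : tot ≤ 1 + v Q') (h3 : 1 / 2 ≤ σ)
    (h4 : σ ≤ 1 + 2 / 10 ^ 6) :
    ∃ t ∈ T, ∃ c ∈ t.cs, v t.w0 ≤ tot / σ - 1 ∧ tot / σ - 1 ≤ v t.w1 ∧ v c.s0 ≤ σ ∧ σ ≤ v c.s1 :=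
  Cover.cover_gen hQ h h1 h2 h3 h4

/-- **The numerical certificate from the tables**: valid menus, strips which cover the range, and
all cells checked. -/
theorem numCertR_of {ms : List Menu} (hms : ∀ M ∈ ms, MOK M.al M.xi 0 M.ps) {T : List Strip}
    {Q Q' : ℕ} (hQ : 1 ≤ Q) (hc : okCover Q Q' T = true) (hT : ∀ t ∈ T, okStrip ms t = true) :
    NumCertR (v Q) (v Q') := by
  refine ⟨1 / 10 ^ 6, 1 / 10 ^ 5, by norm_num, by norm_num, fun tot s h1 h2 h3 h4 => ?_⟩
  obtain ⟨σ, hσ⟩ : ∃ σ, σ = s + 1 / 10 ^ 6 := ⟨_, rfl⟩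
  have h5 : 1 / 2 ≤ σ := by linarith
  have h6 : σ ≤ 1 + 2 / 10 ^ 6 := by linarith
  obtain ⟨t, ht, c, hct, a1, a2, a3, a4⟩ := cover_get hQ hc h1 h2 h5 h6
  have h7 := List.all_eq_true.1 (hT t ht) c hct
  rcases h8 : ms[c.m]? with _ | M
  · rw [h8] at h7
    exact absurd h7 (by simp)
  · rw [h8] at h7
    have h9 := cell_sound (hms M (List.mem_of_getElem? h8)) h7 a1 a2 a3 a4
    have e1 : σ * (tot / σ - 1 + 1) = tot := by
      have : σ ≠ 0 := by linarith
      field_simp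
      ring
    have e2 : σ - 1 / 10 ^ 6 = s := by rw [hσ]; ring
    rwa [e1, e2] at h9

/-- menus checked degree by degree -/
theorem mok_all {al : Af} {xi : ℕ} : ∀ {d : ℕ} {M : List (List Pf)},
    (∀ i l, M[i]? = some l → okDeg al xi (d + i) l = true) → MOK al xi d M := fun h => h

/-- a menu in two parts -/
theorem mok_append {al : Af} {xi : ℕ} : ∀ {M N : List (List Pf)} {d : ℕ}, MOK al xi d M →
    MOK al xi (d + M.length) N → MOK al xi d (M ++ N)
  | [], N, d, _, h2 => by simpa using h2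
  | m :: M, N, d, h1, h2 => by
    rw [List.cons_append]
    refine mok_cons h1.head (mok_append h1.tail ?_)
    rw [List.length_cons] at h2
    rwa [show d + 1 + M.length = d + (M.length + 1) by omega]

/-- strips in two parts -/
theorem strips_append {ms : List Menu} {S T : List Strip} (h1 : S.all (okStrip ms) = true)
    (h2 : ∀ t ∈ T, okStrip ms t = true) : ∀ t ∈ S ++ T, okStrip ms t = true := by
  intro t ht
  rcases List.mem_append.1 ht with h | h
  · exact List.all_eq_true.1 h1 t h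
  · exact h2 t h

end Pool.Agent.T6A.Chk
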