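import Mathlib

/-!
# The clump bound (MP_c6effb_co)

`n b` is the blocked mass at `b`, `cod b c` the common blocked mass, `y b = 1 - n b`. The pair
correlation `((1 - n b - n c + cod b c) / (y b * y c)) ^ d` is at most
`1 + cod b c * slope d (min (n b) (n c))`, and the row sums of `cod` are at most `s * n b`.
-/

set_option autoImplicit false

open Finset

namespace Pool.Agent.T6A

namespace Clump

/-- `(y⁻¹ ^ d - 1) / n` with `y = 1 - n`, without a division by `n`. -/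
noncomputable def slope (d : ℕ) (n : ℝ) : ℝ := ∑ i ∈ range d, ((1 - n)⁻¹) ^ (i + 1)

theorem slope_nonneg (d : ℕ) {n : ℝ} (hn : n < 1) : 0 ≤ slope d n :=
  sum_nonneg fun _ _ => pow_nonneg (inv_nonneg.2 (by linarith)) _

theorem slope_mono (d : ℕ) {m n : ℝ} (hmn : m ≤ n) (hn : n < 1) : slope d m ≤ slope d n := by
  refine sum_le_sum fun i _ => ?_
  have h1 : (0 : ℝ) < 1 - n := by linarith
  have h2 : (0 : ℝ) ≤ (1 - m)⁻¹ := inv_nonneg.2 (by linarith)
  exact pow_le_pow_left₀ h2 (inv_anti₀ h1 (by linarith)) _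

theorem slope_mul (d : ℕ) {n : ℝ} (hn : n < 1) : n * slope d n = ((1 - n)⁻¹) ^ d - 1 := by
  have hy : (1 - n) ≠ 0 := by linarith
  have h1 : n = ((1 - n)⁻¹ - 1) * (1 - n) := by
    rw [sub_mul, inv_mul_cancel₀ hy]; ring
  have h2 : n * slope d n = ((1 - n)⁻¹ - 1) * ∑ i ∈ range d, ((1 - n)⁻¹) ^ i := by
    unfold slope
    rw [mul_sum, mul_sum]
    refine sum_congr rfl fun i _ => ?_
    rw [pow_succ]
    calc n * (((1 - n)⁻¹) ^ i * (1 - n)⁻¹)
        = (((1 - n)⁻¹ - 1) * (1 - n)) * (((1 - n)⁻¹) ^ i * (1 - n)⁻¹) := by rw [← h1]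
      _ = ((1 - n)⁻¹ - 1) * ((1 - n)⁻¹) ^ i * ((1 - n) * (1 - n)⁻¹) := by ring
      _ = _ := by rw [mul_inv_cancel₀ hy, mul_one]
  rw [h2, mul_comm, geom_sum_mul]

/-- The pair correlation: `c` is the point with the smaller blocked mass. -/
theorem pair_le (d : ℕ) {n n' w : ℝ} (h0 : 0 ≤ n') (h1 : n' ≤ n) (h2 : n < 1) (hw0 : 0 ≤ w)
    (hw1 : w ≤ n') (hu : n + n' - w ≤ 1) :
    ((1 - n - n' + w) / ((1 - n) * (1 - n'))) ^ d ≤ 1 + w * slope d n' := by
  have hy : (0 : ℝ) < 1 - n := by linarith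
  have hy' : (0 : ℝ) < 1 - n' := by linarith
  have hyy : (0 : ℝ) < (1 - n) * (1 - n') := mul_pos hy hy'
  have hx0 : 0 ≤ (1 - n - n' + w) / ((1 - n) * (1 - n')) := div_nonneg (by linarith) hyy.le
  rcases h0.eq_or_lt with h | h
  · have hw : w = 0 := by linarith
    have : (1 - n - n' + w) / ((1 - n) * (1 - n')) = 1 := by
      rw [div_eq_one_iff_eq hyy.ne', hw, ← h]; ring
    rw [this, hw]
    simp
  · set t : ℝ := w / n' with ht
    have ht0 : 0 ≤ t := div_nonneg hw0 h.le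
    have ht1 : t ≤ 1 := (div_le_one h).2 hw1
    have hwt : w = t * n' := by rw [ht, div_mul_cancel₀ _ h.ne']
    have hinv : 1 ≤ (1 - n')⁻¹ := (one_le_inv₀ hy').2 (by linarith)
    have hb : (1 - n - n' + w) / ((1 - n) * (1 - n')) ≤ (1 - t) * 1 + t * (1 - n')⁻¹ := by
      rw [div_le_iff₀ hyy]
      have e1 : ((1 - t) * 1 + t * (1 - n')⁻¹) * ((1 - n) * (1 - n'))
          = (1 - t) * ((1 - n) * (1 - n')) + t * (1 - n) * ((1 - n')⁻¹ * (1 - n')) := by ring
      rw [e1, inv_mul_cancel₀ hy'.ne', mul_one, hwt]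
      nlinarith [mul_nonneg (sub_nonneg.2 ht1) (mul_nonneg (h.le.trans h1) h.le),
        mul_nonneg ht0 (sub_nonneg.2 h1)]
    have hconv : ((1 - t) * 1 + t * (1 - n')⁻¹) ^ d ≤ (1 - t) * 1 ^ d + t * ((1 - n')⁻¹) ^ d := by
      have hc := (convexOn_pow d (𝕜 := ℝ)).2 (x := 1) (y := (1 - n')⁻¹) (by
        simp) (by simp only [Set.mem_Ici]; linarith) (sub_nonneg.2 ht1) ht0 (by ring)
      simpa only [smul_eq_mul] using hc
    calc ((1 - n - n' + w) / ((1 - n) * (1 - n'))) ^ d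
        ≤ ((1 - t) * 1 + t * (1 - n')⁻¹) ^ d := pow_le_pow_left₀ hx0 hb d
      _ ≤ (1 - t) * 1 ^ d + t * ((1 - n')⁻¹) ^ d := hconv
      _ = 1 + t * (((1 - n')⁻¹) ^ d - 1) := by rw [one_pow]; ring
      _ = 1 + t * (n' * slope d n') := by rw [slope_mul d (h1.trans_lt h2)]
      _ = 1 + w * slope d n' := by rw [hwt]; ring

/-- The symmetric form. -/
theorem pair_le_half (d : ℕ) {n n' w h h' : ℝ} (hn : 0 ≤ n) (hn' : 0 ≤ n') (h2 : n < 1)
    (h2' : n' < 1) (hw0 : 0 ≤ w) (hw1 : w ≤ n) (hw1' : w ≤ n') (hu : n + n' - w ≤ 1)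
    (hh : 0 ≤ h) (hh' : 0 ≤ h') :
    h * h' * ((1 - n - n' + w) / ((1 - n) * (1 - n'))) ^ d
      ≤ h * h' + w * (h ^ 2 * slope d n) / 2 + w * (h' ^ 2 * slope d n') / 2 := by
  have hs := slope_nonneg d h2
  have hs' := slope_nonneg d h2'
  have amgm : h * h' ≤ (h ^ 2 + h' ^ 2) / 2 := by nlinarith [sq_nonneg (h - h')]
  have hp : 0 ≤ h * h' := mul_nonneg hh hh'
  rcases le_total n' n with hle | hle
  · have h1 := pair_le d hn' hle h2 hw0 hw1' hu
    have h3 := slope_mono d hle h2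
    calc h * h' * ((1 - n - n' + w) / ((1 - n) * (1 - n'))) ^ d
        ≤ h * h' * (1 + w * slope d n') := mul_le_mul_of_nonneg_left h1 hp
      _ = h * h' + h * h' * (w * slope d n') := by ring
      _ ≤ h * h' + (h ^ 2 + h' ^ 2) / 2 * (w * slope d n') := by
          have := mul_le_mul_of_nonneg_right amgm (mul_nonneg hw0 hs')
          linarith
      _ = h * h' + w * (h ^ 2 * slope d n') / 2 + w * (h' ^ 2 * slope d n') / 2 := by ring
      _ ≤ _ := by
          have := mul_le_mul_of_nonneg_left (mul_le_mul_of_nonneg_left h3 (sq_nonneg h)) hw0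
          linarith
  · have h1 := pair_le d hn hle h2' hw0 hw1 (by linarith)
    have h3 := slope_mono d hle h2'
    have e : (1 - n - n' + w) / ((1 - n) * (1 - n')) = (1 - n' - n + w) / ((1 - n') * (1 - n)) := by
      rw [mul_comm (1 - n) (1 - n')]
      congr 1
      ring
    rw [e]
    calc h * h' * ((1 - n' - n + w) / ((1 - n') * (1 - n))) ^ d
        ≤ h * h' * (1 + w * slope d n) := mul_le_mul_of_nonneg_left h1 hp
      _ = h * h' + h * h' * (w * slope d n) := by ring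
      _ ≤ h * h' + (h ^ 2 + h' ^ 2) / 2 * (w * slope d n) := by
          have := mul_le_mul_of_nonneg_right amgm (mul_nonneg hw0 hs)
          linarith
      _ = h * h' + w * (h ^ 2 * slope d n) / 2 + w * (h' ^ 2 * slope d n) / 2 := by ring
      _ ≤ _ := by
          have := mul_le_mul_of_nonneg_left (mul_le_mul_of_nonneg_left h3 (sq_nonneg h')) hw0
          linarith

end Clump

open Clump in
/-- **Clump bound**, abstract form: `n` is the blocked mass, `cod` the common blocked mass. -/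
theorem clump_abs {β : Type*} (S : Finset β) (w h n : β → ℝ) (cod : β → β → ℝ) (s : ℝ) (d : ℕ)
    (hw : ∀ b ∈ S, 0 ≤ w b) (hh : ∀ b ∈ S, 0 ≤ h b) (hn : ∀ b ∈ S, 0 ≤ n b)
    (hy : ∀ b ∈ S, 0 < h b → n b < 1)
    (hc0 : ∀ b ∈ S, ∀ c ∈ S, 0 ≤ cod b c) (hsym : ∀ b ∈ S, ∀ c ∈ S, cod b c = cod c b)
    (hcn : ∀ b ∈ S, ∀ c ∈ S, cod b c ≤ n b) (hun : ∀ b ∈ S, ∀ c ∈ S, n b + n c - cod b c ≤ 1)
    (hs : ∀ b ∈ S, ∑ c ∈ S, w c * cod b c ≤ s * n b) :
    ∑ b ∈ S, ∑ c ∈ S, w b * w c * (h b * h c) *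
        ((1 - n b - n c + cod b c) / ((1 - n b) * (1 - n c))) ^ d
      ≤ (∑ b ∈ S, w b * h b) ^ 2 + s * ∑ b ∈ S, w b * h b ^ 2 * (((1 - n b)⁻¹) ^ d - 1) := by
  -- the weight of the point `b` in the error term
  set g : β → ℝ := fun b => if 0 < h b then h b ^ 2 * slope d (n b) else 0 with hg
  have hg0 : ∀ b ∈ S, 0 ≤ g b := by
    intro b hb
    rw [hg]
    dsimp only
    split_ifs with hpos
    · exact mul_nonneg (sq_nonneg _) (slope_nonneg d (hy b hb hpos))
    · exact le_rfl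
  have hgn : ∀ b ∈ S, n b * g b = h b ^ 2 * (((1 - n b)⁻¹) ^ d - 1) := by
    intro b hb
    rw [hg]
    dsimp only
    split_ifs with hpos
    · rw [← slope_mul d (hy b hb hpos)]; ring
    · have : h b = 0 := le_antisymm (not_lt.1 hpos) (hh b hb)
      rw [this]; ring
  have hterm : ∀ b ∈ S, ∀ c ∈ S, w b * w c * (h b * h c) *
        ((1 - n b - n c + cod b c) / ((1 - n b) * (1 - n c))) ^ d
      ≤ (w b * h b) * (w c * h c) + (w b * g b) * (w c * cod b c) / 2
        + (w c * g c) * (w b * cod c b) / 2 := by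
    intro b hb c hc
    have hww : 0 ≤ w b * w c := mul_nonneg (hw b hb) (hw c hc)
    by_cases hpb : 0 < h b
    · by_cases hpc : 0 < h c
      · have h1 := pair_le_half d (hn b hb) (hn c hc) (hy b hb hpb) (hy c hc hpc) (hc0 b hb c hc)
          (hcn b hb c hc) (by rw [hsym b hb c hc]; exact hcn c hc b hb) (hun b hb c hc)
          (hh b hb) (hh c hc)
        have h2 := mul_le_mul_of_nonneg_left h1 hww
        have e1 : g b = h b ^ 2 * slope d (n b) := by rw [hg]; exact if_pos hpb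
        have e2 : g c = h c ^ 2 * slope d (n c) := by rw [hg]; exact if_pos hpc
        rw [e1, e2, hsym c hc b hb]
        calc w b * w c * (h b * h c) * ((1 - n b - n c + cod b c) / ((1 - n b) * (1 - n c))) ^ d
            = w b * w c * (h b * h c * ((1 - n b - n c + cod b c) / ((1 - n b) * (1 - n c))) ^ d) := by
              ring
          _ ≤ _ := h2
          _ = _ := by ring
      · have hc' : h c = 0 := le_antisymm (not_lt.1 hpc) (hh c hc)
        have a1 := mul_nonneg (mul_nonneg (hw b hb) (hg0 b hb))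
          (mul_nonneg (hw c hc) (hc0 b hb c hc))
        have a2 := mul_nonneg (mul_nonneg (hw c hc) (hg0 c hc))
          (mul_nonneg (hw b hb) (hc0 c hc b hb))
        rw [hc']
        simp only [mul_zero, zero_mul]
        linarith
    · have hb' : h b = 0 := le_antisymm (not_lt.1 hpb) (hh b hb)
      have a1 := mul_nonneg (mul_nonneg (hw b hb) (hg0 b hb))
        (mul_nonneg (hw c hc) (hc0 b hb c hc))
      have a2 := mul_nonneg (mul_nonneg (hw c hc) (hg0 c hc))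
        (mul_nonneg (hw b hb) (hc0 c hc b hb))
      rw [hb']
      simp only [mul_zero, zero_mul]
      linarith
  have hrow : ∑ b ∈ S, ∑ c ∈ S, (w b * g b) * (w c * cod b c)
      ≤ s * ∑ b ∈ S, w b * h b ^ 2 * (((1 - n b)⁻¹) ^ d - 1) := by
    rw [mul_sum]
    refine sum_le_sum fun b hb => ?_
    rw [← mul_sum]
    have h1 := mul_le_mul_of_nonneg_left (hs b hb) (mul_nonneg (hw b hb) (hg0 b hb))
    calc w b * g b * ∑ c ∈ S, w c * cod b c ≤ w b * g b * (s * n b) := h1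
      _ = s * (w b * (n b * g b)) := by ring
      _ = _ := by rw [hgn b hb]; ring
  calc ∑ b ∈ S, ∑ c ∈ S, w b * w c * (h b * h c) *
        ((1 - n b - n c + cod b c) / ((1 - n b) * (1 - n c))) ^ d
      ≤ ∑ b ∈ S, ∑ c ∈ S, ((w b * h b) * (w c * h c) + (w b * g b) * (w c * cod b c) / 2
        + (w c * g c) * (w b * cod c b) / 2) :=
        sum_le_sum fun b hb => sum_le_sum fun c hc => hterm b hb c hc
    _ = (∑ b ∈ S, w b * h b) ^ 2 + (∑ b ∈ S, ∑ c ∈ S, (w b * g b) * (w c * cod b c)) / 2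
        + (∑ b ∈ S, ∑ c ∈ S, (w b * g b) * (w c * cod b c)) / 2 := by
        have e1 : ∑ b ∈ S, ∑ c ∈ S, (w c * g c) * (w b * cod c b) / 2
            = (∑ b ∈ S, ∑ c ∈ S, (w b * g b) * (w c * cod b c)) / 2 := by
          rw [sum_comm, sum_div]
          exact sum_congr rfl fun b _ => by rw [sum_div]
        have e2 : ∑ b ∈ S, ∑ c ∈ S, (w b * g b) * (w c * cod b c) / 2
            = (∑ b ∈ S, ∑ c ∈ S, (w b * g b) * (w c * cod b c)) / 2 := by
          rw [sum_div]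
          exact sum_congr rfl fun b _ => by rw [sum_div]
        simp only [sum_add_distrib]
        rw [e1, e2, sq, sum_mul_sum]
    _ ≤ _ := by linarith

open Clump in
/-- **Clump bound** for a law `μ` on `α`; `N b` is the set of the blocked points of `b`. -/
theorem clump_law {α β : Type*} [Fintype α] [DecidableEq α] (μ : α → ℝ) (hμ : ∀ a, 0 ≤ μ a)
    (hμ1 : ∑ a, μ a ≤ 1) (N : β → Finset α) (S : Finset β) (w h : β → ℝ) (s : ℝ) (d : ℕ)
    (hw : ∀ b ∈ S, 0 ≤ w b) (hh : ∀ b ∈ S, 0 ≤ h b)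
    (hy : ∀ b ∈ S, 0 < h b → ∑ a ∈ N b, μ a < 1)
    (hs : ∀ b ∈ S, ∑ c ∈ S, w c * ∑ a ∈ N b ∩ N c, μ a ≤ s * ∑ a ∈ N b, μ a) :
    ∑ b ∈ S, ∑ c ∈ S, w b * w c * (h b * h c) *
        ((1 - (∑ a ∈ N b, μ a) - (∑ a ∈ N c, μ a) + ∑ a ∈ N b ∩ N c, μ a)
          / ((1 - ∑ a ∈ N b, μ a) * (1 - ∑ a ∈ N c, μ a))) ^ d
      ≤ (∑ b ∈ S, w b * h b) ^ 2
        + s * ∑ b ∈ S, w b * h b ^ 2 * (((1 - ∑ a ∈ N b, μ a)⁻¹) ^ d - 1) := by
  refine clump_abs S w h (fun b => ∑ a ∈ N b, μ a) (fun b c => ∑ a ∈ N b ∩ N c, μ a) s d hw hh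
    (fun b _ => sum_nonneg fun a _ => hμ a) hy (fun b _ c _ => sum_nonneg fun a _ => hμ a)
    (fun b _ c _ => by rw [inter_comm])
    (fun b _ c _ => sum_le_sum_of_subset_of_nonneg inter_subset_left fun a _ _ => hμ a)
    (fun b _ c _ => ?_) hs
  have h1 := sum_union_inter (s₁ := N b) (s₂ := N c) (f := μ)
  have h2 : ∑ a ∈ N b ∪ N c, μ a ≤ ∑ a, μ a :=
    sum_le_sum_of_subset_of_nonneg (subset_univ _) fun a _ _ => hμ a
  linarith

/-- The same with `c`-neighbourhoods in a second weighted set: if every `a` is blocked for a mass at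
most `s`, then the hypothesis on the row sums holds. -/
theorem cod_row {α β : Type*} [DecidableEq α] (μ : α → ℝ) (hμ : ∀ a, 0 ≤ μ a)
    (N : β → Finset α) (S : Finset β) (w : β → ℝ) (s : ℝ)
    (hs : ∀ a, ∑ c ∈ S with a ∈ N c, w c ≤ s) (b : β) :
    ∑ c ∈ S, w c * ∑ a ∈ N b ∩ N c, μ a ≤ s * ∑ a ∈ N b, μ a := by
  have e : ∑ c ∈ S, w c * ∑ a ∈ N b ∩ N c, μ a
      = ∑ a ∈ N b, μ a * ∑ c ∈ S with a ∈ N c, w c := by
    have e1 : ∀ c, w c * ∑ a ∈ N b ∩ N c, μ a = ∑ a ∈ N b, if a ∈ N c then w c * μ a else 0 := by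
      intro c
      rw [mul_sum, ← sum_filter, filter_mem_eq_inter]
    simp only [e1]
    rw [sum_comm]
    refine sum_congr rfl fun a _ => ?_
    rw [mul_sum, sum_filter]
    exact sum_congr rfl fun c _ => by split_ifs <;> ring
  rw [e, mul_sum]
  refine sum_le_sum fun a _ => ?_
  rw [mul_comm s]
  exact mul_le_mul_of_nonneg_left (hs a) (hμ a)

end Pool.Agent.T6A
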