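import Mathlib

/-!
# Greedy embedding into the complement of a graph with a sparse cluster structure

`G` is a graph of maximum degree at most `De`; the vertices outside `Z` are placed into the clusters
`C (c v)`, the vertices of `Z` into the union `U` of the clusters in `A`, edges of `G` to non-edges of
`H`.
-/

set_option autoImplicit false
set_option linter.unusedSectionVars false

open Finset

namespace Pool.Agent.T6A

namespace EMB

section

variable {V W ι : Type*}

open Classical in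
/-- the number of pairs in `S × T` which are edges -/
noncomputable def eD (H : SimpleGraph W) (S T : Finset W) : ℕ :=
  ((S ×ˢ T).filter fun p => H.Adj p.1 p.2).card

open Classical in
/-- the number of neighbours of `x` in `Y` -/
noncomputable def dg (H : SimpleGraph W) (Y : Finset W) (x : W) : ℕ :=
  (Y.filter fun y => H.Adj x y).card

open Classical in
theorem eD_eq (H : SimpleGraph W) (S T : Finset W) : eD H S T = ∑ x ∈ S, dg H T x := by
  unfold eD dg
  rw [card_filter, sum_product]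
  refine sum_congr rfl fun x _ => ?_
  rw [card_filter]

open Classical in
/-- Markov's inequality: few vertices of `X` have many neighbours in `Y`. -/
theorem atyp (H : SimpleGraph W) (X Y : Finset W) {r : ℝ} (hr : 0 < r)
    (h : (eD H X Y : ℝ) ≤ r ^ 2 * ((X.card : ℝ) * Y.card)) :
    ((X.filter fun x => r * (Y.card : ℝ) < dg H Y x).card : ℝ) ≤ r * X.card := by
  rcases Nat.eq_zero_or_pos Y.card with hY | hY
  · have hY' : Y = ∅ := card_eq_zero.1 hY
    have : (X.filter fun x => r * (Y.card : ℝ) < dg H Y x) = ∅ := by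
      refine filter_false_of_mem fun x _ => ?_
      subst hY'
      simp [dg]
    rw [this, card_empty, Nat.cast_zero]
    positivity
  · have hY' : (0 : ℝ) < Y.card := Nat.cast_pos.2 hY
    set F := X.filter fun x => r * (Y.card : ℝ) < dg H Y x with hF
    have h1 : (F.card : ℝ) * (r * Y.card) ≤ ∑ x ∈ F, (dg H Y x : ℝ) := by
      rw [← nsmul_eq_mul, ← sum_const]
      exact sum_le_sum fun x hx => (mem_filter.1 hx).2.le
    have h2 : ∑ x ∈ F, (dg H Y x : ℝ) ≤ ∑ x ∈ X, (dg H Y x : ℝ) :=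
      sum_le_sum_of_subset_of_nonneg (filter_subset _ _) fun x _ _ => Nat.cast_nonneg _
    have h3 : (∑ x ∈ X, (dg H Y x : ℝ)) = (eD H X Y : ℝ) := by
      rw [eD_eq, Nat.cast_sum]
    have h4 : (F.card : ℝ) * (r * Y.card) ≤ (r * X.card) * (r * Y.card) := by
      calc (F.card : ℝ) * (r * Y.card) ≤ (eD H X Y : ℝ) := h3 ▸ h1.trans h2
        _ ≤ _ := h
        _ = _ := by ring
    exact le_of_mul_le_mul_right h4 (by positivity)

open Classical in
/-- A choice in `X` which avoids `used` and finitely many small sets. -/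
theorem pick {κ : Type*} (X used : Finset W) (s : Finset κ) (bad : κ → Finset W) (b : ℝ)
    (hb : ∀ k ∈ s, ((X ∩ bad k).card : ℝ) ≤ b)
    (h : ((X ∩ used).card : ℝ) + s.card * b < X.card) :
    ∃ x ∈ X, x ∉ used ∧ ∀ k ∈ s, x ∉ bad k := by
  by_contra hcon
  push Not at hcon
  have hsub : X ⊆ (X ∩ used) ∪ s.biUnion fun k => X ∩ bad k := by
    intro x hx
    by_cases hxu : x ∈ used
    · exact mem_union_left _ (mem_inter.2 ⟨hx, hxu⟩)
    · obtain ⟨k, hk, hxk⟩ := hcon x hx hxu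
      exact mem_union_right _ (mem_biUnion.2 ⟨k, hk, mem_inter.2 ⟨hx, hxk⟩⟩)
  have h1 : (X.card : ℝ) ≤ ((X ∩ used).card : ℝ) + ((s.biUnion fun k => X ∩ bad k).card : ℝ) := by
    exact_mod_cast (card_le_card hsub).trans (card_union_le _ _)
  have h2 : ((s.biUnion fun k => X ∩ bad k).card : ℝ) ≤ s.card * b := by
    calc ((s.biUnion fun k => X ∩ bad k).card : ℝ) ≤ ((∑ k ∈ s, (X ∩ bad k).card : ℕ) : ℝ) := by
          exact_mod_cast card_biUnion_le
      _ = ∑ k ∈ s, ((X ∩ bad k).card : ℝ) := by push_cast; rfl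
      _ ≤ ∑ _k ∈ s, b := sum_le_sum hb
      _ = s.card * b := by rw [sum_const, nsmul_eq_mul]
  linarith

/-- A partial embedding, defined on `P` (which contains the hubs, the vertices in `Q`). -/
structure Part (G : SimpleGraph V) (H : SimpleGraph W) (C : ι → Finset W) (U : Finset W)
    (Z Q : Finset V) (c : V → ι) (r : ℝ) (P : Finset V) (f : V → W) : Prop where
  inj : ∀ u ∈ P, ∀ v ∈ P, f u = f v → u = v
  adj : ∀ u ∈ P, ∀ v ∈ P, G.Adj u v → ¬ H.Adj (f u) (f v)
  inC : ∀ v ∈ P, v ∉ Z → f v ∈ C (c v)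
  inU : ∀ v ∈ P, v ∈ Z → f v ∈ U
  typC : ∀ v ∈ P, v ∉ Z → ∀ w, w ∉ Z → w ∉ Q → G.Adj v w →
    (dg H (C (c w)) (f v) : ℝ) ≤ r * (C (c w)).card
  typU : ∀ v ∈ P, ∀ z ∈ Z, G.Adj v z → (dg H U (f v) : ℝ) ≤ r * U.card

variable [DecidableEq V]

/-- Extension of a partial embedding by one vertex. -/
theorem Part.ext {G : SimpleGraph V} {H : SimpleGraph W} {C : ι → Finset W} {U : Finset W}
    {Z Q : Finset V} {c : V → ι} {r : ℝ} {P : Finset V} {f : V → W} (h : Part G H C U Z Q c r P f)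
    {v : V} (hv : v ∉ P) {x : W} (hx : ∀ u ∈ P, f u ≠ x)
    (hadj : ∀ u ∈ P, G.Adj v u → ¬ H.Adj (f u) x)
    (hC : v ∉ Z → x ∈ C (c v)) (hU : v ∈ Z → x ∈ U)
    (htC : v ∉ Z → ∀ w, w ∉ Z → w ∉ Q → G.Adj v w →
      (dg H (C (c w)) x : ℝ) ≤ r * (C (c w)).card)
    (htU : ∀ z ∈ Z, G.Adj v z → (dg H U x : ℝ) ≤ r * U.card) :
    Part G H C U Z Q c r (insert v P) (Function.update f v x) := by
  have hf : ∀ u ∈ P, Function.update f v x u = f u := by
    intro u hu
    exact Function.update_of_ne (fun e : u = v => hv (e ▸ hu)) _ _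
  have hfv : Function.update f v x v = x := Function.update_self _ _ _
  constructor
  · intro u hu w hw huw
    rcases mem_insert.1 hu with rfl | hu' <;> rcases mem_insert.1 hw with rfl | hw'
    · rfl
    · rw [hfv, hf w hw'] at huw
      exact absurd huw.symm (hx w hw')
    · rw [hfv, hf u hu'] at huw
      exact absurd huw (hx u hu')
    · rw [hf u hu', hf w hw'] at huw
      exact h.inj u hu' w hw' huw
  · intro u hu w hw huw
    rcases mem_insert.1 hu with rfl | hu' <;> rcases mem_insert.1 hw with rfl | hw'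
    · exact absurd huw (G.loopless.irrefl _)
    · rw [hfv, hf w hw']
      exact fun e => hadj w hw' huw e.symm
    · rw [hfv, hf u hu']
      exact hadj u hu' huw.symm
    · rw [hf u hu', hf w hw']
      exact h.adj u hu' w hw' huw
  · intro u hu hZ
    rcases mem_insert.1 hu with rfl | hu'
    · rw [hfv]; exact hC hZ
    · rw [hf u hu']; exact h.inC u hu' hZ
  · intro u hu hZ
    rcases mem_insert.1 hu with rfl | hu'
    · rw [hfv]; exact hU hZ
    · rw [hf u hu']; exact h.inU u hu' hZ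
  · intro u hu hZ w hw hwQ huw
    rcases mem_insert.1 hu with rfl | hu'
    · rw [hfv]; exact htC hZ w hw hwQ huw
    · rw [hf u hu']; exact h.typC u hu' hZ w hw hwQ huw
  · intro u hu z hz huz
    rcases mem_insert.1 hu with rfl | hu'
    · rw [hfv]; exact htU z hz huz
    · rw [hf u hu']; exact h.typU u hu' z hz huz

open Classical in
/-- The neighbours of `v`. -/
noncomputable def nb [Fintype V] (G : SimpleGraph V) (v : V) : Finset V :=
  univ.filter fun u => G.Adj v u

open Classical in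
/-- One step outside `Z`. -/
theorem step_out [Fintype V] {G : SimpleGraph V} {H : SimpleGraph W} {C : ι → Finset W}
    {U : Finset W} {Z Q : Finset V} {c : V → ι} {De : ℕ} {e2 r : ℝ} (he : 0 < e2) (hr : 0 < r)
    (hDr : 8 * (De : ℝ) * r ≤ e2)
    (hdeg : ∀ v, v ∉ Q → (nb G v).card ≤ De)
    (hdisj : ∀ i j, i ≠ j → Disjoint (C i) (C j)) (hpos : ∀ i, 0 < (C i).card)
    (h1 : ∀ u v, G.Adj u v → u ∉ Z → v ∉ Z → u ∉ Q → v ∉ Q →
      (eD H (C (c u)) (C (c v)) : ℝ) ≤ r ^ 2 * (((C (c u)).card : ℝ) * (C (c v)).card))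
    (h2 : ∀ i, ((univ.filter fun v => v ∉ Z ∧ c v = i).card : ℝ) ≤ (1 - e2) * (C i).card)
    (h3 : ∀ z ∈ Z, ∀ u, u ∉ Z → u ∉ Q → G.Adj z u →
      (eD H (C (c u)) U : ℝ) ≤ r ^ 2 * (((C (c u)).card : ℝ) * U.card))
    {P : Finset V} {f : V → W} (h : Part G H C U Z Q c r P f) (hPZ : ∀ u ∈ P, u ∉ Z)
    (hQP : ∀ u ∈ Q, u ∈ P) {v : V} (hv : v ∉ P) (hvZ : v ∉ Z) :
    ∃ g, Part G H C U Z Q c r (insert v P) g := by
  have hvQ : v ∉ Q := fun hq => hv (hQP v hq)
  set X := C (c v) with hX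
  have hXpos : (0 : ℝ) < X.card := Nat.cast_pos.2 (hpos _)
  set used := P.image f with hused
  set bad : V → Finset W := fun w =>
    (if w ∈ P then X.filter (fun x => H.Adj (f w) x) else ∅) ∪
    (if w ∈ Z then X.filter (fun x => r * (U.card : ℝ) < dg H U x)
      else if w ∈ Q then ∅
      else X.filter (fun x => r * ((C (c w)).card : ℝ) < dg H (C (c w)) x)) with hbad
  have hb : ∀ w ∈ nb G v, ((X ∩ bad w).card : ℝ) ≤ 2 * (r * X.card) := by
    intro w hw
    have hvw : G.Adj v w := (mem_filter.1 hw).2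
    have hA : ((if w ∈ P then X.filter (fun x => H.Adj (f w) x) else ∅ : Finset W).card : ℝ)
        ≤ r * X.card := by
      by_cases hwP : w ∈ P
      · rw [if_pos hwP]
        exact h.typC w hwP (hPZ w hwP) v hvZ hvQ hvw.symm
      · rw [if_neg hwP, card_empty, Nat.cast_zero]
        positivity
    have hB : ((if w ∈ Z then X.filter (fun x => r * (U.card : ℝ) < dg H U x)
      else if w ∈ Q then ∅
      else X.filter (fun x => r * ((C (c w)).card : ℝ) < dg H (C (c w)) x) : Finset W).card : ℝ)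
        ≤ r * X.card := by
      by_cases hwZ : w ∈ Z
      · rw [if_pos hwZ]
        exact atyp H X U hr (h3 w hwZ v hvZ hvQ hvw.symm)
      · rw [if_neg hwZ]
        by_cases hwQ : w ∈ Q
        · rw [if_pos hwQ, card_empty, Nat.cast_zero]
          positivity
        · rw [if_neg hwQ]
          exact atyp H X _ hr (h1 v w hvw hvZ hwZ hvQ hwQ)
    have hC : ((X ∩ bad w).card : ℝ) ≤ ((bad w).card : ℝ) :=
      Nat.cast_le.2 (card_le_card inter_subset_right)
    have hD : ((bad w).card : ℝ) ≤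
        ((if w ∈ P then X.filter (fun x => H.Adj (f w) x) else ∅ : Finset W).card : ℝ) +
        ((if w ∈ Z then X.filter (fun x => r * (U.card : ℝ) < dg H U x)
      else if w ∈ Q then ∅
      else X.filter (fun x => r * ((C (c w)).card : ℝ) < dg H (C (c w)) x) : Finset W).card : ℝ) := by
      exact_mod_cast card_union_le _ _
    linarith
  have hu : ((X ∩ used).card : ℝ) ≤ (1 - e2) * X.card := by
    refine le_trans ?_ (h2 (c v))
    have hsub : X ∩ used ⊆ (univ.filter fun u => u ∉ Z ∧ c u = c v).image f := by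
      intro x hx
      obtain ⟨hxX, hxu⟩ := mem_inter.1 hx
      obtain ⟨u, huP, rfl⟩ := mem_image.1 hxu
      refine mem_image.2 ⟨u, mem_filter.2 ⟨mem_univ _, hPZ u huP, ?_⟩, rfl⟩
      by_contra hne
      exact (disjoint_left.1 (hdisj _ _ hne)) (h.inC u huP (hPZ u huP)) hxX
    exact_mod_cast (card_le_card hsub).trans card_image_le
  obtain ⟨x, hxX, hxu, hxb⟩ := pick X used (nb G v) bad (2 * (r * X.card)) hb (by
    have hd : ((nb G v).card : ℝ) ≤ De := Nat.cast_le.2 (hdeg v hvQ)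
    have : ((nb G v).card : ℝ) * (2 * (r * X.card)) ≤ De * (2 * (r * X.card)) :=
      mul_le_mul_of_nonneg_right hd (by positivity)
    have h8 : De * (2 * (r * X.card)) ≤ e2 / 4 * X.card := by
      have := mul_le_mul_of_nonneg_right hDr hXpos.le
      nlinarith
    nlinarith [mul_pos he hXpos])
  refine ⟨_, h.ext hv (x := x) (fun u hu' e => hxu (mem_image.2 ⟨u, hu', e⟩)) ?_ (fun _ => hxX)
    (fun hZ => absurd hZ hvZ) ?_ ?_⟩
  · intro u huP hvu hadj
    refine hxb u (mem_filter.2 ⟨mem_univ _, hvu⟩) (mem_union_left _ ?_)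
    rw [if_pos huP]
    exact mem_filter.2 ⟨hxX, hadj⟩
  · intro _ w hwZ hwQ hvw
    by_contra hlt
    refine hxb w (mem_filter.2 ⟨mem_univ _, hvw⟩) (mem_union_right _ ?_)
    rw [if_neg hwZ, if_neg hwQ]
    exact mem_filter.2 ⟨hxX, not_le.1 hlt⟩
  · intro z hz hvz
    by_contra hlt
    refine hxb z (mem_filter.2 ⟨mem_univ _, hvz⟩) (mem_union_right _ ?_)
    rw [if_pos hz]
    exact mem_filter.2 ⟨hxX, not_le.1 hlt⟩

open Classical in
/-- One step in `Z`. -/
theorem step_in [Fintype V] {G : SimpleGraph V} {H : SimpleGraph W} {C : ι → Finset W}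
    {U : Finset W} {Z Q : Finset V} {c : V → ι} {De : ℕ} {e2 r : ℝ} (he : 0 < e2) (hr : 0 < r)
    (hDr : 8 * (De : ℝ) * r ≤ e2)
    (hdeg : ∀ v, v ∉ Q → (nb G v).card ≤ De)
    (hUU : (eD H U U : ℝ) ≤ r ^ 2 * ((U.card : ℝ) * U.card))
    (hUpos : 0 < U.card)
    {S : Finset V} (hS : (S.card : ℝ) ≤ (1 - e2) * U.card)
    {P : Finset V} {f : V → W} (h : Part G H C U Z Q c r P f)
    (hSP : ∀ u ∈ P, f u ∈ U → u ∈ S) (hQP : ∀ u ∈ Q, u ∈ P)
    {v : V} (hv : v ∉ P) (hvZ : v ∈ Z) :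
    ∃ g, Part G H C U Z Q c r (insert v P) g ∧ ∀ u ∈ P, g u = f u := by
  have hvQ : v ∉ Q := fun hq => hv (hQP v hq)
  have hUpos' : (0 : ℝ) < U.card := Nat.cast_pos.2 hUpos
  set used := P.image f with hused
  set bad : V → Finset W := fun w =>
    (if w ∈ P then U.filter (fun x => H.Adj (f w) x) else ∅) ∪
    (U.filter (fun x => r * (U.card : ℝ) < dg H U x)) with hbad
  have hb : ∀ w ∈ nb G v, ((U ∩ bad w).card : ℝ) ≤ 2 * (r * U.card) := by
    intro w hw
    have hvw : G.Adj v w := (mem_filter.1 hw).2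
    have hA : ((if w ∈ P then U.filter (fun x => H.Adj (f w) x) else ∅ : Finset W).card : ℝ)
        ≤ r * U.card := by
      by_cases hwP : w ∈ P
      · rw [if_pos hwP]
        exact h.typU w hwP v hvZ hvw.symm
      · rw [if_neg hwP, card_empty, Nat.cast_zero]
        positivity
    have hB : ((U.filter (fun x => r * (U.card : ℝ) < dg H U x) : Finset W).card : ℝ)
        ≤ r * U.card := atyp H U U hr hUU
    have hC : ((U ∩ bad w).card : ℝ) ≤ ((bad w).card : ℝ) :=
      Nat.cast_le.2 (card_le_card inter_subset_right)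
    have hD : ((bad w).card : ℝ) ≤
        ((if w ∈ P then U.filter (fun x => H.Adj (f w) x) else ∅ : Finset W).card : ℝ) +
        ((U.filter (fun x => r * (U.card : ℝ) < dg H U x) : Finset W).card : ℝ) := by
      exact_mod_cast card_union_le _ _
    linarith
  have hu : ((U ∩ used).card : ℝ) ≤ (1 - e2) * U.card := by
    refine le_trans ?_ hS
    have hsub : U ∩ used ⊆ S.image f := by
      intro x hx
      obtain ⟨hxX, hxu⟩ := mem_inter.1 hx
      obtain ⟨u, huP, rfl⟩ := mem_image.1 hxu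
      exact mem_image.2 ⟨u, hSP u huP hxX, rfl⟩
    exact_mod_cast (card_le_card hsub).trans card_image_le
  obtain ⟨x, hxX, hxu, hxb⟩ := pick U used (nb G v) bad (2 * (r * U.card)) hb (by
    have hd : ((nb G v).card : ℝ) ≤ De := Nat.cast_le.2 (hdeg v hvQ)
    have : ((nb G v).card : ℝ) * (2 * (r * U.card)) ≤ De * (2 * (r * U.card)) :=
      mul_le_mul_of_nonneg_right hd (by positivity)
    have h8 : De * (2 * (r * U.card)) ≤ e2 / 4 * U.card := by
      have := mul_le_mul_of_nonneg_right hDr hUpos'.le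
      nlinarith
    nlinarith [mul_pos he hUpos'])
  refine ⟨_, h.ext hv (x := x) (fun u hu' e => hxu (mem_image.2 ⟨u, hu', e⟩)) ?_
    (fun hZ => absurd hvZ hZ) (fun _ => hxX) (fun hZ => absurd hvZ hZ) ?_,
    fun u huP => Function.update_of_ne (fun e : u = v => hv (e ▸ huP)) _ _⟩
  · intro u huP hvu hadj
    refine hxb u (mem_filter.2 ⟨mem_univ _, hvu⟩) (mem_union_left _ ?_)
    rw [if_pos huP]
    exact mem_filter.2 ⟨hxX, hadj⟩
  · intro z hz hvz
    by_contra hlt
    exact hxb z (mem_filter.2 ⟨mem_univ _, hvz⟩) (mem_union_right _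
      (mem_filter.2 ⟨hxX, not_le.1 hlt⟩))

end

end EMB

open EMB in
open Classical in
/-- **Greedy embedding with hubs.** The hubs, the vertices of `Q`, have given positions `f₀ q` in
`C (c q)`; their degrees are arbitrary. The other vertices have degrees at most `De`; those outside
`Z` go to the clusters `C (c v)`, those of `Z` to the union `U` of the clusters `C i`, `i ∈ A`. -/
theorem emb_hub (De : ℕ) (e2 r : ℝ) (he : 0 < e2) (hr : 0 < r) (hDr : 8 * (De : ℝ) * r ≤ e2)
    {V W ι : Type} [Fintype V] (G : SimpleGraph V) (H : SimpleGraph W)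
    (C : ι → Finset W) (hdisj : ∀ i j, i ≠ j → Disjoint (C i) (C j)) (hpos : ∀ i, 0 < (C i).card)
    (A : Finset ι) (Z Q : Finset V) (c : V → ι) (f₀ : V → W) (hQZ : ∀ q ∈ Q, q ∉ Z)
    (hdeg : ∀ v, v ∉ Q → (univ.filter fun u => G.Adj v u).card ≤ De)
    (h1 : ∀ u v, G.Adj u v → u ∉ Z → v ∉ Z → u ∉ Q → v ∉ Q →
      (eD H (C (c u)) (C (c v)) : ℝ) ≤ r ^ 2 * ((C (c u)).card * (C (c v)).card))
    (h2 : ∀ i, ((univ.filter fun v => v ∉ Z ∧ c v = i).card : ℝ) ≤ (1 - e2) * (C i).card)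
    (h3 : ∀ z ∈ Z, ∀ u, u ∉ Z → u ∉ Q → G.Adj z u → c u ∈ A)
    (h4 : ∀ i ∈ A, (eD H (C i) (A.biUnion C) : ℝ) ≤ r ^ 2 * ((C i).card * (A.biUnion C).card))
    (h5 : ((univ.filter fun v => v ∈ Z ∨ c v ∈ A).card : ℝ) ≤ (1 - e2) * (A.biUnion C).card)
    (q1 : ∀ q ∈ Q, ∀ q' ∈ Q, f₀ q = f₀ q' → q = q') (q2 : ∀ q ∈ Q, f₀ q ∈ C (c q))
    (q3 : ∀ q ∈ Q, ∀ q' ∈ Q, G.Adj q q' → ¬ H.Adj (f₀ q) (f₀ q'))
    (q4 : ∀ q ∈ Q, ∀ v, v ∉ Z → v ∉ Q → G.Adj q v →
      (dg H (C (c v)) (f₀ q) : ℝ) ≤ r * (C (c v)).card)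
    (q5 : ∀ q ∈ Q, ∀ z ∈ Z, G.Adj q z →
      (dg H (A.biUnion C) (f₀ q) : ℝ) ≤ r * (A.biUnion C).card) :
    ∃ f : V → W, Function.Injective f ∧ (∀ u v, G.Adj u v → ¬ H.Adj (f u) (f v)) ∧
      (∀ v, v ∉ Z → f v ∈ C (c v)) ∧ ∀ v ∈ Z, f v ∈ A.biUnion C := by
  set U := A.biUnion C with hU
  have hdeg' : ∀ v, v ∉ Q → (nb G v).card ≤ De := fun v hv => hdeg v hv
  -- the vertices outside `Z`
  have hout : ∀ P : Finset V, (∀ u ∈ P, u ∉ Z) → (∀ u ∈ P, u ∉ Q) →
      ∃ f : V → W, Part G H C U Z Q c r (Q ∪ P) f := by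
    intro P
    induction P using Finset.induction_on with
    | empty =>
      intro _ _
      refine ⟨f₀, ?_⟩
      rw [union_empty]
      exact ⟨q1, q3, fun v hv _ => q2 v hv, fun v hv hZ => absurd hZ (hQZ v hv),
        fun v hv _ w hwZ hwQ hvw => q4 v hv w hwZ hwQ hvw, fun v hv z hz hvz => q5 v hv z hz hvz⟩
    | insert v P hv ih =>
      intro hPZ hPQ
      obtain ⟨f, hf⟩ := ih (fun u hu => hPZ u (mem_insert_of_mem hu))
        fun u hu => hPQ u (mem_insert_of_mem hu)
      have hvZ : v ∉ Z := hPZ v (mem_insert_self _ _)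
      have hvQ : v ∉ Q := hPQ v (mem_insert_self _ _)
      rw [union_insert]
      refine step_out he hr hDr hdeg' hdisj hpos h1 h2 ?_ hf
        (fun u hu => ?_) (fun u hu => mem_union_left _ hu) (fun h => ?_) hvZ
      · intro z hz u hu huQ hzu
        exact h4 _ (h3 z hz u hu huQ hzu)
      · rcases mem_union.1 hu with hu | hu
        · exact hQZ u hu
        · exact hPZ u (mem_insert_of_mem hu)
      · rcases mem_union.1 h with h | h
        · exact hvQ h
        · exact hv h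
  obtain ⟨f1, hf1⟩ := hout (univ.filter fun v => v ∉ Z ∧ v ∉ Q)
    (fun u hu => (mem_filter.1 hu).2.1) fun u hu => (mem_filter.1 hu).2.2
  have hP : Q ∪ (univ.filter fun v => v ∉ Z ∧ v ∉ Q) = univ.filter fun v => v ∉ Z := by
    ext v
    simp only [mem_union, mem_filter, mem_univ, true_and]
    constructor
    · rintro (h | h)
      · exact hQZ v h
      · exact h.1
    · intro h
      by_cases hq : v ∈ Q
      · exact Or.inl hq
      · exact Or.inr ⟨h, hq⟩
  rw [hP] at hf1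
  have hUU : (eD H U U : ℝ) ≤ r ^ 2 * ((U.card : ℝ) * U.card) := by
    have hcard : ((U.card : ℕ) : ℝ) = ∑ i ∈ A, ((C i).card : ℝ) := by
      rw [hU, card_biUnion fun i _ j _ hij => hdisj i j hij]
      push_cast
      rfl
    have h6 : eD H U U = ∑ i ∈ A, eD H (C i) U := by
      rw [eD_eq]
      conv_lhs => rw [show U = A.biUnion C from hU]
      rw [sum_biUnion fun i _ j _ hij => hdisj i j hij]
      exact sum_congr rfl fun i _ => (eD_eq H (C i) _).symm
    rw [h6]
    push_cast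
    calc ∑ i ∈ A, (eD H (C i) U : ℝ) ≤ ∑ i ∈ A, r ^ 2 * (((C i).card : ℝ) * U.card) :=
          sum_le_sum fun i hi => h4 i hi
      _ = r ^ 2 * ((∑ i ∈ A, ((C i).card : ℝ)) * U.card) := by
          rw [← mul_sum, ← sum_mul]
      _ = _ := by rw [← hcard]
  -- the vertices in `Z`
  have hin : ∀ R : Finset V, R ⊆ Z → ∃ f : V → W,
      Part G H C U Z Q c r ((univ.filter fun v => v ∉ Z) ∪ R) f := by
    intro R
    induction R using Finset.induction_on with
    | empty =>
      intro _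
      exact ⟨f1, by rw [union_empty]; exact hf1⟩
    | insert v R hv ih =>
      intro hR
      obtain ⟨f, hf⟩ := ih fun u hu => hR (mem_insert_of_mem hu)
      have hvZ : v ∈ Z := hR (mem_insert_self _ _)
      have hUpos : 0 < U.card := by
        by_contra h0
        have h0' : U.card = 0 := by omega
        rw [h0', Nat.cast_zero, mul_zero] at h5
        have h7 : (univ.filter fun v => v ∈ Z ∨ c v ∈ A).card = 0 := by
          have : ((univ.filter fun v => v ∈ Z ∨ c v ∈ A).card : ℝ) = 0 :=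
            le_antisymm h5 (Nat.cast_nonneg _)
          exact_mod_cast this
        exact absurd (mem_filter.2 ⟨mem_univ v, Or.inl hvZ⟩) (by rw [card_eq_zero.1 h7]; simp)
      have hvP : v ∉ (univ.filter fun v => v ∉ Z) ∪ R := by
        rw [mem_union, mem_filter]
        rintro (h | h)
        · exact h.2 hvZ
        · exact hv h
      obtain ⟨g, hg, -⟩ := step_in he hr hDr hdeg' hUU hUpos h5 hf (by
        intro u hu hfu
        refine mem_filter.2 ⟨mem_univ _, ?_⟩
        by_cases huZ : u ∈ Z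
        · exact Or.inl huZ
        · right
          obtain ⟨i, hi, hfi⟩ := mem_biUnion.1 hfu
          by_contra hcu
          have hne : c u ≠ i := fun e => hcu (e ▸ hi)
          exact disjoint_left.1 (hdisj _ _ hne) (hf.inC u hu huZ) hfi)
        (fun u hu => mem_union_left _ (mem_filter.2 ⟨mem_univ _, hQZ u hu⟩)) hvP hvZ
      exact ⟨g, by rw [union_insert]; exact hg⟩
  obtain ⟨f, hf⟩ := hin Z Subset.rfl
  have hall : ∀ v, v ∈ (univ.filter fun v => v ∉ Z) ∪ Z := by
    intro v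
    by_cases hv : v ∈ Z
    · exact mem_union_right _ hv
    · exact mem_union_left _ (mem_filter.2 ⟨mem_univ _, hv⟩)
  exact ⟨f, fun u v huv => hf.inj u (hall u) v (hall v) huv,
    fun u v huv => hf.adj u (hall u) v (hall v) huv,
    fun v hv => hf.inC v (hall v) hv, fun v hv => hf.inU v (hall v) hv⟩

open EMB in
open Classical in
/-- **Greedy embedding.** The vertices outside `Z` go to the clusters `C (c v)`, those of `Z` to the
union `U` of the clusters `C i`, `i ∈ A`. -/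
theorem emb (De : ℕ) (e2 d : ℝ) (he : 0 < e2) (hd : 0 < d)
    (hsm : 64 * (De : ℝ) ^ 2 * d ≤ e2 ^ 2)
    {V W ι : Type} [Fintype V] (G : SimpleGraph V) (H : SimpleGraph W)
    (C : ι → Finset W) (hdisj : ∀ i j, i ≠ j → Disjoint (C i) (C j)) (hpos : ∀ i, 0 < (C i).card)
    (A : Finset ι) (Z : Finset V) (c : V → ι)
    (hdeg : ∀ v, (univ.filter fun u => G.Adj v u).card ≤ De)
    (h1 : ∀ u v, G.Adj u v → u ∉ Z → v ∉ Z →
      (eD H (C (c u)) (C (c v)) : ℝ) ≤ d * ((C (c u)).card * (C (c v)).card))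
    (h2 : ∀ i, ((univ.filter fun v => v ∉ Z ∧ c v = i).card : ℝ) ≤ (1 - e2) * (C i).card)
    (h3 : ∀ z ∈ Z, ∀ u, u ∉ Z → G.Adj z u → c u ∈ A)
    (h4 : ∀ i ∈ A, (eD H (C i) (A.biUnion C) : ℝ) ≤ d * ((C i).card * (A.biUnion C).card))
    (h5 : ((univ.filter fun v => v ∈ Z ∨ c v ∈ A).card : ℝ) ≤ (1 - e2) * (A.biUnion C).card) :
    ∃ f : V → W, Function.Injective f ∧ (∀ u v, G.Adj u v → ¬ H.Adj (f u) (f v)) ∧
      (∀ v, v ∉ Z → f v ∈ C (c v)) ∧ ∀ v ∈ Z, f v ∈ A.biUnion C := by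
  obtain ⟨r, hr, hrr⟩ : ∃ r : ℝ, 0 < r ∧ r ^ 2 = d :=
    ⟨Real.sqrt d, Real.sqrt_pos.2 hd, Real.sq_sqrt hd.le⟩
  have hDr : 8 * (De : ℝ) * r ≤ e2 := by
    have : (8 * (De : ℝ) * r) ^ 2 ≤ e2 ^ 2 := by
      calc (8 * (De : ℝ) * r) ^ 2 = 64 * (De : ℝ) ^ 2 * r ^ 2 := by ring
        _ ≤ _ := by rw [hrr]; exact hsm
    exact (pow_le_pow_iff_left₀ (by positivity) he.le two_ne_zero).1 this
  rw [← hrr] at h1 h4
  by_cases hV : Nonempty V
  · obtain ⟨v⟩ := hV
    obtain ⟨x, -⟩ := card_pos.1 (hpos (c v))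
    exact emb_hub De e2 r he hr hDr G H C hdisj hpos A Z ∅ c (fun _ => x) (by simp)
      (fun v _ => hdeg v) (fun u v huv hu hv _ _ => h1 u v huv hu hv) h2
      (fun z hz u hu _ hzu => h3 z hz u hu hzu) h4 h5 (by simp) (by simp) (by simp) (by simp)
      (by simp)
  · exact ⟨fun v => (hV ⟨v⟩).elim, fun v => (hV ⟨v⟩).elim, fun v => (hV ⟨v⟩).elim,
      fun v => (hV ⟨v⟩).elim, fun v => (hV ⟨v⟩).elim⟩

end Pool.Agent.T6A
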