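import Pool.Agent.T6A.Pair

/-!
# The expectation of the pointwise bound (MP_c6effb_co, T6-A, module EXP1)

`G` is the graph on `V`, `nbh G v` the neighbourhood of `v`, `r u b` the intensity with which the
vertex `u` proposes the position `b`, `s u b ≤ r u b` the part which is used for the chord. Given the
positions `g` on the `A`-side (all independent with law `μ`),

* `Xk r v g`: the intensity of the valid proposals of `v`;
* `Nk r u b g`: the intensity of the valid proposals of `u` in conflict with `b`;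
* `Mk r u b g`: the intensity of the valid proposals of `u` not in conflict with `b`.

`exp1`: the expectation, given `g v = a`, of
`∑ b, r v b 1{b ∈ L_v} (2 - X_v - ∑ u ∈ N(v), N_u / (1 + M_u))` is at least an explicit sum over
pairs and triples of positions, with any number of common neighbours.
-/

set_option autoImplicit false
set_option linter.unusedSectionVars false

open Finset

namespace Pool.Agent.T6A

variable {V ι : Type*} [Fintype V] [DecidableEq V] [Fintype ι] [DecidableEq ι]
variable (F : SimpleGraph ι) [DecidableRel F.Adj] (G : SimpleGraph V) [DecidableRel G.Adj]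

/-- the neighbourhood of `v` -/
def nbh (v : V) : Finset V := univ.filter (fun u => G.Adj v u)

/-- the intensity of the valid proposals of `u` in conflict with `b` -/
def Nk (r : V → ι → ℝ) (u : V) (b : ι) (g : V → ι) : ℝ :=
  ∑ b', if F.Adj b b' then r u b' * il F (nbh G u) b' g else 0

/-- the intensity of the valid proposals of `u` not in conflict with `b` -/
def Mk (r : V → ι → ℝ) (u : V) (b : ι) (g : V → ι) : ℝ :=
  ∑ c, if F.Adj b c then 0 else r u c * il F (nbh G u) c g

/-- the intensity of the valid proposals of `v` -/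
def Xk (r : V → ι → ℝ) (v : V) (g : V → ι) : ℝ := ∑ c, r v c * il F (nbh G v) c g

/-- the part of the intensity which is used for the chord, given `g v = a`, for the position `b` -/
def sab (s : V → ι → ℝ) (u : V) (a b c : ι) : ℝ :=
  if F.Adj b c ∨ F.Adj a c then 0 else s u c

variable {F G}

omit [Fintype ι] [DecidableEq ι] [DecidableEq V] [DecidableRel F.Adj] in
theorem mem_nbh {u v : V} : u ∈ nbh G v ↔ G.Adj v u := by simp [nbh]

theorem Nk_nonneg {r : V → ι → ℝ} (hr : ∀ u c, 0 ≤ r u c) (u : V) (b : ι) (g : V → ι) :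
    0 ≤ Nk F G r u b g := by
  refine sum_nonneg fun c _ => ?_
  split_ifs
  · exact mul_nonneg (hr u c) (il_nonneg _ _ _)
  · exact le_rfl

theorem Mk_nonneg {r : V → ι → ℝ} (hr : ∀ u c, 0 ≤ r u c) (u : V) (b : ι) (g : V → ι) :
    0 ≤ Mk F G r u b g := by
  refine sum_nonneg fun c _ => ?_
  split_ifs
  · exact le_rfl
  · exact mul_nonneg (hr u c) (il_nonneg _ _ _)

omit [Fintype V] [DecidableEq V] [Fintype ι] [DecidableEq ι] in
theorem sab_nonneg {s : V → ι → ℝ} (hs : ∀ u c, 0 ≤ s u c) (u : V) (a b c : ι) :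
    0 ≤ sab F s u a b c := by
  unfold sab
  split_ifs
  · exact le_rfl
  · exact hs u c

omit [Fintype V] [DecidableEq V] [Fintype ι] [DecidableEq ι] in
theorem sab_le {s : V → ι → ℝ} (hs : ∀ u c, 0 ≤ s u c) (u : V) (a b c : ι) :
    sab F s u a b c ≤ s u c := by
  unfold sab
  split_ifs
  · exact hs u c
  · exact le_rfl

/-- the chord: `1 / (1 + M) ≤ 1 - M' / (1 + S)` for `0 ≤ M' ≤ M`, `M' ≤ S` -/
theorem chord_le {M M' S : ℝ} (h0 : 0 ≤ M') (h1 : M' ≤ M) (h2 : M' ≤ S) :
    1 / (1 + M) ≤ 1 - 1 / (1 + S) * M' := by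
  have hM : 0 < 1 + M := by linarith
  have hM' : 0 < 1 + M' := by linarith
  have hS : 0 < 1 + S := by linarith
  have e1 : 1 / (1 + M) ≤ 1 / (1 + M') := one_div_le_one_div_of_le hM' (by linarith)
  have e2 : 1 / (1 + M') = 1 - 1 / (1 + M') * M' := by field_simp; ring
  have e3 : 1 / (1 + S) * M' ≤ 1 / (1 + M') * M' :=
    mul_le_mul_of_nonneg_right (one_div_le_one_div_of_le hM' (by linarith)) h0
  linarith

/-- pointwise: `N / (1 + M)` by a sum over pairs and triples -/
theorem Nk_div_le {r s : V → ι → ℝ} (hr : ∀ u c, 0 ≤ r u c) (hs : ∀ u c, 0 ≤ s u c)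
    (hsr : ∀ u c, s u c ≤ r u c) (u : V) (a b : ι) (g : V → ι) :
    Nk F G r u b g / (1 + Mk F G r u b g) ≤
      ∑ b', if F.Adj b b' then r u b' * (il F (nbh G u) b' g *
        (1 - ∑ c, 1 / (1 + ∑ c, sab F s u a b c) * sab F s u a b c * il F (nbh G u) c g)) else 0 := by
  have hM' : 0 ≤ ∑ c, sab F s u a b c * il F (nbh G u) c g :=
    sum_nonneg fun c _ => mul_nonneg (sab_nonneg hs u a b c) (il_nonneg _ _ _)
  have h1 : ∑ c, sab F s u a b c * il F (nbh G u) c g ≤ Mk F G r u b g := by
    refine sum_le_sum fun c _ => ?_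
    have hi := il_nonneg (F := F) (nbh G u) c g
    by_cases hb : F.Adj b c
    · rw [if_pos hb, sab, if_pos (Or.inl hb), zero_mul]
    · rw [if_neg hb]
      exact mul_le_mul_of_nonneg_right ((sab_le hs u a b c).trans (hsr u c)) hi
  have h2 : ∑ c, sab F s u a b c * il F (nbh G u) c g ≤ ∑ c, sab F s u a b c :=
    sum_le_sum fun c _ => mul_le_of_le_one_right (sab_nonneg hs u a b c) (il_le_one _ _ _)
  have h3 := chord_le hM' h1 h2
  have hN := Nk_nonneg (F := F) (G := G) hr u b g
  have h4 : Nk F G r u b g / (1 + Mk F G r u b g) ≤ Nk F G r u b g *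
      (1 - 1 / (1 + ∑ c, sab F s u a b c) * ∑ c, sab F s u a b c * il F (nbh G u) c g) := by
    rw [div_eq_mul_one_div]
    exact mul_le_mul_of_nonneg_left h3 hN
  refine h4.trans (le_of_eq ?_)
  rw [Nk, sum_mul, mul_sum]
  refine sum_congr rfl fun b' _ => ?_
  by_cases hb : F.Adj b b'
  · rw [if_pos hb, if_pos hb, mul_assoc]
    congr 3
    exact sum_congr rfl fun c _ => by ring
  · rw [if_neg hb, if_neg hb, zero_mul]

/-- **EXP1** -/
theorem exp1 {μ : ι → ℝ} (h0 : ∀ x, 0 ≤ μ x) (h1 : ∑ x, μ x = 1) (hF : F.CliqueFree 3)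
    {r s : V → ι → ℝ} (hr : ∀ u c, 0 ≤ r u c) (hs : ∀ u c, 0 ≤ s u c)
    (hsr : ∀ u c, s u c ≤ r u c) (v : V) (a : ι) :
    (∑ b, 2 * (r v b * (1 - nb F μ b) ^ #(nbh G v)))
      - (∑ b, ∑ c, r v b * r v c * (1 - nb F μ b - nb F μ c + cod F μ b c) ^ #(nbh G v))
      - (∑ u ∈ nbh G v, ∑ b, ∑ b', if F.Adj b b' ∧ ¬ F.Adj a b' then
          r v b * (1 - nb F μ b) ^ #(nbh G v) * (r u b' * (1 - nb F μ b') ^ (#(nbh G u) - 1)) *
            (1 - 1 / (1 + ∑ c, sab F s u a b c) * ∑ c, sab F s u a b c *
              kz (1 - nb F μ b - nb F μ b') (nb F μ c) (#(nbh G u) - 1)) else 0)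
      ≤ ∑ b, EE (fun _ => μ) (fun g => (fun g : V → ι => r v b * (il F (nbh G v) b g *
          (2 - Xk F G r v g - ∑ u ∈ nbh G v, Nk F G r u b g / (1 + Mk F G r u b g))))
            (Function.update g v a)) := by
  have hlaw := isLaw_const (V := V) h0 h1
  have hv : v ∉ nbh G v := by simp [nbh]
  rw [← sum_sub_distrib]
  have hswap : (∑ u ∈ nbh G v, ∑ b, ∑ b', if F.Adj b b' ∧ ¬ F.Adj a b' then
          r v b * (1 - nb F μ b) ^ #(nbh G v) * (r u b' * (1 - nb F μ b') ^ (#(nbh G u) - 1)) *
            (1 - 1 / (1 + ∑ c, sab F s u a b c) * ∑ c, sab F s u a b c *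
              kz (1 - nb F μ b - nb F μ b') (nb F μ c) (#(nbh G u) - 1)) else 0) =
      ∑ b, ∑ u ∈ nbh G v, ∑ b', if F.Adj b b' ∧ ¬ F.Adj a b' then
          r v b * (1 - nb F μ b) ^ #(nbh G v) * (r u b' * (1 - nb F μ b') ^ (#(nbh G u) - 1)) *
            (1 - 1 / (1 + ∑ c, sab F s u a b c) * ∑ c, sab F s u a b c *
              kz (1 - nb F μ b - nb F μ b') (nb F μ c) (#(nbh G u) - 1)) else 0 := sum_comm
  rw [hswap, ← sum_sub_distrib]
  refine sum_le_sum fun b _ => ?_
  have hrb := hr v b
  -- the pointwise bound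
  set t : V → ι → ℝ := fun u c => 1 / (1 + ∑ c, sab F s u a b c) * sab F s u a b c with ht
  have hS : ∀ u, 0 ≤ ∑ c, sab F s u a b c := fun u => sum_nonneg fun c _ => sab_nonneg hs u a b c
  have ht0 : ∀ u c, 0 ≤ t u c := fun u c =>
    mul_nonneg (one_div_nonneg.2 (by linarith [hS u])) (sab_nonneg hs u a b c)
  have hta : ∀ u c, F.Adj a c → t u c = 0 := by
    intro u c hac
    simp only [ht, sab, if_pos (Or.inr hac : F.Adj b c ∨ F.Adj a c), mul_zero]
  have hts : ∀ u, ∑ c, t u c ≤ 1 := by
    intro u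
    simp only [ht]
    rw [← mul_sum]
    have e2 := hS u
    rw [one_div_mul_eq_div, div_le_one (by linarith)]
    linarith
  have hpt : ∀ g : V → ι, r v b * (il F (nbh G v) b g * (2 - Xk F G r v g)) -
      (∑ u ∈ nbh G v, ∑ b', if F.Adj b b' then r v b * (r u b' * (il F (nbh G v) b g *
        (il F (nbh G u) b' g * (1 - ∑ c, t u c * il F (nbh G u) c g)))) else 0) ≤
      r v b * (il F (nbh G v) b g *
          (2 - Xk F G r v g - ∑ u ∈ nbh G v, Nk F G r u b g / (1 + Mk F G r u b g))) := by
    intro g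
    have hi := il_nonneg (F := F) (nbh G v) b g
    have e1 : ∑ u ∈ nbh G v, Nk F G r u b g / (1 + Mk F G r u b g) ≤
        ∑ u ∈ nbh G v, ∑ b', if F.Adj b b' then r u b' * (il F (nbh G u) b' g *
        (1 - ∑ c, t u c * il F (nbh G u) c g)) else 0 :=
      sum_le_sum fun u _ => Nk_div_le hr hs hsr u a b g
    have e2 := mul_le_mul_of_nonneg_left e1 (mul_nonneg hrb hi)
    have e3 : r v b * il F (nbh G v) b g * (∑ u ∈ nbh G v, ∑ b', if F.Adj b b' then
          r u b' * (il F (nbh G u) b' g * (1 - ∑ c, t u c * il F (nbh G u) c g)) else 0) =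
        ∑ u ∈ nbh G v, ∑ b', if F.Adj b b' then r v b * (r u b' * (il F (nbh G v) b g *
        (il F (nbh G u) b' g * (1 - ∑ c, t u c * il F (nbh G u) c g)))) else 0 := by
      rw [mul_sum]
      refine sum_congr rfl fun u _ => ?_
      rw [mul_sum]
      refine sum_congr rfl fun b' _ => ?_
      by_cases hb : F.Adj b b'
      · rw [if_pos hb, if_pos hb]; ring
      · rw [if_neg hb, if_neg hb, mul_zero]
    rw [e3] at e2
    have e4 : r v b * (il F (nbh G v) b g *
          (2 - Xk F G r v g - ∑ u ∈ nbh G v, Nk F G r u b g / (1 + Mk F G r u b g))) =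
        r v b * (il F (nbh G v) b g * (2 - Xk F G r v g)) - r v b * il F (nbh G v) b g *
          ∑ u ∈ nbh G v, Nk F G r u b g / (1 + Mk F G r u b g) := by ring
    rw [e4]
    linarith
  -- the expectation
  refine le_trans ?_ (EE_mono hlaw fun g => hpt (Function.update g v a))
  rw [EE_sub]
  have eA : EE (fun _ => μ) (fun g : V → ι => r v b * (il F (nbh G v) b (Function.update g v a) *
      (2 - Xk F G r v (Function.update g v a)))) =
      2 * (r v b * (1 - nb F μ b) ^ #(nbh G v)) -
      ∑ c, r v b * r v c * (1 - nb F μ b - nb F μ c + cod F μ b c) ^ #(nbh G v) := by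
    have e : (fun g : V → ι => r v b * (il F (nbh G v) b (Function.update g v a) *
        (2 - Xk F G r v (Function.update g v a)))) =
        fun g => 2 * r v b * il F (nbh G v) b (Function.update g v a) -
          ∑ c, r v b * r v c * (il F (nbh G v) b (Function.update g v a) *
            il F (nbh G v) c (Function.update g v a)) := by
      funext g
      have : r v b * (il F (nbh G v) b (Function.update g v a) *
        (2 - Xk F G r v (Function.update g v a))) =
          2 * r v b * il F (nbh G v) b (Function.update g v a) -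
          r v b * il F (nbh G v) b (Function.update g v a) *
            Xk F G r v (Function.update g v a) := by ring
      rw [this, Xk, mul_sum]
      congr 1
      exact sum_congr rfl fun c _ => by ring
    rw [e, EE_sub, EE_smul, EE_il_update h0 h1 hv, EE_sum]
    congr 1
    · ring
    · refine sum_congr rfl fun c _ => ?_
      rw [EE_smul, EE_il_il_same_update h0 h1 hv]
  have eB : EE (fun _ => μ) (fun g : V → ι => ∑ u ∈ nbh G v, ∑ b', if F.Adj b b' then
      r v b * (r u b' * (il F (nbh G v) b (Function.update g v a) *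
        (il F (nbh G u) b' (Function.update g v a) *
          (1 - ∑ c, t u c * il F (nbh G u) c (Function.update g v a))))) else 0) ≤
      ∑ u ∈ nbh G v, ∑ b', if F.Adj b b' ∧ ¬ F.Adj a b' then
          r v b * (1 - nb F μ b) ^ #(nbh G v) * (r u b' * (1 - nb F μ b') ^ (#(nbh G u) - 1)) *
            (1 - 1 / (1 + ∑ c, sab F s u a b c) * ∑ c, sab F s u a b c *
              kz (1 - nb F μ b - nb F μ b') (nb F μ c) (#(nbh G u) - 1)) else 0 := by
    rw [EE_sum]
    refine sum_le_sum fun u hu => ?_
    rw [EE_sum]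
    refine sum_le_sum fun b' _ => ?_
    have huv : v ∈ nbh G u := mem_nbh.2 (mem_nbh.1 hu).symm
    by_cases hb : F.Adj b b'
    · simp only [if_pos hb]
      have e : (fun g : V → ι => r v b * (r u b' * (il F (nbh G v) b (Function.update g v a) *
        (il F (nbh G u) b' (Function.update g v a) *
          (1 - ∑ c, t u c * il F (nbh G u) c (Function.update g v a)))))) =
          fun g => r v b * r u b' * (il F (nbh G v) b (Function.update g v a) *
        (il F (nbh G u) b' (Function.update g v a) *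
          (1 - ∑ c, t u c * il F (nbh G u) c (Function.update g v a)))) := by
        funext g; ring
      rw [e, EE_smul]
      have h5 := pair_factor_le h0 h1 hF hv huv (a := a) hb (ht0 u) (hta u) (hts u)
      have h6 := mul_le_mul_of_nonneg_left h5 (mul_nonneg hrb (hr u b'))
      refine h6.trans (le_of_eq ?_)
      have e7 : ∑ c, t u c * kz (1 - nb F μ b - nb F μ b') (nb F μ c) (#(nbh G u) - 1) =
          1 / (1 + ∑ c, sab F s u a b c) * ∑ c, sab F s u a b c *
            kz (1 - nb F μ b - nb F μ b') (nb F μ c) (#(nbh G u) - 1) := by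
        rw [mul_sum]
        exact sum_congr rfl fun c _ => by simp only [ht]; ring
      rw [e7]
      by_cases hab : F.Adj a b'
      · rw [if_pos hab, if_neg (fun h => h.2 hab)]; ring
      · rw [if_neg hab, if_pos ⟨hb, hab⟩]; ring
    · simp only [if_neg hb]
      rw [if_neg (fun h => hb h.1), EE_const hlaw]
  rw [eA]
  linarith

end Pool.Agent.T6A
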