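import Pool.Agent.T6A.Expect
import Pool.Agent.T6A.Clump

/-!
# From the pair sums to a separable bound (MP_c6effb_co)

`pairT` is the lower bound for the expectation of the size of `T` (for one vertex `v`, given
`g v = a`) which is obtained from the pair formulas. `sum_pairT_ge` gives the separable lower bound
for the sum over all vertices: clump bound, AM-GM on the edges of `F`.
-/

set_option autoImplicit false
set_option linter.unusedSectionVars false

open Finset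

namespace Pool.Agent.T6A

variable {V ι : Type*} [Fintype V] [DecidableEq V] [Fintype ι] [DecidableEq ι]

section amgm

variable (F : SimpleGraph ι) [DecidableRel F.Adj]

/-- AM-GM and row sums: the sum over the ordered adjacent pairs. -/
theorem adj_sum_le {w y x z : ι → ℝ} {s ξ : ℝ} (hξ : 0 < ξ) (hw : ∀ b, 0 ≤ w b)
    (hrow : ∀ b, 0 < w b → x b ≠ 0 ∨ z b ≠ 0 → (∑ c, if F.Adj b c then w c else 0) ≤ s * y b) :
    ∑ b, ∑ b', (if F.Adj b b' then w b * w b' * (x b * z b') else 0)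
      ≤ s / 2 * (ξ * ∑ b, w b * (x b ^ 2 * y b) + ξ⁻¹ * ∑ b, w b * (z b ^ 2 * y b)) := by
  have h1 : ∀ b b', (if F.Adj b b' then w b * w b' * (x b * z b') else 0)
      ≤ ξ / 2 * (w b * x b ^ 2 * (if F.Adj b b' then w b' else 0))
        + ξ⁻¹ / 2 * (w b' * z b' ^ 2 * (if F.Adj b' b then w b else 0)) := by
    intro b b'
    by_cases hbb : F.Adj b b'
    · rw [if_pos hbb, if_pos hbb, if_pos hbb.symm]
      have h2 : x b * z b' ≤ ξ / 2 * x b ^ 2 + ξ⁻¹ / 2 * z b' ^ 2 := by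
        have h3 : 0 ≤ ξ⁻¹ / 2 * (ξ * x b - z b') ^ 2 := by positivity
        have h4 : ξ⁻¹ / 2 * (ξ * x b - z b') ^ 2
            = ξ / 2 * x b ^ 2 + ξ⁻¹ / 2 * z b' ^ 2 - x b * z b' := by
          field_simp; ring
        linarith
      have h5 := mul_le_mul_of_nonneg_left h2 (mul_nonneg (hw b) (hw b'))
      calc _ ≤ w b * w b' * (ξ / 2 * x b ^ 2 + ξ⁻¹ / 2 * z b' ^ 2) := h5
        _ = _ := by ring
    · rw [if_neg hbb, if_neg hbb, if_neg fun h => hbb h.symm]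
      simp
  have hr : ∀ (q : ι → ℝ), (∀ b, 0 ≤ q b) → (∀ b, q b ≠ 0 → x b ≠ 0 ∨ z b ≠ 0) →
      ∑ b, w b * q b * (∑ c, if F.Adj b c then w c else 0) ≤ s * ∑ b, w b * (q b * y b) := by
    intro q hq hq'
    rw [mul_sum]
    refine sum_le_sum fun b _ => ?_
    rcases (hw b).lt_or_eq with hpos | hz
    · by_cases hqb : q b = 0
      · rw [hqb]; simp
      · have := mul_le_mul_of_nonneg_left (hrow b hpos (hq' b hqb)) (mul_nonneg (hw b) (hq b))
        calc _ ≤ w b * q b * (s * y b) := this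
          _ = _ := by ring
    · rw [← hz]; simp
  have h6 : ∑ b, ∑ b', (if F.Adj b b' then w b * w b' * (x b * z b') else 0)
      ≤ ξ / 2 * ∑ b, w b * x b ^ 2 * (∑ c, if F.Adj b c then w c else 0)
        + ξ⁻¹ / 2 * ∑ b, w b * z b ^ 2 * (∑ c, if F.Adj b c then w c else 0) := by
    calc _ ≤ ∑ b, ∑ b', (ξ / 2 * (w b * x b ^ 2 * (if F.Adj b b' then w b' else 0))
        + ξ⁻¹ / 2 * (w b' * z b' ^ 2 * (if F.Adj b' b then w b else 0))) :=
          sum_le_sum fun b _ => sum_le_sum fun b' _ => h1 b b'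
      _ = _ := by
        simp only [sum_add_distrib]
        congr 1
        · rw [mul_sum]
          refine sum_congr rfl fun b _ => ?_
          rw [mul_sum, mul_sum]
        · rw [sum_comm, mul_sum]
          refine sum_congr rfl fun b _ => ?_
          rw [mul_sum, mul_sum]
  have h7 := hr (fun b => x b ^ 2) (fun b => sq_nonneg _) fun b hb =>
    Or.inl fun h => hb (by simp [h])
  have h8 := hr (fun b => z b ^ 2) (fun b => sq_nonneg _) fun b hb =>
    Or.inr fun h => hb (by simp [h])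
  have h9 : 0 ≤ ξ / 2 := by positivity
  have h10 : 0 ≤ ξ⁻¹ / 2 := by positivity
  have h11 := mul_le_mul_of_nonneg_left h7 h9
  have h12 := mul_le_mul_of_nonneg_left h8 h10
  calc _ ≤ _ := h6
    _ ≤ ξ / 2 * (s * ∑ b, w b * (x b ^ 2 * y b)) + ξ⁻¹ / 2 * (s * ∑ b, w b * (z b ^ 2 * y b)) :=
      add_le_add h11 h12
    _ = _ := by ring

end amgm

section main

variable (F : SimpleGraph ι) [DecidableRel F.Adj] (G : SimpleGraph V) [DecidableRel G.Adj]
  (μ : ι → ℝ)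

/-- The bracket `1 - θ ∑ s_c kz(1 - n_b - n_b', n_c, d_u - 1)` (sum over `c` not adjacent to `b` or
`a`). -/
noncomputable def brk (s : V → ι → ℝ) (a : ι) (u : V) (b b' : ι) : ℝ :=
  1 - 1 / (1 + ∑ c, sab F s u a b c) * ∑ c, sab F s u a b c *
    kz (1 - nb F μ b - nb F μ b') (nb F μ c) (#(nbh G u) - 1)

/-- The cost of the ordered edge `(v, u)`. -/
noncomputable def costE (r s : V → ι → ℝ) (a : ι) (v u : V) : ℝ :=
  ∑ b, ∑ b', if F.Adj b b' ∧ ¬ F.Adj a b' then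
    r v b * (1 - nb F μ b) ^ #(nbh G v) * (r u b' * (1 - nb F μ b') ^ (#(nbh G u) - 1))
      * brk F G μ s a u b b' else 0

/-- The lower bound for the expectation, vertex `v`, given `g v = a`. -/
noncomputable def pairT (r s : V → ι → ℝ) (a : ι) (v : V) : ℝ :=
  ∑ b, 2 * (r v b * (1 - nb F μ b) ^ #(nbh G v))
    - ∑ b, ∑ c, r v b * r v c * (1 - nb F μ b - nb F μ c + cod F μ b c) ^ #(nbh G v)
    - ∑ u ∈ nbh G v, costE F G μ r s a v u

variable {F G μ}

/-- EXP1 in terms of `pairT`. -/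
theorem pairT_le (h0 : ∀ x, 0 ≤ μ x) (h1 : ∑ x, μ x = 1) (hF : F.CliqueFree 3)
    {r s : V → ι → ℝ} (hr : ∀ u c, 0 ≤ r u c) (hs : ∀ u c, 0 ≤ s u c)
    (hsr : ∀ u c, s u c ≤ r u c) (v : V) (a : ι) :
    pairT F G μ r s a v
      ≤ ∑ b, EE (fun _ => μ) (fun g => (fun g : V → ι => r v b * (il F (nbh G v) b g *
          (2 - Xk F G r v g - ∑ u ∈ nbh G v, Nk F G r u b g / (1 + Mk F G r u b g))))
            (Function.update g v a)) :=
  exp1 h0 h1 hF hr hs hsr v a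

/-- `r v b = w b h v b / (1 - n_b)^(d v)` -/
noncomputable def rate (F : SimpleGraph ι) [DecidableRel F.Adj] (G : SimpleGraph V)
    [DecidableRel G.Adj] (μ w : ι → ℝ) (h : V → ι → ℝ) (v : V) (b : ι) : ℝ :=
  w b * h v b / (1 - nb F μ b) ^ #(nbh G v)

theorem rate_mul {w : ι → ℝ} {h : V → ι → ℝ} (hh : ∀ v b, 0 ≤ h v b)
    (hn : ∀ v b, 0 < h v b → nb F μ b < 1) (v : V) (b : ι) :
    rate F G μ w h v b * (1 - nb F μ b) ^ #(nbh G v) = w b * h v b := by
  unfold rate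
  rcases (hh v b).lt_or_eq with hpos | hz
  · have : (1 - nb F μ b) ^ #(nbh G v) ≠ 0 := pow_ne_zero _ (by linarith [hn v b hpos])
    rw [div_mul_cancel₀ _ this]
  · rw [← hz]; simp

theorem rate_mul' {w : ι → ℝ} {h : V → ι → ℝ} (hh : ∀ v b, 0 ≤ h v b)
    (hn : ∀ v b, 0 < h v b → nb F μ b < 1) {v u : V} (huv : G.Adj v u) (b : ι) :
    rate F G μ w h u b * (1 - nb F μ b) ^ (#(nbh G u) - 1) = w b * h u b / (1 - nb F μ b) := by
  unfold rate
  rcases (hh u b).lt_or_eq with hpos | hz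
  · have hy : (1 - nb F μ b) ≠ 0 := by linarith [hn u b hpos]
    obtain ⟨m, hm⟩ : ∃ m, #(nbh G u) = m + 1 := by
      have : 0 < #(nbh G u) := card_pos.2 ⟨v, mem_nbh.2 huv.symm⟩
      exact ⟨#(nbh G u) - 1, by omega⟩
    rw [hm, Nat.add_sub_cancel, pow_succ]
    field_simp
  · rw [← hz]; simp

theorem rate_nonneg (h0 : ∀ x, 0 ≤ μ x) (h1 : ∑ x, μ x = 1) {w : ι → ℝ} {h : V → ι → ℝ}
    (hw : ∀ b, 0 ≤ w b) (hh : ∀ v b, 0 ≤ h v b) (v : V) (b : ι) : 0 ≤ rate F G μ w h v b :=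
  div_nonneg (mul_nonneg (hw b) (hh v b))
    (pow_nonneg (by linarith [nb_le_one (F := F) h0 h1 b]) _)

/-- The clump term. -/
theorem clump_rate_le (h0 : ∀ x, 0 ≤ μ x) (h1 : ∑ x, μ x = 1) {w : ι → ℝ} {h : V → ι → ℝ} {σ : ℝ}
    (hw : ∀ b, 0 ≤ w b) (hh : ∀ v b, 0 ≤ h v b) (hn : ∀ v b, 0 < h v b → nb F μ b < 1)
    (hσa : ∀ a, 0 < μ a → (∑ c, if F.Adj a c then w c else 0) ≤ σ) (v : V) :
    ∑ b, ∑ c, rate F G μ w h v b * rate F G μ w h v c
        * (1 - nb F μ b - nb F μ c + cod F μ b c) ^ #(nbh G v)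
      ≤ (∑ b, w b * h v b) ^ 2
        + σ * ∑ b, w b * h v b ^ 2 * (((1 - nb F μ b)⁻¹) ^ #(nbh G v) - 1) := by
  have key := clump_abs (univ : Finset ι) w (h v) (fun b => nb F μ b) (fun b c => cod F μ b c) σ
    #(nbh G v) (fun b _ => hw b) (fun b _ => hh v b) (fun b _ => nb_nonneg h0 b)
    (fun b _ hb => hn v b hb) (fun b _ c _ => cod_nonneg h0 b c) (fun b _ c _ => cod_comm b c)
    (fun b _ c _ => cod_le_left h0 b c)
    (fun b _ c _ => by have := fr_pair_nonneg (F := F) h0 h1 b c; linarith)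
    (fun b _ => sum_cod_le h0 hσa b)
  refine le_trans (le_of_eq ?_) key
  refine sum_congr rfl fun b _ => sum_congr rfl fun c _ => ?_
  unfold rate
  rw [div_pow, mul_pow]
  ring

/-- The cost of an ordered edge after the AM-GM step. -/
theorem costE_le (h0 : ∀ x, 0 ≤ μ x) {w : ι → ℝ} {h s al be : V → ι → ℝ} {Al : ι → ℝ}
    {σ ξ : ℝ} (hξ : 0 < ξ) (hw : ∀ b, 0 ≤ w b) (hh : ∀ v b, 0 ≤ h v b)
    (hn : ∀ v b, 0 < h v b → nb F μ b < 1)
    (hσb : ∀ b, 0 < w b → (∃ v, 0 < h v b) →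
      (∑ c, if F.Adj b c then w c else 0) ≤ σ * (1 - nb F μ b))
    (hal : ∀ u b, 0 ≤ al u b) (hbe : ∀ u b, 0 ≤ be u b) (hAl : ∀ u b, al u b ≤ Al b) {a : ι}
    (hσ0 : 0 ≤ σ) (hbb : ∀ v u b b', G.Adj v u → F.Adj b b' → ¬ F.Adj a b' → 0 < w b → 0 < w b' →
      0 < h v b → 0 < h u b' → brk F G μ s a u b b' ≤ al u b * be u b') {v u : V}
    (huv : G.Adj v u) :
    costE F G μ (rate F G μ w h) s a v u
      ≤ σ / 2 * (ξ * ∑ b, w b * (h v b ^ 2 * Al b ^ 2 * (1 - nb F μ b))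
        + ξ⁻¹ * ∑ b, w b * (h u b ^ 2 * be u b ^ 2 / (1 - nb F μ b))) := by
  have h1 : costE F G μ (rate F G μ w h) s a v u
      ≤ ∑ b, ∑ b', (if F.Adj b b' then w b * w b' * ((h v b * al u b)
        * (h u b' * be u b' / (1 - nb F μ b'))) else 0) := by
    refine sum_le_sum fun b _ => sum_le_sum fun b' _ => ?_
    have hz : ∀ b', 0 < h u b' → 0 < 1 - nb F μ b' := fun b' hb' => by linarith [hn u b' hb']
    have hR : 0 ≤ w b * w b' * ((h v b * al u b) * (h u b' * be u b' / (1 - nb F μ b'))) := by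
      rcases (hh u b').lt_or_eq with hpos | hz'
      · exact mul_nonneg (mul_nonneg (hw b) (hw b')) (mul_nonneg (mul_nonneg (hh v b) (hal u b))
          (div_nonneg (mul_nonneg (hh u b') (hbe u b')) (hz b' hpos).le))
      · rw [← hz']; simp
    by_cases hab : F.Adj b b' ∧ ¬ F.Adj a b'
    · rw [if_pos hab, if_pos hab.1, rate_mul hh hn, rate_mul' hh hn huv]
      by_cases hpos : 0 < w b ∧ 0 < w b' ∧ 0 < h v b ∧ 0 < h u b'
      · have hk := hbb v u b b' huv hab.1 hab.2 hpos.1 hpos.2.1 hpos.2.2.1 hpos.2.2.2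
        have hq : 0 ≤ w b * h v b * (w b' * h u b' / (1 - nb F μ b')) :=
          mul_nonneg (mul_nonneg (hw b) (hh v b))
            (div_nonneg (mul_nonneg (hw b') (hh u b')) (hz b' hpos.2.2.2).le)
        calc _ ≤ w b * h v b * (w b' * h u b' / (1 - nb F μ b')) * (al u b * be u b') :=
              mul_le_mul_of_nonneg_left hk hq
          _ = _ := by ring
      · have hzero : w b * h v b * (w b' * h u b' / (1 - nb F μ b')) = 0 := by
          have : w b = 0 ∨ w b' = 0 ∨ h v b = 0 ∨ h u b' = 0 := by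
            by_contra hc
            push Not at hc
            exact hpos ⟨lt_of_le_of_ne (hw b) (Ne.symm hc.1),
              lt_of_le_of_ne (hw b') (Ne.symm hc.2.1),
              lt_of_le_of_ne (hh v b) (Ne.symm hc.2.2.1),
              lt_of_le_of_ne (hh u b') (Ne.symm hc.2.2.2)⟩
          rcases this with h | h | h | h <;> rw [h] <;> simp
        rw [hzero, zero_mul]
        exact hR
    · rw [if_neg hab]
      by_cases hb : F.Adj b b'
      · rw [if_pos hb]; exact hR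
      · rw [if_neg hb]
  have h2 := adj_sum_le F (y := fun b => 1 - nb F μ b) (x := fun b => h v b * al u b)
    (z := fun b => h u b * be u b / (1 - nb F μ b)) hξ hw (fun b hb hxz => hσb b hb (by
      rcases hxz with h | h
      · exact ⟨v, lt_of_le_of_ne (hh v b) fun h' => h (by simp [← h'])⟩
      · exact ⟨u, lt_of_le_of_ne (hh u b) fun h' => h (by simp [← h'])⟩))
  refine h1.trans (h2.trans ?_)
  have h3 : ∑ b, w b * ((h v b * al u b) ^ 2 * (1 - nb F μ b))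
      ≤ ∑ b, w b * (h v b ^ 2 * Al b ^ 2 * (1 - nb F μ b)) := by
    refine sum_le_sum fun b _ => mul_le_mul_of_nonneg_left ?_ (hw b)
    rcases (hh v b).lt_or_eq with hpos | hz'
    · have hy : 0 ≤ 1 - nb F μ b := by linarith [hn v b hpos]
      rw [mul_pow]
      exact mul_le_mul_of_nonneg_right (mul_le_mul_of_nonneg_left
        (pow_le_pow_left₀ (hal u b) (hAl u b) 2) (sq_nonneg _)) hy
    · rw [← hz']; simp
  have h4 : ∑ b, w b * ((h u b * be u b / (1 - nb F μ b)) ^ 2 * (1 - nb F μ b))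
      = ∑ b, w b * (h u b ^ 2 * be u b ^ 2 / (1 - nb F μ b)) := by
    refine sum_congr rfl fun b _ => ?_
    rcases (hh u b).lt_or_eq with hpos | hz'
    · have hy : (1 - nb F μ b) ≠ 0 := by linarith [hn u b hpos]
      field_simp
    · rw [← hz']; simp
  rw [h4]
  have h5 : 0 ≤ σ / 2 := by linarith
  exact mul_le_mul_of_nonneg_left (by
    have := mul_le_mul_of_nonneg_left h3 hξ.le
    linarith) h5

/-- exchange of the two ends of the ordered edges -/
theorem sum_nbr_comm (f : V → ℝ) : ∑ v, ∑ u ∈ nbh G v, f u = ∑ v, (#(nbh G v) : ℝ) * f v := by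
  have h1 : ∀ v, ∑ u ∈ nbh G v, f u = ∑ u, if G.Adj v u then f u else 0 := fun v => by
    rw [nbh, sum_filter]
  simp only [h1]
  rw [sum_comm]
  refine sum_congr rfl fun v _ => ?_
  rw [← sum_filter, sum_const, nsmul_eq_mul]
  congr 3
  ext u
  simp [nbh, G.adj_comm]

/-- **The separable lower bound.** -/
theorem sum_pairT_ge (h0 : ∀ x, 0 ≤ μ x) (h1 : ∑ x, μ x = 1) {w : ι → ℝ}
    {h s al be : V → ι → ℝ} {Al : ι → ℝ}
    {σ ξ : ℝ} (hξ : 0 < ξ) (hw : ∀ b, 0 ≤ w b) (hh : ∀ v b, 0 ≤ h v b)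
    (hn : ∀ v b, 0 < h v b → nb F μ b < 1) (hσ0 : 0 ≤ σ)
    (hσa : ∀ a, 0 < μ a → (∑ c, if F.Adj a c then w c else 0) ≤ σ)
    (hσb : ∀ b, 0 < w b → (∃ v, 0 < h v b) →
      (∑ c, if F.Adj b c then w c else 0) ≤ σ * (1 - nb F μ b))
    (hal : ∀ u b, 0 ≤ al u b) (hbe : ∀ u b, 0 ≤ be u b) (hAl : ∀ u b, al u b ≤ Al b) {a : ι}
    (hbb : ∀ v u b b', G.Adj v u → F.Adj b b' → ¬ F.Adj a b' → 0 < w b → 0 < w b' →
      0 < h v b → 0 < h u b' → brk F G μ s a u b b' ≤ al u b * be u b') :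
    ∑ v, (2 * (∑ b, w b * h v b) - (∑ b, w b * h v b) ^ 2
      - σ * ∑ b, w b * h v b ^ 2 * ((#(nbh G v) : ℝ)
        * ((ξ * (Al b ^ 2 * (1 - nb F μ b)) + ξ⁻¹ * (be v b ^ 2 / (1 - nb F μ b))) / 2)
        + (((1 - nb F μ b)⁻¹) ^ #(nbh G v) - 1)))
      ≤ ∑ v, pairT F G μ (rate F G μ w h) s a v := by
  have hc : ∑ v, ∑ u ∈ nbh G v, costE F G μ (rate F G μ w h) s a v u
      ≤ ∑ v, (#(nbh G v) : ℝ) * (σ / 2 * (ξ * ∑ b, w b * (h v b ^ 2 * Al b ^ 2 * (1 - nb F μ b))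
        + ξ⁻¹ * ∑ b, w b * (h v b ^ 2 * be v b ^ 2 / (1 - nb F μ b)))) := by
    calc _ ≤ ∑ v, ∑ u ∈ nbh G v,
          (σ / 2 * (ξ * ∑ b, w b * (h v b ^ 2 * Al b ^ 2 * (1 - nb F μ b)))
            + σ / 2 * (ξ⁻¹ * ∑ b, w b * (h u b ^ 2 * be u b ^ 2 / (1 - nb F μ b)))) := by
          refine sum_le_sum fun v _ => sum_le_sum fun u hu => ?_
          have := costE_le (s := s) (a := a) h0 hξ hw hh hn hσb hal hbe hAl hσ0 hbb
            (mem_nbh.1 hu)
          rw [← mul_add]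
          exact this
      _ = _ := by
        simp only [sum_add_distrib]
        rw [sum_nbr_comm (G := G) fun u =>
          σ / 2 * (ξ⁻¹ * ∑ b, w b * (h u b ^ 2 * be u b ^ 2 / (1 - nb F μ b)))]
        rw [← sum_add_distrib]
        refine sum_congr rfl fun v _ => ?_
        rw [sum_const, nsmul_eq_mul]
        ring
  have hT : ∑ v, pairT F G μ (rate F G μ w h) s a v
      = ∑ v, (2 * (∑ b, w b * h v b)) - ∑ v, ∑ b, ∑ c, rate F G μ w h v b * rate F G μ w h v c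
        * (1 - nb F μ b - nb F μ c + cod F μ b c) ^ #(nbh G v)
        - ∑ v, ∑ u ∈ nbh G v, costE F G μ (rate F G μ w h) s a v u := by
    rw [← sum_sub_distrib, ← sum_sub_distrib]
    refine sum_congr rfl fun v _ => ?_
    unfold pairT
    simp only [rate_mul hh hn]
    rw [mul_sum]
  rw [hT]
  have hcl : ∑ v, ∑ b, ∑ c, rate F G μ w h v b * rate F G μ w h v c
        * (1 - nb F μ b - nb F μ c + cod F μ b c) ^ #(nbh G v)
      ≤ ∑ v, ((∑ b, w b * h v b) ^ 2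
        + σ * ∑ b, w b * h v b ^ 2 * (((1 - nb F μ b)⁻¹) ^ #(nbh G v) - 1)) :=
    sum_le_sum fun v _ => clump_rate_le h0 h1 hw hh hn hσa v
  have hfin : ∑ v, (2 * (∑ b, w b * h v b) - (∑ b, w b * h v b) ^ 2
      - σ * ∑ b, w b * h v b ^ 2 * ((#(nbh G v) : ℝ)
        * ((ξ * (Al b ^ 2 * (1 - nb F μ b)) + ξ⁻¹ * (be v b ^ 2 / (1 - nb F μ b))) / 2)
        + (((1 - nb F μ b)⁻¹) ^ #(nbh G v) - 1)))
      = ∑ v, (2 * (∑ b, w b * h v b)) - ∑ v, ((∑ b, w b * h v b) ^ 2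
        + σ * ∑ b, w b * h v b ^ 2 * (((1 - nb F μ b)⁻¹) ^ #(nbh G v) - 1))
        - ∑ v, (#(nbh G v) : ℝ) * (σ / 2 * (ξ * ∑ b, w b * (h v b ^ 2 * Al b ^ 2 * (1 - nb F μ b))
        + ξ⁻¹ * ∑ b, w b * (h v b ^ 2 * be v b ^ 2 / (1 - nb F μ b)))) := by
    rw [← sum_sub_distrib, ← sum_sub_distrib]
    refine sum_congr rfl fun v _ => ?_
    have e : ∑ b, w b * h v b ^ 2 * ((#(nbh G v) : ℝ)
        * ((ξ * (Al b ^ 2 * (1 - nb F μ b)) + ξ⁻¹ * (be v b ^ 2 / (1 - nb F μ b))) / 2)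
        + (((1 - nb F μ b)⁻¹) ^ #(nbh G v) - 1))
        = (#(nbh G v) : ℝ) / 2 * (ξ * ∑ b, w b * (h v b ^ 2 * Al b ^ 2 * (1 - nb F μ b))
          + ξ⁻¹ * ∑ b, w b * (h v b ^ 2 * be v b ^ 2 / (1 - nb F μ b)))
          + ∑ b, w b * h v b ^ 2 * (((1 - nb F μ b)⁻¹) ^ #(nbh G v) - 1) := by
      simp only [mul_sum]
      rw [← sum_add_distrib, mul_sum, ← sum_add_distrib]
      refine sum_congr rfl fun b _ => ?_
      ring
    rw [e]
    ring
  rw [hfin]
  linarith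

end main

end Pool.Agent.T6A
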