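import Pool.Agent.T6A.Expect2

/-!
# Profiles: `h v b = lam v * l v b` (MP_c6effb_co)

* `sum_nb_le`: `∑ w n ≤ σ`;
* `J_ge`: `∑ w l ≥ w(B_v) - σ / ν` for the linear profile on `B_v`;
* `profile_step`, `sum_pairT_ge_profile`: the bound `2 lam J - lam² J (J + σ d e₀)`.
-/

set_option autoImplicit false
set_option linter.unusedSectionVars false

open Finset

namespace Pool.Agent.T6A

variable {V ι : Type*} [Fintype V] [DecidableEq V] [Fintype ι] [DecidableEq ι]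
variable {F : SimpleGraph ι} [DecidableRel F.Adj] {G : SimpleGraph V} [DecidableRel G.Adj]
  {μ : ι → ℝ}

omit [DecidableEq ι] in
/-- `∑ w n ≤ σ`. -/
theorem sum_nb_le (h0 : ∀ x, 0 ≤ μ x) (h1 : ∑ x, μ x = 1) {w : ι → ℝ} {σ : ℝ}
    (hσa : ∀ a, 0 < μ a → (∑ c, if F.Adj a c then w c else 0) ≤ σ) :
    ∑ b, w b * nb F μ b ≤ σ := by
  have h : ∑ b, w b * nb F μ b = ∑ a, μ a * ∑ c, if F.Adj a c then w c else 0 := by
    unfold nb
    simp only [mul_sum]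
    rw [sum_comm]
    refine sum_congr rfl fun a _ => sum_congr rfl fun c _ => ?_
    by_cases hb : F.Adj a c <;> simp [hb, mul_comm]
  rw [h]
  calc ∑ a, μ a * ∑ c, (if F.Adj a c then w c else 0) ≤ ∑ a, μ a * σ := by
        refine sum_le_sum fun a _ => ?_
        rcases (h0 a).lt_or_eq with hpos | hz
        · exact mul_le_mul_of_nonneg_left (hσa a hpos) (h0 a)
        · rw [← hz]; simp
    _ = σ := by rw [← sum_mul, h1, one_mul]

/-- The linear profile `(1 - n / ν)₊` with `nu' = 1 / ν` on the set `B`. -/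
noncomputable def lin (F : SimpleGraph ι) [DecidableRel F.Adj] (μ : ι → ℝ) (B : Finset ι)
    (nu' : ℝ) (b : ι) : ℝ := if b ∈ B then max 0 (1 - nu' * nb F μ b) else 0

theorem lin_nonneg (B : Finset ι) (nu' : ℝ) (b : ι) : 0 ≤ lin F μ B nu' b := by
  unfold lin
  split_ifs
  · exact le_max_left _ _
  · exact le_rfl

theorem lin_le_one (h0 : ∀ x, 0 ≤ μ x) (B : Finset ι) {nu' : ℝ} (hnu : 0 ≤ nu') (b : ι) :
    lin F μ B nu' b ≤ 1 := by
  unfold lin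
  split_ifs
  · exact max_le zero_le_one (by have := mul_nonneg hnu (nb_nonneg (F := F) h0 b); linarith)
  · exact zero_le_one

/-- `∑ w l ≥ w(B) - σ / ν`. -/
theorem J_ge (h0 : ∀ x, 0 ≤ μ x) (h1 : ∑ x, μ x = 1) {w : ι → ℝ} {σ : ℝ} (hw : ∀ b, 0 ≤ w b)
    (hσa : ∀ a, 0 < μ a → (∑ c, if F.Adj a c then w c else 0) ≤ σ) (B : Finset ι) {nu' : ℝ}
    (hnu : 0 ≤ nu') : ∑ b ∈ B, w b - nu' * σ ≤ ∑ b, w b * lin F μ B nu' b := by
  have h2 : ∑ b, w b * lin F μ B nu' b ≥ ∑ b ∈ B, w b * (1 - nu' * nb F μ b) := by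
    calc ∑ b, w b * lin F μ B nu' b ≥ ∑ b ∈ B, w b * lin F μ B nu' b :=
          sum_le_sum_of_subset_of_nonneg (subset_univ B) fun b _ _ =>
            mul_nonneg (hw b) (lin_nonneg B nu' b)
      _ ≥ _ := by
        refine sum_le_sum fun b hb => mul_le_mul_of_nonneg_left ?_ (hw b)
        rw [lin, if_pos hb]
        exact le_max_right _ _
  have h3 : ∑ b ∈ B, w b * (1 - nu' * nb F μ b)
      = ∑ b ∈ B, w b - nu' * ∑ b ∈ B, w b * nb F μ b := by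
    rw [mul_sum, ← sum_sub_distrib]
    exact sum_congr rfl fun b _ => by ring
  have h4 : ∑ b ∈ B, w b * nb F μ b ≤ ∑ b, w b * nb F μ b :=
    sum_le_sum_of_subset_of_nonneg (subset_univ B) fun b _ _ =>
      mul_nonneg (hw b) (nb_nonneg h0 b)
  have h5 := mul_le_mul_of_nonneg_left (h4.trans (sum_nb_le h0 h1 hσa)) hnu
  linarith

/-- `J ≤ w(B)`. -/
theorem J_le (h0 : ∀ x, 0 ≤ μ x) {w : ι → ℝ} (hw : ∀ b, 0 ≤ w b) (B : Finset ι) {nu' : ℝ}
    (hnu : 0 ≤ nu') : ∑ b, w b * lin F μ B nu' b ≤ ∑ b ∈ B, w b := by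
  rw [← sum_subset (subset_univ B) (f := fun b => w b * lin F μ B nu' b) fun b _ hb => by
    rw [lin, if_neg hb, mul_zero]]
  exact sum_le_sum fun b _ => mul_le_of_le_one_right (hw b) (lin_le_one h0 B hnu b)

omit [DecidableEq ι] in
/-- One vertex: `h = lam l`, `l (d e + P - 1) ≤ d e₀`. -/
theorem profile_step {w l q : ι → ℝ} {lam σ C : ℝ} (hw : ∀ b, 0 ≤ w b) (hl : ∀ b, 0 ≤ l b)
    (hσ : 0 ≤ σ) (hq : ∀ b, 0 < w b → 0 < l b → l b * q b ≤ C) :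
    2 * (lam * ∑ b, w b * l b) - lam ^ 2 * ((∑ b, w b * l b) * ((∑ b, w b * l b) + σ * C))
      ≤ 2 * (∑ b, w b * (lam * l b)) - (∑ b, w b * (lam * l b)) ^ 2
        - σ * ∑ b, w b * (lam * l b) ^ 2 * q b := by
  have e1 : ∑ b, w b * (lam * l b) = lam * ∑ b, w b * l b := by
    rw [mul_sum]; exact sum_congr rfl fun b _ => by ring
  have e2 : ∑ b, w b * (lam * l b) ^ 2 * q b ≤ lam ^ 2 * (C * ∑ b, w b * l b) := by
    rw [mul_sum, mul_sum]
    refine sum_le_sum fun b _ => ?_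
    by_cases hpos : 0 < w b ∧ 0 < l b
    · have h1 := hq b hpos.1 hpos.2
      have h2 : 0 ≤ lam ^ 2 * (w b * l b) := by
        have := mul_nonneg (hw b) (hl b)
        positivity
      calc w b * (lam * l b) ^ 2 * q b = lam ^ 2 * (w b * l b) * (l b * q b) := by ring
        _ ≤ lam ^ 2 * (w b * l b) * C := mul_le_mul_of_nonneg_left h1 h2
        _ = _ := by ring
    · have : w b = 0 ∨ l b = 0 := by
        by_contra hc
        push Not at hc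
        exact hpos ⟨lt_of_le_of_ne (hw b) (Ne.symm hc.1), lt_of_le_of_ne (hl b) (Ne.symm hc.2)⟩
      rcases this with h | h <;> rw [h] <;> simp
  rw [e1]
  have := mul_le_mul_of_nonneg_left e2 hσ
  nlinarith

/-- **The bound with profiles.** The factors `be` of the killers may be replaced by `om` if this is
true after integration (`hkill`; removal of the neighbours of `a`). -/
theorem sum_pairT_ge_profile' (h0 : ∀ x, 0 ≤ μ x) (h1 : ∑ x, μ x = 1) {w : ι → ℝ}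
    {l s al be om : V → ι → ℝ} {Al : ι → ℝ} {lam e0 : V → ℝ}
    {σ ξ : ℝ} (hξ : 0 < ξ) (hw : ∀ b, 0 ≤ w b) (hlam : ∀ v, 0 ≤ lam v) (hl : ∀ v b, 0 ≤ l v b)
    (hn : ∀ v b, 0 < l v b → nb F μ b < 1) (hσ0 : 0 ≤ σ)
    (hσa : ∀ a, 0 < μ a → (∑ c, if F.Adj a c then w c else 0) ≤ σ)
    (hσb : ∀ b, 0 < w b → (∃ v, 0 < l v b) →
      (∑ c, if F.Adj b c then w c else 0) ≤ σ * (1 - nb F μ b))
    (hal : ∀ u b, 0 ≤ al u b) (hbe : ∀ u b, 0 ≤ be u b) (hAl : ∀ u b, al u b ≤ Al b) {a : ι}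
    (hbb : ∀ v u b b', G.Adj v u → F.Adj b b' → ¬ F.Adj a b' → 0 < w b → 0 < w b' →
      0 < l v b → 0 < l u b' → brk F G μ s a u b b' ≤ al u b * be u b')
    (hkill : ∀ v, ∑ b, w b * (l v b ^ 2 * (be v b ^ 2 / (1 - nb F μ b)))
      ≤ ∑ b, w b * (l v b ^ 2 * (om v b ^ 2 / (1 - nb F μ b))))
    (hprof : ∀ v b, 0 < w b → 0 < l v b →
      l v b * ((#(nbh G v) : ℝ)
        * ((ξ * (Al b ^ 2 * (1 - nb F μ b)) + ξ⁻¹ * (om v b ^ 2 / (1 - nb F μ b))) / 2)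
        + (((1 - nb F μ b)⁻¹) ^ #(nbh G v) - 1)) ≤ (#(nbh G v) : ℝ) * e0 v) :
    ∑ v, (2 * (lam v * ∑ b, w b * l v b) - lam v ^ 2 * ((∑ b, w b * l v b)
      * ((∑ b, w b * l v b) + σ * ((#(nbh G v) : ℝ) * e0 v))))
      ≤ ∑ v, pairT F G μ (rate F G μ w fun v b => lam v * l v b) s a v := by
  have hpos : ∀ v b, 0 < lam v * l v b → 0 < l v b := fun v b h =>
    lt_of_le_of_ne (hl v b) (Ne.symm (by
      intro hc
      rw [hc, mul_zero] at h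
      exact lt_irrefl _ h))
  refine le_trans ?_ (sum_pairT_ge (h := fun v b => lam v * l v b) h0 h1 hξ hw
    (fun v b => mul_nonneg (hlam v) (hl v b)) (fun v b h => hn v b (hpos v b h)) hσ0 hσa
    (fun b hb hv => hσb b hb (by
      obtain ⟨v, hv⟩ := hv
      exact ⟨v, hpos v b hv⟩)) hal hbe hAl (fun v u b b' hG hF ha hb hb' h h' =>
      hbb v u b b' hG hF ha hb hb' (hpos v b h) (hpos u b' h')))
  refine sum_le_sum fun v _ => ?_
  refine (profile_step (lam := lam v) hw (hl v) hσ0 (hprof v)).trans ?_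
  have e : ∀ be : V → ι → ℝ, ∑ b, w b * (lam v * l v b) ^ 2 * ((#(nbh G v) : ℝ)
        * ((ξ * (Al b ^ 2 * (1 - nb F μ b)) + ξ⁻¹ * (be v b ^ 2 / (1 - nb F μ b))) / 2)
        + (((1 - nb F μ b)⁻¹) ^ #(nbh G v) - 1))
      = ∑ b, w b * (lam v * l v b) ^ 2 * ((#(nbh G v) : ℝ)
        * ((ξ * (Al b ^ 2 * (1 - nb F μ b))) / 2) + (((1 - nb F μ b)⁻¹) ^ #(nbh G v) - 1))
        + lam v ^ 2 * (#(nbh G v) : ℝ) * ξ⁻¹ / 2
          * ∑ b, w b * (l v b ^ 2 * (be v b ^ 2 / (1 - nb F μ b))) := by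
    intro be
    rw [mul_sum, ← sum_add_distrib]
    exact sum_congr rfl fun b _ => by ring
  rw [e om, e be]
  have h2 : 0 ≤ lam v ^ 2 * (#(nbh G v) : ℝ) * ξ⁻¹ / 2 := by positivity
  have h3 := mul_le_mul_of_nonneg_left (hkill v) h2
  have h4 := mul_le_mul_of_nonneg_left h3 hσ0
  rw [mul_add, mul_add]
  linarith

/-- The same without removal. -/
theorem sum_pairT_ge_profile (h0 : ∀ x, 0 ≤ μ x) (h1 : ∑ x, μ x = 1) {w : ι → ℝ}
    {l s al be : V → ι → ℝ} {Al : ι → ℝ} {lam e0 : V → ℝ}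
    {σ ξ : ℝ} (hξ : 0 < ξ) (hw : ∀ b, 0 ≤ w b) (hlam : ∀ v, 0 ≤ lam v) (hl : ∀ v b, 0 ≤ l v b)
    (hn : ∀ v b, 0 < l v b → nb F μ b < 1) (hσ0 : 0 ≤ σ)
    (hσa : ∀ a, 0 < μ a → (∑ c, if F.Adj a c then w c else 0) ≤ σ)
    (hσb : ∀ b, 0 < w b → (∃ v, 0 < l v b) →
      (∑ c, if F.Adj b c then w c else 0) ≤ σ * (1 - nb F μ b))
    (hal : ∀ u b, 0 ≤ al u b) (hbe : ∀ u b, 0 ≤ be u b) (hAl : ∀ u b, al u b ≤ Al b) {a : ι}
    (hbb : ∀ v u b b', G.Adj v u → F.Adj b b' → ¬ F.Adj a b' → 0 < w b → 0 < w b' →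
      0 < l v b → 0 < l u b' → brk F G μ s a u b b' ≤ al u b * be u b')
    (hprof : ∀ v b, 0 < w b → 0 < l v b →
      l v b * ((#(nbh G v) : ℝ)
        * ((ξ * (Al b ^ 2 * (1 - nb F μ b)) + ξ⁻¹ * (be v b ^ 2 / (1 - nb F μ b))) / 2)
        + (((1 - nb F μ b)⁻¹) ^ #(nbh G v) - 1)) ≤ (#(nbh G v) : ℝ) * e0 v) :
    ∑ v, (2 * (lam v * ∑ b, w b * l v b) - lam v ^ 2 * ((∑ b, w b * l v b)
      * ((∑ b, w b * l v b) + σ * ((#(nbh G v) : ℝ) * e0 v))))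
      ≤ ∑ v, pairT F G μ (rate F G μ w fun v b => lam v * l v b) s a v :=
  sum_pairT_ge_profile' h0 h1 hξ hw hlam hl hn hσ0 hσa hσb hal hbe hAl hbb (fun _ => le_rfl) hprof

end Pool.Agent.T6A
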