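import Pool.Agent.T6A.Expect3

/-!
# Removal of the neighbours of `a` and the linear profile (MP_c6effb_co)

`Pz = ∑ w l² (1 + c₀ n)² / (1 - n)`, `PzS` its part over the neighbours of `a`, `zz = PzS / Pz`.
`sum_pairT_ge_rem`: it is enough that the bracket is at most
`(1 + c₀ n_b) * (om (1 + z / 2) (1 + c₀ n_b'))`.
-/

set_option autoImplicit false
set_option linter.unusedSectionVars false

open Finset

namespace Pool.Agent.T6A

variable {V ι : Type*} [Fintype V] [DecidableEq V] [Fintype ι] [DecidableEq ι]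
variable (F : SimpleGraph ι) [DecidableRel F.Adj] (μ : ι → ℝ)

/-- `P = ∑ w l² (1 + c₀ n)² / (1 - n)` -/
noncomputable def Pz (w l : ι → ℝ) (c0 : ℝ) : ℝ :=
  ∑ b, w b * (l b ^ 2 * ((1 + c0 * nb F μ b) ^ 2 / (1 - nb F μ b)))

/-- The part of `P` over the neighbours of `a`. -/
noncomputable def PzS (w l : ι → ℝ) (c0 : ℝ) (a : ι) : ℝ :=
  ∑ b, if F.Adj a b then w b * (l b ^ 2 * ((1 + c0 * nb F μ b) ^ 2 / (1 - nb F μ b))) else 0

/-- The proportion of `P` over the neighbours of `a`. -/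
noncomputable def zz (w l : ι → ℝ) (c0 : ℝ) (a : ι) : ℝ := PzS F μ w l c0 a / Pz F μ w l c0

variable {F μ}

theorem Pz_term_nonneg {w l : ι → ℝ} (hw : ∀ b, 0 ≤ w b) (hn : ∀ b, 0 < l b → nb F μ b < 1)
    (hl : ∀ b, 0 ≤ l b) (c0 : ℝ) (b : ι) :
    0 ≤ w b * (l b ^ 2 * ((1 + c0 * nb F μ b) ^ 2 / (1 - nb F μ b))) := by
  rcases (hl b).lt_or_eq with hpos | hz
  · have : 0 < 1 - nb F μ b := by linarith [hn b hpos]
    exact mul_nonneg (hw b) (by positivity)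
  · rw [← hz]; simp

theorem Pz_nonneg {w l : ι → ℝ} (hw : ∀ b, 0 ≤ w b) (hn : ∀ b, 0 < l b → nb F μ b < 1)
    (hl : ∀ b, 0 ≤ l b) (c0 : ℝ) : 0 ≤ Pz F μ w l c0 :=
  sum_nonneg fun b _ => Pz_term_nonneg hw hn hl c0 b

theorem PzS_nonneg {w l : ι → ℝ} (hw : ∀ b, 0 ≤ w b) (hn : ∀ b, 0 < l b → nb F μ b < 1)
    (hl : ∀ b, 0 ≤ l b) (c0 : ℝ) (a : ι) : 0 ≤ PzS F μ w l c0 a :=
  sum_nonneg fun b _ => by
    split_ifs
    · exact Pz_term_nonneg hw hn hl c0 b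
    · exact le_rfl

theorem PzS_le {w l : ι → ℝ} (hw : ∀ b, 0 ≤ w b) (hn : ∀ b, 0 < l b → nb F μ b < 1)
    (hl : ∀ b, 0 ≤ l b) (c0 : ℝ) (a : ι) : PzS F μ w l c0 a ≤ Pz F μ w l c0 :=
  sum_le_sum fun b _ => by
    split_ifs
    · exact le_rfl
    · exact Pz_term_nonneg hw hn hl c0 b

theorem zz_nonneg {w l : ι → ℝ} (hw : ∀ b, 0 ≤ w b) (hn : ∀ b, 0 < l b → nb F μ b < 1)
    (hl : ∀ b, 0 ≤ l b) (c0 : ℝ) (a : ι) : 0 ≤ zz F μ w l c0 a :=
  div_nonneg (PzS_nonneg hw hn hl c0 a) (Pz_nonneg hw hn hl c0)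

theorem zz_le_one {w l : ι → ℝ} (hw : ∀ b, 0 ≤ w b) (hn : ∀ b, 0 < l b → nb F μ b < 1)
    (hl : ∀ b, 0 ≤ l b) (c0 : ℝ) (a : ι) : zz F μ w l c0 a ≤ 1 :=
  div_le_one_of_le₀ (PzS_le hw hn hl c0 a) (Pz_nonneg hw hn hl c0)

/-- `(1 + z/2)² (P - P_S) ≤ P`. -/
theorem rem_le {w l : ι → ℝ} (hw : ∀ b, 0 ≤ w b) (hn : ∀ b, 0 < l b → nb F μ b < 1)
    (hl : ∀ b, 0 ≤ l b) (c0 : ℝ) (a : ι) :
    (1 + zz F μ w l c0 a / 2) ^ 2 * (Pz F μ w l c0 - PzS F μ w l c0 a) ≤ Pz F μ w l c0 := by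
  have hP := Pz_nonneg hw hn hl c0
  rcases hP.lt_or_eq with hpos | hz
  · have h1 := zz_nonneg hw hn hl c0 a
    have h2 := zz_le_one hw hn hl c0 a
    have h3 : PzS F μ w l c0 a = zz F μ w l c0 a * Pz F μ w l c0 := by
      unfold zz
      rw [div_mul_cancel₀ _ hpos.ne']
    rw [h3]
    obtain ⟨z, hz⟩ : ∃ z, z = zz F μ w l c0 a := ⟨_, rfl⟩
    rw [← hz] at h1 h2 ⊢
    have h4 : (1 + z / 2) ^ 2 * (1 - z) ≤ 1 := by
      nlinarith [mul_nonneg h1 h1, mul_nonneg (mul_nonneg h1 h1) h1]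
    calc _ = ((1 + z / 2) ^ 2 * (1 - z)) * Pz F μ w l c0 := by ring
      _ ≤ 1 * Pz F μ w l c0 := mul_le_mul_of_nonneg_right h4 hP
      _ = _ := one_mul _
  · have h3 := PzS_le hw hn hl c0 a
    have h4 := PzS_nonneg hw hn hl c0 a
    rw [← hz] at h3 ⊢
    have : PzS F μ w l c0 a = 0 := le_antisymm h3 h4
    rw [this]; simp

variable {G : SimpleGraph V} [DecidableRel G.Adj]

/-- **The bound with profiles and with the removal of the neighbours of `a`.** -/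
theorem sum_pairT_ge_rem (h0 : ∀ x, 0 ≤ μ x) (h1 : ∑ x, μ x = 1) {w : ι → ℝ}
    {l s : V → ι → ℝ} {lam e0 om : V → ℝ} {σ ξ c0 : ℝ} (hξ : 0 < ξ) (hc0 : 0 ≤ c0)
    (hw : ∀ b, 0 ≤ w b) (hlam : ∀ v, 0 ≤ lam v) (hl : ∀ v b, 0 ≤ l v b)
    (hn : ∀ v b, 0 < l v b → nb F μ b < 1) (hσ0 : 0 ≤ σ) (hom : ∀ v, 0 ≤ om v)
    (hσa : ∀ a, 0 < μ a → (∑ c, if F.Adj a c then w c else 0) ≤ σ)
    (hσb : ∀ b, 0 < w b → (∃ v, 0 < l v b) →
      (∑ c, if F.Adj b c then w c else 0) ≤ σ * (1 - nb F μ b))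
    {a : ι}
    (hbb : ∀ v u b b', G.Adj v u → F.Adj b b' → ¬ F.Adj a b' → 0 < w b → 0 < w b' →
      0 < l v b → 0 < l u b' → brk F G μ s a u b b' ≤ (1 + c0 * nb F μ b)
        * (om u * (1 + zz F μ w (l u) c0 a / 2) * (1 + c0 * nb F μ b')))
    (hprof : ∀ v b, 0 < w b → 0 < l v b →
      l v b * ((#(nbh G v) : ℝ) * ((1 + c0 * nb F μ b) ^ 2
        * (ξ * (1 - nb F μ b) + ξ⁻¹ * (om v ^ 2 / (1 - nb F μ b))) / 2)
        + (((1 - nb F μ b)⁻¹) ^ #(nbh G v) - 1)) ≤ (#(nbh G v) : ℝ) * e0 v) :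
    ∑ v, (2 * (lam v * ∑ b, w b * l v b) - lam v ^ 2 * ((∑ b, w b * l v b)
      * ((∑ b, w b * l v b) + σ * ((#(nbh G v) : ℝ) * e0 v))))
      ≤ ∑ v, pairT F G μ (rate F G μ w fun v b => lam v * l v b) s a v := by
  have hy : ∀ b, 0 ≤ 1 + c0 * nb F μ b := fun b => by
    have := mul_nonneg hc0 (nb_nonneg (F := F) h0 b)
    linarith
  refine sum_pairT_ge_profile' (al := fun _ b => 1 + c0 * nb F μ b)
    (be := fun u b => if F.Adj a b then 0 else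
      om u * (1 + zz F μ w (l u) c0 a / 2) * (1 + c0 * nb F μ b))
    (om := fun u b => om u * (1 + c0 * nb F μ b)) (Al := fun b => 1 + c0 * nb F μ b)
    h0 h1 hξ hw hlam hl hn hσ0 hσa hσb (fun _ b => hy b) ?_ (fun _ _ => le_rfl) ?_ ?_ ?_
  · intro u b
    split_ifs
    · exact le_rfl
    · have := zz_nonneg hw (hn u) (hl u) c0 a
      exact mul_nonneg (mul_nonneg (hom u) (by linarith)) (hy b)
  · intro v u b b' hG hF ha hb hb' h h'
    have := hbb v u b b' hG hF ha hb hb' h h'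
    rw [if_neg ha]
    exact this
  · intro v
    have e1 : ∑ b, w b * (l v b ^ 2 * ((if F.Adj a b then 0 else
        om v * (1 + zz F μ w (l v) c0 a / 2) * (1 + c0 * nb F μ b)) ^ 2 / (1 - nb F μ b)))
        = om v ^ 2 * ((1 + zz F μ w (l v) c0 a / 2) ^ 2
          * (Pz F μ w (l v) c0 - PzS F μ w (l v) c0 a)) := by
      unfold Pz PzS
      rw [← sum_sub_distrib, mul_sum, mul_sum]
      refine sum_congr rfl fun b _ => ?_
      by_cases hab : F.Adj a b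
      · rw [if_pos hab, if_pos hab]; simp
      · rw [if_neg hab, if_neg hab]; ring
    have e2 : ∑ b, w b * (l v b ^ 2 * ((om v * (1 + c0 * nb F μ b)) ^ 2 / (1 - nb F μ b)))
        = om v ^ 2 * Pz F μ w (l v) c0 := by
      unfold Pz
      rw [mul_sum]
      exact sum_congr rfl fun b _ => by ring
    rw [e1, e2]
    exact mul_le_mul_of_nonneg_left (rem_le hw (hn v) (hl v) c0 a) (sq_nonneg _)
  · intro v b hb hlb
    refine le_of_eq_of_le ?_ (hprof v b hb hlb)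
    ring

end Pool.Agent.T6A
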