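import Pool.Agent.T6A.Expect3

/-!
# The chain with the exact number of common neighbours and arbitrary factors (MP_c6effb_co)

`brj F G μ s a v u b b'` is the exact edge factor: with `z = 1 - n_b - n_b'`, `j` = number of common
neighbours, `i = d_u - 1 - j`:
`(z / (y_b y_b'))^j (1 - 1/(1 + ∑ s_c) ∑ s_c kz(y_b', n_c, i) kz(z, n_c, j))`.
`pairB` is the lower bound with an arbitrary edge factor `br`, `exp1B` proves it for `brj`,
`sum_pairB_ge` and `sum_pairB_ge_profile'` are the separable bounds.
-/

set_option autoImplicit false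
set_option linter.unusedSectionVars false

open Finset

namespace Pool.Agent.T6A

variable {V ι : Type*} [Fintype V] [DecidableEq V] [Fintype ι] [DecidableEq ι]

section factor

variable {F : SimpleGraph ι} [DecidableRel F.Adj] {μ : ι → ℝ} {S S' : Finset V} {x : V}

theorem pow_kz_le {z n q : ℝ} (hz : 0 ≤ z) (hq : 0 ≤ q) (hzq : z - n ≤ q) (j : ℕ) :
    z ^ j * kz z n j ≤ q ^ j := by
  rcases hz.lt_or_eq with hz0 | hz0
  · rw [kz_of_pos hz0, ← mul_pow]
    have hm : 0 ≤ max 0 (1 - n / z) := le_max_left _ _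
    refine pow_le_pow_left₀ (mul_nonneg hz0.le hm) ?_ _
    rcases max_cases (0:ℝ) (1 - n / z) with ⟨h, _⟩ | ⟨h, _⟩
    · rw [h, mul_zero]; exact hq
    · rw [h]
      refine le_trans ?_ hzq
      have h2 : z * (n / z) = n := by field_simp
      linarith
  · have : kz z n j = 0 := by
      unfold kz
      rw [if_neg]
      rw [← hz0]
      exact lt_irrefl _
    rw [this, mul_zero]
    positivity

/-- The three-point bound with the exact number of common neighbours. -/
theorem three_point_ge' (h0 : ∀ x, 0 ≤ μ x) (h1 : ∑ x, μ x = 1) (hF : F.CliqueFree 3)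
    (hx : x ∉ S) (hx' : x ∈ S') {a b b' c : ι} (hbb : F.Adj b b') (hab : ¬ F.Adj a b')
    (hac : ¬ F.Adj a c) :
    (1 - nb F μ b) ^ #(S \ S') * (1 - nb F μ b') ^ (#(S' \ S) - 1)
        * (1 - nb F μ b - nb F μ b') ^ #(S ∩ S')
        * (kz (1 - nb F μ b') (nb F μ c) (#(S' \ S) - 1)
          * kz (1 - nb F μ b - nb F μ b') (nb F μ c) #(S ∩ S'))
      ≤ EE (fun _ => μ) (fun g => il F S b (Function.update g x a)
        * (il F S' b' (Function.update g x a) * il F S' c (Function.update g x a))) := by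
  rw [EE_il_il_il_update h0 h1 hx hx', if_neg hab, if_neg hac, one_mul, one_mul]
  have hcod := cod_eq_zero (μ := μ) hF hbb
  have hz : 0 ≤ 1 - nb F μ b - nb F μ b' := by
    have := fr_pair_nonneg (F := F) h0 h1 b b'
    rw [hcod, add_zero] at this
    exact this
  have hnb := nb_nonneg (F := F) h0 b
  have hnb' := nb_nonneg (F := F) h0 b'
  have k1 := pow_kz_le (z := 1 - nb F μ b') (n := nb F μ c)
    (q := 1 - nb F μ b' - nb F μ c + cod F μ b' c) (by linarith) (fr_pair_nonneg h0 h1 b' c)
    (by have := cod_nonneg (F := F) h0 b' c; linarith) (#(S' \ S) - 1)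
  have k2 := pow_kz_le (z := 1 - nb F μ b - nb F μ b') (n := nb F μ c)
    (q := ∑ x, μ x * ((if F.Adj x b then 0 else 1)
          * ((if F.Adj x b' then 0 else 1) * (if F.Adj x c then 0 else 1))))
    hz (three_nonneg h0 b b' c) (three_ge h0 h1 b b' c) #(S ∩ S')
  have hb1 : 0 ≤ (1 - nb F μ b) ^ #(S \ S') := pow_nonneg (by linarith) _
  have k3 := mul_le_mul k1 k2 (mul_nonneg (pow_nonneg hz _) (kz_nonneg _ _ _))
    (pow_nonneg (fr_pair_nonneg h0 h1 b' c) _)
  have := mul_le_mul_of_nonneg_left k3 hb1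
  calc _ = (1 - nb F μ b) ^ #(S \ S') * ((1 - nb F μ b') ^ (#(S' \ S) - 1)
        * kz (1 - nb F μ b') (nb F μ c) (#(S' \ S) - 1)
        * ((1 - nb F μ b - nb F μ b') ^ #(S ∩ S')
        * kz (1 - nb F μ b - nb F μ b') (nb F μ c) #(S ∩ S'))) := by ring
    _ ≤ _ := this
    _ = _ := by ring

/-- One pair `b ~ b'` with the killing factor, exact number of common neighbours. -/
theorem pair_factor_exact (h0 : ∀ x, 0 ≤ μ x) (h1 : ∑ x, μ x = 1) (hF : F.CliqueFree 3)
    (hx : x ∉ S) (hx' : x ∈ S') {a b b' : ι} (hbb : F.Adj b b') {t : ι → ℝ} (ht : ∀ c, 0 ≤ t c)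
    (htac : ∀ c, F.Adj a c → t c = 0) :
    EE (fun _ => μ) (fun g => il F S b (Function.update g x a)
        * (il F S' b' (Function.update g x a)
          * (1 - ∑ c, t c * il F S' c (Function.update g x a))))
      ≤ (if F.Adj a b' then 0 else 1) * ((1 - nb F μ b) ^ #(S \ S')
        * (1 - nb F μ b') ^ (#(S' \ S) - 1) * (1 - nb F μ b - nb F μ b') ^ #(S ∩ S')
        * (1 - ∑ c, t c * (kz (1 - nb F μ b') (nb F μ c) (#(S' \ S) - 1)
          * kz (1 - nb F μ b - nb F μ b') (nb F μ c) #(S ∩ S')))) := by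
  have hcod := cod_eq_zero (μ := μ) hF hbb
  have e : (fun g : V → ι => il F S b (Function.update g x a)
        * (il F S' b' (Function.update g x a)
          * (1 - ∑ c, t c * il F S' c (Function.update g x a))))
      = fun g => il F S b (Function.update g x a) * il F S' b' (Function.update g x a)
        - ∑ c, t c * (il F S b (Function.update g x a)
          * (il F S' b' (Function.update g x a) * il F S' c (Function.update g x a))) := by
    funext g
    rw [mul_sub, mul_one, mul_sub, mul_sum, mul_sum]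
    congr 1
    exact sum_congr rfl fun c _ => by ring
  rw [e, EE_sub, EE_sum, EE_il_il_update h0 h1 hx hx', hcod, add_zero]
  simp only [EE_smul]
  by_cases hab : F.Adj a b'
  · rw [if_pos hab, zero_mul, zero_mul]
    have : 0 ≤ ∑ c, t c * EE (fun _ => μ) (fun g => il F S b (Function.update g x a)
          * (il F S' b' (Function.update g x a) * il F S' c (Function.update g x a))) :=
      sum_nonneg fun c _ => mul_nonneg (ht c) (EE_nonneg (isLaw_const h0 h1) fun g =>
        mul_nonneg (il_nonneg _ _ _) (mul_nonneg (il_nonneg _ _ _) (il_nonneg _ _ _)))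
    linarith
  rw [if_neg hab, one_mul, one_mul]
  have h2 : ∀ c ∈ (univ : Finset ι),
      t c * ((1 - nb F μ b) ^ #(S \ S') * (1 - nb F μ b') ^ (#(S' \ S) - 1)
        * (1 - nb F μ b - nb F μ b') ^ #(S ∩ S')
        * (kz (1 - nb F μ b') (nb F μ c) (#(S' \ S) - 1)
          * kz (1 - nb F μ b - nb F μ b') (nb F μ c) #(S ∩ S')))
      ≤ t c * EE (fun _ => μ) (fun g => il F S b (Function.update g x a)
          * (il F S' b' (Function.update g x a) * il F S' c (Function.update g x a))) := by
    intro c _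
    by_cases hac : F.Adj a c
    · rw [htac c hac, zero_mul, zero_mul]
    · exact mul_le_mul_of_nonneg_left (three_point_ge' h0 h1 hF hx hx' hbb hab hac) (ht c)
  have h3 := sum_le_sum h2
  have h4 : (1 - nb F μ b) ^ #(S \ S')
        * (1 - nb F μ b') ^ (#(S' \ S) - 1) * (1 - nb F μ b - nb F μ b') ^ #(S ∩ S')
        * (1 - ∑ c, t c * (kz (1 - nb F μ b') (nb F μ c) (#(S' \ S) - 1)
          * kz (1 - nb F μ b - nb F μ b') (nb F μ c) #(S ∩ S')))
      = (1 - nb F μ b) ^ #(S \ S')
        * (1 - nb F μ b') ^ (#(S' \ S) - 1) * (1 - nb F μ b - nb F μ b') ^ #(S ∩ S')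
        - ∑ c, t c * ((1 - nb F μ b) ^ #(S \ S') * (1 - nb F μ b') ^ (#(S' \ S) - 1)
        * (1 - nb F μ b - nb F μ b') ^ #(S ∩ S')
        * (kz (1 - nb F μ b') (nb F μ c) (#(S' \ S) - 1)
          * kz (1 - nb F μ b - nb F μ b') (nb F μ c) #(S ∩ S'))) := by
    rw [mul_sub, mul_one, mul_sum]
    congr 1
    exact sum_congr rfl fun c _ => by ring
  rw [h4]
  linarith

end factor

section exp1

variable (F : SimpleGraph ι) [DecidableRel F.Adj] (G : SimpleGraph V) [DecidableRel G.Adj]
  (μ : ι → ℝ)

/-- The exact edge factor. -/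
noncomputable def brj (s : V → ι → ℝ) (a : ι) (v u : V) (b b' : ι) : ℝ :=
  ((1 - nb F μ b - nb F μ b') / ((1 - nb F μ b) * (1 - nb F μ b'))) ^ #(nbh G v ∩ nbh G u)
    * (1 - 1 / (1 + ∑ c, sab F s u a b c) * ∑ c, sab F s u a b c *
      (kz (1 - nb F μ b') (nb F μ c) (#(nbh G u \ nbh G v) - 1)
        * kz (1 - nb F μ b - nb F μ b') (nb F μ c) #(nbh G v ∩ nbh G u)))

/-- The cost of the ordered edge `(v, u)` with the edge factor `br`. -/
noncomputable def costB (r : V → ι → ℝ) (br : V → V → ι → ι → ℝ) (a : ι) (v u : V) : ℝ :=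
  ∑ b, ∑ b', if F.Adj b b' ∧ ¬ F.Adj a b' then
    r v b * (1 - nb F μ b) ^ #(nbh G v) * (r u b' * (1 - nb F μ b') ^ (#(nbh G u) - 1))
      * br v u b b' else 0

/-- The lower bound for the expectation, vertex `v`, given `g v = a`, edge factor `br`. -/
noncomputable def pairB (r : V → ι → ℝ) (br : V → V → ι → ι → ℝ) (a : ι) (v : V) : ℝ :=
  ∑ b, 2 * (r v b * (1 - nb F μ b) ^ #(nbh G v))
    - ∑ b, ∑ c, r v b * r v c * (1 - nb F μ b - nb F μ c + cod F μ b c) ^ #(nbh G v)
    - ∑ u ∈ nbh G v, costB F G μ r br a v u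

variable {F G μ}

/-- **EXP1** with the exact edge factor. -/
theorem exp1B (h0 : ∀ x, 0 ≤ μ x) (h1 : ∑ x, μ x = 1) (hF : F.CliqueFree 3)
    {r s : V → ι → ℝ} (hr : ∀ u c, 0 ≤ r u c) (hrn : ∀ u c, 0 < r u c → nb F μ c < 1)
    (hs : ∀ u c, 0 ≤ s u c) (hsr : ∀ u c, s u c ≤ r u c) (v : V) (a : ι) :
    pairB F G μ r (brj F G μ s a) a v
      ≤ ∑ b, EE (fun _ => μ) (fun g => (fun g : V → ι => r v b * (il F (nbh G v) b g *
          (2 - Xk F G r v g - ∑ u ∈ nbh G v, Nk F G r u b g / (1 + Mk F G r u b g))))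
            (Function.update g v a)) := by
  have hlaw := isLaw_const (V := V) h0 h1
  have hv : v ∉ nbh G v := by simp [nbh]
  unfold pairB
  rw [← sum_sub_distrib]
  have hswap : ∑ u ∈ nbh G v, costB F G μ r (brj F G μ s a) a v u =
      ∑ b, ∑ u ∈ nbh G v, ∑ b', if F.Adj b b' ∧ ¬ F.Adj a b' then
          r v b * (1 - nb F μ b) ^ #(nbh G v) * (r u b' * (1 - nb F μ b') ^ (#(nbh G u) - 1)) *
            brj F G μ s a v u b b' else 0 := by
    unfold costB
    exact sum_comm
  rw [hswap, ← sum_sub_distrib]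
  refine sum_le_sum fun b _ => ?_
  have hrb := hr v b
  -- the pointwise bound
  set t : V → ι → ℝ := fun u c => 1 / (1 + ∑ c, sab F s u a b c) * sab F s u a b c with ht
  have hS : ∀ u, 0 ≤ ∑ c, sab F s u a b c := fun u =>
    sum_nonneg fun c _ => sab_nonneg hs u a b c
  have ht0 : ∀ u c, 0 ≤ t u c := fun u c =>
    mul_nonneg (one_div_nonneg.2 (by linarith [hS u])) (sab_nonneg hs u a b c)
  have hta : ∀ u c, F.Adj a c → t u c = 0 := by
    intro u c hac
    simp only [ht, sab, if_pos (Or.inr hac : F.Adj b c ∨ F.Adj a c), mul_zero]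
  have hpt : ∀ g : V → ι, r v b * (il F (nbh G v) b g * (2 - Xk F G r v g)) -
      (∑ u ∈ nbh G v, ∑ b', if F.Adj b b' then r v b * (r u b' * (il F (nbh G v) b g *
        (il F (nbh G u) b' g * (1 - ∑ c, t u c * il F (nbh G u) c g)))) else 0) ≤
      r v b * (il F (nbh G v) b g *
          (2 - Xk F G r v g - ∑ u ∈ nbh G v, Nk F G r u b g / (1 + Mk F G r u b g))) := by
    intro g
    have hi := il_nonneg (F := F) (nbh G v) b g
    have e1 : ∑ u ∈ nbh G v, Nk F G r u b g / (1 + Mk F G r u b g) ≤
        ∑ u ∈ nbh G v, ∑ b', if F.Adj b b' then r u b' * (il F (nbh G u) b' g *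
        (1 - ∑ c, t u c * il F (nbh G u) c g)) else 0 :=
      sum_le_sum fun u _ => Nk_div_le hr hs hsr u a b g
    have e2 := mul_le_mul_of_nonneg_left e1 (mul_nonneg hrb hi)
    have e3 : r v b * il F (nbh G v) b g * (∑ u ∈ nbh G v, ∑ b', if F.Adj b b' then
          r u b' * (il F (nbh G u) b' g * (1 - ∑ c, t u c * il F (nbh G u) c g)) else 0) =
        ∑ u ∈ nbh G v, ∑ b', if F.Adj b b' then r v b * (r u b' * (il F (nbh G v) b g *
        (il F (nbh G u) b' g * (1 - ∑ c, t u c * il F (nbh G u) c g)))) else 0 := by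
      rw [mul_sum]
      refine sum_congr rfl fun u _ => ?_
      rw [mul_sum]
      refine sum_congr rfl fun b' _ => ?_
      by_cases hb : F.Adj b b'
      · rw [if_pos hb, if_pos hb]; ring
      · rw [if_neg hb, if_neg hb, mul_zero]
    rw [e3] at e2
    have e4 : r v b * (il F (nbh G v) b g *
          (2 - Xk F G r v g - ∑ u ∈ nbh G v, Nk F G r u b g / (1 + Mk F G r u b g))) =
        r v b * (il F (nbh G v) b g * (2 - Xk F G r v g)) - r v b * il F (nbh G v) b g *
          ∑ u ∈ nbh G v, Nk F G r u b g / (1 + Mk F G r u b g) := by ring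
    rw [e4]
    linarith
  -- the expectation
  refine le_trans ?_ (EE_mono hlaw fun g => hpt (Function.update g v a))
  rw [EE_sub]
  have eA : EE (fun _ => μ) (fun g : V → ι => r v b * (il F (nbh G v) b (Function.update g v a) *
      (2 - Xk F G r v (Function.update g v a)))) =
      2 * (r v b * (1 - nb F μ b) ^ #(nbh G v)) -
      ∑ c, r v b * r v c * (1 - nb F μ b - nb F μ c + cod F μ b c) ^ #(nbh G v) := by
    have e : (fun g : V → ι => r v b * (il F (nbh G v) b (Function.update g v a) *
        (2 - Xk F G r v (Function.update g v a)))) =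
        fun g => 2 * r v b * il F (nbh G v) b (Function.update g v a) -
          ∑ c, r v b * r v c * (il F (nbh G v) b (Function.update g v a) *
            il F (nbh G v) c (Function.update g v a)) := by
      funext g
      have : r v b * (il F (nbh G v) b (Function.update g v a) *
        (2 - Xk F G r v (Function.update g v a))) =
          2 * r v b * il F (nbh G v) b (Function.update g v a) -
          r v b * il F (nbh G v) b (Function.update g v a) *
            Xk F G r v (Function.update g v a) := by ring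
      rw [this, Xk, mul_sum]
      congr 1
      exact sum_congr rfl fun c _ => by ring
    rw [e, EE_sub, EE_smul, EE_il_update h0 h1 hv, EE_sum]
    congr 1
    · ring
    · refine sum_congr rfl fun c _ => ?_
      rw [EE_smul, EE_il_il_same_update h0 h1 hv]
  have eB : EE (fun _ => μ) (fun g : V → ι => ∑ u ∈ nbh G v, ∑ b', if F.Adj b b' then
      r v b * (r u b' * (il F (nbh G v) b (Function.update g v a) *
        (il F (nbh G u) b' (Function.update g v a) *
          (1 - ∑ c, t u c * il F (nbh G u) c (Function.update g v a))))) else 0) ≤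
      ∑ u ∈ nbh G v, ∑ b', if F.Adj b b' ∧ ¬ F.Adj a b' then
          r v b * (1 - nb F μ b) ^ #(nbh G v) * (r u b' * (1 - nb F μ b') ^ (#(nbh G u) - 1)) *
            brj F G μ s a v u b b' else 0 := by
    rw [EE_sum]
    refine sum_le_sum fun u hu => ?_
    rw [EE_sum]
    refine sum_le_sum fun b' _ => ?_
    have huv : v ∈ nbh G u := mem_nbh.2 (mem_nbh.1 hu).symm
    by_cases hb : F.Adj b b'
    · simp only [if_pos hb]
      have e : (fun g : V → ι => r v b * (r u b' * (il F (nbh G v) b (Function.update g v a) *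
        (il F (nbh G u) b' (Function.update g v a) *
          (1 - ∑ c, t u c * il F (nbh G u) c (Function.update g v a)))))) =
          fun g => r v b * r u b' * (il F (nbh G v) b (Function.update g v a) *
        (il F (nbh G u) b' (Function.update g v a) *
          (1 - ∑ c, t u c * il F (nbh G u) c (Function.update g v a)))) := by
        funext g; ring
      rw [e, EE_smul]
      have h5 := pair_factor_exact h0 h1 hF hv huv (a := a) hb (ht0 u) (hta u)
      have h6 := mul_le_mul_of_nonneg_left h5 (mul_nonneg hrb (hr u b'))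
      refine h6.trans (le_of_eq ?_)
      have e7 : ∑ c, t u c * (kz (1 - nb F μ b') (nb F μ c) (#(nbh G u \ nbh G v) - 1)
          * kz (1 - nb F μ b - nb F μ b') (nb F μ c) #(nbh G v ∩ nbh G u)) =
          1 / (1 + ∑ c, sab F s u a b c) * ∑ c, sab F s u a b c *
            (kz (1 - nb F μ b') (nb F μ c) (#(nbh G u \ nbh G v) - 1)
          * kz (1 - nb F μ b - nb F μ b') (nb F μ c) #(nbh G v ∩ nbh G u)) := by
        rw [mul_sum]
        exact sum_congr rfl fun c _ => by simp only [ht]; ring
      rw [e7]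
      by_cases hab : F.Adj a b'
      · rw [if_pos hab, if_neg (fun h => h.2 hab)]; ring
      · rw [if_neg hab, if_pos ⟨hb, hab⟩]
        by_cases hpos : 0 < r v b ∧ 0 < r u b'
        · have hy : (1 - nb F μ b) ≠ 0 := by linarith [hrn v b hpos.1]
          have hy' : (1 - nb F μ b') ≠ 0 := by linarith [hrn u b' hpos.2]
          have hc1 : #(nbh G v) = #(nbh G v \ nbh G u) + #(nbh G v ∩ nbh G u) :=
            (card_sdiff_add_card_inter _ _).symm
          have hc2 : #(nbh G u) - 1 = (#(nbh G u \ nbh G v) - 1) + #(nbh G v ∩ nbh G u) := by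
            have e1 := card_sdiff_add_card_inter (nbh G u) (nbh G v)
            have e2 : 0 < #(nbh G u \ nbh G v) := card_pos.2 ⟨v, mem_sdiff.2 ⟨huv, hv⟩⟩
            rw [inter_comm (nbh G v) (nbh G u)]
            omega
          have key : (1 - nb F μ b) ^ #(nbh G v) * (1 - nb F μ b') ^ (#(nbh G u) - 1)
              * ((1 - nb F μ b - nb F μ b') / ((1 - nb F μ b) * (1 - nb F μ b')))
                ^ #(nbh G v ∩ nbh G u)
              = (1 - nb F μ b) ^ #(nbh G v \ nbh G u)
                * (1 - nb F μ b') ^ (#(nbh G u \ nbh G v) - 1)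
                * (1 - nb F μ b - nb F μ b') ^ #(nbh G v ∩ nbh G u) := by
            rw [hc2]
            conv_lhs => rw [hc1]
            rw [pow_add, pow_add, div_pow, mul_pow]
            field_simp
          unfold brj
          obtain ⟨E, hE⟩ : ∃ E, E = (1 - 1 / (1 + ∑ c, sab F s u a b c) * ∑ c,
              sab F s u a b c * (kz (1 - nb F μ b') (nb F μ c) (#(nbh G u \ nbh G v) - 1)
              * kz (1 - nb F μ b - nb F μ b') (nb F μ c) #(nbh G v ∩ nbh G u))) := ⟨_, rfl⟩
          rw [← hE]
          calc _ = r v b * r u b' * ((1 - nb F μ b) ^ #(nbh G v \ nbh G u)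
                * (1 - nb F μ b') ^ (#(nbh G u \ nbh G v) - 1)
                * (1 - nb F μ b - nb F μ b') ^ #(nbh G v ∩ nbh G u)) * E := by ring
            _ = _ := by rw [← key]; ring
        · have hz : r v b = 0 ∨ r u b' = 0 := by
            by_contra hc
            push Not at hc
            exact hpos ⟨lt_of_le_of_ne hrb (Ne.symm hc.1), lt_of_le_of_ne (hr u b') (Ne.symm hc.2)⟩
          rcases hz with h | h <;> rw [h] <;> ring
    · simp only [if_neg hb]
      rw [if_neg (fun h => hb h.1), EE_const hlaw]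
  rw [eA]
  linarith

end exp1

end Pool.Agent.T6A
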