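import Pool.Agent.T6A.Expect5
import Pool.Agent.T6A.MuB

/-!
# The expectation with the linear profile and the numeric conditions (MP_c6effb_co)

`MubOK` collects the numeric hypotheses of `mub`, `VtxOK` all numeric conditions of one vertex.
`sum_pairT_ge_num`: the lower bound `∑ v, (2 lam J - lam² J (J + σ d e₀))`.
-/

set_option autoImplicit false
set_option linter.unusedSectionVars false

open Finset

namespace Pool.Agent.T6A

/-- The numeric hypotheses of `mub` for total weight `W` of the list and degree `d`. -/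
structure MubOK (W sg lam mu B th ka c0 inv nuh : ℝ) (d : ℕ) : Prop where
  hd : 1 ≤ d
  hinv : 1 + c0 ≤ inv
  hnuh0 : 0 < nuh
  hnuh1 : nuh * inv ≤ 1
  hlam : 0 ≤ lam
  hth0 : 0 < th
  hth2 : th ≤ 2
  M1 : ∀ x, 0 ≤ x → x ≤ nuh → (1 - mu) - B * x ≤ lf inv x * (1 / (1 - x) - mu / (1 - x) ^ d)
  M1' : ∀ x, 0 ≤ x → x ≤ nuh → lf inv x * (1 / (1 - x) - mu / (1 - x) ^ d) ≤ 1 - mu
  M2 : 1 - mu ≤ B * nuh
  M3 : ∀ x, 0 ≤ x → x ≤ nuh → th * (1 - mu / (1 - x) ^ (d - 1)) ≤ (1 - mu) * lf inv x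
  S1 : ∀ s x, 0 < s → s ≤ 1 / 2 → 0 ≤ x → x ≤ nuh →
      lf inv x / (1 - x) ^ d * ((1 - x) ^ (d - 1) - (max 0 (1 - x / (1 - s))) ^ (d - 1)
        - s * (1 - mu) * c0) ≤ s * ka
  A0 : ∀ x, 0 ≤ x → x ≤ nuh → 2 * lf inv x ^ 2 * (1 + c0 * x) ^ 2 / (1 - x) ≤
      (2 - th) + th * lf inv x / (1 - x) ^ d
  A0' : ∀ x, nuh ≤ x → x * inv ≤ 1 → 2 * lf inv x ^ 2 * (1 + c0 * x) ^ 2 / (1 - x) ≤ 2 - th
  N0 : 1 ≤ (1 - mu) * (1 + c0 / 2)
  N1 : mu ≤ lam * ((1 - mu) * (W - sg) - B * sg)
  N2 : lam * ((2 - th) * W + 2 * th * sg) ≤ th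
  N3 : lam * ka * W ≤ (1 - mu) * c0

/-- All numeric conditions of one vertex: degree `d`, list of weight `W`, `om = 1 - mu` (or
`1 ≤ om`: then the chord is not used). -/
structure VtxOK (W sg lam om c0 inv nuh ξ e0 : ℝ) (d : ℕ) : Prop where
  lam0 : 0 ≤ lam
  om0 : 0 ≤ om
  inv1 : 1 < inv
  kill : 1 ≤ d → 1 ≤ om ∨ ∃ B th ka, MubOK W sg lam (1 - om) B th ka c0 inv nuh d
  prof : ∀ x, 0 ≤ x → x < 1 → 0 < lf inv x →
    lf inv x * ((d : ℝ) * ((1 + c0 * x) ^ 2 * (ξ * (1 - x) + ξ⁻¹ * (om ^ 2 / (1 - x))) / 2)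
      + (((1 - x)⁻¹) ^ d - 1)) ≤ (d : ℝ) * e0

variable {V ι : Type*} [Fintype V] [DecidableEq V] [Fintype ι] [DecidableEq ι]
variable {F : SimpleGraph ι} [DecidableRel F.Adj] {μ : ι → ℝ}
variable {G : SimpleGraph V} [DecidableRel G.Adj]

/-- the linear profile with `lf` -/
theorem lin_eq (B : Finset ι) (inv : ℝ) (b : ι) :
    lin F μ B inv b = if b ∈ B then lf inv (nb F μ b) else 0 := rfl

theorem Pz_eq (B : Finset ι) (w : ι → ℝ) (c0 inv : ℝ) :
    Pz F μ w (lin F μ B inv) c0 = PF B w (fun b => nb F μ b) c0 inv := by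
  unfold Pz PF
  rw [← sum_subset (subset_univ B) (f := fun b => w b * (lin F μ B inv b ^ 2
    * ((1 + c0 * nb F μ b) ^ 2 / (1 - nb F μ b)))) fun b _ hb => by
      rw [lin_eq, if_neg hb]; simp]
  refine sum_congr rfl fun b hb => ?_
  rw [lin_eq, if_pos hb]
  ring

theorem PzS_eq (B : Finset ι) (w : ι → ℝ) (c0 inv : ℝ) (a : ι) :
    PzS F μ w (lin F μ B inv) c0 a
      = PF (B ∩ univ.filter (F.Adj a)) w (fun b => nb F μ b) c0 inv := by
  unfold PzS PF
  rw [← sum_subset (subset_univ (B ∩ univ.filter (F.Adj a)))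
    (f := fun b => if F.Adj a b then w b * (lin F μ B inv b ^ 2
    * ((1 + c0 * nb F μ b) ^ 2 / (1 - nb F μ b))) else 0) fun b _ hb => by
      by_cases hab : F.Adj a b
      · have hbB : b ∉ B := fun h => hb (mem_inter.2 ⟨h, by simp [hab]⟩)
        rw [if_pos hab, lin_eq, if_neg hbB]; simp
      · rw [if_neg hab]]
  refine sum_congr rfl fun b hb => ?_
  have h1 := (mem_inter.1 hb).1
  have h2 : F.Adj a b := by simpa using (mem_inter.1 hb).2
  rw [if_pos h2, lin_eq, if_pos h1]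
  ring

theorem sab_cut_eq (B : V → Finset ι) (w : ι → ℝ) (lam inv nuh : V → ℝ) (u : V) (a b c : ι) :
    sab F (cut F μ (rate F G μ w fun v b => lam v * lin F μ (B v) (inv v) b) nuh) u a b c
      = rhoF (B u) (univ.filter (F.Adj b)) (univ.filter (F.Adj a)) w (fun b => nb F μ b)
        (lam u) (inv u) (nuh u) #(nbh G u) c := by
  unfold sab cut rhoF rate
  by_cases h1 : F.Adj b c
  · rw [if_pos (Or.inl h1), if_neg]
    rintro ⟨_, h, _⟩
    exact h (by simp [h1])
  by_cases h2 : F.Adj a c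
  · rw [if_pos (Or.inr h2), if_neg]
    rintro ⟨_, _, h, _⟩
    exact h (by simp [h2])
  rw [if_neg (by tauto)]
  by_cases h3 : c ∈ B u
  · by_cases h4 : nb F μ c ≤ nuh u
    · rw [if_pos h4, if_pos ⟨h3, by simp [h1], by simp [h2], h4⟩]
      have e : lin F μ (B u) (inv u) c = lf (inv u) (nb F μ c) := by rw [lin_eq, if_pos h3]
      simp only [e]
      ring
    · rw [if_neg h4, if_neg fun h => h4 h.2.2.2]
  · have e : lin F μ (B u) (inv u) c = 0 := by rw [lin_eq, if_neg h3]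
    have e2 : ¬ (c ∈ B u ∧ c ∉ univ.filter (F.Adj b) ∧ c ∉ univ.filter (F.Adj a)
      ∧ (fun b => nb F μ b) c ≤ nuh u) := fun h => h3 h.1
    rw [if_neg e2]
    simp only [e, mul_zero, zero_div, ite_self]

/-- **The lower bound with numeric conditions.** -/
theorem sum_pairT_ge_num (h0 : ∀ x, 0 ≤ μ x) (h1 : ∑ x, μ x = 1) (hF : F.CliqueFree 3)
    {w : ι → ℝ} {σ ξ c0 : ℝ} (hξ : 0 < ξ) (hc0 : 0 < c0) (hw : ∀ b, 0 ≤ w b) (hσ0 : 0 ≤ σ)
    (hσa : ∀ a, 0 < μ a → (∑ c, if F.Adj a c then w c else 0) ≤ σ)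
    (B : V → Finset ι) {lam om inv nuh e0 : V → ℝ}
    (hσb : ∀ b, 0 < w b → (∃ v, b ∈ B v ∧ 0 < lf (inv v) (nb F μ b)) →
      (∑ c, if F.Adj b c then w c else 0) ≤ σ * (1 - nb F μ b))
    (hV : ∀ v, VtxOK (∑ b ∈ B v, w b) σ (lam v) (om v) c0 (inv v) (nuh v) ξ (e0 v) #(nbh G v))
    {a : ι} (ha : 0 < μ a) :
    ∑ v, (2 * (lam v * ∑ b, w b * lin F μ (B v) (inv v) b)
      - lam v ^ 2 * ((∑ b, w b * lin F μ (B v) (inv v) b)
      * ((∑ b, w b * lin F μ (B v) (inv v) b) + σ * ((#(nbh G v) : ℝ) * e0 v))))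
      ≤ ∑ v, pairT F G μ (rate F G μ w fun v b => lam v * lin F μ (B v) (inv v) b)
        (cut F μ (rate F G μ w fun v b => lam v * lin F μ (B v) (inv v) b) nuh) a v := by
  have hl : ∀ v b, 0 ≤ lin F μ (B v) (inv v) b := fun v b => lin_nonneg _ _ _
  have hmem : ∀ v b, 0 < lin F μ (B v) (inv v) b → b ∈ B v ∧ 0 < lf (inv v) (nb F μ b) := by
    intro v b h
    rw [lin_eq] at h
    by_cases hb : b ∈ B v
    · rw [if_pos hb] at h
      exact ⟨hb, h⟩
    · rw [if_neg hb] at h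
      exact absurd h (lt_irrefl _)
  have hn : ∀ v b, 0 < lin F μ (B v) (inv v) b → nb F μ b < 1 := by
    intro v b h
    have h2 := (hmem v b h).2
    unfold lf at h2
    have h3 : 0 < 1 - inv v * nb F μ b := by
      rcases lt_max_iff.1 h2 with h | h
      · exact absurd h (lt_irrefl _)
      · exact h
    have h4 := (hV v).inv1
    have h5 := nb_nonneg (F := F) h0 b
    nlinarith
  have hr : ∀ u c, 0 ≤ rate F G μ w (fun v b => lam v * lin F μ (B v) (inv v) b) u c :=
    fun u c => rate_nonneg h0 h1 hw (fun v b => mul_nonneg (hV v).lam0 (hl v b)) u c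
  have hs := cut_nonneg (F := F) (μ := μ) hr nuh
  refine sum_pairT_ge_rem (om := om) h0 h1 hξ hc0.le hw (fun v => (hV v).lam0) hl hn hσ0
    (fun v => (hV v).om0) hσa (fun b hb hv => hσb b hb (by
      obtain ⟨v, hv⟩ := hv
      exact ⟨v, hmem v b hv⟩)) ?_ ?_
  · intro v u b b' hG hF' hab hb hb' hlv hlu
    have hz := zz_nonneg hw (hn u) (hl u) c0 a
    have hnb := nb_nonneg (F := F) h0 b
    have hnb' := nb_nonneg (F := F) h0 b'
    have hd : 1 ≤ #(nbh G u) := card_pos.2 ⟨v, mem_nbh.2 hG.symm⟩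
    rcases (hV u).kill hd with hom | ⟨B', th, ka, hM⟩
    · have h2 : brk F G μ (cut F μ (rate F G μ w fun v b => lam v * lin F μ (B v) (inv v) b) nuh)
          a u b b' ≤ 1 := by
        unfold brk
        have h3 : 0 ≤ ∑ c, sab F (cut F μ (rate F G μ w
            fun v b => lam v * lin F μ (B v) (inv v) b) nuh) u a b c :=
          sum_nonneg fun c _ => sab_nonneg hs u a b c
        have h4 : 0 ≤ ∑ c, sab F (cut F μ (rate F G μ w
            fun v b => lam v * lin F μ (B v) (inv v) b) nuh) u a b c *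
            kz (1 - nb F μ b - nb F μ b') (nb F μ c) (#(nbh G u) - 1) :=
          sum_nonneg fun c _ => mul_nonneg (sab_nonneg hs u a b c) (kz_nonneg _ _ _)
        have h5 := mul_nonneg (one_div_nonneg.2 (by linarith : 0 ≤ 1 + ∑ c, sab F (cut F μ
            (rate F G μ w fun v b => lam v * lin F μ (B v) (inv v) b) nuh) u a b c)) h4
        linarith
      have h6 : 1 ≤ 1 + c0 * nb F μ b := by
        have := mul_nonneg hc0.le hnb
        linarith
      have h7 : 1 ≤ 1 + c0 * nb F μ b' := by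
        have := mul_nonneg hc0.le hnb'
        linarith
      have h8 : 1 ≤ om u * (1 + zz F μ w (lin F μ (B u) (inv u)) c0 a / 2) := by
        have := mul_le_mul hom (by linarith :
          (1:ℝ) ≤ 1 + zz F μ w (lin F μ (B u) (inv u)) c0 a / 2) zero_le_one (by linarith)
        linarith
      have h9 : 1 ≤ om u * (1 + zz F μ w (lin F μ (B u) (inv u)) c0 a / 2)
          * (1 + c0 * nb F μ b') := by
        have := mul_le_mul h8 h7 zero_le_one (by linarith)
        linarith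
      have h10 := mul_le_mul h6 h9 zero_le_one (by linarith)
      linarith
    · refine brk_le (a := a) h0 h1 hF hs hc0.le hz (hV u).om0 ?_ hF' ?_
      · have := hM.N0
        linarith
      · intro t ht0 ht1
        have key := mub (B u) (univ.filter (F.Adj b)) (univ.filter (F.Adj a)) w
          (fun b => nb F μ b) σ (lam u) (1 - om u) B' th ka c0 (inv u) (nuh u) #(nbh G u)
          (fun c _ => hw c) (fun c _ => nb_nonneg h0 c) (fun c _ => nb_le_one h0 h1 c)
          ?_ ?_ ?_ hM.hd hc0 hM.hinv hM.hnuh0 hM.hnuh1 hM.hlam hM.hth0 hM.hth2 hM.M1 hM.M1'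
          hM.M2 hM.M3 hM.S1 hM.A0 hM.A0' hM.N0 hM.N1 hM.N2 hM.N3 t ht0 ht1
        · have e1 : ∀ c, sab F (cut F μ (rate F G μ w
              fun v b => lam v * lin F μ (B v) (inv v) b) nuh) u a b c
              = rhoF (B u) (univ.filter (F.Adj b)) (univ.filter (F.Adj a)) w
                (fun b => nb F μ b) (lam u) (inv u) (nuh u) #(nbh G u) c :=
            fun c => sab_cut_eq B w lam inv nuh u a b c
          simp only [e1]
          have ht : 0 < 1 - t := by linarith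
          simp only [kz_of_pos ht]
          have e2 : zz F μ w (lin F μ (B u) (inv u)) c0 a
              = PF (B u ∩ univ.filter (F.Adj a)) w (fun b => nb F μ b) c0 (inv u)
                / PF (B u) w (fun b => nb F μ b) c0 (inv u) := by
            unfold zz
            rw [Pz_eq, PzS_eq]
          rw [e2]
          have e3 : (1 - (1 - om u)) = om u := by ring
          rw [e3] at key
          exact key
        · calc ∑ c ∈ B u, w c * nb F μ c ≤ ∑ c, w c * nb F μ c :=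
                sum_le_sum_of_subset_of_nonneg (subset_univ _) fun c _ _ =>
                  mul_nonneg (hw c) (nb_nonneg h0 c)
            _ ≤ σ := sum_nb_le h0 h1 hσa
        · calc ∑ c ∈ B u ∩ univ.filter (F.Adj b), w c ≤ ∑ c ∈ univ.filter (F.Adj b), w c :=
                sum_le_sum_of_subset_of_nonneg inter_subset_right fun c _ _ => hw c
            _ = ∑ c, (if F.Adj b c then w c else 0) := by rw [sum_filter]
            _ ≤ σ * (1 - nb F μ b) := hσb b hb ⟨v, hmem v b hlv⟩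
            _ ≤ σ := mul_le_of_le_one_right hσ0 (by linarith)
        · calc ∑ c ∈ B u ∩ univ.filter (F.Adj a), w c ≤ ∑ c ∈ univ.filter (F.Adj a), w c :=
                sum_le_sum_of_subset_of_nonneg inter_subset_right fun c _ _ => hw c
            _ = ∑ c, (if F.Adj a c then w c else 0) := by rw [sum_filter]
            _ ≤ σ := hσa a ha
  · intro v b hb hlb
    obtain ⟨hbB, hlf⟩ := hmem v b hlb
    rw [lin_eq, if_pos hbB]
    exact (hV v).prof (nb F μ b) (nb_nonneg h0 b) (hn v b hlb) hlf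

end Pool.Agent.T6A
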