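import Mathlib

/-!
# The clump bound with the exact value for disjoint neighbourhoods (MP_c6effb_co, helper9)

`K = ((1 - n - n' + c) / (y y')) ^ D`, `y = 1 - n`, `c` the codegree. With `ut = min (n / y) um` and
`s = (1 - (1 - um ^ 2) ^ D) / um ^ 2`:
`∑∑ w w' h h' K ≤ (∑ w h) ^ 2 - s (∑ w h ut) ^ 2 + sg ∑ w h ^ 2 (y ^ (-D) - 1 + s ut ^ 2)`.
-/

set_option autoImplicit false

open Finset

namespace Pool.Agent.T6A.KZero

noncomputable section

/-- `x + x² + ... + x ^ D` -/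
def AA (D : ℕ) (x : ℝ) : ℝ := ∑ j ∈ range D, x ^ (j + 1)

/-- the slope -/
def ss (D : ℕ) (um : ℝ) : ℝ := (1 - (1 - um ^ 2) ^ D) / um ^ 2

/-- the capped odds -/
def ut (um n : ℝ) : ℝ := min (n / (1 - n)) um

/-- the weight function, in the variable `x = 1 / (1 - n)` -/
def psx (D : ℕ) (um x : ℝ) : ℝ := AA D x + ss D um * (min (x - 1) um) ^ 2 * (x / (x - 1))

/-- the weight function -/
def psi (D : ℕ) (um n : ℝ) : ℝ := psx D um (1 - n)⁻¹

theorem ss_mul {D : ℕ} {um : ℝ} (h : 0 < um) : ss D um * um ^ 2 = 1 - (1 - um ^ 2) ^ D := by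
  unfold ss
  rw [div_mul_cancel₀]
  positivity

theorem ss_nonneg (D : ℕ) {um : ℝ} (h : 0 < um) (h1 : um ≤ 1) : 0 ≤ ss D um := by
  unfold ss
  apply div_nonneg _ (by positivity)
  have : (1 - um ^ 2) ^ D ≤ 1 := by
    apply pow_le_one₀
    · nlinarith
    · nlinarith [sq_nonneg um]
  linarith

theorem ss_le (D : ℕ) {um : ℝ} (h : 0 < um) (h1 : um ≤ 1) : ss D um ≤ D := by
  unfold ss
  rw [div_le_iff₀ (by positivity)]
  have h2 := one_add_mul_le_pow (a := -um ^ 2) (by nlinarith) D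
  have e : (1 + -um ^ 2) = 1 - um ^ 2 := by ring
  rw [e] at h2
  linarith

theorem chord (D : ℕ) {a b l : ℝ} (ha : 0 ≤ a) (hb : 0 ≤ b) (hl : 0 ≤ l) (hl1 : l ≤ 1) :
    ((1 - l) * a + l * b) ^ D ≤ (1 - l) * a ^ D + l * b ^ D := by
  have h := (convexOn_pow D).2 (Set.mem_Ici.2 ha) (Set.mem_Ici.2 hb)
    (by linarith : 0 ≤ 1 - l) hl (by ring)
  simpa [smul_eq_mul] using h

theorem one_sub_pow_le (D : ℕ) {um t : ℝ} (h : 0 < um) (h1 : um ≤ 1) (ht : 0 ≤ t)
    (ht1 : t ≤ um ^ 2) : (1 - t) ^ D ≤ 1 - ss D um * t := by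
  have hu : 0 < um ^ 2 := by positivity
  have h2 := chord D (a := 1) (b := 1 - um ^ 2) (l := t / um ^ 2) zero_le_one (by nlinarith)
    (by positivity) (by rw [div_le_one hu]; exact ht1)
  have e1 : (1 - t / um ^ 2) * 1 + t / um ^ 2 * (1 - um ^ 2) = 1 - t := by
    field_simp
    ring
  have e2 : (1 - t / um ^ 2) * 1 ^ D + t / um ^ 2 * (1 - um ^ 2) ^ D = 1 - ss D um * t := by
    unfold ss
    rw [one_pow]
    field_simp
    ring
  rw [e1, e2] at h2
  exact h2

/-! ### the sums -/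

theorem pow_diff {x z : ℝ} (hx : 1 ≤ x) (hz : x ≤ z) (j : ℕ) :
    (z - x) * (1 + z) ≤ z ^ (j + 2) - x ^ (j + 2) := by
  induction j with
  | zero =>
    have h1 : 0 ≤ (z - x) * (x - 1) := mul_nonneg (by linarith) (by linarith)
    have h2 : z ^ (0 + 2) - x ^ (0 + 2) = (z - x) * (1 + z) + (z - x) * (x - 1) := by ring
    linarith
  | succ j ih =>
    have h1 : (1 : ℝ) ≤ x ^ (j + 2) := one_le_pow₀ hx
    have h2 : z ^ (j + 1 + 2) - x ^ (j + 1 + 2) =
        (z ^ (j + 2) - x ^ (j + 2)) + (z - 1) * (z ^ (j + 2) - x ^ (j + 2)) +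
          x ^ (j + 2) * (z - x) := by ring
    have h3 : 0 ≤ z ^ (j + 2) - x ^ (j + 2) := by
      have : 0 ≤ (z - x) * (1 + z) := mul_nonneg (by linarith) (by linarith)
      linarith
    have h4 : 0 ≤ (z - 1) * (z ^ (j + 2) - x ^ (j + 2)) := mul_nonneg (by linarith) h3
    have h5 : 0 ≤ x ^ (j + 2) * (z - x) := mul_nonneg (by linarith) (by linarith)
    linarith

theorem AA_diff (D : ℕ) {x z : ℝ} (hx : 1 ≤ x) (hz : x ≤ z) :
    (z - x) * (1 + D * (1 + z)) ≤ AA (D + 1) z - AA (D + 1) x := by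
  induction D with
  | zero => unfold AA; simp
  | succ D ih =>
    have h1 := pow_diff hx hz D
    unfold AA at ih ⊢
    rw [sum_range_succ, sum_range_succ (fun j => x ^ (j + 1))]
    push_cast
    nlinarith

theorem AA_diff' (D : ℕ) {x z : ℝ} (hx : 1 ≤ x) (hz : x ≤ z) :
    (z - x) * D ≤ AA D z - AA D x := by
  induction D with
  | zero => unfold AA; simp
  | succ D ih =>
    have h1 : z - x ≤ z ^ (D + 1) - x ^ (D + 1) := by
      cases D with
      | zero => simp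
      | succ D =>
        have h2 := pow_diff hx hz D
        have h3 : (z - x) * 1 ≤ (z - x) * (1 + z) :=
          mul_le_mul_of_nonneg_left (by linarith) (by linarith)
        linarith
    unfold AA at ih ⊢
    rw [sum_range_succ, sum_range_succ (fun j => x ^ (j + 1))]
    push_cast
    nlinarith

theorem AA_ge (D : ℕ) {x : ℝ} (hx : 1 ≤ x) : D * x ≤ AA D x := by
  unfold AA
  have h : ∀ j ∈ range D, x ≤ x ^ (j + 1) := fun j _ => le_self_pow₀ hx (by omega)
  have := sum_le_sum h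
  rw [sum_const, card_range, nsmul_eq_mul] at this
  exact this

theorem AA_nonneg (D : ℕ) {x : ℝ} (hx : 1 ≤ x) : 0 ≤ AA D x :=
  le_trans (mul_nonneg (Nat.cast_nonneg _) (by linarith)) (AA_ge D hx)

/-- the polynomial inequality, no cap -/
theorem poly {D : ℕ} (hD : 1 ≤ D) {s x z : ℝ} (hs : 0 ≤ s) (hsD : s ≤ D) (h1 : D = 1 → s = 1)
    (hx : 1 ≤ x) (hz : x ≤ z) (hz2 : z ≤ 2) :
    (AA D x + s * (x * (z - 1))) ^ 2 ≤
      (AA D x + s * (x * (x - 1))) * (AA D z + s * (z * (z - 1))) := by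
  rcases Nat.lt_or_ge D 2 with h | h
  · have hD1 : D = 1 := by omega
    subst hD1
    rw [h1 rfl]
    unfold AA
    rw [sum_range_one, sum_range_one]
    apply le_of_eq
    ring
  · obtain ⟨E, rfl⟩ : ∃ E, D = E + 1 := ⟨D - 1, by omega⟩
    have hE : (1 : ℝ) ≤ E := by exact_mod_cast (show 1 ≤ E by omega)
    have hA := AA_ge (E + 1) hx
    have hd := AA_diff E hx hz
    push_cast at hA hsD
    set A := AA (E + 1) x with hAdef
    set B := AA (E + 1) z with hBdef
    -- `B - A ≥ s z (z - x)`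
    have h3 : s * z * (z - x) ≤ B - A := by
      have h4 : s * z ≤ 1 + E * (1 + z) := by
        have : s * z ≤ (E + 1) * z := mul_le_mul_of_nonneg_right hsD (by linarith)
        nlinarith
      have h5 : s * z * (z - x) ≤ (1 + E * (1 + z)) * (z - x) :=
        mul_le_mul_of_nonneg_right h4 (by linarith)
      linarith
    have hAs : s * x ≤ A := by
      have : s * x ≤ (E + 1) * x := mul_le_mul_of_nonneg_right hsD (by linarith)
      linarith
    have hA0 : 0 ≤ A := le_trans (mul_nonneg hs (by linarith)) hAs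
    have hd0 : 0 ≤ z - x := by linarith
    have hBA : 0 ≤ B - A := le_trans (mul_nonneg (mul_nonneg hs (by linarith)) hd0) h3
    have key : (A + s * (x * (x - 1))) * (B + s * (z * (z - 1))) -
        (A + s * (x * (z - 1))) ^ 2 =
        A * ((B - A) - s * z * (z - x)) + s * (z - 1) * (z - x) * (A - s * x) +
          s * A * (z - x) ^ 2 + s * (B - A) * (x * (x - 1)) := by ring
    have e1 : 0 ≤ A * ((B - A) - s * z * (z - x)) := mul_nonneg hA0 (by linarith)
    have e2 : 0 ≤ s * (z - 1) * (z - x) * (A - s * x) :=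
      mul_nonneg (mul_nonneg (mul_nonneg hs (by linarith)) hd0) (by linarith)
    have e3 : 0 ≤ s * A * (z - x) ^ 2 := by positivity
    have e4 : 0 ≤ s * (B - A) * (x * (x - 1)) :=
      mul_nonneg (mul_nonneg hs hBA) (mul_nonneg (by linarith) (by linarith))
    linarith

theorem ss_one {um : ℝ} (h : 0 < um) : ss 1 um = 1 := by
  unfold ss
  rw [pow_one]
  have : um ^ 2 ≠ 0 := by positivity
  field_simp
  ring

theorem psx_of_le {D : ℕ} {um x : ℝ} (hx : 1 < x) (h : x ≤ 1 + um) :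
    psx D um x = AA D x + ss D um * (x * (x - 1)) := by
  unfold psx
  rw [min_eq_left (by linarith)]
  have : x - 1 ≠ 0 := by linarith
  field_simp

theorem psx_of_ge {D : ℕ} {um x : ℝ} (h : 1 + um ≤ x) :
    psx D um x = AA D x + ss D um * (um ^ 2 * (x / (x - 1))) := by
  unfold psx
  rw [min_eq_right (by linarith), mul_assoc]

theorem psx_mono {D : ℕ} {um x z : ℝ} (hu : 0 < um) (h1 : um ≤ 1) (hx : 1 + um ≤ x)
    (hz : x ≤ z) : psx D um x ≤ psx D um z := by
  rw [psx_of_ge hx, psx_of_ge (hx.trans hz)]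
  have h2 := AA_diff' D (by linarith : 1 ≤ x) hz
  have hs := ss_nonneg D hu h1
  have hsD := ss_le D hu h1
  have hx1 : 0 < x - 1 := by linarith
  have hz1 : 0 < z - 1 := by linarith
  have h3 : um ^ 2 * (x / (x - 1)) - um ^ 2 * (z / (z - 1)) ≤ z - x := by
    have e : um ^ 2 * (x / (x - 1)) - um ^ 2 * (z / (z - 1)) =
        (z - x) * (um ^ 2 / ((x - 1) * (z - 1))) := by
      field_simp
      ring
    rw [e]
    have h4 : um ^ 2 / ((x - 1) * (z - 1)) ≤ 1 := by
      rw [div_le_one (mul_pos hx1 hz1)]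
      nlinarith
    calc (z - x) * (um ^ 2 / ((x - 1) * (z - 1))) ≤ (z - x) * 1 :=
          mul_le_mul_of_nonneg_left h4 (by linarith)
      _ = z - x := mul_one _
  have h5 : ss D um * (um ^ 2 * (x / (x - 1)) - um ^ 2 * (z / (z - 1))) ≤ D * (z - x) := by
    calc ss D um * (um ^ 2 * (x / (x - 1)) - um ^ 2 * (z / (z - 1)))
        ≤ ss D um * (z - x) := mul_le_mul_of_nonneg_left h3 hs
      _ ≤ D * (z - x) := mul_le_mul_of_nonneg_right hsD (by linarith)
  linarith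

theorem psx_nonneg {D : ℕ} {um x : ℝ} (hu : 0 < um) (h1 : um ≤ 1) (hx : 1 ≤ x) :
    0 ≤ psx D um x := by
  unfold psx
  have h2 := AA_nonneg D hx
  have hs := ss_nonneg D hu h1
  have : 0 ≤ x / (x - 1) := div_nonneg (by linarith) (by linarith)
  positivity

/-- the geometric mean inequality -/
theorem schur {D : ℕ} (hD : 1 ≤ D) {um x z : ℝ} (hu : 0 < um) (h1 : um ≤ 1) (hx : 1 < x)
    (hz : x ≤ z) :
    (AA D x + ss D um * (min (x - 1) um * min (z - 1) um * (x / (x - 1)))) ^ 2 ≤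
      psx D um x * psx D um z := by
  have hs := ss_nonneg D hu h1
  have hsD := ss_le D hu h1
  have hx1 : x - 1 ≠ 0 := by linarith
  have hs1 : D = 1 → ss D um = 1 := by
    rintro rfl
    exact ss_one hu
  rcases le_total z (1 + um) with h | h
  · rw [psx_of_le hx (hz.trans h), psx_of_le (hx.trans_le hz) h, min_eq_left (by linarith),
      min_eq_left (by linarith)]
    have e : (x - 1) * (z - 1) * (x / (x - 1)) = x * (z - 1) := by
      field_simp
    rw [e]
    exact poly hD hs hsD hs1 hx.le hz (by linarith)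
  · rcases le_total x (1 + um) with h' | h'
    · have hp := poly hD hs hsD hs1 hx.le h' (by linarith)
      have hm := psx_mono (D := D) hu h1 le_rfl h
      have e1 : psx D um (1 + um) = AA D (1 + um) + ss D um * ((1 + um) * (1 + um - 1)) :=
        psx_of_le (by linarith) le_rfl
      rw [min_eq_left (by linarith : x - 1 ≤ um), min_eq_right (by linarith : um ≤ z - 1)]
      have e : (x - 1) * um * (x / (x - 1)) = x * (1 + um - 1) := by
        field_simp
        ring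
      rw [e]
      rw [← e1, ← psx_of_le hx h'] at hp
      exact hp.trans (mul_le_mul_of_nonneg_left hm (psx_nonneg hu h1 hx.le))
    · rw [min_eq_right (by linarith : um ≤ x - 1), min_eq_right (by linarith : um ≤ z - 1)]
      have e : AA D x + ss D um * (um * um * (x / (x - 1))) = psx D um x := by
        rw [psx_of_ge h']
        ring
      rw [e, sq]
      exact mul_le_mul_of_nonneg_left (psx_mono hu h1 h' hz) (psx_nonneg hu h1 hx.le)

/-- from the geometric mean to the arithmetic mean -/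
theorem amgm {a b X h k : ℝ} (ha : 0 ≤ a) (hb : 0 ≤ b) (hX : X ^ 2 ≤ a * b) (hh : 0 ≤ h)
    (hk : 0 ≤ k) : 2 * h * k * X ≤ h ^ 2 * a + k ^ 2 * b := by
  by_cases hX0 : X ≤ 0
  · have h1 : 2 * h * k * X ≤ 0 := mul_nonpos_of_nonneg_of_nonpos (by positivity) hX0
    have h2 : 0 ≤ h ^ 2 * a + k ^ 2 * b := by positivity
    linarith
  · push Not at hX0
    apply (sq_le_sq₀ (by positivity) (by positivity)).1
    have h1 : (2 * h * k * X) ^ 2 ≤ 4 * (h ^ 2 * a) * (k ^ 2 * b) := by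
      have : (2 * h * k * X) ^ 2 = 4 * h ^ 2 * k ^ 2 * X ^ 2 := by ring
      rw [this]
      calc 4 * h ^ 2 * k ^ 2 * X ^ 2 ≤ 4 * h ^ 2 * k ^ 2 * (a * b) :=
            mul_le_mul_of_nonneg_left hX (by positivity)
        _ = 4 * (h ^ 2 * a) * (k ^ 2 * b) := by ring
    nlinarith [sq_nonneg (h ^ 2 * a - k ^ 2 * b)]

/-! ### one pair -/

theorem inv_sub {n : ℝ} (hn : n < 1) : (1 - n)⁻¹ - 1 = n / (1 - n) := by
  have : 1 - n ≠ 0 := by linarith
  field_simp
  ring

theorem inv_div {n : ℝ} (hn : n < 1) (h0 : 0 < n) :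
    (1 - n)⁻¹ / ((1 - n)⁻¹ - 1) = 1 / n := by
  have : 1 - n ≠ 0 := by linarith
  rw [inv_sub hn]
  field_simp

theorem one_le_inv {n : ℝ} (hn : n < 1) (h0 : 0 ≤ n) : 1 ≤ (1 - n)⁻¹ :=
  (one_le_inv₀ (by linarith)).2 (by linarith)

theorem geom (D : ℕ) {n : ℝ} (hn : n < 1) :
    n * AA D (1 - n)⁻¹ = ((1 - n)⁻¹) ^ D - 1 := by
  have h1 : 1 - n ≠ 0 := by linarith
  have h2 := geom_sum_mul ((1 - n)⁻¹) D
  rw [← h2, inv_sub hn]
  unfold AA
  rw [mul_sum, sum_mul]
  refine sum_congr rfl fun j _ => ?_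
  rw [pow_succ]
  field_simp

theorem n_mul_psi (D : ℕ) (um : ℝ) {n : ℝ} (hn : n < 1) (h0 : 0 ≤ n) (hu : 0 < um) :
    n * psi D um n = ((1 - n)⁻¹) ^ D - 1 + ss D um * ut um n ^ 2 := by
  rcases h0.eq_or_lt with h | h
  · subst h
    unfold ut
    rw [zero_mul, sub_zero, inv_one, one_pow, zero_div, min_eq_left hu.le]
    ring
  · unfold psi psx ut
    rw [mul_add, geom D hn, inv_div hn h, inv_sub hn]
    field_simp

theorem psi_nonneg (D : ℕ) {um n : ℝ} (hu : 0 < um) (h1 : um ≤ 1) (hn : n < 1) (h0 : 0 ≤ n) :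
    0 ≤ psi D um n := psx_nonneg hu h1 (one_le_inv hn h0)

theorem ut_nonneg {um n : ℝ} (hu : 0 < um) (hn : n < 1) (h0 : 0 ≤ n) : 0 ≤ ut um n :=
  le_min (div_nonneg h0 (by linarith)) hu.le

theorem ut_le (um n : ℝ) : ut um n ≤ um := min_le_right _ _

theorem pair' {D : ℕ} (hD : 1 ≤ D) {um n m c h k : ℝ} (hu : 0 < um) (h1 : um ≤ 1)
    (hn0 : 0 ≤ n) (hm1 : m < 1) (hnm : n ≤ m) (hc0 : 0 ≤ c) (hcn : c ≤ n)
    (hc1 : n + m - c ≤ 1) (hh : 0 ≤ h) (hk : 0 ≤ k) :
    2 * h * k * ((1 - n - m + c) / ((1 - n) * (1 - m))) ^ D ≤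
      2 * h * k * (1 - ss D um * ut um n * ut um m) +
        c * (h ^ 2 * psi D um n + k ^ 2 * psi D um m) := by
  have hn1 : n < 1 := by linarith
  have hm0 : 0 ≤ m := by linarith
  have hy : 0 < 1 - n := by linarith
  have hy' : 0 < 1 - m := by linarith
  have hyy : 0 < (1 - n) * (1 - m) := mul_pos hy hy'
  have hs := ss_nonneg D hu h1
  have hun := ut_nonneg hu hn1 hn0
  have hum := ut_nonneg hu hm1 hm0
  have hpn := psi_nonneg D hu h1 hn1 hn0
  have hpm := psi_nonneg D hu h1 hm1 hm0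
  have huu : ut um n * ut um m ≤ um ^ 2 := by
    rw [sq]
    exact mul_le_mul (ut_le _ _) (ut_le _ _) hum hu.le
  -- the lower end
  have hlow : ∀ c' : ℝ, 0 ≤ c' → (c' = 0 ∧ n + m ≤ 1 ∨ 1 - n - m + c' = 0) →
      ((1 - n - m + c') / ((1 - n) * (1 - m))) ^ D ≤ 1 - ss D um * ut um n * ut um m := by
    intro c' hc' h2
    have hge : (0 : ℝ) ≤ 1 - ss D um * ut um n * ut um m := by
      have h3 := ss_mul (D := D) hu
      have h4 : ss D um * (ut um n * ut um m) ≤ ss D um * um ^ 2 :=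
        mul_le_mul_of_nonneg_left huu hs
      have h5 : (0 : ℝ) ≤ (1 - um ^ 2) ^ D := pow_nonneg (by nlinarith) _
      rw [mul_assoc]
      linarith
    rcases h2 with ⟨rfl, h2⟩ | h2
    · have e : (1 - n - m + 0) / ((1 - n) * (1 - m)) = 1 - n / (1 - n) * (m / (1 - m)) := by
        field_simp
        ring
      have hb : ut um n * ut um m ≤ n / (1 - n) * (m / (1 - m)) :=
        mul_le_mul (min_le_left _ _) (min_le_left _ _) hum (div_nonneg hn0 hy.le)
      have h3 : 0 ≤ 1 - n / (1 - n) * (m / (1 - m)) := by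
        rw [← e]
        exact div_nonneg (by linarith) hyy.le
      rw [e]
      calc (1 - n / (1 - n) * (m / (1 - m))) ^ D ≤ (1 - ut um n * ut um m) ^ D :=
            pow_le_pow_left₀ h3 (by linarith) D
        _ ≤ 1 - ss D um * (ut um n * ut um m) :=
            one_sub_pow_le D hu h1 (mul_nonneg hun hum) huu
        _ = _ := by ring
    · rw [h2, zero_div, zero_pow (by omega)]
      exact hge
  -- the upper end
  have hhigh : 2 * h * k * ((1 - n - m + n) / ((1 - n) * (1 - m))) ^ D ≤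
      2 * h * k * (1 - ss D um * ut um n * ut um m) +
        n * (h ^ 2 * psi D um n + k ^ 2 * psi D um m) := by
    have e : (1 - n - m + n) / ((1 - n) * (1 - m)) = (1 - n)⁻¹ := by
      field_simp
      ring
    rw [e]
    rcases hn0.eq_or_lt with h0 | h0
    · subst h0
      unfold ut
      rw [sub_zero, inv_one, one_pow, zero_div, min_eq_left hu.le]
      linarith
    · have h2 := schur hD hu h1 (x := (1 - n)⁻¹) (z := (1 - m)⁻¹)
        ((one_lt_inv₀ hy).2 (by linarith)) (inv_anti₀ hy' (by linarith))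
      rw [inv_div hn1 h0, inv_sub hn1, inv_sub hm1] at h2
      have h3 := amgm hpn hpm h2 hh hk
      have h4 := mul_le_mul_of_nonneg_left h3 h0.le
      have h5 := geom D hn1
      have e2 : ((1 - n)⁻¹) ^ D = 1 + n * AA D (1 - n)⁻¹ := by linarith
      rw [e2]
      have e3 : n * (2 * h * k * (AA D (1 - n)⁻¹ + ss D um *
          (min (n / (1 - n)) um * min (m / (1 - m)) um * (1 / n)))) =
          2 * h * k * (n * AA D (1 - n)⁻¹ + ss D um * ut um n * ut um m) := by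
        unfold ut
        field_simp
      rw [e3] at h4
      linarith
  -- between
  obtain ⟨c₀, hc₀, hc₀c, hc₀2⟩ : ∃ c₀ : ℝ, 0 ≤ c₀ ∧ c₀ ≤ c ∧
      (c₀ = 0 ∧ n + m ≤ 1 ∨ 1 - n - m + c₀ = 0) := by
    rcases le_total (n + m) 1 with h2 | h2
    · exact ⟨0, le_rfl, hc0, Or.inl ⟨rfl, h2⟩⟩
    · exact ⟨n + m - 1, by linarith, by linarith, Or.inr (by ring)⟩
  have hlo := hlow c₀ hc₀ hc₀2
  have hlo' : 2 * h * k * ((1 - n - m + c₀) / ((1 - n) * (1 - m))) ^ D ≤
      2 * h * k * (1 - ss D um * ut um n * ut um m) +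
        c₀ * (h ^ 2 * psi D um n + k ^ 2 * psi D um m) := by
    have h2 := mul_le_mul_of_nonneg_left hlo (by positivity : 0 ≤ 2 * h * k)
    have h3 : 0 ≤ c₀ * (h ^ 2 * psi D um n + k ^ 2 * psi D um m) := by positivity
    linarith
  rcases (hc₀c.trans hcn).eq_or_lt with hcc | hcc
  · have : c = n := by linarith
    rw [this]
    exact hhigh
  · have hpos : 0 < n - c₀ := by linarith
    obtain ⟨l, hl⟩ : ∃ l, l = (c - c₀) / (n - c₀) := ⟨_, rfl⟩
    have hl0 : 0 ≤ l := by rw [hl]; exact div_nonneg (by linarith) hpos.le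
    have hl1 : l ≤ 1 := by rw [hl, div_le_one hpos]; linarith
    have hlc : c = (1 - l) * c₀ + l * n := by
      have : l * (n - c₀) = c - c₀ := by rw [hl]; exact div_mul_cancel₀ _ hpos.ne'
      linarith
    have ha : 0 ≤ (1 - n - m + c₀) / ((1 - n) * (1 - m)) := by
      apply div_nonneg _ hyy.le
      rcases hc₀2 with ⟨h2, h3⟩ | h2
      · linarith
      · linarith
    have hb : 0 ≤ (1 - n - m + n) / ((1 - n) * (1 - m)) := div_nonneg (by linarith) hyy.le
    have hch := chord D ha hb hl0 hl1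
    have e : (1 - n - m + c) / ((1 - n) * (1 - m)) =
        (1 - l) * ((1 - n - m + c₀) / ((1 - n) * (1 - m))) +
          l * ((1 - n - m + n) / ((1 - n) * (1 - m))) := by
      rw [hlc]
      field_simp
      ring
    rw [e]
    have h6 := mul_le_mul_of_nonneg_left hch (by positivity : 0 ≤ 2 * h * k)
    have h7 := mul_le_mul_of_nonneg_left hlo' (by linarith : 0 ≤ 1 - l)
    have h8 := mul_le_mul_of_nonneg_left hhigh hl0
    have e9 : c * (h ^ 2 * psi D um n + k ^ 2 * psi D um m) =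
        (1 - l) * (c₀ * (h ^ 2 * psi D um n + k ^ 2 * psi D um m)) +
          l * (n * (h ^ 2 * psi D um n + k ^ 2 * psi D um m)) := by
      rw [hlc]
      ring
    rw [e9]
    nlinarith

/-- The clump bound for one pair. -/
theorem pair {D : ℕ} (hD : 1 ≤ D) {um n m c h k : ℝ} (hu : 0 < um) (h1 : um ≤ 1)
    (hn0 : 0 ≤ n) (hn1 : n < 1) (hm0 : 0 ≤ m) (hm1 : m < 1) (hc0 : 0 ≤ c) (hcn : c ≤ n)
    (hcm : c ≤ m) (hc1 : n + m - c ≤ 1) (hh : 0 ≤ h) (hk : 0 ≤ k) :
    2 * h * k * ((1 - n - m + c) / ((1 - n) * (1 - m))) ^ D ≤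
      2 * h * k * (1 - ss D um * ut um n * ut um m) +
        c * (h ^ 2 * psi D um n + k ^ 2 * psi D um m) := by
  rcases le_total n m with h2 | h2
  · exact pair' hD hu h1 hn0 hm1 h2 hc0 hcn hc1 hh hk
  · have h3 := pair' hD hu h1 hm0 hn1 h2 hc0 hcm (by linarith : m + n - c ≤ 1) hk hh
    have e1 : (1 - m - n + c) / ((1 - m) * (1 - n)) = (1 - n - m + c) / ((1 - n) * (1 - m)) := by
      rw [mul_comm (1 - m)]
      congr 1
      ring
    rw [e1] at h3
    linarith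

/-- The clump bound. -/
theorem clump {ι : Type*} (B : Finset ι) {D : ℕ} (hD : 1 ≤ D) {um sg : ℝ} (hu : 0 < um)
    (h1 : um ≤ 1) (w h n : ι → ℝ) (c : ι → ι → ℝ) (hw : ∀ b ∈ B, 0 ≤ w b)
    (hh : ∀ b ∈ B, 0 ≤ h b) (hn0 : ∀ b ∈ B, 0 ≤ n b) (hn1 : ∀ b ∈ B, n b < 1)
    (hc : ∀ b ∈ B, ∀ b' ∈ B, c b b' = c b' b) (hc0 : ∀ b ∈ B, ∀ b' ∈ B, 0 ≤ c b b')
    (hcn : ∀ b ∈ B, ∀ b' ∈ B, c b b' ≤ n b)
    (hc1 : ∀ b ∈ B, ∀ b' ∈ B, n b + n b' - c b b' ≤ 1)
    (hsg : ∀ b ∈ B, ∑ b' ∈ B, w b' * c b b' ≤ sg * n b) :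
    ∑ b ∈ B, ∑ b' ∈ B, w b * w b' * h b * h b' *
        ((1 - n b - n b' + c b b') / ((1 - n b) * (1 - n b'))) ^ D ≤
      (∑ b ∈ B, w b * h b) ^ 2 - ss D um * (∑ b ∈ B, w b * h b * ut um (n b)) ^ 2 +
        sg * ∑ b ∈ B, w b * h b ^ 2 * (((1 - n b)⁻¹) ^ D - 1 + ss D um * ut um (n b) ^ 2) := by
  have h2 : ∀ b ∈ B, ∀ b' ∈ B, w b * w b' * h b * h b' *
      ((1 - n b - n b' + c b b') / ((1 - n b) * (1 - n b'))) ^ D ≤
      w b * w b' * h b * h b' - ss D um * ((w b * h b * ut um (n b)) *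
        (w b' * h b' * ut um (n b'))) +
      (1 / 2) * (w b * h b ^ 2 * psi D um (n b) * (w b' * c b b')) +
      (1 / 2) * (w b' * h b' ^ 2 * psi D um (n b') * (w b * c b' b)) := by
    intro b hb b' hb'
    have h3 := pair hD hu h1 (hn0 b hb) (hn1 b hb) (hn0 b' hb') (hn1 b' hb') (hc0 b hb b' hb')
      (hcn b hb b' hb') (by rw [hc b hb b' hb']; exact hcn b' hb' b hb) (hc1 b hb b' hb')
      (hh b hb) (hh b' hb')
    have h4 := mul_le_mul_of_nonneg_left h3
      (mul_nonneg (mul_nonneg (by norm_num : (0 : ℝ) ≤ 1 / 2) (hw b hb)) (hw b' hb'))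
    rw [hc b' hb' b hb]
    nlinarith
  have h5 := sum_le_sum fun b hb => sum_le_sum fun b' hb' => h2 b hb b' hb'
  refine h5.trans ?_
  have e1 : ∑ b ∈ B, ∑ b' ∈ B, (w b * w b' * h b * h b' - ss D um *
      ((w b * h b * ut um (n b)) * (w b' * h b' * ut um (n b'))) +
      (1 / 2) * (w b * h b ^ 2 * psi D um (n b) * (w b' * c b b')) +
      (1 / 2) * (w b' * h b' ^ 2 * psi D um (n b') * (w b * c b' b))) =
      (∑ b ∈ B, w b * h b) ^ 2 - ss D um * (∑ b ∈ B, w b * h b * ut um (n b)) ^ 2 +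
        ∑ b ∈ B, w b * h b ^ 2 * psi D um (n b) * ∑ b' ∈ B, w b' * c b b' := by
    have e2 : ∑ b ∈ B, ∑ b' ∈ B, (1 / 2) *
        (w b' * h b' ^ 2 * psi D um (n b') * (w b * c b' b)) =
        ∑ b ∈ B, ∑ b' ∈ B, (1 / 2) * (w b * h b ^ 2 * psi D um (n b) * (w b' * c b b')) :=
      sum_comm
    simp only [sum_add_distrib, sum_sub_distrib]
    rw [e2]
    have e3 : ∑ b ∈ B, ∑ b' ∈ B, w b * w b' * h b * h b' = (∑ b ∈ B, w b * h b) ^ 2 := by
      rw [sq, sum_mul_sum]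
      exact sum_congr rfl fun b _ => sum_congr rfl fun b' _ => by ring
    have e4 : ∑ b ∈ B, ∑ b' ∈ B, ss D um * ((w b * h b * ut um (n b)) *
        (w b' * h b' * ut um (n b'))) = ss D um * (∑ b ∈ B, w b * h b * ut um (n b)) ^ 2 := by
      rw [sq, sum_mul_sum, mul_sum]
      exact sum_congr rfl fun b _ => by rw [mul_sum]
    have e5 : ∑ b ∈ B, w b * h b ^ 2 * psi D um (n b) * ∑ b' ∈ B, w b' * c b b' =
        ∑ b ∈ B, ∑ b' ∈ B, (1 / 2) * (w b * h b ^ 2 * psi D um (n b) * (w b' * c b b')) +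
        ∑ b ∈ B, ∑ b' ∈ B, (1 / 2) * (w b * h b ^ 2 * psi D um (n b) * (w b' * c b b')) := by
      rw [← sum_add_distrib]
      refine sum_congr rfl fun b _ => ?_
      rw [mul_sum, ← sum_add_distrib]
      exact sum_congr rfl fun b' _ => by ring
    rw [e3, e4, e5]
    ring
  rw [e1]
  have h6 : ∑ b ∈ B, w b * h b ^ 2 * psi D um (n b) * ∑ b' ∈ B, w b' * c b b' ≤
      sg * ∑ b ∈ B, w b * h b ^ 2 * (((1 - n b)⁻¹) ^ D - 1 + ss D um * ut um (n b) ^ 2) := by
    rw [mul_sum]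
    refine sum_le_sum fun b hb => ?_
    have h7 := mul_le_mul_of_nonneg_left (hsg b hb)
      (mul_nonneg (mul_nonneg (hw b hb) (sq_nonneg (h b)))
        (psi_nonneg D hu h1 (hn1 b hb) (hn0 b hb)))
    have h8 := n_mul_psi D um (hn1 b hb) (hn0 b hb) hu
    rw [← h8]
    calc _ ≤ w b * h b ^ 2 * psi D um (n b) * (sg * n b) := h7
      _ = _ := by ring
  linarith

end

end Pool.Agent.T6A.KZero
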