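import Pool.Agent.T6A.Expect6
import Pool.Agent.T6A.KZero

/-!
# The separable lower bound with the exact `K₀` and arbitrary edge factors (MP_c6effb_co)

`sum_pairB_ge`: clump bound `KZero.clump` (term `+ ss U²`), AM-GM on the edges, edge factor `br`.
`sum_pairB_ge_profile`: `h v b = lam v * f v b` with `f q ≤ C (1 + X ut)`, result
`2 lam A - lam² (A² + σ C A + σ² C² X² / (4 ss))`, `A = ∑ w f`.
-/

set_option autoImplicit false
set_option linter.unusedSectionVars false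

open Finset

namespace Pool.Agent.T6A

variable {V ι : Type*} [Fintype V] [DecidableEq V] [Fintype ι] [DecidableEq ι]
variable {F : SimpleGraph ι} [DecidableRel F.Adj] {G : SimpleGraph V} [DecidableRel G.Adj]
  {μ : ι → ℝ}

/-- The clump term with `K₀`. -/
theorem clumpK_rate_le (h0 : ∀ x, 0 ≤ μ x) (h1 : ∑ x, μ x = 1) {w : ι → ℝ} {h : V → ι → ℝ}
    {σ um : ℝ} (hu : 0 < um) (hu1 : um ≤ 1)
    (hw : ∀ b, 0 ≤ w b) (hh : ∀ v b, 0 ≤ h v b) (hn : ∀ v b, 0 < h v b → nb F μ b < 1)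
    (hσa : ∀ a, 0 < μ a → (∑ c, if F.Adj a c then w c else 0) ≤ σ) (v : V) :
    ∑ b, ∑ c, rate F G μ w h v b * rate F G μ w h v c
        * (1 - nb F μ b - nb F μ c + cod F μ b c) ^ #(nbh G v)
      ≤ (∑ b, w b * h v b) ^ 2
        - KZero.ss #(nbh G v) um * (∑ b, w b * h v b * KZero.ut um (nb F μ b)) ^ 2
        + σ * ∑ b, w b * h v b ^ 2 * (((1 - nb F μ b)⁻¹) ^ #(nbh G v) - 1
          + KZero.ss #(nbh G v) um * KZero.ut um (nb F μ b) ^ 2) := by
  have e0 : ∀ b c, rate F G μ w h v b * rate F G μ w h v c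
        * (1 - nb F μ b - nb F μ c + cod F μ b c) ^ #(nbh G v)
      = w b * w c * h v b * h v c
        * ((1 - nb F μ b - nb F μ c + cod F μ b c) / ((1 - nb F μ b) * (1 - nb F μ c)))
          ^ #(nbh G v) := by
    intro b c
    unfold rate
    rw [div_pow, mul_pow]
    ring
  simp only [e0]
  rcases Nat.eq_zero_or_pos #(nbh G v) with hd | hd
  · rw [hd]
    have hs : KZero.ss 0 um = 0 := by simp [KZero.ss]
    rw [hs]
    simp only [pow_zero, mul_one, zero_mul, sub_self, sub_zero, add_zero, mul_zero,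
      sum_const_zero]
    rw [sq, sum_mul_sum]
    exact (sum_congr rfl fun b _ => sum_congr rfl fun c _ => by ring).le
  · obtain ⟨B, hB⟩ : ∃ B : Finset ι, B = univ.filter fun b => 0 < h v b := ⟨_, rfl⟩
    have hBn : ∀ b, b ∉ B → h v b = 0 := by
      intro b hb
      rw [hB, mem_filter] at hb
      by_contra hc
      exact hb ⟨mem_univ _, lt_of_le_of_ne (hh v b) (Ne.symm hc)⟩
    have hBm : ∀ b ∈ B, 0 < h v b := by
      intro b hb
      rw [hB, mem_filter] at hb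
      exact hb.2
    have key := KZero.clump B hd hu hu1 w (h v) (fun b => nb F μ b) (fun b c => cod F μ b c)
      (fun b _ => hw b) (fun b _ => hh v b) (fun b _ => nb_nonneg h0 b)
      (fun b hb => hn v b (hBm b hb)) (fun b _ c _ => cod_comm b c)
      (fun b _ c _ => cod_nonneg h0 b c) (fun b _ c _ => cod_le_left h0 b c)
      (fun b _ c _ => by have := fr_pair_nonneg (F := F) h0 h1 b c; linarith)
      (sg := σ) (fun b _ => by
        refine le_trans ?_ (sum_cod_le (w := w) h0 hσa b)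
        exact sum_le_sum_of_subset_of_nonneg (subset_univ _) fun c _ _ =>
          mul_nonneg (hw c) (cod_nonneg h0 b c))
    have e1 : ∑ b, ∑ c, w b * w c * h v b * h v c
        * ((1 - nb F μ b - nb F μ c + cod F μ b c) / ((1 - nb F μ b) * (1 - nb F μ c)))
          ^ #(nbh G v)
        = ∑ b ∈ B, ∑ c ∈ B, w b * w c * h v b * h v c
        * ((1 - nb F μ b - nb F μ c + cod F μ b c) / ((1 - nb F μ b) * (1 - nb F μ c)))
          ^ #(nbh G v) := by
      rw [← sum_subset (subset_univ B)]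
      · refine sum_congr rfl fun b _ => ?_
        rw [← sum_subset (subset_univ B)]
        intro c _ hc
        rw [hBn c hc]; ring
      · intro b _ hb
        refine sum_eq_zero fun c _ => ?_
        rw [hBn b hb]; ring
    have e2 : ∑ b, w b * h v b = ∑ b ∈ B, w b * h v b := by
      rw [← sum_subset (subset_univ B)]
      intro b _ hb
      rw [hBn b hb, mul_zero]
    have e3 : ∑ b, w b * h v b * KZero.ut um (nb F μ b)
        = ∑ b ∈ B, w b * h v b * KZero.ut um (nb F μ b) := by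
      rw [← sum_subset (subset_univ B)]
      intro b _ hb
      rw [hBn b hb]; ring
    have e4 : ∑ b, w b * h v b ^ 2 * (((1 - nb F μ b)⁻¹) ^ #(nbh G v) - 1
          + KZero.ss #(nbh G v) um * KZero.ut um (nb F μ b) ^ 2)
        = ∑ b ∈ B, w b * h v b ^ 2 * (((1 - nb F μ b)⁻¹) ^ #(nbh G v) - 1
          + KZero.ss #(nbh G v) um * KZero.ut um (nb F μ b) ^ 2) := by
      rw [← sum_subset (subset_univ B)]
      intro b _ hb
      rw [hBn b hb]; ring
    rw [e1, e2, e3, e4]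
    exact key

/-- The cost of an ordered edge after the AM-GM step, arbitrary edge factor. -/
theorem costB_le {w : ι → ℝ} {h al be : V → ι → ℝ} {br : V → V → ι → ι → ℝ} {Al : ι → ℝ}
    {σ ξ : ℝ} (hξ : 0 < ξ) (hw : ∀ b, 0 ≤ w b) (hh : ∀ v b, 0 ≤ h v b)
    (hn : ∀ v b, 0 < h v b → nb F μ b < 1)
    (hσb : ∀ b, 0 < w b → (∃ v, 0 < h v b) →
      (∑ c, if F.Adj b c then w c else 0) ≤ σ * (1 - nb F μ b))
    (hal : ∀ u b, 0 ≤ al u b) (hbe : ∀ u b, 0 ≤ be u b) (hAl : ∀ u b, al u b ≤ Al b) {a : ι}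
    (hσ0 : 0 ≤ σ) (hbb : ∀ v u b b', G.Adj v u → F.Adj b b' → ¬ F.Adj a b' → 0 < w b → 0 < w b' →
      0 < h v b → 0 < h u b' → br v u b b' ≤ al u b * be u b') {v u : V}
    (huv : G.Adj v u) :
    costB F G μ (rate F G μ w h) br a v u
      ≤ σ / 2 * (ξ * ∑ b, w b * (h v b ^ 2 * Al b ^ 2 * (1 - nb F μ b))
        + ξ⁻¹ * ∑ b, w b * (h u b ^ 2 * be u b ^ 2 / (1 - nb F μ b))) := by
  have h1 : costB F G μ (rate F G μ w h) br a v u
      ≤ ∑ b, ∑ b', (if F.Adj b b' then w b * w b' * ((h v b * al u b)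
        * (h u b' * be u b' / (1 - nb F μ b'))) else 0) := by
    refine sum_le_sum fun b _ => sum_le_sum fun b' _ => ?_
    have hz : ∀ b', 0 < h u b' → 0 < 1 - nb F μ b' := fun b' hb' => by linarith [hn u b' hb']
    have hR : 0 ≤ w b * w b' * ((h v b * al u b) * (h u b' * be u b' / (1 - nb F μ b'))) := by
      rcases (hh u b').lt_or_eq with hpos | hz'
      · exact mul_nonneg (mul_nonneg (hw b) (hw b')) (mul_nonneg (mul_nonneg (hh v b) (hal u b))
          (div_nonneg (mul_nonneg (hh u b') (hbe u b')) (hz b' hpos).le))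
      · rw [← hz']; simp
    by_cases hab : F.Adj b b' ∧ ¬ F.Adj a b'
    · rw [if_pos hab, if_pos hab.1, rate_mul hh hn, rate_mul' hh hn huv]
      by_cases hpos : 0 < w b ∧ 0 < w b' ∧ 0 < h v b ∧ 0 < h u b'
      · have hk := hbb v u b b' huv hab.1 hab.2 hpos.1 hpos.2.1 hpos.2.2.1 hpos.2.2.2
        have hq : 0 ≤ w b * h v b * (w b' * h u b' / (1 - nb F μ b')) :=
          mul_nonneg (mul_nonneg (hw b) (hh v b))
            (div_nonneg (mul_nonneg (hw b') (hh u b')) (hz b' hpos.2.2.2).le)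
        calc _ ≤ w b * h v b * (w b' * h u b' / (1 - nb F μ b')) * (al u b * be u b') :=
              mul_le_mul_of_nonneg_left hk hq
          _ = _ := by ring
      · have hzero : w b * h v b * (w b' * h u b' / (1 - nb F μ b')) = 0 := by
          have : w b = 0 ∨ w b' = 0 ∨ h v b = 0 ∨ h u b' = 0 := by
            by_contra hc
            push Not at hc
            exact hpos ⟨lt_of_le_of_ne (hw b) (Ne.symm hc.1),
              lt_of_le_of_ne (hw b') (Ne.symm hc.2.1),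
              lt_of_le_of_ne (hh v b) (Ne.symm hc.2.2.1),
              lt_of_le_of_ne (hh u b') (Ne.symm hc.2.2.2)⟩
          rcases this with h | h | h | h <;> rw [h] <;> simp
        rw [hzero, zero_mul]
        exact hR
    · rw [if_neg hab]
      by_cases hb : F.Adj b b'
      · rw [if_pos hb]; exact hR
      · rw [if_neg hb]
  have h2 := adj_sum_le F (y := fun b => 1 - nb F μ b) (x := fun b => h v b * al u b)
    (z := fun b => h u b * be u b / (1 - nb F μ b)) hξ hw (fun b hb hxz => hσb b hb (by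
      rcases hxz with h | h
      · exact ⟨v, lt_of_le_of_ne (hh v b) fun h' => h (by simp [← h'])⟩
      · exact ⟨u, lt_of_le_of_ne (hh u b) fun h' => h (by simp [← h'])⟩))
  refine h1.trans (h2.trans ?_)
  have h3 : ∑ b, w b * ((h v b * al u b) ^ 2 * (1 - nb F μ b))
      ≤ ∑ b, w b * (h v b ^ 2 * Al b ^ 2 * (1 - nb F μ b)) := by
    refine sum_le_sum fun b _ => mul_le_mul_of_nonneg_left ?_ (hw b)
    rcases (hh v b).lt_or_eq with hpos | hz'
    · have hy : 0 ≤ 1 - nb F μ b := by linarith [hn v b hpos]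
      rw [mul_pow]
      exact mul_le_mul_of_nonneg_right (mul_le_mul_of_nonneg_left
        (pow_le_pow_left₀ (hal u b) (hAl u b) 2) (sq_nonneg _)) hy
    · rw [← hz']; simp
  have h4 : ∑ b, w b * ((h u b * be u b / (1 - nb F μ b)) ^ 2 * (1 - nb F μ b))
      = ∑ b, w b * (h u b ^ 2 * be u b ^ 2 / (1 - nb F μ b)) := by
    refine sum_congr rfl fun b _ => ?_
    rcases (hh u b).lt_or_eq with hpos | hz'
    · have hy : (1 - nb F μ b) ≠ 0 := by linarith [hn u b hpos]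
      field_simp
    · rw [← hz']; simp
  rw [h4]
  have h5 : 0 ≤ σ / 2 := by linarith
  exact mul_le_mul_of_nonneg_left (by
    have := mul_le_mul_of_nonneg_left h3 hξ.le
    linarith) h5

/-- **The separable lower bound with `K₀`.** -/
theorem sum_pairB_ge (h0 : ∀ x, 0 ≤ μ x) (h1 : ∑ x, μ x = 1) {w : ι → ℝ}
    {h al be : V → ι → ℝ} {br : V → V → ι → ι → ℝ} {Al : ι → ℝ} {um : V → ℝ}
    {σ ξ : ℝ} (hξ : 0 < ξ) (hu : ∀ v, 0 < um v) (hu1 : ∀ v, um v ≤ 1)
    (hw : ∀ b, 0 ≤ w b) (hh : ∀ v b, 0 ≤ h v b)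
    (hn : ∀ v b, 0 < h v b → nb F μ b < 1) (hσ0 : 0 ≤ σ)
    (hσa : ∀ a, 0 < μ a → (∑ c, if F.Adj a c then w c else 0) ≤ σ)
    (hσb : ∀ b, 0 < w b → (∃ v, 0 < h v b) →
      (∑ c, if F.Adj b c then w c else 0) ≤ σ * (1 - nb F μ b))
    (hal : ∀ u b, 0 ≤ al u b) (hbe : ∀ u b, 0 ≤ be u b) (hAl : ∀ u b, al u b ≤ Al b) {a : ι}
    (hbb : ∀ v u b b', G.Adj v u → F.Adj b b' → ¬ F.Adj a b' → 0 < w b → 0 < w b' →
      0 < h v b → 0 < h u b' → br v u b b' ≤ al u b * be u b') :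
    ∑ v, (2 * (∑ b, w b * h v b) - (∑ b, w b * h v b) ^ 2
      + KZero.ss #(nbh G v) (um v) * (∑ b, w b * h v b * KZero.ut (um v) (nb F μ b)) ^ 2
      - σ * ∑ b, w b * h v b ^ 2 * ((#(nbh G v) : ℝ)
        * ((ξ * (Al b ^ 2 * (1 - nb F μ b)) + ξ⁻¹ * (be v b ^ 2 / (1 - nb F μ b))) / 2)
        + (((1 - nb F μ b)⁻¹) ^ #(nbh G v) - 1
          + KZero.ss #(nbh G v) (um v) * KZero.ut (um v) (nb F μ b) ^ 2)))
      ≤ ∑ v, pairB F G μ (rate F G μ w h) br a v := by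
  have hc : ∑ v, ∑ u ∈ nbh G v, costB F G μ (rate F G μ w h) br a v u
      ≤ ∑ v, (#(nbh G v) : ℝ) * (σ / 2 * (ξ * ∑ b, w b * (h v b ^ 2 * Al b ^ 2 * (1 - nb F μ b))
        + ξ⁻¹ * ∑ b, w b * (h v b ^ 2 * be v b ^ 2 / (1 - nb F μ b)))) := by
    calc _ ≤ ∑ v, ∑ u ∈ nbh G v,
          (σ / 2 * (ξ * ∑ b, w b * (h v b ^ 2 * Al b ^ 2 * (1 - nb F μ b)))
            + σ / 2 * (ξ⁻¹ * ∑ b, w b * (h u b ^ 2 * be u b ^ 2 / (1 - nb F μ b)))) := by
          refine sum_le_sum fun v _ => sum_le_sum fun u hu => ?_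
          have := costB_le (br := br) (a := a) hξ hw hh hn hσb hal hbe hAl hσ0 hbb
            (mem_nbh.1 hu)
          rw [← mul_add]
          exact this
      _ = _ := by
        simp only [sum_add_distrib]
        rw [sum_nbr_comm (G := G) fun u =>
          σ / 2 * (ξ⁻¹ * ∑ b, w b * (h u b ^ 2 * be u b ^ 2 / (1 - nb F μ b)))]
        rw [← sum_add_distrib]
        refine sum_congr rfl fun v _ => ?_
        rw [sum_const, nsmul_eq_mul]
        ring
  have hT : ∑ v, pairB F G μ (rate F G μ w h) br a v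
      = ∑ v, (2 * (∑ b, w b * h v b)) - ∑ v, ∑ b, ∑ c, rate F G μ w h v b * rate F G μ w h v c
        * (1 - nb F μ b - nb F μ c + cod F μ b c) ^ #(nbh G v)
        - ∑ v, ∑ u ∈ nbh G v, costB F G μ (rate F G μ w h) br a v u := by
    rw [← sum_sub_distrib, ← sum_sub_distrib]
    refine sum_congr rfl fun v _ => ?_
    unfold pairB
    simp only [rate_mul hh hn]
    rw [mul_sum]
  rw [hT]
  have hcl : ∑ v, ∑ b, ∑ c, rate F G μ w h v b * rate F G μ w h v c
        * (1 - nb F μ b - nb F μ c + cod F μ b c) ^ #(nbh G v)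
      ≤ ∑ v, ((∑ b, w b * h v b) ^ 2
        - KZero.ss #(nbh G v) (um v) * (∑ b, w b * h v b * KZero.ut (um v) (nb F μ b)) ^ 2
        + σ * ∑ b, w b * h v b ^ 2 * (((1 - nb F μ b)⁻¹) ^ #(nbh G v) - 1
          + KZero.ss #(nbh G v) (um v) * KZero.ut (um v) (nb F μ b) ^ 2)) :=
    sum_le_sum fun v _ => clumpK_rate_le h0 h1 (hu v) (hu1 v) hw hh hn hσa v
  have hfin : ∑ v, (2 * (∑ b, w b * h v b) - (∑ b, w b * h v b) ^ 2
      + KZero.ss #(nbh G v) (um v) * (∑ b, w b * h v b * KZero.ut (um v) (nb F μ b)) ^ 2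
      - σ * ∑ b, w b * h v b ^ 2 * ((#(nbh G v) : ℝ)
        * ((ξ * (Al b ^ 2 * (1 - nb F μ b)) + ξ⁻¹ * (be v b ^ 2 / (1 - nb F μ b))) / 2)
        + (((1 - nb F μ b)⁻¹) ^ #(nbh G v) - 1
          + KZero.ss #(nbh G v) (um v) * KZero.ut (um v) (nb F μ b) ^ 2)))
      = ∑ v, (2 * (∑ b, w b * h v b)) - ∑ v, ((∑ b, w b * h v b) ^ 2
        - KZero.ss #(nbh G v) (um v) * (∑ b, w b * h v b * KZero.ut (um v) (nb F μ b)) ^ 2
        + σ * ∑ b, w b * h v b ^ 2 * (((1 - nb F μ b)⁻¹) ^ #(nbh G v) - 1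
          + KZero.ss #(nbh G v) (um v) * KZero.ut (um v) (nb F μ b) ^ 2))
        - ∑ v, (#(nbh G v) : ℝ) * (σ / 2 * (ξ * ∑ b, w b * (h v b ^ 2 * Al b ^ 2 * (1 - nb F μ b))
        + ξ⁻¹ * ∑ b, w b * (h v b ^ 2 * be v b ^ 2 / (1 - nb F μ b)))) := by
    rw [← sum_sub_distrib, ← sum_sub_distrib]
    refine sum_congr rfl fun v _ => ?_
    have e : ∑ b, w b * h v b ^ 2 * ((#(nbh G v) : ℝ)
        * ((ξ * (Al b ^ 2 * (1 - nb F μ b)) + ξ⁻¹ * (be v b ^ 2 / (1 - nb F μ b))) / 2)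
        + (((1 - nb F μ b)⁻¹) ^ #(nbh G v) - 1
          + KZero.ss #(nbh G v) (um v) * KZero.ut (um v) (nb F μ b) ^ 2))
        = (#(nbh G v) : ℝ) / 2 * (ξ * ∑ b, w b * (h v b ^ 2 * Al b ^ 2 * (1 - nb F μ b))
          + ξ⁻¹ * ∑ b, w b * (h v b ^ 2 * be v b ^ 2 / (1 - nb F μ b)))
          + ∑ b, w b * h v b ^ 2 * (((1 - nb F μ b)⁻¹) ^ #(nbh G v) - 1
          + KZero.ss #(nbh G v) (um v) * KZero.ut (um v) (nb F μ b) ^ 2) := by
      simp only [mul_sum]
      rw [← sum_add_distrib, mul_sum, ← sum_add_distrib]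
      refine sum_congr rfl fun b _ => ?_
      ring
    rw [e]
    ring
  rw [hfin]
  linarith

/-- One vertex: `h = lam f`, `f q ≤ C (1 + X u)`. -/
theorem profileK_step {w f q u : ι → ℝ} {lam σ X C s : ℝ} (hw : ∀ b, 0 ≤ w b)
    (hf : ∀ b, 0 ≤ f b) (hσ : 0 ≤ σ) (hs : 0 ≤ s) (hs0 : s = 0 → X = 0)
    (hq : ∀ b, 0 < w b → 0 < f b → f b * q b ≤ C * (1 + X * u b)) :
    2 * (lam * ∑ b, w b * f b) - lam ^ 2 * ((∑ b, w b * f b) ^ 2 + σ * C * (∑ b, w b * f b)
        + σ ^ 2 * C ^ 2 * X ^ 2 / (4 * s))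
      ≤ 2 * (∑ b, w b * (lam * f b)) - (∑ b, w b * (lam * f b)) ^ 2
        + s * (∑ b, w b * (lam * f b) * u b) ^ 2
        - σ * ∑ b, w b * (lam * f b) ^ 2 * q b := by
  obtain ⟨A, hA⟩ : ∃ A, A = ∑ b, w b * f b := ⟨_, rfl⟩
  obtain ⟨U, hU⟩ : ∃ U, U = ∑ b, w b * f b * u b := ⟨_, rfl⟩
  have e1 : ∑ b, w b * (lam * f b) = lam * A := by
    rw [hA, mul_sum]; exact sum_congr rfl fun b _ => by ring
  have e3 : ∑ b, w b * (lam * f b) * u b = lam * U := by
    rw [hU, mul_sum]; exact sum_congr rfl fun b _ => by ring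
  have e2 : ∑ b, w b * (lam * f b) ^ 2 * q b ≤ lam ^ 2 * C * (A + X * U) := by
    rw [hA, hU, mul_sum, ← sum_add_distrib, mul_sum]
    refine sum_le_sum fun b _ => ?_
    by_cases hpos : 0 < w b ∧ 0 < f b
    · have h1 := hq b hpos.1 hpos.2
      have h2 : 0 ≤ lam ^ 2 * (w b * f b) := by
        have := mul_nonneg (hw b) (hf b)
        positivity
      calc w b * (lam * f b) ^ 2 * q b = lam ^ 2 * (w b * f b) * (f b * q b) := by ring
        _ ≤ lam ^ 2 * (w b * f b) * (C * (1 + X * u b)) := mul_le_mul_of_nonneg_left h1 h2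
        _ = _ := by ring
    · have : w b = 0 ∨ f b = 0 := by
        by_contra hc
        push Not at hc
        exact hpos ⟨lt_of_le_of_ne (hw b) (Ne.symm hc.1), lt_of_le_of_ne (hf b) (Ne.symm hc.2)⟩
      rcases this with h | h <;> rw [h] <;> simp
  have e4 : 0 ≤ s * U ^ 2 - σ * C * X * U + σ ^ 2 * C ^ 2 * X ^ 2 / (4 * s) := by
    rcases hs.lt_or_eq with hpos | hz
    · have : s * U ^ 2 - σ * C * X * U + σ ^ 2 * C ^ 2 * X ^ 2 / (4 * s)
          = s * (U - σ * C * X / (2 * s)) ^ 2 := by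
        field_simp
        ring
      rw [this]
      positivity
    · rw [hs0 hz.symm, ← hz]
      simp
  rw [e1, e3, ← hA]
  have h5 := mul_le_mul_of_nonneg_left e2 hσ
  have h6 := mul_nonneg (sq_nonneg lam) e4
  nlinarith

/-- **The bound with profiles and `K₀`**, with replacement of the killers' factors `be` by `om` after
integration (`hkill`). -/
theorem sum_pairB_ge_profile (h0 : ∀ x, 0 ≤ μ x) (h1 : ∑ x, μ x = 1) {w : ι → ℝ}
    {f al be om : V → ι → ℝ} {br : V → V → ι → ι → ℝ} {Al : ι → ℝ} {lam um X C : V → ℝ}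
    {σ ξ : ℝ} (hξ : 0 < ξ) (hu : ∀ v, 0 < um v) (hu1 : ∀ v, um v ≤ 1)
    (hw : ∀ b, 0 ≤ w b) (hlam : ∀ v, 0 ≤ lam v) (hf : ∀ v b, 0 ≤ f v b)
    (hn : ∀ v b, 0 < f v b → nb F μ b < 1) (hσ0 : 0 ≤ σ)
    (hσa : ∀ a, 0 < μ a → (∑ c, if F.Adj a c then w c else 0) ≤ σ)
    (hσb : ∀ b, 0 < w b → (∃ v, 0 < f v b) →
      (∑ c, if F.Adj b c then w c else 0) ≤ σ * (1 - nb F μ b))
    (hal : ∀ u b, 0 ≤ al u b) (hbe : ∀ u b, 0 ≤ be u b) (hAl : ∀ u b, al u b ≤ Al b) {a : ι}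
    (hbb : ∀ v u b b', G.Adj v u → F.Adj b b' → ¬ F.Adj a b' → 0 < w b → 0 < w b' →
      0 < f v b → 0 < f u b' → br v u b b' ≤ al u b * be u b')
    (hkill : ∀ v, ∑ b, w b * (f v b ^ 2 * (be v b ^ 2 / (1 - nb F μ b)))
      ≤ ∑ b, w b * (f v b ^ 2 * (om v b ^ 2 / (1 - nb F μ b))))
    (hX : ∀ v, KZero.ss #(nbh G v) (um v) = 0 → X v = 0)
    (hprof : ∀ v b, 0 < w b → 0 < f v b →
      f v b * ((#(nbh G v) : ℝ)
        * ((ξ * (Al b ^ 2 * (1 - nb F μ b)) + ξ⁻¹ * (om v b ^ 2 / (1 - nb F μ b))) / 2)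
        + (((1 - nb F μ b)⁻¹) ^ #(nbh G v) - 1
          + KZero.ss #(nbh G v) (um v) * KZero.ut (um v) (nb F μ b) ^ 2))
        ≤ C v * (1 + X v * KZero.ut (um v) (nb F μ b))) :
    ∑ v, (2 * (lam v * ∑ b, w b * f v b) - lam v ^ 2 * ((∑ b, w b * f v b) ^ 2
      + σ * C v * (∑ b, w b * f v b)
      + σ ^ 2 * C v ^ 2 * X v ^ 2 / (4 * KZero.ss #(nbh G v) (um v))))
      ≤ ∑ v, pairB F G μ (rate F G μ w fun v b => lam v * f v b) br a v := by
  have hpos : ∀ v b, 0 < lam v * f v b → 0 < f v b := fun v b h =>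
    lt_of_le_of_ne (hf v b) (Ne.symm (by
      intro hc
      rw [hc, mul_zero] at h
      exact lt_irrefl _ h))
  refine le_trans ?_ (sum_pairB_ge (h := fun v b => lam v * f v b) h0 h1 hξ hu hu1 hw
    (fun v b => mul_nonneg (hlam v) (hf v b)) (fun v b h => hn v b (hpos v b h)) hσ0 hσa
    (fun b hb hv => hσb b hb (by
      obtain ⟨v, hv⟩ := hv
      exact ⟨v, hpos v b hv⟩)) hal hbe hAl (fun v u b b' hG hF ha hb hb' h h' =>
      hbb v u b b' hG hF ha hb hb' (hpos v b h) (hpos u b' h')))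
  refine sum_le_sum fun v _ => ?_
  refine (profileK_step (lam := lam v) hw (hf v) hσ0 (KZero.ss_nonneg _ (hu v) (hu1 v)) (hX v)
    (hprof v)).trans ?_
  have e : ∀ be : V → ι → ℝ, ∑ b, w b * (lam v * f v b) ^ 2 * ((#(nbh G v) : ℝ)
        * ((ξ * (Al b ^ 2 * (1 - nb F μ b)) + ξ⁻¹ * (be v b ^ 2 / (1 - nb F μ b))) / 2)
        + (((1 - nb F μ b)⁻¹) ^ #(nbh G v) - 1
          + KZero.ss #(nbh G v) (um v) * KZero.ut (um v) (nb F μ b) ^ 2))
      = ∑ b, w b * (lam v * f v b) ^ 2 * ((#(nbh G v) : ℝ)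
        * ((ξ * (Al b ^ 2 * (1 - nb F μ b))) / 2) + (((1 - nb F μ b)⁻¹) ^ #(nbh G v) - 1
          + KZero.ss #(nbh G v) (um v) * KZero.ut (um v) (nb F μ b) ^ 2))
        + lam v ^ 2 * (#(nbh G v) : ℝ) * ξ⁻¹ / 2
          * ∑ b, w b * (f v b ^ 2 * (be v b ^ 2 / (1 - nb F μ b))) := by
    intro be
    rw [mul_sum, ← sum_add_distrib]
    exact sum_congr rfl fun b _ => by ring
  rw [e om, e be]
  have h2 : 0 ≤ lam v ^ 2 * (#(nbh G v) : ℝ) * ξ⁻¹ / 2 := by positivity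
  have h3 := mul_le_mul_of_nonneg_left (hkill v) h2
  have h4 := mul_le_mul_of_nonneg_left h3 hσ0
  rw [mul_add, mul_add]
  linarith

end Pool.Agent.T6A
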