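import Mathlib

/-!
# Fractional Hall theorem (MP_c6effb_co)

Sources `i` with supplies `s i`, sinks `j` with capacities `c j`, edges with capacities `u i j`. If
every cut has value at least `t`, then there is a flow of value at least `t` (`exists_flow_cap`); with
a relation `R` instead of the edge capacities: `exists_flow`.
-/

set_option autoImplicit false

open Finset

namespace Pool.Agent.T6A

section flow

variable {I J : Type*} [Fintype I] [Fintype J]

/-- `f` is a flow. -/
structure IsFlow (u : I → J → ℝ) (s : I → ℝ) (c : J → ℝ) (f : I → J → ℝ) : Prop where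
  nonneg : ∀ i j, 0 ≤ f i j
  cap : ∀ i j, f i j ≤ u i j
  row : ∀ i, ∑ j, f i j ≤ s i
  col : ∀ j, ∑ i, f i j ≤ c j

variable {u : I → J → ℝ} {s : I → ℝ} {c : J → ℝ}

/-- There is a flow of maximal value. -/
theorem exists_maxFlow (hu : ∀ i j, 0 ≤ u i j) (hs : ∀ i, 0 ≤ s i) (hc : ∀ j, 0 ≤ c j) :
    ∃ f, IsFlow u s c f ∧ ∀ f', IsFlow u s c f' → ∑ i, ∑ j, f' i j ≤ ∑ i, ∑ j, f i j := by
  have hcl : IsClosed {f : I → J → ℝ | IsFlow u s c f} := by
    have h1 : {f : I → J → ℝ | IsFlow u s c f} =
        ((⋂ i, ⋂ j, {f : I → J → ℝ | 0 ≤ f i j}) ∩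
          (⋂ i, ⋂ j, {f : I → J → ℝ | f i j ≤ u i j})) ∩
        ((⋂ i, {f : I → J → ℝ | ∑ j, f i j ≤ s i}) ∩
          (⋂ j, {f : I → J → ℝ | ∑ i, f i j ≤ c j})) := by
      ext f
      simp only [Set.mem_ofPred_eq, Set.mem_inter_iff, Set.mem_iInter]
      exact ⟨fun h => ⟨⟨h.nonneg, h.cap⟩, h.row, h.col⟩, fun h => ⟨h.1.1, h.1.2, h.2.1, h.2.2⟩⟩
    rw [h1]
    refine (IsClosed.inter ?_ ?_).inter (IsClosed.inter ?_ ?_)
    · exact isClosed_iInter fun i => isClosed_iInter fun j =>
        isClosed_le continuous_const (by fun_prop)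
    · exact isClosed_iInter fun i => isClosed_iInter fun j =>
        isClosed_le (by fun_prop) continuous_const
    · exact isClosed_iInter fun i => isClosed_le (by fun_prop) continuous_const
    · exact isClosed_iInter fun j => isClosed_le (by fun_prop) continuous_const
  have hbox : IsCompact (Set.univ.pi fun i : I => Set.univ.pi fun j : J =>
      Set.Icc (0 : ℝ) (u i j)) :=
    isCompact_univ_pi fun i => isCompact_univ_pi fun _ => isCompact_Icc
  have hcomp : IsCompact {f : I → J → ℝ | IsFlow u s c f} := by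
    refine hbox.of_isClosed_subset hcl fun f hf => ?_
    intro i _ j _
    exact ⟨IsFlow.nonneg hf i j, IsFlow.cap hf i j⟩
  have hne : {f : I → J → ℝ | IsFlow u s c f}.Nonempty :=
    ⟨fun _ _ => 0, ⟨fun _ _ => le_rfl, hu, fun i => by simpa using hs i,
      fun j => by simpa using hc j⟩⟩
  obtain ⟨f, hf, hmax⟩ := hcomp.exists_isMaxOn (f := fun f : I → J → ℝ => ∑ i, ∑ j, f i j) hne
    (by fun_prop)
  exact ⟨f, hf, fun f' hf' => hmax hf'⟩

/-- The average of flows is a flow. -/
theorem IsFlow.avg {K : Type*} [Fintype K] [Nonempty K] {F : K → I → J → ℝ}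
    (h : ∀ k, IsFlow u s c (F k)) :
    IsFlow u s c fun i j => (∑ k, F k i j) / Fintype.card K := by
  have hK : (0 : ℝ) < Fintype.card K := Nat.cast_pos.2 Fintype.card_pos
  refine ⟨fun i j => div_nonneg (sum_nonneg fun k _ => (h k).nonneg i j) hK.le, ?_, ?_, ?_⟩
  · intro i j
    rw [div_le_iff₀ hK]
    calc ∑ k, F k i j ≤ ∑ _k : K, u i j := sum_le_sum fun k _ => (h k).cap i j
      _ = u i j * Fintype.card K := by rw [sum_const, nsmul_eq_mul, card_univ, mul_comm]
  · intro i
    rw [← sum_div, div_le_iff₀ hK, sum_comm]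
    calc ∑ k, ∑ j, F k i j ≤ ∑ _k : K, s i := sum_le_sum fun k _ => (h k).row i
      _ = s i * Fintype.card K := by rw [sum_const, nsmul_eq_mul, card_univ, mul_comm]
  · intro j
    rw [← sum_div, div_le_iff₀ hK, sum_comm]
    calc ∑ k, ∑ i, F k i j ≤ ∑ _k : K, c j := sum_le_sum fun k _ => (h k).col j
      _ = c j * Fintype.card K := by rw [sum_const, nsmul_eq_mul, card_univ, mul_comm]

open Classical in
/-- **Fractional Hall theorem** with edge capacities. -/
theorem exists_flow_cap (u : I → J → ℝ) (s : I → ℝ) (c : J → ℝ) (hu : ∀ i j, 0 ≤ u i j)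
    (hs : ∀ i, 0 ≤ s i) (hc : ∀ j, 0 ≤ c j) (t : ℝ)
    (hcut : ∀ P : Finset J, t ≤ ∑ i, min (s i) (∑ j ∈ P, u i j) + ∑ j with j ∉ P, c j) :
    ∃ f, IsFlow u s c f ∧ t ≤ ∑ i, ∑ j, f i j := by
  obtain ⟨f₀, hf₀, hmax₀⟩ := exists_maxFlow (u := u) hu hs hc
  rcases isEmpty_or_nonempty I with hI | hI
  · refine ⟨f₀, hf₀, ?_⟩
    have h1 := hcut univ
    simpa using h1
  -- a maximal flow for every source which is not saturated if possible
  have hch : ∀ i : I, ∃ f, IsFlow u s c f ∧ (∑ i, ∑ j, f i j = ∑ i, ∑ j, f₀ i j) ∧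
      ((∃ f', IsFlow u s c f' ∧ (∑ i, ∑ j, f' i j = ∑ i, ∑ j, f₀ i j) ∧ ∑ j, f' i j < s i) →
        ∑ j, f i j < s i) := by
    intro i
    by_cases h : ∃ f', IsFlow u s c f' ∧ (∑ i, ∑ j, f' i j = ∑ i, ∑ j, f₀ i j) ∧
        ∑ j, f' i j < s i
    · obtain ⟨f', h1, h2, h3⟩ := h
      exact ⟨f', h1, h2, fun _ => h3⟩
    · exact ⟨f₀, hf₀, rfl, fun h' => absurd h' h⟩
  choose F hF hFv hFi using hch
  set f : I → J → ℝ := fun i j => (∑ k, F k i j) / Fintype.card I with hf
  have hK : (0 : ℝ) < Fintype.card I := Nat.cast_pos.2 Fintype.card_pos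
  have hflow : IsFlow u s c f := IsFlow.avg hF
  have hval : ∑ i, ∑ j, f i j = ∑ i, ∑ j, f₀ i j := by
    have h1 : ∑ i, ∑ j, f i j = (∑ k, ∑ i, ∑ j, F k i j) / Fintype.card I := by
      rw [hf, sum_comm (f := fun k i => ∑ j, F k i j), sum_div]
      refine sum_congr rfl fun i _ => ?_
      rw [sum_comm (f := fun k j => F k i j), sum_div]
    rw [h1, sum_congr rfl fun k _ => hFv k, sum_const, nsmul_eq_mul, card_univ,
      mul_div_cancel_left₀ _ hK.ne']
  have hmax : ∀ f', IsFlow u s c f' → ∑ i, ∑ j, f' i j ≤ ∑ i, ∑ j, f i j := by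
    intro f' hf'
    rw [hval]
    exact hmax₀ f' hf'
  -- the sources which can be unsaturated
  set X : I → Prop := fun i => ∑ j, f i j < s i with hX
  have hXi : ∀ i, ∀ f', IsFlow u s c f' → (∑ i, ∑ j, f' i j = ∑ i, ∑ j, f i j) →
      ∑ j, f' i j < s i → X i := by
    intro i f' h1 h2 h3
    have h4 : ∑ j, F i i j < s i := hFi i ⟨f', h1, by rw [h2, hval], h3⟩
    show ∑ j, (∑ k, F k i j) / Fintype.card I < s i
    rw [← sum_div, div_lt_iff₀ hK, sum_comm]
    calc ∑ k, ∑ j, F k i j < ∑ _k : I, s i :=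
          sum_lt_sum (fun k _ => (hF k).row i) ⟨i, mem_univ i, h4⟩
      _ = s i * Fintype.card I := by rw [sum_const, nsmul_eq_mul, card_univ, mul_comm]
  -- (1) the sinks which can be reached from unsaturated sources are saturated
  have h1 : ∀ i j, X i → f i j < u i j → ∑ i, f i j = c j := by
    intro i j hi hR
    by_contra hne
    have hlt : ∑ i, f i j < c j := lt_of_le_of_ne (hflow.col j) hne
    obtain ⟨d, hd⟩ : ∃ d, d = min (min (s i - ∑ j, f i j) (c j - ∑ i, f i j)) (u i j - f i j) :=
      ⟨_, rfl⟩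
    have hd0 : 0 < d := hd ▸ lt_min (lt_min (sub_pos.2 hi) (sub_pos.2 hlt)) (sub_pos.2 hR)
    have hd1 : d ≤ s i - ∑ j, f i j := hd ▸ (min_le_left _ _).trans (min_le_left _ _)
    have hd2 : d ≤ c j - ∑ i, f i j := hd ▸ (min_le_left _ _).trans (min_le_right _ _)
    have hd3 : d ≤ u i j - f i j := hd ▸ min_le_right _ _
    set f' : I → J → ℝ := fun a b => f a b + if a = i ∧ b = j then d else 0 with hf'
    have hrow : ∀ a, ∑ b, f' a b = ∑ b, f a b + if a = i then d else 0 := by
      intro a
      simp only [hf']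
      rw [sum_add_distrib]
      congr 1
      by_cases h : a = i
      · simp [h]
      · simp [h]
    have hcol : ∀ b, ∑ a, f' a b = ∑ a, f a b + if b = j then d else 0 := by
      intro b
      simp only [hf']
      rw [sum_add_distrib]
      congr 1
      by_cases h : b = j
      · simp [h]
      · simp [h]
    have hfl : IsFlow u s c f' := by
      refine ⟨fun a b => ?_, fun a b => ?_, fun a => ?_, fun b => ?_⟩
      · simp only [hf']
        have := hflow.nonneg a b
        split_ifs <;> linarith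
      · simp only [hf']
        by_cases h : a = i ∧ b = j
        · rw [if_pos h, h.1, h.2]; linarith
        · rw [if_neg h, add_zero]; exact hflow.cap a b
      · rw [hrow a]
        by_cases h : a = i
        · rw [if_pos h, h]; linarith
        · rw [if_neg h, add_zero]; exact hflow.row a
      · rw [hcol b]
        by_cases h : b = j
        · rw [if_pos h, h]; linarith
        · rw [if_neg h, add_zero]; exact hflow.col b
    have h2 := hmax f' hfl
    rw [sum_congr rfl fun a _ => hrow a, sum_add_distrib] at h2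
    have h3 : ∑ a : I, (if a = i then d else 0) = d := by simp
    linarith
  -- (2) flow into these sinks comes from sources which can be unsaturated
  have h2 : ∀ i j i', X i → f i j < u i j → 0 < f i' j → X i' := by
    intro i j i' hi hR hpos
    by_cases hii : i' = i
    · rw [hii]; exact hi
    obtain ⟨d, hd⟩ : ∃ d, d = min (min (s i - ∑ j, f i j) (u i j - f i j)) (f i' j) := ⟨_, rfl⟩
    have hd0 : 0 < d := hd ▸ lt_min (lt_min (sub_pos.2 hi) (sub_pos.2 hR)) hpos
    have hd1 : d ≤ s i - ∑ j, f i j := hd ▸ (min_le_left _ _).trans (min_le_left _ _)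
    have hd3 : d ≤ u i j - f i j := hd ▸ (min_le_left _ _).trans (min_le_right _ _)
    have hd2 : d ≤ f i' j := hd ▸ min_le_right _ _
    set f' : I → J → ℝ := fun a b => f a b + (if a = i ∧ b = j then d else 0) -
      (if a = i' ∧ b = j then d else 0) with hf'
    have hrow : ∀ a, ∑ b, f' a b = ∑ b, f a b + (if a = i then d else 0) -
        (if a = i' then d else 0) := by
      intro a
      simp only [hf']
      rw [sum_sub_distrib, sum_add_distrib]
      congr 1
      · congr 1
        by_cases h : a = i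
        · simp [h]
        · simp [h]
      · by_cases h : a = i'
        · simp [h]
        · simp [h]
    have hcol : ∀ b, ∑ a, f' a b = ∑ a, f a b := by
      intro b
      simp only [hf']
      rw [sum_sub_distrib, sum_add_distrib]
      by_cases h : b = j
      · simp [h]
      · simp [h]
    have hfl : IsFlow u s c f' := by
      refine ⟨fun a b => ?_, fun a b => ?_, fun a => ?_, fun b => ?_⟩
      · simp only [hf']
        have h0 := hflow.nonneg a b
        by_cases h : a = i' ∧ b = j
        · have h' : ¬ (a = i ∧ b = j) := fun h'' => hii (h.1.symm.trans h''.1)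
          rw [if_neg h', if_pos h, h.1, h.2]
          linarith
        · rw [if_neg h]
          split_ifs <;> linarith
      · simp only [hf']
        have h0 := hflow.cap a b
        by_cases h : a = i ∧ b = j
        · have h' : ¬ (a = i' ∧ b = j) := fun h'' => hii (h''.1.symm.trans h.1)
          rw [if_pos h, if_neg h', h.1, h.2]
          linarith
        · rw [if_neg h]
          split_ifs <;> linarith
      · rw [hrow a]
        by_cases h : a = i
        · have h' : a ≠ i' := fun h'' => hii (h''.symm.trans h)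
          rw [if_pos h, if_neg h', h]; linarith
        · rw [if_neg h]
          have := hflow.row a
          split_ifs <;> linarith
      · rw [hcol b]; exact hflow.col b
    have hv : ∑ a, ∑ b, f' a b = ∑ a, ∑ b, f a b := by
      rw [sum_congr rfl fun a _ => hrow a, sum_sub_distrib, sum_add_distrib]
      simp
    refine hXi i' f' hfl hv ?_
    rw [hrow i', if_neg hii, if_pos rfl]
    have := hflow.row i'
    linarith
  -- the cut
  refine ⟨f, hflow, ?_⟩
  set P : Finset J := univ.filter fun j => ¬ ∃ i, X i ∧ f i j < u i j with hP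
  have hcutP := hcut P
  have hA : ∀ i, min (s i) (∑ j ∈ P, u i j) ≤ ∑ j ∈ P, f i j := by
    intro i
    by_cases hi : X i
    · refine (min_le_right _ _).trans (sum_le_sum fun j hj => ?_)
      by_contra hlt
      exact (mem_filter.1 hj).2 ⟨i, hi, not_le.1 hlt⟩
    · refine (min_le_left _ _).trans (le_of_eq ?_)
      have h4 : ∑ j, f i j = s i := le_antisymm (hflow.row i) (not_lt.1 hi)
      rw [← h4]
      symm
      refine sum_subset (subset_univ P) fun j _ hj => ?_
      have h5 : ∃ i, X i ∧ f i j < u i j := by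
        by_contra hcon
        exact hj (mem_filter.2 ⟨mem_univ _, hcon⟩)
      obtain ⟨i₁, h6, h7⟩ := h5
      by_contra hne
      exact hi (h2 i₁ j i h6 h7 (lt_of_le_of_ne (hflow.nonneg i j) (Ne.symm hne)))
  have hD : ∑ j with j ∉ P, c j = ∑ j with j ∉ P, ∑ i, f i j := by
    refine sum_congr rfl fun j hj => ?_
    have h5 : ∃ i, X i ∧ f i j < u i j := by
      by_contra hcon
      exact (mem_filter.1 hj).2 (mem_filter.2 ⟨mem_univ _, hcon⟩)
    obtain ⟨i₁, h6, h7⟩ := h5
    exact (h1 i₁ j h6 h7).symm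
  have hE : ∑ i, ∑ j, f i j = ∑ i, ∑ j ∈ P, f i j + ∑ j with j ∉ P, ∑ i, f i j := by
    rw [sum_comm (s := (univ : Finset I)) (t := P), sum_comm (s := (univ : Finset I)) (t := univ),
      ← sum_filter_add_sum_filter_not univ (fun j => j ∈ P)]
    congr 1
    rw [filter_mem_eq_inter, univ_inter]
  have hB : ∑ i, min (s i) (∑ j ∈ P, u i j) ≤ ∑ i, ∑ j ∈ P, f i j :=
    sum_le_sum fun i _ => hA i
  rw [hE]
  linarith

open Classical in
/-- **Fractional Hall theorem** (deficiency form, with capacities) for a relation `R`. -/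
theorem exists_flow (R : I → J → Prop) (s : I → ℝ) (c : J → ℝ) (hs : ∀ i, 0 ≤ s i)
    (hc : ∀ j, 0 ≤ c j) (t : ℝ)
    (hcut : ∀ P : Finset J, t ≤ ∑ i with ∃ j ∈ P, R i j, s i + ∑ j with j ∉ P, c j) :
    ∃ f : I → J → ℝ, (∀ i j, 0 ≤ f i j) ∧ (∀ i j, ¬ R i j → f i j = 0) ∧
      (∀ i, ∑ j, f i j ≤ s i) ∧ (∀ j, ∑ i, f i j ≤ c j) ∧ t ≤ ∑ i, ∑ j, f i j := by
  obtain ⟨f, hf, ht⟩ := exists_flow_cap (fun i j => if R i j then s i else 0) s c
    (fun i j => by split_ifs; exacts [hs i, le_rfl]) hs hc t (by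
      intro P
      refine (hcut P).trans (add_le_add_left ?_ _)
      rw [sum_filter]
      refine sum_le_sum fun i _ => ?_
      have h0 : ∀ j ∈ P, 0 ≤ (if R i j then s i else 0) := fun j _ => by
        split_ifs; exacts [hs i, le_rfl]
      by_cases h : ∃ j ∈ P, R i j
      · rw [if_pos h]
        obtain ⟨j, hj, hR⟩ := h
        refine le_min le_rfl ?_
        have h1 := single_le_sum h0 hj
        rwa [if_pos hR] at h1
      · rw [if_neg h]
        exact le_min (hs i) (sum_nonneg h0))
  refine ⟨f, hf.nonneg, fun i j hR => ?_, hf.row, hf.col, ht⟩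
  have h1 := hf.cap i j
  simp only [if_neg hR] at h1
  exact le_antisymm h1 (hf.nonneg i j)

end flow

end Pool.Agent.T6A
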