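import Pool.Agent.Sid84.Main

/-!
# Positions of the hubs (MP_c6effb_co)

The vertices in `Q` are placed in a large set `U` of vertices of the triangle-free graph `H`, such
that the edges of `G` inside `Q` go to non-edges of `H`.
-/

set_option autoImplicit false

open Finset

namespace Pool.Agent.T6A

theorem ncard_induce_le {V : Type} [Finite V] (G : SimpleGraph V) (s : Set V) :
    (G.induce s).edgeSet.ncard ≤ G.edgeSet.ncard := by
  classical
  refine Set.ncard_le_ncard_of_injOn (fun e => e.map Subtype.val) ?_ ?_ (Set.toFinite _)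
  · intro e he
    induction e using Sym2.ind with
    | _ a b =>
      rw [SimpleGraph.mem_edgeSet] at he
      simpa using he
  · intro e _ e' _ h
    exact Sym2.map.injective Subtype.val_injective h

theorem hub_pos (ε : ℝ) (hε : 0 < ε) : ∃ C : ℝ, 0 < C ∧
    ∀ (V W : Type) [Fintype V] [Fintype W] (G : SimpleGraph V) (H : SimpleGraph W)
      (Q : Finset V) (U : Finset W),
      H.CliqueFree 3 → ε * (G.edgeSet.ncard : ℝ) ≤ U.card → C * (Q.card : ℝ) ≤ U.card →
      Q.Nonempty → ∃ f : V → W, (∀ q ∈ Q, f q ∈ U) ∧ (∀ q ∈ Q, ∀ q' ∈ Q, f q = f q' → q = q') ∧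
        ∀ q ∈ Q, ∀ q' ∈ Q, G.Adj q q' → ¬ H.Adj (f q) (f q') := by
  classical
  obtain ⟨C, hC, h⟩ := Pool.Agent.Sid84.ramsey_eps ε hε
  refine ⟨C, hC, ?_⟩
  intro V W _ _ G H Q U hH h1 h2 ⟨q₀, hq₀⟩
  obtain ⟨f, hf, hadj⟩ := h {x // x ∈ U} {x // x ∈ Q} (H.induce {x | x ∈ U})
    (G.induce {x | x ∈ Q}) (hH.comap ⟨(SimpleGraph.Embedding.induce _).toCopy⟩) (by
      rw [Fintype.card_coe]
      refine le_trans (mul_le_mul_of_nonneg_left ?_ hε.le) h1
      exact_mod_cast ncard_induce_le G _) (by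
      rw [Fintype.card_coe, Fintype.card_coe]
      exact h2)
  have hf' : ∀ q (hq : q ∈ Q), (if h : q ∈ Q then (f ⟨q, h⟩).1 else (f ⟨q₀, hq₀⟩).1)
      = (f ⟨q, hq⟩).1 := fun q hq => dif_pos hq
  refine ⟨fun v => if h : v ∈ Q then (f ⟨v, h⟩).1 else (f ⟨q₀, hq₀⟩).1, ?_, ?_, ?_⟩
  · intro q hq
    simp only [hf' q hq]
    exact (f ⟨q, hq⟩).2
  · intro q hq q' hq' hqq
    simp only [hf' q hq, hf' q' hq'] at hqq
    exact congrArg Subtype.val (hf (Subtype.ext hqq))
  · intro q hq q' hq' hqq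
    simp only [hf' q hq, hf' q' hq']
    have := hadj ⟨q, hq⟩ ⟨q', hq'⟩ (by simpa using hqq)
    simpa using this

end Pool.Agent.T6A
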