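import Pool.Agent.T6A.Top

/-!
# The low problem (MP_c6effb_co)

The data which remain after regularity and after the hubs (the vertices of degree more than `K` of
`G`) have been placed: a weighted triangle-free graph `F` on the clusters (weights in units of the
number `k` of vertices of `G`), a heaviest `F`-independent set `A`, the hubs `Qh`, among them the
giants `Gi` (all in one cluster of `A`), a few exceptional vertices `Ex` (the vertices outside `Qh`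
with a neighbour in `Qh` which is not a giant are among them) and, for every vertex `v` outside `Qh`,
the set `Al v` of the clusters which its hub neighbours leave.
-/

set_option autoImplicit false

open Finset

namespace Pool.Agent.T6A

open Classical in
/-- Number of neighbours of `v` outside the set `S`. -/
noncomputable def dLow {V : Type} [Fintype V] (G : SimpleGraph V) (S : Finset V) (v : V) : ℕ :=
  (univ.filter fun u => G.Adj v u ∧ u ∉ S).card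

open Classical in
/-- Number of neighbours of `v` in the set `S`. -/
noncomputable def jHub {V : Type} [Fintype V] (G : SimpleGraph V) (S : Finset V) (v : V) : ℕ :=
  (univ.filter fun u => G.Adj v u ∧ u ∈ S).card

open Classical in
/-- The data of the low problem for `G`. -/
structure LowData (Q : ℝ) (C K M : ℕ) (δ₁ δ : ℝ) {V : Type} [Fintype V] (G : SimpleGraph V) where
  ι : Type
  ft : Fintype ι
  /-- blocked pairs of clusters -/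
  F : SimpleGraph ι
  /-- bad pairs of clusters -/
  Bd : ι → ι → Prop
  /-- weights -/
  w : ι → ℝ
  /-- heaviest `F`-independent set -/
  A : Finset ι
  /-- the hubs -/
  Qh : Finset V
  /-- the giants -/
  Gi : Finset V
  /-- exceptional vertices -/
  Ex : Finset V
  /-- allowed clusters -/
  Al : V → Finset ι
  few : Fintype.card ι ≤ M
  wpos : ∀ i, 1 ≤ 2 * M * w i
  tri : F.CliqueFree 3
  brefl : ∀ i, Bd i i
  bsymm : ∀ i j, Bd i j → Bd j i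
  bsmall : ∀ i, ∀ S : Finset ι, (∀ j ∈ S, Bd i j) → ∑ j ∈ S, w j ≤ δ
  indA : ∀ i ∈ A, ∀ j ∈ A, ¬ F.Adj i j
  maxA : ∀ S : Finset ι, (∀ i ∈ S, ∀ j ∈ S, ¬ F.Adj i j) → ∑ i ∈ S, w i ≤ ∑ i ∈ A, w i
  half : 1 / 2 ≤ (∑ i ∈ A, w i) + δ
  totQ : 1 + Q ≤ (∑ i, w i) + δ
  totC : ∑ i, w i ≤ 1 + 2 * C
  hubs : (Qh.card : ℝ) * K ≤ 2 * C * Fintype.card V
  giants : Gi ⊆ Qh
  exc : ∀ v, v ∉ Qh → ∀ u ∈ Qh, u ∉ Gi → G.Adj v u → v ∈ Ex
  exCard : (Ex.card : ℝ) ≤ δ₁ * Fintype.card V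
  deg : ∀ v, v ∉ Qh → (univ.filter fun u => G.Adj v u).card ≤ K
  degBig : ∀ v, v ∉ Qh → v ∉ Ex → ∑ i, w i ≤
    1 + δ + ((dLow G Qh v : ℝ) + jHub G Gi v) * ((∑ i ∈ A, w i) + δ)
  budget : ∀ S : Finset V, (∀ v ∈ S, v ∉ Qh) → ∑ v ∈ S, ((dLow G Qh v : ℝ) + 2 * jHub G Gi v) ≤
    2 * ((∑ i, w i) - 1 + δ) * Fintype.card V
  listA : ∀ v, v ∉ Qh → ∀ S : Finset ι, (∀ i ∈ S, i ∈ A ∧ i ∉ Al v) → ∑ i ∈ S, w i ≤ δ
  listB : ∀ v, v ∉ Qh → v ∉ Ex → ∀ S : Finset ι, (∀ i ∈ S, i ∉ A ∧ i ∉ Al v) →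
    ∑ i ∈ S, w i ≤ (if jHub G Gi v = 0 then 0 else ∑ i ∈ A, w i) + δ

/-- A solution of the low problem: `T` = the vertices placed outside `A` (`v` in the cluster `b v`);
a vertex `v` outside `T` with a neighbour in `T` goes to the cluster `g v`; the other vertices go
anywhere in the clusters of `A`. -/
def LowSol {Q : ℝ} {C K M : ℕ} {δ₁ δ : ℝ} {V : Type} [Fintype V] {G : SimpleGraph V}
    (D : LowData Q C K M δ₁ δ G) : Prop :=
  ∃ (T : Finset V) (g b : V → D.ι),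
    (∀ v ∈ T, v ∉ D.Qh ∧ v ∉ D.Ex ∧ b v ∉ D.A ∧ b v ∈ D.Al v) ∧
    (∀ v, v ∉ T → v ∉ D.Qh → (∃ u ∈ T, G.Adj v u) → g v ∈ D.A ∧ g v ∈ D.Al v) ∧
    (∀ v ∈ T, ∀ u ∈ T, G.Adj v u → ¬ D.F.Adj (b v) (b u) ∧ ¬ D.Bd (b v) (b u)) ∧
    (∀ v ∈ T, ∀ u, u ∉ T → u ∉ D.Qh → G.Adj v u →
      ¬ D.F.Adj (b v) (g u) ∧ ¬ D.Bd (b v) (g u)) ∧
    (∀ v u, v ∉ T → v ∉ D.Qh → u ∉ T → u ∉ D.Qh → G.Adj v u → (∃ z ∈ T, G.Adj v z) →
      (∃ z ∈ T, G.Adj u z) → ¬ D.Bd (g v) (g u)) ∧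
    (∀ a ∈ D.A, ∀ S : Finset V, (∀ v ∈ S, v ∉ T ∧ v ∉ D.Qh ∧ (∃ u ∈ T, G.Adj v u) ∧ g v = a) →
      (S.card : ℝ) ≤ (1 - 2 * δ₁) * D.w a * Fintype.card V) ∧
    (∀ c, c ∉ D.A → ∀ S : Finset V, (∀ v ∈ S, v ∈ T ∧ b v = c) →
      (S.card : ℝ) ≤ (1 - 2 * δ₁) * D.w c * Fintype.card V) ∧
    ((Fintype.card V : ℝ) - T.card ≤ (1 - 2 * δ₁) * (∑ i ∈ D.A, D.w i) * Fintype.card V)

/-- The low problem is always solvable. -/
def LowProb (Q : ℝ) : Prop :=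
  ∀ C : ℕ, ∃ δ₁ : ℝ, 0 < δ₁ ∧ δ₁ ≤ 1 / 4 ∧ ∃ K₁ : ℕ, ∀ K : ℕ, K₁ ≤ K → ∃ δ : ℝ, 0 < δ ∧
    ∀ M : ℕ, ∃ k₀ : ℕ, ∀ (V : Type) [Fintype V] (G : SimpleGraph V)
      (D : LowData Q C K M δ₁ δ G), k₀ ≤ Fintype.card V → LowSol D

end Pool.Agent.T6A
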