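import Pool.Agent.T6A.Typ
import Pool.Agent.T6A.Low

/-!
# Degree sums for the low problem (MP_c6effb_co)
-/

set_option autoImplicit false
set_option linter.unusedSectionVars false

open Finset Classical

namespace Pool.Agent.T6A

open EMB

section deg

variable {V : Type} [Fintype V] (G : SimpleGraph V)

theorem ncard_nbr (v : V) : (G.neighborSet v).ncard = (univ.filter fun u => G.Adj v u).card := by
  rw [Set.ncard_eq_toFinset_card' (G.neighborSet v)]
  congr 1
  ext u
  simp

theorem low_add_hub (S : Finset V) (v : V) :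
    dLow G S v + jHub G S v = (G.neighborSet v).ncard := by
  rw [ncard_nbr]
  unfold dLow jHub
  rw [← card_filter_add_card_filter_not (s := univ.filter fun u => G.Adj v u) (fun u => u ∉ S),
    filter_filter, filter_filter]
  congr 2
  ext u
  simp

theorem sum_nbr : ∑ v, (G.neighborSet v).ncard = 2 * G.edgeSet.ncard := by
  have h := G.sum_degrees_eq_twice_card_edges
  rw [Set.ncard_eq_toFinset_card' G.edgeSet]
  rw [SimpleGraph.edgeFinset] at h
  rw [← h]
  refine sum_congr rfl fun v _ => ?_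
  rw [ncard_nbr, ← SimpleGraph.card_neighborFinset_eq_degree]
  congr 1
  ext u
  simp

theorem sum_jHub (Q : Finset V) :
    ∑ v ∈ univ.filter (fun v => v ∉ Q), jHub G Q v = ∑ q ∈ Q, dLow G Q q := by
  unfold jHub dLow
  simp_rw [card_filter]
  have h1 : ∀ v, (∑ u, if G.Adj v u ∧ u ∈ Q then 1 else 0) = ∑ u ∈ Q, if G.Adj v u then 1 else 0 := by
    intro v
    rw [← sum_filter, ← sum_filter]
    have : univ.filter (fun u => G.Adj v u ∧ u ∈ Q) = Q.filter (fun u => G.Adj v u) := by
      ext u; simp [and_comm]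
    rw [this]
  have h2 : ∀ q, (∑ u, if G.Adj q u ∧ u ∉ Q then 1 else 0) =
      ∑ u ∈ univ.filter (fun u => u ∉ Q), if G.Adj u q then 1 else 0 := by
    intro q
    rw [← sum_filter, ← sum_filter, filter_filter]
    refine sum_congr ?_ fun _ _ => rfl
    ext u
    simp only [mem_filter, mem_univ, true_and]
    constructor
    · rintro ⟨a, b⟩; exact ⟨b, a.symm⟩
    · rintro ⟨a, b⟩; exact ⟨b.symm, a⟩
  simp_rw [h1, h2]
  exact sum_comm

theorem budget_nat (Q S : Finset V) (hS : ∀ v ∈ S, v ∉ Q) :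
    ∑ v ∈ S, (dLow G Q v + 2 * jHub G Q v) ≤ 2 * G.edgeSet.ncard := by
  have h1 : ∑ v ∈ S, (dLow G Q v + 2 * jHub G Q v) ≤
      ∑ v ∈ univ.filter (fun v => v ∉ Q), (dLow G Q v + 2 * jHub G Q v) :=
    sum_le_sum_of_subset fun v hv => mem_filter.2 ⟨mem_univ _, hS v hv⟩
  have h2 : ∑ v ∈ univ.filter (fun v => v ∉ Q), (dLow G Q v + 2 * jHub G Q v) =
      ∑ v ∈ univ.filter (fun v => v ∉ Q), (G.neighborSet v).ncard + ∑ q ∈ Q, dLow G Q q := by
    rw [← sum_jHub, ← sum_add_distrib]
    refine sum_congr rfl fun v _ => ?_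
    rw [← low_add_hub G Q v]
    ring
  have h3 : ∑ q ∈ Q, dLow G Q q ≤ ∑ q ∈ Q, (G.neighborSet q).ncard :=
    sum_le_sum fun q _ => by rw [← low_add_hub G Q q]; exact Nat.le_add_right _ _
  have h4 : ∑ v ∈ univ.filter (fun v => v ∉ Q), (G.neighborSet v).ncard +
      ∑ q ∈ Q, (G.neighborSet q).ncard = ∑ v, (G.neighborSet v).ncard := by
    rw [← sum_filter_add_sum_filter_not univ (fun v => v ∉ Q)]
    congr 1
    refine sum_congr ?_ fun _ _ => rfl
    ext v; simp
  rw [← sum_nbr G]
  omega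

theorem hubs_nat (K : ℕ) :
    (univ.filter fun v => K < (G.neighborSet v).ncard).card * K ≤ 2 * G.edgeSet.ncard := by
  rw [← sum_nbr G, ← smul_eq_mul, ← sum_const]
  calc ∑ v ∈ univ.filter (fun v => K < (G.neighborSet v).ncard), K
      ≤ ∑ v ∈ univ.filter (fun v => K < (G.neighborSet v).ncard), (G.neighborSet v).ncard :=
        sum_le_sum fun v hv => (mem_filter.1 hv).2.le
    _ ≤ _ := sum_le_sum_of_subset (filter_subset _ _)

theorem edges_induce_le (S : Set V) : (G.induce S).edgeSet.ncard ≤ G.edgeSet.ncard := by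
  refine Set.ncard_le_ncard_of_injOn (Sym2.map Subtype.val) ?_ ?_ (Set.toFinite _)
  · intro e he
    induction e using Sym2.ind with
    | _ a b =>
      simp only [Sym2.map_mk, SimpleGraph.mem_edgeSet] at he ⊢
      exact he
  · intro a _ b _ hab
    exact Sym2.map.injective Subtype.val_injective hab

end deg

end Pool.Agent.T6A
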