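import Pool.Agent.T6A.MathStmt

/-!
# The cut condition of a good independent set (MP_c6effb_co, T6-A)

`J` is an `F`-independent set of clusters outside `A` (independence is not needed here). If the total
capacity of `J` is at least `t` and if for every `y ∈ J` the capacity of the clusters of `J` with a
smaller value of `f` plus the expected number of vertices whose list contains `y` is at least `t`
(both with the slack `M * δ`), then every cut `P ⊆ J` of the flow problem with the rate bound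
`R = 1 / δ` has value at least `t`: `cut_abs`. `cut_world` is the same for the lists of a world.
-/

set_option autoImplicit false
set_option linter.unusedSectionVars false

open Finset

namespace Pool.Agent.T6A

noncomputable section

/-- Every cut has value at least `t`. -/
theorem cut_abs {V Om ι : Type*} [Fintype V] [DecidableEq V] [Fintype Om] [DecidableEq ι]
    {p : V → Om → ℝ} (hp : IsLaw p) (LJ : V → (V → Om) → Finset ι) (J : Finset ι)
    (w c f ψ : ι → ℝ) {δ R M t : ℝ} (hδ : 0 < δ) (hR : 1 ≤ R * δ) (hM : 0 ≤ M)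
    (hw : ∀ y, 0 ≤ w y) (hcw : ∀ y ∈ J, c y ≤ M * w y) (hc : ∀ y ∈ J, 0 ≤ c y)
    (hψ : ∀ y ∈ J, ψ y ≤ ∑ v, EE p (fun ω => if y ∈ LJ v ω then 1 else 0))
    (h1 : t + M * δ ≤ ∑ y ∈ J, c y)
    (h2 : ∀ y ∈ J, t + M * δ ≤ ψ y + ∑ y' ∈ J with f y' < f y, c y')
    (P : Finset ι) (hP : P ⊆ J) :
    t ≤ ∑ v, EE p (fun ω => min 1 (R * ∑ y ∈ LJ v ω ∩ P, w y)) + ∑ y ∈ J \ P, c y := by
  classical
  have hR0 : 0 < R := by
    by_contra h
    push Not at h
    have := mul_nonpos_of_nonpos_of_nonneg h hδ.le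
    linarith
  have hmin0 : ∀ v ω, 0 ≤ min (1 : ℝ) (R * ∑ y ∈ LJ v ω ∩ P, w y) := fun v ω =>
    le_min zero_le_one (mul_nonneg hR0.le (sum_nonneg fun y _ => hw y))
  have hsplit : ∑ y ∈ J \ P, c y + ∑ y ∈ P, c y = ∑ y ∈ J, c y := sum_sdiff hP
  by_cases hPδ : ∑ y ∈ P, w y < δ
  · -- small `P`
    have h3 : ∑ y ∈ P, c y ≤ M * δ := by
      calc ∑ y ∈ P, c y ≤ ∑ y ∈ P, M * w y := sum_le_sum fun y hy => hcw y (hP hy)
        _ = M * ∑ y ∈ P, w y := (mul_sum _ _ _).symm
        _ ≤ M * δ := mul_le_mul_of_nonneg_left hPδ.le hM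
    have h4 : 0 ≤ ∑ v, EE p (fun ω => min 1 (R * ∑ y ∈ LJ v ω ∩ P, w y)) :=
      sum_nonneg fun v _ => EE_nonneg hp fun ω => hmin0 v ω
    linarith
  · push Not at hPδ
    -- the shortest initial segment of weight `≥ δ`
    have hne : (P.filter fun y => δ ≤ ∑ z ∈ P with f z ≤ f y, w z).Nonempty := by
      have hPne : P.Nonempty := by
        by_contra h
        rw [not_nonempty_iff_eq_empty] at h
        rw [h, sum_empty] at hPδ
        linarith
      obtain ⟨y, hy, hmax⟩ := P.exists_max_image f hPne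
      refine ⟨y, mem_filter.2 ⟨hy, ?_⟩⟩
      rwa [filter_true_of_mem fun z hz => hmax z hz]
    obtain ⟨y₀, hy₀, hmin⟩ := exists_min_image _ f hne
    rw [mem_filter] at hy₀
    set P' := P.filter fun z => f z ≤ f y₀ with hP'
    have hwP' : δ ≤ ∑ z ∈ P', w z := hy₀.2
    have hwP'0 : 0 < ∑ z ∈ P', w z := lt_of_lt_of_le hδ hwP'
    have hlow : ∀ y ∈ P', ∑ z ∈ P with f z < f y, w z < δ := by
      intro y hy
      rw [hP', mem_filter] at hy
      by_contra hcon
      push Not at hcon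
      have hne2 : (P.filter fun z => f z < f y).Nonempty := by
        by_contra h
        rw [not_nonempty_iff_eq_empty] at h
        rw [h, sum_empty] at hcon
        linarith
      obtain ⟨y₁, hy₁, hmax⟩ := exists_max_image _ f hne2
      have hy₁' := mem_filter.1 hy₁
      have h5 : (P.filter fun z => f z < f y) ⊆ P.filter fun z => f z ≤ f y₁ := by
        intro z hz
        exact mem_filter.2 ⟨(mem_filter.1 hz).1, hmax z hz⟩
      have h6 : δ ≤ ∑ z ∈ P with f z ≤ f y₁, w z :=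
        hcon.trans (sum_le_sum_of_subset_of_nonneg h5 fun z _ _ => hw z)
      have h7 := hmin y₁ (mem_filter.2 ⟨hy₁'.1, h6⟩)
      have h8 := hy₁'.2
      linarith [hy.2]
    -- the capacity outside `P`
    have hcap : ∀ y ∈ P', ∑ y' ∈ J with f y' < f y, c y' ≤ ∑ y' ∈ J \ P, c y' + M * δ := by
      intro y hy
      have h3 : ∑ y' ∈ J with f y' < f y, c y' =
          ∑ y' ∈ (J.filter fun y' => f y' < f y) \ P, c y' +
          ∑ y' ∈ P with f y' < f y, c y' := by
        rw [← sum_sdiff (s₁ := P.filter fun y' => f y' < f y)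
          (s₂ := J.filter fun y' => f y' < f y)]
        · congr 1
          refine sum_congr ?_ fun _ _ => rfl
          ext z
          simp only [mem_sdiff, mem_filter]
          tauto
        · intro z hz
          rw [mem_filter] at hz ⊢
          exact ⟨hP hz.1, hz.2⟩
      have h4 : ∑ y' ∈ (J.filter fun y' => f y' < f y) \ P, c y' ≤ ∑ y' ∈ J \ P, c y' := by
        refine sum_le_sum_of_subset_of_nonneg ?_ fun z hz _ => hc z (mem_sdiff.1 hz).1
        exact sdiff_subset_sdiff (filter_subset _ _) (Subset.refl _)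
      have h5 : ∑ y' ∈ P with f y' < f y, c y' ≤ M * δ := by
        calc ∑ y' ∈ P with f y' < f y, c y' ≤ ∑ y' ∈ P with f y' < f y, M * w y' :=
              sum_le_sum fun z hz => hcw z (hP (mem_filter.1 hz).1)
          _ = M * ∑ y' ∈ P with f y' < f y, w y' := (mul_sum _ _ _).symm
          _ ≤ M * δ := mul_le_mul_of_nonneg_left (hlow y hy).le hM
      rw [h3]
      linarith
    -- the first term
    have hfirst : ∑ y ∈ P', w y * ψ y ≤ (∑ z ∈ P', w z) *
        ∑ v, EE p (fun ω => min 1 (R * ∑ y ∈ LJ v ω ∩ P, w y)) := by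
      have h3 : ∑ y ∈ P', w y * ψ y ≤
          ∑ v, EE p (fun ω => ∑ y ∈ P', w y * (if y ∈ LJ v ω then 1 else 0)) := by
        have e1 : ∑ v, EE p (fun ω => ∑ y ∈ P', w y * (if y ∈ LJ v ω then 1 else 0)) =
            ∑ y ∈ P', w y * ∑ v, EE p (fun ω => if y ∈ LJ v ω then 1 else 0) := by
          simp only [EE_sum, EE_smul]
          rw [sum_comm]
          exact sum_congr rfl fun y _ => (mul_sum _ _ _).symm
        rw [e1]
        refine sum_le_sum fun y hy => ?_
        exact mul_le_mul_of_nonneg_left (hψ y (hP (mem_filter.1 hy).1)) (hw y)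
      refine h3.trans ?_
      rw [mul_sum]
      refine sum_le_sum fun v _ => ?_
      rw [← EE_smul]
      refine EE_mono hp fun ω => ?_
      have e2 : ∑ y ∈ P', w y * (if y ∈ LJ v ω then (1 : ℝ) else 0) =
          ∑ y ∈ LJ v ω ∩ P', w y := by
        simp only [mul_ite, mul_one, mul_zero]
        rw [← sum_filter]
        refine sum_congr ?_ fun _ _ => rfl
        ext z
        simp only [mem_filter, mem_inter]
        tauto
      rw [e2]
      have h4 : ∑ y ∈ LJ v ω ∩ P', w y ≤ ∑ y ∈ P', w y :=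
        sum_le_sum_of_subset_of_nonneg inter_subset_right fun z _ _ => hw z
      have h5 : ∑ y ∈ LJ v ω ∩ P', w y ≤ ∑ y ∈ LJ v ω ∩ P, w y :=
        sum_le_sum_of_subset_of_nonneg
          (inter_subset_inter_left (filter_subset _ _)) fun z _ _ => hw z
      have h6 : 0 ≤ ∑ y ∈ LJ v ω ∩ P, w y := sum_nonneg fun z _ => hw z
      rcases min_cases (1 : ℝ) (R * ∑ y ∈ LJ v ω ∩ P, w y) with ⟨h7, _⟩ | ⟨h7, _⟩
      · rw [h7, mul_one]
        exact h4
      · rw [h7]
        have h8 : 1 ≤ (∑ z ∈ P', w z) * R := by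
          calc (1 : ℝ) ≤ R * δ := hR
            _ ≤ R * ∑ z ∈ P', w z := mul_le_mul_of_nonneg_left hwP' hR0.le
            _ = _ := mul_comm _ _
        calc ∑ y ∈ LJ v ω ∩ P', w y ≤ ∑ y ∈ LJ v ω ∩ P, w y := h5
          _ = 1 * ∑ y ∈ LJ v ω ∩ P, w y := (one_mul _).symm
          _ ≤ ((∑ z ∈ P', w z) * R) * ∑ y ∈ LJ v ω ∩ P, w y :=
              mul_le_mul_of_nonneg_right h8 h6
          _ = _ := by ring
    have hall : (∑ z ∈ P', w z) * t ≤ (∑ z ∈ P', w z) *
        (∑ v, EE p (fun ω => min 1 (R * ∑ y ∈ LJ v ω ∩ P, w y)) + ∑ y ∈ J \ P, c y) := by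
      have h3 : ∀ y ∈ P', w y * t ≤ w y * ψ y + w y * ∑ y ∈ J \ P, c y := by
        intro y hy
        have h4 := h2 y (hP (mem_filter.1 hy).1)
        have h5 := hcap y hy
        rw [← mul_add]
        exact mul_le_mul_of_nonneg_left (by linarith) (hw y)
      have h4 := sum_le_sum h3
      rw [sum_add_distrib, ← sum_mul, ← sum_mul] at h4
      rw [mul_add]
      linarith
    exact le_of_mul_le_mul_left hall hwP'0

open Classical in
/-- The list of `v` inside `J`: the allowed clusters which are neither blocked nor bad. -/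
def lj {V ι : Type} (F : SimpleGraph ι) (G : SimpleGraph V) (Bd : ι → ι → Prop)
    (Bv : V → Finset ι) (J : Finset ι) (v : V) (g : V → ι) : Finset ι :=
  J.filter fun y => y ∈ Bv v ∧ ∀ u, G.Adj v u → ¬ F.Adj y (g u) ∧ ¬ Bd y (g u)

open Classical in
theorem mem_lj {V ι : Type} {F : SimpleGraph ι} {G : SimpleGraph V} {Bd : ι → ι → Prop}
    {Bv : V → Finset ι} {J : Finset ι} {v : V} {g : V → ι} {y : ι} :
    y ∈ lj F G Bd Bv J v g ↔
      y ∈ J ∧ y ∈ Bv v ∧ ∀ u, G.Adj v u → ¬ F.Adj y (g u) ∧ ¬ Bd y (g u) := by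
  unfold lj
  rw [mem_filter]

open Classical in
/-- The probability that `y` is in the list. -/
theorem lj_prob {V ι : Type} [Fintype V] [Fintype ι] (F : SimpleGraph ι) (G : SimpleGraph V)
    (Bd : ι → ι → Prop) (Bv : V → Finset ι) (J : Finset ι) {μ : ι → ℝ} (h0 : ∀ x, 0 ≤ μ x)
    (h1 : ∑ x, μ x = 1) {ε₁ : ℝ} {K : ℕ} {y : ι}
    (hBd : ∑ x ∈ univ.filter (fun x => Bd y x), μ x ≤ ε₁) (hε : 0 ≤ ε₁) (v : V)
    (hK : #(nbh G v) ≤ K) (hy : y ∈ J) :
    (if y ∈ Bv v then (1 - nb F μ y) ^ #(nbh G v) else 0) - K * ε₁ ≤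
      EE (fun _ => μ) (fun g : V → ι => if y ∈ lj F G Bd Bv J v g then 1 else 0) := by
  have hlaw := isLaw_const (V := V) h0 h1
  have hKε : 0 ≤ (K : ℝ) * ε₁ := mul_nonneg (Nat.cast_nonneg K) hε
  by_cases hb : y ∈ Bv v
  · rw [if_pos hb]
    have hpt : ∀ g : V → ι, il F (nbh G v) y g -
        ∑ u ∈ nbh G v, (if Bd y (g u) then (1 : ℝ) else 0) ≤
        if y ∈ lj F G Bd Bv J v g then 1 else 0 := by
      intro g
      have hs : 0 ≤ ∑ u ∈ nbh G v, (if Bd y (g u) then (1 : ℝ) else 0) :=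
        sum_nonneg fun u _ => by split_ifs <;> norm_num
      by_cases hm : y ∈ lj F G Bd Bv J v g
      · rw [if_pos hm]
        have := il_le_one (F := F) (nbh G v) y g
        linarith
      · rw [if_neg hm]
        have h2 : ∃ u, G.Adj v u ∧ (F.Adj y (g u) ∨ Bd y (g u)) := by
          by_contra hcon
          push Not at hcon
          exact hm (mem_lj.2 ⟨hy, hb, fun u hu => hcon u hu⟩)
        obtain ⟨u, hu, hF | hB⟩ := h2
        · have h3 : il F (nbh G v) y g = 0 := by
            refine il_eq_zero fun h => ?_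
            exact h u (mem_nbh.2 hu) hF.symm
          rw [h3]
          linarith
        · have h3 := il_le_one (F := F) (nbh G v) y g
          have h4 : (1 : ℝ) ≤ ∑ u ∈ nbh G v, (if Bd y (g u) then (1 : ℝ) else 0) := by
            have h5 := single_le_sum (f := fun u => if Bd y (g u) then (1 : ℝ) else 0)
              (fun u _ => by
                show (0 : ℝ) ≤ if Bd y (g u) then (1 : ℝ) else 0
                split_ifs <;> norm_num) (mem_nbh.2 hu)
            have h6 : (fun u => if Bd y (g u) then (1 : ℝ) else 0) u = 1 := if_pos hB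
            linarith
          linarith
    refine le_trans ?_ (EE_mono hlaw hpt)
    rw [EE_sub, EE_il h0 h1, EE_sum]
    have h2 : ∑ u ∈ nbh G v, EE (fun _ => μ) (fun g : V → ι => if Bd y (g u) then (1 : ℝ) else 0) ≤
        K * ε₁ := by
      have h3 : ∀ u ∈ nbh G v,
          EE (fun _ => μ) (fun g : V → ι => if Bd y (g u) then (1 : ℝ) else 0) ≤ ε₁ := by
        intro u _
        rw [EE_single hlaw u (fun x => if Bd y x then (1 : ℝ) else 0)]
        refine le_trans (le_of_eq ?_) hBd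
        rw [sum_filter]
        exact sum_congr rfl fun x _ => by split_ifs <;> simp
      refine (sum_le_sum h3).trans ?_
      rw [sum_const, nsmul_eq_mul]
      exact mul_le_mul_of_nonneg_right (by exact_mod_cast hK) hε
    linarith
  · rw [if_neg hb]
    have h2 : 0 ≤ EE (fun _ => μ)
        (fun g : V → ι => if y ∈ lj F G Bd Bv J v g then (1 : ℝ) else 0) :=
      EE_nonneg hlaw fun g => by split_ifs <;> norm_num
    linarith

open Classical in
/-- **The cut condition of a good `J`.** `k` = number of vertices (unit), `e` = slack of the loads,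
`δ` = the smallest weight which counts, `t` = the wanted value. -/
theorem cut_world {V ι : Type} [Fintype V] [Fintype ι] (X : World ι) (L : Low V ι)
    (Bd : ι → ι → Prop) {μ : ι → ℝ} (h0 : ∀ x, 0 ≤ μ x) (h1 : ∑ x, μ x = 1) {k e δ R t ε₁ : ℝ}
    {K : ℕ} (hk : 0 ≤ k) (hV : (Fintype.card V : ℝ) ≤ k) (he0 : 0 ≤ e) (he : e ≤ 1)
    (hδ : 0 < δ) (hR : 1 ≤ R * δ) (hε : 0 ≤ ε₁)
    (hBd : ∀ y, ∑ x ∈ univ.filter (fun x => Bd y x), μ x ≤ ε₁) (hK : ∀ v, L.d v ≤ K)
    (J : Finset ι)
    (hJ1 : t + k * (δ + K * ε₁) ≤ (1 - e) * (∑ y ∈ J, X.w y) * k)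
    (hJ2 : ∀ y ∈ J, t + k * (δ + K * ε₁) ≤
      ∑ v, (if y ∈ L.Bv v then (1 - nb X.F μ y) ^ L.d v else 0) +
        (1 - e) * (∑ y' ∈ J with nb X.F μ y' < nb X.F μ y, X.w y') * k)
    (P : Finset ι) (hP : P ⊆ J) :
    t ≤ ∑ v, EE (fun _ => μ)
        (fun g : V → ι => min 1 (R * ∑ y ∈ lj X.F L.G Bd L.Bv J v g ∩ P, X.w y)) +
      ∑ y ∈ J \ P, (1 - e) * X.w y * k := by
  have hlaw := isLaw_const (V := V) h0 h1
  have hKε : 0 ≤ (K : ℝ) * ε₁ := mul_nonneg (Nat.cast_nonneg K) hε
  have hd : ∀ v, L.d v = #(nbh L.G v) := fun v => rfl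
  have hψ : ∀ y ∈ J, ∑ v, (if y ∈ L.Bv v then (1 - nb X.F μ y) ^ L.d v else 0) - k * (K * ε₁) ≤
      ∑ v, EE (fun _ => μ)
        (fun g : V → ι => if y ∈ lj X.F L.G Bd L.Bv J v g then 1 else 0) := by
    intro y hy
    have h2 := sum_le_sum fun v (_ : v ∈ (univ : Finset V)) =>
      lj_prob X.F L.G Bd L.Bv J h0 h1 (hBd y) hε v ((hd v).symm.le.trans (hK v)) hy
    rw [sum_sub_distrib, sum_const, card_univ, nsmul_eq_mul] at h2
    have h3 : (Fintype.card V : ℝ) * (K * ε₁) ≤ k * (K * ε₁) :=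
      mul_le_mul_of_nonneg_right hV hKε
    simp only [hd]
    linarith
  refine cut_abs hlaw (lj X.F L.G Bd L.Bv J) J X.w (fun y => (1 - e) * X.w y * k)
    (nb X.F μ) (fun y => ∑ v, (if y ∈ L.Bv v then (1 - nb X.F μ y) ^ L.d v else 0) - k * (K * ε₁))
    (M := k) hδ hR hk (fun y => (X.pos y).le) ?_ ?_ hψ ?_ ?_ P hP
  · intro y _
    have h2 : (1 - e) * (X.w y * k) ≤ 1 * (X.w y * k) :=
      mul_le_mul_of_nonneg_right (by linarith) (mul_nonneg (X.pos y).le hk)
    calc (1 - e) * X.w y * k = (1 - e) * (X.w y * k) := by ring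
      _ ≤ 1 * (X.w y * k) := h2
      _ = k * X.w y := by ring
  · intro y _
    exact mul_nonneg (mul_nonneg (by linarith) (X.pos y).le) hk
  · rw [← sum_mul, ← mul_sum]
    have h2 : 0 ≤ k * (K * ε₁) := mul_nonneg hk hKε
    have h3 : k * (δ + K * ε₁) = k * δ + k * (K * ε₁) := by ring
    linarith
  · intro y hy
    have h2 := hJ2 y hy
    rw [← sum_mul, ← mul_sum]
    have h3 : k * (δ + K * ε₁) = k * δ + k * (K * ε₁) := by ring
    linarith

end

end Pool.Agent.T6A
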