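import Mathlib

/-!
# The discrete first-valid-proposal rule: the deterministic inequality (T6-A, MP_c6effb_co)

In every time slot `t = 0, 1, ..` vertex `v` proposes a valid position with probability `e X`, and a
neighbour `u` proposes a position in conflict with the one of `v` with probability `e N u` and a
valid position not in conflict with probability `e M u`. The probability that the slot `t` has a
given (own) proposal and that everything before is fine is
`(1 - e X)^t ∏ u, (1 - ∑ r ≤ t, e N u (1 - e (N u + M u))^r)`.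
-/

set_option autoImplicit false

namespace Pool.Agent.T6A

open Finset

namespace RI

/-- the probability that the neighbour has not killed a proposal up to slot `t` -/
noncomputable def surv (y x : ℝ) (t : ℕ) : ℝ := 1 - ∑ r ∈ range (t + 1), y * (1 - x) ^ r

theorem surv_zero (y x : ℝ) : surv y x 0 = 1 - y := by simp [surv]

theorem surv_succ (y x : ℝ) (t : ℕ) : surv y x (t + 1) = surv y x t - y * (1 - x) ^ (t + 1) := by
  rw [surv, surv, sum_range_succ]; ring

theorem surv_ge_pow {y z : ℝ} (hy : 0 ≤ y) (hz : 0 ≤ z) (h1 : y + z ≤ 1) (t : ℕ) :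
    (1 - y) ^ (t + 1) ≤ surv y (y + z) t := by
  induction t with
  | zero => rw [surv_zero]; simp
  | succ t ih =>
    rw [surv_succ]
    have h : (1 - (y + z)) ^ (t + 1) ≤ (1 - y) ^ (t + 1) := pow_le_pow_left₀ (by linarith) (by linarith) _
    have : y * (1 - (y + z)) ^ (t + 1) ≤ y * (1 - y) ^ (t + 1) := mul_le_mul_of_nonneg_left h hy
    calc (1 - y) ^ (t + 1 + 1) = (1 - y) ^ (t + 1) - y * (1 - y) ^ (t + 1) := by ring
      _ ≤ _ := by linarith

theorem surv_ge_prod {y z : ℝ} (hy : 0 ≤ y) (hz : 0 ≤ z) (h1 : y + z ≤ 1) (t : ℕ) :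
    ∏ r ∈ range (t + 1), (1 - y * (1 - z) ^ r) ≤ surv y (y + z) t := by
  induction t with
  | zero => rw [surv_zero]; simp
  | succ t ih =>
    rw [surv_succ, prod_range_succ]
    have hz1 : 0 ≤ 1 - z := by linarith
    have hz2 : (1 - z) ^ (t + 1) ≤ 1 := pow_le_one₀ hz1 (by linarith)
    have hf : 0 ≤ 1 - y * (1 - z) ^ (t + 1) := by
      have := mul_le_mul (show y ≤ 1 by linarith) hz2 (pow_nonneg hz1 _) zero_le_one
      linarith
    have h2 : (1 - (y + z)) ^ (t + 1) ≤ (1 - y) ^ (t + 1) * (1 - z) ^ (t + 1) := by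
      rw [← mul_pow]
      refine pow_le_pow_left₀ (by linarith) ?_ _
      nlinarith [mul_nonneg hy hz]
    have h3 : (1 - y) ^ (t + 1) * (1 - z) ^ (t + 1) ≤ surv y (y + z) t * (1 - z) ^ (t + 1) :=
      mul_le_mul_of_nonneg_right (surv_ge_pow hy hz h1 t) (pow_nonneg hz1 _)
    have h4 : y * (1 - (y + z)) ^ (t + 1) ≤ y * (surv y (y + z) t * (1 - z) ^ (t + 1)) :=
      mul_le_mul_of_nonneg_left (h2.trans h3) hy
    calc (∏ r ∈ range (t + 1), (1 - y * (1 - z) ^ r)) * (1 - y * (1 - z) ^ (t + 1))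
        ≤ surv y (y + z) t * (1 - y * (1 - z) ^ (t + 1)) := mul_le_mul_of_nonneg_right ih hf
      _ = surv y (y + z) t - y * (surv y (y + z) t * (1 - z) ^ (t + 1)) := by ring
      _ ≤ _ := by linarith

/-- `exp (-(a + 2 a²)) ≤ 1 - a` for `0 ≤ a ≤ 1/2` -/
theorem exp_le {a : ℝ} (h0 : 0 ≤ a) (h1 : a ≤ 1 / 2) : Real.exp (-(a + 2 * a ^ 2)) ≤ 1 - a := by
  have hpos : 0 < 1 - a := by linarith
  have hl : 1 - (1 - a)⁻¹ ≤ Real.log (1 - a) := Real.one_sub_inv_le_log_of_pos hpos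
  have h2 : -(a + 2 * a ^ 2) ≤ 1 - (1 - a)⁻¹ := by
    have : (1 - a)⁻¹ ≤ 1 + a + 2 * a ^ 2 := by
      rw [inv_le_comm₀ hpos (by positivity), inv_eq_one_div, div_le_iff₀ (by positivity)]
      nlinarith [mul_nonneg h0 h0, mul_nonneg (mul_nonneg h0 h0) (show (0:ℝ) ≤ 1 / 2 - a by linarith)]
    linarith
  calc Real.exp (-(a + 2 * a ^ 2)) ≤ Real.exp (Real.log (1 - a)) := Real.exp_le_exp.2 (h2.trans hl)
    _ = 1 - a := Real.exp_log hpos

theorem surv_ge_exp {y z c : ℝ} (hy : 0 ≤ y) (hz : 0 ≤ z) (h1 : y + z ≤ 1) (hc : y ≤ c)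
    (hc2 : c ≤ 1 / 2) (t : ℕ) :
    Real.exp (-((1 + 2 * c) * ∑ r ∈ range (t + 1), y * (1 - z) ^ r)) ≤ surv y (y + z) t := by
  refine le_trans ?_ (surv_ge_prod hy hz h1 t)
  rw [mul_sum, ← sum_neg_distrib, Real.exp_sum]
  refine prod_le_prod (fun r _ => (Real.exp_pos _).le) fun r _ => ?_
  have hz1 : 0 ≤ 1 - z := by linarith
  have hz2 : (1 - z) ^ r ≤ 1 := pow_le_one₀ hz1 (by linarith)
  have hz3 : 0 ≤ (1 - z) ^ r := pow_nonneg hz1 _
  set a := y * (1 - z) ^ r with ha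
  have ha0 : 0 ≤ a := mul_nonneg hy hz3
  have ha1 : a ≤ c := (mul_le_of_le_one_right hy hz2).trans hc
  refine le_trans (Real.exp_le_exp.2 ?_) (exp_le ha0 (ha1.trans hc2))
  nlinarith

theorem pow_ge_exp {x c : ℝ} (hx : 0 ≤ x) (hc : x ≤ c) (hc2 : c ≤ 1 / 2) (t : ℕ) :
    Real.exp (-((1 + 2 * c) * (t * x))) ≤ (1 - x) ^ t := by
  have h := exp_le hx (hc.trans hc2)
  calc Real.exp (-((1 + 2 * c) * (t * x))) ≤ Real.exp (t * -(x + 2 * x ^ 2)) := by
        refine Real.exp_le_exp.2 ?_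
        have : (0:ℝ) ≤ t := Nat.cast_nonneg t
        nlinarith [mul_nonneg this hx, mul_nonneg (mul_nonneg this hx) (sub_nonneg.2 hc)]
    _ = Real.exp (-(x + 2 * x ^ 2)) ^ t := by rw [← Real.exp_nat_mul]
    _ ≤ (1 - x) ^ t := pow_le_pow_left₀ (Real.exp_pos _).le h _

/-- the lower bound for one slot -/
theorem slot {V : Type*} (s : Finset V) {e X C : ℝ} (N M : V → ℝ) (he : 0 ≤ e) (hX : 0 ≤ X)
    (hXC : X ≤ C) (hN : ∀ u ∈ s, 0 ≤ N u) (hM : ∀ u ∈ s, 0 ≤ M u) (hC : ∀ u ∈ s, N u + M u ≤ C)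
    (heC : e * C ≤ 1 / 2) (t : ℕ) :
    Real.exp (-(e * t)) * (1 + e * t - (1 + 2 * (e * C)) *
      (e * t * X + ∑ u ∈ s, ∑ r ∈ range (t + 1), e * N u * (1 - e * M u) ^ r)) ≤
      (1 - e * X) ^ t * ∏ u ∈ s, surv (e * N u) (e * (N u + M u)) t := by
  have h1 := pow_ge_exp (x := e * X) (c := e * C) (mul_nonneg he hX)
    (mul_le_mul_of_nonneg_left hXC he) heC t
  have h2 : ∀ u ∈ s, Real.exp (-((1 + 2 * (e * C)) *
      ∑ r ∈ range (t + 1), e * N u * (1 - e * M u) ^ r)) ≤ surv (e * N u) (e * (N u + M u)) t := by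
    intro u hu
    have hNC : N u ≤ C := by linarith [hM u hu, hC u hu]
    have h := surv_ge_exp (y := e * N u) (z := e * M u) (c := e * C) (mul_nonneg he (hN u hu))
      (mul_nonneg he (hM u hu)) (by
        have := mul_le_mul_of_nonneg_left (hC u hu) he
        linarith) (mul_le_mul_of_nonneg_left hNC he) heC t
    rw [mul_add]; exact h
  have h3 := prod_le_prod (s := s) (fun u _ => (Real.exp_pos _).le) h2
  rw [← Real.exp_sum] at h3
  have h4 := mul_le_mul h1 h3 (Real.exp_pos _).le ((Real.exp_pos _).le.trans h1)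
  rw [← Real.exp_add] at h4
  refine le_trans ?_ h4
  set Y := e * t * X + ∑ u ∈ s, ∑ r ∈ range (t + 1), e * N u * (1 - e * M u) ^ r with hY
  have h5 : -((1 + 2 * (e * C)) * (t * (e * X))) + ∑ u ∈ s, -((1 + 2 * (e * C)) *
      ∑ r ∈ range (t + 1), e * N u * (1 - e * M u) ^ r) =
      -(e * t) + (e * t - (1 + 2 * (e * C)) * Y) := by
    rw [sum_neg_distrib, ← mul_sum, hY]; ring
  rw [h5, Real.exp_add]
  refine mul_le_mul_of_nonneg_left ?_ (Real.exp_pos _).le
  have := Real.add_one_le_exp (e * t - (1 + 2 * (e * C)) * Y)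
  linarith

/-! ### The sum over the slots -/

theorem one_sub_pos {e : ℝ} (he : 0 < e) : 0 < 1 - Real.exp (-e) := by
  have : Real.exp (-e) < Real.exp 0 := Real.exp_lt_exp.2 (by linarith)
  rw [Real.exp_zero] at this
  linarith

theorem one_sub_le {e : ℝ} : 1 - Real.exp (-e) ≤ e := by
  have := Real.add_one_le_exp (-e)
  linarith

theorem le_one_sub {e : ℝ} : e ≤ (1 + e) * (1 - Real.exp (-e)) := by
  have h := Real.add_one_le_exp e
  have h2 : Real.exp (-e) * Real.exp e = 1 := by rw [← Real.exp_add]; simp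
  have h3 : 0 < Real.exp (-e) := Real.exp_pos _
  nlinarith

theorem sum_t (q : ℝ) (R : ℕ) :
    (1 - q) ^ 2 * ∑ t ∈ range R, (t : ℝ) * q ^ t = q - R * q ^ R + (R - 1) * q ^ (R + 1) := by
  induction R with
  | zero => simp
  | succ R ih =>
    rw [sum_range_succ, mul_add, ih]
    push_cast
    ring

theorem sum_C (q : ℝ) (c : ℕ → ℝ) (R : ℕ) :
    (1 - q) * ∑ t ∈ range R, q ^ t * ∑ r ∈ range (t + 1), c r =
      (∑ r ∈ range R, c r * q ^ r) - q ^ R * ∑ r ∈ range R, c r := by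
  induction R with
  | zero => simp
  | succ R ih =>
    rw [sum_range_succ, mul_add, ih, sum_range_succ (fun r => c r * q ^ r), sum_range_succ c]
    ring

theorem geo_le {q : ℝ} (h0 : 0 ≤ q) (h1 : q < 1) (R : ℕ) : ∑ r ∈ range R, q ^ r ≤ 1 / (1 - q) := by
  have h := mul_neg_geom_sum q R
  rw [le_div_iff₀ (by linarith)]
  nlinarith [pow_nonneg h0 R]

/-- the lower bound of the total probability -/
theorem total {V : Type*} (s : Finset V) {e X C : ℝ} (N M : V → ℝ) (he : 0 < e) (he1 : e ≤ 1 / 8)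
    (hX : 0 ≤ X) (hXC : X ≤ C) (hN : ∀ u ∈ s, 0 ≤ N u) (hM : ∀ u ∈ s, 0 ≤ M u)
    (hC : ∀ u ∈ s, N u + M u ≤ C) (hC1 : 1 ≤ C) (heC : e * C ≤ 1 / 8) (R : ℕ) :
    2 - e - (e * R + 2) * Real.exp (-e) ^ R - (1 + 8 * (e * C)) * (X + ∑ u ∈ s, N u / (1 + M u)) ≤
      ∑ t ∈ range R, e * ((1 - e * X) ^ t * ∏ u ∈ s, surv (e * N u) (e * (N u + M u)) t) := by
  set q := Real.exp (-e) with hq
  have hq0 : 0 < q := Real.exp_pos _
  have hq1 : 0 < 1 - q := one_sub_pos he
  have hqe : 1 - q ≤ e := one_sub_le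
  have hqe2 : e ≤ (1 + e) * (1 - q) := le_one_sub
  have hslot : ∀ t ∈ range R, e * (q ^ t * (1 + e * t - (1 + 2 * (e * C)) *
      (e * t * X + ∑ u ∈ s, ∑ r ∈ range (t + 1), e * N u * (1 - e * M u) ^ r))) ≤
      e * ((1 - e * X) ^ t * ∏ u ∈ s, surv (e * N u) (e * (N u + M u)) t) := by
    intro t _
    refine mul_le_mul_of_nonneg_left ?_ he.le
    have h := slot s N M he.le hX hXC hN hM hC (by linarith) t
    have h2 : q ^ t = Real.exp (-(e * t)) := by
      rw [hq, ← Real.exp_nat_mul]; congr 1; ring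
    rw [h2]; exact h
  refine le_trans ?_ (sum_le_sum hslot)
  -- the four sums
  set A := ∑ t ∈ range R, q ^ t with hA
  set B := ∑ t ∈ range R, (t : ℝ) * q ^ t with hB
  set D : V → ℝ := fun u => ∑ t ∈ range R, q ^ t * ∑ r ∈ range (t + 1), e * N u * (1 - e * M u) ^ r
    with hD
  have hsum : ∑ t ∈ range R, e * (q ^ t * (1 + e * t - (1 + 2 * (e * C)) *
      (e * t * X + ∑ u ∈ s, ∑ r ∈ range (t + 1), e * N u * (1 - e * M u) ^ r))) =
      e * A + e ^ 2 * B - (1 + 2 * (e * C)) * (e ^ 2 * X * B + ∑ u ∈ s, e * D u) := by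
    have h1 : ∑ u ∈ s, e * D u = ∑ t ∈ range R, e * q ^ t *
        ∑ u ∈ s, ∑ r ∈ range (t + 1), e * N u * (1 - e * M u) ^ r := by
      simp only [hD, mul_sum (s := range R), mul_sum (s := s)]
      rw [sum_comm]
      refine sum_congr rfl fun t _ => sum_congr rfl fun u _ => by ring
    rw [h1, hA, hB, mul_sum, mul_sum, mul_sum, ← sum_add_distrib, ← sum_add_distrib, mul_sum,
      ← sum_sub_distrib]
    refine sum_congr rfl fun t _ => ?_
    ring
  rw [hsum]
  have hAeq : (1 - q) * A = 1 - q ^ R := mul_neg_geom_sum q R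
  have hA1 : 1 - q ^ R ≤ e * A := by
    rw [← hAeq]
    exact mul_le_mul_of_nonneg_right hqe (sum_nonneg fun t _ => pow_nonneg hq0.le _)
  have hB0 : 0 ≤ B := sum_nonneg fun t _ => mul_nonneg (Nat.cast_nonneg t) (pow_nonneg hq0.le _)
  have hBeq : (1 - q) ^ 2 * B = q - R * q ^ R + (R - 1) * q ^ (R + 1) := sum_t q R
  have hqR : 0 < q ^ R := pow_pos hq0 R
  have hqR1 : q ^ (R + 1) ≤ q ^ R := by
    rw [pow_succ]; exact mul_le_of_le_one_right hqR.le (by linarith)
  have hqR0 : 0 < q ^ (R + 1) := pow_pos hq0 _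
  have hR0 : (0 : ℝ) ≤ R := Nat.cast_nonneg R
  have hB1 : q - (e * R + 1) * q ^ R ≤ e ^ 2 * B := by
    have h1 : (1 - q) ^ 2 * B ≤ e ^ 2 * B := mul_le_mul_of_nonneg_right
      (pow_le_pow_left₀ hq1.le hqe 2) hB0
    refine le_trans ?_ h1
    rw [hBeq]
    have h2 : q - R * q ^ R + (R - 1) * q ^ (R + 1) = q - (R * (1 - q) + q) * q ^ R := by ring
    rw [h2]
    have h3 : R * (1 - q) ≤ R * e := mul_le_mul_of_nonneg_left hqe hR0
    have h4 : (R * (1 - q) + q) * q ^ R ≤ (e * R + 1) * q ^ R :=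
      mul_le_mul_of_nonneg_right (by linarith) hqR.le
    linarith
  have hB2 : e ^ 2 * B ≤ (1 + e) ^ 2 := by
    have h1 : e ^ 2 * B ≤ ((1 + e) * (1 - q)) ^ 2 * B := mul_le_mul_of_nonneg_right
      (pow_le_pow_left₀ he.le hqe2 2) hB0
    have h2 : (1 - q) ^ 2 * B ≤ 1 := by
      rw [hBeq]
      nlinarith [mul_nonneg hR0 (sub_nonneg.2 hqR1)]
    calc e ^ 2 * B ≤ ((1 + e) * (1 - q)) ^ 2 * B := h1
      _ = (1 + e) ^ 2 * ((1 - q) ^ 2 * B) := by ring
      _ ≤ (1 + e) ^ 2 * 1 := mul_le_mul_of_nonneg_left h2 (by positivity)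
      _ = _ := mul_one _
  have hD1 : ∀ u ∈ s, e * D u ≤ (1 + e) * (1 + e) / (1 - e) * (N u / (1 + M u)) := by
    intro u hu
    have hNu := hN u hu
    have hMu := hM u hu
    have hMC : M u ≤ C := by linarith [hC u hu]
    have heM : 0 ≤ e * M u := mul_nonneg he.le hMu
    have heM1 : e * M u ≤ 1 / 8 := (mul_le_mul_of_nonneg_left hMC he.le).trans heC
    have h1 := sum_C q (fun r => e * N u * (1 - e * M u) ^ r) R
    have h2 : (1 - q) * D u ≤ ∑ r ∈ range R, e * N u * (1 - e * M u) ^ r * q ^ r := by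
      rw [hD]; simp only; rw [h1]
      have : 0 ≤ q ^ R * ∑ r ∈ range R, e * N u * (1 - e * M u) ^ r :=
        mul_nonneg hqR.le (sum_nonneg fun r _ => mul_nonneg (mul_nonneg he.le hNu)
          (pow_nonneg (by linarith) _))
      linarith
    have h3 : ∑ r ∈ range R, e * N u * (1 - e * M u) ^ r * q ^ r ≤
        e * N u * (1 / (1 - (1 - e * M u) * q)) := by
      have h4 : ∀ r ∈ range R, e * N u * (1 - e * M u) ^ r * q ^ r =
          e * N u * ((1 - e * M u) * q) ^ r := fun r _ => by rw [mul_pow]; ring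
      rw [sum_congr rfl h4, ← mul_sum]
      refine mul_le_mul_of_nonneg_left (geo_le (mul_nonneg (by linarith) hq0.le) ?_ R)
        (mul_nonneg he.le hNu)
      nlinarith
    have h5 : e * (1 + M u) * (1 - e) ≤ (1 + e) * (1 - (1 - e * M u) * q) := by
      have h6 : 1 - e ≤ q := by linarith
      have h7 : (1 - (1 - e * M u) * q) = (1 - q) + e * M u * q := by ring
      rw [h7]
      have h8 : e * M u * (1 - e) ≤ e * M u * q := mul_le_mul_of_nonneg_left h6 heM
      have h9 : e * M u * (1 - e) ≤ (1 + e) * (e * M u * q) := by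
        have : 0 ≤ e * (e * M u * q) := mul_nonneg he.le (mul_nonneg heM hq0.le)
        linarith
      nlinarith
    have h10 : 0 < 1 - (1 - e * M u) * q := by nlinarith
    have h11 : 0 < 1 - e := by linarith
    have h12 : 0 < 1 + M u := by linarith
    have h13 : e * (1 / (1 - (1 - e * M u) * q)) ≤ (1 + e) / (1 - e) * (1 / (1 + M u)) := by
      rw [mul_one_div, div_mul_div_comm, mul_one, div_le_div_iff₀ h10 (mul_pos h11 h12)]
      linarith
    have h14 : (1 - q) * D u ≤ (1 + e) / (1 - e) * (N u / (1 + M u)) := by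
      calc (1 - q) * D u ≤ e * N u * (1 / (1 - (1 - e * M u) * q)) := h2.trans h3
        _ = N u * (e * (1 / (1 - (1 - e * M u) * q))) := by ring
        _ ≤ N u * ((1 + e) / (1 - e) * (1 / (1 + M u))) := mul_le_mul_of_nonneg_left h13 hNu
        _ = _ := by ring
    have hD0 : 0 ≤ D u := sum_nonneg fun t _ => mul_nonneg (pow_nonneg hq0.le _)
      (sum_nonneg fun r _ => mul_nonneg (mul_nonneg he.le hNu) (pow_nonneg (by linarith) _))
    calc e * D u ≤ (1 + e) * (1 - q) * D u := mul_le_mul_of_nonneg_right hqe2 hD0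
      _ = (1 + e) * ((1 - q) * D u) := by ring
      _ ≤ (1 + e) * ((1 + e) / (1 - e) * (N u / (1 + M u))) :=
        mul_le_mul_of_nonneg_left h14 (by linarith)
      _ = _ := by ring
  have hD2 : ∑ u ∈ s, e * D u ≤ (1 + e) * (1 + e) / (1 - e) * ∑ u ∈ s, N u / (1 + M u) := by
    rw [mul_sum]; exact sum_le_sum hD1
  have hS0 : 0 ≤ ∑ u ∈ s, N u / (1 + M u) := sum_nonneg fun u hu =>
    div_nonneg (hN u hu) (by linarith [hM u hu])
  have hk0 : 0 ≤ 1 + 2 * (e * C) := by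
    have : 0 ≤ e * C := mul_nonneg he.le (by linarith)
    linarith
  have hfac : (1 + 2 * (e * C)) * ((1 + e) * (1 + e) / (1 - e)) ≤ 1 + 8 * (e * C) := by
    have h11 : 0 < 1 - e := by linarith
    rw [mul_div_assoc', div_le_iff₀ h11]
    have hx : e ≤ e * C := le_mul_of_one_le_right he.le hC1
    set x := e * C with hxd
    have hx0 : 0 ≤ x := he.le.trans hx
    have h1 : x * e ≤ x * (1 / 8) := mul_le_mul_of_nonneg_left he1 hx0
    have h2 : e * e ≤ x * e := mul_le_mul_of_nonneg_right hx he.le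
    have h3 : x * e * e ≤ x * e * (1 / 8) := mul_le_mul_of_nonneg_left he1 (mul_nonneg hx0 he.le)
    have h4 : (1 + 2 * x) * ((1 + e) * (1 + e)) =
        1 + 2 * e + e * e + 2 * x + 4 * (x * e) + 2 * (x * e * e) := by ring
    have h5 : (1 + 8 * x) * (1 - e) = 1 - e + 8 * x - 8 * (x * e) := by ring
    rw [h4, h5]
    linarith
  have hfac2 : (1 + 2 * (e * C)) * (1 + e) ^ 2 ≤ 1 + 8 * (e * C) := by
    refine le_trans (mul_le_mul_of_nonneg_left ?_ hk0) hfac
    rw [le_div_iff₀ (by linarith), pow_two]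
    have : 0 ≤ (1 + e) * (1 + e) * e := by positivity
    linarith
  have hX2 : (1 + 2 * (e * C)) * (e ^ 2 * X * B) ≤ (1 + 8 * (e * C)) * X := by
    calc (1 + 2 * (e * C)) * (e ^ 2 * X * B) = (1 + 2 * (e * C)) * (e ^ 2 * B) * X := by ring
      _ ≤ (1 + 2 * (e * C)) * (1 + e) ^ 2 * X := mul_le_mul_of_nonneg_right
        (mul_le_mul_of_nonneg_left hB2 hk0) hX
      _ ≤ _ := mul_le_mul_of_nonneg_right hfac2 hX
  have hD3 : (1 + 2 * (e * C)) * ∑ u ∈ s, e * D u ≤ (1 + 8 * (e * C)) * ∑ u ∈ s, N u / (1 + M u) := by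
    calc (1 + 2 * (e * C)) * ∑ u ∈ s, e * D u ≤
        (1 + 2 * (e * C)) * ((1 + e) * (1 + e) / (1 - e) * ∑ u ∈ s, N u / (1 + M u)) :=
          mul_le_mul_of_nonneg_left hD2 hk0
      _ = (1 + 2 * (e * C)) * ((1 + e) * (1 + e) / (1 - e)) * ∑ u ∈ s, N u / (1 + M u) := by ring
      _ ≤ _ := mul_le_mul_of_nonneg_right hfac hS0
  have h20 : (1 + 2 * (e * C)) * (e ^ 2 * X * B + ∑ u ∈ s, e * D u) ≤
      (1 + 8 * (e * C)) * (X + ∑ u ∈ s, N u / (1 + M u)) := by
    rw [mul_add, mul_add]; linarith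
  linarith

/-- The deterministic inequality of the rule with the horizon `S`: there are `R` slots with
`e = S / R`; the error `ε` is as small as we want if `R` is large. -/
theorem main_S (C ε S : ℝ) (hε : 0 < ε) (hS : 0 < S) (Δ : ℕ) :
    ∃ R₀ : ℕ, 0 < R₀ ∧ ∀ R : ℕ, R₀ ≤ R → 0 < S / R ∧ S / R * C ≤ 1 / 8 ∧
      ∀ (V : Type) (s : Finset V) (X : ℝ) (N M : V → ℝ), #s ≤ Δ → 0 ≤ X → X ≤ C →
        (∀ u ∈ s, 0 ≤ N u) → (∀ u ∈ s, 0 ≤ M u) → (∀ u ∈ s, N u + M u ≤ C) →
        2 - X - (∑ u ∈ s, N u / (1 + M u)) - ((S + 2) * Real.exp (-S) + ε) ≤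
          ∑ t ∈ range R, S / R * ((1 - S / R * X) ^ t *
            ∏ u ∈ s, surv (S / R * N u) (S / R * (N u + M u)) t) := by
  set C' := max C 1 with hC'
  have hC1 : 1 ≤ C' := le_max_right _ _
  have hCC : C ≤ C' := le_max_left _ _
  set K : ℝ := 1 + 8 * C' * (C' + Δ * C') with hK
  have hΔ : (0 : ℝ) ≤ Δ := Nat.cast_nonneg Δ
  have hK0 : 0 < K := by positivity
  obtain ⟨R₁, hR₁⟩ := exists_nat_ge (S * (8 * C') + S * K / ε + 1)
  have hR₁0 : (0 : ℝ) < R₁ := by
    have h1 : 0 ≤ S * (8 * C') := by positivity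
    have h2 : 0 ≤ S * K / ε := by positivity
    linarith
  refine ⟨R₁, by exact_mod_cast hR₁0, ?_⟩
  intro R hR
  have hRR : (R₁ : ℝ) ≤ R := by exact_mod_cast hR
  have hR0 : (0 : ℝ) < R := hR₁0.trans_le hRR
  have hbig : S * (8 * C') + S * K / ε + 1 ≤ R := hR₁.trans hRR
  set e := S / R with he
  have he0 : 0 < e := div_pos hS hR0
  have heC' : e * C' ≤ 1 / 8 := by
    rw [he, div_mul_eq_mul_div, div_le_div_iff₀ hR0 (by norm_num)]
    have h2 : 0 ≤ S * K / ε := by positivity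
    linarith
  have he8 : e ≤ 1 / 8 := (le_mul_of_one_le_right he0.le hC1).trans heC'
  have heK : e * K ≤ ε := by
    rw [he, div_mul_eq_mul_div, div_le_iff₀ hR0]
    have h1 : 0 ≤ S * (8 * C') := by positivity
    have h2 : S * K / ε ≤ R := by linarith
    rw [div_le_iff₀ hε] at h2
    linarith
  refine ⟨he0, (mul_le_mul_of_nonneg_left hCC he0.le).trans heC', ?_⟩
  intro V s X N M hs hX hXC hN hM hNM
  have h := total s N M he0 he8 hX (hXC.trans hCC) hN hM (fun u hu => (hNM u hu).trans hCC) hC1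
    heC' R
  refine le_trans ?_ h
  have hS' : ∑ u ∈ s, N u / (1 + M u) ≤ Δ * C' := by
    calc ∑ u ∈ s, N u / (1 + M u) ≤ ∑ u ∈ s, C' := by
          refine sum_le_sum fun u hu => ?_
          have h1 := hN u hu
          have h2 := hM u hu
          rw [div_le_iff₀ (by linarith)]
          have h3 := hNM u hu
          nlinarith
      _ = #s * C' := by rw [sum_const, nsmul_eq_mul]
      _ ≤ Δ * C' := mul_le_mul_of_nonneg_right (by exact_mod_cast hs) (by linarith)
  have h5 : 8 * (e * C') * (X + ∑ u ∈ s, N u / (1 + M u)) ≤ 8 * (e * C') * (C' + Δ * C') := by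
    refine mul_le_mul_of_nonneg_left ?_ (by positivity)
    linarith
  have h6 : e + 8 * (e * C') * (C' + Δ * C') = e * K := by rw [hK]; ring
  have heR : e * R = S := by rw [he]; field_simp
  have hq : Real.exp (-e) ^ R = Real.exp (-S) := by
    rw [← Real.exp_nat_mul]
    congr 1
    linarith
  rw [heR, hq]
  have h7 : (1 + 8 * (e * C')) * (X + ∑ u ∈ s, N u / (1 + M u)) =
      (X + ∑ u ∈ s, N u / (1 + M u)) + 8 * (e * C') * (X + ∑ u ∈ s, N u / (1 + M u)) := by ring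
  linarith

end RI

end Pool.Agent.T6A
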