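import Pool.Agent.T6A.Prob
import Pool.Agent.T6A.RuleIneq

/-!
# The rule: the first valid proposal (MP_c6effb_co)

Every vertex `v` has a position `g v : ι` and one proposal (or none) in each of `R` time slots. `L v`
is the list of the positions which are valid for `v` (it depends on `g` only). `Hit L x t b`: the
first valid proposal is `b`, in the slot `t`. `InT G F L π v t b`: the first valid proposal of `v` is
`b`, in the slot `t`, and no neighbour `u` of `v` has its first valid proposal in a slot `r ≤ t` and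
in a position in conflict with `b`. `pos` is the position of `v` (if `v` is in `T`).

* `pos_legal`: adjacent vertices of `T` are not in conflict, `pos_mem`: the position is in the list;
* `EE_inT`: the exact probability given the lists;
* `EE_inT_ge`: the lower bound `ρ b (2 - X - ∑ u, N u / (1 + M u) - ε)`;
* `EE_loc`: the product space of the local data, first the positions, then the proposals;
* `rule_ge`: both together.
-/

set_option autoImplicit false
set_option linter.unusedSectionVars false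

open Finset

namespace Pool.Agent.T6A

variable {V ι : Type*} [Fintype V] [DecidableEq V] [Fintype ι] [DecidableEq ι] {R : ℕ}

/-- the first valid proposal is `b`, in the slot `t` -/
def Hit (L : Finset ι) (x : Fin R → Option ι) (t : Fin R) (b : ι) : Prop :=
  b ∈ L ∧ x t = some b ∧ ∀ r < t, ∀ c ∈ L, x r ≠ some c

theorem Hit.unique {L : Finset ι} {x : Fin R → Option ι} {t t' : Fin R} {b b' : ι}
    (h : Hit L x t b) (h' : Hit L x t' b') : t = t' ∧ b = b' := by
  obtain ⟨h1, h2, h3⟩ := h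
  obtain ⟨h1', h2', h3'⟩ := h'
  have ht : t = t' := by
    rcases lt_trichotomy t t' with hlt | heq | hgt
    · exact absurd h2 (h3' t hlt b h1)
    · exact heq
    · exact absurd h2' (h3 t' hgt b' h1')
  subst ht
  exact ⟨rfl, Option.some.inj (h2.symm.trans h2')⟩

/-- `v` is in `T`, at the position `b`, from the slot `t` -/
def InT (G : SimpleGraph V) (F : SimpleGraph ι) (L : V → Finset ι) (π : V → Fin R → Option ι)
    (v : V) (t : Fin R) (b : ι) : Prop :=
  Hit (L v) (π v) t b ∧ ∀ u, G.Adj v u → ∀ r ≤ t, ∀ c, F.Adj b c → ¬ Hit (L u) (π u) r c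

open Classical in
/-- the position of `v` -/
noncomputable def pos (G : SimpleGraph V) (F : SimpleGraph ι) (L : V → Finset ι)
    (π : V → Fin R → Option ι) (v : V) : Option ι :=
  if h : ∃ b, ∃ t, InT G F L π v t b then some h.choose else none

variable {G : SimpleGraph V} {F : SimpleGraph ι} {L : V → Finset ι} {π : V → Fin R → Option ι}

theorem pos_eq_some {v : V} {b : ι} : pos G F L π v = some b ↔ ∃ t, InT G F L π v t b := by
  unfold pos
  split_ifs with h
  · constructor
    · intro hb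
      rw [Option.some.injEq] at hb
      rw [← hb]
      exact h.choose_spec
    · rintro ⟨t, ht⟩
      obtain ⟨t', ht'⟩ := h.choose_spec
      rw [(ht'.1.unique ht.1).2]
  · constructor
    · intro hb
      cases hb
    · rintro ⟨t, ht⟩
      exact absurd ⟨b, t, ht⟩ h

theorem pos_mem {v : V} {b : ι} (h : pos G F L π v = some b) : b ∈ L v := by
  obtain ⟨t, ht⟩ := pos_eq_some.1 h
  exact ht.1.1

/-- the position is one of the proposals -/
theorem pos_prop {v : V} {b : ι} (h : pos G F L π v = some b) : ∃ t, π v t = some b := by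
  obtain ⟨t, ht⟩ := pos_eq_some.1 h
  exact ⟨t, ht.1.2.1⟩

theorem pos_legal {v u : V} {b c : ι} (hv : pos G F L π v = some b) (hu : pos G F L π u = some c)
    (h : G.Adj v u) : ¬ F.Adj b c := by
  intro hF
  obtain ⟨t, ht⟩ := pos_eq_some.1 hv
  obtain ⟨r, hr⟩ := pos_eq_some.1 hu
  rcases le_total r t with hrt | htr
  · exact ht.2 u h r hrt c hF hr.1
  · exact hr.2 v h.symm t htr b hF.symm ht.1

/-- The position depends only on the lists and the proposals of the vertex and its neighbours. -/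
theorem pos_congr {L' : V → Finset ι} {π' : V → Fin R → Option ι} {v : V}
    (hv : L v = L' v) (hv' : π v = π' v) (hu : ∀ u, G.Adj v u → L u = L' u)
    (hu' : ∀ u, G.Adj v u → π u = π' u) : pos G F L π v = pos G F L' π' v := by
  have key : ∀ b t, InT G F L π v t b ↔ InT G F L' π' v t b := by
    intro b t
    unfold InT
    rw [hv, hv']
    refine and_congr_right fun _ => forall_congr' fun u => forall_congr' fun h => ?_
    rw [hu u h, hu' u h]
  refine Option.ext fun b => ?_
  rw [pos_eq_some, pos_eq_some]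
  exact exists_congr fun t => key b t

/-! ### One vertex -/

section one

/-- the law of one proposal -/
def pq (e : ℝ) (ρ : ι → ℝ) : Option ι → ℝ
  | none => 1 - e * ∑ b, ρ b
  | some b => e * ρ b

variable {e : ℝ} {ρ : ι → ℝ}

theorem sum_pq : ∑ y, pq e ρ y = 1 := by
  rw [Fintype.sum_option]
  simp only [pq]
  rw [mul_sum]
  ring

theorem pq_nonneg (he : 0 ≤ e) (hρ : ∀ b, 0 ≤ ρ b) (h1 : e * ∑ b, ρ b ≤ 1) (y : Option ι) :
    0 ≤ pq e ρ y := by
  cases y with
  | none => simp only [pq]; linarith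
  | some b => exact mul_nonneg he (hρ b)

theorem isLaw_pq (he : 0 ≤ e) (hρ : ∀ b, 0 ≤ ρ b) (h1 : e * ∑ b, ρ b ≤ 1) :
    IsLaw (V := Fin R) (fun _ => pq e ρ) :=
  ⟨fun _ y => pq_nonneg he hρ h1 y, fun _ => sum_pq⟩

open Classical in
/-- the indicator of `Hit` -/
noncomputable def hi (L : Finset ι) (t : Fin R) (b : ι) (x : Fin R → Option ι) : ℝ :=
  if Hit L x t b then 1 else 0

theorem sum_pq_some (b : ι) : ∑ y, pq e ρ y * (if y = some b then 1 else 0) = e * ρ b := by
  rw [Fintype.sum_option, if_neg (by simp), mul_zero, zero_add]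
  simp [pq]

open Classical in
theorem sum_pq_not (L : Finset ι) :
    ∑ y, pq e ρ y * (if ∃ c ∈ L, y = some c then 0 else 1) = 1 - e * ∑ c ∈ L, ρ c := by
  rw [Fintype.sum_option, if_neg (by simp), mul_one]
  have h : ∀ b : ι, pq e ρ (some b) * (if ∃ c ∈ L, some b = some c then (0 : ℝ) else 1) =
      e * ρ b - e * (if b ∈ L then ρ b else 0) := by
    intro b
    by_cases hb : b ∈ L
    · rw [if_pos ⟨b, hb, rfl⟩, if_pos hb]; ring
    · rw [if_neg (by
        rintro ⟨c, hc, h⟩
        rw [Option.some.injEq] at h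
        exact hb (h ▸ hc)), if_neg hb]
      simp only [pq]; ring
  rw [sum_congr rfl fun b _ => h b, sum_sub_distrib, ← mul_sum, ← mul_sum, ← sum_filter,
    filter_mem_eq_inter, univ_inter]
  simp only [pq]
  ring

open Classical in
theorem EE_hi (he : 0 ≤ e) (hρ : ∀ b, 0 ≤ ρ b) (h1 : e * ∑ b, ρ b ≤ 1) (L : Finset ι) (t : Fin R)
    (b : ι) : EE (fun _ : Fin R => pq e ρ) (hi L t b) =
      if b ∈ L then (1 - e * ∑ c ∈ L, ρ c) ^ (t : ℕ) * (e * ρ b) else 0 := by
  by_cases hb : b ∈ L
  swap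
  · rw [if_neg hb]
    have : hi (R := R) L t b = fun _ => 0 := by
      funext x
      exact if_neg fun h => hb h.1
    rw [this]
    exact EE_const (isLaw_pq he hρ h1) 0
  rw [if_pos hb]
  set φ : Fin R → Option ι → ℝ := fun j y =>
    if j = t then (if y = some b then 1 else 0) else
      if j < t then (if ∃ c ∈ L, y = some c then 0 else 1) else 1 with hφ
  have h2 : hi (R := R) L t b = fun x => ∏ j ∈ univ, φ j (x j) := by
    funext x
    unfold hi
    split_ifs with h
    · refine (prod_eq_one fun j _ => ?_).symm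
      simp only [hφ]
      split_ifs with h3 h4 h5 h6
      · rfl
      · exact absurd (h3 ▸ h.2.1) h4
      · obtain ⟨c, hc, h7⟩ := h6
        exact absurd h7 (h.2.2 j h5 c hc)
      · rfl
      · rfl
    · symm
      by_cases h3 : x t = some b
      · have h4 : ∃ r < t, ∃ c ∈ L, x r = some c := by
          by_contra hcon
          push Not at hcon
          exact h ⟨hb, h3, fun r hr c hc => hcon r hr c hc⟩
        obtain ⟨r, hr, c, hc, h5⟩ := h4
        refine prod_eq_zero (mem_univ r) ?_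
        simp only [hφ]
        rw [if_neg (ne_of_lt hr), if_pos hr, if_pos ⟨c, hc, h5⟩]
      · refine prod_eq_zero (mem_univ t) ?_
        simp only [hφ]
        rw [if_pos trivial, if_neg h3]
  rw [h2, EE_prod_coord (isLaw_pq he hρ h1)]
  have h3 : ∀ j : Fin R, ∑ y, pq e ρ y * φ j y =
      if j = t then e * ρ b else if j < t then 1 - e * ∑ c ∈ L, ρ c else 1 := by
    intro j
    simp only [hφ]
    split_ifs with h4 h5
    · exact sum_pq_some b
    · exact sum_pq_not L
    · simp only [mul_one]; exact sum_pq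
  rw [prod_congr rfl fun j _ => h3 j, ← mul_prod_erase univ _ (mem_univ t), if_pos rfl, mul_comm]
  congr 1
  have h4 : ∀ j ∈ univ.erase t, (if j = t then e * ρ b else
      if j < t then 1 - e * ∑ c ∈ L, ρ c else 1) = if j < t then 1 - e * ∑ c ∈ L, ρ c else 1 :=
    fun j hj => if_neg (ne_of_mem_erase hj)
  rw [prod_congr rfl h4, prod_ite, prod_const, prod_const_one, mul_one]
  congr 1
  have h5 : (univ.erase t).filter (fun j => j < t) = Iio t := by
    ext j
    simp only [mem_filter, mem_erase, mem_univ, and_true, mem_Iio]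
    exact ⟨fun h => h.2, fun h => ⟨ne_of_lt h, h⟩⟩
  rw [h5, Fin.card_Iio]

open Classical in
/-- the indicator that no proposal in conflict with `b` is the first valid one up to slot `t` -/
noncomputable def nk (F : SimpleGraph ι) (L : Finset ι) (t : Fin R) (b : ι)
    (x : Fin R → Option ι) : ℝ :=
  if ∀ r ≤ t, ∀ c, F.Adj b c → ¬ Hit L x r c then 1 else 0

open Classical in
theorem nk_eq (L : Finset ι) (t : Fin R) (b : ι) (x : Fin R → Option ι) :
    nk F L t b x = 1 - ∑ r ∈ Iic t, ∑ c ∈ L.filter (fun c => F.Adj b c), hi L r c x := by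
  unfold nk
  split_ifs with h
  · have : ∑ r ∈ Iic t, ∑ c ∈ L.filter (fun c => F.Adj b c), hi L r c x = 0 :=
      sum_eq_zero fun r hr => sum_eq_zero fun c hc =>
        if_neg (h r (mem_Iic.1 hr) c (mem_filter.1 hc).2)
    rw [this, sub_zero]
  · push Not at h
    obtain ⟨r, hr, c, hc, hh⟩ := h
    have h1 : ∑ r' ∈ Iic t, ∑ c' ∈ L.filter (fun c => F.Adj b c), hi L r' c' x = 1 := by
      rw [sum_eq_single r, sum_eq_single c]
      · exact if_pos hh
      · intro c' _ hc'
        exact if_neg fun h' => hc' (hh.unique h').2.symm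
      · intro hc'
        exact absurd (mem_filter.2 ⟨hh.1, hc⟩) hc'
      · intro r' _ hr'
        exact sum_eq_zero fun c' _ => if_neg fun h' => hr' (hh.unique h').1.symm
      · intro hr'
        exact absurd (mem_Iic.2 hr) hr'
    rw [h1, sub_self]

open Classical in
theorem EE_nk (he : 0 ≤ e) (hρ : ∀ b, 0 ≤ ρ b) (h1 : e * ∑ b, ρ b ≤ 1) (L : Finset ι) (t : Fin R)
    (b : ι) : EE (fun _ : Fin R => pq e ρ) (nk F L t b) =
      RI.surv (e * ∑ c ∈ L.filter (fun c => F.Adj b c), ρ c) (e * ∑ c ∈ L, ρ c) t := by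
  have h2 : nk F L t b = fun x => (fun _ => (1 : ℝ)) x -
      (fun x => ∑ r ∈ Iic t, ∑ c ∈ L.filter (fun c => F.Adj b c), hi L r c x) x := by
    funext x
    exact nk_eq L t b x
  rw [h2, EE_sub, EE_const (isLaw_pq he hρ h1), EE_sum]
  have h3 : ∀ r : Fin R, EE (fun _ : Fin R => pq e ρ)
      (fun x => ∑ c ∈ L.filter (fun c => F.Adj b c), hi L r c x) =
      e * (∑ c ∈ L.filter (fun c => F.Adj b c), ρ c) * (1 - e * ∑ c ∈ L, ρ c) ^ (r : ℕ) := by
    intro r
    rw [EE_sum]
    have h4 : ∀ c ∈ L.filter (fun c => F.Adj b c), EE (fun _ : Fin R => pq e ρ)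
        (fun x => hi L r c x) = (1 - e * ∑ c ∈ L, ρ c) ^ (r : ℕ) * (e * ρ c) := by
      intro c hc
      have := EE_hi (R := R) he hρ h1 L r c
      rw [if_pos (mem_filter.1 hc).1] at this
      exact this
    rw [sum_congr rfl h4, ← mul_sum, ← mul_sum]
    ring
  rw [sum_congr rfl fun r _ => h3 r]
  unfold RI.surv
  congr 1
  have h5 : ∑ r ∈ Iic t, e * (∑ c ∈ L.filter (fun c => F.Adj b c), ρ c) *
      (1 - e * ∑ c ∈ L, ρ c) ^ (r : ℕ) = ∑ r ∈ (Iic t).map Fin.valEmbedding,
      e * (∑ c ∈ L.filter (fun c => F.Adj b c), ρ c) * (1 - e * ∑ c ∈ L, ρ c) ^ r := by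
    rw [sum_map]; rfl
  rw [h5]
  congr 1
  rw [Fin.map_valEmbedding_Iic]
  ext r
  simp

end one

/-! ### All vertices, the lists are fixed -/

section all

open Classical

/-- the law of the proposals -/
noncomputable def pp (R : ℕ) (e : ℝ) (ρ : V → ι → ℝ) (v : V) (x : Fin R → Option ι) : ℝ :=
  wt (fun _ : Fin R => pq e (ρ v)) x

variable {e : ℝ} {ρ : V → ι → ℝ}

theorem isLaw_pp (he : 0 ≤ e) (hρ : ∀ v b, 0 ≤ ρ v b) (h1 : ∀ v, e * ∑ b, ρ v b ≤ 1) :
    IsLaw (pp (V := V) (ι := ι) R e ρ) :=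
  ⟨fun v x => wt_nonneg (isLaw_pq he (hρ v) (h1 v)) x,
    fun v => sum_wt (isLaw_pq he (hρ v) (h1 v))⟩

/-- the indicator of `InT` -/
noncomputable def ti (G : SimpleGraph V) (F : SimpleGraph ι) (L : V → Finset ι) (v : V) (t : Fin R)
    (b : ι) (π : V → Fin R → Option ι) : ℝ :=
  if InT G F L π v t b then 1 else 0

theorem ti_eq (L : V → Finset ι) (v : V) (t : Fin R) (b : ι) (π : V → Fin R → Option ι) :
    ti G F L v t b π = ∏ u ∈ insert v (univ.filter fun u => G.Adj v u),
      (if u = v then hi (L v) t b (π u) else nk F (L u) t b (π u)) := by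
  have hv : v ∉ univ.filter fun u => G.Adj v u := by simp
  rw [prod_insert hv, if_pos rfl]
  have h2 : ∏ u ∈ univ.filter (fun u => G.Adj v u),
      (if u = v then hi (L v) t b (π u) else nk F (L u) t b (π u)) =
      ∏ u ∈ univ.filter (fun u => G.Adj v u), nk F (L u) t b (π u) :=
    prod_congr rfl fun u hu => if_neg fun h => by
      rw [h] at hu
      exact hv hu
  rw [h2]
  unfold ti InT
  by_cases h3 : Hit (L v) (π v) t b
  · have h4 : hi (L v) t b (π v) = 1 := if_pos h3
    rw [h4, one_mul]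
    by_cases h5 : ∀ u, G.Adj v u → ∀ r ≤ t, ∀ c, F.Adj b c → ¬ Hit (L u) (π u) r c
    · rw [if_pos ⟨h3, h5⟩]
      exact (prod_eq_one fun u hu => if_pos (h5 u (mem_filter.1 hu).2)).symm
    · rw [if_neg fun h => h5 h.2]
      push Not at h5
      obtain ⟨u, hu, r, hr, c, hc, hh⟩ := h5
      symm
      refine prod_eq_zero (mem_filter.2 ⟨mem_univ u, hu⟩) (if_neg ?_)
      exact fun h => h r hr c hc hh
  · have h4 : hi (L v) t b (π v) = 0 := if_neg h3
    rw [if_neg fun h => h3 h.1, h4, zero_mul]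

/-- The exact probability, given the lists. -/
theorem EE_ti (he : 0 ≤ e) (hρ : ∀ v b, 0 ≤ ρ v b) (h1 : ∀ v, e * ∑ b, ρ v b ≤ 1)
    (L : V → Finset ι) (v : V) (t : Fin R) (b : ι) (hb : b ∈ L v) :
    EE (pp R e ρ) (ti G F L v t b) =
      (1 - e * ∑ c ∈ L v, ρ v c) ^ (t : ℕ) * (e * ρ v b) *
        ∏ u ∈ univ.filter (fun u => G.Adj v u),
          RI.surv (e * ∑ c ∈ (L u).filter (fun c => F.Adj b c), ρ u c) (e * ∑ c ∈ L u, ρ u c) t := by
  have h2 : ti G F L v t b = fun π => ∏ u ∈ insert v (univ.filter fun u => G.Adj v u),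
      (fun (u : V) (x : Fin R → Option ι) =>
        if u = v then hi (L v) t b x else nk F (L u) t b x) u (π u) := by
    funext π
    exact ti_eq L v t b π
  rw [h2]
  refine Eq.trans (EE_prod_coord (isLaw_pp he hρ h1) (insert v (univ.filter fun u => G.Adj v u))
    (fun (u : V) (x : Fin R → Option ι) =>
      if u = v then hi (L v) t b x else nk F (L u) t b x)) ?_
  have hv : v ∉ univ.filter fun u => G.Adj v u := by simp
  rw [prod_insert hv]
  congr 1
  · have h3 : ∑ x, pp R e ρ v x * (if v = v then hi (L v) t b x else nk F (L v) t b x) =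
        EE (fun _ : Fin R => pq e (ρ v)) (hi (L v) t b) := by
      unfold EE pp
      exact sum_congr rfl fun x _ => by rw [if_pos rfl]
    rw [h3, EE_hi he (hρ v) (h1 v), if_pos hb]
  · refine prod_congr rfl fun u hu => ?_
    have huv : u ≠ v := fun h => by
      rw [h] at hu
      exact hv hu
    have h3 : ∑ x, pp R e ρ u x * (if u = v then hi (L v) t b x else nk F (L u) t b x) =
        EE (fun _ : Fin R => pq e (ρ u)) (nk F (L u) t b) := by
      unfold EE pp
      exact sum_congr rfl fun x _ => by rw [if_neg huv]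
    rw [h3, EE_nk he (hρ u) (h1 u)]

/-- the indicator of: the position of `v` is `b` -/
noncomputable def pi (G : SimpleGraph V) (F : SimpleGraph ι) (L : V → Finset ι) (v : V) (b : ι)
    (π : V → Fin R → Option ι) : ℝ :=
  if pos G F L π v = some b then 1 else 0

theorem pi_eq (L : V → Finset ι) (v : V) (b : ι) (π : V → Fin R → Option ι) :
    pi G F L v b π = ∑ t, ti G F L v t b π := by
  unfold pi
  split_ifs with h
  · obtain ⟨t, ht⟩ := pos_eq_some.1 h
    rw [sum_eq_single t]
    · exact (if_pos ht).symm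
    · intro t' _ ht'
      exact if_neg fun h' => ht' (h'.1.unique ht.1).1
    · intro h'
      exact absurd (mem_univ t) h'
  · symm
    refine sum_eq_zero fun t _ => if_neg fun h' => h (pos_eq_some.2 ⟨t, h'⟩)

/-- The lower bound, given the lists. -/
theorem EE_pi_ge {C ε : ℝ} {Δ : ℕ} (he : 0 ≤ e) (hρ : ∀ v b, 0 ≤ ρ v b)
    (h1 : ∀ v, e * ∑ b, ρ v b ≤ 1)
    (hmain : ∀ (s : Finset V) (X : ℝ) (N M : V → ℝ), #s ≤ Δ → 0 ≤ X → X ≤ C →
      (∀ u ∈ s, 0 ≤ N u) → (∀ u ∈ s, 0 ≤ M u) → (∀ u ∈ s, N u + M u ≤ C) →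
      2 - X - (∑ u ∈ s, N u / (1 + M u)) - ε ≤
        ∑ t ∈ range R, e * ((1 - e * X) ^ t * ∏ u ∈ s, RI.surv (e * N u) (e * (N u + M u)) t))
    (hC : ∀ v, ∑ b, ρ v b ≤ C) (hΔ : ∀ v, #(univ.filter fun u => G.Adj v u) ≤ Δ)
    (L : V → Finset ι) (v : V) (b : ι) (hb : b ∈ L v) :
    ρ v b * (2 - (∑ c ∈ L v, ρ v c) - (∑ u ∈ univ.filter (fun u => G.Adj v u),
      (∑ c ∈ (L u).filter (fun c => F.Adj b c), ρ u c) /
        (1 + ∑ c ∈ (L u).filter (fun c => ¬ F.Adj b c), ρ u c)) - ε) ≤
      EE (pp R e ρ) (pi G F L v b) := by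
  have h2 : pi (R := R) G F L v b = fun π => ∑ t ∈ univ, ti G F L v t b π := by
    funext π
    exact pi_eq L v b π
  rw [h2, EE_sum]
  have h3 := hmain (univ.filter fun u => G.Adj v u) (∑ c ∈ L v, ρ v c)
    (fun u => ∑ c ∈ (L u).filter (fun c => F.Adj b c), ρ u c)
    (fun u => ∑ c ∈ (L u).filter (fun c => ¬ F.Adj b c), ρ u c) (hΔ v)
    (sum_nonneg fun c _ => hρ v c)
    ((sum_le_sum_of_subset_of_nonneg (subset_univ _) fun c _ _ => hρ v c).trans (hC v))
    (fun u _ => sum_nonneg fun c _ => hρ u c) (fun u _ => sum_nonneg fun c _ => hρ u c)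
    (fun u _ => by
      rw [sum_filter_add_sum_filter_not]
      exact (sum_le_sum_of_subset_of_nonneg (subset_univ _) fun c _ _ => hρ u c).trans (hC u))
  have h4 := mul_le_mul_of_nonneg_left h3 (hρ v b)
  refine h4.trans (le_of_eq ?_)
  rw [mul_sum, ← Fin.sum_univ_eq_sum_range (fun t => ρ v b * (e * ((1 - e * ∑ c ∈ L v, ρ v c) ^ t *
    ∏ u ∈ univ.filter (fun u => G.Adj v u), RI.surv
      (e * ∑ c ∈ (L u).filter (fun c => F.Adj b c), ρ u c)
      (e * (∑ c ∈ (L u).filter (fun c => F.Adj b c), ρ u c +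
        ∑ c ∈ (L u).filter (fun c => ¬ F.Adj b c), ρ u c)) t)))]
  refine sum_congr rfl fun t _ => ?_
  rw [EE_ti he hρ h1 L v t b hb]
  have h5 : ∀ u, ∑ c ∈ (L u).filter (fun c => F.Adj b c), ρ u c +
      ∑ c ∈ (L u).filter (fun c => ¬ F.Adj b c), ρ u c = ∑ c ∈ L u, ρ u c := fun u =>
    sum_filter_add_sum_filter_not _ _ _
  simp only [h5]
  ring

end all

/-! ### The space of the local data -/

section loc

variable {κ Om : Type*} [Fintype κ] [Fintype Om]

/-- The law of independent pairs. -/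
def pair (al : V → Om → ℝ) (q : V → κ → ℝ) (v : V) (x : Om × κ) : ℝ := al v x.1 * q v x.2

theorem isLaw_pair {al : V → Om → ℝ} {q : V → κ → ℝ} (h : IsLaw al) (h' : IsLaw q) :
    IsLaw (pair al q) :=
  ⟨fun v x => mul_nonneg (h.nonneg v _) (h'.nonneg v _), fun v => by
    rw [Fintype.sum_prod_type]
    simp only [pair, ← mul_sum, h'.sum_one, mul_one, h.sum_one]⟩

/-- First the first components, then the second components. -/
theorem EE_loc (al : V → Om → ℝ) (q : V → κ → ℝ) (f : (V → Om × κ) → ℝ) :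
    EE (pair al q) f = EE al fun g => EE q fun π => f fun v => (g v, π v) := by
  unfold EE
  have h : ∑ g : V → Om, wt al g * ∑ π : V → κ, wt q π * f (fun v => (g v, π v)) =
      ∑ z : (V → Om) × (V → κ), wt al z.1 * (wt q z.2 * f fun v => (z.1 v, z.2 v)) := by
    rw [Fintype.sum_prod_type]
    exact sum_congr rfl fun g _ => by rw [mul_sum]
  rw [h]
  refine Fintype.sum_equiv (Equiv.arrowProdEquivProdArrow V (fun _ => Om) (fun _ => κ)) _ _
    fun ω => ?_
  have h2 : wt (pair al q) ω = wt al (fun v => (ω v).1) * wt q (fun v => (ω v).2) := by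
    unfold wt pair
    exact prod_mul_distrib
  rw [h2, mul_assoc]
  rfl

end loc

section final

open Classical

/-- Everything together: `L` is a function of the positions, `φ` any weight which depends on the
positions only. -/
theorem rule_ge {C ε : ℝ} {Δ : ℕ} {e : ℝ} {ρ : V → ι → ℝ} {Om : Type*} [Fintype Om]
    {al : V → Om → ℝ} (hal : IsLaw al) (he : 0 ≤ e) (hρ : ∀ v b, 0 ≤ ρ v b)
    (h1 : ∀ v, e * ∑ b, ρ v b ≤ 1)
    (hmain : ∀ (s : Finset V) (X : ℝ) (N M : V → ℝ), #s ≤ Δ → 0 ≤ X → X ≤ C →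
      (∀ u ∈ s, 0 ≤ N u) → (∀ u ∈ s, 0 ≤ M u) → (∀ u ∈ s, N u + M u ≤ C) →
      2 - X - (∑ u ∈ s, N u / (1 + M u)) - ε ≤
        ∑ t ∈ range R, e * ((1 - e * X) ^ t * ∏ u ∈ s, RI.surv (e * N u) (e * (N u + M u)) t))
    (hC : ∀ v, ∑ b, ρ v b ≤ C) (hΔ : ∀ v, #(univ.filter fun u => G.Adj v u) ≤ Δ)
    (L : (V → Om) → V → Finset ι) (φ : (V → Om) → ℝ) (hφ : ∀ g, 0 ≤ φ g) (v : V) (b : ι) :
    EE al (fun g => φ g * (if b ∈ L g v then
      ρ v b * (2 - (∑ c ∈ L g v, ρ v c) - (∑ u ∈ univ.filter (fun u => G.Adj v u),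
        (∑ c ∈ (L g u).filter (fun c => F.Adj b c), ρ u c) /
          (1 + ∑ c ∈ (L g u).filter (fun c => ¬ F.Adj b c), ρ u c)) - ε) else 0)) ≤
      EE (pair al (pp R e ρ)) (fun ω => φ (fun v => (ω v).1) *
        pi G F (L fun v => (ω v).1) v b fun v => (ω v).2) := by
  rw [EE_loc]
  refine EE_mono hal fun g => ?_
  have h2 : EE (pp R e ρ) (fun π => φ g * pi G F (L g) v b π) =
      φ g * EE (pp R e ρ) (pi G F (L g) v b) := EE_smul _ _
  change _ ≤ EE (pp R e ρ) (fun π => φ g * pi G F (L g) v b π)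
  rw [h2]
  refine mul_le_mul_of_nonneg_left ?_ (hφ g)
  split_ifs with hb
  · exact EE_pi_ge he hρ h1 hmain hC hΔ (L g) v b hb
  · refine EE_nonneg (isLaw_pp he hρ h1) fun π => ?_
    unfold pi
    split_ifs <;> norm_num

end final

end Pool.Agent.T6A
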