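import Pool.Agent.T6A.MathStmt
import Pool.Agent.T6A.Rule
import Pool.Agent.T6A.BadBound

/-!
# The fields `bad` and `zv` of `RuleOut` (MP_c6effb_co)

For the space `ι × (Fin N → Option ι)` of the rule (`Rule.lean`), the position in `A` is the first
component, `b` is any choice of one of the proposals.
-/

set_option autoImplicit false
set_option linter.unusedSectionVars false

open Finset

namespace Pool.Agent.T6A

noncomputable section

/-- The tolerance for the bad pairs. -/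
def epsB (K N : ℕ) (R δ : ℝ) : ℝ := δ / ((K + 1) * (1 + K + N + N * N) * (|R| + 1))

theorem epsB_den_pos (K N : ℕ) (R : ℝ) :
    0 < ((K : ℝ) + 1) * (1 + K + N + N * N) * (|R| + 1) := by positivity

theorem epsB_pos (K N : ℕ) (R : ℝ) {δ : ℝ} (hδ : 0 < δ) : 0 < epsB K N R δ :=
  div_pos hδ (epsB_den_pos K N R)

open Classical

theorem rule_bad {V ι : Type} [Fintype V] [Fintype ι] {K N : ℕ} {R δ e ε : ℝ} (hδ : 0 < δ)
    (he0 : 0 ≤ e) (he1 : e ≤ 1) (X : World ι) (L : Low V ι) (Bd : ι → ι → Prop) (μ : ι → ℝ)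
    (r : V → ι → ℝ) (hd : ∀ v, L.d v ≤ K) (hsymm : ∀ i i', Bd i i' → Bd i' i)
    (hbd : ∀ i, ∀ S : Finset ι, (∀ i' ∈ S, Bd i i') → ∑ i' ∈ S, X.w i' ≤ ε)
    (hAv : ∀ v, ∀ S : Finset ι, (∀ i ∈ S, i ∈ X.A ∧ i ∉ L.Av v) → ∑ i ∈ S, X.w i ≤ ε)
    (hμ0 : ∀ a, 0 ≤ μ a) (hμ1 : ∑ a, μ a = 1) (hμA : ∀ a, a ∉ X.A → μ a = 0)
    (hμw : ∀ a, μ a ≤ R * X.w a) (hr0 : ∀ v y, 0 ≤ r v y) (hrw : ∀ v y, r v y ≤ R * X.w y)
    (hq : ∀ v, e * ∑ y, r v y ≤ 1) (hε : ε ≤ epsB K N R δ)
    (b : (V → ι × (Fin N → Option ι)) → V → Option ι)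
    (hb : ∀ ω v y, b ω v = some y → ∃ t, (ω v).2 t = some y) :
    (∀ v a, EE (pair (fun _ => μ) (pp N e r)) (fun ω =>
      if (fun ω v => (ω v).1 : (V → ι × (Fin N → Option ι)) → V → ι) ω v = a ∧
        ¬ zev L Bd (fun ω v => (ω v).1) ω v ∧ badE L Bd (fun ω v => (ω v).1) b ω v
      then 1 else 0) ≤ μ a * δ) ∧
    ∀ v, EE (pair (fun _ => μ) (pp N e r)) (fun ω =>
      if zev L Bd (fun ω v => (ω v).1) ω v then 1 else 0) ≤ δ := by
  have hε0 : 0 ≤ ε := by
    by_cases hι : Nonempty ι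
    · obtain ⟨i⟩ := hι
      have := hbd i ∅ (by simp)
      simpa using this
    · exfalso
      rw [not_nonempty_iff] at hι
      simp at hμ1
  have hR0 : 0 ≤ |R| := abs_nonneg R
  have hR1 : R ≤ |R| := le_abs_self R
  have hμw' : ∀ a, μ a ≤ |R| * X.w a := fun a =>
    (hμw a).trans (mul_le_mul_of_nonneg_right hR1 (X.pos a).le)
  have hrw' : ∀ v a, r v a ≤ |R| * X.w a := fun v a =>
    (hrw v a).trans (mul_le_mul_of_nonneg_right hR1 (X.pos a).le)
  have hM : BB.Marg (pair (fun _ => μ) (pp N e r)) (fun x : ι × (Fin N → Option ι) => x.1)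
      (fun x y => ∃ t, x.2 t = some y) μ (fun v y => (N : ℝ) * pq e (r v) (some y)) N :=
    BB.marg_rule (R := N) (q := fun v => pq e (r v)) hμ0 hμ1
      (fun v o => pq_nonneg he0 (hr0 v) (hq v) o) (fun v => sum_pq)
  have hA : ∀ u, ∑ i, μ i * BB.ind (i ∉ L.Av u) ≤ |R| * ε := by
    intro u
    have h1 := hAv u (X.A.filter fun i => i ∉ L.Av u) (fun i hi => mem_filter.1 hi)
    calc ∑ i, μ i * BB.ind (i ∉ L.Av u)
        = ∑ i ∈ X.A.filter (fun i => i ∉ L.Av u), μ i * BB.ind (i ∉ L.Av u) := by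
          symm
          refine sum_subset (subset_univ _) fun i _ hi => ?_
          rw [mem_filter, not_and_or, not_not] at hi
          rcases hi with hi | hi
          · rw [hμA i hi, zero_mul]
          · rw [BB.ind_false (not_not.2 hi), mul_zero]
      _ ≤ ∑ i ∈ X.A.filter (fun i => i ∉ L.Av u), |R| * X.w i := by
          refine sum_le_sum fun i hi => ?_
          rw [BB.ind_true (mem_filter.1 hi).2, mul_one]
          exact hμw' i
      _ = |R| * ∑ i ∈ X.A.filter (fun i => i ∉ L.Av u), X.w i := (mul_sum _ _ _).symm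
      _ ≤ |R| * ε := mul_le_mul_of_nonneg_left h1 hR0
  have hB : ∀ (c : ℝ) (s : ι → ℝ), 0 ≤ c → (∀ i, s i ≤ c * X.w i) → ∀ i,
      ∑ i', s i' * BB.ind (Bd i i') ≤ c * ε := by
    intro c s hc hs i
    have h1 := hbd i (univ.filter fun i' => Bd i i') (fun i' hi => (mem_filter.1 hi).2)
    calc ∑ i', s i' * BB.ind (Bd i i')
        = ∑ i' ∈ univ.filter (fun i' => Bd i i'), s i' * BB.ind (Bd i i') := by
          symm
          refine sum_subset (subset_univ _) fun i' _ hi => ?_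
          rw [mem_filter, not_and_or] at hi
          rcases hi with hi | hi
          · exact absurd (mem_univ _) hi
          · rw [BB.ind_false hi, mul_zero]
      _ ≤ ∑ i' ∈ univ.filter (fun i' => Bd i i'), c * X.w i' := by
          refine sum_le_sum fun i' hi => ?_
          rw [BB.ind_true (mem_filter.1 hi).2, mul_one]
          exact hs i'
      _ = c * ∑ i' ∈ univ.filter (fun i' => Bd i i'), X.w i' := (mul_sum _ _ _).symm
      _ ≤ c * ε := mul_le_mul_of_nonneg_left h1 hc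
  have hB1 : ∀ i, ∑ i', μ i' * BB.ind (Bd i i') ≤ |R| * ε := hB |R| μ hR0 hμw'
  have hN : (0 : ℝ) ≤ N := Nat.cast_nonneg N
  have hB2 : ∀ v i, ∑ i', ((N : ℝ) * pq e (r v) (some i')) * BB.ind (Bd i i') ≤
      (N * |R|) * ε := by
    intro v
    refine hB (N * |R|) _ (mul_nonneg hN hR0) fun i => ?_
    show (N : ℝ) * (e * r v i) ≤ N * |R| * X.w i
    have h1 : e * r v i ≤ 1 * (|R| * X.w i) := mul_le_mul he1 (hrw' v i) (hr0 v i) zero_le_one
    have := mul_le_mul_of_nonneg_left h1 hN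
    linarith
  have hK0 : (0 : ℝ) ≤ K := Nat.cast_nonneg K
  have hden := epsB_den_pos K N R
  have hkey : ((K : ℝ) + 1) * (1 + K + N + N * N) * (|R| + 1) * ε ≤ δ := by
    have := mul_le_mul_of_nonneg_left hε hden.le
    unfold epsB at this
    rwa [mul_div_cancel₀ _ hden.ne'] at this
  constructor
  · intro v a
    refine (BB.bad_le hM hsymm hd hA hB1 hB2 (mul_nonneg hR0 hε0)
      (mul_nonneg (mul_nonneg hN hR0) hε0) hN b hb v a _ (fun ω => ?_) (fun ω h => ?_)).trans ?_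
    · split_ifs <;> norm_num
    · rw [if_neg h]
    · refine mul_le_mul_of_nonneg_left (le_trans ?_ hkey) (hμ0 a)
      have e1 : (K : ℝ) * (|R| * ε + K * (|R| * ε) + N * (|R| * ε) + N * (N * |R| * ε)) =
          K * (1 + K + N + N * N) * |R| * ε := by ring
      rw [e1]
      have h2 : (K : ℝ) * (1 + K + N + N * N) * |R| ≤
          ((K : ℝ) + 1) * (1 + K + N + N * N) * (|R| + 1) := by
        have h3 : (0 : ℝ) ≤ 1 + K + N + N * N := by positivity
        have h4 : (K : ℝ) * (1 + K + N + N * N) ≤ (K + 1) * (1 + K + N + N * N) :=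
          mul_le_mul_of_nonneg_right (by linarith) h3
        exact mul_le_mul h4 (by linarith) hR0 (by positivity)
      exact mul_le_mul_of_nonneg_right h2 hε0
  · intro v
    refine (BB.zev_le hM hd hA hB1 (mul_nonneg hR0 hε0) v _ (fun ω => ?_) (fun ω h => ?_)).trans ?_
    · split_ifs <;> norm_num
    · rw [if_neg h]
    · refine le_trans ?_ hkey
      have e1 : |R| * ε + (K : ℝ) * (|R| * ε) = (K + 1) * |R| * ε := by ring
      rw [e1]
      refine mul_le_mul_of_nonneg_right ?_ hε0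
      have h3 : (1 : ℝ) ≤ 1 + K + N + N * N := by nlinarith
      have h4 : ((K : ℝ) + 1) * 1 ≤ (K + 1) * (1 + K + N + N * N) :=
        mul_le_mul_of_nonneg_left h3 (by linarith)
      exact mul_le_mul (by linarith) (by linarith) hR0 (by positivity)

end

end Pool.Agent.T6A
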