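import Pool.Agent.T6A.MathStmt
import Pool.Agent.T6A.Rule

/-!
# The rule for arbitrary rates: the fields of `RuleOut` except `bad` and `zv` (MP_c6effb_co, T6-A)

The coordinate of a vertex is `(i, f)`: its cluster `i` of `A` and its `N` proposals `f`. The list of
`v` are the clusters of `Bv v` which are not `F`-adjacent to the clusters of the neighbours of `v`.
-/

set_option autoImplicit false
set_option linter.unusedSectionVars false

open Finset

namespace Pool.Agent.T6A

noncomputable section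

namespace RF

open Classical

variable {V ι : Type} [Fintype V] [Fintype ι] {N : ℕ}

/-- the list of `v` -/
def lst (F : SimpleGraph ι) (G : SimpleGraph V) (Bv : V → Finset ι) (g : V → ι) (v : V) :
    Finset ι :=
  (Bv v).filter fun y => ∀ u, G.Adj v u → ¬ F.Adj y (g u)

/-- the cluster of `A` of `v` -/
def gr (ω : V → ι × (Fin N → Option ι)) (v : V) : ι := (ω v).1

/-- the cluster outside `A` of `v` -/
def br (F : SimpleGraph ι) (G : SimpleGraph V) (Bv : V → Finset ι)
    (ω : V → ι × (Fin N → Option ι)) (v : V) : Option ι :=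
  pos G F (lst F G Bv fun v => (ω v).1) (fun v => (ω v).2) v

variable {F : SimpleGraph ι} {G : SimpleGraph V} {Bv : V → Finset ι}

theorem br_mem {ω : V → ι × (Fin N → Option ι)} {v : V} {y : ι} (h : br F G Bv ω v = some y) :
    y ∈ Bv v := by
  have h' : y ∈ lst F G Bv (fun v => (ω v).1) v := pos_mem h
  unfold lst at h'
  exact (mem_filter.1 h').1

theorem br_st {ω : V → ι × (Fin N → Option ι)} {v : V} {y : ι} (h : br F G Bv ω v = some y)
    {u : V} (hu : G.Adj v u) : ¬ F.Adj y (gr ω u) := by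
  have h' : y ∈ lst F G Bv (fun v => (ω v).1) v := pos_mem h
  unfold lst at h'
  exact (mem_filter.1 h').2 u hu

theorem br_tt {ω : V → ι × (Fin N → Option ι)} {v u : V} {y y' : ι}
    (h : br F G Bv ω v = some y) (h' : br F G Bv ω u = some y') (hu : G.Adj v u) :
    ¬ F.Adj y y' := pos_legal h h' hu

theorem br_prop {ω : V → ι × (Fin N → Option ι)} {v : V} {y : ι} (h : br F G Bv ω v = some y) :
    ∃ t, (ω v).2 t = some y := by
  exact pos_prop (π := fun v => (ω v).2) h

/-- the ball of radius one -/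
def N1 (G : SimpleGraph V) (v : V) : Finset V := insert v (nbh G v)

/-- the ball of radius two -/
def N2 (G : SimpleGraph V) (v : V) : Finset V := (N1 G v).biUnion (N1 G)

theorem mem_N1 {v u : V} : u ∈ N1 G v ↔ u = v ∨ G.Adj v u := by
  simp [N1, nbh]

theorem mem_N1_comm {v u : V} : u ∈ N1 G v ↔ v ∈ N1 G u := by
  rw [mem_N1, mem_N1]
  exact or_congr eq_comm (G.adj_comm v u)

theorem mem_N2 {v u : V} : u ∈ N2 G v ↔ ∃ w, w ∈ N1 G v ∧ u ∈ N1 G w := mem_biUnion

theorem mem_N2_comm {v u : V} : u ∈ N2 G v ↔ v ∈ N2 G u := by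
  rw [mem_N2, mem_N2]
  constructor
  · rintro ⟨w, h1, h2⟩
    exact ⟨w, mem_N1_comm.1 h2, mem_N1_comm.1 h1⟩
  · rintro ⟨w, h1, h2⟩
    exact ⟨w, mem_N1_comm.1 h2, mem_N1_comm.1 h1⟩

theorem card_N1 {K : ℕ} (hK : ∀ v, #(nbh G v) ≤ K) (v : V) : #(N1 G v) ≤ K + 1 :=
  (card_insert_le _ _).trans (Nat.succ_le_succ (hK v))

theorem card_N2 {K : ℕ} (hK : ∀ v, #(nbh G v) ≤ K) (v : V) : #(N2 G v) ≤ (K + 1) * (K + 1) := by
  refine (card_biUnion_le_card_mul _ _ (K + 1) fun u _ => card_N1 hK u).trans ?_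
  exact Nat.mul_le_mul_right _ (card_N1 hK v)

theorem ov {K : ℕ} (hK : ∀ v, #(nbh G v) ≤ K) (v : V) :
    #(univ.filter fun u => ¬ Disjoint (N2 G v) (N2 G u)) ≤ (K + 1) * (K + 1) * ((K + 1) * (K + 1)) := by
  have h1 : (univ.filter fun u => ¬ Disjoint (N2 G v) (N2 G u)) ⊆ (N2 G v).biUnion (N2 G) := by
    intro u hu
    obtain ⟨w, hw, hw'⟩ := not_disjoint_iff.1 (mem_filter.1 hu).2
    exact mem_biUnion.2 ⟨w, hw, mem_N2_comm.1 hw'⟩
  refine (card_le_card h1).trans ?_
  refine (card_biUnion_le_card_mul _ _ ((K + 1) * (K + 1)) fun u _ => card_N2 hK u).trans ?_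
  exact Nat.mul_le_mul_right _ (card_N2 hK v)

theorem loc (v : V) : DepOn (fun ω : V → ι × (Fin N → Option ι) => (gr ω v, br F G Bv ω v))
    (N2 G v) := by
  intro ω ω' h
  have h1 : ∀ u ∈ N1 G v, ω u = ω' u := fun u hu =>
    h u (mem_N2.2 ⟨v, mem_N1.2 (Or.inl rfl), hu⟩)
  have hv : ω v = ω' v := h1 v (mem_N1.2 (Or.inl rfl))
  have hl : ∀ u ∈ N1 G v, lst F G Bv (fun v => (ω v).1) u = lst F G Bv (fun v => (ω' v).1) u := by
    intro u hu
    refine filter_congr fun y _ => ?_
    refine forall_congr' fun w => forall_congr' fun hw => ?_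
    show ¬ F.Adj y (ω w).1 ↔ ¬ F.Adj y (ω' w).1
    rw [h w (mem_N2.2 ⟨u, hu, mem_N1.2 (Or.inr hw)⟩)]
  refine Prod.ext ?_ ?_
  · show (ω v).1 = (ω' v).1
    rw [hv]
  · refine pos_congr (hl v (mem_N1.2 (Or.inl rfl))) ?_ (fun u hu => hl u (mem_N1.2 (Or.inr hu)))
      fun u hu => ?_
    · show (ω v).2 = (ω' v).2
      rw [hv]
    · show (ω u).2 = (ω' u).2
      rw [h1 u (mem_N1.2 (Or.inr hu))]

/-- the law -/
def pr (N : ℕ) (e : ℝ) (μ : ι → ℝ) (r : V → ι → ℝ) : V → ι × (Fin N → Option ι) → ℝ :=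
  pair (fun _ => μ) (pp N e r)

section law

variable {e : ℝ} {μ : ι → ℝ} {r : V → ι → ℝ}

theorem isLaw_pr (h0 : ∀ a, 0 ≤ μ a) (h1 : ∑ a, μ a = 1) (he : 0 ≤ e) (hr : ∀ v b, 0 ≤ r v b)
    (her : ∀ v, e * ∑ b, r v b ≤ 1) : IsLaw (pr N e μ r) :=
  isLaw_pair (isLaw_const h0 h1) (isLaw_pp he hr her)

theorem gm (h0 : ∀ a, 0 ≤ μ a) (h1 : ∑ a, μ a = 1) (he : 0 ≤ e) (hr : ∀ v b, 0 ≤ r v b)
    (her : ∀ v, e * ∑ b, r v b ≤ 1) (v : V) (a : ι) :
    EE (pr N e μ r) (fun ω => if gr ω v = a then 1 else 0) = μ a := by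
  have h := EE_single (isLaw_pr (N := N) h0 h1 he hr her) v
    (fun x : ι × (Fin N → Option ι) => if x.1 = a then (1 : ℝ) else 0)
  refine Eq.trans h ?_
  rw [Fintype.sum_prod_type]
  have h2 : ∀ i : ι, ∑ f : Fin N → Option ι, pr N e μ r v (i, f) *
      (if i = a then (1 : ℝ) else 0) = if i = a then μ i else 0 := by
    intro i
    rw [← sum_mul]
    have h3 : ∑ f : Fin N → Option ι, pr N e μ r v (i, f) = μ i := by
      show ∑ f : Fin N → Option ι, μ i * pp N e r v f = μ i
      rw [← mul_sum, (isLaw_pp he hr her).sum_one, mul_one]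
    rw [h3]
    split_ifs <;> simp
  rw [sum_congr rfl fun i _ => h2 i, sum_ite_eq']
  simp

end law

/-! ### The lower bound -/

section low

variable {μ : ι → ℝ} {r : V → ι → ℝ}

theorem sum_lst (hrB : ∀ v y, y ∉ Bv v → r v y = 0) (u : V) (g : V → ι) :
    ∑ c ∈ lst F G Bv g u, r u c = Xk F G r u g := by
  unfold Xk lst
  rw [sum_filter, ← sum_subset (subset_univ (Bv u))]
  · refine sum_congr rfl fun c _ => ?_
    split_ifs with h
    · rw [il_eq_one, mul_one]
      intro w hw hF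
      exact h w (mem_nbh.1 hw) hF.symm
    · rw [il_eq_zero, mul_zero]
      intro h'
      exact h fun w hw hF => h' w (mem_nbh.2 hw) hF.symm
  · intro c _ hc
    rw [hrB u c hc, zero_mul]

theorem mem_lst_iff {u : V} {g : V → ι} {y : ι} (hy : y ∈ Bv u) :
    y ∈ lst F G Bv g u ↔ InL F (nbh G u) y g := by
  unfold lst
  rw [mem_filter]
  constructor
  · intro h w hw hF
    exact h.2 w (mem_nbh.1 hw) hF.symm
  · intro h
    exact ⟨hy, fun w hw hF => h w (mem_nbh.2 hw) hF.symm⟩

theorem sum_lst_filter (hrB : ∀ v y, y ∉ Bv v → r v y = 0) (P : ι → Prop) [DecidablePred P]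
    (u : V) (g : V → ι) :
    ∑ c ∈ (lst F G Bv g u).filter P, r u c =
      ∑ c, if P c then r u c * il F (nbh G u) c g else 0 := by
  rw [sum_filter, ← sum_subset (subset_univ (lst F G Bv g u))]
  · refine sum_congr rfl fun c hc => ?_
    have h1 : c ∈ Bv u := (mem_filter.1 hc).1
    split_ifs
    · rw [il_eq_one ((mem_lst_iff h1).1 hc), mul_one]
    · rfl
  · intro c _ hc
    split_ifs
    · by_cases h1 : c ∈ Bv u
      · rw [il_eq_zero fun h => hc ((mem_lst_iff h1).2 h), mul_zero]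
      · rw [hrB u c h1, zero_mul]
    · rfl

/-- the pointwise comparison -/
theorem point {δ : ℝ} (hδ : 0 ≤ δ) (hr : ∀ v b, 0 ≤ r v b)
    (hrB : ∀ v y, y ∉ Bv v → r v y = 0) (v : V) (y : ι) (g : V → ι) :
    r v y * (il F (nbh G v) y g * (2 - Xk F G r v g - ∑ u ∈ nbh G v, Nk F G r u y g /
      (1 + Mk F G r u y g))) - δ * r v y ≤
    if y ∈ lst F G Bv g v then
      r v y * (2 - (∑ c ∈ lst F G Bv g v, r v c) - (∑ u ∈ univ.filter (fun u => G.Adj v u),
        (∑ c ∈ (lst F G Bv g u).filter (fun c => F.Adj y c), r u c) /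
          (1 + ∑ c ∈ (lst F G Bv g u).filter (fun c => ¬ F.Adj y c), r u c)) - δ) else 0 := by
  by_cases hy : y ∈ Bv v
  swap
  · rw [hrB v y hy]
    split_ifs <;> simp
  by_cases h : y ∈ lst F G Bv g v
  · rw [if_pos h, il_eq_one ((mem_lst_iff hy).1 h), sum_lst hrB]
    have h2 : ∀ u, (∑ c ∈ (lst F G Bv g u).filter (fun c => F.Adj y c), r u c) =
        Nk F G r u y g := fun u => by
      refine (sum_lst_filter (F := F) (G := G) hrB (fun c => F.Adj y c) u g).trans ?_
      rfl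
    have h3 : ∀ u, (∑ c ∈ (lst F G Bv g u).filter (fun c => ¬ F.Adj y c), r u c) =
        Mk F G r u y g := fun u => by
      refine (sum_lst_filter (F := F) (G := G) hrB (fun c => ¬ F.Adj y c) u g).trans ?_
      unfold Mk
      refine sum_congr rfl fun c _ => ?_
      by_cases hc : F.Adj y c
      · rw [if_neg (not_not.2 hc), if_pos hc]
      · rw [if_pos hc, if_neg hc]
    simp only [h2, h3]
    unfold nbh
    apply le_of_eq
    ring
  · rw [if_neg h, il_eq_zero fun h' => h ((mem_lst_iff hy).2 h'), zero_mul, mul_zero, zero_sub]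
    exact neg_nonpos.2 (mul_nonneg hδ (hr v y))

theorem low {e δ : ℝ} {C : ℝ} {K : ℕ} (h0 : ∀ a, 0 ≤ μ a) (h1 : ∑ a, μ a = 1) (he : 0 ≤ e)
    (hδ : 0 ≤ δ) (hr : ∀ v b, 0 ≤ r v b) (hrB : ∀ v y, y ∉ Bv v → r v y = 0)
    (her : ∀ v, e * ∑ b, r v b ≤ 1)
    (hmain : ∀ (s : Finset V) (X : ℝ) (N' M : V → ℝ), #s ≤ K → 0 ≤ X → X ≤ C →
      (∀ u ∈ s, 0 ≤ N' u) → (∀ u ∈ s, 0 ≤ M u) → (∀ u ∈ s, N' u + M u ≤ C) →
      2 - X - (∑ u ∈ s, N' u / (1 + M u)) - δ ≤
        ∑ t ∈ range N, e * ((1 - e * X) ^ t * ∏ u ∈ s, RI.surv (e * N' u) (e * (N' u + M u)) t))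
    (hC : ∀ v, ∑ b, r v b ≤ C) (hK : ∀ v, #(univ.filter fun u => G.Adj v u) ≤ K)
    (v : V) (a y : ι) :
    μ a * (LB F G μ r v a y - δ * r v y) ≤
      EE (pr N e μ r) (fun ω => if gr ω v = a ∧ br F G Bv ω v = some y then 1 else 0) := by
  have hal := isLaw_const (V := V) h0 h1
  have h := rule_ge (F := F) (R := N) hal he hr her hmain hC hK (lst F G Bv)
    (fun g : V → ι => if g v = a then (1 : ℝ) else 0)
    (fun g => by split_ifs <;> norm_num) v y
  have e1 : (fun ω : V → ι × (Fin N → Option ι) =>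
      (fun g : V → ι => if g v = a then (1 : ℝ) else 0) (fun v => (ω v).1) *
        pi G F (lst F G Bv fun v => (ω v).1) v y fun v => (ω v).2) =
      fun ω => if gr ω v = a ∧ br F G Bv ω v = some y then 1 else 0 := by
    funext ω
    show (if (ω v).1 = a then (1 : ℝ) else 0) *
      (if pos G F (lst F G Bv fun v => (ω v).1) (fun v => (ω v).2) v = some y then 1 else 0) = _
    unfold gr br
    by_cases ha : (ω v).1 = a
    · by_cases hb : pos G F (lst F G Bv fun v => (ω v).1) (fun v => (ω v).2) v = some y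
      · rw [if_pos ha, if_pos hb, if_pos ⟨ha, hb⟩, mul_one]
      · have hn : ¬ ((ω v).1 = a ∧
            pos G F (lst F G Bv fun v => (ω v).1) (fun v => (ω v).2) v = some y) :=
          fun h' => hb h'.2
        rw [if_neg hb, if_neg hn, mul_zero]
    · have hn : ¬ ((ω v).1 = a ∧
          pos G F (lst F G Bv fun v => (ω v).1) (fun v => (ω v).2) v = some y) :=
        fun h' => ha h'.1
      rw [if_neg ha, if_neg hn, zero_mul]
  rw [e1] at h
  refine le_trans ?_ h
  rw [EE_coord hal v]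
  have e2 : ∀ x : ι, μ x * EE (fun _ : V => μ) (fun g =>
      (if Function.update g v x v = a then (1 : ℝ) else 0) *
        (if y ∈ lst F G Bv (Function.update g v x) v then
      r v y * (2 - (∑ c ∈ lst F G Bv (Function.update g v x) v, r v c) -
        (∑ u ∈ univ.filter (fun u => G.Adj v u),
        (∑ c ∈ (lst F G Bv (Function.update g v x) u).filter (fun c => F.Adj y c), r u c) /
          (1 + ∑ c ∈ (lst F G Bv (Function.update g v x) u).filter (fun c => ¬ F.Adj y c),
            r u c)) - δ) else 0)) =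
      if x = a then μ a * EE (fun _ : V => μ) (fun g =>
        (if y ∈ lst F G Bv (Function.update g v a) v then
      r v y * (2 - (∑ c ∈ lst F G Bv (Function.update g v a) v, r v c) -
        (∑ u ∈ univ.filter (fun u => G.Adj v u),
        (∑ c ∈ (lst F G Bv (Function.update g v a) u).filter (fun c => F.Adj y c), r u c) /
          (1 + ∑ c ∈ (lst F G Bv (Function.update g v a) u).filter (fun c => ¬ F.Adj y c),
            r u c)) - δ) else 0)) else 0 := by
    intro x
    simp only [Function.update_self]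
    split_ifs with hx
    · subst hx
      congr 2
      funext g
      rw [one_mul]
    · have : ∀ f : (V → ι) → ℝ, EE (fun _ : V => μ) (fun g => (0 : ℝ) * f g) = 0 := fun f => by
        have := EE_smul (p := fun _ : V => μ) 0 f
        rw [zero_mul] at this
        exact this
      rw [this, mul_zero]
  rw [sum_congr rfl fun x _ => e2 x, sum_ite_eq', if_pos (mem_univ a)]
  refine mul_le_mul_of_nonneg_left ?_ (h0 a)
  have e3 : LB F G μ r v a y - δ * r v y = EE (fun _ : V => μ) (fun h =>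
      (fun g : V → ι => r v y * (il F (nbh G v) y g *
        (2 - Xk F G r v g - ∑ u ∈ nbh G v, Nk F G r u y g / (1 + Mk F G r u y g))))
          (Function.update h v a) - δ * r v y) := by
    rw [EE_sub, EE_const hal]
    rfl
  rw [e3]
  exact EE_mono hal fun g => point hδ hr hrB v y (Function.update g v a)

end low

end RF

end

end Pool.Agent.T6A
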