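import Pool.Agent.T6A.MathAsm
import Pool.Agent.T6A.RuleFin
import Pool.Agent.T6A.RuleBad
import Pool.Agent.T6A.Flow

/-!
# The scheme with an independent set `J` outside `A` (MP_c6effb_co)

`J` is an `F`-independent set of clusters outside `A`; all vertices of `T` go to `J`, so there are no
conflicts in `T`. `LJ` = the list of `v` in `J` (bad pairs with the neighbours are excluded too),
`q v S y` = the probability that `v` takes `y` if its list is `S`.
-/

set_option autoImplicit false
set_option linter.unusedSectionVars false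

open Finset

namespace Pool.Agent.T6A

noncomputable section

namespace JS

open Classical

variable {V ι : Type} [Fintype V] [Fintype ι]

/-- The list of `v` in `J`. -/
def LJ (X : World ι) (L : Low V ι) (Bd : ι → ι → Prop) (J : Finset ι) (g : V → ι) (v : V) :
    Finset ι :=
  J.filter fun y => y ∈ L.Bv v ∧ ∀ u, L.G.Adj v u → ¬ X.F.Adj y (g u) ∧ ¬ Bd y (g u)

theorem mem_LJ {X : World ι} {L : Low V ι} {Bd : ι → ι → Prop} {J : Finset ι} {g : V → ι} {v : V}
    {y : ι} : y ∈ LJ X L Bd J g v ↔
      y ∈ J ∧ y ∈ L.Bv v ∧ ∀ u, L.G.Adj v u → ¬ X.F.Adj y (g u) ∧ ¬ Bd y (g u) := by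
  unfold LJ
  rw [mem_filter]

/-- The list depends only on the positions of the neighbours. -/
theorem LJ_congr {X : World ι} {L : Low V ι} {Bd : ι → ι → Prop} {J : Finset ι} {g g' : V → ι}
    {v : V} (h : ∀ u, L.G.Adj v u → g u = g' u) : LJ X L Bd J g v = LJ X L Bd J g' v := by
  refine filter_congr fun y _ => and_congr_right fun _ => ?_
  refine forall_congr' fun u => forall_congr' fun hu => ?_
  rw [h u hu]

/-- Kernels. -/
structure Ker (X : World ι) (R : ℝ) (q : V → Finset ι → ι → ℝ) : Prop where
  nonneg : ∀ v S y, 0 ≤ q v S y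
  supp : ∀ v S y, y ∉ S → q v S y = 0
  sum : ∀ v S, ∑ y, q v S y ≤ 1
  cap : ∀ v S y, q v S y ≤ R * X.w y

/-- The law of the choice from the list `S`. -/
def ql (q : Finset ι → ι → ℝ) (S : Finset ι) : Option ι → ℝ
  | none => 1 - ∑ y, q S y
  | some y => q S y

/-- The law of the seeds: independent choices for all lists. -/
def sl (q : V → Finset ι → ι → ℝ) (v : V) (c : Finset ι → Option ι) : ℝ :=
  wt (fun S => ql (q v) S) c

/-- The choice from the list `S`. -/
def ch (S : Finset ι) (c : Finset ι → Option ι) : Option ι :=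
  if ∃ y ∈ S, c S = some y then c S else none

theorem ch_eq {S : Finset ι} {c : Finset ι → Option ι} {y : ι} :
    ch S c = some y ↔ y ∈ S ∧ c S = some y := by
  unfold ch
  constructor
  · intro h
    split_ifs at h with h'
    obtain ⟨z, hz, hc⟩ := h'
    rw [h] at hc
    rw [Option.some.injEq] at hc
    exact ⟨hc ▸ hz, h⟩
  · rintro ⟨h1, h2⟩
    rw [if_pos ⟨y, h1, h2⟩, h2]

section ker

variable {X : World ι} {R : ℝ} {q : V → Finset ι → ι → ℝ}

theorem isLaw_ql (h : Ker X R q) (v : V) : IsLaw (fun S : Finset ι => ql (q v) S) := by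
  refine ⟨fun S o => ?_, fun S => ?_⟩
  · cases o with
    | none => exact sub_nonneg.2 (h.sum v S)
    | some y => exact h.nonneg v S y
  · rw [Fintype.sum_option]
    simp only [ql]
    ring

theorem isLaw_sl (h : Ker X R q) : IsLaw (sl q) :=
  ⟨fun v x => wt_nonneg (isLaw_ql h v) x, fun v => sum_wt (isLaw_ql h v)⟩

/-- The probability of the choice `y`. -/
theorem sum_ch (h : Ker X R q) (v : V) (S : Finset ι) (y : ι) :
    ∑ c, sl q v c * (if ch S c = some y then 1 else 0) = q v S y := by
  have e1 : ∑ c, sl q v c * (if ch S c = some y then (1 : ℝ) else 0) =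
      EE (fun S : Finset ι => ql (q v) S)
        (fun c => (fun o : Option ι => if y ∈ S ∧ o = some y then (1 : ℝ) else 0) (c S)) := by
    unfold EE sl
    refine sum_congr rfl fun c _ => ?_
    congr 1
    by_cases hc : ch S c = some y
    · rw [if_pos hc]
      exact (if_pos (ch_eq.1 hc)).symm
    · rw [if_neg hc]
      exact (if_neg fun h' => hc (ch_eq.2 h')).symm
  refine e1.trans ((EE_single (isLaw_ql h v) S
    (fun o : Option ι => if y ∈ S ∧ o = some y then (1 : ℝ) else 0)).trans ?_)
  by_cases hy : y ∈ S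
  · rw [Fintype.sum_option]
    have e2 : ∀ z : ι, ql (q v) S (some z) * (if y ∈ S ∧ some z = some y then (1 : ℝ) else 0) =
        if z = y then q v S y else 0 := by
      intro z
      by_cases hz : z = y
      · rw [if_pos ⟨hy, by rw [hz]⟩, if_pos hz, mul_one, hz]
        rfl
      · rw [if_neg fun h' => hz (Option.some.inj h'.2), if_neg hz, mul_zero]
    rw [sum_congr rfl fun z _ => e2 z, if_neg (by simp), mul_zero, zero_add, sum_ite_eq']
    simp
  · rw [h.supp v S y hy]
    refine sum_eq_zero fun o _ => ?_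
    rw [if_neg fun h' => hy h'.1, mul_zero]

/-- `v` and `u` choose independently. -/
theorem EE_ch_two (h : Ker X R q) {v u : V} (hvu : v ≠ u) (S S' : Finset ι) (y y' : ι) :
    EE (sl q) (fun c => (if ch S (c v) = some y then (1 : ℝ) else 0) *
      (if ch S' (c u) = some y' then 1 else 0)) = q v S y * q u S' y' := by
  rw [EE_mul (isLaw_sl h)
    ((depOn_coord v).comp fun x : Finset ι → Option ι => if ch S x = some y then (1 : ℝ) else 0)
    ((depOn_coord u).comp fun x : Finset ι → Option ι => if ch S' x = some y' then (1 : ℝ) else 0)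
    (disjoint_singleton.2 hvu),
    EE_single (isLaw_sl h) v
      (fun x : Finset ι → Option ι => if ch S x = some y then (1 : ℝ) else 0),
    EE_single (isLaw_sl h) u
      (fun x : Finset ι → Option ι => if ch S' x = some y' then (1 : ℝ) else 0),
    sum_ch h, sum_ch h]

theorem EE_ch_one (h : Ker X R q) (v : V) (S : Finset ι) (y : ι) :
    EE (sl q) (fun c => (if ch S (c v) = some y then (1 : ℝ) else 0)) = q v S y := by
  rw [EE_single (isLaw_sl h) v
      (fun x : Finset ι → Option ι => if ch S x = some y then (1 : ℝ) else 0), sum_ch h]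

end ker

/-! ### The rule -/

/-- the law -/
def pl (μ : ι → ℝ) (q : V → Finset ι → ι → ℝ) : V → ι × (Finset ι → Option ι) → ℝ :=
  pair (fun _ => μ) (sl q)

/-- the cluster of `A` -/
def gj (ω : V → ι × (Finset ι → Option ι)) (v : V) : ι := (ω v).1

/-- the cluster of `J` -/
def bj (X : World ι) (L : Low V ι) (Bd : ι → ι → Prop) (J : Finset ι)
    (ω : V → ι × (Finset ι → Option ι)) (v : V) : Option ι :=
  ch (LJ X L Bd J (fun u => (ω u).1) v) (ω v).2

section rule

variable {X : World ι} {L : Low V ι} {Bd : ι → ι → Prop} {J : Finset ι} {R : ℝ}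
  {q : V → Finset ι → ι → ℝ} {μ : ι → ℝ}

theorem bj_mem {ω : V → ι × (Finset ι → Option ι)} {v : V} {y : ι}
    (h : bj X L Bd J ω v = some y) : y ∈ LJ X L Bd J (fun u => (ω u).1) v := (ch_eq.1 h).1

theorem isLaw_pl (h : Ker X R q) (h0 : ∀ a, 0 ≤ μ a) (h1 : ∑ a, μ a = 1) :
    IsLaw (pl (V := V) μ q) := isLaw_pair (isLaw_const h0 h1) (isLaw_sl h)

/-- The position of `v`, together with any function of the clusters of `A`. -/
theorem EE_bj (h : Ker X R q) (φ : (V → ι) → ℝ) (v : V) (y : ι) :
    EE (pl μ q) (fun ω => φ (fun u => (ω u).1) * (if bj X L Bd J ω v = some y then 1 else 0)) =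
      EE (fun _ => μ) (fun g => φ g * q v (LJ X L Bd J g v) y) := by
  unfold pl
  rw [EE_loc]
  congr 1
  funext g
  have e : (fun c : V → Finset ι → Option ι => φ (fun u => g u) *
      (if bj X L Bd J (fun v => (g v, c v)) v = some y then (1 : ℝ) else 0)) =
      fun c => φ g * (if ch (LJ X L Bd J g v) (c v) = some y then 1 else 0) := by
    funext c
    rfl
  exact (congrArg _ e).trans ((EE_smul _ _).trans (by rw [EE_ch_one h]))

/-- The list of `v` is independent of the position of `v`. -/
theorem EE_coord_LJ (h0 : ∀ a, 0 ≤ μ a) (h1 : ∑ a, μ a = 1) (ψ : Finset ι → ℝ) (v : V) (a : ι) :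
    EE (fun _ => μ) (fun g => (if g v = a then (1 : ℝ) else 0) * ψ (LJ X L Bd J g v)) =
      μ a * EE (fun _ => μ) (fun g => ψ (LJ X L Bd J g v)) := by
  have hd : DepOn (fun g : V → ι => ψ (LJ X L Bd J g v)) (nbh L.G v) := by
    intro g g' hg
    show ψ (LJ X L Bd J g v) = ψ (LJ X L Bd J g' v)
    rw [LJ_congr fun u hu => hg u (mem_nbh.2 hu)]
  have hv : Disjoint ({v} : Finset V) (nbh L.G v) := by
    rw [disjoint_singleton_left]
    simp [nbh]
  rw [EE_mul (isLaw_const h0 h1)
    ((depOn_coord v).comp fun x : ι => if x = a then (1 : ℝ) else 0) hd hv,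
    EE_single (isLaw_const h0 h1) v (fun x : ι => if x = a then (1 : ℝ) else 0)]
  congr 1
  simp

/-- The conflicts of the positions of two vertices. -/
theorem EE_pair_bad (h : Ker X R q) (h0 : ∀ a, 0 ≤ μ a) (h1 : ∑ a, μ a = 1) {ε : ℝ}
    (hR : 0 ≤ R) (hε : 0 ≤ ε) (hbs : ∀ i, ∑ i' ∈ univ.filter (fun i' => Bd i i'), X.w i' ≤ ε)
    {v u : V} (hvu : v ≠ u) (a : ι) :
    EE (pl μ q) (fun ω => if gj ω v = a ∧ ∃ y, bj X L Bd J ω v = some y ∧
      ∃ y', bj X L Bd J ω u = some y' ∧ Bd y y' then 1 else 0) ≤ μ a * (R * ε) := by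
  unfold pl
  rw [EE_loc]
  have hlaw := isLaw_const (V := V) h0 h1
  have key : ∀ g : V → ι, EE (sl q) (fun c => if gj (fun v => (g v, c v)) v = a ∧
      ∃ y, bj X L Bd J (fun v => (g v, c v)) v = some y ∧
      ∃ y', bj X L Bd J (fun v => (g v, c v)) u = some y' ∧ Bd y y' then (1 : ℝ) else 0) ≤
      (if g v = a then (1 : ℝ) else 0) * (R * ε) := by
    intro g
    obtain ⟨S, hS⟩ : ∃ S, S = LJ X L Bd J g v := ⟨_, rfl⟩
    obtain ⟨S', hS'⟩ : ∃ S', S' = LJ X L Bd J g u := ⟨_, rfl⟩
    have hle : ∀ c : V → Finset ι → Option ι, (if gj (fun v => (g v, c v)) v = a ∧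
        ∃ y, bj X L Bd J (fun v => (g v, c v)) v = some y ∧
        ∃ y', bj X L Bd J (fun v => (g v, c v)) u = some y' ∧ Bd y y' then (1 : ℝ) else 0) ≤
        (if g v = a then (1 : ℝ) else 0) * ∑ y, ∑ y' ∈ univ.filter (fun y' => Bd y y'),
          (if ch S (c v) = some y then (1 : ℝ) else 0) *
            (if ch S' (c u) = some y' then 1 else 0) := by
      intro c
      have hnn : ∀ y y' : ι, 0 ≤ (if ch S (c v) = some y then (1 : ℝ) else 0) *
            (if ch S' (c u) = some y' then 1 else 0) := fun y y' => by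
        split_ifs <;> norm_num
      split_ifs with hc hga hga
      · obtain ⟨-, y, hy, y', hy', hB⟩ := hc
        rw [one_mul]
        have e1 : ch S (c v) = some y := by rw [hS]; exact hy
        have e2 : ch S' (c u) = some y' := by rw [hS']; exact hy'
        have a1 := single_le_sum (f := fun y' => (if ch S (c v) = some y then (1 : ℝ) else 0) *
            (if ch S' (c u) = some y' then 1 else 0)) (fun y' _ => hnn y y')
            (mem_filter.2 ⟨mem_univ y', hB⟩)
        have a2 := single_le_sum (f := fun y => ∑ y' ∈ univ.filter (fun y' => Bd y y'),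
          (if ch S (c v) = some y then (1 : ℝ) else 0) *
            (if ch S' (c u) = some y' then 1 else 0)) (fun y _ => sum_nonneg fun y' _ => hnn y y')
            (mem_univ y)
        refine le_trans ?_ a2
        refine le_trans ?_ a1
        show (1 : ℝ) ≤ (if ch S (c v) = some y then (1 : ℝ) else 0) *
            (if ch S' (c u) = some y' then 1 else 0)
        rw [if_pos e1, if_pos e2, one_mul]
      · exact absurd hc.1 hga
      · rw [one_mul]
        exact sum_nonneg fun y _ => sum_nonneg fun y' _ => hnn y y'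
      · rw [zero_mul]
    refine (EE_mono (isLaw_sl h) hle).trans ?_
    rw [EE_smul]
    refine mul_le_mul_of_nonneg_left ?_ (by split_ifs <;> norm_num)
    rw [EE_sum]
    calc ∑ y, EE (sl q) (fun c => ∑ y' ∈ univ.filter (fun y' => Bd y y'),
          (if ch S (c v) = some y then (1 : ℝ) else 0) *
            (if ch S' (c u) = some y' then 1 else 0))
        ≤ ∑ y, q v S y * (R * ε) := by
          refine sum_le_sum fun y _ => ?_
          rw [EE_sum, sum_congr rfl fun y' _ => EE_ch_two h hvu S S' y y', ← mul_sum]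
          refine mul_le_mul_of_nonneg_left ?_ (h.nonneg v S y)
          calc ∑ y' ∈ univ.filter (fun y' => Bd y y'), q u S' y'
              ≤ ∑ y' ∈ univ.filter (fun y' => Bd y y'), R * X.w y' :=
                sum_le_sum fun y' _ => h.cap u S' y'
            _ = R * ∑ y' ∈ univ.filter (fun y' => Bd y y'), X.w y' := (mul_sum _ _ _).symm
            _ ≤ R * ε := mul_le_mul_of_nonneg_left (hbs y) hR
      _ = (∑ y, q v S y) * (R * ε) := (sum_mul _ _ _).symm
      _ ≤ 1 * (R * ε) := mul_le_mul_of_nonneg_right (h.sum v S) (mul_nonneg hR hε)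
      _ = R * ε := one_mul _
  refine (EE_mono hlaw key).trans (le_of_eq ?_)
  rw [EE_mul_const, EE_single hlaw v (fun x : ι => if x = a then (1 : ℝ) else 0)]
  congr 1
  simp

/-- The marginals of the positions in `A` (no proposals). -/
theorem marg (h : Ker X R q) (h0 : ∀ a, 0 ≤ μ a) (h1 : ∑ a, μ a = 1) :
    BB.Marg (pl (V := V) μ q) (fun x : ι × (Finset ι → Option ι) => x.1) (fun _ _ => False) μ
      (fun _ _ => 0) 0 := by
  refine ⟨isLaw_pl h h0 h1, h0, h1, fun v i => ?_, fun v i y => ?_, fun _ _ => le_rfl, fun _ => ?_⟩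
  · rw [Fintype.sum_prod_type, sum_eq_single i]
    · have e : ∀ c : Finset ι → Option ι, pl μ q v (i, c) * BB.ind ((i, c).1 = i) =
          μ i * sl q v c := fun c => by
        rw [BB.ind_true rfl, mul_one]
        rfl
      rw [sum_congr rfl fun c _ => e c, ← mul_sum, (isLaw_sl h).sum_one, mul_one]
    · intro j _ hj
      refine sum_eq_zero fun f _ => ?_
      rw [BB.ind_false hj, mul_zero]
    · intro h'; exact absurd (mem_univ _) h'
  · refine le_of_eq ?_
    rw [mul_zero]
    refine sum_eq_zero fun x _ => ?_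
    rw [BB.ind_false fun h' => h'.2, mul_zero]
  · simp

end rule

end JS

end

end Pool.Agent.T6A
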