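import Pool.Agent.T6A.JScheme
import Pool.Agent.T6A.JCut

/-!
# The scheme of a good independent set (MP_c6effb_co)

`scheme_of_ker`: kernels with small loads and large total give a scheme. `ker_of_cut`: the cut
condition gives such kernels (fractional Hall theorem). `scheme_of_good`: both, together with the cut
condition of a good `J` (`JCut.lean`).
-/

set_option autoImplicit false
set_option linter.unusedSectionVars false

open Finset

namespace Pool.Agent.T6A

noncomputable section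

namespace JS

open Classical

variable {V ι : Type} [Fintype V] [Fintype ι]

section bad

variable {X : World ι} {L : Low V ι} {Bd : ι → ι → Prop} {J : Finset ι} {R : ℝ}
  {q : V → Finset ι → ι → ℝ} {μ : ι → ℝ}

/-- The vertices which must not be in `T`. -/
theorem bad_ker (h : Ker X R q) (h0 : ∀ a, 0 ≤ μ a) (h1 : ∑ a, μ a = 1) {K : ℕ} {ε ε₁ : ℝ}
    (hR : 0 ≤ R) (hε : 0 ≤ ε) (hε₁ : 0 ≤ ε₁)
    (hbs : ∀ i, ∑ i' ∈ univ.filter (fun i' => Bd i i'), X.w i' ≤ ε)
    (hsymm : ∀ i i', Bd i i' → Bd i' i) (hK : ∀ v, L.d v ≤ K)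
    (hAv : ∀ u, ∑ i, μ i * BB.ind (i ∉ L.Av u) ≤ ε₁)
    (hBd : ∀ i, ∑ i', μ i' * BB.ind (Bd i i') ≤ ε₁) (v : V) (a : ι) :
    EE (pl μ q) (fun ω => if gj ω v = a ∧ ¬ zev L Bd gj ω v ∧
      badE L Bd gj (bj X L Bd J) ω v then 1 else 0) ≤
      μ a * (K * (ε₁ + K * ε₁) + K * (R * ε)) := by
  have hM := marg (V := V) h h0 h1
  have hlaw := isLaw_pl (V := V) h h0 h1
  have hK' : ∀ v, #(nbh L.G v) ≤ K := hK
  -- without positions outside `A`
  have hb1 : EE (pl μ q) (fun ω => if gj ω v = a ∧ ¬ zev L Bd gj ω v ∧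
      badE L Bd gj (fun _ _ => none) ω v then 1 else 0) ≤ μ a * (K * (ε₁ + K * ε₁)) := by
    have h2 := BB.bad_le hM hsymm hK hAv hBd (ε₂ := 0) (fun _ _ => by simp) hε₁ le_rfl le_rfl
      (fun _ _ => none) (fun _ _ _ hc => by simp at hc) v a
      (fun ω => if gj ω v = a ∧ ¬ zev L Bd gj ω v ∧
        badE L Bd gj (fun _ _ => none) ω v then 1 else 0)
      (fun ω => by
        show (if gj ω v = a ∧ ¬ zev L Bd gj ω v ∧
          badE L Bd gj (fun _ _ => none) ω v then (1 : ℝ) else 0) ≤ 1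
        split_ifs <;> norm_num)
      (fun ω hω => le_of_eq (if_neg hω))
    refine h2.trans (le_of_eq ?_)
    ring
  have hpt : ∀ ω : V → ι × (Finset ι → Option ι), (if gj ω v = a ∧ ¬ zev L Bd gj ω v ∧
      badE L Bd gj (bj X L Bd J) ω v then (1 : ℝ) else 0) ≤
      (if gj ω v = a ∧ ¬ zev L Bd gj ω v ∧
        badE L Bd gj (fun _ _ => none) ω v then 1 else 0) +
      ∑ u ∈ nbh L.G v, (if gj ω v = a ∧ ∃ y, bj X L Bd J ω v = some y ∧
        ∃ y', bj X L Bd J ω u = some y' ∧ Bd y y' then 1 else 0) := by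
    intro ω
    have hs : 0 ≤ ∑ u ∈ nbh L.G v, (if gj ω v = a ∧ ∃ y, bj X L Bd J ω v = some y ∧
        ∃ y', bj X L Bd J ω u = some y' ∧ Bd y y' then (1 : ℝ) else 0) :=
      sum_nonneg fun u _ => by split_ifs <;> norm_num
    have hf : 0 ≤ (if gj ω v = a ∧ ¬ zev L Bd gj ω v ∧
        badE L Bd gj (fun _ _ => none) ω v then (1 : ℝ) else 0) := by
      split_ifs <;> norm_num
    by_cases hc : gj ω v = a ∧ ¬ zev L Bd gj ω v ∧ badE L Bd gj (bj X L Bd J) ω v
    · rw [if_pos hc]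
      obtain ⟨ha, hz, hb⟩ := hc
      rcases hb with hb | hb | ⟨y, hy, u, hu, hb⟩
      · exact absurd hb hz
      · rw [if_pos ⟨ha, hz, Or.inr (Or.inl hb)⟩]
        linarith
      · rcases hb with hb | ⟨y', hy', hb⟩
        · exact absurd hb ((mem_LJ.1 (bj_mem hy)).2.2 u hu).2
        · have h3 := single_le_sum (f := fun u => if gj ω v = a ∧ ∃ y, bj X L Bd J ω v = some y ∧
              ∃ y', bj X L Bd J ω u = some y' ∧ Bd y y' then (1 : ℝ) else 0)
            (fun u _ => by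
              show (0 : ℝ) ≤ if gj ω v = a ∧ ∃ y, bj X L Bd J ω v = some y ∧
                ∃ y', bj X L Bd J ω u = some y' ∧ Bd y y' then (1 : ℝ) else 0
              split_ifs <;> norm_num) (mem_nbh.2 hu)
          have h4 : (fun u => if gj ω v = a ∧ ∃ y, bj X L Bd J ω v = some y ∧
              ∃ y', bj X L Bd J ω u = some y' ∧ Bd y y' then (1 : ℝ) else 0) u = 1 :=
            if_pos ⟨ha, y, hy, y', hy', hb⟩
          linarith
    · rw [if_neg hc]
      linarith
  refine (EE_mono hlaw hpt).trans ?_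
  rw [EE_add, EE_sum, mul_add]
  refine add_le_add hb1 ?_
  have h5 : ∀ u ∈ nbh L.G v, EE (pl μ q) (fun ω => if gj ω v = a ∧
      ∃ y, bj X L Bd J ω v = some y ∧ ∃ y', bj X L Bd J ω u = some y' ∧ Bd y y'
      then (1 : ℝ) else 0) ≤ μ a * (R * ε) := by
    intro u hu
    have hvu : v ≠ u := (mem_nbh.1 hu).ne
    exact EE_pair_bad h h0 h1 hR hε hbs hvu a
  refine (sum_le_sum h5).trans ?_
  rw [sum_const, nsmul_eq_mul]
  have h6 : (#(nbh L.G v) : ℝ) ≤ K := by exact_mod_cast hK' v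
  have h7 : 0 ≤ μ a * (R * ε) := mul_nonneg (h0 a) (mul_nonneg hR hε)
  calc (#(nbh L.G v) : ℝ) * (μ a * (R * ε)) ≤ K * (μ a * (R * ε)) :=
        mul_le_mul_of_nonneg_right h6 h7
    _ = _ := by ring

/-- The vertices which are placed at the very end. -/
theorem zev_ker (h : Ker X R q) (h0 : ∀ a, 0 ≤ μ a) (h1 : ∑ a, μ a = 1) {K : ℕ} {ε₁ : ℝ}
    (hε₁ : 0 ≤ ε₁) (hK : ∀ v, L.d v ≤ K)
    (hAv : ∀ u, ∑ i, μ i * BB.ind (i ∉ L.Av u) ≤ ε₁)
    (hBd : ∀ i, ∑ i', μ i' * BB.ind (Bd i i') ≤ ε₁) (v : V) :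
    EE (pl μ q) (fun ω => if zev L Bd gj ω v then 1 else 0) ≤ ε₁ + K * ε₁ := by
  refine BB.zev_le (marg (V := V) h h0 h1) hK hAv hBd hε₁ v _ (fun ω => ?_) (fun ω hω => ?_)
  · split_ifs <;> norm_num
  · exact le_of_eq (if_neg hω)

/-- locality -/
theorem loc_ker (v : V) :
    DepOn (fun ω : V → ι × (Finset ι → Option ι) => (gj ω v, bj X L Bd J ω v)) (RF.N2 L.G v) := by
  intro ω ω' hω
  have hself : ∀ u : V, u ∈ RF.N1 L.G u := fun u => RF.mem_N1.2 (Or.inl rfl)
  have hv : ω v = ω' v := hω v (RF.mem_N2.2 ⟨v, hself v, hself v⟩)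
  have hl : LJ X L Bd J (fun u => (ω u).1) v = LJ X L Bd J (fun u => (ω' u).1) v := by
    refine LJ_congr fun u hu => ?_
    show (ω u).1 = (ω' u).1
    rw [hω u (RF.mem_N2.2 ⟨v, hself v, RF.mem_N1.2 (Or.inr hu)⟩)]
  refine Prod.ext ?_ ?_
  · show (ω v).1 = (ω' v).1
    rw [hv]
  · show ch (LJ X L Bd J (fun u => (ω u).1) v) (ω v).2 =
      ch (LJ X L Bd J (fun u => (ω' u).1) v) (ω' v).2
    rw [hv, hl]

/-- The probability of `g v = a`, `b v = some y`. -/
theorem EE_gb (h : Ker X R q) (h0 : ∀ a, 0 ≤ μ a) (h1 : ∑ a, μ a = 1) (v : V) (a y : ι) :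
    EE (pl μ q) (fun ω => if gj ω v = a ∧ bj X L Bd J ω v = some y then 1 else 0) =
      μ a * EE (fun _ => μ) (fun g => q v (LJ X L Bd J g v) y) := by
  have h2 := EE_bj (X := X) (L := L) (Bd := Bd) (J := J) (μ := μ) h
    (fun g : V → ι => if g v = a then (1 : ℝ) else 0) v y
  rw [← EE_coord_LJ (X := X) (L := L) (Bd := Bd) (J := J) h0 h1 (fun S => q v S y) v a, ← h2]
  congr 1
  funext ω
  by_cases ha : gj ω v = a
  · by_cases hb : bj X L Bd J ω v = some y
    · rw [if_pos ⟨ha, hb⟩, if_pos hb, mul_one]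
      exact (if_pos ha).symm
    · rw [if_neg fun h' => hb h'.2, if_neg hb, mul_zero]
  · rw [if_neg fun h' => ha h'.1]
    have : (if (ω v).1 = a then (1 : ℝ) else 0) = 0 := if_neg ha
    rw [this, zero_mul]

/-- The law of the cluster of `A`. -/
theorem EE_g (h : Ker X R q) (h0 : ∀ a, 0 ≤ μ a) (h1 : ∑ a, μ a = 1) (v : V) (a : ι) :
    EE (pl μ q) (fun ω => if gj ω v = a then (1 : ℝ) else 0) = μ a := by
  have hM := marg (V := V) h h0 h1
  have h2 := EE_single (isLaw_pl (V := V) h h0 h1) v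
    (fun x : ι × (Finset ι → Option ι) => if x.1 = a then (1 : ℝ) else 0)
  refine Eq.trans h2 ?_
  have h3 := BB.sum_pi hM v (fun i => if i = a then (1 : ℝ) else 0)
  refine Eq.trans h3 ?_
  simp

end bad

/-- **Kernels give a scheme.** -/
theorem scheme_of_ker {X : World ι} {L : Low V ι} {Bd : ι → ι → Prop} {J : Finset ι}
    {R k e ζ η δ ε ε₁ : ℝ} {K : ℕ} {q : V → Finset ι → ι → ℝ} (hq : Ker X R q) (hR : 0 ≤ R)
    (hk : 0 < k) (hcV : (Fintype.card V : ℝ) ≤ k) (hsA : 0 < X.sA)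
    (hJA : ∀ y ∈ J, y ∉ X.A) (hJF : ∀ y ∈ J, ∀ y' ∈ J, ¬ X.F.Adj y y')
    (hK : ∀ v, L.d v ≤ K) (hsymm : ∀ i i', Bd i i' → Bd i' i) (hε : 0 ≤ ε) (hε₁ : 0 ≤ ε₁)
    (hbs : ∀ i, ∑ i' ∈ univ.filter (fun i' => Bd i i'), X.w i' ≤ ε)
    (hAv : ∀ u, ∑ i, X.mu i * BB.ind (i ∉ L.Av u) ≤ ε₁)
    (hBd : ∀ i, ∑ i', X.mu i' * BB.ind (Bd i i') ≤ ε₁)
    (hδ : K * (ε₁ + K * ε₁) + K * (R * ε) ≤ δ) (hδη : δ ≤ η) (hζ : ε₁ + K * ε₁ ≤ ζ)
    (hload : ∀ y, ∑ v, EE (fun _ => X.mu) (fun g => q v (LJ X L Bd J g v) y) ≤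
      (1 - e) * X.w y * k)
    (htot : (Fintype.card V : ℝ) -
      ∑ v, ∑ y, EE (fun _ => X.mu) (fun g => q v (LJ X L Bd J g v) y) ≤
      ((1 - e) * X.sA - η) * k) :
    Scheme X L Bd k e ζ ((K + 1) * (K + 1) * ((K + 1) * (K + 1))) (pl X.mu q) gj
      (bj X L Bd J) (RF.N2 L.G) (fun a y => (1 / k) * ∑ v, EE (pl X.mu q) (fun ω =>
        if gj ω v = a ∧ bj X L Bd J ω v = some y ∧ ¬ badE L Bd gj (bj X L Bd J) ω v
        then 1 else 0)) := by
  have h0 := X.mu_nonneg
  have h1 := X.mu_sum hsA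
  have hlaw := isLaw_pl (V := V) hq h0 h1
  have hk1 : ∀ x : ℝ, (1 / k) * x * k = x := fun x => by field_simp
  have hnn : ∀ v a y, 0 ≤ EE (pl X.mu q) (fun ω =>
      if gj ω v = a ∧ bj X L Bd J ω v = some y ∧ ¬ badE L Bd gj (bj X L Bd J) ω v
      then 1 else 0) := fun v a y => EE_nonneg hlaw fun ω => by split_ifs <;> norm_num
  refine ⟨hlaw, loc_ker, fun v => RF.ov hK v, ?_, ?_, ?_, ?_, ?_, ?_, ?_, ?_, ?_⟩
  · intro ω v y hy
    exact (mem_LJ.1 (bj_mem hy)).2.1
  · intro ω v y hy u hu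
    exact ((mem_LJ.1 (bj_mem hy)).2.2 u hu).1
  · intro ω v y u y' hy hy' _
    exact hJF y (mem_LJ.1 (bj_mem hy)).1 y' (mem_LJ.1 (bj_mem hy')).1
  · intro a y
    exact mul_nonneg (by positivity) (sum_nonneg fun v _ => hnn v a y)
  · intro a y hy
    have h2 : ∀ v, EE (pl X.mu q) (fun ω =>
        if gj ω v = a ∧ bj X L Bd J ω v = some y ∧ ¬ badE L Bd gj (bj X L Bd J) ω v
        then (1 : ℝ) else 0) = 0 := by
      intro v
      have h3 : (fun ω : V → ι × (Finset ι → Option ι) =>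
          if gj ω v = a ∧ bj X L Bd J ω v = some y ∧ ¬ badE L Bd gj (bj X L Bd J) ω v
          then (1 : ℝ) else 0) = fun _ => 0 := by
        funext ω
        refine if_neg fun h' => ?_
        exact hJA y (mem_LJ.1 (bj_mem h'.2.1)).1 hy
      rw [h3, EE_const hlaw]
    simp only [h2, sum_const_zero, mul_zero]
  · intro a _ y
    exact le_of_eq (hk1 _)
  · intro a ha
    have e1 : ∑ y, (1 / k) * (∑ v, EE (pl X.mu q) (fun ω =>
        if gj ω v = a ∧ bj X L Bd J ω v = some y ∧ ¬ badE L Bd gj (bj X L Bd J) ω v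
        then (1 : ℝ) else 0)) * k = ∑ v, ∑ y, EE (pl X.mu q) (fun ω =>
        if gj ω v = a ∧ bj X L Bd J ω v = some y ∧ ¬ badE L Bd gj (bj X L Bd J) ω v
        then (1 : ℝ) else 0) := by
      rw [sum_comm]
      exact sum_congr rfl fun y _ => hk1 _
    rw [e1, ← sum_sub_distrib]
    have hv : ∀ v, EE (pl X.mu q) (fun ω => if gj ω v = a ∧ ¬ zev L Bd gj ω v
        then (1 : ℝ) else 0) - ∑ y, EE (pl X.mu q) (fun ω =>
        if gj ω v = a ∧ bj X L Bd J ω v = some y ∧ ¬ badE L Bd gj (bj X L Bd J) ω v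
        then (1 : ℝ) else 0) ≤
        X.mu a * (1 - ∑ y, EE (fun _ => X.mu) (fun g => q v (LJ X L Bd J g v) y)) +
          X.mu a * δ := by
      intro v
      have h3 : (∑ y, EE (pl X.mu q) (fun ω =>
          if gj ω v = a ∧ bj X L Bd J ω v = some y then (1 : ℝ) else 0)) -
          (∑ y, EE (pl X.mu q) (fun ω => if gj ω v = a ∧ bj X L Bd J ω v = some y ∧
            ¬ badE L Bd gj (bj X L Bd J) ω v then (1 : ℝ) else 0)) ≤
          EE (pl X.mu q) (fun ω => if gj ω v = a then (1 : ℝ) else 0) -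
            EE (pl X.mu q) (fun ω => if gj ω v = a ∧ ¬ zev L Bd gj ω v then (1 : ℝ) else 0) +
            EE (pl X.mu q) (fun ω => if gj ω v = a ∧ ¬ zev L Bd gj ω v ∧
              badE L Bd gj (bj X L Bd J) ω v then (1 : ℝ) else 0) := by
        rw [← EE_sum, ← EE_sum, ← EE_sub, ← EE_sub, ← EE_add]
        refine EE_mono hlaw fun ω => ?_
        rw [← sum_sub_distrib]
        by_cases hg : gj ω v = a
        · have hzb : zev L Bd gj ω v → badE L Bd gj (bj X L Bd J) ω v := Or.inl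
          rcases hb : bj X L Bd J ω v with _ | y₀
          · have : ∀ y : ι, ((if gj ω v = a ∧ bj X L Bd J ω v = some y then (1 : ℝ) else 0) -
                if gj ω v = a ∧ bj X L Bd J ω v = some y ∧
                  ¬ badE L Bd gj (bj X L Bd J) ω v then 1 else 0) = 0 := by
              intro y
              simp [hb]
            simp only [hb] at this
            rw [sum_congr rfl fun y _ => this y, sum_const_zero]
            by_cases hz : zev L Bd gj ω v
            · simp [hg, hz]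
            · by_cases hbd : badE L Bd gj (bj X L Bd J) ω v <;> simp [hg, hz, hbd]
          · rw [sum_eq_single y₀]
            · by_cases hbd : badE L Bd gj (bj X L Bd J) ω v
              · by_cases hz : zev L Bd gj ω v <;> simp [hg, hz, hbd]
              · have hz : ¬ zev L Bd gj ω v := fun h => hbd (hzb h)
                simp [hg, hz, hbd]
            · intro y _ hy
              have : ¬ (some y₀ = some y) := fun h => hy (Option.some.inj h).symm
              simp [this]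
            · intro h
              exact absurd (mem_univ _) h
        · simp [hg]
      have h4 := EE_g (V := V) hq h0 h1 v a
      have h5 : EE (pl X.mu q) (fun ω => if gj ω v = a ∧ ¬ zev L Bd gj ω v ∧
          badE L Bd gj (bj X L Bd J) ω v then (1 : ℝ) else 0) ≤ X.mu a * δ :=
        (bad_ker hq h0 h1 hR hε hε₁ hbs hsymm hK hAv hBd v a).trans
          (mul_le_mul_of_nonneg_left hδ (h0 a))
      have h6 : ∑ y, EE (pl X.mu q) (fun ω =>
          if gj ω v = a ∧ bj X L Bd J ω v = some y then (1 : ℝ) else 0) =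
          X.mu a * ∑ y, EE (fun _ => X.mu) (fun g => q v (LJ X L Bd J g v) y) := by
        rw [mul_sum]
        exact sum_congr rfl fun y _ => EE_gb hq h0 h1 v a y
      rw [h4, h6] at h3
      have h7 : X.mu a * (1 - ∑ y, EE (fun _ => X.mu) (fun g => q v (LJ X L Bd J g v) y)) =
          X.mu a - X.mu a * ∑ y, EE (fun _ => X.mu) (fun g => q v (LJ X L Bd J g v) y) := by
        ring
      rw [h7]
      linarith
    refine (sum_le_sum fun v _ => hv v).trans ?_
    rw [sum_add_distrib, ← mul_sum, sum_sub_distrib]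
    simp only [sum_const, card_univ, nsmul_eq_mul, mul_one]
    have hμa := h0 a
    have h3 : (Fintype.card V : ℝ) * (X.mu a * δ) ≤ X.mu a * (η * k) := by
      have hδ0 : 0 ≤ δ := by
        refine le_trans ?_ hδ
        positivity
      have h4 : (Fintype.card V : ℝ) * δ ≤ k * η := mul_le_mul hcV hδη hδ0 hk.le
      calc (Fintype.card V : ℝ) * (X.mu a * δ) = X.mu a * ((Fintype.card V : ℝ) * δ) := by ring
        _ ≤ X.mu a * (k * η) := mul_le_mul_of_nonneg_left h4 hμa
        _ = _ := by ring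
    have h5 := mul_le_mul_of_nonneg_left htot hμa
    have h6 : X.mu a * X.sA = X.w a := by
      rw [X.mu_mem ha]; exact div_mul_cancel₀ _ hsA.ne'
    calc _ ≤ X.mu a * (((1 - e) * X.sA - η) * k) + X.mu a * (η * k) := add_le_add h5 h3
      _ = (1 - e) * (X.mu a * X.sA) * k := by ring
      _ = _ := by rw [h6]
  · intro y _
    have h2 : ∀ v, ∑ a ∈ X.A, EE (pl X.mu q) (fun ω =>
        if gj ω v = a ∧ bj X L Bd J ω v = some y ∧ ¬ badE L Bd gj (bj X L Bd J) ω v
        then (1 : ℝ) else 0) ≤ EE (fun _ => X.mu) (fun g => q v (LJ X L Bd J g v) y) := by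
      intro v
      have h3 : ∀ a ∈ X.A, EE (pl X.mu q) (fun ω =>
          if gj ω v = a ∧ bj X L Bd J ω v = some y ∧ ¬ badE L Bd gj (bj X L Bd J) ω v
          then (1 : ℝ) else 0) ≤
          X.mu a * EE (fun _ => X.mu) (fun g => q v (LJ X L Bd J g v) y) := by
        intro a _
        rw [← EE_gb hq h0 h1 v a y]
        refine EE_mono hlaw fun ω => ?_
        by_cases hc : gj ω v = a ∧ bj X L Bd J ω v = some y ∧
            ¬ badE L Bd gj (bj X L Bd J) ω v
        · rw [if_pos hc, if_pos ⟨hc.1, hc.2.1⟩]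
        · rw [if_neg hc]
          split_ifs <;> norm_num
      refine (sum_le_sum h3).trans ?_
      rw [← sum_mul]
      have h4 : ∑ a ∈ X.A, X.mu a ≤ 1 := by
        rw [← h1]
        exact sum_le_sum_of_subset_of_nonneg (subset_univ _) fun a _ _ => h0 a
      have h5 : 0 ≤ EE (fun _ => X.mu) (fun g : V → ι => q v (LJ X L Bd J g v) y) :=
        EE_nonneg (isLaw_const h0 h1) fun g => hq.nonneg _ _ _
      calc _ ≤ 1 * EE (fun _ => X.mu) (fun g : V → ι => q v (LJ X L Bd J g v) y) :=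
            mul_le_mul_of_nonneg_right h4 h5
        _ = _ := one_mul _
    rw [← mul_sum, sum_comm]
    have h3 := (sum_le_sum fun v (_ : v ∈ (univ : Finset V)) => h2 v).trans (hload y)
    calc (1 / k) * ∑ v, ∑ a ∈ X.A, EE (pl X.mu q) (fun ω =>
          if gj ω v = a ∧ bj X L Bd J ω v = some y ∧ ¬ badE L Bd gj (bj X L Bd J) ω v
          then (1 : ℝ) else 0) ≤ (1 / k) * ((1 - e) * X.w y * k) :=
          mul_le_mul_of_nonneg_left h3 (by positivity)
      _ = (1 - e) * X.w y := by field_simp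
  · have h2 := sum_le_sum fun v (_ : v ∈ (univ : Finset V)) =>
      (zev_ker hq h0 h1 hε₁ hK hAv hBd v).trans hζ
    refine h2.trans ?_
    rw [sum_const, card_univ, nsmul_eq_mul]
    have hζ0 : 0 ≤ ζ := le_trans (by positivity) hζ
    calc (Fintype.card V : ℝ) * ζ ≤ k * ζ := mul_le_mul_of_nonneg_right hcV hζ0
      _ = _ := mul_comm _ _

/-- The expectation of a function of the list. -/
theorem EE_LJ {X : World ι} {L : Low V ι} {Bd : ι → ι → Prop} {J : Finset ι} {μ : ι → ℝ}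
    (ψ : Finset ι → ℝ) (v : V) :
    EE (fun _ => μ) (fun g => ψ (LJ X L Bd J g v)) =
      ∑ S : Finset ι, EE (fun _ => μ) (fun g : V → ι => if LJ X L Bd J g v = S then 1 else 0) *
        ψ S := by
  have h : ∀ g : V → ι, ψ (LJ X L Bd J g v) =
      ∑ S : Finset ι, (if LJ X L Bd J g v = S then (1 : ℝ) else 0) * ψ S := by
    intro g
    rw [sum_eq_single (LJ X L Bd J g v)]
    · rw [if_pos rfl, one_mul]
    · intro S _ hS
      rw [if_neg fun h' => hS h'.symm, zero_mul]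
    · intro h'; exact absurd (mem_univ _) h'
  simp only [h]
  rw [EE_sum]
  exact sum_congr rfl fun S _ => EE_mul_const _ _

/-- **The cut condition gives kernels.** -/
theorem ker_of_cut {X : World ι} {L : Low V ι} {Bd : ι → ι → Prop} {J : Finset ι} {μ : ι → ℝ}
    (h0 : ∀ a, 0 ≤ μ a) (h1 : ∑ a, μ a = 1) {R k e t : ℝ} (hR : 0 ≤ R) (hk : 0 ≤ k) (he : e ≤ 1)
    (hcut : ∀ P ⊆ J, t ≤ ∑ v, EE (fun _ => μ)
      (fun g : V → ι => min 1 (R * ∑ y ∈ LJ X L Bd J g v ∩ P, X.w y)) +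
        ∑ y ∈ J \ P, (1 - e) * X.w y * k) :
    ∃ q : V → Finset ι → ι → ℝ, Ker X R q ∧
      (∀ y, ∑ v, EE (fun _ => μ) (fun g => q v (LJ X L Bd J g v) y) ≤ (1 - e) * X.w y * k) ∧
      t ≤ ∑ v, ∑ y, EE (fun _ => μ) (fun g => q v (LJ X L Bd J g v) y) := by
  have hlaw := isLaw_const (V := V) h0 h1
  set ps : V → Finset ι → ℝ := fun v S =>
    EE (fun _ => μ) (fun g : V → ι => if LJ X L Bd J g v = S then 1 else 0) with hps
  have hps0 : ∀ v S, 0 ≤ ps v S := fun v S =>
    EE_nonneg hlaw fun g => by split_ifs <;> norm_num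
  have hw0 : ∀ y, 0 ≤ (1 - e) * X.w y * k := fun y =>
    mul_nonneg (mul_nonneg (by linarith) (X.pos y).le) hk
  obtain ⟨f, hf, ht⟩ := exists_flow_cap (I := V × Finset ι) (J := ι)
    (fun i y => if y ∈ i.2 then ps i.1 i.2 * (R * X.w y) else 0) (fun i => ps i.1 i.2)
    (fun y => if y ∈ J then (1 - e) * X.w y * k else 0)
    (fun i y => by
      split_ifs
      · exact mul_nonneg (hps0 _ _) (mul_nonneg hR (X.pos y).le)
      · exact le_rfl)
    (fun i => hps0 _ _)
    (fun y => by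
      split_ifs
      · exact hw0 y
      · exact le_rfl) t (by
      intro P
      refine (hcut (J ∩ P) inter_subset_left).trans (le_of_eq ?_)
      congr 1
      · rw [Fintype.sum_prod_type]
        refine sum_congr rfl fun v _ => ?_
        have e1 : (fun g : V → ι => min 1 (R * ∑ y ∈ LJ X L Bd J g v ∩ (J ∩ P), X.w y)) =
            fun g => (fun S : Finset ι => min 1 (R * ∑ y ∈ S ∩ P, X.w y)) (LJ X L Bd J g v) := by
          funext g
          show min 1 (R * ∑ y ∈ LJ X L Bd J g v ∩ (J ∩ P), X.w y) =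
            min 1 (R * ∑ y ∈ LJ X L Bd J g v ∩ P, X.w y)
          have e2 : LJ X L Bd J g v ∩ (J ∩ P) = LJ X L Bd J g v ∩ P := by
            ext y
            simp only [mem_inter]
            constructor
            · rintro ⟨h1, -, h2⟩
              exact ⟨h1, h2⟩
            · rintro ⟨h1, h2⟩
              exact ⟨h1, (mem_LJ.1 h1).1, h2⟩
          rw [e2]
        rw [e1, EE_LJ (fun S : Finset ι => min 1 (R * ∑ y ∈ S ∩ P, X.w y)) v]
        refine sum_congr rfl fun S _ => ?_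
        show ps v S * min 1 (R * ∑ y ∈ S ∩ P, X.w y) =
          min (ps v S) (∑ y ∈ P, if y ∈ S then ps v S * (R * X.w y) else 0)
        rw [mul_min_of_nonneg _ _ (hps0 v S), mul_one]
        congr 1
        rw [← sum_filter, mul_sum, mul_sum]
        refine sum_congr ?_ fun _ _ => rfl
        ext y
        simp only [mem_inter, mem_filter]
        tauto
      · rw [← sum_filter]
        refine sum_congr ?_ fun _ _ => rfl
        ext y
        simp only [mem_sdiff, mem_inter, mem_filter, mem_univ, true_and]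
        tauto)
  have hf0 : ∀ v S y, ps v S = 0 → f (v, S) y = 0 := by
    intro v S y h
    refine le_antisymm ?_ (hf.nonneg _ _)
    have h2 := hf.row (v, S)
    have h3 := single_le_sum (f := fun y => f (v, S) y) (fun y _ => hf.nonneg (v, S) y)
      (mem_univ y)
    exact h3.trans (h2.trans (le_of_eq h))
  have hfS : ∀ v S y, y ∉ S → f (v, S) y = 0 := by
    intro v S y h
    refine le_antisymm ?_ (hf.nonneg _ _)
    have h2 := hf.cap (v, S) y
    rwa [if_neg h] at h2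
  have hE : ∀ v y, EE (fun _ => μ) (fun g : V → ι => f (v, LJ X L Bd J g v) y /
      ps v (LJ X L Bd J g v)) = ∑ S : Finset ι, f (v, S) y := by
    intro v y
    rw [EE_LJ (fun S : Finset ι => f (v, S) y / ps v S) v]
    refine sum_congr rfl fun S _ => ?_
    show ps v S * (f (v, S) y / ps v S) = f (v, S) y
    by_cases h : ps v S = 0
    · rw [hf0 v S y h, zero_div, mul_zero]
    · field_simp
  refine ⟨fun v S y => f (v, S) y / ps v S, ⟨?_, ?_, ?_, ?_⟩, ?_, ?_⟩
  · intro v S y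
    exact div_nonneg (hf.nonneg _ _) (hps0 _ _)
  · intro v S y hy
    show f (v, S) y / ps v S = 0
    rw [hfS v S y hy, zero_div]
  · intro v S
    show ∑ y, f (v, S) y / ps v S ≤ 1
    rw [← sum_div]
    exact div_le_one_of_le₀ (hf.row (v, S)) (hps0 v S)
  · intro v S y
    show f (v, S) y / ps v S ≤ R * X.w y
    have hRw : 0 ≤ R * X.w y := mul_nonneg hR (X.pos y).le
    rcases eq_or_lt_of_le (hps0 v S) with h | h
    · rw [← h, div_zero]
      exact hRw
    · rw [div_le_iff₀ h]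
      have h2 := hf.cap (v, S) y
      by_cases hy : y ∈ S
      · rw [if_pos hy] at h2
        linarith
      · rw [hfS v S y hy]
        exact mul_nonneg hRw h.le
  · intro y
    show ∑ v, EE (fun _ => μ) (fun g : V → ι => f (v, LJ X L Bd J g v) y /
      ps v (LJ X L Bd J g v)) ≤ _
    rw [sum_congr rfl fun v _ => hE v y]
    have h2 := hf.col y
    rw [Fintype.sum_prod_type] at h2
    refine h2.trans ?_
    split_ifs
    · exact le_rfl
    · exact hw0 y
  · show t ≤ ∑ v, ∑ y, EE (fun _ => μ) (fun g : V → ι => f (v, LJ X L Bd J g v) y /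
      ps v (LJ X L Bd J g v))
    refine ht.trans (le_of_eq ?_)
    rw [Fintype.sum_prod_type]
    refine sum_congr rfl fun v _ => ?_
    rw [sum_comm]
    exact sum_congr rfl fun y _ => (hE v y).symm

/-- The two forms of the list. -/
theorem lj_eq {X : World ι} {L : Low V ι} {Bd : ι → ι → Prop} {J : Finset ι} (g : V → ι) (v : V) :
    lj X.F L.G Bd L.Bv J v g = LJ X L Bd J g v := by
  ext y
  rw [mem_lj, mem_LJ]

end JS

open Classical in
/-- **A good `J` gives a scheme.** `J` is an `F`-independent set of clusters outside `A`; its capacity is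
at least the wanted number `card V - (1 - e) sA k` of vertices outside `A`, and for each `y ∈ J` the
expected number of lists containing `y` plus the capacity of the clusters of `J` with smaller `nb` is at
least the wanted number (slack `3 η k`). -/
theorem scheme_of_good (K : ℕ) {η ζ : ℝ} (hη : 0 < η) (hζ : 0 < ζ) : ∃ ε : ℝ, 0 < ε ∧
    ∀ (V ι : Type) [Fintype V] [Fintype ι] (X : World ι) (L : Low V ι) (Bd : ι → ι → Prop)
      (k Q : ℝ) (C : ℕ) (e : ℝ), 0 ≤ e → e ≤ 1 / 8 → WorldOK X L Bd k Q C K e ε →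
      ∀ J : Finset ι, (∀ y ∈ J, y ∉ X.A) → (∀ y ∈ J, ∀ y' ∈ J, ¬ X.F.Adj y y') →
      (Fintype.card V : ℝ) - ((1 - e) * X.sA - 3 * η) * k ≤ (1 - e) * (∑ y ∈ J, X.w y) * k →
      (∀ y ∈ J, (Fintype.card V : ℝ) - ((1 - e) * X.sA - 3 * η) * k ≤
        ∑ v, (if y ∈ L.Bv v then (1 - nb X.F X.mu y) ^ L.d v else 0) +
          (1 - e) * (∑ y' ∈ J with nb X.F X.mu y' < nb X.F X.mu y, X.w y') * k) →
      ∃ (Om : Type) (_ : Fintype Om) (p : V → Om → ℝ) (g : (V → Om) → V → ι)
        (b : (V → Om) → V → Option ι) (Bn : V → Finset V) (φ : ι → ι → ℝ),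
        Scheme X L Bd k e ζ ((K + 1) * (K + 1) * ((K + 1) * (K + 1))) p g b Bn φ := by
  have hK0 : (0 : ℝ) ≤ K := Nat.cast_nonneg K
  obtain ⟨M, hM⟩ : ∃ M : ℝ, M = 4 * ((K + 1) * (K + 1)) + (K + 1) * (1 / η) := ⟨_, rfl⟩
  have hη' : 0 < 1 / η := by positivity
  have hM0 : 0 < M := by rw [hM]; positivity
  have hmin : 0 < min η ζ := lt_min hη hζ
  refine ⟨min η ζ / M, div_pos hmin hM0, ?_⟩
  intro V ι _ _ X L Bd k Q C e he0 he8 hW J hJA hJF hJ1 hJ2
  obtain ⟨ε, hε⟩ : ∃ ε : ℝ, ε = min η ζ / M := ⟨_, rfl⟩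
  rw [← hε] at hW
  have hε0 : 0 < ε := hε ▸ div_pos hmin hM0
  have hεM : ε * M = min η ζ := by rw [hε]; exact div_mul_cancel₀ _ hM0.ne'
  have hεη : ε * M ≤ η := hεM ▸ min_le_left _ _
  have hεζ : ε * M ≤ ζ := hεM ▸ min_le_right _ _
  have hk := hW.k0
  have hsA : 1 / 4 ≤ X.sA := by
    have h1 := hW.s1
    have h2 := hW.s2
    linarith
  have hsA0 : 0 < X.sA := by linarith
  have h0 := X.mu_nonneg
  have h1 := X.mu_sum hsA0
  have hμw : ∀ i, X.mu i ≤ 4 * X.w i := by
    intro i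
    have hwi := X.pos i
    by_cases hi : i ∈ X.A
    · rw [X.mu_mem hi, div_le_iff₀ hsA0]
      nlinarith
    · rw [X.mu_notMem hi]
      linarith
  have hAv : ∀ u, ∑ i, X.mu i * BB.ind (i ∉ L.Av u) ≤ 4 * ε := by
    intro u
    have h2 := BB.hAv_of hW (μ := X.mu) (s := 1 / 4) (by norm_num)
      (fun i => by have := hμw i; linarith) (fun i hi => X.mu_notMem hi) u
    linarith
  have hBd : ∀ i, ∑ i', X.mu i' * BB.ind (Bd i i') ≤ 4 * ε := fun i =>
    BB.hBd_of hW (c := 4) (by norm_num) hμw i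
  have hBd' : ∀ y, ∑ x ∈ univ.filter (fun x => Bd y x), X.mu x ≤ 4 * ε := by
    intro y
    refine le_trans (le_of_eq ?_) (hBd y)
    rw [sum_filter]
    refine sum_congr rfl fun x _ => ?_
    by_cases hx : Bd y x
    · rw [if_pos hx, BB.ind_true hx, mul_one]
    · rw [if_neg hx, BB.ind_false hx, mul_zero]
  have hbs : ∀ i, ∑ i' ∈ univ.filter (fun i' => Bd i i'), X.w i' ≤ ε := hW.bsmall
  have hKε : (K : ℝ) * (4 * ε) ≤ η := by
    refine le_trans ?_ hεη
    rw [hM]
    have h2 : 0 ≤ ε * ((K + 1) * (1 / η)) := by positivity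
    have h3 : 0 ≤ ε * K := by positivity
    have h4 : 0 ≤ ε * (K * K) := by positivity
    nlinarith
  obtain ⟨t, ht⟩ : ∃ t : ℝ, t = (Fintype.card V : ℝ) - ((1 - e) * X.sA - η) * k := ⟨_, rfl⟩
  have hsl : t + k * (η + K * (4 * ε)) ≤
      (Fintype.card V : ℝ) - ((1 - e) * X.sA - 3 * η) * k := by
    have h2 : k * (K * (4 * ε)) ≤ k * η := mul_le_mul_of_nonneg_left hKε hk.le
    rw [ht]
    linarith
  have hcut : ∀ P ⊆ J, t ≤ ∑ v, EE (fun _ => X.mu)
      (fun g : V → ι => min 1 (1 / η * ∑ y ∈ JS.LJ X L Bd J g v ∩ P, X.w y)) +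
        ∑ y ∈ J \ P, (1 - e) * X.w y * k := by
    intro P hP
    have h2 := cut_world X L Bd h0 h1 (R := 1 / η) hk.le hW.cV he0 (by linarith) hη
      (le_of_eq (by field_simp)) (by positivity) hBd' hW.dK J (hsl.trans hJ1)
      (fun y hy => hsl.trans (hJ2 y hy)) P hP
    simp only [JS.lj_eq] at h2
    exact h2
  obtain ⟨q, hq, hload, htot⟩ := JS.ker_of_cut h0 h1 hη'.le hk.le (by linarith) hcut
  refine ⟨_, inferInstance, _, _, _, _, _, JS.scheme_of_ker hq hη'.le hk hW.cV hsA0 hJA hJF hW.dK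
    hW.bsymm hε0.le (by positivity) hbs hAv hBd (δ := η) (η := η) ?_ le_rfl ?_ hload ?_⟩
  · refine le_trans ?_ hεη
    have e1 : (K : ℝ) * (4 * ε + K * (4 * ε)) + K * (1 / η * ε) =
        ε * (4 * (K * (K + 1)) + K * (1 / η)) := by ring
    rw [e1, hM]
    refine mul_le_mul_of_nonneg_left ?_ hε0.le
    have h2 : (K : ℝ) * (K + 1) ≤ (K + 1) * (K + 1) :=
      mul_le_mul_of_nonneg_right (by linarith) (by positivity)
    have h3 : (K : ℝ) * (1 / η) ≤ (K + 1) * (1 / η) :=
      mul_le_mul_of_nonneg_right (by linarith) hη'.le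
    linarith
  · refine le_trans ?_ hεζ
    rw [hM]
    have h2 : 0 ≤ ε * ((K + 1) * (1 / η)) := by positivity
    have h3 : 0 ≤ ε * K := by positivity
    have h4 : 0 ≤ ε * (K * K) := by positivity
    nlinarith
  · rw [ht] at htot
    linarith

end

end Pool.Agent.T6A
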