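import Pool.Agent.T6A.Bern

/-!
# Fast kernel check of polynomial inequalities in one variable (MP_c6effb_co, helper21)

The same check as in `Bern.lean` (Bernstein coefficients and bisection) for one variable, but a
polynomial is one integer (its value at a power of two which is larger than all coefficients).
`kchk fuel e l r m = true` implies `0 ≤ e.ev (fun _ => a)` for `l / m ≤ a ≤ r / m` (`kchk_sound`).
-/

set_option autoImplicit false

namespace Pool.Agent.T6A.Bern

open Polynomial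

/-- Degree bound. -/
def dg : Ex → ℕ
  | Ex.q _ _ => 0
  | Ex.x _ => 1
  | Ex.add e f => dg e + (dg f - dg e)
  | Ex.sub e f => dg e + (dg f - dg e)
  | Ex.mul e f => dg e + dg f
  | Ex.pow e n => dg e * n

/-- Denominator. -/
def dn : Ex → ℕ
  | Ex.q _ b => b
  | Ex.x _ => 1
  | Ex.add e f => Nat.lcm (dn e) (dn f)
  | Ex.sub e f => Nat.lcm (dn e) (dn f)
  | Ex.mul e f => dn e * dn f
  | Ex.pow e n => dn e ^ n

/-- Bound of the sum of the absolute values of the coefficients. -/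
def nm (L M : ℕ) : Ex → ℕ
  | Ex.q a _ => a.natAbs
  | Ex.x _ => L
  | Ex.add e f =>
    nm L M e * (M ^ (dg e + (dg f - dg e) - dg e) * (Nat.lcm (dn e) (dn f) / dn e))
      + nm L M f * (M ^ (dg e + (dg f - dg e) - dg f) * (Nat.lcm (dn e) (dn f) / dn f))
  | Ex.sub e f =>
    nm L M e * (M ^ (dg e + (dg f - dg e) - dg e) * (Nat.lcm (dn e) (dn f) / dn e))
      + nm L M f * (M ^ (dg e + (dg f - dg e) - dg f) * (Nat.lcm (dn e) (dn f) / dn f))
  | Ex.mul e f => nm L M e * nm L M f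
  | Ex.pow e n => nm L M e ^ n

/-- Fast power. -/
def ipow : ℤ → ℕ → ℤ
  | Int.ofNat a, n => Int.ofNat (a ^ n)
  | Int.negSucc a, n => if n % 2 = 0 then Int.ofNat ((a + 1) ^ n) else
      Int.neg (Int.ofNat ((a + 1) ^ n))

/-- The value at the large integer. -/
def vl (X : ℤ) (Y : ℕ) : Ex → ℤ
  | Ex.q a _ => a
  | Ex.x _ => X
  | Ex.add e f =>
    Int.add (Int.mul (vl X Y e)
      (Int.ofNat (Y ^ (dg e + (dg f - dg e) - dg e) * (Nat.lcm (dn e) (dn f) / dn e))))
      (Int.mul (vl X Y f)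
      (Int.ofNat (Y ^ (dg e + (dg f - dg e) - dg f) * (Nat.lcm (dn e) (dn f) / dn f))))
  | Ex.sub e f =>
    Int.sub (Int.mul (vl X Y e)
      (Int.ofNat (Y ^ (dg e + (dg f - dg e) - dg e) * (Nat.lcm (dn e) (dn f) / dn e))))
      (Int.mul (vl X Y f)
      (Int.ofNat (Y ^ (dg e + (dg f - dg e) - dg f) * (Nat.lcm (dn e) (dn f) / dn f))))
  | Ex.mul e f => Int.mul (vl X Y e) (vl X Y f)
  | Ex.pow e n => ipow (vl X Y e) n

/-- All digits are small. -/
def digs : ℕ → ℕ → ℕ → ℕ → Bool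
  | 0, V, _, _ => Nat.beq V 0
  | n + 1, V, T, H => Nat.blt (V % T) H && digs n (V / T) T H

/-- The test for given exponent of the power of two. -/
def ktestK (e : Ex) (l r : ℤ) (m K : ℕ) : Bool :=
  match vl (Int.add l (Int.mul r (Int.ofNat (2 ^ (K + 1))))) (m * (1 + 2 ^ (K + 1))) e with
  | Int.ofNat V => digs (dg e + 1) V (2 ^ (K + 1)) (2 ^ K)
  | Int.negSucc _ => false

/-- The test. -/
def ktest (e : Ex) (l r : ℤ) (m : ℕ) : Bool :=
  ktestK e l r m (Nat.log2 (nm (l.natAbs + r.natAbs) (2 * m) e) + 1)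

/-- Bisection. -/
def kgo (e : Ex) : ℕ → ℤ → ℤ → ℕ → Bool
  | 0, l, r, m => ktest e l r m
  | f + 1, l, r, m => ktest e l r m ||
    (kgo e f (Int.mul 2 l) (Int.add l r) (2 * m) && kgo e f (Int.add l r) (Int.mul 2 r) (2 * m))

/-- Denominators are positive. -/
def wf0 : Ex → Bool
  | Ex.q _ b => Nat.ble 1 b
  | Ex.x _ => true
  | Ex.add e f => wf0 e && wf0 f
  | Ex.sub e f => wf0 e && wf0 f
  | Ex.mul e f => wf0 e && wf0 f
  | Ex.pow e _ => wf0 e

/-- **The check.** -/
def kchk (fuel : ℕ) (e : Ex) (l r : ℤ) (m : ℕ) : Bool :=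
  wf0 e && Nat.ble 1 m && nnI (Int.sub r l) && kgo e fuel l r m

/-! ### Soundness -/

noncomputable section

/-- The polynomial. -/
def PP (l r : ℤ) (m : ℕ) : Ex → ℤ[X]
  | Ex.q a _ => C a
  | Ex.x _ => C l + C r * X
  | Ex.add e f =>
    PP l r m e * ((C (m : ℤ) * (1 + X)) ^ (dg e + (dg f - dg e) - dg e)
        * C ((Nat.lcm (dn e) (dn f) / dn e : ℕ) : ℤ))
      + PP l r m f * ((C (m : ℤ) * (1 + X)) ^ (dg e + (dg f - dg e) - dg f)
        * C ((Nat.lcm (dn e) (dn f) / dn f : ℕ) : ℤ))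
  | Ex.sub e f =>
    PP l r m e * ((C (m : ℤ) * (1 + X)) ^ (dg e + (dg f - dg e) - dg e)
        * C ((Nat.lcm (dn e) (dn f) / dn e : ℕ) : ℤ))
      - PP l r m f * ((C (m : ℤ) * (1 + X)) ^ (dg e + (dg f - dg e) - dg f)
        * C ((Nat.lcm (dn e) (dn f) / dn f : ℕ) : ℤ))
  | Ex.mul e f => PP l r m e * PP l r m f
  | Ex.pow e n => PP l r m e ^ n

theorem ipow_eq (a : ℤ) (n : ℕ) : ipow a n = a ^ n := by
  cases a with
  | ofNat a =>
    show Int.ofNat (a ^ n) = _
    simp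
  | negSucc a =>
    have h1 : Int.negSucc a = -(Int.ofNat (a + 1)) := rfl
    show (if n % 2 = 0 then Int.ofNat ((a + 1) ^ n) else
      Int.neg (Int.ofNat ((a + 1) ^ n))) = _
    rw [h1]
    split_ifs with h
    · have h2 : Even n := Nat.even_iff.2 h
      rw [h2.neg_pow]
      simp
    · have h2 : Odd n := Nat.odd_iff.2 (by omega)
      rw [h2.neg_pow]
      show -(Int.ofNat ((a + 1) ^ n)) = _
      simp

/-- The value. -/
theorem eval_PP (l r : ℤ) (m T : ℕ) : ∀ e : Ex,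
    (PP l r m e).eval (T : ℤ) = vl (l + r * T) (m * (1 + T)) e
  | Ex.q a b => by simp [PP, vl]
  | Ex.x i => by simp [PP, vl]
  | Ex.add e f => by
    have h1 := eval_PP l r m T e
    have h2 := eval_PP l r m T f
    rw [PP, vl, eval_add, eval_mul, eval_mul (p := PP l r m f), h1, h2]
    show _ = (vl (l + r * T) (m * (1 + T)) e * _ + vl (l + r * T) (m * (1 + T)) f * _ : ℤ)
    simp
  | Ex.sub e f => by
    have h1 := eval_PP l r m T e
    have h2 := eval_PP l r m T f
    rw [PP, vl, eval_sub, eval_mul, eval_mul (p := PP l r m f), h1, h2]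
    show _ = (vl (l + r * T) (m * (1 + T)) e * _ - vl (l + r * T) (m * (1 + T)) f * _ : ℤ)
    simp
  | Ex.mul e f => by
    rw [PP, vl, eval_mul, eval_PP l r m T e, eval_PP l r m T f]
    rfl
  | Ex.pow e n => by
    rw [PP, vl, eval_pow, eval_PP l r m T e, ipow_eq]

/-- Majorants. -/
def Maj (p : ℤ[X]) (M : ℕ) : Prop :=
  ∃ Q : ℕ[X], (∀ j, (p.coeff j).natAbs ≤ Q.coeff j) ∧ Q.eval 1 ≤ M

theorem Maj.add {p q : ℤ[X]} {M N : ℕ} (hp : Maj p M) (hq : Maj q N) : Maj (p + q) (M + N) := by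
  obtain ⟨P, h1, h2⟩ := hp
  obtain ⟨Q, h3, h4⟩ := hq
  refine ⟨P + Q, fun j => ?_, by rw [eval_add]; omega⟩
  rw [coeff_add, coeff_add]
  have := Int.natAbs_add_le (p.coeff j) (q.coeff j)
  have := h1 j
  have := h3 j
  omega

theorem Maj.neg {p : ℤ[X]} {M : ℕ} (hp : Maj p M) : Maj (-p) M := by
  obtain ⟨P, h1, h2⟩ := hp
  exact ⟨P, fun j => by rw [coeff_neg, Int.natAbs_neg]; exact h1 j, h2⟩

theorem Maj.mul {p q : ℤ[X]} {M N : ℕ} (hp : Maj p M) (hq : Maj q N) : Maj (p * q) (M * N) := by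
  obtain ⟨P, h1, h2⟩ := hp
  obtain ⟨Q, h3, h4⟩ := hq
  refine ⟨P * Q, fun j => ?_, by rw [eval_mul]; exact Nat.mul_le_mul h2 h4⟩
  rw [coeff_mul, coeff_mul]
  refine (Int.natAbs_sum_le _ _).trans (Finset.sum_le_sum fun x _ => ?_)
  rw [Int.natAbs_mul]
  exact Nat.mul_le_mul (h1 _) (h3 _)

theorem Maj.one : Maj 1 1 := by
  refine ⟨1, fun j => ?_, by simp⟩
  rw [coeff_one, coeff_one]
  split_ifs <;> simp

theorem Maj.pow {p : ℤ[X]} {M : ℕ} (hp : Maj p M) : ∀ n : ℕ, Maj (p ^ n) (M ^ n)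
  | 0 => by simpa using Maj.one
  | n + 1 => by
    rw [pow_succ, pow_succ]
    exact (hp.pow n).mul hp

theorem Maj.C (a : ℤ) : Maj (C a) a.natAbs := by
  refine ⟨Polynomial.C a.natAbs, fun j => ?_, by simp⟩
  rw [coeff_C, coeff_C]
  split_ifs <;> simp

theorem Maj.X : Maj X 1 := by
  refine ⟨Polynomial.X, fun j => ?_, by simp⟩
  rw [coeff_X, coeff_X]
  split_ifs <;> simp

theorem Maj.le {p : ℤ[X]} {M : ℕ} (hp : Maj p M) (j : ℕ) : (p.coeff j).natAbs ≤ M := by
  obtain ⟨Q, h1, h2⟩ := hp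
  refine (h1 j).trans (le_trans ?_ h2)
  rw [eval_eq_sum_range]
  simp only [one_pow, mul_one]
  by_cases hj : j ∈ Finset.range (Q.natDegree + 1)
  · exact Finset.single_le_sum (f := fun i => Q.coeff i) (fun _ _ => Nat.zero_le _) hj
  · have : Q.coeff j = 0 := coeff_eq_zero_of_natDegree_lt (by
      rw [Finset.mem_range] at hj; omega)
    rw [this]
    exact Nat.zero_le _

theorem maj_PP (l r : ℤ) (m : ℕ) : ∀ e : Ex, Maj (PP l r m e) (nm (l.natAbs + r.natAbs) (2 * m) e)
  | Ex.q a b => Maj.C a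
  | Ex.x i => by
    have h := (Maj.C l).add ((Maj.C r).mul Maj.X)
    rw [mul_one] at h
    exact h
  | Ex.add e f => by
    have hY : Maj (Polynomial.C (m : ℤ) * (1 + Polynomial.X)) (2 * m) := by
      have h := (Maj.C (m : ℤ)).mul (Maj.one.add Maj.X)
      rw [Int.natAbs_natCast, mul_comm m] at h
      exact h
    have h1 := (maj_PP l r m e).mul ((hY.pow (dg e + (dg f - dg e) - dg e)).mul
      (Maj.C ((Nat.lcm (dn e) (dn f) / dn e : ℕ) : ℤ)))
    have h2 := (maj_PP l r m f).mul ((hY.pow (dg e + (dg f - dg e) - dg f)).mul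
      (Maj.C ((Nat.lcm (dn e) (dn f) / dn f : ℕ) : ℤ)))
    rw [Int.natAbs_natCast] at h1 h2
    exact h1.add h2
  | Ex.sub e f => by
    have hY : Maj (Polynomial.C (m : ℤ) * (1 + Polynomial.X)) (2 * m) := by
      have h := (Maj.C (m : ℤ)).mul (Maj.one.add Maj.X)
      rw [Int.natAbs_natCast, mul_comm m] at h
      exact h
    have h1 := (maj_PP l r m e).mul ((hY.pow (dg e + (dg f - dg e) - dg e)).mul
      (Maj.C ((Nat.lcm (dn e) (dn f) / dn e : ℕ) : ℤ)))
    have h2 := (maj_PP l r m f).mul ((hY.pow (dg e + (dg f - dg e) - dg f)).mul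
      (Maj.C ((Nat.lcm (dn e) (dn f) / dn f : ℕ) : ℤ)))
    rw [Int.natAbs_natCast] at h1 h2
    have h3 := h1.add h2.neg
    rw [← sub_eq_add_neg] at h3
    exact h3
  | Ex.mul e f => (maj_PP l r m e).mul (maj_PP l r m f)
  | Ex.pow e n => (maj_PP l r m e).pow n

theorem deg_PP (l r : ℤ) (m : ℕ) : ∀ e : Ex, (PP l r m e).natDegree ≤ dg e
  | Ex.q a b => by simp [PP, dg]
  | Ex.x i => by
    rw [PP, dg]
    refine (natDegree_add_le _ _).trans (max_le (by simp) ?_)
    exact (natDegree_C_mul_le _ _).trans natDegree_X_le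
  | Ex.add e f => by
    have h1 := deg_PP l r m e
    have h2 := deg_PP l r m f
    have hY : (Polynomial.C (m : ℤ) * (1 + X) : ℤ[X]).natDegree ≤ 1 :=
      (natDegree_C_mul_le _ _).trans ((natDegree_add_le _ _).trans (max_le (by simp)
        natDegree_X_le))
    have h3 : ∀ (n c : ℕ), ((Polynomial.C (m : ℤ) * (1 + X)) ^ n * C (c : ℤ) : ℤ[X]).natDegree
        ≤ n := fun n c => by
      refine (natDegree_mul_C_le _ _).trans ((natDegree_pow_le).trans ?_)
      calc n * _ ≤ n * 1 := Nat.mul_le_mul_left _ hY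
        _ = n := mul_one _
    rw [PP, dg]
    refine (natDegree_add_le _ _).trans (max_le ?_ ?_)
    · refine (natDegree_mul_le).trans ?_
      have := h3 (dg e + (dg f - dg e) - dg e) (Nat.lcm (dn e) (dn f) / dn e)
      omega
    · refine (natDegree_mul_le).trans ?_
      have := h3 (dg e + (dg f - dg e) - dg f) (Nat.lcm (dn e) (dn f) / dn f)
      omega
  | Ex.sub e f => by
    have h1 := deg_PP l r m e
    have h2 := deg_PP l r m f
    have hY : (Polynomial.C (m : ℤ) * (1 + X) : ℤ[X]).natDegree ≤ 1 :=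
      (natDegree_C_mul_le _ _).trans ((natDegree_add_le _ _).trans (max_le (by simp)
        natDegree_X_le))
    have h3 : ∀ (n c : ℕ), ((Polynomial.C (m : ℤ) * (1 + X)) ^ n * C (c : ℤ) : ℤ[X]).natDegree
        ≤ n := fun n c => by
      refine (natDegree_mul_C_le _ _).trans ((natDegree_pow_le).trans ?_)
      calc n * _ ≤ n * 1 := Nat.mul_le_mul_left _ hY
        _ = n := mul_one _
    rw [PP, dg]
    refine (natDegree_sub_le _ _).trans (max_le ?_ ?_)
    · refine (natDegree_mul_le).trans ?_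
      have := h3 (dg e + (dg f - dg e) - dg e) (Nat.lcm (dn e) (dn f) / dn e)
      omega
    · refine (natDegree_mul_le).trans ?_
      have := h3 (dg e + (dg f - dg e) - dg f) (Nat.lcm (dn e) (dn f) / dn f)
      omega
  | Ex.mul e f => (natDegree_mul_le).trans (add_le_add (deg_PP l r m e) (deg_PP l r m f))
  | Ex.pow e n => by
    rw [PP, dg]
    refine (natDegree_pow_le).trans ?_
    rw [mul_comm (dg e)]
    exact Nat.mul_le_mul_left _ (deg_PP l r m e)

/-- Digits determine the coefficients. -/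
theorem coeff_nonneg (H : ℕ) : ∀ (n : ℕ) (p : ℤ[X]) (V : ℕ), p.natDegree < n ∨ p = 0 →
    (∀ j, (p.coeff j).natAbs < H) → p.eval ((2 * H : ℕ) : ℤ) = V →
    digs n V (2 * H) H = true → ∀ j, 0 ≤ p.coeff j
  | 0, p, V, hd, _, _, _ => by
    rcases hd with hd | hd
    · exact absurd hd (Nat.not_lt_zero _)
    · intro j
      rw [hd]
      simp
  | n + 1, p, V, hd, hc, hV, hg => by
    rw [digs, Bool.and_eq_true] at hg
    have hH : 0 < H := by have := hc 0; omega
    have h1 : V % (2 * H) < H := Nat.le_of_ble_eq_true hg.1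
    have h2 : p.eval ((2 * H : ℕ) : ℤ)
        = (divX p).eval ((2 * H : ℕ) : ℤ) * ((2 * H : ℕ) : ℤ) + p.coeff 0 := by
      conv_lhs => rw [← divX_mul_X_add p]
      rw [eval_add, eval_mul, eval_X, eval_C]
    rw [hV] at h2
    have h3 := hc 0
    have h4 : (V : ℤ) = ((V / (2 * H) : ℕ) : ℤ) * ((2 * H : ℕ) : ℤ) + ((V % (2 * H) : ℕ) : ℤ) := by
      exact_mod_cast (Nat.div_add_mod' V (2 * H)).symm
    -- the difference is a multiple of `2 H`
    have h5 : p.coeff 0 = ((V % (2 * H) : ℕ) : ℤ) ∧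
        (divX p).eval ((2 * H : ℕ) : ℤ) = ((V / (2 * H) : ℕ) : ℤ) := by
      generalize (divX p).eval ((2 * H : ℕ) : ℤ) = A at h2
      generalize V / (2 * H) = B at h4
      generalize V % (2 * H) = D at h4 h1
      generalize p.coeff 0 = c at h2 h3
      have h6 : (A - B) * ((2 * H : ℕ) : ℤ) = D - c := by linarith
      have h7 : |(D : ℤ) - c| < ((2 * H : ℕ) : ℤ) := by
        have : (D : ℤ) < H := by exact_mod_cast h1
        have h8 : (c.natAbs : ℤ) < H := by exact_mod_cast h3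
        rw [Int.natCast_natAbs] at h8
        have h9 := abs_lt.1 h8
        rw [abs_lt]
        push_cast
        constructor <;> omega
      have h8 : A - B = 0 := by
        by_contra hne
        have h9 : 1 ≤ |A - B| := Int.one_le_abs hne
        rw [← h6, abs_mul] at h7
        have h10 : |((2 * H : ℕ) : ℤ)| = ((2 * H : ℕ) : ℤ) := abs_of_nonneg (by positivity)
        rw [h10] at h7
        have h11 : (0 : ℤ) < ((2 * H : ℕ) : ℤ) := by exact_mod_cast (by omega : 0 < 2 * H)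
        nlinarith
      constructor
      · rw [h8] at h6
        linarith
      · linarith
    intro j
    cases j with
    | zero =>
      rw [h5.1]
      positivity
    | succ j =>
      have h6 := coeff_nonneg H n (divX p) (V / (2 * H)) (by
        by_cases hz : divX p = 0
        · exact Or.inr hz
        · left
          rcases hd with hd | hd
          · rw [natDegree_divX_eq_natDegree_tsub_one]
            have : p.natDegree ≠ 0 := by
              intro h0
              apply hz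
              rw [eq_C_of_natDegree_eq_zero h0, divX_C]
            omega
          · exact absurd (by rw [hd, divX_zero]) hz) (fun j => by rw [coeff_divX]; exact hc _)
        h5.2 hg.2 j
      rw [coeff_divX] at h6
      exact h6

/-- Real evaluation. -/
def re (p : ℤ[X]) (t : ℝ) : ℝ := p.eval₂ (Int.castRingHom ℝ) t

theorem re_nonneg {p : ℤ[X]} (h : ∀ j, 0 ≤ p.coeff j) {t : ℝ} (ht : 0 ≤ t) : 0 ≤ re p t := by
  unfold re
  rw [eval₂_eq_sum_range]
  refine Finset.sum_nonneg fun i _ => mul_nonneg ?_ (pow_nonneg ht _)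
  show (0 : ℝ) ≤ ((p.coeff i : ℤ) : ℝ)
  exact_mod_cast h i

theorem cr (n : ℕ) : (Int.castRingHom ℝ) ((n : ℕ) : ℤ) = (n : ℝ) := by simp

theorem pow_aux {Y : ℝ} {a b : ℕ} (h : a ≤ b) : Y ^ a * Y ^ (b - a) = Y ^ b := by
  rw [← pow_add, Nat.add_sub_cancel' h]

theorem lcm_aux {a b : ℕ} : (a : ℝ) * ((Nat.lcm a b / a : ℕ) : ℝ) = (Nat.lcm a b : ℕ) := by
  exact_mod_cast Nat.mul_div_cancel' (Nat.dvd_lcm_left a b)

theorem lcm_aux' {a b : ℕ} : (b : ℝ) * ((Nat.lcm a b / b : ℕ) : ℝ) = (Nat.lcm a b : ℕ) := by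
  exact_mod_cast Nat.mul_div_cancel' (Nat.dvd_lcm_right a b)

theorem dn_pos : ∀ e : Ex, wf0 e = true → 0 < dn e
  | Ex.q a b, h => Nat.le_of_ble_eq_true h
  | Ex.x i, _ => Nat.one_pos
  | Ex.add e f, h => by
    rw [wf0, Bool.and_eq_true] at h
    exact Nat.lcm_pos (dn_pos e h.1) (dn_pos f h.2)
  | Ex.sub e f, h => by
    rw [wf0, Bool.and_eq_true] at h
    exact Nat.lcm_pos (dn_pos e h.1) (dn_pos f h.2)
  | Ex.mul e f, h => by
    rw [wf0, Bool.and_eq_true] at h
    exact Nat.mul_pos (dn_pos e h.1) (dn_pos f h.2)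
  | Ex.pow e n, h => by
    rw [wf0] at h
    exact Nat.pow_pos (dn_pos e h)

theorem re_PP (l r : ℤ) {m : ℕ} (hm : 0 < m) {t : ℝ} (ht : 0 ≤ t) : ∀ e : Ex, wf0 e = true →
    re (PP l r m e) t
      = e.ev (fun _ => (l + r * t) / (m * (1 + t))) * (dn e * ((m : ℝ) * (1 + t)) ^ dg e)
  | Ex.q a b, h => by
    have hb : (0 : ℝ) < (b : ℝ) := by exact_mod_cast Nat.le_of_ble_eq_true h
    simp only [re, PP, dn, dg, eval₂_C, pow_zero, mul_one, Ex.ev_q]
    rw [div_mul_cancel₀ _ hb.ne']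
    rfl
  | Ex.x i, _ => by
    have hY : (0 : ℝ) < (m : ℝ) * (1 + t) := by
      have : (0 : ℝ) < (m : ℝ) := by exact_mod_cast hm
      positivity
    simp only [re, PP, dn, dg, eval₂_add, eval₂_mul, eval₂_C, eval₂_X, pow_one, Ex.ev_x,
      Nat.cast_one, one_mul]
    rw [div_mul_cancel₀ _ hY.ne']
    rfl
  | Ex.add e f, h => by
    rw [wf0, Bool.and_eq_true] at h
    have h1 := re_PP l r hm ht e h.1
    have h2 := re_PP l r hm ht f h.2
    unfold re at h1 h2 ⊢
    have e1 : dg (Ex.add e f) = dg e + (dg f - dg e) := rfl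
    have e2 : dn (Ex.add e f) = Nat.lcm (dn e) (dn f) := rfl
    have e3 : Ex.ev (Ex.add e f) (fun _ => ((l : ℝ) + r * t) / (m * (1 + t)))
        = e.ev (fun _ => (l + r * t) / (m * (1 + t)))
          + f.ev (fun _ => (l + r * t) / (m * (1 + t))) := rfl
    rw [e1, e2, e3, PP]
    simp only [eval₂_add, eval₂_mul, eval₂_pow, eval₂_C, eval₂_X, eval₂_one, h1, h2]
    have hD1 : dg e ≤ dg e + (dg f - dg e) := Nat.le_add_right _ _
    have hD2 : dg f ≤ dg e + (dg f - dg e) := by omega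
    have p1 := pow_aux (Y := (m : ℝ) * (1 + t)) hD1
    have p2 := pow_aux (Y := (m : ℝ) * (1 + t)) hD2
    have l1 := lcm_aux (a := dn e) (b := dn f)
    have l2 := lcm_aux' (a := dn e) (b := dn f)
    have c1 : (Int.castRingHom ℝ) (m : ℤ) = (m : ℝ) := by simp
    have c2 : (Int.castRingHom ℝ) ((Nat.lcm (dn e) (dn f) / dn e : ℕ) : ℤ)
        = ((Nat.lcm (dn e) (dn f) / dn e : ℕ) : ℝ) := cr _
    have c3 : (Int.castRingHom ℝ) ((Nat.lcm (dn e) (dn f) / dn f : ℕ) : ℤ)
        = ((Nat.lcm (dn e) (dn f) / dn f : ℕ) : ℝ) := cr _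
    rw [c1, c2, c3]
    generalize e.ev (fun _ => ((l : ℝ) + r * t) / (m * (1 + t))) = E
    generalize f.ev (fun _ => ((l : ℝ) + r * t) / (m * (1 + t))) = F
    generalize hA : ((m : ℝ) * (1 + t)) ^ (dg e + (dg f - dg e) - dg e) = A at p1
    generalize hB : ((m : ℝ) * (1 + t)) ^ (dg e + (dg f - dg e) - dg f) = B at p2
    generalize ((m : ℝ) * (1 + t)) ^ dg e = Ye at p1
    generalize ((m : ℝ) * (1 + t)) ^ dg f = Yf at p2
    rw [← p1] at p2 ⊢
    generalize (Nat.lcm (dn e) (dn f) / dn e : ℕ) = u at l1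
    generalize (Nat.lcm (dn e) (dn f) / dn f : ℕ) = w at l2
    rw [← l1] at l2 ⊢
    have : F * ((dn e : ℝ) * (u : ℝ) * (Ye * A)) = F * ((dn f : ℝ) * (w : ℝ) * (Yf * B)) := by
      rw [l2, p2]
    calc _ = E * ((dn e : ℝ) * (u : ℝ) * (Ye * A)) + F * ((dn f : ℝ) * (w : ℝ) * (Yf * B)) := by
          ring
      _ = _ := by rw [← this]; ring
  | Ex.sub e f, h => by
    rw [wf0, Bool.and_eq_true] at h
    have h1 := re_PP l r hm ht e h.1
    have h2 := re_PP l r hm ht f h.2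
    unfold re at h1 h2 ⊢
    have e1 : dg (Ex.sub e f) = dg e + (dg f - dg e) := rfl
    have e2 : dn (Ex.sub e f) = Nat.lcm (dn e) (dn f) := rfl
    have e3 : Ex.ev (Ex.sub e f) (fun _ => ((l : ℝ) + r * t) / (m * (1 + t)))
        = e.ev (fun _ => (l + r * t) / (m * (1 + t)))
          - f.ev (fun _ => (l + r * t) / (m * (1 + t))) := rfl
    rw [e1, e2, e3, PP]
    simp only [eval₂_add, eval₂_sub, eval₂_mul, eval₂_pow, eval₂_C, eval₂_X, eval₂_one, h1, h2]
    have hD1 : dg e ≤ dg e + (dg f - dg e) := Nat.le_add_right _ _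
    have hD2 : dg f ≤ dg e + (dg f - dg e) := by omega
    have p1 := pow_aux (Y := (m : ℝ) * (1 + t)) hD1
    have p2 := pow_aux (Y := (m : ℝ) * (1 + t)) hD2
    have l1 := lcm_aux (a := dn e) (b := dn f)
    have l2 := lcm_aux' (a := dn e) (b := dn f)
    have c1 : (Int.castRingHom ℝ) (m : ℤ) = (m : ℝ) := by simp
    have c2 : (Int.castRingHom ℝ) ((Nat.lcm (dn e) (dn f) / dn e : ℕ) : ℤ)
        = ((Nat.lcm (dn e) (dn f) / dn e : ℕ) : ℝ) := cr _
    have c3 : (Int.castRingHom ℝ) ((Nat.lcm (dn e) (dn f) / dn f : ℕ) : ℤ)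
        = ((Nat.lcm (dn e) (dn f) / dn f : ℕ) : ℝ) := cr _
    rw [c1, c2, c3]
    generalize e.ev (fun _ => ((l : ℝ) + r * t) / (m * (1 + t))) = E
    generalize f.ev (fun _ => ((l : ℝ) + r * t) / (m * (1 + t))) = F
    generalize hA : ((m : ℝ) * (1 + t)) ^ (dg e + (dg f - dg e) - dg e) = A at p1
    generalize hB : ((m : ℝ) * (1 + t)) ^ (dg e + (dg f - dg e) - dg f) = B at p2
    generalize ((m : ℝ) * (1 + t)) ^ dg e = Ye at p1
    generalize ((m : ℝ) * (1 + t)) ^ dg f = Yf at p2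
    rw [← p1] at p2 ⊢
    generalize (Nat.lcm (dn e) (dn f) / dn e : ℕ) = u at l1
    generalize (Nat.lcm (dn e) (dn f) / dn f : ℕ) = w at l2
    rw [← l1] at l2 ⊢
    have : F * ((dn e : ℝ) * (u : ℝ) * (Ye * A)) = F * ((dn f : ℝ) * (w : ℝ) * (Yf * B)) := by
      rw [l2, p2]
    calc _ = E * ((dn e : ℝ) * (u : ℝ) * (Ye * A)) - F * ((dn f : ℝ) * (w : ℝ) * (Yf * B)) := by
          ring
      _ = _ := by rw [← this]; ring
  | Ex.mul e f, h => by
    rw [wf0, Bool.and_eq_true] at h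
    have h1 := re_PP l r hm ht e h.1
    have h2 := re_PP l r hm ht f h.2
    unfold re at h1 h2 ⊢
    have e1 : dg (Ex.mul e f) = dg e + dg f := rfl
    have e2 : dn (Ex.mul e f) = dn e * dn f := rfl
    have e3 : Ex.ev (Ex.mul e f) (fun _ => ((l : ℝ) + r * t) / (m * (1 + t)))
        = e.ev (fun _ => (l + r * t) / (m * (1 + t)))
          * f.ev (fun _ => (l + r * t) / (m * (1 + t))) := rfl
    rw [e1, e2, e3, PP]
    simp only [eval₂_mul, h1, h2]
    push_cast
    ring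
  | Ex.pow e n, h => by
    rw [wf0] at h
    have h1 := re_PP l r hm ht e h
    unfold re at h1 ⊢
    have e1 : dg (Ex.pow e n) = dg e * n := rfl
    have e2 : dn (Ex.pow e n) = dn e ^ n := rfl
    have e3 : Ex.ev (Ex.pow e n) (fun _ => ((l : ℝ) + r * t) / (m * (1 + t)))
        = e.ev (fun _ => (l + r * t) / (m * (1 + t))) ^ n := rfl
    rw [e1, e2, e3, PP]
    simp only [eval₂_pow, h1]
    push_cast
    rw [mul_pow, mul_pow, pow_mul]

theorem ev_cont : ∀ e : Ex, Continuous fun x : ℝ => e.ev fun _ => x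
  | Ex.q a b => continuous_const
  | Ex.x i => continuous_id
  | Ex.add e f => (ev_cont e).add (ev_cont f)
  | Ex.sub e f => (ev_cont e).sub (ev_cont f)
  | Ex.mul e f => (ev_cont e).mul (ev_cont f)
  | Ex.pow e n => (ev_cont e).pow n

theorem ktest_sound {e : Ex} (hw : wf0 e = true) {l r : ℤ} {m : ℕ} (hm : 0 < m) (hlr : l ≤ r)
    (h : ktest e l r m = true) {a : ℝ} (h0 : (l : ℝ) / m ≤ a) (h1 : a ≤ (r : ℝ) / m) :
    0 ≤ e.ev fun _ => a := by
  have hmR : (0 : ℝ) < (m : ℝ) := by exact_mod_cast hm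
  -- the coefficients
  have hc : ∀ j, 0 ≤ (PP l r m e).coeff j := by
    unfold ktest at h
    obtain ⟨K, hK⟩ : ∃ K, K = Nat.log2 (nm (l.natAbs + r.natAbs) (2 * m) e) + 1 := ⟨_, rfl⟩
    rw [← hK] at h
    have hlt : nm (l.natAbs + r.natAbs) (2 * m) e < 2 ^ K := by
      rw [hK]
      exact Nat.lt_log2_self
    unfold ktestK at h
    have hT : 2 ^ (K + 1) = 2 * 2 ^ K := by rw [pow_succ]; ring
    have hev := eval_PP l r m (2 * 2 ^ K) e
    rw [hT] at h
    have e1 : vl (Int.add l (Int.mul r (Int.ofNat (2 * 2 ^ K)))) (m * (1 + 2 * 2 ^ K)) e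
        = vl (l + r * ((2 * 2 ^ K : ℕ) : ℤ)) (m * (1 + 2 * 2 ^ K)) e := rfl
    rw [e1] at h
    generalize vl (l + r * ((2 * 2 ^ K : ℕ) : ℤ)) (m * (1 + 2 * 2 ^ K)) e = Z at h hev
    cases Z with
    | ofNat V =>
      refine coeff_nonneg (2 ^ K) (dg e + 1) _ V (Or.inl ?_) (fun j => ?_) hev h
      · exact Nat.lt_succ_of_le (deg_PP l r m e)
      · exact lt_of_le_of_lt ((maj_PP l r m e).le j) hlt
    | negSucc V => exact absurd h (by simp)
  rcases hlr.lt_or_eq with hlt | heq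
  · -- the half-open interval
    have hltR : (l : ℝ) < (r : ℝ) := by exact_mod_cast hlt
    have key : ∀ x : ℝ, (l : ℝ) / m ≤ x → x < (r : ℝ) / m → 0 ≤ e.ev fun _ => x := by
      intro x hx0 hx1
      rw [div_le_iff₀ hmR] at hx0
      rw [lt_div_iff₀ hmR] at hx1
      obtain ⟨t, ht⟩ : ∃ t, t = (x * m - l) / (r - x * m) := ⟨_, rfl⟩
      have hd : 0 < (r : ℝ) - x * m := by linarith
      have ht0 : 0 ≤ t := by rw [ht]; exact div_nonneg (by linarith) hd.le
      have hx : ((l : ℝ) + r * t) / (m * (1 + t)) = x := by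
        have h1t : (1 + t) * (r - x * m) = r - l := by
          rw [ht]
          field_simp
          ring
        have hpos : 0 < (m : ℝ) * (1 + t) := by positivity
        rw [div_eq_iff hpos.ne']
        have h2t : t * (r - x * m) = x * m - l := by
          rw [ht]
          field_simp
        nlinarith
      have h2 := re_PP l r hm ht0 e hw
      rw [hx] at h2
      have h3 := re_nonneg hc ht0
      rw [h2] at h3
      have h4 : 0 < (dn e : ℝ) * ((m : ℝ) * (1 + t)) ^ dg e := by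
        have := dn_pos e hw
        positivity
      exact nonneg_of_mul_nonneg_left h3 h4
    rcases h1.lt_or_eq with h2 | h2
    · exact key a h0 h2
    · have hcl : IsClosed {x : ℝ | 0 ≤ e.ev fun _ => x} :=
        isClosed_le continuous_const (ev_cont e)
      have hsub : Set.Ico ((l : ℝ) / m) ((r : ℝ) / m) ⊆ {x : ℝ | 0 ≤ e.ev fun _ => x} :=
        fun x hx => key x hx.1 hx.2
      have h3 := closure_minimal hsub hcl
      have hne : (l : ℝ) / m < (r : ℝ) / m := div_lt_div_of_pos_right hltR hmR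
      rw [closure_Ico hne.ne] at h3
      exact h3 ⟨h0, h1⟩
  · -- one point
    have h2 := re_PP l r hm (le_refl (0 : ℝ)) e hw
    have h3 := re_nonneg hc (le_refl (0 : ℝ))
    rw [h2] at h3
    have h4 : 0 < (dn e : ℝ) * ((m : ℝ) * (1 + 0)) ^ dg e := by
      have := dn_pos e hw
      positivity
    have h5 := nonneg_of_mul_nonneg_left h3 h4
    have h6 : ((l : ℝ) + r * 0) / (m * (1 + 0)) = a := by
      rw [← heq] at h1
      have : a = (l : ℝ) / m := le_antisymm h1 h0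
      rw [this]
      simp
    rw [h6] at h5
    exact h5

theorem kgo_sound {e : Ex} (hw : wf0 e = true) : ∀ (f : ℕ) (l r : ℤ) (m : ℕ), 0 < m → l ≤ r →
    kgo e f l r m = true → ∀ a : ℝ, (l : ℝ) / m ≤ a → a ≤ (r : ℝ) / m → 0 ≤ e.ev fun _ => a
  | 0, l, r, m, hm, hlr, h, a, h0, h1 => ktest_sound hw hm hlr h h0 h1
  | f + 1, l, r, m, hm, hlr, h, a, h0, h1 => by
    rw [kgo, Bool.or_eq_true, Bool.and_eq_true] at h
    rcases h with h | ⟨h2, h3⟩
    · exact ktest_sound hw hm hlr h h0 h1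
    · have hmR : (0 : ℝ) < (m : ℝ) := by exact_mod_cast hm
      have e1 : ((Int.mul 2 l : ℤ) : ℝ) / ((2 * m : ℕ) : ℝ) = (l : ℝ) / m := by
        have : ((Int.mul 2 l : ℤ) : ℝ) = 2 * (l : ℝ) := by
          show ((2 * l : ℤ) : ℝ) = _
          push_cast
          rfl
        rw [this]
        push_cast
        rw [mul_div_mul_left _ _ (by norm_num : (2 : ℝ) ≠ 0)]
      have e2 : ((Int.mul 2 r : ℤ) : ℝ) / ((2 * m : ℕ) : ℝ) = (r : ℝ) / m := by
        have : ((Int.mul 2 r : ℤ) : ℝ) = 2 * (r : ℝ) := by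
          show ((2 * r : ℤ) : ℝ) = _
          push_cast
          rfl
        rw [this]
        push_cast
        rw [mul_div_mul_left _ _ (by norm_num : (2 : ℝ) ≠ 0)]
      have e3 : Int.mul 2 l ≤ Int.add l r := by
        show 2 * l ≤ l + r
        omega
      have e4 : Int.add l r ≤ Int.mul 2 r := by
        show l + r ≤ 2 * r
        omega
      rcases le_total a (((Int.add l r : ℤ) : ℝ) / ((2 * m : ℕ) : ℝ)) with h4 | h4
      · exact kgo_sound hw f _ _ _ (by omega) e3 h2 a (by rw [e1]; exact h0) h4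
      · exact kgo_sound hw f _ _ _ (by omega) e4 h3 a h4 (by rw [e2]; exact h1)

/-- **Soundness.** -/
theorem kchk_sound {fuel : ℕ} {e : Ex} {l r : ℤ} {m : ℕ} (h : kchk fuel e l r m = true) {a : ℝ}
    (h0 : (l : ℝ) / m ≤ a) (h1 : a ≤ (r : ℝ) / m) : 0 ≤ e.ev fun _ => a := by
  rw [kchk, Bool.and_eq_true, Bool.and_eq_true, Bool.and_eq_true] at h
  have h2 : l ≤ r := by
    have h3 := (nnI_iff _).1 h.1.2
    have h4 : Int.sub r l = r - l := rfl
    rw [h4] at h3
    omega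
  exact kgo_sound h.1.1.1 fuel l r m (Nat.le_of_ble_eq_true h.1.1.2) h2 h.2 a h0 h1

end

end Pool.Agent.T6A.Bern
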