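import Pool.Agent.T6A.MathAsm
import Pool.Agent.T6A.Thr3

/-!
# LIM with the averaged hub lists (MP_c6effb_co, interface v4)

The giants are placed in one cluster `i0`, which may be chosen in any subset `As` of `A` of weight at
least `e` (`As` may depend on the world and on the low graph, but not on the lists): for all `i0` in
`As` and all lists of the kind `ListOK` there are the scheme (`Lim4`), the rates (`CertStmt4`).
`t` = whether the threshold hypothesis is available; `U` = a condition on the total weight.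
-/

set_option autoImplicit false

open Finset

namespace Pool.Agent.T6A

noncomputable section

open Classical

/-- The low graph with other lists. -/
def Low.lists {V ι : Type} (L : Low V ι) (Av Bv : V → Finset ι) : Low V ι :=
  { G := L.G, j := L.j, E := L.E, Av := Av, Bv := Bv }

/-- The hypotheses of LIM without the lists (the lists of `L` are not used). -/
structure PreOK {V ι : Type} [Fintype V] [Fintype ι] (X : World ι) (L : Low V ι)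
    (Bd : ι → ι → Prop) (k Q : ℝ) (C K : ℕ) (e ε : ℝ) : Prop where
  k0 : 0 < k
  cV : (Fintype.card V : ℝ) ≤ k
  cV' : (1 - e) * k ≤ (Fintype.card V : ℝ)
  tot1 : 1 + Q - e ≤ X.tot
  tot2 : X.tot ≤ 2 * C + 2
  deg : ∑ v, ((L.d v : ℝ) + 2 * L.j v) ≤ 2 * (X.tot - 1 + e) * k
  s1 : 1 / 2 - e ≤ X.s
  s2 : X.s - e ≤ X.sA
  Ec : (#L.E : ℝ) ≤ e * k
  mind : ∀ v, v ∉ L.E → X.tot - 1 - e ≤ (L.d v + L.j v : ℝ) * (X.s + e)
  dK : ∀ v, L.d v ≤ K
  jK : ∀ v, L.j v ≤ K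
  bsymm : ∀ i i', Bd i i' → Bd i' i
  brefl : ∀ i, Bd i i
  bsmall : ∀ i, ∑ i' ∈ univ.filter (fun i' => Bd i i'), X.w i' ≤ ε

/-- The hypotheses on the lists: `i0` = the cluster of the giants. -/
structure ListOK {V ι : Type} [Fintype V] [Fintype ι] (X : World ι) (L : Low V ι)
    (i0 : ι) (e ε : ℝ) : Prop where
  AvA : ∀ v, L.Av v ⊆ X.A
  Avw : ∀ v, ∑ i ∈ X.A \ L.Av v, X.w i ≤ ε
  BvA : ∀ v, Disjoint (L.Bv v) X.A
  BvE : ∀ v, v ∈ L.E → L.Bv v = ∅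
  Bv0 : ∀ v, v ∉ L.E → L.j v = 0 →
    ∑ i ∈ univ.filter (fun i => i ∉ X.A ∧ i ∉ L.Bv v), X.w i ≤ e
  Bv1 : ∀ v, v ∉ L.E →
    ∑ i ∈ univ.filter (fun i => (i ∉ X.A ∧ i ∉ L.Bv v) ∧ ¬ X.F.Adj i0 i), X.w i ≤ e

section

variable {V ι : Type} [Fintype V] [Fintype ι] {X : World ι} {L : Low V ι} {Bd : ι → ι → Prop}
  {k Q : ℝ} {C K : ℕ} {e ε ε' : ℝ} {i0 : ι}

theorem PreOK.mono (h : PreOK X L Bd k Q C K e ε) (hε : ε ≤ ε') : PreOK X L Bd k Q C K e ε' :=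
  { h with bsmall := fun i => (h.bsmall i).trans hε }

theorem ListOK.mono (h : ListOK X L i0 e ε) (hε : ε ≤ ε') : ListOK X L i0 e ε' :=
  { h with Avw := fun v => (h.Avw v).trans hε }

/-- The hypotheses of LIM follow. -/
theorem PreOK.worldOK (h : PreOK X L Bd k Q C K e ε) {Av Bv : V → Finset ι}
    (h' : ListOK X (L.lists Av Bv) i0 e ε) : WorldOK X (L.lists Av Bv) Bd k Q C K e ε where
  k0 := h.k0
  cV := h.cV
  cV' := h.cV'
  tot1 := h.tot1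
  tot2 := h.tot2
  deg := h.deg
  s1 := h.s1
  s2 := h.s2
  Ec := h.Ec
  mind := h.mind
  dK := h.dK
  jK := h.jK
  bsymm := h.bsymm
  brefl := h.brefl
  bsmall := h.bsmall
  AvA := h'.AvA
  Avw := h'.Avw
  BvA := h'.BvA
  BvE := h'.BvE
  Bvw := by
    intro v hv
    by_cases hj : (L.lists Av Bv).j v = 0
    · rw [if_pos hj, zero_add]
      exact h'.Bv0 v hv hj
    · rw [if_neg hj]
      have h1 := h'.Bv1 v hv
      have h2 := X.row_le i0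
      rw [← sum_filter] at h2
      have h3 : ∑ i ∈ univ.filter (fun i => i ∉ X.A ∧ i ∉ (L.lists Av Bv).Bv v), X.w i ≤
          ∑ i ∈ univ.filter (fun i => X.F.Adj i0 i), X.w i +
          ∑ i ∈ univ.filter (fun i => (i ∉ X.A ∧ i ∉ (L.lists Av Bv).Bv v) ∧ ¬ X.F.Adj i0 i),
            X.w i := by
        rw [← sum_filter_add_sum_filter_not (univ.filter fun i => i ∉ X.A ∧
          i ∉ (L.lists Av Bv).Bv v) (fun i => X.F.Adj i0 i)]
        refine add_le_add ?_ (le_of_eq ?_)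
        · refine sum_le_sum_of_subset_of_nonneg ?_ fun i _ _ => (X.pos i).le
          intro i hi
          exact mem_filter.2 ⟨mem_univ _, (mem_filter.1 hi).2⟩
        · rw [filter_filter]
      linarith

end

/-- **LIM, interface v4.** -/
def Lim4 (t : Prop) (U : ℝ → Prop) (Q : ℝ) : Prop := ∀ C : ℕ, ∃ e : ℝ, 0 < e ∧ e ≤ 1 / 8 ∧
  ∀ (K : ℕ) (ζ : ℝ), 0 < ζ → ∃ (B : ℕ) (ε : ℝ), 0 < ε ∧ ∀ (V ι : Type) [Fintype V] [Fintype ι]
    (X : World ι) (L : Low V ι) (Bd : ι → ι → Prop) (k : ℝ), PreOK X L Bd k Q C K e ε →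
    (t → ThrW X L k e) → U X.tot → ∃ As : Finset ι, As ⊆ X.A ∧ e ≤ ∑ i ∈ As, X.w i ∧
      ∀ i0 ∈ As, ∀ Av Bv : V → Finset ι, ListOK X (L.lists Av Bv) i0 e ε →
        ∃ (Om : Type) (_ : Fintype Om) (p : V → Om → ℝ) (g : (V → Om) → V → ι)
          (b : (V → Om) → V → Option ι) (Bn : V → Finset V) (ψ : ι → ι → ℝ),
          Scheme X (L.lists Av Bv) Bd k e ζ B p g b Bn ψ

/-- **CERT, interface v4.** -/
def CertStmt4 (t : Prop) (U : ℝ → Prop) (Q : ℝ) : Prop := ∀ C : ℕ, ∃ e : ℝ, 0 < e ∧ e ≤ 1 / 8 ∧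
  ∀ K : ℕ, ∃ R η ε : ℝ, 0 < η ∧ 0 < ε ∧ ∀ (V ι : Type) [Fintype V] [Fintype ι] (X : World ι)
    (L : Low V ι) (Bd : ι → ι → Prop) (k : ℝ), PreOK X L Bd k Q C K e ε → (t → ThrW X L k e) →
    U X.tot → X.s < 1 + 3 * e → ∃ As : Finset ι, As ⊆ X.A ∧ e ≤ ∑ i ∈ As, X.w i ∧
      ∀ i0 ∈ As, ∀ Av Bv : V → Finset ι, ListOK X (L.lists Av Bv) i0 e ε →
        ∃ r : V → ι → ℝ, RateOK X (L.lists Av Bv) k e R η r

theorem PreOK.e_le {V ι : Type} [Fintype V] [Fintype ι] {X : World ι} {L : Low V ι}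
    {Bd : ι → ι → Prop} {k Q : ℝ} {C K : ℕ} {e ε : ℝ} (h : PreOK X L Bd k Q C K e ε)
    (he : e ≤ 1 / 8) : e ≤ ∑ i ∈ X.A, X.w i := by
  have h1 := h.s1
  have h2 := h.s2
  change X.s - e ≤ ∑ i ∈ X.A, X.w i at h2
  linarith

/-- **`Lim4` from the rule and the certificate.** -/
theorem lim4_of {t : Prop} {U : ℝ → Prop} {Q : ℝ} (hR : RuleStmt) (hC : CertStmt4 t U Q) :
    Lim4 t U Q := by
  intro C
  obtain ⟨e, he0, he8, hC⟩ := hC C
  refine ⟨e, he0, he8, fun K ζ hζ => ?_⟩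
  obtain ⟨R, η, ε₀, hη, hε₀, hC⟩ := hC K
  obtain ⟨B, ε, hε, hεε, h⟩ := scheme_core hR he0 he8 K (R := R) hη hε₀ hζ
  refine ⟨B, ε, hε, fun V ι _ _ X L Bd k hP hthr hU => ?_⟩
  by_cases hs : X.s < 1 + 3 * e
  · obtain ⟨As, hAs, hAsw, h1⟩ := hC V ι X L Bd k (hP.mono hεε) hthr hU hs
    exact ⟨As, hAs, hAsw, fun i0 hi0 Av Bv hL => h V ι X _ Bd k Q C (hP.worldOK hL) fun _ =>
      h1 i0 hi0 Av Bv (hL.mono hεε)⟩
  · exact ⟨X.A, subset_rfl, hP.e_le he8, fun i0 _ Av Bv hL =>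
      h V ι X _ Bd k Q C (hP.worldOK hL) fun hs' => absurd hs' hs⟩

/-- LIM with the threshold hypothesis gives LIM v4. -/
theorem lim4_of_lim3 {U : ℝ → Prop} {Q : ℝ} (hC : Lim3 Q) : Lim4 True U Q := by
  intro C
  obtain ⟨e, he0, he8, hC⟩ := hC C
  refine ⟨e, he0, he8, fun K ζ hζ => ?_⟩
  obtain ⟨B, ε, hε, hC⟩ := hC K ζ hζ
  exact ⟨B, ε, hε, fun V ι _ _ X L Bd k hP hthr _ =>
    ⟨X.A, subset_rfl, hP.e_le he8, fun i0 _ Av Bv hL =>
      hC V ι X _ Bd k (hP.worldOK hL) (hthr trivial)⟩⟩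

/-- LIM gives LIM v4. -/
theorem lim4_of_lim {t : Prop} {U : ℝ → Prop} {Q : ℝ} (hC : Lim Q) : Lim4 t U Q := by
  intro C
  obtain ⟨e, he0, he8, hC⟩ := hC C
  refine ⟨e, he0, he8, fun K ζ hζ => ?_⟩
  obtain ⟨B, ε, hε, hC⟩ := hC K ζ hζ
  exact ⟨B, ε, hε, fun V ι _ _ X L Bd k hP _ _ =>
    ⟨X.A, subset_rfl, hP.e_le he8, fun i0 _ Av Bv hL =>
      hC V ι X _ Bd k (hP.worldOK hL)⟩⟩

/-- A certificate is a certificate v4. -/
theorem cert4_of_cert {t : Prop} {U : ℝ → Prop} {Q : ℝ} (hC : CertStmt Q) :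
    CertStmt4 t U Q := by
  intro C
  obtain ⟨e, he0, he8, hC⟩ := hC C
  refine ⟨e, he0, he8, fun K => ?_⟩
  obtain ⟨R, η, ε, hη, hε, hC⟩ := hC K
  exact ⟨R, η, ε, hη, hε, fun V ι _ _ X L Bd k hP _ _ hs =>
    ⟨X.A, subset_rfl, hP.e_le he8, fun i0 _ Av Bv hL =>
      hC V ι X _ Bd k (hP.worldOK hL) hs⟩⟩

end

end Pool.Agent.T6A
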