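import Pool.Agent.T6A.Thr3

/-!
# Splitting LIM by the total weight (MP_c6effb_co)
-/

set_option autoImplicit false

open Finset

namespace Pool.Agent.T6A

noncomputable section

section

variable {V ι Om : Type} [Fintype V] [Fintype ι]

theorem WorldOK.mono_e {X : World ι} {L : Low V ι} {Bd : ι → ι → Prop} {k Q Q' : ℝ} {C K : ℕ}
    {e e' ε ε' : ℝ} (h : WorldOK X L Bd k Q C K e ε) (hQ : 1 + Q' - e' ≤ X.tot) (he : e ≤ e')
    (hε : ε ≤ ε') : WorldOK X L Bd k Q' C K e' ε' := by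
  have hk := h.k0
  refine ⟨h.k0, h.cV, ?_, hQ, h.tot2, ?_, ?_, ?_, ?_, ?_, h.dK, h.jK, h.bsymm, h.brefl, ?_, h.AvA,
    ?_, h.BvA, h.BvE, ?_⟩
  · exact le_trans (mul_le_mul_of_nonneg_right (by linarith) hk.le) h.cV'
  · exact h.deg.trans (mul_le_mul_of_nonneg_right (by linarith) hk.le)
  · linarith [h.s1]
  · linarith [h.s2]
  · exact h.Ec.trans (mul_le_mul_of_nonneg_right he hk.le)
  · intro v hv
    have h1 := h.mind v hv
    have h2 : ((L.d v : ℝ) + L.j v) * (X.s + e) ≤ ((L.d v : ℝ) + L.j v) * (X.s + e') :=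
      mul_le_mul_of_nonneg_left (by linarith) (by positivity)
    linarith
  · exact fun i => (h.bsmall i).trans hε
  · exact fun v => (h.Avw v).trans hε
  · intro v hv
    exact (h.Bvw v hv).trans (by linarith)

theorem ThrW.mono_e {X : World ι} {L : Low V ι} {k e e' : ℝ} (hk : 0 ≤ k) (h : ThrW X L k e)
    (he : e ≤ e') : ThrW X L k e' := by
  intro d hd
  have h1 := h d ((mul_le_mul_of_nonneg_right he hk).trans hd)
  have h2 : (0 : ℝ) ≤ X.tot := sum_nonneg fun i _ => (X.pos i).le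
  have h3 : (1 - e') * X.tot ≤ (1 - e) * X.tot := mul_le_mul_of_nonneg_right (by linarith) h2
  have h4 : (1 + (d : ℝ)) * (X.s + e) ≤ (1 + d) * (X.s + e') :=
    mul_le_mul_of_nonneg_left (by linarith) (by positivity)
  linarith

theorem Scheme.mono_e [Fintype Om] {X : World ι} {L : Low V ι} {Bd : ι → ι → Prop} {k e e' ζ : ℝ}
    {B B' : ℕ} {p : V → Om → ℝ} {g : (V → Om) → V → ι} {b : (V → Om) → V → Option ι}
    {Bn : V → Finset V} {φ : ι → ι → ℝ} (h : Scheme X L Bd k e ζ B p g b Bn φ) (hk : 0 ≤ k)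
    (he : e' ≤ e) (hB : B ≤ B') : Scheme X L Bd k e' ζ B' p g b Bn φ := by
  refine ⟨h.law, h.loc, fun v => (h.ov v).trans hB, h.mem, h.st, h.tt, h.φ0, h.φA, h.cls, ?_, ?_,
    h.out⟩
  · intro a ha
    refine (h.lA a ha).trans (mul_le_mul_of_nonneg_right ?_ hk)
    exact mul_le_mul_of_nonneg_right (by linarith) (X.pos a).le
  · intro y hy
    exact (h.lB y hy).trans (mul_le_mul_of_nonneg_right (by linarith) (X.pos y).le)

end

/-- LIM for total weights at most `1 + Q'`. -/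
def LimR (Q Q' : ℝ) : Prop := ∀ C : ℕ, ∃ e : ℝ, 0 < e ∧ e ≤ 1 / 8 ∧ ∀ (K : ℕ) (ζ : ℝ), 0 < ζ →
  ∃ (B : ℕ) (ε : ℝ), 0 < ε ∧ ∀ (V ι : Type) [Fintype V] [Fintype ι] (X : World ι) (L : Low V ι)
    (Bd : ι → ι → Prop) (k : ℝ), WorldOK X L Bd k Q C K e ε → X.tot ≤ 1 + Q' →
    ∃ (Om : Type) (_ : Fintype Om) (p : V → Om → ℝ) (g : (V → Om) → V → ι)
      (b : (V → Om) → V → Option ι) (Bn : V → Finset V) (φ : ι → ι → ℝ),
      Scheme X L Bd k e ζ B p g b Bn φ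

/-- LIM with threshold for total weights at most `1 + Q'`. -/
def Lim3R (Q Q' : ℝ) : Prop := ∀ C : ℕ, ∃ e : ℝ, 0 < e ∧ e ≤ 1 / 8 ∧ ∀ (K : ℕ) (ζ : ℝ), 0 < ζ →
  ∃ (B : ℕ) (ε : ℝ), 0 < ε ∧ ∀ (V ι : Type) [Fintype V] [Fintype ι] (X : World ι) (L : Low V ι)
    (Bd : ι → ι → Prop) (k : ℝ), WorldOK X L Bd k Q C K e ε → ThrW X L k e → X.tot ≤ 1 + Q' →
    ∃ (Om : Type) (_ : Fintype Om) (p : V → Om → ℝ) (g : (V → Om) → V → ι)
      (b : (V → Om) → V → Option ι) (Bn : V → Finset V) (φ : ι → ι → ℝ),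
      Scheme X L Bd k e ζ B p g b Bn φ

theorem lim_split {Q Q' : ℝ} (h1 : LimR Q Q') (h2 : Lim Q') : Lim Q := by
  intro C
  obtain ⟨e₁, he₁, he₁8, h1⟩ := h1 C
  obtain ⟨e₂, he₂, he₂8, h2⟩ := h2 C
  refine ⟨min e₁ e₂, lt_min he₁ he₂, (min_le_left _ _).trans he₁8, fun K ζ hζ => ?_⟩
  obtain ⟨B₁, ε₁, hε₁, h1⟩ := h1 K ζ hζ
  obtain ⟨B₂, ε₂, hε₂, h2⟩ := h2 K ζ hζ
  refine ⟨max B₁ B₂, min ε₁ ε₂, lt_min hε₁ hε₂, ?_⟩
  intro V ι _ _ X L Bd k hW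
  have hk := hW.k0
  rcases le_or_gt X.tot (1 + Q') with h | h
  · obtain ⟨Om, iOm, p, g, b, Bn, φ, hs⟩ := h1 V ι X L Bd k (hW.mono_e
      (by linarith [hW.tot1, min_le_left e₁ e₂]) (min_le_left _ _) (min_le_left _ _)) h
    exact ⟨Om, iOm, p, g, b, Bn, φ, hs.mono_e hk.le (min_le_left _ _) (le_max_left _ _)⟩
  · obtain ⟨Om, iOm, p, g, b, Bn, φ, hs⟩ := h2 V ι X L Bd k (hW.mono_e
      (by linarith) (min_le_right _ _) (min_le_right _ _))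
    exact ⟨Om, iOm, p, g, b, Bn, φ, hs.mono_e hk.le (min_le_right _ _) (le_max_right _ _)⟩

theorem lim3_split {Q Q' : ℝ} (h1 : Lim3R Q Q') (h2 : Lim3 Q') : Lim3 Q := by
  intro C
  obtain ⟨e₁, he₁, he₁8, h1⟩ := h1 C
  obtain ⟨e₂, he₂, he₂8, h2⟩ := h2 C
  refine ⟨min e₁ e₂, lt_min he₁ he₂, (min_le_left _ _).trans he₁8, fun K ζ hζ => ?_⟩
  obtain ⟨B₁, ε₁, hε₁, h1⟩ := h1 K ζ hζ
  obtain ⟨B₂, ε₂, hε₂, h2⟩ := h2 K ζ hζ
  refine ⟨max B₁ B₂, min ε₁ ε₂, lt_min hε₁ hε₂, ?_⟩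
  intro V ι _ _ X L Bd k hW hT
  have hk := hW.k0
  rcases le_or_gt X.tot (1 + Q') with h | h
  · obtain ⟨Om, iOm, p, g, b, Bn, φ, hs⟩ := h1 V ι X L Bd k (hW.mono_e
      (by linarith [hW.tot1, min_le_left e₁ e₂]) (min_le_left _ _) (min_le_left _ _))
      (hT.mono_e hk.le (min_le_left _ _)) h
    exact ⟨Om, iOm, p, g, b, Bn, φ, hs.mono_e hk.le (min_le_left _ _) (le_max_left _ _)⟩
  · obtain ⟨Om, iOm, p, g, b, Bn, φ, hs⟩ := h2 V ι X L Bd k (hW.mono_e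
      (by linarith) (min_le_right _ _) (min_le_right _ _)) (hT.mono_e hk.le (min_le_right _ _))
    exact ⟨Om, iOm, p, g, b, Bn, φ, hs.mono_e hk.le (min_le_right _ _) (le_max_right _ _)⟩

theorem lim3_of_lim {Q : ℝ} (h : Lim Q) : Lim3 Q := by
  intro C
  obtain ⟨e, he, he8, h⟩ := h C
  refine ⟨e, he, he8, fun K ζ hζ => ?_⟩
  obtain ⟨B, ε, hε, h⟩ := h K ζ hζ
  exact ⟨B, ε, hε, fun V ι _ _ X L Bd k hW _ => h V ι X L Bd k hW⟩

end

end Pool.Agent.T6A
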