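import Pool.Agent.T6A.CertStmtsB
import Pool.Agent.T6A.LineCert

/-!
# The supporting line of CERT v2: `LineStmt` (MP_c6effb_co)

`s` = sigma, `r = 1/(2q)`, `t` = relative excess of the price over `2q`. The polynomial certificates
are in `LineCert.lean`; an item of the menu is used exactly where its condition (N1) holds and the one
of the previous item fails.
-/

set_option autoImplicit false

namespace Pool.Agent.T6A.LineC

/-- The line condition for all `u` between the two ends. -/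
def Good (xi h s r rho L mu : ℝ) : Prop := ∀ u : ℝ, uC h s r rho ≤ u → u ≤ wC s r →
  0 ≤ fC xi ((xi + (1 - mu) ^ 2 / xi) / 2) s r rho L u

/-- The choice of the item. -/
def Sel (xi h s r rho L : ℝ) : Prop :=
  (0 ≤ nC (37 / 200) (967 / 2000) (-(9 / 200)) xi h s r rho ∧ Good xi h s r rho L (37 / 200)) ∨
  (0 ≤ nC (4 / 25) (459 / 1000) (-(1 / 50)) xi h s r rho ∧ Good xi h s r rho L (4 / 25)) ∨
  (0 ≤ nC (3 / 25) (831 / 2000) (1 / 20) xi h s r rho ∧ Good xi h s r rho L (3 / 25)) ∨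
  Good xi h s r rho L 0

theorem ends {xi e s r rho L u1 u2 u : ℝ} (h1 : u1 ≤ u) (h2 : u ≤ u2)
    (e1 : 0 ≤ fC xi e s r rho L u1) (e2 : 0 ≤ fC xi e s r rho L u2) :
    0 ≤ fC xi e s r rho L u := by
  rcases eq_or_lt_of_le (h1.trans h2) with h | h
  · have : u = u1 := le_antisymm (by rw [h]; exact h2) h1
    rw [this]
    exact e1
  · have h3 : 0 < u2 - u1 := by linarith
    have h7 : (u2 - u1) * fC xi e s r rho L u =
        (u2 - u) * fC xi e s r rho L u1 + (u - u1) * fC xi e s r rho L u2 +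
          (u2 - u1) * ((u - u1) * (u2 - u)) := by
      simp only [fC]
      ring
    have h8 : 0 ≤ (u2 - u1) * fC xi e s r rho L u := by
      rw [h7]
      have a1 := mul_nonneg (by linarith : 0 ≤ u2 - u) e1
      have a2 := mul_nonneg (by linarith : 0 ≤ u - u1) e2
      have a3 := mul_nonneg h3.le (mul_nonneg (by linarith : 0 ≤ u - u1) (by linarith : 0 ≤ u2 - u))
      linarith
    exact nonneg_of_mul_nonneg_right h8 h3

theorem slope {xi e s r rho L u1 u2 u : ℝ} (h1 : u1 ≤ u) (h2 : u ≤ u2)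
    (e1 : 0 ≤ fC xi e s r rho L u1) (g : 0 ≤ 2 * zC xi s r - 2 * e * s * rho - u1 - u2) :
    0 ≤ fC xi e s r rho L u := by
  have h7 : fC xi e s r rho L u = fC xi e s r rho L u1 +
      (u - u1) * ((2 * zC xi s r - 2 * e * s * rho - u1 - u2) + (u2 - u)) := by
    simp only [fC]
    ring
  rw [h7]
  have := mul_nonneg (by linarith : 0 ≤ u - u1)
    (by linarith : 0 ≤ (2 * zC xi s r - 2 * e * s * rho - u1 - u2) + (u2 - u))
  linarith

theorem good_G {xi h s r rho L mu e : ℝ} (he : (xi + (1 - mu) ^ 2 / xi) / 2 = e)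
    (e1 : 0 ≤ fC xi e s r rho L (uC h s r rho)) (g : 0 ≤ gC xi e h s r rho) :
    Good xi h s r rho L mu := by
  intro u h1 h2
  rw [he]
  exact slope h1 h2 e1 g

theorem good_W {xi h s r rho L mu e : ℝ} (he : (xi + (1 - mu) ^ 2 / xi) / 2 = e)
    (e1 : 0 ≤ fC xi e s r rho L (uC h s r rho)) (e2 : 0 ≤ fC xi e s r rho L (wC s r)) :
    Good xi h s r rho L mu := by
  intro u h1 h2
  rw [he]
  exact ends h1 h2 e1 e2

section

variable {s r t : ℝ}

theorem sel00 (s1 : 0 ≤ s - (499 / 1000)) (s2 : 0 ≤ (119 / 200) - s) (r1 : 0 ≤ r)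
    (r2 : 0 ≤ (51 / 1000) - r) (t1 : 0 ≤ t + (17 / 100)) (t2 : 0 ≤ (6 / 5) - t)
    (hd : 0 ≤ 2 * s * (1 + t) - 1) :
    Sel (21 / 25) 0 s r (1 + t) (1 - s - 43 / 100 * t) := by
  rcases le_total 0 (nC (37 / 200) (967 / 2000) (-(9 / 200)) (21 / 25) 0 s r (1 + t)) with h0 | h0
  · exact Or.inl ⟨h0, good_G (by norm_num) (k0000J s1 s2 r1 r2 t1 t2 hd h0)
      (k0000W s1 s2 r1 r2 t1 t2 h0)⟩
  have h0' := neg_nonneg.2 h0
  right
  rcases le_total 0 (nC (4 / 25) (459 / 1000) (-(1 / 50)) (21 / 25) 0 s r (1 + t)) with h1 | h1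
  · refine Or.inl ⟨h1, good_G (e := 21 / 25) (by norm_num) ?_ (k0010W s1 s2 r1 r2 t1 t2 h1)⟩
    rcases le_total t 0 with a | a
    · exact k0010J s1 s2 r1 r2 t1 (by linarith) hd h0'
    · rcases le_total t (3 / 10) with b | b
      · exact k0011J s1 s2 r1 r2 (by linarith) (by linarith) h0'
      · rcases le_total t (3 / 5) with c | c
        · exact (k0012J s1 s2 r1 r2 (by linarith) (by linarith) h1).elim
        · exact (k0013J s1 s2 r1 r2 (by linarith) t2 h1).elim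
  have h1' := neg_nonneg.2 h1
  right
  rcases le_total 0 (nC (3 / 25) (831 / 2000) (1 / 20) (21 / 25) 0 s r (1 + t)) with h2 | h2
  · exact Or.inl ⟨h2, good_G (by norm_num) (k0020J s1 s2 r1 r2 t1 t2 h1')
      (k0020W s1 s2 r1 r2 t1 t2 h2)⟩
  have h2' := neg_nonneg.2 h2
  right
  rcases le_total t (1 / 2) with ht | ht
  · exact good_W (by norm_num) (k0030J s1 s2 r1 r2 t1 (by linarith) hd h2')
      (k0030W s1 s2 r1 r2 t1 (by linarith) h2')
  · exact good_W (by norm_num) (k0031J s1 s2 r1 r2 (by linarith) t2)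
      (k0031W s1 s2 r1 r2 (by linarith) t2)

theorem sel01 (s1 : 0 ≤ s - (119 / 200)) (s2 : 0 ≤ (143 / 200) - s) (r1 : 0 ≤ r)
    (r2 : 0 ≤ (51 / 1000) - r) (t1 : 0 ≤ t + (31 / 100)) (t2 : 0 ≤ (19 / 20) - t)
    (hL : 0 ≤ 1 - s - 43 / 100 * t + 1 / 2000) (hd : 0 ≤ 2 * s * (1 + t) - 1) :
    Sel (22 / 25) 0 s r (1 + t) (1 - s - 43 / 100 * t) := by
  right
  rcases le_total 0 (nC (4 / 25) (459 / 1000) (-(1 / 50)) (22 / 25) 0 s r (1 + t)) with h1 | h1
  · exact Or.inl ⟨h1, good_G (by norm_num) (k0110J s1 s2 r1 r2 t1 t2 hd)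
      (k0110W s1 s2 r1 r2 t1 t2)⟩
  have h1' := neg_nonneg.2 h1
  right
  rcases le_total 0 (nC (3 / 25) (831 / 2000) (1 / 20) (22 / 25) 0 s r (1 + t)) with h2 | h2
  · exact Or.inl ⟨h2, good_G (by norm_num) (k0120J s1 s2 r1 r2 t1 t2 h1')
      (k0120W s1 s2 r1 r2 t1 t2 hL h2)⟩
  have h2' := neg_nonneg.2 h2
  right
  exact good_W (by norm_num) (k0130J s1 s2 r1 r2 t1 t2 h2') (k0130W s1 s2 r1 r2 t1 t2)

theorem sel02 (s1 : 0 ≤ s - (143 / 200)) (s2 : 0 ≤ (101 / 100) - s) (r1 : 0 ≤ r)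
    (r2 : 0 ≤ (51 / 1000) - r) (t1 : 0 ≤ t + (51 / 100)) (t2 : 0 ≤ (67 / 100) - t)
    (hd : 0 ≤ 2 * s * (1 + t) - 1) :
    Sel 1 0 s r (1 + t) (1 - s - 43 / 100 * t) := by
  right
  right
  right
  exact good_G (by norm_num) (k0230J s1 s2 r1 r2 t1 t2 hd) (k0230W s1 s2 r1 r2 t1 t2)

theorem sel10 (s1 : 0 ≤ s - (499 / 1000)) (s2 : 0 ≤ (119 / 200) - s) (r1 : 0 ≤ r)
    (r2 : 0 ≤ (51 / 1000) - r) (t1 : 0 ≤ t + (17 / 100)) (t2 : 0 ≤ (6 / 5) - t)
    (hd : 0 ≤ 2 * s * (1 + t) - 1) :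
    Sel (21 / 25) 1 s r (1 + t - 2 * r) (1 - s - 43 / 100 * t) := by
  right
  rcases le_total 0 (nC (4 / 25) (459 / 1000) (-(1 / 50)) (21 / 25) 1 s r (1 + t - 2 * r))
    with h1 | h1
  · refine Or.inl ⟨h1, good_G (e := 21 / 25) (by norm_num) ?_ (k1010W s1 s2 r1 r2 t1 t2 h1)⟩
    rcases le_total t (1 / 2) with a | a
    · exact k1010J s1 s2 r1 r2 t1 (by linarith) hd
    · exact (k1011J s1 s2 r1 r2 (by linarith) t2 h1).elim
  have h1' := neg_nonneg.2 h1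
  right
  rcases le_total 0 (nC (3 / 25) (831 / 2000) (1 / 20) (21 / 25) 1 s r (1 + t - 2 * r))
    with h2 | h2
  · exact Or.inl ⟨h2, good_G (by norm_num) (k1020J s1 s2 r1 r2 t1 t2 h1')
      (k1020W s1 s2 r1 r2 t1 t2 h2)⟩
  have h2' := neg_nonneg.2 h2
  right
  exact good_W (by norm_num) (k1030J s1 s2 r1 r2 t1 t2 h2') (k1030W s1 s2 r1 r2 t1 t2 h2')

theorem sel11 (s1 : 0 ≤ s - (119 / 200)) (s2 : 0 ≤ (143 / 200) - s) (r1 : 0 ≤ r)
    (r2 : 0 ≤ (51 / 1000) - r) (t1 : 0 ≤ t + (31 / 100)) (t2 : 0 ≤ (19 / 20) - t)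
    (hd : 0 ≤ 2 * s * (1 + t) - 1) :
    Sel (22 / 25) 1 s r (1 + t - 2 * r) (1 - s - 43 / 100 * t) := by
  right
  right
  rcases le_total 0 (nC (3 / 25) (831 / 2000) (1 / 20) (22 / 25) 1 s r (1 + t - 2 * r))
    with h2 | h2
  · exact Or.inl ⟨h2, good_G (by norm_num) (k1120J s1 s2 r1 r2 t1 t2 hd)
      (k1120W s1 s2 r1 r2 t1 t2)⟩
  have h2' := neg_nonneg.2 h2
  right
  exact good_W (by norm_num) (k1130J s1 s2 r1 r2 t1 t2 h2') (k1130W s1 s2 r1 r2 t1 t2)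

theorem sel12 (s1 : 0 ≤ s - (143 / 200)) (s2 : 0 ≤ (101 / 100) - s) (r1 : 0 ≤ r)
    (r2 : 0 ≤ (51 / 1000) - r) (t1 : 0 ≤ t + (51 / 100)) (t2 : 0 ≤ (67 / 100) - t)
    (hd : 0 ≤ 2 * s * (1 + t) - 1) :
    Sel 1 1 s r (1 + t - 2 * r) (1 - s - 43 / 100 * t) := by
  right
  right
  right
  exact good_G (by norm_num) (k1230J s1 s2 r1 r2 t1 t2 hd) (k1230W s1 s2 r1 r2 t1 t2)

/-- The range of `t`. -/
theorem range_t (hs : 1 / 2 ≤ s) (hs' : s ≤ 101 / 100)
    (hL : 0 ≤ 1 - s - 43 / 100 * t + 1 / 2000) (hd : 0 ≤ 2 * s * (1 + t) - 1) :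
    (s < 119 / 200 → 0 ≤ t + 17 / 100 ∧ 0 ≤ 6 / 5 - t) ∧
    (119 / 200 ≤ s → s < 143 / 200 → 0 ≤ t + 31 / 100 ∧ 0 ≤ 19 / 20 - t) ∧
    (143 / 200 ≤ s → 0 ≤ t + 51 / 100 ∧ 0 ≤ 67 / 100 - t) := by
  refine ⟨fun h => ⟨?_, by linarith⟩, fun h1 h2 => ⟨?_, by linarith⟩, fun h => ⟨?_, by linarith⟩⟩
  · by_contra hc
    nlinarith
  · by_contra hc
    nlinarith
  · by_contra hc
    nlinarith

end

end Pool.Agent.T6A.LineC

open Pool.Agent.T6A.Cert (Nd)

namespace Pool.Agent.T6A.CertB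

open LineC

/-- Hub = 0, scaled. -/
theorem sel_nohub {s r t : ℝ} (hs : 1 / 2 ≤ s) (hs' : s ≤ 101 / 100) (r1 : 0 ≤ r)
    (r2 : 0 ≤ (51 / 1000) - r) (hL : 0 ≤ 1 - s - 43 / 100 * t + 1 / 2000)
    (hd : 0 ≤ 2 * s * (1 + t) - 1) :
    Sel (xiF s) 0 s r (1 + t) (1 - s - 43 / 100 * t) := by
  obtain ⟨a, b, c⟩ := range_t hs hs' hL hd
  unfold xiF
  split_ifs with h1 h2
  · exact sel00 (by linarith) (by linarith) r1 r2 (a h1).1 (a h1).2 hd
  · exact sel01 (by linarith) (by linarith) r1 r2 (b (not_lt.1 h1) h2).1 (b (not_lt.1 h1) h2).2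
      hL hd
  · exact sel02 (by linarith) (by linarith) r1 r2 (c (not_lt.1 h2)).1 (c (not_lt.1 h2)).2 hd

/-- Hub = 1, scaled. -/
theorem sel_hub {s r t : ℝ} (hs : 1 / 2 ≤ s) (hs' : s ≤ 101 / 100) (r1 : 0 ≤ r)
    (r2 : 0 ≤ (51 / 1000) - r) (hL : 0 ≤ 1 - s - 43 / 100 * t + 1 / 2000)
    (hd : 0 ≤ 2 * s * (1 + t) - 1) :
    Sel (xiF s) 1 s r (1 + t - 2 * r) (1 - s - 43 / 100 * t) := by
  obtain ⟨a, b, c⟩ := range_t hs hs' hL hd
  unfold xiF
  split_ifs with h1 h2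
  · exact sel10 (by linarith) (by linarith) r1 r2 (a h1).1 (a h1).2 hd
  · exact sel11 (by linarith) (by linarith) r1 r2 (b (not_lt.1 h1) h2).1 (b (not_lt.1 h1) h2).2 hd
  · exact sel12 (by linarith) (by linarith) r1 r2 (c (not_lt.1 h2)).1 (c (not_lt.1 h2)).2 hd

/-- Hub = 1, `d ≤ 9`, scaled. -/
theorem small_hub {s r t u : ℝ} (hs : 1 / 2 ≤ s) (hs' : s ≤ 101 / 100) (r1 : 0 ≤ r)
    (r2 : 0 ≤ (51 / 1000) - r) (hL : 0 ≤ 1 - s - 43 / 100 * t + 1 / 2000)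
    (hd : 0 ≤ 2 * s * (1 + t) - 1) (h1 : vC 1 s r - 57 / 10 * r * s ≤ u) (h2 : u ≤ wC s r) :
    0 ≤ fC (xiF s) ((xiF s + 1 / xiF s) / 2) s r (9 * r) (1 - s - 43 / 100 * t) u := by
  obtain ⟨a, b, c⟩ := range_t hs hs' hL hd
  unfold xiF
  split_ifs with e1 e2
  · have he : ((21 / 25 : ℝ) + 1 / (21 / 25)) / 2 = 533 / 525 := by norm_num
    rw [he]
    refine slope h1 h2 (s0J (s := s) (by linarith) (by linarith) r1 r2 (a e1).1 (a e1).2) ?_
    have := s0G (s := s) (by linarith) (by linarith) r1 r2 (a e1).1 (a e1).2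
    linarith
  · have he : ((22 / 25 : ℝ) + 1 / (22 / 25)) / 2 = 1109 / 1100 := by norm_num
    rw [he]
    refine slope h1 h2 (s1J (s := s) (by linarith) (by linarith) r1 r2 (b (not_lt.1 e1) e2).1
      (b (not_lt.1 e1) e2).2) ?_
    have := s1G (s := s) (by linarith) (by linarith) r1 r2 (b (not_lt.1 e1) e2).1 (b (not_lt.1 e1) e2).2
    linarith
  · have he : ((1 : ℝ) + 1 / 1) / 2 = 1 := by norm_num
    rw [he]
    refine slope h1 h2 (s2J (s := s) (by linarith) (by linarith) r1 r2 (c (not_lt.1 e2)).1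
      (c (not_lt.1 e2)).2 hd) ?_
    have := s2G (s := s) (by linarith) (by linarith) r1 r2 (c (not_lt.1 e2)).1 (c (not_lt.1 e2)).2
    linarith

theorem xiF_ge (s : ℝ) : 21 / 25 ≤ xiF s := by
  unfold xiF
  split_ifs <;> norm_num

theorem xiF_le (s : ℝ) : xiF s ≤ 1 := by
  unfold xiF
  split_ifs <;> norm_num

theorem zC_pos {s r : ℝ} (hs : 1 / 2 ≤ s) (hs' : s ≤ 101 / 100) (r1 : 0 ≤ r)
    (r2 : 0 ≤ (51 / 1000) - r) : 1 ≤ zC (xiF s) s r := by
  have h := xiF_ge s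
  unfold zC
  have h1 : 0 ≤ s * (xiF s - 21 / 25) := mul_nonneg (by linarith) (by linarith)
  have h2 : 0 ≤ s * r := mul_nonneg (by linarith) r1
  have h3 : s * r ≤ s * (51 / 1000) := mul_le_mul_of_nonneg_left (by linarith) (by linarith)
  nlinarith

/-- back to the original variables -/
theorem conv {q r z s e d u L : ℝ} (hqr : q * r = 1 / 2) (hq : 0 < q) (hz : 0 < z)
    (h : z ^ 2 * L ≤ u * (2 * z - u - 2 * e * s * (d * r))) :
    L ≤ 1 / (q * z) * (q * u) * (2 - 1 / (q * z) * (q * u + s * (d * e))) := by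
  have h1 : s * (d * e) = q * (2 * e * s * (d * r)) := by
    linear_combination (-2 * e * s * d) * hqr
  have h2 : 1 / (q * z) * (q * u) * (2 - 1 / (q * z) * (q * u + s * (d * e))) =
      u * (2 * z - u - 2 * e * s * (d * r)) / z ^ 2 := by
    rw [h1]
    field_simp
    ring
  rw [h2, le_div_iff₀ (by positivity)]
  linarith

theorem lam_eq {q s r : ℝ} (hq : 0 < q) (hr : r = 1 / (2 * q)) :
    lamF q s = 1 / (q * zC (xiF s) s r) := by
  unfold lamF zC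
  congr 1
  rw [hr]
  field_simp
  ring

theorem n1_conv {q r s h mu b1 b0 xi rho d : ℝ} (hqr : q * r = 1 / 2) (hq : 0 < q) (hs : 0 < s)
    (hz : 0 < zC xi s r) (hb : 0 ≤ b1) (hrho : d / 2 ≤ q * rho)
    (hn : 0 ≤ nC mu b1 b0 xi h s r rho) :
    mu ≤ 1 / (q * zC xi s r) * ((1 - mu) * ((q + 1 - s) - h * s - s) - (b1 * d + b0) * s) := by
  rw [one_div, inv_mul_eq_div, le_div_iff₀ (by positivity)]
  have h1 : 0 ≤ q * nC mu b1 b0 xi h s r rho := mul_nonneg hq.le hn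
  have h2 : q * nC mu b1 b0 xi h s r rho = (1 - mu) * ((q + 1 - s) - h * s - s) -
      (b1 * d + b0) * s - mu * (q * zC xi s r) - 1 / 1000 * (q * zC xi s r) -
      2 * s * b1 * (q * rho - d / 2) +
      (2 * (1 - mu) * (1 - s) - 2 * (1 - mu) * h * s - 2 * (1 - mu) * s - 2 * s * b0) *
        (q * r - 1 / 2) := by
    unfold nC vC
    ring
  rw [h2, hqr] at h1
  have h3 : 0 ≤ 2 * s * b1 * (q * rho - d / 2) :=
    mul_nonneg (by positivity) (by linarith)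
  have h4 : 0 < q * zC xi s r := by positivity
  linarith

theorem n2 {q r s : ℝ} (hqr : q * r = 1 / 2) (hq : 0 < q) (hs : 1 / 2 ≤ s) (hs' : s ≤ 101 / 100)
    (r1 : 0 ≤ r) (r2 : 0 ≤ (51 / 1000) - r) :
    1 / (q * zC (xiF s) s r) * (29 / 25 * ((q + 1 - s) + 1 / 100) + 42 / 25 * s) ≤ 21 / 25 := by
  have hz := zC_pos hs hs' r1 r2
  rw [one_div, inv_mul_eq_div, div_le_iff₀ (by positivity)]
  have h0 := xiF_ge s
  have e : 21 / 25 * (q * zC (xiF s) s r) - (29 / 25 * ((q + 1 - s) + 1 / 100) + 42 / 25 * s) =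
      q * (21 / 25 * zC (xiF s) s r - (29 / 25 * (1 + 2 * r * (1 - s) + 1 / 50 * r) +
        84 / 25 * s * r)) + (29 / 25 * (2 * (1 - s) + 1 / 50) + 84 / 25 * s) * (q * r - 1 / 2) := by
    ring
  have h1 : 0 ≤ 21 / 25 * zC (xiF s) s r - (29 / 25 * (1 + 2 * r * (1 - s) + 1 / 50 * r) +
        84 / 25 * s * r) := by
    unfold zC
    have h1 : 0 ≤ s * (xiF s - 21 / 25) := mul_nonneg (by linarith) (by linarith)
    have h2 : s * r ≤ s * (51 / 1000) := mul_le_mul_of_nonneg_left (by linarith) (by linarith)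
    nlinarith
  rw [hqr, sub_self, mul_zero, add_zero] at e
  have := mul_nonneg hq.le h1
  linarith

theorem n3 {q r s mu : ℝ} (hqr : q * r = 1 / 2) (hq : 0 < q) (hs : 1 / 2 ≤ s)
    (hs' : s ≤ 101 / 100) (r1 : 0 ≤ r) (r2 : 0 ≤ (51 / 1000) - r) (hmu : mu ≤ 37 / 200) :
    1 / (q * zC (xiF s) s r) * (3 / 10) * ((q + 1 - s) + 1 / 100) ≤ (1 - mu) / 2 := by
  have hz := zC_pos hs hs' r1 r2
  rw [mul_assoc, one_div, inv_mul_eq_div, div_le_iff₀ (by positivity)]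
  have h0 := xiF_ge s
  have e : 163 / 400 * (q * zC (xiF s) s r) - 3 / 10 * ((q + 1 - s) + 1 / 100) =
      q * (163 / 400 * zC (xiF s) s r - 3 / 10 * (1 + 2 * r * (1 - s) + 1 / 50 * r)) +
        3 / 10 * (2 * (1 - s) + 1 / 50) * (q * r - 1 / 2) := by
    ring
  have h1 : 0 ≤ 163 / 400 * zC (xiF s) s r - 3 / 10 * (1 + 2 * r * (1 - s) + 1 / 50 * r) := by
    unfold zC
    have h1 : 0 ≤ s * (xiF s - 21 / 25) := mul_nonneg (by linarith) (by linarith)
    have h2 : s * r ≤ s * (51 / 1000) := mul_le_mul_of_nonneg_left (by linarith) (by linarith)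
    nlinarith
  rw [hqr, sub_self, mul_zero, add_zero] at e
  have h2 := mul_nonneg hq.le h1
  have h3 : 0 ≤ (37 / 200 - mu) / 2 * (q * zC (xiF s) s r) :=
    mul_nonneg (by linarith) (by positivity)
  nlinarith

/-- the value from the scaled certificate -/
theorem value {q r s d rho e L J : ℝ} (hqr : q * r = 1 / 2) (hq : 0 < q) (hs : 1 / 2 ≤ s)
    (hz : 0 < zC (xiF s) s r) (he : 0 ≤ e) (hJ : 0 ≤ J) (hrho : d * r ≤ rho)
    (h : 0 ≤ fC (xiF s) e s r rho L (J / q)) :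
    L + 1 / 1000 ≤ 1 / (q * zC (xiF s) s r) * J *
      (2 - 1 / (q * zC (xiF s) s r) * (J + s * (d * e))) := by
  have hJq : q * (J / q) = J := by field_simp
  have h1 := conv (s := s) (e := e) (d := d) (u := J / q) (L := L + 1 / 1000) hqr hq hz ?_
  · rwa [hJq] at h1
  · unfold fC at h
    have h2 : 0 ≤ (J / q) * (2 * e * s * (rho - d * r)) := by
      have : 0 ≤ rho - d * r := by linarith
      have : 0 ≤ J / q := by positivity
      positivity
    nlinarith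


theorem uC_nonneg {s r t h rho : ℝ} (hs : 1 / 2 ≤ s) (hs' : s ≤ 101 / 100) (r1 : 0 ≤ r)
    (r2 : 0 ≤ (51 / 1000) - r) (hL : 0 ≤ 1 - s - 43 / 100 * t + 1 / 2000) (h0 : 0 ≤ h)
    (h1 : h ≤ 1) (hrho : rho ≤ 1 + t) : 0 ≤ uC h s r rho := by
  unfold uC vC
  have e1 : s * rho ≤ s * (1 + t) := mul_le_mul_of_nonneg_left hrho (by linarith)
  have e2 : s * (43 / 100 * t) ≤ s * (1 - s + 1 / 2000) :=
    mul_le_mul_of_nonneg_left (by linarith) (by linarith)
  have e3 : s * r ≤ s * (51 / 1000) := mul_le_mul_of_nonneg_left (by linarith) (by linarith)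
  have e5 : 0 ≤ s * r := mul_nonneg (by linarith) r1
  have e4 : h * (s * r) ≤ 1 * (s * r) := mul_le_mul_of_nonneg_right h1 e5
  nlinarith [sq_nonneg (s - 143 / 200)]

theorem wrap {q r s h d rho t x e J mu : ℝ} (hqr : q * r = 1 / 2) (hq : 0 < q) (hs : 1 / 2 ≤ s)
    (hs' : s ≤ 101 / 100) (r1 : 0 ≤ r) (r2 : 0 ≤ (51 / 1000) - r)
    (hL : 0 ≤ 1 - s - 43 / 100 * t + 1 / 2000) (h0 : 0 ≤ h) (h1 : h ≤ 1) (hrho : rho ≤ 1 + t)
    (hd : d * r ≤ rho) (he : e = (xiF s + (1 - mu) ^ 2 / xiF s) / 2)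
    (hg : Good (xiF s) h s r rho (1 - s - 43 / 100 * t) mu)
    (hJ1 : q * uC h s r rho ≤ J) (hJ2 : J ≤ q * wC s r) (hx : Lx q s x ≤ 1 - s - 43 / 100 * t) :
    Lx q s x + 1 / 1000 ≤ 1 / (q * zC (xiF s) s r) * J *
      (2 - 1 / (q * zC (xiF s) s r) * (J + s * (d * e))) := by
  have hu := uC_nonneg hs hs' r1 r2 hL h0 h1 hrho
  have hJ0 : 0 ≤ J := le_trans (mul_nonneg hq.le hu) hJ1
  have hxi := xiF_ge s
  have he0 : 0 ≤ e := by rw [he]; positivity
  have h2 := hg (J / q) (by rw [le_div_iff₀ hq]; linarith) (by rw [div_le_iff₀ hq]; linarith)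
  rw [← he] at h2
  have h3 := value (d := d) hqr hq hs (by linarith [zC_pos hs hs' r1 r2]) he0 hJ0 hd h2
  linarith

theorem menu_part {q r s h rho d mu b1 b0 : ℝ} (hqr : q * r = 1 / 2) (hq : 0 < q)
    (hs : 1 / 2 ≤ s) (hs' : s ≤ 101 / 100) (r1 : 0 ≤ r) (r2 : 0 ≤ (51 / 1000) - r)
    (hb : 0 ≤ b1) (hd : d * r ≤ rho) (hmu : mu ≤ 37 / 200)
    (hn : 0 ≤ nC mu b1 b0 (xiF s) h s r rho) (hlam : lamF q s = 1 / (q * zC (xiF s) s r)) :
    mu ≤ lamF q s * ((1 - mu) * ((q + 1 - s) - h * s - s) - (b1 * d + b0) * s) ∧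
      lamF q s * (29 / 25 * ((q + 1 - s) + 1 / 100) + 42 / 25 * s) ≤ 21 / 25 ∧
      lamF q s * (3 / 10) * ((q + 1 - s) + 1 / 100) ≤ (1 - mu) / 2 := by
  rw [hlam]
  have hz := zC_pos hs hs' r1 r2
  refine ⟨n1_conv hqr hq (by linarith) (by linarith) hb ?_ hn, n2 hqr hq hs hs' r1 r2,
    n3 hqr hq hs hs' r1 r2 hmu⟩
  have : q * (d * r) ≤ q * rho := mul_le_mul_of_nonneg_left hd hq.le
  have h2 : q * (d * r) = d / 2 := by
    linear_combination d * hqr
  linarith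

/-- from the scaled selection to the statement -/
theorem finish {q r s h rho t x : ℝ} {d : ℕ} (hqr : q * r = 1 / 2) (hq : 0 < q) (hs : 1 / 2 ≤ s)
    (hs' : s ≤ 101 / 100) (r1 : 0 ≤ r) (r2 : 0 ≤ (51 / 1000) - r)
    (hL : 0 ≤ 1 - s - 43 / 100 * t + 1 / 2000) (h0 : 0 ≤ h) (h1 : h ≤ 1) (hrho : rho ≤ 1 + t)
    (hd : (d : ℝ) * r ≤ rho) (hd10 : 10 ≤ d)
    (hlam : lamF q s = 1 / (q * zC (xiF s) s r))
    (hsel : Sel (xiF s) h s r rho (1 - s - 43 / 100 * t))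
    (hx : Lx q s x ≤ 1 - s - 43 / 100 * t) :
    ∃ mu B : ℝ, (mu = 0 ∨ (Menu mu B d ∧
      mu ≤ lamF q s * ((1 - mu) * ((q + 1 - s) - h * s - s) - B * s) ∧
      lamF q s * (29 / 25 * ((q + 1 - s) + 1 / 100) + 42 / 25 * s) ≤ 21 / 25 ∧
      lamF q s * (3 / 10) * ((q + 1 - s) + 1 / 100) ≤ (1 - mu) / 2)) ∧
    ∀ J : ℝ, (q + 1 - s) - h * s - s * Nd d ≤ J → J ≤ (q + 1 - s) + 1 / 100 →
      Lx q s x + 1 / 1000 ≤ lamF q s * J *
        (2 - lamF q s * (J + s * (d * ((xiF s + (1 - mu) ^ 2 / xiF s) / 2)))) := by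
  have hdd : (10 : ℝ) ≤ d := by exact_mod_cast hd10
  have hNd : Nd d = 31 / 20 + (d : ℝ) / 7 := by
    unfold Pool.Agent.T6A.Cert.Nd
    exact max_eq_right (by linarith)
  have hlow : ∀ J : ℝ, (q + 1 - s) - h * s - s * Nd d ≤ J → q * uC h s r rho ≤ J := by
    intro J hJ
    refine le_trans ?_ hJ
    rw [hNd]
    have e : (q + 1 - s) - h * s - s * (31 / 20 + (d : ℝ) / 7) - q * uC h s r rho =
        2 / 7 * s * q * (rho - d * r) +
          (2 / 7 * s * d - 2 * (1 - s) + 2 * h * s + 31 / 10 * s) * (q * r - 1 / 2) := by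
      unfold uC vC
      ring
    have : 0 ≤ 2 / 7 * s * q * (rho - d * r) :=
      mul_nonneg (by positivity) (by linarith)
    rw [hqr, sub_self, mul_zero, add_zero] at e
    linarith
  have hup : ∀ J : ℝ, J ≤ (q + 1 - s) + 1 / 100 → J ≤ q * wC s r := by
    intro J hJ
    refine le_trans hJ (le_of_eq ?_)
    unfold wC
    linear_combination (-(2 * (1 - s) + 1 / 50)) * hqr
  rcases hsel with h | h | h | h
  · refine ⟨37 / 200, 967 / 2000 * d - 9 / 200, Or.inr ⟨⟨hd10, Or.inl ⟨rfl, rfl⟩⟩, ?_⟩, ?_⟩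
    · have := menu_part hqr hq hs hs' r1 r2 (by norm_num) hd (by norm_num) h.1 hlam
      refine ⟨?_, this.2⟩
      have e : (967 / 2000 * (d : ℝ) - 9 / 200) = 967 / 2000 * d + -(9 / 200) := by ring
      rw [e]
      exact this.1
    · intro J j1 j2
      rw [hlam]
      exact wrap hqr hq hs hs' r1 r2 hL h0 h1 hrho hd rfl h.2 (hlow J j1) (hup J j2) hx
  · refine ⟨4 / 25, 459 / 1000 * d - 1 / 50, Or.inr ⟨⟨hd10, Or.inr (Or.inl ⟨rfl, rfl⟩)⟩, ?_⟩, ?_⟩
    · have := menu_part hqr hq hs hs' r1 r2 (by norm_num) hd (by norm_num) h.1 hlam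
      refine ⟨?_, this.2⟩
      have e : (459 / 1000 * (d : ℝ) - 1 / 50) = 459 / 1000 * d + -(1 / 50) := by ring
      rw [e]
      exact this.1
    · intro J j1 j2
      rw [hlam]
      exact wrap hqr hq hs hs' r1 r2 hL h0 h1 hrho hd rfl h.2 (hlow J j1) (hup J j2) hx
  · refine ⟨3 / 25, 831 / 2000 * d + 1 / 20, Or.inr ⟨⟨hd10, Or.inr (Or.inr ⟨rfl, rfl⟩)⟩, ?_⟩, ?_⟩
    · exact menu_part hqr hq hs hs' r1 r2 (by norm_num) hd (by norm_num) h.1 hlam
    · intro J j1 j2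
      rw [hlam]
      exact wrap hqr hq hs hs' r1 r2 hL h0 h1 hrho hd rfl h.2 (hlow J j1) (hup J j2) hx
  · refine ⟨0, 0, Or.inl rfl, ?_⟩
    intro J j1 j2
    rw [hlam]
    exact wrap hqr hq hs hs' r1 r2 hL h0 h1 hrho hd rfl h (hlow J j1) (hup J j2) hx

theorem line : LineStmt := by
  intro q s d hub x hq hs hs' hx hL
  have hq0 : 0 < q := by linarith
  have hs0 : 0 < s := by linarith
  obtain ⟨r, hr⟩ : ∃ r : ℝ, r = 1 / (2 * q) := ⟨_, rfl⟩
  have hqr : q * r = 1 / 2 := by rw [hr]; field_simp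
  have r0 : 0 < r := by rw [hr]; positivity
  have r2 : 0 ≤ (51 / 1000) - r := by
    rw [hr, sub_nonneg, div_le_iff₀ (by positivity)]
    linarith
  have hlam : lamF q s = 1 / (q * zC (xiF s) s r) := lam_eq hq0 hr
  have hz := zC_pos hs hs' r0.le r2
  have hxq : ∀ y : ℝ, y / (2 * q) = y * r := by
    intro y
    rw [hr]
    ring
  rcases hx with ⟨rfl, rfl, hmin⟩ | ⟨rfl, hx1, hx2⟩
  · -- no hub
    have ht : Lx q s d = 1 - s - 43 / 100 * ((d : ℝ) * r - 1) := by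
      unfold Lx
      rw [hxq]
    have hd10 : 10 ≤ d := by
      by_contra hc
      have : (d : ℝ) ≤ 9 := by exact_mod_cast (by omega : d ≤ 9)
      nlinarith
    have hdom : 0 ≤ 2 * s * (1 + ((d : ℝ) * r - 1)) - 1 := by
      have : 0 ≤ r * (d * s - q) := mul_nonneg r0.le (by linarith)
      nlinarith
    have hL' : 0 ≤ 1 - s - 43 / 100 * ((d : ℝ) * r - 1) + 1 / 2000 := by
      rw [ht] at hL
      exact hL.le
    exact finish (t := (d : ℝ) * r - 1) (rho := 1 + ((d : ℝ) * r - 1)) hqr hq0 hs hs' r0.le r2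
      hL' le_rfl zero_le_one le_rfl (by linarith) hd10 hlam
      (sel_nohub hs hs' r0.le r2 hL' hdom) ht.le
  · -- hub
    obtain ⟨D, hD⟩ : ∃ D : ℝ, D = max (d : ℝ) (q / s - 1) := ⟨_, rfl⟩
    have hD1 : (d : ℝ) ≤ D := by rw [hD]; exact le_max_left _ _
    have hD2 : q / s - 1 ≤ D := by rw [hD]; exact le_max_right _ _
    have hDx : D + 2 ≤ x := by
      rw [hD]
      rcases le_total (d : ℝ) (q / s - 1) with h | h
      · rw [max_eq_right h]
        have : 2 * q / s = 2 * (q / s) := by ring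
        rw [this] at hx2
        linarith
      · rw [max_eq_left h]
        exact hx1
    have ht : Lx q s x ≤ 1 - s - 43 / 100 * ((D + 2) * r - 1) := by
      unfold Lx
      rw [hxq]
      have : (D + 2) * r ≤ x * r := mul_le_mul_of_nonneg_right hDx r0.le
      linarith
    have hL' : 0 ≤ 1 - s - 43 / 100 * ((D + 2) * r - 1) + 1 / 2000 := by linarith
    have hDs : q ≤ (D + 1) * s := by
      have : q / s ≤ D + 1 := by linarith
      rwa [div_le_iff₀ hs0] at this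
    have hdom : 0 ≤ 2 * s * (1 + ((D + 2) * r - 1)) - 1 := by
      have h1 : 0 ≤ r * ((D + 1) * s - q) := mul_nonneg r0.le (by linarith)
      have h2 : 0 ≤ r * s := by positivity
      nlinarith
    have hrho : (1 + ((D + 2) * r - 1)) - 2 * r = D * r := by ring
    rcases Nat.lt_or_ge d 10 with h10 | h10
    · -- small degree
      refine ⟨0, 0, Or.inl rfl, ?_⟩
      intro J j1 j2
      have hd9 : (d : ℝ) ≤ 9 := by exact_mod_cast (by omega : d ≤ 9)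
      have hNd : Nd d = 57 / 20 := by
        unfold Pool.Agent.T6A.Cert.Nd
        exact max_eq_left (by linarith)
      rw [hNd] at j1
      have k1 : q * (vC 1 s r - 57 / 10 * r * s) ≤ J := by
        refine le_trans (le_of_eq ?_) j1
        unfold vC
        linear_combination (2 * (1 - s) - 2 * s - 57 / 10 * s) * hqr
      have k2 : J ≤ q * wC s r := by
        refine le_trans j2 (le_of_eq ?_)
        unfold wC
        linear_combination (-(2 * (1 - s) + 1 / 50)) * hqr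
      have hsm := small_hub (u := J / q) hs hs' r0.le r2 hL' hdom
        (by rw [le_div_iff₀ hq0]; linarith) (by rw [div_le_iff₀ hq0]; linarith)
      have hJ0 : 0 ≤ J := by
        refine le_trans (mul_nonneg hq0.le ?_) k1
        unfold vC
        have : s * r ≤ s * (51 / 1000) := mul_le_mul_of_nonneg_left (by linarith) (by linarith)
        nlinarith
      have hxi := xiF_ge s
      have e0 : (xiF s + (1 - 0) ^ 2 / xiF s) / 2 = (xiF s + 1 / xiF s) / 2 := by norm_num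
      rw [e0, hlam]
      have h3 := value (d := (d : ℝ)) (e := (xiF s + 1 / xiF s) / 2) hqr hq0 hs (by linarith)
        (by positivity) hJ0 (mul_le_mul_of_nonneg_right hd9 r0.le) hsm
      linarith
    · have hsel := sel_hub hs hs' r0.le r2 hL' hdom
      rw [hrho] at hsel
      exact finish (t := (D + 2) * r - 1) (rho := D * r) hqr hq0 hs hs' r0.le r2 hL' zero_le_one
        le_rfl (by nlinarith) (mul_le_mul_of_nonneg_right hD1 r0.le) h10 hlam hsel ht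

end Pool.Agent.T6A.CertB
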