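import Pool.Agent.T6A.MkLow4
import Pool.Agent.T6A.LowEx

/-!
# The core statement follows from the low problem, version 4 (MP_c6effb_co)

As `LowEx.lean`; the giants go to a cluster of a subset `As` of `A` of weight at least `δ₁`, which may
depend on all the data except for the positions of the hubs.
-/

set_option autoImplicit false
set_option linter.unusedSectionVars false

open Finset Classical

namespace Pool.Agent.T6A

open EMB

/-- **From the low problem, version 4, to the embedding** (the constants are arbitrary). -/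
theorem low_exists4 (Q : ℝ) (C : ℕ) {δ₁ : ℝ} (hδ₁ : 0 < δ₁) (hδ₁4 : δ₁ ≤ 1 / 4) (K₁ : ℕ)
    (δf : ℕ → ℝ) (hδf : ∀ K, 0 < δf K) :
    ∃ Mf : ℕ → ℕ, ∀ kf : ℕ → ℕ, ∃ N₀ : ℕ, ∀ (W V : Type) [Fintype W] [Fintype V]
      (H : SimpleGraph W) (G : SimpleGraph V) (I : Finset W),
      N₀ ≤ Fintype.card W → H.CliqueFree 3 →
      Fintype.card V + G.edgeSet.ncard ≤ Fintype.card W →
      (1 + Q) * Fintype.card V ≤ Fintype.card W →
      G.edgeSet.ncard ≤ C * Fintype.card V →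
      H.IsIndepSet (I : Set W) → I.card < Fintype.card V →
      (∀ v : V, Fintype.card W + 1 ≤ (G.neighborSet v).ncard * I.card + Fintype.card V) →
      (∀ K, K₁ ≤ K → ∀ D : PreData Q C K (Mf K) δ₁ (δf K) G, kf K ≤ Fintype.card V →
        (@Finset.sum D.ι ℝ _ (@Finset.univ D.ι D.ft) D.w) * Fintype.card V ≤ Fintype.card W →
        (I.card : ℝ) ≤ ((∑ i ∈ D.A, D.w i) + δf K) * Fintype.card V →
        (∀ v, v ∉ D.Qh → v ∉ D.Ex →
          dLow G D.Qh v + jHub G D.Gi v = (G.neighborSet v).ncard) →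
        ∃ As ⊆ D.A, δ₁ ≤ ∑ i ∈ As, D.w i ∧
          ∀ i₀ ∈ As, ∀ Al : V → Finset D.ι, D.Lists i₀ Al → D.Sol Al) →
      Emb G H := by
  choose r θ CR M n₀ hr hr1 h8 hθ hθ2 hθr hθδ hM2 hreg hCR hpos using
    fun K => consts C K hδ₁ hδ₁4 (hδf K)
  refine ⟨M, fun kf => ?_⟩
  obtain ⟨L, hL⟩ : ∃ L : ℕ, L = ⌈8 / δ₁ ^ 2⌉₊ := ⟨_, rfl⟩
  have hδ₁s : 0 < δ₁ ^ 2 := by positivity
  have hδ₁s1 : δ₁ ^ 2 ≤ 1 := by nlinarith
  have hL8 : 8 / δ₁ ^ 2 ≤ L := by rw [hL]; exact Nat.le_ceil _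
  obtain ⟨Kmax, hthr⟩ := thr C (δ₁ ^ 2 / 640) (by positivity) (fun K => M K * L)
    (fun K => ⌈CR K / δ₁⌉₊ + 1) (max K₁ (⌈320 * C / δ₁ ^ 2⌉₊ + 1))
  refine ⟨∑ K ∈ range (Kmax + 1), (n₀ K + (⌈2 * M K / δ₁⌉₊ + 1) + (1 + 2 * C) * kf K), ?_⟩
  intro W V _ _ H G I hN hH hkm hQ hmC hI hIk hdeg hLow
  obtain ⟨K, t, hK0, hKt, hDt, htmax, hmed, hgi⟩ := hthr V G hmC
  have hKK₁ : K₁ ≤ K := (le_max_left _ _).trans hK0
  have hKc : ⌈320 * C / δ₁ ^ 2⌉₊ + 1 ≤ K := (le_max_right _ _).trans hK0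
  have hKpos : 0 < K := by omega
  have hterm : n₀ K + (⌈2 * M K / δ₁⌉₊ + 1) + (1 + 2 * C) * kf K ≤ Fintype.card W := by
    refine le_trans ?_ hN
    exact single_le_sum (f := fun K => n₀ K + (⌈2 * M K / δ₁⌉₊ + 1) + (1 + 2 * C) * kf K)
      (fun _ _ => Nat.zero_le _) (mem_range.2 (by omega))
  obtain ⟨hNk, hkI⟩ := core_basic hkm hmC hIk hdeg
  obtain ⟨S⟩ := hreg K W H hH (by omega)
  obtain ⟨A, indA, maxA⟩ := exists_A S
  set k : ℝ := (Fintype.card V : ℝ) with hk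
  set N : ℝ := (Fintype.card W : ℝ) with hNdef
  have hkpos : (0 : ℝ) < k := by
    have : 0 < Fintype.card V := by omega
    exact Nat.cast_pos.2 this
  have hN0 : 0 ≤ N := Nat.cast_nonneg _
  have hC0 : (0 : ℝ) ≤ C := Nat.cast_nonneg _
  have hNk' : N ≤ (1 + 2 * C) * k := by
    have : ((Fintype.card W : ℕ) : ℝ) ≤ (((1 + 2 * C) * Fintype.card V : ℕ) : ℝ) := by
      exact_mod_cast hNk
    push_cast at this
    exact this
  have hkf : kf K ≤ Fintype.card V := by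
    have h1 : (1 + 2 * C) * kf K ≤ (1 + 2 * C) * Fintype.card V := le_trans (by omega) hNk
    exact Nat.le_of_mul_le_mul_left h1 (by omega)
  have hMp : (0 : ℝ) < M K := by
    have := hM2 K
    have h2 : 0 < M K := by omega
    exact Nat.cast_pos.2 h2
  -- the clusters are large
  have hCbig : ∀ i, N / (2 * M K) ≤ (S.C i).card := by
    intro i
    rw [div_le_iff₀ (by positivity)]
    have := S.big i
    linarith
  have hN2M : 2 * M K / δ₁ ≤ N := by
    have h1 : ⌈2 * (M K : ℝ) / δ₁⌉₊ ≤ Fintype.card W := by omega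
    have h2 : ((⌈2 * (M K : ℝ) / δ₁⌉₊ : ℕ) : ℝ) ≤ N := Nat.cast_le.2 h1
    exact (Nat.le_ceil _).trans h2
  have hbig1 : ∀ i, 1 ≤ δ₁ * (S.C i).card := by
    intro i
    have h1 := hCbig i
    rw [div_le_iff₀ hδ₁] at hN2M
    rw [div_le_iff₀ (by positivity)] at h1
    have h2 : (2 * (M K : ℝ)) * 1 ≤ (2 * M K) * (δ₁ * (S.C i).card) := by nlinarith
    exact le_of_mul_le_mul_left h2 (by positivity)
  have hbig0 : ∀ i, 0 < (S.C i).card := by
    intro i
    by_contra h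
    have h0 : (S.C i).card = 0 := by omega
    have := hbig1 i
    rw [h0, Nat.cast_zero, mul_zero] at this
    linarith
  letI := S.ft
  obtain ⟨Gi, hGi⟩ : ∃ X : Finset V, X = univ.filter fun v => t < (G.neighborSet v).ncard :=
    ⟨_, rfl⟩
  obtain ⟨Me, hMe⟩ : ∃ X : Finset V, X = univ.filter fun v => K < (G.neighborSet v).ncard ∧
    (G.neighborSet v).ncard ≤ t := ⟨_, rfl⟩
  obtain ⟨Qh, hQh⟩ : ∃ X : Finset V, X = univ.filter fun v => K < (G.neighborSet v).ncard :=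
    ⟨_, rfl⟩
  have hGM : Gi ∪ Me = Qh := by
    rw [hGi, hMe, hQh]
    ext v
    simp only [mem_union, mem_filter, mem_univ, true_and]
    omega
  have hdisj : Disjoint Gi Me := by
    rw [disjoint_left]
    intro v h1 h2
    rw [hGi] at h1
    rw [hMe] at h2
    have h3 := (mem_filter.1 h1).2
    have h4 := (mem_filter.1 h2).2.2
    omega
  have hcardQ : Gi.card + Me.card = Qh.card := by
    rw [← hGM, card_union_of_disjoint hdisj]
  have hmed' : ((∑ u ∈ Me, (G.neighborSet u).ncard : ℕ) : ℝ) ≤ δ₁ ^ 2 / 640 * k := by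
    rw [hMe]
    push_cast
    convert hmed using 2
  have hgi' : 50 * ((M K : ℝ) * L) * t * Gi.card ≤ k := by
    have h1 := hgi
    push_cast at h1
    rw [hGi]
    convert h1 using 2
  have htK : 1 ≤ t := by omega
  have htp : (1 : ℝ) ≤ t := by exact_mod_cast htK
  have hgi2 : (M K : ℝ) * t * Gi.card ≤ δ₁ ^ 2 * k / 400 := by
    have h1 : (8 / δ₁ ^ 2) * ((M K : ℝ) * t * Gi.card) ≤ L * ((M K : ℝ) * t * Gi.card) :=
      mul_le_mul_of_nonneg_right hL8 (by positivity)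
    have h2 : 50 * ((8 / δ₁ ^ 2) * ((M K : ℝ) * t * Gi.card)) ≤ k := by nlinarith
    have h3 : 50 * ((8 / δ₁ ^ 2) * ((M K : ℝ) * t * Gi.card)) * δ₁ ^ 2 =
        400 * ((M K : ℝ) * t * Gi.card) := by
      field_simp
      ring
    have h4 : 50 * ((8 / δ₁ ^ 2) * ((M K : ℝ) * t * Gi.card)) * δ₁ ^ 2 ≤ k * δ₁ ^ 2 :=
      mul_le_mul_of_nonneg_right h2 hδ₁s.le
    linarith
  have hkN : k ≤ N := by
    have : Fintype.card V ≤ Fintype.card W := by omega
    exact Nat.cast_le.2 this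
  have hQh' : ∀ v, v ∈ Qh ↔ K < (G.neighborSet v).ncard := by
    intro v; rw [hQh]; simp
  have hGiQ : Gi ⊆ Qh := by rw [← hGM]; exact subset_union_left
  have hQG : Qh \ Gi ⊆ Me := by
    intro v hv
    rw [← hGM] at hv
    obtain ⟨h1, h2⟩ := mem_sdiff.1 hv
    exact (mem_union.1 h1).resolve_left h2
  refine low4_emb (Q := Q) (C := C) hδ₁ hδ₁4 (hr K) (hr1 K) (h8 K) hKpos
    (hθ K) (hθ2 K) (hθr K) (hθδ K) H G S I hbig0 hkm hQ hmC hI hIk hdeg A indA maxA Qh Gi hQh' hGiQ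
    (by
      have h1 : ∑ u ∈ Qh \ Gi, (G.neighborSet u).ncard ≤ ∑ u ∈ Me, (G.neighborSet u).ncard :=
        sum_le_sum_of_subset hQG
      have h2 : ((∑ u ∈ Qh \ Gi, (G.neighborSet u).ncard : ℕ) : ℝ) ≤
          ((∑ u ∈ Me, (G.neighborSet u).ncard : ℕ) : ℝ) := Nat.cast_le.2 h1
      have h3 : δ₁ ^ 2 / 640 * k ≤ δ₁ * k := by
        refine mul_le_mul_of_nonneg_right ?_ hkpos.le
        nlinarith
      linarith)
    (fun D => hLow K hKK₁ D hkf) ?_
  -- placement of the hubs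
  intro As hAs hAsw
  have hAsw' : δ₁ * k ≤ ∑ i ∈ As, ((S.C i).card : ℝ) := hAsw
  obtain ⟨U, hUA, hUtyp, hUi, hUi', hUc⟩ := exists_Y S As (θ := θ K) (η := δ₁)
    (by have := hθ K; positivity) (hθ K) (by linarith [sq_nonneg (θ K)]) hδ₁
    (by linarith [hθ2 K]) hbig1
  set P : S.ι → Finset W := fun i => U ∩ S.C i with hP
  have hPU : As.biUnion P = U := by
    ext x
    constructor
    · intro hx
      obtain ⟨i, _, hxi⟩ := mem_biUnion.1 hx
      exact (mem_inter.1 hxi).1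
    · intro hx
      obtain ⟨i, hi, hxi⟩ := mem_biUnion.1 (hUA hx)
      exact mem_biUnion.2 ⟨i, hi, mem_inter.2 ⟨hx, hxi⟩⟩
  have hUk : δ₁ ^ 2 * k / 2 ≤ (U.card : ℝ) := by
    refine le_trans ?_ hUc
    rw [S.card_biUnion]
    have := mul_le_mul_of_nonneg_left hAsw' (by positivity : 0 ≤ δ₁ / 2)
    calc δ₁ ^ 2 * k / 2 = δ₁ / 2 * (δ₁ * k) := by ring
      _ ≤ _ := this
  have hdk : 0 < δ₁ ^ 2 * k := by positivity
  have hA0 : As.Nonempty := by
    rw [nonempty_iff_ne_empty]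
    intro h
    rw [h, sum_empty] at hAsw'
    have : 0 < δ₁ * k := by positivity
    linarith
  have hAM : As.card ≤ M K := (card_le_univ As).trans S.few
  have hPa : ∀ a ∈ As, δ₁ * N / (4 * M K) ≤ ((P a).card : ℝ) := by
    intro a ha
    refine le_trans ?_ (hUi' a ha)
    have h1 := hCbig a
    have h2 := mul_le_mul_of_nonneg_left h1 (by positivity : 0 ≤ δ₁ / 2)
    refine le_trans (le_of_eq ?_) h2
    field_simp
    norm_num
  obtain ⟨f₀, i₀, hi₀, fGi, fU, finj, fadj⟩ := hpos K V W S.ι G H As P t Gi Me hH hA0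
    (fun i _ j _ hij => disjoint_of_subset_left inter_subset_right
      (disjoint_of_subset_right inter_subset_right (S.disj i j hij)))
    hAM
    (by
      rw [hPU]
      have : (0 : ℝ) < U.card := lt_of_lt_of_le (by positivity) hUk
      exact_mod_cast this)
    hdisj
    (fun v hv => by
      rw [hMe] at hv
      exact (mem_filter.1 hv).2.2)
    (by
      rw [hPU]
      have h1 : ((20 * M K * t * Gi.card : ℕ) : ℝ) ≤ (U.card : ℝ) := by
        push_cast
        linarith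
      exact_mod_cast h1)
    (by
      rw [hPU]
      have h1 : ((80 * ∑ v ∈ Me, (G.neighborSet v).ncard : ℕ) : ℝ) ≤ (U.card : ℝ) := by
        rw [Nat.cast_mul]
        push_cast at hmed' ⊢
        linarith
      exact_mod_cast h1)
    (by
      rw [hPU, hcardQ]
      have h1 : Qh.card * K ≤ 2 * (C * Fintype.card V) := by
        rw [hQh]
        exact (hubs_nat G K).trans (Nat.mul_le_mul_left 2 hmC)
      have h2 : ((Qh.card * K : ℕ) : ℝ) ≤ ((2 * (C * Fintype.card V) : ℕ) : ℝ) := Nat.cast_le.2 h1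
      push_cast at h2
      have h3 : 320 * C / δ₁ ^ 2 ≤ K := by
        have h4 : ((⌈320 * (C : ℝ) / δ₁ ^ 2⌉₊ : ℕ) : ℝ) ≤ K := Nat.cast_le.2 (by omega)
        exact (Nat.le_ceil _).trans h4
      rw [div_le_iff₀ hδ₁s] at h3
      have hKp : (0 : ℝ) < K := Nat.cast_pos.2 hKpos
      have h5 : (20 * (Qh.card : ℝ)) * K ≤ (δ₁ ^ 2 * k / 8) * K := by
        calc (20 * (Qh.card : ℝ)) * K = 20 * (Qh.card * K) := by ring
          _ ≤ 20 * (2 * (C * k)) := by linarith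
          _ = (320 * C) * (k / 8) := by ring
          _ ≤ (K * δ₁ ^ 2) * (k / 8) := mul_le_mul_of_nonneg_right h3 (by positivity)
          _ = _ := by ring
      have h6 := le_of_mul_le_mul_right h5 hKp
      have h7 : ((20 * Qh.card : ℕ) : ℝ) ≤ (U.card : ℝ) := by
        push_cast
        linarith
      exact_mod_cast h7)
    (by
      intro a ha
      refine le_trans ?_ (hPa a ha)
      have h1 : (G.edgeSet.ncard : ℝ) ≤ N := by
        have : G.edgeSet.ncard ≤ Fintype.card W := by omega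
        exact Nat.cast_le.2 this
      have h2 := mul_le_mul_of_nonneg_left h1 (by positivity : 0 ≤ δ₁ / (4 * M K))
      refine h2.trans (le_of_eq ?_)
      field_simp)
    (by
      intro a ha
      refine le_trans ?_ (hPa a ha)
      rw [le_div_iff₀ (by positivity)]
      have h1 : CR K / δ₁ ≤ t := by
        have h2 : ⌈CR K / δ₁⌉₊ ≤ t := by
          omega
        exact (Nat.le_ceil _).trans (Nat.cast_le.2 h2)
      rw [div_le_iff₀ hδ₁] at h1
      have h3 : CR K * (Gi.card : ℝ) * (4 * M K) ≤ (t * δ₁) * Gi.card * (4 * M K) := by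
        have : 0 ≤ (Gi.card : ℝ) * (4 * M K) := by positivity
        nlinarith
      have h4 : (t * δ₁) * Gi.card * (4 * M K) = 4 * δ₁ * ((M K : ℝ) * t * Gi.card) := by ring
      have h5 : 4 * δ₁ * ((M K : ℝ) * t * Gi.card) ≤ 4 * δ₁ * (δ₁ ^ 2 * k / 400) :=
        mul_le_mul_of_nonneg_left hgi2 (by positivity)
      have h6 : 4 * δ₁ * (δ₁ ^ 2 * k / 400) ≤ δ₁ * N := by
        have h7 : δ₁ ^ 2 * k ≤ 1 * N := by
          have := mul_le_mul_of_nonneg_right hδ₁s1 hkpos.le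
          linarith
        have h8 : 4 * δ₁ * (δ₁ ^ 2 * k / 400) = δ₁ * (δ₁ ^ 2 * k) / 100 := by ring
        rw [h8]
        have h9 : δ₁ * (δ₁ ^ 2 * k) ≤ δ₁ * (1 * N) := mul_le_mul_of_nonneg_left h7 hδ₁.le
        have h10 : 0 ≤ δ₁ * N := by positivity
        linarith
      linarith)
  rw [hGM] at fU finj fadj
  rw [hPU] at fU
  have hUS : ∀ q ∈ Qh, ∃ j ∈ As, f₀ q ∈ S.C j := by
    intro q hq
    exact mem_biUnion.1 (hUA (fU q hq))
  refine ⟨f₀, i₀, hi₀, finj, fadj, fun q hq => ?_, fun q hq i hi hqi => ?_, fun i hi => ?_,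
    fun q hq => (mem_inter.1 (fGi q hq)).2⟩
  · obtain ⟨j, hj, hqj⟩ := hUS q hq
    exact mem_biUnion.2 ⟨j, hAs hj, hqj⟩
  · obtain ⟨j, hj, hqj⟩ := hUS q hq
    have : i = j := by
      by_contra hne
      exact disjoint_left.1 (S.disj i j hne) hqi hqj
    rw [this] at hqi ⊢
    exact hUtyp j hj _ (fU q hq) hqi
  · by_cases his : i ∈ As
    · refine le_trans ?_ (hUi i his)
      have : (Qh.filter fun q => f₀ q ∈ S.C i).card ≤ (U ∩ S.C i).card := by
        refine card_le_card_of_injOn f₀ ?_ ?_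
        · intro q hq
          have hq' := mem_filter.1 (mem_coe.1 hq)
          rw [mem_coe, mem_inter]
          exact ⟨fU q hq'.1, hq'.2⟩
        · intro q hq q' hq' h
          exact finj q (mem_filter.1 (mem_coe.1 hq)).1 q' (mem_filter.1 (mem_coe.1 hq')).1 h
      exact_mod_cast this
    · have : (Qh.filter fun q => f₀ q ∈ S.C i) = ∅ := by
        refine filter_false_of_mem fun q hq hqi => ?_
        obtain ⟨j, hj, hqj⟩ := hUS q hq
        have : i = j := by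
          by_contra hne
          exact disjoint_left.1 (S.disj i j hne) hqi hqj
        exact his (this ▸ hj)
      rw [this, card_empty, Nat.cast_zero]
      positivity

/-- **The core statement follows from the low problem, version 4.** -/
theorem core_of_low4 {Q : ℝ} (h : LowProb4 Q) : CoreEmb Q := by
  intro C
  obtain ⟨δ₁, hδ₁, hδ₁4, K₁, h1⟩ := h C
  have h2 : ∀ K, ∃ δ : ℝ, 0 < δ ∧ (K₁ ≤ K → ∀ M : ℕ, ∃ k₀ : ℕ, ∀ (V : Type) [Fintype V]
      (G : SimpleGraph V) (D : PreData Q C K M δ₁ δ G), k₀ ≤ Fintype.card V →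
      ∃ As ⊆ D.A, δ₁ ≤ ∑ i ∈ As, D.w i ∧
        ∀ i₀ ∈ As, ∀ Al : V → Finset D.ι, D.Lists i₀ Al → D.Sol Al) := by
    intro K
    by_cases hK : K₁ ≤ K
    · obtain ⟨δ, hδ, h3⟩ := h1 K hK
      exact ⟨δ, hδ, fun _ => h3⟩
    · exact ⟨1, one_pos, fun h => absurd h hK⟩
  choose δf hδf h3 using h2
  obtain ⟨Mf, h4⟩ := low_exists4 Q C hδ₁ hδ₁4 K₁ δf hδf
  have h5 : ∀ K, ∃ k₀ : ℕ, K₁ ≤ K → ∀ (V : Type) [Fintype V]
      (G : SimpleGraph V) (D : PreData Q C K (Mf K) δ₁ (δf K) G), k₀ ≤ Fintype.card V →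
      ∃ As ⊆ D.A, δ₁ ≤ ∑ i ∈ As, D.w i ∧
        ∀ i₀ ∈ As, ∀ Al : V → Finset D.ι, D.Lists i₀ Al → D.Sol Al := by
    intro K
    by_cases hK : K₁ ≤ K
    · obtain ⟨k₀, h6⟩ := h3 K hK (Mf K)
      exact ⟨k₀, fun _ => h6⟩
    · exact ⟨0, fun h => absurd h hK⟩
  choose kf h6 using h5
  obtain ⟨N₀, h7⟩ := h4 kf
  refine ⟨N₀, ?_⟩
  intro W V _ _ H G I hN hH hkm hQ hmC hI _ hIk hdeg
  exact h7 W V H G I hN hH hkm hQ hmC hI hIk hdeg
    fun K hK D hk _ _ _ => h6 K hK V G D hk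

end Pool.Agent.T6A
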