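import Pool.Agent.T6A.Chain
import Pool.Agent.T6A.LowEx
import Pool.Agent.T6A.CertFin

/-!
# Sidorenko's inequality for large graphs with `m ≥ 10 k` (MP_c6effb_co)
-/

set_option autoImplicit false

namespace Pool.Agent.T6A

/-- The core statement for `Q = 10`. -/
theorem core10 : CoreEmb 10 := core_of_low (low_of_cert Cert.certStmt)

/-- `R(3, G) ≤ k + m` for all graphs `G` with `k ≥ k₀` vertices and `m ≥ 10 k` edges. -/
theorem main10 :
    ∃ k₀ : ℕ, ∀ (V : Type) [Fintype V] (G : SimpleGraph V), k₀ ≤ Fintype.card V →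
      10 * Fintype.card V ≤ G.edgeSet.ncard →
      ∀ H : SimpleGraph (Fin (Fintype.card V + G.edgeSet.ncard)),
        ¬ H.CliqueFree 3 ∨ ∃ f : G →g Hᶜ, Function.Injective f := by
  obtain ⟨k₀, h⟩ := main_of_core (by norm_num) core10
  exact ⟨k₀, fun V _ G hk hm => h V G hk (by exact_mod_cast hm)⟩

end Pool.Agent.T6A
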