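import Pool.Agent.T6A.Hubs

/-!
# The data of the low problem and the embedding (MP_c6effb_co)
-/

set_option autoImplicit false
set_option linter.unusedSectionVars false

open Finset Classical

namespace Pool.Agent.T6A

open EMB

theorem sum_biUnion_le' {α β : Type} (s : Finset α) (t : α → Finset β) (f : β → ℝ)
    (hf : ∀ b, 0 ≤ f b) : ∑ b ∈ s.biUnion t, f b ≤ ∑ a ∈ s, ∑ b ∈ t a, f b := by
  induction s using Finset.induction_on with
  | empty => simp
  | insert a s ha ih =>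
    rw [biUnion_insert, sum_insert ha]
    have h := sum_union_inter (s₁ := t a) (s₂ := s.biUnion t) (f := f)
    have h2 : 0 ≤ ∑ b ∈ t a ∩ s.biUnion t, f b := sum_nonneg fun b _ => hf b
    linarith

/-- The exceptional vertices: neighbours of the hubs which are not giants. -/
theorem card_exc_le {V : Type} [Fintype V] (G : SimpleGraph V) (R : Finset V) :
    (univ.filter fun v => ∃ u ∈ R, G.Adj v u).card ≤ ∑ u ∈ R, (G.neighborSet u).ncard := by
  have h : (univ.filter fun v => ∃ u ∈ R, G.Adj v u) ⊆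
      R.biUnion fun u => univ.filter fun v => G.Adj u v := by
    intro v hv
    obtain ⟨u, hu, huv⟩ := (mem_filter.1 hv).2
    exact mem_biUnion.2 ⟨u, hu, mem_filter.2 ⟨mem_univ _, huv.symm⟩⟩
  refine (card_le_card h).trans (card_biUnion_le.trans (sum_le_sum fun u _ => ?_))
  rw [ncard_nbr]

/-- Consequences of the degree hypothesis of the core statement. -/
theorem core_basic {V W : Type} [Fintype V] [Fintype W] {G : SimpleGraph V} {I : Finset W} {C : ℕ}
    (hkm : Fintype.card V + G.edgeSet.ncard ≤ Fintype.card W)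
    (hmC : G.edgeSet.ncard ≤ C * Fintype.card V) (hIk : I.card < Fintype.card V)
    (hdeg : ∀ v : V, Fintype.card W + 1 ≤ (G.neighborSet v).ncard * I.card + Fintype.card V) :
    Fintype.card W ≤ (1 + 2 * C) * Fintype.card V ∧ Fintype.card V ≤ 2 * I.card := by
  set k := Fintype.card V with hk
  set N := Fintype.card W with hN
  have h1 : k * (N + 1) ≤ 2 * G.edgeSet.ncard * I.card + k * k := by
    have h2 : ∑ _v : V, (N + 1) ≤ ∑ v : V, ((G.neighborSet v).ncard * I.card + k) :=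
      sum_le_sum fun v _ => hdeg v
    rw [sum_const, card_univ, smul_eq_mul, sum_add_distrib, ← sum_mul, sum_nbr, sum_const,
      card_univ, smul_eq_mul] at h2
    exact h2
  have hk0 : 0 < k := by omega
  constructor
  · have h3 : k * (N + 1) ≤ k * ((1 + 2 * C) * k) := by
      refine h1.trans ?_
      have h4 : 2 * G.edgeSet.ncard * I.card ≤ 2 * (C * k) * k := by
        refine Nat.mul_le_mul (Nat.mul_le_mul_left 2 hmC) hIk.le
      calc 2 * G.edgeSet.ncard * I.card + k * k ≤ 2 * (C * k) * k + k * k := Nat.add_le_add_right h4 _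
        _ = _ := by ring
    have := Nat.le_of_mul_le_mul_left h3 hk0
    omega
  · by_contra hcon
    push Not at hcon
    have h5 : G.edgeSet.ncard ≤ N - k := by omega
    have h6 : 2 * G.edgeSet.ncard * I.card ≤ (N - k) * (2 * I.card) := by
      calc 2 * G.edgeSet.ncard * I.card = G.edgeSet.ncard * (2 * I.card) := by ring
        _ ≤ _ := Nat.mul_le_mul_right _ h5
    have h7 : (N - k) * (2 * I.card) ≤ (N - k) * k := Nat.mul_le_mul_left _ hcon.le
    have h8 : k ≤ N := by omega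
    obtain ⟨e, he⟩ := Nat.exists_eq_add_of_le h8
    rw [he] at h1 h6 h7
    rw [Nat.add_sub_cancel_left] at h6 h7
    have h9 : k * (k + e + 1) ≤ e * k + k * k := by
      rw [he] at *
      exact h1.trans (Nat.add_le_add_right (h6.trans h7) _)
    have h10 : k * (k + e + 1) = e * k + k * k + k := by ring
    omega

/-- The embedding from a solution of the low problem. -/
theorem emb_of_sol {K M : ℕ} {δ₁ r θ : ℝ} (hδ₁ : 0 < δ₁)
    (hr : 0 < r) (h8 : 8 * (K : ℝ) * r ≤ δ₁) (hθ : 0 < θ) (hθr' : θ ≤ r / 4)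
    {W V : Type} [Fintype W] [Fintype V] (H : SimpleGraph W) (G : SimpleGraph V)
    (S : Clus H (θ ^ 2 / 2) M) (hbig : ∀ i, 0 < (S.C i).card)
    (A : Finset S.ι) (indA : ∀ i ∈ A, ∀ j ∈ A, ¬ S.F.Adj i j)
    (hθN4 : θ * Fintype.card W ≤ r * ∑ i ∈ A, ((S.C i).card : ℝ))
    (Qh : Finset V) (hNqK : ∀ v, v ∉ Qh → (univ.filter fun q => G.Adj v q).card ≤ K)
    (f₀ : V → W) (i₀ : S.ι)
    (finj : ∀ q ∈ Qh, ∀ q' ∈ Qh, f₀ q = f₀ q' → q = q')
    (fadj : ∀ q ∈ Qh, ∀ q' ∈ Qh, G.Adj q q' → ¬ H.Adj (f₀ q) (f₀ q'))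
    (fU : ∀ q ∈ Qh, f₀ q ∈ A.biUnion S.C)
    (ftyp : ∀ q ∈ Qh, ∀ i ∈ A, f₀ q ∈ S.C i → dS S i (f₀ q) ≤ θ * Fintype.card W)
    (fload : ∀ i ∈ A, ((Qh.filter fun q => f₀ q ∈ S.C i).card : ℝ) ≤ δ₁ * (S.C i).card)
    (Al : V → Finset S.ι)
    (hAl : ∀ v, ∀ j ∈ Al v, ∀ q ∈ Qh, G.Adj v q → (dg H (S.C j) (f₀ q) : ℝ) ≤ r * (S.C j).card)
    (T : Finset V) (g b : V → S.ι)
    (c1 : ∀ v ∈ T, v ∉ Qh ∧ b v ∉ A ∧ b v ∈ Al v)
    (c2 : ∀ v, v ∉ T → v ∉ Qh → (∃ u ∈ T, G.Adj v u) → g v ∈ A ∧ g v ∈ Al v)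
    (c3 : ∀ v ∈ T, ∀ u ∈ T, G.Adj v u → ¬ S.F.Adj (b v) (b u) ∧ ¬ S.Bd (b v) (b u))
    (c4 : ∀ v ∈ T, ∀ u, u ∉ T → u ∉ Qh → G.Adj v u →
      ¬ S.F.Adj (b v) (g u) ∧ ¬ S.Bd (b v) (g u))
    (c5 : ∀ v u, v ∉ T → v ∉ Qh → u ∉ T → u ∉ Qh → G.Adj v u → (∃ z ∈ T, G.Adj v z) →
      (∃ z ∈ T, G.Adj u z) → ¬ S.Bd (g v) (g u))
    (c6 : ∀ a ∈ A, ∀ X : Finset V, (∀ v ∈ X, v ∉ T ∧ v ∉ Qh ∧ (∃ u ∈ T, G.Adj v u) ∧ g v = a) →
      (X.card : ℝ) ≤ (1 - 2 * δ₁) * (S.C a).card)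
    (c7 : ∀ c, c ∉ A → ∀ X : Finset V, (∀ v ∈ X, v ∈ T ∧ b v = c) →
      (X.card : ℝ) ≤ (1 - 2 * δ₁) * (S.C c).card)
    (c8 : (Fintype.card V : ℝ) - T.card ≤ (1 - 2 * δ₁) * ∑ i ∈ A, ((S.C i).card : ℝ)) :
    Emb G H := by
  have hεpos : 0 < θ ^ 2 / 2 := by positivity
  set N : ℝ := (Fintype.card W : ℝ) with hN
  have hN0 : 0 ≤ N := Nat.cast_nonneg _
  have hUs : ((A.biUnion S.C).card : ℝ) = ∑ i ∈ A, ((S.C i).card : ℝ) := S.card_biUnion A
  -- the cluster of a vertex of `A`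
  have hci : ∀ x : W, ∃ i : S.ι, x ∈ A.biUnion S.C → i ∈ A ∧ x ∈ S.C i := by
    intro x
    by_cases hx : x ∈ A.biUnion S.C
    · obtain ⟨i, hi, hxi⟩ := mem_biUnion.1 hx
      exact ⟨i, fun _ => ⟨hi, hxi⟩⟩
    · exact ⟨i₀, fun h => absurd h hx⟩
  choose ci hci using hci
  set Z : Finset V := univ.filter fun v => v ∉ T ∧ v ∉ Qh ∧ ¬ ∃ u ∈ T, G.Adj v u with hZ
  set c : V → S.ι := fun v => if v ∈ Qh then ci (f₀ v) else if v ∈ T then b v else g v with hc
  have hcQ : ∀ v ∈ Qh, c v = ci (f₀ v) := fun v hv => if_pos hv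
  have hTQ : ∀ v ∈ T, v ∉ Qh := fun v hv => (c1 v hv).1
  have hcT : ∀ v ∈ T, c v = b v := fun v hv => by
    rw [hc]; simp only [if_neg (hTQ v hv), if_pos hv]
  have hcg : ∀ v, v ∉ Qh → v ∉ T → c v = g v := fun v hv hvT => by
    rw [hc]; simp only [if_neg hv, if_neg hvT]
  have hQA : ∀ q ∈ Qh, ci (f₀ q) ∈ A ∧ f₀ q ∈ S.C (ci (f₀ q)) := fun q hq => hci _ (fU q hq)
  have hnZ : ∀ v, v ∉ Z → v ∉ Qh → v ∉ T → ∃ u ∈ T, G.Adj v u := by
    intro v hv hvQ hvT
    by_contra h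
    exact hv (mem_filter.2 ⟨mem_univ _, hvT, hvQ, h⟩)
  have hsp : ∀ i j, ¬ S.F.Adj i j → ¬ S.Bd i j →
      (eD H (S.C i) (S.C j) : ℝ) ≤ r ^ 2 * ((S.C i).card * (S.C j).card) := by
    intro i j h1 h2
    have h3 := S.sparse i j h1 h2
    rw [ed_eq_eD] at h3
    refine h3.trans (mul_le_mul_of_nonneg_right ?_ (mul_nonneg (Nat.cast_nonneg _)
      (Nat.cast_nonneg _)))
    have h4 : θ ^ 2 ≤ (r / 4) ^ 2 := by
      refine pow_le_pow_left₀ hθ.le hθr' 2
    nlinarith [sq_nonneg r, sq_nonneg θ]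
  have hZT : ∀ v ∈ Z, v ∉ T ∧ v ∉ Qh ∧ ¬ ∃ u ∈ T, G.Adj v u := fun v hv => (mem_filter.1 hv).2
  obtain ⟨f, hf, hfa, -, -⟩ := emb_hub K δ₁ r hδ₁ hr h8 G H S.C S.disj hbig A Z Qh c f₀
    (fun q hq hqZ => (hZT q hqZ).2.1 hq)
    (fun v hv => hNqK v hv)
    (by
      intro u v huv huZ hvZ huQ hvQ
      by_cases huT : u ∈ T
      · by_cases hvT : v ∈ T
        · rw [hcT u huT, hcT v hvT]
          have h := c3 u huT v hvT huv
          exact hsp _ _ h.1 h.2
        · rw [hcT u huT, hcg v hvQ hvT]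
          have h := c4 u huT v hvT hvQ huv
          exact hsp _ _ h.1 h.2
      · by_cases hvT : v ∈ T
        · rw [hcg u huQ huT, hcT v hvT]
          have h := c4 v hvT u huT huQ huv.symm
          exact hsp _ _ (fun e => h.1 e.symm) (fun e => h.2 (S.bsymm _ _ e))
        · rw [hcg u huQ huT, hcg v hvQ hvT]
          have hu := hnZ u huZ huQ huT
          have hv := hnZ v hvZ hvQ hvT
          exact hsp _ _ (indA _ (c2 u huT huQ hu).1 _ (c2 v hvT hvQ hv).1)
            (c5 u v huT huQ hvT hvQ huv hu hv))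
    (by
      intro i
      by_cases hiA : i ∈ A
      · have h1 := c6 i hiA (univ.filter fun v => v ∉ T ∧ v ∉ Qh ∧ (∃ u ∈ T, G.Adj v u) ∧ g v = i)
          fun v hv => (mem_filter.1 hv).2
        have h2 := fload i hiA
        have h3 : (univ.filter fun v => v ∉ Z ∧ c v = i) ⊆
            (univ.filter fun v => v ∉ T ∧ v ∉ Qh ∧ (∃ u ∈ T, G.Adj v u) ∧ g v = i) ∪
            (Qh.filter fun q => f₀ q ∈ S.C i) := by
          intro v hv
          obtain ⟨hvZ, hvi⟩ := (mem_filter.1 hv).2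
          by_cases hvQ : v ∈ Qh
          · refine mem_union_right _ (mem_filter.2 ⟨hvQ, ?_⟩)
            rw [hcQ v hvQ] at hvi
            rw [← hvi]
            exact (hQA v hvQ).2
          · refine mem_union_left _ (mem_filter.2 ⟨mem_univ _, ?_⟩)
            have hvT : v ∉ T := by
              intro hvT
              rw [hcT v hvT] at hvi
              exact (c1 v hvT).2.1 (hvi ▸ hiA)
            rw [hcg v hvQ hvT] at hvi
            exact ⟨hvT, hvQ, hnZ v hvZ hvQ hvT, hvi⟩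
        have h4 := (card_le_card h3).trans (card_union_le _ _)
        have h5 : ((univ.filter fun v => v ∉ Z ∧ c v = i).card : ℝ) ≤
            ((univ.filter fun v => v ∉ T ∧ v ∉ Qh ∧ (∃ u ∈ T, G.Adj v u) ∧ g v = i).card : ℝ) +
            ((Qh.filter fun q => f₀ q ∈ S.C i).card : ℝ) := by exact_mod_cast h4
        linarith
      · have h1 := c7 i hiA (univ.filter fun v => v ∈ T ∧ b v = i) fun v hv => (mem_filter.1 hv).2
        have h3 : (univ.filter fun v => v ∉ Z ∧ c v = i) ⊆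
            (univ.filter fun v => v ∈ T ∧ b v = i) := by
          intro v hv
          obtain ⟨hvZ, hvi⟩ := (mem_filter.1 hv).2
          by_cases hvQ : v ∈ Qh
          · rw [hcQ v hvQ] at hvi
            exact absurd (hvi ▸ (hQA v hvQ).1) hiA
          · by_cases hvT : v ∈ T
            · rw [hcT v hvT] at hvi
              exact mem_filter.2 ⟨mem_univ _, hvT, hvi⟩
            · rw [hcg v hvQ hvT] at hvi
              exact absurd (hvi ▸ (c2 v hvT hvQ (hnZ v hvZ hvQ hvT)).1) hiA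
        have h5 : ((univ.filter fun v => v ∉ Z ∧ c v = i).card : ℝ) ≤
            ((univ.filter fun v => v ∈ T ∧ b v = i).card : ℝ) := Nat.cast_le.2 (card_le_card h3)
        have h6 : (0 : ℝ) ≤ δ₁ * (S.C i).card := mul_nonneg hδ₁.le (Nat.cast_nonneg _)
        linarith)
    (by
      intro z hz u huZ huQ hzu
      have huT : u ∉ T := fun huT => (hZT z hz).2.2 ⟨u, huT, hzu⟩
      rw [hcg u huQ huT]
      exact (c2 u huT huQ (hnZ u huZ huQ huT)).1)
    (by
      intro i hi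
      have h1 := eD_biUnion_le S hεpos.le i A (fun j hj => indA i hi j hj)
      refine h1.trans ?_
      rw [hUs]
      have h2 : 2 * (θ ^ 2 / 2) * (((S.C i).card : ℝ) * Fintype.card W) =
          (θ * (θ * N)) * (S.C i).card := by rw [← hN]; ring
      rw [h2]
      have h3 : θ * (θ * N) ≤ r * (r * ∑ i ∈ A, ((S.C i).card : ℝ)) := by
        have h4 : 0 ≤ θ * N := mul_nonneg hθ.le hN0
        have h5 : θ * (θ * N) ≤ r * (θ * N) := mul_le_mul_of_nonneg_right (by linarith) h4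
        exact h5.trans (mul_le_mul_of_nonneg_left hθN4 hr.le)
      calc θ * (θ * N) * ((S.C i).card : ℝ) ≤ r * (r * ∑ i ∈ A, ((S.C i).card : ℝ)) * (S.C i).card :=
            mul_le_mul_of_nonneg_right h3 (Nat.cast_nonneg _)
        _ = _ := by ring)
    (by
      rw [hUs]
      have h1 : (univ.filter fun v => v ∈ Z ∨ c v ∈ A) ⊆ univ \ T := by
        intro v hv
        refine mem_sdiff.2 ⟨mem_univ _, fun hvT => ?_⟩
        rcases (mem_filter.1 hv).2 with h | h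
        · exact (hZT v h).1 hvT
        · rw [hcT v hvT] at h
          exact (c1 v hvT).2.1 h
      have h2 := card_le_card h1
      have h3 : ((univ \ T).card : ℝ) = Fintype.card V - T.card := by
        rw [card_sdiff_of_subset (subset_univ _), Nat.cast_sub (card_le_card (subset_univ _)),
          card_univ]
      have h4 : ((univ.filter fun v => v ∈ Z ∨ c v ∈ A).card : ℝ) ≤ ((univ \ T).card : ℝ) :=
        Nat.cast_le.2 h2
      have h6 : 0 ≤ δ₁ * ∑ i ∈ A, ((S.C i).card : ℝ) :=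
        mul_nonneg hδ₁.le (sum_nonneg fun _ _ => Nat.cast_nonneg _)
      linarith)
    finj
    (by
      intro q hq
      rw [hcQ q hq]
      exact (hQA q hq).2)
    fadj
    (by
      intro q hq v hvZ hvQ hqv
      have hvAl : c v ∈ Al v := by
        by_cases hvT : v ∈ T
        · rw [hcT v hvT]
          exact (c1 v hvT).2.2
        · rw [hcg v hvQ hvT]
          exact (c2 v hvT hvQ (hnZ v hvZ hvQ hvT)).2
      exact hAl v _ hvAl q hq hqv.symm)
    (by
      intro q hq z _ _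
      have h1 := dg_biUnion_le S (ci (f₀ q)) A (fun j hj => indA _ (hQA q hq).1 j hj) (f₀ q)
      have h2 := ftyp q hq _ (hQA q hq).1 (hQA q hq).2
      rw [hUs]
      exact h1.trans (h2.trans hθN4))
  exact ⟨f, hf, hfa⟩

/-- The data of the low problem. -/
theorem mkLow {Q : ℝ} {C K M : ℕ} {δ₁ δ r θ : ℝ} (hδ₁ : 0 < δ₁) (hδ₁4 : δ₁ ≤ 1 / 4)
    (hr : 0 < r) (hr1 : r ≤ 1) (h8 : 8 * (K : ℝ) * r ≤ δ₁) (hK0 : 0 < K)
    (hθ : 0 < θ) (hθ2 : θ ≤ 1 / 2) (hθr : θ * (1 + 2 * C) ≤ r / 4)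
    (hθδ : K * (θ * (1 + 2 * C)) ≤ δ * r)
    {W V : Type} [Fintype W] [Fintype V] (H : SimpleGraph W) (G : SimpleGraph V)
    (S : Clus H (θ ^ 2 / 2) M) (I : Finset W)
    (hbig : ∀ i, 0 < (S.C i).card) (hkm : Fintype.card V + G.edgeSet.ncard ≤ Fintype.card W)
    (hQ : (1 + Q) * Fintype.card V ≤ Fintype.card W)
    (hmC : G.edgeSet.ncard ≤ C * Fintype.card V) (hI : H.IsIndepSet (I : Set W))
    (hIk : I.card < Fintype.card V)
    (hdeg : ∀ v : V, Fintype.card W + 1 ≤ (G.neighborSet v).ncard * I.card + Fintype.card V)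
    (A : Finset S.ι) (indA : ∀ i ∈ A, ∀ j ∈ A, ¬ S.F.Adj i j)
    (maxA : ∀ T : Finset S.ι, (∀ i ∈ T, ∀ j ∈ T, ¬ S.F.Adj i j) →
      ∑ i ∈ T, ((S.C i).card : ℝ) ≤ ∑ i ∈ A, ((S.C i).card : ℝ))
    (Qh Gi : Finset V) (hQh : ∀ v, v ∈ Qh ↔ K < (G.neighborSet v).ncard) (hGi : Gi ⊆ Qh)
    (hmed : ((∑ u ∈ Qh \ Gi, (G.neighborSet u).ncard : ℕ) : ℝ) ≤ δ₁ * Fintype.card V)
    (f₀ : V → W) (i₀ : S.ι)
    (finj : ∀ q ∈ Qh, ∀ q' ∈ Qh, f₀ q = f₀ q' → q = q')
    (fadj : ∀ q ∈ Qh, ∀ q' ∈ Qh, G.Adj q q' → ¬ H.Adj (f₀ q) (f₀ q'))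
    (fU : ∀ q ∈ Qh, f₀ q ∈ A.biUnion S.C)
    (ftyp : ∀ q ∈ Qh, ∀ i ∈ A, f₀ q ∈ S.C i → dS S i (f₀ q) ≤ θ * Fintype.card W)
    (fload : ∀ i ∈ A, ((Qh.filter fun q => f₀ q ∈ S.C i).card : ℝ) ≤ δ₁ * (S.C i).card)
    (fGi : ∀ q ∈ Gi, f₀ q ∈ S.C i₀) :
    ∃ D : LowData Q C K M δ₁ δ G,
      (@Finset.sum D.ι ℝ _ (@Finset.univ D.ι D.ft) D.w) * Fintype.card V ≤ Fintype.card W ∧
      (I.card : ℝ) ≤ ((∑ i ∈ D.A, D.w i) + δ) * Fintype.card V ∧
      (∀ v, v ∉ D.Qh → v ∉ D.Ex → dLow G D.Qh v + jHub G D.Gi v = (G.neighborSet v).ncard) ∧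
      (LowSol D → Emb G H) := by
  letI := S.ft
  obtain ⟨hNk, hkI⟩ := core_basic hkm hmC hIk hdeg
  set k : ℝ := (Fintype.card V : ℝ) with hk
  set N : ℝ := (Fintype.card W : ℝ) with hN
  have hkpos : (0 : ℝ) < k := by
    have : 0 < Fintype.card V := by omega
    exact Nat.cast_pos.2 this
  have hNk' : N ≤ (1 + 2 * C) * k := by
    have : ((Fintype.card W : ℕ) : ℝ) ≤ (((1 + 2 * C) * Fintype.card V : ℕ) : ℝ) := by
      exact_mod_cast hNk
    push_cast at this
    exact this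
  have hN0 : 0 ≤ N := Nat.cast_nonneg _
  have hC0 : (0 : ℝ) ≤ C := Nat.cast_nonneg _
  have hKr : (1 : ℝ) ≤ K := by exact_mod_cast hK0
  have hδr : 0 < δ := by
    by_contra h
    have h1 : δ * r ≤ 0 := mul_nonpos_of_nonpos_of_nonneg (not_lt.1 h) hr.le
    have h2 : 0 < (K : ℝ) * (θ * (1 + 2 * C)) := by positivity
    linarith
  -- numerical consequences
  have hθN : θ * N ≤ θ * (1 + 2 * C) * k := by
    calc θ * N ≤ θ * ((1 + 2 * C) * k) := mul_le_mul_of_nonneg_left hNk' hθ.le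
      _ = _ := by ring
  have hKθN : K * (θ * N / r) ≤ δ * k := by
    have h1 : K * (θ * N) ≤ (δ * r) * k := by
      calc K * (θ * N) ≤ K * (θ * (1 + 2 * C) * k) :=
            mul_le_mul_of_nonneg_left hθN (by positivity)
        _ = (K * (θ * (1 + 2 * C))) * k := by ring
        _ ≤ _ := mul_le_mul_of_nonneg_right hθδ hkpos.le
    rw [← mul_div_assoc, div_le_iff₀ hr]
    linarith
  have hθ2N : θ ^ 2 * N ≤ δ * k := by
    have h1 : θ * N ≤ δ * k * 1 := by
      have h2 : θ * N ≤ K * (θ * N / r) := by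
        have h3 : θ * N ≤ θ * N / r := by
          rw [le_div_iff₀ hr]
          have : 0 ≤ θ * N := by positivity
          nlinarith
        have h4 : 0 ≤ θ * N / r := by positivity
        nlinarith
      linarith
    have h5 : θ ^ 2 * N = θ * (θ * N) := by ring
    have h6 : 0 ≤ θ * N := by positivity
    rw [h5]
    nlinarith
  have hθ2N8 : θ ^ 2 * N ≤ k / 8 := by
    have h1 : θ * N ≤ r / 4 * k := hθN.trans (mul_le_mul_of_nonneg_right hθr hkpos.le)
    have h2 : r / 4 * k ≤ 1 / 4 * k := mul_le_mul_of_nonneg_right (by linarith) hkpos.le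
    have h5 : θ ^ 2 * N = θ * (θ * N) := by ring
    have h6 : 0 ≤ θ * N := by positivity
    rw [h5]
    nlinarith
  have hεpos : 0 < θ ^ 2 / 2 := by positivity
  have hIle : (I.card : ℝ) ≤ ∑ i ∈ A, ((S.C i).card : ℝ) + θ ^ 2 * N := by
    have := card_indep_le S hεpos hI maxA
    have h2 : 2 * (θ ^ 2 / 2) * (Fintype.card W : ℝ) = θ ^ 2 * N := by rw [← hN]; ring
    linarith
  set s : ℝ := ∑ i ∈ A, ((S.C i).card : ℝ) with hs
  have hkI' : k ≤ 2 * (I.card : ℝ) := by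
    have : ((Fintype.card V : ℕ) : ℝ) ≤ ((2 * I.card : ℕ) : ℝ) := by exact_mod_cast hkI
    push_cast at this
    exact this
  have hs4 : k / 4 ≤ s := by linarith
  have hUs : ((A.biUnion S.C).card : ℝ) = s := S.card_biUnion A
  have hθN4 : θ * N ≤ r * s := by
    have h1 : θ * N ≤ r / 4 * k := hθN.trans (mul_le_mul_of_nonneg_right hθr hkpos.le)
    have h2 : r * (k / 4) ≤ r * s := mul_le_mul_of_nonneg_left hs4 hr.le
    linarith
  have hθr' : θ ≤ r / 4 := by
    have : θ * 1 ≤ θ * (1 + 2 * C) := mul_le_mul_of_nonneg_left (by linarith) hθ.le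
    linarith
  have htot := S.tot
  have hsumN : ∑ i, ((S.C i).card : ℝ) ≤ N := S.sum_le univ
  have hsumN' : N ≤ ∑ i, ((S.C i).card : ℝ) + δ * k := by
    have h1 : (1 - θ ^ 2 / 2) * N ≤ ∑ i, ((S.C i).card : ℝ) := htot
    have h2 : θ ^ 2 / 2 * N ≤ θ ^ 2 * N := by
      have : 0 ≤ θ ^ 2 * N := by positivity
      linarith
    nlinarith
  -- sums of weights
  have hwsum : ∀ T : Finset S.ι, ∑ i ∈ T, ((S.C i).card : ℝ) / k = (∑ i ∈ T, ((S.C i).card : ℝ)) / k :=
    fun T => (sum_div _ _ _).symm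
  -- the bad clusters of one hub
  have hexc : ∀ q ∈ Qh, ∀ i ∈ A, f₀ q ∈ S.C i → ∀ T : Finset S.ι,
      (∀ j ∈ T, ¬ S.F.Adj i j ∧ r * (S.C j).card < dg H (S.C j) (f₀ q)) →
      ∑ j ∈ T, ((S.C j).card : ℝ) ≤ θ * N / r := fun q hq i hi hqi T hT =>
    exc S i hr (ftyp q hq i hi hqi) T hT
  set Al : V → Finset S.ι := fun v => univ.filter fun j => ∀ q ∈ Qh, G.Adj v q →
    (dg H (S.C j) (f₀ q) : ℝ) ≤ r * (S.C j).card with hAl
  set Nq : V → Finset V := fun v => univ.filter fun q => G.Adj v q with hNq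
  have hNqK : ∀ v, v ∉ Qh → (Nq v).card ≤ K := by
    intro v hv
    have h1 := (hQh v).not.1 hv
    rw [ncard_nbr] at h1
    exact not_lt.1 h1
  -- lists
  have hlist : ∀ v, v ∉ Qh → ∀ (P : V → S.ι → Prop) (T : Finset S.ι),
      (∀ q ∈ Qh, G.Adj v q → ∀ j ∈ T, P q j → ∀ i ∈ A, f₀ q ∈ S.C i → ¬ S.F.Adj i j) →
      (∀ j ∈ T, ∃ q ∈ Qh, G.Adj v q ∧ P q j ∧ r * (S.C j).card < dg H (S.C j) (f₀ q)) →
      ∑ j ∈ T, ((S.C j).card : ℝ) ≤ δ * k := by
    intro v hv P T hT1 hT2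
    have h1 : T ⊆ (Nq v).biUnion fun q => T.filter fun j => q ∈ Qh ∧ P q j ∧
        r * (S.C j).card < dg H (S.C j) (f₀ q) := by
      intro j hj
      obtain ⟨q, hq, hvq, hP, hd⟩ := hT2 j hj
      exact mem_biUnion.2 ⟨q, mem_filter.2 ⟨mem_univ _, hvq⟩, mem_filter.2 ⟨hj, hq, hP, hd⟩⟩
    calc ∑ j ∈ T, ((S.C j).card : ℝ) ≤ ∑ j ∈ (Nq v).biUnion fun q => T.filter fun j => q ∈ Qh ∧
          P q j ∧ r * (S.C j).card < dg H (S.C j) (f₀ q), ((S.C j).card : ℝ) :=
          sum_le_sum_of_subset_of_nonneg h1 fun _ _ _ => Nat.cast_nonneg _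
      _ ≤ ∑ q ∈ Nq v, ∑ j ∈ T.filter fun j => q ∈ Qh ∧
          P q j ∧ r * (S.C j).card < dg H (S.C j) (f₀ q), ((S.C j).card : ℝ) :=
          sum_biUnion_le' _ _ _ fun _ => Nat.cast_nonneg _
      _ ≤ ∑ _q ∈ Nq v, θ * N / r := by
          refine sum_le_sum fun q hq => ?_
          have hvq := (mem_filter.1 hq).2
          by_cases hqQ : q ∈ Qh
          · obtain ⟨i, hi, hqi⟩ := mem_biUnion.1 (fU q hqQ)
            refine hexc q hqQ i hi hqi _ fun j hj => ?_
            obtain ⟨hjT, -, hP, hd⟩ := mem_filter.1 hj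
            exact ⟨hT1 q hqQ hvq j hjT hP i hi hqi, hd⟩
          · rw [filter_false_of_mem fun j _ h => hqQ h.1, sum_empty]
            positivity
      _ = (Nq v).card * (θ * N / r) := by rw [sum_const, nsmul_eq_mul]
      _ ≤ K * (θ * N / r) := by
          refine mul_le_mul_of_nonneg_right ?_ (by positivity)
          exact_mod_cast hNqK v hv
      _ ≤ _ := hKθN
  have hw : ∀ i, 0 ≤ ((S.C i).card : ℝ) / k := fun i => by positivity
  have hdivle : ∀ {x y : ℝ}, x ≤ y * k → x / k ≤ y := fun {x y} h => by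
    rw [div_le_iff₀ hkpos]; exact h
  have hdegeq : ∀ v, v ∉ (univ.filter fun v => ∃ u ∈ Qh \ Gi, G.Adj v u) →
      dLow G Qh v + jHub G Gi v = (G.neighborSet v).ncard := by
    intro v hvE
    rw [← low_add_hub G Qh v]
    congr 1
    unfold jHub
    congr 1
    ext u
    simp only [mem_filter, mem_univ, true_and]
    constructor
    · rintro ⟨a, b⟩; exact ⟨a, hGi b⟩
    · rintro ⟨a, b⟩
      refine ⟨a, ?_⟩
      by_contra hu
      exact hvE (mem_filter.2 ⟨mem_univ _, u, mem_sdiff.2 ⟨b, hu⟩, a⟩)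
  refine ⟨{
    ι := S.ι
    ft := S.ft
    F := S.F
    Bd := S.Bd
    w := fun i => ((S.C i).card : ℝ) / k
    A := A
    Qh := Qh
    Gi := Gi
    Ex := univ.filter fun v => ∃ u ∈ Qh \ Gi, G.Adj v u
    Al := Al
    few := S.few
    wpos := ?_
    tri := S.tri
    brefl := S.brefl
    bsymm := S.bsymm
    bsmall := ?_
    indA := indA
    maxA := ?_
    half := ?_
    totQ := ?_
    totC := ?_
    hubs := ?_
    giants := hGi
    exc := ?_
    exCard := ?_
    deg := ?_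
    degBig := ?_
    budget := ?_
    listA := ?_
    listB := ?_ }, ?_, ?_, ?_, ?_⟩
  · -- wpos
    intro i
    have h1 := S.big i
    rw [← mul_div_assoc, le_div_iff₀ hkpos]
    have h2 : k ≤ N := by
      have : Fintype.card V ≤ Fintype.card W := by omega
      exact Nat.cast_le.2 this
    linarith
  · -- bsmall
    intro i T hT
    rw [hwsum]
    refine hdivle ?_
    have h1 : ∑ j ∈ T, ((S.C j).card : ℝ) ≤
        ∑ j ∈ univ.filter (fun j => S.Bd i j), ((S.C j).card : ℝ) :=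
      sum_le_sum_of_subset_of_nonneg (fun j hj => mem_filter.2 ⟨mem_univ _, hT j hj⟩)
        fun _ _ _ => Nat.cast_nonneg _
    have h2 := S.bsmall i
    have h3 : θ ^ 2 / 2 * N ≤ θ ^ 2 * N := by
      have : 0 ≤ θ ^ 2 * N := by positivity
      linarith
    linarith
  · -- maxA
    intro T hT
    rw [hwsum, hwsum]
    exact div_le_div_of_nonneg_right (maxA T hT) hkpos.le
  · -- half
    rw [hwsum, ← sub_le_iff_le_add, le_div_iff₀ hkpos]
    linarith
  · -- totQ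
    rw [hwsum, ← sub_le_iff_le_add, le_div_iff₀ hkpos]
    have h1 : (1 + Q) * k ≤ N := hQ
    linarith
  · -- totC
    rw [hwsum]
    exact hdivle (hsumN.trans hNk')
  · -- hubs
    have h1 := hubs_nat G K
    have h2 : Qh = univ.filter fun v => K < (G.neighborSet v).ncard := by
      ext v; simp [hQh v]
    rw [← h2] at h1
    have h3 : Qh.card * K ≤ 2 * (C * Fintype.card V) := h1.trans (Nat.mul_le_mul_left 2 hmC)
    have h4 : ((Qh.card * K : ℕ) : ℝ) ≤ ((2 * (C * Fintype.card V) : ℕ) : ℝ) := by exact_mod_cast h3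
    push_cast at h4
    linarith
  · -- exc
    intro v _ u hu huG huv
    exact mem_filter.2 ⟨mem_univ _, u, mem_sdiff.2 ⟨hu, huG⟩, huv⟩
  · -- exCard
    refine le_trans ?_ hmed
    exact_mod_cast card_exc_le G (Qh \ Gi)
  · -- deg
    intro v hv
    exact hNqK v hv
  · -- degBig
    intro v hv hvE
    have h1 := hdegeq v hvE
    have h2 : ((dLow G Qh v : ℝ) + jHub G Gi v) = ((G.neighborSet v).ncard : ℝ) := by
      rw [← h1]; push_cast; ring
    rw [h2, hwsum, hwsum]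
    refine hdivle ?_
    have h3 : (N + 1 : ℝ) ≤ (G.neighborSet v).ncard * I.card + k := by
      have := hdeg v
      have h : ((Fintype.card W + 1 : ℕ) : ℝ) ≤
        (((G.neighborSet v).ncard * I.card + Fintype.card V : ℕ) : ℝ) := by exact_mod_cast this
      push_cast at h
      exact h
    set dv : ℝ := ((G.neighborSet v).ncard : ℝ) with hdv
    have hdv0 : 0 ≤ dv := Nat.cast_nonneg _
    have h4 : dv * I.card ≤ dv * (s + θ ^ 2 * N) := mul_le_mul_of_nonneg_left hIle hdv0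
    have h5 : dv * (θ ^ 2 * N) ≤ dv * (δ * k) := mul_le_mul_of_nonneg_left hθ2N hdv0
    have h6 : (1 + δ + dv * (s / k + δ)) * k = k + δ * k + dv * s + dv * (δ * k) := by
      field_simp
      ring
    have h7 : 0 < δ * k := by positivity
    rw [h6]
    linarith
  · -- budget
    intro T hT
    have h1 : ∑ v ∈ T, ((dLow G Qh v : ℝ) + 2 * jHub G Gi v) ≤
        ((∑ v ∈ T, (dLow G Qh v + 2 * jHub G Qh v) : ℕ) : ℝ) := by
      push_cast
      refine sum_le_sum fun v _ => ?_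
      have h2 : jHub G Gi v ≤ jHub G Qh v := card_le_card fun u hu =>
        mem_filter.2 ⟨mem_univ _, (mem_filter.1 hu).2.1, hGi (mem_filter.1 hu).2.2⟩
      have h3 : (jHub G Gi v : ℝ) ≤ jHub G Qh v := Nat.cast_le.2 h2
      linarith
    have h4 : ((∑ v ∈ T, (dLow G Qh v + 2 * jHub G Qh v) : ℕ) : ℝ) ≤
        ((2 * G.edgeSet.ncard : ℕ) : ℝ) := Nat.cast_le.2 (budget_nat G Qh T hT)
    have h5 : ((2 * G.edgeSet.ncard : ℕ) : ℝ) ≤ 2 * (N - k) := by
      have h : ((Fintype.card V + G.edgeSet.ncard : ℕ) : ℝ) ≤ (Fintype.card W : ℝ) :=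
        Nat.cast_le.2 hkm
      push_cast at h ⊢
      linarith
    refine (h1.trans (h4.trans h5)).trans ?_
    rw [hwsum]
    have h6 : 2 * ((∑ i, ((S.C i).card : ℝ)) / k - 1 + δ) * k =
        2 * (∑ i, ((S.C i).card : ℝ) - k + δ * k) := by
      field_simp
    rw [h6]
    linarith
  · -- listA
    intro v hv T hT
    rw [hwsum]
    refine hdivle (hlist v hv (fun _ _ => True) T ?_ ?_)
    · intro q hq _ j hj _ i hi _
      exact indA i hi j (hT j hj).1
    · intro j hj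
      have h1 := (hT j hj).2
      rw [hAl] at h1
      simp only [mem_filter, mem_univ, true_and, not_forall, not_le] at h1
      obtain ⟨q, hq, hvq, hd⟩ := h1
      exact ⟨q, hq, hvq, trivial, hd⟩
  · -- listB
    intro v hv hvE T hT
    have hbadq : ∀ j ∈ T, ∃ q ∈ Qh, G.Adj v q ∧ q ∈ Gi ∧
        r * (S.C j).card < dg H (S.C j) (f₀ q) := by
      intro j hj
      have h1 := (hT j hj).2
      rw [hAl] at h1
      simp only [mem_filter, mem_univ, true_and, not_forall, not_le] at h1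
      obtain ⟨q, hq, hvq, hd⟩ := h1
      refine ⟨q, hq, hvq, ?_, hd⟩
      by_contra hqG
      exact hvE (mem_filter.2 ⟨mem_univ _, q, mem_sdiff.2 ⟨hq, hqG⟩, hvq⟩)
    by_cases hj0 : jHub G Gi v = 0
    · rw [if_pos hj0]
      have hTe : T = ∅ := by
        rw [eq_empty_iff_forall_notMem]
        intro j hj
        obtain ⟨q, -, hvq, hqG, -⟩ := hbadq j hj
        have : q ∈ univ.filter fun u => G.Adj v u ∧ u ∈ Gi := mem_filter.2 ⟨mem_univ _, hvq, hqG⟩
        rw [card_eq_zero.1 hj0] at this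
        simp at this
      rw [hTe, sum_empty]
      linarith
    · rw [if_neg hj0]
      rw [hwsum, hwsum]
      refine hdivle ?_
      rw [add_mul, div_mul_cancel₀ _ hkpos.ne', ← sum_filter_add_sum_filter_not T
        (fun j => S.F.Adj i₀ j)]
      refine add_le_add ?_ ?_
      · refine maxA _ fun i hi j hj hij => ?_
        have h1 := (mem_filter.1 hi).2
        have h2 := (mem_filter.1 hj).2
        exact S.tri {i₀, i, j} (SimpleGraph.is3Clique_triple_iff.2 ⟨h1, h2, hij⟩)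
      · refine hlist v hv (fun q j => q ∈ Gi ∧ ¬ S.F.Adj i₀ j) _ ?_ ?_
        · intro q hq _ j hj hP i hi hqi
          have : i = i₀ := by
            by_contra hne
            exact disjoint_left.1 (S.disj i i₀ hne) hqi (fGi q hP.1)
          rw [this]
          exact hP.2
        · intro j hj
          obtain ⟨q, hq, hvq, hqG, hd⟩ := hbadq j (mem_filter.1 hj).1
          exact ⟨q, hq, hvq, ⟨hqG, (mem_filter.1 hj).2⟩, hd⟩
  · -- sum of the weights
    show (∑ i, ((S.C i).card : ℝ) / k) * k ≤ N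
    rw [hwsum, div_mul_cancel₀ _ hkpos.ne']
    exact hsumN
  · show (I.card : ℝ) ≤ ((∑ i ∈ A, ((S.C i).card : ℝ) / k) + δ) * k
    rw [hwsum, add_mul, div_mul_cancel₀ _ hkpos.ne']
    linarith
  · intro v _ hvE
    exact hdegeq v hvE
  · -- embedding
    rintro ⟨T, g, b, c1, c2, c3, c4, c5, c6, c7, c8⟩
    have hcd : ∀ (x : ℝ) (i : S.ι), x * (((S.C i).card : ℝ) / k) * k = x * (S.C i).card := by
      intro x i
      rw [mul_assoc, div_mul_cancel₀ _ hkpos.ne']
    refine emb_of_sol hδ₁ hr h8 hθ hθr' H G S hbig A indA hθN4 Qh hNqK f₀ i₀ finj fadj fU ftyp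
      fload Al (fun v j hj => (mem_filter.1 hj).2) T g b
      (fun v hv => ⟨(c1 v hv).1, (c1 v hv).2.2.1, (c1 v hv).2.2.2⟩) c2 c3 c4 c5 ?_ ?_ ?_
    · intro a ha X hX
      rw [← hcd]
      exact c6 a ha X hX
    · intro a ha X hX
      rw [← hcd]
      exact c7 a ha X hX
    · have h5 : (1 - 2 * δ₁) * (∑ i ∈ A, ((S.C i).card : ℝ) / k) * k =
          (1 - 2 * δ₁) * ∑ i ∈ A, ((S.C i).card : ℝ) := by
        rw [hwsum, mul_assoc, div_mul_cancel₀ _ hkpos.ne']
      rw [← h5]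
      exact c8

end Pool.Agent.T6A
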