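import Pool.Agent.T6A.MkLow
import Pool.Agent.T6A.Low4

/-!
# The embedding from a solution of the low problem, version 4 (MP_c6effb_co)
-/

set_option autoImplicit false
set_option linter.unusedSectionVars false

open Finset Classical

namespace Pool.Agent.T6A

open EMB

/-- The embedding from a solution of the low problem, version 4. -/
theorem low4_emb {Q : ℝ} {C K M : ℕ} {δ₁ δ r θ : ℝ} (hδ₁ : 0 < δ₁) (hδ₁4 : δ₁ ≤ 1 / 4)
    (hr : 0 < r) (hr1 : r ≤ 1) (h8 : 8 * (K : ℝ) * r ≤ δ₁) (hK0 : 0 < K)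
    (hθ : 0 < θ) (hθ2 : θ ≤ 1 / 2) (hθr : θ * (1 + 2 * C) ≤ r / 4)
    (hθδ : K * (θ * (1 + 2 * C)) ≤ δ * r)
    {W V : Type} [Fintype W] [Fintype V] (H : SimpleGraph W) (G : SimpleGraph V)
    (S : Clus H (θ ^ 2 / 2) M) (I : Finset W)
    (hbig : ∀ i, 0 < (S.C i).card) (hkm : Fintype.card V + G.edgeSet.ncard ≤ Fintype.card W)
    (hQ : (1 + Q) * Fintype.card V ≤ Fintype.card W)
    (hmC : G.edgeSet.ncard ≤ C * Fintype.card V) (hI : H.IsIndepSet (I : Set W))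
    (hIk : I.card < Fintype.card V)
    (hdeg : ∀ v : V, Fintype.card W + 1 ≤ (G.neighborSet v).ncard * I.card + Fintype.card V)
    (A : Finset S.ι) (indA : ∀ i ∈ A, ∀ j ∈ A, ¬ S.F.Adj i j)
    (maxA : ∀ T : Finset S.ι, (∀ i ∈ T, ∀ j ∈ T, ¬ S.F.Adj i j) →
      ∑ i ∈ T, ((S.C i).card : ℝ) ≤ ∑ i ∈ A, ((S.C i).card : ℝ))
    (Qh Gi : Finset V) (hQh : ∀ v, v ∈ Qh ↔ K < (G.neighborSet v).ncard) (hGi : Gi ⊆ Qh)
    (hmed : ((∑ u ∈ Qh \ Gi, (G.neighborSet u).ncard : ℕ) : ℝ) ≤ δ₁ * Fintype.card V)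
    (hLP : ∀ D : PreData Q C K M δ₁ δ G,
      (@Finset.sum D.ι ℝ _ (@Finset.univ D.ι D.ft) D.w) * Fintype.card V ≤ Fintype.card W →
      (I.card : ℝ) ≤ ((∑ i ∈ D.A, D.w i) + δ) * Fintype.card V →
      (∀ v, v ∉ D.Qh → v ∉ D.Ex → dLow G D.Qh v + jHub G D.Gi v = (G.neighborSet v).ncard) →
      ∃ As ⊆ D.A, δ₁ ≤ ∑ i ∈ As, D.w i ∧
        ∀ i₀ ∈ As, ∀ Al : V → Finset D.ι, D.Lists i₀ Al → D.Sol Al)
    (hpl : ∀ As ⊆ A, δ₁ * Fintype.card V ≤ ∑ i ∈ As, ((S.C i).card : ℝ) →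
      ∃ (f₀ : V → W) (i₀ : S.ι), i₀ ∈ As ∧
        (∀ q ∈ Qh, ∀ q' ∈ Qh, f₀ q = f₀ q' → q = q') ∧
        (∀ q ∈ Qh, ∀ q' ∈ Qh, G.Adj q q' → ¬ H.Adj (f₀ q) (f₀ q')) ∧
        (∀ q ∈ Qh, f₀ q ∈ A.biUnion S.C) ∧
        (∀ q ∈ Qh, ∀ i ∈ A, f₀ q ∈ S.C i → dS S i (f₀ q) ≤ θ * Fintype.card W) ∧
        (∀ i ∈ A, ((Qh.filter fun q => f₀ q ∈ S.C i).card : ℝ) ≤ δ₁ * (S.C i).card) ∧
        (∀ q ∈ Gi, f₀ q ∈ S.C i₀)) : Emb G H := by
  letI := S.ft
  obtain ⟨hNk, hkI⟩ := core_basic hkm hmC hIk hdeg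
  set k : ℝ := (Fintype.card V : ℝ) with hk
  set N : ℝ := (Fintype.card W : ℝ) with hN
  have hkpos : (0 : ℝ) < k := by
    have : 0 < Fintype.card V := by omega
    exact Nat.cast_pos.2 this
  have hNk' : N ≤ (1 + 2 * C) * k := by
    have : ((Fintype.card W : ℕ) : ℝ) ≤ (((1 + 2 * C) * Fintype.card V : ℕ) : ℝ) := by
      exact_mod_cast hNk
    push_cast at this
    exact this
  have hN0 : 0 ≤ N := Nat.cast_nonneg _
  have hC0 : (0 : ℝ) ≤ C := Nat.cast_nonneg _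
  have hKr : (1 : ℝ) ≤ K := by exact_mod_cast hK0
  have hδr : 0 < δ := by
    by_contra h
    have h1 : δ * r ≤ 0 := mul_nonpos_of_nonpos_of_nonneg (not_lt.1 h) hr.le
    have h2 : 0 < (K : ℝ) * (θ * (1 + 2 * C)) := by positivity
    linarith
  -- numerical consequences
  have hθN : θ * N ≤ θ * (1 + 2 * C) * k := by
    calc θ * N ≤ θ * ((1 + 2 * C) * k) := mul_le_mul_of_nonneg_left hNk' hθ.le
      _ = _ := by ring
  have hKθN : K * (θ * N / r) ≤ δ * k := by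
    have h1 : K * (θ * N) ≤ (δ * r) * k := by
      calc K * (θ * N) ≤ K * (θ * (1 + 2 * C) * k) :=
            mul_le_mul_of_nonneg_left hθN (by positivity)
        _ = (K * (θ * (1 + 2 * C))) * k := by ring
        _ ≤ _ := mul_le_mul_of_nonneg_right hθδ hkpos.le
    rw [← mul_div_assoc, div_le_iff₀ hr]
    linarith
  have hθ2N : θ ^ 2 * N ≤ δ * k := by
    have h1 : θ * N ≤ δ * k * 1 := by
      have h2 : θ * N ≤ K * (θ * N / r) := by
        have h3 : θ * N ≤ θ * N / r := by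
          rw [le_div_iff₀ hr]
          have : 0 ≤ θ * N := by positivity
          nlinarith
        have h4 : 0 ≤ θ * N / r := by positivity
        nlinarith
      linarith
    have h5 : θ ^ 2 * N = θ * (θ * N) := by ring
    have h6 : 0 ≤ θ * N := by positivity
    rw [h5]
    nlinarith
  have hθ2N8 : θ ^ 2 * N ≤ k / 8 := by
    have h1 : θ * N ≤ r / 4 * k := hθN.trans (mul_le_mul_of_nonneg_right hθr hkpos.le)
    have h2 : r / 4 * k ≤ 1 / 4 * k := mul_le_mul_of_nonneg_right (by linarith) hkpos.le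
    have h5 : θ ^ 2 * N = θ * (θ * N) := by ring
    have h6 : 0 ≤ θ * N := by positivity
    rw [h5]
    nlinarith
  have hεpos : 0 < θ ^ 2 / 2 := by positivity
  have hIle : (I.card : ℝ) ≤ ∑ i ∈ A, ((S.C i).card : ℝ) + θ ^ 2 * N := by
    have := card_indep_le S hεpos hI maxA
    have h2 : 2 * (θ ^ 2 / 2) * (Fintype.card W : ℝ) = θ ^ 2 * N := by rw [← hN]; ring
    linarith
  set s : ℝ := ∑ i ∈ A, ((S.C i).card : ℝ) with hs
  have hkI' : k ≤ 2 * (I.card : ℝ) := by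
    have : ((Fintype.card V : ℕ) : ℝ) ≤ ((2 * I.card : ℕ) : ℝ) := by exact_mod_cast hkI
    push_cast at this
    exact this
  have hs4 : k / 4 ≤ s := by linarith
  have hUs : ((A.biUnion S.C).card : ℝ) = s := S.card_biUnion A
  have hθN4 : θ * N ≤ r * s := by
    have h1 : θ * N ≤ r / 4 * k := hθN.trans (mul_le_mul_of_nonneg_right hθr hkpos.le)
    have h2 : r * (k / 4) ≤ r * s := mul_le_mul_of_nonneg_left hs4 hr.le
    linarith
  have hθr' : θ ≤ r / 4 := by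
    have : θ * 1 ≤ θ * (1 + 2 * C) := mul_le_mul_of_nonneg_left (by linarith) hθ.le
    linarith
  have htot := S.tot
  have hsumN : ∑ i, ((S.C i).card : ℝ) ≤ N := S.sum_le univ
  have hsumN' : N ≤ ∑ i, ((S.C i).card : ℝ) + δ * k := by
    have h1 : (1 - θ ^ 2 / 2) * N ≤ ∑ i, ((S.C i).card : ℝ) := htot
    have h2 : θ ^ 2 / 2 * N ≤ θ ^ 2 * N := by
      have : 0 ≤ θ ^ 2 * N := by positivity
      linarith
    nlinarith
  -- sums of weights
  have hwsum : ∀ T : Finset S.ι, ∑ i ∈ T, ((S.C i).card : ℝ) / k = (∑ i ∈ T, ((S.C i).card : ℝ)) / k :=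
    fun T => (sum_div _ _ _).symm
  have hw : ∀ i, 0 ≤ ((S.C i).card : ℝ) / k := fun i => by positivity
  have hdivle : ∀ {x y : ℝ}, x ≤ y * k → x / k ≤ y := fun {x y} h => by
    rw [div_le_iff₀ hkpos]; exact h
  have hdegeq : ∀ v, v ∉ (univ.filter fun v => ∃ u ∈ Qh \ Gi, G.Adj v u) →
      dLow G Qh v + jHub G Gi v = (G.neighborSet v).ncard := by
    intro v hvE
    rw [← low_add_hub G Qh v]
    congr 1
    unfold jHub
    congr 1
    ext u
    simp only [mem_filter, mem_univ, true_and]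
    constructor
    · rintro ⟨a, b⟩; exact ⟨a, hGi b⟩
    · rintro ⟨a, b⟩
      refine ⟨a, ?_⟩
      by_contra hu
      exact hvE (mem_filter.2 ⟨mem_univ _, u, mem_sdiff.2 ⟨b, hu⟩, a⟩)
  set Nq : V → Finset V := fun v => univ.filter fun q => G.Adj v q with hNq
  have hNqK : ∀ v, v ∉ Qh → (Nq v).card ≤ K := by
    intro v hv
    have h1 := (hQh v).not.1 hv
    rw [ncard_nbr] at h1
    exact not_lt.1 h1
  have f_wpos : ∀ i : S.ι, 1 ≤ 2 * M * (((S.C i).card : ℝ) / k) := by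
    intro i
    have h1 := S.big i
    rw [← mul_div_assoc, le_div_iff₀ hkpos]
    have h2 : k ≤ N := by
      have : Fintype.card V ≤ Fintype.card W := by omega
      exact Nat.cast_le.2 this
    linarith
  have f_bsmall : ∀ i : S.ι, ∀ T : Finset S.ι, (∀ j ∈ T, S.Bd i j) → ∑ j ∈ T, ((S.C j).card : ℝ) / k ≤ δ := by
    intro i T hT
    rw [hwsum]
    refine hdivle ?_
    have h1 : ∑ j ∈ T, ((S.C j).card : ℝ) ≤
        ∑ j ∈ univ.filter (fun j => S.Bd i j), ((S.C j).card : ℝ) :=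
      sum_le_sum_of_subset_of_nonneg (fun j hj => mem_filter.2 ⟨mem_univ _, hT j hj⟩)
        fun _ _ _ => Nat.cast_nonneg _
    have h2 := S.bsmall i
    have h3 : θ ^ 2 / 2 * N ≤ θ ^ 2 * N := by
      have : 0 ≤ θ ^ 2 * N := by positivity
      linarith
    linarith
  have f_maxA : ∀ T : Finset S.ι, (∀ i ∈ T, ∀ j ∈ T, ¬ S.F.Adj i j) →
      ∑ i ∈ T, ((S.C i).card : ℝ) / k ≤ ∑ i ∈ A, ((S.C i).card : ℝ) / k := by
    intro T hT
    rw [hwsum, hwsum]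
    exact div_le_div_of_nonneg_right (maxA T hT) hkpos.le
  have f_half : 1 / 2 ≤ (∑ i ∈ A, ((S.C i).card : ℝ) / k) + δ := by
    rw [hwsum, ← sub_le_iff_le_add, le_div_iff₀ hkpos]
    linarith
  have f_totQ : 1 + Q ≤ (∑ i, ((S.C i).card : ℝ) / k) + δ := by
    rw [hwsum, ← sub_le_iff_le_add, le_div_iff₀ hkpos]
    have h1 : (1 + Q) * k ≤ N := hQ
    linarith
  have f_totC : ∑ i, ((S.C i).card : ℝ) / k ≤ 1 + 2 * C := by
    rw [hwsum]
    exact hdivle (hsumN.trans hNk')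
  have f_hubs : (Qh.card : ℝ) * K ≤ 2 * C * k := by
    have h1 := hubs_nat G K
    have h2 : Qh = univ.filter fun v => K < (G.neighborSet v).ncard := by
      ext v; simp [hQh v]
    rw [← h2] at h1
    have h3 : Qh.card * K ≤ 2 * (C * Fintype.card V) := h1.trans (Nat.mul_le_mul_left 2 hmC)
    have h4 : ((Qh.card * K : ℕ) : ℝ) ≤ ((2 * (C * Fintype.card V) : ℕ) : ℝ) := by exact_mod_cast h3
    push_cast at h4
    linarith
  have f_exc : ∀ v, v ∉ Qh → ∀ u ∈ Qh, u ∉ Gi → G.Adj v u →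
      v ∈ univ.filter fun v => ∃ u ∈ Qh \ Gi, G.Adj v u := by
    intro v _ u hu huG huv
    exact mem_filter.2 ⟨mem_univ _, u, mem_sdiff.2 ⟨hu, huG⟩, huv⟩
  have f_exCard : ((univ.filter fun v => ∃ u ∈ Qh \ Gi, G.Adj v u).card : ℝ) ≤ δ₁ * k := by
    refine le_trans ?_ hmed
    exact_mod_cast card_exc_le G (Qh \ Gi)
  have f_deg : ∀ v, v ∉ Qh → (univ.filter fun u => G.Adj v u).card ≤ K := by
    intro v hv
    exact hNqK v hv
  have f_degBig : ∀ v, v ∉ Qh → v ∉ (univ.filter fun v => ∃ u ∈ Qh \ Gi, G.Adj v u) →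
      ∑ i, ((S.C i).card : ℝ) / k ≤
        1 + δ + ((dLow G Qh v : ℝ) + jHub G Gi v) * ((∑ i ∈ A, ((S.C i).card : ℝ) / k) + δ) := by
    intro v hv hvE
    have h1 := hdegeq v hvE
    have h2 : ((dLow G Qh v : ℝ) + jHub G Gi v) = ((G.neighborSet v).ncard : ℝ) := by
      rw [← h1]; push_cast; ring
    rw [h2, hwsum, hwsum]
    refine hdivle ?_
    have h3 : (N + 1 : ℝ) ≤ (G.neighborSet v).ncard * I.card + k := by
      have := hdeg v
      have h : ((Fintype.card W + 1 : ℕ) : ℝ) ≤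
        (((G.neighborSet v).ncard * I.card + Fintype.card V : ℕ) : ℝ) := by exact_mod_cast this
      push_cast at h
      exact h
    set dv : ℝ := ((G.neighborSet v).ncard : ℝ) with hdv
    have hdv0 : 0 ≤ dv := Nat.cast_nonneg _
    have h4 : dv * I.card ≤ dv * (s + θ ^ 2 * N) := mul_le_mul_of_nonneg_left hIle hdv0
    have h5 : dv * (θ ^ 2 * N) ≤ dv * (δ * k) := mul_le_mul_of_nonneg_left hθ2N hdv0
    have h6 : (1 + δ + dv * (s / k + δ)) * k = k + δ * k + dv * s + dv * (δ * k) := by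
      field_simp
      ring
    have h7 : 0 < δ * k := by positivity
    rw [h6]
    linarith
  have f_budget : ∀ T : Finset V, (∀ v ∈ T, v ∉ Qh) → ∑ v ∈ T, ((dLow G Qh v : ℝ) + 2 * jHub G Gi v) ≤
      2 * ((∑ i, ((S.C i).card : ℝ) / k) - 1 + δ) * k := by
    intro T hT
    have h1 : ∑ v ∈ T, ((dLow G Qh v : ℝ) + 2 * jHub G Gi v) ≤
        ((∑ v ∈ T, (dLow G Qh v + 2 * jHub G Qh v) : ℕ) : ℝ) := by
      push_cast
      refine sum_le_sum fun v _ => ?_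
      have h2 : jHub G Gi v ≤ jHub G Qh v := card_le_card fun u hu =>
        mem_filter.2 ⟨mem_univ _, (mem_filter.1 hu).2.1, hGi (mem_filter.1 hu).2.2⟩
      have h3 : (jHub G Gi v : ℝ) ≤ jHub G Qh v := Nat.cast_le.2 h2
      linarith
    have h4 : ((∑ v ∈ T, (dLow G Qh v + 2 * jHub G Qh v) : ℕ) : ℝ) ≤
        ((2 * G.edgeSet.ncard : ℕ) : ℝ) := Nat.cast_le.2 (budget_nat G Qh T hT)
    have h5 : ((2 * G.edgeSet.ncard : ℕ) : ℝ) ≤ 2 * (N - k) := by
      have h : ((Fintype.card V + G.edgeSet.ncard : ℕ) : ℝ) ≤ (Fintype.card W : ℝ) :=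
        Nat.cast_le.2 hkm
      push_cast at h ⊢
      linarith
    refine (h1.trans (h4.trans h5)).trans ?_
    rw [hwsum]
    have h6 : 2 * ((∑ i, ((S.C i).card : ℝ)) / k - 1 + δ) * k =
        2 * (∑ i, ((S.C i).card : ℝ) - k + δ * k) := by
      field_simp
    rw [h6]
    linarith
  have f_sumw : (∑ i, ((S.C i).card : ℝ) / k) * k ≤ N := by
    rw [hwsum, div_mul_cancel₀ _ hkpos.ne']
    exact hsumN
  have f_Iw : (I.card : ℝ) ≤ ((∑ i ∈ A, ((S.C i).card : ℝ) / k) + δ) * k := by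
    rw [hwsum, add_mul, div_mul_cancel₀ _ hkpos.ne']
    linarith
  obtain ⟨As, hAs, hAw, hsol⟩ := hLP
    { ι := S.ι
      ft := S.ft
      F := S.F
      Bd := S.Bd
      w := fun i => ((S.C i).card : ℝ) / k
      A := A
      Qh := Qh
      Gi := Gi
      Ex := univ.filter fun v => ∃ u ∈ Qh \ Gi, G.Adj v u
      few := S.few
      wpos := f_wpos
      tri := S.tri
      brefl := S.brefl
      bsymm := S.bsymm
      bsmall := f_bsmall
      indA := indA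
      maxA := f_maxA
      half := f_half
      totQ := f_totQ
      totC := f_totC
      hubs := f_hubs
      giants := hGi
      exc := f_exc
      exCard := f_exCard
      deg := f_deg
      degBig := f_degBig
      budget := f_budget } f_sumw f_Iw (fun v _ hvE => hdegeq v hvE)
  have hAs' : As ⊆ A := hAs
  have hAw' : δ₁ ≤ ∑ i ∈ As, ((S.C i).card : ℝ) / k := hAw
  rw [hwsum, le_div_iff₀ hkpos] at hAw'
  obtain ⟨f₀, i₀, hi₀s, finj, fadj, fU, ftyp, fload, fGi⟩ := hpl As hAs' hAw'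
  have hi₀ : i₀ ∈ A := hAs' hi₀s
  -- the bad clusters of one hub
  have hexc : ∀ q ∈ Qh, ∀ i ∈ A, f₀ q ∈ S.C i → ∀ T : Finset S.ι,
      (∀ j ∈ T, ¬ S.F.Adj i j ∧ r * (S.C j).card < dg H (S.C j) (f₀ q)) →
      ∑ j ∈ T, ((S.C j).card : ℝ) ≤ θ * N / r := fun q hq i hi hqi T hT =>
    exc S i hr (ftyp q hq i hi hqi) T hT
  set Al : V → Finset S.ι := fun v => univ.filter fun j => ∀ q ∈ Qh, G.Adj v q →
    (dg H (S.C j) (f₀ q) : ℝ) ≤ r * (S.C j).card with hAl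
  -- lists
  have hlist : ∀ v, v ∉ Qh → ∀ (P : V → S.ι → Prop) (T : Finset S.ι),
      (∀ q ∈ Qh, G.Adj v q → ∀ j ∈ T, P q j → ∀ i ∈ A, f₀ q ∈ S.C i → ¬ S.F.Adj i j) →
      (∀ j ∈ T, ∃ q ∈ Qh, G.Adj v q ∧ P q j ∧ r * (S.C j).card < dg H (S.C j) (f₀ q)) →
      ∑ j ∈ T, ((S.C j).card : ℝ) ≤ δ * k := by
    intro v hv P T hT1 hT2
    have h1 : T ⊆ (Nq v).biUnion fun q => T.filter fun j => q ∈ Qh ∧ P q j ∧
        r * (S.C j).card < dg H (S.C j) (f₀ q) := by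
      intro j hj
      obtain ⟨q, hq, hvq, hP, hd⟩ := hT2 j hj
      exact mem_biUnion.2 ⟨q, mem_filter.2 ⟨mem_univ _, hvq⟩, mem_filter.2 ⟨hj, hq, hP, hd⟩⟩
    calc ∑ j ∈ T, ((S.C j).card : ℝ) ≤ ∑ j ∈ (Nq v).biUnion fun q => T.filter fun j => q ∈ Qh ∧
          P q j ∧ r * (S.C j).card < dg H (S.C j) (f₀ q), ((S.C j).card : ℝ) :=
          sum_le_sum_of_subset_of_nonneg h1 fun _ _ _ => Nat.cast_nonneg _
      _ ≤ ∑ q ∈ Nq v, ∑ j ∈ T.filter fun j => q ∈ Qh ∧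
          P q j ∧ r * (S.C j).card < dg H (S.C j) (f₀ q), ((S.C j).card : ℝ) :=
          sum_biUnion_le' _ _ _ fun _ => Nat.cast_nonneg _
      _ ≤ ∑ _q ∈ Nq v, θ * N / r := by
          refine sum_le_sum fun q hq => ?_
          have hvq := (mem_filter.1 hq).2
          by_cases hqQ : q ∈ Qh
          · obtain ⟨i, hi, hqi⟩ := mem_biUnion.1 (fU q hqQ)
            refine hexc q hqQ i hi hqi _ fun j hj => ?_
            obtain ⟨hjT, -, hP, hd⟩ := mem_filter.1 hj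
            exact ⟨hT1 q hqQ hvq j hjT hP i hi hqi, hd⟩
          · rw [filter_false_of_mem fun j _ h => hqQ h.1, sum_empty]
            positivity
      _ = (Nq v).card * (θ * N / r) := by rw [sum_const, nsmul_eq_mul]
      _ ≤ K * (θ * N / r) := by
          refine mul_le_mul_of_nonneg_right ?_ (by positivity)
          exact_mod_cast hNqK v hv
      _ ≤ _ := hKθN
  have f_listA : ∀ v, v ∉ Qh → ∀ T : Finset S.ι, (∀ i ∈ T, i ∈ A ∧ i ∉ Al v) →
      ∑ i ∈ T, ((S.C i).card : ℝ) / k ≤ δ := by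
    intro v hv T hT
    rw [hwsum]
    refine hdivle (hlist v hv (fun _ _ => True) T ?_ ?_)
    · intro q hq _ j hj _ i hi _
      exact indA i hi j (hT j hj).1
    · intro j hj
      have h1 := (hT j hj).2
      rw [hAl] at h1
      simp only [mem_filter, mem_univ, true_and, not_forall, not_le] at h1
      obtain ⟨q, hq, hvq, hd⟩ := h1
      exact ⟨q, hq, hvq, trivial, hd⟩
  have hbadq : ∀ v, v ∉ (univ.filter fun v => ∃ u ∈ Qh \ Gi, G.Adj v u) → ∀ j, j ∉ Al v →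
      ∃ q ∈ Qh, G.Adj v q ∧ q ∈ Gi ∧ r * (S.C j).card < dg H (S.C j) (f₀ q) := by
    intro v hvE j hj
    rw [hAl] at hj
    simp only [mem_filter, mem_univ, true_and, not_forall, not_le] at hj
    obtain ⟨q, hq, hvq, hd⟩ := hj
    refine ⟨q, hq, hvq, ?_, hd⟩
    by_contra hqG
    exact hvE (mem_filter.2 ⟨mem_univ _, q, mem_sdiff.2 ⟨hq, hqG⟩, hvq⟩)
  have f_listB0 : ∀ v, v ∉ Qh → v ∉ (univ.filter fun v => ∃ u ∈ Qh \ Gi, G.Adj v u) →
      jHub G Gi v = 0 → ∀ T : Finset S.ι, (∀ i ∈ T, i ∉ A ∧ i ∉ Al v) →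
      ∑ i ∈ T, ((S.C i).card : ℝ) / k ≤ δ := by
    intro v hv hvE hj0 T hT
    have hTe : T = ∅ := by
      rw [eq_empty_iff_forall_notMem]
      intro j hj
      obtain ⟨q, -, hvq, hqG, -⟩ := hbadq v hvE j (hT j hj).2
      have : q ∈ univ.filter fun u => G.Adj v u ∧ u ∈ Gi := mem_filter.2 ⟨mem_univ _, hvq, hqG⟩
      rw [card_eq_zero.1 hj0] at this
      simp at this
    rw [hTe, sum_empty]
    by_contra hneg
    have h1 : δ * r ≤ 0 := mul_nonpos_of_nonpos_of_nonneg (not_le.1 hneg).le hr.le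
    have h2 : 0 < (K : ℝ) * (θ * (1 + 2 * C)) := by positivity
    linarith
  have f_listB1 : ∀ v, v ∉ Qh → v ∉ (univ.filter fun v => ∃ u ∈ Qh \ Gi, G.Adj v u) →
      ∀ T : Finset S.ι, (∀ i ∈ T, i ∉ A ∧ i ∉ Al v ∧ ¬ S.F.Adj i₀ i) →
      ∑ i ∈ T, ((S.C i).card : ℝ) / k ≤ δ := by
    intro v hv hvE T hT
    rw [hwsum]
    refine hdivle (hlist v hv (fun q j => q ∈ Gi ∧ ¬ S.F.Adj i₀ j) T ?_ ?_)
    · intro q hq _ j hj hP i hi hqi
      have : i = i₀ := by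
        by_contra hne
        exact disjoint_left.1 (S.disj i i₀ hne) hqi (fGi q hP.1)
      rw [this]
      exact hP.2
    · intro j hj
      obtain ⟨q, hq, hvq, hqG, hd⟩ := hbadq v hvE j (hT j hj).2.1
      exact ⟨q, hq, hvq, ⟨hqG, (hT j hj).2.2⟩, hd⟩
  obtain ⟨T, g, b, c1, c2, c3, c4, c5, c6, c7, c8⟩ := hsol i₀ hi₀s Al
    ⟨f_listA, f_listB0, f_listB1⟩
  have hcd : ∀ (x : ℝ) (i : S.ι), x * (((S.C i).card : ℝ) / k) * k = x * (S.C i).card := by
    intro x i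
    rw [mul_assoc, div_mul_cancel₀ _ hkpos.ne']
  refine emb_of_sol hδ₁ hr h8 hθ hθr' H G S hbig A indA hθN4 Qh hNqK f₀ i₀ finj fadj fU ftyp
    fload Al (fun v j hj => (mem_filter.1 hj).2) T g b
    (fun v hv => ⟨(c1 v hv).1, (c1 v hv).2.2.1, (c1 v hv).2.2.2⟩) c2 c3 c4 c5 ?_ ?_ ?_
  · intro a ha X hX
    rw [← hcd]
    exact c6 a ha X hX
  · intro a ha X hX
    rw [← hcd]
    exact c7 a ha X hX
  · have h5 : (1 - 2 * δ₁) * (∑ i ∈ A, ((S.C i).card : ℝ) / k) * k =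
        (1 - 2 * δ₁) * ∑ i ∈ A, ((S.C i).card : ℝ) := by
      rw [hwsum, mul_assoc, div_mul_cancel₀ _ hkpos.ne']
    rw [← h5]
    exact c8

end Pool.Agent.T6A
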