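import Pool.Agent.T6A.NumStmt

/-!
# The numerical certificate on a range `Q ≤ tot - 1 ≤ Q'`: statement (MP_c6effb_co)
-/

set_option autoImplicit false

namespace Pool.Agent.T6A

/-- The numerical certificate for `Q ≤ tot - 1 ≤ Q'`. -/
def NumRange (Q Q' : ℝ) : Prop := ∃ e1 η : ℝ, 0 < e1 ∧ 0 < η ∧ ∀ tot s : ℝ,
  1 + Q - e1 ≤ tot → tot ≤ 1 + Q' + e1 → 1 / 2 - e1 ≤ s → s ≤ 1 + e1 →
  ∃ ξ sl : ℝ, 0 < ξ ∧ 0 ≤ sl ∧ sl ≤ 1 ∧ ∀ d j : ℕ, tot - 1 - e1 ≤ (d + j) * (s + e1) →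
    0 < 1 - s + η - sl * (d + 2 * j - 2 * (tot - 1)) →
    ∃ lam om inv nuh e0 : ℝ, NumVtx tot s e1 ξ sl η d j lam om inv nuh e0

end Pool.Agent.T6A
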