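import Pool.Agent.T6A.Expect7

/-!
# The numerical certificate: statement (MP_c6effb_co)

`tot` = total weight (`tot - 1` = number of edges per vertex), `s` = weight bound of the independent
sets, `sg` = the same with tolerance, `W'` = weight of the list of the vertex, `d` = low degree,
`j` = number of giant neighbours. The line is `1 - s + η - sl (d + 2 j - 2 (tot - 1))`.
-/

set_option autoImplicit false

namespace Pool.Agent.T6A

/-- The data of one vertex: for all lists of weight `W'` and all `J`. -/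
structure NumVtx (tot s e1 ξ sl η : ℝ) (d j : ℕ) (lam om inv nuh e0 : ℝ) : Prop where
  lam1 : 2 * lam ≤ 1 - e1
  inv2 : 2 ≤ inv
  vtx : ∀ W' sg : ℝ, tot - s - (if j = 0 then 0 else s) - e1 ≤ W' → W' ≤ tot - s + e1 →
    s ≤ sg → sg ≤ s + e1 → VtxOK W' sg lam om (1 / 2) inv nuh ξ e0 d
  line : ∀ W' sg J : ℝ, tot - s - (if j = 0 then 0 else s) - e1 ≤ W' → W' ≤ tot - s + e1 →
    s ≤ sg → sg ≤ s + e1 → W' - inv * sg ≤ J → 0 ≤ J → J ≤ W' →
    1 - s + η - sl * (d + 2 * j - 2 * (tot - 1)) ≤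
      2 * (lam * J) - lam ^ 2 * (J * (J + sg * (d * e0)))

/-- The numerical certificate for `m ≥ Q k`. -/
def NumCert (Q : ℝ) : Prop := ∀ C : ℕ, ∃ e1 η : ℝ, 0 < e1 ∧ 0 < η ∧ ∀ tot s : ℝ,
  1 + Q - e1 ≤ tot → tot ≤ 2 * C + 2 → 1 / 2 - e1 ≤ s → s ≤ 1 + e1 →
  ∃ ξ sl : ℝ, 0 < ξ ∧ 0 ≤ sl ∧ sl ≤ 1 ∧ ∀ d j : ℕ, tot - 1 - e1 ≤ (d + j) * (s + e1) →
    0 < 1 - s + η - sl * (d + 2 * j - 2 * (tot - 1)) →
    ∃ lam om inv nuh e0 : ℝ, NumVtx tot s e1 ξ sl η d j lam om inv nuh e0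

end Pool.Agent.T6A
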