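import Pool.Agent.T6A.Prob

/-!
# Pair formulas for lists (MP_c6effb_co)

`F` is the (triangle-free) reduced graph on `ι`, `μ` a probability vector on `ι` (supported on the
independent set `A`), all vertices `w` of `V` get independent positions `g w` with law `μ`. For a
finite set `S` of vertices the position `b` is in the list of `S` if no vertex of `S` sits in a
neighbour of `b`; `il F S b g` is the indicator. Everything is written for arbitrary sets `S`.

* `nb F μ b`: the measure of the neighbourhood of `b`; `cod F μ b c`: of the common neighbourhood;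
* `EE_il`, `EE_il_il`, `EE_il_il_il`: exact formulas;
* `EE_il_il_update`, `EE_il_il_il_update`: the same given the position of one vertex `x ∈ S'`;
* `kz z n E`: `(1 - n / z)₊ ^ E` (and `0` for `z ≤ 0`);
* `pair_cost_le`: the cost of one ordered edge.
-/

set_option autoImplicit false
set_option linter.unusedSectionVars false

open Finset

namespace Pool.Agent.T6A

variable {V ι : Type*} [Fintype V] [DecidableEq V] [Fintype ι] [DecidableEq ι]
variable (F : SimpleGraph ι) [DecidableRel F.Adj]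

/-- `b` is in the list of `S`: no vertex of `S` sits in a neighbour of `b`. -/
def InL (S : Finset V) (b : ι) (g : V → ι) : Prop := ∀ w ∈ S, ¬ F.Adj (g w) b

/-- The indicator of `InL`. -/
def il (S : Finset V) (b : ι) (g : V → ι) : ℝ := ∏ w ∈ S, if F.Adj (g w) b then 0 else 1

/-- The measure of the neighbourhood of `b`. -/
def nb (μ : ι → ℝ) (b : ι) : ℝ := ∑ x, if F.Adj x b then μ x else 0

/-- The measure of the common neighbourhood of `b` and `c`. -/
def cod (μ : ι → ℝ) (b c : ι) : ℝ := ∑ x, if F.Adj x b ∧ F.Adj x c then μ x else 0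

/-- `(1 - n / z)₊ ^ E`, and `0` if `z ≤ 0`. -/
noncomputable def kz (z n : ℝ) (E : ℕ) : ℝ := if 0 < z then (max 0 (1 - n / z)) ^ E else 0

variable {F}

section indicator

omit [Fintype V] [Fintype ι] [DecidableEq ι] in
theorem il_eq_one {S : Finset V} {b : ι} {g : V → ι} (h : InL F S b g) : il F S b g = 1 :=
  prod_eq_one fun w hw => if_neg (h w hw)

omit [Fintype V] [Fintype ι] [DecidableEq ι] in
theorem il_eq_zero {S : Finset V} {b : ι} {g : V → ι} (h : ¬ InL F S b g) : il F S b g = 0 := by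
  unfold InL at h
  push Not at h
  obtain ⟨w, hw, hb⟩ := h
  exact prod_eq_zero hw (if_pos hb)

omit [Fintype V] [Fintype ι] [DecidableEq ι] in
theorem il_zero_or_one (S : Finset V) (b : ι) (g : V → ι) : il F S b g = 0 ∨ il F S b g = 1 := by
  by_cases h : InL F S b g
  · exact Or.inr (il_eq_one h)
  · exact Or.inl (il_eq_zero h)

omit [Fintype V] [Fintype ι] [DecidableEq ι] in
theorem il_nonneg (S : Finset V) (b : ι) (g : V → ι) : 0 ≤ il F S b g := by
  rcases il_zero_or_one (F := F) S b g with h | h <;> rw [h] <;> norm_num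

omit [Fintype V] [Fintype ι] [DecidableEq ι] in
theorem il_le_one (S : Finset V) (b : ι) (g : V → ι) : il F S b g ≤ 1 := by
  rcases il_zero_or_one (F := F) S b g with h | h <;> rw [h] <;> norm_num

omit [Fintype V] [Fintype ι] [DecidableEq ι] in
theorem inL_of_il_pos {S : Finset V} {b : ι} {g : V → ι} (h : 0 < il F S b g) : InL F S b g := by
  by_contra hc
  rw [il_eq_zero hc] at h
  exact lt_irrefl _ h

omit [Fintype V] [Fintype ι] [DecidableEq ι] in
theorem depOn_il (S : Finset V) (b : ι) : DepOn (fun g : V → ι => il F S b g) S := by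
  intro g g' h
  exact prod_congr rfl fun w hw => by rw [h w hw]

omit [Fintype V] [Fintype ι] [DecidableEq ι] in
theorem il_update_of_notMem {S : Finset V} {x : V} (hx : x ∉ S) (b a : ι) (g : V → ι) :
    il F S b (Function.update g x a) = il F S b g := by
  refine prod_congr rfl fun w hw => ?_
  have hwx : w ≠ x := by
    rintro rfl
    exact hx hw
  rw [Function.update_of_ne hwx]

omit [Fintype V] [Fintype ι] [DecidableEq ι] in
theorem il_update_of_mem {S : Finset V} {x : V} (hx : x ∈ S) (b a : ι) (g : V → ι) :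
    il F S b (Function.update g x a) = (if F.Adj a b then 0 else 1) * il F (S.erase x) b g := by
  unfold il
  rw [← mul_prod_erase S _ hx, Function.update_self]
  congr 1
  refine prod_congr rfl fun w hw => ?_
  rw [Function.update_of_ne (ne_of_mem_erase hw)]

/-- The product of the indicators is the indicator with the set of positions. -/
theorem ite_mul_ite' (a b : ι) (x : ι) :
    (if F.Adj x a then (0:ℝ) else 1) * (if F.Adj x b then 0 else 1)
      = if F.Adj x a ∨ F.Adj x b then 0 else 1 := by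
  by_cases h1 : F.Adj x a <;> by_cases h2 : F.Adj x b <;> simp [h1, h2]

end indicator

section measure

variable {μ : ι → ℝ}

omit [DecidableEq ι] in
theorem nb_nonneg (h0 : ∀ x, 0 ≤ μ x) (b : ι) : 0 ≤ nb F μ b :=
  sum_nonneg fun x _ => by split_ifs; exacts [h0 x, le_rfl]

omit [DecidableEq ι] in
theorem cod_nonneg (h0 : ∀ x, 0 ≤ μ x) (b c : ι) : 0 ≤ cod F μ b c :=
  sum_nonneg fun x _ => by split_ifs; exacts [h0 x, le_rfl]

omit [DecidableEq ι] in
theorem cod_comm (b c : ι) : cod F μ b c = cod F μ c b := by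
  refine sum_congr rfl fun x _ => ?_
  by_cases h1 : F.Adj x b <;> by_cases h2 : F.Adj x c <;> simp [h1, h2]

omit [DecidableEq ι] in
theorem cod_le_left (h0 : ∀ x, 0 ≤ μ x) (b c : ι) : cod F μ b c ≤ nb F μ b := by
  refine sum_le_sum fun x _ => ?_
  by_cases h1 : F.Adj x b <;> by_cases h2 : F.Adj x c <;> simp [h1, h2, h0 x]

omit [DecidableEq ι] in
theorem cod_le_right (h0 : ∀ x, 0 ≤ μ x) (b c : ι) : cod F μ b c ≤ nb F μ c := by
  rw [cod_comm]; exact cod_le_left h0 c b

theorem sum_not_adj (h1 : ∑ x, μ x = 1) (b : ι) :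
    ∑ x, μ x * (if F.Adj x b then 0 else 1) = 1 - nb F μ b := by
  conv_rhs => rw [← h1]
  rw [nb, ← sum_sub_distrib]
  refine sum_congr rfl fun x _ => ?_
  by_cases hb : F.Adj x b <;> simp [hb]

theorem sum_not_adj₂ (h1 : ∑ x, μ x = 1) (b c : ι) :
    ∑ x, μ x * ((if F.Adj x b then 0 else 1) * (if F.Adj x c then 0 else 1))
      = 1 - nb F μ b - nb F μ c + cod F μ b c := by
  conv_rhs => rw [← h1]
  rw [nb, nb, cod, ← sum_sub_distrib, ← sum_sub_distrib, ← sum_add_distrib]
  refine sum_congr rfl fun x _ => ?_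
  by_cases hb : F.Adj x b <;> by_cases hc : F.Adj x c <;> simp [hb, hc]

theorem nb_le_one (h0 : ∀ x, 0 ≤ μ x) (h1 : ∑ x, μ x = 1) (b : ι) : nb F μ b ≤ 1 := by
  conv_rhs => rw [← h1]
  exact sum_le_sum fun x _ => by split_ifs; exacts [le_rfl, h0 x]

theorem fr_pair_nonneg (h0 : ∀ x, 0 ≤ μ x) (h1 : ∑ x, μ x = 1) (b c : ι) :
    0 ≤ 1 - nb F μ b - nb F μ c + cod F μ b c := by
  rw [← sum_not_adj₂ h1]
  refine sum_nonneg fun x _ => mul_nonneg (h0 x) ?_
  split_ifs <;> norm_num

omit [DecidableEq ι] in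
/-- Adjacent points have no common neighbour in a triangle-free graph. -/
theorem cod_eq_zero (hF : F.CliqueFree 3) {b c : ι} (hbc : F.Adj b c) : cod F μ b c = 0 := by
  refine sum_eq_zero fun x _ => ?_
  rw [if_neg]
  rintro ⟨hxb, hxc⟩
  classical
  exact hF {x, b, c} (SimpleGraph.is3Clique_triple_iff.2 ⟨hxb, hxc, hbc⟩)

/-- `∑ w_c μ(N_b ∩ N_c) ≤ σ n_b` if every point of positive measure has `w(N(a)) ≤ σ`. -/
theorem sum_cod_le {w : ι → ℝ} {σ : ℝ} (h0 : ∀ x, 0 ≤ μ x)
    (hσ : ∀ a, 0 < μ a → (∑ c, if F.Adj a c then w c else 0) ≤ σ) (b : ι) :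
    ∑ c, w c * cod F μ b c ≤ σ * nb F μ b := by
  have h : ∑ c, w c * cod F μ b c
      = ∑ a, (if F.Adj a b then μ a else 0) * ∑ c, if F.Adj a c then w c else 0 := by
    unfold cod
    simp only [mul_sum]
    rw [sum_comm]
    refine sum_congr rfl fun a _ => sum_congr rfl fun c _ => ?_
    by_cases hb : F.Adj a b <;> by_cases hc : F.Adj a c <;> simp [hb, hc, mul_comm]
  rw [h, nb, mul_sum]
  refine sum_le_sum fun a _ => ?_
  by_cases hb : F.Adj a b
  · rw [if_pos hb]
    rcases (h0 a).lt_or_eq with hpos | hz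
    · rw [mul_comm σ]
      exact mul_le_mul_of_nonneg_left (hσ a hpos) (h0 a)
    · rw [← hz]; simp
  · rw [if_neg hb]; simp

end measure

section exact

variable {μ : ι → ℝ}

theorem isLaw_const (h0 : ∀ x, 0 ≤ μ x) (h1 : ∑ x, μ x = 1) : IsLaw (fun _ : V => μ) :=
  ⟨fun _ => h0, fun _ => h1⟩

/-- **(P1)** `P(b ∈ L_S) = (1 - n_b)^#S`. -/
theorem EE_il (h0 : ∀ x, 0 ≤ μ x) (h1 : ∑ x, μ x = 1) (S : Finset V) (b : ι) :
    EE (fun _ => μ) (fun g => il F S b g) = (1 - nb F μ b) ^ #S := by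
  unfold il
  rw [EE_prod_coord (isLaw_const h0 h1) S (fun _ x => if F.Adj x b then 0 else 1)]
  rw [prod_congr rfl fun u _ => sum_not_adj h1 b, prod_const]

/-- Splitting a product over two sets of vertices. -/
theorem prod_split (S S' : Finset V) (φ ψ : V → ℝ) :
    (∏ w ∈ S, φ w) * (∏ w ∈ S', ψ w)
      = (∏ w ∈ S \ S', φ w) * (∏ w ∈ S' \ S, ψ w) * ∏ w ∈ S ∩ S', φ w * ψ w := by
  have e1 : ∏ w ∈ S, φ w = (∏ w ∈ S \ S', φ w) * ∏ w ∈ S ∩ S', φ w := by
    rw [← prod_union (disjoint_sdiff_inter S S'), sdiff_union_inter]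
  have e2 : ∏ w ∈ S', ψ w = (∏ w ∈ S' \ S, ψ w) * ∏ w ∈ S ∩ S', ψ w := by
    rw [inter_comm, ← prod_union (disjoint_sdiff_inter S' S), sdiff_union_inter]
  rw [e1, e2, prod_mul_distrib]
  ring

/-- Products over two sets of vertices, all factors functions of one coordinate. -/
theorem EE_two (h0 : ∀ x, 0 ≤ μ x) (h1 : ∑ x, μ x = 1) (S S' : Finset V) (φ ψ : ι → ℝ) :
    EE (fun _ : V => μ) (fun g => (∏ w ∈ S, φ (g w)) * ∏ w ∈ S', ψ (g w))
      = (∑ x, μ x * φ x) ^ #(S \ S') * (∑ x, μ x * ψ x) ^ #(S' \ S)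
        * (∑ x, μ x * (φ x * ψ x)) ^ #(S ∩ S') := by
  have hp := isLaw_const (V := V) h0 h1
  have e : (fun g : V → ι => (∏ w ∈ S, φ (g w)) * ∏ w ∈ S', ψ (g w))
      = fun g => ((∏ w ∈ S \ S', φ (g w)) * (∏ w ∈ S' \ S, ψ (g w)))
        * ∏ w ∈ S ∩ S', φ (g w) * ψ (g w) := by
    funext g
    exact prod_split S S' (fun w => φ (g w)) (fun w => ψ (g w))
  rw [e]
  have d1 : DepOn (fun g : V → ι => ∏ w ∈ S \ S', φ (g w)) (S \ S') := by
    intro g g' h
    exact prod_congr rfl fun w hw => by rw [h w hw]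
  have d2 : DepOn (fun g : V → ι => ∏ w ∈ S' \ S, ψ (g w)) (S' \ S) := by
    intro g g' h
    exact prod_congr rfl fun w hw => by rw [h w hw]
  have d3 : DepOn (fun g : V → ι => ∏ w ∈ S ∩ S', φ (g w) * ψ (g w)) (S ∩ S') := by
    intro g g' h
    exact prod_congr rfl fun w hw => by rw [h w hw]
  have dis1 : Disjoint (S \ S') (S' \ S) := by
    rw [disjoint_left]
    intro x hx hx'
    exact (mem_sdiff.1 hx).2 (mem_sdiff.1 hx').1
  have dis2 : Disjoint (S \ S' ∪ S' \ S) (S ∩ S') := by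
    rw [disjoint_left]
    intro x hx hx'
    rcases mem_union.1 hx with h | h
    · exact (mem_sdiff.1 h).2 (mem_inter.1 hx').2
    · exact (mem_sdiff.1 h).2 (mem_inter.1 hx').1
  rw [EE_mul hp (d1.map₂ d2 (fun a b => a * b)) d3 dis2, EE_mul hp d1 d2 dis1]
  rw [EE_prod_coord hp (S \ S') (fun _ x => φ x), EE_prod_coord hp (S' \ S) (fun _ x => ψ x),
    EE_prod_coord hp (S ∩ S') (fun _ x => φ x * ψ x)]
  simp only [prod_const]

/-- **(P2)** the exact pair formula. -/
theorem EE_il_il (h0 : ∀ x, 0 ≤ μ x) (h1 : ∑ x, μ x = 1) (S S' : Finset V) (b b' : ι) :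
    EE (fun _ => μ) (fun g => il F S b g * il F S' b' g)
      = (1 - nb F μ b) ^ #(S \ S') * (1 - nb F μ b') ^ #(S' \ S)
        * (1 - nb F μ b - nb F μ b' + cod F μ b b') ^ #(S ∩ S') := by
  have h := EE_two h0 h1 S S' (fun x => if F.Adj x b then 0 else 1)
    (fun x => if F.Adj x b' then 0 else 1)
  rw [sum_not_adj h1, sum_not_adj h1, sum_not_adj₂ h1] at h
  exact h

/-- (P2) for one set of vertices. -/
theorem EE_il_il_same (h0 : ∀ x, 0 ≤ μ x) (h1 : ∑ x, μ x = 1) (S : Finset V) (b b' : ι) :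
    EE (fun _ => μ) (fun g => il F S b g * il F S b' g)
      = (1 - nb F μ b - nb F μ b' + cod F μ b b') ^ #S := by
  rw [EE_il_il h0 h1, sdiff_self, inter_self]
  simp

theorem il_mul_il (S : Finset V) (b c : ι) (g : V → ι) :
    il F S b g * il F S c g
      = ∏ w ∈ S, (if F.Adj (g w) b then 0 else 1) * (if F.Adj (g w) c then (0:ℝ) else 1) := by
  unfold il
  rw [prod_mul_distrib]

/-- the three-point formula -/
theorem EE_il_il_il (h0 : ∀ x, 0 ≤ μ x) (h1 : ∑ x, μ x = 1) (S S' : Finset V) (b b' c : ι) :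
    EE (fun _ => μ) (fun g => il F S b g * (il F S' b' g * il F S' c g))
      = (1 - nb F μ b) ^ #(S \ S') * (1 - nb F μ b' - nb F μ c + cod F μ b' c) ^ #(S' \ S)
        * (∑ x, μ x * ((if F.Adj x b then 0 else 1)
          * ((if F.Adj x b' then 0 else 1) * (if F.Adj x c then 0 else 1)))) ^ #(S ∩ S') := by
  have h := EE_two h0 h1 S S' (fun x => if F.Adj x b then 0 else 1)
    (fun x => (if F.Adj x b' then (0:ℝ) else 1) * (if F.Adj x c then 0 else 1))
  rw [sum_not_adj h1, sum_not_adj₂ h1] at h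
  simp only [il_mul_il]
  exact h

/-- The measure of the points with no neighbour among `b, b', c`. -/
theorem three_ge (h0 : ∀ x, 0 ≤ μ x) (h1 : ∑ x, μ x = 1) (b b' c : ι) :
    1 - nb F μ b - nb F μ b' - nb F μ c ≤ ∑ x, μ x * ((if F.Adj x b then 0 else 1)
          * ((if F.Adj x b' then 0 else 1) * (if F.Adj x c then 0 else 1))) := by
  conv_lhs => rw [← h1]
  rw [nb, nb, nb, ← sum_sub_distrib, ← sum_sub_distrib, ← sum_sub_distrib]
  refine sum_le_sum fun x _ => ?_
  have := h0 x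
  by_cases hb : F.Adj x b <;> by_cases hb' : F.Adj x b' <;> by_cases hc : F.Adj x c <;>
    simp [hb, hb', hc] <;> linarith

theorem three_nonneg (h0 : ∀ x, 0 ≤ μ x) (b b' c : ι) :
    0 ≤ ∑ x, μ x * ((if F.Adj x b then (0:ℝ) else 1)
          * ((if F.Adj x b' then 0 else 1) * (if F.Adj x c then 0 else 1))) := by
  refine sum_nonneg fun x _ => mul_nonneg (h0 x) ?_
  split_ifs <;> norm_num

end exact

section conditional

variable {μ : ι → ℝ} {S S' : Finset V} {x : V}

omit [Fintype V] in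
theorem erase_sdiff_card (hx' : x ∈ S') (hx : x ∉ S) : #(S'.erase x \ S) = #(S' \ S) - 1 := by
  have : S'.erase x \ S = (S' \ S).erase x := by
    ext y
    simp only [mem_sdiff, mem_erase]
    tauto
  rw [this, card_erase_of_mem (mem_sdiff.2 ⟨hx', hx⟩)]

omit [Fintype V] in
theorem sdiff_erase_of_notMem (hx : x ∉ S) : S \ S'.erase x = S \ S' := by
  ext y
  simp only [mem_sdiff, mem_erase]
  constructor
  · rintro ⟨h1, h2⟩
    refine ⟨h1, fun h3 => h2 ⟨?_, h3⟩⟩
    rintro rfl
    exact hx h1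
  · rintro ⟨h1, h2⟩
    exact ⟨h1, fun h3 => h2 h3.2⟩

omit [Fintype V] in
theorem inter_erase_of_notMem (hx : x ∉ S) : S ∩ S'.erase x = S ∩ S' := by
  ext y
  simp only [mem_inter, mem_erase]
  constructor
  · rintro ⟨h1, h2⟩
    exact ⟨h1, h2.2⟩
  · rintro ⟨h1, h2⟩
    refine ⟨h1, ?_, h2⟩
    rintro rfl
    exact hx h1

/-- (P1) given the position of a vertex outside `S`. -/
theorem EE_il_update (h0 : ∀ x, 0 ≤ μ x) (h1 : ∑ x, μ x = 1) (hx : x ∉ S) (a b : ι) :
    EE (fun _ => μ) (fun g => il F S b (Function.update g x a)) = (1 - nb F μ b) ^ #S := by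
  simp only [il_update_of_notMem hx]
  exact EE_il h0 h1 S b

/-- (P2) for one set, given the position of a vertex outside `S`. -/
theorem EE_il_il_same_update (h0 : ∀ x, 0 ≤ μ x) (h1 : ∑ x, μ x = 1) (hx : x ∉ S) (a b b' : ι) :
    EE (fun _ => μ) (fun g => il F S b (Function.update g x a) * il F S b' (Function.update g x a))
      = (1 - nb F μ b - nb F μ b' + cod F μ b b') ^ #S := by
  simp only [il_update_of_notMem hx]
  exact EE_il_il_same h0 h1 S b b'

/-- **(P3)** the position `a` of the vertex `x ∈ S'` is given. -/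
theorem EE_il_il_update (h0 : ∀ x, 0 ≤ μ x) (h1 : ∑ x, μ x = 1) (hx : x ∉ S) (hx' : x ∈ S')
    (a b b' : ι) :
    EE (fun _ => μ) (fun g => il F S b (Function.update g x a)
        * il F S' b' (Function.update g x a))
      = (if F.Adj a b' then 0 else 1) * ((1 - nb F μ b) ^ #(S \ S')
        * (1 - nb F μ b') ^ (#(S' \ S) - 1)
        * (1 - nb F μ b - nb F μ b' + cod F μ b b') ^ #(S ∩ S')) := by
  simp only [il_update_of_notMem hx, il_update_of_mem hx']
  have e : (fun g : V → ι => il F S b g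
      * ((if F.Adj a b' then 0 else 1) * il F (S'.erase x) b' g))
      = fun g => (if F.Adj a b' then 0 else 1) * (il F S b g * il F (S'.erase x) b' g) := by
    funext g; ring
  rw [e, EE_smul, EE_il_il h0 h1, erase_sdiff_card hx' hx, sdiff_erase_of_notMem hx,
    inter_erase_of_notMem hx]

/-- the three-point formula, the position `a` of the vertex `x ∈ S'` is given. -/
theorem EE_il_il_il_update (h0 : ∀ x, 0 ≤ μ x) (h1 : ∑ x, μ x = 1) (hx : x ∉ S) (hx' : x ∈ S')
    (a b b' c : ι) :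
    EE (fun _ => μ) (fun g => il F S b (Function.update g x a)
        * (il F S' b' (Function.update g x a) * il F S' c (Function.update g x a)))
      = (if F.Adj a b' then 0 else 1) * (if F.Adj a c then 0 else 1) * ((1 - nb F μ b) ^ #(S \ S')
        * (1 - nb F μ b' - nb F μ c + cod F μ b' c) ^ (#(S' \ S) - 1)
        * (∑ x, μ x * ((if F.Adj x b then 0 else 1)
          * ((if F.Adj x b' then 0 else 1) * (if F.Adj x c then 0 else 1)))) ^ #(S ∩ S')) := by
  simp only [il_update_of_notMem hx, il_update_of_mem hx']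
  have e : (fun g : V → ι => il F S b g
      * ((if F.Adj a b' then 0 else 1) * il F (S'.erase x) b' g
        * ((if F.Adj a c then 0 else 1) * il F (S'.erase x) c g)))
      = fun g => (if F.Adj a b' then 0 else 1) * (if F.Adj a c then 0 else 1)
        * (il F S b g * (il F (S'.erase x) b' g * il F (S'.erase x) c g)) := by
    funext g; ring
  rw [e, EE_smul, EE_il_il_il h0 h1, erase_sdiff_card hx' hx, sdiff_erase_of_notMem hx,
    inter_erase_of_notMem hx]

end conditional

section kz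

theorem kz_nonneg (z n : ℝ) (E : ℕ) : 0 ≤ kz z n E := by
  unfold kz
  split_ifs
  · exact pow_nonneg (le_max_left _ _) _
  · exact le_rfl

theorem kz_le_one {z n : ℝ} (hn : 0 ≤ n) (E : ℕ) : kz z n E ≤ 1 := by
  unfold kz
  split_ifs with hz
  · refine pow_le_one₀ (le_max_left _ _) (max_le zero_le_one ?_)
    have := div_nonneg hn hz.le
    linarith
  · exact zero_le_one

theorem kz_of_pos {z : ℝ} (hz : 0 < z) (n : ℝ) (E : ℕ) : kz z n E = (max 0 (1 - n / z)) ^ E :=
  if_pos hz

/-- `kz` is monotone in `z`. -/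
theorem kz_mono {z z' n : ℝ} (hn : 0 ≤ n) (h : z ≤ z') (E : ℕ) : kz z n E ≤ kz z' n E := by
  unfold kz
  by_cases hz : 0 < z
  · rw [if_pos hz, if_pos (hz.trans_le h)]
    refine pow_le_pow_left₀ (le_max_left _ _) (max_le_max le_rfl ?_) _
    have := div_le_div_of_nonneg_left hn hz h
    linarith
  · rw [if_neg hz]
    exact kz_nonneg z' n E

/-- `y^i z^j kz z n (i + j) ≤ p^i q^j` if `z ≤ y`, `y - n ≤ p`, `z - n ≤ q` and `0 ≤ p, q`. -/
theorem mul_kz_le {y z n p q : ℝ} (hn : 0 ≤ n) (hz : 0 ≤ z) (hzy : z ≤ y) (hp : 0 ≤ p)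
    (hq : 0 ≤ q) (hyp : y - n ≤ p) (hzq : z - n ≤ q) (i j : ℕ) :
    y ^ i * z ^ j * kz z n (i + j) ≤ p ^ i * q ^ j := by
  rcases hz.lt_or_eq with hz0 | hz0
  · rw [kz_of_pos hz0, pow_add]
    have hy0 : 0 < y := hz0.trans_le hzy
    have h1 : y * max 0 (1 - n / z) ≤ p := by
      rcases max_cases (0:ℝ) (1 - n / z) with ⟨h, _⟩ | ⟨h, _⟩
      · rw [h, mul_zero]; exact hp
      · rw [h]
        refine le_trans ?_ hyp
        have h2 : n ≤ y * (n / z) := by
          rw [← mul_div_assoc, le_div_iff₀ hz0, mul_comm y n]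
          exact mul_le_mul_of_nonneg_left hzy hn
        linarith
    have h3 : z * max 0 (1 - n / z) ≤ q := by
      rcases max_cases (0:ℝ) (1 - n / z) with ⟨h, _⟩ | ⟨h, _⟩
      · rw [h, mul_zero]; exact hq
      · rw [h]
        refine le_trans ?_ hzq
        have h2 : z * (n / z) = n := by field_simp
        linarith
    have hm : 0 ≤ max 0 (1 - n / z) := le_max_left _ _
    calc y ^ i * z ^ j * ((max 0 (1 - n / z)) ^ i * (max 0 (1 - n / z)) ^ j)
        = (y * max 0 (1 - n / z)) ^ i * (z * max 0 (1 - n / z)) ^ j := by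
          rw [mul_pow, mul_pow]; ring
      _ ≤ p ^ i * q ^ j := by
          refine mul_le_mul (pow_le_pow_left₀ (mul_nonneg hy0.le hm) h1 _)
            (pow_le_pow_left₀ (mul_nonneg hz0.le hm) h3 _) (by positivity) (by positivity)
  · have : kz z n (i + j) = 0 := by
      unfold kz
      rw [if_neg]
      rw [← hz0]
      exact lt_irrefl _
    rw [this, mul_zero]
    positivity

end kz

section cost

variable {μ : ι → ℝ} {S S' : Finset V} {x : V}

/-- **(P4)** lower bound for the three-point probability, `b ~ b'`, given the position `a` of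
`x ∈ S'`. -/
theorem three_point_ge (h0 : ∀ x, 0 ≤ μ x) (h1 : ∑ x, μ x = 1) (hF : F.CliqueFree 3)
    (hx : x ∉ S) (hx' : x ∈ S') {a b b' c : ι} (hbb : F.Adj b b') (hab : ¬ F.Adj a b')
    (hac : ¬ F.Adj a c) :
    (1 - nb F μ b) ^ #(S \ S') * (1 - nb F μ b') ^ (#(S' \ S) - 1)
        * (1 - nb F μ b - nb F μ b') ^ #(S ∩ S')
        * kz (1 - nb F μ b - nb F μ b') (nb F μ c) (#S' - 1)
      ≤ EE (fun _ => μ) (fun g => il F S b (Function.update g x a)
        * (il F S' b' (Function.update g x a) * il F S' c (Function.update g x a))) := by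
  rw [EE_il_il_il_update h0 h1 hx hx', if_neg hab, if_neg hac, one_mul, one_mul]
  have hcod := cod_eq_zero (μ := μ) hF hbb
  have hz : 0 ≤ 1 - nb F μ b - nb F μ b' := by
    have := fr_pair_nonneg (F := F) h0 h1 b b'
    rw [hcod, add_zero] at this
    exact this
  have hnb := nb_nonneg (F := F) h0 b
  have hnb' := nb_nonneg (F := F) h0 b'
  have hnc := nb_nonneg (F := F) h0 c
  have hcard : #S' - 1 = (#(S' \ S) - 1) + #(S ∩ S') := by
    have e1 := card_sdiff_add_card_inter S' S
    have e2 : 0 < #(S' \ S) := card_pos.2 ⟨x, mem_sdiff.2 ⟨hx', hx⟩⟩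
    rw [inter_comm S S']
    omega
  rw [hcard]
  have key := mul_kz_le (y := 1 - nb F μ b') (z := 1 - nb F μ b - nb F μ b') (n := nb F μ c)
    (p := 1 - nb F μ b' - nb F μ c + cod F μ b' c)
    (q := ∑ x, μ x * ((if F.Adj x b then 0 else 1)
          * ((if F.Adj x b' then 0 else 1) * (if F.Adj x c then 0 else 1))))
    hnc hz (by linarith) (fr_pair_nonneg h0 h1 b' c) (three_nonneg h0 b b' c)
    (by have := cod_nonneg (F := F) h0 b' c; linarith) (three_ge h0 h1 b b' c)
    (#(S' \ S) - 1) #(S ∩ S')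
  have hb1 : 0 ≤ (1 - nb F μ b) ^ #(S \ S') := pow_nonneg (by linarith) _
  have := mul_le_mul_of_nonneg_left key hb1
  calc _ = (1 - nb F μ b) ^ #(S \ S') * ((1 - nb F μ b') ^ (#(S' \ S) - 1)
        * (1 - nb F μ b - nb F μ b') ^ #(S ∩ S')
        * kz (1 - nb F μ b - nb F μ b') (nb F μ c) (#(S' \ S) - 1 + #(S ∩ S'))) := by ring
    _ ≤ _ := this
    _ = _ := by ring

/-- One pair `b ~ b'` with the killing factor `1 - ∑ t_c 1{c ∈ L_{S'}}`, given the position `a`
of `x ∈ S'`; any number of common neighbours (`S ∩ S'`). -/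
theorem pair_factor_le (h0 : ∀ x, 0 ≤ μ x) (h1 : ∑ x, μ x = 1) (hF : F.CliqueFree 3)
    (hx : x ∉ S) (hx' : x ∈ S') {a b b' : ι} (hbb : F.Adj b b') {t : ι → ℝ} (ht : ∀ c, 0 ≤ t c)
    (htac : ∀ c, F.Adj a c → t c = 0) (hts : ∑ c, t c ≤ 1) :
    EE (fun _ => μ) (fun g => il F S b (Function.update g x a)
        * (il F S' b' (Function.update g x a)
          * (1 - ∑ c, t c * il F S' c (Function.update g x a))))
      ≤ (if F.Adj a b' then 0 else 1) * ((1 - nb F μ b) ^ #S * (1 - nb F μ b') ^ (#S' - 1)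
        * (1 - ∑ c, t c * kz (1 - nb F μ b - nb F μ b') (nb F μ c) (#S' - 1))) := by
  have hcod := cod_eq_zero (μ := μ) hF hbb
  have hz : 0 ≤ 1 - nb F μ b - nb F μ b' := by
    have := fr_pair_nonneg (F := F) h0 h1 b b'
    rw [hcod, add_zero] at this
    exact this
  have hnb := nb_nonneg (F := F) h0 b
  have hnb' := nb_nonneg (F := F) h0 b'
  have hcard : #S' - 1 = (#(S' \ S) - 1) + #(S ∩ S') := by
    have e1 := card_sdiff_add_card_inter S' S
    have e2 : 0 < #(S' \ S) := card_pos.2 ⟨x, mem_sdiff.2 ⟨hx', hx⟩⟩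
    rw [inter_comm S S']
    omega
  have hcard' : #S = #(S \ S') + #(S ∩ S') := (card_sdiff_add_card_inter S S').symm
  have e : (fun g : V → ι => il F S b (Function.update g x a)
        * (il F S' b' (Function.update g x a)
          * (1 - ∑ c, t c * il F S' c (Function.update g x a))))
      = fun g => il F S b (Function.update g x a) * il F S' b' (Function.update g x a)
        - ∑ c, t c * (il F S b (Function.update g x a)
          * (il F S' b' (Function.update g x a) * il F S' c (Function.update g x a))) := by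
    funext g
    rw [mul_sub, mul_one, mul_sub, mul_sum, mul_sum]
    congr 1
    exact sum_congr rfl fun c _ => by ring
  rw [e, EE_sub, EE_sum, EE_il_il_update h0 h1 hx hx', hcod, add_zero]
  simp only [EE_smul]
  by_cases hab : F.Adj a b'
  · rw [if_pos hab, zero_mul, zero_mul]
    have : 0 ≤ ∑ c, t c * EE (fun _ => μ) (fun g => il F S b (Function.update g x a)
          * (il F S' b' (Function.update g x a) * il F S' c (Function.update g x a))) :=
      sum_nonneg fun c _ => mul_nonneg (ht c) (EE_nonneg (isLaw_const h0 h1) fun g =>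
        mul_nonneg (il_nonneg _ _ _) (mul_nonneg (il_nonneg _ _ _) (il_nonneg _ _ _)))
    linarith
  rw [if_neg hab, one_mul, one_mul]
  obtain ⟨Z, hZ⟩ : ∃ Z, Z = (1 - nb F μ b) ^ #(S \ S') * (1 - nb F μ b') ^ (#(S' \ S) - 1)
        * (1 - nb F μ b - nb F μ b') ^ #(S ∩ S') := ⟨_, rfl⟩
  have hZ0 : 0 ≤ Z := by
    rw [hZ]
    exact mul_nonneg (mul_nonneg (pow_nonneg (by linarith) _) (pow_nonneg (by linarith) _))
      (pow_nonneg hz _)
  have h2 : ∀ c ∈ (univ : Finset ι),
      t c * (Z * kz (1 - nb F μ b - nb F μ b') (nb F μ c) (#S' - 1))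
      ≤ t c * EE (fun _ => μ) (fun g => il F S b (Function.update g x a)
          * (il F S' b' (Function.update g x a) * il F S' c (Function.update g x a))) := by
    intro c _
    by_cases hac : F.Adj a c
    · rw [htac c hac, zero_mul, zero_mul]
    · rw [hZ]
      exact mul_le_mul_of_nonneg_left (three_point_ge h0 h1 hF hx hx' hbb hab hac) (ht c)
  have h3 := sum_le_sum h2
  have h4 : ∑ c, t c * (Z * kz (1 - nb F μ b - nb F μ b') (nb F μ c) (#S' - 1))
      = Z * ∑ c, t c * kz (1 - nb F μ b - nb F μ b') (nb F μ c) (#S' - 1) := by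
    rw [mul_sum]
    exact sum_congr rfl fun c _ => by ring
  rw [h4] at h3
  have h5 : 0 ≤ 1 - ∑ c, t c * kz (1 - nb F μ b - nb F μ b') (nb F μ c) (#S' - 1) := by
    have : ∑ c, t c * kz (1 - nb F μ b - nb F μ b') (nb F μ c) (#S' - 1) ≤ ∑ c, t c :=
      sum_le_sum fun c _ => mul_le_of_le_one_right (ht c) (kz_le_one (nb_nonneg h0 c) _)
    linarith
  have h6 : Z ≤ (1 - nb F μ b) ^ #S * (1 - nb F μ b') ^ (#S' - 1) := by
    rw [hZ, hcard, hcard', pow_add, pow_add]
    have : (1 - nb F μ b - nb F μ b') ^ #(S ∩ S')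
        ≤ (1 - nb F μ b) ^ #(S ∩ S') * (1 - nb F μ b') ^ #(S ∩ S') := by
      rw [← mul_pow]
      refine pow_le_pow_left₀ hz ?_ _
      nlinarith [mul_nonneg hnb hnb']
    have h7 : 0 ≤ (1 - nb F μ b) ^ #(S \ S') * (1 - nb F μ b') ^ (#(S' \ S) - 1) :=
      mul_nonneg (pow_nonneg (by linarith) _) (pow_nonneg (by linarith) _)
    calc _ ≤ (1 - nb F μ b) ^ #(S \ S') * (1 - nb F μ b') ^ (#(S' \ S) - 1)
        * ((1 - nb F μ b) ^ #(S ∩ S') * (1 - nb F μ b') ^ #(S ∩ S')) :=
          mul_le_mul_of_nonneg_left this h7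
      _ = _ := by ring
  have h8 := mul_le_mul_of_nonneg_right h6 h5
  rw [← hZ]
  linarith

end cost

end Pool.Agent.T6A
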