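import Mathlib

/-!
# Merged pairs (MP_c6effb_co, T6-A, small average degree)

`exists_pairs`: a map `cl` of the vertices onto representatives such that two different vertices of a
class are not adjacent and have a common neighbour, the classes have at most two elements, and two
vertices outside the pairs which have a common neighbour are adjacent. `red`: the number of classes
in the neighbourhoods. `card_single_le`: the number of vertices outside the pairs.
-/

set_option autoImplicit false

open Finset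

namespace Pool.Agent.T6A

noncomputable section

variable {V : Type} [Fintype V]

/-- `x` and `y` may be merged. -/
def C2 (G : SimpleGraph V) (x y : V) : Prop :=
  x ≠ y ∧ ¬ G.Adj x y ∧ ∃ v, G.Adj v x ∧ G.Adj v y

omit [Fintype V] in
theorem C2.symm {G : SimpleGraph V} {x y : V} (h : C2 G x y) : C2 G y x :=
  ⟨h.1.symm, fun h' => h.2.1 h'.symm, h.2.2.imp fun _ hv => ⟨hv.2, hv.1⟩⟩

open Classical in
/-- A maximal involution. -/
theorem exists_invol (G : SimpleGraph V) : ∃ f : V → V, (∀ v, f (f v) = v) ∧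
    (∀ v, f v ≠ v → C2 G v (f v)) ∧ ∀ x y, f x = x → f y = y → ¬ C2 G x y := by
  let good : (V → V) → Prop := fun f => (∀ v, f (f v) = v) ∧ ∀ v, f v ≠ v → C2 G v (f v)
  obtain ⟨f, hf, hmax⟩ : ∃ f : V → V, good f ∧
      ∀ f', good f' → #{v | f' v ≠ v} ≤ #{v | f v ≠ v} := by
    have hne : (univ.filter good).Nonempty := ⟨id, by simp [good]⟩
    obtain ⟨f, hf, hm⟩ := exists_max_image (univ.filter good) (fun f => #{v | f v ≠ v}) hne
    exact ⟨f, (mem_filter.1 hf).2, fun f' h' => hm f' (by simp [h'])⟩
  refine ⟨f, hf.1, hf.2, fun x y hx hy hxy => ?_⟩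
  have hne : x ≠ y := hxy.1
  let f' : V → V := fun v => if v = x then y else if v = y then x else f v
  have hfx : f' x = y := by simp [f']
  have hfy : f' y = x := by simp [f', hne.symm]
  have hfo : ∀ v, v ≠ x → v ≠ y → f' v = f v := fun v h1 h2 => by simp [f', h1, h2]
  have hgood : good f' := by
    refine ⟨fun v => ?_, fun v hv => ?_⟩
    · by_cases h1 : v = x
      · rw [h1, hfx, hfy]
      · by_cases h2 : v = y
        · rw [h2, hfy, hfx]
        · rw [hfo v h1 h2]
          have h3 : f v ≠ x := fun h => h1 (by rw [← hf.1 v, h, hx])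
          have h4 : f v ≠ y := fun h => h2 (by rw [← hf.1 v, h, hy])
          rw [hfo _ h3 h4, hf.1]
    · by_cases h1 : v = x
      · rw [h1, hfx]; exact hxy
      · by_cases h2 : v = y
        · rw [h2, hfy]; exact hxy.symm
        · rw [hfo v h1 h2] at hv ⊢
          exact hf.2 v hv
  have h := hmax f' hgood
  have hss : (univ.filter fun v => f v ≠ v) ⊂ univ.filter fun v => f' v ≠ v := by
    refine (ssubset_iff_of_subset ?_).2 ⟨x, ?_, ?_⟩
    · intro v hv
      rw [mem_filter] at hv ⊢
      refine ⟨mem_univ _, ?_⟩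
      have h1 : v ≠ x := fun h => hv.2 (by rw [h, hx])
      have h2 : v ≠ y := fun h => hv.2 (by rw [h, hy])
      rw [hfo v h1 h2]; exact hv.2
    · rw [mem_filter]; exact ⟨mem_univ _, by rw [hfx]; exact hne.symm⟩
    · rw [mem_filter, not_and, not_not]; exact fun _ => hx
  exact absurd h (not_le.2 (card_lt_card hss))

open Classical in
/-- **Pairs.** -/
theorem exists_pairs (G : SimpleGraph V) : ∃ cl : V → V, (∀ v, cl (cl v) = cl v) ∧
    (∀ v u, cl v = cl u → v ≠ u → C2 G v u) ∧ (∀ c, #{v | cl v = c} ≤ 2) ∧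
    (Fintype.card V = #{v | ∀ u, cl u = cl v → u = v} + 2 * #{v | cl v ≠ v}) ∧
    ∀ x y, (∀ u, cl u = cl x → u = x) → (∀ u, cl u = cl y → u = y) → ¬ C2 G x y := by
  obtain ⟨f, hf1, hf2, hf3⟩ := exists_invol G
  let e := Fintype.equivFin V
  let cl : V → V := fun v => if e v ≤ e (f v) then v else f v
  have hcl : ∀ v, cl v = v ∨ cl v = f v := by
    intro v
    by_cases h : e v ≤ e (f v)
    · left; simp [cl, h]
    · right; simp [cl, h]
  have hclf : ∀ v, cl (f v) = cl v := by
    intro v
    by_cases h : e v ≤ e (f v)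
    · by_cases h' : e (f v) ≤ e v
      · have : v = f v := e.injective (le_antisymm h h')
        rw [← this]
      · simp [cl, hf1, h, h']
    · have h' : e (f v) ≤ e v := (le_total _ _).resolve_left h
      simp [cl, hf1, h, h']
  have hcc : ∀ v, cl (cl v) = cl v := by
    intro v
    rcases hcl v with h | h
    · rw [h, h]
    · rw [h, hclf, h]
  have heq : ∀ v u, cl v = cl u → u = v ∨ u = f v := by
    intro v u h
    rcases hcl v with hv | hv <;> rcases hcl u with hu | hu
    · left; rw [← hv, h, hu]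
    · right
      have : v = f u := by rw [← hv, h, hu]
      rw [this, hf1]
    · right; rw [← hv, h, hu]
    · left
      have : f v = f u := by rw [← hv, h, hu]
      rw [← hf1 v, this, hf1]
  have hU : ∀ v, (∀ u, cl u = cl v → u = v) ↔ f v = v := by
    intro v
    constructor
    · intro h; exact h _ (hclf v)
    · intro h u hu
      rcases heq v u hu.symm with h' | h'
      · exact h'
      · rw [h', h]
  refine ⟨cl, hcc, fun v u h hne => ?_, fun c => ?_, ?_, fun x y hx hy => ?_⟩
  · rcases heq v u h with h' | h'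
    · exact absurd h'.symm hne
    · rw [h']
      exact hf2 v (by rw [← h']; exact hne.symm)
  · by_cases hc : ∃ v, cl v = c
    · obtain ⟨v, hv⟩ := hc
      have : (univ.filter fun u => cl u = c) ⊆ {v, f v} := by
        intro u hu
        rw [mem_filter] at hu
        rw [mem_insert, mem_singleton]
        exact heq v u (by rw [hv, hu.2])
      exact (card_le_card this).trans card_le_two
    · have : (univ.filter fun u => cl u = c) = ∅ := by
        rw [filter_eq_empty_iff]
        intro u _ hu
        exact hc ⟨u, hu⟩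
      rw [this]; simp
  · -- counting
    have h1 : (univ.filter fun v => ∀ u, cl u = cl v → u = v) = univ.filter fun v => f v = v :=
      filter_congr fun v _ => hU v
    have h2 : #{v | f v ≠ v} = 2 * #{v | cl v ≠ v} := by
      have h3 : (univ.filter fun v => f v ≠ v) =
          (univ.filter fun v => cl v ≠ v) ∪ (univ.filter fun v => cl v ≠ v).image f := by
        ext v
        rw [mem_union, mem_image, mem_filter, mem_filter]
        constructor
        · rintro ⟨_, hv⟩
          rcases hcl v with h | h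
          · right
            refine ⟨f v, ?_, hf1 v⟩
            rw [mem_filter]
            refine ⟨mem_univ _, ?_⟩
            rw [hclf, h]
            exact fun h' => hv h'.symm
          · left
            exact ⟨mem_univ _, by rw [h]; exact hv⟩
        · rintro (⟨_, hv⟩ | ⟨u, hu, hu'⟩)
          · refine ⟨mem_univ _, fun h => hv ?_⟩
            rcases hcl v with h' | h'
            · exact h'
            · rw [h', h]
          · rw [mem_filter] at hu
            refine ⟨mem_univ _, ?_⟩
            rw [← hu', hf1]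
            intro h
            apply hu.2
            rcases hcl u with h' | h'
            · exact h'
            · rw [h', ← h]
      rw [h3, card_union_of_disjoint, card_image_of_injective _ fun a b hab => ?_]
      · ring
      · rw [← hf1 a, hab, hf1]
      · rw [disjoint_left]
        intro v hv hv'
        rw [mem_image] at hv'
        obtain ⟨u, hu, hu'⟩ := hv'
        rw [mem_filter] at hv hu
        have hv1 : cl v = f v := (hcl v).resolve_left hv.2
        have hu1 : cl u = f u := (hcl u).resolve_left hu.2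
        have : cl v = cl u := by rw [← hu', hclf]
        apply hv.2
        rw [this, hu1, hu']
    have h4 := card_filter_add_card_filter_not (s := (univ : Finset V)) (fun v => f v = v)
    rw [h1, ← h2, ← card_univ]
    exact h4.symm
  · exact hf3 x y ((hU x).1 hx) ((hU y).1 hy)

open Classical in
/-- Number of classes in the neighbourhood. -/
def ecl (G : SimpleGraph V) (cl : V → V) (v : V) : ℕ := #((univ.filter fun u => G.Adj v u).image cl)

open Classical in
/-- Degree. -/
def dgr (G : SimpleGraph V) (v : V) : ℕ := #{u | G.Adj v u}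

open Classical in
theorem ecl_le (G : SimpleGraph V) (cl : V → V) (v : V) : ecl G cl v ≤ dgr G v := card_image_le

open Classical in
/-- The number of classes is small. -/
theorem ecl_add_le (G : SimpleGraph V) {cl : V → V} (hcl : ∀ v, cl (cl v) = cl v) (z : V) :
    ecl G cl z + #{x | cl x ≠ x ∧ G.Adj z x ∧ G.Adj z (cl x)} ≤ dgr G z := by
  unfold ecl dgr
  set N := univ.filter fun u => G.Adj z u with hN
  set D := univ.filter fun x => cl x ≠ x ∧ G.Adj z x ∧ G.Adj z (cl x) with hD
  have hDN : D ⊆ N := by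
    intro x hx
    rw [hD, mem_filter] at hx
    rw [hN, mem_filter]; exact ⟨mem_univ _, hx.2.2.1⟩
  have h1 : N.image cl ⊆ (N \ D).image cl := by
    intro c hc
    rw [mem_image] at hc ⊢
    obtain ⟨x, hx, rfl⟩ := hc
    by_cases hxD : x ∈ D
    · rw [hD, mem_filter] at hxD
      refine ⟨cl x, ?_, hcl x⟩
      rw [mem_sdiff, hN, mem_filter, hD, mem_filter]
      exact ⟨⟨mem_univ _, hxD.2.2.2⟩, fun h => h.2.1 (hcl x)⟩
    · exact ⟨x, mem_sdiff.2 ⟨hx, hxD⟩, rfl⟩
  have h2 := (card_le_card h1).trans card_image_le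
  rw [card_sdiff_of_subset hDN] at h2
  have h3 := card_le_card hDN
  omega

open Classical in
/-- **The total reduction.** -/
theorem sum_ecl_add_le (G : SimpleGraph V) {cl : V → V} (hcl : ∀ v, cl (cl v) = cl v)
    (hc : ∀ v u, cl v = cl u → v ≠ u → C2 G v u) :
    ∑ z, ecl G cl z + #{x | cl x ≠ x} ≤ ∑ z, dgr G z := by
  have h1 : ∑ z, (ecl G cl z + #{x | cl x ≠ x ∧ G.Adj z x ∧ G.Adj z (cl x)}) ≤ ∑ z, dgr G z :=
    sum_le_sum fun z _ => ecl_add_le G hcl z
  rw [sum_add_distrib] at h1
  refine le_trans (Nat.add_le_add_left ?_ _) h1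
  have h2 : ∀ z, #{x | cl x ≠ x ∧ G.Adj z x ∧ G.Adj z (cl x)} =
      ∑ x ∈ univ.filter (fun x => cl x ≠ x), if G.Adj z x ∧ G.Adj z (cl x) then 1 else 0 := by
    intro z
    rw [← card_filter, filter_filter]
  rw [sum_congr rfl fun z _ => h2 z, sum_comm, card_eq_sum_ones]
  refine sum_le_sum fun x hx => ?_
  rw [mem_filter] at hx
  obtain ⟨_, _, v, hv1, hv2⟩ := hc x (cl x) (hcl x).symm hx.2.symm
  rw [← card_filter]
  exact card_pos.2 ⟨v, by rw [mem_filter]; exact ⟨mem_univ _, hv1, hv2⟩⟩

open Classical in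
/-- Closed neighbourhood of a set. -/
def nbc (G : SimpleGraph V) (Q : Finset V) : Finset V :=
  univ.filter fun v => ∃ x ∈ Q, v = x ∨ G.Adj x v

open Classical in
/-- **The vertices outside the pairs.** `wt` = weights which are large enough on the closed
neighbourhood of every clique. -/
theorem card_single_le (G : SimpleGraph V) (U : Finset V)
    (hU : ∀ x ∈ U, ∀ y ∈ U, ¬ C2 G x y) (wt : V → ℝ) (h0 : ∀ v, 0 ≤ wt v)
    (hQ : ∀ Q : Finset V, Q.Nonempty → Q ⊆ U → (∀ x ∈ Q, ∀ y ∈ Q, x ≠ y → G.Adj x y) →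
      (#Q : ℝ) ≤ ∑ v ∈ nbc G Q, wt v) :
    (#U : ℝ) ≤ ∑ v, wt v := by
  let Qf : V → Finset V := fun x => U.filter fun y => y = x ∨ G.Adj x y
  -- the relation is transitive
  have htr : ∀ x ∈ U, ∀ y ∈ U, ∀ z, (x = z ∨ G.Adj z x) → (y = z ∨ G.Adj z y) →
      x = y ∨ G.Adj x y := by
    intro x hx y hy z hzx hzy
    by_contra hcon
    push Not at hcon
    rcases hzx with rfl | hzx
    · rcases hzy with rfl | hzy
      · exact hcon.1 rfl
      · exact hcon.2 hzy
    · rcases hzy with rfl | hzy
      · exact hcon.2 hzx.symm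
      · exact hU x hx y hy ⟨hcon.1, hcon.2, z, hzx, hzy⟩
  have hself : ∀ x ∈ U, x ∈ Qf x := fun x hx => mem_filter.2 ⟨hx, Or.inl rfl⟩
  have hQeq : ∀ x ∈ U, ∀ y ∈ U, x = y ∨ G.Adj x y → Qf x = Qf y := by
    intro x hx y hy hxy
    ext z
    simp only [Qf, mem_filter]
    constructor
    · rintro ⟨hz, h⟩
      refine ⟨hz, ?_⟩
      have := htr z hz y hy x h (hxy.imp Eq.symm id)
      rcases this with h' | h'
      · exact Or.inl h'
      · exact Or.inr h'.symm
    · rintro ⟨hz, h⟩
      refine ⟨hz, ?_⟩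
      have := htr z hz x hx y h (hxy.imp id fun h => h.symm)
      rcases this with h' | h'
      · exact Or.inl h'
      · exact Or.inr h'.symm
  set F := U.image Qf with hF
  have hcl : ∀ Q ∈ F, Q.Nonempty ∧ Q ⊆ U ∧ ∀ x ∈ Q, ∀ y ∈ Q, x ≠ y → G.Adj x y := by
    intro Q hQ'
    rw [hF, mem_image] at hQ'
    obtain ⟨x, hx, rfl⟩ := hQ'
    refine ⟨⟨x, hself x hx⟩, filter_subset _ _, fun y hy z hz hyz => ?_⟩
    rw [mem_filter] at hy hz
    exact (htr y hy.1 z hz.1 x hy.2 hz.2).resolve_left hyz
  have hdis : (F : Set (Finset V)).PairwiseDisjoint (nbc G) := by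
    intro Q hQ1 Q' hQ2 hne
    rw [mem_coe, hF, mem_image] at hQ1 hQ2
    obtain ⟨x, hx, rfl⟩ := hQ1
    obtain ⟨y, hy, rfl⟩ := hQ2
    rw [Function.onFun, disjoint_left]
    intro v hv hv'
    rw [nbc, mem_filter] at hv hv'
    obtain ⟨_, a, ha, hav⟩ := hv
    obtain ⟨_, b, hb, hbv⟩ := hv'
    rw [mem_filter] at ha hb
    have hab : a = b ∨ G.Adj a b := htr a ha.1 b hb.1 v
      (hav.imp Eq.symm fun h => h.symm) (hbv.imp Eq.symm fun h => h.symm)
    apply hne
    have h1 : Qf x = Qf a := hQeq x hx a ha.1 (ha.2.imp Eq.symm id)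
    have h2 : Qf y = Qf b := hQeq y hy b hb.1 (hb.2.imp Eq.symm id)
    rw [h1, h2]
    exact hQeq a ha.1 b hb.1 hab
  have hU' : U ⊆ F.biUnion id := by
    intro x hx
    rw [mem_biUnion]
    exact ⟨Qf x, mem_image_of_mem _ hx, hself x hx⟩
  calc (#U : ℝ) ≤ ((F.biUnion id).card : ℝ) := by exact_mod_cast card_le_card hU'
    _ ≤ ((∑ Q ∈ F, #(id Q) : ℕ) : ℝ) := by exact_mod_cast card_biUnion_le
    _ = ∑ Q ∈ F, (#Q : ℝ) := by push_cast; rfl
    _ ≤ ∑ Q ∈ F, ∑ v ∈ nbc G Q, wt v :=
        sum_le_sum fun Q hQ' => hQ Q (hcl Q hQ').1 (hcl Q hQ').2.1 (hcl Q hQ').2.2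
    _ = ∑ v ∈ F.biUnion (nbc G), wt v := (sum_biUnion hdis).symm
    _ ≤ ∑ v, wt v := sum_le_sum_of_subset_of_nonneg (subset_univ _) fun v _ _ => h0 v

end

end Pool.Agent.T6A
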