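import Mathlib

/-!
# Polynomial inequalities on intervals and boxes, checked by the kernel (MP_c6effb_co)

`P1` = integer polynomials in one variable (list of coefficients, constant term first), `P2` = integer
polynomials in `x` whose coefficients are polynomials in `y`. `ok1 a b c p = true` (by `decide +kernel`)
implies `0 ≤ ev1 p x` for all `x ∈ [a / c, b / c]`; `ok2 a b c a' b' c' p = true` implies
`0 ≤ ev2 p x y` for all `x ∈ [a / c, b / c]`, `y ∈ [a' / c', b' / c']`. The check: the coefficients of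
`(c (1 + u)) ^ N p ((a + b u) / (c (1 + u)))` (the Bernstein coefficients) are nonnegative.
`chk1`, `chk2`: the same with a list of subintervals or subboxes.
-/

set_option autoImplicit false

namespace Pool.Agent.T6A.PolyBox

/-- polynomials in one variable -/
abbrev P1 := List ℤ

/-- value -/
noncomputable def ev1 : P1 → ℝ → ℝ
  | [], _ => 0
  | c :: p, x => (c : ℝ) + x * ev1 p x

/-- sum -/
def add1 : P1 → P1 → P1
  | [], q => q
  | p, [] => p
  | c :: p, d :: q => (c + d) :: add1 p q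

/-- scalar multiple -/
def sm1 (c : ℤ) : P1 → P1
  | [] => []
  | d :: p => (c * d) :: sm1 c p

/-- product -/
def mul1 : P1 → P1 → P1
  | [], _ => []
  | c :: p, q => add1 (sm1 c q) (0 :: mul1 p q)

/-- power -/
def pow1 (p : P1) : ℕ → P1
  | 0 => [1]
  | n + 1 => mul1 p (pow1 p n)

theorem ev1_add (p q : P1) (x : ℝ) : ev1 (add1 p q) x = ev1 p x + ev1 q x := by
  induction p generalizing q with
  | nil => cases q <;> simp [add1, ev1]
  | cons c p ih =>
    cases q with
    | nil => simp [add1, ev1]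
    | cons d q =>
      simp only [add1, ev1, ih]
      push_cast
      ring

theorem ev1_sm (c : ℤ) (p : P1) (x : ℝ) : ev1 (sm1 c p) x = c * ev1 p x := by
  induction p with
  | nil => simp [sm1, ev1]
  | cons d p ih =>
    simp only [sm1, ev1, ih]
    push_cast
    ring

theorem ev1_mul (p q : P1) (x : ℝ) : ev1 (mul1 p q) x = ev1 p x * ev1 q x := by
  induction p with
  | nil => simp [mul1, ev1]
  | cons c p ih =>
    simp only [mul1, ev1, ev1_add, ev1_sm, ih]
    push_cast
    ring

theorem ev1_pow (p : P1) (n : ℕ) (x : ℝ) : ev1 (pow1 p n) x = ev1 p x ^ n := by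
  induction n with
  | zero => simp [pow1, ev1]
  | succ n ih => simp only [pow1, ev1_mul, ih, pow_succ]; ring

/-- all coefficients are nonnegative -/
def nn1 : P1 → Bool
  | [] => true
  | c :: p => decide (0 ≤ c) && nn1 p

theorem nn1_spec {p : P1} (h : nn1 p = true) {u : ℝ} (hu : 0 ≤ u) : 0 ≤ ev1 p u := by
  induction p with
  | nil => simp [ev1]
  | cons c p ih =>
    rw [nn1, Bool.and_eq_true, decide_eq_true_eq] at h
    have h1 : (0 : ℝ) ≤ c := by exact_mod_cast h.1
    have h2 := ih h.2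
    simp only [ev1]
    positivity

/-- the transformed polynomial and the power `(c (1 + u)) ^ (length)` -/
def hom1 (a b c : ℤ) : P1 → P1 × P1
  | [] => ([], [1])
  | d :: p =>
    let r := hom1 a b c p
    (add1 (sm1 d r.2) (mul1 [a, b] r.1), mul1 [c, c] r.2)

theorem hom1_snd (a b c : ℤ) (p : P1) (u : ℝ) :
    ev1 (hom1 a b c p).2 u = (c * (1 + u)) ^ p.length := by
  induction p with
  | nil => simp [hom1, ev1]
  | cons d p ih =>
    simp only [hom1, ev1_mul, ih, ev1, List.length_cons, pow_succ]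
    ring

theorem hom1_fst (a b c : ℤ) (p : P1) {u x : ℝ} (hx : (c * (1 + u)) * x = a + b * u) :
    ev1 (hom1 a b c p).1 u * (c * (1 + u)) = (c * (1 + u)) ^ p.length * ev1 p x := by
  induction p with
  | nil => simp [hom1, ev1]
  | cons d p ih =>
    have e1 : ev1 [a, b] u = (c * (1 + u)) * x := by
      rw [hx]
      simp only [ev1]
      ring
    simp only [hom1, ev1_add, ev1_sm, ev1_mul, hom1_snd, ev1, List.length_cons, pow_succ]
    simp only [ev1] at e1
    rw [e1]
    calc (↑d * (↑c * (1 + u)) ^ p.length + ↑c * (1 + u) * x * ev1 (hom1 a b c p).1 u) *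
          (↑c * (1 + u)) = (↑c * (1 + u)) ^ p.length * (↑c * (1 + u)) * ↑d
          + ↑c * (1 + u) * x * (ev1 (hom1 a b c p).1 u * (↑c * (1 + u))) := by ring
      _ = _ := by rw [ih]; ring

/-- the last coefficient -/
def lst : P1 → ℤ
  | [] => 0
  | [c] => c
  | _ :: c :: p => lst (c :: p)

/-- `p (b / c) ≥ 0` by Horner's rule: the value times `c ^ length`. -/
def hor (b c : ℤ) : P1 → ℤ × ℤ
  | [] => (0, 1)
  | d :: p =>
    let r := hor b c p
    (d * r.2 + b * r.1, c * r.2)

theorem hor_snd (b c : ℤ) (p : P1) : (hor b c p).2 = c ^ p.length := by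
  induction p with
  | nil => simp [hor]
  | cons d p ih => simp only [hor, ih, List.length_cons, pow_succ]; ring

theorem hor_fst (b c : ℤ) (hc : 0 < c) (p : P1) :
    ((hor b c p).1 : ℝ) * c = (c : ℝ) ^ p.length * ev1 p (b / c) := by
  have hc' : (c : ℝ) ≠ 0 := by exact_mod_cast hc.ne'
  induction p with
  | nil => simp [hor, ev1]
  | cons d p ih =>
    simp only [hor, ev1, List.length_cons, pow_succ, hor_snd]
    push_cast
    obtain ⟨z, hz⟩ : ∃ z : ℝ, z = (b : ℝ) / c := ⟨_, rfl⟩
    have e : (b : ℝ) = c * z := by rw [hz]; field_simp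
    rw [← hz] at ih ⊢
    calc ((d : ℝ) * (c : ℝ) ^ p.length + b * ((hor b c p).1 : ℝ)) * c
        = (c : ℝ) ^ p.length * c * d + b * (((hor b c p).1 : ℝ) * c) := by ring
      _ = (c : ℝ) ^ p.length * c * d + b * ((c : ℝ) ^ p.length * ev1 p z) := by rw [ih]
      _ = _ := by
        rw [e]
        ring

/-- **The check on one interval** `[a / c, b / c]`. -/
def ok1 (a b c : ℤ) (p : P1) : Bool :=
  decide (0 < c) && nn1 (hom1 a b c p).1 && decide (0 ≤ (hor b c p).1)

theorem ok1_spec {a b c : ℤ} {p : P1} (h : ok1 a b c p = true) {x : ℝ} (h1 : (a : ℝ) ≤ c * x)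
    (h2 : (c : ℝ) * x ≤ b) : 0 ≤ ev1 p x := by
  rw [ok1, Bool.and_eq_true, Bool.and_eq_true, decide_eq_true_eq, decide_eq_true_eq] at h
  obtain ⟨⟨hc, hn⟩, hh⟩ := h
  have hc' : (0 : ℝ) < c := by exact_mod_cast hc
  rcases h2.lt_or_eq with h3 | h3
  · have hb : 0 < (b : ℝ) - c * x := by linarith
    obtain ⟨u, hu⟩ : ∃ u : ℝ, u = (c * x - a) / (b - c * x) := ⟨_, rfl⟩
    have hu0 : 0 ≤ u := by rw [hu]; exact div_nonneg (by linarith) hb.le
    have hx : (c * (1 + u)) * x = a + b * u := by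
      have : u * (b - c * x) = c * x - a := by
        rw [hu]; exact div_mul_cancel₀ _ hb.ne'
      linarith
    have h4 := hom1_fst a b c p hx
    have h5 := nn1_spec hn hu0
    have h6 : 0 < (c : ℝ) * (1 + u) := by positivity
    have h7 : 0 ≤ ((c : ℝ) * (1 + u)) ^ p.length * ev1 p x := by
      rw [← h4]; positivity
    exact nonneg_of_mul_nonneg_right h7 (by positivity)
  · have hx : x = b / c := by field_simp; linarith
    have h4 := hor_fst b c hc p
    have h5 : (0 : ℝ) ≤ ((hor b c p).1 : ℝ) := by exact_mod_cast hh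
    have h7 : 0 ≤ (c : ℝ) ^ p.length * ev1 p (b / c) := by
      rw [← h4]; positivity
    rw [hx]
    exact nonneg_of_mul_nonneg_right h7 (by positivity)

/-- **The check on a chain of intervals** `[a_0 / c, a_1 / c], [a_1 / c, a_2 / c], …`. -/
def chk1 (c : ℤ) (p : P1) : ℤ → List ℤ → Bool
  | _, [] => true
  | a, b :: l => ok1 a b c p && chk1 c p b l

/-- the last point -/
def lastI : ℤ → List ℤ → ℤ
  | a, [] => a
  | _, b :: l => lastI b l

theorem chk1_spec {c : ℤ} {p : P1} {l : List ℤ} : ∀ {a : ℤ}, chk1 c p a l = true → l ≠ [] →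
    ∀ {x : ℝ}, (a : ℝ) ≤ c * x → (c : ℝ) * x ≤ lastI a l → 0 ≤ ev1 p x := by
  induction l with
  | nil => intro a _ h; exact absurd rfl h
  | cons b l ih =>
    intro a h _ x h1 h2
    rw [chk1, Bool.and_eq_true] at h
    rcases le_total ((c : ℝ) * x) b with h3 | h3
    · exact ok1_spec h.1 h1 h3
    · by_cases hl : l = []
      · subst hl
        rw [lastI, lastI] at h2
        exact ok1_spec h.1 h1 h2
      · exact ih h.2 hl h3 h2

/-! ### two variables -/

/-- polynomials in `x` over polynomials in `y` -/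
abbrev P2 := List P1

/-- value -/
noncomputable def ev2 : P2 → ℝ → ℝ → ℝ
  | [], _, _ => 0
  | c :: p, x, y => ev1 c y + x * ev2 p x y

/-- sum -/
def add2 : P2 → P2 → P2
  | [], q => q
  | p, [] => p
  | c :: p, d :: q => add1 c d :: add2 p q

/-- scalar multiple -/
def sm2 (c : P1) : P2 → P2
  | [] => []
  | d :: p => mul1 c d :: sm2 c p

/-- product -/
def mul2 : P2 → P2 → P2
  | [], _ => []
  | c :: p, q => add2 (sm2 c q) ([] :: mul2 p q)

/-- power -/
def pow2 (p : P2) : ℕ → P2
  | 0 => [[1]]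
  | n + 1 => mul2 p (pow2 p n)

theorem ev2_add (p q : P2) (x y : ℝ) : ev2 (add2 p q) x y = ev2 p x y + ev2 q x y := by
  induction p generalizing q with
  | nil => cases q <;> simp [add2, ev2]
  | cons c p ih =>
    cases q with
    | nil => simp [add2, ev2]
    | cons d q => simp only [add2, ev2, ih, ev1_add]; ring

theorem ev2_sm (c : P1) (p : P2) (x y : ℝ) : ev2 (sm2 c p) x y = ev1 c y * ev2 p x y := by
  induction p with
  | nil => simp [sm2, ev2]
  | cons d p ih => simp only [sm2, ev2, ih, ev1_mul]; ring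

theorem ev2_mul (p q : P2) (x y : ℝ) : ev2 (mul2 p q) x y = ev2 p x y * ev2 q x y := by
  induction p with
  | nil => simp [mul2, ev2]
  | cons c p ih => simp only [mul2, ev2, ev2_add, ev2_sm, ih, ev1]; ring

theorem ev2_pow (p : P2) (n : ℕ) (x y : ℝ) : ev2 (pow2 p n) x y = ev2 p x y ^ n := by
  induction n with
  | zero => simp [pow2, ev2, ev1]
  | succ n ih => simp only [pow2, ev2_mul, ih, pow_succ]; ring

/-- the transformed polynomial in `x` -/
def hom2 (a b c : ℤ) : P2 → P2 × P2
  | [] => ([], [[1]])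
  | d :: p =>
    let r := hom2 a b c p
    (add2 (sm2 d r.2) (mul2 [[a], [b]] r.1), mul2 [[c], [c]] r.2)

theorem hom2_snd (a b c : ℤ) (p : P2) (u y : ℝ) :
    ev2 (hom2 a b c p).2 u y = (c * (1 + u)) ^ p.length := by
  induction p with
  | nil => simp [hom2, ev2, ev1]
  | cons d p ih =>
    simp only [hom2, ev2_mul, ih, ev2, ev1, List.length_cons, pow_succ]
    ring

theorem hom2_fst (a b c : ℤ) (p : P2) {u x y : ℝ} (hx : (c * (1 + u)) * x = a + b * u) :
    ev2 (hom2 a b c p).1 u y * (c * (1 + u)) = (c * (1 + u)) ^ p.length * ev2 p x y := by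
  induction p with
  | nil => simp [hom2, ev2]
  | cons d p ih =>
    have e1 : ev2 [[a], [b]] u y = (c * (1 + u)) * x := by
      rw [hx]
      simp only [ev2, ev1]
      ring
    simp only [hom2, ev2_add, ev2_sm, ev2_mul, hom2_snd, List.length_cons, pow_succ]
    rw [e1]
    simp only [ev2]
    calc (ev1 d y * (↑c * (1 + u)) ^ p.length + ↑c * (1 + u) * x * ev2 (hom2 a b c p).1 u y) *
          (↑c * (1 + u)) = (↑c * (1 + u)) ^ p.length * (↑c * (1 + u)) * ev1 d y
          + ↑c * (1 + u) * x * (ev2 (hom2 a b c p).1 u y * (↑c * (1 + u))) := by ring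
      _ = _ := by rw [ih]; ring

/-- all coefficients are nonnegative on the interval -/
def nn2 (a b c : ℤ) : P2 → Bool
  | [] => true
  | d :: p => ok1 a b c d && nn2 a b c p

theorem nn2_spec {a b c : ℤ} {p : P2} (h : nn2 a b c p = true) {u y : ℝ} (hu : 0 ≤ u)
    (h1 : (a : ℝ) ≤ c * y) (h2 : (c : ℝ) * y ≤ b) : 0 ≤ ev2 p u y := by
  induction p with
  | nil => simp [ev2]
  | cons d p ih =>
    rw [nn2, Bool.and_eq_true] at h
    have h3 := ok1_spec h.1 h1 h2
    have h4 := ih h.2
    simp only [ev2]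
    positivity

/-- the value at `x = b / c` -/
def hor2 (b c : ℤ) : P2 → P1 × ℤ
  | [] => ([], 1)
  | d :: p =>
    let r := hor2 b c p
    (add1 (sm1 r.2 d) (sm1 b r.1), c * r.2)

theorem hor2_snd (b c : ℤ) (p : P2) : (hor2 b c p).2 = c ^ p.length := by
  induction p with
  | nil => simp [hor2]
  | cons d p ih => simp only [hor2, ih, List.length_cons, pow_succ]; ring

theorem hor2_fst (b c : ℤ) (hc : 0 < c) (p : P2) (y : ℝ) :
    ev1 (hor2 b c p).1 y * c = (c : ℝ) ^ p.length * ev2 p (b / c) y := by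
  have hc' : (c : ℝ) ≠ 0 := by exact_mod_cast hc.ne'
  induction p with
  | nil => simp [hor2, ev2, ev1]
  | cons d p ih =>
    simp only [hor2, ev2, List.length_cons, pow_succ, hor2_snd, ev1_add, ev1_sm]
    push_cast
    obtain ⟨z, hz⟩ : ∃ z : ℝ, z = (b : ℝ) / c := ⟨_, rfl⟩
    have e : (b : ℝ) = c * z := by rw [hz]; field_simp
    rw [← hz] at ih ⊢
    calc ((c : ℝ) ^ p.length * ev1 d y + b * ev1 (hor2 b c p).1 y) * c
        = (c : ℝ) ^ p.length * c * ev1 d y + b * (ev1 (hor2 b c p).1 y * c) := by ring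
      _ = (c : ℝ) ^ p.length * c * ev1 d y
          + b * ((c : ℝ) ^ p.length * ev2 p z y) := by rw [ih]
      _ = _ := by
        rw [e]
        ring

/-- **The check on one box** `[a / c, b / c] × [a' / c', b' / c']`. -/
def ok2 (a b c a' b' c' : ℤ) (p : P2) : Bool :=
  decide (0 < c) && nn2 a' b' c' (hom2 a b c p).1 && ok1 a' b' c' (hor2 b c p).1

theorem ok2_spec {a b c a' b' c' : ℤ} {p : P2} (h : ok2 a b c a' b' c' p = true) {x y : ℝ}
    (h1 : (a : ℝ) ≤ c * x) (h2 : (c : ℝ) * x ≤ b) (h1' : (a' : ℝ) ≤ c' * y)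
    (h2' : (c' : ℝ) * y ≤ b') : 0 ≤ ev2 p x y := by
  rw [ok2, Bool.and_eq_true, Bool.and_eq_true, decide_eq_true_eq] at h
  obtain ⟨⟨hc, hn⟩, hh⟩ := h
  have hc' : (0 : ℝ) < c := by exact_mod_cast hc
  rcases h2.lt_or_eq with h3 | h3
  · have hb : 0 < (b : ℝ) - c * x := by linarith
    obtain ⟨u, hu⟩ : ∃ u : ℝ, u = (c * x - a) / (b - c * x) := ⟨_, rfl⟩
    have hu0 : 0 ≤ u := by rw [hu]; exact div_nonneg (by linarith) hb.le
    have hx : (c * (1 + u)) * x = a + b * u := by
      have : u * (b - c * x) = c * x - a := by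
        rw [hu]; exact div_mul_cancel₀ _ hb.ne'
      linarith
    have h4 := hom2_fst (y := y) a b c p hx
    have h5 := nn2_spec hn hu0 h1' h2'
    have h6 : 0 < (c : ℝ) * (1 + u) := by positivity
    have h7 : 0 ≤ ((c : ℝ) * (1 + u)) ^ p.length * ev2 p x y := by
      rw [← h4]; positivity
    exact nonneg_of_mul_nonneg_right h7 (by positivity)
  · have hx : x = b / c := by field_simp; linarith
    have h4 := hor2_fst b c hc p y
    have h5 := ok1_spec hh h1' h2'
    have h7 : 0 ≤ (c : ℝ) ^ p.length * ev2 p (b / c) y := by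
      rw [← h4]; positivity
    rw [hx]
    exact nonneg_of_mul_nonneg_right h7 (by positivity)

/-- **The check on a chain of boxes** (subdivision in `x`). -/
def chk2 (c a' b' c' : ℤ) (p : P2) : ℤ → List ℤ → Bool
  | _, [] => true
  | a, b :: l => ok2 a b c a' b' c' p && chk2 c a' b' c' p b l

theorem chk2_spec {c a' b' c' : ℤ} {p : P2} {l : List ℤ} : ∀ {a : ℤ},
    chk2 c a' b' c' p a l = true → l ≠ [] →
    ∀ {x y : ℝ}, (a : ℝ) ≤ c * x → (c : ℝ) * x ≤ lastI a l → (a' : ℝ) ≤ c' * y →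
      (c' : ℝ) * y ≤ b' → 0 ≤ ev2 p x y := by
  induction l with
  | nil => intro a _ h; exact absurd rfl h
  | cons b l ih =>
    intro a h _ x y h1 h2 h1' h2'
    rw [chk2, Bool.and_eq_true] at h
    rcases le_total ((c : ℝ) * x) b with h3 | h3
    · exact ok2_spec h.1 h1 h3 h1' h2'
    · by_cases hl : l = []
      · subst hl
        rw [lastI, lastI] at h2
        exact ok2_spec h.1 h1 h2 h1' h2'
      · exact ih h.2 hl h3 h2 h1' h2'

/-- constants, the variables `x`, `y` -/
def cst (c : ℤ) : P2 := [[c]]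
/-- the variable `x` -/
def vx : P2 := [[], [1]]
/-- the variable `y` -/
def vy : P2 := [[0, 1]]

theorem ev2_cst (c : ℤ) (x y : ℝ) : ev2 (cst c) x y = c := by simp [cst, ev2, ev1]
theorem ev2_vx (x y : ℝ) : ev2 vx x y = x := by simp [vx, ev2, ev1]
theorem ev2_vy (x y : ℝ) : ev2 vy x y = y := by simp [vy, ev2, ev1]

/-- Example: `(1 - x) ^ 12 * (1 + 12 x + y) ≤ 1 + y` on `[0, 1 / 2] × [0, 3]`. -/
example (x y : ℝ) (h0 : 0 ≤ x) (h1 : x ≤ 1 / 2) (h2 : 0 ≤ y) (h3 : y ≤ 3) :
    (1 - x) ^ 12 * (1 + 12 * x + y) ≤ 1 + y := by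
  have h := ok2_spec (a := 0) (b := 1) (c := 2) (a' := 0) (b' := 3) (c' := 1)
    (p := add2 (add2 (cst 1) vy) (mul2 (cst (-1)) (mul2 (pow2 (add2 (cst 1) (mul2 (cst (-1)) vx)) 12)
      (add2 (add2 (cst 1) (mul2 (cst 12) vx)) vy)))) (by decide +kernel) (x := x) (y := y)
      (by push_cast; linarith) (by push_cast; linarith) (by push_cast; linarith)
      (by push_cast; linarith)
  simp only [ev2_add, ev2_mul, ev2_pow, ev2_cst, ev2_vx, ev2_vy] at h
  push_cast at h
  nlinarith [h]

end Pool.Agent.T6A.PolyBox
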