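import Mathlib

/-!
# Finite product probability spaces (MP_c6effb_co)

`V` is a finite set of vertices, every vertex carries a value in the finite type `Om`, the values of
different vertices are independent and the vertex `v` has the law `p v`. `EE p f` is the expectation.
-/

set_option autoImplicit false
set_option linter.unusedSectionVars false

open Finset

namespace Pool.Agent.T6A

variable {V Om : Type*} [Fintype V] [DecidableEq V] [Fintype Om]

/-- The probability of the configuration `ω`. -/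
def wt (p : V → Om → ℝ) (ω : V → Om) : ℝ := ∏ v, p v (ω v)

/-- The expectation of `f`. -/
def EE (p : V → Om → ℝ) (f : (V → Om) → ℝ) : ℝ := ∑ ω, wt p ω * f ω

/-- `p v` is a probability vector for every `v`. -/
structure IsLaw (p : V → Om → ℝ) : Prop where
  nonneg : ∀ v x, 0 ≤ p v x
  sum_one : ∀ v, ∑ x, p v x = 1

/-- The function `f` depends only on the coordinates in `S`. -/
def DepOn {β : Type*} (f : (V → Om) → β) (S : Finset V) : Prop :=
  ∀ ω ω' : V → Om, (∀ v ∈ S, ω v = ω' v) → f ω = f ω'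

section basic

variable {p : V → Om → ℝ}

theorem wt_nonneg (hp : IsLaw p) (ω : V → Om) : 0 ≤ wt p ω :=
  prod_nonneg fun v _ => hp.nonneg v _

theorem sum_wt (hp : IsLaw p) : ∑ ω, wt p ω = 1 := by
  have h := Finset.prod_univ_sum (fun _ : V => (univ : Finset Om)) (fun v x => p v x)
  rw [Fintype.piFinset_univ] at h
  unfold wt
  rw [← h]
  simp [hp.sum_one]

theorem EE_const (hp : IsLaw p) (c : ℝ) : EE p (fun _ => c) = c := by
  unfold EE
  rw [← Finset.sum_mul, sum_wt hp, one_mul]

theorem EE_add (f g : (V → Om) → ℝ) : EE p (fun ω => f ω + g ω) = EE p f + EE p g := by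
  unfold EE
  rw [← Finset.sum_add_distrib]
  exact sum_congr rfl fun ω _ => by ring

theorem EE_sub (f g : (V → Om) → ℝ) : EE p (fun ω => f ω - g ω) = EE p f - EE p g := by
  unfold EE
  rw [← Finset.sum_sub_distrib]
  exact sum_congr rfl fun ω _ => by ring

theorem EE_smul (c : ℝ) (f : (V → Om) → ℝ) : EE p (fun ω => c * f ω) = c * EE p f := by
  unfold EE
  rw [Finset.mul_sum]
  exact sum_congr rfl fun ω _ => by ring

theorem EE_mul_const (f : (V → Om) → ℝ) (c : ℝ) : EE p (fun ω => f ω * c) = EE p f * c := by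
  unfold EE
  rw [Finset.sum_mul]
  exact sum_congr rfl fun ω _ => by ring

theorem EE_neg (f : (V → Om) → ℝ) : EE p (fun ω => -f ω) = -EE p f := by
  unfold EE
  rw [← Finset.sum_neg_distrib]
  exact sum_congr rfl fun ω _ => by ring

theorem EE_sum {ι : Type*} (s : Finset ι) (f : ι → (V → Om) → ℝ) :
    EE p (fun ω => ∑ i ∈ s, f i ω) = ∑ i ∈ s, EE p (f i) := by
  unfold EE
  rw [Finset.sum_comm]
  exact sum_congr rfl fun ω _ => by rw [Finset.mul_sum]

theorem EE_mono (hp : IsLaw p) {f g : (V → Om) → ℝ} (h : ∀ ω, f ω ≤ g ω) : EE p f ≤ EE p g :=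
  sum_le_sum fun ω _ => mul_le_mul_of_nonneg_left (h ω) (wt_nonneg hp ω)

theorem EE_nonneg (hp : IsLaw p) {f : (V → Om) → ℝ} (h : ∀ ω, 0 ≤ f ω) : 0 ≤ EE p f :=
  sum_nonneg fun ω _ => mul_nonneg (wt_nonneg hp ω) (h ω)

theorem EE_le_one (hp : IsLaw p) {f : (V → Om) → ℝ} (h : ∀ ω, f ω ≤ 1) : EE p f ≤ 1 := by
  have := EE_mono hp h
  rwa [EE_const hp] at this

/-- Monotonicity when only the configurations of positive weight matter. -/
theorem EE_mono' (hp : IsLaw p) {f g : (V → Om) → ℝ}
    (h : ∀ ω, (∀ v, 0 < p v (ω v)) → f ω ≤ g ω) : EE p f ≤ EE p g := by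
  refine sum_le_sum fun ω _ => ?_
  by_cases hω : ∀ v, 0 < p v (ω v)
  · exact mul_le_mul_of_nonneg_left (h ω hω) (wt_nonneg hp ω)
  · push Not at hω
    obtain ⟨v, hv⟩ := hω
    have h0 : p v (ω v) = 0 := le_antisymm hv (hp.nonneg v _)
    have : wt p ω = 0 := prod_eq_zero (mem_univ v) h0
    rw [this, zero_mul, zero_mul]

/-- Some configuration has a value at most the expectation. -/
theorem exists_le_EE (hp : IsLaw p) (f : (V → Om) → ℝ) : ∃ ω, f ω ≤ EE p f := by
  by_contra hcon
  push Not at hcon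
  have h0 : ∃ ω, 0 < wt p ω := by
    by_contra h
    push Not at h
    have : ∑ ω, wt p ω ≤ 0 := sum_nonpos fun ω _ => h ω
    rw [sum_wt hp] at this
    exact absurd this (by norm_num)
  obtain ⟨ω₀, hω₀⟩ := h0
  have : EE p (fun _ => EE p f) < EE p f :=
    sum_lt_sum (fun ω _ => mul_le_mul_of_nonneg_left (hcon ω).le (wt_nonneg hp ω))
      ⟨ω₀, mem_univ _, mul_lt_mul_of_pos_left (hcon ω₀) hω₀⟩
  rw [EE_const hp] at this
  exact lt_irrefl _ this

end basic

section dep

variable {β γ : Type*}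

theorem DepOn.mono {f : (V → Om) → β} {S T : Finset V} (h : DepOn f S) (hST : S ⊆ T) :
    DepOn f T :=
  fun ω ω' hω => h ω ω' fun v hv => hω v (hST hv)

theorem DepOn.comp {f : (V → Om) → β} {S : Finset V} (h : DepOn f S) (g : β → γ) :
    DepOn (fun ω => g (f ω)) S :=
  fun ω ω' hω => by
    have := h ω ω' hω
    simp only [this]

theorem depOn_const (c : β) (S : Finset V) : DepOn (fun _ : V → Om => c) S :=
  fun _ _ _ => rfl

theorem depOn_coord (v : V) : DepOn (fun ω : V → Om => ω v) {v} :=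
  fun _ _ h => h v (mem_singleton_self v)

theorem DepOn.prodMk {f : (V → Om) → β} {g : (V → Om) → γ} {S T : Finset V} (hf : DepOn f S)
    (hg : DepOn g T) : DepOn (fun ω => (f ω, g ω)) (S ∪ T) :=
  fun ω ω' hω => by
    have h1 := hf ω ω' fun v hv => hω v (mem_union_left _ hv)
    have h2 := hg ω ω' fun v hv => hω v (mem_union_right _ hv)
    simp only [h1, h2]

theorem DepOn.map₂ {δ : Type*} {f : (V → Om) → β} {g : (V → Om) → γ} {S T : Finset V}
    (hf : DepOn f S) (hg : DepOn g T) (op : β → γ → δ) :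
    DepOn (fun ω => op (f ω) (g ω)) (S ∪ T) :=
  (hf.prodMk hg).comp fun x => op x.1 x.2

theorem DepOn.sum {ι : Type*} [AddCommMonoid β] (s : Finset ι) {f : ι → (V → Om) → β}
    {S : Finset V} (h : ∀ i ∈ s, DepOn (f i) S) : DepOn (fun ω => ∑ i ∈ s, f i ω) S :=
  fun ω ω' hω => sum_congr rfl fun i hi => h i hi ω ω' hω

theorem DepOn.prod {ι : Type*} [CommMonoid β] (s : Finset ι) {f : ι → (V → Om) → β}
    {S : Finset V} (h : ∀ i ∈ s, DepOn (f i) S) : DepOn (fun ω => ∏ i ∈ s, f i ω) S :=
  fun ω ω' hω => prod_congr rfl fun i hi => h i hi ω ω' hω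

/-- After fixing the coordinate `v` the function does not depend on it any more. -/
theorem DepOn.update {f : (V → Om) → β} {S : Finset V} (h : DepOn f S) (v : V) (x : Om) :
    DepOn (fun ω => f (Function.update ω v x)) (S.erase v) := by
  intro ω ω' hω
  refine h _ _ fun u hu => ?_
  by_cases huv : u = v
  · subst huv; simp
  · rw [Function.update_of_ne huv, Function.update_of_ne huv]
    exact hω u (mem_erase.2 ⟨huv, hu⟩)

end dep

section indep

variable {p : V → Om → ℝ}

/-- Exchange of the coordinates outside `S` of two configurations. -/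
def exch (S : Finset V) (z : (V → Om) × (V → Om)) : (V → Om) × (V → Om) :=
  (fun v => if v ∈ S then z.1 v else z.2 v, fun v => if v ∈ S then z.2 v else z.1 v)

theorem exch_exch (S : Finset V) : Function.Involutive (exch (Om := Om) S) := by
  intro z
  refine Prod.ext ?_ ?_
  · funext v
    by_cases hv : v ∈ S <;> simp [exch, hv]
  · funext v
    by_cases hv : v ∈ S <;> simp [exch, hv]

theorem wt_exch (S : Finset V) (z : (V → Om) × (V → Om)) :
    wt p (exch S z).1 * wt p (exch S z).2 = wt p z.1 * wt p z.2 := by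
  unfold wt
  rw [← prod_mul_distrib, ← prod_mul_distrib]
  refine prod_congr rfl fun v _ => ?_
  by_cases hv : v ∈ S <;> simp [exch, hv, mul_comm]

/-- Functions of disjoint sets of coordinates are independent. -/
theorem EE_mul (hp : IsLaw p) {f g : (V → Om) → ℝ} {S T : Finset V} (hf : DepOn f S)
    (hg : DepOn g T) (hST : Disjoint S T) : EE p (fun ω => f ω * g ω) = EE p f * EE p g := by
  have h1 : EE p f * EE p g
      = ∑ z : (V → Om) × (V → Om), wt p z.1 * wt p z.2 * (f z.1 * g z.2) := by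
    unfold EE
    rw [Finset.sum_mul_sum, Fintype.sum_prod_type]
    exact sum_congr rfl fun ω _ => sum_congr rfl fun ω' _ => by ring
  have h2 : ∑ z : (V → Om) × (V → Om), wt p z.1 * wt p z.2 * (f z.1 * g z.2)
      = ∑ z : (V → Om) × (V → Om), wt p z.1 * wt p z.2 * (f z.1 * g z.1) := by
    refine Fintype.sum_equiv (Function.Involutive.toPerm (exch S) (exch_exch S)) _ _ fun z => ?_
    change _ = wt p (exch S z).1 * wt p (exch S z).2 * (f (exch S z).1 * g (exch S z).1)
    have e1 : f (exch S z).1 = f z.1 := by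
      refine hf _ _ fun v hv => ?_
      simp [exch, hv]
    have e2 : g (exch S z).1 = g z.2 := by
      refine hg _ _ fun v hv => ?_
      have hvS : v ∉ S := fun h => (disjoint_left.1 hST h hv)
      simp [exch, hvS]
    rw [e1, e2, wt_exch]
  have h3 : ∑ z : (V → Om) × (V → Om), wt p z.1 * wt p z.2 * (f z.1 * g z.1)
      = EE p (fun ω => f ω * g ω) := by
    rw [Fintype.sum_prod_type]
    unfold EE
    refine sum_congr rfl fun ω _ => ?_
    have : ∑ ω' : V → Om, wt p ω * wt p ω' * (f ω * g ω)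
        = (∑ ω' : V → Om, wt p ω') * (wt p ω * (f ω * g ω)) := by
      rw [Finset.sum_mul]
      exact sum_congr rfl fun ω' _ => by ring
    rw [this, sum_wt hp, one_mul]
  rw [h1, h2, h3]

/-- Independence of finitely many functions with pairwise disjoint supports. -/
theorem EE_prod (hp : IsLaw p) {ι : Type*} [DecidableEq ι] (s : Finset ι)
    (f : ι → (V → Om) → ℝ) (S : ι → Finset V) (hf : ∀ i ∈ s, DepOn (f i) (S i))
    (hd : ∀ i ∈ s, ∀ j ∈ s, i ≠ j → Disjoint (S i) (S j)) :
    EE p (fun ω => ∏ i ∈ s, f i ω) = ∏ i ∈ s, EE p (f i) := by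
  induction s using Finset.induction_on with
  | empty => simp [EE_const hp]
  | insert a s ha ih =>
    have hr : DepOn (fun ω => ∏ i ∈ s, f i ω) (s.biUnion S) :=
      DepOn.prod s fun i hi =>
        (hf i (mem_insert_of_mem hi)).mono (subset_biUnion_of_mem S hi)
    have hdis : Disjoint (S a) (s.biUnion S) := by
      rw [disjoint_biUnion_right]
      intro i hi
      exact hd a (mem_insert_self a s) i (mem_insert_of_mem hi) fun h => ha (h ▸ hi)
    have h1 := EE_mul hp (hf a (mem_insert_self a s)) hr hdis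
    simp only [prod_insert ha]
    rw [h1, ih (fun i hi => hf i (mem_insert_of_mem hi))
      (fun i hi j hj => hd i (mem_insert_of_mem hi) j (mem_insert_of_mem hj))]

/-- Exchange of the value at `v`. -/
def exchV (v : V) (z : Om × (V → Om)) : Om × (V → Om) := (z.2 v, Function.update z.2 v z.1)

omit [Fintype V] [Fintype Om] in
theorem exchV_exchV (v : V) : Function.Involutive (exchV (Om := Om) v) := by
  intro z
  refine Prod.ext ?_ ?_
  · simp [exchV]
  · simp [exchV]

theorem wt_update (p : V → Om → ℝ) (ω : V → Om) (v : V) (x : Om) :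
    p v (ω v) * wt p (Function.update ω v x) = p v x * wt p ω := by
  unfold wt
  rw [← mul_prod_erase univ _ (mem_univ v), ← mul_prod_erase univ (fun u => p u (ω u)) (mem_univ v)]
  rw [Function.update_self]
  have : ∏ u ∈ univ.erase v, p u (Function.update ω v x u) = ∏ u ∈ univ.erase v, p u (ω u) :=
    prod_congr rfl fun u hu => by rw [Function.update_of_ne (ne_of_mem_erase hu)]
  rw [this]
  ring

/-- One coordinate first: the law of total probability. -/
theorem EE_coord (hp : IsLaw p) (v : V) (f : (V → Om) → ℝ) :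
    EE p f = ∑ x, p v x * EE p (fun ω => f (Function.update ω v x)) := by
  have h1 : ∑ x, p v x * EE p (fun ω => f (Function.update ω v x))
      = ∑ z : Om × (V → Om), p v z.1 * wt p z.2 * f (Function.update z.2 v z.1) := by
    rw [Fintype.sum_prod_type]
    refine sum_congr rfl fun x _ => ?_
    unfold EE
    rw [Finset.mul_sum]
    exact sum_congr rfl fun ω _ => by ring
  have h2 : ∑ z : Om × (V → Om), p v z.1 * wt p z.2 * f (Function.update z.2 v z.1)
      = ∑ z : Om × (V → Om), p v z.1 * wt p z.2 * f z.2 := by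
    refine Fintype.sum_equiv (Function.Involutive.toPerm (exchV v) (exchV_exchV v)) _ _
      fun z => ?_
    change _ = p v (z.2 v) * wt p (Function.update z.2 v z.1) * f (Function.update z.2 v z.1)
    rw [wt_update]
  have h3 : ∑ z : Om × (V → Om), p v z.1 * wt p z.2 * f z.2 = EE p f := by
    rw [Fintype.sum_prod_type]
    have : ∀ x : Om, ∑ ω : V → Om, p v x * wt p ω * f ω = p v x * EE p f := fun x => by
      unfold EE
      rw [Finset.mul_sum]
      exact sum_congr rfl fun ω _ => by ring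
    simp only [this]
    rw [← Finset.sum_mul, hp.sum_one, one_mul]
  rw [h1, h2, h3]

/-- The expectation of a function of one coordinate. -/
theorem EE_single (hp : IsLaw p) (v : V) (φ : Om → ℝ) :
    EE p (fun ω => φ (ω v)) = ∑ x, p v x * φ x := by
  rw [EE_coord hp v]
  refine sum_congr rfl fun x _ => ?_
  simp only [Function.update_self]
  rw [EE_const hp]

/-- The expectation of a product of functions of single coordinates. -/
theorem EE_prod_coord (hp : IsLaw p) (S : Finset V) (φ : V → Om → ℝ) :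
    EE p (fun ω => ∏ u ∈ S, φ u (ω u)) = ∏ u ∈ S, ∑ x, p u x * φ u x := by
  rw [EE_prod hp S (fun u ω => φ u (ω u)) (fun u => {u})
    (fun u _ => (depOn_coord u).comp (φ u))
    (fun u _ v _ huv => disjoint_singleton.2 huv)]
  exact prod_congr rfl fun u _ => EE_single hp u (φ u)

/-- A function which does not depend on the coordinate `v` is not changed by fixing it. -/
theorem EE_update_of_notMem {f : (V → Om) → ℝ} {S : Finset V} (hf : DepOn f S) {v : V}
    (hv : v ∉ S) (x : Om) : EE p (fun ω => f (Function.update ω v x)) = EE p f := by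
  unfold EE
  refine sum_congr rfl fun ω _ => ?_
  congr 1
  refine hf _ _ fun u hu => ?_
  rw [Function.update_of_ne]
  rintro rfl
  exact hv hu

end indep

section moments

variable {p : V → Om → ℝ}

/-- The covariance of two functions with disjoint supports is zero. -/
theorem cov_zero (hp : IsLaw p) {f g : (V → Om) → ℝ} {S T : Finset V} (hf : DepOn f S)
    (hg : DepOn g T) (hST : Disjoint S T) :
    EE p (fun ω => (f ω - EE p f) * (g ω - EE p g)) = 0 := by
  have hf' : DepOn (fun ω => f ω - EE p f) S := hf.comp (fun x => x - EE p f)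
  have hg' : DepOn (fun ω => g ω - EE p g) T := hg.comp (fun x => x - EE p g)
  rw [EE_mul hp hf' hg' hST, EE_sub, EE_const hp, sub_self, zero_mul]

theorem abs_sub_EE_le (hp : IsLaw p) {f : (V → Om) → ℝ} (h0 : ∀ ω, 0 ≤ f ω) (h1 : ∀ ω, f ω ≤ 1)
    (ω : V → Om) : |f ω - EE p f| ≤ 1 := by
  have a := EE_nonneg hp h0
  have b := EE_le_one hp h1
  have c := h0 ω
  have d := h1 ω
  rw [abs_le]
  constructor <;> linarith

/-- The variance of a sum of local functions. -/
theorem variance_sum_le (hp : IsLaw p) (X : V → (V → Om) → ℝ) (Bn : V → Finset V)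
    (hdep : ∀ v, DepOn (X v) (Bn v)) (h0 : ∀ v ω, 0 ≤ X v ω) (h1 : ∀ v ω, X v ω ≤ 1) (B : ℕ)
    (hB : ∀ v, #{u | ¬ Disjoint (Bn v) (Bn u)} ≤ B) :
    EE p (fun ω => (∑ v, (X v ω - EE p (X v))) ^ 2) ≤ B * Fintype.card V := by
  have h2 : ∀ ω, (∑ v, (X v ω - EE p (X v))) ^ 2
      = ∑ v, ∑ u, (X v ω - EE p (X v)) * (X u ω - EE p (X u)) := fun ω => by
    rw [sq, Finset.sum_mul_sum]
  simp only [h2]
  rw [EE_sum]
  have h3 : ∀ v ∈ (univ : Finset V),
      EE p (fun ω => ∑ u, (X v ω - EE p (X v)) * (X u ω - EE p (X u))) ≤ (B : ℝ) := by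
    intro v _
    rw [EE_sum]
    have h4 : ∀ u ∈ (univ : Finset V),
        EE p (fun ω => (X v ω - EE p (X v)) * (X u ω - EE p (X u)))
          ≤ if ¬ Disjoint (Bn v) (Bn u) then 1 else 0 := by
      intro u _
      by_cases hd : Disjoint (Bn v) (Bn u)
      · rw [cov_zero hp (hdep v) (hdep u) hd]
        simp [hd]
      · rw [if_pos hd]
        refine EE_le_one hp fun ω => ?_
        have a := abs_sub_EE_le hp (h0 v) (h1 v) ω
        have b := abs_sub_EE_le hp (h0 u) (h1 u) ω
        calc (X v ω - EE p (X v)) * (X u ω - EE p (X u))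
            ≤ |(X v ω - EE p (X v)) * (X u ω - EE p (X u))| := le_abs_self _
          _ = |X v ω - EE p (X v)| * |X u ω - EE p (X u)| := abs_mul _ _
          _ ≤ 1 * 1 := mul_le_mul a b (abs_nonneg _) (by norm_num)
          _ = 1 := one_mul 1
    refine (sum_le_sum h4).trans ?_
    rw [sum_ite, sum_const_zero, add_zero, sum_const, nsmul_eq_mul, mul_one]
    exact_mod_cast hB v
  refine (sum_le_sum h3).trans ?_
  rw [sum_const, nsmul_eq_mul, mul_comm, card_univ]

/-- **Selection.** There is one configuration at which all the sums `∑ v, X i v` are close to their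
expectations. -/
theorem select (hp : IsLaw p) {ι : Type*} (I : Finset ι) (X : ι → V → (V → Om) → ℝ)
    (Bn : V → Finset V) (hdep : ∀ i ∈ I, ∀ v, DepOn (X i v) (Bn v))
    (h0 : ∀ i ∈ I, ∀ v ω, 0 ≤ X i v ω) (h1 : ∀ i ∈ I, ∀ v ω, X i v ω ≤ 1) (B : ℕ)
    (hB : ∀ v, #{u | ¬ Disjoint (Bn v) (Bn u)} ≤ B) (ε : ℝ) (hε : 0 ≤ ε)
    (hk : (#I * B : ℝ) ≤ ε ^ 2 * Fintype.card V) :
    ∃ ω, ∀ i ∈ I, |∑ v, X i v ω - ∑ v, EE p (X i v)| ≤ ε * Fintype.card V := by
  obtain ⟨ω, hω⟩ := exists_le_EE hp
    (fun ω => ∑ i ∈ I, (∑ v, (X i v ω - EE p (X i v))) ^ 2)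
  refine ⟨ω, fun i hi => ?_⟩
  have h2 : EE p (fun ω => ∑ i ∈ I, (∑ v, (X i v ω - EE p (X i v))) ^ 2)
      ≤ #I * (B * Fintype.card V) := by
    rw [EE_sum]
    refine (sum_le_sum fun i hi =>
      variance_sum_le hp (X i) Bn (hdep i hi) (h0 i hi) (h1 i hi) B hB).trans ?_
    rw [sum_const, nsmul_eq_mul]
  have h3 : (∑ v, (X i v ω - EE p (X i v))) ^ 2
      ≤ ∑ i ∈ I, (∑ v, (X i v ω - EE p (X i v))) ^ 2 :=
    single_le_sum (f := fun i => (∑ v, (X i v ω - EE p (X i v))) ^ 2)
      (fun j _ => sq_nonneg _) hi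
  have h4 : (∑ v, (X i v ω - EE p (X i v))) ^ 2 ≤ (ε * Fintype.card V) ^ 2 := by
    calc (∑ v, (X i v ω - EE p (X i v))) ^ 2
        ≤ #I * (B * Fintype.card V) := h3.trans (hω.trans h2)
      _ = (#I * B) * Fintype.card V := by ring
      _ ≤ ε ^ 2 * Fintype.card V * Fintype.card V :=
          mul_le_mul_of_nonneg_right hk (Nat.cast_nonneg _)
      _ = (ε * Fintype.card V) ^ 2 := by ring
  rw [← sum_sub_distrib]
  exact abs_le_of_sq_le_sq h4 (mul_nonneg hε (Nat.cast_nonneg _))

/-- Jensen's inequality for the exponential function. -/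
theorem exp_EE_le (hp : IsLaw p) (f : (V → Om) → ℝ) :
    Real.exp (EE p f) ≤ EE p (fun ω => Real.exp (f ω)) := by
  have := convexOn_exp.map_sum_le (t := univ) (w := fun ω : V → Om => wt p ω) (p := f)
    (fun ω _ => wt_nonneg hp ω) (sum_wt hp) (fun ω _ => Set.mem_univ _)
  simpa [EE, smul_eq_mul] using this

/-- Jensen's inequality for the exponential function on an event (with indicator function `e`):
`E[e exp(-f)] ≥ P(e) exp(-E[e f] / P(e))`. -/
theorem exp_cond_le (hp : IsLaw p) (e f : (V → Om) → ℝ) (he : ∀ ω, e ω = 0 ∨ e ω = 1)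
    (h0 : 0 < EE p e) :
    EE p e * Real.exp (-(EE p (fun ω => e ω * f ω) / EE p e))
      ≤ EE p (fun ω => e ω * Real.exp (-f ω)) := by
  have hw0 : ∀ ω ∈ (univ : Finset (V → Om)), 0 ≤ wt p ω * e ω / EE p e := fun ω _ => by
    refine div_nonneg (mul_nonneg (wt_nonneg hp ω) ?_) h0.le
    rcases he ω with h | h <;> simp [h]
  have hw1 : ∑ ω, wt p ω * e ω / EE p e = 1 := by
    rw [← Finset.sum_div]
    exact div_self h0.ne'
  have := convexOn_exp.map_sum_le (t := univ) (w := fun ω : V → Om => wt p ω * e ω / EE p e)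
    (p := fun ω => -f ω) hw0 hw1 (fun ω _ => Set.mem_univ _)
  simp only [smul_eq_mul] at this
  have e1 : ∑ ω, wt p ω * e ω / EE p e * -f ω = -(EE p (fun ω => e ω * f ω) / EE p e) := by
    unfold EE
    rw [Finset.sum_div, ← Finset.sum_neg_distrib]
    exact sum_congr rfl fun ω _ => by ring
  have e2 : ∑ ω, wt p ω * e ω / EE p e * Real.exp (-f ω)
      = EE p (fun ω => e ω * Real.exp (-f ω)) / EE p e := by
    conv_rhs => unfold EE
    rw [Finset.sum_div]
    refine sum_congr rfl fun ω _ => ?_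
    unfold EE
    ring
  rw [e1, e2, le_div_iff₀ h0, mul_comm] at this
  exact this

end moments

end Pool.Agent.T6A
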