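import Mathlib
import Pool.Agent.Lib_helper86.Sid.Ctx

/-!
# The profile inequality of a minimal counterexample (helper81, note 3007)
-/

set_option autoImplicit false

namespace Pool.Agent.T6A

open Finset Classical Pool.Agent.Sid86

variable {V W : Type} {G : SimpleGraph V} {A : Finset V} [Fintype W] [Nonempty W]
  {H : SimpleGraph W}

/-- number of neighbours of `b` in `I` -/
noncomputable def nI (H : SimpleGraph W) (I : Finset W) (b : W) : ℕ :=
  (I.filter (fun a => H.Adj b a)).card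

omit [Fintype W] [Nonempty W] in
/-- gluing an embedding of `G[A \ S]` outside `I` with a placement of `S` in the independent
set `I` -/
lemma glue {G : SimpleGraph V} {H : SimpleGraph W} {A S : Finset V} {I : Finset W}
    (hI : ∀ x ∈ I, ∀ y ∈ I, ¬ H.Adj x y) {f g : V → W}
    (hf : Emb G H (A \ S) f) (hfI : ∀ v ∈ A \ S, f v ∉ I)
    (hg : Set.InjOn g S) (hgI : ∀ v ∈ S, g v ∈ I)
    (hfg : ∀ v ∈ S, ∀ u ∈ A \ S, G.Adj v u → ¬ H.Adj (g v) (f u)) :
    Emb G H A (fun x => if x ∈ S then g x else f x) := by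
  constructor
  · intro x hx y hy hxy
    simp only at hxy
    have hx' : x ∈ A := hx
    have hy' : y ∈ A := hy
    by_cases hxS : x ∈ S <;> by_cases hyS : y ∈ S
    · rw [if_pos hxS, if_pos hyS] at hxy
      exact hg hxS hyS hxy
    · rw [if_pos hxS, if_neg hyS] at hxy
      exact absurd (hxy ▸ hgI x hxS) (hfI y (mem_sdiff.2 ⟨hy', hyS⟩))
    · rw [if_neg hxS, if_pos hyS] at hxy
      exact absurd (hxy ▸ hgI y hyS : f x ∈ I) (hfI x (mem_sdiff.2 ⟨hx', hxS⟩))
    · rw [if_neg hxS, if_neg hyS] at hxy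
      exact hf.1 (mem_coe.2 (mem_sdiff.2 ⟨hx', hxS⟩)) (mem_coe.2 (mem_sdiff.2 ⟨hy', hyS⟩)) hxy
  · intro u hu v hv huv
    simp only
    by_cases huS : u ∈ S <;> by_cases hvS : v ∈ S
    · rw [if_pos huS, if_pos hvS]
      exact hI _ (hgI u huS) _ (hgI v hvS)
    · rw [if_pos huS, if_neg hvS]
      exact hfg u huS v (mem_sdiff.2 ⟨hv, hvS⟩) huv
    · rw [if_neg huS, if_pos hvS]
      exact fun h => hfg v hvS u (mem_sdiff.2 ⟨hu, huS⟩) huv.symm h.symm
    · rw [if_neg huS, if_neg hvS]
      exact hf.2 u (mem_sdiff.2 ⟨hu, huS⟩) v (mem_sdiff.2 ⟨hv, hvS⟩) huv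

omit [Fintype W] [Nonempty W] in
/-- placement of `S` in `I` by Hall's theorem (greedy in the order of decreasing numbers of
outside neighbours) -/
lemma place {G : SimpleGraph V} {H : SimpleGraph W} {A S : Finset V} {I : Finset W} {r : ℕ}
    {f : V → W} (hfr : ∀ v ∈ A \ S, nI H I (f v) ≤ r)
    (hS : ∀ v ∈ S, (S.filter (fun u => dg G (A \ S) v ≤ dg G (A \ S) u)).card
      + dg G (A \ S) v * r ≤ I.card) :
    ∃ g : V → W, Set.InjOn g S ∧ (∀ v ∈ S, g v ∈ I) ∧
      ∀ v ∈ S, ∀ u ∈ A \ S, G.Adj v u → ¬ H.Adj (g v) (f u) := by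
  let al : {v // v ∈ S} → Finset W := fun v =>
    I.filter (fun a => ∀ u ∈ A \ S, G.Adj v.1 u → ¬ H.Adj a (f u))
  have hal : ∀ v : {v // v ∈ S}, I.card ≤ (al v).card + dg G (A \ S) v.1 * r := by
    intro v
    have h1 : I \ al v ⊆ ((A \ S).filter (fun u => G.Adj v.1 u)).biUnion
        (fun u => I.filter (fun a => H.Adj (f u) a)) := by
      intro a ha
      rw [mem_sdiff] at ha
      have h2 : ¬ ∀ u ∈ A \ S, G.Adj v.1 u → ¬ H.Adj a (f u) := by
        intro h3
        exact ha.2 (mem_filter.2 ⟨ha.1, h3⟩)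
      push Not at h2
      obtain ⟨u, hu, hvu, hau⟩ := h2
      exact mem_biUnion.2 ⟨u, mem_filter.2 ⟨hu, hvu⟩, mem_filter.2 ⟨ha.1, hau.symm⟩⟩
    have h3 : (I \ al v).card ≤ dg G (A \ S) v.1 * r := by
      refine (card_le_card h1).trans ?_
      refine card_biUnion_le_card_mul _ _ _ ?_
      intro u hu
      exact hfr u (mem_filter.1 hu).1
    have h4 : (I \ al v).card + (al v).card = I.card :=
      card_sdiff_add_card_eq_card (filter_subset _ _)
    omega
  obtain ⟨g, hg, hga⟩ := (Finset.all_card_le_biUnion_card_iff_exists_injective al).1 (by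
    intro X
    by_cases hX : X.Nonempty
    · obtain ⟨v, hv, hmin⟩ := X.exists_min_image (fun v => dg G (A \ S) v.1) hX
      have h1 : X.card ≤ (S.filter (fun u => dg G (A \ S) v.1 ≤ dg G (A \ S) u)).card := by
        rw [← card_map (Function.Embedding.subtype (fun x => x ∈ S))]
        apply card_le_card
        intro x hx
        obtain ⟨y, hy, rfl⟩ := mem_map.1 hx
        exact mem_filter.2 ⟨y.2, hmin y hy⟩
      have h2 := hS v.1 v.2
      have h3 := hal v
      have h4 : (al v).card ≤ (X.biUnion al).card :=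
        card_le_card (subset_biUnion_of_mem al hv)
      omega
    · rw [not_nonempty_iff_eq_empty.1 hX]
      simp)
  refine ⟨fun v => if h : v ∈ S then g ⟨v, h⟩ else f v, ?_, ?_, ?_⟩
  · intro x hx y hy hxy
    have hx' : x ∈ S := hx
    have hy' : y ∈ S := hy
    simp only [hx', hy', dif_pos] at hxy
    exact congrArg Subtype.val (hg hxy)
  · intro v hv
    simp only [hv, dif_pos]
    exact (mem_filter.1 (hga ⟨v, hv⟩)).1
  · intro v hv u hu hvu
    simp only [hv, dif_pos]
    exact (mem_filter.1 (hga ⟨v, hv⟩)).2 u hu hvu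

/-- PROFILE INEQUALITY. In a minimal counterexample let `I` be an independent set of `H`,
`S ⊆ A` nonempty, and let `r` be such that for every `v ∈ S`, with `j` its number of neighbours
outside `S`, at most `|I| - j r` vertices of `S` have at least `j` neighbours outside `S`. Then
more than `|S| + e*(S) - |I|` vertices outside `I` have more than `r` neighbours in `I`
(`e*(S)` = number of edges meeting `S`, `2 e*(S) = E2 A - E2 (A \ S)`). -/
theorem profile (h : Ctx G A H) {I : Finset W} (hI : ∀ x ∈ I, ∀ y ∈ I, ¬ H.Adj x y)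
    {S : Finset V} (hSA : S ⊆ A) (hne : S.Nonempty) (r : ℕ)
    (hS : ∀ v ∈ S, (S.filter (fun u => dg G (A \ S) v ≤ dg G (A \ S) u)).card
      + dg G (A \ S) v * r ≤ I.card) :
    2 * S.card + E2 G A < E2 G (A \ S) + 2 * I.card
      + 2 * (univ.filter (fun b => b ∉ I ∧ r < nI H I b)).card := by
  by_contra hcon
  set Y := univ.filter (fun b => b ∉ I ∧ r < nI H I b) with hY
  have hdisj : Disjoint I Y := by
    rw [disjoint_left]
    intro a ha haY
    exact (mem_filter.1 haY).2.1 ha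
  obtain ⟨f, hf, hfZ⟩ := h.avoid hSA hne (I ∪ Y) (by
    rw [card_union_of_disjoint hdisj]
    omega)
  have hfI : ∀ v ∈ A \ S, f v ∉ I := fun v hv hh => hfZ v hv (mem_union_left _ hh)
  have hfr : ∀ v ∈ A \ S, nI H I (f v) ≤ r := by
    intro v hv
    by_contra hc
    exact hfZ v hv (mem_union_right _ (mem_filter.2 ⟨mem_univ _, hfI v hv, not_le.1 hc⟩))
  obtain ⟨g, hg, hgI, hfg⟩ := place hfr hS
  exact h.no ⟨_, glue hI hf hfI hg hgI hfg⟩

end Pool.Agent.T6A
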