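import Pool.Agent.T6A.R5Line

/-!
# The data for the range `5 ≤ q ≤ 10` (MP_c6effb_co)
-/

set_option autoImplicit false

namespace Pool.Agent.T6A.R5

/-- Slopes of the profiles (numerators over 1000). -/
def nL : List ℕ := [2000, 2199, 2199, 2199, 2199, 2199, 2238, 2370, 2515, 2666, 2818, 2969, 3121,
    3271, 3421, 3570, 3717, 3864, 4009, 4154, 4297, 4440, 4582, 4723, 4863, 5002, 5141, 5279,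
    5416, 5553, 5689, 5824, 5959, 6093, 6227, 6360, 6492, 6625, 6756, 6887, 7018, 7148, 7278,
    7408, 7537, 7665]

/-- The slope for degree `d`. -/
def nn (d : ℕ) : ℕ := nL.getD d 2000

/-- The entries. -/
def ents : List Ent := [
  ⟨8, 880, 2609, 868⟩,
  ⟨8, 860, 2445, 909⟩,
  ⟨8, 815, 2138, 967⟩,
  ⟨9, 880, 2324, 893⟩,
  ⟨9, 870, 2247, 913⟩,
  ⟨9, 825, 1954, 970⟩,
  ⟨9, 815, 1898, 978⟩,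
  ⟨10, 880, 2095, 912⟩,
  ⟨10, 870, 2025, 929⟩,
  ⟨10, 860, 1959, 943⟩,
  ⟨10, 845, 1868, 961⟩,
  ⟨10, 825, 1758, 979⟩,
  ⟨10, 815, 1707, 985⟩,
  ⟨10, 810, 1682, 988⟩,
  ⟨11, 880, 1907, 925⟩,
  ⟨11, 870, 1842, 941⟩,
  ⟨11, 860, 1782, 954⟩,
  ⟨11, 845, 1698, 969⟩,
  ⟨11, 825, 1597, 984⟩,
  ⟨11, 815, 1550, 990⟩,
  ⟨11, 810, 1527, 992⟩,
  ⟨12, 880, 1750, 936⟩,
  ⟨12, 870, 1690, 950⟩,
  ⟨12, 845, 1556, 976⟩,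
  ⟨12, 825, 1463, 988⟩,
  ⟨12, 815, 1420, 993⟩,
  ⟨12, 810, 1399, 994⟩,
  ⟨13, 880, 1617, 944⟩,
  ⟨13, 870, 1561, 957⟩,
  ⟨13, 860, 1508, 968⟩,
  ⟨13, 845, 1436, 980⟩,
  ⟨13, 825, 1349, 991⟩,
  ⟨13, 815, 1309, 995⟩,
  ⟨13, 810, 1290, 996⟩,
  ⟨14, 880, 1502, 951⟩,
  ⟨14, 870, 1450, 963⟩,
  ⟨14, 860, 1401, 973⟩,
  ⟨14, 845, 1334, 984⟩,
  ⟨14, 825, 1252, 993⟩,
  ⟨14, 815, 1215, 996⟩,
  ⟨14, 810, 1197, 997⟩,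
  ⟨15, 880, 1403, 956⟩,
  ⟨15, 860, 1308, 976⟩,
  ⟨15, 845, 1244, 987⟩,
  ⟨15, 825, 1168, 995⟩,
  ⟨15, 815, 1133, 997⟩,
  ⟨15, 810, 1116, 998⟩,
  ⟨16, 880, 1316, 961⟩,
  ⟨16, 870, 1269, 971⟩,
  ⟨16, 860, 1226, 980⟩,
  ⟨16, 845, 1166, 989⟩,
  ⟨16, 825, 1095, 996⟩,
  ⟨16, 815, 1062, 998⟩,
  ⟨16, 810, 1046, 999⟩,
  ⟨17, 880, 1239, 965⟩,
  ⟨17, 870, 1195, 975⟩,
  ⟨17, 860, 1154, 982⟩,
  ⟨17, 845, 1098, 991⟩,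
  ⟨17, 825, 1030, 997⟩,
  ⟨17, 815, 999, 999⟩,
  ⟨17, 810, 984, 999⟩,
  ⟨18, 880, 1170, 968⟩,
  ⟨18, 870, 1129, 977⟩,
  ⟨18, 860, 1090, 985⟩,
  ⟨18, 845, 1037, 992⟩,
  ⟨18, 825, 973, 998⟩,
  ⟨18, 815, 943, 999⟩,
  ⟨19, 880, 1109, 971⟩,
  ⟨19, 870, 1069, 980⟩,
  ⟨19, 860, 1033, 986⟩,
  ⟨19, 845, 982, 993⟩,
  ⟨19, 825, 921, 998⟩,
  ⟨19, 815, 893, 999⟩,
  ⟨20, 880, 1054, 974⟩,
  ⟨20, 870, 1016, 982⟩,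
  ⟨20, 860, 981, 988⟩,
  ⟨20, 845, 933, 994⟩,
  ⟨20, 825, 875, 999⟩,
  ⟨21, 880, 1004, 976⟩,
  ⟨21, 845, 888, 995⟩,
  ⟨22, 880, 958, 978⟩,
  ⟨22, 870, 924, 985⟩,
  ⟨23, 880, 917, 979⟩,
  ⟨24, 880, 879, 981⟩,
  ⟨25, 880, 844, 982⟩,
  ⟨26, 880, 811, 983⟩]

/-- The subdivisions for `j = 0`. -/
def tr0 : List Tr := [
  .i,
  .i,
  .i,
  .i,
  .i,
  (.s .i (.l 1000 2 0)),
  (.s .i (.l 1000 2 0)),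
  (.s (.q (.s .i (.q (.q (.s .i (.q (.s (.q (.s .i (.l 1000 0 0)) .i) (.l 1000 1 0)) .i)) .i)
    .i)) .i) (.l 1000 2 0)),
  (.s (.q (.s (.q (.s .i (.l 815 0 0)) .i) (.l 880 5 0)) .i) (.l 1000 3 0)),
  (.s (.q (.s (.q (.s (.q (.s .i (.q (.q (.s .i (.l 815 0 0)) .i) .i)) .i) (.q (.q (.s (.l 825 0
    0) (.l 870 0 0)) (.l 825 0 0)) (.l 825 0 0))) .i) (.l 880 0 0)) .i) (.l 1000 4 0)),
  (.s (.q (.s (.q (.s (.q (.s (.q (.s (.q (.s (.q (.l 810 0 0) (.s .i (.l 810 0 0))) (.q (.l 815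
    0 0) (.l 810 0 0))) (.s .i (.q (.s .i (.l 810 0 0)) .i))) (.q (.q (.l 825 0 0) (.l 815 0 0))
    (.s (.l 810 0 0) (.l 815 0 0)))) (.s .i (.q (.s .i (.l 810 0 0)) .i))) (.q (.q (.s (.l 825 0
    0) (.l 845 0 0)) (.s (.l 825 0 0) (.l 845 0 0))) (.s (.l 815 0 0) (.l 825 0 0)))) (.s .i (.q
    (.s .i (.l 815 0 0)) .i))) (.q (.q (.l 860 0 0) (.l 845 0 0)) (.s (.l 825 0 0) (.l 870 0
    0)))) (.s .i (.l 825 0 0))) (.q (.q (.s (.l 880 1 0) (.l 1000 1 0)) (.l 880 1 0)) (.l 880 1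
    0))) (.s .i (.l 880 1 0))) (.l 1000 3 0)),
  (.s (.q (.s (.q (.s (.q (.s (.q (.s (.q (.l 845 0 0) (.l 825 0 0)) (.l 845 0 0)) (.s (.q (.s
    (.l 815 0 0) (.l 825 0 0)) (.s (.l 810 0 0) (.l 815 0 0))) (.l 825 0 0))) (.q (.l 860 0 0)
    (.s (.q (.l 845 0 0) (.s (.l 825 1 0) (.l 845 0 0))) (.l 860 0 0)))) (.s (.q (.s (.q (.s .i
    (.l 810 0 0)) .i) (.q (.l 815 0 0) (.l 810 0 0))) .i) (.q (.s (.l 825 0 0) (.l 845 0 0)) (.s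
    (.l 815 0 0) (.l 825 0 0))))) (.q (.q (.l 880 1 0) (.l 870 0 0)) (.s (.l 845 0 0) (.l 880 0
    0)))) (.s .i (.q (.s (.l 825 1 0) (.l 880 0 0)) (.l 825 0 0)))) (.q (.q (.s (.q (.s (.q (.s
    (.l 880 1 0) (.l 1000 0 0)) (.l 880 1 0)) (.l 1000 1 0)) (.s (.l 880 3 0) (.l 1000 0 0))) (.l
    1000 2 0)) (.s (.l 880 2 0) (.l 1000 1 0))) (.l 880 2 0))) (.s .i (.l 880 1 0))) (.l 1000 4 0)),
  (.s (.q (.s (.q (.s (.q (.s (.q (.l 870 0 0) (.l 845 0 0)) (.l 870 0 0)) (.s (.q (.s (.l 825 0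
    0) (.q (.l 845 0 0) (.s (.l 825 1 0) (.l 845 0 0)))) (.s (.q (.l 815 0 0) (.s (.q (.l 810 0
    0) .i) (.l 815 0 0))) (.q (.l 825 0 0) (.s (.l 815 0 0) (.l 825 0 0))))) (.q (.l 845 0 0) (.s
    (.q (.l 845 0 0) (.l 825 1 0)) (.l 845 0 0))))) (.q (.q (.s (.l 880 2 0) (.q (.s (.q (.l 1000
    0 0) (.l 880 0 0)) (.l 1000 1 0)) (.s (.l 880 2 0) (.l 1000 0 0)))) (.l 880 1 0)) (.l 870 0
    0))) (.s (.q (.s (.q (.s .i (.q (.l 815 0 0) .i)) .i) (.q (.l 825 0 0) (.l 815 0 0))) .i) (.q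
    (.s (.l 845 0 0) (.l 880 1 0)) (.l 845 0 0)))) (.q (.q (.s (.q (.l 1000 1 0) (.s (.q (.l 1000
    0 0) (.s (.l 880 2 0) (.l 1000 1 0))) (.l 1000 2 0))) (.l 1000 4 0)) (.s (.q (.s (.l 880 2 0)
    (.l 1000 1 0)) (.l 880 2 0)) (.l 1000 2 0))) (.s (.l 880 2 0) (.l 1000 1 0)))) (.s (.q (.s .i
    (.l 825 1 0)) .i) (.l 880 2 0))) (.l 1000 5 0)),
  (.s (.q (.s (.q (.s (.q (.l 880 0 0) (.s (.q (.l 860 0 0) (.s (.q (.l 845 0 0) (.l 825 0 0))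
    (.l 845 0 0))) (.l 870 0 0))) (.q (.q (.s (.q (.l 1000 1 0) (.s (.l 880 0 0) (.l 1000 1 0)))
    (.l 1000 2 0)) (.s (.l 880 0 0) (.l 1000 0 0))) (.s (.l 880 1 0) (.q (.q (.s (.l 880 4 0) (.l
    1000 0 0)) (.l 880 3 0)) (.l 880 2 0))))) (.s (.q (.s (.q (.s (.q (.l 825 0 0) (.l 815 0 0))
    (.q (.l 845 0 0) (.l 825 0 0))) (.s (.q (.l 810 0 0) .i) (.q (.l 825 0 0) (.l 815 0 0)))) (.q
    (.l 845 0 0) (.s (.l 825 0 0) (.l 845 0 0)))) (.s (.q (.s .i (.l 810 0 0)) .i) (.q (.l 825 0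
    0) (.l 815 0 0)))) (.q (.l 870 0 0) (.l 845 0 0)))) (.q (.q (.l 1000 2 0) (.s (.q (.l 1000 1
    0) (.s (.q (.l 1000 0 0) (.l 880 3 0)) (.l 1000 2 0))) (.l 1000 4 0))) (.s (.q (.s (.l 880 3
    0) (.l 1000 0 0)) (.l 880 2 0)) (.l 1000 2 0)))) (.s (.q (.s .i (.l 845 0 0)) .i) (.l 880 2
    0))) (.l 1000 7 0)),
  (.s (.q (.s (.q (.s (.q (.s (.l 880 0 0) (.q (.l 1000 1 0) (.s (.l 880 3 0) (.q (.l 1000 1 0)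
    (.l 880 3 0))))) (.s (.l 870 0 0) (.l 880 1 0))) (.q (.l 1000 1 0) (.s (.q (.s (.l 880 2 0)
    (.q (.l 1000 1 0) (.l 880 2 0))) (.l 880 2 0)) (.q (.l 1000 1 0) (.s (.l 880 1 0) (.l 1000 0
    0)))))) (.s (.q (.s (.q (.l 845 0 0) (.s (.l 825 0 0) (.l 845 0 0))) (.l 860 0 0)) (.s (.q
    (.s (.q (.s (.l 815 0 0) (.l 825 0 0)) (.l 815 0 0)) (.l 825 0 0)) (.s (.q (.l 810 0 0) .i)
    (.l 815 0 0))) (.q (.l 845 0 0) (.s (.l 825 0 0) (.l 845 0 0))))) (.q (.l 880 1 0) (.l 870 0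
    0)))) (.q (.l 1000 1 0) (.s (.q (.s (.q (.l 1000 0 0) (.l 880 3 0)) (.l 1000 2 0)) (.l 880 2
    0)) (.l 1000 3 0)))) (.s (.q (.s (.q (.s .i (.q (.l 825 0 0) (.l 815 0 0))) .i) (.l 845 0 0))
    (.s .i (.l 845 0 0))) (.l 880 0 0))) (.l 1000 6 0)),
  (.s (.q (.s (.q (.s (.q (.s (.q (.l 1000 2 0) (.s (.l 880 4 0) (.l 1000 1 0))) (.l 1000 1 0))
    (.s (.l 880 1 0) (.q (.s (.l 880 2 0) (.l 1000 0 0)) (.l 880 3 0)))) (.q (.l 1000 3 0) (.s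
    (.q (.l 1000 1 0) (.s (.l 880 0 0) (.l 1000 1 0))) (.l 1000 2 0)))) (.s (.q (.s (.l 860 0 0)
    (.l 880 1 0)) (.s (.q (.s (.q (.l 845 0 0) (.l 825 0 0)) (.l 860 0 0)) (.s (.l 825 0 0) (.q
    (.l 845 0 0) (.l 825 1 0)))) (.l 860 0 0))) (.q (.s (.l 880 2 0) (.q (.l 1000 0 0) (.l 880 2
    0))) (.l 880 1 0)))) (.q (.l 1000 4 0) (.s (.q (.l 1000 1 0) (.s (.l 880 0 0) (.l 1000 2 0)))
    (.l 1000 4 0)))) (.s (.q (.s (.q (.s (.q (.s (.q (.l 815 0 0) (.l 810 0 0)) (.l 825 0 0)) (.s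
    .i (.l 815 0 0))) (.q (.l 845 0 0) (.l 825 0 0))) (.s .i (.q (.l 825 0 0) (.l 815 0 0)))) (.l
    860 0 0)) (.s .i (.l 845 0 0))) (.q (.s (.l 880 3 0) (.l 1000 2 0)) (.l 880 3 0)))) (.l 1000
    8 0)),
  (.s (.q (.s (.q (.s (.q (.l 1000 3 0) (.s (.q (.l 1000 0 0) (.l 880 3 0)) (.l 1000 0 0))) (.l
    1000 2 0)) (.s (.q (.l 880 1 0) (.s (.q (.l 870 0 0) (.l 845 0 0)) (.l 880 0 0))) (.q (.s (.q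
    (.l 1000 0 0) (.l 880 1 0)) (.l 1000 1 0)) (.l 880 0 0)))) (.l 1000 1 0)) (.s (.q (.s (.q (.s
    (.q (.s (.l 825 0 0) (.l 845 0 0)) (.s (.q (.l 825 0 0) (.l 815 0 0)) (.l 825 1 0))) (.l 845
    1 0)) (.s (.q (.s (.l 810 0 0) (.l 825 0 0)) (.s .i (.l 815 0 0))) (.q (.l 845 0 0) (.l 825 0
    0)))) (.l 870 0 0)) (.s (.q (.s .i (.l 815 0 0)) .i) (.l 845 0 0))) (.q (.s (.q (.s (.l 880 4
    0) (.l 1000 2 0)) (.l 880 3 0)) (.l 1000 3 0)) (.l 880 3 0)))) (.l 1000 8 0)),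
  (.s (.q (.s (.q (.l 1000 1 0) (.s (.q (.s (.l 880 2 0) (.q (.l 1000 1 0) (.l 880 2 0))) (.l 880
    0 0)) (.q (.l 1000 1 0) (.s (.l 880 0 0) (.l 1000 0 0))))) (.l 1000 3 0)) (.s (.q (.s (.q (.s
    (.l 845 0 0) (.l 880 0 0)) (.s (.q (.s (.l 825 0 0) (.l 845 0 0)) (.s (.l 815 0 0) (.l 825 0
    0))) (.l 845 0 0))) (.l 880 1 0)) (.s (.q (.s (.q (.s (.q (.l 810 0 0) .i) (.l 825 0 0)) .i)
    (.l 825 0 0)) (.s .i (.l 815 0 0))) (.l 860 0 0))) (.q (.s (.q (.l 1000 1 0) (.l 880 0 0))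
    (.l 1000 4 0)) (.s (.l 880 3 0) (.l 1000 3 0))))) (.l 1000 8 0)),
  (.s (.q (.s (.q (.l 1000 4 0) (.s (.q (.s (.q (.l 1000 1 0) (.l 880 3 0)) (.l 1000 1 0)) (.l
    880 0 0)) (.l 1000 0 0))) (.l 1000 5 0)) (.s (.q (.s (.q (.l 870 0 0) (.s (.q (.l 845 0 0)
    (.s (.l 825 0 0) (.l 860 0 0))) (.l 870 0 0))) (.q (.s (.l 880 3 0) (.q (.l 1000 1 0) (.l 880
    2 0))) (.l 880 1 0))) (.s (.q (.s (.q (.l 825 0 0) (.s (.l 815 0 0) (.l 825 0 0))) (.l 845 0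
    0)) (.s (.q (.s .i (.l 825 0 0)) .i) (.l 825 0 0))) (.l 870 0 0))) (.q (.l 1000 1 0) (.s (.l
    880 3 0) (.l 1000 4 0))))) (.l 1000 8 0)),
  (.s (.q (.s (.q (.l 1000 8 0) (.s (.q (.l 1000 2 0) (.s (.l 880 2 0) (.l 1000 0 0))) (.l 1000 2
    0))) (.l 1000 8 0)) (.s (.q (.s (.q (.l 880 1 0) (.l 860 0 0)) (.q (.s (.q (.l 1000 1 0) (.l
    880 3 0)) (.l 1000 2 0)) (.l 880 0 0))) (.s (.q (.s (.q (.l 845 0 0) (.s (.l 825 0 0) (.l 845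
    0 0))) (.l 870 0 0)) (.s (.q (.l 825 0 0) (.l 815 0 0)) (.l 845 0 0))) (.l 880 1 0))) (.q (.l
    1000 2 0) (.s (.q (.l 1000 0 0) (.l 880 4 0)) (.l 1000 5 0))))) (.l 1000 8 0)),
  (.s (.q (.l 1000 0 0) (.s (.q (.s (.q (.s (.l 880 3 0) (.q (.l 1000 1 0) (.l 880 4 0))) (.l 880
    1 0)) (.q (.l 1000 1 0) (.s (.l 880 1 0) (.l 1000 1 0)))) (.s (.q (.l 860 0 0) (.s (.q (.l
    845 0 0) (.l 825 0 0)) (.l 870 0 0))) (.l 880 1 0))) (.l 1000 0 0))) (.l 1000 8 0)),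
  (.s (.q (.l 1000 3 0) (.s (.q (.s (.q (.s (.l 880 1 0) (.l 1000 1 0)) (.l 880 2 0)) (.l 1000 0
    0)) (.s (.q (.l 880 0 0) (.s (.l 845 0 0) (.l 880 0 0))) (.q (.s (.l 880 4 0) (.l 1000 1 0))
    (.l 880 2 0)))) (.l 1000 1 0))) (.l 1000 8 0)),
  (.s (.q (.l 1000 6 0) (.s (.q (.s (.q (.l 1000 1 0) (.s (.l 880 3 0) (.l 1000 0 0))) (.l 1000 2
    0)) (.s (.q (.l 880 1 0) (.l 870 0 0)) (.q (.s (.q (.l 1000 1 0) (.l 880 4 0)) (.l 1000 2 0))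
    (.l 880 0 0)))) (.l 1000 3 0))) (.l 1000 8 0)),
  (.s (.q (.l 1000 8 0) (.s (.q (.s (.q (.l 1000 4 0) (.s (.q (.l 1000 2 0) (.l 880 5 0)) (.l
    1000 2 0))) (.l 1000 4 0)) (.s (.l 880 1 0) (.q (.l 1000 1 0) (.s (.l 880 2 0) (.l 1000 2
    0))))) (.l 1000 4 0))) (.l 1000 8 0)),
  (.s (.q (.l 1000 8 0) (.s (.q (.l 1000 2 0) (.s (.q (.s (.l 880 4 0) (.l 1000 1 0)) (.l 880 2
    0)) (.l 1000 1 0))) (.l 1000 6 0))) (.l 1000 8 0)),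
  (.s (.q (.l 1000 8 0) (.s (.q (.l 1000 4 0) (.s (.q (.l 1000 1 0) (.s (.l 880 4 0) (.l 1000 0
    0))) (.l 1000 2 0))) (.l 1000 8 0))) (.q (.n 0) (.l 1000 8 0))),
  (.s (.q (.l 1000 8 0) (.s (.q (.l 1000 7 0) (.s (.q (.l 1000 3 0) (.s (.l 880 2 0) (.l 1000 2
    0))) (.l 1000 4 0))) (.l 1000 8 0))) (.q (.n 0) (.l 1000 8 0))),
  (.s (.l 1000 1 0) (.q (.n 0) (.l 1000 8 0))),
  (.s (.l 1000 3 0) (.q (.n 0) (.l 1000 8 0))),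
  (.s (.l 1000 6 0) (.q (.n 0) (.l 1000 8 0))),
  (.s (.l 1000 8 0) (.q (.n 0) (.l 1000 8 0))),
  (.s (.l 1000 8 0) (.q (.n 0) (.l 1000 8 0))),
  (.s (.l 1000 8 0) (.q (.n 0) (.l 1000 8 0))),
  (.s (.l 1000 8 0) (.n 0)),
  (.s (.l 1000 8 0) (.n 0)),
  (.s (.l 1000 8 0) (.n 0)),
  (.s (.l 1000 8 0) (.n 0)),
  (.s (.l 1000 8 0) (.n 0)),
  (.s (.l 1000 8 0) (.n 0)),
  (.s (.l 1000 8 0) (.n 0)),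
  (.s (.q (.n 0) (.l 1000 8 0)) (.n 0)),
  (.s (.q (.n 0) (.l 1000 8 0)) (.n 0)),
  (.s (.q (.n 0) (.l 1000 8 0)) (.n 0)),
  (.s (.q (.n 0) (.l 1000 8 0)) (.n 0)),
  (.s (.q (.n 0) (.l 1000 8 0)) (.n 0)),
  (.n 0)]

/-- The subdivisions for `j > 0`. -/
def tr1 : List Tr := [
  (.l 1000 8 1),
  (.l 1000 8 1),
  (.l 1000 8 1),
  (.l 1000 8 1),
  (.l 1000 8 1),
  (.l 1000 4 1),
  (.s (.l 1000 2 1) (.l 1000 4 0)),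
  (.s (.q (.s (.l 1000 1 1) (.l 1000 1 0)) (.l 1000 8 1)) (.l 1000 4 0)),
  (.s (.q (.s (.q (.l 860 4 0) (.l 1000 7 1)) (.l 1000 0 0)) (.l 1000 8 1)) (.l 1000 5 0)),
  (.s (.q (.s (.l 870 2 0) (.l 1000 0 0)) (.l 1000 6 1)) (.l 1000 8 0)),
  (.s (.q (.s (.q (.s (.l 880 1 0) (.q (.q (.l 1000 0 0) (.l 880 2 0)) (.l 880 2 0))) (.l 870 0
    0)) (.l 1000 0 0)) (.l 1000 0 1)) (.l 1000 6 0)),
  (.s (.q (.s (.q (.s (.l 880 1 0) (.q (.l 1000 0 0) (.l 880 2 0))) (.l 870 0 0)) (.l 1000 1 0))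
    (.s (.l 1000 1 1) (.l 1000 0 0))) (.l 1000 6 0)),
  (.s (.q (.s (.q (.s (.q (.l 1000 0 0) (.l 880 2 0)) (.l 1000 0 0)) (.l 880 0 0)) (.l 1000 1 0))
    (.s (.l 845 0 0) (.l 1000 0 0))) (.l 1000 8 0)),
  (.s (.q (.s (.q (.s (.q (.l 1000 1 0) (.l 880 1 0)) (.l 1000 1 0)) (.s (.l 880 1 0) (.q (.s (.l
    880 3 0) (.l 1000 1 0)) (.l 880 2 0)))) (.l 1000 1 0)) (.s (.l 845 0 0) (.l 1000 0 0))) (.l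
    1000 8 0)),
  (.s (.q (.s (.q (.l 1000 0 0) (.s (.l 880 1 0) (.q (.l 1000 1 0) (.l 880 3 0)))) (.l 1000 2 0))
    (.s (.q (.l 870 0 0) (.l 860 0 1)) (.l 1000 0 0))) (.l 1000 8 0)),
  (.s (.q (.s (.q (.l 1000 2 0) (.s (.q (.s (.l 880 3 0) (.l 1000 1 0)) (.l 880 2 0)) (.l 1000 0
    0))) (.l 1000 3 0)) (.s (.q (.l 880 0 0) (.l 845 0 0)) (.l 1000 1 0))) (.l 1000 8 0)),
  (.s (.q (.s (.q (.l 1000 4 0) (.s (.q (.l 1000 1 0) (.l 880 3 0)) (.l 1000 1 0))) (.l 1000 5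
    0)) (.s (.q (.l 880 0 0) (.l 860 0 0)) (.l 1000 1 0))) (.l 1000 8 0)),
  (.s (.q (.l 1000 0 0) (.s (.q (.s (.l 880 1 0) (.q (.l 1000 1 0) (.l 880 3 0))) (.l 870 0 0))
    (.l 1000 1 0))) (.l 1000 8 0)),
  (.s (.q (.l 1000 2 0) (.s (.q (.s (.l 880 1 0) (.l 1000 0 0)) (.l 880 0 0)) (.l 1000 2 0))) (.q
    (.q (.s (.l 1000 8 0) (.n 0)) (.l 1000 8 0)) (.l 1000 8 0))),
  (.s (.q (.l 1000 3 0) (.s (.q (.s (.q (.l 1000 1 0) (.l 880 3 0)) (.l 1000 1 0)) (.l 880 0 0))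
    (.l 1000 2 0))) (.q (.q (.n 0) (.l 1000 8 0)) (.l 1000 8 0))),
  (.s (.q (.l 1000 6 0) (.s (.q (.s (.q (.l 1000 2 0) (.s (.l 880 4 0) (.l 1000 1 0))) (.l 1000 3
    0)) (.s (.l 880 1 0) (.q (.l 1000 1 0) (.l 880 3 0)))) (.l 1000 3 0))) (.q (.q (.n 0) (.l
    1000 8 0)) (.l 1000 8 0))),
  (.s (.q (.l 1000 8 0) (.s (.q (.l 1000 1 0) (.s (.l 880 2 0) (.l 1000 1 0))) (.l 1000 5 0)))
    (.q (.q (.n 0) (.l 1000 8 0)) (.l 1000 8 0))),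
  (.s (.q (.l 1000 8 0) (.s (.q (.l 1000 3 0) (.s (.q (.l 1000 0 0) (.l 880 3 0)) (.l 1000 2 0)))
    (.l 1000 6 0))) (.q (.q (.n 0) (.l 1000 8 0)) (.l 1000 8 0))),
  (.s (.q (.l 1000 8 0) (.s (.q (.l 1000 5 0) (.s (.q (.l 1000 2 0) (.l 880 1 0)) (.l 1000 3 0)))
    (.l 1000 8 0))) (.q (.n 0) (.l 1000 8 0))),
  (.s (.l 1000 1 0) (.q (.n 0) (.l 1000 8 0))),
  (.s (.l 1000 2 0) (.q (.n 0) (.l 1000 8 0))),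
  (.s (.l 1000 4 0) (.q (.n 0) (.l 1000 8 0))),
  (.s (.l 1000 6 0) (.q (.n 0) (.l 1000 8 0))),
  (.s (.l 1000 8 0) (.q (.n 0) (.l 1000 8 0))),
  (.s (.l 1000 8 0) (.q (.n 0) (.l 1000 8 0))),
  (.s (.l 1000 8 0) (.q (.n 0) (.l 1000 8 0))),
  (.s (.l 1000 8 0) (.n 0)),
  (.s (.l 1000 8 0) (.n 0)),
  (.s (.q (.n 0) (.l 1000 8 0)) (.n 0)),
  (.s (.q (.n 0) (.l 1000 8 0)) (.n 0)),
  (.s (.q (.n 0) (.l 1000 8 0)) (.n 0)),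
  (.s (.q (.n 0) (.l 1000 8 0)) (.n 0)),
  (.s (.q (.n 0) (.l 1000 8 0)) (.n 0)),
  (.s (.q (.n 0) (.l 1000 8 0)) (.n 0)),
  (.s (.q (.n 0) (.l 1000 8 0)) (.n 0)),
  (.s (.q (.n 0) (.l 1000 8 0)) (.n 0)),
  (.s (.q (.n 0) (.l 1000 8 0)) (.n 0)),
  (.s (.q (.n 0) (.l 1000 8 0)) (.n 0)),
  (.n 0),
  (.n 0),
  (.n 0)]

end Pool.Agent.T6A.R5
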