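import Pool.Agent.T6A.R5Num
import Pool.Agent.T6A.CertAsmR
import Pool.Agent.T6A.CertFin

/-!
# CERT for `Q = 5` (MP_c6effb_co)
-/

set_option autoImplicit false

namespace Pool.Agent.T6A.R5

/-- **CERT** for `Q = 5`. -/
theorem certStmt5 : CertStmt 5 :=
  cert_of_range (by norm_num) numRange_5_10 Cert.certStmt

end Pool.Agent.T6A.R5
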