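import Pool.Agent.T6A.R5Data

/-!
# Range `5 ≤ q ≤ 10` (MP_c6effb_co): kernel checks, part 4
-/

set_option autoImplicit false
set_option maxRecDepth 100000

namespace Pool.Agent.T6A.R5

open Pool.Agent.T6A.Bern

theorem ents_ok4 : (((ents.drop 45).take 15).all fun e => okEnt (nn e.d) e) = true := by
  decide +kernel

end Pool.Agent.T6A.R5
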