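import Pool.Agent.T6A.R5Data

/-!
# Range `5 ≤ q ≤ 10` (MP_c6effb_co): kernel checks, part 8
-/

set_option autoImplicit false
set_option maxRecDepth 100000

namespace Pool.Agent.T6A.R5

open Pool.Agent.T6A.Bern

theorem pf1 : (tab 1 46 fun d => chk 10 (prof d (nn d) 1000) [⟨0, 1000, nn d⟩]) = true := by
  decide +kernel

theorem nn_ge : (tab 0 46 fun d => Nat.ble 2000 (nn d)) = true := by decide +kernel

/-- the box -/
def bx : List Iv := [⟨49999, 100001, 10000⟩, ⟨4999, 10001, 10000⟩]

theorem tr0_ok : (tab 0 46 fun d => okT ents d 0 (nn d) (tr0.getD d Tr.i) bx) = true := by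
  decide +kernel

theorem tr1_ok : (tab 0 46 fun d => okT ents d 1 (nn d) (tr1.getD d Tr.i) bx) = true := by
  decide +kernel

end Pool.Agent.T6A.R5
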