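import Pool.Agent.T6A.R5Row
import Pool.Agent.T6A.CertVertex

/-!
# The line for the range `5 ≤ q ≤ 10` (MP_c6effb_co): checks in two variables and their meaning

Variables `x 0 = q = tot - 1`, `x 1 = s`. Slope `41 / 100 / (2 q)`, tolerances `1 / 10000`,
`lam = 1 / Z`, `Z = J1 + A + t / 8 (J2 - J1)`. `Tr` = a subdivision of the box.
-/

set_option autoImplicit false

namespace Pool.Agent.T6A.R5

open Pool.Agent.T6A.Bern

def E1 : Ex := Ex.q 1 10000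
def S : Ex := Ex.x 1 + E1
def J2 : Ex := Ex.x 0 + 1 - Ex.x 1 + E1
def Wl (g : ℕ) : Ex := Ex.x 0 + 1 - Ex.x 1 - Ex.nat g * Ex.x 1 - E1
def J1 (g n : ℕ) : Ex := Wl g - om n * S
def AA (d o : ℕ) : Ex := Ex.nat d * Ex.q (Int.ofNat (17640000 + 25 * o ^ 2)) 42000000 * S
def Z (d g n o t : ℕ) : Ex := J1 g n + AA d o + Ex.q (Int.ofNat t) 8 * (J2 - J1 g n)
def M0 : Ex := 2 * Ex.x 0 * (1 + E1 + Ex.q 41 100 - Ex.x 1)
def MM (d g : ℕ) : ℕ → Ex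
  | 0 => M0 - Ex.q 41 100 * Ex.nat (d + 2 * g)
  | _ + 1 => M0 * S - Ex.q 41 100 * (2 * (Ex.x 0 - E1) - Ex.nat d * S)
def sc : ℕ → Ex
  | 0 => 1
  | _ + 1 => S
def cInf (d : ℕ) : Ex := Ex.x 0 - E1 - Ex.nat d * S - Ex.q 1 1000000
def cZ (d g n o t : ℕ) : Ex := (1 - E1) * Z d g n o t - 2
def cV1 (d g n o t b : ℕ) : Ex := 2 * Ex.x 0 * sc b * (J1 g n * (2 * Z d g n o t - J1 g n - AA d o)) -
  MM d g b * Z d g n o t ^ 2
def cV2 (d g n o t b : ℕ) : Ex := 2 * Ex.x 0 * sc b * (J2 * (2 * Z d g n o t - J2 - AA d o)) -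
  MM d g b * Z d g n o t ^ 2
def cN1 (g n : ℕ) (e : Ent) (t : ℕ) : Ex := om e.o * (Wl g - S) -
  Ex.q (Int.ofNat (10 * e.o)) e.u * S - (1 - om e.o) * Z e.d g n e.o t
def cN2 (g n : ℕ) (e : Ent) (t : ℕ) : Ex := om e.h * Z e.d g n e.o t - (2 - om e.h) * J2 -
  2 * om e.h * S
def cN3 (g n : ℕ) (e : Ent) (t : ℕ) : Ex := om e.o * Z e.d g n e.o t - J2

/-- A subdivision. -/
inductive Tr : Type
  | n (b : ℕ) : Tr
  | i : Tr
  | l (o t b : ℕ) : Tr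
  | q (a b : Tr) : Tr
  | s (a b : Tr) : Tr

def killB (g n t : ℕ) (e : Ent) (box : List Iv) : Bool :=
  Nat.ble 1 e.u && chk 0 (cN1 g n e t) box && chk 0 (cN2 g n e t) box && chk 0 (cN3 g n e t) box

def okT (R : List Ent) (d g n : ℕ) : Tr → List Iv → Bool
  | Tr.n b, box => chk 0 (0 - MM d g b) box
  | Tr.i, box => Nat.beq g 0 && chk 0 (cInf d) box
  | Tr.l o t b, box => chk 0 (cZ d g n o t) box && chk 0 (cV1 d g n o t b) box &&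
      chk 0 (cV2 d g n o t b) box && (Nat.beq o 1000 ||
      R.any fun e => Nat.beq e.d d && Nat.beq e.o o && killB g n t e box)
  | Tr.q a b, box => okT R d g n a (lft 0 box) && okT R d g n b (rgt 0 box)
  | Tr.s a b, box => okT R d g n a (lft 1 box) && okT R d g n b (rgt 1 box)

/-- What a subdivision gives. -/
def Res (R : List Ent) (d g n : ℕ) (ρ : ℕ → ℝ) : Prop :=
  (∃ b, 0 ≤ (0 - MM d g b).ev ρ) ∨ (g = 0 ∧ 0 ≤ (cInf d).ev ρ) ∨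
  (∃ o t b : ℕ, 0 ≤ (cZ d g n o t).ev ρ ∧ 0 ≤ (cV1 d g n o t b).ev ρ ∧ 0 ≤ (cV2 d g n o t b).ev ρ ∧
    (o = 1000 ∨ ∃ e ∈ R, e.d = d ∧ e.o = o ∧ 0 ≤ (cN1 g n e t).ev ρ ∧ 0 ≤ (cN2 g n e t).ev ρ ∧
      0 ≤ (cN3 g n e t).ev ρ))

theorem okT_sound {R : List Ent} {d g n : ℕ} {ρ : ℕ → ℝ} : ∀ (T : Tr) (box : List Iv),
    okB box = true → okT R d g n T box = true → InB box ρ → Res R d g n ρ
  | Tr.n b, box, _, h, hρ => Or.inl ⟨b, sound h hρ⟩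
  | Tr.i, box, _, h, hρ => by
    rw [okT, Bool.and_eq_true] at h
    exact Or.inr (Or.inl ⟨Nat.eq_of_beq_eq_true h.1, sound h.2 hρ⟩)
  | Tr.l o t b, box, _, h, hρ => by
    rw [okT, Bool.and_eq_true, Bool.and_eq_true, Bool.and_eq_true, Bool.or_eq_true] at h
    obtain ⟨⟨⟨h1, h2⟩, h3⟩, h4⟩ := h
    refine Or.inr (Or.inr ⟨o, t, b, sound h1 hρ, sound h2 hρ, sound h3 hρ, ?_⟩)
    rcases h4 with h4 | h4
    · exact Or.inl (Nat.eq_of_beq_eq_true h4)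
    · right
      obtain ⟨e, he, h5⟩ := List.any_eq_true.1 h4
      simp only [Bool.and_eq_true, killB] at h5
      obtain ⟨⟨h6, h7⟩, ⟨⟨_, h8⟩, h9⟩, h10⟩ := h5
      exact ⟨e, he, Nat.eq_of_beq_eq_true h6, Nat.eq_of_beq_eq_true h7, sound h8 hρ, sound h9 hρ,
        sound h10 hρ⟩
  | Tr.q a b, box, hk, h, hρ => by
    rw [okT, Bool.and_eq_true] at h
    rcases InB_split 0 box hk ρ hρ with h3 | h3
    · exact okT_sound a _ (okB_lft 0 box hk) h.1 h3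
    · exact okT_sound b _ (okB_rgt 0 box hk) h.2 h3
  | Tr.s a b, box, hk, h, hρ => by
    rw [okT, Bool.and_eq_true] at h
    rcases InB_split 1 box hk ρ hρ with h3 | h3
    · exact okT_sound a _ (okB_lft 1 box hk) h.1 h3
    · exact okT_sound b _ (okB_rgt 1 box hk) h.2 h3

section ev

variable (q s : ℝ)

theorem ev2_x0 : (Ex.x 0).ev (r2 q s) = q := rfl
theorem ev2_x1 : (Ex.x 1).ev (r2 q s) = s := rfl
theorem ev2_two : (2 : Ex).ev (r2 q s) = 2 := Ex.ev_ofNat 2 _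
theorem ev2_E1 : E1.ev (r2 q s) = 1 / 10000 := by
  rw [E1, Ex.ev_q]; norm_num
theorem ev2_S : S.ev (r2 q s) = s + 1 / 10000 := by
  rw [S, Ex.ev_add, ev2_x1, ev2_E1]
theorem ev2_J2 : J2.ev (r2 q s) = q + 1 - s + 1 / 10000 := by
  rw [J2, Ex.ev_add, Ex.ev_sub, Ex.ev_add, ev2_x0, ev2_x1, ev2_E1, Ex.ev_one]
theorem ev2_Wl (g : ℕ) : (Wl g).ev (r2 q s) = q + 1 - s - g * s - 1 / 10000 := by
  rw [Wl, Ex.ev_sub, Ex.ev_sub, Ex.ev_sub, Ex.ev_add, ev2_x0, ev2_E1, Ex.ev_one, Ex.ev_mul, ev2_x1,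
    Ex.ev_nat]
theorem ev2_J1 (g n : ℕ) : (J1 g n).ev (r2 q s) =
    q + 1 - s - g * s - 1 / 10000 - (n : ℝ) / 1000 * (s + 1 / 10000) := by
  rw [J1, Ex.ev_sub, ev2_Wl, Ex.ev_mul, ev2_S, ev_om]
theorem ev2_AA (d o : ℕ) : (AA d o).ev (r2 q s) =
    (s + 1 / 10000) * ((d : ℝ) * ((17640000 + 25 * (o : ℝ) ^ 2) / 42000000)) := by
  rw [AA, Ex.ev_mul, Ex.ev_mul, Ex.ev_nat, Ex.ev_q, ev2_S, icast]
  push_cast
  ring
theorem ev2_M0 : M0.ev (r2 q s) = 2 * q * (1 + 1 / 10000 + 41 / 100 - s) := by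
  rw [M0, Ex.ev_mul, Ex.ev_mul, Ex.ev_sub, Ex.ev_add, Ex.ev_add, ev2_x0, ev2_x1, ev2_E1, Ex.ev_one,
    Ex.ev_q, Ex.ev_ofNat]
  norm_num

end ev

/-- The vertex from the inequalities. -/
theorem num_of_res {R : List Ent} {d j n : ℕ} {tot s : ℝ}
    (hR : ∀ e ∈ R, e.d = d → okEnt n e = true ∧ chk 10 (prof d n e.o) [⟨0, 1000, n⟩] = true)
    (hP : 1 ≤ d → chk 10 (prof d n 1000) [⟨0, 1000, n⟩] = true) (hn : 2000 ≤ n)
    (hq : 4 ≤ tot - 1) (hs : 1 / 4 ≤ s)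
    (hd : tot - 1 - 1 / 10000 ≤ (d + j) * (s + 1 / 10000))
    (hL : 0 < 1 - s + 1 / 10000 - 41 / 100 / (2 * (tot - 1)) * (d + 2 * j - 2 * (tot - 1)))
    (h : Res R d (if j = 0 then 0 else 1) n (r2 (tot - 1) s)) :
    ∃ lam om inv nuh e0 : ℝ, NumVtx tot s (1 / 10000) (21 / 25) (41 / 100 / (2 * (tot - 1)))
      (1 / 10000) d j lam om inv nuh e0 := by
  obtain ⟨q, hqq⟩ : ∃ q, q = tot - 1 := ⟨_, rfl⟩
  obtain ⟨g, hg⟩ : ∃ g : ℕ, g = if j = 0 then 0 else 1 := ⟨_, rfl⟩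
  rw [← hqq] at hq hd hL h
  rw [← hg] at h
  have hn' : (2000 : ℝ) ≤ n := by exact_mod_cast hn
  have hq0 : 0 < q := by linarith
  obtain ⟨Sr, hSr⟩ : ∃ Sr, Sr = s + 1 / 10000 := ⟨_, rfl⟩
  have hS0 : 0 < Sr := by rw [hSr]; linarith
  obtain ⟨L, hLL⟩ : ∃ L, L = 1 - s + 1 / 10000 - 41 / 100 / (2 * q) * (d + 2 * j - 2 * q) := ⟨_, rfl⟩
  rw [← hLL] at hL
  have h2qL : 2 * q * L = 2 * q * (1 + 1 / 10000 + 41 / 100 - s) - 41 / 100 * (d + 2 * j) := by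
    rw [hLL]
    field_simp
    ring
  have hgj : (g : ℝ) ≤ j ∧ (g : ℝ) * s = if j = 0 then 0 else s := by
    rw [hg]
    rcases Nat.eq_zero_or_pos j with hj | hj
    · rw [hj]; simp
    · have h1 : (1 : ℝ) ≤ j := by exact_mod_cast hj
      rw [if_neg (by omega), if_neg (by omega)]
      exact ⟨by simpa using h1, by simp⟩
  -- the comparison of the lines
  have hM : ∀ b, 2 * q * L * (sc b).ev (r2 q s) ≤ (MM d g b).ev (r2 q s) := by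
    intro b
    cases b with
    | zero =>
      rw [sc, MM, Ex.ev_one, Ex.ev_sub, Ex.ev_mul, ev2_M0, Ex.ev_q, Ex.ev_nat, h2qL]
      push_cast
      linarith [hgj.1]
    | succ b =>
      rw [sc, MM]
      simp only [Ex.ev_sub, Ex.ev_mul, ev2_M0, Ex.ev_q, Ex.ev_nat, ev2_S, ev2_x0, ev2_E1,
        ev2_two, h2qL]
      rw [← hSr] at hd ⊢
      push_cast
      linarith
  have hsc : ∀ b, 0 < (sc b).ev (r2 q s) := by
    intro b
    cases b with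
    | zero => rw [sc, Ex.ev_one]; norm_num
    | succ b => rw [sc, ev2_S, ← hSr]; exact hS0
  rcases h with ⟨b, h⟩ | ⟨h0, h⟩ | ⟨o, t, b, hZ, hV1, hV2, hK⟩
  · exfalso
    rw [Ex.ev_sub, Ex.ev_zero] at h
    have h1 : 0 < 2 * q * L * (sc b).ev (r2 q s) := by
      have := hsc b
      positivity
    linarith [hM b]
  · exfalso
    have hj : j = 0 := by
      rw [hg] at h0
      by_contra hj
      rw [if_neg hj] at h0
      omega
    rw [cInf, Ex.ev_sub, Ex.ev_sub, Ex.ev_sub, Ex.ev_mul, Ex.ev_nat, ev2_S, ev2_x0, ev2_E1,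
      Ex.ev_q] at h
    rw [hj] at hd
    push_cast at h hd
    linarith
  -- the main case
  obtain ⟨J1r, hJ1⟩ : ∃ J1r, J1r = (J1 g n).ev (r2 q s) := ⟨_, rfl⟩
  obtain ⟨J2r, hJ2⟩ : ∃ J2r, J2r = J2.ev (r2 q s) := ⟨_, rfl⟩
  obtain ⟨Ar, hA⟩ : ∃ Ar, Ar = (AA d o).ev (r2 q s) := ⟨_, rfl⟩
  obtain ⟨Zr, hZr⟩ : ∃ Zr, Zr = (Z d g n o t).ev (r2 q s) := ⟨_, rfl⟩
  obtain ⟨e0, he0⟩ : ∃ e0 : ℝ, e0 = (17640000 + 25 * (o : ℝ) ^ 2) / 42000000 := ⟨_, rfl⟩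
  have hJ1' : J1r = q + 1 - s - g * s - 1 / 10000 - (n : ℝ) / 1000 * Sr := by
    rw [hJ1, ev2_J1, hSr]
  have hJ2' : J2r = q + 1 - s + 1 / 10000 := by rw [hJ2, ev2_J2]
  have hA' : Ar = Sr * ((d : ℝ) * e0) := by rw [hA, ev2_AA, hSr, he0]
  have hZ0 : 2 ≤ (1 - 1 / 10000) * Zr := by
    rw [cZ, Ex.ev_sub, Ex.ev_mul, Ex.ev_sub, Ex.ev_one, ev2_E1, ← hZr, Ex.ev_ofNat] at hZ
    linarith
  have hZp : 0 < Zr := by linarith
  have hval : ∀ J, 0 ≤ 2 * q * (sc b).ev (r2 q s) * (J * (2 * Zr - J - Ar)) -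
      (MM d g b).ev (r2 q s) * Zr ^ 2 → L ≤ 1 / Zr * J * (2 - 1 / Zr * (J + Ar)) := by
    intro J hJ
    have h1 : 2 * q * L * (sc b).ev (r2 q s) * Zr ^ 2 ≤
        2 * q * (sc b).ev (r2 q s) * (J * (2 * Zr - J - Ar)) := by
      have := mul_le_mul_of_nonneg_right (hM b) (sq_nonneg Zr)
      linarith
    have h2 : L * Zr ^ 2 ≤ J * (2 * Zr - J - Ar) := by
      have h3 : 0 < 2 * q * (sc b).ev (r2 q s) := by
        have := hsc b
        positivity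
      refine le_of_mul_le_mul_left ?_ h3
      calc 2 * q * (sc b).ev (r2 q s) * (L * Zr ^ 2) = 2 * q * L * (sc b).ev (r2 q s) * Zr ^ 2 := by
            ring
        _ ≤ _ := h1
    have e1 : 1 / Zr * J * (2 - 1 / Zr * (J + Ar)) = J * (2 * Zr - J - Ar) / Zr ^ 2 := by
      field_simp
      ring
    rw [e1, le_div_iff₀ (by positivity)]
    exact h2
  have hv1 := hval J1r (by
    rw [cV1, Ex.ev_sub, Ex.ev_mul, Ex.ev_mul, Ex.ev_mul, Ex.ev_mul, Ex.ev_sub, Ex.ev_sub, Ex.ev_mul,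
      Ex.ev_mul, Ex.ev_pow, ← hZr, ← hJ1, ← hA, ev2_x0, Ex.ev_ofNat] at hV1
    exact hV1)
  have hv2 := hval J2r (by
    rw [cV2, Ex.ev_sub, Ex.ev_mul, Ex.ev_mul, Ex.ev_mul, Ex.ev_mul, Ex.ev_sub, Ex.ev_sub, Ex.ev_mul,
      Ex.ev_mul, Ex.ev_pow, ← hZr, ← hJ2, ← hA, ev2_x0, Ex.ev_ofNat] at hV2
    exact hV2)
  have hl0 : 0 ≤ 1 / Zr := by positivity
  have hlZ : 1 / Zr * Zr = 1 := by field_simp
  -- the range of the lists
  have hrange : ∀ W' sg : ℝ, tot - s - (if j = 0 then 0 else s) - 1 / 10000 ≤ W' →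
      W' ≤ tot - s + 1 / 10000 → s ≤ sg → sg ≤ s + 1 / 10000 →
      q + 1 - s - g * s - 1 / 10000 ≤ W' ∧ W' ≤ J2r ∧ sg ≤ Sr ∧ 0 ≤ sg := by
    intro W' sg h1 h2 h3 h4
    rw [← hgj.2] at h1
    rw [hJ2', hSr]
    refine ⟨by linarith, by linarith, h4, by linarith⟩
  have hprofile : ∀ x : ℝ, 0 ≤ x → x < 1 → 0 < lf ((n : ℝ) / 1000) x →
      lf ((n : ℝ) / 1000) x * ((d : ℝ) * ((1 + 1 / 2 * x) ^ 2 * (21 / 25 * (1 - x) +
      (21 / 25 : ℝ)⁻¹ * (((o : ℝ) / 1000) ^ 2 / (1 - x))) / 2) + (((1 - x)⁻¹) ^ d - 1)) ≤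
      (d : ℝ) * e0 := by
    intro x hx0 _ hx
    rcases Nat.eq_zero_or_pos d with hd0 | hd0
    · rw [hd0]; simp
    · rw [he0]
      refine prof_ok ?_ hd0 hn x hx0 hx
      rcases hK with hK | ⟨e, he, h1, h2, _⟩
      · rw [hK]; exact hP hd0
      · rw [← h2]; exact (hR e he h1).2
  have hline : ∀ W' sg J : ℝ, tot - s - (if j = 0 then 0 else s) - 1 / 10000 ≤ W' →
      W' ≤ tot - s + 1 / 10000 → s ≤ sg → sg ≤ s + 1 / 10000 → W' - (n : ℝ) / 1000 * sg ≤ J →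
      0 ≤ J → J ≤ W' → L ≤ 2 * (1 / Zr * J) - (1 / Zr) ^ 2 * (J * (J + sg * (d * e0))) := by
    intro W' sg J h1 h2 h3 h4 h5 h6 h7
    obtain ⟨r1, r2', r3, r4⟩ := hrange W' sg h1 h2 h3 h4
    have h8 : J1r ≤ J := by
      rw [hJ1']
      have : (n : ℝ) / 1000 * sg ≤ (n : ℝ) / 1000 * Sr := mul_le_mul_of_nonneg_left r3 (by positivity)
      linarith
    have h9 := Pool.Agent.T6A.Cert.vertex_ends' h8 (h7.trans r2') hv1 hv2
    refine h9.trans ?_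
    have h10 : sg * (d * e0) ≤ Ar := by
      rw [hA']
      refine mul_le_mul_of_nonneg_right r3 ?_
      rw [he0]; positivity
    have h11 : J * (J + sg * (d * e0)) ≤ J * (J + Ar) := mul_le_mul_of_nonneg_left (by linarith) h6
    have h12 := mul_le_mul_of_nonneg_left h11 (sq_nonneg (1 / Zr))
    linarith
  have hlam1 : 2 * (1 / Zr) ≤ 1 - 1 / 10000 := by
    rw [mul_one_div, div_le_iff₀ hZp]
    exact hZ0
  rcases hK with hK | ⟨e, he, h1, h2, k1, k2, k3⟩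
  · refine ⟨1 / Zr, (o : ℝ) / 1000, (n : ℝ) / 1000, 1, e0, hlam1, by linarith, ?_, ?_⟩
    · intro W' sg _ _ _ _
      refine ⟨hl0, by positivity, by linarith, fun _ => Or.inl ?_, hprofile⟩
      rw [hK]; norm_num
    · intro W' sg J g1 g2 g3 g4 g5 g6 g7
      rw [← hqq]
      have := hline W' sg J g1 g2 g3 g4 g5 g6 g7
      rw [hLL] at this
      exact this
  · refine ⟨1 / Zr, (o : ℝ) / 1000, (n : ℝ) / 1000, (e.u : ℝ) / 10000, e0, hlam1, by linarith, ?_, ?_⟩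
    · intro W' sg g1 g2 g3 g4
      obtain ⟨r1, r2', r3, r4⟩ := hrange W' sg g1 g2 g3 g4
      refine ⟨hl0, by positivity, by linarith, fun _ => Or.inr ?_, hprofile⟩
      have hE := (hR e he h1).1
      have hE' := hE
      simp only [okEnt, Bool.and_eq_true] at hE'
      obtain ⟨⟨⟨⟨⟨⟨⟨⟨⟨⟨⟨⟨⟨⟨⟨⟨⟨_, b1⟩, b2⟩, b3⟩, b4⟩, _⟩, b5⟩, b6⟩, _⟩, _⟩, _⟩, _⟩, _⟩, _⟩, _⟩, _⟩, _⟩, _⟩ := hE'
      have hu1 : (1 : ℝ) ≤ e.u := by exact_mod_cast Nat.le_of_ble_eq_true b3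
      have hh2 : (e.h : ℝ) ≤ 2000 := by exact_mod_cast Nat.le_of_ble_eq_true b6
      have ho0 : (0 : ℝ) ≤ e.o := Nat.cast_nonneg _
      have hh0 : (0 : ℝ) ≤ e.h := Nat.cast_nonneg _
      rw [cN1, Ex.ev_sub, Ex.ev_sub, Ex.ev_mul, Ex.ev_mul, Ex.ev_mul, Ex.ev_sub, Ex.ev_sub, ev_om,
        Ex.ev_q, Ex.ev_one, icast, ev2_S, ev2_Wl, h1, h2, ← hZr, ← hSr] at k1
      rw [cN2, Ex.ev_sub, Ex.ev_sub, Ex.ev_mul, Ex.ev_mul, Ex.ev_mul, Ex.ev_mul, Ex.ev_sub, ev_om,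
        Ex.ev_ofNat, ev2_S, h1, h2, ← hZr, ← hSr, ← hJ2] at k2
      rw [cN3, Ex.ev_sub, Ex.ev_mul, ev_om, h1, h2, ← hZr, ← hJ2] at k3
      have hB0 : 0 ≤ 10 * (o : ℝ) / e.u := by positivity
      have key := ent_ok (W := W') (sg := sg) (lam := 1 / Zr) hE hl0 ?_ ?_ ?_
      · rw [h2, h1] at key
        exact ⟨_, _, _, key⟩
      · -- N1
        rw [h2]
        have h5 : (1 - (o : ℝ) / 1000) * Zr ≤ (o : ℝ) / 1000 * (W' - sg) - 10 * (o : ℝ) / e.u * sg := by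
          have h6 : (o : ℝ) / 1000 * (q + 1 - s - g * s - 1 / 10000 - Sr) ≤
              (o : ℝ) / 1000 * (W' - sg) := mul_le_mul_of_nonneg_left (by linarith) (by positivity)
          have h7 : 10 * (o : ℝ) / e.u * sg ≤ 10 * (o : ℝ) / e.u * Sr :=
            mul_le_mul_of_nonneg_left r3 hB0
          push_cast at k1
          linarith
        have h8 := mul_le_mul_of_nonneg_left h5 hl0
        have h9 : 1 / Zr * ((1 - (o : ℝ) / 1000) * Zr) = 1 - (o : ℝ) / 1000 := by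
          rw [mul_comm (1 - (o : ℝ) / 1000), ← mul_assoc, hlZ, one_mul]
        linarith
      · -- N2
        have h5 : (2 - (e.h : ℝ) / 1000) * W' + 2 * ((e.h : ℝ) / 1000) * sg ≤ (e.h : ℝ) / 1000 * Zr := by
          have h6 : (2 - (e.h : ℝ) / 1000) * W' ≤ (2 - (e.h : ℝ) / 1000) * J2r :=
            mul_le_mul_of_nonneg_left r2' (by linarith)
          have h7 : 2 * ((e.h : ℝ) / 1000) * sg ≤ 2 * ((e.h : ℝ) / 1000) * Sr :=
            mul_le_mul_of_nonneg_left r3 (by positivity)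
          linarith
        have h8 := mul_le_mul_of_nonneg_left h5 hl0
        have h9 : 1 / Zr * ((e.h : ℝ) / 1000 * Zr) = (e.h : ℝ) / 1000 := by
          rw [mul_comm ((e.h : ℝ) / 1000), ← mul_assoc, hlZ, one_mul]
        linarith
      · -- N3
        rw [h2]
        have h5 : W' ≤ (o : ℝ) / 1000 * Zr := by linarith
        have h8 := mul_le_mul_of_nonneg_left h5 hl0
        have h9 : 1 / Zr * ((o : ℝ) / 1000 * Zr) = (o : ℝ) / 1000 := by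
          rw [mul_comm ((o : ℝ) / 1000), ← mul_assoc, hlZ, one_mul]
        linarith
    · intro W' sg J g1 g2 g3 g4 g5 g6 g7
      rw [← hqq]
      have := hline W' sg J g1 g2 g3 g4 g5 g6 g7
      rw [hLL] at this
      exact this

end Pool.Agent.T6A.R5
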