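import Pool.Agent.T6A.R5K1
import Pool.Agent.T6A.R5K2
import Pool.Agent.T6A.R5K3
import Pool.Agent.T6A.R5K4
import Pool.Agent.T6A.R5K5
import Pool.Agent.T6A.R5K6
import Pool.Agent.T6A.R5K7
import Pool.Agent.T6A.R5K8

/-!
# The numerical certificate for `5 ≤ tot - 1 ≤ 10` (MP_c6effb_co)
-/

set_option autoImplicit false
set_option maxRecDepth 100000

namespace Pool.Agent.T6A.R5

open Pool.Agent.T6A.Bern

theorem ents_ok {e : Ent} (he : e ∈ ents) : okEnt (nn e.d) e = true := by
  have e1 : ents = (ents.drop 0).take 15 ++ (ents.drop 15).take 15 ++ (ents.drop 30).take 15 ++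
      (ents.drop 45).take 15 ++ (ents.drop 60).take 15 ++ (ents.drop 75).take 11 := by rfl
  rw [e1] at he
  simp only [List.mem_append] at he
  rcases he with ((((he | he) | he) | he) | he) | he
  · exact List.all_eq_true.1 ents_ok1 e he
  · exact List.all_eq_true.1 ents_ok2 e he
  · exact List.all_eq_true.1 ents_ok3 e he
  · exact List.all_eq_true.1 ents_ok4 e he
  · exact List.all_eq_true.1 ents_ok5 e he
  · exact List.all_eq_true.1 ents_ok6 e he

/-- **The numerical certificate for `5 ≤ tot - 1 ≤ 10`.** -/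
theorem numRange_5_10 : NumRange 5 10 := by
  refine ⟨1 / 10000, 1 / 10000, by norm_num, by norm_num, fun tot s h1 h2 h3 h4 => ?_⟩
  refine ⟨21 / 25, 41 / 100 / (2 * (tot - 1)), by norm_num, ?_, ?_, fun d j hd hL => ?_⟩
  · have : 0 < tot - 1 := by linarith
    positivity
  · rw [div_le_one (by linarith)]
    linarith
  rcases lt_or_ge d 46 with hd46 | hd46
  · refine num_of_res (R := ents) (n := nn d) ?_ ?_ ?_ (by linarith) (by linarith) hd hL ?_
    · intro e he hed
      have := ents_ok he
      rw [hed] at this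
      refine ⟨this, ?_⟩
      have h5 := List.all_eq_true.1 ents_pf e he
      rw [hed] at h5
      exact h5
    · intro h5
      exact tab_get pf1 h5 hd46
    · exact Nat.le_of_ble_eq_true (tab_get nn_ge (Nat.zero_le d) hd46)
    · have hbox : InB bx (r2 (tot - 1) s) := by
        rw [bx, InB_cons, InB_cons]
        refine ⟨⟨?_, ?_⟩, ⟨?_, ?_⟩, fun i b hb => by simp at hb⟩
        · rw [r2_0]; push_cast; linarith
        · rw [r2_0]; push_cast; linarith
        · show ((4999 : ℤ) : ℝ) / ((10000 : ℕ) : ℝ) ≤ s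
          push_cast; linarith
        · show s ≤ ((10001 : ℤ) : ℝ) / ((10000 : ℕ) : ℝ)
          push_cast; linarith
      have hbk : okB bx = true := by decide +kernel
      by_cases hj : j = 0
      · rw [if_pos hj]
        exact okT_sound _ bx hbk (tab_get tr0_ok (Nat.zero_le d) hd46) hbox
      · rw [if_neg hj]
        exact okT_sound _ bx hbk (tab_get tr1_ok (Nat.zero_le d) hd46) hbox
  · exfalso
    have h5 : (46 : ℝ) ≤ d := by exact_mod_cast hd46
    have h6 : (0 : ℝ) ≤ j := Nat.cast_nonneg j
    have h7 : 0 < tot - 1 := by linarith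
    have h8 : 41 / 100 / (2 * (tot - 1)) * (d + 2 * j - 2 * (tot - 1)) =
        41 / 100 * ((d + 2 * j) / (2 * (tot - 1))) - 41 / 100 := by
      field_simp
    rw [h8] at hL
    have h9 : 46 / (2 * (tot - 1)) ≤ (d + 2 * j) / (2 * (tot - 1)) :=
      div_le_div_of_nonneg_right (by linarith) (by linarith)
    have h10 : (46 : ℝ) / (2 * (10001 / 1000)) ≤ 46 / (2 * (tot - 1)) :=
      div_le_div_of_nonneg_left (by norm_num) (by linarith) (by linarith)
    norm_num at h10
    linarith

end Pool.Agent.T6A.R5
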