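import Pool.Agent.T6A.Bern
import Pool.Agent.T6A.NumRange
import Pool.Agent.T6A.MuG

/-!
# Rows for the range `5 ≤ q ≤ 10` (MP_c6effb_co): checks in one variable and their meaning

`Ent` = one triple `(d, om, nuh, th)` (numerators over 1000, 10000, 1000), `n` = numerator of the
slope of the profile over 1000. `xi = 21 / 25`, `c0 = 1 / 2`, `ka = 1 / 2`, `B = om / nuh`.
-/

set_option autoImplicit false

namespace Pool.Agent.T6A.R5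

open Pool.Agent.T6A.Bern

/-- An entry. -/
structure Ent where
  d : ℕ
  o : ℕ
  u : ℕ
  h : ℕ

def X0 : Ex := Ex.x 0
def Y : Ex := 1 - X0
def Ln (n : ℕ) : Ex := 1 - Ex.q (Int.ofNat n) 1000 * X0

/-- the profile -/
def prof (d n o : ℕ) : Ex := Ex.nat d * Ex.q (Int.ofNat (17640000 + 25 * o ^ 2)) 42000000 * Y ^ d -
  Ln n * (Ex.nat d * (1 + Ex.q 1 2 * X0) ^ 2 *
  (Ex.q 21 50 * Y ^ (d + 1) + Ex.q (Int.ofNat (25 * o ^ 2)) 42000000 * Y ^ (d - 1)) + 1 - Y ^ d)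

def om (o : ℕ) : Ex := Ex.q (Int.ofNat o) 1000

def m1 (n : ℕ) (e : Ent) : Ex := Ln n * (Y ^ (e.d - 1) - (1 - om e.o)) -
  (om e.o - Ex.q (Int.ofNat (10 * e.o)) e.u * X0) * Y ^ e.d

def m1' (n : ℕ) (e : Ent) : Ex := om e.o * Y ^ e.d - Ln n * (Y ^ (e.d - 1) - (1 - om e.o))

def m3 (n : ℕ) (e : Ent) : Ex := om e.o * Ln n * Y ^ (e.d - 1) - om e.h * (Y ^ (e.d - 1) - (1 - om e.o))

def a0 (n : ℕ) (e : Ent) : Ex := (2 - om e.h) * Y ^ e.d + om e.h * Ln n -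
  2 * Ln n ^ 2 * (1 + Ex.q 1 2 * X0) ^ 2 * Y ^ (e.d - 1)

def a0' (n : ℕ) (e : Ent) : Ex := (2 - om e.h) * Y - 2 * Ln n ^ 2 * (1 + Ex.q 1 2 * X0) ^ 2

def s0 (n : ℕ) (e : Ent) : Ex := Ex.q 1 2 * Y ^ e.d - Ln n * (Ex.q 4 3 * (Ex.nat (e.d - 1) *
  (X0 * Y ^ (e.d - 1 - 1))) - Ex.q 1 2 * om e.o)

/-- `a` = lower end of the interval for `s`, `c = 1 / (1 - b)` -/
def si (a c : Ex) (n : ℕ) (e : Ent) : Ex := Ex.q 1 2 * a * Y ^ e.d - Ln n * (Y ^ (e.d - 1) -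
  (1 - c * X0) ^ (e.d - 1) - Ex.q 1 2 * a * om e.o)

/-- the check of an entry -/
def okEnt (n : ℕ) (e : Ent) : Bool :=
  Nat.ble 2 e.d && Nat.ble 800 e.o && Nat.ble e.o 1000 && Nat.ble 1 e.u && Nat.ble e.u 5000 &&
  Nat.ble (e.u * n) 10000000 && Nat.ble 1 e.h && Nat.ble e.h 2000 && Nat.ble 2000 n &&
  chk 10 (m1 n e) [⟨0, Int.ofNat e.u, 10000⟩] && chk 10 (m1' n e) [⟨0, Int.ofNat e.u, 10000⟩] &&
  chk 10 (m3 n e) [⟨0, Int.ofNat e.u, 10000⟩] && chk 10 (a0 n e) [⟨0, Int.ofNat e.u, 10000⟩] &&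
  chk 10 (a0' n e) [⟨Int.ofNat (e.u * n), 10000000, 10000 * n⟩] &&
  chk 10 (s0 n e) [⟨0, Int.ofNat e.u, 10000⟩] &&
  chk 10 (si (Ex.q 1 4) (Ex.q 25 17) n e) [⟨0, Int.ofNat e.u, 10000⟩] &&
  chk 10 (si (Ex.q 8 25) (Ex.q 5 3) n e) [⟨0, Int.ofNat e.u, 10000⟩] &&
  chk 10 (si (Ex.q 2 5) 2 n e) [⟨0, Int.ofNat e.u, 10000⟩]

theorem icast (n : ℕ) : ((Int.ofNat n : ℤ) : ℝ) = (n : ℝ) := by simp

theorem ev_om (o : ℕ) (ρ : ℕ → ℝ) : (om o).ev ρ = (o : ℝ) / 1000 := by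
  rw [om, Ex.ev_q, icast]
  norm_num

theorem ev_X0 (x : ℝ) : X0.ev (fun _ => x) = x := rfl

theorem ev_Y (x : ℝ) : Y.ev (fun _ => x) = 1 - x := by
  rw [Y, Ex.ev_sub, Ex.ev_one, ev_X0]

theorem ev_Ln (n : ℕ) (x : ℝ) : (Ln n).ev (fun _ => x) = 1 - (n : ℝ) / 1000 * x := by
  rw [Ln, Ex.ev_sub, Ex.ev_one, Ex.ev_mul, Ex.ev_q, ev_X0, icast]
  norm_num

theorem ev_two (x : ℝ) : (2 : Ex).ev (fun _ => x) = 2 := Ex.ev_ofNat 2 _

/-- the profile inequality -/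
theorem prof_ok {d n o : ℕ} (h : chk 10 (prof d n o) [⟨0, 1000, n⟩] = true) (hd : 1 ≤ d)
    (hn : 2000 ≤ n) (x : ℝ) (hx0 : 0 ≤ x) (hl : 0 < lf ((n : ℝ) / 1000) x) :
    lf ((n : ℝ) / 1000) x * ((d : ℝ) * ((1 + 1 / 2 * x) ^ 2 * (21 / 25 * (1 - x) +
      (21 / 25 : ℝ)⁻¹ * (((o : ℝ) / 1000) ^ 2 / (1 - x))) / 2) + (((1 - x)⁻¹) ^ d - 1)) ≤
      (d : ℝ) * ((17640000 + 25 * (o : ℝ) ^ 2) / 42000000) := by
  have hn' : (2000 : ℝ) ≤ n := by exact_mod_cast hn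
  have hl1 : 0 < 1 - (n : ℝ) / 1000 * x := by
    unfold lf at hl
    rcases lt_max_iff.1 hl with h1 | h1
    · exact absurd h1 (lt_irrefl _)
    · exact h1
  have hlf : lf ((n : ℝ) / 1000) x = 1 - (n : ℝ) / 1000 * x := max_eq_right hl1.le
  have hx1 : x ≤ 1000 / n := by
    rw [le_div_iff₀ (by linarith)]
    nlinarith
  have hx2 : x ≤ 1 / 2 := by
    refine hx1.trans ?_
    rw [div_le_div_iff₀ (by linarith) (by norm_num)]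
    linarith
  have hy : 0 < 1 - x := by linarith
  have h1 := sound1 h (a := x) (by simpa using hx0) (by simpa using hx1)
  simp only [prof, Ex.ev_sub, Ex.ev_mul, Ex.ev_add, Ex.ev_pow, Ex.ev_q, Ex.ev_nat, Ex.ev_one,
    ev_X0, ev_Y, ev_Ln, icast] at h1
  rw [hlf]
  obtain ⟨E, rfl⟩ : ∃ E, d = E + 1 := ⟨d - 1, by omega⟩
  simp only [Nat.add_sub_cancel] at h1
  obtain ⟨y, hyy⟩ : ∃ y, y = 1 - x := ⟨_, rfl⟩
  obtain ⟨l, hll⟩ : ∃ l, l = 1 - (n : ℝ) / 1000 * x := ⟨_, rfl⟩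
  obtain ⟨D, hD⟩ : ∃ D : ℝ, D = ((E + 1 : ℕ) : ℝ) := ⟨_, rfl⟩
  rw [← hyy] at hy h1 ⊢
  rw [← hll] at h1 ⊢
  rw [← hD] at h1 ⊢
  have hp : 0 < y ^ (E + 1) := by positivity
  refine le_of_mul_le_mul_right ?_ hp
  have e1 : l * (D * ((1 + 1 / 2 * x) ^ 2 * (21 / 25 * y + (21 / 25 : ℝ)⁻¹ *
      (((o : ℝ) / 1000) ^ 2 / y)) / 2) + ((y⁻¹) ^ (E + 1) - 1)) * y ^ (E + 1) =
      l * (D * (1 + 1 / 2 * x) ^ 2 * (21 / 50 * y ^ (E + 1 + 1) +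
        25 * (o : ℝ) ^ 2 / 42000000 * y ^ E) + 1 - y ^ (E + 1)) := by
    have e2 : (y⁻¹) ^ (E + 1) * y ^ (E + 1) = 1 := by
      rw [← mul_pow, inv_mul_cancel₀ hy.ne', one_pow]
    have e3 : ((o : ℝ) / 1000) ^ 2 / y * y ^ (E + 1) = ((o : ℝ) / 1000) ^ 2 * y ^ E := by
      rw [pow_succ y E]
      field_simp
    have e4 : (D * ((1 + 1 / 2 * x) ^ 2 * (21 / 25 * y + (21 / 25 : ℝ)⁻¹ *
      (((o : ℝ) / 1000) ^ 2 / y)) / 2) + ((y⁻¹) ^ (E + 1) - 1)) * y ^ (E + 1) =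
      D * (1 + 1 / 2 * x) ^ 2 * (21 / 50 * y ^ (E + 1 + 1) + (21 / 25 : ℝ)⁻¹ / 2 *
        (((o : ℝ) / 1000) ^ 2 / y * y ^ (E + 1))) + ((y⁻¹) ^ (E + 1) * y ^ (E + 1) -
          y ^ (E + 1)) := by
      ring
    rw [mul_assoc, e4, e2, e3]
    ring
  rw [e1]
  push_cast at h1
  linarith

theorem box_of {e : Ent} {x : ℝ} (hx0 : 0 ≤ x) (hx : x ≤ (e.u : ℝ) / 10000) :
    (((0 : ℤ) : ℝ)) / ((10000 : ℕ) : ℝ) ≤ x ∧ x ≤ ((Int.ofNat e.u : ℤ) : ℝ) / ((10000 : ℕ) : ℝ) := by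
  rw [icast]
  exact ⟨by simpa using hx0, by simpa using hx⟩

section rows

variable {n : ℕ} {e : Ent} {E : ℕ} {x : ℝ}

theorem row_m1 (c : chk 10 (m1 n e) [⟨0, Int.ofNat e.u, 10000⟩] = true) (hE : e.d = E + 1)
    (hx0 : 0 ≤ x) (hx : x ≤ (e.u : ℝ) / 10000) :
    ((e.o : ℝ) / 1000 - 10 * (e.o : ℝ) / e.u * x) * (1 - x) ^ (E + 1) ≤
      (1 - (n : ℝ) / 1000 * x) * ((1 - x) ^ E - (1 - (e.o : ℝ) / 1000)) := by
  have hp := sound1 c (box_of hx0 hx).1 (box_of hx0 hx).2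
  rw [m1, hE, Nat.add_sub_cancel, Ex.ev_sub, Ex.ev_mul, Ex.ev_mul, Ex.ev_sub, Ex.ev_sub, Ex.ev_sub,
    Ex.ev_mul, Ex.ev_pow, Ex.ev_pow, Ex.ev_q, Ex.ev_one, ev_X0, ev_Y, ev_Ln, icast, ev_om] at hp
  push_cast at hp
  linarith

theorem row_m1' (c : chk 10 (m1' n e) [⟨0, Int.ofNat e.u, 10000⟩] = true) (hE : e.d = E + 1)
    (hx0 : 0 ≤ x) (hx : x ≤ (e.u : ℝ) / 10000) :
    (1 - (n : ℝ) / 1000 * x) * ((1 - x) ^ E - (1 - (e.o : ℝ) / 1000)) ≤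
      (e.o : ℝ) / 1000 * (1 - x) ^ (E + 1) := by
  have hp := sound1 c (box_of hx0 hx).1 (box_of hx0 hx).2
  rw [m1', hE, Nat.add_sub_cancel, Ex.ev_sub, Ex.ev_mul, Ex.ev_mul, Ex.ev_sub, Ex.ev_sub,
    Ex.ev_pow, Ex.ev_pow, Ex.ev_one, ev_Y, ev_Ln, ev_om] at hp
  linarith

theorem row_m3 (c : chk 10 (m3 n e) [⟨0, Int.ofNat e.u, 10000⟩] = true) (hE : e.d = E + 1)
    (hx0 : 0 ≤ x) (hx : x ≤ (e.u : ℝ) / 10000) :
    (e.h : ℝ) / 1000 * ((1 - x) ^ E - (1 - (e.o : ℝ) / 1000)) ≤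
      (e.o : ℝ) / 1000 * (1 - (n : ℝ) / 1000 * x) * (1 - x) ^ E := by
  have hp := sound1 c (box_of hx0 hx).1 (box_of hx0 hx).2
  rw [m3, hE, Nat.add_sub_cancel, Ex.ev_sub, Ex.ev_mul, Ex.ev_mul, Ex.ev_mul, Ex.ev_sub, Ex.ev_sub,
    Ex.ev_pow, Ex.ev_one, ev_Y, ev_Ln, ev_om, ev_om] at hp
  linarith

theorem row_a0 (c : chk 10 (a0 n e) [⟨0, Int.ofNat e.u, 10000⟩] = true) (hE : e.d = E + 1)
    (hx0 : 0 ≤ x) (hx : x ≤ (e.u : ℝ) / 10000) :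
    2 * (1 - (n : ℝ) / 1000 * x) ^ 2 * (1 + 1 / 2 * x) ^ 2 * (1 - x) ^ E ≤
      (2 - (e.h : ℝ) / 1000) * (1 - x) ^ (E + 1) + (e.h : ℝ) / 1000 * (1 - (n : ℝ) / 1000 * x) := by
  have hp := sound1 c (box_of hx0 hx).1 (box_of hx0 hx).2
  rw [a0, hE, Nat.add_sub_cancel, Ex.ev_sub, Ex.ev_add, Ex.ev_mul, Ex.ev_mul, Ex.ev_mul, Ex.ev_mul,
    Ex.ev_mul, Ex.ev_sub, Ex.ev_pow, Ex.ev_pow, Ex.ev_pow, Ex.ev_pow, Ex.ev_add, Ex.ev_mul, Ex.ev_q,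
    Ex.ev_one, ev_X0, ev_Y, ev_Ln, ev_om, ev_two] at hp
  push_cast at hp
  linarith

theorem row_a0' (c : chk 10 (a0' n e) [⟨Int.ofNat (e.u * n), 10000000, 10000 * n⟩] = true)
    (hn : 1 ≤ n) (hx : (e.u : ℝ) / 10000 ≤ x) (hx1 : x ≤ 1000 / n) :
    2 * (1 - (n : ℝ) / 1000 * x) ^ 2 * (1 + 1 / 2 * x) ^ 2 ≤ (2 - (e.h : ℝ) / 1000) * (1 - x) := by
  have hn' : (n : ℝ) ≠ 0 := by
    have : (1 : ℝ) ≤ n := by exact_mod_cast hn
    linarith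
  have hp := sound1 c (a := x) ?_ ?_
  · rw [a0', Ex.ev_sub, Ex.ev_mul, Ex.ev_mul, Ex.ev_mul, Ex.ev_sub, Ex.ev_pow, Ex.ev_pow, Ex.ev_add,
      Ex.ev_mul, Ex.ev_q, Ex.ev_one, ev_X0, ev_Y, ev_Ln, ev_om, ev_two] at hp
    push_cast at hp
    linarith
  · rw [icast]
    push_cast
    have : (e.u : ℝ) * n / (10000 * n) = (e.u : ℝ) / 10000 := by field_simp
    rw [this]
    exact hx
  · push_cast
    have : (10000000 : ℝ) / (10000 * n) = 1000 / n := by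
      field_simp
      norm_num
    rw [this]
    exact hx1

theorem row_s0 (c : chk 10 (s0 n e) [⟨0, Int.ofNat e.u, 10000⟩] = true) (hE : e.d = E + 1)
    (hx0 : 0 ≤ x) (hx : x ≤ (e.u : ℝ) / 10000) :
    (1 - (n : ℝ) / 1000 * x) * (4 / 3 * ((E : ℝ) * (x * (1 - x) ^ (E - 1))) -
      1 / 2 * ((e.o : ℝ) / 1000)) ≤ 1 / 2 * (1 - x) ^ (E + 1) := by
  have hp := sound1 c (box_of hx0 hx).1 (box_of hx0 hx).2
  rw [s0, hE, Nat.add_sub_cancel, Ex.ev_sub, Ex.ev_mul, Ex.ev_mul, Ex.ev_sub, Ex.ev_mul, Ex.ev_mul,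
    Ex.ev_mul, Ex.ev_mul, Ex.ev_pow, Ex.ev_pow, Ex.ev_q, Ex.ev_q, Ex.ev_nat, ev_X0, ev_Y, ev_Ln,
    ev_om] at hp
  push_cast at hp
  linarith

theorem row_si {a c : Ex} {a' c' : ℝ} (ha : a.ev (fun _ => x) = a') (hc : c.ev (fun _ => x) = c')
    (ch : chk 10 (si a c n e) [⟨0, Int.ofNat e.u, 10000⟩] = true) (hE : e.d = E + 1)
    (hx0 : 0 ≤ x) (hx : x ≤ (e.u : ℝ) / 10000) :
    (1 - (n : ℝ) / 1000 * x) * ((1 - x) ^ E - (1 - c' * x) ^ E - 1 / 2 * a' * ((e.o : ℝ) / 1000)) ≤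
      1 / 2 * a' * (1 - x) ^ (E + 1) := by
  have hp := sound1 ch (box_of hx0 hx).1 (box_of hx0 hx).2
  rw [si, hE, Nat.add_sub_cancel, Ex.ev_sub, Ex.ev_mul, Ex.ev_mul, Ex.ev_mul, Ex.ev_sub, Ex.ev_sub,
    Ex.ev_mul, Ex.ev_mul, Ex.ev_pow, Ex.ev_pow, Ex.ev_pow, Ex.ev_sub, Ex.ev_mul, Ex.ev_q, Ex.ev_one,
    ev_X0, ev_Y, ev_Ln, ev_om, ha, hc] at hp
  push_cast at hp
  linarith

end rows

/-- one interval for `s` -/
theorem s1_piece {E : ℕ} {l om a c b s x : ℝ} (hb : b < 1)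
    (hc : c = 1 / (1 - b)) (hl0 : 0 ≤ l) (hom : 0 ≤ om) (hx0 : 0 ≤ x) (hx1 : x < 1)
    (hcx : c * x ≤ 1) (has : a ≤ s) (hsb : s ≤ b)
    (hp : l * ((1 - x) ^ E - (1 - c * x) ^ E - 1 / 2 * a * om) ≤ 1 / 2 * a * (1 - x) ^ (E + 1)) :
    l * ((1 - x) ^ E - (max 0 (1 - x / (1 - s))) ^ E - s * om * (1 / 2)) ≤
      s * (1 / 2) * (1 - x) ^ (E + 1) := by
  have hy : 0 < 1 - x := by linarith
  have hz : 1 - c * x ≤ max 0 (1 - x / (1 - s)) := by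
    refine le_trans ?_ (le_max_right _ _)
    have h1 : x / (1 - s) ≤ x / (1 - b) := div_le_div_of_nonneg_left hx0 (by linarith) (by linarith)
    have h2 : c * x = x / (1 - b) := by rw [hc]; ring
    linarith
  have hzE : (1 - c * x) ^ E ≤ (max 0 (1 - x / (1 - s))) ^ E :=
    pow_le_pow_left₀ (by linarith) hz E
  have hyp : 0 < (1 - x) ^ (E + 1) := by positivity
  have h2 : (1 - x) ^ E - (max 0 (1 - x / (1 - s))) ^ E - s * om * (1 / 2) ≤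
      (1 - x) ^ E - (1 - c * x) ^ E - 1 / 2 * a * om := by
    have : a * om ≤ s * om := mul_le_mul_of_nonneg_right has hom
    linarith
  have h3 := mul_le_mul_of_nonneg_left h2 hl0
  have h4 : a * (1 / 2) * (1 - x) ^ (E + 1) ≤ s * (1 / 2) * (1 - x) ^ (E + 1) :=
    mul_le_mul_of_nonneg_right (by linarith) hyp.le
  linarith

/-- the interval `s ≤ 1 / 4` -/
theorem s1_first {E : ℕ} {l om s x : ℝ} (hl0 : 0 ≤ l) (hx0 : 0 ≤ x) (hx1 : x < 1)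
    (hs0 : 0 < s) (h4 : s ≤ 1 / 4)
    (hp : l * (4 / 3 * ((E : ℝ) * (x * (1 - x) ^ (E - 1))) - 1 / 2 * om) ≤
      1 / 2 * (1 - x) ^ (E + 1)) :
    l * ((1 - x) ^ E - (max 0 (1 - x / (1 - s))) ^ E - s * om * (1 / 2)) ≤
      s * (1 / 2) * (1 - x) ^ (E + 1) := by
  have hy : 0 < 1 - x := by linarith
  have hd1 := pow_diff_le hx0 hx1 hs0.le (by linarith : s < 1) E
  obtain ⟨T, hT⟩ : ∃ T : ℝ, T = (E : ℝ) * (x * (1 - x) ^ (E - 1)) := ⟨_, rfl⟩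
  have hT0 : 0 ≤ T := by rw [hT]; positivity
  rw [← hT] at hd1 hp
  have h5 : s / (1 - s) ≤ 4 / 3 * s := by
    rw [div_le_iff₀ (by linarith)]
    nlinarith
  have h6 := mul_le_mul_of_nonneg_right h5 hT0
  have h7 : (1 - x) ^ E - (max 0 (1 - x / (1 - s))) ^ E - s * om * (1 / 2) ≤
      s * (4 / 3 * T - 1 / 2 * om) := by linarith
  have h8 := mul_le_mul_of_nonneg_left h7 hl0
  have h9 := mul_le_mul_of_nonneg_left hp hs0.le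
  linarith

/-- what an entry gives -/
theorem ent_ok {n : ℕ} {e : Ent} (h : okEnt n e = true) {W sg lam : ℝ} (hlam : 0 ≤ lam)
    (N1 : 1 - (e.o : ℝ) / 1000 ≤ lam * ((e.o : ℝ) / 1000 * (W - sg) - 10 * (e.o : ℝ) / e.u * sg))
    (N2 : lam * ((2 - (e.h : ℝ) / 1000) * W + 2 * ((e.h : ℝ) / 1000) * sg) ≤ (e.h : ℝ) / 1000)
    (N3 : lam * (1 / 2) * W ≤ (e.o : ℝ) / 1000 * (1 / 2)) :
    MubOK W sg lam (1 - (e.o : ℝ) / 1000) (10 * (e.o : ℝ) / e.u) ((e.h : ℝ) / 1000) (1 / 2) (1 / 2)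
      ((n : ℝ) / 1000) ((e.u : ℝ) / 10000) e.d := by
  simp only [okEnt, Bool.and_eq_true] at h
  obtain ⟨⟨⟨⟨⟨⟨⟨⟨⟨⟨⟨⟨⟨⟨⟨⟨⟨hd, ho1⟩, ho2⟩, hu1⟩, hu2⟩, hun⟩, hh1⟩, hh2⟩, hn⟩, c1⟩, c2⟩, c3⟩, c4⟩, c5⟩, c6⟩,
    c7⟩, c8⟩, c9⟩ := h
  replace hd := Nat.le_of_ble_eq_true hd
  have ho1 : (800 : ℝ) ≤ e.o := by exact_mod_cast Nat.le_of_ble_eq_true ho1
  have ho2 : (e.o : ℝ) ≤ 1000 := by exact_mod_cast Nat.le_of_ble_eq_true ho2
  have hu1 : (1 : ℝ) ≤ e.u := by exact_mod_cast Nat.le_of_ble_eq_true hu1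
  have hu2 : (e.u : ℝ) ≤ 5000 := by exact_mod_cast Nat.le_of_ble_eq_true hu2
  have hun : (e.u : ℝ) * n ≤ 10000000 := by exact_mod_cast Nat.le_of_ble_eq_true hun
  have hh1 : (1 : ℝ) ≤ e.h := by exact_mod_cast Nat.le_of_ble_eq_true hh1
  have hh2 : (e.h : ℝ) ≤ 2000 := by exact_mod_cast Nat.le_of_ble_eq_true hh2
  have hn1 : 1 ≤ n := le_trans (by norm_num) (Nat.le_of_ble_eq_true hn)
  have hn : (2000 : ℝ) ≤ n := by exact_mod_cast Nat.le_of_ble_eq_true hn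
  obtain ⟨E, hE⟩ : ∃ E, e.d = E + 1 := ⟨e.d - 1, by omega⟩
  have hE1 : e.d - 1 = E := by omega
  obtain ⟨u, hu⟩ : ∃ u : ℝ, u = (e.u : ℝ) / 10000 := ⟨_, rfl⟩
  have hu0 : 0 < u := by rw [hu]; positivity
  have huhalf : u ≤ 1 / 2 := by rw [hu]; linarith
  have hlf : ∀ x, 0 ≤ x → x ≤ u → lf ((n : ℝ) / 1000) x = 1 - (n : ℝ) / 1000 * x ∧
      0 ≤ 1 - (n : ℝ) / 1000 * x := by
    intro x hx0 hx
    have h1 : 0 ≤ 1 - (n : ℝ) / 1000 * x := by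
      rw [hu] at hx
      have h2 : (n : ℝ) * x ≤ n * ((e.u : ℝ) / 10000) := mul_le_mul_of_nonneg_left hx (by linarith)
      linarith
    exact ⟨max_eq_right h1, h1⟩
  have hom : (1 : ℝ) - (1 - (e.o : ℝ) / 1000) = (e.o : ℝ) / 1000 := by ring
  have homp : (0 : ℝ) < (e.o : ℝ) / 1000 := by positivity
  have hM12 : ∀ x : ℝ, 0 < 1 - x → 1 / (1 - x) - (1 - (e.o : ℝ) / 1000) / (1 - x) ^ (E + 1) =
        ((1 - x) ^ E - (1 - (e.o : ℝ) / 1000)) / (1 - x) ^ (E + 1) := by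
    intro x hy
    rw [pow_succ]
    field_simp
  refine ⟨by omega, by linarith, ?_, ?_, hlam, by positivity, by linarith, ?_, ?_, ?_, ?_, ?_, ?_, ?_,
    ?_, ?_, ?_, ?_⟩
  · rw [← hu]; exact hu0
  · have : (e.u : ℝ) / 10000 * ((n : ℝ) / 1000) = (e.u * n) / 10000000 := by ring
    rw [this]
    linarith
  · -- M1
    intro x hx0 hx
    have hx' := hx
    rw [← hu] at hx'
    have hy : 0 < 1 - x := by linarith
    rw [(hlf x hx0 hx').1, hom, hE, hM12 x hy, mul_div_assoc', le_div_iff₀ (by positivity)]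
    exact row_m1 c1 hE hx0 hx
  · -- M1'
    intro x hx0 hx
    have hx' := hx
    rw [← hu] at hx'
    have hy : 0 < 1 - x := by linarith
    rw [(hlf x hx0 hx').1, hom, hE, hM12 x hy, mul_div_assoc', div_le_iff₀ (by positivity)]
    exact row_m1' c2 hE hx0 hx
  · -- M2
    rw [hom]
    refine le_of_eq ?_
    have : (e.u : ℝ) ≠ 0 := by positivity
    field_simp
    norm_num
  · -- M3
    intro x hx0 hx
    have hx' := hx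
    rw [← hu] at hx'
    have hy : 0 < 1 - x := by linarith
    have hyE : 0 < (1 - x) ^ E := by positivity
    have e1 : 1 - (1 - (e.o : ℝ) / 1000) / (1 - x) ^ E =
        ((1 - x) ^ E - (1 - (e.o : ℝ) / 1000)) / (1 - x) ^ E := by
      field_simp
    rw [(hlf x hx0 hx').1, hom, hE1, e1, mul_div_assoc', div_le_iff₀ hyE]
    exact row_m3 c3 hE hx0 hx
  · -- S1
    intro s x hs0 hs1 hx0 hx
    have hx' := hx
    rw [← hu] at hx'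
    obtain ⟨h1, h2⟩ := hlf x hx0 hx'
    have hy : 0 < 1 - x := by linarith
    have hyp : 0 < (1 - x) ^ (E + 1) := by positivity
    rw [h1, hom, hE1, hE, div_mul_eq_mul_div, div_le_iff₀ hyp]
    rcases le_total s (1 / 4) with h4 | h4
    · exact s1_first h2 hx0 (by linarith) hs0 h4 (row_s0 c6 hE hx0 hx)
    rcases le_total s (8 / 25) with h5 | h5
    · exact s1_piece (b := 8 / 25) (c := 25 / 17) (by norm_num)
        (by norm_num) h2 homp.le hx0 (by linarith) (by linarith) h4 h5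
        (row_si (by rw [Ex.ev_q]; norm_num) (by rw [Ex.ev_q]; norm_num) c7 hE hx0 hx)
    rcases le_total s (2 / 5) with h6 | h6
    · exact s1_piece (b := 2 / 5) (c := 5 / 3) (by norm_num)
        (by norm_num) h2 homp.le hx0 (by linarith) (by linarith) h5 h6
        (row_si (by rw [Ex.ev_q]; norm_num) (by rw [Ex.ev_q]; norm_num) c8 hE hx0 hx)
    · exact s1_piece (b := 1 / 2) (c := 2) (by norm_num)
        (by norm_num) h2 homp.le hx0 (by linarith) (by linarith) h6 hs1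
        (row_si (by rw [Ex.ev_q]; norm_num) (ev_two x) c9 hE hx0 hx)
  · -- A0
    intro x hx0 hx
    have hx' := hx
    rw [← hu] at hx'
    have hy : 0 < 1 - x := by linarith
    have hp := row_a0 c4 hE hx0 hx
    rw [(hlf x hx0 hx').1, hE]
    obtain ⟨l, hl⟩ : ∃ l, l = 1 - (n : ℝ) / 1000 * x := ⟨_, rfl⟩
    rw [← hl] at hp ⊢
    have hyE : 0 < (1 - x) ^ (E + 1) := by positivity
    have e1 : 2 * l ^ 2 * (1 + 1 / 2 * x) ^ 2 / (1 - x) =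
        2 * l ^ 2 * (1 + 1 / 2 * x) ^ 2 * (1 - x) ^ E / (1 - x) ^ (E + 1) := by
      rw [pow_succ (1 - x) E]
      field_simp
    have e2 : 2 - (e.h : ℝ) / 1000 + (e.h : ℝ) / 1000 * l / (1 - x) ^ (E + 1) =
        ((2 - (e.h : ℝ) / 1000) * (1 - x) ^ (E + 1) + (e.h : ℝ) / 1000 * l) / (1 - x) ^ (E + 1) := by
      rw [add_div, mul_div_cancel_right₀ _ hyE.ne']
    rw [e1, e2]
    exact div_le_div_of_nonneg_right hp hyE.le
  · -- A0'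
    intro x hx hx1
    have hx2 : 0 ≤ x := by rw [← hu] at hx; linarith
    have hx3 : (n : ℝ) / 1000 * x ≤ 1 := by linarith
    have hxn : x ≤ 1000 / n := by
      rw [le_div_iff₀ (by linarith)]
      linarith
    have h1 : lf ((n : ℝ) / 1000) x = 1 - (n : ℝ) / 1000 * x := max_eq_right (by linarith)
    have hx4 : x ≤ 1 / 2 := by
      refine hxn.trans ?_
      rw [div_le_div_iff₀ (by linarith) (by norm_num)]
      linarith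
    have hy : 0 < 1 - x := by linarith
    rw [h1, div_le_iff₀ hy]
    exact row_a0' c5 hn1 hx hxn
  · -- N0
    rw [hom]
    linarith
  · -- N1
    rw [hom]
    exact N1
  · exact N2
  · rw [hom]
    exact N3

end Pool.Agent.T6A.R5
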