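import Mathlib

set_option autoImplicit false

/-! Cluster structure of a triangle-free graph (Szemeredi regularity), for MP_c6effb_co. -/

namespace Pool.Agent.T6A

open Finset Classical

/-- Number of pairs in `S × T` joined by an edge of `H`. -/
noncomputable def ed {W : Type} (H : SimpleGraph W) (S T : Finset W) : ℕ :=
  ((S ×ˢ T).filter fun p => H.Adj p.1 p.2).card

/-- Cluster structure of `H`: `F` = blocked pairs, `Bd` = bad pairs. -/
structure Clus {W : Type} [Fintype W] (H : SimpleGraph W) (ε : ℝ) (M : ℕ) where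
  ι : Type
  ft : Fintype ι
  C : ι → Finset W
  F : SimpleGraph ι
  Bd : ι → ι → Prop
  few : Fintype.card ι ≤ M
  disj : ∀ i j, i ≠ j → Disjoint (C i) (C j)
  big : ∀ i, (Fintype.card W : ℝ) ≤ 2 * M * (C i).card
  tot : (1 - ε) * (Fintype.card W : ℝ) ≤ ∑ i, ((C i).card : ℝ)
  tri : F.CliqueFree 3
  brefl : ∀ i, Bd i i
  bsymm : ∀ i j, Bd i j → Bd j i
  bsmall : ∀ i, ∑ j ∈ univ.filter (fun j => Bd i j), ((C j).card : ℝ) ≤ ε * Fintype.card W
  sparse : ∀ i j, ¬ F.Adj i j → ¬ Bd i j → (ed H (C i) (C j) : ℝ) ≤ ε * ((C i).card * (C j).card)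
  dense : ∀ i j, F.Adj i j → ∀ S ⊆ C i, ∀ T ⊆ C j, ε * (C i).card ≤ (S.card : ℝ) →
    ε * (C j).card ≤ (T.card : ℝ) → ∃ x ∈ S, ∃ y ∈ T, H.Adj x y

lemma ed_eq {W : Type} (H : SimpleGraph W) (S T : Finset W) :
    ed H S T = (H.interedges S T).card := rfl

theorem reg (ε : ℝ) (hε : 0 < ε) (hε1 : ε ≤ 1 / 8) : ∃ M : ℕ, ∃ n0 : ℕ, ∀ (W : Type) [Fintype W]
    (H : SimpleGraph W), H.CliqueFree 3 → n0 ≤ Fintype.card W → Nonempty (Clus H ε M) := by
  set δ : ℝ := ε ^ 2 / 16 with hδ
  have hδ0 : 0 < δ := by positivity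
  set l : ℕ := ⌈4 / ε⌉₊ + 1 with hl
  refine ⟨SzemerediRegularity.bound δ l, max l (SzemerediRegularity.bound δ l), ?_⟩
  intro W _ H hH hn
  have hnl : l ≤ Fintype.card W := le_trans (le_max_left _ _) hn
  have hnb : SzemerediRegularity.bound δ l ≤ Fintype.card W := le_trans (le_max_right _ _) hn
  obtain ⟨P, hP, hPl, hPb, hPu⟩ := szemeredi_regularity (G := H) (l := l) hδ0 hnl
  set n : ℕ := Fintype.card W with hndef
  set r : ℕ := P.parts.card with hr
  have hrl : (4 / ε : ℝ) ≤ r := by
    have h1 : (4 / ε : ℝ) ≤ ⌈4 / ε⌉₊ := Nat.le_ceil _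
    have h2 : ((⌈4 / ε⌉₊ + 1 : ℕ) : ℝ) ≤ r := by exact_mod_cast hPl
    push_cast at h2; linarith
  have hr0 : (0 : ℝ) < r := lt_of_lt_of_le (by positivity) hrl
  have hr0' : 0 < r := by exact_mod_cast hr0
  have hrn : r ≤ n := le_trans hPb hnb
  have hrn' : (r : ℝ) ≤ n := by exact_mod_cast hrn
  -- sizes of the parts
  have hsz1 : ∀ U ∈ P.parts, (U.card : ℝ) ≤ 2 * n / r := by
    intro U hU
    have h1 := hP.card_part_le_average_add_one hU
    rw [card_univ] at h1
    have h2 : ((n / r : ℕ) : ℝ) ≤ n / r := Nat.cast_div_le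
    have h3 : (U.card : ℝ) ≤ ((n / r : ℕ) : ℝ) + 1 := by exact_mod_cast h1
    have h4 : (1 : ℝ) ≤ n / r := by rw [le_div_iff₀ hr0]; linarith
    have h5 : (2 * n / r : ℝ) = n / r + n / r := by ring
    rw [h5]; linarith
  have hsz2 : ∀ U ∈ P.parts, (n : ℝ) ≤ 2 * SzemerediRegularity.bound δ l * U.card := by
    intro U hU
    have h1 := hP.average_le_card_part hU
    rw [card_univ] at h1
    have h3 : ((n / r : ℕ) : ℝ) ≤ U.card := by exact_mod_cast h1
    have h4 : n < (n / r + 1) * r := by
      have := Nat.lt_div_mul_add (a := n) hr0'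
      rw [add_mul, one_mul]; exact this
    have h5 : 1 ≤ n / r := (Nat.one_le_div_iff hr0').2 hrn
    have h6 : (n : ℝ) ≤ ((n / r : ℕ) + 1 : ℝ) * r := by exact_mod_cast h4.le
    have h7 : (1 : ℝ) ≤ ((n / r : ℕ) : ℝ) := by exact_mod_cast h5
    have h8 : (r : ℝ) ≤ SzemerediRegularity.bound δ l := by exact_mod_cast hPb
    have hUc : (1 : ℝ) ≤ U.card := h7.trans h3
    calc (n : ℝ) ≤ ((n / r : ℕ) + 1 : ℝ) * r := h6
      _ ≤ (2 * U.card) * r := by
          apply mul_le_mul_of_nonneg_right _ hr0.le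
          linarith
      _ ≤ (2 * U.card) * SzemerediRegularity.bound δ l := by
          apply mul_le_mul_of_nonneg_left h8; linarith
      _ = _ := by ring
  -- bad pairs
  let badp : Finset W → Finset W → Prop := fun U V => U = V ∨ ¬ H.IsUniform δ U V
  let nb : Finset W → Finset (Finset W) := fun U => P.parts.filter fun V => badp U V
  let Gd : Finset (Finset W) := P.parts.filter fun U => ((nb U).card : ℝ) ≤ ε / 4 * r + 1
  let Ex : Finset (Finset W) := P.parts.filter fun U => ¬ ((nb U).card : ℝ) ≤ ε / 4 * r + 1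
  have hnu : ((P.nonUniforms H δ).card : ℝ) ≤ δ * (r * r) := by
    have h1 := hPu
    unfold Finpartition.IsUniform at h1
    refine h1.trans ?_
    rw [mul_comm]
    apply mul_le_mul_of_nonneg_left _ hδ0.le
    have : P.parts.card * (P.parts.card - 1) ≤ r * r := Nat.mul_le_mul le_rfl (Nat.sub_le _ _)
    exact_mod_cast this
  have hEx : (Ex.card : ℝ) * (ε / 4 * r) ≤ δ * (r * r) := by
    refine le_trans ?_ hnu
    have h1 : (Ex.sigma fun U => P.parts.filter fun V => U ≠ V ∧ ¬ H.IsUniform δ U V).card ≤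
        (P.nonUniforms H δ).card := by
      apply Finset.card_le_card_of_injOn (fun x => (x.1, x.2))
      · rintro ⟨U, V⟩ hx
        simp only [coe_sigma, Set.mem_sigma_iff, mem_coe, mem_filter, Ex] at hx
        simp only [mem_coe, Finpartition.mk_mem_nonUniforms]
        exact ⟨hx.1.1, hx.2.1, hx.2.2.1, hx.2.2.2⟩
      · rintro ⟨U, V⟩ _ ⟨U', V'⟩ _ h
        simp only [Prod.mk.injEq] at h
        obtain ⟨rfl, rfl⟩ := h
        rfl
    have h2 : (Ex.card : ℝ) * (ε / 4 * r) ≤
        ((Ex.sigma fun U => P.parts.filter fun V => U ≠ V ∧ ¬ H.IsUniform δ U V).card : ℝ) := by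
      rw [card_sigma]
      push_cast
      rw [← nsmul_eq_mul]
      apply card_nsmul_le_sum
      intro U hU
      simp only [Ex, mem_filter, not_le] at hU
      have h3 : nb U ⊆ insert U (P.parts.filter fun V => U ≠ V ∧ ¬ H.IsUniform δ U V) := by
        intro V hV
        simp only [nb, badp, mem_filter] at hV
        simp only [mem_insert, mem_filter]
        by_cases hUV : U = V
        · left; exact hUV.symm
        · right
          exact ⟨hV.1, hUV, hV.2.resolve_left hUV⟩
      have h4 := card_le_card h3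
      have h5 := h4.trans (card_insert_le _ _)
      have h6 : ((nb U).card : ℝ) ≤
          ((P.parts.filter fun V => U ≠ V ∧ ¬ H.IsUniform δ U V).card : ℝ) + 1 := by
        exact_mod_cast h5
      linarith [hU.2]
    exact h2.trans (by exact_mod_cast h1)
  have hEx' : (Ex.card : ℝ) ≤ ε / 4 * r := by
    have h1 : (Ex.card : ℝ) * (ε / 4 * r) ≤ (ε / 4 * r) * (ε / 4 * r) := by
      refine hEx.trans (le_of_eq ?_)
      rw [hδ]; ring
    exact le_of_mul_le_mul_right h1 (by positivity)
  refine ⟨{ ι := {U // U ∈ Gd}, ft := inferInstance, C := fun U => U.1,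
            F := ⟨fun U V => U ≠ V ∧ H.IsUniform δ U.1 V.1 ∧ 2 * δ ≤ (H.edgeDensity U.1 V.1 : ℝ),
              ⟨fun U V h => ⟨h.1.symm, h.2.1.symm, by
                rw [SimpleGraph.edgeDensity_comm]; exact h.2.2⟩⟩, ⟨fun U h => h.1 rfl⟩⟩,
            Bd := fun U V => badp U.1 V.1, few := ?_, disj := ?_, big := ?_, tot := ?_, tri := ?_,
            brefl := ?_, bsymm := ?_, bsmall := ?_, sparse := ?_, dense := ?_ }⟩
  · rw [Fintype.card_coe]
    exact (card_le_card (filter_subset _ _)).trans hPb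
  · intro U V hUV
    have hU : U.1 ∈ P.parts := (mem_filter.1 U.2).1
    have hV : V.1 ∈ P.parts := (mem_filter.1 V.2).1
    exact P.disjoint hU hV (fun h => hUV (Subtype.ext h))
  · intro U
    exact hsz2 U.1 (mem_filter.1 U.2).1
  · have h1 : ∑ U ∈ P.parts, (U.card : ℝ) = n := by
      have := P.sum_card_parts
      rw [card_univ] at this
      exact_mod_cast this
    have h2 : ∑ U ∈ P.parts, (U.card : ℝ) = ∑ U ∈ Gd, (U.card : ℝ) + ∑ U ∈ Ex, (U.card : ℝ) :=
      (sum_filter_add_sum_filter_not _ _ _).symm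
    have h3 : ∑ U ∈ Ex, (U.card : ℝ) ≤ ε * n := by
      calc ∑ U ∈ Ex, (U.card : ℝ) ≤ ∑ U ∈ Ex, (2 * n / r : ℝ) :=
            sum_le_sum fun U hU => hsz1 U (mem_filter.1 hU).1
        _ = Ex.card * (2 * n / r) := by rw [sum_const, nsmul_eq_mul]
        _ ≤ (ε / 4 * r) * (2 * n / r) := by
            apply mul_le_mul_of_nonneg_right hEx'; positivity
        _ = ε * n / 2 := by field_simp; ring
        _ ≤ ε * n := by
            have : 0 ≤ ε * n := by positivity
            linarith
    have h4 : ∑ U : {U // U ∈ Gd}, (U.1.card : ℝ) = ∑ U ∈ Gd, (U.card : ℝ) :=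
      Finset.sum_coe_sort Gd fun U => (U.card : ℝ)
    rw [h4]
    nlinarith
  · intro s hs
    obtain ⟨a, b, c, hab, hac, hbc, rfl⟩ := SimpleGraph.is3Clique_iff.1 hs
    have h := SimpleGraph.triangle_counting (G := H) (ε := δ) (s := a.1) (t := b.1) (u := c.1)
      hab.2.2 hab.2.1 (P.disjoint (mem_filter.1 a.2).1 (mem_filter.1 b.2).1
        (fun h => hab.1 (Subtype.ext h)))
      hac.2.2 hac.2.1 (P.disjoint (mem_filter.1 a.2).1 (mem_filter.1 c.2).1
        (fun h => hac.1 (Subtype.ext h)))
      hbc.2.2 hbc.2.1 (P.disjoint (mem_filter.1 b.2).1 (mem_filter.1 c.2).1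
        (fun h => hbc.1 (Subtype.ext h)))
    have h0 : (H.cliqueFinset 3) = ∅ := SimpleGraph.cliqueFinset_eq_empty_iff.2 hH
    rw [h0, card_empty, Nat.cast_zero] at h
    have ha : (0 : ℝ) < a.1.card := by
      have := (P.nonempty_of_mem_parts (mem_filter.1 a.2).1).card_pos
      exact_mod_cast this
    have hb : (0 : ℝ) < b.1.card := by
      have := (P.nonempty_of_mem_parts (mem_filter.1 b.2).1).card_pos
      exact_mod_cast this
    have hc : (0 : ℝ) < c.1.card := by
      have := (P.nonempty_of_mem_parts (mem_filter.1 c.2).1).card_pos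
      exact_mod_cast this
    have h1 : (0 : ℝ) < 1 - 2 * δ := by
      rw [hδ]; nlinarith
    have : 0 < (1 - 2 * δ) * δ ^ 3 * a.1.card * b.1.card * c.1.card := by positivity
    linarith
  · intro U
    exact Or.inl rfl
  · intro U V h
    rcases h with h | h
    · exact Or.inl h.symm
    · exact Or.inr fun h' => h h'.symm
  · intro U
    have hU := mem_filter.1 U.2
    have h1 : ∑ V ∈ univ.filter (fun V : {U // U ∈ Gd} => badp U.1 V.1), ((V.1).card : ℝ) ≤
        ∑ V ∈ nb U.1, (V.card : ℝ) := by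
      have hmap := Finset.sum_map (univ.filter (fun V : {U // U ∈ Gd} => badp U.1 V.1))
        (Function.Embedding.subtype _) (fun V : Finset W => (V.card : ℝ))
      simp only [Function.Embedding.subtype_apply] at hmap
      rw [← hmap]
      apply sum_le_sum_of_subset_of_nonneg
      · intro V hV
        simp only [mem_map, mem_filter, mem_univ, true_and, Function.Embedding.subtype_apply,
          Subtype.exists] at hV
        obtain ⟨V', hV', hb, rfl⟩ := hV
        simp only [nb, mem_filter]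
        exact ⟨(mem_filter.1 hV').1, hb⟩
      · intro V _ _; positivity
    refine le_trans (le_of_eq (Finset.sum_congr (Finset.ext fun V => by
      simp only [mem_filter]) fun _ _ => rfl)) (h1.trans ?_)
    calc ∑ V ∈ nb U.1, (V.card : ℝ) ≤ ∑ V ∈ nb U.1, (2 * n / r : ℝ) :=
          sum_le_sum fun V hV => hsz1 V (mem_filter.1 hV).1
      _ = (nb U.1).card * (2 * n / r) := by rw [sum_const, nsmul_eq_mul]
      _ ≤ (ε / 4 * r + 1) * (2 * n / r) := by
          apply mul_le_mul_of_nonneg_right hU.2; positivity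
      _ ≤ (ε / 4 * r + ε / 4 * r) * (2 * n / r) := by
          apply mul_le_mul_of_nonneg_right _ (by positivity)
          have : (1 : ℝ) ≤ ε / 4 * r := by
            have h5 : (4 / ε) * (ε / 4) ≤ r * (ε / 4) :=
              mul_le_mul_of_nonneg_right hrl (by positivity)
            have h6 : (4 / ε) * (ε / 4) = 1 := by field_simp
            linarith
          linarith
      _ = ε * n := by field_simp; ring
  · intro U V hF hB
    have hB' : ¬ (U.1 = V.1) ∧ H.IsUniform δ U.1 V.1 := by
      constructor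
      · intro h; exact hB (Or.inl h)
      · by_contra h; exact hB (Or.inr h)
    have h1 : (H.edgeDensity U.1 V.1 : ℝ) < 2 * δ := by
      by_contra h
      exact hF ⟨fun h' => hB'.1 (congrArg _ h'), hB'.2, not_lt.1 h⟩
    rw [SimpleGraph.edgeDensity_def] at h1
    push_cast at h1
    have hU : (0 : ℝ) < U.1.card := by
      have := (P.nonempty_of_mem_parts (mem_filter.1 U.2).1).card_pos
      exact_mod_cast this
    have hV : (0 : ℝ) < V.1.card := by
      have := (P.nonempty_of_mem_parts (mem_filter.1 V.2).1).card_pos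
      exact_mod_cast this
    rw [div_lt_iff₀ (by positivity)] at h1
    have h2 : 2 * δ ≤ ε := by rw [hδ]; nlinarith
    have h3 : (ed H U.1 V.1 : ℝ) = ((H.interedges U.1 V.1).card : ℝ) := by rw [ed_eq]
    rw [h3]
    refine h1.le.trans ?_
    apply mul_le_mul_of_nonneg_right h2; positivity
  · intro U V hF S hS T hT hSc hTc
    have hU : (0 : ℝ) < U.1.card := by
      have := (P.nonempty_of_mem_parts (mem_filter.1 U.2).1).card_pos
      exact_mod_cast this
    have hV : (0 : ℝ) < V.1.card := by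
      have := (P.nonempty_of_mem_parts (mem_filter.1 V.2).1).card_pos
      exact_mod_cast this
    have hδε : δ ≤ ε := by rw [hδ]; nlinarith
    have h1 := hF.2.1 hS hT (by nlinarith) (by nlinarith)
    have h2 : (0 : ℝ) < (H.edgeDensity S T : ℝ) := by
      rw [abs_sub_lt_iff] at h1
      linarith [hF.2.2]
    by_contra hcon
    push Not at hcon
    have h3 : H.interedges S T = ∅ := by
      rw [Finset.eq_empty_iff_forall_notMem]
      rintro ⟨x, y⟩ hxy
      rw [SimpleGraph.mem_interedges_iff] at hxy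
      exact hcon x hxy.1 y hxy.2.1 hxy.2.2
    rw [SimpleGraph.edgeDensity_def, h3] at h2
    simp at h2

end Pool.Agent.T6A
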