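import Pool.Agent.T6A.RuleFin
import Pool.Agent.T6A.RuleBad

/-!
# RULE (MP_c6effb_co, T6-A): the random rule exists for all bounded rates
-/

set_option autoImplicit false
set_option linter.unusedSectionVars false

open Finset Filter Topology

namespace Pool.Agent.T6A

noncomputable section

namespace RF

theorem exists_S {δ : ℝ} (hδ : 0 < δ) : ∃ S : ℝ, 0 < S ∧ (S + 2) * Real.exp (-S) ≤ δ := by
  have h1 : Tendsto (fun x : ℝ => x ^ 1 * Real.exp (-x) + 2 * (x ^ 0 * Real.exp (-x))) atTop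
      (𝓝 (0 + 2 * 0)) :=
    (Real.tendsto_pow_mul_exp_neg_atTop_nhds_zero 1).add
      ((Real.tendsto_pow_mul_exp_neg_atTop_nhds_zero 0).const_mul 2)
  have h2 : (0 : ℝ) + 2 * 0 < δ := by linarith
  obtain ⟨S, hS, hS0⟩ := ((h1.eventually (gt_mem_nhds h2)).and (eventually_gt_atTop 0)).exists
  refine ⟨S, hS0, ?_⟩
  have e1 : (S + 2) * Real.exp (-S) = S ^ 1 * Real.exp (-S) + 2 * (S ^ 0 * Real.exp (-S)) := by
    ring
  rw [e1]
  exact hS.le

end RF

open Classical in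
/-- **RULE** -/
theorem ruleStmt : RuleStmt := by
  intro K R δ hδ
  obtain ⟨S, hS0, hS⟩ := RF.exists_S (half_pos hδ)
  obtain ⟨N, hN0, hN⟩ := RI.main_S (max R 1) (δ / 2) S (half_pos hδ) hS0 K
  obtain ⟨he0, heC, hmain⟩ := hN N le_rfl
  set e : ℝ := S / N with he
  have hC1 : (1 : ℝ) ≤ max R 1 := le_max_right _ _
  have he1 : e ≤ 1 := by
    have : e * 1 ≤ e * max R 1 := mul_le_mul_of_nonneg_left hC1 he0.le
    linarith
  refine ⟨(K + 1) * (K + 1) * ((K + 1) * (K + 1)), epsB K N R δ, epsB_pos K N R hδ, ?_⟩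
  intro V ι _ _ X L Bd μ r hd hsymm hrefl hbd hAv hμ0 hμ1 hμA hμw hr0 hrB hrw hrs
  have hrC : ∀ v, ∑ y, r v y ≤ max R 1 := fun v => (hrs v).trans (le_max_left _ _)
  have hq : ∀ v, e * ∑ y, r v y ≤ 1 := fun v => by
    have := mul_le_mul_of_nonneg_left (hrC v) he0.le
    linarith
  have hK : ∀ v, #(nbh L.G v) ≤ K := fun v => hd v
  obtain ⟨hbad, hzv⟩ := rule_bad (N := N) hδ he0.le he1 X L Bd μ r hd hsymm hbd hAv hμ0 hμ1 hμA
    hμw hr0 hrw hq le_rfl (RF.br X.F L.G L.Bv) (fun ω v y h => RF.br_prop h)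
  refine ⟨ι × (Fin N → Option ι), inferInstance, RF.pr N e μ r, RF.gr, RF.br X.F L.G L.Bv,
    RF.N2 L.G, ?_⟩
  refine
    { law := RF.isLaw_pr hμ0 hμ1 he0.le hr0 hq
      loc := RF.loc
      ov := RF.ov hK
      mem := fun ω v y h => RF.br_mem h
      st := fun ω v y h u hu => RF.br_st h hu
      tt := fun ω v y u y' h h' hu => RF.br_tt h h' hu
      gm := RF.gm hμ0 hμ1 he0.le hr0 hq
      low := ?_
      bad := hbad
      zv := hzv }
  intro v a y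
  have hm : ∀ (s : Finset V) (X' : ℝ) (N' M : V → ℝ), #s ≤ K → 0 ≤ X' → X' ≤ max R 1 →
      (∀ u ∈ s, 0 ≤ N' u) → (∀ u ∈ s, 0 ≤ M u) → (∀ u ∈ s, N' u + M u ≤ max R 1) →
      2 - X' - (∑ u ∈ s, N' u / (1 + M u)) - δ ≤
        ∑ t ∈ range N, e * ((1 - e * X') ^ t *
          ∏ u ∈ s, RI.surv (e * N' u) (e * (N' u + M u)) t) := by
    intro s X' N' M h1 h2 h3 h4 h5 h6
    have h7 := hmain V s X' N' M h1 h2 h3 h4 h5 h6
    linarith
  exact RF.low hμ0 hμ1 he0.le hδ.le hr0 hrB hq hm hrC hK v a y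

end

end Pool.Agent.T6A
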