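import Pool.Agent.T6A.Rule
import Pool.Agent.T6A.Expect

/-!
# The concrete scheme of the rule (MP_c6effb_co, T6-A, R1-R3)

`Om = ι × (Fin R → Option ι)`: a position and the proposals in the `R` slots; `pr` is the law
(position with law `μ`, in every slot the proposal `y` with probability `e * r v y`), `gg` the
position, `bb` the place of the vertex in `T` (`none` if it is not in `T`), `Bn` the ball of radius
`2`.

* R1: `law`, `loc`, `ov`, `mem`, `st`, `tt`, `prop`;
* R2: `R2`, the lower bound of `P(g_v = a, b_v = some y)`;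
* R3: `R3`, the upper bound of `P(b_v = some y)`.
-/

set_option autoImplicit false
set_option linter.unusedSectionVars false

open Finset

namespace Pool.Agent.T6A

namespace RS

variable {V ι : Type} [Fintype V] [DecidableEq V] [Fintype ι] [DecidableEq ι] {R : ℕ}
variable (F : SimpleGraph ι) [DecidableRel F.Adj] (G : SimpleGraph V) [DecidableRel G.Adj]

/-- local data: the position and the proposals -/
abbrev Loc (ι : Type) (R : ℕ) : Type := ι × (Fin R → Option ι)

/-- the law of the local data -/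
noncomputable def pr (R : ℕ) (μ : ι → ℝ) (e : ℝ) (r : V → ι → ℝ) : V → Loc ι R → ℝ :=
  pair (fun _ => μ) (pp R e r)

/-- the position -/
def gg (ω : V → Loc ι R) (v : V) : ι := (ω v).1

open Classical in
/-- the list of the valid positions -/
noncomputable def LL (Bv : V → Finset ι) (g : V → ι) (v : V) : Finset ι :=
  univ.filter fun y => y ∈ Bv v ∧ InL F (nbh G v) y g

/-- the place of `v` in `T` -/
noncomputable def bb (Bv : V → Finset ι) (ω : V → Loc ι R) (v : V) : Option ι :=
  pos G F (LL F G Bv (gg ω)) (fun u => (ω u).2) v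

/-- the ball of radius `1` -/
def B1 (v : V) : Finset V := insert v (nbh G v)

/-- the ball of radius `2` -/
def Bn (v : V) : Finset V := (B1 G v).biUnion (B1 G)

variable {F G} {μ : ι → ℝ} {e : ℝ} {r : V → ι → ℝ} {Bv : V → Finset ι}

theorem law (h0 : ∀ x, 0 ≤ μ x) (h1 : ∑ x, μ x = 1) (he : 0 ≤ e) (hr : ∀ v b, 0 ≤ r v b)
    (her : ∀ v, e * ∑ b, r v b ≤ 1) : IsLaw (pr (V := V) R μ e r) :=
  isLaw_pair ⟨fun _ x => h0 x, fun _ => h1⟩ (isLaw_pp he hr her)

theorem mem_LL {g : V → ι} {v : V} {y : ι} :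
    y ∈ LL F G Bv g v ↔ y ∈ Bv v ∧ InL F (nbh G v) y g := by
  unfold LL; simp

theorem mem (ω : V → Loc ι R) (v : V) (y : ι) (h : bb F G Bv ω v = some y) : y ∈ Bv v :=
  (mem_LL.1 (pos_mem h)).1

theorem prop (ω : V → Loc ι R) (v : V) (y : ι) (h : bb F G Bv ω v = some y) :
    ∃ t, (ω v).2 t = some y := pos_prop (π := fun u => (ω u).2) h

theorem st (ω : V → Loc ι R) (v : V) (y : ι) (h : bb F G Bv ω v = some y) (u : V)
    (hu : G.Adj v u) : ¬ F.Adj y (gg ω u) := fun hF =>
  (mem_LL.1 (pos_mem h)).2 u (mem_nbh.2 hu) hF.symm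

theorem tt (ω : V → Loc ι R) (v : V) (y : ι) (u : V) (y' : ι) (h : bb F G Bv ω v = some y)
    (h' : bb F G Bv ω u = some y') (hu : G.Adj v u) : ¬ F.Adj y y' := pos_legal h h' hu

theorem mem_B1 {u v : V} : u ∈ B1 G v ↔ u = v ∨ G.Adj v u := by
  unfold B1; rw [mem_insert, mem_nbh]

theorem mem_Bn {u v : V} : u ∈ Bn G v ↔ ∃ w, w ∈ B1 G v ∧ u ∈ B1 G w := by
  unfold Bn; rw [mem_biUnion]

theorem B1_symm {u v : V} (h : u ∈ B1 G v) : v ∈ B1 G u := by
  rw [mem_B1] at h ⊢
  exact h.imp Eq.symm fun h => h.symm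

theorem Bn_symm {u v : V} (h : u ∈ Bn G v) : v ∈ Bn G u := by
  rw [mem_Bn] at h ⊢
  obtain ⟨w, h1, h2⟩ := h
  exact ⟨w, B1_symm h2, B1_symm h1⟩

theorem LL_congr {g g' : V → ι} {v : V} (h : ∀ u, G.Adj v u → g u = g' u) :
    LL F G Bv g v = LL F G Bv g' v := by
  ext y
  rw [mem_LL, mem_LL]
  refine and_congr_right fun _ => ?_
  unfold InL
  refine forall_congr' fun w => forall_congr' fun hw => ?_
  rw [h w (mem_nbh.1 hw)]

theorem loc (v : V) : DepOn (fun ω : V → Loc ι R => (gg ω v, bb F G Bv ω v)) (Bn G v) := by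
  intro ω ω' h
  have hself : ∀ u : V, u ∈ B1 G u := fun u => mem_B1.2 (Or.inl rfl)
  have hB : ∀ u ∈ B1 G v, ω u = ω' u := fun u hu => h u (mem_Bn.2 ⟨u, hu, hself u⟩)
  have hv : ω v = ω' v := hB v (hself v)
  refine Prod.ext ?_ ?_
  · change (ω v).1 = (ω' v).1
    rw [hv]
  · change bb F G Bv ω v = bb F G Bv ω' v
    have hL : ∀ u ∈ B1 G v, LL F G Bv (gg ω) u = LL F G Bv (gg ω') u := by
      intro u hu
      refine LL_congr fun w hw => ?_
      change (ω w).1 = (ω' w).1
      rw [h w (mem_Bn.2 ⟨u, hu, mem_B1.2 (Or.inr hw)⟩)]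
    refine pos_congr (hL v (hself v)) ?_ (fun u hu => hL u (mem_B1.2 (Or.inr hu))) fun u hu => ?_
    · rw [hv]
    · rw [hB u (mem_B1.2 (Or.inr hu))]

theorem card_B1 {K : ℕ} (hK : ∀ v, #(nbh G v) ≤ K) (v : V) : #(B1 G v) ≤ K + 1 :=
  (card_insert_le _ _).trans (Nat.add_le_add_right (hK v) 1)

theorem card_Bn {K : ℕ} (hK : ∀ v, #(nbh G v) ≤ K) (v : V) : #(Bn G v) ≤ (K + 1) * (K + 1) := by
  unfold Bn
  refine (card_biUnion_le_card_mul _ _ (K + 1) fun u _ => card_B1 hK u).trans ?_
  exact Nat.mul_le_mul_right _ (card_B1 hK v)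

open Classical in
theorem ov {K : ℕ} (hK : ∀ v, #(nbh G v) ≤ K) (v : V) :
    #{u | ¬ Disjoint (Bn G v) (Bn G u)} ≤ (K + 1) * (K + 1) * ((K + 1) * (K + 1)) := by
  have hsub : (univ.filter fun u => ¬ Disjoint (Bn G v) (Bn G u)) ⊆ (Bn G v).biUnion (Bn G) := by
    intro u hu
    obtain ⟨x, hx, hx'⟩ := not_disjoint_iff.1 (mem_filter.1 hu).2
    exact mem_biUnion.2 ⟨x, hx, Bn_symm hx'⟩
  refine (card_le_card hsub).trans ?_
  refine (card_biUnion_le_card_mul _ _ ((K + 1) * (K + 1)) fun u _ => card_Bn hK u).trans ?_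
  exact Nat.mul_le_mul_right _ (card_Bn hK v)

/-! ### The sums over the lists -/

theorem ite_LL (hB : ∀ v y, y ∉ Bv v → r v y = 0) (g : V → ι) (v : V) (y : ι) :
    (if y ∈ LL F G Bv g v then r v y else 0) = r v y * il F (nbh G v) y g := by
  by_cases hy : y ∈ Bv v
  · by_cases hi : InL F (nbh G v) y g
    · rw [if_pos (mem_LL.2 ⟨hy, hi⟩), il_eq_one hi, mul_one]
    · rw [if_neg fun h => hi (mem_LL.1 h).2, il_eq_zero hi, mul_zero]
  · rw [if_neg fun h => hy (mem_LL.1 h).1, hB v y hy, zero_mul]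

theorem sum_LL (hB : ∀ v y, y ∉ Bv v → r v y = 0) (g : V → ι) (v : V) :
    ∑ c ∈ LL F G Bv g v, r v c = Xk F G r v g := by
  unfold Xk
  have h : ∑ c, (if c ∈ LL F G Bv g v then r v c else 0) = ∑ c ∈ LL F G Bv g v, r v c := by
    rw [sum_ite_mem, univ_inter]
  rw [← h]
  exact sum_congr rfl fun c _ => ite_LL hB g v c

theorem sum_P (hB : ∀ v y, y ∉ Bv v → r v y = 0) (g : V → ι) (v : V) (P : ι → Prop)
    [DecidablePred P] : ∑ c ∈ (LL F G Bv g v).filter P, r v c =
      ∑ c, if P c then r v c * il F (nbh G v) c g else 0 := by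
  rw [sum_filter]
  have h : ∑ c, (if c ∈ LL F G Bv g v then (if P c then r v c else 0) else 0) =
      ∑ c ∈ LL F G Bv g v, if P c then r v c else 0 := by
    rw [sum_ite_mem, univ_inter]
  rw [← h]
  refine sum_congr rfl fun c _ => ?_
  by_cases hP : P c
  · simp only [if_pos hP]
    exact ite_LL hB g v c
  · simp only [if_neg hP, ite_self]

theorem sum_N (hB : ∀ v y, y ∉ Bv v → r v y = 0) (g : V → ι) (u : V) (b : ι)
    [DecidablePred fun c => F.Adj b c] :
    ∑ c ∈ (LL F G Bv g u).filter (fun c => F.Adj b c), r u c = Nk F G r u b g := by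
  rw [sum_P hB]
  unfold Nk
  exact sum_congr rfl fun c _ => by congr

theorem sum_M (hB : ∀ v y, y ∉ Bv v → r v y = 0) (g : V → ι) (u : V) (b : ι)
    [DecidablePred fun c => ¬ F.Adj b c] :
    ∑ c ∈ (LL F G Bv g u).filter (fun c => ¬ F.Adj b c), r u c = Mk F G r u b g := by
  rw [sum_P hB]
  unfold Mk
  refine sum_congr rfl fun c _ => ?_
  by_cases h : F.Adj b c
  · rw [if_pos h, if_neg (not_not.2 h)]
  · rw [if_neg h, if_pos h]

/-- the lower bound given the positions -/
noncomputable def Lb (F : SimpleGraph ι) [DecidableRel F.Adj] (G : SimpleGraph V)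
    [DecidableRel G.Adj] (r : V → ι → ℝ) (δ : ℝ) (v : V) (y : ι) (g : V → ι) : ℝ :=
  r v y * (il F (nbh G v) y g * (2 - δ - Xk F G r v g -
    ∑ u ∈ nbh G v, Nk F G r u y g / (1 + Mk F G r u y g)))

/-- (R2) -/
theorem R2 {C δ : ℝ} {Δ : ℕ} (h0 : ∀ x, 0 ≤ μ x) (h1 : ∑ x, μ x = 1) (he : 0 ≤ e)
    (hr : ∀ v b, 0 ≤ r v b) (her : ∀ v, e * ∑ b, r v b ≤ 1) (hB : ∀ v y, y ∉ Bv v → r v y = 0)
    (hmain : ∀ (s : Finset V) (X : ℝ) (N M : V → ℝ), #s ≤ Δ → 0 ≤ X → X ≤ C →
      (∀ u ∈ s, 0 ≤ N u) → (∀ u ∈ s, 0 ≤ M u) → (∀ u ∈ s, N u + M u ≤ C) →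
      2 - X - (∑ u ∈ s, N u / (1 + M u)) - δ ≤
        ∑ t ∈ range R, e * ((1 - e * X) ^ t * ∏ u ∈ s, RI.surv (e * N u) (e * (N u + M u)) t))
    (hC : ∀ v, ∑ b, r v b ≤ C) (hΔ : ∀ v, #(nbh G v) ≤ Δ) (v : V) (a y : ι)
    [∀ ω : V → Loc ι R, Decidable (gg ω v = a ∧ bb F G Bv ω v = some y)] :
    μ a * EE (fun _ => μ) (fun g => Lb F G r δ v y (Function.update g v a)) ≤
      EE (pr R μ e r) (fun ω => if gg ω v = a ∧ bb F G Bv ω v = some y then 1 else 0) := by
  classical
  have hnb : ∀ (v : V) (inst : DecidablePred fun u => G.Adj v u),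
      @filter V (fun u => G.Adj v u) inst univ = nbh G v := fun v inst => by
    unfold nbh; congr
  have hal : IsLaw (fun _ : V => μ) := ⟨fun _ x => h0 x, fun _ => h1⟩
  have h := rule_ge (F := F) (G := G) (R := R) hal he hr her hmain hC
    (fun v => by rw [hnb]; exact hΔ v) (LL F G Bv) (fun g => if g v = a then 1 else 0)
    (fun g => by split_ifs <;> norm_num) v y
  refine le_trans (le_of_eq ?_) (h.trans (le_of_eq ?_))
  · refine Eq.trans ?_ (EE_coord hal v _).symm
    rw [sum_eq_single a]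
    · congr 1
      refine congrArg (EE _) (funext fun g => ?_)
      rw [Function.update_self, if_pos rfl, one_mul]
      unfold Lb
      set g' := Function.update g v a with hg'
      have hX := sum_LL (F := F) (G := G) hB g' v
      rw [hnb, hX]
      have hN : ∀ (u : V) (inst : DecidablePred fun c => F.Adj y c),
          ∑ c ∈ @filter ι (fun c => F.Adj y c) inst (LL F G Bv g' u), r u c =
          Nk F G r u y g' := fun u inst => sum_N hB g' u y
      have hM : ∀ (u : V) (inst : DecidablePred fun c => ¬ F.Adj y c),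
          ∑ c ∈ @filter ι (fun c => ¬ F.Adj y c) inst (LL F G Bv g' u), r u c =
          Mk F G r u y g' := fun u inst => sum_M hB g' u y
      simp only [hN, hM]
      have h2 := ite_LL (F := F) (G := G) hB g' v y
      by_cases hy : y ∈ LL F G Bv g' v
      · rw [if_pos hy] at h2 ⊢
        have h3 : r v y * (il F (nbh G v) y g' * (2 - δ - Xk F G r v g' -
            ∑ u ∈ nbh G v, Nk F G r u y g' / (1 + Mk F G r u y g'))) =
            (r v y * il F (nbh G v) y g') * (2 - δ - Xk F G r v g' -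
            ∑ u ∈ nbh G v, Nk F G r u y g' / (1 + Mk F G r u y g')) := by ring
        rw [h3, ← h2]
        ring
      · rw [if_neg hy] at h2 ⊢
        rw [← mul_assoc, ← h2, zero_mul]
    · intro x _ hx
      refine mul_eq_zero_of_right _ ?_
      unfold EE
      refine sum_eq_zero fun g _ => ?_
      refine mul_eq_zero_of_right _ ?_
      simp only [Function.update_self]
      rw [if_neg hx, zero_mul]
    · intro h'
      exact absurd (mem_univ a) h'
  · unfold pr
    refine congrArg (EE _) (funext fun ω => ?_)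
    unfold pi
    change (if (ω v).1 = a then (1 : ℝ) else 0) * (if bb F G Bv ω v = some y then 1 else 0) = _
    have hgg : (ω v).1 = gg ω v := rfl
    rw [hgg]
    by_cases hg : gg ω v = a
    · by_cases hb : bb F G Bv ω v = some y
      · rw [if_pos hg, if_pos hb, if_pos ⟨hg, hb⟩, one_mul]
      · rw [if_neg hb, mul_zero]
        exact (if_neg fun h => hb h.2).symm
    · rw [if_neg hg, zero_mul]
      exact (if_neg fun h => hg h.1).symm

/-- (R3) -/
theorem R3 (h0 : ∀ x, 0 ≤ μ x) (h1 : ∑ x, μ x = 1) (he : 0 ≤ e) (hr : ∀ v b, 0 ≤ r v b)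
    (her : ∀ v, e * ∑ b, r v b ≤ 1) (v : V) (y : ι)
    [∀ ω : V → Loc ι R, Decidable (bb F G Bv ω v = some y)] :
    EE (pr R μ e r) (fun ω => if bb F G Bv ω v = some y then 1 else 0) ≤
      (R * e) * r v y * (1 - nb F μ y) ^ #(nbh G v) := by
  classical
  have hal : IsLaw (fun _ : V => μ) := ⟨fun _ x => h0 x, fun _ => h1⟩
  have hpp : IsLaw (pp (V := V) R e r) := isLaw_pp he hr her
  have hlaw : IsLaw (pr (V := V) R μ e r) := law h0 h1 he hr her
  have hpt : ∀ ω : V → Loc ι R, (if bb F G Bv ω v = some y then (1 : ℝ) else 0) ≤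
      il F (nbh G v) y (gg ω) * ∑ t, if (ω v).2 t = some y then 1 else 0 := by
    intro ω
    have hs : (0 : ℝ) ≤ ∑ t : Fin R, if (ω v).2 t = some y then (1 : ℝ) else 0 :=
      sum_nonneg fun t _ => by split_ifs <;> norm_num
    split_ifs with hb
    · have hi : InL F (nbh G v) y (gg ω) := (mem_LL.1 (pos_mem hb)).2
      rw [il_eq_one hi, one_mul]
      obtain ⟨t, ht⟩ := prop ω v y hb
      have h8 := single_le_sum (f := fun t => if (ω v).2 t = some y then (1 : ℝ) else 0)
        (fun t _ => by split_ifs <;> norm_num) (mem_univ t)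
      have h9 : (if (ω v).2 t = some y then (1 : ℝ) else 0) = 1 := if_pos ht
      linarith
    · exact mul_nonneg (il_nonneg _ _ _) hs
  refine (EE_mono hlaw hpt).trans ?_
  unfold pr
  rw [EE_loc]
  have h2 : ∀ g : V → ι, EE (pp R e r) (fun π => il F (nbh G v) y (gg (R := R) fun w => (g w, π w)) *
      ∑ t, if ((fun w => (g w, π w)) v).2 t = some y then 1 else 0) =
      il F (nbh G v) y g * (R * (e * r v y)) := by
    intro g
    have h3 : (fun π : V → Fin R → Option ι => il F (nbh G v) y (gg (R := R) fun w => (g w, π w)) *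
        ∑ t, if ((fun w => (g w, π w)) v).2 t = some y then (1 : ℝ) else 0) =
        fun π => il F (nbh G v) y g * ∑ t, if π v t = some y then (1 : ℝ) else 0 := by
      funext π; rfl
    rw [h3, EE_smul, EE_sum]
    congr 1
    have h4 : ∀ t : Fin R, EE (pp (V := V) R e r) (fun π => if π v t = some y then (1 : ℝ) else 0) =
        e * r v y := by
      intro t
      have h5 := EE_single hpp v fun x : Fin R → Option ι => if x t = some y then (1 : ℝ) else 0
      refine h5.trans ?_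
      have h6 := EE_single (isLaw_pq (R := R) he (hr v) (her v)) t
        fun z : Option ι => if z = some y then (1 : ℝ) else 0
      rw [sum_pq_some] at h6
      exact h6
    rw [sum_congr rfl fun t _ => h4 t, sum_const, card_univ, Fintype.card_fin, nsmul_eq_mul]
  refine le_of_eq ?_
  have h7 : (fun g : V → ι => EE (pp R e r) (fun π => il F (nbh G v) y
      (gg (R := R) fun w => (g w, π w)) *
      ∑ t, if ((fun w => (g w, π w)) v).2 t = some y then (1 : ℝ) else 0)) =
      fun g => il F (nbh G v) y g * (R * (e * r v y)) := funext h2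
  rw [h7, EE_mul_const, EE_il h0 h1]
  ring

end RS

end Pool.Agent.T6A
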