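import Pool.Agent.T6A.ChkTop

/-!
# The profiles of the certificate on `9/4 ≤ Q ≤ 10` (MP_c6effb_co, CERT v3; table of helper22, checker of helper21, helper37, helper81)
-/

set_option autoImplicit false
set_option maxRecDepth 100000

namespace Pool.Agent.T6A.Chk.TabB

open Pool.Agent.T6A.Chk

/-- the factor -/
def al0 : Af := ⟨0, 2850, 4900, 13000⟩

/-- menu `0`, degree `0` -/
def m0_0 : List Pf := [
  ⟨0, al0, 8400, 10000, 5000, 0, 0, 10500, 1, 1, 0, 0, 0, 0, 0, 0, 0, 0, 0, 0, 0, 0, 0, 0⟩]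

theorem m0_0_ok : okDeg al0 8400 0 m0_0 = true := by decide +kernel

/-- menu `0`, degree `1` -/
def m0_1 : List Pf := [
  ⟨1, al0, 8400, 10000, 9600, 10410, 10156, 10585, 9999, 10001, 0, 0, 0, 0, 0, 0, 0, 0, 0, 0, 0,
    0, 0, 0⟩]

theorem m0_1_ok : okDeg al0 8400 1 m0_1 = true := by decide +kernel

/-- menu `0`, degree `2` -/
def m0_2 : List Pf := [
  ⟨2, al0, 8400, 10000, 9600, 6324, 20311, 12581, 10783, 10785, 0, 0, 0, 0, 0, 0, 0, 0, 0, 0, 0,
    0, 0, 0⟩]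

theorem m0_2_ok : okDeg al0 8400 2 m0_2 = true := by decide +kernel

/-- menu `0`, degree `3` -/
def m0_3 : List Pf := [
  ⟨3, al0, 8400, 10000, 7283, 5424, 30466, 14403, 16899, 16902, 0, 0, 0, 0, 0, 0, 0, 0, 0, 0, 0,
    0, 0, 0⟩,
  ⟨3, al0, 8400, 10000, 7283, 5424, 30466, 14403, 16899, 16902, 0, 0, 0, 0, 0, 0, 0, 0, 0, 0, 0,
    0, 0, 0⟩]

theorem m0_3_ok : okDeg al0 8400 3 m0_3 = true := by decide +kernel

/-- menu `0`, degree `4` -/
def m0_4 : List Pf := [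
  ⟨4, al0, 8400, 10000, 6219, 4524, 40621, 16110, 22198, 22201, 0, 0, 0, 0, 0, 0, 0, 0, 0, 0, 0,
    0, 0, 0⟩,
  ⟨4, al0, 8400, 10000, 6219, 4524, 40621, 16110, 22198, 22201, 0, 0, 0, 0, 0, 0, 0, 0, 0, 0, 0,
    0, 0, 0⟩,
  ⟨4, al0, 8400, 8927, 6219, 5124, 35784, 16260, 22198, 22201, 4863, 2762, 6165, 13891, 8927,
    8276, 0, 13512, 7890, 0, 0, 46818, 0, 10579⟩,
  ⟨4, al0, 8400, 8629, 6219, 5124, 34538, 16384, 22198, 22201, 4863, 3348, 5281, 12377, 8629,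
    8956, 0, 13108, 7746, 0, 0, 48546, 0, 10533⟩,
  ⟨4, al0, 8400, 8446, 6219, 5124, 33794, 16468, 22198, 22201, 4648, 3517, 4929, 12534, 8446,
    9238, 0, 13683, 6889, 0, 0, 49573, 0, 10503⟩,
  ⟨4, al0, 8400, 8308, 5719, 5124, 33243, 16621, 24303, 24306, 4471, 3673, 4635, 12514, 8308,
    9387, 0, 14111, 6324, 0, 0, 50066, 0, 10452⟩,
  ⟨4, al0, 8400, 8220, 6219, 5724, 32897, 16306, 22198, 22201, 4365, 3761, 4459, 12724, 8220,
    9548, 0, 15292, 4981, 0, 0, 51672, 0, 10561⟩]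

theorem m0_4_ok : okDeg al0 8400 4 m0_4 = true := by decide +kernel

/-- menu `0`, degree `5` -/
def m0_5 : List Pf := [
  ⟨5, al0, 8400, 10000, 6056, 4164, 50776, 17637, 24488, 24491, 0, 0, 0, 0, 0, 0, 0, 0, 0, 0, 0,
    0, 0, 0⟩,
  ⟨5, al0, 8400, 9165, 6056, 4764, 46012, 17753, 24488, 24491, 4648, 2526, 6639, 15384, 9165,
    8168, 0, 11888, 9982, 0, 5000, 42420, 0, 10183⟩,
  ⟨5, al0, 8400, 8911, 6056, 4764, 44645, 17877, 24488, 24491, 4260, 2968, 5943, 15668, 8911,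
    8850, 0, 12231, 8829, 0, 0, 55342, 0, 10164⟩,
  ⟨5, al0, 8400, 8723, 5556, 4764, 43658, 18061, 27278, 27281, 4018, 3181, 5542, 15990, 8723,
    9170, 0, 13058, 7621, 0, 0, 56693, 0, 10137⟩,
  ⟨5, al0, 8400, 8557, 5556, 4764, 42804, 18133, 27278, 27281, 3847, 3340, 5217, 16299, 8557,
    9400, 0, 13687, 6766, 0, 0, 58082, 0, 10128⟩,
  ⟨5, al0, 8400, 8369, 5556, 4764, 41857, 18217, 27278, 27281, 3645, 3563, 4806, 16495, 8369,
    9594, 0, 14357, 5932, 0, 0, 59643, 0, 10117⟩,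
  ⟨5, al0, 8400, 8236, 5556, 4764, 41199, 18282, 27278, 27281, 3545, 3686, 4550, 16766, 8236,
    9695, 0, 14628, 5592, 0, 0, 60729, 0, 10110⟩,
  ⟨5, al0, 8400, 8137, 5556, 4764, 40717, 18335, 27278, 27281, 3446, 3818, 4319, 16796, 8137,
    9755, 0, 14900, 5279, 0, 0, 61524, 0, 10104⟩]

theorem m0_5_ok : okDeg al0 8400 5 m0_5 = true := by decide +kernel

/-- menu `0`, degree `6` -/
def m0_6 : List Pf := [
  ⟨6, al0, 8400, 10000, 5750, 4110, 60931, 19145, 27524, 27527, 0, 0, 0, 0, 0, 0, 0, 0, 0, 0, 0,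
    0, 0, 0⟩,
  ⟨6, al0, 8400, 9270, 5250, 4110, 55905, 19584, 31038, 31041, 4156, 2275, 6995, 18419, 9270,
    8110, 0, 11946, 9981, 0, 12500, 27524, 0, 10025⟩,
  ⟨6, al0, 8400, 8684, 5250, 4710, 52147, 19659, 31038, 31041, 3347, 3232, 5452, 19765, 8684,
    9444, 0, 13482, 6952, 0, 0, 66381, 0, 10024⟩,
  ⟨6, al0, 8400, 8369, 5250, 4710, 50228, 19814, 31038, 31041, 3056, 3502, 4867, 20662, 8369,
    9725, 0, 14434, 5774, 0, 0, 69764, 0, 10021⟩,
  ⟨6, al0, 8400, 8175, 5250, 4710, 49081, 19917, 31038, 31041, 2897, 3718, 4457, 21032, 8175,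
    9823, 0, 14885, 5258, 0, 0, 71822, 0, 10021⟩]

theorem m0_6_ok : okDeg al0 8400 6 m0_6 = true := by decide +kernel

/-- menu `0`, degree `7` -/
def m0_7 : List Pf := [
  ⟨7, al0, 8400, 10000, 4985, 3786, 71085, 20869, 34793, 34796, 0, 0, 0, 0, 0, 0, 0, 0, 0, 0, 0,
    0, 0, 0⟩,
  ⟨7, al0, 8400, 9038, 4985, 3786, 63452, 21377, 34793, 34796, 3446, 2454, 6584, 23500, 9038,
    9001, 0, 11054, 9989, 0, 10000, 36572, 0, 10020⟩,
  ⟨7, al0, 8400, 8419, 4985, 4386, 58949, 21508, 34793, 34796, 2647, 3395, 5024, 24537, 8419,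
    9761, 0, 14285, 5905, 0, 0, 79110, 0, 10020⟩,
  ⟨7, al0, 8400, 8181, 4485, 3786, 57302, 21949, 39391, 39394, 2495, 3786, 4395, 24939, 8181,
    9850, 0, 14492, 5642, 0, 0, 81625, 0, 10020⟩]

theorem m0_7_ok : okDeg al0 8400 7 m0_7 = true := by decide +kernel

/-- menu `0`, degree `8` -/
def m0_8 : List Pf := [
  ⟨8, al0, 8400, 10000, 4434, 3186, 81240, 22642, 42035, 42038, 0, 0, 0, 0, 0, 0, 0, 0, 0, 0, 0,
    0, 0, 0⟩,
  ⟨8, al0, 8400, 8883, 4434, 3786, 71194, 23071, 42035, 42038, 2897, 2642, 6241, 28211, 8883,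
    9393, 0, 11670, 8919, 0, 7500, 49200, 0, 10020⟩,
  ⟨8, al0, 8400, 8303, 4434, 3786, 66446, 23434, 42035, 42038, 2255, 3485, 4818, 29088, 8303,
    9845, 0, 14325, 5815, 0, 0, 90636, 0, 10020⟩,
  ⟨8, al0, 8400, 8087, 4434, 3786, 64760, 23575, 42035, 42038, 2108, 3839, 4248, 29436, 8087,
    9850, 0, 14808, 5322, 0, 0, 93913, 0, 10020⟩]

theorem m0_8_ok : okDeg al0 8400 8 m0_8 = true := by decide +kernel

/-- menu `0`, degree `9` -/
def m0_9 : List Pf := [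
  ⟨9, al0, 8400, 10000, 4094, 3186, 91395, 24176, 48215, 48218, 0, 0, 0, 0, 0, 0, 0, 0, 0, 0, 0,
    0, 0, 0⟩,
  ⟨9, al0, 8400, 8767, 4094, 3786, 78996, 24728, 48215, 48218, 2464, 2786, 5981, 32616, 8767,
    9602, 0, 12429, 7935, 0, 7500, 54595, 0, 10020⟩,
  ⟨9, al0, 8400, 8225, 4094, 3786, 74061, 25084, 48215, 48218, 1936, 3542, 4683, 33625, 8225,
    9850, 0, 14607, 5526, 0, 0, 102541, 0, 10020⟩]

theorem m0_9_ok : okDeg al0 8400 9 m0_9 = true := by decide +kernel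

/-- menu `0`, degree `10` -/
def m0_10 : List Pf := [
  ⟨10, al0, 8400, 9574, 3890, 3300, 96586, 25910, 53274, 53277, 2992, 1628, 7946, 28287, 9574,
    7645, 0, 12409, 9980, 0, 17500, 30, 0, 10020⟩,
  ⟨10, al0, 8400, 8645, 3890, 3300, 86518, 26525, 53274, 53277, 1993, 3116, 5529, 35186, 8645,
    9737, 0, 13544, 6681, 0, 5000, 73637, 0, 10020⟩,
  ⟨10, al0, 8400, 8242, 3890, 3900, 82456, 26615, 53274, 53277, 1767, 3666, 4576, 37334, 8242,
    9850, 0, 14534, 5600, 0, 0, 113033, 0, 10020⟩]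

theorem m0_10_ok : okDeg al0 8400 10 m0_10 = true := by decide +kernel

/-- menu `0`, degree `11` -/
def m0_11 : List Pf := [
  ⟨11, al0, 8400, 9475, 3584, 3300, 105009, 27512, 60691, 60694, 2555, 1858, 7617, 32052, 9475,
    8278, 0, 11776, 9985, 0, 17500, 30, 0, 10020⟩,
  ⟨11, al0, 8400, 8618, 3584, 3900, 94854, 27923, 60691, 60694, 1795, 3310, 5308, 38794, 8618,
    9789, 0, 13763, 6422, 0, 5000, 80189, 0, 10020⟩,
  ⟨11, al0, 8400, 8236, 3584, 3900, 90640, 28194, 60691, 60694, 1603, 3667, 4569, 41561, 8236,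
    9850, 0, 14557, 5576, 0, 0, 123918, 0, 10020⟩]

theorem m0_11_ok : okDeg al0 8400 11 m0_11 = true := by decide +kernel

/-- menu `0`, degree `12` -/
def m0_12 : List Pf := [
  ⟨12, al0, 8400, 9425, 3625, 3300, 113880, 29020, 62064, 62067, 2284, 1786, 7639, 36108, 9425,
    8574, 0, 11479, 9989, 0, 15000, 6539, 0, 10020⟩,
  ⟨12, al0, 8400, 8579, 3625, 3900, 102998, 29473, 62064, 62067, 1630, 3424, 5155, 42796, 8579,
    9827, 0, 13874, 6284, 0, 5000, 86970, 0, 10020⟩,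
  ⟨12, al0, 8400, 8236, 3625, 3300, 98877, 29925, 62064, 62067, 1469, 3727, 4509, 45508, 8236,
    9850, 0, 14503, 5631, 0, 0, 134462, 0, 10020⟩]

theorem m0_12_ok : okDeg al0 8400 12 m0_12 = true := by decide +kernel

/-- menu `0`, degree `13` -/
def m0_13 : List Pf := [
  ⟨13, al0, 8400, 9502, 3125, 3300, 124498, 30517, 75475, 75478, 2225, 1456, 8046, 38669, 9502,
    8364, 0, 11689, 9987, 0, 15000, 2092, 0, 10020⟩,
  ⟨13, al0, 8400, 8557, 3125, 3300, 111289, 31228, 75475, 75478, 1496, 3484, 5073, 46712, 8557,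
    9845, 0, 13861, 6286, 0, 5000, 93221, 0, 10020⟩,
  ⟨13, al0, 8400, 8225, 3125, 3900, 106976, 31319, 75475, 75478, 1338, 3728, 4497, 49822, 8225,
    9850, 0, 14665, 5467, 0, 0, 145823, 0, 10020⟩]

theorem m0_13_ok : okDeg al0 8400 13 m0_13 = true := by decide +kernel

/-- menu `0`, degree `14` -/
def m0_14 : List Pf := [
  ⟨14, al0, 8400, 9364, 3125, 3414, 131904, 32034, 78104, 78107, 1908, 1708, 7656, 43632, 9364,
    8903, 0, 11149, 9992, 0, 15000, 3735, 0, 10020⟩,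
  ⟨14, al0, 8400, 8435, 3125, 3414, 118122, 32789, 78104, 78107, 1338, 3286, 5149, 52908, 8435,
    9850, 0, 14169, 5970, 0, 5000, 102769, 0, 10020⟩,
  ⟨14, al0, 8400, 8126, 3125, 4014, 113856, 32877, 78104, 78107, 1211, 3780, 4346, 54903, 8126,
    9850, 0, 14837, 5292, 0, 0, 159678, 0, 10020⟩]

theorem m0_14_ok : okDeg al0 8400 14 m0_14 = true := by decide +kernel

/-- menu `0`, degree `15` -/
def m0_15 : List Pf := [
  ⟨15, al0, 8400, 9480, 3166, 2976, 143278, 33525, 79303, 79306, 1908, 1701, 7779, 44182, 9480,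
    8589, 0, 11463, 9990, 0, 15000, 30, 0, 10020⟩,
  ⟨15, al0, 8400, 8590, 2666, 3576, 128915, 34179, 94137, 94140, 1313, 3248, 5342, 54911, 8590,
    9850, 0, 13850, 6294, 0, 7500, 82371, 0, 10020⟩,
  ⟨15, al0, 8400, 8198, 2666, 4176, 123046, 34357, 94137, 94140, 1161, 3732, 4466, 58645, 8198,
    9850, 0, 14683, 5448, 0, 0, 168504, 0, 10020⟩]

theorem m0_15_ok : okDeg al0 8400 15 m0_15 = true := by decide +kernel

/-- menu `0`, degree `16` -/
def m0_16 : List Pf := [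
  ⟨16, al0, 8400, 9375, 2819, 3360, 150944, 34981, 92383, 92386, 1685, 2071, 7304, 48419, 9375,
    8971, 0, 11083, 9990, 0, 15000, 30, 0, 10020⟩,
  ⟨16, al0, 8400, 8562, 2819, 3360, 137056, 35681, 92383, 92386, 1211, 3346, 5216, 58789, 8562,
    9850, 0, 14000, 6142, 0, 7500, 87506, 0, 10020⟩,
  ⟨16, al0, 8400, 8198, 2819, 3360, 131241, 36012, 92383, 92386, 1087, 3730, 4468, 62797, 8198,
    9850, 0, 14665, 5467, 0, 0, 179279, 0, 10020⟩]

theorem m0_16_ok : okDeg al0 8400 16 m0_16 = true := by decide +kernel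

/-- menu `0`, degree `17` -/
def m0_17 : List Pf := [
  ⟨17, al0, 8400, 9414, 2860, 3246, 161120, 36415, 93597, 93600, 1630, 1636, 7778, 52118, 9414,
    8908, 0, 11144, 9992, 0, 15000, 30, 0, 10020⟩,
  ⟨17, al0, 8400, 8452, 2860, 3846, 143724, 37121, 93597, 93600, 1111, 3140, 5312, 65569, 8452,
    9850, 0, 14222, 5916, 0, 5000, 121241, 0, 10020⟩,
  ⟨17, al0, 8400, 8109, 2360, 3246, 137975, 37672, 111768, 111771, 990, 3786, 4323, 67849, 8109,
    9850, 0, 14849, 5280, 0, 0, 193391, 0, 10020⟩]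

theorem m0_17_ok : okDeg al0 8400 17 m0_17 = true := by decide +kernel

/-- menu `0`, degree `18` -/
def m0_18 : List Pf := [
  ⟨18, al0, 8400, 9508, 2728, 3415, 172525, 37724, 100970, 100973, 1630, 1658, 7850, 52471, 9508,
    8660, 0, 11392, 9990, 0, 15000, 30, 0, 10020⟩,
  ⟨18, al0, 8400, 8579, 2728, 3415, 154496, 38581, 100970, 100973, 1087, 3165, 5414, 67041, 8579,
    9850, 0, 13992, 6150, 0, 7500, 95438, 0, 10020⟩,
  ⟨18, al0, 8400, 8187, 2728, 3415, 147452, 38957, 100970, 100973, 966, 3725, 4462, 71667, 8187,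
    9850, 0, 14706, 5425, 0, 0, 201784, 0, 10020⟩]

theorem m0_18_ok : okDeg al0 8400 18 m0_18 = true := by decide +kernel

/-- menu `0`, degree `19` -/
def m0_19 : List Pf := [
  ⟨19, al0, 8400, 9381, 2360, 2921, 179373, 39430, 119108, 119111, 1443, 1696, 7685, 59154, 9381,
    9058, 0, 11100, 9876, 0, 15000, 30, 0, 10020⟩,
  ⟨19, al0, 8400, 8391, 2360, 3521, 159470, 40209, 119108, 119111, 966, 3200, 5191, 74137, 8391,
    9850, 0, 14421, 5714, 0, 5000, 136161, 0, 10020⟩,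
  ⟨19, al0, 8400, 8093, 2360, 2921, 153913, 40650, 119108, 119111, 873, 3776, 4317, 77379, 8093,
    9850, 0, 14963, 5164, 0, 0, 216516, 0, 10020⟩]

theorem m0_19_ok : okDeg al0 8400 19 m0_19 = true := by decide +kernel

/-- menu `0`, degree `20` -/
def m0_20 : List Pf := [
  ⟨20, al0, 8400, 9447, 2228, 2815, 190294, 40817, 128683, 128686, 1417, 1587, 7860, 60504, 9447,
    8913, 0, 11138, 9993, 0, 12500, 11937, 0, 10020⟩,
  ⟨20, al0, 8400, 8546, 2228, 3415, 170989, 41539, 128683, 128686, 966, 3279, 5267, 75006, 8546,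
    9850, 0, 14118, 6022, 0, 7500, 105316, 0, 10020⟩,
  ⟨20, al0, 8400, 8192, 2228, 4015, 163933, 41747, 128683, 128686, 873, 3712, 4480, 80406, 8192,
    9850, 0, 14741, 5390, 0, 0, 223889, 0, 10020⟩]

theorem m0_20_ok : okDeg al0 8400 20 m0_20 = true := by decide +kernel

/-- menu `0`, degree `21` -/
def m0_21 : List Pf := [
  ⟨21, al0, 8400, 9425, 2372, 3112, 199300, 42126, 125054, 125057, 1338, 1626, 7799, 64255, 9425,
    9013, 0, 11038, 9994, 0, 12500, 12043, 0, 10020⟩,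
  ⟨21, al0, 8400, 8463, 2372, 3712, 177773, 42948, 125054, 125057, 896, 3136, 5327, 81363, 8463,
    9850, 0, 14327, 5810, 0, 7500, 113456, 0, 10020⟩]

theorem m0_21_ok : okDeg al0 8400 21 m0_21 = true := by decide +kernel

/-- menu `0`, degree `22` -/
def m0_22 : List Pf := [
  ⟨22, al0, 8400, 9502, 2440, 3112, 210688, 43442, 124438, 124441, 1338, 1680, 7822, 64352, 9502,
    8817, 0, 11234, 9993, 0, 12500, 7456, 0, 10020⟩,
  ⟨22, al0, 8400, 8557, 2440, 3112, 188334, 44414, 124438, 124441, 873, 3045, 5512, 84520, 8557,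
    9850, 0, 14201, 5938, 0, 10000, 81992, 0, 10020⟩]

theorem m0_22_ok : okDeg al0 8400 22 m0_22 = true := by decide +kernel

/-- menu `0`, degree `23` -/
def m0_23 : List Pf := [
  ⟨23, al0, 8400, 9414, 1940, 3112, 217985, 44987, 155750, 155753, 1211, 1847, 7567, 69575, 9414,
    9087, 0, 11222, 9710, 0, 12500, 10860, 0, 10020⟩,
  ⟨23, al0, 8400, 8607, 1940, 1912, 198070, 46095, 155750, 155753, 850, 3336, 5271, 85907, 8607,
    9850, 0, 14050, 6091, 0, 7500, 115066, 0, 10020⟩]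

theorem m0_23_ok : okDeg al0 8400 23 m0_23 = true := by decide +kernel

/-- menu `0`, degree `24` -/
def m0_24 : List Pf := [
  ⟨24, al0, 8400, 9447, 1940, 3112, 228386, 46309, 159888, 159891, 1186, 1598, 7849, 72653, 9447,
    9028, 0, 11062, 9951, 0, 12500, 8273, 0, 10020⟩,
  ⟨24, al0, 8400, 8612, 1940, 3712, 206805, 47061, 159888, 159891, 827, 3426, 5186, 88900, 8612,
    9850, 0, 14053, 6088, 0, 7500, 119389, 0, 10020⟩]

theorem m0_24_ok : okDeg al0 8400 24 m0_24 = true := by decide +kernel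

/-- menu `0`, degree `25` -/
def m0_25 : List Pf := [
  ⟨25, al0, 8400, 9442, 2025, 2827, 237731, 47710, 158250, 158253, 1136, 1605, 7837, 75854, 9442,
    9063, 0, 11137, 9830, 0, 12500, 7629, 0, 10020⟩,
  ⟨25, al0, 8400, 8585, 2025, 2827, 214731, 48658, 158250, 158253, 782, 3454, 5131, 93002, 8585,
    9850, 0, 14142, 5998, 0, 7500, 124916, 0, 10020⟩]

theorem m0_25_ok : okDeg al0 8400 25 m0_25 = true := by decide +kernel

/-- menu `0`, degree `26` -/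
def m0_26 : List Pf := [
  ⟨26, al0, 8400, 9375, 1850, 3112, 245284, 49114, 174033, 174036, 1063, 1712, 7663, 81709, 9375,
    9237, 0, 11467, 9288, 0, 12500, 10586, 0, 10020⟩,
  ⟨26, al0, 8400, 8574, 1850, 3712, 223028, 49871, 174033, 174036, 759, 3442, 5132, 98128, 8574,
    9850, 0, 14130, 6010, 0, 7500, 129971, 0, 10020⟩]

theorem m0_26_ok : okDeg al0 8400 26 m0_26 = true := by decide +kernel

/-- menu `0`, degree `27` -/
def m0_27 : List Pf := [
  ⟨27, al0, 8400, 9442, 1850, 3112, 256744, 50378, 178077, 178080, 1063, 1793, 7649, 81611, 9442,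
    9105, 0, 11145, 9776, 0, 12500, 5814, 0, 10020⟩,
  ⟨27, al0, 8400, 8629, 1850, 2512, 233131, 51439, 178077, 178080, 737, 3414, 5215, 99860, 8629,
    9850, 0, 14063, 6078, 0, 10000, 91181, 0, 10020⟩]

theorem m0_27_ok : okDeg al0 8400 27 m0_27 = true := by decide +kernel

/-- menu `0`, degree `28` -/
def m0_28 : List Pf := [
  ⟨28, al0, 8400, 9381, 1751, 2815, 264339, 51875, 189774, 189777, 990, 1892, 7489, 86771, 9381,
    9255, 0, 11520, 9213, 0, 12500, 8705, 0, 10020⟩]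

theorem m0_28_ok : okDeg al0 8400 28 m0_28 = true := by decide +kernel

/-- menu `0`, degree `29` -/
def m0_29 : List Pf := [
  ⟨29, al0, 8400, 9414, 1940, 3218, 274911, 53057, 178357, 178360, 966, 1852, 7562, 88073, 9414,
    9205, 0, 11495, 9290, 0, 12500, 5809, 0, 10020⟩]

theorem m0_29_ok : okDeg al0 8400 29 m0_29 = true := by decide +kernel

/-- menu `0`, degree `30` -/
def m0_30 : List Pf := [
  ⟨30, al0, 8400, 9469, 1842, 3063, 286244, 54363, 190089, 190092, 966, 1912, 7557, 88230, 9469,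
    9087, 0, 11197, 9738, 0, 12500, 1270, 0, 10020⟩]

theorem m0_30_ok : okDeg al0 8400 30 m0_30 = true := by decide +kernel

/-- menu `0`, degree `31` -/
def m0_31 : List Pf := [
  ⟨31, al0, 8400, 9442, 1568, 3218, 294791, 55742, 218728, 218731, 919, 2292, 7150, 90346, 9442,
    9169, 0, 11405, 9424, 0, 12500, 2170, 0, 10020⟩]

theorem m0_31_ok : okDeg al0 8400 31 m0_31 = true := by decide +kernel

/-- menu `0`, degree `32` -/
def m0_32 : List Pf := [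
  ⟨32, al0, 8400, 9491, 1590, 3230, 306057, 56981, 221232, 221235, 919, 2252, 7239, 91073, 9491,
    9059, 0, 11139, 9832, 0, 12500, 30, 0, 10020⟩]

theorem m0_32_ok : okDeg al0 8400 32 m0_32 = true := by decide +kernel

/-- menu `0`, degree `33` -/
def m0_33 : List Pf := [
  ⟨33, al0, 8400, 9458, 1568, 3218, 314392, 58335, 227859, 227862, 873, 2428, 7030, 94699, 9458,
    9158, 0, 11382, 9461, 0, 12500, 30, 0, 10020⟩]

theorem m0_33_ok : okDeg al0 8400 33 m0_33 = true := by decide +kernel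

/-- menu `0`, degree `34` -/
def m0_34 : List Pf := [
  ⟨34, al0, 8400, 9497, 1568, 3218, 325416, 59584, 232256, 232259, 873, 2340, 7157, 96377, 9497,
    9074, 0, 11129, 9827, 0, 12500, 30, 0, 10020⟩]

theorem m0_34_ok : okDeg al0 8400 34 m0_34 = true := by decide +kernel

/-- menu `0`, degree `35` -/
def m0_35 : List Pf := [
  ⟨35, al0, 8400, 9519, 1568, 2172, 336012, 61069, 236546, 236549, 850, 2321, 7198, 97840, 9519,
    9018, 0, 11109, 9910, 0, 12500, 30, 0, 10020⟩]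

theorem m0_35_ok : okDeg al0 8400 35 m0_35 = true := by decide +kernel

/-- menu `0`, degree `36` -/
def m0_36 : List Pf := [
  ⟨36, al0, 8400, 9475, 1590, 2618, 343818, 62331, 238203, 238206, 804, 2399, 7076, 102921, 9475,
    9152, 0, 11432, 9412, 0, 12500, 30, 0, 10020⟩]

theorem m0_36_ok : okDeg al0 8400 36 m0_36 = true := by decide +kernel

/-- menu `0`, degree `37` -/
def m0_37 : List Pf := [
  ⟨37, al0, 8400, 9508, 1590, 2618, 354701, 63583, 242181, 242184, 804, 2328, 7180, 103849, 9508,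
    9078, 0, 11201, 9743, 0, 12500, 30, 0, 10020⟩]

theorem m0_37_ok : okDeg al0 8400 37 m0_37 = true := by decide +kernel

/-- menu `0`, degree `38` -/
def m0_38 : List Pf := [
  ⟨38, al0, 8400, 9464, 1339, 2815, 362309, 64933, 277291, 277294, 759, 2409, 7055, 109074, 9464,
    9200, 800, 10050, 9996, 0, 12500, 30, 0, 10020⟩]

theorem m0_38_ok : okDeg al0 8400 38 m0_38 = true := by decide +kernel

/-- menu `0`, degree `39` -/
def m0_39 : List Pf := [
  ⟨39, al0, 8400, 9497, 1339, 2618, 373271, 66204, 282320, 282323, 759, 2337, 7160, 110376, 9497,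
    9129, 0, 11312, 9567, 0, 12500, 30, 0, 10020⟩]

theorem m0_39_ok : okDeg al0 8400 39 m0_39 = true := by decide +kernel

/-- menu `0`, degree `40` -/
def m0_40 : List Pf := [
  ⟨40, al0, 8400, 9525, 1339, 2772, 384110, 67407, 287258, 287261, 759, 2271, 7254, 112435, 9525,
    9067, 0, 11104, 9862, 0, 12500, 30, 0, 10020⟩]

theorem m0_40_ok : okDeg al0 8400 40 m0_40 = true := by decide +kernel

/-- menu `0`, degree `41` -/
def m0_41 : List Pf := [
  ⟨41, al0, 8400, 9480, 1339, 2921, 391647, 68704, 292108, 292111, 715, 2381, 7099, 117093, 9480,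
    9192, 0, 11480, 9319, 0, 12500, 30, 0, 10020⟩]

theorem m0_41_ok : okDeg al0 8400 41 m0_41 = true := by decide +kernel

/-- menu `0`, degree `42` -/
def m0_42 : List Pf := [
  ⟨42, al0, 8400, 9513, 1339, 3075, 402884, 69889, 296870, 296873, 715, 2301, 7212, 118477, 9513,
    9122, 0, 11289, 9600, 0, 12500, 30, 0, 10020⟩]

theorem m0_42_ok : okDeg al0 8400 42 m0_42 = true := by decide +kernel

/-- menu `0`, degree `43` -/
def m0_43 : List Pf := [
  ⟨43, al0, 8400, 9480, 1339, 2970, 411053, 71219, 301548, 301551, 671, 2354, 7126, 124542, 9480,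
    9211, 800, 10160, 9865, 0, 12500, 30, 0, 10020⟩]

theorem m0_43_ok : okDeg al0 8400 43 m0_43 = true := by decide +kernel

/-- menu `0`, degree `44` -/
def m0_44 : List Pf := [
  ⟨44, al0, 8400, 9497, 1339, 2618, 421226, 72536, 306141, 306144, 671, 2341, 7156, 124580, 9497,
    9178, 0, 11495, 9317, 0, 12500, 30, 0, 10020⟩]

theorem m0_44_ok : okDeg al0 8400 44 m0_44 = true := by decide +kernel

/-- menu `0`, degree `45` -/
def m0_45 : List Pf := [
  ⟨45, al0, 8400, 9469, 1263, 2921, 429274, 73785, 322850, 322853, 650, 2371, 7098, 130078, 9469,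
    9253, 800, 10075, 9912, 0, 12500, 30, 0, 10020⟩]

theorem m0_45_ok : okDeg al0 8400 45 m0_45 = true := by decide +kernel

/-- menu `0`, degree `46` -/
def m0_46 : List Pf := [
  ⟨46, al0, 8400, 9497, 1263, 2921, 440371, 74994, 327700, 327703, 650, 2308, 7189, 131797, 9497,
    9197, 0, 11437, 9361, 0, 12500, 30, 0, 10020⟩]

theorem m0_46_ok : okDeg al0 8400 46 m0_46 = true := by decide +kernel

/-- menu `0`, degree `47` -/
def m0_47 : List Pf := [
  ⟨47, al0, 8400, 9519, 1263, 2921, 451239, 76208, 332473, 332476, 650, 2265, 7254, 134092, 9519,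
    9151, 0, 11261, 9600, 0, 12500, 30, 0, 10020⟩]

theorem m0_47_ok : okDeg al0 8400 47 m0_47 = true := by decide +kernel

/-- menu `0`, degree `48` -/
def m0_48 : List Pf := [
  ⟨48, al0, 8400, 9475, 1263, 2921, 458217, 77536, 337169, 337172, 607, 2372, 7103, 137730, 9475,
    9263, 800, 10215, 9750, 0, 12500, 30, 0, 10020⟩]

theorem m0_48_ok : okDeg al0 8400 48 m0_48 = true := by decide +kernel

/-- menu `0`, degree `49` -/
def m0_49 : List Pf := [
  ⟨49, al0, 8400, 9502, 1263, 2921, 469378, 78733, 341791, 341794, 607, 2309, 7193, 138941, 9502,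
    9207, 800, 10043, 9996, 0, 12500, 30, 0, 10020⟩]

theorem m0_49_ok : okDeg al0 8400 49 m0_49 = true := by decide +kernel

/-- the menu -/
def M0 : Menu := ⟨al0, 8400, [
  m0_0, m0_1, m0_2, m0_3, m0_4, m0_5, m0_6, m0_7, m0_8, m0_9, m0_10, m0_11, m0_12, m0_13,
  m0_14, m0_15, m0_16, m0_17, m0_18, m0_19, m0_20, m0_21, m0_22, m0_23, m0_24, m0_25, m0_26,
  m0_27, m0_28, m0_29, m0_30, m0_31, m0_32, m0_33, m0_34, m0_35, m0_36, m0_37, m0_38, m0_39,
  m0_40, m0_41, m0_42, m0_43, m0_44, m0_45, m0_46, m0_47, m0_48, m0_49]⟩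

theorem M0_ok : MOK M0.al M0.xi 0 M0.ps :=
  mok_cons m0_0_ok <|
  mok_cons m0_1_ok <|
  mok_cons m0_2_ok <|
  mok_cons m0_3_ok <|
  mok_cons m0_4_ok <|
  mok_cons m0_5_ok <|
  mok_cons m0_6_ok <|
  mok_cons m0_7_ok <|
  mok_cons m0_8_ok <|
  mok_cons m0_9_ok <|
  mok_cons m0_10_ok <|
  mok_cons m0_11_ok <|
  mok_cons m0_12_ok <|
  mok_cons m0_13_ok <|
  mok_cons m0_14_ok <|
  mok_cons m0_15_ok <|
  mok_cons m0_16_ok <|
  mok_cons m0_17_ok <|
  mok_cons m0_18_ok <|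
  mok_cons m0_19_ok <|
  mok_cons m0_20_ok <|
  mok_cons m0_21_ok <|
  mok_cons m0_22_ok <|
  mok_cons m0_23_ok <|
  mok_cons m0_24_ok <|
  mok_cons m0_25_ok <|
  mok_cons m0_26_ok <|
  mok_cons m0_27_ok <|
  mok_cons m0_28_ok <|
  mok_cons m0_29_ok <|
  mok_cons m0_30_ok <|
  mok_cons m0_31_ok <|
  mok_cons m0_32_ok <|
  mok_cons m0_33_ok <|
  mok_cons m0_34_ok <|
  mok_cons m0_35_ok <|
  mok_cons m0_36_ok <|
  mok_cons m0_37_ok <|
  mok_cons m0_38_ok <|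
  mok_cons m0_39_ok <|
  mok_cons m0_40_ok <|
  mok_cons m0_41_ok <|
  mok_cons m0_42_ok <|
  mok_cons m0_43_ok <|
  mok_cons m0_44_ok <|
  mok_cons m0_45_ok <|
  mok_cons m0_46_ok <|
  mok_cons m0_47_ok <|
  mok_cons m0_48_ok <|
  mok_cons m0_49_ok <|
  mok_nil _ _ _

/-- the factor -/
def al1 : Af := ⟨0, 0, 4900, 10000⟩

/-- menu `1`, degree `0` -/
def m1_0 : List Pf := [
  ⟨0, al1, 10000, 10000, 5000, 0, 0, 10500, 1, 1, 0, 0, 0, 0, 0, 0, 0, 0, 0, 0, 0, 0, 0, 0⟩]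

theorem m1_0_ok : okDeg al1 10000 0 m1_0 = true := by decide +kernel

/-- menu `1`, degree `1` -/
def m1_1 : List Pf := [
  ⟨1, al1, 10000, 10000, 500, 0, 11015, 10500, 9999, 10001, 0, 0, 0, 0, 0, 0, 0, 0, 0, 0, 0, 0, 0,
    0⟩]

theorem m1_1_ok : okDeg al1 10000 1 m1_1 = true := by decide +kernel

/-- menu `1`, degree `2` -/
def m1_2 : List Pf := [
  ⟨2, al1, 10000, 10000, 9600, 1890, 26699, 11258, 10783, 10785, 0, 0, 0, 0, 0, 0, 0, 0, 0, 0, 0,
    0, 0, 0⟩,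
  ⟨2, al1, 10000, 10000, 9600, 3690, 20645, 11601, 10783, 10785, 0, 0, 0, 0, 0, 0, 0, 0, 0, 0, 0,
    0, 0, 0⟩,
  ⟨2, al1, 10000, 10000, 9600, 3690, 20006, 11731, 10783, 10785, 0, 0, 0, 0, 0, 0, 0, 0, 0, 0, 0,
    0, 0, 0⟩]

theorem m1_2_ok : okDeg al1 10000 2 m1_2 = true := by decide +kernel

/-- menu `1`, degree `3` -/
def m1_3 : List Pf := [
  ⟨3, al1, 10000, 10000, 6600, 521, 83351, 11728, 18828, 18831, 0, 0, 0, 0, 0, 0, 0, 0, 0, 0, 0,
    0, 0, 0⟩,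
  ⟨3, al1, 10000, 10000, 9100, 1121, 46393, 12604, 12013, 12016, 0, 0, 0, 0, 0, 0, 0, 0, 0, 0, 0,
    0, 0, 0⟩,
  ⟨3, al1, 10000, 10000, 9100, 2921, 31658, 13338, 12013, 12016, 0, 0, 0, 0, 0, 0, 0, 0, 0, 0, 0,
    0, 0, 0⟩,
  ⟨3, al1, 10000, 10000, 9600, 2921, 30009, 13520, 10844, 10847, 0, 0, 0, 0, 0, 0, 0, 0, 0, 0, 0,
    0, 0, 0⟩,
  ⟨3, al1, 10000, 10000, 9361, 2921, 30008, 13546, 11389, 11392, 0, 0, 0, 0, 0, 0, 0, 0, 0, 0, 0,
    0, 0, 0⟩]

theorem m1_3_ok : okDeg al1 10000 3 m1_3 = true := by decide +kernel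

/-- menu `1`, degree `4` -/
def m1_4 : List Pf := [
  ⟨4, al1, 10000, 10000, 9371, 2475, 40153, 15292, 11383, 11386, 0, 0, 0, 0, 0, 0, 0, 0, 0, 0, 0,
    0, 0, 0⟩,
  ⟨4, al1, 10000, 10000, 8871, 2475, 40011, 15361, 12680, 12683, 0, 0, 0, 0, 0, 0, 0, 0, 0, 0, 0,
    0, 0, 0⟩,
  ⟨4, al1, 10000, 10000, 8871, 2475, 40011, 15361, 12680, 12683, 0, 0, 0, 0, 0, 0, 0, 0, 0, 0, 0,
    0, 0, 0⟩]

theorem m1_4_ok : okDeg al1 10000 4 m1_4 = true := by decide +kernel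

/-- menu `1`, degree `5` -/
def m1_5 : List Pf := [
  ⟨5, al1, 10000, 10000, 7642, 2475, 50013, 17100, 16908, 16911, 0, 0, 0, 0, 0, 0, 0, 0, 0, 0, 0,
    0, 0, 0⟩,
  ⟨5, al1, 10000, 10000, 7642, 2475, 50013, 17100, 16908, 16911, 0, 0, 0, 0, 0, 0, 0, 0, 0, 0, 0,
    0, 0, 0⟩]

theorem m1_5_ok : okDeg al1 10000 5 m1_5 = true := by decide +kernel

/-- menu `1`, degree `6` -/
def m1_6 : List Pf := [
  ⟨6, al1, 10000, 10000, 6735, 2475, 60019, 18801, 21458, 21461, 0, 0, 0, 0, 0, 0, 0, 0, 0, 0, 0,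
    0, 0, 0⟩,
  ⟨6, al1, 10000, 10000, 6735, 2475, 60019, 18801, 21458, 21461, 0, 0, 0, 0, 0, 0, 0, 0, 0, 0, 0,
    0, 0, 0⟩]

theorem m1_6_ok : okDeg al1 10000 6 m1_6 = true := by decide +kernel

/-- menu `1`, degree `7` -/
def m1_7 : List Pf := [
  ⟨7, al1, 10000, 10000, 6015, 2475, 70018, 20473, 26446, 26449, 0, 0, 0, 0, 0, 0, 0, 0, 0, 0, 0,
    0, 0, 0⟩]

theorem m1_7_ok : okDeg al1 10000 7 m1_7 = true := by decide +kernel

/-- menu `1`, degree `8` -/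
def m1_8 : List Pf := [
  ⟨8, al1, 10000, 10000, 5250, 2475, 80027, 22124, 33529, 33532, 0, 0, 0, 0, 0, 0, 0, 0, 0, 0, 0,
    0, 0, 0⟩]

theorem m1_8_ok : okDeg al1 10000 8 m1_8 = true := by decide +kernel

/-- menu `1`, degree `9` -/
def m1_9 : List Pf := [
  ⟨9, al1, 10000, 10000, 4944, 2547, 90023, 23697, 37626, 37629, 0, 0, 0, 0, 0, 0, 0, 0, 0, 0, 0,
    0, 0, 0⟩]

theorem m1_9_ok : okDeg al1 10000 9 m1_9 = true := by decide +kernel

/-- the menu -/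
def M1 : Menu := ⟨al1, 10000, [
  m1_0, m1_1, m1_2, m1_3, m1_4, m1_5, m1_6, m1_7, m1_8, m1_9]⟩

theorem M1_ok : MOK M1.al M1.xi 0 M1.ps :=
  mok_cons m1_0_ok <|
  mok_cons m1_1_ok <|
  mok_cons m1_2_ok <|
  mok_cons m1_3_ok <|
  mok_cons m1_4_ok <|
  mok_cons m1_5_ok <|
  mok_cons m1_6_ok <|
  mok_cons m1_7_ok <|
  mok_cons m1_8_ok <|
  mok_cons m1_9_ok <|
  mok_nil _ _ _

/-- the menus -/
def ms : List Menu := [M0, M1]

theorem ms_ok : ∀ M ∈ ms, MOK M.al M.xi 0 M.ps := by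
  intro M hM
  rcases List.mem_cons.1 hM with rfl | hM
  · exact M0_ok
  · obtain rfl := List.mem_singleton.1 hM
    exact M1_ok

end Pool.Agent.T6A.Chk.TabB
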