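import Pool.Agent.T6A.Top2
import Pool.Agent.T6A.Core2b

/-!
# The top level for hereditary classes of graphs (MP_c6effb_co, round 2)

`P` is a property of graphs which is inherited by induced subgraphs. If the core statement holds for
connected graphs with the property `P`, then `R(3, G) ≤ k + m` for all graphs `G` with the property
`P` and `k ≥ k₀` vertices. Special case: graphs of maximum degree at most `Δ` (`Core3D`).
-/

set_option autoImplicit false
set_option linter.unusedSectionVars false

open Finset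

namespace Pool.Agent.T6A

/-- `P` is inherited by induced subgraphs of finite graphs. -/
def Hered (P : ∀ V : Type, SimpleGraph V → Prop) : Prop :=
  ∀ (V : Type) [Finite V] (G : SimpleGraph V) (s : Set V), P V G → P s (G.induce s)

/-- `Core2` for connected graphs with the property `P`. -/
def Core2P (P : ∀ V : Type, SimpleGraph V → Prop) : Prop := ∀ C c : ℕ, ∃ N₀ : ℕ,
  ∀ (W V : Type) [Fintype W] [Fintype V] (H : SimpleGraph W) (G : SimpleGraph V) (I : Finset W),
  N₀ ≤ Fintype.card W → H.CliqueFree 3 → P V G → G.Connected →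
  Fintype.card V + G.edgeSet.ncard ≤ Fintype.card W →
  G.edgeSet.ncard ≤ C * Fintype.card V →
  7 * Fintype.card V < 5 * G.edgeSet.ncard →
  H.IsIndepSet (I : Set W) →
  (∀ J : Finset W, H.IsIndepSet (J : Set W) → #J ≤ #I) → #I < Fintype.card V →
  (∀ v : V, Fintype.card W + 1 ≤ (G.neighborSet v).ncard * #I + Fintype.card V) →
  Hyp c G H → Emb G H

open Classical in
/-- `Core3` for connected graphs with the property `P`. -/
def Core3P (P : ∀ V : Type, SimpleGraph V → Prop) : Prop := ∀ C : ℕ, ∃ ε : ℝ, 0 < ε ∧ ∃ N₀ : ℕ,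
  ∀ (W V : Type) [Fintype W] [Fintype V] (H : SimpleGraph W) (G : SimpleGraph V) (I : Finset W),
  N₀ ≤ Fintype.card W → H.CliqueFree 3 → P V G → G.Connected →
  Fintype.card V + G.edgeSet.ncard ≤ Fintype.card W →
  G.edgeSet.ncard ≤ C * Fintype.card V →
  7 * Fintype.card V < 5 * G.edgeSet.ncard →
  H.IsIndepSet (I : Set W) →
  (∀ J : Finset W, H.IsIndepSet (J : Set W) → #J ≤ #I) → #I < Fintype.card V →
  (∀ v : V, Fintype.card W + 1 ≤ (G.neighborSet v).ncard * #I + Fintype.card V) →
  (∀ d : ℕ, ε * Fintype.card V ≤ #{v | (G.neighborSet v).ncard = d} →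
    (1 - ε) * Fintype.card W ≤ (1 + d) * #I) → Emb G H

open Classical in
/-- The core statement for graphs of maximum degree at most `Δ`. -/
def Core3D (Δ : ℕ) : Prop := ∃ ε : ℝ, 0 < ε ∧ ∃ N₀ : ℕ, ∀ (W V : Type) [Fintype W] [Fintype V]
  (H : SimpleGraph W) (G : SimpleGraph V) (I : Finset W),
  N₀ ≤ Fintype.card W → H.CliqueFree 3 → (∀ v : V, (G.neighborSet v).ncard ≤ Δ) → G.Connected →
  Fintype.card V + G.edgeSet.ncard ≤ Fintype.card W →
  7 * Fintype.card V < 5 * G.edgeSet.ncard →
  H.IsIndepSet (I : Set W) →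
  (∀ J : Finset W, H.IsIndepSet (J : Set W) → #J ≤ #I) → #I < Fintype.card V →
  (∀ v : V, Fintype.card W + 1 ≤ (G.neighborSet v).ncard * #I + Fintype.card V) →
  (∀ d : ℕ, ε * Fintype.card V ≤ #{v | (G.neighborSet v).ncard = d} →
    (1 - ε) * Fintype.card W ≤ (1 + d) * #I) → Emb G H

/-- The reduction of `Core2P` to `Core3P`. -/
theorem core2P_of_core3P {P : ∀ V : Type, SimpleGraph V → Prop} (h3 : Core3P P) : Core2P P := by
  classical
  intro C c
  obtain ⟨ε, hε, N₀, hN⟩ := h3 C
  obtain ⟨ε', hε'⟩ : ∃ ε' : ℝ, ε' = ε / (2 * C + 3) := ⟨_, rfl⟩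
  have hC : (0 : ℝ) ≤ C := Nat.cast_nonneg C
  have hε'0 : 0 < ε' := by rw [hε']; positivity
  have hε'1 : ε' * (2 * C + 3) = ε := by rw [hε']; field_simp
  have hle : ε' ≤ ε := by nlinarith
  obtain ⟨D, hD⟩ : ∃ D : ℕ, D = ⌈(2 * C : ℝ) / ε⌉₊ := ⟨_, rfl⟩
  have hex : ∀ d : ℕ, ∃ M : ℕ, 1 ≤ d → ∀ (W V : Type) [Fintype W] [Fintype V]
      (H : SimpleGraph W) (G : SimpleGraph V) (s : ℕ),
      M ≤ Fintype.card W → (∀ w, (H.neighborSet w).ncard ≤ s) →
      (1 + d : ℝ) * s < (1 - ε') * Fintype.card W →
      ε' * Fintype.card W ≤ #{v | (G.neighborSet v).ncard = d} → Hyp c G H → Emb G H := by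
    intro d
    by_cases hd : 1 ≤ d
    · obtain ⟨M, hM⟩ := weak_thr c d hd ε' hε'0
      exact ⟨M, fun _ W V _ _ H G s h1 h2 h4 h5 h6 =>
        hM W V H G s _ h1 h2 h4 (fun v hv => (mem_filter.1 hv).2) h5 h6⟩
    · exact ⟨0, fun h => absurd h hd⟩
  choose M hM using hex
  refine ⟨max N₀ ((Finset.range (D + 1)).sup M), ?_⟩
  intro W V _ _ H G I hcard hH hP hconn hkm hmC h75 hI hmax hIV hdeg hyp
  by_cases hall : ∀ d : ℕ, ε * Fintype.card V ≤ #{v | (G.neighborSet v).ncard = d} →
      (1 - ε) * Fintype.card W ≤ (1 + d) * #I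
  · exact hN W V H G I (le_trans (le_max_left _ _) hcard) hH hP hconn hkm hmC h75 hI hmax hIV hdeg hall
  push Not at hall
  obtain ⟨d, hd1, hd2⟩ := hall
  have hV : 0 < Fintype.card V := by omega
  have hV' : (0 : ℝ) < Fintype.card V := Nat.cast_pos.2 hV
  have hsum := c2b_sum_ncard G
  -- a vertex of degree `d`
  have hne : (univ.filter fun v => (G.neighborSet v).ncard = d).Nonempty := by
    rw [← Finset.card_pos]
    have : (0 : ℝ) < #{v | (G.neighborSet v).ncard = d} := lt_of_lt_of_le (by positivity) hd1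
    exact_mod_cast this
  obtain ⟨v₀, hv₀⟩ := hne
  rw [mem_filter] at hv₀
  have hd0 : 1 ≤ d := by
    by_contra hcon
    have : d = 0 := by omega
    have h := hdeg v₀
    rw [hv₀.2, this] at h
    omega
  -- `d ≤ D`
  have hdD : d ≤ D := by
    have h1 : d * #{v | (G.neighborSet v).ncard = d} ≤ 2 * G.edgeSet.ncard := by
      rw [← hsum, ← Finset.sum_filter_add_sum_filter_not univ
        (fun v => (G.neighborSet v).ncard = d)]
      refine le_trans ?_ (Nat.le_add_right _ _)
      rw [Finset.sum_congr rfl (g := fun _ => d) fun v hv => (mem_filter.1 hv).2,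
        Finset.sum_const, smul_eq_mul, mul_comm]
    have h2 : (d : ℝ) * (ε * Fintype.card V) ≤ 2 * C * Fintype.card V := by
      calc (d : ℝ) * (ε * Fintype.card V)
          ≤ d * (#{v | (G.neighborSet v).ncard = d} : ℝ) :=
            mul_le_mul_of_nonneg_left hd1 (Nat.cast_nonneg d)
        _ ≤ 2 * (G.edgeSet.ncard : ℝ) := by exact_mod_cast h1
        _ ≤ 2 * (C * Fintype.card V) := by
            have : (G.edgeSet.ncard : ℝ) ≤ C * Fintype.card V := by exact_mod_cast hmC
            linarith
        _ = 2 * C * Fintype.card V := by ring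
    have h3 : (d : ℝ) * ε ≤ 2 * C := by
      have : (d : ℝ) * ε * Fintype.card V ≤ 2 * C * Fintype.card V := by linarith
      exact le_of_mul_le_mul_right this hV'
    have h4 : (d : ℝ) ≤ 2 * C / ε := (le_div_iff₀ hε).2 h3
    rw [hD]
    exact_mod_cast h4.trans (Nat.le_ceil _)
  -- `|W| ≤ (2 C + 1) |V|`
  have hWV : (Fintype.card W : ℝ) ≤ (2 * C + 1) * Fintype.card V := by
    have h1 : Fintype.card V * (Fintype.card W + 1) ≤
        2 * G.edgeSet.ncard * #I + Fintype.card V * Fintype.card V := by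
      have h2 : ∑ _v : V, (Fintype.card W + 1) ≤
          ∑ v : V, ((G.neighborSet v).ncard * #I + Fintype.card V) :=
        Finset.sum_le_sum fun v _ => hdeg v
      rw [Finset.sum_const, Finset.sum_add_distrib, ← Finset.sum_mul, hsum, Finset.sum_const,
        card_univ, smul_eq_mul, smul_eq_mul] at h2
      exact h2
    have h2 : 2 * G.edgeSet.ncard * #I ≤ 2 * (C * Fintype.card V) * Fintype.card V :=
      Nat.mul_le_mul (Nat.mul_le_mul_left 2 hmC) hIV.le
    have h3 : Fintype.card V * Fintype.card W ≤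
        Fintype.card V * ((2 * C + 1) * Fintype.card V) := by nlinarith
    have h4 : Fintype.card W ≤ (2 * C + 1) * Fintype.card V := Nat.le_of_mul_le_mul_left h3 hV
    exact_mod_cast h4
  have hW0 : (0 : ℝ) ≤ Fintype.card W := Nat.cast_nonneg _
  refine hM d hd0 W V H G #I ?_ (ncard_neighborSet_le hH hmax) ?_ ?_ hyp
  · refine le_trans ?_ ((le_max_right _ _).trans hcard)
    exact Finset.le_sup (f := M) (mem_range.2 (by omega))
  · refine lt_of_lt_of_le hd2 ?_
    nlinarith
  · refine le_trans ?_ hd1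
    calc ε' * (Fintype.card W : ℝ) ≤ ε' * ((2 * C + 1) * Fintype.card V) :=
          mul_le_mul_of_nonneg_left hWV hε'0.le
      _ ≤ ε' * ((2 * C + 3) * Fintype.card V) := by
          refine mul_le_mul_of_nonneg_left ?_ hε'0.le
          nlinarith
      _ = ε * Fintype.card V := by rw [← hε'1]; ring

/-- **Step 1**: the inequality with a constant loss, for all graphs. -/
theorem step_oneP {P : ∀ V : Type, SimpleGraph V → Prop} (hP : Hered P) (hcore : Core2P P) :
    ∃ C₀ : ℕ, ∀ (n : ℕ) (V : Type) [Fintype V] (G : SimpleGraph V), Fintype.card V = n →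
      P V G → ∀ (W : Type) [Fintype W] (H : SimpleGraph W), H.CliqueFree 3 →
      n + G.edgeSet.ncard + C₀ ≤ Fintype.card W → Emb G H := by
  classical
  obtain ⟨C, _, hC⟩ := Pool.Agent.Sid84.ramsey_eps 1 one_pos
  obtain ⟨N₀, hN⟩ := hcore ⌈C⌉₊ 0
  refine ⟨N₀, fun n => ?_⟩
  induction n using Nat.strong_induction_on with
  | _ n ih =>
    intro V _ G hV hPG W _ H hH hW
    obtain ⟨I, hI⟩ := H.maximumIndepSet_exists
    have hmax : ∀ J : Finset W, H.IsIndepSet (J : Set W) → #J ≤ #I := fun J hJ => hI.maximum J hJ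
    have hdeg : ∀ x : W, (H.neighborSet x).ncard ≤ #I := ncard_neighborSet_le hH hmax
    by_cases h1 : Fintype.card V ≤ #I
    · exact emb_of_indep I hI.isIndepSet h1
    push Not at h1
    by_cases h2 : ∃ v : V, (G.neighborSet v).ncard * #I + Fintype.card V ≤ Fintype.card W
    · obtain ⟨v, hv⟩ := h2
      have hpos : 0 < Fintype.card V := by omega
      refine emb_extend v hdeg hv (ih (n - 1) (by omega) _ _ ?_ (hP V G _ hPG) W H hH ?_)
      · rw [card_ne v, hV]
      · have := ncard_edgeSet_induce_le G {u | u ≠ v}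
        omega
    push Not at h2
    by_cases h3 : ⌈C⌉₊ * Fintype.card V ≤ G.edgeSet.ncard
    · refine hC _ V H G hH ?_ ?_
      · rw [one_mul]
        exact_mod_cast (by omega : G.edgeSet.ncard ≤ Fintype.card W)
      · have e1 : C * (Fintype.card V : ℝ) ≤ ((⌈C⌉₊ * Fintype.card V : ℕ) : ℝ) := by
          push_cast
          exact mul_le_mul_of_nonneg_right (Nat.le_ceil C) (Nat.cast_nonneg _)
        refine e1.trans ?_
        exact_mod_cast (by omega : ⌈C⌉₊ * Fintype.card V ≤ Fintype.card W)
    push Not at h3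
    have hne : Nonempty V := Fintype.card_pos_iff.1 (by omega)
    by_cases h4 : G.Connected
    swap
    · -- two parts
      obtain ⟨s, hs0, ⟨y, hy⟩, hs⟩ := exists_split h4
      have hsplit := ncard_edges_split s hs
      have hc1 := card_mem s inferInstance
      have hc2 := card_notMem s inferInstance
      have hs1 : 0 < #s := card_pos.2 hs0
      have hs2 : #s < Fintype.card V := by
        rw [← card_univ]
        exact card_lt_card ⟨subset_univ _, fun h => hy (h (mem_univ y))⟩
      obtain ⟨f, hf, hfa⟩ := ih #s (by omega) _ (G.induce {v | v ∈ s}) hc1 (hP V G _ hPG) W H hH (by omega)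
      have hZc : #(univ.image f) = #s := by
        rw [card_image_of_injective _ hf, card_univ, hc1]
      have hc3 := card_notMem (univ.image f) inferInstance
      refine emb_union s hs f hf hfa (univ.image f) (fun v => mem_image_of_mem f (mem_univ v)) ?_
      refine ih (n - #s) (by omega) _ _ (by omega) (hP V G _ hPG) _ _ (cliqueFree_induce hH _)
        (by omega)
    by_cases h5 : 5 * G.edgeSet.ncard ≤ 7 * Fintype.card V
    · exact emb_seven h4 h5 hH (by omega)
    push Not at h5
    refine hN W V H G I (by omega) hH hPG h4 (by omega) h3.le h5 hI.isIndepSet hmax h1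
      (fun v => by have := h2 v; omega) fun S Z hS hle => ?_
    have hc2 := card_notMem S inferInstance
    have hc3 := card_notMem Z inferInstance
    have hS' : 0 < #S := card_pos.2 hS
    exact ih (n - #S) (by omega) _ _ (by omega) (hP V G _ hPG) _ _ (cliqueFree_induce hH _)
      (by omega)

/-- **Step 2**: no loss, for large graphs `H`. -/
theorem step_twoP {P : ∀ V : Type, SimpleGraph V → Prop} (hP : Hered P) (hcore : Core2P P) :
    ∃ N₁ : ℕ, ∀ (W : Type) [Fintype W] (H : SimpleGraph W), H.CliqueFree 3 →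
      N₁ ≤ Fintype.card W → ∀ (n : ℕ) (V : Type) [Fintype V] (G : SimpleGraph V),
      Fintype.card V = n → P V G → n + G.edgeSet.ncard ≤ Fintype.card W → Emb G H := by
  classical
  obtain ⟨C₀, hstep⟩ := step_oneP hP hcore
  obtain ⟨C, _, hC⟩ := Pool.Agent.Sid84.ramsey_eps 1 one_pos
  obtain ⟨N₀, hN⟩ := hcore ⌈C⌉₊ C₀
  refine ⟨N₀ + (4 * C₀ + 4) * (4 * C₀ + 5), fun W _ H hH hW n => ?_⟩
  obtain ⟨I, hI⟩ := H.maximumIndepSet_exists
  have hmax : ∀ J : Finset W, H.IsIndepSet (J : Set W) → #J ≤ #I := fun J hJ => hI.maximum J hJ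
  have hdeg : ∀ x : W, (H.neighborSet x).ncard ≤ #I := ncard_neighborSet_le hH hmax
  have hIbig : 4 * C₀ + 4 ≤ #I := by
    by_contra hcon
    push Not at hcon
    have h1 := Pool.Agent.Sid84.card_le_indep H I #I hI rfl
      (fun z => Pool.Agent.Sid84.deg_le H hH I hI z)
    have h2 : #I * (#I + 1) ≤ (4 * C₀ + 3) * (4 * C₀ + 4) :=
      Nat.mul_le_mul (by omega) (by omega)
    nlinarith
  induction n using Nat.strong_induction_on with
  | _ n ih =>
    intro V _ G hV hPG hn
    by_cases h1 : Fintype.card V ≤ #I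
    · exact emb_of_indep I hI.isIndepSet h1
    push Not at h1
    by_cases h2 : ∃ v : V, (G.neighborSet v).ncard * #I + Fintype.card V ≤ Fintype.card W
    · obtain ⟨v, hv⟩ := h2
      have hpos : 0 < Fintype.card V := by omega
      refine emb_extend v hdeg hv (ih (n - 1) (by omega) _ _ ?_ (hP V G _ hPG) ?_)
      · rw [card_ne v, hV]
      · have := ncard_edgeSet_induce_le G {u | u ≠ v}
        omega
    push Not at h2
    by_cases h3 : ⌈C⌉₊ * Fintype.card V ≤ G.edgeSet.ncard
    · refine hC _ V H G hH ?_ ?_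
      · rw [one_mul]
        exact_mod_cast (by omega : G.edgeSet.ncard ≤ Fintype.card W)
      · have e1 : C * (Fintype.card V : ℝ) ≤ ((⌈C⌉₊ * Fintype.card V : ℕ) : ℝ) := by
          push_cast
          exact mul_le_mul_of_nonneg_right (Nat.le_ceil C) (Nat.cast_nonneg _)
        refine e1.trans ?_
        exact_mod_cast (by omega : ⌈C⌉₊ * Fintype.card V ≤ Fintype.card W)
    push Not at h3
    have hne : Nonempty V := Fintype.card_pos_iff.1 (by omega)
    -- many edges
    have hmany : Fintype.card V ≤ 2 * G.edgeSet.ncard := by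
      have h4 := Pool.Agent.Sid84.sum_deg G
      rw [← h4]
      calc Fintype.card V = ∑ _v : V, 1 := by simp
        _ ≤ ∑ v : V, (univ.filter (G.Adj v)).card := by
            refine sum_le_sum fun v _ => ?_
            have h5 := h2 v
            have h6 : (G.neighborSet v).ncard = (univ.filter (G.Adj v)).card := by
              rw [Set.ncard_eq_toFinset_card' (G.neighborSet v)]
              congr 1
              ext u
              simp
            rw [h6] at h5
            by_contra h7
            have h8 : (univ.filter (G.Adj v)).card = 0 := by omega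
            rw [h8] at h5
            omega
    by_cases h4 : G.Connected
    swap
    · -- two parts
      obtain ⟨s, hs0, ⟨y, hy⟩, hs, hsbig⟩ : ∃ s : Finset V, s.Nonempty ∧ (∃ y, y ∉ s) ∧
          (∀ x ∈ s, ∀ y, y ∉ s → ¬ G.Adj x y) ∧ C₀ ≤ (G.induce {v | v ∈ s}).edgeSet.ncard := by
        obtain ⟨s, hs0, ⟨y, hy⟩, hs⟩ := exists_split h4
        have hsplit := ncard_edges_split s hs
        by_cases h5 : C₀ ≤ (G.induce {v | v ∈ s}).edgeSet.ncard
        · exact ⟨s, hs0, ⟨y, hy⟩, hs, h5⟩
        · obtain ⟨x, hx⟩ := hs0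
          refine ⟨univ \ s, ⟨y, by simpa using hy⟩, ⟨x, by simpa using hx⟩, ?_, ?_⟩
          · intro a ha b hb hab
            simp only [mem_sdiff, mem_univ, true_and, not_not] at ha hb
            exact hs b hb a ha hab.symm
          · have h6 : {v | v ∈ univ \ s} = {v | v ∉ s} := by
              ext v
              simp
            rw [h6]
            omega
      have hsplit := ncard_edges_split s hs
      have hc1 := card_mem s inferInstance
      have hc2 := card_notMem s inferInstance
      have hs1 : 0 < #s := card_pos.2 hs0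
      have hs2 : #s < Fintype.card V := by
        rw [← card_univ]
        exact card_lt_card ⟨subset_univ _, fun h => hy (h (mem_univ y))⟩
      obtain ⟨f, hf, hfa⟩ := ih #s (by omega) _ (G.induce {v | v ∈ s}) hc1 (hP V G _ hPG) (by omega)
      have hZc : #(univ.image f) = #s := by
        rw [card_image_of_injective _ hf, card_univ, hc1]
      have hc3 := card_notMem (univ.image f) inferInstance
      refine emb_union s hs f hf hfa (univ.image f) (fun v => mem_image_of_mem f (mem_univ v)) ?_
      exact hstep (n - #s) _ _ (by omega) (hP V G _ hPG) _ _ (cliqueFree_induce hH _) (by omega)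
    by_cases h5 : 5 * G.edgeSet.ncard ≤ 7 * Fintype.card V
    · exact emb_seven h4 h5 hH (by omega)
    push Not at h5
    refine hN W V H G I (by omega) hH hPG h4 (by omega) h3.le h5 hI.isIndepSet hmax h1
      (fun v => by have := h2 v; omega) fun S Z hS hle => ?_
    have hc2 := card_notMem S inferInstance
    have hc3 := card_notMem Z inferInstance
    have hS' : 0 < #S := card_pos.2 hS
    exact hstep (n - #S) _ _ (by omega) (hP V G _ hPG) _ _ (cliqueFree_induce hH _) (by omega)

/-- **The top level** for a hereditary class. -/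
theorem all_of_core2P {P : ∀ V : Type, SimpleGraph V → Prop} (hP : Hered P) (hcore : Core2P P) :
    ∃ k₀ : ℕ, ∀ (V : Type) [Fintype V] (G : SimpleGraph V), P V G → k₀ ≤ Fintype.card V →
      ∀ H : SimpleGraph (Fin (Fintype.card V + G.edgeSet.ncard)),
        ¬ H.CliqueFree 3 ∨ ∃ f : G →g Hᶜ, Function.Injective f := by
  obtain ⟨N₁, hN⟩ := step_twoP hP hcore
  refine ⟨N₁, fun V _ G hPG hk H => ?_⟩
  by_cases hH : H.CliqueFree 3
  · right
    obtain ⟨f, hf, hadj⟩ := hN _ H hH (by rw [Fintype.card_fin]; omega) _ V G rfl hPG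
      (by rw [Fintype.card_fin])
    refine ⟨⟨f, ?_⟩, hf⟩
    intro a b hab
    rw [SimpleGraph.compl_adj]
    exact ⟨fun h => hab.ne (hf h), hadj a b hab⟩
  · exact Or.inl hH

/-- The graphs of maximum degree at most `Δ` form a hereditary class. -/
theorem hered_deg (Δ : ℕ) :
    Hered fun (V : Type) (G : SimpleGraph V) => ∀ v : V, (G.neighborSet v).ncard ≤ Δ := by
  intro V _ G s h v
  refine le_trans ?_ (h v.1)
  refine Set.ncard_le_ncard_of_injOn (fun u => (u : V)) ?_ ?_ (Set.toFinite _)
  · intro u hu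
    exact hu
  · intro a _ b _ hab
    exact Subtype.ext hab

/-- **Maximum degree at most `Δ`**: the core statement `Core3D Δ` implies `R(3, G) ≤ k + m` for all
graphs `G` of maximum degree at most `Δ` with `k ≥ k₀` vertices. -/
theorem all_of_core3D {Δ : ℕ} (h : Core3D Δ) :
    ∃ k₀ : ℕ, ∀ (V : Type) [Fintype V] (G : SimpleGraph V),
      (∀ v : V, (G.neighborSet v).ncard ≤ Δ) → k₀ ≤ Fintype.card V →
      ∀ H : SimpleGraph (Fin (Fintype.card V + G.edgeSet.ncard)),
        ¬ H.CliqueFree 3 ∨ ∃ f : G →g Hᶜ, Function.Injective f := by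
  obtain ⟨ε, hε, N₀, hN⟩ := h
  refine all_of_core2P (hered_deg Δ) (core2P_of_core3P fun C => ⟨ε, hε, N₀, ?_⟩)
  intro W V _ _ H G I h1 h2 h3 h4 h5 _ h7 h8 h9 h10 h11 h12
  exact hN W V H G I h1 h2 h3 h4 h5 h7 h8 h9 h10 h11 h12

/-- All graphs, with connectivity as an additional hypothesis of the core. -/
theorem all_of_core3C (h : Core3P fun _ _ => True) :
    ∃ k₀ : ℕ, ∀ (V : Type) [Fintype V] (G : SimpleGraph V), k₀ ≤ Fintype.card V →
      ∀ H : SimpleGraph (Fin (Fintype.card V + G.edgeSet.ncard)),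
        ¬ H.CliqueFree 3 ∨ ∃ f : G →g Hᶜ, Function.Injective f := by
  obtain ⟨k₀, hk⟩ := all_of_core2P (P := fun _ _ => True) (fun _ _ _ _ _ => trivial)
    (core2P_of_core3P h)
  exact ⟨k₀, fun V _ G hV => hk V G trivial hV⟩

end Pool.Agent.T6A
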