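import Pool.Agent.T6A.Reg
import Pool.Agent.T6A.Emb

/-!
# Typical vertices of a cluster structure (MP_c6effb_co)
-/

set_option autoImplicit false
set_option linter.unusedSectionVars false

open Finset Classical

namespace Pool.Agent.T6A

open EMB

variable {W : Type} [Fintype W] {H : SimpleGraph W} {ε : ℝ} {M : ℕ}

/-- The two edge counts agree. -/
theorem ed_eq_eD (H : SimpleGraph W) (S T : Finset W) : ed H S T = eD H S T := rfl

/-- Edges of `H` from `x` to the clusters which are not blocked with the cluster `i`. -/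
noncomputable def dS (S : Clus H ε M) (i : S.ι) (x : W) : ℝ :=
  let _ := S.ft
  ∑ j ∈ univ.filter (fun j => ¬ S.F.Adj i j), (dg H (S.C j) x : ℝ)

theorem Clus.sum_le (S : Clus H ε M) (T : Finset S.ι) :
    ∑ i ∈ T, ((S.C i).card : ℝ) ≤ Fintype.card W := by
  have h : (T.biUnion S.C).card = ∑ i ∈ T, (S.C i).card :=
    card_biUnion fun i _ j _ hij => S.disj i j hij
  have h2 : (T.biUnion S.C).card ≤ Fintype.card W := card_le_univ _
  rw [h] at h2
  exact_mod_cast h2

theorem Clus.card_biUnion (S : Clus H ε M) (T : Finset S.ι) :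
    ((T.biUnion S.C).card : ℝ) = ∑ i ∈ T, ((S.C i).card : ℝ) := by
  have h : (T.biUnion S.C).card = ∑ i ∈ T, (S.C i).card :=
    Finset.card_biUnion fun i _ j _ hij => S.disj i j hij
  rw [h]; push_cast; rfl

/-- Edges from a cluster to the clusters which are not blocked with it. -/
theorem sum_ed_le (S : Clus H ε M) (i : S.ι) (hε : 0 ≤ ε) :
    (letI := S.ft
     ∑ j ∈ univ.filter (fun j => ¬ S.F.Adj i j), (eD H (S.C i) (S.C j) : ℝ)) ≤
      2 * ε * ((S.C i).card * Fintype.card W) := by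
  let _ := S.ft
  have h1 : ∀ j ∈ univ.filter (fun j => ¬ S.F.Adj i j), (eD H (S.C i) (S.C j) : ℝ) ≤
      ε * ((S.C i).card * (S.C j).card) +
        (if S.Bd i j then ((S.C i).card : ℝ) * (S.C j).card else 0) := by
    intro j hj
    have hF : ¬ S.F.Adj i j := (mem_filter.1 hj).2
    by_cases hB : S.Bd i j
    · rw [if_pos hB]
      have h2 : (eD H (S.C i) (S.C j) : ℝ) ≤ (S.C i).card * (S.C j).card := by
        have : eD H (S.C i) (S.C j) ≤ (S.C i ×ˢ S.C j).card := card_filter_le _ _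
        rw [card_product] at this
        exact_mod_cast this
      have h3 : 0 ≤ ε * (((S.C i).card : ℝ) * (S.C j).card) := by positivity
      linarith
    · rw [if_neg hB, add_zero]
      exact S.sparse i j hF hB
  refine (sum_le_sum h1).trans ?_
  rw [sum_add_distrib]
  have h4 : ∑ j ∈ univ.filter (fun j => ¬ S.F.Adj i j), ε * (((S.C i).card : ℝ) * (S.C j).card) ≤
      ε * ((S.C i).card * Fintype.card W) := by
    rw [← mul_sum, ← mul_sum]
    exact mul_le_mul_of_nonneg_left (mul_le_mul_of_nonneg_left (S.sum_le _) (Nat.cast_nonneg _)) hε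
  have h5 : ∑ j ∈ univ.filter (fun j => ¬ S.F.Adj i j),
      (if S.Bd i j then ((S.C i).card : ℝ) * (S.C j).card else 0) ≤
      ε * ((S.C i).card * Fintype.card W) := by
    calc ∑ j ∈ univ.filter (fun j => ¬ S.F.Adj i j),
        (if S.Bd i j then ((S.C i).card : ℝ) * (S.C j).card else 0)
        ≤ ∑ j, (if S.Bd i j then ((S.C i).card : ℝ) * (S.C j).card else 0) := by
          refine sum_le_sum_of_subset_of_nonneg (subset_univ _) fun j _ _ => ?_
          split_ifs <;> positivity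
      _ = ∑ j ∈ univ.filter (fun j => S.Bd i j), ((S.C i).card : ℝ) * (S.C j).card := by
          rw [sum_filter]
      _ = (S.C i).card * ∑ j ∈ univ.filter (fun j => S.Bd i j), ((S.C j).card : ℝ) := by
          rw [mul_sum]
      _ ≤ (S.C i).card * (ε * Fintype.card W) :=
          mul_le_mul_of_nonneg_left (S.bsmall i) (Nat.cast_nonneg _)
      _ = _ := by ring
  linarith

theorem sum_dS (S : Clus H ε M) (i : S.ι) :
    ∑ x ∈ S.C i, dS S i x = (letI := S.ft
      ∑ j ∈ univ.filter (fun j => ¬ S.F.Adj i j), (eD H (S.C i) (S.C j) : ℝ)) := by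
  let _ := S.ft
  unfold dS
  rw [sum_comm]
  refine sum_congr rfl fun j _ => ?_
  rw [eD_eq]
  push_cast
  rfl

/-- Few vertices of a cluster are not typical. -/
theorem typ (S : Clus H ε M) (i : S.ι) (hε : 0 ≤ ε) {θ : ℝ} (hθ : 0 < θ) (h : 2 * ε ≤ θ ^ 2)
    (hW : 0 < Fintype.card W) :
    (((S.C i).filter fun x => θ * Fintype.card W < dS S i x).card : ℝ) ≤ θ * (S.C i).card := by
  set X := (S.C i).filter fun x => θ * Fintype.card W < dS S i x with hX
  have hN : (0 : ℝ) < Fintype.card W := Nat.cast_pos.2 hW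
  have h0 : ∀ x, 0 ≤ dS S i x := fun x => by
    letI := S.ft
    exact sum_nonneg fun j _ => Nat.cast_nonneg _
  have h1 : (X.card : ℝ) * (θ * Fintype.card W) ≤ ∑ x ∈ X, dS S i x := by
    rw [← nsmul_eq_mul, ← sum_const]
    exact sum_le_sum fun x hx => (mem_filter.1 hx).2.le
  have h2 : ∑ x ∈ X, dS S i x ≤ ∑ x ∈ S.C i, dS S i x :=
    sum_le_sum_of_subset_of_nonneg (filter_subset _ _) fun x _ _ => h0 x
  have h3 := sum_ed_le S i hε
  rw [← sum_dS] at h3
  have h4 : (X.card : ℝ) * (θ * Fintype.card W) ≤ (θ * (S.C i).card) * (θ * Fintype.card W) := by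
    refine (h1.trans (h2.trans h3)).trans ?_
    have : 2 * ε * (((S.C i).card : ℝ) * Fintype.card W) ≤
        θ ^ 2 * (((S.C i).card : ℝ) * Fintype.card W) :=
      mul_le_mul_of_nonneg_right h (by positivity)
    refine this.trans (le_of_eq (by ring))
  exact le_of_mul_le_mul_right h4 (by positivity)

/-- The weight of the clusters (not blocked with `i`) in which `x` has many neighbours. -/
theorem exc (S : Clus H ε M) (i : S.ι) {θ r : ℝ} (hr : 0 < r) {x : W}
    (hx : dS S i x ≤ θ * Fintype.card W) (T : Finset S.ι)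
    (hT : ∀ j ∈ T, ¬ S.F.Adj i j ∧ r * (S.C j).card < dg H (S.C j) x) :
    ∑ j ∈ T, ((S.C j).card : ℝ) ≤ θ * Fintype.card W / r := by
  let _ := S.ft
  rw [le_div_iff₀ hr]
  calc (∑ j ∈ T, ((S.C j).card : ℝ)) * r = ∑ j ∈ T, r * ((S.C j).card : ℝ) := by
        rw [sum_mul]; exact sum_congr rfl fun j _ => mul_comm _ _
    _ ≤ ∑ j ∈ T, (dg H (S.C j) x : ℝ) := sum_le_sum fun j hj => (hT j hj).2.le
    _ ≤ dS S i x := by
        unfold dS
        refine sum_le_sum_of_subset_of_nonneg (fun j hj => ?_) fun j _ _ => Nat.cast_nonneg _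
        exact mem_filter.2 ⟨mem_univ _, (hT j hj).1⟩
    _ ≤ _ := hx

/-- A typical vertex has few neighbours in an independent set of clusters. -/
theorem dg_biUnion_le (S : Clus H ε M) (i : S.ι) (A : Finset S.ι) (hA : ∀ j ∈ A, ¬ S.F.Adj i j)
    (x : W) : (dg H (A.biUnion S.C) x : ℝ) ≤ dS S i x := by
  let _ := S.ft
  have h1 : dg H (A.biUnion S.C) x ≤ ∑ j ∈ A, dg H (S.C j) x := by
    unfold dg
    rw [filter_biUnion]
    exact card_biUnion_le
  have h2 : (dg H (A.biUnion S.C) x : ℝ) ≤ ∑ j ∈ A, (dg H (S.C j) x : ℝ) := by exact_mod_cast h1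
  refine h2.trans ?_
  unfold dS
  refine sum_le_sum_of_subset_of_nonneg (fun j hj => ?_) fun j _ _ => Nat.cast_nonneg _
  exact mem_filter.2 ⟨mem_univ _, hA j hj⟩

/-- Edges from a cluster of an independent set `A` to the union of `A`. -/
theorem eD_biUnion_le (S : Clus H ε M) (hε : 0 ≤ ε) (i : S.ι) (A : Finset S.ι)
    (hA : ∀ j ∈ A, ¬ S.F.Adj i j) :
    (eD H (S.C i) (A.biUnion S.C) : ℝ) ≤ 2 * ε * ((S.C i).card * Fintype.card W) := by
  refine le_trans ?_ (sum_ed_le S i hε)
  rw [← sum_dS, eD_eq]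
  push_cast
  exact sum_le_sum fun x _ => dg_biUnion_le S i A hA x

/-- Heaviest independent set of clusters. -/
theorem exists_A (S : Clus H ε M) : ∃ A : Finset S.ι, (∀ i ∈ A, ∀ j ∈ A, ¬ S.F.Adj i j) ∧
    ∀ T : Finset S.ι, (∀ i ∈ T, ∀ j ∈ T, ¬ S.F.Adj i j) →
      ∑ i ∈ T, ((S.C i).card : ℝ) ≤ ∑ i ∈ A, ((S.C i).card : ℝ) := by
  let _ := S.ft
  set P := (univ : Finset (Finset S.ι)).filter fun T => ∀ i ∈ T, ∀ j ∈ T, ¬ S.F.Adj i j with hP
  have hne : P.Nonempty := ⟨∅, mem_filter.2 ⟨mem_univ _, by simp⟩⟩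
  obtain ⟨A, hA, hmax⟩ := exists_max_image P (fun T => ∑ i ∈ T, ((S.C i).card : ℝ)) hne
  exact ⟨A, (mem_filter.1 hA).2, fun T hT => hmax T (mem_filter.2 ⟨mem_univ _, hT⟩)⟩

/-- An independent set of `H` is not much larger than the heaviest independent set of clusters. -/
theorem card_indep_le (S : Clus H ε M) (hε : 0 < ε) {I : Finset W}
    (hI : H.IsIndepSet (I : Set W)) {a : ℝ}
    (ha : ∀ T : Finset S.ι, (∀ i ∈ T, ∀ j ∈ T, ¬ S.F.Adj i j) →
      ∑ i ∈ T, ((S.C i).card : ℝ) ≤ a) :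
    (I.card : ℝ) ≤ a + 2 * ε * Fintype.card W := by
  let _ := S.ft
  set T := (univ : Finset S.ι).filter fun i => ε * (S.C i).card ≤ ((I ∩ S.C i).card : ℝ) with hT
  have hind : ∀ i ∈ T, ∀ j ∈ T, ¬ S.F.Adj i j := by
    intro i hi j hj hF
    obtain ⟨x, hx, y, hy, hxy⟩ := S.dense i j hF (I ∩ S.C i) inter_subset_right (I ∩ S.C j)
      inter_subset_right (mem_filter.1 hi).2 (mem_filter.1 hj).2
    exact hI (mem_inter.1 hx).1 (mem_inter.1 hy).1 hxy.ne hxy
  have hT' := ha T hind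
  have h1 : (I.card : ℝ) ≤ ∑ i, ((I ∩ S.C i).card : ℝ) + ((univ \ univ.biUnion S.C).card : ℝ) := by
    have h2 : I ⊆ (univ.biUnion fun i => I ∩ S.C i) ∪ (univ \ univ.biUnion S.C) := by
      intro x hx
      by_cases hxC : x ∈ univ.biUnion S.C
      · obtain ⟨i, hi, hxi⟩ := mem_biUnion.1 hxC
        exact mem_union_left _ (mem_biUnion.2 ⟨i, hi, mem_inter.2 ⟨hx, hxi⟩⟩)
      · exact mem_union_right _ (mem_sdiff.2 ⟨mem_univ _, hxC⟩)
    have h3 := (card_le_card h2).trans (card_union_le _ _)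
    have h4 : (univ.biUnion fun i => I ∩ S.C i).card ≤ ∑ i, (I ∩ S.C i).card := card_biUnion_le
    exact_mod_cast h3.trans (Nat.add_le_add_right h4 _)
  have h5 : ((univ \ univ.biUnion S.C).card : ℝ) ≤ ε * Fintype.card W := by
    rw [card_sdiff_of_subset (subset_univ _), Nat.cast_sub (card_le_card (subset_univ _)),
      card_univ, S.card_biUnion]
    have := S.tot
    linarith
  have h6 : ∑ i, ((I ∩ S.C i).card : ℝ) ≤
      ∑ i ∈ T, ((S.C i).card : ℝ) + ε * ∑ i, ((S.C i).card : ℝ) := by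
    rw [mul_sum, ← sum_filter_add_sum_filter_not univ
      (fun i => ε * (S.C i).card ≤ ((I ∩ S.C i).card : ℝ))]
    refine add_le_add (sum_le_sum fun i _ => ?_) ?_
    · exact Nat.cast_le.2 (card_le_card inter_subset_right)
    · refine le_trans (sum_le_sum (f := fun i => ((I ∩ S.C i).card : ℝ))
        (g := fun i => ε * ((S.C i).card : ℝ)) fun i hi => ?_) ?_
      · exact (not_le.1 (mem_filter.1 hi).2).le
      · refine sum_le_sum_of_subset_of_nonneg (filter_subset _ _) fun i _ _ => by positivity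
  have h7 : ε * ∑ i, ((S.C i).card : ℝ) ≤ ε * Fintype.card W :=
    mul_le_mul_of_nonneg_left (S.sum_le _) hε.le
  linarith

/-- A spread-out set of typical vertices in the clusters of `A`. -/
theorem exists_Y (S : Clus H ε M) (A : Finset S.ι) (hε : 0 ≤ ε) {θ η : ℝ} (hθ : 0 < θ)
    (h : 2 * ε ≤ θ ^ 2) (hη : 0 < η) (hηθ : θ + η ≤ 1) (hbig : ∀ i, 1 ≤ η * (S.C i).card) :
    ∃ U : Finset W, U ⊆ A.biUnion S.C ∧
      (∀ i ∈ A, ∀ x ∈ U, x ∈ S.C i → dS S i x ≤ θ * Fintype.card W) ∧
      (∀ i ∈ A, ((U ∩ S.C i).card : ℝ) ≤ η * (S.C i).card) ∧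
      (∀ i ∈ A, η / 2 * (S.C i).card ≤ ((U ∩ S.C i).card : ℝ)) ∧
      η / 2 * (A.biUnion S.C).card ≤ (U.card : ℝ) := by
  by_cases hA0 : A = ∅
  · refine ⟨∅, by simp, by simp, fun i hi => by simp; positivity, fun i hi => ?_, ?_⟩
    · rw [hA0] at hi
      exact absurd hi (notMem_empty i)
    · subst hA0
      simp
  obtain ⟨i0, hi0⟩ := nonempty_iff_ne_empty.2 hA0
  have hW : 0 < Fintype.card W := by
    have h1 := hbig i0
    have h2 : 0 < (S.C i0).card := by
      by_contra h0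
      have : (S.C i0).card = 0 := by omega
      rw [this, Nat.cast_zero, mul_zero] at h1
      linarith
    exact h2.trans_le (card_le_univ _)
  have hY : ∀ i : S.ι, ∃ Y : Finset W, Y ⊆ (S.C i).filter (fun x => ¬ θ * Fintype.card W < dS S i x) ∧
      Y.card = ⌊η * (S.C i).card⌋₊ := by
    intro i
    refine exists_subset_card_eq ?_
    have h1 := typ S i hε hθ h hW
    have h2 := card_filter_add_card_filter_not (s := S.C i) (fun x => θ * Fintype.card W < dS S i x)
    have h3 : (⌊η * (S.C i).card⌋₊ : ℝ) ≤ η * (S.C i).card := Nat.floor_le (by positivity)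
    have h4 : (((S.C i).filter fun x => θ * Fintype.card W < dS S i x).card : ℝ) +
        (((S.C i).filter fun x => ¬ θ * Fintype.card W < dS S i x).card : ℝ) = (S.C i).card := by
      exact_mod_cast h2
    have h5 : (⌊η * (S.C i).card⌋₊ : ℝ) ≤
        (((S.C i).filter fun x => ¬ θ * Fintype.card W < dS S i x).card : ℝ) := by
      have h6 : (θ + η) * (S.C i).card ≤ 1 * (S.C i).card :=
        mul_le_mul_of_nonneg_right hηθ (Nat.cast_nonneg _)
      linarith
    exact_mod_cast h5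
  choose Y hYs hYc using hY
  have hYC : ∀ i, Y i ⊆ S.C i := fun i => (hYs i).trans (filter_subset _ _)
  have hUi : ∀ i ∈ A, A.biUnion Y ∩ S.C i = Y i := by
    intro i hi
    ext x
    constructor
    · intro hx
      obtain ⟨h1, h2⟩ := mem_inter.1 hx
      obtain ⟨j, hj, hxj⟩ := mem_biUnion.1 h1
      by_contra hne
      have hij : i ≠ j := fun e => hne (e ▸ hxj)
      exact disjoint_left.1 (S.disj i j hij) h2 (hYC j hxj)
    · intro hx
      exact mem_inter.2 ⟨mem_biUnion.2 ⟨i, hi, hx⟩, hYC i hx⟩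
  have hfl : ∀ i, η / 2 * ((S.C i).card : ℝ) ≤ ((Y i).card : ℝ) := by
    intro i
    rw [hYc i]
    have h2 := hbig i
    have h3 : η * (S.C i).card < ⌊η * (S.C i).card⌋₊ + 1 := Nat.lt_floor_add_one _
    have h4 : (1 : ℝ) ≤ ⌊η * (S.C i).card⌋₊ := by
      have : 1 ≤ ⌊η * ((S.C i).card : ℝ)⌋₊ := Nat.le_floor (by simpa using h2)
      exact_mod_cast this
    linarith
  refine ⟨A.biUnion Y, biUnion_mono fun i _ => hYC i, ?_, ?_, ?_, ?_⟩
  · intro i hi x hxU hxi
    have : x ∈ Y i := by rw [← hUi i hi]; exact mem_inter.2 ⟨hxU, hxi⟩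
    exact not_lt.1 (mem_filter.1 (hYs i this)).2
  · intro i hi
    rw [hUi i hi, hYc i]
    exact Nat.floor_le (by positivity)
  · intro i hi
    rw [hUi i hi]
    exact hfl i
  · have h1 : ((A.biUnion Y).card : ℝ) = ∑ i ∈ A, ((Y i).card : ℝ) := by
      have : (A.biUnion Y).card = ∑ i ∈ A, (Y i).card :=
        card_biUnion fun i _ j _ hij => disjoint_of_subset_left (hYC i)
          (disjoint_of_subset_right (hYC j) (S.disj i j hij))
      rw [this]; push_cast; rfl
    rw [h1, S.card_biUnion, mul_sum]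
    exact sum_le_sum fun i _ => hfl i

end Pool.Agent.T6A
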