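import Pool.Agent.T6A.Prob
import Pool.Agent.T6A.Top

/-!
# The world, the low graph and the statement LIM (MP_c6effb_co)

Unit of weight: `k`, the number of vertices of the original graph. `World` = clusters with weights
`w i` (number of free vertices of the cluster divided by `k`), `F` = blocked pairs (triangle-free),
`A` = a nearly heaviest `F`-independent set of clusters, `s` = bound for the weight of all
`F`-independent sets (`sigma`). `Low` = the graph `G` of the vertices of small degree, with `j v` =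
number of neighbours of `v` which are giants (already placed, all in one cluster of `A`), `E` = a few
exceptional vertices (the neighbours of the vertices of medium degree, which are already placed
too): `v` in `E` never leaves `A`; `Av v`, `Bv v` = the clusters of `A` resp. outside `A` which are
allowed for `v`; `Bd` = bad pairs of clusters (not regular or equal).
`Scheme` = what the random rule has to deliver: `g v` = the cluster of `A` of `v`, `b v = some y` if
`v` is in `T` and goes to the cluster `y` outside `A`.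
-/

set_option autoImplicit false

open Finset

namespace Pool.Agent.T6A

noncomputable section

/-- Weighted triangle-free graph with an independent set `A`. -/
structure World (ι : Type) [Fintype ι] where
  /-- weights -/
  w : ι → ℝ
  /-- blocked pairs -/
  F : SimpleGraph ι
  /-- the reserved independent set -/
  A : Finset ι
  /-- bound for the weight of independent sets -/
  s : ℝ
  pos : ∀ i, 0 < w i
  tri : F.CliqueFree 3
  ind : ∀ a ∈ A, ∀ a' ∈ A, ¬ F.Adj a a'
  max : ∀ S : Finset ι, (∀ a ∈ S, ∀ a' ∈ S, ¬ F.Adj a a') → ∑ i ∈ S, w i ≤ s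

/-- Total weight. -/
def World.tot {ι : Type} [Fintype ι] (X : World ι) : ℝ := ∑ i, X.w i

/-- Weight of `A`. -/
def World.sA {ι : Type} [Fintype ι] (X : World ι) : ℝ := ∑ i ∈ X.A, X.w i

/-- The data of the low graph. -/
structure Low (V ι : Type) where
  /-- the graph of the low vertices -/
  G : SimpleGraph V
  /-- number of giant neighbours -/
  j : V → ℕ
  /-- exceptional vertices -/
  E : Finset V
  /-- allowed clusters of `A` -/
  Av : V → Finset ι
  /-- allowed clusters outside `A` -/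
  Bv : V → Finset ι

open Classical in
/-- Degree in the low graph. -/
def Low.d {V ι : Type} [Fintype V] (L : Low V ι) (v : V) : ℕ := #{u | L.G.Adj v u}

open Classical in
/-- The hypotheses of LIM: `e` is the tolerance for weights, `ε` (small depending on the bound `K`
of the low degrees) the tolerance for bad pairs. -/
structure WorldOK {V ι : Type} [Fintype V] [Fintype ι] (X : World ι) (L : Low V ι)
    (Bd : ι → ι → Prop) (k Q : ℝ) (C K : ℕ) (e ε : ℝ) : Prop where
  k0 : 0 < k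
  cV : (Fintype.card V : ℝ) ≤ k
  cV' : (1 - e) * k ≤ (Fintype.card V : ℝ)
  tot1 : 1 + Q - e ≤ X.tot
  tot2 : X.tot ≤ 2 * C + 2
  deg : ∑ v, ((L.d v : ℝ) + 2 * L.j v) ≤ 2 * (X.tot - 1 + e) * k
  s1 : 1 / 2 - e ≤ X.s
  s2 : X.s - e ≤ X.sA
  Ec : (#L.E : ℝ) ≤ e * k
  mind : ∀ v, v ∉ L.E → X.tot - 1 - e ≤ (L.d v + L.j v : ℝ) * (X.s + e)
  dK : ∀ v, L.d v ≤ K
  jK : ∀ v, L.j v ≤ K
  bsymm : ∀ i i', Bd i i' → Bd i' i
  brefl : ∀ i, Bd i i
  bsmall : ∀ i, ∑ i' ∈ univ.filter (fun i' => Bd i i'), X.w i' ≤ ε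
  AvA : ∀ v, L.Av v ⊆ X.A
  Avw : ∀ v, ∑ i ∈ X.A \ L.Av v, X.w i ≤ ε
  BvA : ∀ v, Disjoint (L.Bv v) X.A
  BvE : ∀ v, v ∈ L.E → L.Bv v = ∅
  Bvw : ∀ v, v ∉ L.E → ∑ i ∈ univ.filter (fun i => i ∉ X.A ∧ i ∉ L.Bv v), X.w i ≤
    (if L.j v = 0 then 0 else X.s) + e

section scheme

variable {V ι Om : Type}

/-- `v` has to be placed at the very end: its cluster of `A` is not allowed or bad with the one of a
neighbour. -/
def zev (L : Low V ι) (Bd : ι → ι → Prop) (g : (V → Om) → V → ι) (ω : V → Om) (v : V) : Prop :=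
  g ω v ∉ L.Av v ∨ ∃ u, L.G.Adj v u ∧ Bd (g ω v) (g ω u)

/-- `v` must not be in `T`. -/
def badE (L : Low V ι) (Bd : ι → ι → Prop) (g : (V → Om) → V → ι) (b : (V → Om) → V → Option ι)
    (ω : V → Om) (v : V) : Prop :=
  zev L Bd g ω v ∨ (∃ u, L.G.Adj v u ∧ zev L Bd g ω u) ∨
    ∃ y, b ω v = some y ∧ ∃ u, L.G.Adj v u ∧ (Bd y (g ω u) ∨ ∃ y', b ω u = some y' ∧ Bd y y')

open Classical in
/-- What the random rule delivers. `φ a y` is the wanted number (divided by `k`) of vertices `v` with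
`g v = a` and `b v = some y` (and which are not bad); `e` = slack of the loads, `ζ` = bound for the
vertices which are placed at the end. -/
structure Scheme [Fintype V] [Fintype ι] [Fintype Om] (X : World ι) (L : Low V ι)
    (Bd : ι → ι → Prop) (k e ζ : ℝ) (B : ℕ) (p : V → Om → ℝ) (g : (V → Om) → V → ι)
    (b : (V → Om) → V → Option ι) (Bn : V → Finset V) (φ : ι → ι → ℝ) : Prop where
  law : IsLaw p
  loc : ∀ v, DepOn (fun ω => (g ω v, b ω v)) (Bn v)
  ov : ∀ v, #{u | ¬ Disjoint (Bn v) (Bn u)} ≤ B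
  mem : ∀ ω v y, b ω v = some y → y ∈ L.Bv v
  st : ∀ ω v y, b ω v = some y → ∀ u, L.G.Adj v u → ¬ X.F.Adj y (g ω u)
  tt : ∀ ω v y u y', b ω v = some y → b ω u = some y' → L.G.Adj v u → ¬ X.F.Adj y y'
  φ0 : ∀ a y, 0 ≤ φ a y
  φA : ∀ a y, y ∈ X.A → φ a y = 0
  cls : ∀ a ∈ X.A, ∀ y, φ a y * k ≤
    ∑ v, EE p (fun ω => if g ω v = a ∧ b ω v = some y ∧ ¬ badE L Bd g b ω v then 1 else 0)
  lA : ∀ a ∈ X.A, ∑ v, EE p (fun ω => if g ω v = a ∧ ¬ zev L Bd g ω v then 1 else 0) -
    ∑ y, φ a y * k ≤ (1 - e) * X.w a * k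
  lB : ∀ y, y ∉ X.A → ∑ a ∈ X.A, φ a y ≤ (1 - e) * X.w y
  out : ∑ v, EE p (fun ω => if zev L Bd g ω v then 1 else 0) ≤ ζ * k

end scheme

/-- **LIM**: the limit theorem. `C` = bound for the average degree, `e` = slack and tolerance, `K` =
bound for the low degrees, `ζ` = bound for the bad vertices. -/
def Lim (Q : ℝ) : Prop := ∀ C : ℕ, ∃ e : ℝ, 0 < e ∧ e ≤ 1 / 8 ∧ ∀ (K : ℕ) (ζ : ℝ), 0 < ζ →
  ∃ (B : ℕ) (ε : ℝ), 0 < ε ∧ ∀ (V ι : Type) [Fintype V] [Fintype ι] (X : World ι) (L : Low V ι)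
    (Bd : ι → ι → Prop) (k : ℝ), WorldOK X L Bd k Q C K e ε →
    ∃ (Om : Type) (_ : Fintype Om) (p : V → Om → ℝ) (g : (V → Om) → V → ι)
      (b : (V → Om) → V → Option ι) (Bn : V → Finset V) (φ : ι → ι → ℝ),
      Scheme X L Bd k e ζ B p g b Bn φ

end

end Pool.Agent.T6A
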