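import Pool.Agent.T6A.World
import Pool.Agent.T6A.Expect3

/-!
# From the world to the hypotheses of the expectation lemmas (MP_c6effb_co)

`X.mu` = the law `w / w(A)` on `A`, `X.wB` = the weights of the clusters outside `A` with
`n_b ≤ 1 / 2` (the profiles vanish on the other clusters), `σ = s + e`.
-/

set_option autoImplicit false

open Finset

namespace Pool.Agent.T6A

noncomputable section

open Classical

variable {ι : Type} [Fintype ι]

/-- The law on `A`. -/
def World.mu (X : World ι) (a : ι) : ℝ := if a ∈ X.A then X.w a / X.sA else 0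

/-- The weights of the clusters outside `A` with `n_b ≤ 1 / 2`. -/
def World.wB (X : World ι) (b : ι) : ℝ :=
  if b ∉ X.A ∧ nb X.F X.mu b ≤ 1 / 2 then X.w b else 0

theorem World.sA_nonneg (X : World ι) : 0 ≤ X.sA := sum_nonneg fun i _ => (X.pos i).le

theorem World.sA_le (X : World ι) : X.sA ≤ X.s := X.max X.A X.ind

theorem World.mu_nonneg (X : World ι) (a : ι) : 0 ≤ X.mu a := by
  unfold World.mu
  split_ifs
  · exact div_nonneg (X.pos a).le X.sA_nonneg
  · exact le_rfl

theorem World.mu_sum (X : World ι) (h : 0 < X.sA) : ∑ a, X.mu a = 1 := by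
  unfold World.mu
  rw [← sum_filter]
  have e : (univ.filter fun a => a ∈ X.A) = X.A := by ext a; simp
  rw [e, ← sum_div]
  exact div_self h.ne'

theorem World.mem_of_mu_pos (X : World ι) {a : ι} (h : 0 < X.mu a) : a ∈ X.A := by
  unfold World.mu at h
  by_contra hc
  rw [if_neg hc] at h
  exact lt_irrefl _ h

theorem World.mu_pos_iff (X : World ι) (h : 0 < X.sA) (a : ι) : 0 < X.mu a ↔ a ∈ X.A := by
  refine ⟨X.mem_of_mu_pos, fun ha => ?_⟩
  unfold World.mu
  rw [if_pos ha]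
  exact div_pos (X.pos a) h

theorem World.mu_mul (X : World ι) (h : 0 < X.sA) {a : ι} (ha : a ∈ X.A) :
    X.mu a * X.sA = X.w a := by
  unfold World.mu
  rw [if_pos ha, div_mul_cancel₀ _ h.ne']

theorem World.wB_nonneg (X : World ι) (b : ι) : 0 ≤ X.wB b := by
  unfold World.wB
  split_ifs
  · exact (X.pos b).le
  · exact le_rfl

theorem World.wB_le (X : World ι) (b : ι) : X.wB b ≤ X.w b := by
  unfold World.wB
  split_ifs
  · exact le_rfl
  · exact (X.pos b).le

theorem World.of_wB_pos (X : World ι) {b : ι} (h : 0 < X.wB b) :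
    b ∉ X.A ∧ nb X.F X.mu b ≤ 1 / 2 := by
  unfold World.wB at h
  by_contra hc
  rw [if_neg hc] at h
  exact lt_irrefl _ h

theorem World.wB_of (X : World ι) {b : ι} (h : b ∉ X.A) (h' : nb X.F X.mu b ≤ 1 / 2) :
    X.wB b = X.w b := by
  unfold World.wB
  rw [if_pos ⟨h, h'⟩]

/-- Neighbourhoods are independent. -/
theorem World.nbhd_indep (X : World ι) {b c c' : ι} (h : X.F.Adj b c) (h' : X.F.Adj b c') :
    ¬ X.F.Adj c c' := by
  intro hc
  refine X.tri {b, c, c'} ?_
  rw [SimpleGraph.is3Clique_triple_iff]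
  exact ⟨h, h', hc⟩

/-- The weight of a neighbourhood. -/
theorem World.row_le (X : World ι) (b : ι) : ∑ c, (if X.F.Adj b c then X.w c else 0) ≤ X.s := by
  rw [← sum_filter]
  refine X.max _ fun c hc c' hc' => ?_
  rw [mem_filter] at hc hc'
  exact X.nbhd_indep hc.2 hc'.2

/-- `w(N_A(b)) = w(A) n_b`. -/
theorem World.sum_nbA (X : World ι) (h : 0 < X.sA) (b : ι) :
    ∑ c, (if c ∈ X.A ∧ X.F.Adj b c then X.w c else 0) = X.sA * nb X.F X.mu b := by
  unfold nb
  rw [mul_sum]
  refine sum_congr rfl fun c _ => ?_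
  by_cases hc : c ∈ X.A <;> by_cases hb : X.F.Adj b c
  · rw [if_pos ⟨hc, hb⟩, if_pos hb.symm, mul_comm, X.mu_mul h hc]
  · rw [if_neg fun hh => hb hh.2, if_neg fun hh => hb hh.symm, mul_zero]
  · rw [if_neg fun hh => hc hh.1, if_pos hb.symm]
    unfold World.mu
    rw [if_neg hc, mul_zero]
  · rw [if_neg fun hh => hb hh.2, if_neg fun hh => hb hh.symm, mul_zero]

/-- The rows of `wB` at the clusters of `A`. -/
theorem World.rowB_le (X : World ι) (a : ι) : ∑ c, (if X.F.Adj a c then X.wB c else 0) ≤ X.s := by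
  refine le_trans (sum_le_sum fun c _ => ?_) (X.row_le a)
  split_ifs
  · exact X.wB_le c
  · exact le_rfl

/-- The rows of the weights outside `A`: `w(N(b) ∖ A) ≤ s - w(A) n_b`. -/
theorem World.rowOut_le (X : World ι) (h : 0 < X.sA) (b : ι) :
    ∑ c, (if X.F.Adj b c then (if c ∉ X.A then X.w c else 0) else 0)
      ≤ X.s - X.sA * nb X.F X.mu b := by
  rw [← X.sum_nbA h b, le_sub_iff_add_le, ← sum_add_distrib]
  refine le_trans (sum_le_sum fun c _ => ?_) (X.row_le b)
  by_cases hb : X.F.Adj b c <;> by_cases hc : c ∈ X.A <;> simp [hb, hc]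

/-- The rows of `wB` at the clusters outside `A`, `σ = s + e`. -/
theorem World.rowB_le' (X : World ι) {e : ℝ} (h : 0 < X.sA) (he : X.s - e ≤ X.sA) {b : ι}
    (hb : 0 < X.wB b) :
    ∑ c, (if X.F.Adj b c then X.wB c else 0) ≤ (X.s + e) * (1 - nb X.F X.mu b) := by
  have h1 : ∑ c, (if X.F.Adj b c then X.wB c else 0)
      ≤ ∑ c, (if X.F.Adj b c then (if c ∉ X.A then X.w c else 0) else 0) := by
    refine sum_le_sum fun c _ => ?_
    split_ifs with hbc hc
    · unfold World.wB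
      rw [if_neg fun hh => hh.1 hc]
    · exact X.wB_le c
    · exact le_rfl
  refine h1.trans ((X.rowOut_le h b).trans ?_)
  have h2 := (X.of_wB_pos hb).2
  have h3 := nb_nonneg (F := X.F) X.mu_nonneg b
  have h4 := X.sA_le
  nlinarith [mul_nonneg h3 (by linarith : 0 ≤ X.sA - (X.s - e))]

/-- A function which vanishes where `n_b > 1 / 2`: the weights may be replaced by `wB`. -/
theorem World.sum_wB (X : World ι) {B : Finset ι} (hB : Disjoint B X.A) (f : ι → ℝ)
    (hf : ∀ b ∈ B, 1 / 2 < nb X.F X.mu b → f b = 0) :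
    ∑ b ∈ B, X.wB b * f b = ∑ b ∈ B, X.w b * f b := by
  refine sum_congr rfl fun b hb => ?_
  by_cases h : nb X.F X.mu b ≤ 1 / 2
  · rw [X.wB_of (fun hh => disjoint_left.1 hB hb hh) h]
  · rw [hf b hb (not_le.1 h), mul_zero, mul_zero]

/-- `∑ w_B n_b ≤ s`. -/
theorem World.sum_n_le (X : World ι) (h : 0 < X.sA) (B : Finset ι) :
    ∑ b ∈ B, X.w b * nb X.F X.mu b ≤ X.s := by
  have h1 : ∑ b ∈ B, X.w b * nb X.F X.mu b ≤ ∑ b, X.w b * nb X.F X.mu b :=
    sum_le_sum_of_subset_of_nonneg (subset_univ B) fun b _ _ =>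
      mul_nonneg (X.pos b).le (nb_nonneg X.mu_nonneg b)
  exact h1.trans (sum_nb_le X.mu_nonneg (X.mu_sum h) fun a _ => X.row_le a)

/-- `J ≥ w(B) - s / ν`. -/
theorem World.J_ge (X : World ι) (h : 0 < X.sA) {B : Finset ι} (hB : Disjoint B X.A) {nu' : ℝ}
    (hnu : 2 ≤ nu') :
    ∑ b ∈ B, X.w b - nu' * X.s ≤ ∑ b, X.wB b * lin X.F X.mu B nu' b := by
  have h1 : ∑ b, X.wB b * lin X.F X.mu B nu' b = ∑ b ∈ B, X.w b * lin X.F X.mu B nu' b := by
    rw [← X.sum_wB hB]
    · refine (sum_subset (subset_univ B) fun b _ hb => ?_).symm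
      rw [lin, if_neg hb, mul_zero]
    · intro b hb hn
      rw [lin, if_pos hb, max_eq_left]
      nlinarith
  rw [h1]
  have h2 : ∑ b ∈ B, X.w b * (1 - nu' * nb X.F X.mu b) ≤ ∑ b ∈ B, X.w b * lin X.F X.mu B nu' b := by
    refine sum_le_sum fun b hb => mul_le_mul_of_nonneg_left ?_ (X.pos b).le
    rw [lin, if_pos hb]
    exact le_max_right _ _
  refine le_trans ?_ h2
  have h3 : ∑ b ∈ B, X.w b * (1 - nu' * nb X.F X.mu b)
      = ∑ b ∈ B, X.w b - nu' * ∑ b ∈ B, X.w b * nb X.F X.mu b := by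
    rw [mul_sum, ← sum_sub_distrib]
    exact sum_congr rfl fun b _ => by ring
  rw [h3]
  have := mul_le_mul_of_nonneg_left (X.sum_n_le h B) (by linarith : 0 ≤ nu')
  linarith

/-- `J ≤ w(B)`. -/
theorem World.J_le (X : World ι) (B : Finset ι) {nu' : ℝ} (hnu : 0 ≤ nu') :
    ∑ b, X.wB b * lin X.F X.mu B nu' b ≤ ∑ b ∈ B, X.w b := by
  refine le_trans (Pool.Agent.T6A.J_le X.mu_nonneg X.wB_nonneg B hnu) (sum_le_sum fun b _ => ?_)
  exact X.wB_le b

/-- The profile is at most `1` and vanishes where `n_b ≥ 1 / ν`. -/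
theorem lin_pos_iff {F : SimpleGraph ι} {μ : ι → ℝ} {B : Finset ι} {nu' : ℝ} {b : ι}
    (h : 0 < lin F μ B nu' b) : b ∈ B ∧ nu' * nb F μ b < 1 := by
  unfold lin at h
  split_ifs at h with hb
  · refine ⟨hb, ?_⟩
    by_contra hc
    push Not at hc
    rw [max_eq_left (by linarith)] at h
    exact lt_irrefl _ h
  · exact absurd h (lt_irrefl _)

section low

variable {V : Type} [Fintype V] {X : World ι} {L : Low V ι} {Bd : ι → ι → Prop}
  {k Q e ε : ℝ} {C K : ℕ}

/-- The weight outside `A`. -/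
def World.W (X : World ι) : ℝ := X.tot - X.sA

theorem World.sum_out (X : World ι) : ∑ b, (if b ∉ X.A then X.w b else 0) = X.W := by
  unfold World.W World.tot World.sA
  have h1 : ∑ b, X.w b = ∑ b, (if b ∉ X.A then X.w b else 0) + ∑ b ∈ X.A, X.w b := by
    rw [← sum_filter, ← sum_filter_not_add_sum_filter univ (fun b => b ∈ X.A)]
    congr 1
    refine sum_congr ?_ fun _ _ => rfl
    ext b; simp
  rw [h1]; ring

/-- `w(B_v) ≤ W`. -/
theorem World.W_ge (X : World ι) {B : Finset ι} (hB : Disjoint B X.A) : ∑ b ∈ B, X.w b ≤ X.W := by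
  rw [← X.sum_out]
  calc ∑ b ∈ B, X.w b = ∑ b ∈ B, (if b ∉ X.A then X.w b else 0) := by
        refine sum_congr rfl fun b hb => ?_
        rw [if_pos fun hh => disjoint_left.1 hB hb hh]
    _ ≤ _ := sum_le_sum_of_subset_of_nonneg (subset_univ B) fun b _ _ => by
        split_ifs
        exacts [le_rfl, (X.pos b).le]

theorem WorldOK.sA_pos (H : WorldOK X L Bd k Q C K e ε) (he : e ≤ 1 / 8) : 0 < X.sA := by
  have h1 := H.s1
  have h2 := H.s2
  linarith

/-- `w(B_v) ≥ W - [j_v > 0] s - e`. -/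
theorem WorldOK.wBv_ge (H : WorldOK X L Bd k Q C K e ε) {v : V} (hv : v ∉ L.E) :
    X.W - (if L.j v = 0 then 0 else X.s) - e ≤ ∑ b ∈ L.Bv v, X.w b := by
  have h1 := H.Bvw v hv
  have h2 : X.W = ∑ b ∈ L.Bv v, X.w b
      + ∑ i ∈ univ.filter (fun i => i ∉ X.A ∧ i ∉ L.Bv v), X.w i := by
    rw [← X.sum_out, ← sum_filter, ← sum_union]
    · refine sum_congr ?_ fun _ _ => rfl
      ext b
      simp only [mem_filter, mem_univ, true_and, mem_union]
      constructor
      · intro hb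
        by_cases hbv : b ∈ L.Bv v
        · exact Or.inl hbv
        · exact Or.inr ⟨hb, hbv⟩
      · rintro (hb | hb)
        · exact fun hh => disjoint_left.1 (H.BvA v) hb hh
        · exact hb.1
    · rw [disjoint_left]
      intro b hb hb'
      rw [mem_filter] at hb'
      exact hb'.2.2 hb
  rw [h2]
  linarith

theorem WorldOK.wBv_le (H : WorldOK X L Bd k Q C K e ε) (v : V) :
    ∑ b ∈ L.Bv v, X.w b ≤ X.W := X.W_ge (H.BvA v)

/-- `W ≥ 1 + Q - s - e`. -/
theorem WorldOK.W_lower (H : WorldOK X L Bd k Q C K e ε) : 1 + Q - X.s - e ≤ X.W := by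
  have h1 := H.tot1
  have h2 := X.sA_le
  unfold World.W
  linarith

/-- `W ≤ tot - s + e`. -/
theorem WorldOK.W_upper (H : WorldOK X L Bd k Q C K e ε) : X.W ≤ X.tot - X.s + e := by
  have h2 := H.s2
  unfold World.W
  linarith

/-- The budget: `∑ (d_v + 2 j_v) ≤ 2 (s + W - 1 + e) k`. -/
theorem WorldOK.budget (H : WorldOK X L Bd k Q C K e ε) :
    ∑ v, ((L.d v : ℝ) + 2 * L.j v) ≤ 2 * (X.s + X.W - 1 + e) * k := by
  refine H.deg.trans ?_
  have h1 := X.sA_le
  have h2 := H.k0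
  unfold World.W
  nlinarith

omit [Fintype ι] in
/-- The degree in the low graph is the size of the neighbourhood. -/
theorem Low.d_eq (L : Low V ι) (v : V) : L.d v = #(nbh L.G v) := rfl

end low

end

end Pool.Agent.T6A
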