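import Pool.Agent.T6A.WorldMu

/-!
# From the world to the expectation lemmas, general cut (MP_c6effb_co)

`X.wT θ` = the weights of the clusters outside `A` with `n_b ≤ θ`, `θ < 1`; rows with
`σ = s + κ e`, `κ ≥ θ / (1 - θ)`. `World.fun_ge`: `∑ w f(n_b) ≥ a w(B) - b s` if `f(n) ≥ a - b n`.
-/

set_option autoImplicit false

open Finset

namespace Pool.Agent.T6A

noncomputable section

open Classical

variable {ι : Type} [Fintype ι]

/-- The weights of the clusters outside `A` with `n_b ≤ θ`. -/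
def World.wT (X : World ι) (θ : ℝ) (b : ι) : ℝ :=
  if b ∉ X.A ∧ nb X.F X.mu b ≤ θ then X.w b else 0

theorem World.wT_nonneg (X : World ι) (θ : ℝ) (b : ι) : 0 ≤ X.wT θ b := by
  unfold World.wT
  split_ifs
  · exact (X.pos b).le
  · exact le_rfl

theorem World.wT_le (X : World ι) (θ : ℝ) (b : ι) : X.wT θ b ≤ X.w b := by
  unfold World.wT
  split_ifs
  · exact le_rfl
  · exact (X.pos b).le

theorem World.of_wT_pos (X : World ι) {θ : ℝ} {b : ι} (h : 0 < X.wT θ b) :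
    b ∉ X.A ∧ nb X.F X.mu b ≤ θ := by
  unfold World.wT at h
  by_contra hc
  rw [if_neg hc] at h
  exact lt_irrefl _ h

theorem World.wT_of (X : World ι) {θ : ℝ} {b : ι} (h : b ∉ X.A) (h' : nb X.F X.mu b ≤ θ) :
    X.wT θ b = X.w b := by
  unfold World.wT
  rw [if_pos ⟨h, h'⟩]

/-- The rows of `wT` at the clusters of `A`. -/
theorem World.rowT_le (X : World ι) (θ : ℝ) (a : ι) :
    ∑ c, (if X.F.Adj a c then X.wT θ c else 0) ≤ X.s := by
  refine le_trans (sum_le_sum fun c _ => ?_) (X.row_le a)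
  split_ifs
  · exact X.wT_le θ c
  · exact le_rfl

/-- The rows of `wT` at the clusters outside `A`, `σ = s + κ e` with `θ ≤ κ (1 - θ)`. -/
theorem World.rowT_le' (X : World ι) {e θ κ : ℝ} (h : 0 < X.sA) (he : X.s - e ≤ X.sA)
    (he0 : 0 ≤ e) (hκ : θ ≤ κ * (1 - θ)) (hκ0 : 0 ≤ κ) {b : ι} (hb : 0 < X.wT θ b) :
    ∑ c, (if X.F.Adj b c then X.wT θ c else 0) ≤ (X.s + κ * e) * (1 - nb X.F X.mu b) := by
  have h1 : ∑ c, (if X.F.Adj b c then X.wT θ c else 0)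
      ≤ ∑ c, (if X.F.Adj b c then (if c ∉ X.A then X.w c else 0) else 0) := by
    refine sum_le_sum fun c _ => ?_
    split_ifs with hbc hc
    · unfold World.wT
      rw [if_neg fun hh => hh.1 hc]
    · exact X.wT_le θ c
    · exact le_rfl
  refine h1.trans ((X.rowOut_le h b).trans ?_)
  obtain ⟨n, hn⟩ : ∃ n, n = nb X.F X.mu b := ⟨_, rfl⟩
  have h2 := (X.of_wT_pos hb).2
  have h3 := nb_nonneg (F := X.F) X.mu_nonneg b
  have h4 := X.sA_le
  rw [← hn] at h2 h3 ⊢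
  have h5 : n ≤ κ * (1 - n) := by nlinarith
  have h6 : n * e ≤ κ * (1 - n) * e := mul_le_mul_of_nonneg_right h5 he0
  have h7 : (X.s - e) * n ≤ X.sA * n := mul_le_mul_of_nonneg_right he h3
  nlinarith

/-- A function which vanishes where `n_b > θ`: the weights may be replaced by `wT`. -/
theorem World.sum_wT (X : World ι) {θ : ℝ} {B : Finset ι} (hB : Disjoint B X.A) (f : ι → ℝ)
    (hf : ∀ b ∈ B, θ < nb X.F X.mu b → f b = 0) :
    ∑ b ∈ B, X.wT θ b * f b = ∑ b ∈ B, X.w b * f b := by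
  refine sum_congr rfl fun b hb => ?_
  by_cases h : nb X.F X.mu b ≤ θ
  · rw [X.wT_of (fun hh => disjoint_left.1 hB hb hh) h]
  · rw [hf b hb (not_le.1 h), mul_zero, mul_zero]

/-- The profile `f (n_b)` on the set `B`. -/
def prf (F : SimpleGraph ι) (μ : ι → ℝ) (B : Finset ι) (f : ℝ → ℝ) (b : ι) : ℝ :=
  if b ∈ B then f (nb F μ b) else 0

theorem prf_nonneg {F : SimpleGraph ι} {μ : ι → ℝ} (h0 : ∀ x, 0 ≤ μ x) (h1 : ∑ x, μ x = 1)
    (B : Finset ι) {f : ℝ → ℝ} (hf : ∀ n, 0 ≤ n → n ≤ 1 → 0 ≤ f n) (b : ι) :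
    0 ≤ prf F μ B f b := by
  unfold prf
  split_ifs
  · exact hf _ (nb_nonneg h0 b) (nb_le_one h0 h1 b)
  · exact le_rfl

theorem of_prf_pos {F : SimpleGraph ι} {μ : ι → ℝ} {B : Finset ι} {f : ℝ → ℝ} {b : ι}
    (h : 0 < prf F μ B f b) : b ∈ B ∧ 0 < f (nb F μ b) := by
  unfold prf at h
  split_ifs at h with hb
  · exact ⟨hb, h⟩
  · exact absurd h (lt_irrefl _)

/-- **Lower bound by a line**: `∑ wT f(n_b) ≥ α w(B) - β s`. -/
theorem World.fun_ge (X : World ι) (h : 0 < X.sA) {θ : ℝ} {B : Finset ι} (hB : Disjoint B X.A)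
    {f : ℝ → ℝ} {α β : ℝ} (hβ : 0 ≤ β) (hf : ∀ n, θ < n → n ≤ 1 → f n = 0)
    (hl : ∀ n, 0 ≤ n → n ≤ 1 → α - β * n ≤ f n) :
    α * ∑ b ∈ B, X.w b - β * X.s ≤ ∑ b, X.wT θ b * prf X.F X.mu B f b := by
  have h1 : ∑ b, X.wT θ b * prf X.F X.mu B f b = ∑ b ∈ B, X.w b * prf X.F X.mu B f b := by
    rw [← X.sum_wT (θ := θ) hB]
    · refine (sum_subset (subset_univ B) fun b _ hb => ?_).symm
      rw [prf, if_neg hb, mul_zero]
    · intro b hb hn
      rw [prf, if_pos hb]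
      exact hf _ hn (nb_le_one X.mu_nonneg (X.mu_sum h) b)
  rw [h1]
  have h2 : ∑ b ∈ B, X.w b * (α - β * nb X.F X.mu b) ≤ ∑ b ∈ B, X.w b * prf X.F X.mu B f b := by
    refine sum_le_sum fun b hb => mul_le_mul_of_nonneg_left ?_ (X.pos b).le
    rw [prf, if_pos hb]
    exact hl _ (nb_nonneg X.mu_nonneg b) (nb_le_one X.mu_nonneg (X.mu_sum h) b)
  refine le_trans ?_ h2
  have h3 : ∑ b ∈ B, X.w b * (α - β * nb X.F X.mu b)
      = α * ∑ b ∈ B, X.w b - β * ∑ b ∈ B, X.w b * nb X.F X.mu b := by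
    rw [mul_sum, mul_sum, ← sum_sub_distrib]
    exact sum_congr rfl fun b _ => by ring
  rw [h3]
  have := mul_le_mul_of_nonneg_left (X.sum_n_le h B) hβ
  linarith

/-- **Upper bound by a constant**: `∑ wT f(n_b) ≤ M w(B)`. -/
theorem World.fun_le (X : World ι) (h : 0 < X.sA) {θ : ℝ} {B : Finset ι} {f : ℝ → ℝ} {M : ℝ}
    (hl : ∀ n, 0 ≤ n → n ≤ 1 → f n ≤ M) (hM : 0 ≤ M) :
    ∑ b, X.wT θ b * prf X.F X.mu B f b ≤ M * ∑ b ∈ B, X.w b := by
  have h1 : ∑ b, X.wT θ b * prf X.F X.mu B f b = ∑ b ∈ B, X.wT θ b * prf X.F X.mu B f b := by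
    refine (sum_subset (subset_univ B) fun b _ hb => ?_).symm
    rw [prf, if_neg hb, mul_zero]
  rw [h1, mul_sum]
  refine sum_le_sum fun b hb => ?_
  rw [prf, if_pos hb]
  have h2 := hl _ (nb_nonneg (F := X.F) X.mu_nonneg b) (nb_le_one X.mu_nonneg (X.mu_sum h) b)
  calc X.wT θ b * f (nb X.F X.mu b) ≤ X.wT θ b * M :=
        mul_le_mul_of_nonneg_left h2 (X.wT_nonneg θ b)
    _ ≤ X.w b * M := mul_le_mul_of_nonneg_right (X.wT_le θ b) hM
    _ = M * X.w b := mul_comm _ _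

/-- The removal of the neighbours of `a` and of `b` from such a sum: `∑ over c not ~ a, c not ~ b` is at
least the full sum minus `M w(N(a)) + M w(N(b))`, here for one cluster. -/
theorem World.fun_row_le (X : World ι) (h : 0 < X.sA) {θ : ℝ} {B : Finset ι} {f : ℝ → ℝ} {M : ℝ}
    (hl : ∀ n, 0 ≤ n → n ≤ 1 → f n ≤ M) (hM : 0 ≤ M) (a : ι) :
    ∑ c, (if X.F.Adj a c then X.wT θ c * prf X.F X.mu B f c else 0) ≤ M * X.s := by
  have h1 : ∑ c, (if X.F.Adj a c then X.wT θ c * prf X.F X.mu B f c else 0)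
      ≤ ∑ c, M * (if X.F.Adj a c then X.wT θ c else 0) := by
    refine sum_le_sum fun c _ => ?_
    split_ifs
    · rw [mul_comm]
      refine mul_le_mul_of_nonneg_right ?_ (X.wT_nonneg θ c)
      unfold prf
      split_ifs
      · exact hl _ (nb_nonneg (F := X.F) X.mu_nonneg c) (nb_le_one X.mu_nonneg (X.mu_sum h) c)
      · exact hM
    · rw [mul_zero]
  refine h1.trans ?_
  rw [← mul_sum]
  exact mul_le_mul_of_nonneg_left (X.rowT_le θ a) hM

end

end Pool.Agent.T6A
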